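import Mathlib
import Pool.Agent.H604.LD.StmP

/-!
# Additive characters over the `a` with `a ^ 2 + X` irreducible, `q` even (helper290)

`f_a = a ^ 2 + X`.  For every additive character `χ` of `K[X]` the sum of `χ a` over the monic `a`
of degree `d` with `f_a` irreducible is computed with a power saving.  The engine is helper604's
(`H604/LD`); new is that the divisors `D` of degree near `d` are treated together with the character
`χ (rt D)`, `rt D` the root of `X` modulo `D`.
-/

namespace Pool.Agent.H290.FX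

open Polynomial
open scoped Classical
open Pool.Agent.H985.Chow (mob lc)
open Pool.Agent.H985.KP (sg PA)
open Pool.Agent.H694.Typ (Mn)
open Pool.Agent.H604.LD (PiM S_cov S_hid S_landaup)

/-- The square root of `X` modulo `D` (unique for squarefree `D`). -/
noncomputable def rt {K : Type} [Field K] (D : K[X]) : K[X] :=
  if h : ∃ r : K[X], D ∣ r ^ 2 + X ∧ r.degree < D.degree then h.choose else 0

/-- **Task ROOT.**  Squarefree polynomials have exactly one root. (In a finite field of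
characteristic `2` squaring is a bijection; Chinese remainder theorem.  If `D ∣ r ^ 2 + X` then
`D` is squarefree, as the derivative of `r ^ 2 + X` is `1`.) -/
def S_root : Prop :=
  ∀ (K : Type) [Field K] [Fintype K] [CharP K 2] (D : K[X]), D.Monic →
    (Squarefree D → D ∣ rt D ^ 2 + X ∧ (rt D).degree < D.degree) ∧
    (∀ a : K[X], D ∣ a ^ 2 + X → Squarefree D ∧ D ∣ a - rt D)

/-- **Task KFIB.**  Cancellation on a good fibre `A₀ + m v ^ 2`, with the two characters.

This is `S_fib` of `H604/LD/StmP.lean` with `M = 1`, `b = 1`, `γ = 1` and `ξ = 0` (task FIB of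
helper187), and with the additional factors `χ (rt A) * χ' A`, `χ` and `χ'` arbitrary additive
characters.  Proof of the difference.  Let `s = c₁ e h`, `m A = T ^ 2 + X s ^ 2`, `T = T₀ + m v`,
and `A` squarefree (`mob A ≠ 0`).  Then `s`, `T`, `A` are pairwise coprime and `rt A ≡ T s⁻¹`
modulo `A`.  On the polynomials of degree `< n` one has `χ x = sg (coefficient of X⁻¹ in α x)` for a
Laurent series `α` in `1/X`; with `ξ_A` the polynomial part of `α A` this is
`sg (lc A (ξ_A x))` for `deg x < n = deg A`.  Note that `A ↦ ξ_A` is additive.  Reciprocity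
(`1 / (A s) = (s⁻¹ mod A) / A + (A⁻¹ mod s) / s` modulo polynomials, `A⁻¹ ≡ m T⁻²` modulo `s`):
`χ (rt A) = e (ξ_A T / (A s)) * e (ξ_A m T⁻¹ / s)` with `e` the character of the coefficient of
`X⁻¹`, and `e (ξ_A T / (A s)) = e (α T / s)` (degrees), an additive character of `v` times a
constant.  In `e (ξ_A m T⁻¹ / s)` one has `ξ_A = C + λ v`, `λ` ADDITIVE in `v`
(`A = A₀ + m v ^ 2`, and `v ↦ m v ^ 2` is additive).  In a window `T = Z + E u` with `e ^ 5 ∣ E` the
part modulo `e` is a constant times an additive character of `u`, and the part modulo a prime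
`P ∣ h` is `e_P u = e ((C + λ u) κ_P (Z + E u)⁻¹ / P)`.  These satisfy the hypothesis on the
factor `e` in `Pool.Agent.H604.LD.win4e` (`H604/LD/Win6a.lean`, the window bound with a further
factor that disappears after the differences, with `k = r = 1`): for a prime `P ∣ h''` the three
directions `h'' t_l` do not change `Z + E u` modulo `P`, and the product over the subsets of these
three directions is `e` of `(8 (C + λ u₀) + 4 ∑ λ (h'' t_l)) κ_P (Z + E u₀)⁻¹ / P`, and this is `1` in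
characteristic `2`; the same for `P ∣ h'` with the three directions `h' t_l`; additive characters
disappear also.  (Where `P ∣ Z + E u` put `e_P u = 1`; there `GP` is `0`.)  Also
`χ' (A₀ + m v ^ 2)` is a constant times an additive character of `v`. -/
def S_kfib : Prop :=
  ∀ (K : Type) [Field K] [Fintype K] [CharP K 2] (η : ℝ), 0 < η → ∃ c : ℝ, 0 < c ∧ ∃ n₀ : ℕ,
    ∀ (c₁ : K) (m A₀ e h P : K[X]) (n u a V : ℕ) (χ χ' : AddChar K[X] ℝ), n₀ ≤ n →
      m.Monic → Irreducible m → m.natDegree = u → A₀.Monic → A₀.natDegree = n → ¬ m ∣ A₀ →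
      c₁ ≠ 0 → e.Monic → h.Monic → IsCoprime e h → Squarefree h → IsCoprime m (e * h) →
      (C c₁ * (e * h)) ^ 2 = derivative (m * A₀) →
      P.Monic → Irreducible P → P.natDegree = a → P ∣ h →
      (e.natDegree : ℝ) ≤ η * n →
      u + 2 * V ≤ n → 2 * V + 5 * u + 3 * n ≤ 8 * (e * h).natDegree →
      ((e * h).natDegree : ℝ) + 40 * η * n ≤ V + a → (a : ℝ) + 40 * η * n ≤ V →
      (V : ℝ) + 10 * η * n ≤ 2 * ((e * h).natDegree - a) →
      |∑ᶠ v ∈ {v : K[X] | v.degree < (V : WithBot ℕ)},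
          (mob (A₀ + m * v ^ 2) : ℝ) * χ (rt (A₀ + m * v ^ 2)) * χ' (A₀ + m * v ^ 2)| ≤
        (Fintype.card K : ℝ) ^ ((V : ℝ) - c * n)

/-- The key estimate: the Möbius function, the character of the root and a character. -/
def S_key : Prop :=
  ∀ (K : Type) [Field K] [Fintype K] [CharP K 2], ∃ c : ℝ, 0 < c ∧ ∃ n₀ : ℕ,
    ∀ (n : ℕ) (χ χ' : AddChar K[X] ℝ), n₀ ≤ n →
      |∑ A ∈ Mn K n, (mob A : ℝ) * χ (rt A) * χ' A| ≤ (Fintype.card K : ℝ) ^ ((1 - c) * n)

/-- **Task KSUM.**  This is WSUM of helper604 (task of helper328) with `φ = 1`, `M = 1` and with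
`mob A * χ (rt A) * χ' A` instead of `pAx γ b M a₀ ξ A`; only the fibre estimate and the bound
`|…| ≤ 1` are used for the summand. -/
def S_tksum : Prop := S_cov → S_kfib → S_key

/-- The divisors of degree near `d`. -/
def S_nearx : Prop :=
  ∀ (K : Type) [Field K] [Fintype K] [CharP K 2], ∃ c θ : ℝ, 0 < c ∧ 0 < θ ∧ ∃ d₀ : ℕ,
    ∀ (d n : ℕ) (χ : AddChar K[X] ℝ), d₀ ≤ d → |(n : ℝ) - d| ≤ θ * d →
      |∑ a ∈ Mn K d, χ a * ∑ D ∈ (Mn K n).filter (fun D => D ∣ a ^ 2 + X), (mob D : ℝ)| ≤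
        (Fintype.card K : ℝ) ^ ((1 - c) * d)

/-- **Task NEARX.**  For `n ≤ d` one has `a = rt D + D s`, `s` monic of degree `d - n`: for fixed
`s` apply `S_key` with `χ` and `χ' D = χ (D s)`.  For `n > d` one has `a = rt D`; detect `rt D ∈ Mn d`
(the coefficients number `d, …, n - 1` of `rt D` are `1, 0, …, 0`) with the `q ^ (n - d)` additive
characters of these coefficients. -/
def S_tnearx : Prop := S_root → S_key → S_nearx

/-- **Task WEYLX.**  `S_weyl` of `H604/LD/Stm.lean` with an additive character of `c`, which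
disappears in the Weyl differencing (the proof of `S_weyl` is `H604/LD/Weyl.lean`). -/
def S_weylx : Prop :=
  ∀ (K : Type) [Field K] [Fintype K] [CharP K 2] (κ : ℝ), 0 < κ →
    ∃ c : ℝ, 0 < c ∧ ∃ d₀ : ℕ, ∀ (d : ℕ) (χ : AddChar K[X] ℝ), d₀ ≤ d → ∀ D r : K[X], D.Monic →
      (D.natDegree : ℝ) ≤ (1 - κ) * d → r.degree < (d : WithBot ℕ) →
      |∑ c ∈ Mn K (d - D.natDegree), χ c * (mob ((r + D * c) ^ 2 + X) : ℝ)| ≤
        (Fintype.card K : ℝ) ^ ((d : ℝ) - D.natDegree - c * d)

/-- The far twisted sums. -/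
def S_far2x : Prop :=
  ∀ (K : Type) [Field K] [Fintype K] [CharP K 2] (κ : ℝ), 0 < κ → ∃ c : ℝ, 0 < c ∧ ∃ d₀ : ℕ,
    ∀ (d j : ℕ) (χ : AddChar K[X] ℝ), d₀ ≤ d → (j : ℝ) ≤ (1 - κ) * d →
      |∑ a ∈ Mn K d, χ a * ((mob (a ^ 2 + X) : ℝ) *
          ∑ D ∈ (Mn K j).filter (fun D => D ∣ a ^ 2 + X), (mob D : ℝ))| ≤
        (Fintype.card K : ℝ) ^ ((1 - c) * d)

/-- **Task FAR2X.**  `a = rt D + D s`, `s ∈ Mn (d - j)`; `S_weylx` with `c ↦ χ (D c)` for every
`D`. -/
def S_tfar2x : Prop := S_root → S_weylx → S_far2x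

/-- **Task DUAL.**  Every additive character is, on the polynomials of degree `< d`, of the form
`sg` of the coefficient number `d - 1` of `H a`.  (`x ↦ sg (b x)`, `b ∈ K`, are all the characters of
`K`; the character on `K X ^ i` gives the coefficient number `d - 1 - i` of `H`.) -/
def S_dual : Prop :=
  ∀ (K : Type) [Field K] [Fintype K] [CharP K 2] (d : ℕ) (χ : AddChar K[X] ℝ),
    ∃ H : K[X], H.degree < (d : WithBot ℕ) ∧ ∀ a : K[X], a.degree < (d : WithBot ℕ) →
      χ a = sg ((H * a).coeff (d - 1))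

/-- `χ` is not trivial on the multiples, of degree less than `d`, of any monic polynomial of degree
at most `t`. -/
def Minor {K : Type} [Field K] (d t : ℕ) (χ : AddChar K[X] ℝ) : Prop :=
  ∀ r : K[X], r.Monic → r.natDegree ≤ t →
    ∃ s : K[X], (r * s).degree < (d : WithBot ℕ) ∧ χ (r * s) ≠ 1

/-- The far sums for the minor characters. -/
def S_far1x : Prop :=
  ∀ (K : Type) [Field K] [Fintype K] [CharP K 2] (d t j : ℕ) (χ : AddChar K[X] ℝ), j < d →
    Minor d t χ →
      |∑ a ∈ Mn K d, χ a * ∑ D ∈ (Mn K j).filter (fun D => D ∣ a ^ 2 + X), (mob D : ℝ)| ≤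
        (Fintype.card K : ℝ) ^ d / (Fintype.card K : ℝ) ^ t + (Fintype.card K : ℝ) ^ j

/-- **Task FAR1X.**  `a = rt D + D s`, `s ∈ Mn (d - j)`.  The sum over `s` of `χ (D s)` vanishes
unless `χ` is trivial on `D V_{d-j}` (`V_k` the polynomials of degree `< k`); so the sum is at most
`q ^ (d - j)` times the number of the `D` in the set `𝒟` of the `D ∈ Mn j` with this property.  Let
`H` be as in `S_dual`.  Then `D ∈ 𝒟` iff the coefficients number `j, …, d - 1` of `H D` vanish, iff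
`H D = X ^ d h_D + R_D` with `deg R_D < j` (and `deg h_D < j`).  If `𝒟` is not empty fix
`D₁ ∈ 𝒟`, `g = gcd (D₁, h_{D₁})` monic, `D₁ = g r`, `h_{D₁} = g h₀`, `ρ = deg r`.  Then
`H r = X ^ d h₀ + R_{D₁} / g` with `deg (R_{D₁} / g) < ρ`, so `χ` is trivial on the multiples of `r`
of degree `< d`, so `ρ > t`.  For `D ∈ 𝒟` the polynomial `h₀ D - h_D r` has degree `< j + ρ - d`
(multiply it by `X ^ d` and insert), and if two `D, D' ∈ 𝒟` give the same polynomial then
`r ∣ D - D'`, as `h₀` and `r` are coprime.  So `|𝒟| ≤ q ^ max (j + ρ - d, 0) * q ^ (j - ρ)`, and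
`q ^ (d - j) * |𝒟| ≤ max (q ^ j, q ^ (d - ρ))`. -/
def S_tfar1x : Prop := S_root → S_dual → S_far1x

/-- The exponential sum over the `a` with `a ^ 2 + X` irreducible. -/
noncomputable def SX (K : Type) [Field K] [Fintype K] (d : ℕ) (χ : AddChar K[X] ℝ) : ℝ :=
  ∑ a ∈ (Mn K d).filter (fun a => Irreducible (a ^ 2 + X)), χ a

/-- The bound for the minor characters. -/
def S_minor : Prop :=
  ∀ (K : Type) [Field K] [Fintype K] [CharP K 2] (θ : ℝ), 0 < θ → ∃ c : ℝ, 0 < c ∧ ∃ d₀ : ℕ,
    ∀ (d t : ℕ) (χ : AddChar K[X] ℝ), d₀ ≤ d → θ * d ≤ t → Minor d t χ →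
      |SX K d χ| ≤ (Fintype.card K : ℝ) ^ ((1 - c) * d)

/-- **Task FINX.**  `S_hid` for `f = a ^ 2 + X`, multiplied by `χ a` and summed over `a`:
`2 d SX = ∑_{j<d} (d-j) N_j - ∑_{j<d} (d-j) M_j`, `N_j = ∑_a χ a ∑_{D ∣ f_a, deg D = j} μ D`, and
`M_j` the same with the factor `μ (f_a)`.  `f_a` is squarefree, so with the complementary divisor
`M_j = N_{2d-j}`.  For `j ≤ (1-κ) d` use FAR1X for `N_j` and FAR2X for `M_j`; for
`(1-κ) d < j < d` use NEARX for `N_j` and for `M_j = N_{2d-j}`; `κ = θ` of NEARX. -/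
def S_tfinx : Prop := S_hid → S_nearx → S_far2x → S_far1x → S_minor

/-- The sum for the characters with a period `r` of small degree, `r` of minimal degree. -/
def S_major : Prop :=
  ∀ (K : Type) [Field K] [Fintype K] [CharP K 2], ∃ c θ : ℝ, 0 < c ∧ 0 < θ ∧ ∃ d₀ : ℕ,
    ∀ (d : ℕ) (χ : AddChar K[X] ℝ) (r : K[X]), d₀ ≤ d → r.Monic → (r.natDegree : ℝ) ≤ θ * d →
      (∀ s : K[X], (r * s).degree < (d : WithBot ℕ) → χ (r * s) = 1) →
      (∀ r' : K[X], r'.Monic → r'.natDegree < r.natDegree →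
        ∃ s : K[X], (r' * s).degree < (d : WithBot ℕ) ∧ χ (r' * s) ≠ 1) →
      |2 * (d : ℝ) * SX K d χ - (mob r : ℝ) * χ (rt r + r * X ^ (d - r.natDegree)) *
          ((Fintype.card K : ℝ) ^ (d - r.natDegree) / PiM r)| ≤
        (Fintype.card K : ℝ) ^ ((1 - c) * d)

/-- **Task MAJX.**  Let `ρ = deg r`.  Split `a = a₀ + r s`, `deg a₀ < ρ`, `s ∈ Mn (d - ρ)`; then
`χ a = χ a₀ χ (r X ^ (d-ρ))`.  The number of the `a ≡ a₀` modulo `r` with `f_a` irreducible is given
by `S_landaup` with `M = r`, `γ = b = α = 1`, `g = X ^ d`, `l = 0` if `f_{a₀}` is coprime to `r`, and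
is `0` otherwise (`ρ < 2 d`).  Then
`∑ χ a₀` over the `a₀` with `f_{a₀}` coprime to `r` is `∑_{E ∣ r} μ E ∑_{a₀ ≡ rt E (E)} χ a₀`, and
the inner sum over `a₀ = rt E + E s`, `deg s < ρ - deg E`, vanishes for `E ≠ r`: otherwise `χ` would
be trivial on the multiples of `E` of degree `< ρ`, so on all multiples of `E` of degree `< d`
(divide by `r`), against the minimality.  So the sum is `μ r * χ (rt r)`. -/
def S_tmajx : Prop := S_root → S_landaup → S_major

end Pool.Agent.H290.FX
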