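import Mathlib
import Pool.Agent.H290.FX.Stm
import Pool.Agent.H985.KP.Loc2

/-!
# Polynomials of small degree and additive characters (helper290)
-/

namespace Pool.Agent.H290.FX

open Polynomial
open scoped Classical
open Pool.Agent.H985.KP (sg PA)
open Pool.Agent.H694.Typ (Mn PU mem_Mn card_Mn)

/-- The polynomials of degree less than `d`. -/
noncomputable def Vs (K : Type) [Field K] [Fintype K] (d : ℕ) : Finset K[X] :=
  (Mn K d).image (fun a => a - X ^ d)

theorem mem_Vs {K : Type} [Field K] [Fintype K] {d : ℕ} {f : K[X]} :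
    f ∈ Vs K d ↔ f.degree < (d : WithBot ℕ) := by
  unfold Vs
  rw [Finset.mem_image]
  constructor
  · rintro ⟨a, ha, rfl⟩
    rw [mem_Mn] at ha
    have h1 : a.degree = ((X : K[X]) ^ d).degree := by
      rw [degree_X_pow, degree_eq_natDegree ha.1.ne_zero, ha.2]
    have h2 := degree_sub_lt_left h1 ha.1.ne_zero (by rw [ha.1.leadingCoeff, monic_X_pow d |>.leadingCoeff])
    rwa [degree_eq_natDegree ha.1.ne_zero, ha.2] at h2
  · intro hf
    refine ⟨X ^ d + f, ?_, by ring⟩
    rw [mem_Mn]
    refine ⟨monic_X_pow_add hf, ?_⟩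
    rw [natDegree_eq_of_degree_eq_some]
    rw [degree_add_eq_left_of_degree_lt (by rwa [degree_X_pow]), degree_X_pow]

theorem card_Vs {K : Type} [Field K] [Fintype K] (d : ℕ) :
    (Vs K d).card = Fintype.card K ^ d := by
  unfold Vs
  rw [Finset.card_image_of_injective _ (fun a b h => sub_left_injective h), card_Mn]

/-- The additive character of `H`: the sign of the coefficient number `d - 1` of `H a`. -/
noncomputable def ch {K : Type} [Field K] [Fintype K] [CharP K 2] (d : ℕ) (H : K[X]) :
    AddChar K[X] ℝ where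
  toFun a := sg ((H * a).coeff (d - 1))
  map_zero_eq_one' := by rw [mul_zero, coeff_zero, Pool.Agent.H985.KP.Loc2.sg_zero]
  map_add_eq_mul' a b := by rw [mul_add, coeff_add, Pool.Agent.H985.KP.Loc2.sg_add]

theorem ch_apply {K : Type} [Field K] [Fintype K] [CharP K 2] (d : ℕ) (H a : K[X]) :
    ch d H a = sg ((H * a).coeff (d - 1)) := rfl

theorem chi_pm {K : Type} [Field K] [CharP K 2] (χ : AddChar K[X] ℝ) (a : K[X]) :
    χ a = 1 ∨ χ a = -1 := by
  have h : χ a * χ a = 1 := by
    rw [← χ.map_add_eq_mul, CharTwo.add_self_eq_zero, χ.map_zero_eq_one]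
  exact mul_self_eq_one_iff.1 h

end Pool.Agent.H290.FX
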