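import Mathlib
import Pool.Agent.H290.FX.Vs

/-!
# Additive problems with the `a` with `a ^ 2 + X` irreducible, `q` even (helper290): statements

From the exponential sums (`S_minor`, `S_major` of `FX/Stm.lean`) to the pairs `a`, `a + h` for almost
all `h` and to the representations `c = a₁ + a₂ + a₃`.
-/

namespace Pool.Agent.H290.FX

open Polynomial
open scoped Classical
open Pool.Agent.H985.Chow (mob)
open Pool.Agent.H985.KP (sg PA)
open Pool.Agent.H694.Typ (Mn PU)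
open Pool.Agent.H604.LD (PiM)

/-- `r` is a period of `χ`, on the polynomials of degree `< d`. -/
def Per {K : Type} [Field K] (d : ℕ) (χ : AddChar K[X] ℝ) (r : K[X]) : Prop :=
  ∀ s : K[X], (r * s).degree < (d : WithBot ℕ) → χ (r * s) = 1

/-- `r` is the minimal period. -/
def MPer {K : Type} [Field K] (d : ℕ) (χ : AddChar K[X] ℝ) (r : K[X]) : Prop :=
  r.Monic ∧ Per d χ r ∧ ∀ r' : K[X], r'.Monic → r'.natDegree < r.natDegree → ¬ Per d χ r'

/-- **Task ORTH.**  Orthogonality.  (If `a ≠ 0` has degree `k` replace `H` by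
`H + C b * X ^ (d - 1 - k)` with `sg (b * leadingCoeff a) = -1`.) -/
def S_orth : Prop :=
  ∀ (K : Type) [Field K] [Fintype K] [CharP K 2] (d : ℕ) (a : K[X]),
    a.degree < (d : WithBot ℕ) →
    ∑ H ∈ Vs K d, ch d H a = if a = 0 then (Fintype.card K : ℝ) ^ d else 0

/-- The characters with period `r`. -/
def S_per : Prop :=
  ∀ (K : Type) [Field K] [Fintype K] [CharP K 2] (d : ℕ) (r b : K[X]), r.Monic →
    r.natDegree ≤ d → b.degree < (d : WithBot ℕ) →
    ∑ H ∈ (Vs K d).filter (fun H => Per d (ch d H) r), ch d H b =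
      if r ∣ b then (Fintype.card K : ℝ) ^ r.natDegree else 0

/-- **Task PER.**  The indicator function of `Per d (ch d H) r` is
`q ^ (ρ - d) * ∑ s ∈ Vs (d - ρ), ch d H (r * s)`, `ρ = deg r`; exchange the sums and use ORTH for
`b + r * s`. -/
def S_tper : Prop := S_orth → S_per

/-- **Task UNIQ.**  The minimal period divides the other periods.  Proof: let `g = gcd r r'`,
`deg (g s) < d`.  Division by `r`: `g s = r k + w`, `deg w < deg r`, `g ∣ w`.  Write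
`w = U r + V r'` with `deg U < deg (r' / g)`; then `U r` and `V r'` have degree
`< deg r + deg r' - deg g ≤ d`, or `≤ deg w`.  So `χ (g s) = 1`, `g` is a period and `deg g ≥ deg r`
by the minimality. -/
def S_uniq : Prop :=
  ∀ (K : Type) [Field K] [CharP K 2] (d : ℕ) (χ : AddChar K[X] ℝ) (r r' : K[X]), MPer d χ r →
    r'.Monic → Per d χ r' → r.natDegree + r'.natDegree ≤ d → r ∣ r'

/-- The Ramanujan sums. -/
def S_ram : Prop :=
  ∀ (K : Type) [Field K] [Fintype K] [CharP K 2] (d : ℕ) (r b : K[X]), r.Monic → Squarefree r →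
    2 * r.natDegree ≤ d → b.degree < (d : WithBot ℕ) →
    ∑ H ∈ (Vs K d).filter (fun H => MPer d (ch d H) r), ch d H b =
      ∏ᶠ P ∈ PA r, (if P ∣ b then (Fintype.card K : ℝ) ^ P.natDegree - 1 else -1)

/-- **Task RAM.**  `Per d χ r` holds iff `MPer d χ E` for a (unique, by UNIQ) monic divisor `E` of
`r`.  So `g r = ∑_{E ∣ r} f E` for `g`, `f` the sums of `S_per` and `S_ram`; as
`g r = ∏_{P ∣ r} g P`, induction on the number of the prime factors of `r` gives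
`f r = ∏_{P ∣ r} (g P - 1)` (`∑_{T ⊆ S} ∏_{T} (g P - 1) = ∏_S g P`). -/
def S_tram : Prop := S_per → S_uniq → S_ram

/-- The squarefree monic polynomials of degree at most `t`. -/
noncomputable def Sq (K : Type) [Field K] [Fintype K] (t : ℕ) : Finset K[X] :=
  ((Finset.range (t + 1)).biUnion (Mn K)).filter Squarefree

/-- **Task RANK.**  Completion of the singular series (Rankin's trick).  Let `N P = q ^ deg P`.  The
product over `PU K n` is the sum of `∏_{P ∣ r} lam P` over the squarefree monic `r` all of whose prime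
factors have degree `≤ n`; as `t ≤ n` the difference is a sum over such `r` with `deg r > t`, at
most `q ^ (-t/2) * ∏_{P ∈ PU K n} (1 + (N P) ^ (1/2) * |lam P|)`.  For `P ∤ h` the factor is at most
`1 + (N P) ^ (1/2) / (N P - 1) ^ 2 ≤ 1 + 4 (N P) ^ (-3/2)` and the product of these converges (there
are at most `q ^ u / u` primes of degree `u`); for `P ∣ h` it is at most
`1 + (N P) ^ (1/2) / (N P - 1) ≤ 3`, and the number of the `P ∣ h` is at most
`δ d + q ^ (1/δ + 1)` for every `δ > 0`. -/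
def S_rank : Prop :=
  ∀ (K : Type) [Field K] [Fintype K] (ε : ℝ), 0 < ε → ∃ C : ℝ, 0 < C ∧
    ∀ (lam : K[X] → ℝ) (h : K[X]) (d t n : ℕ), h ≠ 0 → h.natDegree ≤ d → t ≤ n →
      (∀ P : K[X], P.Monic → Irreducible P → |lam P| ≤
        if P ∣ h then 1 / ((Fintype.card K : ℝ) ^ P.natDegree - 1)
        else 1 / ((Fintype.card K : ℝ) ^ P.natDegree - 1) ^ 2) →
      |∏ P ∈ PU K n, (1 + lam P) - ∑ r ∈ Sq K t, ∏ᶠ P ∈ PA r, lam P| ≤
        C * (Fintype.card K : ℝ) ^ (ε * d - (t : ℝ) / 2)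

/-- **Task CONV.**  The partial products converge; the limit is bounded below. -/
def S_conv : Prop :=
  ∀ (K : Type) [Field K] [Fintype K] (δ : ℝ), 0 < δ → ∃ c₀ : ℝ, 0 < c₀ ∧
    ∀ (lam : K[X] → ℝ) (h : K[X]), h ≠ 0 →
      (∀ P : K[X], P.Monic → Irreducible P → P ∣ h → 0 ≤ lam P) →
      (∀ P : K[X], P.Monic → Irreducible P → ¬ P ∣ h →
        |lam P| ≤ 1 / ((Fintype.card K : ℝ) ^ P.natDegree - 1) ^ 2) →
      ∃ L : ℝ, Filter.Tendsto (fun n : ℕ => ∏ P ∈ PU K n, (1 + lam P)) Filter.atTop (nhds L) ∧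
        ((∀ P : K[X], P.Monic → Irreducible P → δ ≤ 1 + lam P) → c₀ ≤ L)

/-- The main term of `2 d * SX K d χ`: a sum over at most one `r`. -/
noncomputable def MT (K : Type) [Field K] [Fintype K] (d t : ℕ) (χ : AddChar K[X] ℝ) : ℝ :=
  ∑ r ∈ (Sq K t).filter (fun r => MPer d χ r),
    (mob r : ℝ) * χ (rt r + r * X ^ (d - r.natDegree)) *
      ((Fintype.card K : ℝ) ^ (d - r.natDegree) / PiM r)

/-- The exponential sum for all characters. -/
def S_four : Prop :=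
  ∀ (K : Type) [Field K] [Fintype K] [CharP K 2], ∃ c θ : ℝ, 0 < c ∧ 0 < θ ∧ θ ≤ 1 / 4 ∧
    ∃ d₀ : ℕ, ∀ (d t : ℕ) (χ : AddChar K[X] ℝ), d₀ ≤ d → t = ⌊θ * d⌋₊ →
      |2 * (d : ℝ) * SX K d χ - MT K d t χ| ≤ (Fintype.card K : ℝ) ^ ((1 - c) * d) ∧
      ((∃ r, MPer d χ r ∧ r.natDegree ≤ t) →
        |2 * (d : ℝ) * SX K d χ - MT K d t χ| ≤ (Fintype.card K : ℝ) ^ ((d : ℝ) - 2 * t))

/-- **Task FOUR.**  If `c₁`, `θ₁` are the constants of `S_major` put
`θ = min (θ₁, c₁ / 4, 1 / 4)` and then take `S_minor` with `θ / 2`.  If the minimal degree of a period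
is `> t` then `MT = 0` and `χ` is `Minor d t`; otherwise take a minimal period `r`; by
UNIQ it is the only one, `MT` is its term if `r` is squarefree, and `0 = mob r` otherwise. -/
def S_tfour : Prop := S_uniq → S_minor → S_major → S_four

/-- The mean square of the main term. -/
def S_l2 : Prop :=
  ∀ (K : Type) [Field K] [Fintype K] [CharP K 2] (θ : ℝ) (d₀ : ℕ), 0 < θ → θ ≤ 1 / 4 →
    (∀ (d t : ℕ) (χ : AddChar K[X] ℝ), d₀ ≤ d → t = ⌊θ * d⌋₊ →
      (∃ r, MPer d χ r ∧ r.natDegree ≤ t) →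
        |2 * (d : ℝ) * SX K d χ - MT K d t χ| ≤ (Fintype.card K : ℝ) ^ ((d : ℝ) - 2 * t)) →
    ∀ d t : ℕ, d₀ ≤ d → 1 ≤ d → t = ⌊θ * d⌋₊ →
      ∑ H ∈ Vs K d, (2 * (d : ℝ) * SX K d (ch d H)) ^ 2 ≤ 4 * (d : ℝ) ^ 2 * (Fintype.card K : ℝ) ^ (2 * d) ∧
      ∑ H ∈ Vs K d, (MT K d t (ch d H)) ^ 2 ≤ 16 * (d : ℝ) ^ 2 * (Fintype.card K : ℝ) ^ (2 * d)

/-- **Task L2.**  By ORTH `∑_H SX ^ 2 = q ^ d * #{a} ≤ q ^ (2 d)`.  If `MT ≠ 0` then there is a minimal
period of degree `≤ t`, and `MT ^ 2 ≤ 2 (2 d SX) ^ 2 + 2 (2 d SX - MT) ^ 2`; the number of the `H` with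
a minimal period of degree `≤ t` is by PER (with `b = 0`) at most
`∑_{ρ ≤ t} q ^ ρ q ^ ρ ≤ 2 q ^ (2 t)`. -/
def S_tl2 : Prop := S_orth → S_per → S_l2

/-- The main term for the pairs. -/
def S_mb : Prop :=
  ∀ (K : Type) [Field K] [Fintype K] [CharP K 2] (d t : ℕ) (h : K[X]), 2 * t ≤ d →
    h.degree < (d : WithBot ℕ) →
    ∑ H ∈ Vs K d, ch d H h * (MT K d t (ch d H)) ^ 2 =
      (Fintype.card K : ℝ) ^ (2 * d) * ∑ r ∈ Sq K t, ∏ᶠ P ∈ PA r,
        (if P ∣ h then 1 / ((Fintype.card K : ℝ) ^ P.natDegree - 1)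
          else -1 / ((Fintype.card K : ℝ) ^ P.natDegree - 1) ^ 2)

/-- **Task MB.**  As there is at most one minimal period (UNIQ) the square of `MT` is the sum of the
squares; the squares of `mob r` and of `χ` are `1`; exchange the sums and use RAM. -/
def S_tmb : Prop := S_uniq → S_ram → S_mb

/-- The main term for the sums of three. -/
def S_mt : Prop :=
  ∀ (K : Type) [Field K] [Fintype K] [CharP K 2] (d t : ℕ) (c : K[X]), 2 * t ≤ d →
    c.Monic → c.natDegree = d →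
    ∑ H ∈ Vs K d, ch d H c * (MT K d t (ch d H)) ^ 3 =
      (Fintype.card K : ℝ) ^ (3 * d) * ∑ r ∈ Sq K t, ∏ᶠ P ∈ PA r,
        (if P ∣ c ^ 2 + X then -1 / ((Fintype.card K : ℝ) ^ P.natDegree - 1) ^ 2
          else 1 / ((Fintype.card K : ℝ) ^ P.natDegree - 1) ^ 3)

/-- **Task MT.**  As MB; `χ ^ 3 = χ`, `χ c * χ (rt r + r X ^ (d - ρ)) = χ b` with
`b = c + r X ^ (d - ρ) + rt r` of degree `< d`, and for a prime `P ∣ r`:
`P ∣ b ↔ P ∣ c + rt r ↔ P ∣ c ^ 2 + X` (ROOT). -/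
def S_tmt : Prop := S_root → S_uniq → S_ram → S_mt

/-- **Pairs for almost all `h`.** -/
def S_bin : Prop :=
  ∀ (K : Type) [Field K] [Fintype K] [CharP K 2], ∃ (c c₀ : ℝ) (S : K[X] → ℝ), 0 < c ∧ 0 < c₀ ∧
    (∀ h : K[X], h ≠ 0 → Filter.Tendsto (fun n : ℕ => ∏ P ∈ PU K n,
      (if P ∣ h then 1 + 1 / ((Fintype.card K : ℝ) ^ P.natDegree - 1)
        else 1 - 1 / ((Fintype.card K : ℝ) ^ P.natDegree - 1) ^ 2)) Filter.atTop (nhds (S h)) ∧
      ((Fintype.card K = 2 → h.eval 0 = 0 ∧ h.eval 1 = 0) → c₀ ≤ S h)) ∧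
    ∃ d₀ : ℕ, ∀ d : ℕ, d₀ ≤ d →
      (((Vs K d).filter (fun h => h ≠ 0 ∧ (Fintype.card K : ℝ) ^ ((1 - c) * d) <
        |(((Mn K d).filter (fun a => Irreducible (a ^ 2 + X) ∧
            Irreducible ((a + h) ^ 2 + X))).card : ℝ) -
          S h * (Fintype.card K : ℝ) ^ d / (2 * (d : ℝ)) ^ 2|)).card : ℝ) ≤
        (Fintype.card K : ℝ) ^ ((1 - c) * d)

/-- **Task BIN.**  The number of the pairs is `q ^ (-d) ∑_H ch d H h * SX ^ 2` (ORTH).  With `MT`
instead of `2 d SX` one has the main term (MB).  The sum over `h ∈ Vs` of the square of the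
difference is `q ^ (-d) / (2 d) ^ 4 * ∑_H ((2 d SX) ^ 2 - MT ^ 2) ^ 2` (Parseval, from ORTH), and this is at most
`q ^ (-d) * max |2 d SX - MT| ^ 2 * 2 ∑_H ((2 d SX) ^ 2 + MT ^ 2)`, so `≤ q ^ ((3 - c) d)` by FOUR and L2.
So the difference is `≤ q ^ ((1 - c') d)` for all but `q ^ ((1 - c') d)` of the `h`.  Complete the
series with RANK (`n → ∞`, `ε` small, `t = ⌊θ d⌋`) and CONV. -/
def S_tbin : Prop := S_orth → S_four → S_l2 → S_mb → S_rank → S_conv → S_bin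

/-- **Sums of three.** -/
def S_ter : Prop :=
  ∀ (K : Type) [Field K] [Fintype K] [CharP K 2], ∃ (c c₀ : ℝ) (S : K[X] → ℝ), 0 < c ∧ 0 < c₀ ∧
    (∀ b : K[X], Filter.Tendsto (fun n : ℕ => ∏ P ∈ PU K n,
      (if P ∣ b ^ 2 + X then 1 - 1 / ((Fintype.card K : ℝ) ^ P.natDegree - 1) ^ 2
        else 1 + 1 / ((Fintype.card K : ℝ) ^ P.natDegree - 1) ^ 3)) Filter.atTop (nhds (S b)) ∧
      ((Fintype.card K = 2 → b.eval 0 = 1 ∧ b.eval 1 = 0) → c₀ ≤ S b)) ∧
    ∃ d₀ : ℕ, ∀ (d : ℕ) (b : K[X]), d₀ ≤ d → b.Monic → b.natDegree = d →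
      |(((Mn K d ×ˢ Mn K d ×ˢ Mn K d).filter (fun a => a.1 + a.2.1 + a.2.2 = b ∧
          Irreducible (a.1 ^ 2 + X) ∧ Irreducible (a.2.1 ^ 2 + X) ∧
          Irreducible (a.2.2 ^ 2 + X))).card : ℝ) -
        S b * (Fintype.card K : ℝ) ^ (2 * d) / (2 * (d : ℝ)) ^ 3| ≤
        (Fintype.card K : ℝ) ^ ((2 - c) * d)

/-- **Task TER.**  As BIN but pointwise: the number is `q ^ (-d) ∑_H ch d H b * SX ^ 3`, and the error is
at most `q ^ (-d) max |2 d SX - MT| * 2 ∑_H ((2 d SX) ^ 2 + MT ^ 2)`.  RANK and CONV with `h = 1`.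
(For `q = 2` the conditions say that no `P` of degree `1` divides `b ^ 2 + X`.) -/
def S_tter : Prop := S_orth → S_four → S_l2 → S_mt → S_rank → S_conv → S_ter

end Pool.Agent.H290.FX
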