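import Mathlib
import Pool.Agent.H290.FX.StmC

/-!
# Pairs for almost all `h` (task BIN)
-/

namespace Pool.Agent.H290.FX.PBin

open Polynomial
open scoped Classical
open Pool.Agent.H985.Chow (mob)
open Pool.Agent.H985.KP (sg PA)
open Pool.Agent.H694.Typ (Mn PU mem_Mn mem_PU)
open Pool.Agent.H604.LD (PiM)

theorem add_mem {K : Type} [Field K] [Fintype K] [CharP K 2] {d : ℕ} {a b : K[X]}
    (ha : a ∈ Mn K d) (hb : b ∈ Mn K d) : (a + b).degree < (d : WithBot ℕ) := by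
  have h1 : a - X ^ d ∈ Vs K d := Finset.mem_image_of_mem _ ha
  have h2 : b - X ^ d ∈ Vs K d := Finset.mem_image_of_mem _ hb
  rw [mem_Vs] at h1 h2
  have h3 : a + b = (a - X ^ d) + (b - X ^ d) := by
    have h4 : (X : K[X]) ^ d + X ^ d = 0 := CharTwo.add_self_eq_zero _
    linear_combination h4
  rw [h3]
  exact (degree_add_le _ _).trans_lt (max_lt h1 h2)

theorem add_Mn {K : Type} [Field K] [Fintype K] {d : ℕ} {a h : K[X]}
    (ha : a ∈ Mn K d) (hh : h.degree < (d : WithBot ℕ)) : a + h ∈ Mn K d := by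
  rw [mem_Mn] at ha ⊢
  have h1 : h.degree < a.degree := by rwa [degree_eq_natDegree ha.1.ne_zero, ha.2]
  refine ⟨ha.1.add_of_left h1, ?_⟩
  rw [natDegree_eq_of_degree_eq (degree_add_eq_left_of_degree_lt h1), ha.2]

theorem pairs (hO : S_orth) (K : Type) [Field K] [Fintype K] [CharP K 2] (d : ℕ) (h : K[X])
    (hh : h.degree < (d : WithBot ℕ)) :
    ∑ H ∈ Vs K d, ch d H h * (SX K d (ch d H)) ^ 2 =
      (Fintype.card K : ℝ) ^ d * (((Mn K d).filter (fun a => Irreducible (a ^ 2 + X) ∧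
        Irreducible ((a + h) ^ 2 + X))).card : ℝ) := by
  set A := (Mn K d).filter (fun a => Irreducible (a ^ 2 + X)) with hA
  have h1 : ∀ H ∈ Vs K d, ch d H h * (SX K d (ch d H)) ^ 2 =
      ∑ a ∈ A, ∑ b ∈ A, ch d H (h + (a + b)) := by
    intro H _
    unfold SX
    rw [← hA, sq, Finset.sum_mul_sum, Finset.mul_sum]
    refine Finset.sum_congr rfl fun a _ => ?_
    rw [Finset.mul_sum]
    refine Finset.sum_congr rfl fun b _ => ?_
    rw [AddChar.map_add_eq_mul, AddChar.map_add_eq_mul]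
  rw [Finset.sum_congr rfl h1, Finset.sum_comm]
  have h2 : ∀ a ∈ A, ∑ H ∈ Vs K d, ∑ b ∈ A, ch d H (h + (a + b)) =
      if a + h ∈ A then (Fintype.card K : ℝ) ^ d else 0 := by
    intro a ha
    rw [Finset.sum_comm]
    have h3 : ∀ b ∈ A, ∑ H ∈ Vs K d, ch d H (h + (a + b)) =
        if a + h = b then (Fintype.card K : ℝ) ^ d else 0 := by
      intro b hb
      have h4 : (a + b).degree < (d : WithBot ℕ) :=
        add_mem (Finset.mem_filter.1 ha).1 (Finset.mem_filter.1 hb).1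
      rw [hO K d (h + (a + b)) ((degree_add_le _ _).trans_lt (max_lt hh h4))]
      have h5 : h + (a + b) = 0 ↔ a + h = b := by
        have h6 : b + b = 0 := CharTwo.add_self_eq_zero _
        constructor
        · intro e
          linear_combination e - h6
        · intro e
          linear_combination e + h6
      simp only [h5]
    rw [Finset.sum_congr rfl h3, Finset.sum_ite_eq]
  rw [Finset.sum_congr rfl h2, ← Finset.sum_filter, Finset.sum_const, nsmul_eq_mul, mul_comm]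
  congr 2
  rw [hA, Finset.filter_filter]
  congr 1
  refine Finset.filter_congr fun a ha => ?_
  rw [Finset.mem_filter]
  constructor
  · rintro ⟨h3, -, h4⟩
    exact ⟨h3, h4⟩
  · rintro ⟨h3, h4⟩
    exact ⟨h3, add_Mn ha hh, h4⟩

theorem parseval (hO : S_orth) (K : Type) [Field K] [Fintype K] [CharP K 2] (d : ℕ)
    (f : K[X] → ℝ) :
    ∑ h ∈ Vs K d, (∑ H ∈ Vs K d, ch d H h * f H) ^ 2 =
      (Fintype.card K : ℝ) ^ d * ∑ H ∈ Vs K d, f H ^ 2 := by
  have h1 : ∀ h ∈ Vs K d, (∑ H ∈ Vs K d, ch d H h * f H) ^ 2 =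
      ∑ H ∈ Vs K d, ∑ H' ∈ Vs K d, f H * f H' * ch d h (H + H') := by
    intro h _
    rw [sq, Finset.sum_mul_sum]
    refine Finset.sum_congr rfl fun H _ => Finset.sum_congr rfl fun H' _ => ?_
    rw [AddChar.map_add_eq_mul, ch_apply, ch_apply, ch_apply, ch_apply, mul_comm H h,
      mul_comm H' h]
    ring
  rw [Finset.sum_congr rfl h1, Finset.sum_comm, Finset.mul_sum]
  refine Finset.sum_congr rfl fun H hH => ?_
  rw [Finset.sum_comm]
  have h2 : ∀ H' ∈ Vs K d, ∑ h ∈ Vs K d, f H * f H' * ch d h (H + H') =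
      if H = H' then (Fintype.card K : ℝ) ^ d * (f H * f H') else 0 := by
    intro H' hH'
    rw [← Finset.mul_sum, hO K d (H + H')
      ((degree_add_le _ _).trans_lt (max_lt (mem_Vs.1 hH) (mem_Vs.1 hH')))]
    have h5 : H + H' = 0 ↔ H = H' := by
      have h6 : H' + H' = 0 := CharTwo.add_self_eq_zero _
      constructor
      · intro e
        linear_combination e - h6
      · intro e
        linear_combination e + h6
    simp only [h5]
    split_ifs <;> ring
  rw [Finset.sum_congr rfl h2, Finset.sum_ite_eq, if_pos hH]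
  ring

theorem mean (hO : S_orth) (K : Type) [Field K] [Fintype K] [CharP K 2] (d t : ℕ) (M : ℝ)
    (hM : ∀ H ∈ Vs K d, |2 * (d : ℝ) * SX K d (ch d H) - MT K d t (ch d H)| ≤ M)
    (h1 : ∑ H ∈ Vs K d, (2 * (d : ℝ) * SX K d (ch d H)) ^ 2 ≤
      4 * (d : ℝ) ^ 2 * (Fintype.card K : ℝ) ^ (2 * d))
    (h2 : ∑ H ∈ Vs K d, (MT K d t (ch d H)) ^ 2 ≤
      16 * (d : ℝ) ^ 2 * (Fintype.card K : ℝ) ^ (2 * d)) :
    ∑ h ∈ Vs K d, (∑ H ∈ Vs K d, ch d H h *
      ((2 * (d : ℝ) * SX K d (ch d H)) ^ 2 - (MT K d t (ch d H)) ^ 2)) ^ 2 ≤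
      (Fintype.card K : ℝ) ^ d * (M ^ 2 * (40 * (d : ℝ) ^ 2 * (Fintype.card K : ℝ) ^ (2 * d))) := by
  rw [parseval hO K d]
  refine mul_le_mul_of_nonneg_left ?_ (by positivity)
  have h3 : ∀ H ∈ Vs K d, ((2 * (d : ℝ) * SX K d (ch d H)) ^ 2 - (MT K d t (ch d H)) ^ 2) ^ 2 ≤
      M ^ 2 * (2 * (2 * (d : ℝ) * SX K d (ch d H)) ^ 2 + 2 * (MT K d t (ch d H)) ^ 2) := by
    intro H hH
    have h4 := hM H hH
    set u := 2 * (d : ℝ) * SX K d (ch d H)
    set m := MT K d t (ch d H)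
    have h5 : (u - m) ^ 2 ≤ M ^ 2 := by
      rw [← sq_abs]
      exact pow_le_pow_left₀ (abs_nonneg _) h4 2
    have h6 : (u + m) ^ 2 ≤ 2 * u ^ 2 + 2 * m ^ 2 := by nlinarith [sq_nonneg (u - m)]
    calc (u ^ 2 - m ^ 2) ^ 2 = (u - m) ^ 2 * (u + m) ^ 2 := by ring
      _ ≤ _ := mul_le_mul h5 h6 (sq_nonneg _) (sq_nonneg _)
  refine (Finset.sum_le_sum h3).trans ?_
  rw [← Finset.mul_sum, Finset.sum_add_distrib, ← Finset.mul_sum, ← Finset.mul_sum]
  refine mul_le_mul_of_nonneg_left ?_ (sq_nonneg _)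
  linarith

theorem grow {q c B : ℝ} (hq : 1 < q) (hc : 0 < c) :
    ∀ᶠ d : ℕ in Filter.atTop, B * (d : ℝ) ^ 2 ≤ q ^ (c * d) := by
  have h1 := (tendsto_pow_const_div_const_pow_of_one_lt 2
    (Real.one_lt_rpow hq hc)).const_mul B
  rw [mul_zero] at h1
  filter_upwards [h1.eventually (gt_mem_nhds one_pos)] with d hd
  rw [Real.rpow_mul (by linarith), Real.rpow_natCast]
  have h2 : 0 < (q ^ c) ^ d := by positivity
  rw [← mul_div_assoc, div_lt_one h2] at hd
  exact hd.le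

/-- The count of the exceptional `h`. -/
theorem count {α : Type} (s : Finset α) (F E : α → ℝ) (q c c1 R : ℝ) (d : ℕ) (hd : 1 ≤ d)
    (hq : 1 < q) (hc : 3 * c ≤ c1) (h40 : 40 * (d : ℝ) ^ 2 ≤ q ^ (c1 * d))
    (hF : ∀ h ∈ s, |F h - q ^ (d : ℝ) * ((2 * (d : ℝ)) ^ 2 * E h)| ≤ q ^ ((2 : ℝ) * d) * R)
    (hR : R ≤ q ^ (-(c * d))) (hE : ∀ h ∈ s, q ^ ((1 - c) * d) < |E h|)
    (hs : ∑ h ∈ s, F h ^ 2 ≤
      q ^ (d : ℝ) * ((q ^ ((1 - c1) * d)) ^ 2 * (40 * (d : ℝ) ^ 2 * q ^ ((2 : ℝ) * d)))) :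
    (s.card : ℝ) ≤ q ^ ((1 - c) * d) := by
  have hq0 : 0 < q := by linarith
  have hd' : (1 : ℝ) ≤ d := by exact_mod_cast hd
  have h1 : ∀ h ∈ s, (q ^ ((2 - c) * d)) ^ 2 ≤ F h ^ 2 := by
    intro h hh
    have h2 : q ^ ((2 - c) * d) ≤ |F h| := by
      have h3 := hF h hh
      have h4 := hE h hh
      have h5 : q ^ (d : ℝ) * ((2 * (d : ℝ)) ^ 2 * |E h|) ≤ |F h| + q ^ ((2 : ℝ) * d) * R := by
        have h6 : |q ^ (d : ℝ) * ((2 * (d : ℝ)) ^ 2 * E h)| =
            q ^ (d : ℝ) * ((2 * (d : ℝ)) ^ 2 * |E h|) := by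
          rw [abs_mul, abs_mul, abs_of_pos (Real.rpow_pos_of_pos hq0 _),
            abs_of_nonneg (sq_nonneg (2 * (d : ℝ)))]
        rw [← h6]
        have h7 := abs_sub_abs_le_abs_sub (q ^ (d : ℝ) * ((2 * (d : ℝ)) ^ 2 * E h)) (F h)
        rw [abs_sub_comm] at h7
        linarith
      have h8 : q ^ ((2 : ℝ) * d) * R ≤ q ^ ((2 - c) * d) := by
        have : q ^ ((2 - c) * (d : ℝ)) = q ^ ((2 : ℝ) * d) * q ^ (-(c * d)) := by
          rw [← Real.rpow_add hq0]
          congr 1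
          ring
        rw [this]
        exact mul_le_mul_of_nonneg_left hR (Real.rpow_pos_of_pos hq0 _).le
      have h9 : q ^ (d : ℝ) * ((2 * (d : ℝ)) ^ 2 * q ^ ((1 - c) * d)) =
          (2 * (d : ℝ)) ^ 2 * q ^ ((2 - c) * d) := by
        have : q ^ ((2 - c) * (d : ℝ)) = q ^ (d : ℝ) * q ^ ((1 - c) * d) := by
          rw [← Real.rpow_add hq0]
          congr 1
          ring
        rw [this]
        ring
      have h10 : q ^ (d : ℝ) * ((2 * (d : ℝ)) ^ 2 * q ^ ((1 - c) * d)) ≤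
          q ^ (d : ℝ) * ((2 * (d : ℝ)) ^ 2 * |E h|) := by
        gcongr
      have h11 : 0 < q ^ ((2 - c) * (d : ℝ)) := Real.rpow_pos_of_pos hq0 _
      have h12 : 2 * q ^ ((2 - c) * (d : ℝ)) ≤ (2 * (d : ℝ)) ^ 2 * q ^ ((2 - c) * d) := by
        refine mul_le_mul_of_nonneg_right ?_ h11.le
        nlinarith
      linarith
    rw [← sq_abs (F h)]
    exact pow_le_pow_left₀ (Real.rpow_pos_of_pos hq0 _).le h2 2
  have h2 := Finset.card_nsmul_le_sum s (fun h => F h ^ 2) _ h1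
  rw [nsmul_eq_mul] at h2
  have h3 := h2.trans hs
  have h4 : (0 : ℝ) < (q ^ ((2 - c) * (d : ℝ))) ^ 2 := by positivity
  refine le_of_mul_le_mul_right (h3.trans ?_) h4
  have e1 : q ^ ((1 - c) * (d : ℝ)) * (q ^ ((2 - c) * (d : ℝ))) ^ 2 =
      q ^ (d : ℝ) * ((q ^ ((1 - c1) * (d : ℝ))) ^ 2 *
        (q ^ ((2 * c1 - 3 * c) * (d : ℝ)) * q ^ ((2 : ℝ) * d))) := by
    rw [← Real.rpow_natCast, ← Real.rpow_natCast, ← Real.rpow_mul hq0.le, ← Real.rpow_mul hq0.le,
      ← Real.rpow_add hq0, ← Real.rpow_add hq0, ← Real.rpow_add hq0, ← Real.rpow_add hq0]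
    congr 1
    push_cast
    ring
  rw [e1]
  have h5 : 40 * (d : ℝ) ^ 2 ≤ q ^ ((2 * c1 - 3 * c) * (d : ℝ)) := by
    refine h40.trans (Real.rpow_le_rpow_of_exponent_le hq.le ?_)
    refine mul_le_mul_of_nonneg_right ?_ (by linarith)
    linarith
  gcongr

/-- The local factors, minus `1`. -/
noncomputable def lam (K : Type) [Field K] [Fintype K] (h P : K[X]) : ℝ :=
  if P ∣ h then 1 / ((Fintype.card K : ℝ) ^ P.natDegree - 1)
    else -1 / ((Fintype.card K : ℝ) ^ P.natDegree - 1) ^ 2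

section

variable {K : Type} [Field K] [Fintype K]

theorem two_le {P : K[X]} (hP : Irreducible P) : (2 : ℝ) ≤ (Fintype.card K : ℝ) ^ P.natDegree := by
  have h1 : 1 < Fintype.card K := Fintype.one_lt_card
  have h2 : 1 ≤ P.natDegree := hP.natDegree_pos
  have h3 : 2 ^ 1 ≤ Fintype.card K ^ P.natDegree :=
    (Nat.pow_le_pow_right (by norm_num) h2).trans (Nat.pow_le_pow_left h1 _)
  exact_mod_cast h3

theorem lam_nonneg {h P : K[X]} (hP : Irreducible P) (hd : P ∣ h) : 0 ≤ lam K h P := by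
  unfold lam
  rw [if_pos hd]
  have := two_le hP
  exact div_nonneg zero_le_one (by linarith)

theorem abs_lam {h P : K[X]} (hP : Irreducible P) :
    |lam K h P| ≤ if P ∣ h then 1 / ((Fintype.card K : ℝ) ^ P.natDegree - 1)
      else 1 / ((Fintype.card K : ℝ) ^ P.natDegree - 1) ^ 2 := by
  have h2 := two_le hP
  unfold lam
  split_ifs with hd
  · rw [abs_of_nonneg (div_nonneg zero_le_one (by linarith))]
  · rw [neg_div, abs_neg, abs_of_nonneg (by positivity)]

theorem one_add_lam (h P : K[X]) :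
    1 + lam K h P = if P ∣ h then 1 + 1 / ((Fintype.card K : ℝ) ^ P.natDegree - 1)
      else 1 - 1 / ((Fintype.card K : ℝ) ^ P.natDegree - 1) ^ 2 := by
  unfold lam
  split_ifs with hd
  · rfl
  · ring

theorem lam_low {h : K[X]} (hh : Fintype.card K = 2 → h.eval 0 = 0 ∧ h.eval 1 = 0) {P : K[X]}
    (hP : P.Monic) (hP' : Irreducible P) : (3 / 4 : ℝ) ≤ 1 + lam K h P := by
  by_cases hd : P ∣ h
  · have := lam_nonneg hP' hd
    linarith
  have h1 : 1 < Fintype.card K := Fintype.one_lt_card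
  have h2 : 1 ≤ P.natDegree := hP'.natDegree_pos
  have h3 : 3 ≤ Fintype.card K ^ P.natDegree := by
    by_cases hq : Fintype.card K = 2
    · by_cases hn : P.natDegree = 1
      · exfalso
        apply hd
        have hc : ∀ x : K, x = 0 ∨ x = 1 := by
          intro x
          by_contra hcon
          push Not at hcon
          have : ({x, 0, 1} : Finset K).card ≤ Fintype.card K := Finset.card_le_univ _
          rw [Finset.card_insert_of_notMem (by simp [hcon.1, hcon.2]),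
            Finset.card_insert_of_notMem (by simp), Finset.card_singleton] at this
          omega
        have hX : P = X - C (-(P.coeff 0)) := by
          rw [C_neg, sub_neg_eq_add]
          conv_lhs => rw [hP.eq_X_add_C hn]
        rw [hX, dvd_iff_isRoot, IsRoot.def]
        rcases hc (-(P.coeff 0)) with e | e
        · rw [e]
          exact (hh hq).1
        · rw [e]
          exact (hh hq).2
      · calc 3 ≤ 2 ^ 2 := by norm_num
          _ ≤ 2 ^ P.natDegree := Nat.pow_le_pow_right (by norm_num) (by omega)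
          _ = _ := by rw [hq]
    · calc 3 ≤ Fintype.card K := by omega
        _ = Fintype.card K ^ 1 := (pow_one _).symm
        _ ≤ _ := Nat.pow_le_pow_right (by omega) h2
  rw [one_add_lam, if_neg hd]
  have h4 : (3 : ℝ) ≤ (Fintype.card K : ℝ) ^ P.natDegree := by exact_mod_cast h3
  have h5 : 1 / ((Fintype.card K : ℝ) ^ P.natDegree - 1) ^ 2 ≤ 1 / 4 := by
    apply one_div_le_one_div_of_le (by norm_num)
    nlinarith
  linarith

end

theorem main : S_tbin := by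
  intro hO hF hL hMB hR hC K _ _ _
  obtain ⟨c1, θ, hc1, hθ, hθ4, d1, hF⟩ := hF K
  have hq : (1 : ℝ) < Fintype.card K := by exact_mod_cast Fintype.one_lt_card
  have hq0 : (0 : ℝ) < Fintype.card K := by linarith
  obtain ⟨C, hC0, hR⟩ := hR K (θ / 4) (by positivity)
  obtain ⟨c₀, hc₀, hC⟩ := hC K (3 / 4) (by norm_num)
  have hlim : ∀ h : K[X], h ≠ 0 → ∃ L : ℝ,
      Filter.Tendsto (fun n : ℕ => ∏ P ∈ PU K n, (1 + lam K h P)) Filter.atTop (nhds L) ∧
        ((∀ P : K[X], P.Monic → Irreducible P → 3 / 4 ≤ 1 + lam K h P) → c₀ ≤ L) := by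
    intro h hh
    refine hC (lam K h) h hh (fun P _ hP hd => lam_nonneg hP hd) (fun P _ hP hd => ?_)
    have := abs_lam (h := h) hP
    rwa [if_neg hd] at this
  obtain ⟨S, hS⟩ : ∃ S : K[X] → ℝ, ∀ h : K[X], h ≠ 0 →
      Filter.Tendsto (fun n : ℕ => ∏ P ∈ PU K n, (1 + lam K h P)) Filter.atTop (nhds (S h)) ∧
        ((∀ P : K[X], P.Monic → Irreducible P → 3 / 4 ≤ 1 + lam K h P) → c₀ ≤ S h) := by
    refine ⟨fun h => if hh : h ≠ 0 then (hlim h hh).choose else 0, fun h hh => ?_⟩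
    simp only [dif_pos hh]
    exact (hlim h hh).choose_spec
  have hc : 0 < min (θ / 8) (c1 / 3) := lt_min (by positivity) (by positivity)
  set c := min (θ / 8) (c1 / 3) with hcdef
  have hcθ : c ≤ θ / 8 := min_le_left _ _
  have hcc : 3 * c ≤ c1 := by
    have : c ≤ c1 / 3 := min_le_right _ _
    linarith
  refine ⟨c, c₀, S, hc, hc₀, fun h hh => ⟨?_, fun h2 => (hS h hh).2 fun P hP hP' =>
    lam_low h2 hP hP'⟩, ?_⟩
  · have := (hS h hh).1
    simp only [one_add_lam] at this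
    exact this
  obtain ⟨d2, hd2⟩ := Filter.eventually_atTop.1 (grow (B := 40) hq hc1)
  obtain ⟨d3, hd3⟩ := Filter.eventually_atTop.1
    (grow (B := C * (Fintype.card K : ℝ)) hq (show 0 < θ / 8 by positivity))
  refine ⟨max (max d1 1) (max d2 d3), fun d hd => ?_⟩
  have hd1 : d1 ≤ d := (le_max_left _ _).trans ((le_max_left _ _).trans hd)
  have hd0 : 1 ≤ d := (le_max_right _ _).trans ((le_max_left _ _).trans hd)
  have hdR : (1 : ℝ) ≤ d := by exact_mod_cast hd0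
  have h40 := hd2 d ((le_max_left _ _).trans ((le_max_right _ _).trans hd))
  have hCq := hd3 d ((le_max_right _ _).trans ((le_max_right _ _).trans hd))
  obtain ⟨t, ht⟩ : ∃ t : ℕ, t = ⌊θ * d⌋₊ := ⟨_, rfl⟩
  have ht1 : (t : ℝ) ≤ θ * d := by
    rw [ht]
    exact Nat.floor_le (by positivity)
  have ht2 : θ * d < t + 1 := by
    rw [ht]
    exact Nat.lt_floor_add_one _
  have ht3 : 2 * t ≤ d := by
    have : (2 : ℝ) * t ≤ d := by nlinarith
    exact_mod_cast this
  have hl2 := hL K θ d1 hθ hθ4 (fun d' t' χ h1 h2 h3 => (hF d' t' χ h1 h2).2 h3) d t hd1 hd0 ht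
  have hmean := mean hO K d t _ (fun H _ => (hF d t (ch d H) hd1 ht).1) hl2.1 hl2.2
  set N : K[X] → ℝ := fun h => (((Mn K d).filter (fun a => Irreducible (a ^ 2 + X) ∧
        Irreducible ((a + h) ^ 2 + X))).card : ℝ) with hN
  set F : K[X] → ℝ := fun h => ∑ H ∈ Vs K d, ch d H h *
      ((2 * (d : ℝ) * SX K d (ch d H)) ^ 2 - (MT K d t (ch d H)) ^ 2) with hFdef
  set Sr : K[X] → ℝ := fun h => ∑ r ∈ Sq K t, ∏ᶠ P ∈ PA r, lam K h P with hSr
  have hFe : ∀ h ∈ Vs K d, F h = (Fintype.card K : ℝ) ^ d * ((2 * (d : ℝ)) ^ 2 * N h) -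
      (Fintype.card K : ℝ) ^ (2 * d) * Sr h := by
    intro h hh
    rw [mem_Vs] at hh
    have e1 := pairs hO K d h hh
    have e2 := hMB K d t h ht3 hh
    have e3 : F h = (2 * (d : ℝ)) ^ 2 * ∑ H ∈ Vs K d, ch d H h * (SX K d (ch d H)) ^ 2 -
        ∑ H ∈ Vs K d, ch d H h * (MT K d t (ch d H)) ^ 2 := by
      rw [hFdef, Finset.mul_sum, ← Finset.sum_sub_distrib]
      refine Finset.sum_congr rfl fun H _ => ?_
      ring
    rw [e3, e1, e2, hSr, hN]
    simp only [lam]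
    ring
  have hser : ∀ h ∈ Vs K d, h ≠ 0 → |S h - Sr h| ≤
      C * (Fintype.card K : ℝ) ^ (θ / 4 * d - (t : ℝ) / 2) := by
    intro h hh hh0
    rw [mem_Vs] at hh
    have hdeg : h.natDegree ≤ d := (natDegree_lt_iff_degree_lt hh0).2 hh |>.le
    have h1 : Filter.Tendsto (fun n : ℕ => |∏ P ∈ PU K n, (1 + lam K h P) - Sr h|) Filter.atTop
        (nhds |S h - Sr h|) := ((hS h hh0).1.sub_const _).abs
    refine le_of_tendsto h1 (Filter.eventually_atTop.2 ⟨t, fun n hn => ?_⟩)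
    exact hR (lam K h) h d t n hh0 hdeg hn fun P _ hP => abs_lam hP
  set Rm := C * (Fintype.card K : ℝ) ^ (θ / 4 * d - (t : ℝ) / 2) with hRm
  have hRle : Rm ≤ (Fintype.card K : ℝ) ^ (-(c * d)) := by
    have e1 : (Fintype.card K : ℝ) ^ (θ / 4 * d - (t : ℝ) / 2) ≤
        (Fintype.card K : ℝ) * (Fintype.card K : ℝ) ^ (-(θ / 4 * d)) := by
      have e2 : (Fintype.card K : ℝ) * (Fintype.card K : ℝ) ^ (-(θ / 4 * d)) =
          (Fintype.card K : ℝ) ^ (1 + -(θ / 4 * d)) := by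
        rw [Real.rpow_add hq0, Real.rpow_one]
      rw [e2]
      apply Real.rpow_le_rpow_of_exponent_le hq.le
      linarith
    have e3 : C * (Fintype.card K : ℝ) ≤ (Fintype.card K : ℝ) ^ (θ / 8 * d) := by
      refine le_trans ?_ hCq
      have : (1 : ℝ) ≤ (d : ℝ) ^ 2 := by nlinarith
      have h0 : 0 ≤ C * (Fintype.card K : ℝ) := by positivity
      nlinarith
    calc Rm ≤ C * ((Fintype.card K : ℝ) * (Fintype.card K : ℝ) ^ (-(θ / 4 * d))) := by
          rw [hRm]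
          gcongr
      _ = (C * (Fintype.card K : ℝ)) * (Fintype.card K : ℝ) ^ (-(θ / 4 * d)) := by ring
      _ ≤ (Fintype.card K : ℝ) ^ (θ / 8 * d) * (Fintype.card K : ℝ) ^ (-(θ / 4 * d)) := by
          gcongr
      _ = (Fintype.card K : ℝ) ^ (θ / 8 * d + -(θ / 4 * d)) := (Real.rpow_add hq0 _ _).symm
      _ ≤ _ := by
          apply Real.rpow_le_rpow_of_exponent_le hq.le
          nlinarith
  refine count _ F (fun h => N h - S h * (Fintype.card K : ℝ) ^ d / (2 * (d : ℝ)) ^ 2)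
    (Fintype.card K) c c1 Rm d hd0 hq hcc h40 (fun h hh => ?_) hRle (fun h hh => ?_) ?_
  · rw [Finset.mem_filter] at hh
    have e1 := hser h hh.1 hh.2.1
    have e2 := hFe h hh.1
    have e3 : F h - (Fintype.card K : ℝ) ^ (d : ℝ) * ((2 * (d : ℝ)) ^ 2 *
        (N h - S h * (Fintype.card K : ℝ) ^ d / (2 * (d : ℝ)) ^ 2)) =
        (Fintype.card K : ℝ) ^ ((2 : ℝ) * d) * (S h - Sr h) := by
      have e4 : (Fintype.card K : ℝ) ^ ((2 : ℝ) * d) = (Fintype.card K : ℝ) ^ (2 * d) := by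
        rw [← Real.rpow_natCast]
        push_cast
        rfl
      rw [e2, e4, Real.rpow_natCast, pow_mul', sq]
      have hd2 : (2 * (d : ℝ)) ^ 2 ≠ 0 := by positivity
      field_simp
      ring
    rw [e3, abs_mul, abs_of_pos (Real.rpow_pos_of_pos hq0 _)]
    exact mul_le_mul_of_nonneg_left e1 (Real.rpow_pos_of_pos hq0 _).le
  · rw [Finset.mem_filter] at hh
    exact hh.2.2
  · refine (Finset.sum_le_sum_of_subset_of_nonneg (Finset.filter_subset _ _)
      fun _ _ _ => sq_nonneg _).trans (hmean.trans (le_of_eq ?_))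
    have e4 : (Fintype.card K : ℝ) ^ ((2 : ℝ) * d) = (Fintype.card K : ℝ) ^ (2 * d) := by
      rw [← Real.rpow_natCast]
      push_cast
      rfl
    rw [e4, Real.rpow_natCast]

end Pool.Agent.H290.FX.PBin
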