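import Pool.Agent.H290.FX.StmC

/-!
# Convergence of the singular products (task CONV, by helper30)
-/

set_option autoImplicit false

namespace Pool.Agent.H290.FX.PConv

open Polynomial
open scoped Classical
open Pool.Agent.H694.Typ (Mn PU Irn mem_PU mem_Irn sum_PU irn_one_le q_ge)

variable {K : Type} [Field K] [Fintype K]

/-- the bounds at the primes which do not divide `h` -/
noncomputable def aP (P : K[X]) : ℝ := 1 / ((Fintype.card K : ℝ) ^ P.natDegree - 1) ^ 2

theorem aP_nonneg (P : K[X]) : 0 ≤ aP P := by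
  unfold aP
  positivity

theorem sum_irn_le (j : ℕ) (hj : 1 ≤ j) : ∑ P ∈ Irn K j, aP P ≤ 4 * (1 / 2) ^ j := by
  have hq := q_ge (k := K)
  have h1 : ∀ P ∈ Irn K j, aP P = 1 / ((Fintype.card K : ℝ) ^ j - 1) ^ 2 := by
    intro P hP
    unfold aP
    rw [(mem_Irn.1 hP).2.1]
  rw [Finset.sum_congr rfl h1, Finset.sum_const, nsmul_eq_mul]
  obtain ⟨Q, hQ⟩ : ∃ Q : ℝ, Q = (Fintype.card K : ℝ) ^ j := ⟨_, rfl⟩
  have hQ2 : (2 : ℝ) ^ j ≤ Q := by
    rw [hQ]
    exact pow_le_pow_left₀ (by norm_num) hq j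
  have h2j : (2 : ℝ) ≤ 2 ^ j := by
    calc (2 : ℝ) = 2 ^ 1 := (pow_one 2).symm
      _ ≤ 2 ^ j := pow_le_pow_right₀ (by norm_num) hj
  have hc : ((Irn K j).card : ℝ) ≤ Q := by
    have h2 := irn_one_le (k := K) (d := j) (by omega)
    have h3 : (Irn K j).card ≤ j * (Irn K j).card := Nat.le_mul_of_pos_left _ (by omega)
    rw [hQ]
    exact_mod_cast h3.trans h2
  rw [← hQ]
  have h4 : Q / 2 ≤ Q - 1 := by linarith
  have hQ0 : 0 < Q := by linarith
  have h5 : (Q / 2) ^ 2 ≤ (Q - 1) ^ 2 := pow_le_pow_left₀ (by linarith) h4 2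
  calc ((Irn K j).card : ℝ) * (1 / (Q - 1) ^ 2) ≤ Q * (1 / (Q / 2) ^ 2) := by
        apply mul_le_mul hc _ (by positivity) hQ0.le
        exact one_div_le_one_div_of_le (by positivity) h5
    _ = 4 / Q := by
        field_simp
        norm_num
    _ ≤ 4 / 2 ^ j := div_le_div_of_nonneg_left (by norm_num) (by positivity) hQ2
    _ = 4 * (1 / 2) ^ j := by
        rw [one_div, inv_pow]
        ring

theorem sum_geo (n : ℕ) : ∑ j ∈ Finset.Icc 1 n, 4 * (1 / 2 : ℝ) ^ j = 4 - 4 * (1 / 2) ^ n := by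
  induction n with
  | zero => simp
  | succ n ih =>
    rw [Finset.sum_Icc_succ_top (by omega), ih, pow_succ]
    ring

theorem sum_aP_le (n : ℕ) : ∑ P ∈ PU K n, aP P ≤ 4 := by
  rw [sum_PU]
  have h1 : ∑ j ∈ Finset.Icc 1 n, ∑ P ∈ Irn K j, aP P ≤
      ∑ j ∈ Finset.Icc 1 n, 4 * (1 / 2 : ℝ) ^ j := by
    apply Finset.sum_le_sum
    intro j hj
    exact sum_irn_le j (Finset.mem_Icc.1 hj).1
  rw [sum_geo] at h1
  have : (0 : ℝ) ≤ 4 * (1 / 2) ^ n := by positivity
  linarith

/-- `lam` extended by zero -/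
noncomputable def ff (lam : K[X] → ℝ) (P : K[X]) : ℝ :=
  if P.Monic ∧ Irreducible P then lam P else 0

theorem sum_lam_le (lam : K[X] → ℝ) (h : K[X]) (hh : h ≠ 0)
    (h2 : ∀ P : K[X], P.Monic → Irreducible P → ¬ P ∣ h → |lam P| ≤ aP P) (n : ℕ) :
    ∑ P ∈ PU K n, |lam P| ≤ ∑ P ∈ PU K h.natDegree, |lam P| + 4 := by
  rw [← Finset.sum_filter_add_sum_filter_not (PU K n) (fun P => P ∣ h)]
  apply add_le_add
  · apply Finset.sum_le_sum_of_subset_of_nonneg
    · intro P hP
      rw [Finset.mem_filter, mem_PU] at hP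
      exact mem_PU.2 ⟨hP.1.1, hP.1.2.1, natDegree_le_of_dvd hP.2 hh⟩
    · intro P _ _
      exact abs_nonneg _
  · refine le_trans ?_ (sum_aP_le (K := K) n)
    refine le_trans (Finset.sum_le_sum (g := aP) ?_) ?_
    · intro P hP
      rw [Finset.mem_filter, mem_PU] at hP
      exact h2 P hP.1.1 hP.1.2.1 hP.2
    · exact Finset.sum_le_sum_of_subset_of_nonneg (Finset.filter_subset _ _)
        fun P _ _ => aP_nonneg P

theorem summ (lam : K[X] → ℝ) (h : K[X]) (hh : h ≠ 0)
    (h2 : ∀ P : K[X], P.Monic → Irreducible P → ¬ P ∣ h → |lam P| ≤ aP P) :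
    Summable (fun P => |ff lam P|) := by
  apply summable_of_sum_le (c := ∑ P ∈ PU K h.natDegree, |lam P| + 4) (fun P => abs_nonneg _)
  intro u
  have h3 : ∑ P ∈ u, |ff lam P| ≤ ∑ P ∈ PU K (u.sup natDegree), |lam P| := by
    have h4 : ∑ P ∈ u, |ff lam P| =
        ∑ P ∈ u.filter (fun P => P.Monic ∧ Irreducible P), |lam P| := by
      rw [Finset.sum_filter]
      refine Finset.sum_congr rfl fun P _ => ?_
      unfold ff
      split_ifs
      · rfl
      · exact abs_zero
    rw [h4]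
    apply Finset.sum_le_sum_of_subset_of_nonneg
    · intro P hP
      rw [Finset.mem_filter] at hP
      exact mem_PU.2 ⟨hP.2.1, hP.2.2, Finset.le_sup hP.1⟩
    · intro P _ _
      exact abs_nonneg _
  exact h3.trans (sum_lam_le lam h hh h2 _)

theorem prod_eq (lam : K[X] → ℝ) (n : ℕ) :
    ∏ P ∈ Vs K (n + 1), (1 + ff lam P) = ∏ P ∈ PU K n, (1 + lam P) := by
  have h1 : ∏ P ∈ PU K n, (1 + lam P) = ∏ P ∈ PU K n, (1 + ff lam P) := by
    refine Finset.prod_congr rfl fun P hP => ?_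
    rw [mem_PU] at hP
    unfold ff
    rw [if_pos ⟨hP.1, hP.2.1⟩]
  rw [h1]
  symm
  apply Finset.prod_subset
  · intro P hP
    rw [mem_PU] at hP
    rw [mem_Vs, degree_eq_natDegree hP.1.ne_zero]
    have : P.natDegree < n + 1 := by omega
    exact_mod_cast this
  · intro P hP hP2
    unfold ff
    rw [if_neg, add_zero]
    rintro ⟨h3, h4⟩
    apply hP2
    rw [mem_Vs, degree_eq_natDegree h3.ne_zero] at hP
    have : P.natDegree < n + 1 := by exact_mod_cast hP
    exact mem_PU.2 ⟨h3, h4, by omega⟩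

theorem tends (lam : K[X] → ℝ) (h : K[X]) (hh : h ≠ 0)
    (h2 : ∀ P : K[X], P.Monic → Irreducible P → ¬ P ∣ h → |lam P| ≤ aP P) :
    ∃ L : ℝ, Filter.Tendsto (fun n : ℕ => ∏ P ∈ PU K n, (1 + lam P)) Filter.atTop (nhds L) := by
  have hs : Summable (ff lam) := (summ lam h hh h2).of_abs
  have hm : Multipliable (fun P => 1 + ff lam P) := Real.multipliable_one_add_of_summable hs
  obtain ⟨L, hL⟩ := hm
  refine ⟨L, ?_⟩
  have hL' : Filter.Tendsto (fun s : Finset K[X] => ∏ P ∈ s, (1 + ff lam P)) Filter.atTop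
      (nhds L) := hL
  have ht : Filter.Tendsto (fun n : ℕ => Vs K (n + 1)) Filter.atTop Filter.atTop := by
    apply Filter.tendsto_atTop_finset_of_monotone
    · intro m n hmn P hP
      rw [mem_Vs] at hP ⊢
      refine lt_of_lt_of_le hP ?_
      exact_mod_cast Nat.add_le_add_right hmn 1
    · intro P
      refine ⟨P.natDegree, ?_⟩
      rw [mem_Vs]
      refine lt_of_le_of_lt degree_le_natDegree ?_
      exact_mod_cast Nat.lt_succ_self _
  refine (hL'.comp ht).congr fun n => ?_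
  exact prod_eq lam n

theorem exp_le (a : ℝ) (h0 : 0 ≤ a) (h1 : a ≤ 1 / 2) : Real.exp (-(2 * a)) ≤ 1 - a := by
  have h2 : 1 + 2 * a ≤ Real.exp (2 * a) := by
    have := Real.add_one_le_exp (2 * a)
    linarith
  rw [Real.exp_neg, inv_le_comm₀ (Real.exp_pos _) (by linarith)]
  refine le_trans ?_ h2
  rw [inv_le_comm₀ (by linarith) (by linarith), inv_eq_one_div, div_le_iff₀ (by linarith)]
  nlinarith

theorem lower (δ : ℝ) (hδ : 0 < δ) (lam : K[X] → ℝ) (h : K[X])
    (h1 : ∀ P : K[X], P.Monic → Irreducible P → P ∣ h → 0 ≤ lam P)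
    (h2 : ∀ P : K[X], P.Monic → Irreducible P → ¬ P ∣ h → |lam P| ≤ aP P)
    (h3 : ∀ P : K[X], P.Monic → Irreducible P → δ ≤ 1 + lam P) (n : ℕ) :
    min δ 1 ^ (Irn K 1).card * Real.exp (-8) ≤ ∏ P ∈ PU K n, (1 + lam P) := by
  have hm0 : 0 < min δ 1 := lt_min hδ one_pos
  have hm1 : min δ 1 ≤ 1 := min_le_right _ _
  have hq := q_ge (k := K)
  have hg : ∀ P ∈ PU K n,
      (if P.natDegree = 1 then min δ 1 else Real.exp (-(2 * aP P))) ≤ 1 + lam P := by
    intro P hP
    rw [mem_PU] at hP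
    split_ifs with hd
    · exact (min_le_left _ _).trans (h3 P hP.1 hP.2.1)
    · by_cases hdvd : P ∣ h
      · have h4 := h1 P hP.1 hP.2.1 hdvd
        have h5 : Real.exp (-(2 * aP P)) ≤ 1 := by
          rw [Real.exp_le_one_iff]
          have := aP_nonneg P
          linarith
        linarith
      · have h4 := h2 P hP.1 hP.2.1 hdvd
        have hdeg : 2 ≤ P.natDegree := by
          have := hP.2.1.natDegree_pos
          omega
        have h6 : (4 : ℝ) ≤ (Fintype.card K : ℝ) ^ P.natDegree := by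
          calc (4 : ℝ) = 2 ^ 2 := by norm_num
            _ ≤ (Fintype.card K : ℝ) ^ 2 := pow_le_pow_left₀ (by norm_num) hq 2
            _ ≤ (Fintype.card K : ℝ) ^ P.natDegree := pow_le_pow_right₀ (by linarith) hdeg
        have h7 : aP P ≤ 1 / 2 := by
          unfold aP
          apply one_div_le_one_div_of_le (by norm_num)
          nlinarith
        have h8 := exp_le (aP P) (aP_nonneg P) h7
        have h9 := neg_abs_le (lam P)
        linarith
  have hg0 : ∀ P ∈ PU K n,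
      0 ≤ (if P.natDegree = 1 then min δ 1 else Real.exp (-(2 * aP P))) := by
    intro P _
    split_ifs
    · exact hm0.le
    · exact (Real.exp_pos _).le
  refine le_trans ?_ (Finset.prod_le_prod hg0 hg)
  rw [Finset.prod_ite, Finset.prod_const, ← Real.exp_sum]
  apply mul_le_mul _ _ (Real.exp_pos _).le (by positivity)
  · apply pow_le_pow_of_le_one hm0.le hm1
    apply Finset.card_le_card
    intro P hP
    rw [Finset.mem_filter, mem_PU] at hP
    exact mem_Irn.2 ⟨hP.1.1, hP.2, hP.1.2.1⟩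
  · apply Real.exp_le_exp.2
    rw [Finset.sum_neg_distrib, ← Finset.mul_sum]
    have h10 : ∑ P ∈ (PU K n).filter (fun P => ¬ P.natDegree = 1), aP P ≤ 4 := by
      refine le_trans ?_ (sum_aP_le (K := K) n)
      exact Finset.sum_le_sum_of_subset_of_nonneg (Finset.filter_subset _ _)
        fun P _ _ => aP_nonneg P
    linarith

theorem main : S_conv := by
  intro K _ _ δ hδ
  refine ⟨min δ 1 ^ (Irn K 1).card * Real.exp (-8), by positivity, ?_⟩
  intro lam h hh h1 h2
  obtain ⟨L, hL⟩ := tends lam h hh h2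
  refine ⟨L, hL, fun h3 => ?_⟩
  exact ge_of_tendsto' hL (fun n => lower δ hδ lam h h1 h2 h3 n)

end Pool.Agent.H290.FX.PConv
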