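import Mathlib
import Pool.Agent.H290.FX.Stm
import Pool.Agent.H985.KP.Loc2

/-!
# Task DUAL (helper290), by helper261

Every additive character of `K[X]` is, on the polynomials of degree `< d`, of the form
`a ↦ sg ((H * a).coeff (d - 1))`.
-/

set_option autoImplicit false

namespace Pool.Agent.H290.FX.PDual

open Polynomial
open Pool.Agent.H985.KP (sg)
open Pool.Agent.H985.KP.Loc2 (sgChar sgChar_apply sgChar_ne_one sg_add sg_zero)

section field

variable {F : Type} [Field F] [Fintype F] [CharP F 2]

/-- All the characters of a finite field of characteristic two, with complex values. -/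
theorem charC (ψ : AddChar F ℂ) : ∃ b : F, ∀ x : F, ψ x = ((sg (b * x) : ℝ) : ℂ) := by
  classical
  have hp : (sgChar F).IsPrimitive := AddChar.IsPrimitive.of_ne_one sgChar_ne_one
  have hinj := AddChar.to_mulShift_inj_of_isPrimitive hp
  have hsurj : Function.Surjective (fun b : F => AddChar.mulShift (sgChar F) b) := by
    have hb := (Fintype.bijective_iff_injective_and_card
      (fun b : F => AddChar.mulShift (sgChar F) b)).2 ⟨hinj, AddChar.card_eq.symm⟩
    exact hb.2
  obtain ⟨b, hb⟩ := hsurj ψ
  refine ⟨b, fun x => ?_⟩
  rw [← hb]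
  simp only [AddChar.mulShift_apply]
  rw [sgChar_apply]

/-- The same with real values. -/
theorem charR (ψ : AddChar F ℝ) : ∃ b : F, ∀ x : F, ψ x = sg (b * x) := by
  obtain ⟨b, hb⟩ := charC ((Complex.ofRealHom : ℝ →+* ℂ).toMonoidHom.compAddChar ψ)
  refine ⟨b, fun x => ?_⟩
  have h := hb x
  have h2 : ((ψ x : ℝ) : ℂ) = ((sg (b * x) : ℝ) : ℂ) := by
    rw [← h]
    rfl
  exact Complex.ofReal_injective h2

/-- `sg` of a sum is the product. -/
theorem sg_sum {ι : Type} (s : Finset ι) (f : ι → F) : sg (∑ i ∈ s, f i) = ∏ i ∈ s, sg (f i) := by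
  classical
  induction s using Finset.induction_on with
  | empty => simpa using sg_zero (F := F)
  | insert i s hi ih => rw [Finset.sum_insert hi, Finset.prod_insert hi, sg_add, ih]

end field

section poly

variable {K : Type} [Field K] [Fintype K] [CharP K 2]

/-- The character of `K` on the monomials `x X ^ i`. -/
noncomputable def restr (χ : AddChar K[X] ℝ) (i : ℕ) : AddChar K ℝ where
  toFun x := χ (monomial i x)
  map_zero_eq_one' := by simp
  map_add_eq_mul' x y := by rw [map_add, AddChar.map_add_eq_mul]

omit [Fintype K] [CharP K 2] in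
theorem char_sum {ι : Type} (χ : AddChar K[X] ℝ) (s : Finset ι) (f : ι → K[X]) :
    χ (∑ i ∈ s, f i) = ∏ i ∈ s, χ (f i) := by
  classical
  induction s using Finset.induction_on with
  | empty => simp
  | insert i s hi ih => rw [Finset.sum_insert hi, Finset.prod_insert hi, AddChar.map_add_eq_mul, ih]

theorem main : S_dual := by
  classical
  intro K _ _ _ d χ
  have hb : ∀ i : ℕ, ∃ b : K, ∀ x : K, χ (monomial i x) = sg (b * x) := fun i => by
    obtain ⟨b, hb⟩ := charR (restr χ i)
    exact ⟨b, fun x => hb x⟩
  choose b hb using hb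
  refine ⟨∑ i ∈ Finset.range d, monomial (d - 1 - i) (b i), ?_, ?_⟩
  · rw [Polynomial.degree_lt_iff_coeff_zero]
    intro m hm
    rw [Polynomial.finsetSum_coeff]
    refine Finset.sum_eq_zero fun i hi => ?_
    rw [Polynomial.coeff_monomial, if_neg]
    have := Finset.mem_range.1 hi
    omega
  · intro a ha
    have hsum : a = ∑ i ∈ Finset.range d, monomial i (a.coeff i) := by
      by_cases hd : d = 0
      · subst hd
        have : a = 0 := by
          rw [← Polynomial.degree_eq_bot]
          simpa using ha
        simp [this]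
      · have hn : a.natDegree < d := by
          by_cases h0 : a = 0
          · subst h0; simp; omega
          · exact (Polynomial.natDegree_lt_iff_degree_lt h0).2 ha
        exact Polynomial.as_sum_range' a d hn
    have h1 : χ a = ∏ i ∈ Finset.range d, sg (b i * a.coeff i) := by
      conv_lhs => rw [hsum]
      rw [char_sum]
      exact Finset.prod_congr rfl fun i _ => hb i _
    rw [h1, ← sg_sum]
    congr 1
    rw [Finset.sum_mul, Polynomial.finsetSum_coeff]
    refine Finset.sum_congr rfl fun i hi => ?_
    have hi' := Finset.mem_range.1 hi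
    have hd : d - 1 = i + (d - 1 - i) := by omega
    conv_rhs => rw [hd]
    rw [show i + (d - 1 - i) - i = d - 1 - i by omega, Polynomial.coeff_monomial_mul]

end poly

end Pool.Agent.H290.FX.PDual
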