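import Pool.Agent.H290.FX.Stm

/-!
# Task FAR1X (helper230)

The counting is done without the duality: if `ρ` is the least degree of a period of `χ` and
`b = min (d - j) ρ` then the periods `D ∈ Mn j` are at most `q ^ (j - b)`, by computing
`∑ D ∈ Mn j, ∑ y ∈ V_b, χ (D y)` in two ways.
-/

set_option autoImplicit false

namespace Pool.Agent.H290.FX.PFar1x

open Polynomial
open scoped Classical
open Pool.Agent.H985.Chow (mob lc)
open Pool.Agent.H985.KP (sg PA)
open Pool.Agent.H694.Typ (Mn mem_Mn card_Mn pol pol_degree exists_pol pol_inj)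

variable {K : Type} [Field K]

lemma chi_abs [CharP K 2] (χ : AddChar K[X] ℝ) (a : K[X]) : |χ a| = 1 := by
  have h1 : χ a * χ a = 1 := by
    rw [← AddChar.map_add_eq_mul, CharTwo.add_self_eq_zero, AddChar.map_zero_eq_one]
  have h2 : |χ a| * |χ a| = 1 := by rw [← abs_mul, h1, abs_one]
  nlinarith [abs_nonneg (χ a)]

/-- `r` is a period of `χ` -/
def Per (d : ℕ) (χ : AddChar K[X] ℝ) (r : K[X]) : Prop :=
  ∀ s : K[X], (r * s).degree < (d : WithBot ℕ) → χ (r * s) = 1

lemma exists_per (d : ℕ) (χ : AddChar K[X] ℝ) :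
    ∃ ρ : ℕ, ∃ r : K[X], r.Monic ∧ r.natDegree = ρ ∧ Per d χ r := by
  refine ⟨d, X ^ d, monic_X_pow d, natDegree_X_pow d, ?_⟩
  intro s hs
  have : s = 0 := by
    by_contra h
    rw [degree_mul, degree_X_pow, degree_eq_natDegree h] at hs
    have h2 : d + s.natDegree < d := by exact_mod_cast hs
    omega
  rw [this, mul_zero, AddChar.map_zero_eq_one]

/-- a small multiplier cannot be trivial on everything below the least period -/
lemma key (d b ρ : ℕ) (χ : AddChar K[X] ℝ) (r y : K[X]) (hr : r.Monic) (hrd : r.natDegree = ρ)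
    (hper : Per d χ r) (hmin : ∀ r' : K[X], r'.Monic → r'.natDegree < ρ → ¬ Per d χ r')
    (hbρ : b ≤ ρ) (hbd : b + ρ ≤ d) (hy0 : y ≠ 0) (hy : y.degree < (b : WithBot ℕ))
    (htriv : ∀ E : K[X], E.degree < (ρ : WithBot ℕ) → χ (y * E) = 1) : False := by
  have hyn : y.natDegree < b := by
    rw [degree_eq_natDegree hy0] at hy
    exact_mod_cast hy
  have hr0 : r ≠ 0 := hr.ne_zero
  set g := EuclideanDomain.gcd y r with hg
  have hg0 : g ≠ 0 := by
    intro h
    rw [hg, EuclideanDomain.gcd_eq_zero_iff] at h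
    exact hr0 h.2
  have hgy : g ∣ y := EuclideanDomain.gcd_dvd_left y r
  have hgn : g.natDegree ≤ y.natDegree := natDegree_le_of_dvd hgy hy0
  have hgab : g = y * EuclideanDomain.gcdA y r + r * EuclideanDomain.gcdB y r :=
    EuclideanDomain.gcd_eq_gcd_ab y r
  have hm : (g * C g.leadingCoeff⁻¹).Monic := monic_mul_leadingCoeff_inv hg0
  have hdeg : (g * C g.leadingCoeff⁻¹).natDegree < ρ := by
    rw [natDegree_mul_leadingCoeff_inv g hg0]
    omega
  apply hmin _ hm hdeg
  -- general statement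
  have hgen : ∀ z u v : K[X], z.degree < (d : WithBot ℕ) → z = y * u + r * v → χ z = 1 := by
    intro z u v hz hzuv
    have hmod : u %ₘ r + r * (u /ₘ r) = u := modByMonic_add_div u r
    have hud : (u %ₘ r).degree < (ρ : WithBot ℕ) := by
      have := degree_modByMonic_lt u hr
      rwa [degree_eq_natDegree hr0, hrd] at this
    have e1 : z = y * (u %ₘ r) + r * (y * (u /ₘ r) + v) := by
      rw [hzuv]
      conv_lhs => rw [← hmod]
      ring
    have hyu : (y * (u %ₘ r)).degree < (d : WithBot ℕ) := by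
      by_cases hu0 : u %ₘ r = 0
      · rw [hu0, mul_zero, degree_zero]; exact WithBot.bot_lt_coe d
      · rw [degree_mul, degree_eq_natDegree hy0, degree_eq_natDegree hu0]
        rw [degree_eq_natDegree hu0] at hud
        have h1 : (u %ₘ r).natDegree < ρ := by exact_mod_cast hud
        have h2 : y.natDegree + (u %ₘ r).natDegree < d := by omega
        exact_mod_cast h2
    have hrv : (r * (y * (u /ₘ r) + v)).degree < (d : WithBot ℕ) := by
      have e2 : r * (y * (u /ₘ r) + v) = z - y * (u %ₘ r) := by rw [e1]; ring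
      rw [e2]
      exact lt_of_le_of_lt (degree_sub_le _ _) (max_lt hz hyu)
    rw [e1, AddChar.map_add_eq_mul, htriv _ hud, hper _ hrv, one_mul]
  intro s hs
  apply hgen _ (EuclideanDomain.gcdA y r * (C g.leadingCoeff⁻¹ * s))
    (EuclideanDomain.gcdB y r * (C g.leadingCoeff⁻¹ * s)) hs
  calc g * C g.leadingCoeff⁻¹ * s
      = (y * EuclideanDomain.gcdA y r + r * EuclideanDomain.gcdB y r) *
        (C g.leadingCoeff⁻¹ * s) := by rw [← hgab]; ring
    _ = _ := by ring

variable [Fintype K]

lemma add_mem_Mn {n : ℕ} {f s : K[X]} (hf : f ∈ Mn K n) (hs : s.degree < (n : WithBot ℕ)) :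
    f + s ∈ Mn K n := by
  rw [mem_Mn] at hf ⊢
  have hd : s.degree < f.degree := by
    rw [degree_eq_natDegree hf.1.ne_zero, hf.2]; exact hs
  refine ⟨hf.1.add_of_left hd, ?_⟩
  rw [natDegree_add_eq_left_of_degree_lt hd, hf.2]

lemma sum_Mn_zero (n : ℕ) (P s₀ : K[X]) (χ : AddChar K[X] ℝ)
    (hs : s₀.degree < (n : WithBot ℕ)) (h : χ (P * s₀) ≠ 1) :
    ∑ s ∈ Mn K n, χ (P * s) = 0 := by
  have h1 : ∑ s ∈ Mn K n, χ (P * s) = ∑ s ∈ Mn K n, χ (P * (s + s₀)) := by
    symm
    refine Finset.sum_nbij' (fun s => s + s₀) (fun s => s - s₀) ?_ ?_ ?_ ?_ ?_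
    · intro s hs'; exact add_mem_Mn hs' hs
    · intro s hs'
      rw [sub_eq_add_neg]
      exact add_mem_Mn hs' (by rw [degree_neg]; exact hs)
    · intro s _; ring
    · intro s _; ring
    · intro s _; rfl
  have h2 : ∑ s ∈ Mn K n, χ (P * (s + s₀)) = (∑ s ∈ Mn K n, χ (P * s)) * χ (P * s₀) := by
    rw [Finset.sum_mul]
    refine Finset.sum_congr rfl fun s _ => ?_
    rw [mul_add, AddChar.map_add_eq_mul]
  have h3 : (∑ s ∈ Mn K n, χ (P * s)) * (χ (P * s₀) - 1) = 0 := by
    rw [mul_sub, ← h2, ← h1, mul_one, sub_self]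
  rcases mul_eq_zero.mp h3 with h4 | h4
  · exact h4
  · exact absurd (sub_eq_zero.mp h4) h

omit [Fintype K] in
lemma pol_add {n : ℕ} (c c' : Fin n → K) : pol (c + c') = pol c + pol c' := by
  unfold pol
  rw [← Finset.sum_add_distrib]
  refine Finset.sum_congr rfl fun i _ => ?_
  rw [Pi.add_apply, C_add, add_mul]

omit [Fintype K] in
lemma pol_zero {n : ℕ} : pol (0 : Fin n → K) = 0 := by
  unfold pol
  refine Finset.sum_eq_zero fun i _ => ?_
  simp

lemma sum_pol_zero (n : ℕ) (P s₀ : K[X]) (χ : AddChar K[X] ℝ)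
    (hs : s₀.degree < (n : WithBot ℕ)) (h : χ (P * s₀) ≠ 1) :
    ∑ c : Fin n → K, χ (P * pol c) = 0 := by
  obtain ⟨c₀, hc₀⟩ := exists_pol hs
  have h1 : ∑ c : Fin n → K, χ (P * pol c) = ∑ c : Fin n → K, χ (P * pol (c + c₀)) :=
    (Fintype.sum_equiv (Equiv.addRight c₀) (fun c => χ (P * pol (c + c₀)))
      (fun c => χ (P * pol c)) (fun c => rfl)).symm
  have h2 : ∑ c : Fin n → K, χ (P * pol (c + c₀)) =
      (∑ c : Fin n → K, χ (P * pol c)) * χ (P * s₀) := by
    rw [Finset.sum_mul]
    refine Finset.sum_congr rfl fun c _ => ?_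
    rw [pol_add, mul_add, AddChar.map_add_eq_mul, hc₀]
  have h3 : (∑ c : Fin n → K, χ (P * pol c)) * (χ (P * s₀) - 1) = 0 := by
    rw [mul_sub, ← h2, ← h1, mul_one, sub_self]
  rcases mul_eq_zero.mp h3 with h4 | h4
  · exact h4
  · exact absurd (sub_eq_zero.mp h4) h

/-- the number of periods in `Mn j` -/
lemma card_per (d j b ρ : ℕ) (χ : AddChar K[X] ℝ) (r : K[X]) (hr : r.Monic)
    (hrd : r.natDegree = ρ) (hper : Per d χ r)
    (hmin : ∀ r' : K[X], r'.Monic → r'.natDegree < ρ → ¬ Per d χ r') (hbρ : b ≤ ρ)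
    (hbj : b + j ≤ d) (hρj : ρ ≤ j) :
    (((Mn K j).filter (fun D => Per d χ D)).card : ℝ) * (Fintype.card K : ℝ) ^ b ≤
      (Fintype.card K : ℝ) ^ j := by
  have h1 : ∑ D ∈ Mn K j, ∑ c : Fin b → K, χ (D * pol c) = (Fintype.card K : ℝ) ^ j := by
    rw [Finset.sum_comm]
    have h2 : ∀ c : Fin b → K, c ≠ 0 → ∑ D ∈ Mn K j, χ (D * pol c) = 0 := by
      intro c hc
      have hy0 : pol c ≠ 0 := by
        intro h
        apply hc
        apply pol_inj
        rw [h, pol_zero]
      have hex : ∃ E : K[X], E.degree < (ρ : WithBot ℕ) ∧ χ (pol c * E) ≠ 1 := by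
        by_contra hcon
        push Not at hcon
        exact key d b ρ χ r (pol c) hr hrd hper hmin hbρ (by omega) hy0 (pol_degree c) hcon
      obtain ⟨E, hE, hχ⟩ := hex
      have h3 := sum_Mn_zero j (pol c) E χ (lt_of_lt_of_le hE (by exact_mod_cast hρj)) hχ
      rw [← h3]
      exact Finset.sum_congr rfl fun D _ => by rw [mul_comm]
    rw [Finset.sum_eq_single (0 : Fin b → K) (fun c _ hc => h2 c hc)
      (fun h => absurd (Finset.mem_univ _) h)]
    have h3 : ∀ D ∈ Mn K j, χ (D * pol (0 : Fin b → K)) = 1 := by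
      intro D _
      rw [pol_zero, mul_zero, AddChar.map_zero_eq_one]
    rw [Finset.sum_congr rfl h3, Finset.sum_const, card_Mn, nsmul_eq_mul, mul_one]
    push_cast; rfl
  have h4 : ∀ D ∈ Mn K j, (if Per d χ D then (Fintype.card K : ℝ) ^ b else 0) ≤
      ∑ c : Fin b → K, χ (D * pol c) := by
    intro D hD
    rw [mem_Mn] at hD
    by_cases hP : Per d χ D
    · rw [if_pos hP]
      have h5 : ∀ c : Fin b → K, χ (D * pol c) = 1 := by
        intro c
        apply hP
        rw [degree_mul, degree_eq_natDegree hD.1.ne_zero, hD.2]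
        by_cases hc : pol c = 0
        · rw [hc, degree_zero, WithBot.add_bot]; exact WithBot.bot_lt_coe d
        · have h6 := pol_degree c
          rw [degree_eq_natDegree hc] at h6 ⊢
          have h7 : (pol c).natDegree < b := by exact_mod_cast h6
          have h8 : j + (pol c).natDegree < d := by omega
          exact_mod_cast h8
      rw [Finset.sum_congr rfl fun c _ => h5 c, Finset.sum_const, Finset.card_univ,
        Fintype.card_fun, Fintype.card_fin, nsmul_eq_mul, mul_one]
      push_cast; exact le_rfl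
    · rw [if_neg hP]
      by_cases hex : ∃ s₀ : K[X], s₀.degree < (b : WithBot ℕ) ∧ χ (D * s₀) ≠ 1
      · obtain ⟨s₀, hs, hχ⟩ := hex
        rw [sum_pol_zero b D s₀ χ hs hχ]
      · push Not at hex
        refine Finset.sum_nonneg fun c _ => ?_
        rw [hex _ (pol_degree c)]
        exact zero_le_one
  have h5 := Finset.sum_le_sum h4
  rw [h1, ← Finset.sum_filter, Finset.sum_const, nsmul_eq_mul] at h5
  exact h5

variable [CharP K 2]

/-- the sum over the `a` with `D ∣ a ^ 2 + X` -/
lemma inner (hroot : S_root) (d j : ℕ) (χ : AddChar K[X] ℝ) (hj : j < d) (D : K[X])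
    (hD : D ∈ Mn K j) :
    |(mob D : ℝ) * ∑ a ∈ (Mn K d).filter (fun a => D ∣ a ^ 2 + X), χ a| ≤
      if Per d χ D then (Fintype.card K : ℝ) ^ (d - j) else 0 := by
  rw [mem_Mn] at hD
  by_cases hsq : Squarefree D
  · obtain ⟨h1, h2⟩ := hroot K D hD.1
    obtain ⟨hdvd, hdeg⟩ := h1 hsq
    have hD0 : D ≠ 0 := hD.1.ne_zero
    have hsum : ∑ a ∈ (Mn K d).filter (fun a => D ∣ a ^ 2 + X), χ a =
        ∑ s ∈ Mn K (d - j), χ (rt D + D * s) := by
      symm
      refine Finset.sum_bij (fun s _ => rt D + D * s) ?_ ?_ ?_ ?_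
      · intro s hs
        rw [mem_Mn] at hs
        rw [Finset.mem_filter]
        constructor
        · rw [add_comm]
          apply add_mem_Mn
          · rw [mem_Mn]
            refine ⟨hD.1.mul hs.1, ?_⟩
            rw [hD.1.natDegree_mul hs.1, hD.2, hs.2]
            omega
          · rw [degree_eq_natDegree hD0, hD.2] at hdeg
            exact lt_trans hdeg (by exact_mod_cast hj)
        · have e : (rt D + D * s) ^ 2 + X = (rt D ^ 2 + X) + D * (2 * rt D * s + D * s ^ 2) := by
            ring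
          rw [e]
          exact dvd_add hdvd (dvd_mul_right _ _)
      · intro s _ s' _ hss
        exact mul_left_cancel₀ hD0 (add_left_cancel hss)
      · intro a ha
        rw [Finset.mem_filter] at ha
        obtain ⟨s, hs⟩ := (h2 a ha.2).2
        refine ⟨s, ?_, ?_⟩
        · have h3 : D * s ∈ Mn K d := by
            rw [← hs, sub_eq_add_neg]
            apply add_mem_Mn ha.1
            rw [degree_neg]
            rw [degree_eq_natDegree hD0, hD.2] at hdeg
            exact lt_trans hdeg (by exact_mod_cast hj)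
          rw [mem_Mn] at h3 ⊢
          have hsm : s.Monic := hD.1.of_mul_monic_left h3.1
          refine ⟨hsm, ?_⟩
          have := hD.1.natDegree_mul hsm
          rw [h3.2, hD.2] at this
          omega
        · rw [← hs]; ring
      · intro s _; rfl
    have hsum2 : ∑ s ∈ Mn K (d - j), χ (rt D + D * s) =
        χ (rt D) * ∑ s ∈ Mn K (d - j), χ (D * s) := by
      rw [Finset.mul_sum]
      exact Finset.sum_congr rfl fun s _ => by rw [AddChar.map_add_eq_mul]
    rw [hsum, hsum2, abs_mul, abs_mul, chi_abs, one_mul]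
    have hmob : |(mob D : ℝ)| ≤ 1 := by
      unfold mob
      rw [if_pos hsq]
      push_cast
      rw [abs_pow, abs_neg, abs_one, one_pow]
    by_cases hP : Per d χ D
    · rw [if_pos hP]
      have h3 : |∑ s ∈ Mn K (d - j), χ (D * s)| ≤ (Fintype.card K : ℝ) ^ (d - j) := by
        refine (Finset.abs_sum_le_sum_abs _ _).trans ?_
        rw [Finset.sum_congr rfl fun s _ => chi_abs χ (D * s), Finset.sum_const, card_Mn,
          nsmul_eq_mul, mul_one]
        push_cast; exact le_rfl
      calc |(mob D : ℝ)| * |∑ s ∈ Mn K (d - j), χ (D * s)|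
          ≤ 1 * (Fintype.card K : ℝ) ^ (d - j) :=
            mul_le_mul hmob h3 (abs_nonneg _) zero_le_one
        _ = _ := one_mul _
    · rw [if_neg hP]
      unfold Per at hP
      push Not at hP
      obtain ⟨s₀, hs₀, hχ⟩ := hP
      have hs₁ : s₀.degree < ((d - j : ℕ) : WithBot ℕ) := by
        by_cases hs0 : s₀ = 0
        · rw [hs0, degree_zero]; exact WithBot.bot_lt_coe _
        · rw [degree_mul, degree_eq_natDegree hD0, hD.2, degree_eq_natDegree hs0] at hs₀
          have h4 : j + s₀.natDegree < d := by exact_mod_cast hs₀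
          rw [degree_eq_natDegree hs0]
          have h5 : s₀.natDegree < d - j := by omega
          exact_mod_cast h5
      rw [sum_Mn_zero (d - j) D s₀ χ hs₁ hχ, abs_zero, mul_zero]
  · have hmob : mob D = 0 := by
      unfold mob
      rw [if_neg hsq]
    rw [hmob]
    simp only [Int.cast_zero, zero_mul, abs_zero]
    split_ifs
    · positivity
    · exact le_rfl

theorem far1x (hroot : S_root) : S_far1x := by
  intro K _ _ _ d t j χ hj hminor
  have hq0 : (0 : ℝ) < Fintype.card K := by exact_mod_cast Fintype.card_pos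
  have hq1 : (1 : ℝ) ≤ Fintype.card K := by exact_mod_cast Fintype.card_pos
  -- exchange
  have hex : ∑ a ∈ Mn K d, χ a * ∑ D ∈ (Mn K j).filter (fun D => D ∣ a ^ 2 + X), (mob D : ℝ) =
      ∑ D ∈ Mn K j, (mob D : ℝ) * ∑ a ∈ (Mn K d).filter (fun a => D ∣ a ^ 2 + X), χ a := by
    simp only [Finset.sum_filter, Finset.mul_sum]
    rw [Finset.sum_comm]
    refine Finset.sum_congr rfl fun D _ => Finset.sum_congr rfl fun a _ => ?_
    split_ifs
    · ring
    · ring
  rw [hex]
  have hbd : |∑ D ∈ Mn K j, (mob D : ℝ) *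
      ∑ a ∈ (Mn K d).filter (fun a => D ∣ a ^ 2 + X), χ a| ≤
      (((Mn K j).filter (fun D => Per d χ D)).card : ℝ) * (Fintype.card K : ℝ) ^ (d - j) := by
    refine (Finset.abs_sum_le_sum_abs _ _).trans ?_
    refine (Finset.sum_le_sum fun D hD => inner hroot d j χ hj D hD).trans ?_
    rw [← Finset.sum_filter, Finset.sum_const, nsmul_eq_mul]
  refine hbd.trans ?_
  by_cases hne : ((Mn K j).filter (fun D => Per d χ D)).Nonempty
  · obtain ⟨D₁, hD₁⟩ := hne
    rw [Finset.mem_filter, mem_Mn] at hD₁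
    let ρ := Nat.find (exists_per d χ)
    obtain ⟨r, hr, hrd, hper⟩ := Nat.find_spec (exists_per d χ)
    have hmin : ∀ r' : K[X], r'.Monic → r'.natDegree < ρ → ¬ Per d χ r' := by
      intro r' h1 h2 h3
      exact Nat.find_min (exists_per d χ) h2 ⟨r', h1, rfl, h3⟩
    have hρj : ρ ≤ j := by
      by_contra hcon
      push Not at hcon
      exact hmin D₁ hD₁.1.1 (by rw [hD₁.1.2]; exact hcon) hD₁.2
    have htρ : t < ρ := by
      by_contra hcon
      push Not at hcon
      obtain ⟨s, hs, hχ⟩ := hminor r hr (by rw [hrd]; exact hcon)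
      exact hχ (hper s hs)
    rcases le_total (d - j) ρ with hle | hle
    · have h1 := card_per d j (d - j) ρ χ r hr hrd hper hmin hle (by omega) hρj
      have h2 : 0 ≤ (Fintype.card K : ℝ) ^ d / (Fintype.card K : ℝ) ^ t := by positivity
      linarith
    · have h1 := card_per d j ρ ρ χ r hr hrd hper hmin le_rfl (by omega) hρj
      have h2 : (((Mn K j).filter (fun D => Per d χ D)).card : ℝ) *
          (Fintype.card K : ℝ) ^ (d - j) ≤
          (Fintype.card K : ℝ) ^ d / (Fintype.card K : ℝ) ^ t := by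
        rw [le_div_iff₀ (by positivity)]
        have h3 : (Fintype.card K : ℝ) ^ t ≤ (Fintype.card K : ℝ) ^ ρ :=
          pow_le_pow_right₀ hq1 htρ.le
        have h4 : (Fintype.card K : ℝ) ^ d =
            (Fintype.card K : ℝ) ^ (d - j) * (Fintype.card K : ℝ) ^ j := by
          rw [← pow_add]; congr 1; omega
        rw [h4]
        calc (((Mn K j).filter (fun D => Per d χ D)).card : ℝ) *
            (Fintype.card K : ℝ) ^ (d - j) * (Fintype.card K : ℝ) ^ t
            ≤ (((Mn K j).filter (fun D => Per d χ D)).card : ℝ) *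
            (Fintype.card K : ℝ) ^ (d - j) * (Fintype.card K : ℝ) ^ ρ :=
              mul_le_mul_of_nonneg_left h3 (by positivity)
          _ = (Fintype.card K : ℝ) ^ (d - j) *
            ((((Mn K j).filter (fun D => Per d χ D)).card : ℝ) * (Fintype.card K : ℝ) ^ ρ) := by
              ring
          _ ≤ _ := mul_le_mul_of_nonneg_left h1 (by positivity)
      have h5 : 0 ≤ (Fintype.card K : ℝ) ^ j := by positivity
      linarith
  · rw [Finset.not_nonempty_iff_eq_empty] at hne
    rw [hne, Finset.card_empty, Nat.cast_zero, zero_mul]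
    positivity

theorem main : S_tfar1x := fun hroot _ => far1x hroot

end Pool.Agent.H290.FX.PFar1x
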