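import Mathlib
import Pool.Agent.H290.FX.Stm
import Pool.Agent.H604.LD.Far2

set_option autoImplicit false

namespace Pool.Agent.H290.FX.PFar2x

open Polynomial
open scoped Classical
open Pool.Agent.H985.Chow (mob lc)
open Pool.Agent.H694.Typ (Mn mem_Mn card_Mn q_ge)


theorem abs_chi {K : Type} [Field K] [CharP K 2] (χ : AddChar K[X] ℝ) (x : K[X]) :
    |χ x| = 1 := by
  have h1 : χ x * χ x = 1 := by
    rw [← AddChar.map_add_eq_mul]
    have h2 : x + x = 0 := by
      have h3 : (2 : K[X]) = 0 := by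
        have := CharP.cast_eq_zero (K[X]) 2
        exact_mod_cast this
      rw [← two_mul, h3, zero_mul]
    rw [h2, AddChar.map_zero_eq_one]
  have h2 : |χ x| * |χ x| = 1 := by
    rw [← abs_mul, h1, abs_one]
  nlinarith [abs_nonneg (χ x)]

theorem main : S_tfar2x := by
  intro hroot hweyl K _ _ _ κ hκ
  obtain ⟨c, hc, d₀, hW⟩ := hweyl K κ hκ
  refine ⟨c, hc, d₀, ?_⟩
  intro d j χ hd hj
  have hd0 : (0 : ℝ) ≤ d := Nat.cast_nonneg d
  have hjd : j ≤ d := by
    have h1 : (j : ℝ) ≤ d := by nlinarith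
    exact_mod_cast h1
  have hq1 : (1 : ℝ) ≤ Fintype.card K := by
    exact_mod_cast Fintype.card_pos (α := K)
  have hq0 : (0 : ℝ) < Fintype.card K := by linarith
  have e1 : ∑ a ∈ Mn K d, χ a * ((mob (a ^ 2 + X) : ℝ) *
        ∑ D ∈ (Mn K j).filter (fun D => D ∣ a ^ 2 + X), (mob D : ℝ)) =
      ∑ D ∈ Mn K j, (mob D : ℝ) *
        ∑ a ∈ (Mn K d).filter (fun a => D ∣ a ^ 2 + X), χ a * (mob (a ^ 2 + X) : ℝ) := by
    simp_rw [Finset.mul_sum, Finset.sum_filter]
    rw [Finset.sum_comm]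
    refine Finset.sum_congr rfl fun D _ => Finset.sum_congr rfl fun a _ => ?_
    split_ifs
    · ring
    · rfl
  rw [e1]
  have hterm : ∀ D ∈ Mn K j, |(mob D : ℝ) *
        ∑ a ∈ (Mn K d).filter (fun a => D ∣ a ^ 2 + X), χ a * (mob (a ^ 2 + X) : ℝ)| ≤
      (Fintype.card K : ℝ) ^ ((d : ℝ) - j - c * d) := by
    intro D hD
    rw [mem_Mn] at hD
    by_cases hs : Squarefree D
    · obtain ⟨hr1, hr2⟩ := (hroot K D hD.1).1 hs
      have hDd : D.natDegree ≤ d := by rw [hD.2]; exact hjd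
      rw [Pool.Agent.H604.LD.Far2.sum_res hD.1 hs hDd hr2 hr1
        (fun a => χ a * (mob (a ^ 2 + X) : ℝ))]
      have hχ : ∀ s : K[X], χ (rt D + D * s) = χ (rt D) *
          (χ.compAddMonoidHom (AddMonoidHom.mulLeft D)) s := by
        intro s
        rw [AddChar.map_add_eq_mul]
        rfl
      have e2 : ∑ s ∈ Mn K (d - D.natDegree), χ (rt D + D * s) *
            (mob ((rt D + D * s) ^ 2 + X) : ℝ) =
          χ (rt D) * ∑ s ∈ Mn K (d - D.natDegree),
            (χ.compAddMonoidHom (AddMonoidHom.mulLeft D)) s *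
              (mob ((rt D + D * s) ^ 2 + X) : ℝ) := by
        rw [Finset.mul_sum]
        refine Finset.sum_congr rfl fun s _ => ?_
        rw [hχ]
        ring
      rw [e2, abs_mul, abs_mul, abs_chi, one_mul]
      have hrd : (rt D).degree < (d : WithBot ℕ) := by
        refine hr2.trans_le ?_
        rw [degree_eq_natDegree hD.1.ne_zero]
        exact_mod_cast hDd
      have hw := hW d (χ.compAddMonoidHom (AddMonoidHom.mulLeft D)) hd D (rt D) hD.1
        (by rw [hD.2]; exact hj) hrd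
      rw [hD.2] at hw ⊢
      calc |(mob D : ℝ)| * _ ≤ 1 * (Fintype.card K : ℝ) ^ ((d : ℝ) - j - c * d) :=
            mul_le_mul (Pool.Agent.H604.LD.Far2.mob_le D) hw (abs_nonneg _) zero_le_one
        _ = _ := one_mul _
    · have h5 : (mob D : ℝ) = 0 := by
        unfold mob
        rw [if_neg hs]
        simp
      rw [h5, zero_mul, abs_zero]
      exact Real.rpow_nonneg hq0.le _
  calc |∑ D ∈ Mn K j, (mob D : ℝ) *
        ∑ a ∈ (Mn K d).filter (fun a => D ∣ a ^ 2 + X), χ a * (mob (a ^ 2 + X) : ℝ)|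
      ≤ ∑ D ∈ Mn K j, |(mob D : ℝ) *
        ∑ a ∈ (Mn K d).filter (fun a => D ∣ a ^ 2 + X), χ a * (mob (a ^ 2 + X) : ℝ)| :=
        Finset.abs_sum_le_sum_abs _ _
    _ ≤ ∑ _D ∈ Mn K j, (Fintype.card K : ℝ) ^ ((d : ℝ) - j - c * d) :=
        Finset.sum_le_sum hterm
    _ = (Fintype.card K : ℝ) ^ (j : ℝ) * (Fintype.card K : ℝ) ^ ((d : ℝ) - j - c * d) := by
        rw [Finset.sum_const, card_Mn, nsmul_eq_mul, Nat.cast_pow, Real.rpow_natCast]
    _ = (Fintype.card K : ℝ) ^ ((1 - c) * d) := by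
        rw [← Real.rpow_add hq0]
        congr 1
        ring

end Pool.Agent.H290.FX.PFar2x

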