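import Pool.Agent.H290.FX.Stm
import Pool.Agent.H604.LD.Fin

/-!
# Task FINX: the bound for the minor characters
-/

set_option autoImplicit false
set_option linter.unusedSectionVars false

namespace Pool.Agent.H290.FX.PFinx

open Polynomial
open scoped Classical
open Pool.Agent.H985.Chow (mob lc)
open Pool.Agent.H694.Typ (Mn mem_Mn)
open Pool.Agent.H604.LD (S_hid)
open Pool.Agent.H604.LD.FIN (fmon sqf mob_mul_sqf mob_mul_self)

/-- the sum over the divisors of degree `j` -/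
noncomputable def Nj (K : Type) [Field K] [Fintype K] (d j : ℕ) (χ : AddChar K[X] ℝ) : ℝ :=
  ∑ a ∈ Mn K d, χ a * ∑ D ∈ (Mn K j).filter (fun D => D ∣ a ^ 2 + X), (mob D : ℝ)

/-- the sum over the divisors of degree `j`, twisted by the Möbius function -/
noncomputable def Mj (K : Type) [Field K] [Fintype K] (d j : ℕ) (χ : AddChar K[X] ℝ) : ℝ :=
  ∑ a ∈ Mn K d, χ a * ((mob (a ^ 2 + X) : ℝ) *
    ∑ D ∈ (Mn K j).filter (fun D => D ∣ a ^ 2 + X), (mob D : ℝ))

section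

variable {K : Type} [Field K] [Fintype K] [CharP K 2]

/-- The complementary divisor. -/
theorem refl1 {d : ℕ} (hd : 1 ≤ d) {j : ℕ} (hj : j ≤ 2 * d) {a : K[X]} (ha : a ∈ Mn K d) :
    (mob (a ^ 2 + X) : ℝ) * ∑ D ∈ (Mn K j).filter (fun D => D ∣ a ^ 2 + X), (mob D : ℝ) =
      ∑ D ∈ (Mn K (2 * d - j)).filter (fun D => D ∣ a ^ 2 + X), (mob D : ℝ) := by
  obtain ⟨h1, h2⟩ := fmon hd ha
  have h3 := sqf a
  have hdiv : ∀ i : ℕ, i ≤ 2 * d → ∀ D ∈ (Mn K i).filter (fun D => D ∣ a ^ 2 + X),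
      (a ^ 2 + X) / D ∈ (Mn K (2 * d - i)).filter (fun D => D ∣ a ^ 2 + X) ∧
        D * ((a ^ 2 + X) / D) = a ^ 2 + X := by
    intro i hi D hD
    rw [Finset.mem_filter, mem_Mn] at hD
    obtain ⟨⟨h4, h5⟩, h6⟩ := hD
    have h7 : D * ((a ^ 2 + X) / D) = a ^ 2 + X := EuclideanDomain.mul_div_cancel' h4.ne_zero h6
    have h8 : ((a ^ 2 + X) / D).Monic := by
      refine h4.of_mul_monic_left ?_
      rw [h7]
      exact h1
    refine ⟨?_, h7⟩
    rw [Finset.mem_filter, mem_Mn]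
    refine ⟨⟨h8, ?_⟩, ⟨D, ?_⟩⟩
    · have h9 := h4.natDegree_mul h8
      rw [h7, h2, h5] at h9
      omega
    · rw [mul_comm]
      exact h7.symm
  rw [Finset.mul_sum]
  refine Finset.sum_bij (fun D _ => (a ^ 2 + X) / D) (fun D hD => (hdiv j hj D hD).1) ?_ ?_ ?_
  · intro D hD D' hD' hDD
    have e1 := (hdiv j hj D hD).2
    have e2 := (hdiv j hj D' hD').2
    rw [hDD] at e1
    have h0 : (a ^ 2 + X) / D' ≠ 0 := by
      intro h
      rw [h, mul_zero] at e2
      exact h1.ne_zero e2.symm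
    exact mul_right_cancel₀ h0 (e1.trans e2.symm)
  · intro D hD
    have e1 := hdiv (2 * d - j) (by omega) D hD
    have e2 : 2 * d - (2 * d - j) = j := by omega
    rw [e2] at e1
    refine ⟨(a ^ 2 + X) / D, e1.1, ?_⟩
    have e3 := (hdiv j hj _ e1.1).2
    have e4 := e1.2
    have h0 : (a ^ 2 + X) / D ≠ 0 := by
      intro h
      rw [h, mul_zero] at e4
      exact h1.ne_zero e4.symm
    apply mul_left_cancel₀ h0
    rw [e3, mul_comm]
    exact e4.symm
  · intro D hD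
    have e1 := (hdiv j hj D hD).2
    have h4 : Squarefree (D * ((a ^ 2 + X) / D)) := by rw [e1]; exact h3
    have h5 := mob_mul_sqf h4
    rw [e1] at h5
    have h6 := mob_mul_self (squarefree_mul_iff.1 h4).2.1
    have h7 : (mob D : ℝ) * (mob D : ℝ) = 1 := by exact_mod_cast h6
    have h8 : (mob (a ^ 2 + X) : ℝ) = mob D * mob ((a ^ 2 + X) / D) := by exact_mod_cast h5
    rw [h8]
    linear_combination (mob ((a ^ 2 + X) / D) : ℝ) * h7

theorem refl {d : ℕ} (hd : 1 ≤ d) {j : ℕ} (hj : j ≤ 2 * d) (χ : AddChar K[X] ℝ) :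
    Mj K d j χ = Nj K d (2 * d - j) χ := by
  unfold Mj Nj
  exact Finset.sum_congr rfl fun a ha => by rw [refl1 hd hj ha]

/-- the identity for the exponential sum -/
theorem ident (hh : S_hid) {d : ℕ} (hd : 1 ≤ d) (χ : AddChar K[X] ℝ) :
    2 * (d : ℝ) * SX K d χ =
      ∑ j ∈ Finset.range d, ((d : ℝ) - j) * (Nj K d j χ - Mj K d j χ) := by
  have h1 : ∀ a ∈ Mn K d, (if Irreducible (a ^ 2 + X) then 2 * (d : ℝ) * χ a else 0) =
      ∑ j ∈ Finset.range d, ((d : ℝ) - j) *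
        (χ a * ∑ D ∈ (Mn K j).filter (fun D => D ∣ a ^ 2 + X), (mob D : ℝ) -
        χ a * ((mob (a ^ 2 + X) : ℝ) *
          ∑ D ∈ (Mn K j).filter (fun D => D ∣ a ^ 2 + X), (mob D : ℝ))) := by
    intro a ha
    obtain ⟨e1, e2⟩ := fmon hd ha
    have e3 := hh K d (a ^ 2 + X) hd e1 (sqf a) e2
    have e4 : (if Irreducible (a ^ 2 + X) then 2 * (d : ℝ) * χ a else 0) =
        χ a * (if Irreducible (a ^ 2 + X) then 2 * (d : ℝ) else 0) := by
      split_ifs with h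
      · ring
      · rw [mul_zero]
    rw [e4, ← e3, Finset.mul_sum, Finset.mul_sum]
    exact Finset.sum_congr rfl fun j _ => by ring
  have h2 : 2 * (d : ℝ) * SX K d χ =
      ∑ a ∈ Mn K d, if Irreducible (a ^ 2 + X) then 2 * (d : ℝ) * χ a else 0 := by
    rw [← Finset.sum_filter]
    unfold SX
    rw [Finset.mul_sum]
  rw [h2, Finset.sum_congr rfl h1, Finset.sum_comm]
  refine Finset.sum_congr rfl fun j _ => ?_
  rw [← Finset.mul_sum, Finset.sum_sub_distrib]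
  rfl

end

theorem main : S_tfinx := by
  intro hhid hnear hfar2 hfar1 K _ _ _ θ hθ
  obtain ⟨q, hq⟩ : ∃ q : ℝ, q = (Fintype.card K : ℝ) := ⟨_, rfl⟩
  have hq2 : (2 : ℝ) ≤ q := by
    rw [hq]
    exact_mod_cast (Fintype.one_lt_card (α := K))
  have hq0 : 0 < q := by linarith
  have hq1 : (1 : ℝ) ≤ q := by linarith
  obtain ⟨c₃, κ, hc₃, hκ, d₃, H3⟩ := hnear K
  obtain ⟨c₂, hc₂, d₂, H2⟩ := hfar2 K κ hκ
  have H1 := hfar1 K
  obtain ⟨c, hc0, hcθ, hcκ, hc2, hc3⟩ : ∃ c : ℝ, 0 < c ∧ 2 * c ≤ θ ∧ 2 * c ≤ κ ∧ 2 * c ≤ c₂ ∧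
      2 * c ≤ c₃ := by
    refine ⟨min (min (θ / 2) (κ / 2)) (min (c₂ / 2) (c₃ / 2)), by positivity, ?_, ?_, ?_, ?_⟩
    · have := (min_le_left (min (θ / 2) (κ / 2)) (min (c₂ / 2) (c₃ / 2))).trans (min_le_left _ _)
      linarith
    · have := (min_le_left (min (θ / 2) (κ / 2)) (min (c₂ / 2) (c₃ / 2))).trans (min_le_right _ _)
      linarith
    · have := (min_le_right (min (θ / 2) (κ / 2)) (min (c₂ / 2) (c₃ / 2))).trans (min_le_left _ _)
      linarith
    · have := (min_le_right (min (θ / 2) (κ / 2)) (min (c₂ / 2) (c₃ / 2))).trans (min_le_right _ _)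
      linarith
  -- the limit
  have hr : |q ^ (-c)| < 1 := by
    rw [abs_of_pos (Real.rpow_pos_of_pos hq0 _)]
    exact Real.rpow_lt_one_of_one_lt_of_neg (by linarith) (by linarith)
  have l1 := tendsto_pow_const_mul_const_pow_of_abs_lt_one 1 hr
  rw [Metric.tendsto_atTop] at l1
  obtain ⟨n1, L1⟩ := l1 (1 / 4) (by positivity)
  refine ⟨c, hc0, max (max d₂ d₃) (max n1 1), ?_⟩
  intro d t χ hd ht hmin
  simp only [max_le_iff] at hd
  obtain ⟨⟨hd2, hd3⟩, hn1, hd1⟩ := hd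
  have hdpos : (0 : ℝ) < d := by exact_mod_cast (by omega : 0 < d)
  obtain ⟨W, hW⟩ : ∃ W : ℝ, W = q ^ ((1 - 2 * c) * (d : ℝ)) := ⟨_, rfl⟩
  have hW0 : 0 ≤ W := by rw [hW]; positivity
  have hexp : ∀ c' : ℝ, 2 * c ≤ c' → q ^ ((1 - c') * (d : ℝ)) ≤ W := by
    intro c' hc'
    rw [hW]
    refine Real.rpow_le_rpow_of_exponent_le hq1 ?_
    exact mul_le_mul_of_nonneg_right (by linarith) hdpos.le
  -- the near bound
  have bnear : ∀ n : ℕ, |(n : ℝ) - d| ≤ κ * d → |Nj K d n χ| ≤ W := by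
    intro n hn
    refine (H3 d n χ hd3 hn).trans ?_
    rw [← hq]
    exact hexp c₃ hc3
  -- the bounds
  have bN : ∀ j, j < d → |Nj K d j χ| ≤ 2 * W := by
    intro j hj
    by_cases hjk : (j : ℝ) ≤ (1 - κ) * d
    · refine (H1 d t j χ hj hmin).trans ?_
      rw [← hq]
      have e1 : q ^ d / q ^ t ≤ W := by
        have e2 : q ^ d / q ^ t = q ^ ((d : ℝ) - t) := by
          rw [Real.rpow_sub hq0, Real.rpow_natCast, Real.rpow_natCast]
        rw [e2]
        refine (Real.rpow_le_rpow_of_exponent_le hq1 ?_).trans (hexp θ hcθ)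
        linarith
      have e3 : q ^ j ≤ W := by
        rw [← Real.rpow_natCast]
        exact (Real.rpow_le_rpow_of_exponent_le hq1 hjk).trans (hexp κ hcκ)
      linarith
    · push Not at hjk
      have e1 : (j : ℝ) ≤ d := by exact_mod_cast hj.le
      have e2 := bnear j (by rw [abs_le]; constructor <;> linarith)
      linarith
  have bM : ∀ j, j < d → |Mj K d j χ| ≤ W := by
    intro j hj
    by_cases hjk : (j : ℝ) ≤ (1 - κ) * d
    · refine (H2 d j χ hd2 hjk).trans ?_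
      rw [← hq]
      exact hexp c₂ hc2
    · push Not at hjk
      rw [refl (by omega) (by omega : j ≤ 2 * d)]
      have e1 : (j : ℝ) ≤ d := by exact_mod_cast hj.le
      refine bnear (2 * d - j) ?_
      have e2 : ((2 * d - j : ℕ) : ℝ) = 2 * d - j := by
        rw [Nat.cast_sub (by omega)]
        push_cast
        ring
      rw [e2, abs_le]
      constructor <;> linarith
  have hid := ident hhid (by omega : 1 ≤ d) χ
  have h1 : |2 * (d : ℝ) * SX K d χ| ≤ d * (d * (3 * W)) := by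
    rw [hid]
    refine (Finset.abs_sum_le_sum_abs _ _).trans ?_
    have e1 : ∀ j ∈ Finset.range d, |((d : ℝ) - j) * (Nj K d j χ - Mj K d j χ)| ≤ d * (3 * W) := by
      intro j hj
      rw [Finset.mem_range] at hj
      have e2 : (j : ℝ) ≤ d := by exact_mod_cast hj.le
      have e3 : (0 : ℝ) ≤ j := Nat.cast_nonneg j
      rw [abs_mul, abs_of_nonneg (by linarith : (0 : ℝ) ≤ (d : ℝ) - j)]
      refine mul_le_mul (by linarith) ?_ (abs_nonneg _) hdpos.le
      refine (abs_sub _ _).trans ?_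
      have e4 := bN j hj
      have e5 := bM j hj
      linarith
    refine (Finset.sum_le_sum e1).trans ?_
    rw [Finset.sum_const, Finset.card_range, nsmul_eq_mul]
  rw [abs_mul, abs_of_pos (by positivity : (0 : ℝ) < 2 * d)] at h1
  have h2 : |SX K d χ| ≤ 3 / 2 * (d * W) := by
    have e1 : (d : ℝ) * |SX K d χ| ≤ d * (3 / 2 * (d * W)) := by
      have e2 : 2 * (d : ℝ) * |SX K d χ| ≤ d * (d * (3 * W)) := h1
      nlinarith
    exact le_of_mul_le_mul_left e1 hdpos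
  have h3 : W = q ^ ((1 - c) * (d : ℝ)) * (q ^ (-c)) ^ d := by
    rw [hW, ← Real.rpow_natCast (q ^ (-c)) d, ← Real.rpow_mul hq0.le, ← Real.rpow_add hq0]
    congr 1
    ring
  have h4 : (d : ℝ) * (q ^ (-c)) ^ d < 1 / 4 := by
    have h := L1 d hn1
    rw [Real.dist_eq, sub_zero, pow_one] at h
    exact (le_abs_self _).trans_lt h
  rw [← hq]
  obtain ⟨E, hE⟩ : ∃ E : ℝ, E = q ^ ((1 - c) * (d : ℝ)) := ⟨_, rfl⟩
  obtain ⟨R, hR⟩ : ∃ R : ℝ, R = (q ^ (-c)) ^ d := ⟨_, rfl⟩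
  rw [← hR] at h4
  rw [← hE, ← hR] at h3
  rw [← hE]
  have hE0 : 0 ≤ E := by rw [hE]; positivity
  rw [h3] at h2
  calc |SX K d χ| ≤ 3 / 2 * (d * (E * R)) := h2
    _ = E * (3 / 2 * (d * R)) := by ring
    _ ≤ E * 1 := mul_le_mul_of_nonneg_left (by linarith) hE0
    _ = E := mul_one E

end Pool.Agent.H290.FX.PFinx
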