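import Mathlib
import Pool.Agent.H290.FX.StmC

/-!
# Task FOUR: the exponential sum for all characters (helper322)
-/

set_option autoImplicit false

namespace Pool.Agent.H290.FX.PFour

open Polynomial
open scoped Classical
open Pool.Agent.H985.Chow (mob)
open Pool.Agent.H985.KP (sg PA)
open Pool.Agent.H694.Typ (Mn PU mem_Mn)
open Pool.Agent.H604.LD (PiM)

theorem mem_Sq {K : Type} [Field K] [Fintype K] {t : ℕ} {r : K[X]} :
    r ∈ Sq K t ↔ (r.Monic ∧ r.natDegree ≤ t) ∧ Squarefree r := by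
  unfold Sq
  rw [Finset.mem_filter, Finset.mem_biUnion]
  constructor
  · rintro ⟨⟨n, hn, hr⟩, hs⟩
    rw [mem_Mn] at hr
    rw [Finset.mem_range] at hn
    exact ⟨⟨hr.1, by omega⟩, hs⟩
  · rintro ⟨⟨h1, h2⟩, hs⟩
    exact ⟨⟨r.natDegree, by rw [Finset.mem_range]; omega, by rw [mem_Mn]; exact ⟨h1, rfl⟩⟩, hs⟩

theorem uniq_eq {K : Type} [Field K] [CharP K 2] (h : S_uniq) {d : ℕ} {χ : AddChar K[X] ℝ}
    {r r' : K[X]} (h1 : MPer d χ r) (h2 : MPer d χ r') (h3 : r.natDegree + r'.natDegree ≤ d) :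
    r = r' := by
  have a := h K d χ r r' h1 h2.1 h2.2.1 h3
  have b := h K d χ r' r h2 h1.1 h1.2.1 (by omega)
  exact eq_of_monic_of_associated h1.1 h2.1 (associated_of_dvd_dvd a b)

/-- the main term when there is a minimal period -/
theorem MT_eq {K : Type} [Field K] [Fintype K] [CharP K 2] (h : S_uniq) {d t : ℕ}
    {χ : AddChar K[X] ℝ} {r : K[X]} (h1 : MPer d χ r) (h2 : r.natDegree ≤ t) (h3 : 2 * t ≤ d) :
    MT K d t χ = (mob r : ℝ) * χ (rt r + r * X ^ (d - r.natDegree)) *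
      ((Fintype.card K : ℝ) ^ (d - r.natDegree) / PiM r) := by
  unfold MT
  by_cases hs : Squarefree r
  · have : (Sq K t).filter (fun r => MPer d χ r) = {r} := by
      ext r'
      rw [Finset.mem_filter, Finset.mem_singleton]
      constructor
      · rintro ⟨ha, hb⟩
        rw [mem_Sq] at ha
        exact (uniq_eq h h1 hb (by omega)).symm
      · rintro rfl
        exact ⟨mem_Sq.2 ⟨⟨h1.1, h2⟩, hs⟩, h1⟩
    rw [this, Finset.sum_singleton]
  · have : (Sq K t).filter (fun r => MPer d χ r) = ∅ := by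
      rw [Finset.filter_eq_empty_iff]
      intro r' ha hb
      rw [mem_Sq] at ha
      have := uniq_eq h h1 hb (by omega)
      exact hs (this ▸ ha.2)
    rw [this, Finset.sum_empty]
    have hm : mob r = 0 := by
      unfold Pool.Agent.H985.Chow.mob
      rw [if_neg hs]
    rw [hm]
    simp

/-- no minimal period of small degree: the character is minor and the main term vanishes -/
theorem minor_of {K : Type} [Field K] {d t : ℕ} {χ : AddChar K[X] ℝ}
    (h : ¬ ∃ r, MPer d χ r ∧ r.natDegree ≤ t) : Minor d t χ := by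
  intro r hr hrt
  by_contra hcon
  push Not at hcon
  apply h
  have hex : ∃ n : ℕ, ∃ r : K[X], r.Monic ∧ r.natDegree = n ∧ Per d χ r :=
    ⟨r.natDegree, r, hr, rfl, hcon⟩
  obtain ⟨r₀, h1, h2, h3⟩ := Nat.find_spec hex
  refine ⟨r₀, ⟨h1, h3, ?_⟩, ?_⟩
  · intro r' hr' hlt hper
    rw [h2] at hlt
    exact Nat.find_min hex hlt ⟨r', hr', rfl, hper⟩
  · rw [h2]
    exact (Nat.find_min' hex ⟨r, hr, rfl, hcon⟩).trans hrt

theorem MT_zero {K : Type} [Field K] [Fintype K] {d t : ℕ} {χ : AddChar K[X] ℝ}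
    (h : ¬ ∃ r, MPer d χ r ∧ r.natDegree ≤ t) : MT K d t χ = 0 := by
  unfold MT
  have : (Sq K t).filter (fun r => MPer d χ r) = ∅ := by
    rw [Finset.filter_eq_empty_iff]
    intro r' ha hb
    rw [mem_Sq] at ha
    exact h ⟨r', hb, ha.1.2⟩
  rw [this, Finset.sum_empty]

theorem ev_lin (q c : ℝ) (hq : 1 < q) (hc : 0 < c) :
    ∃ d₀ : ℕ, ∀ d : ℕ, d₀ ≤ d → 2 * (d : ℝ) ≤ q ^ (c * d) := by
  have hb : 1 < q ^ c := Real.one_lt_rpow hq hc
  have h := tendsto_pow_const_div_const_pow_of_one_lt 1 hb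
  have h2 := h.eventually (gt_mem_nhds (show (0 : ℝ) < 1 / 2 by norm_num))
  obtain ⟨d₀, hd⟩ := Filter.eventually_atTop.1 h2
  refine ⟨d₀, fun d hd0 => ?_⟩
  have h3 := hd d hd0
  have hpos : 0 < (q ^ c) ^ d := pow_pos (by linarith) d
  rw [pow_one, div_lt_iff₀ hpos] at h3
  have h4 : (q ^ c) ^ d = q ^ (c * d) := by
    rw [Real.rpow_mul (by linarith), Real.rpow_natCast]
  rw [h4] at h3
  linarith

/-- **Task FOUR.** -/
theorem main : S_tfour := by
  intro huniq hminor hmajor K _ _ _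
  obtain ⟨c₁, θ₁, hc₁, hθ₁, d₁, hmaj⟩ := hmajor K
  set θ : ℝ := min θ₁ (min (c₁ / 4) (1 / 4)) with hθdef
  have hθ : 0 < θ := lt_min hθ₁ (lt_min (by linarith) (by norm_num))
  have hθ1 : θ ≤ θ₁ := min_le_left _ _
  have hθ2 : θ ≤ c₁ / 4 := (min_le_right _ _).trans (min_le_left _ _)
  have hθ3 : θ ≤ 1 / 4 := (min_le_right _ _).trans (min_le_right _ _)
  obtain ⟨c₂, hc₂, d₂, hmin⟩ := hminor K (θ / 2) (by linarith)
  have hq : (1 : ℝ) < (Fintype.card K : ℝ) := by
    exact_mod_cast Fintype.one_lt_card (α := K)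
  obtain ⟨d₃, hd₃⟩ := ev_lin (Fintype.card K) (c₂ / 2) hq (by linarith)
  refine ⟨min c₁ (c₂ / 2), θ, lt_min hc₁ (by linarith), hθ, hθ3,
    max (max d₁ d₂) (max d₃ ⌈2 / θ⌉₊), ?_⟩
  intro d t χ hd ht
  have hd1 : d₁ ≤ d := (le_max_left _ _).trans ((le_max_left _ _).trans hd)
  have hd2 : d₂ ≤ d := (le_max_right _ _).trans ((le_max_left _ _).trans hd)
  have hd3 : d₃ ≤ d := (le_max_left _ _).trans ((le_max_right _ _).trans hd)
  have hd4 : ⌈2 / θ⌉₊ ≤ d := (le_max_right _ _).trans ((le_max_right _ _).trans hd)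
  have hd4' : 2 / θ ≤ d := (Nat.le_ceil _).trans (by exact_mod_cast hd4)
  have hd0 : (0 : ℝ) ≤ d := Nat.cast_nonneg d
  have htle : (t : ℝ) ≤ θ * d := by
    rw [ht]; exact Nat.floor_le (by positivity)
  have htge : θ / 2 * d ≤ t := by
    have h1 : θ * d < t + 1 := by rw [ht]; exact Nat.lt_floor_add_one _
    have h2 : 2 ≤ θ * d := by
      rw [div_le_iff₀ hθ] at hd4'
      linarith
    linarith
  have ht2 : 2 * t ≤ d := by
    have : (2 * t : ℝ) ≤ d := by nlinarith
    exact_mod_cast this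
  by_cases hex : ∃ r, MPer d χ r ∧ r.natDegree ≤ t
  · obtain ⟨r, hr, hrt⟩ := hex
    have hb : |2 * (d : ℝ) * SX K d χ - MT K d t χ| ≤ (Fintype.card K : ℝ) ^ ((1 - c₁) * d) := by
      rw [MT_eq huniq hr hrt ht2]
      refine hmaj d χ r hd1 hr.1 ?_ hr.2.1 ?_
      · have : (r.natDegree : ℝ) ≤ t := by exact_mod_cast hrt
        nlinarith
      · intro r' hr' hlt
        have := hr.2.2 r' hr' hlt
        unfold Per at this
        push Not at this
        exact this
    constructor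
    · refine hb.trans (Real.rpow_le_rpow_of_exponent_le hq.le ?_)
      have : min c₁ (c₂ / 2) ≤ c₁ := min_le_left _ _
      nlinarith
    · intro _
      refine hb.trans (Real.rpow_le_rpow_of_exponent_le hq.le ?_)
      nlinarith
  · constructor
    · rw [MT_zero hex, sub_zero, abs_mul, abs_of_nonneg (by positivity : 0 ≤ 2 * (d : ℝ))]
      have h1 := hmin d t χ hd2 htge (minor_of hex)
      have h2 := hd₃ d hd3
      calc 2 * (d : ℝ) * |SX K d χ|
          ≤ (Fintype.card K : ℝ) ^ (c₂ / 2 * d) * (Fintype.card K : ℝ) ^ ((1 - c₂) * d) :=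
            mul_le_mul h2 h1 (abs_nonneg _) (by positivity)
        _ = (Fintype.card K : ℝ) ^ (c₂ / 2 * d + (1 - c₂) * d) := by
            rw [← Real.rpow_add (by linarith)]
        _ ≤ _ := by
            refine Real.rpow_le_rpow_of_exponent_le hq.le ?_
            have : min c₁ (c₂ / 2) ≤ c₂ / 2 := min_le_right _ _
            nlinarith
    · intro h
      exact absurd h hex

end Pool.Agent.H290.FX.PFour
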