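import Mathlib
import Pool.Agent.H290.FX.Vs
import Pool.Agent.H604.LD.Win6a

/-!
# The window bound with the character of the root (helper290): statements of the parts of `S_kfib`
-/

namespace Pool.Agent.H290.FX

open Polynomial
open scoped Classical
open Pool.Agent.H985.Chow (mob lc)
open Pool.Agent.H985.KP (sg PA mobg S_cnt)
open Pool.Agent.H985.FC (gl GP S_lock S_locf S_gcs S_winF)
open Pool.Agent.H604.FC (S_fin S_badt)
open Pool.Agent.H694.Typ (Mn)

/-- **Task LOCFW.**  The first part of `S_locf` (`H985/FC/StmFC.lean`, proved in `H985/FC/Lock.lean`)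
with a further factor `ω v.1`, `‖ω‖ ≤ 1`.  The proof is the same: `hat_eq` with the factor `ω x` in
the sum over `x`, absolute values, `card_le`. -/
def S_locfw : Prop :=
  ∀ (F : Type) [Field F] [Fintype F] [CharP F 2] (ι : Type) [Fintype ι] [Nonempty ι]
    (β ρ τ : F) (θ κ σ : ι → F) (ω : F → ℂ), β ≠ 0 → τ ≠ 0 → Function.Injective κ →
    (∀ x, ‖ω x‖ ≤ 1) → ∀ χ : AddChar (F × F) ℂ,
      ‖∑ v : F × F, ((∏ i, (gl β ρ (θ i) (κ i + v.1) (σ i + v.2) *
        gl β ρ (θ i) (κ i + v.1) (σ i + v.2 + τ)) : ℝ) : ℂ) * ω v.1 * χ v‖ ≤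
          2 * Fintype.card ι * Fintype.card F

/-- **The window bound with the factors of the root.** -/
def S_win7 : Prop :=
  ∃ M : ℝ, 1 ≤ M ∧
  ∀ (K : Type) [Field K] [Fintype K] [CharP K 2] (L D T : ℕ) (E b h' h'' Z g : K[X])
    (χ : AddChar K[X] ℝ) (ψ : ∀ P : K[X], AddChar (AdjoinRoot P) ℝ)
    (c : ∀ P : K[X], AdjoinRoot P) (lam : ∀ P : K[X], K[X] →+ AdjoinRoot P)
    (io : ∀ P : K[X], AdjoinRoot P → AdjoinRoot P),
    h'.Monic → h''.Monic → Squarefree (h' * h'') → IsCoprime E (h' * h'') →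
    h'.natDegree + D ≤ L → h''.natDegree + D ≤ L →
    (∀ P ∈ PA (h' * h''), ¬ P ∣ derivative b) → L ≤ 2 * h''.natDegree → 9 * T ≤ D →
    |∑ᶠ u ∈ {u : K[X] | u.degree < (L : WithBot ℕ)}, χ u *
        ∏ᶠ P ∈ PA (h' * h''), (GP b g P (Z + E * u) *
          ψ P ((c P + lam P u) * io P (AdjoinRoot.mk P (Z + E * u))))| ^ (2 ^ 7) ≤
      M ^ (PA (h' * h'')).ncard * (Fintype.card K : ℝ) ^ (L * 2 ^ 7) / (Fintype.card K : ℝ) ^ T

/-- **Task WIN7.**  As `win4e` (`H604/LD/Win6a.lean`, with `k = r = 1`, and `Win4a`–`Win4e` of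
`H604/FC`).  The directions are six times `h' * t l` and once `h'' * t₀`.  Let `e u` be the product of
`χ u` and the `ψ P (…)`.  The product of `e` over the `128` points `u + ∑_{l ∈ A} h' t_l`,
`u + h'' t₀ + ∑_{l ∈ A} h' t_l` is, for the factor `χ`, `1`; for a prime `P ∣ h'` also `1`: the argument of
`io P` is the same (`=: x`) for the points with `u`, and the same for the points with
`u + h'' t₀`, and `∑_A (c + lam (u + ∑_A)) = 64 c + 64 lam u + 32 ∑ … = 0` in characteristic `2`; for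
a prime `P ∣ h''` the argument of `io P` is the same at `u + ∑_A` and at `u + h'' t₀ + ∑_A`, so the
product is `ψ P (lam P (h'' t₀) * ∑_A io P (mk P (Z + E ∑_A) + mk P (E u)))`, a function `ω_P` of
the first digit `mk P (E u)`, of absolute value `≤ 1`.  So in the lemma `fixed` (`Win4d.lean`) the
function `phiW` at the primes `P ∈ Il` (those dividing `h''`) is multiplied by `ω_P (v.1)`; use
LOCFW instead of LOCF in `phiW_linear`.  Everything else is unchanged. -/
def S_twin7 : Prop := S_gcs → S_lock → S_locfw → S_fin → S_badt → S_cnt → S_win7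

/-- **Task KREC.**  The character of the root in a window.  Here `s = C c₁ * (e * h)`,
`m * A₀ = T₀ ^ 2 + X * s ^ 2`; for `A = A₀ + m (W u) ^ 2`, `T = T₀ + m W u` one has
`m A = T ^ 2 + X s ^ 2`.

Proof.  By `S_dual` there is `H` of degree `< n` with `χ x = sg ((H x).coeff (n-1))` for
`deg x < n`.  For `A` monic of degree `n` let `ξ_A = (H * A) / X ^ n` (quotient), additive in `A`, then
`χ x = sg (lc A (ξ_A x))` for `deg x < n` (`lc A N` is the coefficient of `X⁻¹` in `N / A`; compare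
`H x / X ^ n` and `ξ_A x / A`, the difference has degree `≤ -2`).  If `mob A ≠ 0` then `A` is
squarefree, `s` is prime to `A` and to `T` (a common prime divisor `P` of `s` and `T`, or of `s` and
`A`, has `P ^ 2 ∣ m A`; `m` is prime to `A` as `m ∤ A₀`, and prime to `s`) and `rt A ≡ T s⁻¹` modulo `A`.
Reciprocity: with `A x + s y = 1` one has `N T y / A + N T x / s = N T / (A s)`, so
`sg (lc A (ξ_A rt A)) = e (ξ_A T x / s) e (ξ_A T / (A s))`, `e` the sign of the coefficient of `X⁻¹`.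
Here `x ≡ A⁻¹ ≡ m T⁻²` modulo `s`, so `T x ≡ m T⁻¹`; and `ξ_A T / (A s) = H T / (X ^ n s)` up to
degree `≤ -2`, as `deg T < deg s + n - 1`, and this is `const * additive character of u`.
`ξ_A = C + λ u` with `C = (H * A₀) / X ^ n`, `λ u = (H * (m (W u) ^ 2)) / X ^ n` additive in `u`.
Partial fractions of `1 / s` with denominators `e` and the primes `P ∣ h`:
`e ((C + λ u) m T⁻¹ / s) = e ((C + λ u) m T⁻¹ a_e / e) ∏_P e ((C + λ u) m T⁻¹ a_P / P)`.  As `e ∣ W`,
`T ≡ T₀` modulo `e`, and the first factor is `const * additive character of u` (if `T₀` is not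
prime to `e` then `mob A = 0` for all `u` and there is nothing to prove).  Put
`ψ P x = sg (lc P (m a_P x))`, `c P = mk P C`, `lam P u = mk P (λ u)`, `io P x = x⁻¹`. -/
def S_krec : Prop :=
  ∀ (K : Type) [Field K] [Fintype K] [CharP K 2] (c₁ : K) (m A₀ T₀ e h W : K[X]) (n L : ℕ)
    (χ : AddChar K[X] ℝ), m.Monic → Irreducible m → A₀.Monic → A₀.natDegree = n → ¬ m ∣ A₀ →
    c₁ ≠ 0 → e.Monic → h.Monic → IsCoprime e h → Squarefree h → IsCoprime m (e * h) →
    m * A₀ = T₀ ^ 2 + X * (C c₁ * (e * h)) ^ 2 → e ∣ W → W ≠ 0 → 1 ≤ L →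
    m.natDegree + 2 * (W.natDegree + (L - 1)) < n → m.natDegree + 4 ≤ n + 2 * (e * h).natDegree →
    ∃ (η : ℝ) (χ₁ : AddChar K[X] ℝ) (ψ : ∀ P : K[X], AddChar (AdjoinRoot P) ℝ)
      (c : ∀ P : K[X], AdjoinRoot P) (lam : ∀ P : K[X], K[X] →+ AdjoinRoot P)
      (io : ∀ P : K[X], AdjoinRoot P → AdjoinRoot P), (η = 1 ∨ η = -1) ∧
      ∀ u : K[X], u.degree < (L : WithBot ℕ) → mob (A₀ + m * (W * u) ^ 2) ≠ 0 →
        χ (rt (A₀ + m * (W * u) ^ 2)) = η * χ₁ u * ∏ᶠ P ∈ PA h,
          ψ P ((c P + lam P u) * io P (AdjoinRoot.mk P (T₀ + m * W * u)))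

def S_tkrec : Prop := S_root → S_dual → S_krec

/-- **Task KASM.**  As FIB (`S_fib` of `H604/LD/StmP.lean`).  `m A₀ = T₀ ^ 2 + X s ^ 2` with
`s = C c₁ (e h)` as `s ^ 2 = (m A₀)'`.  Cut the `v` of degree `< V` into the windows `v = v₀ + W u`,
`W = e ^ 5`, `deg u < L = V - deg W`; replace `A₀` by `A₀ + m v₀ ^ 2` (and `T₀` by `T₀ + m v₀`).
`mob (m A) = - mob A` (as `m ∤ A`) and `S_winF` with `E = m W`, `g = 1`, `Z = T₀` give `mob A` as
`η ∏ᶠ P ∈ PA h, GP (C c₁ (e h)) 1 P (T₀ + E u)` in the window (`mobg 1 f = mob f`); multiply with KREC (if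
`mob A = 0` both sides are `0`), `χ' A` is a constant times an additive character of `u`.  Then WIN7
with `h' = P`, `h'' = h / P`, `b = C c₁ (e h)`, `D = ⌊30 η n⌋`, `T = D / 9` (integer part); the number of
the prime factors of `h` is at most `δ n` for large `n`, any `δ > 0`. -/
def S_tkasm : Prop := S_winF → S_win7 → S_krec → S_kfib

end Pool.Agent.H290.FX
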