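import Mathlib
import Pool.Agent.H290.FX.StmW
import Pool.Agent.H604.LD.Typc
import Pool.Agent.H604.LD.Cube

/-!
# Task KASM (helper213): cancellation on a good fibre, with two characters
-/

set_option autoImplicit false
set_option linter.unusedSectionVars false
set_option linter.unusedVariables false

namespace Pool.Agent.H290.FX.PKasm

open Polynomial
open scoped Classical
open Pool.Agent.H985.Chow (mob lc)
open Pool.Agent.H985.KP (sg PA mobg)
open Pool.Agent.H985.FC (GP S_winF gl)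
open Pool.Agent.H985.Chow.Asm (instFD card_deg mem_of_natDegree_lt natDegree_lt_of_mem window_finsum
  avg mem_deg)
open Pool.Agent.H604.LD.TypcAux (mob_mul_cop mobg_one root_bound Y_bound)
open Pool.Agent.H604.FC.Asm4 (omega_bound)

section basic
variable {K : Type} [Field K]

theorem mob_irr_mul {m f : K[X]} (hm : Irreducible m) (h : ¬ m ∣ f) : mob (m * f) = - mob f := by
  rw [mob_mul_cop ((hm.coprime_iff_not_dvd).2 h)]
  have h1 : mob m = -1 := by
    unfold mob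
    rw [if_pos hm.squarefree, UniqueFactorizationMonoid.card_factors_of_irreducible hm, pow_one]
  rw [h1]
  ring

variable [CharP K 2]

theorem two0 : (2 : K[X]) = 0 := CharTwo.two_eq_zero

/-- the decomposition of a polynomial whose derivative is a square -/
theorem dec [Finite K] {f s : K[X]} (h : s ^ 2 = derivative f) : ∃ T : K[X], f = T ^ 2 + X * s ^ 2 := by
  obtain ⟨e, o, h1⟩ := Pool.Agent.H604.LD.CubeL.even_odd f
  refine ⟨e, ?_⟩
  have h2 : derivative f = o ^ 2 := by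
    rw [h1]
    simp only [derivative_add, derivative_mul, derivative_pow, derivative_X]
    have h3 : (C ((2 : ℕ) : K)) = (0 : K[X]) := by
      rw [Nat.cast_ofNat, CharTwo.two_eq_zero, C_0]
    rw [h3]
    ring
  rw [h, h2]
  exact h1

/-- the additive character `u ↦ χ (m (W u) ^ 2)` -/
noncomputable def chq (χ : AddChar K[X] ℝ) (m W : K[X]) : AddChar K[X] ℝ where
  toFun u := χ (m * (W * u) ^ 2)
  map_zero_eq_one' := by
    rw [mul_zero, zero_pow two_ne_zero, mul_zero, χ.map_zero_eq_one]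
  map_add_eq_mul' a b := by
    rw [← χ.map_add_eq_mul]
    congr 1
    linear_combination (m * W ^ 2 * a * b) * (two0 (K := K))

theorem chq_apply (χ : AddChar K[X] ℝ) (m W u : K[X]) : chq χ m W u = χ (m * (W * u) ^ 2) := rfl

theorem chi_abs (χ : AddChar K[X] ℝ) (a : K[X]) : |χ a| = 1 := by
  rcases chi_pm χ a with h | h <;> rw [h] <;> simp

end basic

/-- the body of `S_win7` -/
def W7 (M : ℝ) : Prop :=
  ∀ (K : Type) [Field K] [Fintype K] [CharP K 2] (L D T : ℕ) (E b h' h'' Z g : K[X])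
    (χ : AddChar K[X] ℝ) (ψ : ∀ P : K[X], AddChar (AdjoinRoot P) ℝ)
    (c : ∀ P : K[X], AdjoinRoot P) (lam : ∀ P : K[X], K[X] →+ AdjoinRoot P)
    (io : ∀ P : K[X], AdjoinRoot P → AdjoinRoot P),
    h'.Monic → h''.Monic → Squarefree (h' * h'') → IsCoprime E (h' * h'') →
    h'.natDegree + D ≤ L → h''.natDegree + D ≤ L →
    (∀ P ∈ PA (h' * h''), ¬ P ∣ derivative b) → L ≤ 2 * h''.natDegree → 9 * T ≤ D →
    |∑ᶠ u ∈ {u : K[X] | u.degree < (L : WithBot ℕ)}, χ u *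
        ∏ᶠ P ∈ PA (h' * h''), (GP b g P (Z + E * u) *
          ψ P ((c P + lam P u) * io P (AdjoinRoot.mk P (Z + E * u))))| ^ (2 ^ 7) ≤
      M ^ (PA (h' * h'')).ncard * (Fintype.card K : ℝ) ^ (L * 2 ^ 7) / (Fintype.card K : ℝ) ^ T

/-- **The bound for one window.** -/
theorem window_bd {M : ℝ} (hM1 : 1 ≤ M) (h7 : W7 M) (hF : S_winF) (hR : S_krec) {K : Type} [Field K]
    [Fintype K] [CharP K 2] (c₁ : K) (m A₀ T₀ e h P h₂ : K[X]) (n L D T : ℕ)
    (χ χ' : AddChar K[X] ℝ) (hm : m.Monic) (hmi : Irreducible m) (hA : A₀.Monic)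
    (hAn : A₀.natDegree = n) (hmA : ¬ m ∣ A₀) (hc : c₁ ≠ 0) (he : e.Monic) (hh : h.Monic)
    (heh : IsCoprime e h) (hsq : Squarefree h) (hmeh : IsCoprime m (e * h))
    (hdec : m * A₀ = T₀ ^ 2 + X * (C c₁ * (e * h)) ^ 2) (hP : P.Monic) (hh2 : h = P * h₂)
    (hh2m : h₂.Monic) (hL : 1 ≤ L)
    (k1 : m.natDegree + 2 * (5 * e.natDegree + (L - 1)) < n)
    (k2 : m.natDegree + 4 ≤ n + 2 * (e * h).natDegree)
    (k3 : 2 * ((m.natDegree + 5 * e.natDegree) + (L - 1)) + 3 * (m.natDegree + n) ≤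
      8 * (e * h).natDegree + 2)
    (k4 : P.natDegree + D ≤ L) (k5 : h₂.natDegree + D ≤ L) (k6 : L ≤ 2 * h₂.natDegree)
    (k7 : 9 * T ≤ D) :
    |∑ u : degreeLT K L, (mob (A₀ + m * (e ^ 5 * (u : K[X])) ^ 2) : ℝ) *
        χ (rt (A₀ + m * (e ^ 5 * (u : K[X])) ^ 2)) * χ' (A₀ + m * (e ^ 5 * (u : K[X])) ^ 2)| ≤
      (Fintype.card K : ℝ) ^ L *
        (M ^ (PA h).ncard / (Fintype.card K : ℝ) ^ T) ^ ((1 : ℝ) / 128) := by
  have hq0 : (0 : ℝ) < Fintype.card K := by exact_mod_cast Fintype.card_pos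
  obtain ⟨I, hI, hp⟩ := Pool.Agent.H985.Chow.Win.facs hh hsq
  have hPA : PA h = ↑I := by
    ext P
    rw [Finset.mem_coe, hI]
    rfl
  have hfp : ∀ f : K[X] → ℝ, ∏ᶠ P ∈ PA h, f P = ∏ P ∈ I, f P := by
    intro f
    rw [hPA]
    exact finprod_mem_coe_finset _ _
  have hWm : (e ^ 5).Monic := he.pow 5
  have hWd : (e ^ 5).natDegree = 5 * e.natDegree := he.natDegree_pow 5
  have hmh : IsCoprime m h := hmeh.of_mul_right_right
  have hEh : IsCoprime (m * e ^ 5) h := hmh.mul_left heh.pow_left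
  have hEm : (m * e ^ 5).Monic := hm.mul hWm
  have hEd : (m * e ^ 5).natDegree = m.natDegree + 5 * e.natDegree := by
    rw [hm.natDegree_mul hWm, hWd]
  -- reciprocity
  obtain ⟨η₁, χ₁, ψ, c, lam, io, hη₁, hrec⟩ := hR K c₁ m A₀ T₀ e h (e ^ 5) n L χ hm hmi hA hAn hmA hc
    he hh heh hsq hmeh hdec (dvd_pow_self e (by norm_num)) hWm.ne_zero hL (by rw [hWd]; exact k1) k2
  -- the product formula
  have hZm : (T₀ ^ 2 + X * (C c₁ * (e * h)) ^ 2).Monic := by
    rw [← hdec]; exact hm.mul hA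
  have hZn : (T₀ ^ 2 + X * (C c₁ * (e * h)) ^ 2).natDegree = m.natDegree + n := by
    rw [← hdec, hm.natDegree_mul hA, hAn]
  obtain ⟨η₂, hη₂, hwin⟩ := hF K (m.natDegree + n) L c₁ T₀ e h (m * e ^ 5) 1 hc he hh heh hsq monic_one
    (one_dvd _) hEm.ne_zero (dvd_mul_left _ _) hEh hL hZm hZn (by rw [hEd]; exact k3)
  -- the summand
  have hterm : ∀ u : degreeLT K L, (mob (A₀ + m * (e ^ 5 * (u : K[X])) ^ 2) : ℝ) *
        χ (rt (A₀ + m * (e ^ 5 * (u : K[X])) ^ 2)) * χ' (A₀ + m * (e ^ 5 * (u : K[X])) ^ 2) =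
      (-(η₂ * η₁ * χ' A₀)) * ((χ₁ * chq χ' m (e ^ 5)) (u : K[X]) *
        ∏ᶠ P ∈ PA h, (GP (C c₁ * (e * h)) 1 P (T₀ + m * e ^ 5 * (u : K[X])) *
          ψ P ((c P + lam P (u : K[X])) * io P (AdjoinRoot.mk P (T₀ + m * e ^ 5 * (u : K[X])))))) := by
    intro u
    have hu : (u : K[X]).degree < (L : WithBot ℕ) := mem_degreeLT.1 u.2
    have e1 : (T₀ + m * e ^ 5 * (u : K[X])) ^ 2 + X * (C c₁ * (e * h)) ^ 2 =
        m * (A₀ + m * (e ^ 5 * (u : K[X])) ^ 2) := by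
      linear_combination (-1 : K[X]) * hdec + (T₀ * m * e ^ 5 * (u : K[X])) * (two0 (K := K))
    have hnd : ¬ m ∣ A₀ + m * (e ^ 5 * (u : K[X])) ^ 2 := by
      intro hd
      exact hmA ((dvd_add_left (dvd_mul_right m _)).1 hd)
    have h1 := hwin (u : K[X]) hu
    rw [mobg_one, e1, mob_irr_mul hmi hnd] at h1
    have h1' : (mob (A₀ + m * (e ^ 5 * (u : K[X])) ^ 2) : ℝ) =
        -(η₂ * ∏ᶠ P ∈ PA h, GP (C c₁ * (e * h)) 1 P (T₀ + m * e ^ 5 * (u : K[X]))) := by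
      rw [← h1]
      push_cast
      ring
    have h2 : χ' (A₀ + m * (e ^ 5 * (u : K[X])) ^ 2) = χ' A₀ * chq χ' m (e ^ 5) (u : K[X]) := by
      rw [χ'.map_add_eq_mul, chq_apply]
    have h3 : ∏ᶠ P ∈ PA h, (GP (C c₁ * (e * h)) 1 P (T₀ + m * e ^ 5 * (u : K[X])) *
          ψ P ((c P + lam P (u : K[X])) * io P (AdjoinRoot.mk P (T₀ + m * e ^ 5 * (u : K[X]))))) =
        (∏ᶠ P ∈ PA h, GP (C c₁ * (e * h)) 1 P (T₀ + m * e ^ 5 * (u : K[X]))) *
        ∏ᶠ P ∈ PA h, ψ P ((c P + lam P (u : K[X])) *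
          io P (AdjoinRoot.mk P (T₀ + m * e ^ 5 * (u : K[X])))) := by
      rw [hfp, hfp, hfp, Finset.prod_mul_distrib]
    rw [h3, AddChar.mul_apply]
    by_cases h0 : mob (A₀ + m * (e ^ 5 * (u : K[X])) ^ 2) = 0
    · have h4 : η₂ * ∏ᶠ P ∈ PA h, GP (C c₁ * (e * h)) 1 P (T₀ + m * e ^ 5 * (u : K[X])) = 0 := by
        rw [h0, Int.cast_zero] at h1'
        linarith
      rw [h0, Int.cast_zero, zero_mul, zero_mul]
      linear_combination (η₁ * χ' A₀ * χ₁ (u : K[X]) * chq χ' m (e ^ 5) (u : K[X]) *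
        ∏ᶠ P ∈ PA h, ψ P ((c P + lam P (u : K[X])) *
          io P (AdjoinRoot.mk P (T₀ + m * e ^ 5 * (u : K[X]))))) * h4
    · rw [hrec (u : K[X]) hu h0, h1', h2]
      ring
  rw [Finset.sum_congr rfl fun u _ => hterm u, ← Finset.mul_sum, abs_mul]
  have hcst : |(-(η₂ * η₁ * χ' A₀))| ≤ 1 := by
    rw [abs_neg, abs_mul, abs_mul, chi_abs, mul_one]
    rcases hη₁ with h | h <;> rw [h] <;> simpa using hη₂
  have hmain := h7 K L D T (m * e ^ 5) (C c₁ * (e * h)) P h₂ T₀ 1 (χ₁ * chq χ' m (e ^ 5)) ψ c lam io hP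
    hh2m (by rw [← hh2]; exact hsq) (by rw [← hh2]; exact hEh) k4 k5 (by
      rw [← hh2]
      intro Q hQ hd
      have hQi : Irreducible Q := hQ.2.1
      have : Fact (Irreducible Q) := ⟨hQi⟩
      have h8 := Pool.Agent.H985.Chow.Win.be_ne Q hc heh hsq hQ.2.2
      exact h8 (AdjoinRoot.mk_eq_zero.2 hd)) k6 k7
  rw [window_finsum, ← hh2] at hmain
  have hb := root_bound (y := M ^ (PA h).ncard / (Fintype.card K : ℝ) ^ T) hq0 (abs_nonneg _)
    (by positivity) L (hmain.trans (le_of_eq (by ring)))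
  calc |(-(η₂ * η₁ * χ' A₀))| * _ ≤ 1 * _ := mul_le_mul_of_nonneg_right hcst (abs_nonneg _)
    _ = _ := one_mul _
    _ ≤ _ := hb

/-- **Task KASM.** -/
theorem main : S_tkasm := by
  intro hF hW hR K _ _ _ η hη
  obtain ⟨M, hM1, h7⟩ := hW
  have h7' : W7 M := h7
  obtain ⟨q, hqdef⟩ : ∃ q : ℝ, q = Fintype.card K := ⟨_, rfl⟩
  have hq1 : (1 : ℝ) < q := by rw [hqdef]; exact_mod_cast Fintype.one_lt_card
  have hq0 : (0 : ℝ) < q := by linarith
  obtain ⟨A₁, hA1, hA⟩ := omega_bound K M hM1 (q ^ η) (Real.one_lt_rpow hq1 hη)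
  obtain ⟨a₁, ha₁⟩ := pow_unbounded_of_one_lt A₁ hq1
  obtain ⟨n₀, hn₀⟩ := exists_nat_gt (3 * ((a₁ : ℝ) + 2) / η)
  refine ⟨η / 64, by positivity, n₀, ?_⟩
  intro c₁ m A₀ e h P n u a V χ χ' hn hm hmi hmu hAm hAn hmA hc he hh heh hsq hmeh hder hP hPi hPa hPh
    hed hV1 hV2 hV3 hV4 hV5
  rw [← hqdef]
  obtain ⟨h₂, hh2⟩ := hPh
  have hh2m : h₂.Monic := hP.of_mul_monic_left (by rw [← hh2]; exact hh)
  have hhd : h.natDegree = a + h₂.natDegree := by rw [hh2, hP.natDegree_mul hh2m, hPa]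
  have hehd : (e * h).natDegree = e.natDegree + h.natDegree := he.natDegree_mul hh
  -- sizes
  have hnR : (n₀ : ℝ) ≤ n := by exact_mod_cast hn
  obtain ⟨x, hx⟩ : ∃ x : ℝ, x = η * n := ⟨_, rfl⟩
  have hxl : 3 * ((a₁ : ℝ) + 2) ≤ x := by
    have h1 : 3 * ((a₁ : ℝ) + 2) / η ≤ n := by linarith
    rw [div_le_iff₀ hη] at h1
    rw [hx]; linarith
  have ha0 : (0 : ℝ) ≤ a₁ := Nat.cast_nonneg _
  have e40 : 40 * η * (n : ℝ) = 40 * x := by rw [hx]; ring
  have e10 : 10 * η * (n : ℝ) = 10 * x := by rw [hx]; ring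
  rw [e40] at hV3 hV4
  rw [e10] at hV5
  rw [← hx] at hed
  obtain ⟨D, hD⟩ : ∃ D : ℕ, D = ⌊30 * x⌋₊ := ⟨_, rfl⟩
  have hx0 : 0 ≤ x := by linarith
  have hD1 : (D : ℝ) ≤ 30 * x := by rw [hD]; exact Nat.floor_le (by positivity)
  have hD2 : 30 * x < D + 1 := by rw [hD]; exact Nat.lt_floor_add_one _
  obtain ⟨T, hT⟩ : ∃ T : ℕ, T = D / 9 := ⟨_, rfl⟩
  have h9 : 9 * T ≤ D := by rw [hT]; omega
  have hT2 : (D : ℝ) ≤ 9 * T + 8 := by
    have : D ≤ 9 * T + 8 := by rw [hT]; omega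
    exact_mod_cast this
  have rhd : (h.natDegree : ℝ) = a + h₂.natDegree := by exact_mod_cast hhd
  have rehd : ((e * h).natDegree : ℝ) = e.natDegree + h.natDegree := by exact_mod_cast hehd
  have ra : (0 : ℝ) ≤ a := Nat.cast_nonneg _
  have re : (0 : ℝ) ≤ (e.natDegree : ℝ) := Nat.cast_nonneg _
  obtain ⟨L, hL⟩ : ∃ L : ℕ, L + 5 * e.natDegree = V := by
    have : 5 * e.natDegree ≤ V := by
      have : 5 * (e.natDegree : ℝ) ≤ V := by linarith
      exact_mod_cast this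
    exact ⟨V - 5 * e.natDegree, by omega⟩
  have rL : (L : ℝ) + 5 * e.natDegree = V := by exact_mod_cast hL
  have hL1 : 1 ≤ L := by
    have : (1 : ℝ) ≤ L := by linarith
    exact_mod_cast this
  have hV2' : 2 ≤ V := by
    have : (2 : ℝ) ≤ V := by linarith
    exact_mod_cast this
  have c4 : P.natDegree + D ≤ L := by
    rw [hPa]
    have : (a : ℝ) + D ≤ L := by linarith
    exact_mod_cast this
  have c5 : h₂.natDegree + D ≤ L := by
    have : (h₂.natDegree : ℝ) + D ≤ L := by linarith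
    exact_mod_cast this
  have c6 : L ≤ 2 * h₂.natDegree := by
    have : (L : ℝ) ≤ 2 * h₂.natDegree := by linarith
    exact_mod_cast this
  -- the decomposition
  obtain ⟨T₀, hT₀⟩ := dec hder
  have hs0 : C c₁ * (e * h) ≠ 0 :=
    mul_ne_zero (C_ne_zero.2 hc) (mul_ne_zero he.ne_zero hh.ne_zero)
  have hdn : (e * h).natDegree ≤ n := by
    have h1 := Pool.Agent.H985.Chow.Win.win_deg (a := T₀) hs0
    rw [← hT₀, hm.natDegree_mul hAm, hAn, hmu, Pool.Agent.H985.Chow.Win.deg_b hc] at h1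
    omega
  have hhn : h.natDegree ≤ n := by omega
  have hWm : (e ^ 5).Monic := he.pow 5
  have hWd : (e ^ 5).natDegree = 5 * e.natDegree := he.natDegree_pow 5
  rw [window_finsum]
  have hsq2 : ∀ v w : K[X], A₀ + m * (v + e ^ 5 * w) ^ 2 = (A₀ + m * v ^ 2) + m * (e ^ 5 * w) ^ 2 := by
    intro v w
    linear_combination (m * v * e ^ 5 * w) * (two0 (K := K))
  have hav := avg V L (e ^ 5) (by
      intro w hw
      apply mem_of_natDegree_lt
      by_cases hw0 : w = 0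
      · left; rw [hw0, mul_zero]
      · right
        have h1 := natDegree_lt_of_mem hw hw0
        rw [hWm.natDegree_mul' hw0, hWd]
        omega)
    (fun v => (mob (A₀ + m * v ^ 2) : ℝ) * χ (rt (A₀ + m * v ^ 2)) * χ' (A₀ + m * v ^ 2))
    ((M ^ (PA h).ncard / (Fintype.card K : ℝ) ^ T) ^ ((1 : ℝ) / 128)) (by
      intro v hv
      simp only [hsq2]
      have hvd : (m * v ^ 2).degree < A₀.degree := by
        by_cases hv0 : v = 0
        · rw [hv0, zero_pow two_ne_zero, mul_zero, degree_zero]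
          rw [degree_eq_natDegree hAm.ne_zero]
          exact WithBot.bot_lt_coe _
        · have h1 := natDegree_lt_of_mem hv hv0
          have h2 : m * v ^ 2 ≠ 0 := mul_ne_zero hm.ne_zero (pow_ne_zero _ hv0)
          rw [degree_eq_natDegree h2, degree_eq_natDegree hAm.ne_zero, hm.natDegree_mul' (pow_ne_zero _ hv0),
            natDegree_pow, hmu, hAn]
          exact_mod_cast (by omega : u + 2 * v.natDegree < n)
      have hA1m : (A₀ + m * v ^ 2).Monic := hAm.add_of_left hvd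
      have hA1n : (A₀ + m * v ^ 2).natDegree = n := by
        rw [natDegree_add_eq_left_of_degree_lt hvd, hAn]
      have hA1d : ¬ m ∣ A₀ + m * v ^ 2 := by
        intro hd
        exact hmA ((dvd_add_left (dvd_mul_right m _)).1 hd)
      have hdec : m * (A₀ + m * v ^ 2) = (T₀ + m * v) ^ 2 + X * (C c₁ * (e * h)) ^ 2 := by
        linear_combination hT₀ - (T₀ * m * v) * (two0 (K := K))
      exact window_bd hM1 h7' hF hR c₁ m (A₀ + m * v ^ 2) (T₀ + m * v) e h P h₂ n L D T χ χ' hm hmi hA1m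
        hA1n hA1d hc he hh heh hsq hmeh hdec hP hh2 hh2m hL1 (by rw [hmu]; omega) (by rw [hmu]; omega)
        (by rw [hmu]; omega) c4 c5 c6 h9)
  refine hav.trans ?_
  have hY := Y_bound hq1 hM1 (PA h).ncard T n a₁ A₁ η (hA h hh.ne_zero n hhn) ha₁.le
  rw [← hqdef]
  calc q ^ V * (M ^ (PA h).ncard / q ^ T) ^ ((1 : ℝ) / 128) ≤
      q ^ V * q ^ (((a₁ : ℝ) + η * n - T) / 128) := by gcongr
    _ = q ^ ((V : ℝ) + ((a₁ : ℝ) + η * n - T) / 128) := by
        rw [Real.rpow_add hq0, Real.rpow_natCast]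
    _ ≤ q ^ ((V : ℝ) - η / 64 * n) := by
        apply Real.rpow_le_rpow_of_exponent_le hq1.le
        have : η / 64 * (n : ℝ) = x / 64 := by rw [hx]; ring
        rw [this, ← hx]
        linarith

end Pool.Agent.H290.FX.PKasm
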