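import Pool.Agent.H290.FX.StmW

/-!
# The character of the root in a window (task KREC, helper253)
-/

set_option autoImplicit false

namespace Pool.Agent.H290.FX.PKrec

open Polynomial
open scoped Classical
open Pool.Agent.H985.Chow (mob lc)
open Pool.Agent.H985.KP (sg PA)
open Pool.Agent.H985.KP.Loc2 (sg_zero sg_add)

section lcs

variable {K : Type} [Field K]

theorem lc_add (D N N' : K[X]) : lc D (N + N') = lc D N + lc D N' := by
  unfold lc
  rw [add_modByMonic, coeff_add]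

theorem lc_sub (D N N' : K[X]) : lc D (N - N') = lc D N - lc D N' := by
  unfold lc
  rw [sub_modByMonic, coeff_sub]

theorem lc_zero (D : K[X]) : lc D 0 = 0 := by
  unfold lc
  rw [zero_modByMonic, coeff_zero]

theorem lc_congr {D N N' : K[X]} (hD : D.Monic) (h : D ∣ N - N') : lc D N = lc D N' := by
  unfold lc
  rw [modByMonic_eq_of_dvd_sub hD h]

theorem lc_cancel {D E : K[X]} (hD : D.Monic) (hE : E.Monic) (N : K[X]) :
    lc (D * E) (N * E) = lc D N := by
  unfold lc
  have h : (N * E) %ₘ (D * E) = (N %ₘ D) * E := by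
    refine (div_modByMonic_unique (N /ₘ D) ((N %ₘ D) * E) (hD.mul hE) ⟨?_, ?_⟩).2
    · have h1 := modByMonic_add_div N D
      calc N %ₘ D * E + D * E * (N /ₘ D) = (N %ₘ D + D * (N /ₘ D)) * E := by ring
        _ = N * E := by rw [h1]
    · rw [degree_mul, degree_mul]
      have h1 := degree_modByMonic_lt N hD
      rw [degree_eq_natDegree hE.ne_zero]
      exact WithBot.add_lt_add_right (WithBot.natCast_ne_bot _) h1
  rw [h, hD.natDegree_mul hE]
  by_cases h0 : D.natDegree = 0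
  · have h1 : D = 1 := eq_one_of_monic_natDegree_zero hD h0
    rw [h1, modByMonic_one]
    simp
  · have h1 : D.natDegree + E.natDegree - 1 = (D.natDegree - 1) + E.natDegree := by omega
    have h2 : (N %ₘ D).natDegree < D.natDegree :=
      natDegree_modByMonic_lt N hD (by
        intro h3
        apply h0
        rw [h3, natDegree_one])
    rw [h1, coeff_mul_add_eq_of_natDegree_le (by omega) le_rfl, hE.coeff_natDegree, mul_one]

theorem recip {A S x y : K[X]} (hA : A.Monic) (hS : S.Monic) (h : A * x + S * y = 1) (N : K[X]) :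
    lc (A * S) N = lc S (N * x) + lc A (N * y) := by
  have h1 : N = (N * x) * A + (N * y) * S := by
    calc N = N * (A * x + S * y) := by rw [h, mul_one]
      _ = _ := by ring
  calc lc (A * S) N = lc (A * S) ((N * x) * A + (N * y) * S) := by rw [← h1]
    _ = lc (A * S) ((N * x) * A) + lc (A * S) ((N * y) * S) := lc_add _ _ _
    _ = lc S (N * x) + lc A (N * y) := by
      rw [lc_cancel hA hS, mul_comm A S, lc_cancel hS hA]

theorem lc_small {D N : K[X]} (hD : D.Monic) (h : N.natDegree + 1 < D.natDegree) :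
    lc D N = 0 := by
  unfold lc
  rw [(modByMonic_eq_self_iff hD).2 (degree_lt_degree (by omega))]
  exact coeff_eq_zero_of_natDegree_lt (by omega)

theorem lc_X_pow (n : ℕ) (hn : 1 ≤ n) (N : K[X]) : lc (X ^ n) N = N.coeff (n - 1) := by
  unfold lc
  rw [natDegree_X_pow]
  conv_rhs => rw [← modByMonic_add_div N (X ^ n)]
  rw [coeff_add, coeff_X_pow_mul', if_neg (by omega), add_zero]

theorem key3 {A S H T' : K[X]} {n : ℕ} (hA : A.Monic) (hS : S.Monic) (hn : A.natDegree = n)
    (hn1 : 1 ≤ n) (hT : T'.natDegree < n + S.natDegree) :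
    lc (A * S) (((H * A) /ₘ X ^ n) * T') = lc (X ^ n * S) (H * T') := by
  have h1 : (H * A) %ₘ X ^ n + X ^ n * ((H * A) /ₘ X ^ n) = H * A := modByMonic_add_div _ _
  have hR : ((H * A) %ₘ X ^ n).natDegree < n := by
    have h2 := natDegree_modByMonic_lt (H * A) (monic_X_pow (R := K) n) (by
      intro h3
      have h4 := congrArg natDegree h3
      rw [natDegree_X_pow, natDegree_one] at h4
      omega)
    rwa [natDegree_X_pow] at h2
  generalize (H * A) %ₘ X ^ n = R at h1 hR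
  generalize (H * A) /ₘ X ^ n = ξ at h1
  have hX : (X ^ n : K[X]).Monic := monic_X_pow n
  have hsm : lc (A * S * X ^ n) (R * T') = 0 := by
    apply lc_small ((hA.mul hS).mul hX)
    rw [(hA.mul hS).natDegree_mul hX, hA.natDegree_mul hS, natDegree_X_pow, hn]
    have h2 : (R * T').natDegree ≤ R.natDegree + T'.natDegree := natDegree_mul_le
    omega
  calc lc (A * S) (ξ * T') = lc (A * S * X ^ n) (ξ * T' * X ^ n) :=
        (lc_cancel (hA.mul hS) hX _).symm
    _ = lc (A * S * X ^ n) (H * T' * A - R * T') := by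
        congr 1
        linear_combination T' * h1
    _ = lc (A * S * X ^ n) (H * T' * A) - lc (A * S * X ^ n) (R * T') := lc_sub _ _ _
    _ = lc (X ^ n * S * A) (H * T' * A) := by
        rw [hsm, sub_zero]
        congr 1
        ring
    _ = lc (X ^ n * S) (H * T') := lc_cancel (hX.mul hS) hA _

theorem add_div (q a b : K[X]) (hq : q.Monic) : (a + b) /ₘ q = a /ₘ q + b /ₘ q := by
  refine (div_modByMonic_unique (a /ₘ q + b /ₘ q) (a %ₘ q + b %ₘ q) hq ⟨?_, ?_⟩).1
  · have h1 := modByMonic_add_div a q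
    have h2 := modByMonic_add_div b q
    linear_combination h1 + h2
  · exact lt_of_le_of_lt (degree_add_le _ _)
      (max_lt (degree_modByMonic_lt a hq) (degree_modByMonic_lt b hq))

end lcs

section sgs

variable {K : Type} [Field K] [Fintype K] [CharP K 2]

theorem sg_sub (x y : K) : sg (x - y) = sg x * sg y := by
  rw [CharTwo.sub_eq_add, sg_add]

theorem parfrac_one : (PA (1 : K[X])) = ∅ := by
  ext P
  constructor
  · rintro ⟨_, h2, h3⟩
    exact absurd (isUnit_of_dvd_one h3) h2.not_isUnit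
  · intro h
    exact absurd h (Set.notMem_empty P)

theorem parfrac : ∀ (d : ℕ) (h : K[X]), h.natDegree ≤ d → h.Monic → Squarefree h →
    (PA h).Finite ∧ ∃ γ : K[X] → K[X], ∀ N : K[X],
      sg (lc h N) = ∏ᶠ P ∈ PA h, sg (lc P (N * γ P)) := by
  have hbase : ∀ h : K[X], h.natDegree = 0 → h.Monic → (PA h).Finite ∧
      ∃ γ : K[X] → K[X], ∀ N : K[X], sg (lc h N) = ∏ᶠ P ∈ PA h, sg (lc P (N * γ P)) := by
    intro h h0 hm
    have h1 : h = 1 := eq_one_of_monic_natDegree_zero hm h0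
    rw [h1, parfrac_one]
    refine ⟨Set.finite_empty, fun _ => 0, fun N => ?_⟩
    rw [finprod_mem_empty]
    unfold lc
    rw [modByMonic_one, coeff_zero, sg_zero]
  intro d
  induction d with
  | zero =>
    intro h hd hm _
    exact hbase h (Nat.le_zero.1 hd) hm
  | succ d ih =>
    intro h hd hm hsq
    by_cases h0 : h.natDegree = 0
    · exact hbase h h0 hm
    obtain ⟨P, hP, hPi, h', hh'⟩ := exists_monic_irreducible_factor h (by
      intro hu
      exact h0 (natDegree_eq_zero_of_isUnit hu))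
    have hm' : h'.Monic := by
      rw [hh'] at hm
      exact hP.of_mul_monic_left hm
    have hsq' : Squarefree h' := hsq.squarefree_of_dvd ⟨P, by rw [hh', mul_comm]⟩
    have hndvd : ¬ P ∣ h' := by
      intro h1
      have h2 : P * P ∣ h := by
        rw [hh']
        exact mul_dvd_mul_left P h1
      exact hPi.not_isUnit (hsq P h2)
    have hdeg : h'.natDegree ≤ d := by
      have h1 : h.natDegree = P.natDegree + h'.natDegree := by
        rw [hh', hP.natDegree_mul hm']
      have h2 := hPi.natDegree_pos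
      omega
    obtain ⟨hfin, γ', hγ'⟩ := ih h' hdeg hm' hsq'
    obtain ⟨x, y, hxy⟩ := (hPi.coprime_iff_not_dvd).2 hndvd
    have hPA : PA h = insert P (PA h') := by
      ext Q
      constructor
      · rintro ⟨h1, h2, h3⟩
        rw [hh'] at h3
        rcases h2.prime.dvd_or_dvd h3 with h4 | h4
        · left
          exact eq_of_monic_of_associated h1 hP (h2.associated_of_dvd hPi h4)
        · right
          exact ⟨h1, h2, h4⟩
      · intro h1
        rcases h1 with h1 | h1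
        · rw [h1]
          exact ⟨hP, hPi, ⟨h', hh'⟩⟩
        · exact ⟨h1.1, h1.2.1, h1.2.2.trans ⟨P, by rw [hh', mul_comm]⟩⟩
    have hPn : P ∉ PA h' := fun h1 => hndvd h1.2.2
    refine ⟨by rw [hPA]; exact hfin.insert P, fun Q => if Q = P then y else x * γ' Q, fun N => ?_⟩
    have h1 : lc h N = lc h' (N * x) + lc P (N * y) := by
      rw [hh']
      exact recip hP hm' (by linear_combination hxy) N
    have h3 : ∏ᶠ Q ∈ PA h', sg (lc Q (N * (if Q = P then y else x * γ' Q))) =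
        ∏ᶠ Q ∈ PA h', sg (lc Q (N * x * γ' Q)) := by
      apply finprod_mem_congr rfl
      intro Q hQ
      have h2 : Q ≠ P := fun h3 => hPn (h3 ▸ hQ)
      rw [if_neg h2, mul_assoc]
    rw [h1, sg_add, hγ', hPA, finprod_mem_insert _ hPn hfin]
    show _ = sg (lc P (N * (if P = P then y else x * γ' P))) *
      ∏ᶠ Q ∈ PA h', sg (lc Q (N * (if Q = P then y else x * γ' Q)))
    rw [h3, if_pos rfl, mul_comm]

/-- the character of the residue field -/
noncomputable def psiK (g P : K[X]) : AddChar (AdjoinRoot P) ℝ :=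
  if hP : P.Monic then
    { toFun := fun y =>
        sg ((AdjoinRoot.modByMonicHom hP (AdjoinRoot.mk P g * y)).coeff (P.natDegree - 1))
      map_zero_eq_one' := by rw [mul_zero, map_zero, coeff_zero, sg_zero]
      map_add_eq_mul' := by
        intro x y
        rw [mul_add, map_add, coeff_add, sg_add] }
  else 1

theorem psiK_mk {P : K[X]} (hP : P.Monic) (g f : K[X]) :
    psiK g P (AdjoinRoot.mk P f) = sg (lc P (g * f)) := by
  unfold psiK
  rw [dif_pos hP]
  show sg ((AdjoinRoot.modByMonicHom hP (AdjoinRoot.mk P g * AdjoinRoot.mk P f)).coeff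
    (P.natDegree - 1)) = _
  rw [← map_mul, AdjoinRoot.modByMonicHom_mk]
  rfl

/-- the character of an additive map -/
noncomputable def chiOf (a : K[X] →+ K) : AddChar K[X] ℝ where
  toFun u := sg (a u)
  map_zero_eq_one' := by rw [map_zero, sg_zero]
  map_add_eq_mul' x y := by rw [map_add, sg_add]

theorem chiOf_apply (a : K[X] →+ K) (u : K[X]) : chiOf a u = sg (a u) := rfl

/-- the additive part of `ξ` -/
noncomputable def lamH (H m W : K[X]) (n : ℕ) : K[X] →+ K[X] where
  toFun u := (H * (m * (W * u) ^ 2)) /ₘ X ^ n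
  map_zero' := by
    rw [mul_zero, zero_pow (by norm_num), mul_zero, mul_zero, zero_divByMonic]
  map_add' x y := by
    have h2 : (2 : K[X]) = 0 := CharTwo.two_eq_zero
    have h : H * (m * (W * (x + y)) ^ 2) = H * (m * (W * x) ^ 2) + H * (m * (W * y) ^ 2) := by
      linear_combination (H * m * (W * x) * (W * y)) * h2
    rw [h, add_div _ _ _ (monic_X_pow n)]

theorem lamH_apply (H m W : K[X]) (n : ℕ) (u : K[X]) :
    lamH H m W n u = (H * (m * (W * u) ^ 2)) /ₘ X ^ n := rfl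

/-- the additive part of the constant -/
noncomputable def aK (D g H c G : K[X]) (e : K[X]) (lam : K[X] →+ K[X]) : K[X] →+ K where
  toFun u := lc D (H * (c * (g * u))) + lc e (lam u * G)
  map_zero' := by
    rw [mul_zero, mul_zero, mul_zero, map_zero, zero_mul, lc_zero, lc_zero, add_zero]
  map_add' x y := by
    have h1 : H * (c * (g * (x + y))) = H * (c * (g * x)) + H * (c * (g * y)) := by ring
    have h2 : lam (x + y) * G = lam x * G + lam y * G := by rw [map_add, add_mul]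
    rw [h1, h2, lc_add, lc_add]
    ring

theorem aK_apply (D g H c G : K[X]) (e : K[X]) (lam : K[X] →+ K[X]) (u : K[X]) :
    aK D g H c G e lam u = lc D (H * (c * (g * u))) + lc e (lam u * G) := rfl

theorem cop_aux {c₁ : K} {m A T S : K[X]} (hS0 : S ≠ 0) (hm : IsCoprime m S)
    (hsqA : Squarefree A) (h : m * A = T ^ 2 + X * (C c₁ * S) ^ 2) :
    IsCoprime T S ∧ IsCoprime A S := by
  have key : ∀ P : K[X], Irreducible P → P ∣ S → ¬ P ∣ T := by
    intro P hP hPS hPT
    have h1 : P * P ∣ m * A := by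
      rw [h]
      apply dvd_add
      · rw [sq]
        exact mul_dvd_mul hPT hPT
      · rw [sq]
        exact dvd_mul_of_dvd_right (mul_dvd_mul (dvd_mul_of_dvd_right hPS _)
          (dvd_mul_of_dvd_right hPS _)) _
    have h2 : IsCoprime P m := (hm.symm).of_isCoprime_of_dvd_left hPS
    have h3 : P * P ∣ A := (h2.mul_left h2).dvd_of_dvd_mul_left h1
    exact hP.not_isUnit (hsqA P h3)
  constructor
  · apply isCoprime_of_irreducible_dvd
    · rintro ⟨_, h2⟩
      exact hS0 h2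
    · intro P hP hPT hPS
      exact key P hP hPS hPT
  · apply isCoprime_of_irreducible_dvd
    · rintro ⟨_, h2⟩
      exact hS0 h2
    · intro P hP hPA hPS
      apply key P hP hPS
      have h1 : P ∣ T ^ 2 := by
        have h2 : T ^ 2 = m * A - X * (C c₁ * S) ^ 2 := by
          rw [h]
          ring
        rw [h2]
        apply dvd_sub
        · exact dvd_mul_of_dvd_right hPA _
        · rw [sq]
          exact dvd_mul_of_dvd_right (dvd_mul_of_dvd_left (dvd_mul_of_dvd_right hPS _) _) _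
      exact hP.prime.dvd_of_dvd_pow h1

theorem rt_aux {c₁ : K} {m A T S r x y : K[X]} (hc₁ : c₁ ≠ 0)
    (hsqA : Squarefree A) (h : m * A = T ^ 2 + X * (C c₁ * S) ^ 2) (hr : A ∣ r ^ 2 + X)
    (hxy : x * A + y * S = 1) : A ∣ r - (C c₁⁻¹ * T) * y := by
  have h2 : (2 : K[X]) = 0 := CharTwo.two_eq_zero
  have h3 : A ∣ (C c₁ * S * r - T) ^ 2 := by
    obtain ⟨k, hk⟩ := hr
    refine ⟨(C c₁ * S) ^ 2 * k - m, ?_⟩
    linear_combination (C c₁ * S) ^ 2 * hk + h -
      ((C c₁ * S * r) * T - T ^ 2) * h2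
  have h4 : A ∣ C c₁ * S * r - T :=
    (hsqA.dvd_pow_iff_dvd (by norm_num)).1 h3
  obtain ⟨k, hk⟩ := h4
  have hc : (C c₁⁻¹ * C c₁ : K[X]) = 1 := by
    rw [← C_mul, inv_mul_cancel₀ hc₁, C_1]
  refine ⟨r * x + y * C c₁⁻¹ * k, ?_⟩
  linear_combination (y * C c₁⁻¹) * hk - r * hxy - (y * S * r) * hc

theorem monic_aux {m A₀ W u : K[X]} {n L : ℕ} (hA₀ : A₀.Monic) (hn : A₀.natDegree = n)
    (hL : 1 ≤ L) (hdeg : m.natDegree + 2 * (W.natDegree + (L - 1)) < n)
    (hu : u.degree < (L : WithBot ℕ)) :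
    (A₀ + m * (W * u) ^ 2).Monic ∧ (A₀ + m * (W * u) ^ 2).natDegree = n := by
  have hun : u.natDegree ≤ L - 1 := by
    have h1 : u.natDegree < L := by
      rcases eq_or_ne u 0 with h0 | h0
      · rw [h0, natDegree_zero]
        omega
      · exact (natDegree_lt_iff_degree_lt h0).2 hu
    omega
  have h1 : (m * (W * u) ^ 2).natDegree < A₀.natDegree := by
    have h2 : (m * (W * u) ^ 2).natDegree ≤ m.natDegree + ((W * u) ^ 2).natDegree :=
      natDegree_mul_le
    have h3 : ((W * u) ^ 2).natDegree ≤ 2 * (W * u).natDegree := natDegree_pow_le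
    have h4 : (W * u).natDegree ≤ W.natDegree + u.natDegree := natDegree_mul_le
    omega
  refine ⟨hA₀.add_of_left (degree_lt_degree h1), ?_⟩
  rw [natDegree_add_eq_left_of_natDegree_lt h1, hn]

theorem degT_aux {c₁ : K} {m A T S : K[X]} {n : ℕ} (hn : A.natDegree = n)
    (hn1 : 1 ≤ n) (h : m * A = T ^ 2 + X * (C c₁ * S) ^ 2)
    (hdeg2 : m.natDegree + 4 ≤ n + 2 * S.natDegree) :
    (C c₁⁻¹ * T).natDegree < n + S.natDegree := by
  have h0 : (C c₁⁻¹ * T).natDegree ≤ T.natDegree := natDegree_C_mul_le _ _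
  have h1 : T ^ 2 = m * A - X * (C c₁ * S) ^ 2 := by
    rw [h]
    ring
  have h2 : (T ^ 2).natDegree = 2 * T.natDegree := natDegree_pow T 2
  have h3 : (m * A).natDegree ≤ m.natDegree + A.natDegree := natDegree_mul_le
  have h4 : (X * (C c₁ * S) ^ 2).natDegree ≤ 1 + 2 * S.natDegree := by
    have h5 : (X * (C c₁ * S) ^ 2).natDegree ≤ (X : K[X]).natDegree + ((C c₁ * S) ^ 2).natDegree :=
      natDegree_mul_le
    have h6 : ((C c₁ * S) ^ 2).natDegree ≤ 2 * (C c₁ * S).natDegree := natDegree_pow_le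
    have h7 : (C c₁ * S).natDegree ≤ S.natDegree := natDegree_C_mul_le _ _
    rw [natDegree_X] at h5
    omega
  have h5 : (T ^ 2).natDegree ≤ max (m * A).natDegree (X * (C c₁ * S) ^ 2).natDegree := by
    rw [h1]
    exact natDegree_sub_le _ _
  rcases le_max_iff.1 h5 with h6 | h6 <;> omega

end sgs

theorem main : S_tkrec := by
  intro hroot hdual K _ _ _ c₁ m A₀ T₀ e h W n L χ hm hmi hA₀ hn _ hc₁ he hh heh hsq hmeh heq heW
    hW0 hL hdeg hdeg2
  obtain ⟨H, _, hχ⟩ := hdual K n χ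
  have hm1 : 1 ≤ m.natDegree := hmi.natDegree_pos
  have hn2 : 2 ≤ n := by omega
  have h20 : (2 : K[X]) = 0 := CharTwo.two_eq_zero
  have hS : (e * h).Monic := he.mul hh
  obtain ⟨_, γ, hγ⟩ := parfrac h.natDegree h le_rfl hh hsq
  obtain ⟨α, β, hαβ⟩ := heh
  -- the facts for `u`
  have hu1 : ∀ u : K[X], m * (A₀ + m * (W * u) ^ 2) =
      (T₀ + m * W * u) ^ 2 + X * (C c₁ * (e * h)) ^ 2 := by
    intro u
    linear_combination heq - (T₀ * m * W * u) * h20
  have hu2 : ∀ u : K[X], mob (A₀ + m * (W * u) ^ 2) ≠ 0 →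
      Squarefree (A₀ + m * (W * u) ^ 2) := by
    intro u hu
    by_contra hcon
    apply hu
    unfold Pool.Agent.H985.Chow.mob
    rw [if_neg hcon]
  have hu3 : ∀ u : K[X], mob (A₀ + m * (W * u) ^ 2) ≠ 0 →
      IsCoprime (T₀ + m * W * u) (e * h) ∧ IsCoprime (A₀ + m * (W * u) ^ 2) (e * h) :=
    fun u hu => cop_aux hS.ne_zero hmeh (hu2 u hu) (hu1 u)
  by_cases hcop : IsCoprime T₀ e
  swap
  · refine ⟨1, 1, fun _ => 1, fun _ => 0, fun _ => 0, fun _ => id, Or.inl rfl, ?_⟩
    intro u _ hmob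
    exfalso
    apply hcop
    obtain ⟨k, hk⟩ := heW
    obtain ⟨a, b, hab⟩ := (hu3 u hmob).1
    refine ⟨a, b * h + a * m * k * u, ?_⟩
    rw [hk] at hab
    linear_combination hab
  obtain ⟨τ, τ', hτ⟩ := hcop
  obtain ⟨G, hG⟩ : ∃ G : K[X], G = C c₁⁻¹ * (τ * m) * β := ⟨_, rfl⟩
  obtain ⟨C₀, hC₀⟩ : ∃ C₀ : K[X], C₀ = (H * A₀) /ₘ X ^ n := ⟨_, rfl⟩
  refine ⟨sg (lc (X ^ n * (e * h)) (H * (C c₁⁻¹ * T₀)) + lc e (C₀ * G)),
    chiOf (aK (X ^ n * (e * h)) (m * W) H (C c₁⁻¹) G e (lamH H m W n)),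
    fun P => psiK (m * C c₁⁻¹ * α * γ P) P, fun P => AdjoinRoot.mk P C₀,
    fun P => (AdjoinRoot.mk P).toAddMonoidHom.comp (lamH H m W n),
    fun P => Ring.inverse, ?_, ?_⟩
  · unfold Pool.Agent.H985.KP.sg
    split_ifs
    · left
      rfl
    · right
      rfl
  intro u hu hmob
  obtain ⟨hAm, hAn⟩ := monic_aux hA₀ hn hL hdeg hu
  have hsqA := hu2 u hmob
  obtain ⟨hcT, hcA⟩ := hu3 u hmob
  have hid := hu1 u
  have hξ : (H * (A₀ + m * (W * u) ^ 2)) /ₘ X ^ n = C₀ + lamH H m W n u := by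
    rw [hC₀, lamH_apply, ← add_div _ _ _ (monic_X_pow n), mul_add]
  obtain ⟨hr1, hr2⟩ := (hroot K (A₀ + m * (W * u) ^ 2) hAm).1 hsqA
  obtain ⟨T, hT⟩ : ∃ T : K[X], T = T₀ + m * W * u := ⟨_, rfl⟩
  generalize rt (A₀ + m * (W * u) ^ 2) = r at hr1 hr2
  generalize A₀ + m * (W * u) ^ 2 = A at hAm hAn hsqA hcA hid hξ hr1 hr2
  rw [← hT] at hcT hid
  obtain ⟨x, y, hxy⟩ := hcA
  obtain ⟨ξ, hξ'⟩ : ∃ ξ : K[X], ξ = C₀ + lamH H m W n u := ⟨_, rfl⟩
  rw [← hξ'] at hξ
  have hX : (X ^ n : K[X]).Monic := monic_X_pow n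
  have hrdeg : r.natDegree < n := by
    rcases eq_or_ne r 0 with h0 | h0
    · rw [h0, natDegree_zero]
      omega
    · rw [← hAn]
      exact natDegree_lt_natDegree h0 hr2
  -- step 1
  have h1 : χ r = sg (lc A (ξ * r)) := by
    have h2 : r.degree < (n : WithBot ℕ) := by
      rw [degree_eq_natDegree hAm.ne_zero, hAn] at hr2
      exact hr2
    rw [hχ r h2]
    have h3 := key3 (H := H) (T' := r) hAm (monic_one) hAn (by omega)
      (by rw [natDegree_one]; omega)
    rw [hξ, mul_one, mul_one] at h3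
    rw [h3, lc_X_pow n (by omega)]
  -- step 2
  have h2 : lc A (ξ * r) = lc A (ξ * (C c₁⁻¹ * T) * y) := by
    apply lc_congr hAm
    have h3 := rt_aux hc₁ hsqA hid hr1 hxy
    have h4 : ξ * r - ξ * (C c₁⁻¹ * T) * y = ξ * (r - C c₁⁻¹ * T * y) := by ring
    rw [h4]
    exact dvd_mul_of_dvd_right h3 _
  have h3 : lc A (ξ * (C c₁⁻¹ * T) * y) = lc (X ^ n * (e * h)) (H * (C c₁⁻¹ * T)) -
      lc (e * h) (ξ * (C c₁⁻¹ * T) * x) := by
    have h4 := recip hAm hS (x := x) (y := y) (by linear_combination hxy) (ξ * (C c₁⁻¹ * T))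
    have h5 := key3 (H := H) (T' := C c₁⁻¹ * T) hAm hS hAn (by omega)
      (degT_aux hAn (by omega) hid hdeg2)
    rw [hξ] at h5
    rw [h5] at h4
    rw [h4]
    ring
  have h4 : lc (X ^ n * (e * h)) (H * (C c₁⁻¹ * T)) =
      lc (X ^ n * (e * h)) (H * (C c₁⁻¹ * T₀)) +
        lc (X ^ n * (e * h)) (H * (C c₁⁻¹ * (m * W * u))) := by
    rw [← lc_add, hT]
    congr 1
    ring
  have h5 : lc (e * h) (ξ * (C c₁⁻¹ * T) * x) =
      lc h (ξ * (C c₁⁻¹ * T) * x * α) + lc e (ξ * (C c₁⁻¹ * T) * x * β) :=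
    recip he hh (by linear_combination hαβ) _
  have h6 : lc e (ξ * (C c₁⁻¹ * T) * x * β) = lc e (C₀ * G) + lc e (lamH H m W n u * G) := by
    rw [← lc_add, ← add_mul, ← hξ']
    apply lc_congr he
    obtain ⟨k, hk⟩ := heW
    refine ⟨ξ * C c₁⁻¹ * β * (τ * x * (- X * (C c₁) ^ 2 * e * h ^ 2 - T * m * k * u) +
      T * x * τ' - τ * m * y * h), ?_⟩
    rw [hG]
    have hT' : T = T₀ + m * (e * k) * u := by rw [hT, hk]
    linear_combination (ξ * C c₁⁻¹ * β) * (τ * m * hxy - T * x * hτ - τ * x * hid -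
      τ * x * T * hT')
  have h7 : ∀ P ∈ PA h, sg (lc P (ξ * (C c₁⁻¹ * T) * x * α * γ P)) =
      psiK (m * C c₁⁻¹ * α * γ P) P ((AdjoinRoot.mk P C₀ +
        ((AdjoinRoot.mk P).toAddMonoidHom.comp (lamH H m W n)) u) *
          Ring.inverse (AdjoinRoot.mk P (T₀ + m * W * u))) := by
    intro P hP
    obtain ⟨hPm, hPi, q, hq⟩ := hP
    rw [← hT]
    obtain ⟨a, b, hab⟩ : IsCoprime T P :=
      hcT.of_isCoprime_of_dvd_right ⟨e * q, by rw [hq]; ring⟩
    have h8 : AdjoinRoot.mk P a * AdjoinRoot.mk P T = 1 := by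
      rw [← map_mul, ← map_one (AdjoinRoot.mk P), AdjoinRoot.mk_eq_mk]
      exact ⟨-b, by linear_combination hab⟩
    have h9 : Ring.inverse (AdjoinRoot.mk P T) = AdjoinRoot.mk P a := by
      have h10 : IsUnit (AdjoinRoot.mk P T) := IsUnit.of_mul_eq_one_right _ h8
      have h11 := Ring.mul_inverse_cancel _ h10
      calc Ring.inverse (AdjoinRoot.mk P T)
          = AdjoinRoot.mk P a * AdjoinRoot.mk P T * Ring.inverse (AdjoinRoot.mk P T) := by
            rw [h8, one_mul]
        _ = AdjoinRoot.mk P a := by rw [mul_assoc, h11, mul_one]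
    have h10 : ((AdjoinRoot.mk P).toAddMonoidHom.comp (lamH H m W n)) u =
        AdjoinRoot.mk P (lamH H m W n u) := rfl
    rw [h9, h10, ← map_add, ← map_mul, ← hξ', psiK_mk hPm]
    congr 1
    apply lc_congr hPm
    refine ⟨ξ * C c₁⁻¹ * α * γ P * (- a * x * X * (C c₁ * e) ^ 2 * P * q ^ 2 +
      T * x * b - m * a * y * e * q), ?_⟩
    have hq2 : h = P * q := hq
    rw [hq2] at hid hxy
    linear_combination (ξ * C c₁⁻¹ * α * γ P) * (m * a * hxy - T * x * hab - a * x * hid)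
  have h8 : sg (lc h (ξ * (C c₁⁻¹ * T) * x * α)) = ∏ᶠ P ∈ PA h,
      psiK (m * C c₁⁻¹ * α * γ P) P ((AdjoinRoot.mk P C₀ +
        ((AdjoinRoot.mk P).toAddMonoidHom.comp (lamH H m W n)) u) *
          Ring.inverse (AdjoinRoot.mk P (T₀ + m * W * u))) := by
    rw [hγ]
    exact finprod_mem_congr rfl h7
  rw [← h8, h1, h2, h3, h4, h5, h6, chiOf_apply, aK_apply]
  simp only [sg_sub, sg_add]
  ring

end Pool.Agent.H290.FX.PKrec
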