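import Pool.Agent.H290.FX.Stm
import Pool.Agent.H328.LD.WsumG

/-!
# Task KSUM (helper328, for helper290)
-/

set_option autoImplicit false

namespace Pool.Agent.H290.FX.PKsum

open Polynomial
open scoped Classical
open Pool.Agent.H985.Chow (mob lc)
open Pool.Agent.H694.Typ (Mn)
open Pool.Agent.H604.LD (S_cov FibG wsumG)

/-- the values of an additive character in characteristic two -/
lemma abs_char {K : Type} [Field K] [CharP K 2] (χ : AddChar K[X] ℝ) (x : K[X]) : |χ x| = 1 := by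
  have h1 : χ x * χ x = 1 := by
    rw [← AddChar.map_add_eq_mul]
    have h2 : x + x = 0 := by
      have : (2 : K[X]) = 0 := CharTwo.two_eq_zero
      linear_combination x * this
    rw [h2, AddChar.map_zero_eq_one]
  have h2 : |χ x| * |χ x| = 1 := by rw [← abs_mul, h1, abs_one]
  have h3 : (0 : ℝ) ≤ |χ x| := abs_nonneg _
  nlinarith

lemma abs_mob {K : Type} [Field K] (A : K[X]) : |(mob A : ℝ)| ≤ 1 := by
  unfold mob
  split_ifs
  · rw [Int.cast_pow, abs_pow]
    simp
  · simp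

theorem main : S_tksum := by
  intro hc hf K _ _ _
  obtain ⟨c, hc0, n₀, hF⟩ := hf K (1 / 1000) (by norm_num)
  obtain ⟨c', hc', n₁, hW⟩ := wsumG hc K c hc0
  refine ⟨c', hc', max n₀ n₁, fun n χ χ' hn => ?_⟩
  have hn0 : n₀ ≤ n := (le_max_left _ _).trans hn
  have hn1 : n₁ ≤ n := (le_max_right _ _).trans hn
  refine hW n (fun A => (mob A : ℝ) * χ (rt A) * χ' A) hn1 ?_ ?_
  · intro A
    rw [abs_mul, abs_mul, abs_char, abs_char, mul_one, mul_one]
    exact abs_mob A
  · intro c₁ m A₀ e h P u a V h1 h2 h3 h4 h5 h6 h7 h8 h9 h10 h11 h12 h13 h14 h15 h16 h17 h18 h19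
      h20 h21 h22 h23
    refine hF c₁ m A₀ e h P n u a V χ χ' hn0 h1 h2 h3 h4 h5 h6 h7 h8 h9 h10 h11 h12 h13 h14 h15 h16
      h17 h18 ?_ h20 h21 h22 h23
    have h24 : (0 : ℝ) ≤ 40 * (1 / 1000) * n := by positivity
    have h25 : ((u + 2 * V : ℕ) : ℝ) ≤ n := by
      push_cast
      linarith
    exact_mod_cast h25

end Pool.Agent.H290.FX.PKsum
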