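import Pool.Agent.H290.FX.StmC

/-!
# Additive problems with the `a` with `a ^ 2 + X` irreducible, `q` even: the mean squares (helper390)
-/

set_option autoImplicit false

namespace Pool.Agent.H290.FX.PL2

open Polynomial
open scoped Classical
open Pool.Agent.H985.Chow (mob)
open Pool.Agent.H985.KP (sg PA)
open Pool.Agent.H694.Typ (Mn PU mem_Mn card_Mn)
open Pool.Agent.H604.LD (PiM)
open Pool.Agent.H290.FX

section

variable {K : Type} [Field K] [Fintype K]

theorem q_ge_two : (2 : ℝ) ≤ (Fintype.card K : ℝ) := by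
  have : 1 < Fintype.card K := Fintype.one_lt_card
  exact_mod_cast this

variable [CharP K 2]

theorem ch_zero (d : ℕ) (H : K[X]) : ch d H (0 : K[X]) = 1 := (ch d H).map_zero_eq_one

/-- the sum of two monic polynomials of the same degree -/
theorem add_deg {d : ℕ} {a b : K[X]} (ha : a ∈ Mn K d) (hb : b ∈ Mn K d) :
    (a + b).degree < (d : WithBot ℕ) := by
  rw [mem_Mn] at ha hb
  have h1 : a + b = a - b := by rw [CharTwo.sub_eq_add]
  rw [h1]
  have h2 : a.degree = b.degree := by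
    rw [degree_eq_natDegree ha.1.ne_zero, degree_eq_natDegree hb.1.ne_zero, ha.2, hb.2]
  have h3 := degree_sub_lt_left h2 ha.1.ne_zero (by rw [ha.1.leadingCoeff, hb.1.leadingCoeff])
  rwa [degree_eq_natDegree ha.1.ne_zero, ha.2] at h3

/-- Parseval for the sum over a set of monic polynomials -/
theorem sum_sq (horth : S_orth) (d : ℕ) (s : Finset K[X]) (hs : s ⊆ Mn K d) :
    ∑ H ∈ Vs K d, (∑ a ∈ s, ch d H a) ^ 2 = (Fintype.card K : ℝ) ^ d * (s.card : ℝ) := by
  have h1 : ∀ H ∈ Vs K d, (∑ a ∈ s, ch d H a) ^ 2 = ∑ a ∈ s, ∑ b ∈ s, ch d H (a + b) := by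
    intro H _
    rw [sq, Finset.sum_mul_sum]
    refine Finset.sum_congr rfl fun a _ => Finset.sum_congr rfl fun b _ => ?_
    rw [AddChar.map_add_eq_mul]
  rw [Finset.sum_congr rfl h1, Finset.sum_comm]
  have h2 : ∀ a ∈ s, ∑ H ∈ Vs K d, ∑ b ∈ s, ch d H (a + b) = (Fintype.card K : ℝ) ^ d := by
    intro a ha
    rw [Finset.sum_comm]
    have h3 : ∀ b ∈ s, ∑ H ∈ Vs K d, ch d H (a + b) =
        if b = a then (Fintype.card K : ℝ) ^ d else 0 := by
      intro b hb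
      rw [horth K d (a + b) (add_deg (hs ha) (hs hb))]
      have h4 : a + b = 0 ↔ b = a := by
        rw [CharTwo.add_eq_zero]
        exact eq_comm
      by_cases h5 : b = a
      · rw [if_pos (h4.2 h5), if_pos h5]
      · rw [if_neg fun h6 => h5 (h4.1 h6), if_neg h5]
    rw [Finset.sum_congr rfl h3, Finset.sum_ite_eq' s a, if_pos ha]
  rw [Finset.sum_congr rfl h2, Finset.sum_const, nsmul_eq_mul, mul_comm]

/-- the number of the characters with period `r` -/
theorem card_per (hper : S_per) {d : ℕ} {r : K[X]} (hr : r.Monic) (hrd : r.natDegree ≤ d) :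
    (((Vs K d).filter (fun H => Per d (ch d H) r)).card : ℝ) =
      (Fintype.card K : ℝ) ^ r.natDegree := by
  have h1 := hper K d r 0 hr hrd (by rw [degree_zero]; exact WithBot.bot_lt_coe d)
  rw [if_pos (dvd_zero r)] at h1
  rw [← h1, Finset.sum_congr rfl fun H _ => ch_zero d H, Finset.sum_const, nsmul_eq_mul, mul_one]

theorem geom {q : ℝ} (hq : 2 ≤ q) (t : ℕ) :
    ∑ ρ ∈ Finset.range (t + 1), (q ^ ρ) ^ 2 ≤ 2 * (q ^ t) ^ 2 := by
  induction t with
  | zero => simp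
  | succ t ih =>
    rw [Finset.sum_range_succ]
    have h1 : (q ^ (t + 1)) ^ 2 = q ^ 2 * (q ^ t) ^ 2 := by ring
    have h2 : 4 * (q ^ t) ^ 2 ≤ q ^ 2 * (q ^ t) ^ 2 :=
      mul_le_mul_of_nonneg_right (by nlinarith) (sq_nonneg _)
    have h3 := sq_nonneg (q ^ t)
    rw [h1]
    linarith

/-- the number of the characters with a minimal period of small degree -/
theorem card_mper (hper : S_per) {d t : ℕ} (ht : t ≤ d) :
    (((Vs K d).filter (fun H => ∃ r, MPer d (ch d H) r ∧ r.natDegree ≤ t)).card : ℝ) ≤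
      2 * ((Fintype.card K : ℝ) ^ t) ^ 2 := by
  refine le_trans ?_ (geom q_ge_two t)
  have h1 : (Vs K d).filter (fun H => ∃ r, MPer d (ch d H) r ∧ r.natDegree ≤ t) ⊆
      (Finset.range (t + 1)).biUnion fun ρ => (Mn K ρ).biUnion fun r =>
        (Vs K d).filter (fun H => Per d (ch d H) r) := by
    intro H hH
    obtain ⟨hH1, r, hr, hrt⟩ := Finset.mem_filter.1 hH
    rw [Finset.mem_biUnion]
    refine ⟨r.natDegree, Finset.mem_range.2 (by omega), ?_⟩
    rw [Finset.mem_biUnion]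
    exact ⟨r, mem_Mn.2 ⟨hr.1, rfl⟩, Finset.mem_filter.2 ⟨hH1, hr.2.1⟩⟩
  have h2 := (Finset.card_le_card h1).trans Finset.card_biUnion_le
  have h3 : (((Vs K d).filter (fun H => ∃ r, MPer d (ch d H) r ∧ r.natDegree ≤ t)).card : ℝ) ≤
      ∑ ρ ∈ Finset.range (t + 1), (((Mn K ρ).biUnion fun r =>
        (Vs K d).filter (fun H => Per d (ch d H) r)).card : ℝ) := by
    exact_mod_cast h2
  refine h3.trans (Finset.sum_le_sum fun ρ hρ => ?_)
  have hρ' : ρ < t + 1 := Finset.mem_range.1 hρ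
  have h4 : (((Mn K ρ).biUnion fun r =>
      (Vs K d).filter (fun H => Per d (ch d H) r)).card : ℝ) ≤
      ∑ r ∈ Mn K ρ, (((Vs K d).filter (fun H => Per d (ch d H) r)).card : ℝ) := by
    exact_mod_cast Finset.card_biUnion_le
  refine h4.trans (le_of_eq ?_)
  have h5 : ∀ r ∈ Mn K ρ, (((Vs K d).filter (fun H => Per d (ch d H) r)).card : ℝ) =
      (Fintype.card K : ℝ) ^ ρ := by
    intro r hr
    obtain ⟨hr1, hr2⟩ := mem_Mn.1 hr
    rw [card_per hper hr1 (by omega), hr2]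
  rw [Finset.sum_congr rfl h5, Finset.sum_const, nsmul_eq_mul, card_Mn]
  push_cast
  ring

/-- the main term vanishes without a minimal period of small degree -/
theorem MT_zero {d t : ℕ} {H : K[X]}
    (h : ¬ ∃ r, MPer d (ch d H) r ∧ r.natDegree ≤ t) : MT K d t (ch d H) = 0 := by
  unfold MT
  have h1 : (Sq K t).filter (fun r => MPer d (ch d H) r) = ∅ := by
    rw [Finset.filter_eq_empty_iff]
    intro r hr hm
    apply h
    refine ⟨r, hm, ?_⟩
    unfold Sq at hr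
    obtain ⟨h2, -⟩ := Finset.mem_filter.1 hr
    obtain ⟨ρ, hρ, h3⟩ := Finset.mem_biUnion.1 h2
    have h4 := (mem_Mn.1 h3).2
    have h5 := Finset.mem_range.1 hρ
    omega
  rw [h1, Finset.sum_empty]

end

theorem main : S_tl2 := by
  intro horth hper K _ _ _ θ d₀ hθ hθ4 H d t hd hd1 ht
  have hq := q_ge_two (K := K)
  have hd1' : (1 : ℝ) ≤ d := by exact_mod_cast hd1
  have htd : t ≤ d := by
    rw [ht]
    apply Nat.floor_le_of_le
    nlinarith
  obtain ⟨q, hqdef⟩ : ∃ q : ℝ, q = (Fintype.card K : ℝ) := ⟨_, rfl⟩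
  have hq0 : 0 < q := by rw [hqdef]; linarith
  have h1 : ∑ χ ∈ Vs K d, (2 * (d : ℝ) * SX K d (ch d χ)) ^ 2 ≤
      4 * (d : ℝ) ^ 2 * (Fintype.card K : ℝ) ^ (2 * d) := by
    have e1 : ∀ χ ∈ Vs K d, (2 * (d : ℝ) * SX K d (ch d χ)) ^ 2 =
        4 * (d : ℝ) ^ 2 * (SX K d (ch d χ)) ^ 2 := by
      intro χ _
      ring
    rw [Finset.sum_congr rfl e1, ← Finset.mul_sum]
    apply mul_le_mul_of_nonneg_left _ (by positivity)
    unfold SX
    rw [sum_sq horth d _ (Finset.filter_subset _ _), two_mul, pow_add]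
    apply mul_le_mul_of_nonneg_left _ (by positivity)
    have e2 : ((Mn K d).filter (fun a => Irreducible (a ^ 2 + X))).card ≤ Fintype.card K ^ d := by
      rw [← card_Mn]
      exact Finset.card_le_card (Finset.filter_subset _ _)
    exact_mod_cast e2
  refine ⟨h1, ?_⟩
  set F := (Vs K d).filter (fun χ => ∃ r, MPer d (ch d χ) r ∧ r.natDegree ≤ t) with hF
  have hN : (F.card : ℝ) ≤ 2 * ((Fintype.card K : ℝ) ^ t) ^ 2 := card_mper hper htd
  -- the error
  have hu : (Fintype.card K : ℝ) ^ ((d : ℝ) - 2 * t) = q ^ d / (q ^ t) ^ 2 := by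
    rw [← hqdef, Real.rpow_sub hq0, Real.rpow_natCast, ← pow_mul]
    congr 1
    rw [← Real.rpow_natCast]
    congr 1
    push_cast
    ring
  have hpt : ∀ χ ∈ F, (MT K d t (ch d χ)) ^ 2 ≤
      2 * (2 * (d : ℝ) * SX K d (ch d χ)) ^ 2 + 2 * (q ^ d / (q ^ t) ^ 2) ^ 2 := by
    intro χ hχ
    have h2 := H d t (ch d χ) hd ht (Finset.mem_filter.1 hχ).2
    rw [hu] at h2
    set x : ℝ := 2 * (d : ℝ) * SX K d (ch d χ) with hx
    set y : ℝ := MT K d t (ch d χ) with hy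
    set u : ℝ := q ^ d / (q ^ t) ^ 2 with hudef
    have h3 : (x - y) ^ 2 ≤ u ^ 2 := by
      rw [← sq_abs (x - y)]
      exact pow_le_pow_left₀ (abs_nonneg _) h2 2
    nlinarith [sq_nonneg (x + (x - y))]
  have h4 : ∑ χ ∈ Vs K d, (MT K d t (ch d χ)) ^ 2 = ∑ χ ∈ F, (MT K d t (ch d χ)) ^ 2 := by
    rw [hF, Finset.sum_filter]
    refine Finset.sum_congr rfl fun χ _ => ?_
    split_ifs with h5
    · rfl
    · rw [MT_zero h5]; norm_num
  rw [h4]
  have h6 : ∑ χ ∈ F, (2 * (d : ℝ) * SX K d (ch d χ)) ^ 2 ≤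
      4 * (d : ℝ) ^ 2 * (Fintype.card K : ℝ) ^ (2 * d) :=
    (Finset.sum_le_sum_of_subset_of_nonneg (Finset.filter_subset _ _)
      fun _ _ _ => sq_nonneg _).trans h1
  have h7 : (F.card : ℝ) * (2 * (q ^ d / (q ^ t) ^ 2) ^ 2) ≤ 4 * (q ^ d) ^ 2 := by
    have hqt : 1 ≤ q ^ t := one_le_pow₀ (by rw [hqdef]; linarith)
    have hqt0 : 0 < q ^ t := by linarith
    rw [← hqdef] at hN
    calc (F.card : ℝ) * (2 * (q ^ d / (q ^ t) ^ 2) ^ 2)
        ≤ 2 * (q ^ t) ^ 2 * (2 * (q ^ d / (q ^ t) ^ 2) ^ 2) :=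
          mul_le_mul_of_nonneg_right hN (by positivity)
      _ = 4 * (q ^ d) ^ 2 / (q ^ t) ^ 2 := by field_simp; ring
      _ ≤ 4 * (q ^ d) ^ 2 / 1 := by
          apply div_le_div_of_nonneg_left (by positivity) one_pos
          exact one_le_pow₀ hqt
      _ = 4 * (q ^ d) ^ 2 := div_one _
  have h8 := Finset.sum_le_sum hpt
  rw [Finset.sum_add_distrib, ← Finset.mul_sum, Finset.sum_const, nsmul_eq_mul] at h8
  refine h8.trans ?_
  have h9 : (Fintype.card K : ℝ) ^ (2 * d) = (q ^ d) ^ 2 := by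
    rw [← hqdef, mul_comm, pow_mul]
  rw [h9] at h6 ⊢
  have h10 : 0 ≤ (q ^ d) ^ 2 := sq_nonneg _
  have h11 : (q ^ d) ^ 2 ≤ (d : ℝ) ^ 2 * (q ^ d) ^ 2 :=
    le_mul_of_one_le_left h10 (one_le_pow₀ hd1')
  linarith

end Pool.Agent.H290.FX.PL2
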