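import Pool.Agent.H290.FX.StmW
import Pool.Agent.H985.KP.Loc2
import Pool.Agent.H985.Chow.Loc

/-!
# LOCFW: the local bound with a factor of the first digit (copy of `H985/FC/Lock.lean`)
-/

set_option autoImplicit false

namespace Pool.Agent.H290.FX.PLocfw

open Finset
open Pool.Agent.H985.Chow (Wl)
open Pool.Agent.H985.FC (gl)
open Pool.Agent.H985.KP (sg)
open Pool.Agent.H985.KP.Loc2 (sg_sq sg_zero sg_add sg_pm sg_congr exists_sq sgChar sgChar_apply
  sgChar_ne_one)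
open Pool.Agent.H985.Chow.Loc (Ph Ph_apply Ph_bij psi_pm psi_norm sum_lin psi_mul_self)

section gen

variable {F : Type*} [Field F] [CharP F 2]

theorem gl_ne {β ρ θ X Y r : F} (hr : r ^ 2 = ρ) (hβ : β ≠ 0) (hX : X ≠ 0) :
    gl β ρ θ X Y = sg ((Y + θ * X + r * β) ^ 3 / (β ^ 2 * X)) := by
  have h2 : (2 : F) = 0 := CharTwo.two_eq_zero
  unfold gl
  rw [if_neg hX]
  have h : (Y + θ * X) ^ 2 + ρ * β ^ 2 = (Y + θ * X + r * β) ^ 2 := by
    rw [← hr]
    linear_combination (-(Y + θ * X) * (r * β)) * h2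
  have h1 : Wl β ρ X (Y + θ * X) = ((Y + θ * X + r * β) ^ 3 / (β ^ 2 * X)) ^ 2 := by
    unfold Wl
    rw [h]
    field_simp
  rw [h1, sg_sq]

theorem prod_sg [Finite F] {ι : Type*} (s : Finset ι) (c : ι → F) :
    ∏ A ∈ s, sg (c A) = sg (∑ A ∈ s, c A) := by
  classical
  induction s using Finset.induction_on with
  | empty => simp [sg_zero]
  | insert a s ha ih => rw [prod_insert ha, sum_insert ha, sg_add, ih]

end gen

section locf

variable {F : Type} [Field F] [Fintype F] [CharP F 2] {ι : Type} [Fintype ι]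

/-- the product of two local functions -/
theorem gl_pair {β ρ θ X Y r τ : F} (hr : r ^ 2 = ρ) (hβ : β ≠ 0) (hX : X ≠ 0) :
    gl β ρ θ X Y * gl β ρ θ X (Y + τ) =
      sg ((τ * (Y + θ * X + r * β) ^ 2 + τ ^ 2 * (Y + θ * X + r * β) + τ ^ 3) / (β ^ 2 * X)) := by
  have h2 : (2 : F) = 0 := CharTwo.two_eq_zero
  rw [gl_ne hr hβ hX, gl_ne hr hβ hX, ← sg_add]
  congr 1
  rw [← add_div]
  congr 1
  linear_combination ((Y + θ * X + r * β) ^ 3 + τ * (Y + θ * X + r * β) ^ 2 +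
    τ ^ 2 * (Y + θ * X + r * β)) * h2

/-- the sum of the coefficients -/
noncomputable def AA (β : F) (κ : ι → F) (x : F) : F := ∑ i, 1 / (β ^ 2 * (κ i + x))

/-- the constant term -/
noncomputable def SS (β r τ : F) (θ κ σ : ι → F) (x : F) : F :=
  ∑ i, (τ * (σ i + θ i * (κ i + x) + r * β) ^ 2 + τ ^ 2 * (σ i + θ i * (κ i + x) + r * β) +
    τ ^ 3) / (β ^ 2 * (κ i + x))

/-- the product over all `i` -/
theorem prod_eq {β ρ r τ t a : F} (θ κ σ : ι → F) (hr : r ^ 2 = ρ) (hβ : β ≠ 0) {x : F} (y : F)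
    (hx : ∀ i, κ i + x ≠ 0) (ht : t ^ 2 = τ) (ha : a ^ 2 = AA β κ x) :
    ∏ i, (gl β ρ (θ i) (κ i + x) (σ i + y) * gl β ρ (θ i) (κ i + x) (σ i + y + τ)) =
      sg ((t * a + τ ^ 2 * a ^ 2) * y + SS β r τ θ κ σ x) := by
  have h2 : (2 : F) = 0 := CharTwo.two_eq_zero
  rw [Finset.prod_congr rfl fun i _ => gl_pair (Y := σ i + y) hr hβ (hx i), prod_sg]
  have h1 : ∑ i, (τ * (σ i + y + θ i * (κ i + x) + r * β) ^ 2 +
      τ ^ 2 * (σ i + y + θ i * (κ i + x) + r * β) + τ ^ 3) / (β ^ 2 * (κ i + x)) =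
      (t * a * y) ^ 2 + τ ^ 2 * a ^ 2 * y + SS β r τ θ κ σ x := by
    have h3 : (t * a * y) ^ 2 + τ ^ 2 * a ^ 2 * y =
        ∑ i, (τ * y ^ 2 + τ ^ 2 * y) * (1 / (β ^ 2 * (κ i + x))) := by
      rw [← Finset.mul_sum]
      change _ = (τ * y ^ 2 + τ ^ 2 * y) * AA β κ x
      rw [← ha, mul_pow, mul_pow, ht]
      ring
    rw [h3]
    unfold SS
    rw [← Finset.sum_add_distrib]
    refine Finset.sum_congr rfl fun i _ => ?_
    rw [mul_one_div, ← add_div]
    congr 1
    linear_combination (τ * y * (σ i + θ i * (κ i + x) + r * β)) * h2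
  rw [h1]
  refine sg_congr (Y := t * a * y) ?_
  linear_combination (-(t * a * y)) * h2

/-- the function `A` takes every value at most `|ι|` times -/
theorem AA_card [DecidableEq F] [Nonempty ι] {β : F} (hβ : β ≠ 0) {κ : ι → F}
    (hκ : Function.Injective κ) (a : F) :
    (univ.filter fun x => (∀ i, κ i + x ≠ 0) ∧ AA β κ x = a).card ≤ Fintype.card ι := by
  classical
  have h2 : (2 : F) = 0 := CharTwo.two_eq_zero
  let P : Polynomial F := Polynomial.C a * ∏ j, (Polynomial.C (κ j) + Polynomial.X) +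
    ∑ i, Polynomial.C (1 / β ^ 2) * ∏ j ∈ univ.erase i, (Polynomial.C (κ j) + Polynomial.X)
  have hPe : ∀ x : F, P.eval x = a * ∏ j, (κ j + x) +
      ∑ i, (1 / β ^ 2) * ∏ j ∈ univ.erase i, (κ j + x) := by
    intro x
    simp only [P, Polynomial.eval_add, Polynomial.eval_mul, Polynomial.eval_C,
      Polynomial.eval_finsetSum, Polynomial.eval_prod, Polynomial.eval_X]
  have hlin : ∀ j, (Polynomial.C (κ j) + Polynomial.X : Polynomial F).natDegree ≤ 1 := by
    intro j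
    rw [add_comm, Polynomial.natDegree_X_add_C]
  have hprod : ∀ S : Finset ι, (∏ j ∈ S, (Polynomial.C (κ j) + Polynomial.X : Polynomial F)).natDegree
      ≤ S.card := by
    intro S
    refine (Polynomial.natDegree_prod_le _ _).trans ?_
    refine (Finset.sum_le_sum fun j _ => hlin j).trans ?_
    simp
  have hdeg : P.natDegree ≤ Fintype.card ι := by
    refine (Polynomial.natDegree_add_le _ _).trans (max_le ?_ ?_)
    · refine (Polynomial.natDegree_C_mul_le _ _).trans ?_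
      exact (hprod univ).trans (by rw [card_univ])
    · refine Polynomial.natDegree_sum_le_of_forall_le _ _ fun i _ => ?_
      refine (Polynomial.natDegree_C_mul_le _ _).trans ((hprod _).trans ?_)
      exact (card_le_card (erase_subset _ _)).trans (by rw [card_univ])
  have hP0 : P ≠ 0 := by
    intro h
    obtain ⟨i₀⟩ := ‹Nonempty ι›
    have h1 := hPe (κ i₀)
    rw [h, Polynomial.eval_zero] at h1
    have h3 : ∀ i j, κ i + κ j = 0 → i = j := by
      intro i j hij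
      apply hκ
      linear_combination hij - κ j * h2
    have h4 : ∏ j, (κ j + κ i₀) = 0 :=
      Finset.prod_eq_zero (mem_univ i₀) (by linear_combination κ i₀ * h2)
    have h5 : ∑ i, (1 / β ^ 2) * ∏ j ∈ univ.erase i, (κ j + κ i₀) =
        (1 / β ^ 2) * ∏ j ∈ univ.erase i₀, (κ j + κ i₀) := by
      refine Finset.sum_eq_single i₀ (fun i _ hi => ?_) (fun h => absurd (mem_univ _) h)
      rw [Finset.prod_eq_zero (i := i₀) (mem_erase.2 ⟨hi.symm, mem_univ _⟩)
        (by linear_combination κ i₀ * h2), mul_zero]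
    rw [h4, h5, mul_zero, zero_add] at h1
    have h6 : (1 / β ^ 2) * ∏ j ∈ univ.erase i₀, (κ j + κ i₀) ≠ 0 := by
      refine mul_ne_zero (one_div_ne_zero (pow_ne_zero 2 hβ)) ?_
      rw [Finset.prod_ne_zero_iff]
      intro j hj hj0
      exact (mem_erase.1 hj).1 (h3 j i₀ hj0)
    exact h6 h1.symm
  have hsub : (univ.filter fun x => (∀ i, κ i + x ≠ 0) ∧ AA β κ x = a) ⊆ P.roots.toFinset := by
    intro x hx
    rw [mem_filter] at hx
    obtain ⟨-, hx0, hxa⟩ := hx
    rw [Multiset.mem_toFinset, Polynomial.mem_roots hP0]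
    change P.eval x = 0
    rw [hPe]
    have h1 : ∀ i, (1 / β ^ 2) * ∏ j ∈ univ.erase i, (κ j + x) =
        (1 / (β ^ 2 * (κ i + x))) * ∏ j, (κ j + x) := by
      intro i
      rw [← Finset.mul_prod_erase univ (fun j => κ j + x) (mem_univ i)]
      have := hx0 i
      field_simp
    rw [Finset.sum_congr rfl fun i _ => h1 i, ← Finset.sum_mul]
    change a * _ + AA β κ x * _ = 0
    rw [hxa]
    linear_combination (a * ∏ j, (κ j + x)) * h2
  refine (card_le_card hsub).trans ((Multiset.toFinset_card_le _).trans ?_)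
  exact (Polynomial.card_roots' P).trans hdeg

/-- the Fourier transform -/
theorem hat_eq [DecidableEq F] {β ρ r τ t : F} (θ κ σ : ι → F) (hr : r ^ 2 = ρ) (hβ : β ≠ 0)
    (ht : t ^ 2 = τ) {a : F → F} (ha : ∀ x, a x ^ 2 = AA β κ x) (ω : F → ℂ) (u w : F) :
    ∑ v : F × F, ((∏ i, (gl β ρ (θ i) (κ i + v.1) (σ i + v.2) *
        gl β ρ (θ i) (κ i + v.1) (σ i + v.2 + τ)) : ℝ) : ℂ) * ω v.1 * Ph (sgChar F) (u, w) v =
      ∑ x ∈ univ.filter (fun x => (∀ i, κ i + x ≠ 0) ∧ t * a x + τ ^ 2 * a x ^ 2 + w = 0),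
        ω x * (sgChar F (SS β r τ θ κ σ x + u * x) * Fintype.card F) := by
  rw [Fintype.sum_prod_type]
  have h1 : ∀ x : F, ∑ y : F, ((∏ i, (gl β ρ (θ i) (κ i + (x, y).1) (σ i + (x, y).2) *
      gl β ρ (θ i) (κ i + (x, y).1) (σ i + (x, y).2 + τ)) : ℝ) : ℂ) * ω (x, y).1 *
        Ph (sgChar F) (u, w) (x, y) =
      if (∀ i, κ i + x ≠ 0) ∧ t * a x + τ ^ 2 * a x ^ 2 + w = 0 then
        ω x * (sgChar F (SS β r τ θ κ σ x + u * x) * Fintype.card F) else 0 := by
    intro x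
    by_cases hx : ∀ i, κ i + x ≠ 0
    · have h3 : ∀ y : F, ((∏ i, (gl β ρ (θ i) (κ i + (x, y).1) (σ i + (x, y).2) *
          gl β ρ (θ i) (κ i + (x, y).1) (σ i + (x, y).2 + τ)) : ℝ) : ℂ) * ω (x, y).1 *
            Ph (sgChar F) (u, w) (x, y) =
          ω x * (sgChar F (SS β r τ θ κ σ x + u * x) *
            sgChar F ((t * a x + τ ^ 2 * a x ^ 2 + w) * y)) := by
        intro y
        have h4 := prod_eq (ρ := ρ) θ κ σ hr hβ y hx ht (ha x)
        dsimp only
        rw [h4, ← sgChar_apply, Ph_apply, mul_comm (sgChar F _) (ω x), mul_assoc,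
          ← AddChar.map_add_eq_mul, ← AddChar.map_add_eq_mul]
        congr 2
        dsimp only
        ring
      rw [Finset.sum_congr rfl fun y _ => h3 y, ← Finset.mul_sum, ← Finset.mul_sum,
        sum_lin sgChar_ne_one]
      by_cases hw : t * a x + τ ^ 2 * a x ^ 2 + w = 0
      · rw [if_pos hw, if_pos ⟨hx, hw⟩]
      · rw [if_neg hw, if_neg fun h => hw h.2, mul_zero, mul_zero]
    · rw [if_neg fun h => hx h.1]
      refine Finset.sum_eq_zero fun y _ => ?_
      push Not at hx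
      obtain ⟨i, hi⟩ := hx
      have h3 : ∏ i, (gl β ρ (θ i) (κ i + (x, y).1) (σ i + (x, y).2) *
          gl β ρ (θ i) (κ i + (x, y).1) (σ i + (x, y).2 + τ)) = 0 := by
        refine Finset.prod_eq_zero (mem_univ i) ?_
        have : gl β ρ (θ i) (κ i + (x, y).1) (σ i + (x, y).2) = 0 := by
          unfold gl
          exact if_pos hi
        rw [this, zero_mul]
      rw [h3]
      simp
  rw [Finset.sum_congr rfl fun x _ => h1 x, Finset.sum_filter]

/-- the number of terms -/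
theorem card_le [DecidableEq F] [Nonempty ι] {β τ t : F} (hβ : β ≠ 0) (hτ : τ ≠ 0) {κ : ι → F}
    (hκ : Function.Injective κ) {a : F → F} (ha : ∀ x, a x ^ 2 = AA β κ x) (w : F) :
    (univ.filter (fun x => (∀ i, κ i + x ≠ 0) ∧
      t * a x + τ ^ 2 * a x ^ 2 + w = 0)).card ≤ 2 * Fintype.card ι := by
  have h2 : (2 : F) = 0 := CharTwo.two_eq_zero
  set S := univ.filter (fun x => (∀ i, κ i + x ≠ 0) ∧ t * a x + τ ^ 2 * a x ^ 2 + w = 0) with hS
  by_cases hne : S = ∅
  · rw [hne]; simp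
  obtain ⟨x₀, hx₀⟩ := Finset.nonempty_iff_ne_empty.2 hne
  rw [hS, mem_filter] at hx₀
  have hsub : S ⊆ (univ.filter fun x => (∀ i, κ i + x ≠ 0) ∧ AA β κ x = a x₀ ^ 2) ∪
      (univ.filter fun x => (∀ i, κ i + x ≠ 0) ∧ AA β κ x = (a x₀ + t / τ ^ 2) ^ 2) := by
    intro x hx
    rw [hS, mem_filter] at hx
    rw [mem_union, mem_filter, mem_filter]
    have h3 : (a x + a x₀) * (t + τ ^ 2 * (a x + a x₀)) = 0 := by
      linear_combination hx.2.2 - hx₀.2.2 + (a x₀ * t + a x₀ ^ 2 * τ ^ 2 + a x * a x₀ * τ ^ 2) * h2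
    rcases mul_eq_zero.1 h3 with h4 | h4
    · left
      refine ⟨mem_univ _, hx.2.1, ?_⟩
      rw [← ha x]
      have : a x = a x₀ := by linear_combination h4 - a x₀ * h2
      rw [this]
    · right
      refine ⟨mem_univ _, hx.2.1, ?_⟩
      rw [← ha x]
      have : a x = a x₀ + t / τ ^ 2 := by
        have h5 : τ ^ 2 * a x = τ ^ 2 * (a x₀ + t / τ ^ 2) := by
          rw [mul_add, mul_div_cancel₀ t (pow_ne_zero 2 hτ)]
          linear_combination h4 - (t + τ ^ 2 * a x₀) * h2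
        exact mul_left_cancel₀ (pow_ne_zero 2 hτ) h5
      rw [this]
  refine (card_le_card hsub).trans ((card_union_le _ _).trans ?_)
  have h5 := AA_card hβ hκ (a x₀ ^ 2)
  have h6 := AA_card hβ hκ ((a x₀ + t / τ ^ 2) ^ 2)
  omega

end locf

theorem main : S_locfw := by
  classical
  intro F _ _ _ ι _ _ β ρ τ θ κ σ ω hβ hτ hκ hω χ
  obtain ⟨s, hs⟩ := exists_sq (F := F)
  have hbij := Ph_bij (F := F) sgChar_ne_one
  have hQ : (0 : ℝ) < Fintype.card F := by exact_mod_cast Fintype.card_pos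
  obtain ⟨⟨u, w⟩, rfl⟩ := hbij.2 χ
  rw [hat_eq θ κ σ (hs ρ) hβ (hs τ) (a := fun x => s (AA β κ x)) (fun x => hs _) ω u w]
  refine (norm_sum_le _ _).trans ?_
  have h3 : ∀ x ∈ univ.filter (fun x => (∀ i, κ i + x ≠ 0) ∧
        s τ * s (AA β κ x) + τ ^ 2 * s (AA β κ x) ^ 2 + w = 0),
      ‖ω x * (sgChar F (SS β (s ρ) τ θ κ σ x + u * x) * (Fintype.card F : ℂ))‖ ≤
        (Fintype.card F : ℝ) := by
    intro x _
    rw [norm_mul, norm_mul, psi_norm, one_mul, Complex.norm_natCast]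
    calc ‖ω x‖ * (Fintype.card F : ℝ) ≤ 1 * (Fintype.card F : ℝ) :=
          mul_le_mul_of_nonneg_right (hω x) hQ.le
      _ = _ := one_mul _
  refine (Finset.sum_le_sum h3).trans ?_
  rw [Finset.sum_const, nsmul_eq_mul]
  refine mul_le_mul_of_nonneg_right ?_ hQ.le
  have h4 := card_le (t := s τ) hβ hτ hκ (a := fun x => s (AA β κ x)) (fun x => hs _) w
  exact_mod_cast h4

end Pool.Agent.H290.FX.PLocfw
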