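import Pool.Agent.H290.FX.Stm

/-!
# Task MAJX (helper290, FX): the exponential sum for the major characters
-/

set_option autoImplicit false
set_option linter.unusedSectionVars false

namespace Pool.Agent.H290.FX.PMajx

open Polynomial Finset
open scoped Classical
open Pool.Agent.H985.Chow (mob)
open Pool.Agent.H985.KP (PA)
open Pool.Agent.H694.Typ (Mn mem_Mn pol pol_inj pol_degree exists_pol)
open Pool.Agent.H604.LD (PiM S_landaup Dat DatU As AsU ga fa)

section fld

variable {K : Type} [Field K]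

/-- the monic irreducible divisors as a finset -/
private noncomputable def PF (D : K[X]) : Finset K[X] :=
  (UniqueFactorizationMonoid.normalizedFactors D).toFinset

private lemma mem_PF {D : K[X]} (hD : D ≠ 0) (P : K[X]) :
    P ∈ PF D ↔ P.Monic ∧ Irreducible P ∧ P ∣ D := by
  unfold PF
  rw [Multiset.mem_toFinset, UniqueFactorizationMonoid.mem_normalizedFactors_iff' hD]
  constructor
  · rintro ⟨h1, h2, h3⟩
    exact ⟨h2 ▸ Polynomial.monic_normalize h1.ne_zero, h1, h3⟩
  · rintro ⟨h1, h2, h3⟩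
    exact ⟨h2, h1.normalize_eq_self, h3⟩

private lemma prod_PF {D : K[X]} (hD : D.Monic) (hs : Squarefree D) : ∏ P ∈ PF D, P = D := by
  have hnd := (UniqueFactorizationMonoid.squarefree_iff_nodup_normalizedFactors hD.ne_zero).1 hs
  have h1 : ∏ P ∈ PF D, P = (UniqueFactorizationMonoid.normalizedFactors D).prod := by
    rw [Finset.prod_eq_multiset_prod]
    unfold PF
    rw [Multiset.toFinset_val, hnd.dedup, Multiset.map_id']
  rw [h1, UniqueFactorizationMonoid.prod_normalizedFactors_eq hD.ne_zero, hD.normalize_eq_self]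

private lemma mob_eq {D : K[X]} (hD : D.Monic) (hs : Squarefree D) :
    mob D = (-1) ^ (PF D).card := by
  have hnd := (UniqueFactorizationMonoid.squarefree_iff_nodup_normalizedFactors hD.ne_zero).1 hs
  unfold mob
  rw [if_pos hs]
  congr 1
  unfold PF
  rw [Multiset.toFinset_card_of_nodup hnd]
  unfold UniqueFactorizationMonoid.normalizedFactors
  rw [Multiset.card_map]

/-- the divisors of a product of distinct monic irreducible polynomials -/
private lemma dvd_prod {S : Finset K[X]} (hS : ∀ P ∈ S, P.Monic ∧ Irreducible P) {P : K[X]}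
    (h1 : P.Monic) (h2 : Irreducible P) : P ∣ ∏ Q ∈ S, Q ↔ P ∈ S := by
  constructor
  · intro h
    obtain ⟨Q, hQ, hd⟩ := (h2.prime.dvd_finsetProd_iff _).1 h
    have h3 : Associated P Q := h2.associated_of_dvd (hS Q hQ).2 hd
    rw [Polynomial.eq_of_monic_of_associated h1 (hS Q hQ).1 h3]
    exact hQ
  · intro h
    exact Finset.dvd_prod_of_mem (fun Q => Q) h

private lemma PF_prod {S : Finset K[X]} (hS : ∀ P ∈ S, P.Monic ∧ Irreducible P) :
    PF (∏ Q ∈ S, Q) = S := by
  have h0 : ∏ Q ∈ S, Q ≠ 0 := Finset.prod_ne_zero_iff.2 fun Q hQ => (hS Q hQ).1.ne_zero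
  ext P
  rw [mem_PF h0]
  constructor
  · rintro ⟨h1, h2, h3⟩
    exact (dvd_prod hS h1 h2).1 h3
  · intro h
    exact ⟨(hS P h).1, (hS P h).2, (dvd_prod hS (hS P h).1 (hS P h).2).2 h⟩

/-- products of distinct monic irreducible polynomials as divisors -/
private lemma prod_dvd {S : Finset K[X]} (hS : ∀ P ∈ S, P.Monic ∧ Irreducible P) (g : K[X]) :
    ∏ Q ∈ S, Q ∣ g ↔ ∀ P ∈ S, P ∣ g := by
  constructor
  · intro h P hP
    exact (Finset.dvd_prod_of_mem (fun Q => Q) hP).trans h
  · intro h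
    refine Finset.prod_dvd_of_coprime (fun P hP Q hQ hPQ => ?_) h
    refine ((hS P hP).2.coprime_iff_not_dvd).2 fun hd => hPQ ?_
    exact Polynomial.eq_of_monic_of_associated (hS P hP).1 (hS Q hQ).1
      ((hS P hP).2.associated_of_dvd (hS Q hQ).2 hd)

/-- detection of coprimality -/
private lemma cop_sum {r : K[X]} (hr : r.Monic) (g : K[X]) :
    (if IsCoprime g r then (1 : ℝ) else 0) =
      ∑ T ∈ (PF r).powerset, (-1 : ℝ) ^ T.card * (if ∏ Q ∈ T, Q ∣ g then 1 else 0) := by
  have hS : ∀ P ∈ PF r, P.Monic ∧ Irreducible P := fun P hP =>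
    ⟨((mem_PF hr.ne_zero P).1 hP).1, ((mem_PF hr.ne_zero P).1 hP).2.1⟩
  have h1 : ∏ P ∈ PF r, (1 + -(if P ∣ g then (1 : ℝ) else 0)) =
      ∑ T ∈ (PF r).powerset, ∏ P ∈ T, -(if P ∣ g then (1 : ℝ) else 0) := Finset.prod_one_add _
  have h2 : ∏ P ∈ PF r, (1 + -(if P ∣ g then (1 : ℝ) else 0)) =
      if IsCoprime g r then (1 : ℝ) else 0 := by
    split_ifs with h
    · refine Finset.prod_eq_one fun P hP => ?_
      have h3 := (mem_PF hr.ne_zero P).1 hP
      rw [if_neg, neg_zero, add_zero]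
      intro hd
      exact h3.2.1.not_isUnit (h.isUnit_of_dvd' hd h3.2.2)
    · have h4 : ∃ P, Irreducible P ∧ P ∣ g ∧ P ∣ r := by
        by_contra hcon
        push Not at hcon
        apply h
        refine isCoprime_of_irreducible_dvd (fun hh => hr.ne_zero hh.2) ?_
        intro P hP h5 h6
        exact hcon P hP h5 h6
      obtain ⟨P, hP1, hP2, hP3⟩ := h4
      have hP' : normalize P ∈ PF r := by
        rw [mem_PF hr.ne_zero]
        exact ⟨Polynomial.monic_normalize hP1.ne_zero,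
          (normalize_associated P).symm.irreducible hP1, (normalize_dvd_iff).2 hP3⟩
      refine Finset.prod_eq_zero hP' ?_
      rw [if_pos (normalize_dvd_iff.2 hP2)]
      ring
  rw [← h2, h1]
  refine Finset.sum_congr rfl fun T hT => ?_
  rw [Finset.mem_powerset] at hT
  have h3 := prod_dvd (S := T) (fun P hP => hS P (hT hP)) g
  rw [Finset.prod_neg]
  congr 1
  by_cases h : ∏ Q ∈ T, Q ∣ g
  · rw [if_pos h]
    exact Finset.prod_eq_one fun P hP => if_pos (h3.1 h P hP)
  · rw [if_neg h]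
    have h4 : ∃ P ∈ T, ¬ P ∣ g := by
      by_contra hcon
      push Not at hcon
      exact h (h3.2 hcon)
    obtain ⟨P, hP, hP2⟩ := h4
    exact Finset.prod_eq_zero hP (if_neg hP2)

variable [Fintype K]

/-- the polynomials of degree less than `n` -/
private noncomputable def Bx (K : Type) [Field K] [Fintype K] (n : ℕ) : Finset K[X] :=
  Finset.univ.image (pol : (Fin n → K) → K[X])

private lemma mem_Bx {n : ℕ} {f : K[X]} : f ∈ Bx K n ↔ f.degree < (n : WithBot ℕ) := by
  unfold Bx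
  rw [Finset.mem_image]
  constructor
  · rintro ⟨c, -, rfl⟩
    exact pol_degree c
  · intro h
    obtain ⟨c, hc⟩ := exists_pol h
    exact ⟨c, Finset.mem_univ _, hc⟩

private lemma card_Bx (n : ℕ) : (Bx K n).card = Fintype.card K ^ n := by
  unfold Bx
  rw [Finset.card_image_of_injective _ pol_inj, Finset.card_univ, Fintype.card_fun,
    Fintype.card_fin]

end fld

section char

variable {K : Type} [Field K] [Fintype K] [CharP K 2]

omit [Fintype K] in
private lemma chi_abs (χ : AddChar K[X] ℝ) (a : K[X]) : |χ a| = 1 := by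
  have h1 : χ a * χ a = 1 := by
    rw [← AddChar.map_add_eq_mul, CharTwo.add_self_eq_zero, AddChar.map_zero_eq_one]
  rcases mul_self_eq_one_iff.1 h1 with h | h <;> rw [h] <;> norm_num

/-- the sum over the residue class of the root -/
private lemma inner (hroot : S_root) (χ : AddChar K[X] ℝ) {d : ℕ} {r E : K[X]} (hr : r.Monic)
    (hE : E.Monic) (hEs : Squarefree E) (hEr : E ∣ r) (hd : r.natDegree ≤ d)
    (h1 : ∀ s : K[X], (r * s).degree < (d : WithBot ℕ) → χ (r * s) = 1)
    (h2 : ∀ r' : K[X], r'.Monic → r'.natDegree < r.natDegree →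
        ∃ s : K[X], (r' * s).degree < (d : WithBot ℕ) ∧ χ (r' * s) ≠ 1) :
    ∑ a ∈ (Bx K r.natDegree).filter (fun a => E ∣ a ^ 2 + X), χ a =
      if E = r then χ (rt r) else 0 := by
  have hrd : r.degree = (r.natDegree : WithBot ℕ) := degree_eq_natDegree hr.ne_zero
  by_cases hEr' : E = r
  · rw [if_pos hEr']
    subst hEr'
    obtain ⟨h3, h4⟩ := hroot K E hE
    obtain ⟨h5, h6⟩ := h3 hEs
    rw [Finset.sum_eq_single_of_mem (rt E)]
    · rw [Finset.mem_filter, mem_Bx, ← hrd]
      exact ⟨h6, h5⟩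
    · intro a ha hne
      exfalso
      rw [Finset.mem_filter, mem_Bx, ← hrd] at ha
      have h7 := (h4 a ha.2).2
      have h8 : (a - rt E).degree < E.degree :=
        lt_of_le_of_lt (degree_sub_le _ _) (max_lt ha.1 h6)
      exact hne (sub_eq_zero.1 (eq_zero_of_dvd_of_degree_lt h7 h8))
  · rw [if_neg hEr']
    have hdeg : E.natDegree < r.natDegree := by
      refine lt_of_le_of_ne (natDegree_le_of_dvd hEr hr.ne_zero) fun h => hEr' ?_
      exact (eq_of_monic_of_dvd_of_natDegree_le hE hr hEr h.ge).symm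
    obtain ⟨s, hs1, hs2⟩ := h2 E hE hdeg
    obtain ⟨t, ht⟩ : ∃ t : K[X], t = (E * s) %ₘ r := ⟨_, rfl⟩
    have ht0 := modByMonic_add_div (E * s) r
    rw [← ht] at ht0
    have htd : t.degree < r.degree := by
      rw [ht]
      exact degree_modByMonic_lt _ hr
    have htE : E ∣ t := by
      have : t = E * s - r * ((E * s) /ₘ r) := by linear_combination ht0
      rw [this]
      exact dvd_sub (dvd_mul_right _ _) (hEr.mul_right _)
    have htχ : χ t ≠ 1 := by
      intro h
      apply hs2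
      rw [← ht0, AddChar.map_add_eq_mul, h, one_mul]
      apply h1
      have : r * ((E * s) /ₘ r) = E * s - t := by linear_combination ht0
      rw [this]
      refine lt_of_le_of_lt (degree_sub_le _ _) (max_lt hs1 (lt_of_lt_of_le htd ?_))
      rw [hrd]
      exact_mod_cast hd
    have hcl : ∀ a ∈ (Bx K r.natDegree).filter (fun a => E ∣ a ^ 2 + X),
        a + t ∈ (Bx K r.natDegree).filter (fun a => E ∣ a ^ 2 + X) := by
      intro a ha
      rw [Finset.mem_filter, mem_Bx, ← hrd] at ha ⊢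
      refine ⟨lt_of_le_of_lt (degree_add_le _ _) (max_lt ha.1 htd), ?_⟩
      have h3 : (a + t) ^ 2 + X = (a ^ 2 + X) + t * (2 * a + t) := by ring
      rw [h3]
      exact dvd_add ha.2 (htE.mul_right _)
    have htt : ∀ a : K[X], a + t + t = a := by
      intro a
      rw [add_assoc, CharTwo.add_self_eq_zero, add_zero]
    have h5 : ∑ a ∈ (Bx K r.natDegree).filter (fun a => E ∣ a ^ 2 + X), χ a =
        ∑ a ∈ (Bx K r.natDegree).filter (fun a => E ∣ a ^ 2 + X), χ (a + t) :=
      Finset.sum_nbij' (fun a => a + t) (fun a => a + t) hcl hcl (fun a _ => htt a)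
        (fun a _ => htt a) (fun a _ => by rw [htt])
    have h6 : ∑ a ∈ (Bx K r.natDegree).filter (fun a => E ∣ a ^ 2 + X), χ (a + t) =
        (∑ a ∈ (Bx K r.natDegree).filter (fun a => E ∣ a ^ 2 + X), χ a) * χ t := by
      rw [Finset.sum_mul]
      exact Finset.sum_congr rfl fun a _ => AddChar.map_add_eq_mul _ _ _
    rw [h6] at h5
    by_contra hne
    apply htχ
    exact mul_left_cancel₀ hne (by rw [mul_one]; exact h5.symm)

/-- the Ramanujan sum -/
private lemma ram (hroot : S_root) (χ : AddChar K[X] ℝ) {d : ℕ} {r : K[X]} (hr : r.Monic)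
    (hd : r.natDegree ≤ d)
    (h1 : ∀ s : K[X], (r * s).degree < (d : WithBot ℕ) → χ (r * s) = 1)
    (h2 : ∀ r' : K[X], r'.Monic → r'.natDegree < r.natDegree →
        ∃ s : K[X], (r' * s).degree < (d : WithBot ℕ) ∧ χ (r' * s) ≠ 1) :
    ∑ a ∈ (Bx K r.natDegree).filter (fun a => IsCoprime (a ^ 2 + X) r), χ a =
      (mob r : ℝ) * χ (rt r) := by
  have hS : ∀ P ∈ PF r, P.Monic ∧ Irreducible P := fun P hP =>
    ⟨((mem_PF hr.ne_zero P).1 hP).1, ((mem_PF hr.ne_zero P).1 hP).2.1⟩
  have h3 : ∑ a ∈ (Bx K r.natDegree).filter (fun a => IsCoprime (a ^ 2 + X) r), χ a =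
      ∑ T ∈ (PF r).powerset, (-1 : ℝ) ^ T.card *
        ∑ a ∈ (Bx K r.natDegree).filter (fun a => ∏ Q ∈ T, Q ∣ a ^ 2 + X), χ a := by
    rw [Finset.sum_filter]
    have h4 : ∀ a : K[X], (if IsCoprime (a ^ 2 + X) r then χ a else 0) =
        ∑ T ∈ (PF r).powerset, (-1 : ℝ) ^ T.card *
          (if ∏ Q ∈ T, Q ∣ a ^ 2 + X then χ a else 0) := by
      intro a
      have h5 := congrArg (fun x => x * χ a) (cop_sum hr (a ^ 2 + X))
      rw [ite_mul, one_mul, zero_mul] at h5
      rw [h5, Finset.sum_mul]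
      refine Finset.sum_congr rfl fun T _ => ?_
      rw [mul_assoc, ite_mul, one_mul, zero_mul]
    rw [Finset.sum_congr rfl fun a _ => h4 a, Finset.sum_comm]
    refine Finset.sum_congr rfl fun T _ => ?_
    rw [← Finset.mul_sum, Finset.sum_filter]
  rw [h3]
  have h4 : ∀ T ∈ (PF r).powerset, (-1 : ℝ) ^ T.card *
        ∑ a ∈ (Bx K r.natDegree).filter (fun a => ∏ Q ∈ T, Q ∣ a ^ 2 + X), χ a =
        if ∏ Q ∈ T, Q = r then (-1 : ℝ) ^ T.card * χ (rt r) else 0 := by
    intro T hT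
    rw [Finset.mem_powerset] at hT
    have hT' : ∀ P ∈ T, P.Monic ∧ Irreducible P := fun P hP => hS P (hT hP)
    have hsf : Squarefree (∏ Q ∈ T, Q) := by
      refine Finset.squarefree_prod_of_pairwise_isCoprime ?_ fun P hP => (hT' P hP).2.squarefree
      intro P hP Q hQ hPQ
      refine (((hT' P hP).2.coprime_iff_not_dvd).2 fun hdv => hPQ ?_).isRelPrime
      exact Polynomial.eq_of_monic_of_associated (hT' P hP).1 (hT' Q hQ).1
        ((hT' P hP).2.associated_of_dvd (hT' Q hQ).2 hdv)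
    rw [inner hroot χ hr (monic_prod_of_monic _ _ fun P hP => (hT' P hP).1) hsf
      ((prod_dvd hT' r).2 fun P hP => ((mem_PF hr.ne_zero P).1 (hT hP)).2.2) hd h1 h2]
    split_ifs
    · rfl
    · rw [mul_zero]
  rw [Finset.sum_congr rfl h4]
  by_cases hsf : Squarefree r
  · rw [Finset.sum_eq_single_of_mem (PF r) (Finset.mem_powerset_self _), if_pos (prod_PF hr hsf),
      mob_eq hr hsf]
    · push_cast
      rfl
    · intro T hT hne
      rw [Finset.mem_powerset] at hT
      rw [if_neg]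
      intro h
      apply hne
      rw [← PF_prod (S := T) (fun P hP => hS P (hT hP)), h]
  · have h5 : mob r = 0 := by
      unfold mob
      rw [if_neg hsf]
    rw [h5, Int.cast_zero, zero_mul]
    refine Finset.sum_eq_zero fun T hT => ?_
    rw [Finset.mem_powerset] at hT
    rw [if_neg]
    intro h
    apply hsf
    rw [← h]
    have hT' : ∀ P ∈ T, P.Monic ∧ Irreducible P := fun P hP => hS P (hT hP)
    refine Finset.squarefree_prod_of_pairwise_isCoprime ?_ fun P hP => (hT' P hP).2.squarefree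
    intro P hP Q hQ hPQ
    refine (((hT' P hP).2.coprime_iff_not_dvd).2 fun hdv => hPQ ?_).isRelPrime
    exact Polynomial.eq_of_monic_of_associated (hT' P hP).1 (hT' Q hQ).1
      ((hT' P hP).2.associated_of_dvd (hT' Q hQ).2 hdv)

/-- the value of the character in a residue class -/
private lemma chi_res (χ : AddChar K[X] ℝ) {d : ℕ} {r a : K[X]} (hr : r.Monic)
    (hd : r.natDegree ≤ d)
    (h1 : ∀ s : K[X], (r * s).degree < (d : WithBot ℕ) → χ (r * s) = 1) (ha : a ∈ Mn K d) :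
    χ a = χ (a %ₘ r) * χ (r * X ^ (d - r.natDegree)) := by
  rw [mem_Mn] at ha
  have hrd : r.degree = (r.natDegree : WithBot ℕ) := degree_eq_natDegree hr.ne_zero
  have had : a.degree = (d : WithBot ℕ) := by rw [degree_eq_natDegree ha.1.ne_zero, ha.2]
  have hm := modByMonic_add_div a r
  have hXm : (r * X ^ (d - r.natDegree)).Monic := hr.mul (monic_X_pow _)
  have hXd : (r * X ^ (d - r.natDegree)).degree = (d : WithBot ℕ) := by
    rw [degree_eq_natDegree hXm.ne_zero, hr.natDegree_mul (monic_X_pow _), natDegree_X_pow,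
      Nat.add_sub_cancel' hd]
  have h2 : (a - r * X ^ (d - r.natDegree)).degree < (d : WithBot ℕ) := by
    refine lt_of_lt_of_le (degree_sub_lt_left (by rw [had, hXd]) ha.1.ne_zero ?_) had.le
    rw [ha.1.leadingCoeff, hXm.leadingCoeff]
  have h3 : (a %ₘ r).degree < (d : WithBot ℕ) := by
    refine lt_of_lt_of_le (degree_modByMonic_lt _ hr) ?_
    rw [hrd]
    exact_mod_cast hd
  have h4 : r * (a /ₘ r - X ^ (d - r.natDegree)) = (a - r * X ^ (d - r.natDegree)) - a %ₘ r := by
    linear_combination hm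
  have h5 : (r * (a /ₘ r - X ^ (d - r.natDegree))).degree < (d : WithBot ℕ) := by
    rw [h4]
    exact lt_of_le_of_lt (degree_sub_le _ _) (max_lt h2 h3)
  have h6 : a = a %ₘ r + r * X ^ (d - r.natDegree) + r * (a /ₘ r - X ^ (d - r.natDegree)) := by
    linear_combination -hm
  have h7 := congrArg χ h6
  rw [AddChar.map_add_eq_mul, AddChar.map_add_eq_mul, h1 _ h5, mul_one] at h7
  exact h7

/-- the class is empty unless it is prime to `r` -/
private lemma not_cop {d : ℕ} {r a : K[X]} (hr : r.Monic) (hd : r.natDegree < 2 * d)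
    (ha : a ∈ Mn K d) (hirr : Irreducible (a ^ 2 + X)) : IsCoprime ((a %ₘ r) ^ 2 + X) r := by
  rw [mem_Mn] at ha
  have hm := modByMonic_add_div a r
  have hdeg : (a ^ 2 + X).natDegree = 2 * d := by
    have h1 : (a ^ 2).natDegree = 2 * d := by rw [ha.1.natDegree_pow, ha.2]
    rw [natDegree_add_eq_left_of_natDegree_lt, h1]
    rw [h1, natDegree_X]
    by_contra hcon
    omega
  have h1 : IsCoprime (a ^ 2 + X) r := by
    refine (hirr.coprime_iff_not_dvd).2 fun h => ?_
    have := natDegree_le_of_dvd h hr.ne_zero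
    omega
  have h2 : (a %ₘ r) ^ 2 + X = (a ^ 2 + X) + r * (-(a /ₘ r) * (a + a %ₘ r)) := by
    linear_combination (a + a %ₘ r) * hm
  rw [h2]
  exact h1.add_mul_left_left _

/-- the number of the `a` in a residue class -/
private lemma cnt {d : ℕ} {r a₀ : K[X]} (hr : r.Monic) (ha₀ : a₀ ∈ Bx K r.natDegree) :
    ((Mn K d).filter (fun a => Irreducible (a ^ 2 + X))).filter (fun a => a %ₘ r = a₀) =
      (AsU K d r a₀ (X ^ d) 0).filter (fun a => Irreducible (ga 1 1 1 a)) := by
  have hrd : r.degree = (r.natDegree : WithBot ℕ) := degree_eq_natDegree hr.ne_zero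
  rw [mem_Bx, ← hrd] at ha₀
  ext a
  unfold AsU As
  rw [Finset.mem_filter, Finset.mem_filter, Finset.mem_filter, Finset.mem_filter, Finset.mem_filter,
    mem_Mn]
  have hga : ga 1 1 1 a = a ^ 2 + X := by
    unfold ga fa
    rw [map_one, mul_one, one_pow, mul_one, EuclideanDomain.div_one]
  rw [hga, Nat.sub_zero]
  have hm := modByMonic_add_div a r
  constructor
  · rintro ⟨⟨⟨h1, h2⟩, h3⟩, h4⟩
    refine ⟨⟨⟨⟨h1, h2⟩, ⟨a /ₘ r, by rw [← h4]; linear_combination -hm⟩⟩, ?_⟩, h3⟩
    have h5 : a.degree = (d : WithBot ℕ) := by rw [degree_eq_natDegree h1.ne_zero, h2]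
    refine lt_of_lt_of_le (degree_sub_lt_left (by rw [h5, degree_X_pow]) h1.ne_zero ?_) h5.le
    rw [h1.leadingCoeff, leadingCoeff_X_pow]
  · rintro ⟨⟨⟨⟨h1, h2⟩, h3⟩, h4⟩, h5⟩
    refine ⟨⟨⟨h1, h2⟩, h5⟩, ?_⟩
    have h6 : r ∣ a %ₘ r - a₀ := by
      have h7 : a %ₘ r - a₀ = (a - a₀) - r * (a /ₘ r) := by linear_combination hm
      rw [h7]
      exact dvd_sub h3 (dvd_mul_right _ _)
    have h8 : (a %ₘ r - a₀).degree < r.degree :=
      lt_of_le_of_lt (degree_sub_le _ _) (max_lt (degree_modByMonic_lt _ hr) ha₀)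
    exact sub_eq_zero.1 (eq_zero_of_dvd_of_degree_lt h6 h8)

private lemma datU {d : ℕ} {r a₀ : K[X]} (hr : r.Monic) (h : IsCoprime (a₀ ^ 2 + X) r) :
    DatU 1 1 r a₀ 1 (X ^ d) d := by
  have hga : ga 1 1 1 a₀ = a₀ ^ 2 + X := by
    unfold ga fa
    rw [map_one, mul_one, one_pow, mul_one, EuclideanDomain.div_one]
  refine ⟨⟨one_ne_zero, monic_one, hr, ?_, monic_one, squarefree_one, one_dvd _, one_dvd _, ?_⟩,
    monic_X_pow _, natDegree_X_pow _⟩
  · rw [one_pow]
    exact one_dvd _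
  · rw [hga]
    exact h

/-- the exponential sum, split into residue classes -/
private lemma split (χ : AddChar K[X] ℝ) {d : ℕ} {r : K[X]} (hr : r.Monic)
    (hd : r.natDegree ≤ d) (hd1 : 1 ≤ d)
    (h1 : ∀ s : K[X], (r * s).degree < (d : WithBot ℕ) → χ (r * s) = 1) :
    SX K d χ = χ (r * X ^ (d - r.natDegree)) *
      ∑ a₀ ∈ (Bx K r.natDegree).filter (fun a => IsCoprime (a ^ 2 + X) r), χ a₀ *
        (((AsU K d r a₀ (X ^ d) 0).filter (fun a => Irreducible (ga 1 1 1 a))).card : ℝ) := by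
  have hrd : r.degree = (r.natDegree : WithBot ℕ) := degree_eq_natDegree hr.ne_zero
  unfold SX
  rw [← Finset.sum_fiberwise_of_maps_to
    (t := (Bx K r.natDegree).filter (fun a => IsCoprime (a ^ 2 + X) r)) (g := fun a => a %ₘ r)]
  · rw [Finset.mul_sum]
    refine Finset.sum_congr rfl fun a₀ ha₀ => ?_
    rw [← cnt hr (Finset.mem_filter.1 ha₀).1, Finset.card_eq_sum_ones, Nat.cast_sum, Finset.mul_sum,
      Finset.mul_sum]
    refine Finset.sum_congr rfl fun a ha => ?_
    rw [Finset.mem_filter, Finset.mem_filter] at ha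
    rw [chi_res χ hr hd h1 ha.1.1, ha.2]
    push_cast
    ring
  · intro a ha
    rw [Finset.mem_filter] at ha
    rw [Finset.mem_filter, mem_Bx, ← hrd]
    exact ⟨degree_modByMonic_lt _ hr, not_cop hr (by omega) ha.1 ha.2⟩

end char

theorem main : S_tmajx := by
  intro hroot hland K _ _ _
  obtain ⟨c, θ, hc, hθ, d₀, hmain⟩ := hland K
  refine ⟨c / 2, min (min θ (c / 2)) 1, by positivity, lt_min (lt_min hθ (by positivity)) one_pos,
    max d₀ 1, ?_⟩
  intro d χ r hd hr hrd h1 h2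
  have hq1 : (1 : ℝ) < Fintype.card K := by exact_mod_cast Fintype.one_lt_card
  have hd0 : d₀ ≤ d := (le_max_left _ _).trans hd
  have hd1 : 1 ≤ d := (le_max_right _ _).trans hd
  have hd' : (0 : ℝ) ≤ d := Nat.cast_nonneg _
  have e1 : (r.natDegree : ℝ) ≤ θ * d := hrd.trans
    (mul_le_mul_of_nonneg_right ((min_le_left _ _).trans (min_le_left _ _)) hd')
  have e2 : (r.natDegree : ℝ) ≤ c / 2 * d := hrd.trans
    (mul_le_mul_of_nonneg_right ((min_le_left _ _).trans (min_le_right _ _)) hd')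
  have e3 : (r.natDegree : ℝ) ≤ 1 * d := hrd.trans
    (mul_le_mul_of_nonneg_right (min_le_right _ _) hd')
  have e4 : r.natDegree ≤ d := by
    rw [one_mul] at e3
    exact_mod_cast e3
  obtain ⟨A, hA⟩ : ∃ A : ℝ, A = (Fintype.card K : ℝ) ^ (d - r.natDegree) / PiM r := ⟨_, rfl⟩
  obtain ⟨κ, hκ⟩ : ∃ κ : ℝ, κ = χ (r * X ^ (d - r.natDegree)) := ⟨_, rfl⟩
  obtain ⟨S, hS⟩ : ∃ S : Finset K[X],
      S = (Bx K r.natDegree).filter (fun a => IsCoprime (a ^ 2 + X) r) := ⟨_, rfl⟩
  rw [AddChar.map_add_eq_mul, split χ hr e4 hd1 h1, ← hA, ← hκ, ← mul_assoc (mob r : ℝ),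
    ← ram hroot χ hr e4 h1 h2, ← hS]
  have h3 : 2 * (d : ℝ) * (κ * ∑ a₀ ∈ S, χ a₀ *
      (((AsU K d r a₀ (X ^ d) 0).filter (fun a => Irreducible (ga 1 1 1 a))).card : ℝ)) -
      (∑ a₀ ∈ S, χ a₀) * κ * A = κ * ∑ a₀ ∈ S, χ a₀ * (2 * (d : ℝ) *
      (((AsU K d r a₀ (X ^ d) 0).filter (fun a => Irreducible (ga 1 1 1 a))).card : ℝ) - A) := by
    simp only [mul_sub, Finset.sum_sub_distrib]
    rw [← Finset.sum_mul]
    have : ∑ a₀ ∈ S, χ a₀ * (2 * (d : ℝ) *
        (((AsU K d r a₀ (X ^ d) 0).filter (fun a => Irreducible (ga 1 1 1 a))).card : ℝ)) =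
        2 * (d : ℝ) * ∑ a₀ ∈ S, χ a₀ *
        (((AsU K d r a₀ (X ^ d) 0).filter (fun a => Irreducible (ga 1 1 1 a))).card : ℝ) := by
      rw [Finset.mul_sum]
      exact Finset.sum_congr rfl fun _ _ => by ring
    rw [this]
    ring
  rw [h3, abs_mul, hκ, chi_abs, one_mul]
  have h4 : ∀ a₀ ∈ S, |χ a₀ * (2 * (d : ℝ) *
      (((AsU K d r a₀ (X ^ d) 0).filter (fun a => Irreducible (ga 1 1 1 a))).card : ℝ) - A)| ≤
      (Fintype.card K : ℝ) ^ ((1 - c) * d) := by
    intro a₀ ha₀
    rw [hS, Finset.mem_filter] at ha₀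
    have h5 := hmain 1 1 r a₀ 1 (X ^ d) 0 d (datU hr ha₀.2) hd0 (by rw [add_zero]; exact e1)
    rw [natDegree_one, Nat.cast_zero, sub_zero, Nat.sub_zero, ← hA] at h5
    rw [abs_mul, chi_abs, one_mul]
    exact h5
  refine (Finset.abs_sum_le_sum_abs _ _).trans ((Finset.sum_le_sum h4).trans ?_)
  rw [Finset.sum_const, nsmul_eq_mul]
  have h6 : (S.card : ℝ) ≤ (Fintype.card K : ℝ) ^ (r.natDegree : ℝ) := by
    rw [Real.rpow_natCast, ← Nat.cast_pow, ← card_Bx, hS]
    exact_mod_cast Finset.card_filter_le _ _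
  refine (mul_le_mul_of_nonneg_right h6 (by positivity)).trans ?_
  rw [← Real.rpow_add (by linarith)]
  apply Real.rpow_le_rpow_of_exponent_le hq1.le
  linarith

end Pool.Agent.H290.FX.PMajx
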