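import Pool.Agent.H290.FX.StmC

/-!
# Task MB: the main term for the pairs

The square of the main term, summed against a character, is the truncated singular series.
-/

namespace Pool.Agent.H290.FX.PMb

open Polynomial
open scoped Classical
open Pool.Agent.H985.Chow (mob)
open Pool.Agent.H985.KP (sg PA)
open Pool.Agent.H694.Typ (Mn PU mem_Mn card_Mn)
open Pool.Agent.H604.LD (PiM)

/-- The primes dividing a nonzero polynomial. -/
theorem coe_PA {K : Type} [Field K] {r : K[X]} (h0 : r ≠ 0) :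
    PA r = ((UniqueFactorizationMonoid.normalizedFactors r).toFinset : Set K[X]) := by
  ext P
  rw [Finset.mem_coe, Multiset.mem_toFinset, UniqueFactorizationMonoid.mem_normalizedFactors_iff' h0]
  unfold PA
  simp only [Set.mem_ofPred_eq]
  constructor
  · rintro ⟨h1, h2, h3⟩
    exact ⟨h2, h1.normalize_eq_self, h3⟩
  · rintro ⟨h2, h1, h3⟩
    refine ⟨?_, h2, h3⟩
    rw [← h1]
    exact monic_normalize h2.ne_zero

/-- Products over `PA r` are finite products. -/
theorem finprod_PA {K : Type} [Field K] {r : K[X]} (h0 : r ≠ 0) (f : K[X] → ℝ) :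
    ∏ᶠ P ∈ PA r, f P =
      ∏ P ∈ (UniqueFactorizationMonoid.normalizedFactors r).toFinset, f P := by
  rw [coe_PA h0, finprod_mem_coe_finset]

/-- The degree of a squarefree polynomial. -/
theorem natDegree_sqf {K : Type} [Field K] {r : K[X]} (h0 : r ≠ 0) (hs : Squarefree r) :
    r.natDegree =
      ∑ P ∈ (UniqueFactorizationMonoid.normalizedFactors r).toFinset, P.natDegree := by
  have h1 := (UniqueFactorizationMonoid.squarefree_iff_nodup_normalizedFactors h0).1 hs
  have h2 := UniqueFactorizationMonoid.prod_normalizedFactors h0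
  have h3 : (UniqueFactorizationMonoid.normalizedFactors r).prod.natDegree = r.natDegree :=
    natDegree_eq_of_degree_eq (degree_eq_degree_of_associated h2)
  rw [← h3, natDegree_multiset_prod _ (UniqueFactorizationMonoid.zero_notMem_normalizedFactors r)]
  rw [Finset.sum_eq_multiset_sum, Multiset.toFinset_val, Multiset.dedup_eq_self.2 h1]

/-- `q ^ deg r` times `PiM r`. -/
theorem card_PiM {K : Type} [Field K] [Fintype K] {r : K[X]} (h0 : r ≠ 0) (hs : Squarefree r) :
    (Fintype.card K : ℝ) ^ r.natDegree * PiM r =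
      ∏ P ∈ (UniqueFactorizationMonoid.normalizedFactors r).toFinset,
        ((Fintype.card K : ℝ) ^ P.natDegree - 1) := by
  have hq : (0 : ℝ) < (Fintype.card K : ℝ) := by exact_mod_cast Fintype.card_pos
  unfold PiM
  rw [finprod_PA h0, natDegree_sqf h0 hs, ← Finset.prod_pow_eq_pow_sum, ← Finset.prod_mul_distrib]
  refine Finset.prod_congr rfl fun P _ => ?_
  have h1 : (Fintype.card K : ℝ) ^ P.natDegree ≠ 0 := (pow_pos hq _).ne'
  field_simp

theorem one_lt_pow {K : Type} [Field K] [Fintype K] {r P : K[X]}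
    (hP : P ∈ (UniqueFactorizationMonoid.normalizedFactors r).toFinset) :
    0 < (Fintype.card K : ℝ) ^ P.natDegree - 1 := by
  rw [Multiset.mem_toFinset] at hP
  have h1 := UniqueFactorizationMonoid.irreducible_of_normalized_factor P hP
  have h2 : (1 : ℝ) < (Fintype.card K : ℝ) := by exact_mod_cast Fintype.one_lt_card
  have h3 := one_lt_pow₀ h2 h1.natDegree_pos.ne'
  linarith

theorem mob_sqr {K : Type} [Field K] {r : K[X]} (hs : Squarefree r) : (mob r : ℝ) ^ 2 = 1 := by
  unfold mob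
  rw [if_pos hs]
  push_cast
  rw [← pow_mul, mul_comm, pow_mul]
  norm_num

theorem chi_sqr {K : Type} [Field K] [CharP K 2] (χ : AddChar K[X] ℝ) (a : K[X]) :
    χ a ^ 2 = 1 := by
  rcases chi_pm χ a with h | h <;> rw [h] <;> norm_num

theorem mem_Sq {K : Type} [Field K] [Fintype K] {t : ℕ} {r : K[X]} :
    r ∈ Sq K t ↔ r.Monic ∧ r.natDegree ≤ t ∧ Squarefree r := by
  unfold Sq
  rw [Finset.mem_filter, Finset.mem_biUnion]
  constructor
  · rintro ⟨⟨n, hn, hr⟩, hs⟩
    rw [mem_Mn] at hr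
    rw [Finset.mem_range] at hn
    exact ⟨hr.1, by omega, hs⟩
  · rintro ⟨h1, h2, h3⟩
    exact ⟨⟨r.natDegree, by rw [Finset.mem_range]; omega, mem_Mn.2 ⟨h1, rfl⟩⟩, h3⟩

/-- The square of the main term is the sum of the squares. -/
theorem MT_sq (hU : S_uniq) {K : Type} [Field K] [Fintype K] [CharP K 2] {d t : ℕ}
    (htd : 2 * t ≤ d) (χ : AddChar K[X] ℝ) :
    (MT K d t χ) ^ 2 = ∑ r ∈ (Sq K t).filter (fun r => MPer d χ r),
      ((Fintype.card K : ℝ) ^ (d - r.natDegree) / PiM r) ^ 2 := by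
  have huniq : ∀ r ∈ (Sq K t).filter (fun r => MPer d χ r),
      ∀ r' ∈ (Sq K t).filter (fun r => MPer d χ r), r = r' := by
    intro r hr r' hr'
    rw [Finset.mem_filter, mem_Sq] at hr hr'
    obtain ⟨⟨h1, h2, h3⟩, h4⟩ := hr
    obtain ⟨⟨h1', h2', h3'⟩, h4'⟩ := hr'
    have h5 : r ∣ r' := hU K d χ r r' h4 h1' h4'.2.1 (by omega)
    have h6 : r' ∣ r := hU K d χ r' r h4' h1 h4.2.1 (by omega)
    exact eq_of_monic_of_associated h1 h1' (associated_of_dvd_dvd h5 h6)
  unfold MT
  rcases ((Sq K t).filter (fun r => MPer d χ r)).eq_empty_or_nonempty with h | ⟨r, hr⟩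
  · rw [h]
    simp
  · have h1 : (Sq K t).filter (fun r => MPer d χ r) = {r} := by
      rw [Finset.eq_singleton_iff_unique_mem]
      exact ⟨hr, fun r' hr' => huniq r' hr' r hr⟩
    rw [h1, Finset.sum_singleton, Finset.sum_singleton, mul_pow, mul_pow, chi_sqr]
    rw [Finset.mem_filter, mem_Sq] at hr
    rw [mob_sqr hr.1.2.2]
    ring

/-- **Task MB.** -/
theorem main : S_tmb := by
  intro hU hR K _ _ _ d t h htd hh
  have hq : (0 : ℝ) < (Fintype.card K : ℝ) := by exact_mod_cast Fintype.card_pos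
  have h1 : ∀ H ∈ Vs K d, ch d H h * (MT K d t (ch d H)) ^ 2 =
      ∑ r ∈ Sq K t, (if MPer d (ch d H) r then
        ((Fintype.card K : ℝ) ^ (d - r.natDegree) / PiM r) ^ 2 * ch d H h else 0) := by
    intro H _
    rw [MT_sq hU htd, Finset.sum_filter, Finset.mul_sum]
    refine Finset.sum_congr rfl fun r _ => ?_
    split_ifs <;> ring
  rw [Finset.sum_congr rfl h1, Finset.sum_comm, Finset.mul_sum]
  refine Finset.sum_congr rfl fun r hr => ?_
  rw [mem_Sq] at hr
  obtain ⟨hr1, hr2, hr3⟩ := hr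
  have hr0 := hr1.ne_zero
  rw [← Finset.sum_filter, ← Finset.mul_sum, hR K d r h hr1 hr3 (by omega) hh,
    finprod_PA hr0, finprod_PA hr0]
  have h2 := card_PiM hr0 hr3
  have hN : (0 : ℝ) < (Fintype.card K : ℝ) ^ r.natDegree := pow_pos hq _
  have hprod : 0 < ∏ P ∈ (UniqueFactorizationMonoid.normalizedFactors r).toFinset,
      ((Fintype.card K : ℝ) ^ P.natDegree - 1) :=
    Finset.prod_pos fun P hP => one_lt_pow hP
  have hPi : PiM r = (∏ P ∈ (UniqueFactorizationMonoid.normalizedFactors r).toFinset,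
      ((Fintype.card K : ℝ) ^ P.natDegree - 1)) / (Fintype.card K : ℝ) ^ r.natDegree := by
    rw [eq_div_iff hN.ne', ← h2, mul_comm]
  have h3 : (Fintype.card K : ℝ) ^ (d - r.natDegree) / PiM r =
      (Fintype.card K : ℝ) ^ d / ∏ P ∈ (UniqueFactorizationMonoid.normalizedFactors r).toFinset,
        ((Fintype.card K : ℝ) ^ P.natDegree - 1) := by
    have h4 : (Fintype.card K : ℝ) ^ d =
        (Fintype.card K : ℝ) ^ (d - r.natDegree) * (Fintype.card K : ℝ) ^ r.natDegree := by
      rw [← pow_add]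
      congr 1
      omega
    rw [hPi, h4]
    field_simp
  rw [h3, div_pow, ← pow_mul, mul_comm d 2, ← Finset.prod_pow, div_mul_eq_mul_div, mul_div_assoc,
    ← Finset.prod_div_distrib]
  congr 1
  refine Finset.prod_congr rfl fun P hP => ?_
  have h5 := one_lt_pow hP
  split_ifs
  · rw [pow_two]
    field_simp
  · rfl

end Pool.Agent.H290.FX.PMb
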