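import Pool.Agent.H290.FX.StmC

/-!
# Task MT (written by helper166): the main term for the sums of three
-/

set_option autoImplicit false

namespace Pool.Agent.H290.FX.PMt

open Polynomial
open scoped Classical
open Pool.Agent.H290.FX
open Pool.Agent.H985.Chow (mob)
open Pool.Agent.H985.KP (sg PA)
open Pool.Agent.H694.Typ (Mn PU mem_Mn q_ge)
open Pool.Agent.H604.LD (PiM)

section sqf

variable {K : Type} [Field K]

theorem mem_nf {F P : K[X]} (hF : F ≠ 0) :
    P ∈ (UniqueFactorizationMonoid.normalizedFactors F).toFinset ↔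
      P.Monic ∧ Irreducible P ∧ P ∣ F := by
  rw [Multiset.mem_toFinset, UniqueFactorizationMonoid.mem_normalizedFactors_iff' hF]
  constructor
  · rintro ⟨a, b, c⟩
    exact ⟨by rw [← b]; exact monic_normalize a.ne_zero, a, c⟩
  · rintro ⟨a, b, c⟩
    exact ⟨b, a.normalize_eq_self, c⟩

theorem prod_nf {g : K[X]} (hg : g.Monic) (hs : Squarefree g) :
    ∏ P ∈ (UniqueFactorizationMonoid.normalizedFactors g).toFinset, P = g := by
  have hnd := (UniqueFactorizationMonoid.squarefree_iff_nodup_normalizedFactors hg.ne_zero).1 hs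
  have e1 : ∏ P ∈ (UniqueFactorizationMonoid.normalizedFactors g).toFinset, P =
      (UniqueFactorizationMonoid.normalizedFactors g).prod := by
    rw [Finset.prod, Multiset.toFinset_val, Multiset.dedup_eq_self.2 hnd, Multiset.map_id']
  have e3 : (∏ P ∈ (UniqueFactorizationMonoid.normalizedFactors g).toFinset, P).Monic :=
    monic_prod_of_monic _ _ fun P hP => ((mem_nf hg.ne_zero).1 hP).1
  refine eq_of_monic_of_associated e3 hg ?_
  rw [e1]
  exact UniqueFactorizationMonoid.prod_normalizedFactors hg.ne_zero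

theorem mob_card {g : K[X]} (hg : g.Monic) (hs : Squarefree g) :
    mob g = (-1) ^ (UniqueFactorizationMonoid.normalizedFactors g).toFinset.card := by
  have hnd := (UniqueFactorizationMonoid.squarefree_iff_nodup_normalizedFactors hg.ne_zero).1 hs
  unfold mob
  rw [if_pos hs, Multiset.toFinset_card_of_nodup hnd]
  congr 1
  unfold UniqueFactorizationMonoid.normalizedFactors
  rw [Multiset.card_map]

theorem finprod_PA {g : K[X]} (hg : g.Monic) (f : K[X] → ℝ) :
    ∏ᶠ P ∈ PA g, f P = ∏ P ∈ (UniqueFactorizationMonoid.normalizedFactors g).toFinset, f P := by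
  have h : PA g = ((UniqueFactorizationMonoid.normalizedFactors g).toFinset : Set K[X]) := by
    ext P
    rw [Finset.mem_coe, mem_nf hg.ne_zero]
    rfl
  rw [h, finprod_mem_coe_finset]

theorem pow_deg {g : K[X]} (hg : g.Monic) (hs : Squarefree g) (q : ℝ) :
    q ^ g.natDegree =
      ∏ P ∈ (UniqueFactorizationMonoid.normalizedFactors g).toFinset, q ^ P.natDegree := by
  rw [Finset.prod_pow_eq_pow_sum]
  congr 1
  have h := congrArg natDegree (prod_nf hg hs)
  rw [natDegree_prod_of_monic _ _ (fun P hP => ((mem_nf hg.ne_zero).1 hP).1)] at h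
  exact h.symm

end sqf

variable {K : Type} [Field K] [Fintype K]

theorem mem_Sq {t : ℕ} {r : K[X]} : r ∈ Sq K t ↔ r.Monic ∧ r.natDegree ≤ t ∧ Squarefree r := by
  unfold Sq
  rw [Finset.mem_filter, Finset.mem_biUnion]
  constructor
  · rintro ⟨⟨n, hn, hr⟩, hs⟩
    rw [Finset.mem_range] at hn
    rw [mem_Mn] at hr
    exact ⟨hr.1, by omega, hs⟩
  · rintro ⟨h1, h2, h3⟩
    exact ⟨⟨r.natDegree, by rw [Finset.mem_range]; omega, mem_Mn.2 ⟨h1, rfl⟩⟩, h3⟩

/-- the local computation -/
theorem loc {r : K[X]} (hr : r.Monic) (hs : Squarefree r) (d : ℕ) (hd : r.natDegree ≤ d)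
    (B C : K[X] → Prop) (hBC : ∀ P : K[X], P.Monic → Irreducible P → P ∣ r → (B P ↔ C P)) :
    (mob r : ℝ) * ((Fintype.card K : ℝ) ^ (d - r.natDegree) / PiM r) ^ 3 *
      (∏ᶠ P ∈ PA r, (if B P then (Fintype.card K : ℝ) ^ P.natDegree - 1 else -1)) =
    (Fintype.card K : ℝ) ^ (3 * d) * ∏ᶠ P ∈ PA r,
        (if C P then -1 / ((Fintype.card K : ℝ) ^ P.natDegree - 1) ^ 2
          else 1 / ((Fintype.card K : ℝ) ^ P.natDegree - 1) ^ 3) := by
  have hq := q_ge (k := K)
  have hq0 : (Fintype.card K : ℝ) ≠ 0 := by linarith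
  unfold PiM
  rw [finprod_PA hr, finprod_PA hr, finprod_PA hr, mob_card hr hs]
  set S := (UniqueFactorizationMonoid.normalizedFactors r).toFinset with hS
  have e1 : (Fintype.card K : ℝ) ^ (d - r.natDegree) =
      (Fintype.card K : ℝ) ^ d / ∏ P ∈ S, (Fintype.card K : ℝ) ^ P.natDegree := by
    rw [← pow_deg hr hs, pow_sub₀ _ hq0 hd]
    rfl
  have e2 : (((-1) ^ S.card : ℤ) : ℝ) = ∏ P ∈ S, (-1 : ℝ) := by
    rw [Finset.prod_const]
    push_cast
    rfl
  rw [e1, e2, pow_mul', div_div, ← Finset.prod_mul_distrib, div_pow, ← Finset.prod_pow, div_eq_mul_inv,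
    ← Finset.prod_inv_distrib, mul_left_comm, mul_assoc, mul_assoc, ← Finset.prod_mul_distrib,
    ← Finset.prod_mul_distrib]
  congr 1
  refine Finset.prod_congr rfl fun P hP => ?_
  rw [hS, mem_nf hr.ne_zero] at hP
  have h1 : 1 ≤ P.natDegree := hP.2.1.natDegree_pos
  have h2 : (2 : ℝ) ≤ (Fintype.card K : ℝ) ^ P.natDegree := by
    calc (2 : ℝ) ≤ (Fintype.card K : ℝ) ^ 1 := by rw [pow_one]; exact hq
      _ ≤ _ := pow_le_pow_right₀ (by linarith) h1
  have h3 : (Fintype.card K : ℝ) ^ P.natDegree - 1 ≠ 0 := by linarith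
  have h4 : (Fintype.card K : ℝ) ^ P.natDegree ≠ 0 := by linarith
  have h5 : (Fintype.card K : ℝ) ^ P.natDegree * (1 - 1 / (Fintype.card K : ℝ) ^ P.natDegree) =
      (Fintype.card K : ℝ) ^ P.natDegree - 1 := by
    field_simp
  rw [h5]
  simp only [hBC P hP.1 hP.2.1 hP.2.2]
  split_ifs
  · field_simp
  · field_simp

theorem main : S_tmt := by
  intro hroot huniq hram K _ _ _ d t c ht hc hcd
  have hq := q_ge (k := K)
  -- the cube of the main term
  have cube : ∀ H : K[X], (MT K d t (ch d H)) ^ 3 = ∑ r ∈ Sq K t,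
      if MPer d (ch d H) r then (mob r : ℝ) * ch d H (rt r + r * X ^ (d - r.natDegree)) *
        ((Fintype.card K : ℝ) ^ (d - r.natDegree) / PiM r) ^ 3 else 0 := by
    intro H
    unfold MT
    rw [← Finset.sum_filter]
    have hcard : ((Sq K t).filter (fun r => MPer d (ch d H) r)).card ≤ 1 := by
      rw [Finset.card_le_one]
      intro a ha b hb
      rw [Finset.mem_filter, mem_Sq] at ha hb
      have h1 := huniq K d (ch d H) a b ha.2 hb.1.1 hb.2.2.1 (by omega)
      have h2 := huniq K d (ch d H) b a hb.2 ha.1.1 ha.2.2.1 (by omega)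
      exact eq_of_monic_of_associated ha.1.1 hb.1.1 (associated_of_dvd_dvd h1 h2)
    rcases Finset.card_le_one_iff_subset_singleton.1 hcard with ⟨x, hx⟩
    rcases Finset.subset_singleton_iff.1 hx with h | h
    · rw [h]
      simp
    · rw [h, Finset.sum_singleton, Finset.sum_singleton]
      have hxm : x ∈ (Sq K t).filter (fun r => MPer d (ch d H) r) := by rw [h]; simp
      rw [Finset.mem_filter, mem_Sq] at hxm
      have m1 : (mob x : ℝ) ^ 3 = mob x := by
        rw [mob_card hxm.1.1 hxm.1.2.2]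
        push_cast
        rw [← pow_mul, mul_comm, pow_mul]
        norm_num
      have m2 : (ch d H (rt x + x * X ^ (d - x.natDegree))) ^ 3 =
          ch d H (rt x + x * X ^ (d - x.natDegree)) := by
        rcases chi_pm (ch d H) (rt x + x * X ^ (d - x.natDegree)) with h | h <;> rw [h] <;> norm_num
      rw [mul_pow, mul_pow, m1, m2]
  have step1 : ∑ H ∈ Vs K d, ch d H c * (MT K d t (ch d H)) ^ 3 = ∑ r ∈ Sq K t,
      (mob r : ℝ) * ((Fintype.card K : ℝ) ^ (d - r.natDegree) / PiM r) ^ 3 *
        ∑ H ∈ (Vs K d).filter (fun H => MPer d (ch d H) r),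
          ch d H (c + (rt r + r * X ^ (d - r.natDegree))) := by
    calc ∑ H ∈ Vs K d, ch d H c * (MT K d t (ch d H)) ^ 3 = ∑ H ∈ Vs K d, ∑ r ∈ Sq K t,
        (if MPer d (ch d H) r then (mob r : ℝ) * ((Fintype.card K : ℝ) ^ (d - r.natDegree) / PiM r) ^ 3 *
          ch d H (c + (rt r + r * X ^ (d - r.natDegree))) else 0) := by
          refine Finset.sum_congr rfl fun H _ => ?_
          rw [cube H, Finset.mul_sum]
          refine Finset.sum_congr rfl fun r _ => ?_
          split_ifs
          · rw [AddChar.map_add_eq_mul (ch d H) c]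
            ring
          · rw [mul_zero]
      _ = _ := by
          rw [Finset.sum_comm]
          refine Finset.sum_congr rfl fun r _ => ?_
          rw [Finset.mul_sum, Finset.sum_filter]
  rw [step1, Finset.mul_sum]
  refine Finset.sum_congr rfl fun r hr => ?_
  rw [mem_Sq] at hr
  obtain ⟨hm, hrt, hs⟩ := hr
  obtain ⟨hroot1, hroot2⟩ := (hroot K r hm).1 hs
  have hbdeg : (c + (rt r + r * X ^ (d - r.natDegree))).degree < (d : WithBot ℕ) := by
    have e : c + (rt r + r * X ^ (d - r.natDegree)) = (c - r * X ^ (d - r.natDegree)) + rt r := by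
      rw [CharTwo.sub_eq_add]
      ring
    rw [e]
    have hmr : (r * X ^ (d - r.natDegree)).Monic := hm.mul (monic_X_pow _)
    have hdr : (r * X ^ (d - r.natDegree)).natDegree = d := by
      rw [hm.natDegree_mul (monic_X_pow _), natDegree_X_pow]
      omega
    have h1 : (c - r * X ^ (d - r.natDegree)).degree < (d : WithBot ℕ) := by
      have := degree_sub_lt_left (p := c) (q := r * X ^ (d - r.natDegree))
        (by rw [degree_eq_natDegree hc.ne_zero, degree_eq_natDegree hmr.ne_zero, hcd, hdr]) hc.ne_zero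
        (by rw [hc.leadingCoeff, hmr.leadingCoeff])
      rwa [degree_eq_natDegree hc.ne_zero, hcd] at this
    have h2 : (rt r).degree < (d : WithBot ℕ) := by
      refine hroot2.trans_le ?_
      rw [degree_eq_natDegree hm.ne_zero]
      exact_mod_cast (by omega : r.natDegree ≤ d)
    exact (degree_add_le _ _).trans_lt (max_lt h1 h2)
  rw [hram K d r _ hm hs (by omega) hbdeg]
  refine loc hm hs d (by omega) _ _ ?_
  intro P hP hPi hPr
  have h1 : P ∣ r * X ^ (d - r.natDegree) := hPr.mul_right _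
  have h2 : P ∣ rt r ^ 2 + X := hPr.trans hroot1
  have h3 : c ^ 2 + X = (c + rt r) ^ 2 - (rt r ^ 2 + X) + (X + X) - 2 * (c * rt r) := by ring
  have h4 : c ^ 2 + X = (c + rt r) ^ 2 - (rt r ^ 2 + X) := by
    have e2 : (2 : K[X]) = 0 := CharTwo.two_eq_zero
    rw [h3, CharTwo.add_self_eq_zero, e2]
    ring
  have h5 : c + (rt r + r * X ^ (d - r.natDegree)) = (c + rt r) + r * X ^ (d - r.natDegree) := by ring
  rw [h5, h4, dvd_add_left h1, dvd_sub_left h2]
  exact ⟨fun h => h.pow (by norm_num), fun h => hPi.prime.dvd_of_dvd_pow h⟩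

end Pool.Agent.H290.FX.PMt
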