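import Mathlib
import Pool.Agent.H290.FX.StmC

/-!
# Task ORTH (helper800, for helper290): orthogonality
-/

namespace Pool.Agent.H290.FX.POrth

open Polynomial
open scoped Classical
open Pool.Agent.H985.KP (sg PA)
open Pool.Agent.H694.Typ (Mn PU mem_Mn card_Mn)

theorem main : S_orth := by
  intro K _ _ _ d a ha
  split_ifs with h0
  · subst h0
    rw [Finset.sum_congr rfl (fun H _ => (ch d H).map_zero_eq_one), Finset.sum_const, card_Vs,
      nsmul_eq_mul, mul_one]
    push_cast
    rfl
  · obtain ⟨x, hx⟩ := Pool.Agent.H985.KP.Loc2.exists_sg_neg (F := K)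
    have hlc : a.leadingCoeff ≠ 0 := leadingCoeff_ne_zero.2 h0
    have hk : a.natDegree < d := by
      rw [degree_eq_natDegree h0] at ha
      exact_mod_cast ha
    set w : K[X] := C (x / a.leadingCoeff) * X ^ (d - 1 - a.natDegree) with hw
    have hwd : w.degree < (d : WithBot ℕ) := by
      refine lt_of_le_of_lt (degree_C_mul_X_pow_le _ _) ?_
      exact_mod_cast (by omega : d - 1 - a.natDegree < d)
    have hwc : (w * a).coeff (d - 1) = x := by
      have h1 : d - 1 = a.natDegree + (d - 1 - a.natDegree) := by omega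
      rw [hw, mul_assoc, coeff_C_mul]
      conv_lhs => rw [h1]
      rw [mul_comm (X ^ _) a, Nat.add_sub_cancel_left, coeff_mul_X_pow, coeff_natDegree]
      field_simp
    have hch : ∀ H : K[X], ch d (H + w) a = - ch d H a := by
      intro H
      rw [ch_apply, ch_apply, add_mul, coeff_add, Pool.Agent.H985.KP.Loc2.sg_add, hwc, hx]
      ring
    have hsum : ∑ H ∈ Vs K d, ch d H a = ∑ H ∈ Vs K d, ch d (H + w) a := by
      refine Finset.sum_bij' (fun H _ => H - w) (fun H _ => H + w) ?_ ?_ ?_ ?_ ?_
      · intro H hH
        rw [mem_Vs] at hH ⊢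
        exact lt_of_le_of_lt (degree_sub_le _ _) (max_lt hH hwd)
      · intro H hH
        rw [mem_Vs] at hH ⊢
        exact lt_of_le_of_lt (degree_add_le _ _) (max_lt hH hwd)
      · intro H _
        ring
      · intro H _
        ring
      · intro H _
        rw [sub_add_cancel]
    simp only [hch, Finset.sum_neg_distrib] at hsum
    linarith

end Pool.Agent.H290.FX.POrth
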