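import Pool.Agent.H290.FX.StmC

/-!
# Task PER (helper177): the characters with a given period
-/

namespace Pool.Agent.H290.FX.PPer

open Polynomial
open scoped Classical

/-- The multipliers `s` with `deg (r s) < d`. -/
theorem mem_iff {K : Type} [Field K] [Fintype K] {d : ℕ} {r s : K[X]} (hr : r.Monic)
    (hd : r.natDegree ≤ d) : s ∈ Vs K (d - r.natDegree) ↔ (r * s).degree < (d : WithBot ℕ) := by
  rw [mem_Vs]
  rcases eq_or_ne s 0 with rfl | hs
  · rw [mul_zero, degree_zero]
    exact ⟨fun _ => WithBot.bot_lt_coe _, fun _ => WithBot.bot_lt_coe _⟩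
  · rw [degree_mul, degree_eq_natDegree hr.ne_zero, degree_eq_natDegree hs]
    constructor
    · intro h
      have h1 : s.natDegree < d - r.natDegree := by exact_mod_cast h
      have h2 : r.natDegree + s.natDegree < d := by omega
      exact_mod_cast h2
    · intro h
      have h1 : r.natDegree + s.natDegree < d := by exact_mod_cast h
      have h2 : s.natDegree < d - r.natDegree := by omega
      exact_mod_cast h2

/-- Translation of the sums over `Vs K k`. -/
theorem sum_shift {K : Type} [Field K] [Fintype K] {k : ℕ} (f : K[X] → ℝ) {s₀ : K[X]}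
    (h₀ : s₀ ∈ Vs K k) : ∑ s ∈ Vs K k, f (s + s₀) = ∑ s ∈ Vs K k, f s := by
  rw [mem_Vs] at h₀
  refine Finset.sum_nbij' (fun s => s + s₀) (fun s => s - s₀) ?_ ?_ ?_ ?_ ?_
  · intro s hs
    rw [mem_Vs] at hs ⊢
    exact (degree_add_le _ _).trans_lt (max_lt hs h₀)
  · intro s hs
    rw [mem_Vs] at hs ⊢
    exact (degree_sub_le _ _).trans_lt (max_lt hs h₀)
  · intro s _
    exact add_sub_cancel_right s s₀
  · intro s _
    exact sub_add_cancel s s₀
  · intro s _
    rfl

/-- The indicator function of `Per`. -/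
theorem indicator {K : Type} [Field K] [Fintype K] {d : ℕ} {r : K[X]} (hr : r.Monic)
    (hd : r.natDegree ≤ d) (χ : AddChar K[X] ℝ) :
    ∑ s ∈ Vs K (d - r.natDegree), χ (r * s) =
      if Per d χ r then (Fintype.card K : ℝ) ^ (d - r.natDegree) else 0 := by
  split_ifs with hp
  · rw [Finset.sum_congr rfl (fun s hs => hp s ((mem_iff hr hd).1 hs)), Finset.sum_const, card_Vs,
      nsmul_eq_mul, mul_one, Nat.cast_pow]
  · unfold Per at hp
    push Not at hp
    obtain ⟨s₀, h1, h2⟩ := hp
    have h3 := sum_shift (fun s => χ (r * s)) ((mem_iff hr hd).2 h1)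
    have h4 : ∑ s ∈ Vs K (d - r.natDegree), χ (r * (s + s₀)) =
        (∑ s ∈ Vs K (d - r.natDegree), χ (r * s)) * χ (r * s₀) := by
      rw [Finset.sum_mul]
      exact Finset.sum_congr rfl fun s _ => by rw [mul_add, χ.map_add_eq_mul]
    have h5 : (∑ s ∈ Vs K (d - r.natDegree), χ (r * s)) * (χ (r * s₀) - 1) = 0 := by
      rw [mul_sub, mul_one, ← h4, h3, sub_self]
    rcases mul_eq_zero.1 h5 with h6 | h6
    · exact h6
    · exact absurd (sub_eq_zero.1 h6) h2

/-- **Task PER.** -/
theorem main : S_tper := by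
  intro hO K _ _ _ d r b hr hd hb
  have hq : (0 : ℝ) < (Fintype.card K : ℝ) := by
    exact_mod_cast Fintype.card_pos
  have hqn : ((Fintype.card K : ℝ) ^ (d - r.natDegree)) ≠ 0 := (pow_pos hq _).ne'
  -- multiply by `q ^ (d - ρ)`
  have key : (Fintype.card K : ℝ) ^ (d - r.natDegree) *
      ∑ H ∈ (Vs K d).filter (fun H => Per d (ch d H) r), ch d H b =
      ∑ s ∈ Vs K (d - r.natDegree), if b + r * s = 0 then (Fintype.card K : ℝ) ^ d else 0 := by
    rw [Finset.sum_filter, Finset.mul_sum]
    have h1 : ∀ H ∈ Vs K d, (Fintype.card K : ℝ) ^ (d - r.natDegree) *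
        (if Per d (ch d H) r then ch d H b else 0) =
        ∑ s ∈ Vs K (d - r.natDegree), ch d H (b + r * s) := by
      intro H _
      have h2 : ∑ s ∈ Vs K (d - r.natDegree), ch d H (b + r * s) =
          ch d H b * ∑ s ∈ Vs K (d - r.natDegree), ch d H (r * s) := by
        rw [Finset.mul_sum]
        exact Finset.sum_congr rfl fun s _ => (ch d H).map_add_eq_mul b (r * s)
      rw [h2, indicator hr hd]
      split_ifs with hp
      · ring
      · ring
    rw [Finset.sum_congr rfl h1, Finset.sum_comm]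
    refine Finset.sum_congr rfl fun s hs => ?_
    have h3 : (b + r * s).degree < (d : WithBot ℕ) :=
      (degree_add_le _ _).trans_lt (max_lt hb ((mem_iff hr hd).1 hs))
    exact hO K d (b + r * s) h3
  have hpow : (Fintype.card K : ℝ) ^ (d - r.natDegree) * (Fintype.card K : ℝ) ^ r.natDegree =
      (Fintype.card K : ℝ) ^ d := by
    rw [← pow_add, Nat.sub_add_cancel hd]
  split_ifs with hdvd
  · obtain ⟨c, hc⟩ := hdvd
    have hc' : -c ∈ Vs K (d - r.natDegree) := by
      rw [mem_iff hr hd, mul_neg, degree_neg, ← hc]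
      exact hb
    rw [Finset.sum_eq_single_of_mem (-c) hc', if_pos (by rw [hc]; ring)] at key
    · rw [← hpow] at key
      exact mul_left_cancel₀ hqn key
    · intro s _ hs
      rw [if_neg]
      intro h0
      refine hs ?_
      rw [hc, ← mul_add] at h0
      rcases mul_eq_zero.1 h0 with h1 | h1
      · exact absurd h1 hr.ne_zero
      · exact (neg_eq_of_add_eq_zero_right h1).symm
  · have h7 : ∑ s ∈ Vs K (d - r.natDegree),
        (if b + r * s = 0 then (Fintype.card K : ℝ) ^ d else 0) = 0 := by
      refine Finset.sum_eq_zero fun s _ => ?_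
      rw [if_neg]
      intro h0
      refine hdvd ⟨-s, ?_⟩
      rw [mul_neg]
      exact eq_neg_of_add_eq_zero_left h0
    rw [h7] at key
    exact (mul_eq_zero.1 key).resolve_left hqn

end Pool.Agent.H290.FX.PPer
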