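import Pool.Agent.H290.FX.StmC

/-!
# Task RAM: the Ramanujan sums (helper376, for helper290)
-/

set_option autoImplicit false

namespace Pool.Agent.H290.FX.PRam

open Polynomial UniqueFactorizationMonoid
open scoped Classical
open Pool.Agent.H985.KP (PA)
open Pool.Agent.H290.FX

variable {K : Type} [Field K]

theorem per_of_dvd {d : ℕ} {χ : AddChar K[X] ℝ} {E r : K[X]} (h : Per d χ E) (hE : E ∣ r) :
    Per d χ r := by
  obtain ⟨k, rfl⟩ := hE
  intro s hs
  rw [mul_assoc] at hs ⊢
  exact h (k * s) hs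

theorem mper_eq [CharP K 2] (hU : S_uniq) {d : ℕ} {χ : AddChar K[X] ℝ} {E E' : K[X]}
    (h : MPer d χ E) (h' : MPer d χ E') (hd : E.natDegree + E'.natDegree ≤ d) : E = E' := by
  have h1 : E ∣ E' := hU K d χ E E' h h'.1 h'.2.1 hd
  have h2 : E' ∣ E := hU K d χ E' E h' h.1 h.2.1 (by omega)
  exact eq_of_monic_of_associated h.1 h'.1 (associated_of_dvd_dvd h1 h2)

theorem exists_mper {d : ℕ} {χ : AddChar K[X] ℝ} {r : K[X]} (hr : r.Monic) (h : Per d χ r) :
    ∃ E : K[X], MPer d χ E ∧ E.natDegree ≤ r.natDegree := by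
  have hex : ∃ n : ℕ, ∃ E : K[X], E.Monic ∧ Per d χ E ∧ E.natDegree = n := ⟨_, r, hr, h, rfl⟩
  obtain ⟨E, h1, h2, h3⟩ := Nat.find_spec hex
  refine ⟨E, ⟨h1, h2, ?_⟩, ?_⟩
  · intro r' hr' hlt hper
    rw [h3] at hlt
    exact Nat.find_min hex hlt ⟨r', hr', hper, rfl⟩
  · rw [h3]
    exact Nat.find_min' hex ⟨r, hr, h, rfl⟩

/-- the product of the elements of a finite set -/
noncomputable def pr (S : Finset K[X]) : K[X] := ∏ P ∈ S, P

/-- a finite set of monic irreducible polynomials -/
def Ok (S : Finset K[X]) : Prop := ∀ P ∈ S, P.Monic ∧ Irreducible P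

theorem Ok.subset {S T : Finset K[X]} (hS : Ok S) (h : T ⊆ S) : Ok T := fun P hP => hS P (h hP)

theorem Ok.monic {S : Finset K[X]} (hS : Ok S) : (pr S).Monic :=
  monic_prod_of_monic _ _ fun P hP => (hS P hP).1

theorem pr_dvd {S T : Finset K[X]} (h : T ⊆ S) : pr T ∣ pr S :=
  Finset.prod_dvd_prod_of_subset _ _ _ h

theorem nf_pr {S : Finset K[X]} (hS : Ok S) : normalizedFactors (pr S) = S.val := by
  have h0 : (0 : K[X]) ∉ S.val := fun h => (hS 0 h).2.ne_zero rfl
  have h1 : pr S = S.val.prod := by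
    unfold pr
    rw [Finset.prod_eq_multiset_prod, Multiset.map_id']
  rw [h1, normalizedFactors_multiset_prod _ h0]
  have h2 : S.val.map normalizedFactors = S.val.map (fun P => ({P} : Multiset K[X])) := by
    refine Multiset.map_congr rfl fun P hP => ?_
    rw [normalizedFactors_irreducible (hS P hP).2, (hS P hP).1.normalize_eq_self]
  rw [h2, Multiset.sum_map_singleton]

theorem pr_inj {S T : Finset K[X]} (hS : Ok S) (hT : Ok T) (h : pr S = pr T) : S = T := by
  apply Finset.val_injective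
  rw [← nf_pr hS, ← nf_pr hT, h]

/-- the squarefree monic polynomials are the products -/
theorem eq_pr {E : K[X]} (hE : E.Monic) (hnd : (normalizedFactors E).Nodup) :
    pr (⟨normalizedFactors E, hnd⟩ : Finset K[X]) = E := by
  unfold pr
  rw [Finset.prod_eq_multiset_prod, Multiset.map_id']
  change (normalizedFactors E).prod = E
  rw [prod_normalizedFactors_eq hE.ne_zero, hE.normalize_eq_self]

theorem exists_of_dvd {S : Finset K[X]} (hS : Ok S) {E : K[X]} (hE : E.Monic) (h : E ∣ pr S) :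
    ∃ T ⊆ S, E = pr T := by
  have h1 : normalizedFactors E ≤ S.val := by
    rw [← nf_pr hS]
    exact (dvd_iff_normalizedFactors_le_normalizedFactors hE.ne_zero hS.monic.ne_zero).1 h
  have h2 : (normalizedFactors E).Nodup := Multiset.nodup_of_le h1 S.nodup
  exact ⟨⟨normalizedFactors E, h2⟩, Finset.val_le_iff.1 h1, (eq_pr hE h2).symm⟩

/-- The indicator function of the periods. -/
theorem ind_eq [CharP K 2] (hU : S_uniq) {d : ℕ} {χ : AddChar K[X] ℝ} {S : Finset K[X]}
    (hS : Ok S) (hd : 2 * (pr S).natDegree ≤ d) (c : ℝ) :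
    (if Per d χ (pr S) then c else 0) =
      ∑ T ∈ S.powerset, if MPer d χ (pr T) then c else 0 := by
  by_cases h : Per d χ (pr S)
  · obtain ⟨E, hE, hdeg⟩ := exists_mper hS.monic h
    have h1 : E ∣ pr S := hU K d χ E (pr S) hE hS.monic h (by omega)
    obtain ⟨T₀, hT₀, rfl⟩ := exists_of_dvd hS hE.1 h1
    have h2 : ∀ T ∈ S.powerset, (if MPer d χ (pr T) then c else 0) = if T = T₀ then c else 0 := by
      intro T hT
      rw [Finset.mem_powerset] at hT
      by_cases h3 : T = T₀
      · rw [if_pos h3, h3, if_pos hE]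
      · rw [if_neg h3, if_neg]
        intro h4
        apply h3
        apply pr_inj (hS.subset hT) (hS.subset hT₀)
        refine mper_eq hU h4 hE ?_
        have h5 := natDegree_le_of_dvd (pr_dvd hT) hS.monic.ne_zero
        omega
    rw [if_pos h, Finset.sum_congr rfl h2, Finset.sum_ite_eq', if_pos (Finset.mem_powerset.2 hT₀)]
  · rw [if_neg h]
    symm
    refine Finset.sum_eq_zero fun T hT => ?_
    rw [Finset.mem_powerset] at hT
    rw [if_neg]
    exact fun h1 => h (per_of_dvd h1.2.1 (pr_dvd hT))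

theorem pr_dvd_iff {S : Finset K[X]} (hS : Ok S) (b : K[X]) : pr S ∣ b ↔ ∀ P ∈ S, P ∣ b := by
  constructor
  · exact fun h P hP => (Finset.dvd_prod_of_mem _ hP).trans h
  · intro h
    refine Finset.prod_dvd_of_coprime ?_ h
    intro P hP Q hQ hne
    refine ((hS P hP).2.isCoprime_or_dvd Q).resolve_right ?_
    intro h1
    apply hne
    exact eq_of_monic_of_associated (hS P hP).1 (hS Q hQ).1
      ((hS P hP).2.associated_of_dvd (hS Q hQ).2 h1)

theorem g_eq {S : Finset K[X]} (hS : Ok S) (b : K[X]) (q : ℝ) :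
    (if pr S ∣ b then q ^ (pr S).natDegree else 0) =
      ∏ P ∈ S, if P ∣ b then q ^ P.natDegree else 0 := by
  by_cases h : ∀ P ∈ S, P ∣ b
  · rw [if_pos ((pr_dvd_iff hS b).2 h)]
    have h1 : (pr S).natDegree = ∑ P ∈ S, P.natDegree :=
      natDegree_prod_of_monic _ _ fun P hP => (hS P hP).1
    rw [h1, ← Finset.prod_pow_eq_pow_sum]
    exact Finset.prod_congr rfl fun P hP => (if_pos (h P hP)).symm
  · rw [if_neg fun h1 => h ((pr_dvd_iff hS b).1 h1)]
    push Not at h
    obtain ⟨P, hP, hPb⟩ := h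
    symm
    exact Finset.prod_eq_zero hP (if_neg hPb)

/-- The sums over the minimal periods. -/
theorem f_eq [Fintype K] [CharP K 2] (hP : S_per) (hU : S_uniq) {d : ℕ} {b : K[X]}
    (hb : b.degree < (d : WithBot ℕ)) (S : Finset K[X]) (hS : Ok S)
    (hd : 2 * (pr S).natDegree ≤ d) :
    ∑ H ∈ (Vs K d).filter (fun H => MPer d (ch d H) (pr S)), ch d H b =
      ∏ P ∈ S, (if P ∣ b then (Fintype.card K : ℝ) ^ P.natDegree - 1 else -1) := by
  induction S using Finset.strongInduction with
  | H S ih =>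
    have h1 : ∑ T ∈ S.powerset,
        ∑ H ∈ (Vs K d).filter (fun H => MPer d (ch d H) (pr T)), ch d H b =
        ∑ T ∈ S.powerset, ∏ P ∈ T,
          (if P ∣ b then (Fintype.card K : ℝ) ^ P.natDegree - 1 else -1) := by
      have h2 := hP K d (pr S) b hS.monic (by omega) hb
      rw [g_eq hS] at h2
      rw [← Finset.prod_add_one]
      have h3 : ∏ P ∈ S, ((if P ∣ b then (Fintype.card K : ℝ) ^ P.natDegree - 1 else -1) + 1) =
          ∏ P ∈ S, if P ∣ b then (Fintype.card K : ℝ) ^ P.natDegree else 0 := by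
        refine Finset.prod_congr rfl fun P _ => ?_
        split_ifs <;> ring
      rw [h3, ← h2, Finset.sum_filter]
      have h4 : ∀ H ∈ Vs K d, (if Per d (ch d H) (pr S) then ch d H b else 0) =
          ∑ T ∈ S.powerset, if MPer d (ch d H) (pr T) then ch d H b else 0 :=
        fun H _ => ind_eq hU hS hd _
      rw [Finset.sum_congr rfl h4, Finset.sum_comm]
      exact Finset.sum_congr rfl fun T _ => Finset.sum_filter _ _
    rw [← Finset.add_sum_erase _ _ (Finset.mem_powerset_self S),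
      ← Finset.add_sum_erase _ _ (Finset.mem_powerset_self S)] at h1
    have h5 : ∑ T ∈ S.powerset.erase S,
        ∑ H ∈ (Vs K d).filter (fun H => MPer d (ch d H) (pr T)), ch d H b =
        ∑ T ∈ S.powerset.erase S, ∏ P ∈ T,
          (if P ∣ b then (Fintype.card K : ℝ) ^ P.natDegree - 1 else -1) := by
      refine Finset.sum_congr rfl fun T hT => ?_
      rw [Finset.mem_erase, Finset.mem_powerset] at hT
      refine ih T (Finset.ssubset_iff_subset_ne.2 ⟨hT.2, hT.1⟩) (hS.subset hT.2) ?_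
      have h6 := natDegree_le_of_dvd (pr_dvd hT.2) hS.monic.ne_zero
      omega
    rw [h5] at h1
    exact add_right_cancel h1

/-- **Task RAM.** -/
theorem main : S_tram := by
  intro hP hU K _ _ _ d r b hr hsq hd hb
  have hnd : (normalizedFactors r).Nodup := (squarefree_iff_nodup_normalizedFactors hr.ne_zero).1 hsq
  set S : Finset K[X] := ⟨normalizedFactors r, hnd⟩ with hSdef
  have hmem : ∀ P : K[X], P ∈ S ↔ P ∈ PA r := by
    intro P
    change P ∈ normalizedFactors r ↔ P.Monic ∧ Irreducible P ∧ P ∣ r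
    rw [mem_normalizedFactors_iff' hr.ne_zero]
    constructor
    · rintro ⟨h1, h2, h3⟩
      refine ⟨?_, h1, h3⟩
      rw [← h2]
      exact monic_normalize h1.ne_zero
    · rintro ⟨h1, h2, h3⟩
      exact ⟨h2, h1.normalize_eq_self, h3⟩
  have hS : Ok S := fun P hP => ⟨((hmem P).1 hP).1, ((hmem P).1 hP).2.1⟩
  have hrS : pr S = r := eq_pr hr hnd
  have h1 := f_eq hP hU hb S hS (by rw [hrS]; exact hd)
  rw [hrS] at h1
  rw [h1]
  have h2 : PA r = (S : Set K[X]) := by
    ext P
    rw [Finset.mem_coe]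
    exact (hmem P).symm
  rw [h2, finprod_mem_coe_finset]

end Pool.Agent.H290.FX.PRam
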