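import Pool.Agent.H290.FX.StmC

/-!
# Task RANK: completion of the singular series (Rankin's trick)
-/

set_option autoImplicit false

open scoped Classical
open Finset Polynomial

namespace Pool.Agent.H290.FX.PRank

open Pool.Agent.H290.FX
open Pool.Agent.H985.KP (PA)
open Pool.Agent.H694.Typ (Mn PU Irn mem_Mn mem_PU mem_Irn sum_PU irn_one_le q_ge)

section alg
variable {K : Type} [Field K]

/-- a set of monic irreducible polynomials -/
def MI (S : Finset K[X]) : Prop := ∀ P ∈ S, P.Monic ∧ Irreducible P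

theorem coprime_of_ne {P Q : K[X]} (hP : P.Monic ∧ Irreducible P) (hQ : Q.Monic ∧ Irreducible Q)
    (h : P ≠ Q) : IsCoprime P Q := by
  rw [hP.2.coprime_iff_not_dvd]
  intro hd
  exact h (eq_of_monic_of_associated hP.1 hQ.1 (hP.2.associated_of_dvd hQ.2 hd))

theorem monic_prod {S : Finset K[X]} (hS : MI S) : (∏ P ∈ S, P).Monic :=
  monic_prod_of_monic _ _ fun P hP => (hS P hP).1

theorem natDegree_prod {S : Finset K[X]} (hS : MI S) :
    (∏ P ∈ S, P).natDegree = ∑ P ∈ S, P.natDegree :=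
  natDegree_prod_of_monic _ _ fun P hP => (hS P hP).1

theorem sqf_prod {S : Finset K[X]} (hS : MI S) : Squarefree (∏ P ∈ S, P) := by
  refine Finset.squarefree_prod_of_pairwise_isCoprime ?_ fun P hP => (hS P hP).2.squarefree
  intro P hP Q hQ h
  exact (coprime_of_ne (hS P hP) (hS Q hQ) h).isRelPrime

theorem PA_prod {S : Finset K[X]} (hS : MI S) : PA (∏ P ∈ S, P) = (S : Set K[X]) := by
  ext Q
  constructor
  · rintro ⟨h1, h2, h3⟩
    obtain ⟨P, hP, hd⟩ := (Prime.dvd_finsetProd_iff h2.prime _).1 h3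
    have := eq_of_monic_of_associated h1 (hS P hP).1 (h2.associated_of_dvd (hS P hP).2 hd)
    rw [this]; exact hP
  · intro hQ
    exact ⟨(hS Q hQ).1, (hS Q hQ).2, Finset.dvd_prod_of_mem _ hQ⟩

/-- the set of the monic prime divisors of a monic squarefree polynomial -/
theorem exists_set {r : K[X]} (hr : r.Monic) (hsq : Squarefree r) :
    ∃ S : Finset K[X], MI S ∧ ∏ P ∈ S, P = r := by
  set s := (UniqueFactorizationMonoid.normalizedFactors r).toFinset with hs
  have hnd : (UniqueFactorizationMonoid.normalizedFactors r).Nodup :=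
    (UniqueFactorizationMonoid.squarefree_iff_nodup_normalizedFactors hr.ne_zero).1 hsq
  have hmem : MI s := by
    intro P hP
    rw [hs, Multiset.mem_toFinset,
      UniqueFactorizationMonoid.mem_normalizedFactors_iff' hr.ne_zero] at hP
    obtain ⟨a, b, c⟩ := hP
    have hm : P.Monic := by
      rw [← b]
      exact monic_normalize a.ne_zero
    exact ⟨hm, a⟩
  refine ⟨s, hmem, ?_⟩
  have e1 : ∏ P ∈ s, P = (UniqueFactorizationMonoid.normalizedFactors r).prod := by
    rw [hs, Finset.prod, Multiset.toFinset_val, Multiset.dedup_eq_self.2 hnd, Multiset.map_id']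
  refine eq_of_monic_of_associated (monic_prod hmem) hr ?_
  rw [e1]
  exact UniqueFactorizationMonoid.prod_normalizedFactors hr.ne_zero

end alg

section sums
variable {K : Type} [Field K] [Fintype K]

theorem MI_of_subset {n : ℕ} {S : Finset K[X]} (hS : S ⊆ PU K n) : MI S := by
  intro P hP
  have := mem_PU.1 (hS hP)
  exact ⟨this.1, this.2.1⟩

/-- the sum over `Sq K t` as a sum over sets of primes -/
theorem sum_Sq (lam : K[X] → ℝ) {t n : ℕ} (htn : t ≤ n) :
    ∑ r ∈ Sq K t, ∏ᶠ P ∈ PA r, lam P =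
      ∑ S ∈ (PU K n).powerset.filter (fun S => ∑ P ∈ S, P.natDegree ≤ t), ∏ P ∈ S, lam P := by
  symm
  have hmem : ∀ r : K[X], r ∈ Sq K t ↔ r.Monic ∧ r.natDegree ≤ t ∧ Squarefree r := by
    intro r
    unfold Sq
    rw [mem_filter, mem_biUnion]
    constructor
    · rintro ⟨⟨j, hj, h⟩, hs⟩
      rw [mem_Mn] at h
      rw [mem_range] at hj
      exact ⟨h.1, by omega, hs⟩
    · rintro ⟨h1, h2, h3⟩
      exact ⟨⟨r.natDegree, mem_range.2 (by omega), mem_Mn.2 ⟨h1, rfl⟩⟩, h3⟩
  refine Finset.sum_bij (fun S _ => ∏ P ∈ S, P) ?_ ?_ ?_ ?_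
  · intro S hS
    rw [mem_filter, mem_powerset] at hS
    have hM := MI_of_subset hS.1
    rw [hmem]
    exact ⟨monic_prod hM, by rw [natDegree_prod hM]; exact hS.2, sqf_prod hM⟩
  · intro S hS T hT h
    rw [mem_filter, mem_powerset] at hS hT
    have h1 := PA_prod (MI_of_subset hS.1)
    have h2 := PA_prod (MI_of_subset hT.1)
    have h' : ∏ P ∈ S, P = ∏ P ∈ T, P := h
    rw [h', h2] at h1
    exact_mod_cast h1.symm
  · intro r hr
    rw [hmem] at hr
    obtain ⟨S, hM, hS⟩ := exists_set hr.1 hr.2.2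
    have hdeg : ∑ P ∈ S, P.natDegree ≤ t := by
      rw [← natDegree_prod hM, hS]; exact hr.2.1
    refine ⟨S, ?_, hS⟩
    rw [mem_filter, mem_powerset]
    refine ⟨fun P hP => ?_, hdeg⟩
    rw [mem_PU]
    refine ⟨(hM P hP).1, (hM P hP).2, ?_⟩
    have h5 : P.natDegree ≤ ∑ P ∈ S, P.natDegree :=
      Finset.single_le_sum (f := fun P : K[X] => P.natDegree) (fun _ _ => Nat.zero_le _) hP
    omega
  · intro S hS
    rw [mem_filter, mem_powerset] at hS
    rw [PA_prod (MI_of_subset hS.1), finprod_mem_coe_finset]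

/-- Rankin's trick -/
theorem rankin (lam : K[X] → ℝ) {t n : ℕ} (htn : t ≤ n) {w : ℝ} (hw : 1 ≤ w) :
    |∏ P ∈ PU K n, (1 + lam P) - ∑ r ∈ Sq K t, ∏ᶠ P ∈ PA r, lam P| ≤
      (w ^ t)⁻¹ * ∏ P ∈ PU K n, (1 + w ^ P.natDegree * |lam P|) := by
  have hw0 : 0 < w := by linarith
  rw [sum_Sq lam htn, Finset.prod_one_add, ← Finset.sum_filter_add_sum_filter_not
    (PU K n).powerset (fun S => ∑ P ∈ S, P.natDegree ≤ t) (fun S => ∏ P ∈ S, lam P),
    add_sub_cancel_left, Finset.prod_one_add, Finset.mul_sum]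
  refine (Finset.abs_sum_le_sum_abs _ _).trans ?_
  refine (Finset.sum_le_sum fun S hS => ?_).trans
    (Finset.sum_le_sum_of_subset_of_nonneg (Finset.filter_subset _ _) fun S _ _ => by positivity)
  rw [mem_filter] at hS
  rw [Finset.abs_prod, Finset.prod_mul_distrib, Finset.prod_pow_eq_pow_sum, ← mul_assoc]
  have h1 : w ^ t ≤ w ^ (∑ P ∈ S, P.natDegree) := pow_le_pow_right₀ hw (by omega)
  have h2 : 0 ≤ ∏ P ∈ S, |lam P| := Finset.prod_nonneg fun _ _ => abs_nonneg _
  have h3 : 0 < w ^ t := by positivity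
  have h4 : 1 ≤ (w ^ t)⁻¹ * w ^ (∑ P ∈ S, P.natDegree) := by
    rw [← div_eq_inv_mul, one_le_div h3]
    exact h1
  nlinarith

/-- the number of prime divisors of degree `> u` -/
theorem card_large {h : K[X]} (hh : h ≠ 0) {d : ℕ} (hd : h.natDegree ≤ d) (n u : ℕ) :
    (u + 1) * ((PU K n).filter (fun P => P ∣ h ∧ u < P.natDegree)).card ≤ d := by
  set A := (PU K n).filter (fun P => P ∣ h ∧ u < P.natDegree) with hA
  have hM : MI A := MI_of_subset (n := n) (Finset.filter_subset _ _)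
  have h1 : ∏ P ∈ A, P ∣ h := by
    refine Finset.prod_dvd_of_coprime ?_ ?_
    · intro P hP Q hQ hne
      exact coprime_of_ne (hM P hP) (hM Q hQ) hne
    · intro P hP
      rw [hA, mem_filter] at hP
      exact hP.2.1
  have h2 := (natDegree_le_of_dvd h1 hh).trans hd
  rw [natDegree_prod hM] at h2
  refine le_trans ?_ h2
  rw [mul_comm, ← smul_eq_mul]
  refine Finset.card_nsmul_le_sum _ _ _ fun P hP => ?_
  rw [hA, mem_filter] at hP
  exact hP.2.2

/-- the convergent sum -/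
theorem sum_conv {w : ℝ} (hw : 7 / 5 ≤ w) (hq : (Fintype.card K : ℝ) = w ^ 2) (n : ℕ) :
    ∑ P ∈ PU K n, 4 * ((w ^ P.natDegree) ^ 3)⁻¹ ≤ 10 := by
  have hw0 : 0 < w := by linarith
  rw [sum_PU]
  have h1 : ∀ j ∈ Finset.Icc 1 n, ∑ P ∈ Irn K j, 4 * ((w ^ P.natDegree) ^ 3)⁻¹ ≤
      4 * (5 / 7 : ℝ) ^ j := by
    intro j hj
    rw [mem_Icc] at hj
    rw [sum_congr rfl (fun P hP => by rw [(mem_Irn.1 hP).2.1]), sum_const, nsmul_eq_mul]
    have h2 : ((Irn K j).card : ℝ) ≤ (w ^ j) ^ 2 := by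
      have h3 : (j : ℝ) * (Irn K j).card ≤ (Fintype.card K : ℝ) ^ j := by
        exact_mod_cast irn_one_le (k := K) (d := j) (by omega)
      have h4 : (1 : ℝ) ≤ j := by exact_mod_cast hj.1
      have h5 : (0 : ℝ) ≤ (Irn K j).card := Nat.cast_nonneg _
      rw [hq, ← pow_mul, mul_comm 2 j, pow_mul] at h3
      nlinarith
    have hp : 0 < w ^ j := by positivity
    have h6 : (w ^ j)⁻¹ ≤ (5 / 7 : ℝ) ^ j := by
      rw [← inv_pow]
      refine pow_le_pow_left₀ (by positivity) ?_ j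
      rw [inv_le_comm₀ hw0 (by norm_num)]
      linarith
    calc ((Irn K j).card : ℝ) * (4 * ((w ^ j) ^ 3)⁻¹)
        ≤ (w ^ j) ^ 2 * (4 * ((w ^ j) ^ 3)⁻¹) := by
          apply mul_le_mul_of_nonneg_right h2; positivity
      _ = 4 * (w ^ j)⁻¹ := by field_simp
      _ ≤ _ := by linarith
  refine (sum_le_sum h1).trans ?_
  rw [← Finset.mul_sum]
  have h2 : ∀ m : ℕ, ∑ j ∈ Finset.Icc 1 m, (5 / 7 : ℝ) ^ j = 5 / 2 * (1 - (5 / 7) ^ m) := by
    intro m
    induction m with
    | zero => simp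
    | succ m ih => rw [Finset.sum_Icc_succ_top (by omega), ih, pow_succ]; ring
  rw [h2]
  have : (0 : ℝ) < (5 / 7) ^ n := by positivity
  linarith

end sums

theorem main : S_rank := by
  intro K _ _ ε hε
  have hq2 := q_ge (k := K)
  set q : ℝ := (Fintype.card K : ℝ) with hqdef
  set w : ℝ := Real.sqrt q with hw
  have hq0 : 0 < q := by linarith
  have hwq : q = w ^ 2 := (Real.sq_sqrt hq0.le).symm
  have hw75 : 7 / 5 ≤ w := by
    rw [hw]
    exact Real.le_sqrt_of_sq_le (by linarith [show (7 / 5 : ℝ) ^ 2 ≤ 2 by norm_num])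
  have hw0 : 0 < w := by linarith
  set u : ℕ := ⌈2 / ε⌉₊ with hu
  refine ⟨Real.exp 10 * 3 ^ (PU K u).card, by positivity, ?_⟩
  intro lam h d t n hh hd htn hlam
  refine (rankin lam htn (w := w) (by linarith)).trans ?_
  -- the product
  have hg : ∀ P ∈ PU K n, 1 + w ^ P.natDegree * |lam P| ≤
      (if P ∣ h then 3 else 1) * Real.exp (4 * ((w ^ P.natDegree) ^ 3)⁻¹) := by
    intro P hP
    rw [mem_PU] at hP
    have h1 := hlam P hP.1 hP.2.1
    have hj : 1 ≤ P.natDegree := hP.2.1.natDegree_pos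
    set x : ℝ := w ^ P.natDegree with hx
    have hqx : q ^ P.natDegree = x ^ 2 := by
      rw [hwq, hx, ← pow_mul, ← pow_mul, mul_comm]
    have hx75 : 7 / 5 ≤ x := by
      calc (7 / 5 : ℝ) ≤ w := hw75
        _ = w ^ 1 := (pow_one w).symm
        _ ≤ x := pow_le_pow_right₀ (by linarith) hj
    have hx2 : 2 ≤ x ^ 2 := by
      rw [← hqx]
      calc (2 : ℝ) ≤ q := hq2
        _ = q ^ 1 := (pow_one q).symm
        _ ≤ _ := pow_le_pow_right₀ (by linarith) hj
    rw [hqx] at h1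
    have hx0 : 0 < x := by linarith
    have hhalf : x ^ 2 / 2 ≤ x ^ 2 - 1 := by linarith
    split_ifs at h1 ⊢ with hd'
    · have h2 : |lam P| ≤ 2 / x ^ 2 := by
        refine h1.trans ?_
        rw [div_le_div_iff₀ (by linarith) (by positivity)]
        linarith
      have h3 : x * |lam P| ≤ 2 := by
        calc x * |lam P| ≤ x * (2 / x ^ 2) := mul_le_mul_of_nonneg_left h2 hx0.le
          _ = 2 / x := by field_simp
          _ ≤ 2 := by rw [div_le_iff₀ hx0]; linarith
      have h4 : 1 ≤ Real.exp (4 * (x ^ 3)⁻¹) := Real.one_le_exp (by positivity)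
      linarith
    · have h2 : |lam P| ≤ 4 / x ^ 4 := by
        refine h1.trans ?_
        rw [div_le_div_iff₀ (by nlinarith) (by positivity)]
        nlinarith
      have h3 : x * |lam P| ≤ 4 * (x ^ 3)⁻¹ := by
        calc x * |lam P| ≤ x * (4 / x ^ 4) := mul_le_mul_of_nonneg_left h2 hx0.le
          _ = 4 * (x ^ 3)⁻¹ := by field_simp
      have h4 := Real.add_one_le_exp (4 * (x ^ 3)⁻¹)
      rw [one_mul]
      linarith
  have hprod : ∏ P ∈ PU K n, (1 + w ^ P.natDegree * |lam P|) ≤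
      3 ^ ((PU K n).filter (fun P => P ∣ h)).card * Real.exp 10 := by
    refine (Finset.prod_le_prod (fun P _ => by positivity) hg).trans ?_
    rw [Finset.prod_mul_distrib, ← Real.exp_sum, ← Finset.prod_filter, Finset.prod_const]
    refine mul_le_mul_of_nonneg_left ?_ (by positivity)
    rw [Real.exp_le_exp]
    exact sum_conv hw75 hwq n
  -- the number of prime divisors
  have hcard : ((PU K n).filter (fun P => P ∣ h)).card ≤ (PU K u).card +
      ((PU K n).filter (fun P => P ∣ h ∧ u < P.natDegree)).card := by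
    refine (Finset.card_le_card ?_).trans (Finset.card_union_le _ _)
    intro P hP
    rw [mem_filter, mem_PU] at hP
    rw [mem_union, mem_filter, mem_PU, mem_PU]
    by_cases hu' : u < P.natDegree
    · exact Or.inr ⟨hP.1, hP.2, hu'⟩
    · exact Or.inl ⟨hP.1.1, hP.1.2.1, by omega⟩
  set m := ((PU K n).filter (fun P => P ∣ h ∧ u < P.natDegree)).card with hm
  have hlarge : (u + 1) * m ≤ d := card_large hh hd n u
  have h3m : (3 : ℝ) ^ m ≤ q ^ (ε * d) := by
    have e1 : (3 : ℝ) ^ m = Real.exp (m * Real.log 3) := by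
      rw [Real.exp_nat_mul, Real.exp_log (by norm_num)]
    rw [e1, Real.rpow_def_of_pos hq0, Real.exp_le_exp]
    have l3 : Real.log 3 ≤ 2 * Real.log 2 := by
      rw [← Real.log_rpow (by norm_num)]
      exact Real.log_le_log (by norm_num) (by norm_num)
    have l2 : Real.log 2 ≤ Real.log q := Real.log_le_log (by norm_num) hq2
    have l20 : 0 < Real.log 2 := Real.log_pos (by norm_num)
    have hm0 : (0 : ℝ) ≤ m := Nat.cast_nonneg _
    have h5 : (2 : ℝ) / ε ≤ u + 1 := by
      have := Nat.le_ceil (2 / ε)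
      rw [← hu] at this
      linarith
    have h6 : ((u : ℝ) + 1) * m ≤ d := by exact_mod_cast hlarge
    have h7 : 2 * (m : ℝ) ≤ ε * d := by
      have h8 : 2 / ε * m ≤ d := (mul_le_mul_of_nonneg_right h5 hm0).trans h6
      have h9 : ε * (2 / ε * m) ≤ ε * d := mul_le_mul_of_nonneg_left h8 hε.le
      have h10 : ε * (2 / ε * m) = 2 * m := by field_simp
      linarith
    calc (m : ℝ) * Real.log 3 ≤ m * (2 * Real.log q) :=
          mul_le_mul_of_nonneg_left (by linarith) hm0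
      _ = Real.log q * (2 * m) := by ring
      _ ≤ Real.log q * (ε * d) := mul_le_mul_of_nonneg_left h7 (by linarith)
  have hpow : q ^ (ε * d - (t : ℝ) / 2) = q ^ (ε * d) * (w ^ t)⁻¹ := by
    rw [Real.rpow_sub hq0, div_eq_mul_inv]
    congr 2
    rw [hw, Real.sqrt_eq_rpow, ← Real.rpow_natCast (q ^ (1 / 2 : ℝ)), ← Real.rpow_mul hq0.le]
    congr 1
    ring
  rw [hpow]
  have hwt : 0 < (w ^ t)⁻¹ := by positivity
  calc (w ^ t)⁻¹ * ∏ P ∈ PU K n, (1 + w ^ P.natDegree * |lam P|)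
      ≤ (w ^ t)⁻¹ * (3 ^ ((PU K n).filter (fun P => P ∣ h)).card * Real.exp 10) :=
        mul_le_mul_of_nonneg_left hprod hwt.le
    _ ≤ (w ^ t)⁻¹ * (3 ^ ((PU K u).card + m) * Real.exp 10) := by
        refine mul_le_mul_of_nonneg_left (mul_le_mul_of_nonneg_right ?_ (Real.exp_pos _).le) hwt.le
        exact pow_le_pow_right₀ (by norm_num) hcard
    _ = (Real.exp 10 * 3 ^ (PU K u).card) * (3 ^ m * (w ^ t)⁻¹) := by rw [pow_add]; ring
    _ ≤ (Real.exp 10 * 3 ^ (PU K u).card) * (q ^ (ε * d) * (w ^ t)⁻¹) := by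
        refine mul_le_mul_of_nonneg_left ?_ (by positivity)
        exact mul_le_mul_of_nonneg_right h3m hwt.le

end Pool.Agent.H290.FX.PRank
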