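import Pool.Agent.H290.FX.Stm

/-!
# The square root of `X` modulo `D` (task ROOT, helper297)
-/

set_option autoImplicit false

namespace Pool.Agent.H290.FX.PRoot

open Polynomial
open Pool.Agent.H290.FX

/-- squaring is surjective modulo a squarefree polynomial over a finite field of
characteristic two -/
theorem exists_root (K : Type) [Field K] [Fintype K] [CharP K 2] (D : K[X]) (hD : D.Monic)
    (hs : Squarefree D) : ∃ r : K[X], D ∣ r ^ 2 + X ∧ r.degree < D.degree := by
  classical
  -- polynomials of degree less than `natDegree D`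
  set n := D.natDegree with hn
  have hdeg : ∀ p : K[X], p ∈ Polynomial.degreeLT K n ↔ p.degree < D.degree := by
    intro p
    rw [Polynomial.mem_degreeLT, hn, Polynomial.degree_eq_natDegree hD.ne_zero]
  have hfin : Finite (Polynomial.degreeLT K n) :=
    Finite.of_equiv _ (Polynomial.degreeLTEquiv K n).symm.toEquiv
  let F : Polynomial.degreeLT K n → Polynomial.degreeLT K n := fun p =>
    ⟨((p : K[X]) ^ 2) %ₘ D, (hdeg _).2 (Polynomial.degree_modByMonic_lt _ hD)⟩
  have hF : Function.Injective F := by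
    intro p q hpq
    have h1 : ((p : K[X]) ^ 2) %ₘ D = ((q : K[X]) ^ 2) %ₘ D := congrArg Subtype.val hpq
    have h2 : D ∣ (p : K[X]) ^ 2 - (q : K[X]) ^ 2 := by
      rw [← Polynomial.modByMonic_eq_zero_iff_dvd hD, Polynomial.sub_modByMonic, h1, sub_self]
    have h3 : (p : K[X]) ^ 2 - (q : K[X]) ^ 2 = ((p : K[X]) - q) ^ 2 := by
      rw [CharTwo.sub_eq_add, CharTwo.sub_eq_add, CharTwo.add_sq]
    rw [h3] at h2
    have h4 : D ∣ (p : K[X]) - q := hs.isRadical 2 _ h2
    have h5 : ((p : K[X]) - q).degree < D.degree :=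
      lt_of_le_of_lt (Polynomial.degree_sub_le _ _) (max_lt ((hdeg _).1 p.2) ((hdeg _).1 q.2))
    have h6 : (p : K[X]) - q = 0 := Polynomial.eq_zero_of_dvd_of_degree_lt h4 h5
    exact Subtype.ext (sub_eq_zero.1 h6)
  have hsurj : Function.Surjective F := Finite.surjective_of_injective hF
  obtain ⟨r, hr⟩ := hsurj ⟨X %ₘ D, (hdeg _).2 (Polynomial.degree_modByMonic_lt _ hD)⟩
  refine ⟨r, ?_, (hdeg _).1 r.2⟩
  have h1 : ((r : K[X]) ^ 2) %ₘ D = X %ₘ D := congrArg Subtype.val hr
  have h2 : D ∣ (r : K[X]) ^ 2 - X := by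
    rw [← Polynomial.modByMonic_eq_zero_iff_dvd hD, Polynomial.sub_modByMonic, h1, sub_self]
  have h3 : (r : K[X]) ^ 2 + X = (r : K[X]) ^ 2 - X := by
    rw [CharTwo.sub_eq_add]
  rw [h3]
  exact h2

/-- the derivative of `a ^ 2 + X` is one -/
theorem squarefree_of_dvd (K : Type) [Field K] [CharP K 2] (D a : K[X]) (h : D ∣ a ^ 2 + X) :
    Squarefree D := by
  intro p hp
  have h1 : p * p ∣ a ^ 2 + X := hp.trans h
  obtain ⟨c, hc⟩ := h1
  have h2 : derivative (a ^ 2 + X) = 1 := by
    rw [derivative_add, derivative_X, derivative_pow]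
    have : ((2 : ℕ) : K) = 0 := CharP.cast_eq_zero K 2
    rw [this]
    simp
  have h3 : derivative (a ^ 2 + X) = p * (2 * derivative p * c + p * derivative c) := by
    rw [hc, derivative_mul, derivative_mul]
    ring
  exact isUnit_of_dvd_one ⟨_, h2.symm.trans h3⟩

theorem main : S_root := by
  intro K _ _ _ D hD
  have key : Squarefree D → D ∣ rt D ^ 2 + X ∧ (rt D).degree < D.degree := by
    intro hs
    have h := exists_root K D hD hs
    unfold rt
    rw [dif_pos h]
    exact h.choose_spec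
  refine ⟨key, fun a ha => ?_⟩
  have hs := squarefree_of_dvd K D a ha
  refine ⟨hs, ?_⟩
  have h1 := (key hs).1
  have h2 : D ∣ (a ^ 2 + X) - (rt D ^ 2 + X) := dvd_sub ha h1
  have h3 : (a ^ 2 + X) - (rt D ^ 2 + X) = (a - rt D) ^ 2 := by
    rw [add_sub_add_right_eq_sub, CharTwo.sub_eq_add, CharTwo.sub_eq_add, CharTwo.add_sq]
  rw [h3] at h2
  exact hs.isRadical 2 _ h2

end Pool.Agent.H290.FX.PRoot
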