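import Pool.Agent.H290.FX.StmC

/-!
# Sums of three (helper627, for helper290): task TER
-/

namespace Pool.Agent.H290.FX.PTer

open Polynomial
open scoped Classical
open Pool.Agent.H985.Chow (mob)
open Pool.Agent.H985.KP (sg PA)
open Pool.Agent.H694.Typ (Mn PU mem_Mn mem_PU)
open Pool.Agent.H604.LD (PiM)

/-- the factors of the singular series -/
noncomputable def lam (K : Type) [Field K] [Fintype K] (b P : K[X]) : ℝ :=
  if P ∣ b ^ 2 + X then -1 / ((Fintype.card K : ℝ) ^ P.natDegree - 1) ^ 2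
    else 1 / ((Fintype.card K : ℝ) ^ P.natDegree - 1) ^ 3

section

variable {K : Type} [Field K] [Fintype K]

theorem two_le_card : (2 : ℝ) ≤ Fintype.card K := by
  exact_mod_cast Fintype.one_lt_card

theorem natDegree_pos_of {P : K[X]} (hP : Irreducible P) : 1 ≤ P.natDegree :=
  hP.natDegree_pos

theorem two_le_N {P : K[X]} (hP : Irreducible P) :
    (2 : ℝ) ≤ (Fintype.card K : ℝ) ^ P.natDegree := by
  have h1 := natDegree_pos_of hP
  have h2 : (2 : ℝ) ≤ Fintype.card K := two_le_card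
  calc (2 : ℝ) ≤ (Fintype.card K : ℝ) ^ 1 := by rwa [pow_one]
    _ ≤ _ := pow_le_pow_right₀ (by linarith) h1

theorem abs_lam_le (b : K[X]) {P : K[X]} (hP : Irreducible P) :
    |lam K b P| ≤ 1 / ((Fintype.card K : ℝ) ^ P.natDegree - 1) ^ 2 := by
  have h1 : (1 : ℝ) ≤ (Fintype.card K : ℝ) ^ P.natDegree - 1 := by
    linarith [two_le_N hP]
  unfold lam
  split_ifs with h
  · rw [abs_div, abs_neg, abs_one, abs_of_pos (by positivity)]
  · rw [abs_of_pos (by positivity)]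
    exact one_div_le_one_div_of_le (by positivity) (pow_le_pow_right₀ h1 (by norm_num))

theorem one_add_lam (b P : K[X]) : 1 + lam K b P =
    if P ∣ b ^ 2 + X then 1 - 1 / ((Fintype.card K : ℝ) ^ P.natDegree - 1) ^ 2
        else 1 + 1 / ((Fintype.card K : ℝ) ^ P.natDegree - 1) ^ 3 := by
  unfold lam
  split_ifs with h
  · ring
  · rfl

theorem half_le (b : K[X]) (hb : Fintype.card K = 2 → b.eval 0 = 1 ∧ b.eval 1 = 0) (P : K[X])
    (hPm : P.Monic) (hP : Irreducible P) : 1 / 2 ≤ 1 + lam K b P := by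
  have h1 : (1 : ℝ) ≤ (Fintype.card K : ℝ) ^ P.natDegree - 1 := by
    linarith [two_le_N hP]
  rw [one_add_lam]
  split_ifs with h
  swap
  · have h2 : (0 : ℝ) < 1 / ((Fintype.card K : ℝ) ^ P.natDegree - 1) ^ 3 := by positivity
    linarith
  · have h3 : (3 : ℝ) ≤ (Fintype.card K : ℝ) ^ P.natDegree := by
      have hd := natDegree_pos_of hP
      by_cases hq : Fintype.card K = 2
      · by_cases hd1 : P.natDegree = 1
        · exfalso
          obtain ⟨b0, b1⟩ := hb hq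
          -- the root of `P`
          obtain ⟨x, hx⟩ : ∃ x : K, P = X - C x := by
            refine ⟨-P.coeff 0, ?_⟩
            have h4 := hPm.as_sum
            rw [hd1, Finset.sum_range_one, pow_zero, mul_one, pow_one] at h4
            rw [C_neg, sub_neg_eq_add]
            exact h4
          rw [hx, dvd_iff_isRoot, IsRoot.def, eval_add, eval_pow, eval_X] at h
          have hx01 : x = 0 ∨ x = 1 := by
            have hc : (Finset.univ : Finset K) = {0, 1} := by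
              symm
              apply Finset.eq_univ_of_card
              rw [hq, Finset.card_pair zero_ne_one]
            have h5 : x ∈ (Finset.univ : Finset K) := Finset.mem_univ x
            rw [hc] at h5
            simpa using h5
          rcases hx01 with rfl | rfl
          · rw [b0] at h
            simp at h
          · rw [b1] at h
            simp at h
        · have h4 : 2 ≤ P.natDegree := by omega
          rw [hq]
          calc (3 : ℝ) ≤ ((2 : ℕ) : ℝ) ^ 2 := by norm_num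
            _ ≤ _ := pow_le_pow_right₀ (by norm_num) h4
      · have h4 : 3 ≤ Fintype.card K := by
          have := Fintype.one_lt_card (α := K)
          omega
        have h5 : (3 : ℝ) ≤ Fintype.card K := by exact_mod_cast h4
        calc (3 : ℝ) ≤ (Fintype.card K : ℝ) ^ 1 := by rwa [pow_one]
          _ ≤ _ := pow_le_pow_right₀ (by linarith) hd
    have h4 : (2 : ℝ) ≤ (Fintype.card K : ℝ) ^ P.natDegree - 1 := by linarith
    have h5 : 1 / ((Fintype.card K : ℝ) ^ P.natDegree - 1) ^ 2 ≤ 1 / 2 := by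
      apply one_div_le_one_div_of_le (by norm_num)
      nlinarith
    linarith

end

section

variable {K : Type} [Field K] [Fintype K] [CharP K 2]

theorem deg_add {d : ℕ} {f g : K[X]} (hf : f.Monic) (hfd : f.natDegree = d) (hg : g.Monic)
    (hgd : g.natDegree = d) : (f + g).degree < (d : WithBot ℕ) := by
  rw [← CharTwo.sub_eq_add]
  have h1 : f.degree = g.degree := by
    rw [degree_eq_natDegree hf.ne_zero, degree_eq_natDegree hg.ne_zero, hfd, hgd]
  have h2 := degree_sub_lt_left h1 hf.ne_zero (by rw [hf.leadingCoeff, hg.leadingCoeff])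
  rwa [degree_eq_natDegree hf.ne_zero, hfd] at h2

theorem count (hO : S_orth) (d : ℕ) (b : K[X]) (hb : b.Monic) (hbd : b.natDegree = d) :
    ∑ H ∈ Vs K d, ch d H b * (SX K d (ch d H)) ^ 3 = (Fintype.card K : ℝ) ^ d *
      (((Mn K d ×ˢ Mn K d ×ˢ Mn K d).filter (fun a => a.1 + a.2.1 + a.2.2 = b ∧
          Irreducible (a.1 ^ 2 + X) ∧ Irreducible (a.2.1 ^ 2 + X) ∧
          Irreducible (a.2.2 ^ 2 + X))).card : ℝ) := by
  set F : Finset K[X] := (Mn K d).filter (fun a => Irreducible (a ^ 2 + X)) with hF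
  have h1 : ∀ H : K[X], ch d H b * (SX K d (ch d H)) ^ 3 =
      ∑ a ∈ F ×ˢ F ×ˢ F, ch d H (b + (a.1 + a.2.1 + a.2.2)) := by
    intro H
    unfold SX
    rw [← hF, pow_succ, pow_two, mul_assoc, Finset.sum_mul_sum, ← Finset.sum_product',
      Finset.sum_mul_sum, ← Finset.sum_product', Finset.mul_sum]
    refine Finset.sum_congr rfl fun a _ => ?_
    rw [AddChar.map_add_eq_mul, AddChar.map_add_eq_mul, AddChar.map_add_eq_mul]
    ring
  rw [Finset.sum_congr rfl fun H _ => h1 H, Finset.sum_comm]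
  have h2 : ∀ a ∈ F ×ˢ F ×ˢ F, ∑ H ∈ Vs K d, ch d H (b + (a.1 + a.2.1 + a.2.2)) =
      if a.1 + a.2.1 + a.2.2 = b then (Fintype.card K : ℝ) ^ d else 0 := by
    intro a ha
    rw [Finset.mem_product, Finset.mem_product, hF, Finset.mem_filter, Finset.mem_filter,
      Finset.mem_filter, mem_Mn, mem_Mn, mem_Mn] at ha
    obtain ⟨⟨⟨a1, a1'⟩, -⟩, ⟨⟨a2, a2'⟩, -⟩, ⟨⟨a3, a3'⟩, -⟩⟩ := ha
    rw [hO K d]
    · refine if_congr ?_ rfl rfl
      rw [CharTwo.add_eq_zero]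
      exact eq_comm
    · have e1 : b + (a.1 + a.2.1 + a.2.2) = (b + a.1) + (a.2.1 + a.2.2) := by ring
      rw [e1]
      exact (degree_add_le _ _).trans_lt (max_lt (deg_add hb hbd a1 a1') (deg_add a2 a2' a3 a3'))
  rw [Finset.sum_congr rfl h2, ← Finset.sum_filter, Finset.sum_const, nsmul_eq_mul, mul_comm]
  congr 3
  ext a
  simp only [hF, Finset.mem_filter, Finset.mem_product]
  tauto

theorem cube_sub (x y : ℝ) : |x ^ 3 - y ^ 3| ≤ |x - y| * (3 / 2 * (x ^ 2 + y ^ 2)) := by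
  have h1 : x ^ 3 - y ^ 3 = (x - y) * (x ^ 2 + x * y + y ^ 2) := by ring
  rw [h1, abs_mul]
  refine mul_le_mul_of_nonneg_left ?_ (abs_nonneg _)
  rw [abs_le]
  constructor
  · nlinarith [sq_nonneg (x + y)]
  · nlinarith [sq_nonneg (x - y)]

/-- the error term -/
theorem err {d t : ℕ} (b : K[X]) {E : ℝ}
    (hE : ∀ H ∈ Vs K d, |2 * (d : ℝ) * SX K d (ch d H) - MT K d t (ch d H)| ≤ E)
    (h1 : ∑ H ∈ Vs K d, (2 * (d : ℝ) * SX K d (ch d H)) ^ 2 ≤
      4 * (d : ℝ) ^ 2 * (Fintype.card K : ℝ) ^ (2 * d))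
    (h2 : ∑ H ∈ Vs K d, (MT K d t (ch d H)) ^ 2 ≤
      16 * (d : ℝ) ^ 2 * (Fintype.card K : ℝ) ^ (2 * d)) :
    |∑ H ∈ Vs K d, ch d H b * (2 * (d : ℝ) * SX K d (ch d H)) ^ 3 -
      ∑ H ∈ Vs K d, ch d H b * (MT K d t (ch d H)) ^ 3| ≤
      E * (30 * (d : ℝ) ^ 2 * (Fintype.card K : ℝ) ^ (2 * d)) := by
  have hE0 : 0 ≤ E := by
    have h0 : (0 : K[X]) ∈ Vs K d := by
      rw [mem_Vs, degree_zero]
      exact WithBot.bot_lt_coe _
    exact (abs_nonneg _).trans (hE 0 h0)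
  rw [← Finset.sum_sub_distrib]
  calc |∑ H ∈ Vs K d, (ch d H b * (2 * (d : ℝ) * SX K d (ch d H)) ^ 3 -
        ch d H b * (MT K d t (ch d H)) ^ 3)|
      ≤ ∑ H ∈ Vs K d, |ch d H b * (2 * (d : ℝ) * SX K d (ch d H)) ^ 3 -
        ch d H b * (MT K d t (ch d H)) ^ 3| := Finset.abs_sum_le_sum_abs _ _
    _ ≤ ∑ H ∈ Vs K d, E * (3 / 2 * ((2 * (d : ℝ) * SX K d (ch d H)) ^ 2 +
        (MT K d t (ch d H)) ^ 2)) := by
        refine Finset.sum_le_sum fun H hH => ?_
        rw [← mul_sub, abs_mul]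
        have h3 : |ch d H b| = 1 := by
          rcases chi_pm (ch d H) b with h | h <;> rw [h] <;> simp
        rw [h3, one_mul]
        refine (cube_sub _ _).trans ?_
        exact mul_le_mul_of_nonneg_right (hE H hH) (by positivity)
    _ = E * (3 / 2 * (∑ H ∈ Vs K d, (2 * (d : ℝ) * SX K d (ch d H)) ^ 2 +
        ∑ H ∈ Vs K d, (MT K d t (ch d H)) ^ 2)) := by
        rw [← Finset.mul_sum, ← Finset.mul_sum, Finset.sum_add_distrib]
    _ ≤ _ := by
        refine mul_le_mul_of_nonneg_left ?_ hE0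
        linarith

end

/-- **Task TER.** -/
theorem main : S_tter := by
  intro hO h4 hl2 hmt hrank hconv K _ _ _
  set q : ℝ := (Fintype.card K : ℝ) with hq
  have hq2 : (2 : ℝ) ≤ q := two_le_card
  have hq0 : (0 : ℝ) < q := by linarith
  obtain ⟨c4, θ, hc4, hθ, hθ4, d4, h4⟩ := h4 K
  obtain ⟨c0, hc0, hconv⟩ := hconv K (1 / 2) (by norm_num)
  obtain ⟨C, hC, hrank⟩ := hrank K (θ / 4) (by positivity)
  -- the singular series
  have hS : ∀ b : K[X], ∃ L : ℝ, Filter.Tendsto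
      (fun n : ℕ => ∏ P ∈ PU K n, (1 + lam K b P)) Filter.atTop (nhds L) ∧
        ((∀ P : K[X], P.Monic → Irreducible P → 1 / 2 ≤ 1 + lam K b P) → c0 ≤ L) := by
    intro b
    refine hconv (lam K b) 1 one_ne_zero ?_ ?_
    · intro P _ hP h
      exact absurd (isUnit_of_dvd_one h) hP.not_isUnit
    · intro P _ hP _
      exact abs_lam_le b hP
  choose S hS1 hS2 using hS
  set c : ℝ := min c4 (θ / 4) / 2 with hc
  have hcpos : 0 < c := by
    have : 0 < min c4 (θ / 4) := lt_min hc4 (by positivity)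
    positivity
  have hc1 : 2 * c ≤ c4 := by
    have := min_le_left c4 (θ / 4)
    linarith
  have hc2 : 2 * c ≤ θ / 4 := by
    have := min_le_right c4 (θ / 4)
    linarith
  refine ⟨c, c0, S, hcpos, hc0, ?_, ?_⟩
  · intro b
    refine ⟨?_, ?_⟩
    · refine (hS1 b).congr fun n => ?_
      exact Finset.prod_congr rfl fun P _ => one_add_lam b P
    · intro hb
      exact hS2 b fun P hPm hP => half_le b hb P hPm hP
  -- a large lower bound for the degree
  obtain ⟨d5, hd5⟩ : ∃ d5 : ℕ, ∀ d : ℕ, d5 ≤ d →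
      30 + C * q ^ (1 / 2 : ℝ) ≤ 8 * q ^ (c * (d : ℝ)) := by
    have h1 : 1 < q ^ c := Real.one_lt_rpow (by linarith) hcpos
    have h2 := tendsto_pow_atTop_atTop_of_one_lt h1
    obtain ⟨d5, hd5⟩ := Filter.eventually_atTop.1
      (h2.eventually_ge_atTop ((30 + C * q ^ (1 / 2 : ℝ)) / 8))
    refine ⟨d5, fun d hd => ?_⟩
    have h3 := hd5 d hd
    rw [Real.rpow_mul hq0.le, Real.rpow_natCast]
    linarith
  refine ⟨max (max d4 d5) 1, ?_⟩
  intro d b hd hb hbd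
  have hd4 : d4 ≤ d := le_trans (le_trans (le_max_left _ _) (le_max_left _ _)) hd
  have hd5' : d5 ≤ d := le_trans (le_trans (le_max_right _ _) (le_max_left _ _)) hd
  have hd1 : 1 ≤ d := le_trans (le_max_right _ _) hd
  have hd1r : (1 : ℝ) ≤ d := by exact_mod_cast hd1
  set t : ℕ := ⌊θ * d⌋₊ with ht
  have ht1 : (t : ℝ) ≤ θ * d := Nat.floor_le (by positivity)
  have ht2 : θ * d < t + 1 := Nat.lt_floor_add_one _
  have h2t : 2 * t ≤ d := by
    have h1 : (2 : ℝ) * t ≤ d := by nlinarith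
    exact_mod_cast h1
  -- the sums
  obtain ⟨s1, s2⟩ := hl2 K θ d4 hθ hθ4 (fun d t χ hd ht h => (h4 d t χ hd ht).2 h) d t hd4 hd1 ht
  have he := err (d := d) (t := t) b (E := q ^ ((1 - c4) * d))
    (fun H _ => (h4 d t (ch d H) hd4 ht).1) s1 s2
  have hm := hmt K d t b h2t hb hbd
  have hcnt := count hO d b hb hbd
  set N : ℝ := (((Mn K d ×ˢ Mn K d ×ˢ Mn K d).filter (fun a => a.1 + a.2.1 + a.2.2 = b ∧
          Irreducible (a.1 ^ 2 + X) ∧ Irreducible (a.2.1 ^ 2 + X) ∧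
          Irreducible (a.2.2 ^ 2 + X))).card : ℝ) with hN
  set T : ℝ := ∑ r ∈ Sq K t, ∏ᶠ P ∈ PA r, lam K b P with hT
  have hm' : ∑ H ∈ Vs K d, ch d H b * (MT K d t (ch d H)) ^ 3 = q ^ (3 * d) * T := hm
  have hx : ∑ H ∈ Vs K d, ch d H b * (2 * (d : ℝ) * SX K d (ch d H)) ^ 3 =
      (2 * (d : ℝ)) ^ 3 * (q ^ d * N) := by
    rw [← hcnt, Finset.mul_sum]
    refine Finset.sum_congr rfl fun H _ => ?_
    ring
  rw [hx, hm'] at he
  -- the singular series
  have hTS : |S b - T| ≤ C * q ^ (θ / 4 * d - (t : ℝ) / 2) := by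
    have h1 : ∀ᶠ n : ℕ in Filter.atTop, |∏ P ∈ PU K n, (1 + lam K b P) - T| ≤
        C * q ^ (θ / 4 * d - (t : ℝ) / 2) := by
      filter_upwards [Filter.eventually_ge_atTop t] with n hn
      refine hrank (lam K b) 1 d t n one_ne_zero (by rw [natDegree_one]; omega) hn ?_
      intro P _ hP
      rw [if_neg]
      · exact abs_lam_le b hP
      · intro h
        exact absurd (isUnit_of_dvd_one h) hP.not_isUnit
    exact le_of_tendsto (((hS1 b).sub_const T).abs) h1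
  -- conclusion
  have e1 : q ^ (3 * d) = q ^ (3 * (d : ℝ)) := by
    rw [← Real.rpow_natCast]
    push_cast
    rfl
  have e2 : q ^ (2 * d) = q ^ (2 * (d : ℝ)) := by
    rw [← Real.rpow_natCast]
    push_cast
    rfl
  have e3 : q ^ d = q ^ (d : ℝ) := by rw [Real.rpow_natCast]
  have g1 : q ^ ((1 - c4) * d) * q ^ (2 * d) ≤ q ^ ((3 - 2 * c) * (d : ℝ)) := by
    rw [e2, ← Real.rpow_add hq0]
    apply Real.rpow_le_rpow_of_exponent_le (by linarith)
    nlinarith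
  have g2 : q ^ (3 * d) * q ^ (θ / 4 * d - (t : ℝ) / 2) ≤
      q ^ (1 / 2 : ℝ) * q ^ ((3 - 2 * c) * (d : ℝ)) := by
    rw [e1, ← Real.rpow_add hq0, ← Real.rpow_add hq0]
    apply Real.rpow_le_rpow_of_exponent_le (by linarith)
    nlinarith
  have g3 : |(2 * (d : ℝ)) ^ 3 * (q ^ d * N) - q ^ (3 * d) * S b| ≤
      (30 * (d : ℝ) ^ 2 + C * q ^ (1 / 2 : ℝ)) * q ^ ((3 - 2 * c) * (d : ℝ)) := by
    have e4 : (2 * (d : ℝ)) ^ 3 * (q ^ d * N) - q ^ (3 * d) * S b =
        ((2 * (d : ℝ)) ^ 3 * (q ^ d * N) - q ^ (3 * d) * T) - q ^ (3 * d) * (S b - T) := by ring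
    rw [e4]
    have h3 : |q ^ (3 * d) * (S b - T)| ≤ C * (q ^ (1 / 2 : ℝ) * q ^ ((3 - 2 * c) * (d : ℝ))) := by
      rw [abs_mul, abs_of_pos (by positivity)]
      calc q ^ (3 * d) * |S b - T| ≤ q ^ (3 * d) * (C * q ^ (θ / 4 * d - (t : ℝ) / 2)) := by
            gcongr
        _ = C * (q ^ (3 * d) * q ^ (θ / 4 * d - (t : ℝ) / 2)) := by ring
        _ ≤ _ := by gcongr
    have h4' : q ^ ((1 - c4) * d) * (30 * (d : ℝ) ^ 2 * q ^ (2 * d)) ≤
        30 * (d : ℝ) ^ 2 * q ^ ((3 - 2 * c) * (d : ℝ)) := by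
      calc q ^ ((1 - c4) * d) * (30 * (d : ℝ) ^ 2 * q ^ (2 * d)) =
          30 * (d : ℝ) ^ 2 * (q ^ ((1 - c4) * d) * q ^ (2 * d)) := by ring
        _ ≤ _ := by gcongr
    calc _ ≤ |(2 * (d : ℝ)) ^ 3 * (q ^ d * N) - q ^ (3 * d) * T| + |q ^ (3 * d) * (S b - T)| :=
          abs_sub _ _
      _ ≤ 30 * (d : ℝ) ^ 2 * q ^ ((3 - 2 * c) * (d : ℝ)) +
          C * (q ^ (1 / 2 : ℝ) * q ^ ((3 - 2 * c) * (d : ℝ))) := add_le_add (he.trans h4') h3
      _ = _ := by ring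
  have g4 : (30 * (d : ℝ) ^ 2 + C * q ^ (1 / 2 : ℝ)) * q ^ ((3 - 2 * c) * (d : ℝ)) ≤
      (2 * (d : ℝ)) ^ 3 * q ^ d * q ^ ((2 - c) * (d : ℝ)) := by
    have h1 : 30 * (d : ℝ) ^ 2 + C * q ^ (1 / 2 : ℝ) ≤ (d : ℝ) ^ 3 * (8 * q ^ (c * (d : ℝ))) := by
      have h2 := hd5 d hd5'
      have h3 : (d : ℝ) ^ 2 ≤ (d : ℝ) ^ 3 := pow_le_pow_right₀ hd1r (by norm_num)
      have h4 : (1 : ℝ) ≤ (d : ℝ) ^ 3 := one_le_pow₀ hd1r
      have h5 : 0 ≤ C * q ^ (1 / 2 : ℝ) := by positivity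
      calc 30 * (d : ℝ) ^ 2 + C * q ^ (1 / 2 : ℝ) ≤
          30 * (d : ℝ) ^ 3 + (d : ℝ) ^ 3 * (C * q ^ (1 / 2 : ℝ)) := by nlinarith
        _ = (d : ℝ) ^ 3 * (30 + C * q ^ (1 / 2 : ℝ)) := by ring
        _ ≤ _ := by gcongr
    calc _ ≤ (d : ℝ) ^ 3 * (8 * q ^ (c * (d : ℝ))) * q ^ ((3 - 2 * c) * (d : ℝ)) := by gcongr
      _ = 8 * (d : ℝ) ^ 3 * (q ^ (c * (d : ℝ)) * q ^ ((3 - 2 * c) * (d : ℝ))) := by ring
      _ = 8 * (d : ℝ) ^ 3 * (q ^ (d : ℝ) * q ^ ((2 - c) * (d : ℝ))) := by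
          rw [← Real.rpow_add hq0, ← Real.rpow_add hq0]
          congr 2
          ring
      _ = _ := by
          rw [e3]
          ring
  have hD : 0 < (2 * (d : ℝ)) ^ 3 * q ^ d := by positivity
  have g5 : N - S b * q ^ (2 * d) / (2 * (d : ℝ)) ^ 3 =
      ((2 * (d : ℝ)) ^ 3 * (q ^ d * N) - q ^ (3 * d) * S b) / ((2 * (d : ℝ)) ^ 3 * q ^ d) := by
    have h1 : q ^ (3 * d) = q ^ d * q ^ (2 * d) := by
      rw [← pow_add]
      congr 1
      ring
    rw [h1]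
    field_simp
  rw [g5, abs_div, abs_of_pos hD, div_le_iff₀ hD]
  calc _ ≤ _ := g3
    _ ≤ _ := g4
    _ = _ := by ring

end Pool.Agent.H290.FX.PTer
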