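import Pool.Agent.H290.FX.StmC

/-!
# Task UNIQ: the minimal period divides the other periods
-/

namespace Pool.Agent.H290.FX.PUniq

open Polynomial
open scoped Classical

/-- the greatest common divisor of two periods is a period -/
theorem per_gcd {K : Type} [Field K] {d : ℕ} {χ : AddChar K[X] ℝ} {r r' g a b r₁ : K[X]}
    (hr : r.Monic) (hP : Per d χ r) (hP' : Per d χ r') (hr' : r'.Monic)
    (hd : r.natDegree + r'.natDegree ≤ d) (hg : g.Monic) (hgr : g ∣ r) (hr₁ : r' = g * r₁)
    (hab : g = r * a + r' * b) : Per d χ g := by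
  intro s hs
  have hr0 : r ≠ 0 := hr.ne_zero
  have hr'0 : r' ≠ 0 := hr'.ne_zero
  have hr₁m : r₁.Monic := by
    refine hg.of_mul_monic_left ?_
    rw [← hr₁]
    exact hr'
  -- the remainder
  set w : K[X] := (g * s) %ₘ r with hw
  set k : K[X] := (g * s) /ₘ r with hk
  have hdiv : w + r * k = g * s := modByMonic_add_div (g * s) r
  have hwdeg : w.degree < r.degree := degree_modByMonic_lt _ hr
  have hrd : r.degree ≤ (d : WithBot ℕ) := by
    rw [degree_eq_natDegree hr0]
    exact_mod_cast (Nat.le_add_right _ _).trans hd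
  have hwd : w.degree < (d : WithBot ℕ) := hwdeg.trans_le hrd
  have hgw : g ∣ w := by
    have h1 : w = g * s - r * k := by rw [← hdiv]; ring
    rw [h1]
    exact dvd_sub (dvd_mul_right _ _) (hgr.mul_right _)
  obtain ⟨w', hw'⟩ := hgw
  set U : K[X] := (a * w') %ₘ r₁ with hU
  set q : K[X] := (a * w') /ₘ r₁ with hq
  have hUq : U + r₁ * q = a * w' := modByMonic_add_div (a * w') r₁
  have hUdeg : U.degree < r₁.degree := degree_modByMonic_lt _ hr₁m
  have hwe : w = r * U + r' * (b * w') + r * r₁ * q := by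
    calc w = g * w' := hw'
      _ = (r * a + r' * b) * w' := by rw [← hab]
      _ = r * (a * w') + r' * b * w' := by ring
      _ = r * (U + r₁ * q) + r' * b * w' := by rw [hUq]
      _ = _ := by ring
  obtain ⟨r₂, hr₂⟩ := hgr
  have hwe2 : w = r * U + r' * (b * w' + r₂ * q) := by
    rw [hwe]
    have : r * r₁ * q = r' * (r₂ * q) := by rw [hr₁, hr₂]; ring
    rw [this]
    ring
  -- the degrees
  have hUr : (r * U).degree < (d : WithBot ℕ) := by
    rw [degree_mul]
    have h1 : r₁.degree ≤ r'.degree := by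
      rw [hr₁, degree_mul]
      have : (0 : WithBot ℕ) ≤ g.degree := zero_le_degree_iff.2 hg.ne_zero
      exact le_add_of_nonneg_left this
    have h2 : U.degree < r'.degree := hUdeg.trans_le h1
    have h3 : r.degree + U.degree < r.degree + r'.degree :=
      WithBot.add_lt_add_left (degree_ne_bot.2 hr0) h2
    refine h3.trans_le ?_
    rw [degree_eq_natDegree hr0, degree_eq_natDegree hr'0]
    exact_mod_cast hd
  have hVd : (r' * (b * w' + r₂ * q)).degree < (d : WithBot ℕ) := by
    have h1 : r' * (b * w' + r₂ * q) = w - r * U := by rw [hwe2]; ring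
    rw [h1]
    exact (degree_sub_le _ _).trans_lt (max_lt hwd hUr)
  have hkd : (r * k).degree < (d : WithBot ℕ) := by
    have h1 : r * k = g * s - w := by rw [← hdiv]; ring
    rw [h1]
    exact (degree_sub_le _ _).trans_lt (max_lt hs hwd)
  rw [← hdiv, hwe2, χ.map_add_eq_mul, χ.map_add_eq_mul, hP _ hUr, hP' _ hVd, hP _ hkd, one_mul,
    one_mul]

theorem main : S_uniq := by
  intro K _ _ d χ r r' hM hr' hP' hd
  obtain ⟨hr, hP, hmin⟩ := hM
  have hr0 : r ≠ 0 := hr.ne_zero
  set g₀ : K[X] := EuclideanDomain.gcd r r' with hg₀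
  have hg0 : g₀ ≠ 0 := by
    intro h
    exact hr0 (EuclideanDomain.gcd_eq_zero_iff.1 h).1
  have hbez := EuclideanDomain.gcd_eq_gcd_ab r r'
  set c : K := g₀.leadingCoeff⁻¹ with hc
  have hc0 : c ≠ 0 := inv_ne_zero (leadingCoeff_ne_zero.2 hg0)
  set g : K[X] := g₀ * C c with hg
  have hgm : g.Monic := monic_mul_leadingCoeff_inv hg0
  have hcu : IsUnit (C c : K[X]) := isUnit_C.2 (isUnit_iff_ne_zero.2 hc0)
  have hgr : g ∣ r := by
    rw [hg, hcu.mul_right_dvd]
    exact EuclideanDomain.gcd_dvd_left _ _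
  have hgr' : g ∣ r' := by
    rw [hg, hcu.mul_right_dvd]
    exact EuclideanDomain.gcd_dvd_right _ _
  obtain ⟨r₁, hr₁⟩ := hgr'
  have hab : g = r * (EuclideanDomain.gcdA r r' * C c) + r' * (EuclideanDomain.gcdB r r' * C c) := by
    rw [hg, hg₀, hbez]
    ring
  have hPg : Per d χ g := per_gcd hr hP hP' hr' hd hgm hgr hr₁ hab
  have hdeg : r.natDegree ≤ g.natDegree := by
    by_contra h
    exact hmin g hgm (not_le.1 h) hPg
  have heq : g = r := (eq_of_monic_of_dvd_of_natDegree_le hgm hr hgr hdeg).symm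
  rw [← heq, hr₁]
  exact dvd_mul_right _ _

end Pool.Agent.H290.FX.PUniq
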