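import Pool.Agent.H290.FX.Stm
import Pool.Agent.H604.LD.Weyl
import Pool.Agent.H524.LD.ParInf
import Pool.Agent.H985.FC.Gcs

/-!
# Task WEYLX: the level of distribution of `μ(a² + X)` with an additive character
(helper350, for helper290; adapted from `Pool.Agent.H604.LD.Weyl` of helper356)
-/

set_option autoImplicit false

namespace Pool.Agent.H290.FX.PWeylx

open Polynomial
open scoped Classical
open Pool.Agent.H985.Chow (mob lc)
open Pool.Agent.H985.KP (sg)
open Pool.Agent.H694.Typ (Mn)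
open Pool.Agent.H604.LD
open Pool.Agent.H604.LD.WeylL

variable {K : Type} [Field K] [Fintype K]

attribute [local instance] fdl

section two

variable [CharP K 2]

omit [Fintype K] in
lemma chi_sq (χ : AddChar K[X] ℝ) (x : K[X]) : χ x * χ x = 1 := by
  have h : x + x = 0 := by
    linear_combination x * CubeL.two_zero (K := K)
  rw [← AddChar.map_add_eq_mul, h, AddChar.map_zero_eq_one]

omit [Fintype K] in
lemma chi_abs (χ : AddChar K[X] ℝ) (x : K[X]) : |χ x| = 1 := by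
  have h : |χ x| * |χ x| = 1 := by rw [← abs_mul, chi_sq, abs_one]
  nlinarith [abs_nonneg (χ x)]

omit [Fintype K] in
lemma chi_prod (χ : AddChar K[X] ℝ) (c : K[X]) {k : ℕ} (hk : 1 ≤ k) (w : Finset (Fin k) → K[X])
    (u : K[X]) : ∏ A : Finset (Fin k), χ (c + (u + w A) ^ 2) =
      ∏ A : Finset (Fin k), χ (c + (w A) ^ 2) := by
  have h1 : ∀ A : Finset (Fin k), χ (c + (u + w A) ^ 2) = χ (u ^ 2) * χ (c + (w A) ^ 2) := by
    intro A
    rw [← AddChar.map_add_eq_mul]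
    have h2 : c + (u + w A) ^ 2 = u ^ 2 + (c + (w A) ^ 2) := by
      linear_combination (u * w A) * CubeL.two_zero (K := K)
    rw [h2]
  rw [Finset.prod_congr rfl (fun A _ => h1 A), Finset.prod_mul_distrib, Finset.prod_const,
    Finset.card_univ, Fintype.card_finset, Fintype.card_fin]
  obtain ⟨k', rfl⟩ : ∃ k', k = k' + 1 := ⟨k - 1, by omega⟩
  have h3 : (χ (u ^ 2)) ^ 2 ^ (k' + 1) = 1 := by
    have h4 : 2 ^ (k' + 1) = 2 * 2 ^ k' := by ring
    rw [h4, pow_mul]
    have h5 : (χ (u ^ 2)) ^ 2 = 1 := by rw [pow_two (χ (u ^ 2))]; exact chi_sq χ _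
    rw [h5, one_pow]
  rw [h3, one_mul]

lemma good_cx (hc : S_cube) (hg : Pool.Agent.H985.FC.S_gcs) {k d i t g l0 : ℕ} {a D s : K[X]}
    (χ : AddChar K[X] ℝ) (c : K[X])
    (hk : 1 ≤ k) (ha : a.Monic) (had : a.natDegree = d) (hD : D.Monic)
    (hi : D.natDegree + i = d) (hs0 : s ≠ 0) (hs : s ^ 2 = derivative (a * D))
    (hsd : s.natDegree = D.natDegree + g) (hl0 : l0 = (i + 1) / 2)
    (h1 : l0 ≤ g + 1 + t) (h2 : g + 1 ≤ l0) (h3 : 2 * d + 2 * i ≤ 2 ^ k * i)
    (h4 : 4 * (2 ^ k) ^ 3 * (t + 1) ≤ d) :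
    |(∑ v : degreeLT K l0, χ (c + (v : K[X]) ^ 2) * sg (ph (a + D * (v : K[X]) ^ 2))) /
      (Fintype.card K : ℝ) ^ l0| ≤
      ((Fintype.card K : ℝ) ^ t)⁻¹ := by
  have hq2 : 2 ≤ Fintype.card K := Fintype.one_lt_card
  have hqpos : (0 : ℝ) < Fintype.card K := by exact_mod_cast Fintype.card_pos
  obtain ⟨n, hn⟩ : ∃ n, 2 ^ k = n + 1 := ⟨2 ^ k - 1, by
    have : 0 < 2 ^ k := by positivity
    omega⟩
  have hn1 : 1 ≤ n := by
    have : 2 ^ 1 ≤ 2 ^ k := Nat.pow_le_pow_right (by norm_num) hk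
    omega
  obtain ⟨T0, L1, m, hT0, hL1, hm, hTm, hLl⟩ := params (g := g) (t := t) (d := d) hn1
    (by omega) hl0 h1 h2 (by rw [hn] at h3; exact h3) (by rw [hn] at h4; exact h4)
  set φ : Fin k → (degreeLT K (L1 + 1)) →+ (degreeLT K l0) :=
    fun _ => (Submodule.inclusion (degreeLT_mono hLl)).toAddMonoidHom with hφ
  set f : degreeLT K l0 → ℝ := fun v => χ (c + (v : K[X]) ^ 2) *
    sg (ph (a + D * (v : K[X]) ^ 2)) with hf
  have hgcs := hg (degreeLT K l0) (degreeLT K (L1 + 1)) (Fin k) φ f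
    (fun u => (by
      simp only [hf]
      rw [abs_mul, chi_abs, Pool.Agent.H985.KP.Loc2.sg_abs, one_mul]))
  rw [Fintype.card_fin, card_dl, card_dl] at hgcs
  push_cast at hgcs
  -- the value of the shifted function
  have hval : ∀ (h : Fin k → degreeLT K (L1 + 1)) (u : degreeLT K l0) (A : Finset (Fin k)),
      f (u + ∑ j ∈ A, φ j (h j)) = χ (c + ((u : K[X]) + ∑ j ∈ A, (h j : K[X])) ^ 2) *
        sg (ph (a + D * ((u : K[X]) + ∑ j ∈ A, (h j : K[X])) ^ 2)) := by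
    intro h u A
    have e1 : ((u + ∑ j ∈ A, φ j (h j) : degreeLT K l0) : K[X]) =
        (u : K[X]) + ∑ j ∈ A, (h j : K[X]) := by
      rw [Submodule.coe_add, Submodule.coe_sum]
      rfl
    rw [hf]
    simp only
    rw [e1]
  have hm0 : 0 < m := by
    rcases Nat.eq_zero_or_pos m with h0 | h0
    · rw [h0, mul_zero] at hTm; omega
    · exact h0
  have hle1 : ∀ (h : Fin k → degreeLT K (L1 + 1)),
      |(∑ u, ∏ A : Finset (Fin k), f (u + ∑ j ∈ A, φ j (h j))) / (Fintype.card K : ℝ) ^ l0| ≤ 1 := by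
    intro h
    rw [abs_div, abs_of_pos (pow_pos hqpos l0), div_le_one (pow_pos hqpos l0)]
    refine (Finset.abs_sum_le_sum_abs _ _).trans ?_
    have e1 : ∀ u : degreeLT K l0, |∏ A : Finset (Fin k), f (u + ∑ j ∈ A, φ j (h j))| = 1 := by
      intro u
      rw [Finset.abs_prod]
      refine Finset.prod_eq_one fun A _ => ?_
      rw [hval, abs_mul, chi_abs, Pool.Agent.H985.KP.Loc2.sg_abs, one_mul]
    rw [Finset.sum_congr rfl (fun u _ => e1 u), Finset.sum_const, Finset.card_univ, card_dl,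
      nsmul_eq_mul, mul_one]
    push_cast
    exact le_refl _
  have hzero : ∀ (h : Fin k → degreeLT K (L1 + 1)), (¬ ∃ A : Finset (Fin k), A.Nonempty ∧
      (∑ j ∈ A, (h j : K[X])).degree < (m : WithBot ℕ)) →
      |(∑ u, ∏ A : Finset (Fin k), f (u + ∑ j ∈ A, φ j (h j))) / (Fintype.card K : ℝ) ^ l0| = 0 := by
    intro h hgood
    have hdeg : ∀ A : Finset (Fin k), A.Nonempty → ∑ j ∈ A, (h j : K[X]) ≠ 0 ∧
        m ≤ (∑ j ∈ A, (h j : K[X])).natDegree ∧ (∑ j ∈ A, (h j : K[X])).natDegree ≤ L1 := by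
      intro A hA
      have h5 : ¬ (∑ j ∈ A, (h j : K[X])).degree < (m : WithBot ℕ) := fun h6 => hgood ⟨A, hA, h6⟩
      have h0 : ∑ j ∈ A, (h j : K[X]) ≠ 0 := by
        intro h0
        rw [h0, degree_zero] at h5
        exact h5 (WithBot.bot_lt_coe _)
      refine ⟨h0, ?_, ?_⟩
      · by_contra h6
        exact h5 ((natDegree_lt_iff_degree_lt h0).1 (by omega))
      · have h6 : (∑ j ∈ A, (h j : K[X])) ∈ degreeLT K (L1 + 1) :=
          Submodule.sum_mem _ fun j _ => (h j).2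
        have h7 := natDeg_le (mem_degreeLT.1 h6)
        omega
    have hSig : ∑ A : Finset (Fin k), (∑ j ∈ A, (h j : K[X])).natDegree =
        ∑ A ∈ Finset.univ.erase (∅ : Finset (Fin k)), (∑ j ∈ A, (h j : K[X])).natDegree := by
      rw [← Finset.add_sum_erase Finset.univ _ (Finset.mem_univ (∅ : Finset (Fin k)))]
      simp
    have hcard : (Finset.univ.erase (∅ : Finset (Fin k))).card = n := by
      rw [Finset.card_erase_of_mem (Finset.mem_univ _), Finset.card_univ, Fintype.card_finset,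
        Fintype.card_fin, hn]
      omega
    have hS1 : ∑ A : Finset (Fin k), (∑ j ∈ A, (h j : K[X])).natDegree ≤ n * L1 := by
      rw [hSig, ← hcard, ← smul_eq_mul]
      exact Finset.sum_le_card_nsmul _ _ _ fun A hA =>
        (hdeg A (Finset.nonempty_iff_ne_empty.2 (Finset.mem_erase.1 hA).1)).2.2
    have hS2 : n * m ≤ ∑ A : Finset (Fin k), (∑ j ∈ A, (h j : K[X])).natDegree := by
      rw [hSig, ← hcard, ← smul_eq_mul]
      exact Finset.card_nsmul_le_sum _ _ _ fun A hA =>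
        (hdeg A (Finset.nonempty_iff_ne_empty.2 (Finset.mem_erase.1 hA).1)).2.1
    set Sg := ∑ A : Finset (Fin k), (∑ j ∈ A, (h j : K[X])).natDegree with hSg
    obtain ⟨τ, hτ⟩ : ∃ τ, τ + 2 * Sg = T0 := ⟨T0 - 2 * Sg, by
      have : 2 * Sg ≤ 2 * n * L1 := by
        calc 2 * Sg ≤ 2 * (n * L1) := Nat.mul_le_mul_left _ hS1
          _ = 2 * n * L1 := by ring
      omega⟩
    have hτm : τ < m := by
      have e1 : (2 * n + 1) * m = 2 * (n * m) + m := by ring
      omega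
    have hsum : 3 * s.natDegree + (2 ^ k - 2) * D.natDegree + 2 * Sg + τ + 1 = 2 ^ k * d := by
      obtain ⟨n', rfl⟩ : ∃ n', n = n' + 1 := ⟨n - 1, by omega⟩
      have e1 : 2 ^ k - 2 = n' := by omega
      rw [e1, hn, hsd]
      have e2 : 3 * (D.natDegree + g) + n' * D.natDegree + 2 * Sg + τ + 1 =
          (n' + 3) * D.natDegree + 3 * g + T0 + 1 := by
        rw [← hτ]; ring
      have e3 : (n' + 1 + 1) * d + d = (n' + 3) * D.natDegree + (n' + 1 + 2) * i := by
        rw [← hi]; ring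
      rw [e2]
      omega
    have hcz := cancel hc (fun j => (h j : K[X])) hk ha had hD hs0 hs (τ := τ) (l0 := l0)
      (fun A hA => ⟨(hdeg A hA).1, by have := (hdeg A hA).2.1; omega, by
        have := (hdeg A hA).2.2; omega⟩) hsum (by omega) (by omega)
    have e1 : ∑ u, ∏ A : Finset (Fin k), f (u + ∑ j ∈ A, φ j (h j)) = 0 := by
      have e0 : ∀ u : degreeLT K l0, ∏ A : Finset (Fin k), f (u + ∑ j ∈ A, φ j (h j)) =
          (∏ A : Finset (Fin k), χ (c + (∑ j ∈ A, (h j : K[X])) ^ 2)) *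
            ∏ A : Finset (Fin k), sg (ph (a + D * ((u : K[X]) + ∑ j ∈ A, (h j : K[X])) ^ 2)) := by
        intro u
        rw [← chi_prod χ c hk (fun A : Finset (Fin k) => ∑ j ∈ A, (h j : K[X])) (u : K[X]),
          ← Finset.prod_mul_distrib]
        exact Finset.prod_congr rfl fun A _ => hval h u A
      rw [Finset.sum_congr rfl (fun u _ => e0 u), ← Finset.mul_sum, hcz, mul_zero]
    rw [e1, zero_div, abs_zero]
  -- the bound
  have hB : ∑ h : Fin k → degreeLT K (L1 + 1),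
      |(∑ u, ∏ A : Finset (Fin k), f (u + ∑ j ∈ A, φ j (h j))) / (Fintype.card K : ℝ) ^ l0| ≤
      ((Finset.univ.filter (fun h : Fin k → degreeLT K (L1 + 1) => ∃ A : Finset (Fin k),
        A.Nonempty ∧ (∑ j ∈ A, (h j : K[X])).degree < (m : WithBot ℕ))).card : ℝ) := by
    rw [Finset.card_eq_sum_ones, Finset.sum_filter]
    push_cast
    refine Finset.sum_le_sum fun h _ => ?_
    by_cases hb : ∃ A : Finset (Fin k), A.Nonempty ∧
        (∑ j ∈ A, (h j : K[X])).degree < (m : WithBot ℕ)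
    · rw [if_pos hb]; exact hle1 h
    · rw [if_neg hb, hzero h hb]
  have hbad := bad_h (K := K) (k := k) (l := L1 + 1) (m := m) (by omega)
  have hlm : L1 + 1 - m = (n + 1) * (t + 1) := by omega
  rw [hlm] at hbad
  have hbad' : ((Finset.univ.filter (fun h : Fin k → degreeLT K (L1 + 1) =>
      ∃ A : Finset (Fin k), A.Nonempty ∧
        (∑ j ∈ A, (h j : K[X])).degree < (m : WithBot ℕ))).card : ℝ) *
      (Fintype.card K : ℝ) ^ ((n + 1) * (t + 1)) ≤
      2 ^ k * (Fintype.card K : ℝ) ^ ((L1 + 1) * k) := by exact_mod_cast hbad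
  have h2k : (2 : ℝ) ^ k ≤ (Fintype.card K : ℝ) ^ (n + 1) := by
    have h5 : 2 ^ k ≤ Fintype.card K ^ (n + 1) := by
      rw [hn]
      exact (Nat.lt_pow_self hq2).le
    exact_mod_cast h5
  have hfin : |(∑ u, f u) / (Fintype.card K : ℝ) ^ l0| ^ (2 ^ k) ≤
      (((Fintype.card K : ℝ) ^ t)⁻¹) ^ (2 ^ k) := by
    refine hgcs.trans ?_
    rw [div_le_iff₀ (by positivity)]
    refine hB.trans ?_
    have hpos : (0 : ℝ) < (Fintype.card K : ℝ) ^ ((n + 1) * (t + 1)) := pow_pos hqpos _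
    refine le_of_mul_le_mul_right (hbad'.trans ?_) hpos
    rw [hn, inv_pow, ← pow_mul, ← pow_mul]
    have e1 : (Fintype.card K : ℝ) ^ ((n + 1) * (t + 1)) =
        (Fintype.card K : ℝ) ^ (t * (n + 1)) * (Fintype.card K : ℝ) ^ (n + 1) := by
      rw [← pow_add]; ring_nf
    have hpos2 : (0 : ℝ) < (Fintype.card K : ℝ) ^ (t * (n + 1)) := pow_pos hqpos _
    have e2 : ((Fintype.card K : ℝ) ^ (t * (n + 1)))⁻¹ * (Fintype.card K : ℝ) ^ ((L1 + 1) * k) *
        (Fintype.card K : ℝ) ^ ((n + 1) * (t + 1)) =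
        (Fintype.card K : ℝ) ^ (n + 1) * (Fintype.card K : ℝ) ^ ((L1 + 1) * k) := by
      rw [e1]
      field_simp
    rw [e2]
    exact mul_le_mul_of_nonneg_right h2k (by positivity)
  exact (pow_le_pow_iff_left₀ (abs_nonneg _) (by positivity) (by rw [hn]; omega)).1 hfin

lemma main_boundx (χ : AddChar K[X] ℝ) (hp : S_parinf) (hc : S_cube) (hg : Pool.Agent.H985.FC.S_gcs) {k d i t : ℕ}
    {D r : K[X]} (hk : 1 ≤ k) (hD : D.Monic) (hr : r.degree < (d : WithBot ℕ))
    (hi : D.natDegree + i = d) (h3 : 2 * d + 2 * i ≤ 2 ^ k * i)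
    (h4 : 4 * (2 ^ k) ^ 3 * (t + 1) ≤ d) :
    |∑ c ∈ Mn K i, χ c * (mob ((r + D * c) ^ 2 + X) : ℝ)| ≤
      2 * (Fintype.card K : ℝ) ^ i / (Fintype.card K : ℝ) ^ t := by
  have hqpos : (0 : ℝ) < Fintype.card K := by exact_mod_cast Fintype.card_pos
  have hH : 2 ≤ 2 ^ k := by
    have : 2 ^ 1 ≤ 2 ^ k := Nat.pow_le_pow_right (by norm_num) hk
    omega
  have hH2 : 1 ≤ (2 ^ k) ^ 2 := Nat.one_le_pow _ _ (by omega)
  have hi2 : 8 * (t + 1) ≤ i := by
    have h5 : 2 ^ k * (8 * (t + 1)) ≤ 2 ^ k * i := by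
      calc 2 ^ k * (8 * (t + 1)) = 2 ^ k * 1 * (8 * (t + 1)) := by ring
        _ ≤ 2 ^ k * (2 ^ k) ^ 2 * (8 * (t + 1)) :=
            Nat.mul_le_mul_right _ (Nat.mul_le_mul_left _ hH2)
        _ = 2 * (4 * (2 ^ k) ^ 3 * (t + 1)) := by ring
        _ ≤ 2 * d := Nat.mul_le_mul_left _ h4
        _ ≤ 2 ^ k * i := by omega
    exact Nat.le_of_mul_le_mul_left h5 (by omega)
  obtain ⟨η, hη, hpar⟩ := hp K d (by omega)
  have hmon : ∀ c ∈ Mn K i, (r + D * c).Monic ∧ (r + D * c).natDegree = d := by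
    intro c hcm
    rw [Pool.Agent.H694.Typ.mem_Mn] at hcm
    have h5 : (D * c).Monic := hD.mul hcm.1
    have h6 : (D * c).natDegree = d := by rw [hD.natDegree_mul hcm.1, hcm.2, hi]
    have h7 : r.degree < (D * c).degree := by
      rw [degree_eq_natDegree h5.ne_zero, h6]; exact hr
    exact ⟨h5.add_of_right h7, by rw [natDegree_add_eq_right_of_degree_lt h7, h6]⟩
  set S : ℝ := ∑ c ∈ Mn K i, χ c * sg (ph (r + D * c)) with hS
  have e1 : ∑ c ∈ Mn K i, χ c * (mob ((r + D * c) ^ 2 + X) : ℝ) = η * S := by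
    rw [hS, Finset.mul_sum]
    refine Finset.sum_congr rfl fun c hcm => ?_
    rw [hpar _ (hmon c hcm).1 (hmon c hcm).2]
    ring
  have e2 : |η| = 1 := by
    rcases hη with h | h <;> rw [h] <;> norm_num
  rw [e1, abs_mul, e2, one_mul]
  set l0 := (i + 1) / 2 with hl0
  have hl0i : 2 * (l0 - 1) < i := by omega
  have hql : (0 : ℝ) < (Fintype.card K : ℝ) ^ l0 := pow_pos hqpos _
  -- averaging
  have e3 : S = ∑ c ∈ Mn K i, (∑ v : degreeLT K l0, χ (c + (v : K[X]) ^ 2) *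
      sg (ph (r + D * c + D * (v : K[X]) ^ 2))) / (Fintype.card K : ℝ) ^ l0 := by
    rw [← Finset.sum_div, Finset.sum_comm]
    have h5 : ∀ v : degreeLT K l0, ∑ c ∈ Mn K i, χ (c + (v : K[X]) ^ 2) *
        sg (ph (r + D * c + D * (v : K[X]) ^ 2)) = S := by
      intro v
      rw [hS, ← shift_sum hl0i (fun c => χ c * sg (ph (r + D * c))) v]
      refine Finset.sum_congr rfl fun c _ => ?_
      have h6 : r + D * c + D * (v : K[X]) ^ 2 = r + D * (c + (v : K[X]) ^ 2) := by ring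
      rw [h6]
    rw [Finset.sum_congr rfl (fun v _ => h5 v), Finset.sum_const, Finset.card_univ, card_dl,
      nsmul_eq_mul]
    push_cast
    rw [mul_comm, mul_div_assoc, div_self hql.ne', mul_one]
  have hE1 : ∀ c : K[X], |(∑ v : degreeLT K l0, χ (c + (v : K[X]) ^ 2) *
      sg (ph (r + D * c + D * (v : K[X]) ^ 2))) / (Fintype.card K : ℝ) ^ l0| ≤ 1 := by
    intro c
    rw [abs_div, abs_of_pos hql, div_le_one hql]
    refine (Finset.abs_sum_le_sum_abs _ _).trans ?_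
    rw [Finset.sum_congr rfl (fun v _ => show |χ (c + ((v : degreeLT K l0) : K[X]) ^ 2) *
      sg (ph (r + D * c + D * (v : K[X]) ^ 2))| = 1 by
        rw [abs_mul, chi_abs, Pool.Agent.H985.KP.Loc2.sg_abs, one_mul]), Finset.sum_const,
      Finset.card_univ, card_dl, nsmul_eq_mul, mul_one]
    push_cast
    exact le_refl _
  obtain ⟨G, hG⟩ : ∃ G, G + t + 1 = l0 := ⟨l0 - 1 - t, by omega⟩
  set Q : K[X] := derivative (r * D) with hQ
  have hE2 : ∀ c ∈ Mn K i, ¬ (Q + D ^ 2 * derivative c).degree <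
      ((2 * (D.natDegree + G) : ℕ) : WithBot ℕ) →
      |(∑ v : degreeLT K l0, χ (c + (v : K[X]) ^ 2) *
        sg (ph (r + D * c + D * (v : K[X]) ^ 2))) /
        (Fintype.card K : ℝ) ^ l0| ≤ ((Fintype.card K : ℝ) ^ t)⁻¹ := by
    intro c hcm hgood
    obtain ⟨ham, had⟩ := hmon c hcm
    obtain ⟨s, hs⟩ := exists_sqrt ((r + D * c) * D)
    have h5 : derivative ((r + D * c) * D) = Q + D ^ 2 * derivative c := by
      have h6 : (r + D * c) * D = r * D + D ^ 2 * c := by ring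
      rw [h6, derivative_add, derivative_mul (f := D ^ 2), CubeL.deriv_sq, zero_mul, zero_add]
    rw [← h5, ← hs] at hgood
    have hs0 : s ≠ 0 := by
      rintro rfl
      rw [zero_pow two_ne_zero, degree_zero] at hgood
      exact hgood (WithBot.bot_lt_coe _)
    have h7 : D.natDegree + G ≤ s.natDegree := by
      by_contra h8
      refine hgood ((natDegree_lt_iff_degree_lt (pow_ne_zero 2 hs0)).1 ?_)
      rw [natDegree_pow]
      omega
    have h8 : 2 * s.natDegree ≤ d + D.natDegree - 1 := by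
      have h9 := natDegree_derivative_le ((r + D * c) * D)
      rw [← hs, natDegree_pow, ham.natDegree_mul hD, had] at h9
      exact h9
    obtain ⟨g, hgd⟩ : ∃ g, s.natDegree = D.natDegree + g := ⟨s.natDegree - D.natDegree, by omega⟩
    exact good_cx hc hg χ c hk ham had hD hi hs0 hs hgd hl0 (by omega) (by omega) h3 h4
  have hbad := bad_c (i := i) (G := G) (t := t) Q D hD (by omega)
  have hbad' : (((Mn K i).filter (fun c => (Q + D ^ 2 * derivative c).degree <
      ((2 * (D.natDegree + G) : ℕ) : WithBot ℕ))).card : ℝ) ≤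
      (Fintype.card K : ℝ) ^ i / (Fintype.card K : ℝ) ^ t := by
    rw [le_div_iff₀ (pow_pos hqpos t)]
    exact_mod_cast hbad
  rw [e3]
  refine (Finset.abs_sum_le_sum_abs _ _).trans ?_
  rw [← Finset.sum_filter_add_sum_filter_not (Mn K i) (fun c => (Q + D ^ 2 * derivative c).degree <
      ((2 * (D.natDegree + G) : ℕ) : WithBot ℕ))]
  have h10 : ∑ c ∈ (Mn K i).filter (fun c => (Q + D ^ 2 * derivative c).degree <
      ((2 * (D.natDegree + G) : ℕ) : WithBot ℕ)),
      |(∑ v : degreeLT K l0, χ (c + (v : K[X]) ^ 2) *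
        sg (ph (r + D * c + D * (v : K[X]) ^ 2))) /
        (Fintype.card K : ℝ) ^ l0| ≤ (Fintype.card K : ℝ) ^ i / (Fintype.card K : ℝ) ^ t := by
    refine (Finset.sum_le_card_nsmul _ _ 1 (fun c _ => hE1 c)).trans ?_
    rw [nsmul_eq_mul, mul_one]
    exact hbad'
  have h11 : ∑ c ∈ (Mn K i).filter (fun c => ¬ (Q + D ^ 2 * derivative c).degree <
      ((2 * (D.natDegree + G) : ℕ) : WithBot ℕ)),
      |(∑ v : degreeLT K l0, χ (c + (v : K[X]) ^ 2) *
        sg (ph (r + D * c + D * (v : K[X]) ^ 2))) /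
        (Fintype.card K : ℝ) ^ l0| ≤ (Fintype.card K : ℝ) ^ i / (Fintype.card K : ℝ) ^ t := by
    refine (Finset.sum_le_card_nsmul _ _ (((Fintype.card K : ℝ) ^ t)⁻¹) (fun c hcm =>
      hE2 c (Finset.mem_filter.1 hcm).1 (Finset.mem_filter.1 hcm).2)).trans ?_
    rw [nsmul_eq_mul, div_eq_mul_inv]
    refine mul_le_mul_of_nonneg_right ?_ (by positivity)
    have h12 := Finset.card_filter_le (Mn K i) (fun c => ¬ (Q + D ^ 2 * derivative c).degree <
      ((2 * (D.natDegree + G) : ℕ) : WithBot ℕ))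
    rw [Pool.Agent.H694.Typ.card_Mn] at h12
    exact_mod_cast h12
  refine (add_le_add h10 h11).trans (le_of_eq ?_)
  ring
end two

theorem weylx (hp : S_parinf) (hc : S_cube) (hg : Pool.Agent.H985.FC.S_gcs) : S_weylx := by
  intro K _ _ _ κ hκ
  obtain ⟨k, hk1, hk⟩ : ∃ k : ℕ, 1 ≤ k ∧ 2 / κ + 2 ≤ (2 : ℝ) ^ k := by
    obtain ⟨k, hk⟩ := pow_unbounded_of_one_lt (2 / κ + 2) (one_lt_two : (1 : ℝ) < 2)
    refine ⟨k + 1, by omega, hk.le.trans ?_⟩
    exact pow_le_pow_right₀ one_le_two (by omega)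
  have hHpos : (0 : ℝ) < (2 : ℝ) ^ k := by positivity
  refine ⟨1 / (8 * ((2 : ℝ) ^ k) ^ 3), by positivity, 24 * (2 ^ k) ^ 3,
    fun d χ hd D r hD hDd hr => ?_⟩
  have hqpos : (0 : ℝ) < Fintype.card K := by exact_mod_cast Fintype.card_pos
  have hq2 : (2 : ℝ) ≤ Fintype.card K := by
    have : 2 ≤ Fintype.card K := Fintype.one_lt_card
    exact_mod_cast this
  have hHn : 0 < (2 ^ k) ^ 3 := by positivity
  have hdpos : 0 < d := by omega
  have hdR : (0 : ℝ) < d := by exact_mod_cast hdpos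
  obtain ⟨i, hi⟩ : ∃ i, D.natDegree + i = d := by
    have h1 : (D.natDegree : ℝ) ≤ d := hDd.trans (by nlinarith)
    have h2 : D.natDegree ≤ d := by exact_mod_cast h1
    exact ⟨d - D.natDegree, by omega⟩
  have hiR : (D.natDegree : ℝ) + i = d := by exact_mod_cast hi
  have hκi : κ * d ≤ i := by nlinarith
  have h3 : 2 * d + 2 * i ≤ 2 ^ k * i := by
    have h5 : (2 * d + 2 * i : ℝ) ≤ 2 ^ k * i := by
      have h6 : (2 / κ + 2) * i ≤ (2 : ℝ) ^ k * i := mul_le_mul_of_nonneg_right hk (by positivity)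
      have h7 : 2 * (d : ℝ) ≤ 2 / κ * i := by
        rw [div_mul_eq_mul_div, le_div_iff₀ hκ]
        nlinarith
      linarith
    exact_mod_cast h5
  -- the parameter
  have hx1 : 4 * (2 ^ k) ^ 3 * (d / (4 * (2 ^ k) ^ 3)) ≤ d := Nat.mul_div_le _ _
  have hx2 : d < 4 * (2 ^ k) ^ 3 * (d / (4 * (2 ^ k) ^ 3) + 1) :=
    Nat.lt_mul_div_succ d (by positivity)
  set x := d / (4 * (2 ^ k) ^ 3) with hx
  have hx0 : 0 < x := by
    rcases Nat.eq_zero_or_pos x with h | h
    · rw [h] at hx2; omega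
    · exact h
  obtain ⟨t, ht⟩ : ∃ t, x = t + 1 := ⟨x - 1, by omega⟩
  rw [ht] at hx1 hx2
  have hmain := main_boundx χ hp hc hg hk1 hD hr hi h3 hx1
  have hdi : d - D.natDegree = i := by omega
  rw [hdi]
  refine hmain.trans ?_
  have hx2' : (d : ℝ) < 4 * ((2 : ℝ) ^ k) ^ 3 * (t + 1 + 1) := by exact_mod_cast hx2
  have hd' : 24 * ((2 : ℝ) ^ k) ^ 3 ≤ d := by exact_mod_cast hd
  set P : ℝ := ((2 : ℝ) ^ k) ^ 3 with hP
  have hPpos : 0 < P := by positivity
  have ht2 : 1 / (8 * P) * d + 3 ≤ (t : ℝ) + 2 := by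
    have h5 : 1 / (8 * P) * d + 3 = (d + 24 * P) / (8 * P) := by field_simp; ring
    rw [h5, div_le_iff₀ (by positivity)]
    nlinarith
  have e1 : 2 * (Fintype.card K : ℝ) ^ i / (Fintype.card K : ℝ) ^ t ≤
      (Fintype.card K : ℝ) ^ ((i : ℝ) - t + 1) := by
    rw [Real.rpow_add hqpos, Real.rpow_sub hqpos, Real.rpow_one, Real.rpow_natCast,
      Real.rpow_natCast, mul_div_assoc, mul_comm]
    exact mul_le_mul_of_nonneg_left hq2 (by positivity)
  refine e1.trans (Real.rpow_le_rpow_of_exponent_le (by linarith) ?_)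
  linarith

/-- **Task WEYLX.** -/
theorem main : S_weylx :=
  weylx Pool.Agent.H524.LD.s_parinf cube Pool.Agent.H914.FC.gcs

end Pool.Agent.H290.FX.PWeylx
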