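import Mathlib
import Pool.Agent.H604.FC.Final
import Pool.Agent.H604.LD.Weyl
import Pool.Agent.H604.LD.Hid
import Pool.Agent.H604.LD.Cov
import Pool.Agent.H524.LD.ParInf
import Pool.Agent.H290.FX.PRoot
import Pool.Agent.H290.FX.PDual
import Pool.Agent.H290.FX.PFar1x
import Pool.Agent.H290.FX.PFar2x
import Pool.Agent.H290.FX.PFinx
import Pool.Agent.H290.FX.PMajx
import Pool.Agent.H290.FX.PWeylx
import Pool.Agent.H290.FX.PNearx
import Pool.Agent.H290.FX.PKsum
import Pool.Agent.H290.FX.PKasm
import Pool.Agent.H290.FX.PKrec
import Pool.Agent.H290.FX.PWin7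
import Pool.Agent.H290.FX.PLocfw
import Pool.Agent.H290.FX.POrth
import Pool.Agent.H290.FX.PPer
import Pool.Agent.H290.FX.PUniq
import Pool.Agent.H290.FX.PRam
import Pool.Agent.H290.FX.PRank
import Pool.Agent.H290.FX.PConv
import Pool.Agent.H290.FX.PFour
import Pool.Agent.H290.FX.PL2
import Pool.Agent.H290.FX.PMb
import Pool.Agent.H290.FX.PMt
import Pool.Agent.H290.FX.PTer
import Pool.Agent.H290.FX.PBin

/-!
# Additive characters over the `a` with `a ^ 2 + X` irreducible (helper290): assembly
-/

set_option autoImplicit false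

namespace Pool.Agent.H290.FX.Asm

open Pool.Agent.H290.FX
open Pool.Agent.H985.Chow (cmp s_key)
open Pool.Agent.H985.KP (cnt typ2)
open Pool.Agent.H985.FC (lock locf winF)
open Pool.Agent.H604.FC (fin_ badt)
open Pool.Agent.H604.LD (S_landaup)

theorem win7 : S_win7 :=
  PWin7.main Pool.Agent.H914.FC.gcs lock PLocfw.main (fin_ cmp) (badt cnt) cnt

theorem krec : S_krec := PKrec.main PRoot.main PDual.main

theorem kfib : S_kfib := PKasm.main (winF s_key) win7 krec

theorem key : S_key := PKsum.main Pool.Agent.H604.LD.cov kfib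

theorem nearx : S_nearx := PNearx.main PRoot.main key

theorem far2x : S_far2x := PFar2x.main PRoot.main PWeylx.main

theorem far1x : S_far1x := PFar1x.main PRoot.main PDual.main

theorem minor : S_minor := PFinx.main Pool.Agent.H604.LD.hid nearx far2x far1x

theorem major (h : S_landaup) : S_major := PMajx.main PRoot.main h

theorem four (h : S_landaup) : S_four := PFour.main PUniq.main minor (major h)

theorem per : S_per := PPer.main POrth.main

theorem ram : S_ram := PRam.main per PUniq.main

theorem l2 : S_l2 := PL2.main POrth.main per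

theorem mb : S_mb := PMb.main PUniq.main ram

theorem mt : S_mt := PMt.main PRoot.main PUniq.main ram

theorem bin (h : S_landaup) : S_bin :=
  PBin.main POrth.main (four h) l2 mb PRank.main PConv.main

theorem ter (h : S_landaup) : S_ter :=
  PTer.main POrth.main (four h) l2 mt PRank.main PConv.main

end Pool.Agent.H290.FX.Asm
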