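import Mathlib
import Pool.Agent.H290.FX.StmC

/-!
# Tuples of irreducible `(a + h i) ^ 2 + X`, `q` even (helper290): the Bateman–Horn asymptotic formula
for almost all `h : Fin k → K[X]`, with a power saving
-/

namespace Pool.Agent.H290.FX

open Polynomial
open scoped Classical
open Pool.Agent.H985.Chow (mob)
open Pool.Agent.H985.KP (sg PA)
open Pool.Agent.H694.Typ (Mn PU)
open Pool.Agent.H604.LD (PiM)

/-- The local model at `P`: `1 + lm P a` is `0` if `P ∣ a ^ 2 + X` and `N / (N - 1)` otherwise,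
`N = q ^ deg P`. -/
noncomputable def lm {K : Type} [Field K] [Fintype K] (P a : K[X]) : ℝ :=
  if P ∣ a ^ 2 + X then -1 else 1 / ((Fintype.card K : ℝ) ^ P.natDegree - 1)

/-- The model of `2 d` times the indicator function. -/
noncomputable def nus (K : Type) [Field K] [Fintype K] (t : ℕ) (a : K[X]) : ℝ :=
  ∑ r ∈ Sq K t, ∏ᶠ P ∈ PA r, lm P a

/-- `2 d` times the indicator function. -/
noncomputable def nu {K : Type} [Field K] (d : ℕ) (a : K[X]) : ℝ :=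
  if Irreducible (a ^ 2 + X) then 2 * (d : ℝ) else 0

/-- The exponential sum, with `θ` as small as one likes. -/
def S_fourk : Prop :=
  ∀ (K : Type) [Field K] [Fintype K] [CharP K 2] (θ₀ : ℝ), 0 < θ₀ → ∃ c θ : ℝ, 0 < c ∧ 0 < θ ∧
    θ ≤ 1 / 4 ∧ θ ≤ θ₀ ∧ ∃ d₀ : ℕ, ∀ (d t : ℕ) (χ : AddChar K[X] ℝ), d₀ ≤ d → t = ⌊θ * d⌋₊ →
      |2 * (d : ℝ) * SX K d χ - MT K d t χ| ≤ (Fintype.card K : ℝ) ^ ((1 - c) * d)

/-- **Task FOURK.**  The proof of `S_tfour` (team-store helper290_FX_PFour.lean) with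
`θ = min (θ₁, 1 / 4, θ₀)`. -/
def S_tfourk : Prop := S_uniq → S_minor → S_major → S_fourk

/-- The Fourier transform of the model. -/
def S_t1 : Prop :=
  ∀ (K : Type) [Field K] [Fintype K] [CharP K 2] (d t : ℕ) (χ : AddChar K[X] ℝ), 2 * t ≤ d →
    ∑ a ∈ Mn K d, nus K t a * χ a = MT K d t χ

/-- **Task T1.**  For `r ∈ Sq K t` one has
`∏_{P ∣ r} lm P a = (1 / φ(r)) ∑_{E ∣ r} μ(E) q ^ deg E [E ∣ a ^ 2 + X]`,
`φ(r) = ∏_{P ∣ r} (q ^ deg P - 1) = q ^ deg r * PiM r`.  The `a ∈ Mn K d` with `E ∣ a ^ 2 + X` are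
`rt E + E s`, `s ∈ Mn (d - deg E)`, so the sum of `χ a` over them is
`χ (rt E + E X ^ (d - deg E)) q ^ (d - deg E)` if `E` is a period of `χ` and `0` otherwise.  So
`∑_a χ a ∏_{P ∣ r} lm P a = (q ^ d / φ(r)) ∑_{E ∣ r, E a period} μ(E) χ (rt E + E X ^ (d - deg E))`.
If `χ` has a minimal period `r₀` of degree `≤ t` then (UNIQ) `E ∣ r` is a period iff `r₀ ∣ E`, and then
`χ (rt E + E X ^ (d - deg E)) = χ (rt r₀ + r₀ X ^ (d - deg r₀))` (the difference of the arguments is a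
multiple of `r₀` of degree `< d`), and `∑_{r₀ ∣ E ∣ r} μ(E)` is `μ(r₀)` for `r = r₀` and `0`
otherwise.  If there is no period of degree `≤ t` both sides are `0`. -/
def S_tt1 : Prop := S_root → S_uniq → S_t1

/-- The shifts. -/
noncomputable def Hs (K : Type) [Field K] [Fintype K] (k d : ℕ) : Finset (Fin k → K[X]) :=
  Fintype.piFinset (fun _ => Vs K d)

/-- The Gowers-Cauchy-Schwarz inequality for the shifts. -/
def S_t2 : Prop :=
  ∀ (K : Type) [Field K] [Fintype K] [CharP K 2] (k d : ℕ) (g : Fin k → K[X] → ℝ) (B Y : ℝ)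
    (j : Fin k), (∀ i, ∀ a ∈ Mn K d, |g i a| ≤ B) →
    (∀ H ∈ Vs K d, |∑ a ∈ Mn K d, g j a * ch d H a| ≤ Y) →
    ∑ h ∈ Hs K k d, (∑ a ∈ Mn K d, ∏ i, g i (a + h i)) ^ 2 ≤
      B ^ (2 * k - 1) * Y * (Fintype.card K : ℝ) ^ ((k + 1) * d)

/-- **Task T2.**  Expanding the square, the left side is
`∑_{a, a'} ∏_i ∑_{h_i} g_i (a + h_i) g_i (a' + h_i) = q ^ d ∑_{b ∈ Vs} ∏_i A_i b` with
`A_i b = ∑_{x ∈ Mn} g_i x g_i (x + b)` (`a + a' = b ∈ Vs`, `x = a + h_i` runs over `Mn K d`).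
`|A_i b| ≤ B ^ 2 q ^ d`, and
`∑_b (A_j b) ^ 2 = q ^ (-d) ∑_H (ĝ_j H) ^ 4 ≤ Y ^ 2 ∑_a (g_j a) ^ 2 ≤ Y ^ 2 B ^ 2 q ^ d` (Parseval from ORTH), so
`∑_b |A_j b| ≤ Y B q ^ d`. -/
def S_tt2 : Prop := S_orth → S_t2

/-- Telescoping. -/
def S_t3 : Prop :=
  ∀ (K : Type) [Field K] [Fintype K] [CharP K 2] (k d : ℕ) (f f' : K[X] → ℝ) (B Y : ℝ), 1 ≤ k →
    (∀ a ∈ Mn K d, |f a| ≤ B ∧ |f' a| ≤ B) →
    (∀ H ∈ Vs K d, |∑ a ∈ Mn K d, (f a - f' a) * ch d H a| ≤ Y) →
    ∑ h ∈ Hs K k d, (∑ a ∈ Mn K d, ∏ i, f (a + h i) - ∑ a ∈ Mn K d, ∏ i, f' (a + h i)) ^ 2 ≤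
      (k : ℝ) ^ 2 * (2 * B) ^ (2 * k - 1) * Y * (Fintype.card K : ℝ) ^ ((k + 1) * d)

/-- **Task T3.**  `∏ f (a + h i) - ∏ f' (a + h i)` is the sum over `j` of
`∏_{i<j} f' (a + h i) * (f - f') (a + h j) * ∏_{i>j} f (a + h i)`; Cauchy-Schwarz and T2. -/
def S_tt3 : Prop := S_t2 → S_t3

/-- **Task T4.**  The model is small: `|lm P a| ≤ 1` for the at most `ε' d + C` many
`P ∣ a ^ 2 + X` and `lm P a = 1 / (q ^ deg P - 1)` for the others, so
`|nus| ≤ 2 ^ ω(a ^ 2 + X) * ∏_{P ∈ PU K t} (1 + 1 / (q ^ deg P - 1))` and the product is at most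
`exp (2 ∑_{u ≤ t} 1 / u)`. -/
def S_t4 : Prop :=
  ∀ (K : Type) [Field K] [Fintype K] [CharP K 2] (ε : ℝ), 0 < ε → ∃ C : ℝ, 0 < C ∧
    ∀ d t : ℕ, t ≤ d → ∀ a ∈ Mn K d, |nus K t a| ≤ C * (Fintype.card K : ℝ) ^ (ε * d)

/-- The local mean values. -/
noncomputable def eT {K : Type} [Field K] [Fintype K] {k : ℕ} (P : K[X]) (h : Fin k → K[X])
    (T : Finset (Fin k)) : ℝ :=
  (∑ a ∈ Vs K P.natDegree, ∏ i ∈ T, lm P (a + h i)) / (Fintype.card K : ℝ) ^ P.natDegree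

/-- **Task T5.**  The main term: expand the product of the sums; `∏_{P ∣ r_i} lm P (a + h_i)` depends
on `a` modulo `r_i` only, the degree of the product of the prime divisors of `∏ r_i` is `≤ k t ≤ d`, so
the monic `a` of degree `d` are equidistributed modulo it; Chinese remainder theorem. -/
def S_t5 : Prop :=
  ∀ (K : Type) [Field K] [Fintype K] [CharP K 2] (k d t : ℕ) (h : Fin k → K[X]), k * t ≤ d →
    ∑ a ∈ Mn K d, ∏ i, nus K t (a + h i) = (Fintype.card K : ℝ) ^ d *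
      ∑ r ∈ Fintype.piFinset (fun _ : Fin k => Sq K t),
        ∏ P ∈ PU K t, eT P h (Finset.univ.filter (fun i => P ∣ r i))

/-- **Task T6.**  Completion of the singular series (Rankin's trick).  Let `N = q ^ deg P`.
`eT P h ∅ = 1` and `eT P h {i} = 0`: there is exactly one `a` modulo `P` with
`P ∣ (a + h i) ^ 2 + X`, so the mean value is `(1 / N) (-1) + ((N - 1) / N) / (N - 1) = 0`.
The product over `PU K n` of `∑_T eT P h T` is the sum over the `k`-tuples `r` of squarefree monic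
polynomials with all prime factors in `PU K n`; so the difference is at most, with `σ = 1 / (4 k)`,
`q ^ (- σ t) ∏_{P ∈ PU K n} (1 + ∑_{T ≠ ∅} |eT P h T| N ^ (σ |T|))`.
If the `h i` are different modulo `P` and `|T| ≥ 2` then `|eT P h T| ≤ (k + 1) (N - 1) ^ (-|T|)`, so the
factor is `1 + O_k (N ^ (-3/2))`.  Otherwise `|eT P h T| ≤ (k + 2) / (N - 1)` and
the factor is `O_k (1)`; these `P` divide `Δ = ∏_{i<j} (h i - h j) ≠ 0`, of degree `≤ k ^ 2 d`, and their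
number is at most `δ d + C_δ` for every `δ > 0`. -/
def S_t6 : Prop :=
  ∀ (K : Type) [Field K] [Fintype K] [CharP K 2] (k : ℕ), 1 ≤ k → ∃ σ : ℝ, 0 < σ ∧ ∀ ε : ℝ,
    0 < ε → ∃ C : ℝ, 0 < C ∧ ∀ (h : Fin k → K[X]) (d t n : ℕ), Function.Injective h →
      (∀ i, (h i).natDegree ≤ d) → t ≤ n →
      |∏ P ∈ PU K n, ∑ T : Finset (Fin k), eT P h T -
        ∑ r ∈ Fintype.piFinset (fun _ : Fin k => Sq K t),
          ∏ P ∈ PU K t, eT P h (Finset.univ.filter (fun i => P ∣ r i))| ≤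
        C * (Fintype.card K : ℝ) ^ (ε * d - σ * t)

/-- The number of the `a` modulo `P` such that `P` divides one of the `(a + h i) ^ 2 + X`. -/
noncomputable def om {K : Type} [Field K] [Fintype K] {k : ℕ} (P : K[X]) (h : Fin k → K[X]) : ℕ :=
  ((Vs K P.natDegree).filter (fun a => ∃ i, P ∣ (a + h i) ^ 2 + X)).card

/-- The local factor of Bateman and Horn. -/
noncomputable def lf {K : Type} [Field K] [Fintype K] {k : ℕ} (P : K[X]) (h : Fin k → K[X]) : ℝ :=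
  (1 - (om P h : ℝ) / (Fintype.card K : ℝ) ^ P.natDegree) /
    (1 - 1 / (Fintype.card K : ℝ) ^ P.natDegree) ^ k

/-- **Task T7.**  The local factor: `∑_T ∏_{i ∈ T} lm P (a + h i) = ∏_i (1 + lm P (a + h i))`, which is
`0` if `P` divides one of the `(a + h i) ^ 2 + X` and `(N / (N - 1)) ^ k` otherwise. -/
def S_t7 : Prop :=
  ∀ (K : Type) [Field K] [Fintype K] (k : ℕ) (P : K[X]) (h : Fin k → K[X]), P.Monic →
    Irreducible P → ∑ T : Finset (Fin k), eT P h T = lf P h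

/-- **Task T8.**  Convergence and positivity of the singular series.  For the `P` which do not divide
`Δ = ∏_{i<j} (h i - h j) ≠ 0` one has `om P h = k` (one root for every `i`, and they are different),
and `lf P h = (1 - k / N) / (1 - 1 / N) ^ k = 1 + O_k (N ^ (-2))`.  In general `om P h ≤ k`, so
`lf P h ≥ 1 - C_k N ^ (-2)` for `N > 2 k`; for the finitely many `P` with `N ≤ 2 k` one has
`lf P h ≥ 1 / N` if `om P h < N`. -/
def S_t8 : Prop :=
  ∀ (K : Type) [Field K] [Fintype K] [CharP K 2] (k : ℕ), ∃ c₀ : ℝ, 0 < c₀ ∧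
    ∀ h : Fin k → K[X], Function.Injective h → ∃ L : ℝ,
      Filter.Tendsto (fun n : ℕ => ∏ P ∈ PU K n, lf P h) Filter.atTop (nhds L) ∧
      ((∀ P : K[X], P.Monic → Irreducible P → om P h < Fintype.card K ^ P.natDegree) → c₀ ≤ L)

/-- **The theorem**: for almost all tuples `h` of polynomials of degree `< d` the number of the monic
`a` of degree `d` such that all the `(a + h i) ^ 2 + X` are irreducible is given by the
Bateman–Horn formula, with a power saving both in the error term and in the exceptional set. -/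
def S_tup : Prop :=
  ∀ (K : Type) [Field K] [Fintype K] [CharP K 2] (k : ℕ), 1 ≤ k →
    ∃ (c c₀ : ℝ) (S : (Fin k → K[X]) → ℝ), 0 < c ∧ 0 < c₀ ∧
    (∀ h : Fin k → K[X], Function.Injective h →
      Filter.Tendsto (fun n : ℕ => ∏ P ∈ PU K n, lf P h) Filter.atTop (nhds (S h)) ∧
      ((∀ P : K[X], P.Monic → Irreducible P → om P h < Fintype.card K ^ P.natDegree) →
        c₀ ≤ S h)) ∧
    ∃ d₀ : ℕ, ∀ d : ℕ, d₀ ≤ d →
      (((Hs K k d).filter (fun h => Function.Injective h ∧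
        (Fintype.card K : ℝ) ^ ((1 - c) * d) <
          |(((Mn K d).filter (fun a => ∀ i, Irreducible ((a + h i) ^ 2 + X))).card : ℝ) -
            S h * (Fintype.card K : ℝ) ^ d / (2 * (d : ℝ)) ^ k|)).card : ℝ) ≤
        (Fintype.card K : ℝ) ^ ((k - c) * d)

/-- **Task T9.**  The assembly.  Take `S_fourk` with `θ₀ = 1 / k`, `t = ⌊θ d⌋`; T3 with `f = nu d`,
`f' = nus K t`, `Y = q ^ ((1 - c) d)` (T1 and `SX`), `B = q ^ (ε d)` with small `ε` (T4, and
`2 d ≤ q ^ (ε d)`), so the sum over `h` of the square of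
`(2 d) ^ k R h - q ^ d * (the sum in T5)` is at most `q ^ ((k + 2 - c / 2) d)`, so
`|…| ≤ q ^ ((1 - c') d)` for all but `q ^ ((k - c') d)` of the `h`; T5, T6 (let `n → ∞`), T7, T8. -/
def S_tt9 : Prop := S_fourk → S_t1 → S_t3 → S_t4 → S_t5 → S_t6 → S_t7 → S_t8 → S_tup

end Pool.Agent.H290.FX
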