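import Pool.Agent.H290.FX.StmT

/-!
# Task T1 (written by helper199): the Fourier transform of the model
-/

set_option autoImplicit false

namespace Pool.Agent.H290.FX.PT1

open Polynomial
open scoped Classical
open Pool.Agent.H290.FX
open Pool.Agent.H985.Chow (mob)
open Pool.Agent.H985.KP (sg PA)
open Pool.Agent.H694.Typ (Mn PU mem_Mn card_Mn q_ge)
open Pool.Agent.H604.LD (PiM)

section sqf

variable {K : Type} [Field K]

/-- The monic primes of `r`. -/
noncomputable def SP (r : K[X]) : Finset K[X] :=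
  (UniqueFactorizationMonoid.normalizedFactors r).toFinset

theorem mem_SP {F P : K[X]} (hF : F ≠ 0) :
    P ∈ SP F ↔ P.Monic ∧ Irreducible P ∧ P ∣ F := by
  unfold SP
  rw [Multiset.mem_toFinset, UniqueFactorizationMonoid.mem_normalizedFactors_iff' hF]
  constructor
  · rintro ⟨a, b, c⟩
    exact ⟨by rw [← b]; exact monic_normalize a.ne_zero, a, c⟩
  · rintro ⟨a, b, c⟩
    exact ⟨b, a.normalize_eq_self, c⟩

theorem prod_SP {g : K[X]} (hg : g.Monic) (hs : Squarefree g) : ∏ P ∈ SP g, P = g := by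
  have hnd := (UniqueFactorizationMonoid.squarefree_iff_nodup_normalizedFactors hg.ne_zero).1 hs
  have e1 : ∏ P ∈ SP g, P = (UniqueFactorizationMonoid.normalizedFactors g).prod := by
    unfold SP
    rw [Finset.prod, Multiset.toFinset_val, Multiset.dedup_eq_self.2 hnd, Multiset.map_id']
  have e3 : (∏ P ∈ SP g, P).Monic :=
    monic_prod_of_monic _ _ fun P hP => ((mem_SP hg.ne_zero).1 hP).1
  refine eq_of_monic_of_associated e3 hg ?_
  rw [e1]
  exact UniqueFactorizationMonoid.prod_normalizedFactors hg.ne_zero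

theorem mob_card {g : K[X]} (hg : g.Monic) (hs : Squarefree g) :
    mob g = (-1) ^ (SP g).card := by
  have hnd := (UniqueFactorizationMonoid.squarefree_iff_nodup_normalizedFactors hg.ne_zero).1 hs
  unfold mob SP
  rw [if_pos hs, Multiset.toFinset_card_of_nodup hnd]
  congr 1
  unfold UniqueFactorizationMonoid.normalizedFactors
  rw [Multiset.card_map]

theorem finprod_PA {g : K[X]} (hg : g.Monic) (f : K[X] → ℝ) :
    ∏ᶠ P ∈ PA g, f P = ∏ P ∈ SP g, f P := by
  have h : PA g = (SP g : Set K[X]) := by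
    ext P
    rw [Finset.mem_coe, mem_SP hg.ne_zero]
    rfl
  rw [h, finprod_mem_coe_finset]

theorem prod_monic {r : K[X]} (hr : r.Monic) {T : Finset K[X]} (hT : T ⊆ SP r) :
    (∏ P ∈ T, P).Monic :=
  monic_prod_of_monic _ _ fun _ hP => ((mem_SP hr.ne_zero).1 (hT hP)).1

theorem prod_dvd {r : K[X]} (hr : r.Monic) (hs : Squarefree r) {T : Finset K[X]} (hT : T ⊆ SP r) :
    (∏ P ∈ T, P) ∣ r := by
  have h := Finset.prod_dvd_prod_of_subset T (SP r) (fun P => P) hT
  rwa [prod_SP hr hs] at h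

theorem pow_prod {r : K[X]} (hr : r.Monic) {T : Finset K[X]} (hT : T ⊆ SP r) (q : ℝ) :
    ∏ P ∈ T, q ^ P.natDegree = q ^ (∏ P ∈ T, P).natDegree := by
  rw [Finset.prod_pow_eq_pow_sum,
    natDegree_prod_of_monic _ _ (fun P hP => ((mem_SP hr.ne_zero).1 (hT hP)).1)]

theorem eq_of_dvd {P Q : K[X]} (hP : P.Monic) (hPi : Irreducible P) (hQ : Q.Monic)
    (hQi : Irreducible Q) (h : P ∣ Q) : P = Q :=
  eq_of_monic_of_associated hP hQ (hPi.associated_of_dvd hQi h)

theorem all_dvd {r f : K[X]} (hr : r.Monic) {T : Finset K[X]} (hT : T ⊆ SP r) :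
    (∀ P ∈ T, P ∣ f) ↔ (∏ P ∈ T, P) ∣ f := by
  constructor
  · intro h
    refine Finset.prod_dvd_of_coprime ?_ h
    intro P hP Q hQ hne
    rw [Finset.mem_coe] at hP hQ
    have h1 := (mem_SP hr.ne_zero).1 (hT hP)
    have h2 := (mem_SP hr.ne_zero).1 (hT hQ)
    exact (h1.2.1.coprime_iff_not_dvd).2 fun h3 => hne (eq_of_dvd h1.1 h1.2.1 h2.1 h2.2.1 h3)
  · intro h P hP
    exact (Finset.dvd_prod_of_mem (fun P => P) hP).trans h

theorem sub_iff {r r₀ : K[X]} (hr : r.Monic) (h0 : r₀.Monic) (hs : Squarefree r₀)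
    {T : Finset K[X]} (hT : T ⊆ SP r) : r₀ ∣ (∏ P ∈ T, P) ↔ SP r₀ ⊆ T := by
  constructor
  · intro h P hP
    rw [mem_SP h0.ne_zero] at hP
    obtain ⟨Q, hQ, hPQ⟩ := (hP.2.1.prime.dvd_finsetProd_iff (fun P => P)).1 (hP.2.2.trans h)
    have h2 := (mem_SP hr.ne_zero).1 (hT hQ)
    have h3 := eq_of_dvd hP.1 hP.2.1 h2.1 h2.2.1 hPQ
    rw [h3]
    exact hQ
  · intro h
    have h1 := Finset.prod_dvd_prod_of_subset (SP r₀) T (fun P => P) h
    rwa [prod_SP h0 hs] at h1

end sqf


theorem alt_sum {α : Type} (S T₀ : Finset α) :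
    ∑ T ∈ S.powerset, (if T₀ ⊆ T then (-1 : ℝ) ^ T.card else 0) =
      if T₀ = S then (-1 : ℝ) ^ T₀.card else 0 := by
  by_cases h : T₀ ⊆ S
  · rw [← Finset.sum_filter]
    have h1 : (S.powerset.filter (fun T => T₀ ⊆ T)) = (S \ T₀).powerset.image (fun U => T₀ ∪ U) := by
      ext T
      rw [Finset.mem_filter, Finset.mem_powerset, Finset.mem_image]
      constructor
      · rintro ⟨h1, h2⟩
        exact ⟨T \ T₀, Finset.mem_powerset.2 (Finset.sdiff_subset_sdiff h1 subset_rfl),
          Finset.union_sdiff_of_subset h2⟩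
      · rintro ⟨U, hU, rfl⟩
        rw [Finset.mem_powerset] at hU
        exact ⟨Finset.union_subset h (hU.trans Finset.sdiff_subset), Finset.subset_union_left⟩
    have hdis : ∀ U ∈ (S \ T₀).powerset, Disjoint T₀ U := by
      intro U hU
      rw [Finset.mem_powerset] at hU
      exact (Finset.disjoint_sdiff).mono_right hU
    rw [h1, Finset.sum_image]
    · have h2 : ∀ U ∈ (S \ T₀).powerset, (-1 : ℝ) ^ (T₀ ∪ U).card =
          (-1 : ℝ) ^ T₀.card * (-1 : ℝ) ^ U.card := by
        intro U hU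
        rw [Finset.card_union_of_disjoint (hdis U hU), pow_add]
      rw [Finset.sum_congr rfl h2, ← Finset.mul_sum]
      have h3 : ∑ U ∈ (S \ T₀).powerset, (-1 : ℝ) ^ U.card = if S \ T₀ = ∅ then 1 else 0 := by
        have h4 := Finset.sum_powerset_neg_one_pow_card (x := S \ T₀)
        have h5 : ((∑ U ∈ (S \ T₀).powerset, (-1 : ℤ) ^ U.card : ℤ) : ℝ) =
            ∑ U ∈ (S \ T₀).powerset, (-1 : ℝ) ^ U.card := by
          push_cast
          rfl
        rw [← h5, h4]
        split_ifs <;> simp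
      rw [h3]
      by_cases h6 : T₀ = S
      · rw [if_pos h6, if_pos, mul_one]
        rw [h6, Finset.sdiff_self]
      · rw [if_neg h6, if_neg, mul_zero]
        intro h7
        rw [Finset.sdiff_eq_empty_iff_subset] at h7
        exact h6 (Finset.Subset.antisymm h h7)
    · intro U hU V hV hUV
      have h2 := hdis U hU
      have h3 := hdis V hV
      have h4 : T₀ ∪ U = T₀ ∪ V := hUV
      rw [← Finset.union_sdiff_cancel_left h2, h4, Finset.union_sdiff_cancel_left h3]
  · rw [if_neg]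
    · refine Finset.sum_eq_zero fun T hT => ?_
      rw [Finset.mem_powerset] at hT
      rw [if_neg fun h1 => h (h1.trans hT)]
    · intro h1
      exact h (h1 ▸ subset_rfl)

section main

variable {K : Type} [Field K] [Fintype K]

theorem mem_Sq {t : ℕ} {r : K[X]} : r ∈ Sq K t ↔ r.Monic ∧ r.natDegree ≤ t ∧ Squarefree r := by
  unfold Sq
  rw [Finset.mem_filter, Finset.mem_biUnion]
  constructor
  · rintro ⟨⟨n, hn, hr⟩, hs⟩
    rw [Finset.mem_range] at hn
    rw [mem_Mn] at hr
    exact ⟨hr.1, by omega, hs⟩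
  · rintro ⟨h1, h2, h3⟩
    exact ⟨⟨r.natDegree, by rw [Finset.mem_range]; omega, mem_Mn.2 ⟨h1, rfl⟩⟩, h3⟩

theorem one_lt_pow {r P : K[X]} (hr : r.Monic) (hP : P ∈ SP r) :
    0 < (Fintype.card K : ℝ) ^ P.natDegree - 1 := by
  rw [mem_SP hr.ne_zero] at hP
  have h2 : (1 : ℝ) < (Fintype.card K : ℝ) := by exact_mod_cast Fintype.one_lt_card
  have h3 := one_lt_pow₀ h2 hP.2.1.natDegree_pos.ne'
  linarith

/-- The Euler function. -/
noncomputable def Ph (r : K[X]) : ℝ := ∏ P ∈ SP r, ((Fintype.card K : ℝ) ^ P.natDegree - 1)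

theorem Ph_pos {r : K[X]} (hr : r.Monic) : 0 < Ph r :=
  Finset.prod_pos fun _ hP => one_lt_pow hr hP

theorem card_PiM {r : K[X]} (hr : r.Monic) (hs : Squarefree r) :
    (Fintype.card K : ℝ) ^ r.natDegree * PiM r = Ph r := by
  have hq : (0 : ℝ) < (Fintype.card K : ℝ) := by exact_mod_cast Fintype.card_pos
  unfold PiM Ph
  have h := pow_prod hr (T := SP r) subset_rfl (Fintype.card K : ℝ)
  rw [prod_SP hr hs] at h
  rw [finprod_PA hr, ← h, ← Finset.prod_mul_distrib]
  refine Finset.prod_congr rfl fun P _ => ?_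
  have h1 : (Fintype.card K : ℝ) ^ P.natDegree ≠ 0 := (pow_pos hq _).ne'
  field_simp

/-- The expansion of the model. -/
theorem prod_lm {r : K[X]} (hr : r.Monic) (a : K[X]) :
    ∏ᶠ P ∈ PA r, lm P a = (Ph r)⁻¹ * ∑ T ∈ (SP r).powerset,
      (-1 : ℝ) ^ T.card * (Fintype.card K : ℝ) ^ (∏ P ∈ T, P).natDegree *
        (if (∏ P ∈ T, P) ∣ a ^ 2 + X then 1 else 0) := by
  rw [finprod_PA hr]
  have h1 : ∀ P ∈ SP r, lm P a = ((Fintype.card K : ℝ) ^ P.natDegree - 1)⁻¹ *
      (1 + (-1) * (Fintype.card K : ℝ) ^ P.natDegree * (if P ∣ a ^ 2 + X then 1 else 0)) := by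
    intro P hP
    have h2 := one_lt_pow hr hP
    unfold lm
    split_ifs
    · field_simp
      ring
    · field_simp
      ring
  rw [Finset.prod_congr rfl h1, Finset.prod_mul_distrib, Finset.prod_inv_distrib,
    Finset.prod_one_add]
  unfold Ph
  congr 1
  refine Finset.sum_congr rfl fun T hT => ?_
  rw [Finset.mem_powerset] at hT
  rw [Finset.prod_mul_distrib, Finset.prod_mul_distrib, Finset.prod_const, pow_prod hr hT,
    Finset.prod_ite_zero, Finset.prod_const_one]
  simp only [all_dvd hr hT]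

omit [Fintype K] in
theorem deg_mul_lt {E v : K[X]} {d : ℕ} (hE : E.Monic) (hd : E.natDegree ≤ d) :
    (E * v).degree < (d : WithBot ℕ) ↔ v.degree < ((d - E.natDegree : ℕ) : WithBot ℕ) := by
  by_cases h : v = 0
  · rw [h, mul_zero, degree_zero]
    exact ⟨fun _ => WithBot.bot_lt_coe _, fun _ => WithBot.bot_lt_coe _⟩
  · have h1 : E * v ≠ 0 := mul_ne_zero hE.ne_zero h
    rw [degree_eq_natDegree h1, degree_eq_natDegree h, hE.natDegree_mul' h, Nat.cast_lt, Nat.cast_lt]
    omega

variable [CharP K 2]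

theorem root_iff (hroot : S_root) {E : K[X]} (hE : E.Monic) (hs : Squarefree E) (a : K[X]) :
    E ∣ a ^ 2 + X ↔ E ∣ a - rt E := by
  obtain ⟨h1, h2⟩ := hroot K E hE
  constructor
  · intro h
    exact (h2 a h).2
  · intro h
    have e : a ^ 2 + X = (a - rt E) ^ 2 + (rt E ^ 2 + X) := by
      have e2 : (2 : K[X]) = 0 := CharTwo.two_eq_zero
      have e3 : a ^ 2 + X = (a - rt E) ^ 2 + (rt E ^ 2 + X) + 2 * (a * rt E - rt E ^ 2) := by ring
      rw [e3, e2]
      ring
    rw [e]
    exact dvd_add (h.pow (by norm_num)) (h1 hs).1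

/-- The sum over the `a` with `E ∣ a ^ 2 + X`. -/
theorem sum_E (hroot : S_root) {d : ℕ} (χ : AddChar K[X] ℝ) {E : K[X]} (hE : E.Monic)
    (hs : Squarefree E) (hd : E.natDegree ≤ d) :
    ∑ a ∈ (Mn K d).filter (fun a => E ∣ a ^ 2 + X), χ a =
      if Per d χ E then χ (rt E + E * X ^ (d - E.natDegree)) *
        (Fintype.card K : ℝ) ^ (d - E.natDegree) else 0 := by
  have hrt := ((hroot K E hE).1 hs).2
  have hrt' : (rt E).degree < (d : WithBot ℕ) := by
    refine hrt.trans_le ?_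
    rw [degree_eq_natDegree hE.ne_zero]
    exact_mod_cast hd
  have hX : (E * X ^ (d - E.natDegree)).Monic := hE.mul (monic_X_pow _)
  have hXd : (E * X ^ (d - E.natDegree)).natDegree = d := by
    rw [hE.natDegree_mul (monic_X_pow _), natDegree_X_pow]
    omega
  have hY : (rt E + E * X ^ (d - E.natDegree)) = E * X ^ (d - E.natDegree) + rt E := by ring
  have h1 : (Mn K d).filter (fun a => E ∣ a ^ 2 + X) =
      (Vs K (d - E.natDegree)).image (fun v => rt E + E * X ^ (d - E.natDegree) + E * v) := by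
    ext a
    rw [Finset.mem_filter, Finset.mem_image, mem_Mn, root_iff hroot hE hs]
    constructor
    · rintro ⟨⟨ha, had⟩, s, hs'⟩
      refine ⟨s - X ^ (d - E.natDegree), ?_, ?_⟩
      · rw [mem_Vs, ← deg_mul_lt hE hd, mul_sub]
        have e : E * s - E * X ^ (d - E.natDegree) =
            (a - E * X ^ (d - E.natDegree)) - rt E := by
          rw [← hs']
          ring
        rw [e]
        refine (degree_sub_le _ _).trans_lt (max_lt ?_ hrt')
        have h2 := degree_sub_lt_left (p := a) (q := E * X ^ (d - E.natDegree))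
          (by rw [degree_eq_natDegree ha.ne_zero, degree_eq_natDegree hX.ne_zero, had, hXd])
          ha.ne_zero (by rw [ha.leadingCoeff, hX.leadingCoeff])
        rwa [degree_eq_natDegree ha.ne_zero, had] at h2
      · rw [mul_sub, ← hs']
        ring
    · rintro ⟨v, hv, rfl⟩
      rw [mem_Vs, ← deg_mul_lt hE hd] at hv
      have hlow : (rt E + E * v).degree < (E * X ^ (d - E.natDegree)).degree := by
        rw [degree_eq_natDegree hX.ne_zero, hXd]
        exact (degree_add_le _ _).trans_lt (max_lt hrt' hv)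
      have e : rt E + E * X ^ (d - E.natDegree) + E * v =
          E * X ^ (d - E.natDegree) + (rt E + E * v) := by ring
      refine ⟨⟨?_, ?_⟩, ?_⟩
      · rw [e]
        exact hX.add_of_left hlow
      · rw [e, natDegree_add_eq_left_of_degree_lt hlow, hXd]
      · exact ⟨X ^ (d - E.natDegree) + v, by ring⟩
  rw [h1, Finset.sum_image]
  · have h2 : ∀ v ∈ Vs K (d - E.natDegree),
        χ (rt E + E * X ^ (d - E.natDegree) + E * v) =
          χ (rt E + E * X ^ (d - E.natDegree)) * χ (E * v) := fun v _ => χ.map_add_eq_mul _ _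
    rw [Finset.sum_congr rfl h2, ← Finset.mul_sum]
    split_ifs with hper
    · congr 1
      have h3 : ∀ v ∈ Vs K (d - E.natDegree), χ (E * v) = 1 := by
        intro v hv
        rw [mem_Vs, ← deg_mul_lt hE hd] at hv
        exact hper v hv
      rw [Finset.sum_congr rfl h3, Finset.sum_const, card_Vs, nsmul_eq_mul, mul_one]
      push_cast
      rfl
    · unfold Per at hper
      push Not at hper
      obtain ⟨s, hs1, hs2⟩ := hper
      rw [deg_mul_lt hE hd] at hs1
      have h3 : ∑ v ∈ Vs K (d - E.natDegree), χ (E * v) =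
          ∑ v ∈ Vs K (d - E.natDegree), χ (E * (v + s)) := by
        refine Finset.sum_nbij' (fun v => v - s) (fun v => v + s) ?_ ?_ ?_ ?_ ?_
        · intro v hv
          rw [mem_Vs] at hv ⊢
          exact (degree_sub_le _ _).trans_lt (max_lt hv hs1)
        · intro v hv
          rw [mem_Vs] at hv ⊢
          exact (degree_add_le _ _).trans_lt (max_lt hv hs1)
        · intro v _
          ring
        · intro v _
          ring
        · intro v _
          congr 2
          ring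
      have h4 : ∑ v ∈ Vs K (d - E.natDegree), χ (E * (v + s)) =
          (∑ v ∈ Vs K (d - E.natDegree), χ (E * v)) * χ (E * s) := by
        rw [Finset.sum_mul]
        refine Finset.sum_congr rfl fun v _ => ?_
        rw [mul_add, χ.map_add_eq_mul]
      rw [h4] at h3
      have h5 : (∑ v ∈ Vs K (d - E.natDegree), χ (E * v)) * (1 - χ (E * s)) = 0 := by
        linear_combination h3
      rcases mul_eq_zero.1 h5 with h6 | h6
      · rw [h6, mul_zero]
      · exact absurd (by linarith) hs2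
  · intro v _ w _ hvw
    have h2 : E * v = E * w := by
      have h3 : rt E + E * X ^ (d - E.natDegree) + E * v =
        rt E + E * X ^ (d - E.natDegree) + E * w := hvw
      exact add_left_cancel h3
    exact mul_left_cancel₀ hE.ne_zero h2

/-- The term of `r`. -/
theorem sum_r (hroot : S_root) {d : ℕ} (χ : AddChar K[X] ℝ) {r : K[X]} (hr : r.Monic)
    (hs : Squarefree r) (hd : r.natDegree ≤ d) :
    ∑ a ∈ Mn K d, (∏ᶠ P ∈ PA r, lm P a) * χ a = (Fintype.card K : ℝ) ^ d / Ph r *
      ∑ T ∈ (SP r).powerset, (if Per d χ (∏ P ∈ T, P) then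
        (-1 : ℝ) ^ T.card * χ (rt (∏ P ∈ T, P) +
          (∏ P ∈ T, P) * X ^ (d - (∏ P ∈ T, P).natDegree)) else 0) := by
  have h1 : ∀ a ∈ Mn K d, (∏ᶠ P ∈ PA r, lm P a) * χ a =
      ∑ T ∈ (SP r).powerset, (Ph r)⁻¹ * ((-1 : ℝ) ^ T.card *
        (Fintype.card K : ℝ) ^ (∏ P ∈ T, P).natDegree) *
        (if (∏ P ∈ T, P) ∣ a ^ 2 + X then χ a else 0) := by
    intro a _
    rw [prod_lm hr, mul_assoc, Finset.sum_mul, Finset.mul_sum]
    refine Finset.sum_congr rfl fun T _ => ?_
    split_ifs <;> ring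
  rw [Finset.sum_congr rfl h1, Finset.sum_comm, Finset.mul_sum]
  refine Finset.sum_congr rfl fun T hT => ?_
  rw [Finset.mem_powerset] at hT
  have hm := prod_monic hr hT
  have hdv := prod_dvd hr hs hT
  have hsq : Squarefree (∏ P ∈ T, P) := hs.squarefree_of_dvd hdv
  have hdeg : (∏ P ∈ T, P).natDegree ≤ d := (natDegree_le_of_dvd hdv hr.ne_zero).trans hd
  rw [← Finset.mul_sum, ← Finset.sum_filter, sum_E hroot χ hm hsq hdeg]
  split_ifs
  · have h2 : (Fintype.card K : ℝ) ^ d = (Fintype.card K : ℝ) ^ (∏ P ∈ T, P).natDegree *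
        (Fintype.card K : ℝ) ^ (d - (∏ P ∈ T, P).natDegree) := by
      rw [← pow_add]
      congr 1
      omega
    rw [h2]
    ring
  · rw [mul_zero, mul_zero]

omit [Fintype K] in
theorem uniq_eq (h : S_uniq) {d : ℕ} {χ : AddChar K[X] ℝ}
    {r r' : K[X]} (h1 : MPer d χ r) (h2 : MPer d χ r') (h3 : r.natDegree + r'.natDegree ≤ d) :
    r = r' := by
  have a := h K d χ r r' h1 h2.1 h2.2.1 h3
  have b := h K d χ r' r h2 h1.1 h1.2.1 (by omega)
  exact eq_of_monic_of_associated h1.1 h2.1 (associated_of_dvd_dvd a b)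

/-- the main term when there is a minimal period -/
theorem MT_eq (h : S_uniq) {d t : ℕ}
    {χ : AddChar K[X] ℝ} {r : K[X]} (h1 : MPer d χ r) (h2 : r.natDegree ≤ t) (h3 : 2 * t ≤ d) :
    MT K d t χ = (mob r : ℝ) * χ (rt r + r * X ^ (d - r.natDegree)) *
      ((Fintype.card K : ℝ) ^ (d - r.natDegree) / PiM r) := by
  unfold MT
  by_cases hs : Squarefree r
  · have : (Sq K t).filter (fun r => MPer d χ r) = {r} := by
      ext r'
      rw [Finset.mem_filter, Finset.mem_singleton]
      constructor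
      · rintro ⟨ha, hb⟩
        rw [mem_Sq] at ha
        exact (uniq_eq h h1 hb (by omega)).symm
      · rintro rfl
        exact ⟨mem_Sq.2 ⟨h1.1, h2, hs⟩, h1⟩
    rw [this, Finset.sum_singleton]
  · have : (Sq K t).filter (fun r => MPer d χ r) = ∅ := by
      rw [Finset.filter_eq_empty_iff]
      intro r' ha hb
      rw [mem_Sq] at ha
      have := uniq_eq h h1 hb (by omega)
      exact hs (this ▸ ha.2.2)
    rw [this, Finset.sum_empty]
    have hm : mob r = 0 := by
      unfold Pool.Agent.H985.Chow.mob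
      rw [if_neg hs]
    rw [hm]
    simp

omit [Fintype K] [CharP K 2] in
/-- no minimal period of small degree: the character is minor -/
theorem minor_of {d t : ℕ} {χ : AddChar K[X] ℝ}
    (h : ¬ ∃ r, MPer d χ r ∧ r.natDegree ≤ t) (r : K[X]) (hr : r.Monic) (hrt : r.natDegree ≤ t) :
    ¬ Per d χ r := by
  intro hcon
  apply h
  have hex : ∃ n : ℕ, ∃ r : K[X], r.Monic ∧ r.natDegree = n ∧ Per d χ r :=
    ⟨r.natDegree, r, hr, rfl, hcon⟩
  obtain ⟨r₀, h1, h2, h3⟩ := Nat.find_spec hex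
  refine ⟨r₀, ⟨h1, h3, ?_⟩, ?_⟩
  · intro r' hr' hlt hper
    rw [h2] at hlt
    exact Nat.find_min hex hlt ⟨r', hr', rfl, hper⟩
  · rw [h2]
    exact (Nat.find_min' hex ⟨r, hr, rfl, hcon⟩).trans hrt

omit [CharP K 2] in
theorem MT_zero {d t : ℕ} {χ : AddChar K[X] ℝ}
    (h : ¬ ∃ r, MPer d χ r ∧ r.natDegree ≤ t) : MT K d t χ = 0 := by
  unfold MT
  have : (Sq K t).filter (fun r => MPer d χ r) = ∅ := by
    rw [Finset.filter_eq_empty_iff]
    intro r' ha hb
    rw [mem_Sq] at ha
    exact h ⟨r', hb, ha.2.1⟩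
  rw [this, Finset.sum_empty]

/-- The value of the character at the periods `E` of the minimal period `r₀`. -/
theorem chi_eq (hroot : S_root) {d : ℕ} {χ : AddChar K[X] ℝ} {r₀ E : K[X]} (h0 : MPer d χ r₀)
    (hE : E.Monic) (hs : Squarefree E) (hd : E.natDegree ≤ d) (hdv : r₀ ∣ E) :
    χ (rt E + E * X ^ (d - E.natDegree)) = χ (rt r₀ + r₀ * X ^ (d - r₀.natDegree)) := by
  have hs0 : Squarefree r₀ := hs.squarefree_of_dvd hdv
  have hd0 : r₀.natDegree ≤ d := (natDegree_le_of_dvd hdv hE.ne_zero).trans hd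
  obtain ⟨hE1, hE2⟩ := (hroot K E hE).1 hs
  obtain ⟨hr1, hr2⟩ := (hroot K r₀ h0.1).1 hs0
  have hE3 : (rt E).degree < (d : WithBot ℕ) := by
    refine hE2.trans_le ?_
    rw [degree_eq_natDegree hE.ne_zero]
    exact_mod_cast hd
  have hr3 : (rt r₀).degree < (d : WithBot ℕ) := by
    refine hr2.trans_le ?_
    rw [degree_eq_natDegree h0.1.ne_zero]
    exact_mod_cast hd0
  have hdiv : r₀ ∣ rt E - rt r₀ := ((hroot K r₀ h0.1).2 _ (hdv.trans hE1)).2
  have m1 : (E * X ^ (d - E.natDegree)).Monic := hE.mul (monic_X_pow _)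
  have m2 : (E * X ^ (d - E.natDegree)).natDegree = d := by
    rw [hE.natDegree_mul (monic_X_pow _), natDegree_X_pow]
    omega
  have n1 : (r₀ * X ^ (d - r₀.natDegree)).Monic := h0.1.mul (monic_X_pow _)
  have n2 : (r₀ * X ^ (d - r₀.natDegree)).natDegree = d := by
    rw [h0.1.natDegree_mul (monic_X_pow _), natDegree_X_pow]
    omega
  have hdiff : r₀ ∣ (rt E - rt r₀) + (E * X ^ (d - E.natDegree) - r₀ * X ^ (d - r₀.natDegree)) :=
    dvd_add hdiv (dvd_sub (hdv.mul_right _) (dvd_mul_right _ _))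
  have hlt : ((rt E - rt r₀) +
      (E * X ^ (d - E.natDegree) - r₀ * X ^ (d - r₀.natDegree))).degree < (d : WithBot ℕ) := by
    refine (degree_add_le _ _).trans_lt (max_lt ?_ ?_)
    · exact (degree_sub_le _ _).trans_lt (max_lt hE3 hr3)
    · have h2 := degree_sub_lt_left (p := E * X ^ (d - E.natDegree))
        (q := r₀ * X ^ (d - r₀.natDegree))
        (by rw [degree_eq_natDegree m1.ne_zero, degree_eq_natDegree n1.ne_zero, m2, n2])
        m1.ne_zero (by rw [m1.leadingCoeff, n1.leadingCoeff])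
      rwa [degree_eq_natDegree m1.ne_zero, m2] at h2
  obtain ⟨s, hs'⟩ := hdiff
  have e : rt E + E * X ^ (d - E.natDegree) = r₀ * s + (rt r₀ + r₀ * X ^ (d - r₀.natDegree)) := by
    rw [← hs']
    ring
  rw [hs'] at hlt
  rw [e, χ.map_add_eq_mul, h0.2.1 s hlt, one_mul]

end main

/-- **Task T1.** -/
theorem main : S_tt1 := by
  intro hroot huniq K _ _ _ d t χ htd
  have hq : (0 : ℝ) < (Fintype.card K : ℝ) := by exact_mod_cast Fintype.card_pos
  have h1 : ∑ a ∈ Mn K d, nus K t a * χ a =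
      ∑ r ∈ Sq K t, ∑ a ∈ Mn K d, (∏ᶠ P ∈ PA r, lm P a) * χ a := by
    rw [Finset.sum_comm]
    refine Finset.sum_congr rfl fun a _ => ?_
    unfold nus
    rw [Finset.sum_mul]
  rw [h1]
  have h2 : ∀ r ∈ Sq K t, ∑ a ∈ Mn K d, (∏ᶠ P ∈ PA r, lm P a) * χ a =
      (Fintype.card K : ℝ) ^ d / Ph r *
      ∑ T ∈ (SP r).powerset, (if Per d χ (∏ P ∈ T, P) then
        (-1 : ℝ) ^ T.card * χ (rt (∏ P ∈ T, P) +
          (∏ P ∈ T, P) * X ^ (d - (∏ P ∈ T, P).natDegree)) else 0) := by
    intro r hr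
    rw [mem_Sq] at hr
    exact sum_r hroot χ hr.1 hr.2.2 (by omega)
  rw [Finset.sum_congr rfl h2]
  by_cases hex : ∃ r, MPer d χ r ∧ r.natDegree ≤ t
  · obtain ⟨r₀, h0, h0t⟩ := hex
    rw [MT_eq huniq h0 h0t htd]
    have h3 : ∀ r ∈ Sq K t, (∑ T ∈ (SP r).powerset, (if Per d χ (∏ P ∈ T, P) then
        (-1 : ℝ) ^ T.card * χ (rt (∏ P ∈ T, P) +
          (∏ P ∈ T, P) * X ^ (d - (∏ P ∈ T, P).natDegree)) else 0)) =
        χ (rt r₀ + r₀ * X ^ (d - r₀.natDegree)) *
          ∑ T ∈ (SP r).powerset, (if r₀ ∣ ∏ P ∈ T, P then (-1 : ℝ) ^ T.card else 0) := by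
      intro r hr
      rw [mem_Sq] at hr
      obtain ⟨hr1, hr2, hr3⟩ := hr
      rw [Finset.mul_sum]
      refine Finset.sum_congr rfl fun T hT => ?_
      rw [Finset.mem_powerset] at hT
      have hm := prod_monic hr1 hT
      have hdv := prod_dvd hr1 hr3 hT
      have hsq : Squarefree (∏ P ∈ T, P) := hr3.squarefree_of_dvd hdv
      have hdeg : (∏ P ∈ T, P).natDegree ≤ t :=
        (natDegree_le_of_dvd hdv hr1.ne_zero).trans hr2
      have hiff : Per d χ (∏ P ∈ T, P) ↔ r₀ ∣ ∏ P ∈ T, P := by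
        constructor
        · intro h
          exact huniq K d χ r₀ _ h0 hm h (by omega)
        · rintro ⟨k, hk⟩ s hs
          rw [hk, mul_assoc] at hs ⊢
          exact h0.2.1 _ hs
      by_cases hd : r₀ ∣ ∏ P ∈ T, P
      · rw [if_pos (hiff.2 hd), if_pos hd, chi_eq hroot h0 hm hsq (by omega) hd]
        ring
      · rw [if_neg (fun h => hd (hiff.1 h)), if_neg hd, mul_zero]
    have h4 : ∀ r ∈ Sq K t, (Fintype.card K : ℝ) ^ d / Ph r *
      (∑ T ∈ (SP r).powerset, (if Per d χ (∏ P ∈ T, P) then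
        (-1 : ℝ) ^ T.card * χ (rt (∏ P ∈ T, P) +
          (∏ P ∈ T, P) * X ^ (d - (∏ P ∈ T, P).natDegree)) else 0)) =
        if r = r₀ then (Fintype.card K : ℝ) ^ d / Ph r₀ *
          (χ (rt r₀ + r₀ * X ^ (d - r₀.natDegree)) * (mob r₀ : ℝ)) else 0 := by
      intro r hr
      rw [h3 r hr]
      rw [mem_Sq] at hr
      obtain ⟨hr1, hr2, hr3⟩ := hr
      by_cases hs : Squarefree r₀
      · have h5 : ∑ T ∈ (SP r).powerset, (if r₀ ∣ ∏ P ∈ T, P then (-1 : ℝ) ^ T.card else 0) =
            if SP r₀ = SP r then (-1 : ℝ) ^ (SP r₀).card else 0 := by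
          refine (Finset.sum_congr rfl fun T hT => ?_).trans
            ((alt_sum (SP r) (SP r₀)).trans ?_)
          · rw [Finset.mem_powerset] at hT
            by_cases h7 : SP r₀ ⊆ T
            · rw [if_pos h7, if_pos ((sub_iff hr1 h0.1 hs hT).2 h7)]
            · rw [if_neg h7, if_neg (fun h8 => h7 ((sub_iff hr1 h0.1 hs hT).1 h8))]
          · by_cases h7 : SP r₀ = SP r
            · rw [if_pos h7, if_pos h7]
            · rw [if_neg h7, if_neg h7]
        rw [h5]
        by_cases he : r = r₀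
        · rw [if_pos he, he, if_pos rfl, mob_card h0.1 hs]
          push_cast
          rfl
        · rw [if_neg he, if_neg, mul_zero, mul_zero]
          intro h6
          apply he
          rw [← prod_SP hr1 hr3, ← prod_SP h0.1 hs, h6]
      · have h5 : ∑ T ∈ (SP r).powerset,
            (if r₀ ∣ ∏ P ∈ T, P then (-1 : ℝ) ^ T.card else 0) = 0 := by
          refine Finset.sum_eq_zero fun T hT => ?_
          rw [Finset.mem_powerset] at hT
          rw [if_neg]
          intro h6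
          exact hs ((hr3.squarefree_of_dvd (prod_dvd hr1 hr3 hT)).squarefree_of_dvd h6)
        rw [h5, if_neg, mul_zero, mul_zero]
        intro he
        exact hs (he ▸ hr3)
    rw [Finset.sum_congr rfl h4, Finset.sum_ite_eq']
    by_cases hs : Squarefree r₀
    · rw [if_pos (mem_Sq.2 ⟨h0.1, h0t, hs⟩), ← card_PiM h0.1 hs]
      have hN : (0 : ℝ) < (Fintype.card K : ℝ) ^ r₀.natDegree := pow_pos hq _
      have hPi : PiM r₀ ≠ 0 := by
        intro h
        have h5 := Ph_pos h0.1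
        rw [← card_PiM h0.1 hs, h, mul_zero] at h5
        exact lt_irrefl _ h5
      have h6 : (Fintype.card K : ℝ) ^ d =
          (Fintype.card K : ℝ) ^ (d - r₀.natDegree) * (Fintype.card K : ℝ) ^ r₀.natDegree := by
        rw [← pow_add]
        congr 1
        omega
      rw [h6]
      field_simp
    · rw [if_neg fun h => hs (mem_Sq.1 h).2.2]
      have hm : mob r₀ = 0 := by
        unfold Pool.Agent.H985.Chow.mob
        rw [if_neg hs]
      rw [hm]
      simp
  · rw [MT_zero hex]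
    refine Finset.sum_eq_zero fun r hr => ?_
    rw [mem_Sq] at hr
    obtain ⟨hr1, hr2, hr3⟩ := hr
    rw [Finset.sum_eq_zero, mul_zero]
    intro T hT
    rw [Finset.mem_powerset] at hT
    rw [if_neg]
    exact minor_of hex _ (prod_monic hr1 hT)
      ((natDegree_le_of_dvd (prod_dvd hr1 hr3 hT) hr1.ne_zero).trans hr2)

end Pool.Agent.H290.FX.PT1
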