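import Pool.Agent.H290.FX.StmT

/-!
# The Gowers-Cauchy-Schwarz inequality for the shifts (task T2)
-/

namespace Pool.Agent.H290.FX.PT2

open Polynomial
open scoped Classical
open Pool.Agent.H694.Typ (Mn PU mem_Mn card_Mn)

theorem add_mem {K : Type} [Field K] [Fintype K] [CharP K 2] {d : ℕ} {a b : K[X]}
    (ha : a ∈ Mn K d) (hb : b ∈ Mn K d) : a + b ∈ Vs K d := by
  have h1 : a - X ^ d ∈ Vs K d := Finset.mem_image_of_mem _ ha
  have h2 : b - X ^ d ∈ Vs K d := Finset.mem_image_of_mem _ hb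
  rw [mem_Vs] at h1 h2 ⊢
  have h3 : a + b = (a - X ^ d) + (b - X ^ d) := by
    have h4 : (X : K[X]) ^ d + X ^ d = 0 := CharTwo.add_self_eq_zero _
    linear_combination h4
  rw [h3]
  exact (degree_add_le _ _).trans_lt (max_lt h1 h2)

theorem add_Mn {K : Type} [Field K] [Fintype K] {d : ℕ} {a h : K[X]}
    (ha : a ∈ Mn K d) (hh : h ∈ Vs K d) : a + h ∈ Mn K d := by
  rw [mem_Vs] at hh
  rw [mem_Mn] at ha ⊢
  have h1 : h.degree < a.degree := by rwa [degree_eq_natDegree ha.1.ne_zero, ha.2]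
  refine ⟨ha.1.add_of_left h1, ?_⟩
  rw [natDegree_eq_of_degree_eq (degree_add_eq_left_of_degree_lt h1), ha.2]

theorem add_Vs {K : Type} [Field K] [Fintype K] {d : ℕ} {a h : K[X]}
    (ha : a ∈ Vs K d) (hh : h ∈ Vs K d) : a + h ∈ Vs K d := by
  rw [mem_Vs] at hh ha ⊢
  exact (degree_add_le _ _).trans_lt (max_lt ha hh)

/-- The sum over the shifts of `a` by the elements of `Vs`. -/
theorem sum_shift {K : Type} [Field K] [Fintype K] [CharP K 2] {d : ℕ} {a : K[X]}
    (ha : a ∈ Mn K d) (F : K[X] → ℝ) :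
    ∑ x ∈ Vs K d, F (a + x) = ∑ y ∈ Mn K d, F y := by
  refine Finset.sum_bij' (fun x _ => a + x) (fun y _ => a + y) (fun x hx => add_Mn ha hx)
    (fun y hy => add_mem ha hy) ?_ ?_ (fun _ _ => rfl)
  · intro x _
    show a + (a + x) = x
    rw [← add_assoc, CharTwo.add_self_eq_zero, zero_add]
  · intro y _
    show a + (a + y) = y
    rw [← add_assoc, CharTwo.add_self_eq_zero, zero_add]

theorem sum_shift' {K : Type} [Field K] [Fintype K] [CharP K 2] {d : ℕ} {a : K[X]}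
    (ha : a ∈ Mn K d) (F : K[X] → ℝ) :
    ∑ y ∈ Mn K d, F (a + y) = ∑ x ∈ Vs K d, F x := by
  refine Finset.sum_bij' (fun y _ => a + y) (fun x _ => a + x) (fun y hy => add_mem ha hy)
    (fun x hx => add_Mn ha hx) ?_ ?_ (fun _ _ => rfl)
  · intro x _
    show a + (a + x) = x
    rw [← add_assoc, CharTwo.add_self_eq_zero, zero_add]
  · intro y _
    show a + (a + y) = y
    rw [← add_assoc, CharTwo.add_self_eq_zero, zero_add]

/-- The autocorrelation of `g`. -/
noncomputable def cor {K : Type} [Field K] [Fintype K] (d : ℕ) (g : K[X] → ℝ) (b : K[X]) : ℝ :=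
  ∑ y ∈ Mn K d, g y * g (y + b)

/-- The Fourier transform of `g`. -/
noncomputable def hat {K : Type} [Field K] [Fintype K] [CharP K 2] (d : ℕ) (g : K[X] → ℝ)
    (H : K[X]) : ℝ :=
  ∑ a ∈ Mn K d, g a * ch d H a

theorem hat_sq {K : Type} [Field K] [Fintype K] [CharP K 2] (d : ℕ) (g : K[X] → ℝ) (H : K[X]) :
    hat d g H ^ 2 = ∑ b ∈ Vs K d, cor d g b * ch d H b := by
  unfold hat cor
  rw [sq, Finset.sum_mul_sum]
  simp only [Finset.sum_mul]
  rw [Finset.sum_comm (s := Vs K d)]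
  refine Finset.sum_congr rfl fun a ha => ?_
  rw [← sum_shift' ha (fun b => g a * g (a + b) * ch d H b)]
  refine Finset.sum_congr rfl fun b _ => ?_
  rw [← add_assoc, CharTwo.add_self_eq_zero, zero_add, AddChar.map_add_eq_mul]
  ring

theorem parseval (hO : S_orth) (K : Type) [Field K] [Fintype K] [CharP K 2] (d : ℕ)
    (f : K[X] → ℝ) :
    ∑ H ∈ Vs K d, (∑ b ∈ Vs K d, f b * ch d H b) ^ 2 =
      (Fintype.card K : ℝ) ^ d * ∑ b ∈ Vs K d, f b ^ 2 := by
  have h1 : ∀ H ∈ Vs K d, (∑ b ∈ Vs K d, f b * ch d H b) ^ 2 =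
      ∑ b ∈ Vs K d, ∑ b' ∈ Vs K d, f b * f b' * ch d H (b + b') := by
    intro h _
    rw [sq, Finset.sum_mul_sum]
    refine Finset.sum_congr rfl fun b _ => Finset.sum_congr rfl fun b' _ => ?_
    rw [AddChar.map_add_eq_mul]
    ring
  rw [Finset.sum_congr rfl h1, Finset.sum_comm, Finset.mul_sum]
  refine Finset.sum_congr rfl fun b hb => ?_
  rw [Finset.sum_comm]
  have h2 : ∀ b' ∈ Vs K d, ∑ H ∈ Vs K d, f b * f b' * ch d H (b + b') =
      if b = b' then (Fintype.card K : ℝ) ^ d * (f b * f b') else 0 := by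
    intro b' hb'
    rw [← Finset.mul_sum, hO K d (b + b')
      ((degree_add_le _ _).trans_lt (max_lt (mem_Vs.1 hb) (mem_Vs.1 hb')))]
    have h5 : b + b' = 0 ↔ b = b' := CharTwo.add_eq_zero
    simp only [h5]
    split_ifs <;> ring
  rw [Finset.sum_congr rfl h2, Finset.sum_ite_eq, if_pos hb]
  ring

theorem zero_mem_Vs {K : Type} [Field K] [Fintype K] (d : ℕ) : (0 : K[X]) ∈ Vs K d := by
  rw [mem_Vs, degree_zero]
  exact WithBot.bot_lt_coe d

theorem cor_zero {K : Type} [Field K] [Fintype K] (d : ℕ) (g : K[X] → ℝ) :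
    cor d g (0 : K[X]) = ∑ y ∈ Mn K d, g y ^ 2 := by
  unfold cor
  refine Finset.sum_congr rfl fun y _ => ?_
  rw [add_zero, sq]

/-- Parseval for `hat`. -/
theorem hat_parseval (hO : S_orth) (K : Type) [Field K] [Fintype K] [CharP K 2] (d : ℕ)
    (g : K[X] → ℝ) :
    ∑ H ∈ Vs K d, hat d g H ^ 2 = (Fintype.card K : ℝ) ^ d * ∑ y ∈ Mn K d, g y ^ 2 := by
  have h1 : ∀ H ∈ Vs K d, hat d g H ^ 2 = ∑ b ∈ Vs K d, cor d g b * ch d H b :=
    fun H _ => hat_sq d g H
  rw [Finset.sum_congr rfl h1, Finset.sum_comm]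
  have h2 : ∀ b ∈ Vs K d, ∑ H ∈ Vs K d, cor d g b * ch d H b =
      if b = 0 then (Fintype.card K : ℝ) ^ d * cor d g b else 0 := by
    intro b hb
    rw [← Finset.mul_sum, hO K d b (mem_Vs.1 hb)]
    split_ifs <;> ring
  rw [Finset.sum_congr rfl h2, Finset.sum_ite_eq', if_pos (zero_mem_Vs d), cor_zero]

theorem main : S_tt2 := by
  intro hO K _ _ _ k d g B Y j hB hY
  set q : ℝ := (Fintype.card K : ℝ) with hq
  have hq0 : 0 < q := by
    rw [hq]
    exact_mod_cast Fintype.card_pos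
  have hk : 1 ≤ k := by
    have := j.pos
    omega
  have hcM : ((Mn K d).card : ℝ) = q ^ d := by
    rw [card_Mn, hq]
    push_cast
    rfl
  have hcV : ((Vs K d).card : ℝ) = q ^ d := by
    rw [card_Vs, hq]
    push_cast
    rfl
  have hXM : (X : K[X]) ^ d ∈ Mn K d := by
    rw [mem_Mn]
    exact ⟨monic_X_pow d, natDegree_X_pow d⟩
  have hB0 : 0 ≤ B := (abs_nonneg _).trans (hB j _ hXM)
  have hY0 : 0 ≤ Y := (abs_nonneg _).trans (hY 0 (zero_mem_Vs d))
  -- the expansion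
  have hexp : ∑ h ∈ Hs K k d, (∑ a ∈ Mn K d, ∏ i, g i (a + h i)) ^ 2 =
      q ^ d * ∑ b ∈ Vs K d, ∏ i, cor d (g i) b := by
    have h1 : ∀ h ∈ Hs K k d, (∑ a ∈ Mn K d, ∏ i, g i (a + h i)) ^ 2 =
        ∑ a ∈ Mn K d, ∑ a' ∈ Mn K d, ∏ i, (g i (a + h i) * g i (a' + h i)) := by
      intro h _
      rw [sq, Finset.sum_mul_sum]
      refine Finset.sum_congr rfl fun a _ => Finset.sum_congr rfl fun a' _ => ?_
      rw [Finset.prod_mul_distrib]
    rw [Finset.sum_congr rfl h1, Finset.sum_comm]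
    have h2 : ∀ a ∈ Mn K d, ∑ h ∈ Hs K k d, ∑ a' ∈ Mn K d,
        ∏ i, (g i (a + h i) * g i (a' + h i)) = ∑ b ∈ Vs K d, ∏ i, cor d (g i) b := by
      intro a ha
      rw [Finset.sum_comm, ← sum_shift' ha (fun b => ∏ i, cor d (g i) b)]
      refine Finset.sum_congr rfl fun a' ha' => ?_
      unfold Hs
      rw [Finset.sum_prod_piFinset (Vs K d) (fun i x => g i (a + x) * g i (a' + x))]
      refine Finset.prod_congr rfl fun i _ => ?_
      unfold cor
      rw [← sum_shift ha (fun y => g i y * g i (y + (a + a')))]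
      refine Finset.sum_congr rfl fun x _ => ?_
      have h3 : a + x + (a + a') = a' + x := by
        have h4 : a + a = 0 := CharTwo.add_self_eq_zero _
        linear_combination h4
      rw [h3]
    rw [Finset.sum_congr rfl h2, Finset.sum_const, nsmul_eq_mul, hcM]
  rw [hexp]
  -- the trivial bound
  have htriv : ∀ i, ∀ b ∈ Vs K d, |cor d (g i) b| ≤ B ^ 2 * q ^ d := by
    intro i b hb
    unfold cor
    refine (Finset.abs_sum_le_sum_abs _ _).trans ?_
    have : ∀ y ∈ Mn K d, |g i y * g i (y + b)| ≤ B ^ 2 := by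
      intro y hy
      rw [abs_mul, sq]
      exact mul_le_mul (hB i y hy) (hB i _ (add_Mn hy hb)) (abs_nonneg _) hB0
    refine (Finset.sum_le_sum this).trans ?_
    rw [Finset.sum_const, nsmul_eq_mul, hcM, mul_comm]
  -- the square mean
  have hmean : ∑ b ∈ Vs K d, cor d (g j) b ^ 2 ≤ Y ^ 2 * B ^ 2 * q ^ d := by
    have h1 : q ^ d * ∑ b ∈ Vs K d, cor d (g j) b ^ 2 =
        ∑ H ∈ Vs K d, (hat d (g j) H ^ 2) ^ 2 := by
      rw [hq, ← parseval hO K d]
      refine Finset.sum_congr rfl fun H _ => ?_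
      rw [hat_sq]
    have h2 : ∑ H ∈ Vs K d, (hat d (g j) H ^ 2) ^ 2 ≤
        ∑ H ∈ Vs K d, Y ^ 2 * hat d (g j) H ^ 2 := by
      refine Finset.sum_le_sum fun H hH => ?_
      have h3 : hat d (g j) H ^ 2 ≤ Y ^ 2 := by
        rw [← sq_abs]
        exact pow_le_pow_left₀ (abs_nonneg _) (hY H hH) 2
      rw [sq (hat d (g j) H ^ 2)]
      exact mul_le_mul_of_nonneg_right h3 (sq_nonneg _)
    rw [← Finset.mul_sum, hat_parseval hO K d] at h2
    have h4 : ∑ y ∈ Mn K d, g j y ^ 2 ≤ q ^ d * B ^ 2 := by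
      have : ∀ y ∈ Mn K d, g j y ^ 2 ≤ B ^ 2 := by
        intro y hy
        rw [← sq_abs]
        exact pow_le_pow_left₀ (abs_nonneg _) (hB j y hy) 2
      refine (Finset.sum_le_sum this).trans ?_
      rw [Finset.sum_const, nsmul_eq_mul, hcM]
    have h5 : q ^ d * ∑ b ∈ Vs K d, cor d (g j) b ^ 2 ≤ q ^ d * (Y ^ 2 * B ^ 2 * q ^ d) := by
      rw [h1]
      refine h2.trans ?_
      have h6 : Y ^ 2 * (q ^ d * ∑ y ∈ Mn K d, g j y ^ 2) ≤ Y ^ 2 * (q ^ d * (q ^ d * B ^ 2)) :=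
        mul_le_mul_of_nonneg_left (mul_le_mul_of_nonneg_left h4 (by positivity)) (by positivity)
      refine h6.trans (le_of_eq (by ring))
    exact le_of_mul_le_mul_left h5 (by positivity)
  have habs : ∑ b ∈ Vs K d, |cor d (g j) b| ≤ Y * B * q ^ d := by
    have h1 : (∑ b ∈ Vs K d, |cor d (g j) b|) ^ 2 ≤ (Y * B * q ^ d) ^ 2 := by
      refine sq_sum_le_card_mul_sum_sq.trans ?_
      rw [hcV]
      simp only [sq_abs]
      refine (mul_le_mul_of_nonneg_left hmean (by positivity)).trans (le_of_eq (by ring))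
    exact le_of_sq_le_sq h1 (by positivity)
  -- the conclusion
  have hprod : ∀ b ∈ Vs K d, ∏ i, cor d (g i) b ≤ |cor d (g j) b| * (B ^ 2 * q ^ d) ^ (k - 1) := by
    intro b hb
    refine (le_abs_self _).trans ?_
    rw [Finset.abs_prod, ← Finset.mul_prod_erase Finset.univ _ (Finset.mem_univ j)]
    refine mul_le_mul_of_nonneg_left ?_ (abs_nonneg _)
    have h1 : ∏ i ∈ Finset.univ.erase j, |cor d (g i) b| ≤
        ∏ i ∈ Finset.univ.erase j, (B ^ 2 * q ^ d) :=
      Finset.prod_le_prod (fun i _ => abs_nonneg _) (fun i _ => htriv i b hb)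
    refine h1.trans (le_of_eq ?_)
    rw [Finset.prod_const, Finset.card_erase_of_mem (Finset.mem_univ j), Finset.card_univ,
      Fintype.card_fin]
  have hfin : q ^ d * ∑ b ∈ Vs K d, ∏ i, cor d (g i) b ≤
      q ^ d * ((Y * B * q ^ d) * (B ^ 2 * q ^ d) ^ (k - 1)) := by
    refine mul_le_mul_of_nonneg_left ?_ (by positivity)
    refine (Finset.sum_le_sum hprod).trans ?_
    rw [← Finset.sum_mul]
    exact mul_le_mul_of_nonneg_right habs (by positivity)
  refine hfin.trans (le_of_eq ?_)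
  obtain ⟨n, rfl⟩ : ∃ n, k = n + 1 := ⟨k - 1, by omega⟩
  have e1 : 2 * (n + 1) - 1 = 2 * n + 1 := by omega
  have e2 : n + 1 - 1 = n := by omega
  rw [e1, e2, mul_pow, ← pow_mul, ← pow_mul]
  ring

end Pool.Agent.H290.FX.PT2
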