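import Pool.Agent.H290.FX.StmT

/-!
# Telescoping
-/

set_option autoImplicit false

namespace Pool.Agent.H290.FX.PT3

open Polynomial
open scoped Classical
open Pool.Agent.H290.FX
open Pool.Agent.H694.Typ (Mn PU)

lemma prod_three {k : ℕ} (j : Fin k) (u v w : Fin k → ℝ) :
    ∏ i, (if i < j then u i else if i = j then v i else w i) =
      v j * (∏ i ∈ Finset.univ.filter (fun i => i < j), u i) *
        ∏ i ∈ Finset.univ.filter (fun i => j < i), w i := by
  have h1 : v j = ∏ i, (if i = j then v i else 1) := by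
    rw [Finset.prod_ite_eq']
    simp
  rw [h1, Finset.prod_filter, Finset.prod_filter, ← Finset.prod_mul_distrib,
    ← Finset.prod_mul_distrib]
  refine Finset.prod_congr rfl (fun i _ => ?_)
  rcases lt_trichotomy i j with h | h | h
  · have h2 : i ≠ j := ne_of_lt h
    have h3 : ¬ j < i := not_lt_of_gt h
    rw [if_pos h, if_neg h2, if_pos h, if_neg h3]
    ring
  · have h2 : ¬ i < j := by rw [h]; exact lt_irrefl _
    have h3 : ¬ j < i := by rw [h]; exact lt_irrefl _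
    rw [if_neg h2, if_pos h, if_pos h, if_neg h2, if_neg h3]
    ring
  · have h2 : i ≠ j := ne_of_gt h
    have h3 : ¬ i < j := not_lt_of_gt h
    rw [if_neg h3, if_neg h2, if_neg h2, if_neg h3, if_pos h]
    ring

lemma telesc {k : ℕ} (u w : Fin k → ℝ) :
    ∏ i, u i - ∏ i, w i =
      ∑ j, ∏ i, (if i < j then u i else if i = j then u i - w i else w i) := by
  have h := Finset.prod_add_ordered (Finset.univ : Finset (Fin k)) w (fun i => u i - w i)
  have h1 : ∀ i, w i + (u i - w i) = u i := fun i => by ring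
  simp_rw [h1] at h
  rw [h]
  rw [add_sub_cancel_left]
  refine Finset.sum_congr rfl (fun j _ => ?_)
  rw [prod_three j u (fun i => u i - w i) w]

theorem main : S_tt3 := by
  intro hT2 K _ _ _ k d f f' B Y hk hB hY
  set q : ℝ := (Fintype.card K : ℝ) with hq
  set g : Fin k → Fin k → K[X] → ℝ := fun j i a =>
    if i < j then f a else if i = j then f a - f' a else f' a with hg
  have hgB : ∀ j i, ∀ a ∈ Mn K d, |g j i a| ≤ 2 * B := by
    intro j i a ha
    obtain ⟨h1, h2⟩ := hB a ha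
    have h0 : 0 ≤ B := (abs_nonneg _).trans h1
    simp only [hg]
    split_ifs
    · linarith
    · calc |f a - f' a| ≤ |f a| + |f' a| := abs_sub _ _
        _ ≤ 2 * B := by linarith
    · linarith
  have hgY : ∀ j, ∀ H ∈ Vs K d, |∑ a ∈ Mn K d, g j j a * ch d H a| ≤ Y := by
    intro j H hH
    have h1 : ∀ a, g j j a = f a - f' a := by
      intro a
      show (if j < j then f a else if j = j then f a - f' a else f' a) = f a - f' a
      rw [if_neg (lt_irrefl _), if_pos rfl]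
    simp_rw [h1]
    exact hY H hH
  have hmain : ∀ j, ∑ h ∈ Hs K k d, (∑ a ∈ Mn K d, ∏ i, g j i (a + h i)) ^ 2 ≤
      (2 * B) ^ (2 * k - 1) * Y * q ^ ((k + 1) * d) := fun j =>
    hT2 K k d (g j) (2 * B) Y j (hgB j) (hgY j)
  have hdiff : ∀ h : Fin k → K[X],
      (∑ a ∈ Mn K d, ∏ i, f (a + h i) - ∑ a ∈ Mn K d, ∏ i, f' (a + h i)) =
        ∑ j, ∑ a ∈ Mn K d, ∏ i, g j i (a + h i) := by
    intro h
    rw [← Finset.sum_sub_distrib, Finset.sum_comm]
    refine Finset.sum_congr rfl (fun a _ => ?_)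
    rw [telesc]
  have hCS : ∀ h : Fin k → K[X],
      (∑ a ∈ Mn K d, ∏ i, f (a + h i) - ∑ a ∈ Mn K d, ∏ i, f' (a + h i)) ^ 2 ≤
        (k : ℝ) * ∑ j, (∑ a ∈ Mn K d, ∏ i, g j i (a + h i)) ^ 2 := by
    intro h
    rw [hdiff h]
    have h1 := sq_sum_le_card_mul_sum_sq (s := (Finset.univ : Finset (Fin k)))
      (f := fun j => ∑ a ∈ Mn K d, ∏ i, g j i (a + h i))
    rw [Finset.card_univ, Fintype.card_fin] at h1
    exact h1
  calc ∑ h ∈ Hs K k d, (∑ a ∈ Mn K d, ∏ i, f (a + h i) - ∑ a ∈ Mn K d, ∏ i, f' (a + h i)) ^ 2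
      ≤ ∑ h ∈ Hs K k d, (k : ℝ) * ∑ j, (∑ a ∈ Mn K d, ∏ i, g j i (a + h i)) ^ 2 :=
        Finset.sum_le_sum (fun h _ => hCS h)
    _ = (k : ℝ) * ∑ j, ∑ h ∈ Hs K k d, (∑ a ∈ Mn K d, ∏ i, g j i (a + h i)) ^ 2 := by
        rw [← Finset.mul_sum, Finset.sum_comm]
    _ ≤ (k : ℝ) * ∑ j : Fin k, (2 * B) ^ (2 * k - 1) * Y * q ^ ((k + 1) * d) := by
        refine mul_le_mul_of_nonneg_left ?_ (Nat.cast_nonneg k)
        exact Finset.sum_le_sum (fun j _ => hmain j)
    _ = (k : ℝ) ^ 2 * (2 * B) ^ (2 * k - 1) * Y * q ^ ((k + 1) * d) := by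
        rw [Finset.sum_const, Finset.card_univ, Fintype.card_fin, nsmul_eq_mul]
        ring

end Pool.Agent.H290.FX.PT3
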