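import Pool.Agent.H290.FX.StmT
import Pool.Agent.H290.FX.PRank

/-!
# Task T4 (helper113): the model is small
-/

set_option autoImplicit false

open scoped Classical
open Finset Polynomial

namespace Pool.Agent.H290.FX.PT4

open Pool.Agent.H290.FX
open Pool.Agent.H290.FX.PRank (sum_Sq card_large)
open Pool.Agent.H985.KP (PA)
open Pool.Agent.H694.Typ (Mn PU Irn mem_Mn mem_PU mem_Irn sum_PU irn_one_le q_ge)

variable {K : Type} [Field K] [Fintype K]

theorem nus_le (t : ℕ) (a : K[X]) : |nus K t a| ≤ ∏ P ∈ PU K t, (1 + |lm P a|) := by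
  unfold nus
  rw [sum_Sq (fun P => lm P a) (le_refl t), Finset.prod_one_add]
  refine (Finset.abs_sum_le_sum_abs _ _).trans ?_
  refine (Finset.sum_le_sum fun S _ => ?_).trans
    (Finset.sum_le_sum_of_subset_of_nonneg (Finset.filter_subset _ _) fun S _ _ =>
      Finset.prod_nonneg fun _ _ => abs_nonneg _)
  rw [Finset.abs_prod]

/-- the sum of the reciprocals -/
theorem sum_inv (t : ℕ) : ∑ P ∈ PU K t, 2 * ((Fintype.card K : ℝ) ^ P.natDegree)⁻¹ ≤
    2 * (1 + Real.log t) := by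
  have hq := q_ge (k := K)
  rw [sum_PU]
  have h1 : ∀ j ∈ Finset.Icc 1 t, ∑ P ∈ Irn K j, 2 * ((Fintype.card K : ℝ) ^ P.natDegree)⁻¹ ≤
      2 * ((j : ℝ)⁻¹) := by
    intro j hj
    rw [mem_Icc] at hj
    rw [sum_congr rfl (fun P hP => by rw [(mem_Irn.1 hP).2.1]), sum_const, nsmul_eq_mul]
    have h3 : (j : ℝ) * (Irn K j).card ≤ (Fintype.card K : ℝ) ^ j := by
      exact_mod_cast irn_one_le (k := K) (d := j) (by omega)
    have hj0 : (0 : ℝ) < j := by exact_mod_cast hj.1
    have hp : (0 : ℝ) < (Fintype.card K : ℝ) ^ j := by positivity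
    have h4 : ((Irn K j).card : ℝ) * ((Fintype.card K : ℝ) ^ j)⁻¹ ≤ (j : ℝ)⁻¹ := by
      rw [← div_eq_mul_inv, ← one_div, div_le_div_iff₀ hp hj0]
      linarith
    calc ((Irn K j).card : ℝ) * (2 * ((Fintype.card K : ℝ) ^ j)⁻¹)
        = 2 * (((Irn K j).card : ℝ) * ((Fintype.card K : ℝ) ^ j)⁻¹) := by ring
      _ ≤ _ := by linarith
  refine (sum_le_sum h1).trans ?_
  rw [← Finset.mul_sum]
  have h2 := harmonic_le_one_add_log t
  rw [harmonic_eq_sum_Icc] at h2
  push_cast at h2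
  linarith

theorem lm_bound (P a : K[X]) (hP : Irreducible P) : 1 + |lm P a| ≤
    (if P ∣ a ^ 2 + X then 2 else 1) *
      Real.exp (2 * ((Fintype.card K : ℝ) ^ P.natDegree)⁻¹) := by
  have hq := q_ge (k := K)
  have hN : 2 ≤ (Fintype.card K : ℝ) ^ P.natDegree := by
    calc (2 : ℝ) ≤ (Fintype.card K : ℝ) := hq
      _ = (Fintype.card K : ℝ) ^ 1 := (pow_one _).symm
      _ ≤ _ := pow_le_pow_right₀ (by linarith) hP.natDegree_pos
  set N := (Fintype.card K : ℝ) ^ P.natDegree with hNdef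
  have hN0 : 0 < N := by linarith
  unfold lm
  split_ifs with h
  · rw [abs_neg, abs_one]
    have : 1 ≤ Real.exp (2 * N⁻¹) := Real.one_le_exp (by positivity)
    linarith
  · rw [← hNdef, abs_of_pos (by apply one_div_pos.2; linarith), one_mul]
    have h1 : 1 / (N - 1) ≤ 2 * N⁻¹ := by
      rw [← div_eq_mul_inv, div_le_div_iff₀ (by linarith) hN0]
      linarith
    have h2 := Real.add_one_le_exp (2 * N⁻¹)
    linarith

theorem deg_le {d : ℕ} {a : K[X]} (ha : a ∈ Mn K d) : (a ^ 2 + X).natDegree ≤ 2 * d + 1 := by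
  rw [mem_Mn] at ha
  refine (natDegree_add_le _ _).trans ?_
  rw [natDegree_pow, ha.2, natDegree_X]
  omega

omit [Fintype K] in
theorem ne_zero [CharP K 2] (a : K[X]) : a ^ 2 + X ≠ 0 := by
  intro h
  have h2 : derivative (a ^ 2 + X) = 1 := by
    rw [derivative_add, derivative_X, derivative_pow]
    have : ((2 : ℕ) : K) = 0 := CharP.cast_eq_zero K 2
    rw [this]
    simp
  rw [h] at h2
  simp at h2

theorem main : S_t4 := by
  intro K _ _ _ ε hε
  have hq2 := q_ge (k := K)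
  set q : ℝ := (Fintype.card K : ℝ) with hqdef
  have hq0 : 0 < q := by linarith
  have l20 : 0 < Real.log q := Real.log_pos (by linarith)
  set u : ℕ := ⌈4 / ε⌉₊ with hu
  set c : ℝ := ε / 2 * Real.log q with hc
  have hc0 : 0 < c := by positivity
  refine ⟨2 ^ (PU K u).card * q ^ (ε / 4) * (Real.exp 2 * (2 / c ^ 2 * Real.exp c)), by positivity,
    ?_⟩
  intro d t htd a ha
  refine (nus_le t a).trans ?_
  have h1 : ∏ P ∈ PU K t, (1 + |lm P a|) ≤
      2 ^ ((PU K t).filter (fun P => P ∣ a ^ 2 + X)).card * Real.exp (2 * (1 + Real.log t)) := by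
    refine (Finset.prod_le_prod (fun P _ => by positivity)
      fun P hP => lm_bound P a (mem_PU.1 hP).2.1).trans ?_
    rw [Finset.prod_mul_distrib, ← Real.exp_sum, ← Finset.prod_filter, Finset.prod_const]
    refine mul_le_mul_of_nonneg_left ?_ (by positivity)
    rw [Real.exp_le_exp]
    exact sum_inv t
  refine h1.trans ?_
  -- the number of the prime divisors
  have hcard : ((PU K t).filter (fun P => P ∣ a ^ 2 + X)).card ≤ (PU K u).card +
      ((PU K t).filter (fun P => P ∣ a ^ 2 + X ∧ u < P.natDegree)).card := by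
    refine (Finset.card_le_card ?_).trans (Finset.card_union_le _ _)
    intro P hP
    rw [mem_filter, mem_PU] at hP
    rw [mem_union, mem_filter, mem_PU, mem_PU]
    by_cases hu' : u < P.natDegree
    · exact Or.inr ⟨hP.1, hP.2, hu'⟩
    · exact Or.inl ⟨hP.1.1, hP.1.2.1, by omega⟩
  set m := ((PU K t).filter (fun P => P ∣ a ^ 2 + X ∧ u < P.natDegree)).card with hm
  have hlarge : (u + 1) * m ≤ 2 * d + 1 := card_large (ne_zero a) (deg_le ha) t u
  have h2m : (2 : ℝ) ^ m ≤ q ^ (ε / 4) * q ^ (ε / 2 * d) := by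
    rw [← Real.rpow_add hq0]
    have e1 : (2 : ℝ) ^ m ≤ q ^ m := pow_le_pow_left₀ (by norm_num) hq2 m
    refine e1.trans ?_
    rw [← Real.rpow_natCast]
    apply Real.rpow_le_rpow_of_exponent_le (by linarith)
    have hm0 : (0 : ℝ) ≤ m := Nat.cast_nonneg _
    have h5 : (4 : ℝ) / ε ≤ u + 1 := by
      have := Nat.le_ceil (4 / ε)
      rw [← hu] at this
      linarith
    have h6 : ((u : ℝ) + 1) * m ≤ 2 * d + 1 := by exact_mod_cast hlarge
    have h8 : 4 / ε * m ≤ 2 * d + 1 := (mul_le_mul_of_nonneg_right h5 hm0).trans h6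
    have h9 : ε * (4 / ε * m) ≤ ε * (2 * d + 1) := mul_le_mul_of_nonneg_left h8 hε.le
    have h10 : ε * (4 / ε * m) = 4 * m := by field_simp
    linarith
  -- the polynomial factor
  have hlog : Real.exp (2 * (1 + Real.log t)) ≤ Real.exp 2 * ((d : ℝ) + 1) ^ 2 := by
    have e1 : Real.exp (2 * (1 + Real.log t)) = Real.exp 2 * Real.exp (2 * Real.log t) := by
      rw [← Real.exp_add]
      congr 1
      ring
    rw [e1]
    refine mul_le_mul_of_nonneg_left ?_ (Real.exp_pos _).le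
    rcases Nat.eq_zero_or_pos t with h0 | h0
    · rw [h0, Nat.cast_zero, Real.log_zero, mul_zero, Real.exp_zero]
      have : (0 : ℝ) ≤ d := Nat.cast_nonneg _
      nlinarith
    · have ht0 : (0 : ℝ) < t := by exact_mod_cast h0
      have e2 : Real.exp (2 * Real.log t) = (t : ℝ) ^ 2 := by
        rw [two_mul, Real.exp_add, Real.exp_log ht0, sq]
      rw [e2]
      have : (t : ℝ) ≤ d := by exact_mod_cast htd
      exact pow_le_pow_left₀ ht0.le (by linarith) 2
  have hd2 : ((d : ℝ) + 1) ^ 2 ≤ 2 / c ^ 2 * Real.exp c * q ^ (ε / 2 * d) := by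
    have hd0 : (0 : ℝ) ≤ d := Nat.cast_nonneg _
    have e1 : Real.exp c * q ^ (ε / 2 * d) = Real.exp (c * (d + 1)) := by
      rw [Real.rpow_def_of_pos hq0, ← Real.exp_add]
      congr 1
      rw [hc]
      ring
    rw [mul_assoc, e1]
    have e2 := Real.quadratic_le_exp_of_nonneg (x := c * (d + 1)) (by positivity)
    have e3 : c ^ 2 * ((d : ℝ) + 1) ^ 2 / 2 ≤ Real.exp (c * (d + 1)) := by
      have : 0 ≤ c * ((d : ℝ) + 1) := by positivity
      nlinarith
    have e4 : ((d : ℝ) + 1) ^ 2 = 2 / c ^ 2 * (c ^ 2 * ((d : ℝ) + 1) ^ 2 / 2) := by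
      field_simp
    rw [e4]
    gcongr
  have hsplit : q ^ (ε * d) = q ^ (ε / 2 * d) * q ^ (ε / 2 * d) := by
    rw [← Real.rpow_add hq0]
    congr 1
    ring
  rw [hsplit]
  calc 2 ^ ((PU K t).filter (fun P => P ∣ a ^ 2 + X)).card * Real.exp (2 * (1 + Real.log t))
      ≤ (2 ^ ((PU K u).card + m)) * (Real.exp 2 * ((d : ℝ) + 1) ^ 2) := by
        gcongr
        norm_num
    _ = (2 ^ (PU K u).card * 2 ^ m) * (Real.exp 2 * ((d : ℝ) + 1) ^ 2) := by rw [pow_add]
    _ ≤ (2 ^ (PU K u).card * (q ^ (ε / 4) * q ^ (ε / 2 * d))) *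
        (Real.exp 2 * (2 / c ^ 2 * Real.exp c * q ^ (ε / 2 * d))) := by
        gcongr
    _ = _ := by ring

end Pool.Agent.H290.FX.PT4
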