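import Pool.Agent.H290.FX.StmT

/-!
# Task T5 (helper333): the main term, by the Chinese remainder theorem
-/

namespace Pool.Agent.H290.FX.PT5

open Polynomial
open scoped Classical
open Pool.Agent.H985.KP (sg PA)
open Pool.Agent.H694.Typ (Mn PU mem_Mn card_Mn mem_PU coprime_of_ne)

/-- Equidistribution of the monic polynomials of degree `d` modulo `m`. -/
theorem equi {K : Type} [Field K] [Fintype K] {m : K[X]} (hm : m.Monic) {d : ℕ}
    (hd : m.natDegree ≤ d) (G : K[X] → ℝ) (hG : ∀ a b, G (a + m * b) = G a) :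
    ∑ a ∈ Mn K d, G a =
      (Fintype.card K : ℝ) ^ (d - m.natDegree) * ∑ b ∈ Vs K m.natDegree, G b := by
  have hdm : m.degree = (m.natDegree : WithBot ℕ) := degree_eq_natDegree hm.ne_zero
  have h1 : ∑ a ∈ Mn K d, G a =
      ∑ p ∈ Vs K m.natDegree ×ˢ Mn K (d - m.natDegree), G p.1 := by
    refine Finset.sum_nbij' (fun a => (a %ₘ m, a /ₘ m)) (fun p => p.1 + m * p.2) ?_ ?_ ?_ ?_ ?_
    · intro a ha
      rw [mem_Mn] at ha
      rw [Finset.mem_product, mem_Vs, mem_Mn]
      refine ⟨?_, ?_, ?_⟩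
      · have h2 := degree_modByMonic_lt a hm
        rwa [hdm] at h2
      · have h2 : (a /ₘ m).leadingCoeff = a.leadingCoeff := by
          refine leadingCoeff_divByMonic_of_monic hm ?_
          rw [hdm, degree_eq_natDegree ha.1.ne_zero, ha.2]
          exact_mod_cast hd
        rw [Monic, h2]
        exact ha.1
      · rw [natDegree_divByMonic a hm, ha.2]
    · intro p hp
      rw [Finset.mem_product, mem_Vs, mem_Mn] at hp
      obtain ⟨hp1, hp2, hp3⟩ := hp
      have h2 : (m * p.2).natDegree = d := by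
        rw [hm.natDegree_mul hp2, hp3]
        omega
      have h3 : (m * p.2).Monic := hm.mul hp2
      have h4 : p.1.degree < (m * p.2).degree := by
        rw [degree_eq_natDegree h3.ne_zero, h2]
        exact hp1.trans_le (by exact_mod_cast hd)
      rw [mem_Mn]
      refine ⟨h3.add_of_right h4, ?_⟩
      rw [natDegree_add_eq_right_of_degree_lt h4, h2]
    · intro a _
      exact modByMonic_add_div a m
    · intro p hp
      rw [Finset.mem_product, mem_Vs, mem_Mn] at hp
      have h2 := div_modByMonic_unique p.2 p.1 hm ⟨(rfl : p.1 + m * p.2 = p.1 + m * p.2), by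
        rw [hdm]; exact hp.1⟩
      exact Prod.ext h2.2 h2.1
    · intro a _
      have h2 := hG (a %ₘ m) (a /ₘ m)
      rw [modByMonic_add_div a m] at h2
      exact h2
  rw [h1, Finset.sum_product, Finset.mul_sum]
  refine Finset.sum_congr rfl fun x _ => ?_
  show ∑ _y ∈ Mn K (d - m.natDegree), G x = _
  rw [Finset.sum_const, card_Mn, nsmul_eq_mul, Nat.cast_pow]

/-- The Chinese remainder theorem for sums. -/
theorem crt {K : Type} [Field K] [Fintype K] {m m' : K[X]} (hm : m.Monic) (hm' : m'.Monic)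
    (hco : IsCoprime m m') (G G' : K[X] → ℝ) (hG : ∀ a b, G (a + m * b) = G a)
    (hG' : ∀ a b, G' (a + m' * b) = G' a) :
    ∑ b ∈ Vs K (m.natDegree + m'.natDegree), G b * G' b =
      (∑ x ∈ Vs K m.natDegree, G x) * ∑ y ∈ Vs K m'.natDegree, G' y := by
  have hdm : m.degree = (m.natDegree : WithBot ℕ) := degree_eq_natDegree hm.ne_zero
  have hdm' : m'.degree = (m'.natDegree : WithBot ℕ) := degree_eq_natDegree hm'.ne_zero
  have hinj : Set.InjOn (fun b : K[X] => (b %ₘ m, b %ₘ m'))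
      (Vs K (m.natDegree + m'.natDegree) : Set K[X]) := by
    intro b hb b' hb' hbb
    rw [Finset.mem_coe, mem_Vs] at hb hb'
    have e1 : b %ₘ m = b' %ₘ m := congrArg Prod.fst hbb
    have e2 : b %ₘ m' = b' %ₘ m' := congrArg Prod.snd hbb
    have d1 : m ∣ b - b' := by
      refine ⟨b /ₘ m - b' /ₘ m, ?_⟩
      have h1 := modByMonic_add_div b m
      have h2 := modByMonic_add_div b' m
      rw [e1] at h1
      linear_combination h2 - h1
    have d2 : m' ∣ b - b' := by
      refine ⟨b /ₘ m' - b' /ₘ m', ?_⟩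
      have h1 := modByMonic_add_div b m'
      have h2 := modByMonic_add_div b' m'
      rw [e2] at h1
      linear_combination h2 - h1
    have d3 : m * m' ∣ b - b' := hco.mul_dvd d1 d2
    have h3 : (b - b').degree < (m * m').degree := by
      rw [degree_mul, hdm, hdm']
      refine (degree_sub_le _ _).trans_lt (max_lt ?_ ?_)
      · exact_mod_cast hb
      · exact_mod_cast hb'
    exact sub_eq_zero.1 (eq_zero_of_dvd_of_degree_lt d3 h3)
  have himg : (Vs K (m.natDegree + m'.natDegree)).image (fun b : K[X] => (b %ₘ m, b %ₘ m')) =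
      Vs K m.natDegree ×ˢ Vs K m'.natDegree := by
    refine Finset.eq_of_subset_of_card_le ?_ ?_
    · intro p hp
      rw [Finset.mem_image] at hp
      obtain ⟨b, _, rfl⟩ := hp
      rw [Finset.mem_product, mem_Vs, mem_Vs, ← hdm, ← hdm']
      exact ⟨degree_modByMonic_lt b hm, degree_modByMonic_lt b hm'⟩
    · rw [Finset.card_image_of_injOn hinj, Finset.card_product, card_Vs, card_Vs, card_Vs, pow_add]
  rw [Finset.sum_mul_sum, ← Finset.sum_product', ← himg, Finset.sum_image hinj]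
  refine Finset.sum_congr rfl fun b _ => ?_
  have h1 := hG (b %ₘ m) (b /ₘ m)
  have h2 := hG' (b %ₘ m') (b /ₘ m')
  rw [modByMonic_add_div b m] at h1
  rw [modByMonic_add_div b m'] at h2
  simp only
  rw [h1, h2]

/-- The Chinese remainder theorem for a product of primes. -/
theorem crtS {K : Type} [Field K] [Fintype K] (S : Finset K[X])
    (hS : ∀ P ∈ S, P.Monic ∧ Irreducible P) (G : K[X] → K[X] → ℝ)
    (hG : ∀ P ∈ S, ∀ a b, G P (a + P * b) = G P a) :
    ∑ b ∈ Vs K (∏ P ∈ S, P).natDegree, ∏ P ∈ S, G P b =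
      ∏ P ∈ S, ∑ b ∈ Vs K P.natDegree, G P b := by
  induction S using Finset.induction_on with
  | empty =>
    simp only [Finset.prod_empty, natDegree_one, Finset.sum_const, card_Vs, pow_zero, one_smul]
  | insert P S hP ih =>
    have hS' : ∀ Q ∈ S, Q.Monic ∧ Irreducible Q := fun Q hQ => hS Q (Finset.mem_insert_of_mem hQ)
    have hG1 : ∀ Q ∈ S, ∀ a b, G Q (a + Q * b) = G Q a :=
      fun Q hQ => hG Q (Finset.mem_insert_of_mem hQ)
    have hPm := hS P (Finset.mem_insert_self _ _)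
    have hmon : (∏ Q ∈ S, Q).Monic := monic_prod_of_monic _ _ fun Q hQ => (hS' Q hQ).1
    have hco : IsCoprime P (∏ Q ∈ S, Q) := by
      refine IsCoprime.prod_right fun Q hQ => ?_
      refine coprime_of_ne hPm.1 hPm.2 (hS' Q hQ).1 (hS' Q hQ).2 ?_
      rintro rfl
      exact hP hQ
    have hper : ∀ a b, (∏ Q ∈ S, G Q (a + (∏ Q ∈ S, Q) * b)) = ∏ Q ∈ S, G Q a := by
      intro a b
      refine Finset.prod_congr rfl fun Q hQ => ?_
      obtain ⟨c, hc⟩ := Finset.dvd_prod_of_mem (fun Q : K[X] => Q) hQ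
      rw [hc, mul_assoc]
      exact hG1 Q hQ a (c * b)
    rw [Finset.prod_insert hP, Finset.prod_insert hP, ← ih hS' hG1,
      hPm.1.natDegree_mul hmon]
    rw [← crt hPm.1 hmon hco (G P) (fun b => ∏ Q ∈ S, G Q b)
      (hG P (Finset.mem_insert_self _ _)) hper]
    exact Finset.sum_congr rfl fun b _ => Finset.prod_insert hP

/-- The mean value over the monic polynomials of degree `d`. -/
theorem mean {K : Type} [Field K] [Fintype K] (S : Finset K[X])
    (hS : ∀ P ∈ S, P.Monic ∧ Irreducible P) (G : K[X] → K[X] → ℝ)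
    (hG : ∀ P ∈ S, ∀ a b, G P (a + P * b) = G P a) {d : ℕ}
    (hd : (∏ P ∈ S, P).natDegree ≤ d) :
    ∑ a ∈ Mn K d, ∏ P ∈ S, G P a = (Fintype.card K : ℝ) ^ d *
      ∏ P ∈ S, ((∑ b ∈ Vs K P.natDegree, G P b) / (Fintype.card K : ℝ) ^ P.natDegree) := by
  have hmon : (∏ Q ∈ S, Q).Monic := monic_prod_of_monic _ _ fun Q hQ => (hS Q hQ).1
  have hper : ∀ a b, (∏ Q ∈ S, G Q (a + (∏ Q ∈ S, Q) * b)) = ∏ Q ∈ S, G Q a := by
    intro a b
    refine Finset.prod_congr rfl fun Q hQ => ?_
    obtain ⟨c, hc⟩ := Finset.dvd_prod_of_mem (fun Q : K[X] => Q) hQ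
    rw [hc, mul_assoc]
    exact hG Q hQ a (c * b)
  have hq : (0 : ℝ) < (Fintype.card K : ℝ) := by exact_mod_cast Fintype.card_pos
  rw [equi hmon hd (fun a => ∏ P ∈ S, G P a) hper, crtS S hS G hG, Finset.prod_div_distrib,
    Finset.prod_pow_eq_pow_sum, ← natDegree_prod_of_monic _ _ fun Q hQ => (hS Q hQ).1]
  have h1 : (Fintype.card K : ℝ) ^ d = (Fintype.card K : ℝ) ^ (d - (∏ Q ∈ S, Q).natDegree) *
      (Fintype.card K : ℝ) ^ (∏ Q ∈ S, Q).natDegree := by
    rw [← pow_add, Nat.sub_add_cancel hd]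
  rw [h1]
  have h2 : (Fintype.card K : ℝ) ^ (∏ Q ∈ S, Q).natDegree ≠ 0 := (pow_pos hq _).ne'
  field_simp

theorem mem_Sq {K : Type} [Field K] [Fintype K] {t : ℕ} {r : K[X]} (hr : r ∈ Sq K t) :
    r.Monic ∧ r.natDegree ≤ t ∧ Squarefree r := by
  unfold Sq at hr
  rw [Finset.mem_filter, Finset.mem_biUnion] at hr
  obtain ⟨⟨n, hn, hrn⟩, hsq⟩ := hr
  rw [mem_Mn] at hrn
  rw [Finset.mem_range] at hn
  exact ⟨hrn.1, by omega, hsq⟩

theorem finprod_PA {K : Type} [Field K] [Fintype K] {t : ℕ} {r : K[X]} (hr : r ∈ Sq K t)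
    (f : K[X] → ℝ) :
    ∏ᶠ P ∈ PA r, f P = ∏ P ∈ PU K t, if P ∣ r then f P else 1 := by
  obtain ⟨h1, h2, _⟩ := mem_Sq hr
  have h3 : PA r = (((PU K t).filter (fun P => P ∣ r) : Finset K[X]) : Set K[X]) := by
    ext P
    rw [Finset.mem_coe, Finset.mem_filter, mem_PU]
    constructor
    · rintro ⟨h4, h5, h6⟩
      exact ⟨⟨h4, h5, (natDegree_le_of_dvd h6 h1.ne_zero).trans h2⟩, h6⟩
    · rintro ⟨⟨h4, h5, _⟩, h6⟩
      exact ⟨h4, h5, h6⟩
  rw [h3, finprod_mem_coe_finset, Finset.prod_filter]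

theorem lm_per {K : Type} [Field K] [Fintype K] (P a b c : K[X]) :
    lm P (a + P * b + c) = lm P (a + c) := by
  unfold lm
  have h1 : (P ∣ (a + P * b + c) ^ 2 + X) ↔ (P ∣ (a + c) ^ 2 + X) := by
    have h2 : (a + P * b + c) ^ 2 + X = (a + c) ^ 2 + X + P * (b * (2 * (a + c) + P * b)) := by
      ring
    rw [h2]
    exact dvd_add_left (dvd_mul_right _ _)
  simp only [h1]

/-- **Task T5.** -/
theorem main : S_t5 := by
  intro K _ _ _ k d t h hkt
  have hq : (0 : ℝ) < (Fintype.card K : ℝ) := by exact_mod_cast Fintype.card_pos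
  have e1 : ∀ a ∈ Mn K d, ∏ i, nus K t (a + h i) =
      ∑ r ∈ Fintype.piFinset (fun _ : Fin k => Sq K t),
        ∏ P ∈ PU K t, ∏ i ∈ Finset.univ.filter (fun i => P ∣ r i), lm P (a + h i) := by
    intro a _
    unfold nus
    rw [Finset.prod_univ_sum]
    refine Finset.sum_congr rfl fun r hr => ?_
    rw [Fintype.mem_piFinset] at hr
    have e2 : ∀ i ∈ (Finset.univ : Finset (Fin k)), (∏ᶠ P ∈ PA (r i), lm P (a + h i)) =
        ∏ P ∈ PU K t, if P ∣ r i then lm P (a + h i) else 1 :=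
      fun i _ => finprod_PA (hr i) _
    rw [Finset.prod_congr rfl e2, Finset.prod_comm]
    refine Finset.prod_congr rfl fun P _ => ?_
    rw [Finset.prod_filter]
  rw [Finset.sum_congr rfl e1, Finset.sum_comm, Finset.mul_sum]
  refine Finset.sum_congr rfl fun r hr => ?_
  rw [Fintype.mem_piFinset] at hr
  -- the primes that divide one of the `r i`
  set S : Finset K[X] := (PU K t).filter (fun P => ∃ i, P ∣ r i) with hSdef
  have hSS : S ⊆ PU K t := Finset.filter_subset _ _
  have hS : ∀ P ∈ S, P.Monic ∧ Irreducible P := fun P hP =>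
    ⟨(mem_PU.1 (hSS hP)).1, (mem_PU.1 (hSS hP)).2.1⟩
  have hempty : ∀ P ∈ PU K t, P ∉ S →
      Finset.univ.filter (fun i : Fin k => P ∣ r i) = ∅ := by
    intro P hP hPS
    rw [Finset.filter_eq_empty_iff]
    intro i _ hi
    exact hPS (Finset.mem_filter.2 ⟨hP, i, hi⟩)
  have e3 : ∀ a, (∏ P ∈ PU K t, ∏ i ∈ Finset.univ.filter (fun i => P ∣ r i), lm P (a + h i)) =
      ∏ P ∈ S, ∏ i ∈ Finset.univ.filter (fun i => P ∣ r i), lm P (a + h i) := by
    intro a
    refine (Finset.prod_subset hSS fun P hP hPS => ?_).symm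
    rw [hempty P hP hPS, Finset.prod_empty]
  have e4 : (∏ P ∈ PU K t, eT P h (Finset.univ.filter (fun i => P ∣ r i))) =
      ∏ P ∈ S, eT P h (Finset.univ.filter (fun i => P ∣ r i)) := by
    refine (Finset.prod_subset hSS fun P hP hPS => ?_).symm
    rw [hempty P hP hPS]
    unfold eT
    simp only [Finset.prod_empty, Finset.sum_const, card_Vs, nsmul_eq_mul, mul_one, Nat.cast_pow]
    exact div_self (pow_pos hq _).ne'
  have hdeg : (∏ P ∈ S, P).natDegree ≤ d := by
    have hdvd : ∏ P ∈ S, P ∣ ∏ i, r i := by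
      refine Finset.prod_dvd_of_coprime ?_ ?_
      · intro P hP Q hQ hPQ
        exact coprime_of_ne (hS P hP).1 (hS P hP).2 (hS Q hQ).1 (hS Q hQ).2 hPQ
      · intro P hP
        obtain ⟨i, hi⟩ := (Finset.mem_filter.1 hP).2
        exact hi.trans (Finset.dvd_prod_of_mem r (Finset.mem_univ i))
    have hmon : (∏ i, r i).Monic := monic_prod_of_monic _ _ fun i _ => (mem_Sq (hr i)).1
    have h1 := natDegree_le_of_dvd hdvd hmon.ne_zero
    rw [natDegree_prod_of_monic _ _ fun i _ => (mem_Sq (hr i)).1] at h1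
    refine (h1.trans ?_).trans hkt
    calc ∑ i, (r i).natDegree ≤ ∑ _i : Fin k, t :=
          Finset.sum_le_sum fun i _ => (mem_Sq (hr i)).2.1
      _ = k * t := by rw [Finset.sum_const, Finset.card_univ, Fintype.card_fin, smul_eq_mul]
  rw [e4, Finset.sum_congr rfl fun a _ => e3 a]
  rw [mean S hS (fun P a => ∏ i ∈ Finset.univ.filter (fun i => P ∣ r i), lm P (a + h i)) ?_ hdeg]
  · rfl
  · intro P _ a b
    refine Finset.prod_congr rfl fun i _ => ?_
    exact lm_per P a b (h i)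

end Pool.Agent.H290.FX.PT5
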