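import Pool.Agent.H290.FX.StmT
import Pool.Agent.H290.FX.PRank
import Pool.Agent.H290.FX.PRoot

/-!
# Task T6 (helper113): completion of the singular series for tuples
-/

set_option autoImplicit false

open scoped Classical
open Finset Polynomial

namespace Pool.Agent.H290.FX.PT6

open Pool.Agent.H290.FX
open Pool.Agent.H290.FX.PRank (MI coprime_of_ne monic_prod natDegree_prod sqf_prod PA_prod exists_set
  MI_of_subset card_large)
open Pool.Agent.H985.KP (PA)
open Pool.Agent.H694.Typ (Mn PU Irn mem_Mn mem_PU mem_Irn sum_PU irn_one_le q_ge)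

/-! ### expansion -/

/-- the set of the indices `i` with `P ∈ S i` -/
noncomputable def Tp {α : Type} {k : ℕ} (S : Fin k → Finset α) (P : α) : Finset (Fin k) :=
  univ.filter (fun i => P ∈ S i)

theorem mem_Tp {α : Type} {k : ℕ} {S : Fin k → Finset α} {P : α} {i : Fin k} :
    i ∈ Tp S P ↔ P ∈ S i := by
  unfold Tp
  rw [mem_filter]
  exact ⟨fun h => h.2, fun h => ⟨mem_univ _, h⟩⟩

theorem expand {α : Type} {k : ℕ} (s : Finset α) (e : α → Finset (Fin k) → ℝ) :
    ∏ P ∈ s, ∑ T : Finset (Fin k), e P T =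
      ∑ S ∈ Fintype.piFinset (fun _ : Fin k => s.powerset),
        ∏ P ∈ s, e P (Tp S P) := by
  rw [← Finset.prod_coe_sort, Finset.prod_univ_sum, Fintype.piFinset_univ]
  refine Finset.sum_nbij'
    (fun f i => (univ.filter (fun P : s => i ∈ f P)).map (Function.Embedding.subtype _))
    (fun S P => Tp S (P : α)) ?_ ?_ ?_ ?_ ?_
  · intro f _
    rw [Fintype.mem_piFinset]
    intro i
    rw [mem_powerset]
    intro P hP
    rw [mem_map] at hP
    obtain ⟨a, -, rfl⟩ := hP
    exact a.2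
  · intro S _
    exact mem_univ _
  · intro f _
    funext P
    ext i
    rw [mem_Tp]
    simp
  · intro S hS
    rw [Fintype.mem_piFinset] at hS
    funext i
    ext P
    rw [mem_map]
    constructor
    · rintro ⟨a, ha, rfl⟩
      rw [mem_filter, mem_Tp] at ha
      exact ha.2
    · intro hP
      refine ⟨⟨P, mem_powerset.1 (hS i) hP⟩, ?_, rfl⟩
      rw [mem_filter, mem_Tp]
      exact ⟨mem_univ _, hP⟩
  · intro f _
    rw [← Finset.prod_coe_sort s]
    refine Finset.prod_congr rfl fun P _ => ?_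
    have h : Tp (fun i => (univ.filter (fun Q : s => i ∈ f Q)).map
        (Function.Embedding.subtype _)) (P : α) = f P := by
      ext i
      rw [mem_Tp]
      simp
    rw [h]

section sums
variable {K : Type} [Field K] [Fintype K]

theorem mem_Sq {r : K[X]} {t : ℕ} : r ∈ Sq K t ↔ r.Monic ∧ r.natDegree ≤ t ∧ Squarefree r := by
  unfold Sq
  rw [mem_filter, mem_biUnion]
  constructor
  · rintro ⟨⟨j, hj, h⟩, hs⟩
    rw [mem_Mn] at h
    rw [mem_range] at hj
    exact ⟨h.1, by omega, hs⟩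
  · rintro ⟨h1, h2, h3⟩
    exact ⟨⟨r.natDegree, mem_range.2 (by omega), mem_Mn.2 ⟨h1, rfl⟩⟩, h3⟩

omit [Fintype K] in
theorem dvd_prod_iff {S : Finset K[X]} (hS : MI S) {P : K[X]} (hP : P.Monic) (hP' : Irreducible P) :
    P ∣ ∏ Q ∈ S, Q ↔ P ∈ S := by
  have h := PA_prod hS
  constructor
  · intro hd
    have : P ∈ PA (∏ Q ∈ S, Q) := ⟨hP, hP', hd⟩
    rw [h] at this
    exact this
  · intro hm
    exact Finset.dvd_prod_of_mem _ hm

/-- the sets of primes with product of degree `≤ t` -/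
noncomputable def Ps (K : Type) [Field K] [Fintype K] (n t : ℕ) : Finset (Finset K[X]) :=
  (PU K n).powerset.filter (fun S => ∑ P ∈ S, P.natDegree ≤ t)

theorem reindex {k : ℕ} (e : K[X] → Finset (Fin k) → ℝ) {t n : ℕ} (htn : t ≤ n)
    (he0 : ∀ P ∈ PU K n, e P ∅ = 1) :
    ∑ r ∈ Fintype.piFinset (fun _ : Fin k => Sq K t),
      ∏ P ∈ PU K t, e P (univ.filter (fun i => P ∣ r i)) =
    ∑ S ∈ Fintype.piFinset (fun _ : Fin k => Ps K n t),
      ∏ P ∈ PU K n, e P (Tp S P) := by
  symm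
  refine Finset.sum_bij (fun S _ => fun i => ∏ P ∈ S i, P) ?_ ?_ ?_ ?_
  · intro S hS
    rw [Fintype.mem_piFinset] at hS ⊢
    intro i
    have h := hS i
    unfold Ps at h
    rw [mem_filter, mem_powerset] at h
    have hM := MI_of_subset h.1
    rw [mem_Sq]
    exact ⟨monic_prod hM, by rw [natDegree_prod hM]; exact h.2, sqf_prod hM⟩
  · intro S hS T hT h
    rw [Fintype.mem_piFinset] at hS hT
    funext i
    have hS' := hS i
    have hT' := hT i
    unfold Ps at hS' hT'
    rw [mem_filter, mem_powerset] at hS' hT'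
    have h1 := PA_prod (MI_of_subset hS'.1)
    have h2 := PA_prod (MI_of_subset hT'.1)
    have h' : ∏ P ∈ S i, P = ∏ P ∈ T i, P := congrFun h i
    rw [h', h2] at h1
    exact_mod_cast h1.symm
  · intro r hr
    rw [Fintype.mem_piFinset] at hr
    have hex : ∀ i, ∃ S : Finset K[X], S ∈ Ps K n t ∧ ∏ P ∈ S, P = r i := by
      intro i
      have hri := mem_Sq.1 (hr i)
      obtain ⟨S, hM, hS⟩ := exists_set hri.1 hri.2.2
      have hdeg : ∑ P ∈ S, P.natDegree ≤ t := by
        rw [← natDegree_prod hM, hS]; exact hri.2.1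
      refine ⟨S, ?_, hS⟩
      unfold Ps
      rw [mem_filter, mem_powerset]
      refine ⟨fun P hP => ?_, hdeg⟩
      rw [mem_PU]
      refine ⟨(hM P hP).1, (hM P hP).2, ?_⟩
      have h5 : P.natDegree ≤ ∑ P ∈ S, P.natDegree :=
        Finset.single_le_sum (f := fun P : K[X] => P.natDegree) (fun _ _ => Nat.zero_le _) hP
      omega
    choose S hS1 hS2 using hex
    exact ⟨S, Fintype.mem_piFinset.2 hS1, funext hS2⟩
  · intro S hS
    rw [Fintype.mem_piFinset] at hS
    have hS' : ∀ i, S i ⊆ PU K n ∧ ∑ P ∈ S i, P.natDegree ≤ t := by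
      intro i
      have h := hS i
      unfold Ps at h
      rw [mem_filter, mem_powerset] at h
      exact h
    have hsub : PU K t ⊆ PU K n := by
      intro P hP
      rw [mem_PU] at hP ⊢
      exact ⟨hP.1, hP.2.1, by omega⟩
    rw [← Finset.prod_subset hsub]
    · refine Finset.prod_congr rfl fun P hP => ?_
      rw [mem_PU] at hP
      have h : Tp S P = (univ.filter (fun i => P ∣ ∏ P ∈ S i, P)) := by
        ext i
        rw [mem_Tp, mem_filter]
        have := (dvd_prod_iff (MI_of_subset (hS' i).1) hP.1 hP.2.1).symm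
        exact ⟨fun h => ⟨mem_univ _, this.1 h⟩, fun h => this.2 h.2⟩
      rw [h]
    · intro P hP hPt
      have h : Tp S P = (∅ : Finset (Fin k)) := by
        rw [Finset.eq_empty_iff_forall_notMem]
        intro i hPi
        rw [mem_Tp] at hPi
        apply hPt
        rw [mem_PU] at hP ⊢
        refine ⟨hP.1, hP.2.1, ?_⟩
        have h5 : P.natDegree ≤ ∑ P ∈ S i, P.natDegree :=
          Finset.single_le_sum (f := fun P : K[X] => P.natDegree) (fun _ _ => Nat.zero_le _) hPi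
        exact h5.trans (hS' i).2
      rw [h]
      exact he0 P hP

/-- Rankin's trick -/
theorem rankinT {k : ℕ} (e : K[X] → Finset (Fin k) → ℝ) {t n : ℕ} (htn : t ≤ n)
    (he0 : ∀ P ∈ PU K n, e P ∅ = 1) {w : ℝ} (hw : 1 ≤ w) :
    |∏ P ∈ PU K n, ∑ T : Finset (Fin k), e P T -
      ∑ r ∈ Fintype.piFinset (fun _ : Fin k => Sq K t),
        ∏ P ∈ PU K t, e P (univ.filter (fun i => P ∣ r i))| ≤
      (w ^ t)⁻¹ * ∏ P ∈ PU K n, ∑ T : Finset (Fin k), w ^ (P.natDegree * T.card) * |e P T| := by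
  have hw0 : 0 < w := by linarith
  rw [reindex e htn he0, expand, expand]
  have hsub : Fintype.piFinset (fun _ : Fin k => Ps K n t) ⊆
      Fintype.piFinset (fun _ : Fin k => (PU K n).powerset) := by
    intro S hS
    rw [Fintype.mem_piFinset] at hS ⊢
    intro i
    exact (Finset.mem_filter.1 (hS i)).1
  rw [← Finset.sum_sdiff hsub, add_sub_cancel_right, Finset.mul_sum]
  refine (Finset.abs_sum_le_sum_abs _ _).trans ?_
  refine (Finset.sum_le_sum fun S hS => ?_).trans
    (Finset.sum_le_sum_of_subset_of_nonneg Finset.sdiff_subset fun S _ _ => by positivity)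
  rw [mem_sdiff, Fintype.mem_piFinset, Fintype.mem_piFinset] at hS
  obtain ⟨hS1, hS2⟩ := hS
  push Not at hS2
  obtain ⟨i0, hi0⟩ := hS2
  have hgt : t < ∑ P ∈ S i0, P.natDegree := by
    by_contra hle
    apply hi0
    unfold Ps
    rw [mem_filter]
    exact ⟨hS1 i0, by omega⟩
  rw [Finset.abs_prod, Finset.prod_mul_distrib, Finset.prod_pow_eq_pow_sum, ← mul_assoc]
  have hle : ∑ P ∈ S i0, P.natDegree ≤
      ∑ P ∈ PU K n, P.natDegree * (Tp S P).card := by
    refine le_trans (Finset.sum_le_sum fun P hP => ?_)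
      (Finset.sum_le_sum_of_subset (mem_powerset.1 (hS1 i0)))
    have h1 : 1 ≤ (Tp S P).card := by
      rw [Nat.one_le_iff_ne_zero, Finset.card_ne_zero]
      exact ⟨i0, mem_Tp.2 hP⟩
    exact Nat.le_mul_of_pos_right _ h1
  have h1 : w ^ t ≤ w ^ (∑ P ∈ PU K n, P.natDegree * (Tp S P).card) :=
    pow_le_pow_right₀ hw (by omega)
  have h2 : 0 ≤ ∏ P ∈ PU K n, |e P (Tp S P)| :=
    Finset.prod_nonneg fun _ _ => abs_nonneg _
  have h3 : 0 < w ^ t := by positivity
  have h4 : 1 ≤ (w ^ t)⁻¹ *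
      w ^ (∑ P ∈ PU K n, P.natDegree * (Tp S P).card) := by
    rw [← div_eq_inv_mul, one_le_div h3]
    exact h1
  nlinarith

end sums

/-! ### the local mean values -/

section loc
variable {K : Type} [Field K] [Fintype K] [CharP K 2]

theorem hit_iff {P : K[X]} (hP : P.Monic) (hP' : Irreducible P) (a : K[X]) :
    P ∣ a ^ 2 + X ↔ P ∣ a - rt P := by
  have h := PRoot.main K P hP
  constructor
  · intro h1
    exact (h.2 a h1).2
  · intro h1
    have h2 := (h.1 hP'.squarefree).1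
    have h3 : a ^ 2 + X = (rt P ^ 2 + X) + (a - rt P) * (a + rt P) := by ring
    rw [h3]
    exact dvd_add h2 (h1.mul_right _)

theorem root_iff {P : K[X]} (hP : P.Monic) (hP' : Irreducible P) (c : K[X]) {a : K[X]}
    (ha : a ∈ Vs K P.natDegree) : P ∣ (a + c) ^ 2 + X ↔ a = (rt P - c) %ₘ P := by
  rw [hit_iff hP hP']
  have hdeg : a.degree < P.degree := by
    rw [mem_Vs] at ha
    rwa [degree_eq_natDegree hP.ne_zero]
  have h1 : a + c - rt P = a - (rt P - c) := by ring
  rw [h1, ← modByMonic_eq_zero_iff_dvd hP, sub_modByMonic, sub_eq_zero,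
    (modByMonic_eq_self_iff hP).2 hdeg]

theorem card_root {P : K[X]} (hP : P.Monic) (hP' : Irreducible P) (c : K[X]) :
    ((Vs K P.natDegree).filter (fun a => P ∣ (a + c) ^ 2 + X)).card = 1 := by
  rw [Finset.card_eq_one]
  refine ⟨(rt P - c) %ₘ P, ?_⟩
  ext a
  rw [mem_filter, mem_singleton]
  constructor
  · rintro ⟨h1, h2⟩
    exact (root_iff hP hP' c h1).1 h2
  · intro h
    have h1 : a ∈ Vs K P.natDegree := by
      rw [mem_Vs, h, ← degree_eq_natDegree hP.ne_zero]
      exact degree_modByMonic_lt _ hP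
    exact ⟨h1, (root_iff hP hP' c h1).2 h⟩

omit [CharP K 2] in
theorem N_ge {P : K[X]} (hP' : Irreducible P) : 2 ≤ (Fintype.card K : ℝ) ^ P.natDegree := by
  have hq := q_ge (k := K)
  calc (2 : ℝ) ≤ (Fintype.card K : ℝ) := hq
    _ = (Fintype.card K : ℝ) ^ 1 := (pow_one _).symm
    _ ≤ _ := pow_le_pow_right₀ (by linarith) hP'.natDegree_pos

omit [CharP K 2] in
theorem eT_empty {k : ℕ} (P : K[X]) (h : Fin k → K[X]) : eT P h ∅ = 1 := by
  unfold eT
  have hq := q_ge (k := K)
  simp only [Finset.prod_empty, Finset.sum_const, nsmul_eq_mul, mul_one]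
  rw [card_Vs]
  push_cast
  exact div_self (by positivity)

theorem eT_single {k : ℕ} {P : K[X]} (hP : P.Monic) (hP' : Irreducible P) (h : Fin k → K[X])
    (i : Fin k) : eT P h {i} = 0 := by
  unfold eT
  have hN := N_ge hP'
  set N := (Fintype.card K : ℝ) ^ P.natDegree with hNdef
  have h1 : ∑ a ∈ Vs K P.natDegree, ∏ j ∈ {i}, lm P (a + h j) = 0 := by
    simp only [Finset.prod_singleton]
    unfold lm
    rw [Finset.sum_ite, Finset.sum_const, Finset.sum_const, card_root hP hP' (h i)]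
    have h2 := Finset.card_filter_add_card_filter_not (s := Vs K P.natDegree)
      (fun a => P ∣ (a + h i) ^ 2 + X)
    rw [card_root hP hP' (h i), card_Vs] at h2
    have h3 : (((Vs K P.natDegree).filter (fun a => ¬ P ∣ (a + h i) ^ 2 + X)).card : ℝ) = N - 1 := by
      have : ((1 + ((Vs K P.natDegree).filter (fun a => ¬ P ∣ (a + h i) ^ 2 + X)).card : ℕ) : ℝ) =
          ((Fintype.card K ^ P.natDegree : ℕ) : ℝ) := by exact_mod_cast h2
      push_cast at this
      rw [hNdef]
      linarith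
    rw [nsmul_eq_mul, nsmul_eq_mul, h3, ← hNdef]
    have : N - 1 ≠ 0 := by linarith
    field_simp
    norm_num
  rw [h1, zero_div]

/-- number of the hits -/
noncomputable def hit (P a : K[X]) : ℝ := if P ∣ a ^ 2 + X then 1 else 0

theorem sum_hit {P : K[X]} (hP : P.Monic) (hP' : Irreducible P) (c : K[X]) :
    ∑ a ∈ Vs K P.natDegree, hit P (a + c) = 1 := by
  unfold hit
  rw [Finset.sum_boole, card_root hP hP' c]
  norm_num

omit [Fintype K] [CharP K 2] in
theorem hit_nonneg (P a : K[X]) : 0 ≤ hit P a := by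
  unfold hit
  split_ifs <;> norm_num

omit [CharP K 2] in
theorem lm_of_not {P : K[X]} {a : K[X]} (h : ¬ P ∣ a ^ 2 + X) :
    lm P a = 1 / ((Fintype.card K : ℝ) ^ P.natDegree - 1) := by
  unfold lm
  rw [if_neg h]

omit [CharP K 2] in
theorem abs_lm_le {P : K[X]} (hP' : Irreducible P) (a : K[X]) : |lm P a| ≤ 1 := by
  have hN := N_ge hP'
  unfold lm
  split_ifs with h
  · rw [abs_neg, abs_one]
  · rw [abs_of_pos (by apply one_div_pos.2; linarith), div_le_one (by linarith)]
    linarith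

omit [CharP K 2] in
/-- no hits -/
theorem prod_no_hit {k : ℕ} {P : K[X]} (hP' : Irreducible P) (h : Fin k → K[X])
    {T : Finset (Fin k)} {a : K[X]} (hh : ∀ i ∈ T, ¬ P ∣ (a + h i) ^ 2 + X) :
    |∏ i ∈ T, lm P (a + h i)| = (1 / ((Fintype.card K : ℝ) ^ P.natDegree - 1)) ^ T.card := by
  have hN := N_ge hP'
  rw [Finset.prod_congr rfl fun i hi => lm_of_not (hh i hi), Finset.prod_const, abs_pow,
    abs_of_pos (by apply one_div_pos.2; linarith)]

omit [CharP K 2] in
/-- the general pointwise bound -/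
theorem ptw_bad {k : ℕ} {P : K[X]} (hP' : Irreducible P) (h : Fin k → K[X])
    {T : Finset (Fin k)} (hT : 1 ≤ T.card) (a : K[X]) : |∏ i ∈ T, lm P (a + h i)| ≤
      ∑ i ∈ T, hit P (a + h i) + 1 / ((Fintype.card K : ℝ) ^ P.natDegree - 1) := by
  have hN := N_ge hP'
  set x := 1 / ((Fintype.card K : ℝ) ^ P.natDegree - 1) with hx
  have hx0 : 0 < x := by rw [hx]; apply one_div_pos.2; linarith
  have hx1 : x ≤ 1 := by rw [hx, div_le_one (by linarith)]; linarith
  by_cases hh : ∃ i ∈ T, P ∣ (a + h i) ^ 2 + X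
  · obtain ⟨i, hi, hd⟩ := hh
    have h1 : |∏ i ∈ T, lm P (a + h i)| ≤ 1 := by
      rw [Finset.abs_prod]
      exact Finset.prod_le_one (fun _ _ => abs_nonneg _) fun i _ => abs_lm_le hP' _
    have h2 : hit P (a + h i) ≤ ∑ i ∈ T, hit P (a + h i) :=
      Finset.single_le_sum (f := fun i => hit P (a + h i)) (fun _ _ => hit_nonneg _ _) hi
    have h3 : hit P (a + h i) = 1 := by
      unfold hit
      rw [if_pos hd]
    linarith
  · push Not at hh
    rw [prod_no_hit hP' h hh, ← hx]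
    have h1 : x ^ T.card ≤ x ^ 1 := pow_le_pow_of_le_one hx0.le hx1 hT
    have h2 : 0 ≤ ∑ i ∈ T, hit P (a + h i) := Finset.sum_nonneg fun _ _ => hit_nonneg _ _
    rw [pow_one] at h1
    linarith

/-- the pointwise bound if the `h i` are distinct modulo `P` -/
theorem ptw_good {k : ℕ} {P : K[X]} (hP : P.Monic) (hP' : Irreducible P) (h : Fin k → K[X])
    (hd : ∀ i j, i ≠ j → ¬ P ∣ h i - h j) {T : Finset (Fin k)} (hT : 2 ≤ T.card) (a : K[X]) :
    |∏ i ∈ T, lm P (a + h i)| ≤
      (∑ i ∈ T, hit P (a + h i)) * (1 / ((Fintype.card K : ℝ) ^ P.natDegree - 1)) +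
        (1 / ((Fintype.card K : ℝ) ^ P.natDegree - 1)) ^ 2 := by
  have hN := N_ge hP'
  set x := 1 / ((Fintype.card K : ℝ) ^ P.natDegree - 1) with hx
  have hx0 : 0 < x := by rw [hx]; apply one_div_pos.2; linarith
  have hx1 : x ≤ 1 := by rw [hx, div_le_one (by linarith)]; linarith
  by_cases hh : ∃ i ∈ T, P ∣ (a + h i) ^ 2 + X
  · obtain ⟨i, hi, hdi⟩ := hh
    obtain ⟨j, hj, hji⟩ := Finset.exists_mem_ne (show 1 < T.card by omega) i
    have hnj : ¬ P ∣ (a + h j) ^ 2 + X := by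
      intro hdj
      rw [hit_iff hP hP'] at hdi hdj
      apply hd j i hji
      have : h j - h i = (a + h j - rt P) - (a + h i - rt P) := by ring
      rw [this]
      exact dvd_sub hdj hdi
    have h1 : |∏ i ∈ T, lm P (a + h i)| ≤ x := by
      rw [Finset.abs_prod, ← Finset.mul_prod_erase T _ hj, lm_of_not hnj, ← hx, abs_of_pos hx0]
      have h2 : ∏ i ∈ T.erase j, |lm P (a + h i)| ≤ 1 :=
        Finset.prod_le_one (fun _ _ => abs_nonneg _) fun i _ => abs_lm_le hP' _
      exact mul_le_of_le_one_right hx0.le h2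
    have h2 : hit P (a + h i) ≤ ∑ i ∈ T, hit P (a + h i) :=
      Finset.single_le_sum (f := fun i => hit P (a + h i)) (fun _ _ => hit_nonneg _ _) hi
    have h3 : hit P (a + h i) = 1 := by
      unfold hit
      rw [if_pos hdi]
    have h4 : 1 * x ≤ (∑ i ∈ T, hit P (a + h i)) * x := by
      apply mul_le_mul_of_nonneg_right _ hx0.le
      linarith
    have h5 : 0 < x ^ 2 := by positivity
    linarith
  · push Not at hh
    rw [prod_no_hit hP' h hh, ← hx]
    have h1 : x ^ T.card ≤ x ^ 2 := pow_le_pow_of_le_one hx0.le hx1 hT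
    have h2 : 0 ≤ (∑ i ∈ T, hit P (a + h i)) * x :=
      mul_nonneg (Finset.sum_nonneg fun _ _ => hit_nonneg _ _) hx0.le
    linarith

/-- summation of the pointwise bounds -/
theorem eT_le {k : ℕ} {P : K[X]} (hP : P.Monic) (hP' : Irreducible P) (h : Fin k → K[X])
    {T : Finset (Fin k)} {y z : ℝ} (hy : 0 ≤ y)
    (hb : ∀ a, |∏ i ∈ T, lm P (a + h i)| ≤ (∑ i ∈ T, hit P (a + h i)) * y + z) :
    |eT P h T| ≤ k * (1 / ((Fintype.card K : ℝ) ^ P.natDegree - 1)) * y + z := by
  have hN := N_ge hP'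
  unfold eT
  set N := (Fintype.card K : ℝ) ^ P.natDegree with hNdef
  have hN0 : 0 < N := by linarith
  rw [abs_div, abs_of_pos hN0, div_le_iff₀ hN0]
  have h1 : |∑ a ∈ Vs K P.natDegree, ∏ i ∈ T, lm P (a + h i)| ≤ T.card * y + N * z := by
    refine (Finset.abs_sum_le_sum_abs _ _).trans ((Finset.sum_le_sum fun a _ => hb a).trans ?_)
    rw [Finset.sum_add_distrib, Finset.sum_const, card_Vs, nsmul_eq_mul, ← Finset.sum_mul,
      Finset.sum_comm, Finset.sum_congr rfl fun i _ => sum_hit hP hP' (h i), Finset.sum_const,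
      nsmul_eq_mul, mul_one]
    push_cast
    exact le_refl _
  refine h1.trans ?_
  have h2 : (T.card : ℝ) ≤ k := by
    have := Finset.card_le_univ T
    rw [Fintype.card_fin] at this
    exact_mod_cast this
  have h3 : 1 ≤ 1 / (N - 1) * N := by
    rw [one_div_mul_eq_div, le_div_iff₀ (by linarith)]
    linarith
  have hk : (0 : ℝ) ≤ k := Nat.cast_nonneg _
  have h4 : (T.card : ℝ) * y ≤ k * (1 / (N - 1)) * y * N := by
    calc (T.card : ℝ) * y ≤ k * y := by gcongr
      _ = (k * y) * 1 := by ring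
      _ ≤ (k * y) * (1 / (N - 1) * N) := by
          apply mul_le_mul_of_nonneg_left h3
          positivity
      _ = _ := by ring
  nlinarith

theorem eT_bad {k : ℕ} {P : K[X]} (hP : P.Monic) (hP' : Irreducible P) (h : Fin k → K[X])
    {T : Finset (Fin k)} (hT : 1 ≤ T.card) :
    |eT P h T| ≤ (k + 1) * (1 / ((Fintype.card K : ℝ) ^ P.natDegree - 1)) := by
  have h1 := eT_le hP hP' h (T := T) (y := 1)
    (z := 1 / ((Fintype.card K : ℝ) ^ P.natDegree - 1)) (by norm_num) (fun a => by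
      rw [mul_one]; exact ptw_bad hP' h hT a)
  linarith

theorem eT_good {k : ℕ} {P : K[X]} (hP : P.Monic) (hP' : Irreducible P) (h : Fin k → K[X])
    (hd : ∀ i j, i ≠ j → ¬ P ∣ h i - h j) {T : Finset (Fin k)} (hT : 2 ≤ T.card) :
    |eT P h T| ≤ (k + 1) * (1 / ((Fintype.card K : ℝ) ^ P.natDegree - 1)) ^ 2 := by
  have hN := N_ge hP'
  have hx0 : 0 ≤ 1 / ((Fintype.card K : ℝ) ^ P.natDegree - 1) :=
    one_div_nonneg.2 (by linarith)
  have h1 := eT_le hP hP' h (T := T) (y := 1 / ((Fintype.card K : ℝ) ^ P.natDegree - 1))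
    (z := (1 / ((Fintype.card K : ℝ) ^ P.natDegree - 1)) ^ 2) hx0 (fun a => ptw_good hP hP' h hd hT a)
  nlinarith

/-- the factor at `P`: `v = q ^ (deg P / 4)` -/
theorem factor {k : ℕ} {P : K[X]} (hP : P.Monic) (hP' : Irreducible P)
    (h : Fin k → K[X]) {w v y : ℝ} (hw : 1 ≤ w) (hv : (w ^ P.natDegree) ^ k = v) (hy : 0 ≤ y)
    (hb : ∀ T : Finset (Fin k), 2 ≤ T.card → |eT P h T| ≤ y) :
    ∑ T : Finset (Fin k), w ^ (P.natDegree * T.card) * |eT P h T| ≤ 1 + 2 ^ k * (v * y) := by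
  have hwd : 1 ≤ w ^ P.natDegree := one_le_pow₀ hw
  have hv0 : 0 ≤ v := by rw [← hv]; positivity
  have h1 : ∀ T : Finset (Fin k), w ^ (P.natDegree * T.card) * |eT P h T| ≤
      (if T = ∅ then 1 else 0) + v * y := by
    intro T
    have hvy : 0 ≤ v * y := mul_nonneg hv0 hy
    split_ifs with hT
    · subst hT
      rw [eT_empty, Finset.card_empty, mul_zero, pow_zero, abs_one]
      linarith
    · have hT0 : 0 < T.card := Finset.card_pos.2 (Finset.nonempty_iff_ne_empty.2 hT)
      rcases Nat.lt_or_ge T.card 2 with h2 | h2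
      · have h3 : T.card = 1 := by omega
        obtain ⟨i, rfl⟩ := Finset.card_eq_one.1 h3
        rw [eT_single hP hP', abs_zero, mul_zero]
        linarith
      · have h3 : T.card ≤ k := by
          have := Finset.card_le_univ T
          rwa [Fintype.card_fin] at this
        have h4 : w ^ (P.natDegree * T.card) ≤ v := by
          rw [pow_mul, ← hv]
          exact pow_le_pow_right₀ hwd h3
        rw [zero_add]
        exact mul_le_mul h4 (hb T h2) (abs_nonneg _) hv0
  refine (Finset.sum_le_sum fun T _ => h1 T).trans ?_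
  rw [Finset.sum_add_distrib, Finset.sum_ite_eq' univ ∅, if_pos (mem_univ _), Finset.sum_const,
    Finset.card_univ, Fintype.card_finset, Fintype.card_fin, nsmul_eq_mul]
  push_cast
  exact le_refl _

omit [CharP K 2] in
/-- the convergent sum -/
theorem sum_conv {z : ℝ} (hz0 : 0 < z) (hz : 3 / 2 ≤ z ^ 3) (hq : (Fintype.card K : ℝ) = z ^ 4)
    (n : ℕ) : ∑ P ∈ PU K n, ((z ^ P.natDegree) ^ 7)⁻¹ ≤ 2 := by
  rw [sum_PU]
  have h1 : ∀ j ∈ Finset.Icc 1 n, ∑ P ∈ Irn K j, ((z ^ P.natDegree) ^ 7)⁻¹ ≤ (2 / 3 : ℝ) ^ j := by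
    intro j hj
    rw [mem_Icc] at hj
    rw [sum_congr rfl (fun P hP => by rw [(mem_Irn.1 hP).2.1]), sum_const, nsmul_eq_mul]
    have hp : 0 < z ^ j := by positivity
    have h2 : ((Irn K j).card : ℝ) ≤ (z ^ j) ^ 4 := by
      have h3 : (j : ℝ) * (Irn K j).card ≤ (Fintype.card K : ℝ) ^ j := by
        exact_mod_cast irn_one_le (k := K) (d := j) (by omega)
      have h4 : (1 : ℝ) ≤ j := by exact_mod_cast hj.1
      have h5 : (0 : ℝ) ≤ (Irn K j).card := Nat.cast_nonneg _
      rw [hq, ← pow_mul, mul_comm 4 j, pow_mul] at h3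
      nlinarith
    have h6 : ((z ^ j) ^ 3)⁻¹ ≤ (2 / 3 : ℝ) ^ j := by
      rw [← pow_mul, mul_comm j 3, pow_mul, ← inv_pow]
      refine pow_le_pow_left₀ (by positivity) ?_ j
      rw [inv_le_comm₀ (by positivity) (by norm_num)]
      linarith
    calc ((Irn K j).card : ℝ) * ((z ^ j) ^ 7)⁻¹
        ≤ (z ^ j) ^ 4 * ((z ^ j) ^ 7)⁻¹ := by
          apply mul_le_mul_of_nonneg_right h2; positivity
      _ = ((z ^ j) ^ 3)⁻¹ := by field_simp
      _ ≤ _ := h6
  refine (sum_le_sum h1).trans ?_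
  have h2 : ∀ m : ℕ, ∑ j ∈ Finset.Icc 1 m, (2 / 3 : ℝ) ^ j = 2 * (1 - (2 / 3) ^ m) := by
    intro m
    induction m with
    | zero => simp
    | succ m ih => rw [Finset.sum_Icc_succ_top (by omega), ih, pow_succ]; ring
  rw [h2]
  have : (0 : ℝ) < (2 / 3) ^ n := by positivity
  linarith

end loc

theorem main : S_t6 := by
  intro K _ _ _ k hk
  have hq2 := q_ge (k := K)
  have hk0 : (0 : ℝ) < k := by exact_mod_cast hk
  refine ⟨1 / (4 * k), by positivity, ?_⟩
  intro ε hε
  set q : ℝ := (Fintype.card K : ℝ) with hqdef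
  have hq0 : 0 < q := by linarith
  -- the numbers `w`, `z`
  set w : ℝ := q ^ (1 / (4 * (k : ℝ))) with hw
  set z : ℝ := q ^ (1 / 4 : ℝ) with hz
  have hw1 : 1 ≤ w := Real.one_le_rpow (by linarith) (by positivity)
  have hw0 : 0 < w := by linarith
  have hz0 : 0 < z := by positivity
  have hwz : w ^ k = z := by
    rw [hw, hz, ← Real.rpow_natCast, ← Real.rpow_mul hq0.le]
    congr 1
    field_simp
  have hz4 : q = z ^ 4 := by
    rw [hz, ← Real.rpow_natCast, ← Real.rpow_mul hq0.le]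
    norm_num
  have hz1 : 1 ≤ z := by
    rw [hz]
    exact Real.one_le_rpow (by linarith) (by norm_num)
  have hz3 : 3 / 2 ≤ z ^ 3 := by
    have h1 : (3 / 2 : ℝ) ^ 4 ≤ (z ^ 3) ^ 4 := by
      have h2 : (z ^ 3) ^ 4 = q ^ 3 := by
        rw [hz4]
        ring
      rw [h2]
      have h3 : (2 : ℝ) ^ 3 ≤ q ^ 3 := pow_le_pow_left₀ (by norm_num) hq2 3
      linarith [show (3 / 2 : ℝ) ^ 4 ≤ 2 ^ 3 by norm_num]
    exact le_of_pow_le_pow_left₀ (by norm_num) (by positivity) h1
  -- the constants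
  set c : ℝ := 2 ^ k * (4 * (k + 1)) with hc
  set B : ℝ := 1 + 2 ^ k * (2 * (k + 1)) with hB
  have hB1 : 1 ≤ B := by
    rw [hB]
    have : (0 : ℝ) ≤ 2 ^ k * (2 * ((k : ℝ) + 1)) := by positivity
    linarith
  have hB0 : 0 < B := by linarith
  have l2 : 0 < Real.log 2 := Real.log_pos (by norm_num)
  have lB : 0 ≤ Real.log B := Real.log_nonneg hB1
  set R : ℝ := (k : ℝ) ^ 2 * Real.log B / (ε * Real.log 2) with hR
  set u : ℕ := ⌈R⌉₊ with hu
  refine ⟨Real.exp (c * 2) * B ^ (PU K u).card, by positivity, ?_⟩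
  intro h d t n hinj hdeg htn
  -- the discriminant
  set Δ : K[X] := ∏ p ∈ (univ : Finset (Fin k × Fin k)).filter (fun p => p.1 ≠ p.2),
    (h p.1 - h p.2) with hΔ
  have hΔ0 : Δ ≠ 0 := by
    rw [hΔ, Finset.prod_ne_zero_iff]
    intro p hp h0
    rw [mem_filter] at hp
    exact hp.2 (hinj (sub_eq_zero.1 h0))
  have hΔd : Δ.natDegree ≤ k ^ 2 * d := by
    rw [hΔ]
    refine (natDegree_prod_le _ _).trans ?_
    refine (Finset.sum_le_card_nsmul _ _ d fun p _ => ?_).trans ?_
    · exact (natDegree_sub_le _ _).trans (max_le (hdeg _) (hdeg _))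
    · rw [smul_eq_mul]
      refine Nat.mul_le_mul_right _ ?_
      refine (Finset.card_filter_le _ _).trans ?_
      rw [Finset.card_univ, Fintype.card_prod, Fintype.card_fin, sq]
  have hdist : ∀ P : K[X], ¬ P ∣ Δ → ∀ i j, i ≠ j → ¬ P ∣ h i - h j := by
    intro P hP i j hij hd
    apply hP
    refine hd.trans ?_
    rw [hΔ]
    exact Finset.dvd_prod_of_mem (fun p : Fin k × Fin k => h p.1 - h p.2)
      (a := (i, j)) (mem_filter.2 ⟨mem_univ _, hij⟩)
  -- the factors
  have hg : ∀ P ∈ PU K n, ∑ T : Finset (Fin k), w ^ (P.natDegree * T.card) * |eT P h T| ≤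
      (if P ∣ Δ then B else 1) * Real.exp (c * ((z ^ P.natDegree) ^ 7)⁻¹) := by
    intro P hP
    rw [mem_PU] at hP
    have hN := N_ge (K := K) hP.2.1
    set v : ℝ := z ^ P.natDegree with hv
    have hv1 : 1 ≤ v := one_le_pow₀ hz1
    have hv0 : 0 < v := by linarith
    have hNv : q ^ P.natDegree = v ^ 4 := by
      rw [hz4, hv, ← pow_mul, ← pow_mul, mul_comm]
    rw [← hqdef, hNv] at hN
    have hwv : (w ^ P.natDegree) ^ k = v := by
      rw [← pow_mul, mul_comm, pow_mul, hwz]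
    have hx : 1 / (v ^ 4 - 1) ≤ 2 / v ^ 4 := by
      rw [div_le_div_iff₀ (by linarith) (by positivity)]
      linarith
    have hx0 : 0 ≤ 1 / (v ^ 4 - 1) := one_div_nonneg.2 (by linarith)
    have he1 : 1 ≤ Real.exp (c * (v ^ 7)⁻¹) := Real.one_le_exp (by positivity)
    split_ifs with hd
    · refine (factor hP.1 hP.2.1 h hw1 hwv (y := (k + 1) * (1 / (v ^ 4 - 1))) (by positivity)
        fun T hT => ?_).trans ?_
      · have := eT_bad hP.1 hP.2.1 h (T := T) (by omega)
        rw [← hqdef, hNv] at this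
        exact this
      · have h1 : v * ((k + 1) * (1 / (v ^ 4 - 1))) ≤ 2 * ((k : ℝ) + 1) := by
          calc v * ((k + 1) * (1 / (v ^ 4 - 1))) ≤ v * ((k + 1) * (2 / v ^ 4)) := by gcongr
            _ = 2 * ((k : ℝ) + 1) * (1 / v ^ 3) := by field_simp
            _ ≤ 2 * ((k : ℝ) + 1) * 1 := by
                gcongr
                rw [div_le_one (by positivity)]
                exact one_le_pow₀ hv1
            _ = _ := mul_one _
        have h2 : 1 + 2 ^ k * (v * ((k + 1) * (1 / (v ^ 4 - 1)))) ≤ B := by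
          rw [hB]
          gcongr
        calc _ ≤ B := h2
          _ = B * 1 := (mul_one _).symm
          _ ≤ _ := by gcongr
    · refine (factor hP.1 hP.2.1 h hw1 hwv (y := (k + 1) * (1 / (v ^ 4 - 1)) ^ 2) (by positivity)
        fun T hT => ?_).trans ?_
      · have := eT_good hP.1 hP.2.1 h (hdist P hd) hT
        rw [← hqdef, hNv] at this
        exact this
      · have h1 : v * ((k + 1) * (1 / (v ^ 4 - 1)) ^ 2) ≤ 4 * ((k : ℝ) + 1) * (v ^ 7)⁻¹ := by
          calc v * ((k + 1) * (1 / (v ^ 4 - 1)) ^ 2) ≤ v * ((k + 1) * (2 / v ^ 4) ^ 2) := by gcongr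
            _ = _ := by field_simp; ring
        rw [one_mul]
        have h2 := Real.add_one_le_exp (c * (v ^ 7)⁻¹)
        have h3 : 2 ^ k * (v * ((k + 1) * (1 / (v ^ 4 - 1)) ^ 2)) ≤ c * (v ^ 7)⁻¹ := by
          rw [hc, mul_assoc]
          gcongr
        linarith
  have hprod : ∏ P ∈ PU K n, ∑ T : Finset (Fin k), w ^ (P.natDegree * T.card) * |eT P h T| ≤
      B ^ ((PU K n).filter (fun P => P ∣ Δ)).card * Real.exp (c * 2) := by
    refine (Finset.prod_le_prod (fun P _ => by positivity) hg).trans ?_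
    rw [Finset.prod_mul_distrib, ← Real.exp_sum, ← Finset.prod_filter, Finset.prod_const]
    refine mul_le_mul_of_nonneg_left ?_ (by positivity)
    rw [Real.exp_le_exp, ← Finset.mul_sum]
    refine mul_le_mul_of_nonneg_left ?_ (by positivity)
    exact sum_conv hz0 hz3 (by rw [← hqdef]; exact hz4) n
  -- the number of the prime divisors of `Δ`
  have hcard : ((PU K n).filter (fun P => P ∣ Δ)).card ≤ (PU K u).card +
      ((PU K n).filter (fun P => P ∣ Δ ∧ u < P.natDegree)).card := by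
    refine (Finset.card_le_card ?_).trans (Finset.card_union_le _ _)
    intro P hP
    rw [mem_filter, mem_PU] at hP
    rw [mem_union, mem_filter, mem_PU, mem_PU]
    by_cases hu' : u < P.natDegree
    · exact Or.inr ⟨hP.1, hP.2, hu'⟩
    · exact Or.inl ⟨hP.1.1, hP.1.2.1, by omega⟩
  set m := ((PU K n).filter (fun P => P ∣ Δ ∧ u < P.natDegree)).card with hm
  have hlarge : (u + 1) * m ≤ k ^ 2 * d := card_large hΔ0 hΔd n u
  have hBm : B ^ m ≤ q ^ (ε * d) := by
    have e1 : B ^ m = Real.exp (m * Real.log B) := by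
      rw [Real.exp_nat_mul, Real.exp_log hB0]
    rw [e1, Real.rpow_def_of_pos hq0, Real.exp_le_exp]
    have lq : Real.log 2 ≤ Real.log q := Real.log_le_log (by norm_num) hq2
    have hm0 : (0 : ℝ) ≤ m := Nat.cast_nonneg _
    have h5 : R ≤ u + 1 := by
      have := Nat.le_ceil R
      rw [← hu] at this
      linarith
    have h6 : ((u : ℝ) + 1) * m ≤ k ^ 2 * d := by exact_mod_cast hlarge
    have h8 : R * m ≤ k ^ 2 * d := (mul_le_mul_of_nonneg_right h5 hm0).trans h6
    have h9 : (ε * Real.log 2 / k ^ 2) * (R * m) ≤ (ε * Real.log 2 / k ^ 2) * (k ^ 2 * d) :=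
      mul_le_mul_of_nonneg_left h8 (by positivity)
    have h10 : (ε * Real.log 2 / k ^ 2) * (R * m) = m * Real.log B := by
      rw [hR]
      field_simp
    have h11 : (ε * Real.log 2 / k ^ 2) * (k ^ 2 * d) = Real.log 2 * (ε * d) := by
      field_simp
    rw [h10, h11] at h9
    refine h9.trans ?_
    gcongr
  have hpow : q ^ (ε * d - 1 / (4 * (k : ℝ)) * t) = q ^ (ε * d) * (w ^ t)⁻¹ := by
    rw [Real.rpow_sub hq0, div_eq_mul_inv, Real.rpow_mul hq0.le (1 / (4 * (k : ℝ))) t,
      Real.rpow_natCast]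
  have hmain := rankinT (K := K) (fun P T => eT P h T) htn (fun P _ => eT_empty P h) hw1
  refine hmain.trans ?_
  rw [hpow]
  have hwt : 0 < (w ^ t)⁻¹ := by positivity
  calc (w ^ t)⁻¹ * ∏ P ∈ PU K n, ∑ T : Finset (Fin k), w ^ (P.natDegree * T.card) * |eT P h T|
      ≤ (w ^ t)⁻¹ * (B ^ ((PU K n).filter (fun P => P ∣ Δ)).card * Real.exp (c * 2)) :=
        mul_le_mul_of_nonneg_left hprod hwt.le
    _ ≤ (w ^ t)⁻¹ * (B ^ ((PU K u).card + m) * Real.exp (c * 2)) := by
        refine mul_le_mul_of_nonneg_left (mul_le_mul_of_nonneg_right ?_ (Real.exp_pos _).le) hwt.le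
        exact pow_le_pow_right₀ hB1 hcard
    _ = (Real.exp (c * 2) * B ^ (PU K u).card) * (B ^ m * (w ^ t)⁻¹) := by rw [pow_add]; ring
    _ ≤ (Real.exp (c * 2) * B ^ (PU K u).card) * (q ^ (ε * d) * (w ^ t)⁻¹) := by
        refine mul_le_mul_of_nonneg_left ?_ (by positivity)
        exact mul_le_mul_of_nonneg_right hBm hwt.le

end Pool.Agent.H290.FX.PT6
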