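import Pool.Agent.H290.FX.StmT

/-!
# Task T7 (helper350, for helper290): the local factor
-/

set_option autoImplicit false

namespace Pool.Agent.H290.FX.PT7

open Polynomial
open scoped Classical
open Pool.Agent.H290.FX

theorem main : S_t7 := by
  intro K _ _ k P h hP hPi
  obtain ⟨N, hN⟩ : ∃ N : ℝ, N = (Fintype.card K : ℝ) ^ P.natDegree := ⟨_, rfl⟩
  have hdeg : 0 < P.natDegree := hPi.natDegree_pos
  have hN1 : 1 < N := by
    rw [hN]
    exact one_lt_pow₀ (by exact_mod_cast Fintype.one_lt_card) (by omega)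
  have hN0 : N ≠ 0 := by linarith
  have hN2 : N - 1 ≠ 0 := by linarith
  have h1 : ∀ x : K[X], 1 + lm P x = if P ∣ x ^ 2 + X then 0 else N / (N - 1) := by
    intro x
    unfold lm
    rw [← hN]
    by_cases hx : P ∣ x ^ 2 + X
    · rw [if_pos hx, if_pos hx]; ring
    · rw [if_neg hx, if_neg hx]; field_simp; ring
  have h2 : ∀ a : K[X], ∏ i : Fin k, (1 + lm P (a + h i)) =
      if ∃ i, P ∣ (a + h i) ^ 2 + X then 0 else (N / (N - 1)) ^ k := by
    intro a
    by_cases ha : ∃ i, P ∣ (a + h i) ^ 2 + X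
    · rw [if_pos ha]
      obtain ⟨i, hi⟩ := ha
      refine Finset.prod_eq_zero (Finset.mem_univ i) ?_
      rw [h1, if_pos hi]
    · rw [if_neg ha]
      push Not at ha
      have h3 : ∀ i ∈ (Finset.univ : Finset (Fin k)), (1 + lm P (a + h i)) = N / (N - 1) := by
        intro i _
        rw [h1, if_neg (ha i)]
      rw [Finset.prod_congr rfl h3, Finset.prod_const, Finset.card_univ, Fintype.card_fin]
  have h4 : ∑ T : Finset (Fin k), eT P h T =
      (∑ a ∈ Vs K P.natDegree, ∏ i : Fin k, (1 + lm P (a + h i))) / N := by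
    unfold eT
    rw [← Finset.sum_div, Finset.sum_comm, ← hN]
    congr 1
    refine Finset.sum_congr rfl fun a _ => ?_
    rw [Finset.prod_one_add, Finset.powerset_univ]
  have h5 : ∑ a ∈ Vs K P.natDegree, ∏ i : Fin k, (1 + lm P (a + h i)) =
      (N - (om P h : ℝ)) * (N / (N - 1)) ^ k := by
    rw [Finset.sum_congr rfl (fun a _ => h2 a)]
    have h6 : ∑ a ∈ Vs K P.natDegree,
        (if ∃ i, P ∣ (a + h i) ^ 2 + X then (0 : ℝ) else (N / (N - 1)) ^ k) =
        ∑ a ∈ Vs K P.natDegree, ((N / (N - 1)) ^ k -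
          (if ∃ i, P ∣ (a + h i) ^ 2 + X then (N / (N - 1)) ^ k else 0)) := by
      refine Finset.sum_congr rfl fun a _ => ?_
      by_cases ha : ∃ i, P ∣ (a + h i) ^ 2 + X
      · rw [if_pos ha, if_pos ha, sub_self]
      · rw [if_neg ha, if_neg ha, sub_zero]
    rw [h6, Finset.sum_sub_distrib, ← Finset.sum_filter, Finset.sum_const, Finset.sum_const,
      card_Vs, nsmul_eq_mul, nsmul_eq_mul]
    unfold om
    push_cast
    rw [← hN]
    ring
  rw [h4, h5]
  unfold lf
  rw [← hN]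
  have h7 : 1 - 1 / N = (N - 1) / N := by field_simp
  rw [h7, div_pow, div_pow]
  have h8 : (N - 1) ^ k ≠ 0 := pow_ne_zero k hN2
  have h9 : N ^ k ≠ 0 := pow_ne_zero k hN0
  field_simp

end Pool.Agent.H290.FX.PT7
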