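import Pool.Agent.H290.FX.StmT

/-!
# Convergence of the singular series for tuples (task T8, by helper790)
-/

set_option autoImplicit false

namespace Pool.Agent.H290.FX.PT8

open Polynomial
open scoped Classical
open Pool.Agent.H694.Typ (Mn PU Irn mem_PU mem_Irn sum_PU irn_one_le q_ge)

section conv

variable {K : Type} [Field K] [Fintype K]

noncomputable def bP (P : K[X]) : ℝ := 1 / ((Fintype.card K : ℝ) ^ P.natDegree) ^ 2

theorem bP_nonneg (P : K[X]) : 0 ≤ bP P := by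
  unfold bP
  positivity

theorem sum_irn_le (j : ℕ) (hj : 1 ≤ j) : ∑ P ∈ Irn K j, bP P ≤ (1 / 2 : ℝ) ^ j := by
  have hq := q_ge (k := K)
  have h1 : ∀ P ∈ Irn K j, bP P = 1 / ((Fintype.card K : ℝ) ^ j) ^ 2 := by
    intro P hP
    unfold bP
    rw [(mem_Irn.1 hP).2.1]
  rw [Finset.sum_congr rfl h1, Finset.sum_const, nsmul_eq_mul]
  obtain ⟨Q, hQ⟩ : ∃ Q : ℝ, Q = (Fintype.card K : ℝ) ^ j := ⟨_, rfl⟩
  have hQ2 : (2 : ℝ) ^ j ≤ Q := by
    rw [hQ]
    exact pow_le_pow_left₀ (by norm_num) hq j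
  have h2j : (0 : ℝ) < 2 ^ j := by positivity
  have hc : ((Irn K j).card : ℝ) ≤ Q := by
    have h2 := irn_one_le (k := K) (d := j) (by omega)
    have h3 : (Irn K j).card ≤ j * (Irn K j).card := Nat.le_mul_of_pos_left _ (by omega)
    rw [hQ]
    exact_mod_cast h3.trans h2
  rw [← hQ]
  have hQ0 : 0 < Q := by linarith
  calc ((Irn K j).card : ℝ) * (1 / Q ^ 2) ≤ Q * (1 / Q ^ 2) := by
        apply mul_le_mul_of_nonneg_right hc (by positivity)
    _ = 1 / Q := by field_simp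
    _ ≤ 1 / 2 ^ j := div_le_div_of_nonneg_left (by norm_num) (by positivity) hQ2
    _ = (1 / 2) ^ j := by rw [one_div, one_div, inv_pow]

theorem sum_geo (n : ℕ) : ∑ j ∈ Finset.Icc 1 n, (1 / 2 : ℝ) ^ j = 1 - (1 / 2) ^ n := by
  induction n with
  | zero => simp
  | succ n ih =>
    rw [Finset.sum_Icc_succ_top (by omega), ih, pow_succ]
    ring

theorem sum_bP_le (n : ℕ) : ∑ P ∈ PU K n, bP P ≤ 1 := by
  rw [sum_PU]
  have h1 : ∑ j ∈ Finset.Icc 1 n, ∑ P ∈ Irn K j, bP P ≤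
      ∑ j ∈ Finset.Icc 1 n, (1 / 2 : ℝ) ^ j := by
    apply Finset.sum_le_sum
    intro j hj
    exact sum_irn_le j (Finset.mem_Icc.1 hj).1
  rw [sum_geo] at h1
  have : (0 : ℝ) ≤ (1 / 2) ^ n := by positivity
  linarith

/-- `lam` extended by zero -/
noncomputable def ff (lam : K[X] → ℝ) (P : K[X]) : ℝ :=
  if P.Monic ∧ Irreducible P then lam P else 0

theorem sum_lam_le (lam : K[X] → ℝ) (h : K[X]) (hh : h ≠ 0) (C : ℝ) (hC : 0 ≤ C)
    (h2 : ∀ P : K[X], P.Monic → Irreducible P → ¬ P ∣ h → |lam P| ≤ C * bP P) (n : ℕ) :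
    ∑ P ∈ PU K n, |lam P| ≤ ∑ P ∈ PU K h.natDegree, |lam P| + C := by
  rw [← Finset.sum_filter_add_sum_filter_not (PU K n) (fun P => P ∣ h)]
  apply add_le_add
  · apply Finset.sum_le_sum_of_subset_of_nonneg
    · intro P hP
      rw [Finset.mem_filter, mem_PU] at hP
      exact mem_PU.2 ⟨hP.1.1, hP.1.2.1, natDegree_le_of_dvd hP.2 hh⟩
    · intro P _ _
      exact abs_nonneg _
  · have h3 : C * ∑ P ∈ PU K n, bP P ≤ C := by
      have := mul_le_mul_of_nonneg_left (sum_bP_le (K := K) n) hC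
      linarith
    refine le_trans ?_ h3
    rw [Finset.mul_sum]
    refine le_trans (Finset.sum_le_sum (g := fun P => C * bP P) ?_) ?_
    · intro P hP
      rw [Finset.mem_filter, mem_PU] at hP
      exact h2 P hP.1.1 hP.1.2.1 hP.2
    · exact Finset.sum_le_sum_of_subset_of_nonneg (Finset.filter_subset _ _)
        fun P _ _ => mul_nonneg hC (bP_nonneg P)

theorem summ (lam : K[X] → ℝ) (h : K[X]) (hh : h ≠ 0) (C : ℝ) (hC : 0 ≤ C)
    (h2 : ∀ P : K[X], P.Monic → Irreducible P → ¬ P ∣ h → |lam P| ≤ C * bP P) :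
    Summable (fun P => |ff lam P|) := by
  apply summable_of_sum_le (c := ∑ P ∈ PU K h.natDegree, |lam P| + C) (fun P => abs_nonneg _)
  intro u
  have h3 : ∑ P ∈ u, |ff lam P| ≤ ∑ P ∈ PU K (u.sup natDegree), |lam P| := by
    have h4 : ∑ P ∈ u, |ff lam P| =
        ∑ P ∈ u.filter (fun P => P.Monic ∧ Irreducible P), |lam P| := by
      rw [Finset.sum_filter]
      refine Finset.sum_congr rfl fun P _ => ?_
      unfold ff
      split_ifs
      · rfl
      · exact abs_zero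
    rw [h4]
    apply Finset.sum_le_sum_of_subset_of_nonneg
    · intro P hP
      rw [Finset.mem_filter] at hP
      exact mem_PU.2 ⟨hP.2.1, hP.2.2, Finset.le_sup hP.1⟩
    · intro P _ _
      exact abs_nonneg _
  exact h3.trans (sum_lam_le lam h hh C hC h2 _)

theorem prod_eq (lam : K[X] → ℝ) (n : ℕ) :
    ∏ P ∈ Vs K (n + 1), (1 + ff lam P) = ∏ P ∈ PU K n, (1 + lam P) := by
  have h1 : ∏ P ∈ PU K n, (1 + lam P) = ∏ P ∈ PU K n, (1 + ff lam P) := by
    refine Finset.prod_congr rfl fun P hP => ?_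
    rw [mem_PU] at hP
    unfold ff
    rw [if_pos ⟨hP.1, hP.2.1⟩]
  rw [h1]
  symm
  apply Finset.prod_subset
  · intro P hP
    rw [mem_PU] at hP
    rw [mem_Vs, degree_eq_natDegree hP.1.ne_zero]
    have : P.natDegree < n + 1 := by omega
    exact_mod_cast this
  · intro P hP hP2
    unfold ff
    rw [if_neg, add_zero]
    rintro ⟨h3, h4⟩
    apply hP2
    rw [mem_Vs, degree_eq_natDegree h3.ne_zero] at hP
    have : P.natDegree < n + 1 := by exact_mod_cast hP
    exact mem_PU.2 ⟨h3, h4, by omega⟩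

theorem tends (lam : K[X] → ℝ) (h : K[X]) (hh : h ≠ 0) (C : ℝ) (hC : 0 ≤ C)
    (h2 : ∀ P : K[X], P.Monic → Irreducible P → ¬ P ∣ h → |lam P| ≤ C * bP P) :
    ∃ L : ℝ, Filter.Tendsto (fun n : ℕ => ∏ P ∈ PU K n, (1 + lam P)) Filter.atTop (nhds L) := by
  have hs : Summable (ff lam) := (summ lam h hh C hC h2).of_abs
  have hm : Multipliable (fun P => 1 + ff lam P) := Real.multipliable_one_add_of_summable hs
  obtain ⟨L, hL⟩ := hm
  refine ⟨L, ?_⟩
  have hL' : Filter.Tendsto (fun s : Finset K[X] => ∏ P ∈ s, (1 + ff lam P)) Filter.atTop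
      (nhds L) := hL
  have ht : Filter.Tendsto (fun n : ℕ => Vs K (n + 1)) Filter.atTop Filter.atTop := by
    apply Filter.tendsto_atTop_finset_of_monotone
    · intro m n hmn P hP
      rw [mem_Vs] at hP ⊢
      refine lt_of_lt_of_le hP ?_
      exact_mod_cast Nat.add_le_add_right hmn 1
    · intro P
      refine ⟨P.natDegree, ?_⟩
      rw [mem_Vs]
      refine lt_of_le_of_lt degree_le_natDegree ?_
      exact_mod_cast Nat.lt_succ_self _
  refine (hL'.comp ht).congr fun n => ?_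
  exact prod_eq lam n

theorem exp_le (a : ℝ) (h0 : 0 ≤ a) (h1 : a ≤ 1 / 2) : Real.exp (-(2 * a)) ≤ 1 - a := by
  have h2 : 1 + 2 * a ≤ Real.exp (2 * a) := by
    have := Real.add_one_le_exp (2 * a)
    linarith
  rw [Real.exp_neg, inv_le_comm₀ (Real.exp_pos _) (by linarith)]
  refine le_trans ?_ h2
  rw [inv_le_comm₀ (by linarith) (by linarith), inv_eq_one_div, div_le_iff₀ (by linarith)]
  nlinarith

theorem lower (C : ℝ) (hC : 0 ≤ C) (lam : K[X] → ℝ)
    (h1 : ∀ P : K[X], P.Monic → Irreducible P → 1 - C * bP P ≤ 1 + lam P)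
    (h2 : ∀ P : K[X], P.Monic → Irreducible P →
      1 / (Fintype.card K : ℝ) ^ P.natDegree ≤ 1 + lam P) (n : ℕ) :
    (1 / (Fintype.card K : ℝ) ^ (⌈C⌉₊)) ^ (PU K ⌈C⌉₊).card * Real.exp (-(2 * C)) ≤
      ∏ P ∈ PU K n, (1 + lam P) := by
  have hq := q_ge (k := K)
  have hq0 : (0 : ℝ) < (Fintype.card K : ℝ) := by linarith
  have hg : ∀ P ∈ PU K n,
      (if P.natDegree ≤ ⌈C⌉₊ then 1 / (Fintype.card K : ℝ) ^ (⌈C⌉₊)
        else Real.exp (-(2 * (C * bP P)))) ≤ 1 + lam P := by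
    intro P hP
    rw [mem_PU] at hP
    split_ifs with hd
    · refine le_trans ?_ (h2 P hP.1 hP.2.1)
      apply one_div_le_one_div_of_le (by positivity)
      exact pow_le_pow_right₀ (by linarith) hd
    · have hd' : ⌈C⌉₊ < P.natDegree := not_le.1 hd
      have hCd : C ≤ P.natDegree := (Nat.le_ceil C).trans (by exact_mod_cast hd'.le)
      have h4 : (2 : ℝ) * C ≤ ((Fintype.card K : ℝ) ^ P.natDegree) ^ 2 := by
        have h5 : ((P.natDegree : ℕ) : ℝ) ≤ 2 ^ P.natDegree := by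
          exact_mod_cast (Nat.lt_two_pow_self).le
        have h6 : (2 : ℝ) ≤ 2 ^ P.natDegree := by
          calc (2 : ℝ) = 2 ^ 1 := (pow_one 2).symm
            _ ≤ 2 ^ P.natDegree := pow_le_pow_right₀ (by norm_num) (by omega)
        have h7 : (2 : ℝ) ^ P.natDegree ≤ (Fintype.card K : ℝ) ^ P.natDegree :=
          pow_le_pow_left₀ (by norm_num) hq _
        have h8 : ((2 : ℝ) ^ P.natDegree) ^ 2 ≤ ((Fintype.card K : ℝ) ^ P.natDegree) ^ 2 :=
          pow_le_pow_left₀ (by positivity) h7 2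
        nlinarith
      have h7 : C * bP P ≤ 1 / 2 := by
        unfold bP
        rw [mul_one_div, div_le_iff₀ (by positivity)]
        linarith
      exact (exp_le _ (mul_nonneg hC (bP_nonneg P)) h7).trans (h1 P hP.1 hP.2.1)
  have hg0 : ∀ P ∈ PU K n,
      0 ≤ (if P.natDegree ≤ ⌈C⌉₊ then 1 / (Fintype.card K : ℝ) ^ (⌈C⌉₊)
        else Real.exp (-(2 * (C * bP P)))) := by
    intro P _
    split_ifs
    · positivity
    · exact (Real.exp_pos _).le
  refine le_trans ?_ (Finset.prod_le_prod hg0 hg)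
  rw [Finset.prod_ite, Finset.prod_const, ← Real.exp_sum]
  apply mul_le_mul _ _ (Real.exp_pos _).le (by positivity)
  · apply pow_le_pow_of_le_one (by positivity)
    · rw [div_le_one (by positivity)]
      exact one_le_pow₀ (by linarith)
    · apply Finset.card_le_card
      intro P hP
      rw [Finset.mem_filter, mem_PU] at hP
      exact mem_PU.2 ⟨hP.1.1, hP.1.2.1, hP.2⟩
  · apply Real.exp_le_exp.2
    rw [Finset.sum_neg_distrib, ← Finset.mul_sum, ← Finset.mul_sum]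
    have h10 : ∑ P ∈ (PU K n).filter (fun P => ¬ P.natDegree ≤ ⌈C⌉₊), bP P ≤ 1 := by
      refine le_trans ?_ (sum_bP_le (K := K) n)
      exact Finset.sum_le_sum_of_subset_of_nonneg (Finset.filter_subset _ _)
        fun P _ _ => bP_nonneg P
    nlinarith

end conv

section roots

variable {K : Type} [Field K] [Fintype K] [CharP K 2]

theorem two0 : (2 : K[X]) = 0 := CharTwo.two_eq_zero

theorem root_unique {P : K[X]} (hP : Irreducible P) {x y h : K[X]} (hx : P ∣ (x + h) ^ 2 + X)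
    (hy : P ∣ (y + h) ^ 2 + X) : P ∣ x - y := by
  have h1 : P ∣ (x - y) ^ 2 := by
    have h2 : (x - y) ^ 2 = ((x + h) ^ 2 + X) - ((y + h) ^ 2 + X) := by
      linear_combination (y ^ 2 - x * y - x * h + y * h) * (two0 (K := K))
    rw [h2]
    exact dvd_sub hx hy
  exact hP.prime.dvd_of_dvd_pow h1

theorem eq_of_dvd {P : K[X]} (hPm : P.Monic) {x y : K[X]} (hx : x ∈ Vs K P.natDegree)
    (hy : y ∈ Vs K P.natDegree) (h : P ∣ x - y) : x = y := by
  rw [mem_Vs] at hx hy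
  by_contra hne
  have h1 : (x - y).degree < P.degree := by
    rw [degree_eq_natDegree hPm.ne_zero]
    exact (degree_sub_le _ _).trans_lt (max_lt hx hy)
  exact absurd (degree_le_of_dvd h (sub_ne_zero.2 hne)) (not_le.2 h1)

theorem mod_mem {P : K[X]} (hPm : P.Monic) (x : K[X]) : x %ₘ P ∈ Vs K P.natDegree := by
  rw [mem_Vs, ← degree_eq_natDegree hPm.ne_zero]
  exact degree_modByMonic_lt x hPm

theorem root_exists {P : K[X]} (hPm : P.Monic) (hP : Irreducible P) :
    ∃ r : K[X], P ∣ r ^ 2 + X := by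
  have hsurj : Set.SurjOn (fun r : K[X] => r ^ 2 %ₘ P) (Vs K P.natDegree) (Vs K P.natDegree) := by
    apply Finset.surjOn_of_injOn_of_card_le
    · intro r _
      exact mod_mem hPm _
    · intro r hr s hs hrs
      apply eq_of_dvd hPm hr hs
      have h1 : P ∣ r ^ 2 - s ^ 2 := by
        have h2 := modByMonic_add_div (r ^ 2) P
        have h3 := modByMonic_add_div (s ^ 2) P
        have h4 : r ^ 2 %ₘ P = s ^ 2 %ₘ P := hrs
        refine ⟨r ^ 2 /ₘ P - s ^ 2 /ₘ P, ?_⟩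
        linear_combination h4 - h2 + h3
      have h5 : P ∣ (r - s) ^ 2 := by
        have h6 : (r - s) ^ 2 = r ^ 2 - s ^ 2 := by
          linear_combination (s ^ 2 - r * s) * (two0 (K := K))
        rw [h6]
        exact h1
      exact hP.prime.dvd_of_dvd_pow h5
    · exact le_rfl
  obtain ⟨r, _, hr⟩ := hsurj (mod_mem hPm X)
  refine ⟨r, ?_⟩
  have h2 := modByMonic_add_div (r ^ 2) P
  have h3 := modByMonic_add_div (X : K[X]) P
  have h4 : r ^ 2 %ₘ P = X %ₘ P := hr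
  refine ⟨r ^ 2 /ₘ P - X /ₘ P, ?_⟩
  linear_combination h4 - h2 + h3 + X * (two0 (K := K))

theorem root_shift {P : K[X]} (hPm : P.Monic) (hP : Irreducible P) (h : K[X]) :
    ∃ a ∈ Vs K P.natDegree, P ∣ (a + h) ^ 2 + X := by
  obtain ⟨r, hr⟩ := root_exists hPm hP
  refine ⟨(r + h) %ₘ P, mod_mem hPm _, ?_⟩
  have h2 := modByMonic_add_div (r + h) P
  have h3 : (r + h) %ₘ P + h = r - P * ((r + h) /ₘ P) := by
    linear_combination h2 + h * (two0 (K := K))
  rw [h3]
  have h4 : (r - P * ((r + h) /ₘ P)) ^ 2 + X =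
      (r ^ 2 + X) + P * ((r + h) /ₘ P * (P * ((r + h) /ₘ P) - 2 * r)) := by ring
  rw [h4]
  exact dvd_add hr (dvd_mul_right _ _)

theorem om_image {k : ℕ} {P : K[X]} (hPm : P.Monic) (hP : Irreducible P) (h : Fin k → K[X])
    (ρ : Fin k → K[X]) (hρ : ∀ i, ρ i ∈ Vs K P.natDegree ∧ P ∣ (ρ i + h i) ^ 2 + X) :
    om P h = (Finset.univ.image ρ).card := by
  unfold om
  congr 1
  ext a
  rw [Finset.mem_filter, Finset.mem_image]
  constructor
  · rintro ⟨ha, i, hi⟩
    refine ⟨i, Finset.mem_univ _, ?_⟩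
    exact eq_of_dvd hPm (hρ i).1 ha (root_unique hP (hρ i).2 hi)
  · rintro ⟨i, _, rfl⟩
    exact ⟨(hρ i).1, i, (hρ i).2⟩

theorem om_le {k : ℕ} {P : K[X]} (hPm : P.Monic) (hP : Irreducible P) (h : Fin k → K[X]) :
    om P h ≤ k := by
  choose ρ hρ using fun i => root_shift hPm hP (h i)
  rw [om_image hPm hP h ρ hρ]
  exact Finset.card_image_le.trans (by simp)

theorem om_eq {k : ℕ} {P : K[X]} (hPm : P.Monic) (hP : Irreducible P) (h : Fin k → K[X])
    (hd : ∀ i j, i ≠ j → ¬ P ∣ h i - h j) : om P h = k := by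
  choose ρ hρ using fun i => root_shift hPm hP (h i)
  rw [om_image hPm hP h ρ hρ, Finset.card_image_of_injective, Finset.card_univ, Fintype.card_fin]
  intro i j hij
  by_contra hne
  apply hd i j hne
  have h1 : P ∣ (h i + ρ i) ^ 2 + X := by
    have e : (h i + ρ i) ^ 2 + X = (ρ i + h i) ^ 2 + X := by ring
    rw [e]
    exact (hρ i).2
  have h2 : P ∣ (h j + ρ i) ^ 2 + X := by
    have e : (h j + ρ i) ^ 2 + X = (ρ j + h j) ^ 2 + X := by rw [hij]; ring
    rw [e]
    exact (hρ j).2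
  exact root_unique hP h1 h2

/-- the product of the differences -/
noncomputable def Del {k : ℕ} (h : Fin k → K[X]) : K[X] :=
  ∏ i, ∏ j, if i = j then 1 else h i - h j

theorem del_ne {k : ℕ} (h : Fin k → K[X]) (hinj : Function.Injective h) : Del h ≠ 0 := by
  unfold Del
  rw [Finset.prod_ne_zero_iff]
  intro i _
  rw [Finset.prod_ne_zero_iff]
  intro j _
  by_cases hij : i = j
  · rw [if_pos hij]
    exact one_ne_zero
  · rw [if_neg hij]
    exact sub_ne_zero.2 fun h1 => hij (hinj h1)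

theorem del_dvd {k : ℕ} (h : Fin k → K[X]) (i j : Fin k) (hij : i ≠ j) : h i - h j ∣ Del h := by
  have h1 : (∏ j, if i = j then (1 : K[X]) else h i - h j) ∣ Del h :=
    Finset.dvd_prod_of_mem (fun i => ∏ j, if i = j then (1 : K[X]) else h i - h j)
      (Finset.mem_univ i)
  have h2 : (if i = j then (1 : K[X]) else h i - h j) ∣
      ∏ j, if i = j then (1 : K[X]) else h i - h j :=
    Finset.dvd_prod_of_mem (fun j => if i = j then (1 : K[X]) else h i - h j)
      (Finset.mem_univ j)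
  rw [if_neg hij] at h2
  exact h2.trans h1

end roots

/-! inequalities -/

theorem ineq (k : ℕ) (u : ℝ) (h0 : 0 < u) (h1 : u ≤ 1 / 2) :
    0 < (1 - u) ^ k ∧ (1 - u) ^ k ≤ 1 ∧ (1 - k * u) / (1 - u) ^ k ≤ 1 ∧
      1 - (k : ℝ) ^ 2 * 2 ^ k * u ^ 2 ≤ (1 - k * u) / (1 - u) ^ k := by
  have hk : (0 : ℝ) ≤ k := Nat.cast_nonneg k
  have a1 : 0 < (1 - u) ^ k := pow_pos (by linarith) k
  have a2 : (1 - u) ^ k ≤ 1 := pow_le_one₀ (by linarith) (by linarith)
  have a3 : 1 - k * u ≤ (1 - u) ^ k := by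
    have := one_add_mul_le_pow (a := -u) (by linarith) k
    have e : (1 : ℝ) + -u = 1 - u := by ring
    rw [e] at this
    linarith
  have a4 : (1 - u) ^ k * (1 + k * u) ≤ 1 := by
    have b1 : 1 + k * u ≤ (1 + u) ^ k := one_add_mul_le_pow (by linarith) k
    calc (1 - u) ^ k * (1 + k * u) ≤ (1 - u) ^ k * (1 + u) ^ k :=
          mul_le_mul_of_nonneg_left b1 a1.le
      _ = (1 - u ^ 2) ^ k := by rw [← mul_pow]; ring
      _ ≤ 1 := pow_le_one₀ (by nlinarith) (by nlinarith)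
  have a5 : (1 / 2 : ℝ) ^ k ≤ (1 - u) ^ k := pow_le_pow_left₀ (by norm_num) (by linarith) k
  have a6 : (1 - u) ^ k - (1 - k * u) ≤ (k : ℝ) ^ 2 * u ^ 2 := by
    have hku : 0 ≤ k * u := by positivity
    have b2 : (1 - u) ^ k ≤ 1 - k * u + (k * u) ^ 2 := by
      have b3 : (1 - u) ^ k * (1 + k * u) ≤ (1 - k * u + (k * u) ^ 2) * (1 + k * u) := by
        have e : (1 - k * u + (k * u) ^ 2) * (1 + k * u) = 1 + (k * u) ^ 3 := by ring
        rw [e]
        have : 0 ≤ (k * u) ^ 3 := by positivity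
        linarith
      exact le_of_mul_le_mul_right b3 (by linarith)
    nlinarith
  refine ⟨a1, a2, ?_, ?_⟩
  · rw [div_le_one a1]
    exact a3
  · rw [le_div_iff₀ a1]
    have b4 : 1 ≤ 2 ^ k * (1 - u) ^ k := by
      have e : (1 : ℝ) = 2 ^ k * (1 / 2) ^ k := by
        rw [← mul_pow]; norm_num
      calc (1 : ℝ) = 2 ^ k * (1 / 2) ^ k := e
        _ ≤ _ := mul_le_mul_of_nonneg_left a5 (by positivity)
    have b5 : (k : ℝ) ^ 2 * u ^ 2 ≤ (k : ℝ) ^ 2 * 2 ^ k * u ^ 2 * (1 - u) ^ k := by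
      have := mul_le_mul_of_nonneg_left b4 (by positivity : (0 : ℝ) ≤ (k : ℝ) ^ 2 * u ^ 2)
      linarith
    have e : (1 - (k : ℝ) ^ 2 * 2 ^ k * u ^ 2) * (1 - u) ^ k =
        (1 - u) ^ k - (k : ℝ) ^ 2 * 2 ^ k * u ^ 2 * (1 - u) ^ k := by ring
    rw [e]
    linarith

theorem main : S_t8 := by
  intro K _ _ _ k
  have hq := q_ge (k := K)
  have hq0 : (0 : ℝ) < (Fintype.card K : ℝ) := by linarith
  obtain ⟨C, hCdef⟩ : ∃ C : ℝ, C = (k : ℝ) ^ 2 * 2 ^ k := ⟨_, rfl⟩
  have hC : 0 ≤ C := by rw [hCdef]; positivity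
  refine ⟨(1 / (Fintype.card K : ℝ) ^ (⌈C⌉₊)) ^ (PU K ⌈C⌉₊).card * Real.exp (-(2 * C)),
    by positivity, ?_⟩
  intro h hinj
  -- local bounds
  have hu : ∀ P : K[X], Irreducible P → 0 < 1 / (Fintype.card K : ℝ) ^ P.natDegree ∧
      1 / (Fintype.card K : ℝ) ^ P.natDegree ≤ 1 / 2 := by
    intro P hP
    refine ⟨by positivity, ?_⟩
    apply one_div_le_one_div_of_le (by norm_num)
    calc (2 : ℝ) ≤ (Fintype.card K : ℝ) := hq
      _ = (Fintype.card K : ℝ) ^ 1 := (pow_one _).symm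
      _ ≤ _ := pow_le_pow_right₀ (by linarith) hP.natDegree_pos
  have hb : ∀ P : K[X], C * bP P =
      (k : ℝ) ^ 2 * 2 ^ k * (1 / (Fintype.card K : ℝ) ^ P.natDegree) ^ 2 := by
    intro P
    rw [hCdef]
    unfold bP
    rw [one_div_pow]
  have hlf : ∀ P : K[X], lf P h = (1 - (om P h : ℝ) * (1 / (Fintype.card K : ℝ) ^ P.natDegree)) /
      (1 - 1 / (Fintype.card K : ℝ) ^ P.natDegree) ^ k := by
    intro P
    unfold lf
    rw [mul_one_div]
  have hlow : ∀ P : K[X], P.Monic → Irreducible P → 1 - C * bP P ≤ 1 + (lf P h - 1) := by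
    intro P hPm hP
    obtain ⟨u0, u1⟩ := hu P hP
    obtain ⟨i1, i2, i3, i4⟩ := ineq k _ u0 u1
    rw [hb]
    have h5 : (om P h : ℝ) ≤ k := by exact_mod_cast om_le hPm hP h
    have h6 : (1 - k * (1 / (Fintype.card K : ℝ) ^ P.natDegree)) /
        (1 - 1 / (Fintype.card K : ℝ) ^ P.natDegree) ^ k ≤ lf P h := by
      rw [hlf]
      apply div_le_div_of_nonneg_right _ i1.le
      have := mul_le_mul_of_nonneg_right h5 u0.le
      linarith
    linarith
  have habs : ∀ P : K[X], P.Monic → Irreducible P → ¬ P ∣ Del h → |lf P h - 1| ≤ C * bP P := by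
    intro P hPm hP hd
    obtain ⟨u0, u1⟩ := hu P hP
    obtain ⟨i1, i2, i3, i4⟩ := ineq k _ u0 u1
    have h5 : om P h = k := by
      apply om_eq hPm hP
      intro i j hij hdvd
      exact hd (hdvd.trans (del_dvd h i j hij))
    rw [hb, hlf, h5, abs_le]
    constructor
    · linarith
    · have : (0 : ℝ) ≤ (k : ℝ) ^ 2 * 2 ^ k * (1 / (Fintype.card K : ℝ) ^ P.natDegree) ^ 2 := by
        positivity
      linarith
  obtain ⟨L, hL⟩ := tends (fun P => lf P h - 1) (Del h) (del_ne h hinj) C hC habs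
  have hfun : (fun n : ℕ => ∏ P ∈ PU K n, (1 + (lf P h - 1))) =
      fun n : ℕ => ∏ P ∈ PU K n, lf P h := by
    funext n
    refine Finset.prod_congr rfl fun P _ => ?_
    ring
  refine ⟨L, ?_, fun hom => ?_⟩
  · rw [← hfun]
    exact hL
  · refine ge_of_tendsto' hL (fun n => lower C hC (fun P => lf P h - 1) hlow ?_ n)
    intro P hPm hP
    obtain ⟨u0, u1⟩ := hu P hP
    obtain ⟨i1, i2, i3, i4⟩ := ineq k _ u0 u1
    have h5 : (om P h : ℝ) + 1 ≤ (Fintype.card K : ℝ) ^ P.natDegree := by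
      have := hom P hPm hP
      exact_mod_cast Nat.succ_le_of_lt this
    have h6 : 1 / (Fintype.card K : ℝ) ^ P.natDegree ≤
        1 - (om P h : ℝ) * (1 / (Fintype.card K : ℝ) ^ P.natDegree) := by
      have hN : (0 : ℝ) < (Fintype.card K : ℝ) ^ P.natDegree := by positivity
      rw [mul_one_div, div_le_iff₀ hN, sub_mul, div_mul_cancel₀ _ hN.ne']
      linarith
    have h7 : 1 / (Fintype.card K : ℝ) ^ P.natDegree ≤ lf P h := by
      rw [hlf, le_div_iff₀ i1]
      calc 1 / (Fintype.card K : ℝ) ^ P.natDegree *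
            (1 - 1 / (Fintype.card K : ℝ) ^ P.natDegree) ^ k ≤
            1 / (Fintype.card K : ℝ) ^ P.natDegree * 1 := mul_le_mul_of_nonneg_left i2 u0.le
        _ ≤ _ := by rw [mul_one]; exact h6
    show 1 / (Fintype.card K : ℝ) ^ P.natDegree ≤ 1 + (lf P h - 1)
    linarith

end Pool.Agent.H290.FX.PT8
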