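import Pool.Agent.H290.FX.StmT

/-!
# Tuples of irreducible `(a + h i) ^ 2 + X`: the assembly (task T9)
-/

namespace Pool.Agent.H290.FX.PT9

open Polynomial
open scoped Classical
open Pool.Agent.H985.Chow (mob)
open Pool.Agent.H985.KP (sg PA)
open Pool.Agent.H694.Typ (Mn PU mem_Mn mem_PU)
open Pool.Agent.H604.LD (PiM)

theorem add_Mn {K : Type} [Field K] [Fintype K] {d : ℕ} {a h : K[X]}
    (ha : a ∈ Mn K d) (hh : h.degree < (d : WithBot ℕ)) : a + h ∈ Mn K d := by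
  rw [mem_Mn] at ha ⊢
  have h1 : h.degree < a.degree := by rwa [degree_eq_natDegree ha.1.ne_zero, ha.2]
  refine ⟨ha.1.add_of_left h1, ?_⟩
  rw [natDegree_eq_of_degree_eq (degree_add_eq_left_of_degree_lt h1), ha.2]

theorem grow {q c B : ℝ} (hq : 1 < q) (hc : 0 < c) :
    ∀ᶠ d : ℕ in Filter.atTop, B * (d : ℝ) ^ 2 ≤ q ^ (c * d) := by
  have h1 := (tendsto_pow_const_div_const_pow_of_one_lt 2
    (Real.one_lt_rpow hq hc)).const_mul B
  rw [mul_zero] at h1
  filter_upwards [h1.eventually (gt_mem_nhds one_pos)] with d hd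
  rw [Real.rpow_mul (by linarith), Real.rpow_natCast]
  have h2 : 0 < (q ^ c) ^ d := by positivity
  rw [← mul_div_assoc, div_lt_one h2] at hd
  exact hd.le

theorem grow' {q c B : ℝ} (hq : 1 < q) (hc : 0 < c) (hB : 0 ≤ B) :
    ∀ᶠ d : ℕ in Filter.atTop, B * (d : ℝ) ≤ q ^ (c * d) ∧ B ≤ q ^ (c * d) := by
  filter_upwards [grow (B := B) hq hc, Filter.eventually_ge_atTop 1] with d hd hd1
  have h1 : (1 : ℝ) ≤ d := by exact_mod_cast hd1
  constructor
  · refine le_trans ?_ hd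
    exact mul_le_mul_of_nonneg_left (by nlinarith) hB
  · refine le_trans ?_ hd
    exact le_mul_of_one_le_right hB (by nlinarith)

/-- The count of the exceptional `h`. -/
theorem count {α : Type} (s : Finset α) (F E : α → ℝ) (q c c1 R : ℝ) (k d : ℕ) (hd : 1 ≤ d)
    (hk : 1 ≤ k) (hq : 1 < q) (hc : 6 * c ≤ c1)
    (hF : ∀ h ∈ s, |F h - (2 * (d : ℝ)) ^ k * E h| ≤ q ^ (d : ℝ) * R)
    (hR : R ≤ q ^ (-(c * d))) (hE : ∀ h ∈ s, q ^ ((1 - c) * d) < |E h|)
    (hs : ∑ h ∈ s, F h ^ 2 ≤ q ^ ((k + 2 - c1 / 2) * d)) :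
    (s.card : ℝ) ≤ q ^ ((k - c) * d) := by
  have hq0 : 0 < q := by linarith
  have hd' : (1 : ℝ) ≤ d := by exact_mod_cast hd
  have h1 : ∀ h ∈ s, (q ^ ((1 - c) * d)) ^ 2 ≤ F h ^ 2 := by
    intro h hh
    have h2 : q ^ ((1 - c) * d) ≤ |F h| := by
      have h3 := hF h hh
      have h4 := hE h hh
      have hpk : (2 : ℝ) ≤ (2 * (d : ℝ)) ^ k := by
        calc (2 : ℝ) ≤ 2 * d := by linarith
          _ = (2 * (d : ℝ)) ^ 1 := (pow_one _).symm
          _ ≤ _ := pow_le_pow_right₀ (by linarith) hk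
      have h5 : (2 * (d : ℝ)) ^ k * |E h| ≤ |F h| + q ^ (d : ℝ) * R := by
        have h6 : |(2 * (d : ℝ)) ^ k * E h| = (2 * (d : ℝ)) ^ k * |E h| := by
          rw [abs_mul, abs_of_nonneg (by positivity)]
        rw [← h6]
        have h7 := abs_sub_abs_le_abs_sub ((2 * (d : ℝ)) ^ k * E h) (F h)
        rw [abs_sub_comm] at h7
        linarith
      have h8 : q ^ (d : ℝ) * R ≤ q ^ ((1 - c) * d) := by
        have : q ^ ((1 - c) * (d : ℝ)) = q ^ (d : ℝ) * q ^ (-(c * d)) := by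
          rw [← Real.rpow_add hq0]
          congr 1
          ring
        rw [this]
        exact mul_le_mul_of_nonneg_left hR (Real.rpow_pos_of_pos hq0 _).le
      have h11 : 0 < q ^ ((1 - c) * (d : ℝ)) := Real.rpow_pos_of_pos hq0 _
      have h12 : 2 * q ^ ((1 - c) * (d : ℝ)) ≤ (2 * (d : ℝ)) ^ k * |E h| :=
        mul_le_mul hpk h4.le h11.le (by positivity)
      linarith
    rw [← sq_abs (F h)]
    exact pow_le_pow_left₀ (Real.rpow_pos_of_pos hq0 _).le h2 2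
  have h2 := Finset.card_nsmul_le_sum s (fun h => F h ^ 2) _ h1
  rw [nsmul_eq_mul] at h2
  have h3 := h2.trans hs
  have h4 : (0 : ℝ) < (q ^ ((1 - c) * (d : ℝ))) ^ 2 := by positivity
  refine le_of_mul_le_mul_right (h3.trans ?_) h4
  rw [← Real.rpow_natCast, ← Real.rpow_mul hq0.le, ← Real.rpow_add hq0]
  apply Real.rpow_le_rpow_of_exponent_le hq.le
  push_cast
  nlinarith

theorem main : S_tt9 := by
  intro hF hT1 hT3 hT4 hT5 hT6 hT7 hT8 K _ _ _ k hk
  have hq : (1 : ℝ) < Fintype.card K := by exact_mod_cast Fintype.one_lt_card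
  obtain ⟨q, hqdef⟩ : ∃ q : ℝ, q = Fintype.card K := ⟨_, rfl⟩
  have hk0 : (0 : ℝ) < k := by exact_mod_cast hk
  have hkR : (1 : ℝ) ≤ k := by exact_mod_cast hk
  obtain ⟨c1, θ, hc1, hθ, hθ4, hθk, d1, hF⟩ := hF K (1 / k) (by positivity)
  obtain ⟨σ, hσ, hT6⟩ := hT6 K k hk
  obtain ⟨C, hC0, hR⟩ := hT6 (σ * θ / 2) (by positivity)
  obtain ⟨c₀, hc₀, hlim⟩ := hT8 K k
  have hε1 : 0 < c1 / (8 * k) := by positivity
  obtain ⟨ε1, hε1def⟩ : ∃ ε1, ε1 = c1 / (8 * k) := ⟨_, rfl⟩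
  rw [← hε1def] at hε1
  have hε1k : (2 * (k : ℝ) - 1) * ε1 ≤ c1 / 4 := by
    have h1 : ε1 * (8 * k) = c1 := by rw [hε1def]; field_simp
    nlinarith
  obtain ⟨C4, hC4, hT4⟩ := hT4 K (ε1 / 2) (by positivity)
  obtain ⟨S, hS⟩ : ∃ S : (Fin k → K[X]) → ℝ, ∀ h : Fin k → K[X], Function.Injective h →
      Filter.Tendsto (fun n : ℕ => ∏ P ∈ PU K n, lf P h) Filter.atTop (nhds (S h)) ∧
        ((∀ P : K[X], P.Monic → Irreducible P → om P h < Fintype.card K ^ P.natDegree) →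
          c₀ ≤ S h) := by
    refine ⟨fun h => if hh : Function.Injective h then (hlim h hh).choose else 0, fun h hh => ?_⟩
    simp only [dif_pos hh]
    exact (hlim h hh).choose_spec
  rw [← hqdef] at hq hF hR hT4
  have hq0 : (0 : ℝ) < q := by linarith
  have hc : 0 < min (σ * θ / 4) (c1 / 6) := lt_min (by positivity) (by positivity)
  obtain ⟨c, hcdef⟩ : ∃ c, c = min (σ * θ / 4) (c1 / 6) := ⟨_, rfl⟩
  rw [← hcdef] at hc
  have hcθ : c ≤ σ * θ / 4 := hcdef ▸ min_le_left _ _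
  have hcc : 6 * c ≤ c1 := by
    have : c ≤ c1 / 6 := hcdef ▸ min_le_right _ _
    linarith
  refine ⟨c, c₀, S, hc, hc₀, hS, ?_⟩
  -- large `d`
  have hev : ∀ᶠ d : ℕ in Filter.atTop,
      ((k : ℝ) ^ 2 * 2 ^ (2 * k - 1) ≤ q ^ (c1 / 4 * d)) ∧ (C4 ≤ q ^ (ε1 / 2 * d)) ∧
      (2 * (d : ℝ) ≤ q ^ (ε1 * d)) ∧ (C * q ^ σ ≤ q ^ (σ * θ / 4 * d)) := by
    filter_upwards [grow' (B := (k : ℝ) ^ 2 * 2 ^ (2 * k - 1)) hq (show 0 < c1 / 4 by positivity)
      (by positivity), grow' (B := C4) hq (show 0 < ε1 / 2 by positivity) hC4.le,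
      grow' (B := 2) hq hε1 (by norm_num), grow' (B := C * q ^ σ) hq
      (show 0 < σ * θ / 4 by positivity) (by positivity)] with d h1 h2 h3 h4
    exact ⟨h1.2, h2.2, h3.1, h4.2⟩
  obtain ⟨d2, hd2⟩ := Filter.eventually_atTop.1 hev
  refine ⟨max (max d1 1) d2, fun d hd => ?_⟩
  have hd1 : d1 ≤ d := (le_max_left _ _).trans ((le_max_left _ _).trans hd)
  have hd0 : 1 ≤ d := (le_max_right _ _).trans ((le_max_left _ _).trans hd)
  have hdR : (1 : ℝ) ≤ d := by exact_mod_cast hd0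
  obtain ⟨hA1, hA2, hA3, hA4⟩ := hd2 d ((le_max_right _ _).trans hd)
  obtain ⟨t, ht⟩ : ∃ t : ℕ, t = ⌊θ * d⌋₊ := ⟨_, rfl⟩
  have ht1 : (t : ℝ) ≤ θ * d := by
    rw [ht]
    exact Nat.floor_le (by positivity)
  have ht2 : θ * d < t + 1 := by
    rw [ht]
    exact Nat.lt_floor_add_one _
  have ht3 : 2 * t ≤ d := by
    have : (2 : ℝ) * t ≤ d := by nlinarith
    exact_mod_cast this
  have ht4 : k * t ≤ d := by
    have h1 : (k : ℝ) * t ≤ d := by
      have h2 : (k : ℝ) * θ ≤ 1 := by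
        have := mul_le_mul_of_nonneg_left hθk hk0.le
        rwa [mul_one_div_cancel hk0.ne'] at this
      calc (k : ℝ) * t ≤ k * (θ * d) := by gcongr
        _ = (k * θ) * d := by ring
        _ ≤ 1 * d := by gcongr
        _ = d := one_mul _
    exact_mod_cast h1
  have ht5 : t ≤ d := by omega
  -- the functions
  obtain ⟨N, hN⟩ : ∃ N : (Fin k → K[X]) → ℝ, N = fun h =>
    (((Mn K d).filter (fun a => ∀ i, Irreducible ((a + h i) ^ 2 + X))).card : ℝ) := ⟨_, rfl⟩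
  obtain ⟨Sr, hSr⟩ : ∃ Sr : (Fin k → K[X]) → ℝ, Sr = fun h =>
    ∑ r ∈ Fintype.piFinset (fun _ : Fin k => Sq K t),
      ∏ P ∈ PU K t, eT P h (Finset.univ.filter (fun i => P ∣ r i)) := ⟨_, rfl⟩
  obtain ⟨F, hFdef⟩ : ∃ F : (Fin k → K[X]) → ℝ, F = fun h =>
    ∑ a ∈ Mn K d, ∏ i, nu d (a + h i) - ∑ a ∈ Mn K d, ∏ i, nus K t (a + h i) := ⟨_, rfl⟩
  have hnu : ∀ h, ∑ a ∈ Mn K d, ∏ i, nu d (a + h i) = (2 * (d : ℝ)) ^ k * N h := by
    intro h
    have h1 : ∀ a ∈ Mn K d, ∏ i, nu d (a + h i) =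
        if ∀ i, Irreducible ((a + h i) ^ 2 + X) then (2 * (d : ℝ)) ^ k else 0 := by
      intro a _
      unfold nu
      split_ifs with hall
      · rw [Finset.prod_congr rfl fun i _ => if_pos (hall i), Finset.prod_const,
          Finset.card_univ, Fintype.card_fin]
      · push Not at hall
        obtain ⟨i, hi⟩ := hall
        exact Finset.prod_eq_zero (Finset.mem_univ i) (if_neg hi)
    rw [Finset.sum_congr rfl h1, ← Finset.sum_filter, Finset.sum_const, nsmul_eq_mul, mul_comm, hN]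
  have hFe : ∀ h, F h = (2 * (d : ℝ)) ^ k * N h - q ^ d * Sr h := by
    intro h
    rw [hFdef]
    simp only
    rw [hnu h, hT5 K k d t h ht4, hSr, hqdef]
  -- the mean square
  have hB0 : 0 ≤ q ^ (ε1 * d) := (Real.rpow_pos_of_pos hq0 _).le
  have hms := hT3 K k d (nu d) (nus K t) (q ^ (ε1 * d)) (q ^ ((1 - c1) * d)) hk ?_ ?_
  · -- the singular series
    have hser : ∀ h ∈ Hs K k d, Function.Injective h → |S h - Sr h| ≤
        C * q ^ (σ * θ / 2 * d - σ * t) := by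
      intro h hh hinj
      have hdeg : ∀ i, (h i).natDegree ≤ d := by
        intro i
        unfold Hs at hh
        have h1 := mem_Vs.1 (Fintype.mem_piFinset.1 hh i)
        exact natDegree_le_of_degree_le h1.le
      have h1 : Filter.Tendsto (fun n : ℕ => |∏ P ∈ PU K n, lf P h - Sr h|) Filter.atTop
          (nhds |S h - Sr h|) := ((hS h hinj).1.sub_const _).abs
      refine le_of_tendsto h1 (Filter.eventually_atTop.2 ⟨t, fun n hn => ?_⟩)
      have h2 := hR h d t n hinj hdeg hn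
      have h3 : ∏ P ∈ PU K n, ∑ T : Finset (Fin k), eT P h T = ∏ P ∈ PU K n, lf P h := by
        refine Finset.prod_congr rfl fun P hP => ?_
        rw [mem_PU] at hP
        exact hT7 K k P h hP.1 hP.2.1
      rw [h3] at h2
      rw [hSr]
      exact h2
    have hRle : C * q ^ (σ * θ / 2 * d - σ * t) ≤ q ^ (-(c * d)) := by
      have e1 : q ^ (σ * θ / 2 * d - σ * t) ≤ q ^ σ * q ^ (-(σ * θ / 2 * d)) := by
        rw [← Real.rpow_add hq0]
        apply Real.rpow_le_rpow_of_exponent_le hq.le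
        nlinarith
      calc C * q ^ (σ * θ / 2 * d - σ * t) ≤ C * (q ^ σ * q ^ (-(σ * θ / 2 * d))) := by gcongr
        _ = (C * q ^ σ) * q ^ (-(σ * θ / 2 * d)) := by ring
        _ ≤ q ^ (σ * θ / 4 * d) * q ^ (-(σ * θ / 2 * d)) := by gcongr
        _ = q ^ (σ * θ / 4 * d + -(σ * θ / 2 * d)) := (Real.rpow_add hq0 _ _).symm
        _ ≤ _ := by
            apply Real.rpow_le_rpow_of_exponent_le hq.le
            nlinarith
    rw [← hqdef]
    refine count _ F (fun h => N h - S h * q ^ d / (2 * (d : ℝ)) ^ k)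
      q c c1 (C * q ^ (σ * θ / 2 * d - σ * t)) k d hd0 hk hq hcc (fun h hh => ?_) hRle
      (fun h hh => ?_) ?_
    · rw [Finset.mem_filter] at hh
      have e1 := hser h hh.1 hh.2.1
      have e3 : F h - (2 * (d : ℝ)) ^ k * (N h - S h * q ^ d / (2 * (d : ℝ)) ^ k) =
          q ^ (d : ℝ) * (S h - Sr h) := by
        rw [hFe h, Real.rpow_natCast]
        have hd2 : (2 * (d : ℝ)) ^ k ≠ 0 := by positivity
        field_simp
        ring
      rw [e3, abs_mul, abs_of_pos (Real.rpow_pos_of_pos hq0 _)]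
      exact mul_le_mul_of_nonneg_left e1 (Real.rpow_pos_of_pos hq0 _).le
    · rw [Finset.mem_filter] at hh
      rw [hN]
      exact hh.2.2
    · refine (Finset.sum_le_sum_of_subset_of_nonneg (Finset.filter_subset _ _)
        fun _ _ _ => sq_nonneg _).trans ?_
      rw [← hqdef] at hms
      have e0 : ∑ h ∈ Hs K k d, F h ^ 2 = ∑ h ∈ Hs K k d,
          (∑ a ∈ Mn K d, ∏ i, nu d (a + h i) - ∑ a ∈ Mn K d, ∏ i, nus K t (a + h i)) ^ 2 := by
        rw [hFdef]
      rw [e0]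
      refine hms.trans ?_
      have e1 : (2 * q ^ (ε1 * d)) ^ (2 * k - 1) ≤ 2 ^ (2 * k - 1) * q ^ (c1 / 4 * d) := by
        rw [mul_pow]
        refine mul_le_mul_of_nonneg_left ?_ (by positivity)
        rw [← Real.rpow_natCast (q ^ (ε1 * d)), ← Real.rpow_mul hq0.le]
        apply Real.rpow_le_rpow_of_exponent_le hq.le
        have h1 : ((2 * k - 1 : ℕ) : ℝ) = 2 * k - 1 := by
          rw [Nat.cast_sub (by omega)]
          push_cast
          ring
        rw [h1]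
        nlinarith
      calc (k : ℝ) ^ 2 * (2 * q ^ (ε1 * d)) ^ (2 * k - 1) * q ^ ((1 - c1) * d) *
            q ^ ((k + 1) * d) ≤
            (k : ℝ) ^ 2 * (2 ^ (2 * k - 1) * q ^ (c1 / 4 * d)) * q ^ ((1 - c1) * d) *
            q ^ ((k + 1) * d) := by gcongr
        _ = ((k : ℝ) ^ 2 * 2 ^ (2 * k - 1)) * (q ^ (c1 / 4 * d) * q ^ ((1 - c1) * d) *
            q ^ ((k + 1) * d)) := by ring
        _ ≤ q ^ (c1 / 4 * d) * (q ^ (c1 / 4 * d) * q ^ ((1 - c1) * d) *
            q ^ ((k + 1) * d)) := by gcongr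
        _ = q ^ ((k + 2 - c1 / 2) * (d : ℝ)) := by
            rw [← Real.rpow_natCast q ((k + 1) * d), ← Real.rpow_add hq0, ← Real.rpow_add hq0,
              ← Real.rpow_add hq0]
            congr 1
            push_cast
            ring
  · intro a ha
    constructor
    · unfold nu
      split_ifs
      · rw [abs_of_nonneg (by positivity)]
        exact hA3
      · rw [abs_zero]
        exact hB0
    · refine (hT4 d t ht5 a ha).trans ?_
      calc C4 * q ^ (ε1 / 2 * d) ≤ q ^ (ε1 / 2 * d) * q ^ (ε1 / 2 * d) := by gcongr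
        _ = q ^ (ε1 * d) := by
            rw [← Real.rpow_add hq0]
            congr 1
            ring
  · intro H _
    have e1 : ∑ a ∈ Mn K d, (nu d a - nus K t a) * ch d H a =
        2 * (d : ℝ) * SX K d (ch d H) - MT K d t (ch d H) := by
      rw [← hT1 K d t (ch d H) ht3]
      unfold SX nu
      rw [Finset.sum_filter, Finset.mul_sum, ← Finset.sum_sub_distrib]
      refine Finset.sum_congr rfl fun a _ => ?_
      split_ifs <;> ring
    rw [e1]
    exact hF d t (ch d H) hd1 ht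

end Pool.Agent.H290.FX.PT9
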