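import Mathlib
import Pool.Agent.H290.FX.Asm
import Pool.Agent.H290.FX.PFourk
import Pool.Agent.H290.FX.PT1
import Pool.Agent.H290.FX.PT2
import Pool.Agent.H290.FX.PT3
import Pool.Agent.H290.FX.PT4
import Pool.Agent.H290.FX.PT5
import Pool.Agent.H290.FX.PT6
import Pool.Agent.H290.FX.PT7
import Pool.Agent.H290.FX.PT8
import Pool.Agent.H290.FX.PT9

/-!
# Tuples (helper290): assembly
-/

set_option autoImplicit false

namespace Pool.Agent.H290.FX.Asm

open Pool.Agent.H290.FX

theorem fourk (h : S_major) : S_fourk := PFourk.main PUniq.main minor h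

theorem t1 : S_t1 := PT1.main PRoot.main PUniq.main

theorem t3 : S_t3 := PT3.main (PT2.main POrth.main)

theorem tup (h : S_major) : S_tup :=
  PT9.main (fourk h) t1 t3 PT4.main PT5.main PT6.main PT7.main PT8.main

end Pool.Agent.H290.FX.Asm
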