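import Mathlib
import Pool.Agent.H290.FX.StmC

/-!
# The major characters without the uniform prime theorem (helper290): statements
-/

namespace Pool.Agent.H290.FX

open Polynomial
open scoped Classical
open Pool.Agent.H985.Chow (mob)
open Pool.Agent.H694.Typ (Mn PU)
open Pool.Agent.H604.LD (PiM S_hid)

/-- **Task QB.**  Let `c i = ∑_{E ∈ Mn i, (E, r) = 1} μ(E)`.  Its generating function is
`∑ c i u ^ i = G u = (1 - q u) / ∏_{P ∣ r} (1 - u ^ deg P)`: `G (1 / q) = 0`, and `u G' u = -1 / PiM r` at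
`u = 1 / q`.  So `∑_i (x - i) q ^ (-i) c i = 1 / PiM r`.  With `n_i` the number of the monic `G` of degree
`i` all of whose prime factors divide `r` one has `c i = n_i - q n_{i-1}` and
`n_i ≤ q ^ (i / 2) ∏_{P ∣ r} (1 - q ^ (-deg P / 2))⁻¹ ≤ q ^ (i / 2) 4 ^ ω(r)`, `ω(r) ≤ δ t + C_δ`; this gives the
bound for the tails.  (Finite form: `∑_{i ≤ N} q ^ (-i) c i = q ^ (-N) n_N`, telescoping; and
`∑_{i ≤ N} i q ^ (-i) c i = N q ^ (-N) n_N - ∑_{i < N} q ^ (-i) n_i`, with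
`∑_{i ≥ 0} q ^ (-i) n_i = 1 / PiM r`.) -/
def S_qb : Prop :=
  ∀ (K : Type) [Field K] [Fintype K] (ε : ℝ), 0 < ε → ∃ C : ℝ, 0 < C ∧
    ∀ (r : K[X]) (t N : ℕ) (x : ℝ), r.Monic → Squarefree r → r.natDegree ≤ t → 0 ≤ x →
      |∑ i ∈ Finset.range (N + 1), (x - i) / (Fintype.card K : ℝ) ^ i *
          ∑ E ∈ (Mn K i).filter (fun E => IsCoprime E r), (mob E : ℝ) - 1 / PiM r| ≤
        C * (1 + x) * (Fintype.card K : ℝ) ^ (ε * t - (N : ℝ) / 4)

/-- **Task MAJB.**  `S_major` directly.  As in FINX (store helper290_FX_PFinx.lean),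
`2 d SX = ∑_{j<d} (d-j) N_j - ∑_{j<d} (d-j) M_j`, `N_j = ∑_a χ a ∑_{D ∣ f_a, deg D = j} μ D` and `M_j` the
same with the factor `μ (f_a)`; `M_j = N_{2d-j}`.  Let `κ` be the `θ` of `S_nearx`, `J = ⌊(1-κ) d⌋`.  The
`M_j` with `j ≤ J` are small by `S_far2x`, the `N_j`, `M_j` with `J < j < d` by `S_nearx`.  For
`j ≤ J`: `a = rt D + D s`, `s ∈ Mn (d - j)`, so
`N_j = q ^ (d - j) ∑_{D ∈ Mn j, D a period of χ} μ(D) χ (rt D + D X ^ (d - j))`.  Let `ρ = deg r ≤ θ d`, with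
`θ ≤ κ / 2`, `r` the minimal period.  As `ρ + j ≤ d`, the periods of degree `j` are the multiples
`D = r E` (UNIQ), `μ(r E)` is `μ(r) μ(E)` if `(E, r) = 1` and `0` otherwise (if `r` is not squarefree
everything is `0`), and for squarefree `D = r E` one has
`χ (rt D + D X ^ (d - j)) = χ (rt r + r X ^ (d - ρ))` (the difference of the arguments is a multiple of
`r` of degree `< d`; `rt D ≡ rt r` modulo `r` by ROOT).  So
`∑_{j ≤ J} (d-j) N_j = μ(r) χ (rt r + r X ^ (d-ρ)) q ^ (d-ρ) ∑_{i ≤ J-ρ} (d-ρ-i) q ^ (-i) c i`, given by QB with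
`x = d - ρ`, `t = ρ`, `N = J - ρ ≥ (1 - 2 κ) d` (one may assume `κ ≤ 1/4`). -/
def S_tmajb : Prop := S_root → S_uniq → S_hid → S_nearx → S_far2x → S_qb → S_major

end Pool.Agent.H290.FX
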