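import Mathlib
import Pool.Agent.H290.FX.StmM
import Pool.Agent.H604.LD.Fin
import Pool.Agent.H604.LD.Far2

/-!
# Task MAJB: the major characters directly (helper30)

The first section (the identity for the exponential sum) is taken from task FINX.
-/

set_option autoImplicit false
set_option linter.unusedSectionVars false

namespace Pool.Agent.H290.FX.PMajb

open Polynomial
open scoped Classical
open Pool.Agent.H985.Chow (mob lc)
open Pool.Agent.H694.Typ (Mn mem_Mn card_Mn)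
open Pool.Agent.H604.LD (PiM S_hid)
open Pool.Agent.H604.LD.FIN (fmon sqf mob_mul_sqf mob_mul_self)

/-- the sum over the divisors of degree `j` -/
noncomputable def Nj (K : Type) [Field K] [Fintype K] (d j : ℕ) (χ : AddChar K[X] ℝ) : ℝ :=
  ∑ a ∈ Mn K d, χ a * ∑ D ∈ (Mn K j).filter (fun D => D ∣ a ^ 2 + X), (mob D : ℝ)

/-- the sum over the divisors of degree `j`, twisted by the Möbius function -/
noncomputable def Mj (K : Type) [Field K] [Fintype K] (d j : ℕ) (χ : AddChar K[X] ℝ) : ℝ :=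
  ∑ a ∈ Mn K d, χ a * ((mob (a ^ 2 + X) : ℝ) *
    ∑ D ∈ (Mn K j).filter (fun D => D ∣ a ^ 2 + X), (mob D : ℝ))

section

variable {K : Type} [Field K] [Fintype K] [CharP K 2]

/-- The complementary divisor. -/
theorem refl1 {d : ℕ} (hd : 1 ≤ d) {j : ℕ} (hj : j ≤ 2 * d) {a : K[X]} (ha : a ∈ Mn K d) :
    (mob (a ^ 2 + X) : ℝ) * ∑ D ∈ (Mn K j).filter (fun D => D ∣ a ^ 2 + X), (mob D : ℝ) =
      ∑ D ∈ (Mn K (2 * d - j)).filter (fun D => D ∣ a ^ 2 + X), (mob D : ℝ) := by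
  obtain ⟨h1, h2⟩ := fmon hd ha
  have h3 := sqf a
  have hdiv : ∀ i : ℕ, i ≤ 2 * d → ∀ D ∈ (Mn K i).filter (fun D => D ∣ a ^ 2 + X),
      (a ^ 2 + X) / D ∈ (Mn K (2 * d - i)).filter (fun D => D ∣ a ^ 2 + X) ∧
        D * ((a ^ 2 + X) / D) = a ^ 2 + X := by
    intro i hi D hD
    rw [Finset.mem_filter, mem_Mn] at hD
    obtain ⟨⟨h4, h5⟩, h6⟩ := hD
    have h7 : D * ((a ^ 2 + X) / D) = a ^ 2 + X := EuclideanDomain.mul_div_cancel' h4.ne_zero h6
    have h8 : ((a ^ 2 + X) / D).Monic := by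
      refine h4.of_mul_monic_left ?_
      rw [h7]
      exact h1
    refine ⟨?_, h7⟩
    rw [Finset.mem_filter, mem_Mn]
    refine ⟨⟨h8, ?_⟩, ⟨D, ?_⟩⟩
    · have h9 := h4.natDegree_mul h8
      rw [h7, h2, h5] at h9
      omega
    · rw [mul_comm]
      exact h7.symm
  rw [Finset.mul_sum]
  refine Finset.sum_bij (fun D _ => (a ^ 2 + X) / D) (fun D hD => (hdiv j hj D hD).1) ?_ ?_ ?_
  · intro D hD D' hD' hDD
    have e1 := (hdiv j hj D hD).2
    have e2 := (hdiv j hj D' hD').2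
    rw [hDD] at e1
    have h0 : (a ^ 2 + X) / D' ≠ 0 := by
      intro h
      rw [h, mul_zero] at e2
      exact h1.ne_zero e2.symm
    exact mul_right_cancel₀ h0 (e1.trans e2.symm)
  · intro D hD
    have e1 := hdiv (2 * d - j) (by omega) D hD
    have e2 : 2 * d - (2 * d - j) = j := by omega
    rw [e2] at e1
    refine ⟨(a ^ 2 + X) / D, e1.1, ?_⟩
    have e3 := (hdiv j hj _ e1.1).2
    have e4 := e1.2
    have h0 : (a ^ 2 + X) / D ≠ 0 := by
      intro h
      rw [h, mul_zero] at e4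
      exact h1.ne_zero e4.symm
    apply mul_left_cancel₀ h0
    rw [e3, mul_comm]
    exact e4.symm
  · intro D hD
    have e1 := (hdiv j hj D hD).2
    have h4 : Squarefree (D * ((a ^ 2 + X) / D)) := by rw [e1]; exact h3
    have h5 := mob_mul_sqf h4
    rw [e1] at h5
    have h6 := mob_mul_self (squarefree_mul_iff.1 h4).2.1
    have h7 : (mob D : ℝ) * (mob D : ℝ) = 1 := by exact_mod_cast h6
    have h8 : (mob (a ^ 2 + X) : ℝ) = mob D * mob ((a ^ 2 + X) / D) := by exact_mod_cast h5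
    rw [h8]
    linear_combination (mob ((a ^ 2 + X) / D) : ℝ) * h7

theorem refl {d : ℕ} (hd : 1 ≤ d) {j : ℕ} (hj : j ≤ 2 * d) (χ : AddChar K[X] ℝ) :
    Mj K d j χ = Nj K d (2 * d - j) χ := by
  unfold Mj Nj
  exact Finset.sum_congr rfl fun a ha => by rw [refl1 hd hj ha]

/-- the identity for the exponential sum -/
theorem ident (hh : S_hid) {d : ℕ} (hd : 1 ≤ d) (χ : AddChar K[X] ℝ) :
    2 * (d : ℝ) * SX K d χ =
      ∑ j ∈ Finset.range d, ((d : ℝ) - j) * (Nj K d j χ - Mj K d j χ) := by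
  have h1 : ∀ a ∈ Mn K d, (if Irreducible (a ^ 2 + X) then 2 * (d : ℝ) * χ a else 0) =
      ∑ j ∈ Finset.range d, ((d : ℝ) - j) *
        (χ a * ∑ D ∈ (Mn K j).filter (fun D => D ∣ a ^ 2 + X), (mob D : ℝ) -
        χ a * ((mob (a ^ 2 + X) : ℝ) *
          ∑ D ∈ (Mn K j).filter (fun D => D ∣ a ^ 2 + X), (mob D : ℝ))) := by
    intro a ha
    obtain ⟨e1, e2⟩ := fmon hd ha
    have e3 := hh K d (a ^ 2 + X) hd e1 (sqf a) e2
    have e4 : (if Irreducible (a ^ 2 + X) then 2 * (d : ℝ) * χ a else 0) =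
        χ a * (if Irreducible (a ^ 2 + X) then 2 * (d : ℝ) else 0) := by
      split_ifs with h
      · ring
      · rw [mul_zero]
    rw [e4, ← e3, Finset.mul_sum, Finset.mul_sum]
    exact Finset.sum_congr rfl fun j _ => by ring
  have h2 : 2 * (d : ℝ) * SX K d χ =
      ∑ a ∈ Mn K d, if Irreducible (a ^ 2 + X) then 2 * (d : ℝ) * χ a else 0 := by
    rw [← Finset.sum_filter]
    unfold SX
    rw [Finset.mul_sum]
  rw [h2, Finset.sum_congr rfl h1, Finset.sum_comm]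
  refine Finset.sum_congr rfl fun j _ => ?_
  rw [← Finset.mul_sum, Finset.sum_sub_distrib]
  rfl


/-! ### The values of the sums for the major characters -/

theorem chi_abs (χ : AddChar K[X] ℝ) (a : K[X]) : |χ a| = 1 := by
  have h1 : χ a * χ a = 1 := by
    rw [← AddChar.map_add_eq_mul, CharTwo.add_self_eq_zero, AddChar.map_zero_eq_one]
  have h2 : |χ a| * |χ a| = 1 := by rw [← abs_mul, h1, abs_one]
  nlinarith [abs_nonneg (χ a)]

theorem add_mem_Mn {n : ℕ} {f s : K[X]} (hf : f ∈ Mn K n) (hs : s.degree < (n : WithBot ℕ)) :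
    f + s ∈ Mn K n := by
  rw [mem_Mn] at hf ⊢
  have hd : s.degree < f.degree := by
    rw [degree_eq_natDegree hf.1.ne_zero, hf.2]; exact hs
  refine ⟨hf.1.add_of_left hd, ?_⟩
  rw [natDegree_add_eq_left_of_degree_lt hd, hf.2]

theorem sum_Mn_zero (n : ℕ) (P s₀ : K[X]) (χ : AddChar K[X] ℝ)
    (hs : s₀.degree < (n : WithBot ℕ)) (h : χ (P * s₀) ≠ 1) :
    ∑ s ∈ Mn K n, χ (P * s) = 0 := by
  have h1 : ∑ s ∈ Mn K n, χ (P * s) = ∑ s ∈ Mn K n, χ (P * (s + s₀)) := by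
    symm
    refine Finset.sum_nbij' (fun s => s + s₀) (fun s => s - s₀) ?_ ?_ ?_ ?_ ?_
    · intro s hs'; exact add_mem_Mn hs' hs
    · intro s hs'
      rw [sub_eq_add_neg]
      exact add_mem_Mn hs' (by rw [degree_neg]; exact hs)
    · intro s _; ring
    · intro s _; ring
    · intro s _; rfl
  have h2 : ∑ s ∈ Mn K n, χ (P * (s + s₀)) = (∑ s ∈ Mn K n, χ (P * s)) * χ (P * s₀) := by
    rw [Finset.sum_mul]
    refine Finset.sum_congr rfl fun s _ => ?_
    rw [mul_add, AddChar.map_add_eq_mul]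
  have h3 : (∑ s ∈ Mn K n, χ (P * s)) * (χ (P * s₀) - 1) = 0 := by
    rw [mul_sub, ← h2, ← h1, mul_one, sub_self]
  rcases mul_eq_zero.mp h3 with h4 | h4
  · exact h4
  · exact absurd (sub_eq_zero.mp h4) h

/-- two monic polynomials of degree `d` -/
theorem deg_sub {d : ℕ} {f g : K[X]} (hf : f.Monic) (hg : g.Monic) (hfd : f.natDegree = d)
    (hgd : g.natDegree = d) : (f - g).degree < (d : WithBot ℕ) := by
  have h1 : f.degree = (d : WithBot ℕ) := by rw [degree_eq_natDegree hf.ne_zero, hfd]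
  have h2 : g.degree = (d : WithBot ℕ) := by rw [degree_eq_natDegree hg.ne_zero, hgd]
  refine lt_of_lt_of_le (degree_sub_lt_left (by rw [h1, h2]) hf.ne_zero ?_) h1.le
  rw [hf.leadingCoeff, hg.leadingCoeff]

theorem inner_sum (hroot : S_root) {d j : ℕ} (χ : AddChar K[X] ℝ) {D : K[X]} (hD : D ∈ Mn K j)
    (hs : Squarefree D) (hjd : j ≤ d) :
    ∑ a ∈ (Mn K d).filter (fun a => D ∣ a ^ 2 + X), χ a =
      if Per d χ D then (Fintype.card K : ℝ) ^ (d - j) * χ (rt D + D * X ^ (d - j)) else 0 := by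
  rw [mem_Mn] at hD
  obtain ⟨hr1, hr2⟩ := (hroot K D hD.1).1 hs
  rw [Pool.Agent.H604.LD.Far2.sum_res hD.1 hs (by rw [hD.2]; exact hjd) hr2 hr1 (fun a => χ a),
    hD.2]
  by_cases hP : Per d χ D
  · rw [if_pos hP]
    have h1 : ∀ s ∈ Mn K (d - j), χ (rt D + D * s) = χ (rt D + D * X ^ (d - j)) := by
      intro s hs'
      rw [mem_Mn] at hs'
      have h2 : rt D + D * s = rt D + D * X ^ (d - j) + D * (s - X ^ (d - j)) := by ring
      rw [h2, AddChar.map_add_eq_mul, hP, mul_one]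
      rw [mul_sub]
      refine deg_sub (hD.1.mul hs'.1) (hD.1.mul (monic_X_pow _)) ?_ ?_
      · rw [hD.1.natDegree_mul hs'.1, hD.2, hs'.2]
        omega
      · rw [hD.1.natDegree_mul (monic_X_pow _), hD.2, natDegree_X_pow]
        omega
    rw [Finset.sum_congr rfl h1, Finset.sum_const, card_Mn, nsmul_eq_mul]
    push_cast
    rfl
  · rw [if_neg hP]
    unfold Per at hP
    push Not at hP
    obtain ⟨s₀, h1, h2⟩ := hP
    have h3 : s₀.degree < ((d - j : ℕ) : WithBot ℕ) := by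
      by_cases h0 : s₀ = 0
      · rw [h0, degree_zero]
        exact WithBot.bot_lt_coe _
      · rw [degree_eq_natDegree h0]
        rw [degree_mul, degree_eq_natDegree hD.1.ne_zero, degree_eq_natDegree h0, hD.2] at h1
        have h4 : j + s₀.natDegree < d := by exact_mod_cast h1
        exact_mod_cast (by omega : s₀.natDegree < d - j)
    have h4 : ∀ s ∈ Mn K (d - j), χ (rt D + D * s) = χ (rt D) * χ (D * s) := fun s _ =>
      AddChar.map_add_eq_mul _ _ _
    rw [Finset.sum_congr rfl h4, ← Finset.mul_sum, sum_Mn_zero _ D s₀ χ h3 h2, mul_zero]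

theorem Nj_eq (hroot : S_root) {d j : ℕ} (hjd : j ≤ d) (χ : AddChar K[X] ℝ) :
    Nj K d j χ = ∑ D ∈ (Mn K j).filter (fun D => Per d χ D), (mob D : ℝ) *
      ((Fintype.card K : ℝ) ^ (d - j) * χ (rt D + D * X ^ (d - j))) := by
  have e1 : Nj K d j χ = ∑ D ∈ Mn K j, (mob D : ℝ) *
        ∑ a ∈ (Mn K d).filter (fun a => D ∣ a ^ 2 + X), χ a := by
    unfold Nj
    simp_rw [Finset.mul_sum, Finset.sum_filter]
    rw [Finset.sum_comm]
    refine Finset.sum_congr rfl fun D _ => Finset.sum_congr rfl fun a _ => ?_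
    split_ifs
    · ring
    · rfl
  rw [e1, Finset.sum_filter]
  refine Finset.sum_congr rfl fun D hD => ?_
  by_cases hs : Squarefree D
  · rw [inner_sum hroot χ hD hs hjd]
    split_ifs
    · rfl
    · rw [mul_zero]
  · have h5 : (mob D : ℝ) = 0 := by
      unfold mob
      rw [if_neg hs]
      exact Int.cast_zero
    rw [h5, zero_mul, zero_mul]
    split_ifs <;> rfl

theorem Nj_low (hroot : S_root) {d j : ℕ} (hjd : j ≤ d) {χ : AddChar K[X] ℝ} {r : K[X]}
    (hM : MPer d χ r) (hj : j < r.natDegree) : Nj K d j χ = 0 := by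
  rw [Nj_eq hroot hjd]
  refine Finset.sum_eq_zero fun D hD => ?_
  rw [Finset.mem_filter, mem_Mn] at hD
  exact absurd hD.2 (hM.2.2 D hD.1.1 (by rw [hD.1.2]; exact hj))

/-- the value of the character -/
theorem chi_root (hroot : S_root) {d j : ℕ} {χ : AddChar K[X] ℝ} {r D : K[X]} (hr : r.Monic)
    (hP : Per d χ r) (hD : D.Monic) (hDj : D.natDegree = j) (hjd : j ≤ d) (hs : Squarefree D)
    (hrD : r ∣ D) : χ (rt D + D * X ^ (d - j)) = χ (rt r + r * X ^ (d - r.natDegree)) := by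
  have hrs : Squarefree r := hs.squarefree_of_dvd hrD
  have hrj : r.natDegree ≤ j := by
    rw [← hDj]
    exact natDegree_le_of_dvd hrD hD.ne_zero
  obtain ⟨h1, h2⟩ := (hroot K D hD).1 hs
  obtain ⟨h3, h4⟩ := (hroot K r hr).1 hrs
  have h5 : r ∣ rt D - rt r := ((hroot K r hr).2 (rt D) (hrD.trans h1)).2
  have h6 : r ∣ D * X ^ (d - j) - r * X ^ (d - r.natDegree) :=
    dvd_sub (hrD.mul_right _) (dvd_mul_right _ _)
  obtain ⟨s, hs'⟩ := dvd_add h5 h6
  have h7 : rt D + D * X ^ (d - j) = rt r + r * X ^ (d - r.natDegree) + r * s := by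
    rw [← hs']
    ring
  have hlt : ∀ (F : K[X]) (n : ℕ), F.Monic → F.natDegree = n → n ≤ d → (rt F).degree < F.degree →
      (rt F).degree < (d : WithBot ℕ) := by
    intro F n hF hn hnd hlt
    refine hlt.trans_le ?_
    rw [degree_eq_natDegree hF.ne_zero, hn]
    exact_mod_cast hnd
  rw [h7, AddChar.map_add_eq_mul, hP, mul_one]
  rw [← hs']
  refine lt_of_le_of_lt (degree_add_le _ _) (max_lt ?_ ?_)
  · exact lt_of_le_of_lt (degree_sub_le _ _)
      (max_lt (hlt D j hD hDj hjd h2) (hlt r _ hr rfl (hrj.trans hjd) h4))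
  · refine deg_sub (hD.mul (monic_X_pow _)) (hr.mul (monic_X_pow _)) ?_ ?_
    · rw [hD.natDegree_mul (monic_X_pow _), hDj, natDegree_X_pow]
      omega
    · rw [hr.natDegree_mul (monic_X_pow _), natDegree_X_pow]
      omega

theorem Nj_high (hroot : S_root) (huniq : S_uniq) {d i : ℕ} {χ : AddChar K[X] ℝ} {r : K[X]}
    (hM : MPer d χ r) (hd : r.natDegree + (r.natDegree + i) ≤ d) :
    Nj K d (r.natDegree + i) χ = (mob r : ℝ) * χ (rt r + r * X ^ (d - r.natDegree)) *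
      (Fintype.card K : ℝ) ^ (d - (r.natDegree + i)) *
      ∑ E ∈ (Mn K i).filter (fun E => IsCoprime E r), (mob E : ℝ) := by
  obtain ⟨hr, hP, hmin⟩ := hM
  have himg : (Mn K (r.natDegree + i)).filter (fun D => Per d χ D) =
      (Mn K i).image (fun E => r * E) := by
    ext D
    rw [Finset.mem_filter, Finset.mem_image, mem_Mn]
    constructor
    · rintro ⟨⟨h1, h2⟩, h3⟩
      obtain ⟨E, hE⟩ := huniq K d χ r D ⟨hr, hP, hmin⟩ h1 h3 (by rw [h2]; exact hd)
      have hEm : E.Monic := by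
        refine hr.of_mul_monic_left ?_
        rw [← hE]
        exact h1
      refine ⟨E, ?_, hE.symm⟩
      rw [mem_Mn]
      refine ⟨hEm, ?_⟩
      rw [hE, hr.natDegree_mul hEm] at h2
      omega
    · rintro ⟨E, hE, rfl⟩
      rw [mem_Mn] at hE
      refine ⟨⟨hr.mul hE.1, ?_⟩, ?_⟩
      · rw [hr.natDegree_mul hE.1, hE.2]
      · intro s hs
        rw [mul_assoc] at hs ⊢
        exact hP _ hs
  rw [Nj_eq hroot (by omega : r.natDegree + i ≤ d), himg,
    Finset.sum_image (fun E _ E' _ h => mul_left_cancel₀ hr.ne_zero h), Finset.sum_filter,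
    Finset.mul_sum]
  refine Finset.sum_congr rfl fun E hE => ?_
  rw [mem_Mn] at hE
  by_cases hs : Squarefree (r * E)
  · have h1 := squarefree_mul_iff.1 hs
    have hc : IsCoprime E r := h1.1.isCoprime.symm
    rw [if_pos hc, chi_root hroot hr hP (hr.mul hE.1)
      (by rw [hr.natDegree_mul hE.1, hE.2]) (by omega) hs (dvd_mul_right _ _), mob_mul_sqf hs]
    push_cast
    ring
  · have h5 : (mob (r * E) : ℝ) = 0 := by
      unfold mob
      rw [if_neg hs]
      exact Int.cast_zero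
    rw [h5, zero_mul]
    by_cases hc : IsCoprime E r
    · rw [if_pos hc]
      have h6 : ¬ (Squarefree r ∧ Squarefree E) := fun h7 =>
        hs (squarefree_mul_iff.2 ⟨hc.symm.isRelPrime, h7.1, h7.2⟩)
      by_cases h7 : Squarefree r
      · have h8 : (mob E : ℝ) = 0 := by
          unfold mob
          rw [if_neg fun h9 => h6 ⟨h7, h9⟩]
          exact Int.cast_zero
        rw [h8, mul_zero]
      · have h8 : (mob r : ℝ) = 0 := by
          unfold mob
          rw [if_neg h7]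
          exact Int.cast_zero
        rw [h8, zero_mul, zero_mul, zero_mul]
    · rw [if_neg hc, mul_zero]

/-- the main term -/
theorem main_sum (hroot : S_root) (huniq : S_uniq) {d N : ℕ} {χ : AddChar K[X] ℝ} {r : K[X]}
    (hM : MPer d χ r) (hd : r.natDegree + (r.natDegree + N) ≤ d) :
    ∑ j ∈ Finset.range (r.natDegree + (N + 1)), ((d : ℝ) - j) * Nj K d j χ =
      (mob r : ℝ) * χ (rt r + r * X ^ (d - r.natDegree)) *
        ((Fintype.card K : ℝ) ^ (d - r.natDegree) *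
        ∑ i ∈ Finset.range (N + 1), (((d : ℝ) - r.natDegree) - i) / (Fintype.card K : ℝ) ^ i *
          ∑ E ∈ (Mn K i).filter (fun E => IsCoprime E r), (mob E : ℝ)) := by
  have hq0 : (Fintype.card K : ℝ) ≠ 0 := by
    exact_mod_cast Fintype.card_ne_zero
  rw [Finset.sum_range_add]
  have h1 : ∑ j ∈ Finset.range r.natDegree, ((d : ℝ) - j) * Nj K d j χ = 0 := by
    refine Finset.sum_eq_zero fun j hj => ?_
    rw [Finset.mem_range] at hj
    rw [Nj_low hroot (by omega) hM hj, mul_zero]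
  rw [h1, zero_add, Finset.mul_sum, Finset.mul_sum]
  refine Finset.sum_congr rfl fun i hi => ?_
  rw [Finset.mem_range] at hi
  rw [Nj_high hroot huniq hM (by omega)]
  have h2 : (Fintype.card K : ℝ) ^ (d - (r.natDegree + i)) =
      (Fintype.card K : ℝ) ^ (d - r.natDegree) / (Fintype.card K : ℝ) ^ i := by
    rw [eq_div_iff (pow_ne_zero _ hq0), ← pow_add]
    congr 1
    omega
  rw [h2]
  push_cast
  ring

end

theorem main : S_tmajb := by
  intro hroot huniq hhid hnear hfar2 hqb K _ _ _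
  obtain ⟨q, hq⟩ : ∃ q : ℝ, q = (Fintype.card K : ℝ) := ⟨_, rfl⟩
  have hq2 : (2 : ℝ) ≤ q := by
    rw [hq]
    exact_mod_cast (Fintype.one_lt_card (α := K))
  have hq0 : 0 < q := by linarith
  have hq1 : (1 : ℝ) ≤ q := by linarith
  obtain ⟨c₃, κ₀, hc₃, hκ₀, d₃, H3⟩ := hnear K
  obtain ⟨κ, hκ, hκκ, hκ4⟩ : ∃ κ : ℝ, 0 < κ ∧ κ ≤ κ₀ ∧ κ ≤ 1 / 4 :=
    ⟨min κ₀ (1 / 4), lt_min hκ₀ (by norm_num), min_le_left _ _, min_le_right _ _⟩
  obtain ⟨c₂, hc₂, d₂, H2⟩ := hfar2 K κ hκ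
  obtain ⟨C₀, hC₀, H1⟩ := hqb K 1 one_pos
  obtain ⟨c, hc0, hc5, hc2, hc3⟩ : ∃ c : ℝ, 0 < c ∧ 2 * c ≤ 5 / 32 ∧ 2 * c ≤ c₂ ∧
      2 * c ≤ c₃ := by
    refine ⟨min (5 / 64) (min (c₂ / 2) (c₃ / 2)), by positivity, ?_, ?_, ?_⟩
    · have := min_le_left (5 / 64 : ℝ) (min (c₂ / 2) (c₃ / 2))
      linarith
    · have := (min_le_right (5 / 64 : ℝ) (min (c₂ / 2) (c₃ / 2))).trans (min_le_left _ _)
      linarith
    · have := (min_le_right (5 / 64 : ℝ) (min (c₂ / 2) (c₃ / 2))).trans (min_le_right _ _)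
      linarith
  -- the limit
  have hr : |q ^ (-c)| < 1 := by
    rw [abs_of_pos (Real.rpow_pos_of_pos hq0 _)]
    exact Real.rpow_lt_one_of_one_lt_of_neg (by linarith) (by linarith)
  have l1 := tendsto_pow_const_mul_const_pow_of_abs_lt_one 2 hr
  rw [Metric.tendsto_atTop] at l1
  have hB : (0 : ℝ) < 2 + 2 * C₀ * q := by positivity
  obtain ⟨n1, L1⟩ := l1 (1 / (2 + 2 * C₀ * q)) (by positivity)
  refine ⟨c, κ / 2, hc0, by positivity, max (max d₂ d₃) (max n1 2), ?_⟩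
  intro d χ r hd hrm hrd h1 h2
  simp only [max_le_iff] at hd
  obtain ⟨⟨hd2, hd3⟩, hn1, hd1⟩ := hd
  have hM : MPer d χ r := ⟨hrm, h1, fun r' hr' hlt hP => by
    obtain ⟨s, hs1, hs2⟩ := h2 r' hr' hlt
    exact hs2 (hP s hs1)⟩
  have hd2' : (2 : ℝ) ≤ d := by exact_mod_cast hd1
  have hdpos : (0 : ℝ) < d := by linarith
  obtain ⟨W, hW⟩ : ∃ W : ℝ, W = q ^ ((1 - 2 * c) * (d : ℝ)) := ⟨_, rfl⟩
  have hW0 : 0 ≤ W := by rw [hW]; positivity
  have hexp : ∀ c' : ℝ, 2 * c ≤ c' → q ^ ((1 - c') * (d : ℝ)) ≤ W := by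
    intro c' hc'
    rw [hW]
    refine Real.rpow_le_rpow_of_exponent_le hq1 ?_
    exact mul_le_mul_of_nonneg_right (by linarith) hdpos.le
  -- the near bound
  have bnear : ∀ n : ℕ, |(n : ℝ) - d| ≤ κ * d → |Nj K d n χ| ≤ W := by
    intro n hn
    refine (H3 d n χ hd3 (hn.trans (mul_le_mul_of_nonneg_right hκκ hdpos.le))).trans ?_
    rw [← hq]
    exact hexp c₃ hc3
  have bM : ∀ j, j < d → |Mj K d j χ| ≤ W := by
    intro j hj
    by_cases hjk : (j : ℝ) ≤ (1 - κ) * d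
    · refine (H2 d j χ hd2 hjk).trans ?_
      rw [← hq]
      exact hexp c₂ hc2
    · push Not at hjk
      rw [refl (by omega) (by omega : j ≤ 2 * d)]
      have e1 : (j : ℝ) ≤ d := by exact_mod_cast hj.le
      refine bnear (2 * d - j) ?_
      have e2 : ((2 * d - j : ℕ) : ℝ) = 2 * d - j := by
        rw [Nat.cast_sub (by omega)]
        push_cast
        ring
      rw [e2, abs_le]
      constructor <;> linarith
  -- the threshold
  obtain ⟨J, hJ⟩ : ∃ J : ℕ, J = ⌊(1 - κ) * (d : ℝ)⌋₊ := ⟨_, rfl⟩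
  have hJ0 : 0 ≤ (1 - κ) * (d : ℝ) := mul_nonneg (by linarith) hdpos.le
  have hJ1 : (J : ℝ) ≤ (1 - κ) * d := by
    rw [hJ]
    exact Nat.floor_le hJ0
  have hJ2 : (1 - κ) * (d : ℝ) < J + 1 := by
    rw [hJ]
    exact Nat.lt_floor_add_one _
  have hκd : κ * d ≤ 1 / 4 * d := mul_le_mul_of_nonneg_right hκ4 hdpos.le
  have hκd0 : 0 < κ * d := mul_pos hκ hdpos
  obtain ⟨ρ, hρ⟩ : ∃ ρ : ℕ, ρ = r.natDegree := ⟨_, rfl⟩
  have hρJ : ρ ≤ J := by
    have : (ρ : ℝ) < J := by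
      rw [hρ]
      nlinarith
    exact_mod_cast this.le
  have hρd : ρ + J ≤ d := by
    have : (ρ : ℝ) + J ≤ d := by
      rw [hρ]
      nlinarith
    exact_mod_cast this
  have hJd : J < d := by
    have : (J : ℝ) < d := by nlinarith
    exact_mod_cast this
  obtain ⟨N, hN⟩ : ∃ N, J = ρ + N := ⟨J - ρ, by omega⟩
  have hN' : (J : ℝ) = ρ + N := by rw [hN]; push_cast; rfl
  -- the identity
  have hid := ident hhid (by omega : 1 ≤ d) χ
  obtain ⟨A, hA⟩ : ∃ A : ℝ, A = ∑ j ∈ Finset.range (J + 1), ((d : ℝ) - j) * Nj K d j χ := ⟨_, rfl⟩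
  obtain ⟨B, hB'⟩ : ∃ B : ℝ, B = ∑ m ∈ Finset.range (d - (J + 1)),
      ((d : ℝ) - ((J + 1 + m : ℕ) : ℝ)) * Nj K d (J + 1 + m) χ := ⟨_, rfl⟩
  obtain ⟨M, hM'⟩ : ∃ M : ℝ, M = ∑ j ∈ Finset.range d, ((d : ℝ) - j) * Mj K d j χ := ⟨_, rfl⟩
  have hid2 : 2 * (d : ℝ) * SX K d χ = A + B - M := by
    rw [hid, hA, hB', hM', ← Finset.sum_range_add (fun j => ((d : ℝ) - j) * Nj K d j χ),
      (by omega : J + 1 + (d - (J + 1)) = d), ← Finset.sum_sub_distrib]
    exact Finset.sum_congr rfl fun j _ => by ring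
  have hBb : |B| ≤ d * (d * W) := by
    rw [hB']
    refine (Finset.abs_sum_le_sum_abs _ _).trans ?_
    have e1 : ∀ m ∈ Finset.range (d - (J + 1)), |((d : ℝ) - ((J + 1 + m : ℕ) : ℝ)) *
        Nj K d (J + 1 + m) χ| ≤ d * W := by
      intro m hm
      rw [Finset.mem_range] at hm
      have e2 : ((J + 1 + m : ℕ) : ℝ) ≤ d := by exact_mod_cast (by omega : J + 1 + m ≤ d)
      have e3 : (0 : ℝ) ≤ ((J + 1 + m : ℕ) : ℝ) := Nat.cast_nonneg _
      have e4 : (J : ℝ) + 1 ≤ ((J + 1 + m : ℕ) : ℝ) := by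
        push_cast
        have : (0 : ℝ) ≤ m := Nat.cast_nonneg m
        linarith
      rw [abs_mul, abs_of_nonneg (by linarith)]
      refine mul_le_mul (by linarith) (bnear _ ?_) (abs_nonneg _) hdpos.le
      rw [abs_le]
      constructor <;> linarith
    refine (Finset.sum_le_sum e1).trans ?_
    rw [Finset.sum_const, Finset.card_range, nsmul_eq_mul]
    refine mul_le_mul_of_nonneg_right ?_ (by positivity)
    exact_mod_cast Nat.sub_le _ _
  have hMb : |M| ≤ d * (d * W) := by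
    rw [hM']
    refine (Finset.abs_sum_le_sum_abs _ _).trans ?_
    have e1 : ∀ j ∈ Finset.range d, |((d : ℝ) - j) * Mj K d j χ| ≤ d * W := by
      intro j hj
      rw [Finset.mem_range] at hj
      have e2 : (j : ℝ) ≤ d := by exact_mod_cast hj.le
      have e3 : (0 : ℝ) ≤ j := Nat.cast_nonneg j
      rw [abs_mul, abs_of_nonneg (by linarith : (0 : ℝ) ≤ (d : ℝ) - j)]
      exact mul_le_mul (by linarith) (bM j hj) (abs_nonneg _) hdpos.le
    refine (Finset.sum_le_sum e1).trans ?_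
    rw [Finset.sum_const, Finset.card_range, nsmul_eq_mul]
  -- the main term
  obtain ⟨χ₀, hχ₀⟩ : ∃ χ₀ : ℝ, χ₀ = χ (rt r + r * X ^ (d - r.natDegree)) := ⟨_, rfl⟩
  have hχ₁ : |χ₀| = 1 := by rw [hχ₀]; exact chi_abs χ _
  have hAm := main_sum hroot huniq (N := N) hM (by omega)
  rw [← hρ, (by omega : ρ + (N + 1) = J + 1), ← hA] at hAm
  have hAb : |A - (mob r : ℝ) * χ₀ * ((Fintype.card K : ℝ) ^ (d - r.natDegree) / PiM r)| ≤
      C₀ * (1 + d) * (q * W) := by
    rw [← hρ, hAm, hχ₀, hρ]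
    by_cases hsf : Squarefree r
    · have e1 := H1 r ρ N ((d : ℝ) - ρ) hrm hsf (by omega) (by
        have : (ρ : ℝ) ≤ d := by exact_mod_cast (by omega : ρ ≤ d)
        linarith)
      rw [hρ] at e1
      obtain ⟨T, hT⟩ : ∃ T : ℝ, T = ∑ i ∈ Finset.range (N + 1), (((d : ℝ) - r.natDegree) - i) /
        (Fintype.card K : ℝ) ^ i *
          ∑ E ∈ (Mn K i).filter (fun E => IsCoprime E r), (mob E : ℝ) := ⟨_, rfl⟩
      rw [← hT] at e1 ⊢
      rw [← hχ₀]
      have e2 : (mob r : ℝ) * χ₀ * ((Fintype.card K : ℝ) ^ (d - r.natDegree) * T) -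
          (mob r : ℝ) * χ₀ * ((Fintype.card K : ℝ) ^ (d - r.natDegree) / PiM r) =
          (mob r : ℝ) * χ₀ * (Fintype.card K : ℝ) ^ (d - r.natDegree) * (T - 1 / PiM r) := by
        ring
      rw [e2, abs_mul, abs_mul, abs_mul, hχ₁, mul_one]
      have e3 : |(mob r : ℝ)| ≤ 1 := Pool.Agent.H604.LD.Far2.mob_le r
      have e4 : |(Fintype.card K : ℝ) ^ (d - r.natDegree)| = q ^ ((d : ℝ) - ρ) := by
        rw [← hq, ← hρ, abs_of_nonneg (by positivity), ← Nat.cast_sub (by omega : ρ ≤ d),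
          Real.rpow_natCast]
      rw [e4]
      have e5 : |T - 1 / PiM r| ≤ C₀ * (1 + d) * q ^ ((ρ : ℝ) - (N : ℝ) / 4) := by
        refine e1.trans ?_
        rw [← hq, ← hρ, one_mul]
        refine mul_le_mul_of_nonneg_right ?_ (by positivity)
        refine mul_le_mul_of_nonneg_left ?_ hC₀.le
        have : (0 : ℝ) ≤ ρ := Nat.cast_nonneg ρ
        linarith
      have e6 : q ^ ((d : ℝ) - ρ) * q ^ ((ρ : ℝ) - (N : ℝ) / 4) ≤ q * W := by
        rw [← Real.rpow_add hq0, hW]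
        have e7 : q * q ^ ((1 - 2 * c) * (d : ℝ)) = q ^ (1 + (1 - 2 * c) * (d : ℝ)) := by
          rw [Real.rpow_add hq0, Real.rpow_one]
        rw [e7]
        refine Real.rpow_le_rpow_of_exponent_le hq1 ?_
        have e8 : 2 * c * d ≤ 5 / 32 * d := mul_le_mul_of_nonneg_right hc5 hdpos.le
        have e9 : (ρ : ℝ) ≤ κ / 2 * d := by rw [hρ]; exact hrd
        nlinarith
      calc |(mob r : ℝ)| * q ^ ((d : ℝ) - ρ) * |T - 1 / PiM r|
          ≤ 1 * q ^ ((d : ℝ) - ρ) * (C₀ * (1 + d) * q ^ ((ρ : ℝ) - (N : ℝ) / 4)) :=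
            mul_le_mul (mul_le_mul_of_nonneg_right e3 (by positivity)) e5 (abs_nonneg _)
              (by positivity)
        _ = C₀ * (1 + d) * (q ^ ((d : ℝ) - ρ) * q ^ ((ρ : ℝ) - (N : ℝ) / 4)) := by ring
        _ ≤ C₀ * (1 + d) * (q * W) := mul_le_mul_of_nonneg_left e6 (by positivity)
    · have h8 : (mob r : ℝ) = 0 := by
        unfold mob
        rw [if_neg hsf]
        exact Int.cast_zero
      rw [h8, zero_mul, zero_mul, zero_mul, sub_self, abs_zero]
      positivity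
  -- the end
  have h3 : W = q ^ ((1 - c) * (d : ℝ)) * (q ^ (-c)) ^ d := by
    rw [hW, ← Real.rpow_natCast (q ^ (-c)) d, ← Real.rpow_mul hq0.le, ← Real.rpow_add hq0]
    congr 1
    ring
  obtain ⟨R, hR⟩ : ∃ R : ℝ, R = (q ^ (-c)) ^ d := ⟨_, rfl⟩
  have h4 : (2 + 2 * C₀ * q) * ((d : ℝ) ^ 2 * R) ≤ 1 := by
    have h := L1 d hn1
    rw [Real.dist_eq, sub_zero, ← hR] at h
    have h5 := (le_abs_self _).trans_lt h
    rw [lt_div_iff₀ hB] at h5
    linarith
  rw [← hq]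
  obtain ⟨E, hE⟩ : ∃ E : ℝ, E = q ^ ((1 - c) * (d : ℝ)) := ⟨_, rfl⟩
  rw [← hE, ← hR] at h3
  rw [← hE]
  have hE0 : 0 ≤ E := by rw [hE]; positivity
  rw [← hχ₀]
  rw [← hq] at hAb
  obtain ⟨MT, hMT⟩ : ∃ MT : ℝ, MT = (mob r : ℝ) * χ₀ * (q ^ (d - r.natDegree) / PiM r) := ⟨_, rfl⟩
  rw [← hMT] at hAb ⊢
  rw [hid2]
  have h5 : |A + B - M - MT| ≤ |A - MT| + |B| + |M| := by
    have e1 : A + B - M - MT = (A - MT) + B - M := by ring
    rw [e1]
    refine (abs_sub _ _).trans ?_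
    have := abs_add_le (A - MT) B
    linarith
  have h6 : C₀ * (1 + d) * (q * W) ≤ 2 * C₀ * q * (d : ℝ) ^ 2 * W := by
    have e1 : (1 : ℝ) + d ≤ 2 * (d : ℝ) ^ 2 := by nlinarith
    calc C₀ * (1 + d) * (q * W) = (1 + d) * (C₀ * q * W) := by ring
      _ ≤ 2 * (d : ℝ) ^ 2 * (C₀ * q * W) := mul_le_mul_of_nonneg_right e1 (by positivity)
      _ = _ := by ring
  calc |A + B - M - MT| ≤ 2 * C₀ * q * (d : ℝ) ^ 2 * W + d * (d * W) + d * (d * W) := by linarith
    _ = ((2 + 2 * C₀ * q) * ((d : ℝ) ^ 2 * R)) * E := by rw [h3]; ring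
    _ ≤ 1 * E := mul_le_mul_of_nonneg_right h4 hE0
    _ = E := one_mul E

end Pool.Agent.H290.FX.PMajb
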