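import Mathlib
import Pool.Agent.H290.FX.StmC

/-!
# The sums `n = P + a` with `P` and `a ^ 2 + X` irreducible, `q` even (helper290): statements

The exponential sums over the irreducible polynomials follow from the key estimate `S_key` (with the
trivial character of the root); the binary problem for almost all `n` as in `FX/StmC.lean`.
-/

namespace Pool.Agent.H290.FX

open Polynomial
open scoped Classical
open Pool.Agent.H985.Chow (mob)
open Pool.Agent.H985.KP (sg PA)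
open Pool.Agent.H694.Typ (Mn PU)
open Pool.Agent.H604.LD (PiM)

/-- The exponential sum over the monic irreducible polynomials of degree `d`. -/
noncomputable def SQ (K : Type) [Field K] [Fintype K] (d : ℕ) (χ : AddChar K[X] ℝ) : ℝ :=
  ∑ P ∈ (Mn K d).filter (fun P => Irreducible P), χ P

/-- The main term of `d * SQ K d χ`. -/
noncomputable def MQ (K : Type) [Field K] [Fintype K] (d t : ℕ) (χ : AddChar K[X] ℝ) : ℝ :=
  ∑ r ∈ (Sq K t).filter (fun r => MPer d χ r),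
    (mob r : ℝ) * χ (r * X ^ (d - r.natDegree)) *
      ((Fintype.card K : ℝ) ^ (d - r.natDegree) / PiM r)

/-- The von Mangoldt function. -/
noncomputable def vM {K : Type} [Field K] (A : K[X]) : ℝ :=
  ∑ᶠ P ∈ {P : K[X] | P.Monic ∧ Irreducible P ∧ ∃ j : ℕ, 1 ≤ j ∧ A = P ^ j}, (P.natDegree : ℝ)

/-- **Task Q1.**  `vM A = - ∑_{D ∣ A} μ(D) deg D` for monic `A`. -/
def S_q1 : Prop :=
  ∀ (K : Type) [Field K] [Fintype K] (n : ℕ), ∀ A ∈ Mn K n,
    vM A = - ∑ j ∈ Finset.range (n + 1), (j : ℝ) *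
      ∑ D ∈ (Mn K j).filter (fun D => D ∣ A), (mob D : ℝ)

/-- **Task Q2.**  The Euler product: `∑_{E ∈ Mn i, (E, r) = 1} μ(E) =: c i` has the generating
function `∑ c i u ^ i = (1 - q u) / ∏_{P ∣ r} (1 - u ^ deg P)`; its value at `u = 1 / q` is `0` and
its derivative (times `u`) is `-1 / PiM r`.  With `n_i` the number of the monic `G` of degree `i` all of
whose prime factors divide `r` one has `c i = n_i - q n_{i-1}` and
`n_i ≤ q ^ (i / 2) ∏_{P ∣ r} (1 - q ^ (-deg P / 2))⁻¹ ≤ q ^ (i / 2) 4 ^ ω(r)`, `ω(r) ≤ ε t + C`.  The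
statement is about the partial sums: the tails `∑_{i > N} i |c i| q ^ (-i)` are
`≤ C q ^ (ε t - N / 4)`. -/
def S_q2 : Prop :=
  ∀ (K : Type) [Field K] [Fintype K] (ε : ℝ), 0 < ε → ∃ C : ℝ, 0 < C ∧
    ∀ (r : K[X]) (t N : ℕ), r.Monic → Squarefree r → r.natDegree ≤ t →
      |∑ i ∈ Finset.range (N + 1), ((r.natDegree : ℝ) + i) / (Fintype.card K : ℝ) ^ i *
          ∑ E ∈ (Mn K i).filter (fun E => IsCoprime E r), (mob E : ℝ) + 1 / PiM r| ≤
        C * (Fintype.card K : ℝ) ^ (ε * t - (N : ℝ) / 4)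

/-- The exponential sums over the irreducible polynomials, all characters. -/
def S_prx : Prop :=
  ∀ (K : Type) [Field K] [Fintype K] [CharP K 2] (θ : ℝ), 0 < θ → θ ≤ 1 / 4 → ∃ c : ℝ, 0 < c ∧
    ∃ d₀ : ℕ, ∀ (d t : ℕ) (χ : AddChar K[X] ℝ), d₀ ≤ d → t = ⌊θ * d⌋₊ →
      |(d : ℝ) * SQ K d χ - MQ K d t χ| ≤ (Fintype.card K : ℝ) ^ ((1 - c) * d)

/-- **Task Q3.**  `d * SQ` is `∑_{A ∈ Mn K d} vM A χ A` up to the proper prime powers, at most
`d q ^ (d / 2)`.  By Q1 the sum is `- ∑_{j ≤ d} j ∑_{D ∈ Mn j} μ(D) ∑_{s ∈ Mn (d - j)} χ (D s)`.  For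
`j > κ d` (`κ = 2 θ`) the sum over `D` is `≤ q ^ ((1 - c) j)` for every `s` by `S_key` with the trivial
character of `rt D` and `D ↦ χ (D s)`.  For `j ≤ κ d` the sum over `s` is
`q ^ (d - j) χ (D X ^ (d - j))` if `D` is a period of `χ`, and `0` otherwise.  Let `r` be a minimal
period.  If `deg r > κ d` there is nothing.  By UNIQ (`2 κ ≤ 1`) the periods `D` of degree
`≤ κ d` are the multiples `r E`, and `χ (r E X ^ (d - j)) = χ (r X ^ (d - ρ))`, `ρ = deg r` (the difference of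
the arguments is a multiple of `r` of degree `< d`), `μ(r E) = μ(r) μ(E)` if `(r, E) = 1` and `0`
otherwise; so the sum is
`- χ (r X ^ (d - ρ)) μ(r) q ^ (d - ρ) ∑_{i ≤ κ d - ρ} (ρ + i) q ^ (-i) ∑_{E ∈ Mn i, (E, r) = 1} μ(E)`,
given by Q2.  If `t < ρ ≤ κ d` everything is `≤ q ^ (d - ρ + ε d)`, and `MQ = 0`. -/
def S_tq3 : Prop := S_uniq → S_key → S_q1 → S_q2 → S_prx

/-- The main term of the binary problem. -/
def S_q4 : Prop :=
  ∀ (K : Type) [Field K] [Fintype K] [CharP K 2] (d t : ℕ) (n : K[X]), 2 * t ≤ d →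
    n.degree < (d : WithBot ℕ) →
    ∑ H ∈ Vs K d, ch d H n * (MT K d t (ch d H) * MQ K d t (ch d H)) =
      (Fintype.card K : ℝ) ^ (2 * d) * ∑ r ∈ Sq K t, ∏ᶠ P ∈ PA r,
        (if P ∣ n ^ 2 + X then 1 / ((Fintype.card K : ℝ) ^ P.natDegree - 1)
          else -1 / ((Fintype.card K : ℝ) ^ P.natDegree - 1) ^ 2)

/-- **Task Q4.**  As MB and MT (store helper290_FX_PMb.lean, helper290_FX_PMt.lean).  At most one
minimal period; `(mob r) ^ 2 = 1`, and `χ n * χ (rt r + r X ^ (d - ρ)) * χ (r X ^ (d - ρ)) =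
χ (n + rt r)`; RAM for `b = n + rt r`; for `P ∣ r`: `P ∣ n + rt r ↔ P ∣ n ^ 2 + X`. -/
def S_tq4 : Prop := S_root → S_uniq → S_ram → S_q4

/-- **The binary problem** `n = P + a` for almost all `n`. -/
def S_binp : Prop :=
  ∀ (K : Type) [Field K] [Fintype K] [CharP K 2], ∃ (c c₀ : ℝ) (S : K[X] → ℝ), 0 < c ∧ 0 < c₀ ∧
    (∀ n : K[X], Filter.Tendsto (fun y : ℕ => ∏ P ∈ PU K y,
      (if P ∣ n ^ 2 + X then 1 + 1 / ((Fintype.card K : ℝ) ^ P.natDegree - 1)
        else 1 - 1 / ((Fintype.card K : ℝ) ^ P.natDegree - 1) ^ 2)) Filter.atTop (nhds (S n)) ∧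
      ((Fintype.card K = 2 → n.eval 0 = 0 ∧ n.eval 1 = 1) → c₀ ≤ S n)) ∧
    ∃ d₀ : ℕ, ∀ d : ℕ, d₀ ≤ d →
      (((Vs K d).filter (fun n => (Fintype.card K : ℝ) ^ ((1 - c) * d) <
        |(((Mn K d ×ˢ Mn K d).filter (fun x => x.1 + x.2 = n ∧ Irreducible x.1 ∧
            Irreducible (x.2 ^ 2 + X))).card : ℝ) -
          S n * (Fintype.card K : ℝ) ^ d / (2 * (d : ℝ) ^ 2)|)).card : ℝ) ≤
        (Fintype.card K : ℝ) ^ ((1 - c) * d)

/-- **Task Q5.**  As BIN (store helper290_FX_PBin.lean).  The number of the representations is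
`q ^ (-d) ∑_H ch d H n * SQ * SX`; `|MQ| = |MT|` for every character (the same sum up to signs, at most
one term), so L2 bounds `∑_H MQ ^ 2` too, and `∑_H (d * SQ) ^ 2 ≤ d ^ 2 q ^ (2 d)`; the error is
`(2 d SX)(d SQ) - MT MQ = (2 d SX - MT) (d SQ) + MT (d SQ - MQ)`.  RANK and CONV with
`h = n ^ 2 + X`, of degree `≤ 2 d`, not zero.  `S_prx` with the `θ` of `S_four`. -/
def S_tq5 : Prop := S_orth → S_four → S_l2 → S_prx → S_q4 → S_rank → S_conv → S_binp

end Pool.Agent.H290.FX
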