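import Mathlib
import Pool.Agent.H290.FX.StmQ
import Pool.Agent.H604.LD.Far1

/-!
# `vM A = - ∑_{D ∣ A} μ(D) deg D` (task Q1)
-/

set_option autoImplicit false
set_option linter.all false

namespace Pool.Agent.H290.FX.PQ1

open Polynomial Finset
open scoped Classical
open Pool.Agent.H985.Chow (mob)
open Pool.Agent.H694.Typ
open Pool.Agent.H604.LD.F1

section

variable {K : Type} [Field K] [Fintype K]

/-- the weighted sum, one prime split off -/
lemma weighted {f P : K[X]} (hf : f.Monic) (hPm : P.Monic) (hPi : Irreducible P) (hPf : P ∣ f) :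
    ∑ j ∈ range (f.natDegree + 1), (j : ℝ) *
        ∑ D ∈ (Mn K j).filter (fun D => D ∣ f), (mob D : ℝ) =
      - ((P.natDegree : ℝ) * ∑ j ∈ range (f.natDegree + 1),
        ∑ D ∈ (Mn K j).filter (fun D => D ∣ f ∧ ¬ P ∣ D), (mob D : ℝ)) := by
  have hp1 : 0 < P.natDegree := hPi.natDegree_pos
  obtain ⟨a, ha⟩ : ∃ a : ℕ → ℝ, ∀ j, a j =
      ∑ D ∈ (Mn K j).filter (fun D => D ∣ f ∧ ¬ P ∣ D), (mob D : ℝ) := ⟨_, fun _ => rfl⟩
  have hs : ∀ j, ∑ D ∈ (Mn K j).filter (fun D => D ∣ f), (mob D : ℝ) =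
      a j - (if P.natDegree ≤ j then a (j - P.natDegree) else 0) := by
    intro j
    have h1 : ∑ D ∈ (Mn K j).filter (fun D => D ∣ f), (mob D : ℝ) =
        a j + ∑ D ∈ (Mn K j).filter (fun D => P ∣ D), (if D ∣ f then (mob D : ℝ) else 0) := by
      rw [ha, sum_filter, sum_filter, sum_filter, ← sum_add_distrib]
      refine sum_congr rfl fun D _ => ?_
      by_cases h2 : D ∣ f
      · by_cases h3 : P ∣ D
        · rw [if_pos h2, if_neg (fun h => h.2 h3), if_pos h3, zero_add]
        · rw [if_pos h2, if_pos ⟨h2, h3⟩, if_neg h3, add_zero]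
      · rw [if_neg h2, if_neg (fun h => h2 h.1), zero_add]
        split_ifs <;> rfl
    rw [h1, sub_eq_add_neg]
    congr 1
    split_ifs with h
    · rw [sum_mul hPm h, ha, ← sum_neg_distrib, sum_filter]
      refine sum_congr rfl fun D hD => ?_
      rw [mem_Mn] at hD
      rw [mob_mul_P hPi hD.1.ne_zero]
      by_cases h3 : P ∣ D
      · rw [if_pos h3, if_neg (fun h : D ∣ f ∧ ¬ P ∣ D => h.2 h3)]
        simp
      · rw [if_neg h3]
        have h4 : P * D ∣ f ↔ D ∣ f := by
          constructor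
          · intro h; exact (dvd_mul_left D P).trans h
          · intro h
            exact (((hPi.coprime_iff_not_dvd).2 h3)).mul_dvd hPf h
        by_cases h5 : D ∣ f
        · rw [if_pos (h4.2 h5), if_pos ⟨h5, h3⟩]
          push_cast
          rfl
        · rw [if_neg (fun h => h5 (h4.1 h)), if_neg (fun h : D ∣ f ∧ ¬ P ∣ D => h5 h.1)]
    · rw [neg_zero]
      refine sum_eq_zero fun D hD => ?_
      rw [mem_filter, mem_Mn] at hD
      exfalso
      apply h
      rw [← hD.1.2]
      exact natDegree_le_of_dvd hD.2 hD.1.1.ne_zero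
  have hpn : P.natDegree ≤ f.natDegree := natDegree_le_of_dvd hPf hf.ne_zero
  have h0 : ∀ j, f.natDegree < j + P.natDegree → a j = 0 := by
    intro j hj
    rw [ha]
    refine sum_eq_zero fun D hD => ?_
    rw [mem_filter, mem_Mn] at hD
    exfalso
    have h4 : P * D ∣ f := (((hPi.coprime_iff_not_dvd).2 hD.2.2)).mul_dvd hPf hD.2.1
    have h5 := natDegree_le_of_dvd h4 hf.ne_zero
    rw [hPm.natDegree_mul hD.1.1, hD.1.2] at h5
    omega
  have e : f.natDegree + 1 = (f.natDegree - P.natDegree + 1) + P.natDegree := by omega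
  have e0 : ∀ c : ℕ → ℝ, ∑ j ∈ range (f.natDegree + 1), c j * a j =
      ∑ j ∈ range (f.natDegree - P.natDegree + 1), c j * a j := by
    intro c
    rw [e, sum_range_add, add_eq_left]
    exact sum_eq_zero fun i _ => by rw [h0 _ (by omega), mul_zero]
  have e1 : ∑ j ∈ range (f.natDegree + 1), (j : ℝ) *
        ∑ D ∈ (Mn K j).filter (fun D => D ∣ f), (mob D : ℝ) =
      ∑ j ∈ range (f.natDegree + 1), (j : ℝ) * a j - ∑ j ∈ range (f.natDegree + 1), (j : ℝ) *
        (if P.natDegree ≤ j then a (j - P.natDegree) else 0) := by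
    rw [← sum_sub_distrib]
    refine sum_congr rfl fun j _ => ?_
    rw [hs, mul_sub]
  rw [e1, sum_shift (p := P.natDegree) a (fun j => (j : ℝ)) hpn, e0 (fun j => (j : ℝ))]
  have e2 : ∑ j ∈ range (f.natDegree + 1),
        ∑ D ∈ (Mn K j).filter (fun D => D ∣ f ∧ ¬ P ∣ D), (mob D : ℝ) =
      ∑ j ∈ range (f.natDegree - P.natDegree + 1), (1 : ℝ) * a j := by
    rw [← e0 (fun _ => (1 : ℝ))]
    exact sum_congr rfl fun j _ => by rw [ha, one_mul]
  rw [e2, mul_sum, ← sum_sub_distrib, ← sum_neg_distrib]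
  refine sum_congr rfl fun j _ => ?_
  push_cast
  ring

/-- the sum of the Moebius function over the divisors of `B`, a long range -/
lemma long {B : K[X]} (hB : B.Monic) {n : ℕ} (hn : B.natDegree ≤ n) :
    ∑ j ∈ range (n + 1), ∑ D ∈ (Mn K j).filter (fun D => D ∣ B), (mob D : ℝ) =
      if B = 1 then 1 else 0 := by
  have e : n + 1 = (B.natDegree + 1) + (n - B.natDegree) := by omega
  rw [e, sum_range_add]
  have h0 : ∑ x ∈ range (n - B.natDegree),
      ∑ D ∈ (Mn K (B.natDegree + 1 + x)).filter (fun D => D ∣ B), (mob D : ℝ) = 0 := by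
    refine sum_eq_zero fun i _ => sum_eq_zero fun D hD => ?_
    rw [mem_filter, mem_Mn] at hD
    have h5 := natDegree_le_of_dvd hD.2 hB.ne_zero
    omega
  rw [h0, add_zero]
  split_ifs with h1
  · subst h1
    rw [natDegree_one, zero_add, sum_range_one]
    have h : (Mn K 0).filter (fun D => D ∣ (1 : K[X])) = {1} := by
      ext f
      rw [mem_filter, mem_Mn, mem_singleton]
      constructor
      · rintro ⟨⟨h1, h2⟩, -⟩
        exact (h1.natDegree_eq_zero).1 h2
      · rintro rfl
        exact ⟨⟨monic_one, natDegree_one⟩, dvd_rfl⟩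
    rw [h, sum_singleton, mob_one']
    simp
  · exact sum_dvd_mob hB h1

/-- The von Mangoldt function of `P ^ k * B`. -/
lemma vM_eq {P B : K[X]} (hPm : P.Monic) (hPi : Irreducible P) (hB : B.Monic) (hPB : ¬ P ∣ B)
    {k : ℕ} (hk : 1 ≤ k) : vM (P ^ k * B) = if B = 1 then (P.natDegree : ℝ) else 0 := by
  unfold vM
  have hset : {Q : K[X] | Q.Monic ∧ Irreducible Q ∧ ∃ j : ℕ, 1 ≤ j ∧ P ^ k * B = Q ^ j} =
      if B = 1 then {P} else ∅ := by
    ext Q
    have key : (Q.Monic ∧ Irreducible Q ∧ ∃ j : ℕ, 1 ≤ j ∧ P ^ k * B = Q ^ j) → Q = P ∧ B = 1 := by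
      rintro ⟨hQm, hQi, j, hj, hQ⟩
      have h1 : P ∣ Q ^ j := by
        rw [← hQ]
        exact (dvd_pow_self P (by omega)).mul_right B
      have h2 : P ∣ Q := hPi.prime.dvd_of_dvd_pow h1
      have h3 : Associated P Q := hPi.associated_of_dvd hQi h2
      have h4 : P = Q := eq_of_monic_of_associated hPm hQm h3
      subst h4
      refine ⟨rfl, ?_⟩
      have h5 : B ∣ P ^ j := by rw [← hQ]; exact dvd_mul_left _ _
      have h6 : IsCoprime (P ^ j) B := ((hPi.coprime_iff_not_dvd).2 hPB).pow_left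
      exact hB.eq_one_of_isUnit (h6.isUnit_of_dvd' h5 dvd_rfl)
    rw [Set.mem_setOf_eq]
    split_ifs with h1
    · rw [Set.mem_singleton_iff]
      constructor
      · intro h
        exact (key h).1
      · rintro rfl
        exact ⟨hPm, hPi, k, hk, by rw [h1, mul_one]⟩
    · constructor
      · intro h
        exact absurd (key h).2 h1
      · intro h
        exact absurd h (Set.notMem_empty _)
  rw [hset]
  split_ifs with h1
  · exact finsum_mem_singleton
  · exact finsum_mem_empty

end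

theorem main : S_q1 := by
  intro K _ _ n A hA
  rw [mem_Mn] at hA
  obtain ⟨hAm, rfl⟩ := hA
  by_cases h1 : A = 1
  · subst h1
    have hv : vM (1 : K[X]) = 0 := by
      unfold vM
      have hset : {P : K[X] | P.Monic ∧ Irreducible P ∧ ∃ j : ℕ, 1 ≤ j ∧ (1 : K[X]) = P ^ j} = ∅ := by
        rw [Set.eq_empty_iff_forall_notMem]
        rintro P ⟨-, hPi, j, hj, h⟩
        exact hPi.not_isUnit ((isUnit_pow_iff (by omega)).1 (h ▸ isUnit_one))
      rw [hset]
      exact finsum_mem_empty
    rw [hv, natDegree_one, zero_add, sum_range_one]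
    simp
  · have hnu : ¬ IsUnit A := fun h => h1 (hAm.eq_one_of_isUnit h)
    obtain ⟨P, hPm, hPi, hPA⟩ := exists_monic_irreducible_factor A hnu
    obtain ⟨k, B, hPB, hAB⟩ : ∃ k B, ¬ P ∣ B ∧ A = P ^ k * B :=
      (FiniteMultiplicity.of_not_isUnit hPi.not_isUnit hAm.ne_zero).exists_eq_pow_mul_and_not_dvd.elim
        (fun c hc => ⟨_, c, hc.2, hc.1⟩)
    have hk : 1 ≤ k := by
      rcases Nat.eq_zero_or_pos k with h | h
      · exfalso
        rw [h, pow_zero, one_mul] at hAB
        exact hPB (hAB ▸ hPA)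
      · exact h
    have hB : B.Monic := by
      have h2 := hAm
      rw [hAB] at h2
      exact (hPm.pow k).of_mul_monic_left h2
    have hw := weighted hAm hPm hPi hPA
    rw [hw, neg_neg]
    have hf : ∀ j, (Mn K j).filter (fun D => D ∣ A ∧ ¬ P ∣ D) =
        (Mn K j).filter (fun D => D ∣ B) := by
      intro j
      refine filter_congr fun D hD => ?_
      constructor
      · rintro ⟨h2, h3⟩
        rw [hAB] at h2
        have h4 : IsCoprime D (P ^ k) := (((hPi.coprime_iff_not_dvd).2 h3).pow_left).symm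
        exact h4.dvd_of_dvd_mul_left h2
      · intro h2
        refine ⟨?_, fun h3 => hPB (h3.trans h2)⟩
        rw [hAB]
        exact h2.mul_left _
    have hn : B.natDegree ≤ A.natDegree :=
      natDegree_le_of_dvd (hAB ▸ dvd_mul_left B (P ^ k)) hAm.ne_zero
    simp only [hf]
    rw [long hB hn]
    conv_lhs => rw [hAB]
    rw [vM_eq hPm hPi hB hPB hk]
    split_ifs <;> simp

end Pool.Agent.H290.FX.PQ1
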