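import Mathlib
import Pool.Agent.H290.FX.StmQ

/-!
# Task Q2 (helper860): the Euler product of the Möbius function prime to `r`, partial sums
-/

namespace Pool.Agent.H290.FX.PQ2

open Polynomial
open scoped Classical
open Pool.Agent.H985.Chow (mob)
open Pool.Agent.H985.KP (sg PA)
open Pool.Agent.H694.Typ (Mn PU mem_Mn mem_PU card_dvd no_dvd)
open Pool.Agent.H604.LD (PiM)

section mob

variable {K : Type} [Field K]

theorem mob_eq (F : K[X]) : mob F = if Squarefree F then
    (-1) ^ Multiset.card (UniqueFactorizationMonoid.factors F) else 0 := rfl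

theorem mob_mul {F G : K[X]} (h : Squarefree (F * G)) : mob (F * G) = mob F * mob G := by
  have h1 := squarefree_mul_iff.1 h
  rw [mob_eq, mob_eq, mob_eq, if_pos h1.2.1, if_pos h1.2.2, if_pos h, ← pow_add]
  congr 1
  rw [Multiset.card_eq_card_of_rel
    (UniqueFactorizationMonoid.factors_mul h1.2.1.ne_zero h1.2.2.ne_zero), Multiset.card_add]

theorem mob_one : mob (1 : K[X]) = 1 := by
  rw [mob_eq, if_pos squarefree_one]
  have h : UniqueFactorizationMonoid.factors (1 : K[X]) = 0 :=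
    UniqueFactorizationMonoid.factors_one
  rw [h]
  simp

theorem mob_irr {P : K[X]} (hP : Irreducible P) : mob P = -1 := by
  rw [mob_eq, if_pos hP.squarefree]
  have h1 : Multiset.Rel Associated (UniqueFactorizationMonoid.factors P)
      ({P} : Multiset K[X]) := by
    refine UniqueFactorizationMonoid.factors_unique
      (fun x hx => UniqueFactorizationMonoid.irreducible_of_factor x hx) ?_ ?_
    · intro x hx
      rw [Multiset.mem_singleton] at hx
      rw [hx]; exact hP
    · rw [Multiset.prod_singleton]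
      exact UniqueFactorizationMonoid.factors_prod hP.ne_zero
  rw [Multiset.card_eq_card_of_rel h1]
  simp

theorem mob_zero_of {F : K[X]} (h : ¬ Squarefree F) : mob F = 0 := by
  rw [mob_eq, if_neg h]

theorem mob_P {P E : K[X]} (hP : Irreducible P) (hE : ¬ P ∣ E) : mob (P * E) = -mob E := by
  have hc : IsCoprime P E := (hP.coprime_iff_not_dvd).2 hE
  by_cases hs : Squarefree E
  · have h1 : Squarefree (P * E) := squarefree_mul_iff.2 ⟨hc.isRelPrime, hP.squarefree, hs⟩
    rw [mob_mul h1, mob_irr hP]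
    ring
  · have h1 : ¬ Squarefree (P * E) := fun h => hs (squarefree_mul_iff.1 h).2.2
    rw [mob_zero_of hs, mob_zero_of h1, neg_zero]

end mob

section pair

variable {K : Type} [Field K] [Fintype K]

/-- splitting off the prime `P` -/
theorem pair {P : K[X]} (hP : P.Monic) (hPi : Irreducible P) (Q : K[X] → Prop)
    (hQ : ∀ E : K[X], ¬ P ∣ E → (Q (P * E) ↔ Q E)) (i : ℕ) :
    ∑ E ∈ (Mn K i).filter Q, (mob E : ℝ) =
      ∑ E ∈ (Mn K i).filter (fun E => Q E ∧ ¬ P ∣ E), (mob E : ℝ) -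
        if P.natDegree ≤ i then
          ∑ E ∈ (Mn K (i - P.natDegree)).filter (fun E => Q E ∧ ¬ P ∣ E), (mob E : ℝ) else 0 := by
  have h1 := Finset.sum_filter_add_sum_filter_not ((Mn K i).filter Q) (fun E => P ∣ E)
    (fun E => (mob E : ℝ))
  rw [Finset.filter_filter, Finset.filter_filter] at h1
  have h2 : ∑ E ∈ (Mn K i).filter (fun E => Q E ∧ P ∣ E), (mob E : ℝ) =
      - if P.natDegree ≤ i then
          ∑ E ∈ (Mn K (i - P.natDegree)).filter (fun E => Q E ∧ ¬ P ∣ E), (mob E : ℝ) else 0 := by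
    by_cases hp : P.natDegree ≤ i
    · rw [if_pos hp, ← Finset.sum_neg_distrib]
      have h3 : ∑ E ∈ (Mn K (i - P.natDegree)).filter (fun E => Q E ∧ ¬ P ∣ E), -(mob E : ℝ) =
          ∑ E ∈ ((Mn K (i - P.natDegree)).filter (fun E => Q E ∧ ¬ P ∣ E)).image (fun E => P * E),
            (mob E : ℝ) := by
        rw [Finset.sum_image fun E _ E' _ h => mul_left_cancel₀ hP.ne_zero h]
        refine Finset.sum_congr rfl fun E hE => ?_
        rw [Finset.mem_filter] at hE
        rw [mob_P hPi hE.2.2]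
        push_cast
        ring
      rw [h3]
      symm
      apply Finset.sum_subset
      · intro E hE
        rw [Finset.mem_image] at hE
        obtain ⟨E', hE', rfl⟩ := hE
        rw [Finset.mem_filter, mem_Mn] at hE'
        rw [Finset.mem_filter, mem_Mn]
        refine ⟨⟨hP.mul hE'.1.1, ?_⟩, (hQ E' hE'.2.2).2 hE'.2.1, dvd_mul_right _ _⟩
        rw [hP.natDegree_mul hE'.1.1, hE'.1.2]
        omega
      · intro E hE hE2
        rw [Finset.mem_filter, mem_Mn] at hE
        obtain ⟨⟨hm, hd⟩, hQE, E', rfl⟩ := hE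
        have hm' : E'.Monic := hP.of_mul_monic_left hm
        by_cases hPE : P ∣ E'
        · have h4 : ¬ Squarefree (P * E') := by
            intro h
            obtain ⟨F, rfl⟩ := hPE
            have := h P ⟨F, by ring⟩
            exact hPi.not_isUnit this
          rw [mob_zero_of h4]
          norm_num
        · exfalso
          apply hE2
          rw [Finset.mem_image]
          refine ⟨E', ?_, rfl⟩
          rw [Finset.mem_filter, mem_Mn]
          refine ⟨⟨hm', ?_⟩, (hQ E' hPE).1 hQE, hPE⟩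
          rw [hP.natDegree_mul hm'] at hd
          omega
    · rw [if_neg hp, neg_zero]
      apply Finset.sum_eq_zero
      intro E hE
      rw [Finset.mem_filter] at hE
      exact absurd hE.2.2 (no_dvd (by omega) hE.1)
  rw [h2] at h1
  linarith

/-- the sum of `μ` over the divisors of a monic polynomial -/
theorem sum_div {n : ℕ} {F : K[X]} (hF : F ∈ Mn K n) (hn : n ≠ 0) :
    ∑ j ∈ Finset.range (n + 1), ∑ D ∈ (Mn K j).filter (fun D => D ∣ F), (mob D : ℝ) = 0 := by
  rw [mem_Mn] at hF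
  obtain ⟨hFm, hFd⟩ := hF
  obtain ⟨P, hPm, hPi, hPF⟩ : ∃ P : K[X], P.Monic ∧ Irreducible P ∧ P ∣ F := by
    have hu : ¬ IsUnit F := by
      intro h
      have := natDegree_eq_zero_of_isUnit h
      omega
    exact exists_monic_irreducible_factor F hu
  have hp0 : 0 < P.natDegree := hPi.natDegree_pos
  set p := P.natDegree with hp
  set g : ℕ → ℝ := fun j => ∑ D ∈ (Mn K j).filter (fun D => D ∣ F ∧ ¬ P ∣ D), (mob D : ℝ) with hg
  have hpn : p ≤ n := by
    rw [← hFd]
    exact natDegree_le_of_dvd hPF hFm.ne_zero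
  have h1 : ∀ j, ∑ D ∈ (Mn K j).filter (fun D => D ∣ F), (mob D : ℝ) =
      g j - if p ≤ j then g (j - p) else 0 := by
    intro j
    apply pair hPm hPi (fun D => D ∣ F)
    intro D hD
    constructor
    · exact fun h => dvd_trans (dvd_mul_left _ _) h
    · exact fun h => ((hPi.coprime_iff_not_dvd).2 hD).mul_dvd hPF h
  have h2 : ∀ j, n - p < j → g j = 0 := by
    intro j hj
    rw [hg]
    apply Finset.sum_eq_zero
    intro D hD
    rw [Finset.mem_filter, mem_Mn] at hD
    exfalso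
    have h3 : P * D ∣ F := ((hPi.coprime_iff_not_dvd).2 hD.2.2).mul_dvd hPF hD.2.1
    have h4 := natDegree_le_of_dvd h3 hFm.ne_zero
    rw [hPm.natDegree_mul hD.1.1] at h4
    omega
  rw [Finset.sum_congr rfl fun j _ => h1 j, Finset.sum_sub_distrib, sub_eq_zero]
  have h5 : ∑ j ∈ Finset.range (n + 1), (if p ≤ j then g (j - p) else 0) =
      ∑ j ∈ Finset.range (n - p + 1), g j := by
    obtain ⟨m, hm⟩ : ∃ m, n = p + m := ⟨n - p, by omega⟩
    have e1 : n + 1 = p + (m + 1) := by omega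
    have e2 : n - p + 1 = m + 1 := by omega
    rw [e1, e2, Finset.sum_range_add]
    have h6 : ∑ j ∈ Finset.range p, (if p ≤ j then g (j - p) else 0) = 0 := by
      apply Finset.sum_eq_zero
      intro j hj
      rw [Finset.mem_range] at hj
      rw [if_neg (by omega)]
    rw [h6, zero_add]
    refine Finset.sum_congr rfl fun j _ => ?_
    rw [if_pos (by omega), Nat.add_sub_cancel_left]
  rw [h5]
  have e3 : Finset.range (n - p + 1) ⊆ Finset.range (n + 1) := by
    intro j hj
    rw [Finset.mem_range] at *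
    omega
  symm
  apply Finset.sum_subset e3
  intro j _ hj
  rw [Finset.mem_range] at hj
  exact h2 j (by omega)

end pair

section gen

variable {K : Type} [Field K] [Fintype K]

/-- the coefficients -/
noncomputable def cc (r : K[X]) (i : ℕ) : ℝ :=
  ∑ E ∈ (Mn K i).filter (fun E => IsCoprime E r), (mob E : ℝ)

theorem cc_mul {P r : K[X]} (hP : P.Monic) (hPi : Irreducible P) (hc : IsCoprime P r) (i : ℕ) :
    cc (P * r) i = cc r i + if P.natDegree ≤ i then cc (P * r) (i - P.natDegree) else 0 := by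
  have h := pair hP hPi (fun E => IsCoprime E r)
    (fun E _ => ⟨fun h => h.of_mul_left_right, fun h => hc.mul_left h⟩) i
  have he : ∀ j, ∑ E ∈ (Mn K j).filter (fun E => IsCoprime E r ∧ ¬ P ∣ E), (mob E : ℝ) =
      cc (P * r) j := by
    intro j
    unfold cc
    refine Finset.sum_congr (Finset.filter_congr fun E _ => ?_) fun _ _ => rfl
    rw [IsCoprime.mul_right_iff, and_comm, ← hPi.coprime_iff_not_dvd, isCoprime_comm (x := P)]
  rw [he, he] at h
  change cc r i = _ at h
  rw [h]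
  ring

/-- the number of the monic polynomials of degree `n` all of whose prime factors divide `r` -/
noncomputable def nn (r : K[X]) (n : ℕ) : ℝ :=
  ∑ j ∈ Finset.range (n + 1), (Fintype.card K : ℝ) ^ (n - j) * cc r j

theorem nn_zero (r : K[X]) : nn r 0 = cc r 0 := by
  rw [nn, Finset.sum_range_one, pow_zero, one_mul]

theorem nn_succ (r : K[X]) (n : ℕ) :
    nn r (n + 1) = (Fintype.card K : ℝ) * nn r n + cc r (n + 1) := by
  rw [nn, Finset.sum_range_succ, Nat.sub_self, pow_zero, one_mul, nn, Finset.mul_sum]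
  congr 1
  refine Finset.sum_congr rfl fun j hj => ?_
  rw [Finset.mem_range] at hj
  rw [show n + 1 - j = (n - j) + 1 by omega, pow_succ]
  ring

theorem nn_mul {P r : K[X]} (hP : P.Monic) (hPi : Irreducible P) (hc : IsCoprime P r) (n : ℕ) :
    nn (P * r) n = nn r n + if P.natDegree ≤ n then nn (P * r) (n - P.natDegree) else 0 := by
  set p := P.natDegree with hp
  have h1 : nn (P * r) n = nn r n + ∑ j ∈ Finset.range (n + 1), (Fintype.card K : ℝ) ^ (n - j) *
      (if p ≤ j then cc (P * r) (j - p) else 0) := by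
    rw [nn, nn, ← Finset.sum_add_distrib]
    refine Finset.sum_congr rfl fun j _ => ?_
    rw [← mul_add, ← cc_mul hP hPi hc]
  rw [h1]
  congr 1
  by_cases hpn : p ≤ n
  · rw [if_pos hpn]
    obtain ⟨m, rfl⟩ : ∃ m, n = p + m := ⟨n - p, by omega⟩
    rw [add_assoc, Finset.sum_range_add, Nat.add_sub_cancel_left, nn]
    have h6 : ∑ j ∈ Finset.range p, (Fintype.card K : ℝ) ^ (p + m - j) *
        (if p ≤ j then cc (P * r) (j - p) else 0) = 0 := by
      apply Finset.sum_eq_zero
      intro j hj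
      rw [Finset.mem_range] at hj
      rw [if_neg (by omega), mul_zero]
    rw [h6, zero_add]
    refine Finset.sum_congr rfl fun j _ => ?_
    rw [if_pos (by omega), Nat.add_sub_cancel_left, Nat.add_sub_add_left]
  · rw [if_neg hpn]
    apply Finset.sum_eq_zero
    intro j hj
    rw [Finset.mem_range] at hj
    rw [if_neg (by omega), mul_zero]

theorem cc_one (j : ℕ) : cc (1 : K[X]) j = ∑ D ∈ Mn K j, (mob D : ℝ) := by
  unfold cc
  rw [Finset.filter_true_of_mem fun E _ => isCoprime_one_right]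

theorem nn_one (n : ℕ) : nn (1 : K[X]) n = if n = 0 then 1 else 0 := by
  rcases Nat.eq_zero_or_pos n with h | h
  · subst h
    rw [nn_zero, cc_one, if_pos rfl]
    have h1 : Mn K 0 = {1} := by
      ext f
      rw [mem_Mn, Finset.mem_singleton]
      constructor
      · rintro ⟨h1, h2⟩
        exact h1.natDegree_eq_zero.1 h2
      · rintro rfl
        exact ⟨monic_one, natDegree_one⟩
    rw [h1, Finset.sum_singleton, mob_one]
    norm_num
  · rw [if_neg (by omega)]
    have h2 : ∑ F ∈ Mn K n, ∑ j ∈ Finset.range (n + 1),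
        ∑ D ∈ (Mn K j).filter (fun D => D ∣ F), (mob D : ℝ) = 0 :=
      Finset.sum_eq_zero fun F hF => sum_div hF (by omega)
    rw [← h2, Finset.sum_comm, nn]
    refine Finset.sum_congr rfl fun j hj => ?_
    rw [Finset.mem_range] at hj
    simp_rw [Finset.sum_filter]
    rw [Finset.sum_comm, cc_one, Finset.mul_sum]
    refine Finset.sum_congr rfl fun D hD => ?_
    rw [mem_Mn] at hD
    have h3 := card_dvd (k := K) (n := n) hD.1 (by rw [hD.2]; omega)
    rw [← Finset.sum_filter, Finset.sum_const, nsmul_eq_mul, h3, hD.2]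
    push_cast
    ring

end gen

section series

theorem b_nonneg {a b : ℕ → ℝ} {p : ℕ} (hp : 1 ≤ p)
    (hb : ∀ n, b n = a n + if p ≤ n then b (n - p) else 0) (ha : ∀ n, 0 ≤ a n) (n : ℕ) :
    0 ≤ b n := by
  induction n using Nat.strong_induction_on with
  | _ n ih =>
    rw [hb n]
    split_ifs with h
    · exact add_nonneg (ha n) (ih _ (by omega))
    · rw [add_zero]
      exact ha n

theorem b_hasSum {a b : ℕ → ℝ} {p : ℕ} (hp : 1 ≤ p)
    (hb : ∀ n, b n = a n + if p ≤ n then b (n - p) else 0) (ha : ∀ n, 0 ≤ a n) {x A : ℝ}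
    (hx0 : 0 < x) (hx1 : x < 1) (hA : HasSum (fun n => a n * x ^ n) A) :
    HasSum (fun n => b n * x ^ n) ((1 - x ^ p)⁻¹ * A) := by
  have hb0 := b_nonneg hp hb ha
  have hxp1 : x ^ p < 1 := pow_lt_one₀ hx0.le hx1 (by omega)
  have hxp0 : 0 < x ^ p := pow_pos hx0 p
  set F : ℕ → ℝ := fun n => (if p ≤ n then b (n - p) else 0) * x ^ n with hF
  have hF0 : ∀ n, 0 ≤ F n := by
    intro n
    rw [hF]
    dsimp only
    split_ifs
    · exact mul_nonneg (hb0 _) (pow_nonneg hx0.le _)
    · rw [zero_mul]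
  have hFsum : ∀ m, ∑ n ∈ Finset.range (p + m), F n =
      x ^ p * ∑ n ∈ Finset.range m, b n * x ^ n := by
    intro m
    rw [Finset.sum_range_add]
    have h6 : ∑ j ∈ Finset.range p, F j = 0 := by
      apply Finset.sum_eq_zero
      intro j hj
      rw [Finset.mem_range] at hj
      rw [hF]
      dsimp only
      rw [if_neg (by omega), zero_mul]
    rw [h6, zero_add, Finset.mul_sum]
    refine Finset.sum_congr rfl fun j _ => ?_
    rw [hF]
    dsimp only
    rw [if_pos (by omega), Nat.add_sub_cancel_left, pow_add]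
    ring
  have hterm : ∀ n, b n * x ^ n = a n * x ^ n + F n := by
    intro n
    rw [hF]
    dsimp only
    rw [← add_mul, ← hb n]
  have hbound : ∀ m, ∑ n ∈ Finset.range m, b n * x ^ n ≤ A / (1 - x ^ p) := by
    intro m
    rw [le_div_iff₀ (by linarith)]
    have h1 : ∑ n ∈ Finset.range m, b n * x ^ n = ∑ n ∈ Finset.range m, a n * x ^ n +
        ∑ n ∈ Finset.range m, F n := by
      rw [← Finset.sum_add_distrib]
      exact Finset.sum_congr rfl fun n _ => hterm n
    have h2 : ∑ n ∈ Finset.range m, a n * x ^ n ≤ A :=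
      sum_le_hasSum _ (fun n _ => mul_nonneg (ha n) (pow_nonneg hx0.le n)) hA
    have h3 : ∑ n ∈ Finset.range m, F n ≤ ∑ n ∈ Finset.range (p + m), F n := by
      apply Finset.sum_le_sum_of_subset_of_nonneg
      · intro j hj
        rw [Finset.mem_range] at *
        omega
      · exact fun j _ _ => hF0 j
    rw [hFsum m] at h3
    nlinarith
  have hsum : Summable fun n => b n * x ^ n :=
    summable_of_sum_range_le (fun n => mul_nonneg (hb0 n) (pow_nonneg hx0.le n)) hbound
  obtain ⟨B, hB⟩ := hsum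
  have hFS : HasSum F (x ^ p * B) := by
    have h1 : HasSum (fun n => F (n + p)) (x ^ p * B) := by
      have h2 := hB.mul_left (x ^ p)
      refine h2.congr_fun ?_
      intro n
      rw [hF]
      dsimp only
      rw [if_pos (by omega), Nat.add_sub_cancel, pow_add]
      ring
    have h3 := (hasSum_nat_add_iff p).1 h1
    have h6 : ∑ j ∈ Finset.range p, F j = 0 := by
      apply Finset.sum_eq_zero
      intro j hj
      rw [Finset.mem_range] at hj
      rw [hF]
      dsimp only
      rw [if_neg (by omega), zero_mul]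
    rwa [h6, add_zero] at h3
  have h4 := hA.add hFS
  have h5 : HasSum (fun n => b n * x ^ n) (A + x ^ p * B) := by
    refine h4.congr_fun ?_
    exact fun n => hterm n
  have h6 := hB.unique h5
  have h7 : (1 - x ^ p)⁻¹ * A = B := by
    rw [inv_mul_eq_iff_eq_mul₀ (by linarith)]
    linarith
  rw [h7]
  exact hB

end series

section fin

variable {K : Type} [Field K] [Fintype K]

theorem main_series (s : Finset K[X]) (hs : ∀ P ∈ s, P.Monic ∧ Irreducible P) :
    (∀ n, 0 ≤ nn (∏ P ∈ s, P) n) ∧ ∀ x : ℝ, 0 < x → x < 1 →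
      HasSum (fun n => nn (∏ P ∈ s, P) n * x ^ n) (∏ P ∈ s, (1 - x ^ P.natDegree)⁻¹) := by
  induction s using Finset.induction_on with
  | empty =>
    simp only [Finset.prod_empty]
    refine ⟨fun n => by rw [nn_one]; split_ifs <;> norm_num, fun x hx0 hx1 => ?_⟩
    have h := hasSum_single (f := fun n => nn (1 : K[X]) n * x ^ n) 0
      (fun n hn => by rw [nn_one, if_neg hn, zero_mul])
    rwa [nn_one, if_pos rfl, pow_zero, mul_one] at h
  | insert P s hPs ih =>
    have hP := hs P (Finset.mem_insert_self _ _)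
    have hs' := fun Q hQ => hs Q (Finset.mem_insert_of_mem hQ)
    obtain ⟨h0, h1⟩ := ih hs'
    have hc : IsCoprime P (∏ Q ∈ s, Q) := by
      refine IsCoprime.prod_right fun Q hQ => ?_
      rw [hP.2.coprime_iff_not_dvd]
      intro h
      have h2 := hs' Q hQ
      have h3 : P = Q := eq_of_monic_of_associated hP.1 h2.1
        ((hP.2.dvd_irreducible_iff_associated h2.2).1 h)
      exact hPs (h3 ▸ hQ)
    rw [Finset.prod_insert hPs]
    refine ⟨b_nonneg hP.2.natDegree_pos (nn_mul hP.1 hP.2 hc) h0, fun x hx0 hx1 => ?_⟩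
    rw [Finset.prod_insert hPs]
    exact b_hasSum hP.2.natDegree_pos (nn_mul hP.1 hP.2 hc) h0 hx0 hx1 (h1 x hx0 hx1)

theorem partial_sum (r : K[X]) (ρ : ℝ) (N : ℕ) :
    ∑ i ∈ Finset.range (N + 1), (ρ + i) / (Fintype.card K : ℝ) ^ i * cc r i =
      (ρ + N) * (nn r N * ((Fintype.card K : ℝ)⁻¹) ^ N) -
        ∑ i ∈ Finset.range N, nn r i * ((Fintype.card K : ℝ)⁻¹) ^ i := by
  have hq : (Fintype.card K : ℝ) ≠ 0 := by
    have : 0 < Fintype.card K := Fintype.card_pos
    positivity
  induction N with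
  | zero =>
    rw [Finset.sum_range_one, Finset.sum_range_zero, nn_zero]
    simp
  | succ N ih =>
    rw [Finset.sum_range_succ, ih, Finset.sum_range_succ, nn_succ]
    push_cast
    rw [inv_pow, inv_pow, pow_succ]
    field_simp
    ring

theorem card_le (s : Finset K[X]) (hs : ∀ P ∈ s, P.Monic ∧ Irreducible P) (t D : ℕ) (hD : 1 ≤ D)
    (ht : ∑ P ∈ s, P.natDegree ≤ t) : (s.card : ℝ) ≤ ((PU K D).card : ℝ) + (t : ℝ) / D := by
  have h1 := Finset.card_filter_add_card_filter_not (s := s) (fun P => P.natDegree ≤ D)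
  have h2 : (s.filter (fun P => P.natDegree ≤ D)).card ≤ (PU K D).card := by
    apply Finset.card_le_card
    intro P hP
    rw [Finset.mem_filter] at hP
    rw [mem_PU]
    exact ⟨(hs P hP.1).1, (hs P hP.1).2, hP.2⟩
  have h3 : (s.filter (fun P => ¬ P.natDegree ≤ D)).card * D ≤ t := by
    calc (s.filter (fun P => ¬ P.natDegree ≤ D)).card * D ≤
        ∑ P ∈ s.filter (fun P => ¬ P.natDegree ≤ D), P.natDegree := by
          rw [← smul_eq_mul]
          apply Finset.card_nsmul_le_sum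
          intro P hP
          rw [Finset.mem_filter] at hP
          omega
      _ ≤ ∑ P ∈ s, P.natDegree := Finset.sum_le_sum_of_subset (Finset.filter_subset _ _)
      _ ≤ t := ht
  have hD0 : (0 : ℝ) < D := by exact_mod_cast hD
  have h4 : ((s.filter (fun P => ¬ P.natDegree ≤ D)).card : ℝ) ≤ (t : ℝ) / D := by
    rw [le_div_iff₀ hD0]
    exact_mod_cast h3
  have h5 : (s.card : ℝ) = ((s.filter (fun P => P.natDegree ≤ D)).card : ℝ) +
      ((s.filter (fun P => ¬ P.natDegree ≤ D)).card : ℝ) := by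
    rw [← h1]
    push_cast
    ring
  have h6 : ((s.filter (fun P => P.natDegree ≤ D)).card : ℝ) ≤ ((PU K D).card : ℝ) := by
    exact_mod_cast h2
  linarith

theorem lin {q z : ℝ} (hq : 2 ≤ q) (hz : 0 ≤ z) : z ≤ 2 * q ^ z := by
  have h1 : (2 : ℝ) ^ z ≤ q ^ z := Real.rpow_le_rpow (by norm_num) hq hz
  have h2 : (2 : ℝ) ^ z = Real.exp (Real.log 2 * z) := Real.rpow_def_of_pos (by norm_num) z
  have h3 := Real.add_one_le_exp (Real.log 2 * z)
  have h4 := Real.log_two_gt_d9
  nlinarith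

/-- the bound for a fixed `r` -/
theorem bound (s : Finset K[X]) (hs : ∀ P ∈ s, P.Monic ∧ Irreducible P) (ρ : ℝ) (hρ : 0 ≤ ρ)
    (N : ℕ) : |∑ i ∈ Finset.range (N + 1), (ρ + i) / (Fintype.card K : ℝ) ^ i *
        cc (∏ P ∈ s, P) i + ∏ P ∈ s, (1 - ((Fintype.card K : ℝ)⁻¹) ^ P.natDegree)⁻¹| ≤
      (ρ + N + 1) * (((Fintype.card K : ℝ) ^ (-(1 / 2) : ℝ)) ^ N * 4 ^ s.card) := by
  set q : ℝ := (Fintype.card K : ℝ) with hq
  have hq2 : 2 ≤ q := by
    rw [hq]
    exact_mod_cast (Fintype.one_lt_card (α := K))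
  have hq0 : 0 < q := by linarith
  set y : ℝ := q ^ (-(1 / 2) : ℝ) with hy
  have hy0 : 0 < y := Real.rpow_pos_of_pos hq0 _
  have hyx : y * y = q⁻¹ := by
    rw [hy, ← Real.rpow_add hq0]
    norm_num
    exact Real.rpow_neg_one q
  have hx : q⁻¹ ≤ 1 / 2 := by
    rw [inv_eq_one_div]
    exact one_div_le_one_div_of_le (by norm_num) hq2
  have hx0 : 0 < q⁻¹ := inv_pos.2 hq0
  have hy34 : y ≤ 3 / 4 := by nlinarith
  obtain ⟨h0, h1⟩ := main_series s hs
  set r : K[X] := ∏ P ∈ s, P with hr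
  have hX := h1 q⁻¹ hx0 (by linarith)
  have hY := h1 y hy0 (by linarith)
  set Pz : ℝ := ∏ P ∈ s, (1 - q⁻¹ ^ P.natDegree)⁻¹ with hPz
  set G : ℝ := ∏ P ∈ s, (1 - y ^ P.natDegree)⁻¹ with hG
  have hG4 : G ≤ 4 ^ s.card := by
    rw [hG, ← Finset.prod_const]
    apply Finset.prod_le_prod
    · intro P hP
      have h2 : y ^ P.natDegree ≤ 1 := pow_le_one₀ hy0.le (by linarith)
      exact inv_nonneg.2 (by linarith)
    · intro P hP
      have h2 : y ^ P.natDegree ≤ y := by
        have h3 := (hs P hP).2.natDegree_pos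
        calc y ^ P.natDegree ≤ y ^ 1 := pow_le_pow_of_le_one hy0.le (by linarith) h3
          _ = y := pow_one y
      rw [inv_le_comm₀ (by linarith) (by norm_num)]
      linarith
  have hN1 : nn r N * q⁻¹ ^ N ≤ y ^ N * G := by
    have h2 : nn r N * y ^ N ≤ G :=
      le_hasSum hY N fun n _ => mul_nonneg (h0 n) (pow_nonneg hy0.le n)
    have h3 : nn r N * q⁻¹ ^ N = y ^ N * (nn r N * y ^ N) := by
      rw [← hyx, mul_pow]
      ring
    rw [h3]
    exact mul_le_mul_of_nonneg_left h2 (pow_nonneg hy0.le N)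
  have hN0 : 0 ≤ nn r N * q⁻¹ ^ N := mul_nonneg (h0 N) (pow_nonneg hx0.le N)
  have htX := (hasSum_nat_add_iff' N).2 hX
  have htY := (hasSum_nat_add_iff' N).2 hY
  have hT1 : Pz - ∑ i ∈ Finset.range N, nn r i * q⁻¹ ^ i ≤ y ^ N * G := by
    have h2 : Pz - ∑ i ∈ Finset.range N, nn r i * q⁻¹ ^ i ≤
        y ^ N * (G - ∑ i ∈ Finset.range N, nn r i * y ^ i) := by
      refine hasSum_le ?_ htX (htY.mul_left (y ^ N))
      intro i
      have h3 : nn r (i + N) * q⁻¹ ^ (i + N) = y ^ (i + N) * (nn r (i + N) * y ^ (i + N)) := by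
        rw [← hyx, mul_pow]
        ring
      rw [h3]
      apply mul_le_mul_of_nonneg_right
      · exact pow_le_pow_of_le_one hy0.le (by linarith) (Nat.le_add_left N i)
      · exact mul_nonneg (h0 _) (pow_nonneg hy0.le _)
    have h4 : 0 ≤ ∑ i ∈ Finset.range N, nn r i * y ^ i :=
      Finset.sum_nonneg fun i _ => mul_nonneg (h0 i) (pow_nonneg hy0.le i)
    refine h2.trans (mul_le_mul_of_nonneg_left (by linarith) (pow_nonneg hy0.le N))
  have hT0 : 0 ≤ Pz - ∑ i ∈ Finset.range N, nn r i * q⁻¹ ^ i :=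
    htX.nonneg fun i => mul_nonneg (h0 _) (pow_nonneg hx0.le _)
  have hN : (0 : ℝ) ≤ N := Nat.cast_nonneg N
  rw [partial_sum r ρ N, ← hq]
  have h5 : (ρ + N) * (nn r N * q⁻¹ ^ N) - ∑ i ∈ Finset.range N, nn r i * q⁻¹ ^ i + Pz =
      (ρ + N) * (nn r N * q⁻¹ ^ N) + (Pz - ∑ i ∈ Finset.range N, nn r i * q⁻¹ ^ i) := by ring
  rw [h5, abs_of_nonneg (add_nonneg (mul_nonneg (by linarith) hN0) hT0)]
  have h6 : y ^ N * G ≤ y ^ N * 4 ^ s.card :=
    mul_le_mul_of_nonneg_left hG4 (pow_nonneg hy0.le N)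
  have h7 : (ρ + N) * (nn r N * q⁻¹ ^ N) ≤ (ρ + N) * (y ^ N * 4 ^ s.card) :=
    mul_le_mul_of_nonneg_left (hN1.trans h6) (by linarith)
  linarith

end fin

theorem main : S_q2 := by
  intro K _ _ ε hε
  set q : ℝ := (Fintype.card K : ℝ) with hq
  have hq2 : 2 ≤ q := by
    rw [hq]
    exact_mod_cast (Fintype.one_lt_card (α := K))
  have hq0 : 0 < q := by linarith
  have hq1 : 1 ≤ q := by linarith
  obtain ⟨D, hD1, hD⟩ : ∃ D : ℕ, 1 ≤ D ∧ 4 / ε ≤ D := by
    refine ⟨max 1 ⌈4 / ε⌉₊, le_max_left _ _, ?_⟩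
    exact (Nat.le_ceil _).trans (by exact_mod_cast le_max_right _ _)
  set M := (PU K D).card with hM
  refine ⟨4 ^ M * (4 / ε + 9), by positivity, ?_⟩
  intro r t N hrm hrs hrt
  -- the primes dividing `r`
  set s : Finset K[X] := (UniqueFactorizationMonoid.normalizedFactors r).toFinset with hs
  have hnd : (UniqueFactorizationMonoid.normalizedFactors r).Nodup :=
    (UniqueFactorizationMonoid.squarefree_iff_nodup_normalizedFactors hrm.ne_zero).1 hrs
  have hmem : ∀ P, P ∈ s ↔ P.Monic ∧ Irreducible P ∧ P ∣ r := by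
    intro P
    rw [hs, Multiset.mem_toFinset, UniqueFactorizationMonoid.mem_normalizedFactors_iff' hrm.ne_zero]
    constructor
    · rintro ⟨a, b, c⟩
      have hm : P.Monic := by
        rw [← b]
        exact monic_normalize a.ne_zero
      exact ⟨hm, a, c⟩
    · rintro ⟨a, b, c⟩
      exact ⟨b, a.normalize_eq_self, c⟩
  have hsP : ∀ P ∈ s, P.Monic ∧ Irreducible P := fun P hP => ⟨((hmem P).1 hP).1, ((hmem P).1 hP).2.1⟩
  have hprod : ∏ P ∈ s, P = r := by
    have e1 : ∏ P ∈ s, P = (UniqueFactorizationMonoid.normalizedFactors r).prod := by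
      rw [hs, Finset.prod, Multiset.toFinset_val, Multiset.dedup_eq_self.2 hnd, Multiset.map_id']
    have e3 : (∏ P ∈ s, P).Monic := monic_prod_of_monic _ _ fun P hP => (hsP P hP).1
    refine eq_of_monic_of_associated e3 hrm ?_
    rw [e1]
    exact UniqueFactorizationMonoid.prod_normalizedFactors hrm.ne_zero
  have hdeg : ∑ P ∈ s, P.natDegree ≤ t := by
    rw [← natDegree_prod_of_monic _ _ fun P hP => (hsP P hP).1, hprod]
    exact hrt
  have hPi : PiM r = ∏ P ∈ s, (1 - q⁻¹ ^ P.natDegree) := by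
    rw [PiM]
    have h1 : PA r = (s : Set K[X]) := by
      ext P
      rw [Finset.mem_coe, hmem P]
      rfl
    rw [h1, finprod_mem_coe_finset]
    refine Finset.prod_congr rfl fun P _ => ?_
    rw [inv_pow, one_div]
  have hb := bound s hsP (r.natDegree : ℝ) (Nat.cast_nonneg _) N
  rw [hprod, ← hq] at hb
  have h1 : 1 / PiM r = ∏ P ∈ s, (1 - q⁻¹ ^ P.natDegree)⁻¹ := by
    rw [hPi, one_div, Finset.prod_inv_distrib]
  rw [h1]
  refine hb.trans ?_
  -- the number of the primes
  have hc := card_le s hsP t D hD1 hdeg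
  have hD0 : (0 : ℝ) < D := by exact_mod_cast hD1
  have ht0 : (0 : ℝ) ≤ t := Nat.cast_nonneg t
  have hN0 : (0 : ℝ) ≤ N := Nat.cast_nonneg N
  have h4 : (4 : ℝ) ^ s.card ≤ 4 ^ M * q ^ (ε * t / 2) := by
    have e1 : (4 : ℝ) ^ s.card ≤ (4 : ℝ) ^ ((M : ℝ) + ε * t / 4) := by
      rw [← Real.rpow_natCast]
      apply Real.rpow_le_rpow_of_exponent_le (by norm_num)
      refine hc.trans ?_
      have e2 : (t : ℝ) / D ≤ ε * t / 4 := by
        rw [div_le_iff₀ hD0]
        rw [div_le_iff₀ hε] at hD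
        nlinarith
      rw [hM]
      linarith
    rw [Real.rpow_add (by norm_num), Real.rpow_natCast] at e1
    refine e1.trans (mul_le_mul_of_nonneg_left ?_ (by positivity))
    have e3 : (4 : ℝ) ^ (ε * t / 4) = 2 ^ (ε * t / 2) := by
      rw [show (4 : ℝ) = 2 ^ (2 : ℝ) by norm_num, ← Real.rpow_mul (by norm_num)]
      congr 1
      ring
    rw [show ε * (t : ℝ) / 4 = ε * t / 4 from rfl, e3]
    exact Real.rpow_le_rpow (by norm_num) hq2 (by positivity)
  have h5 : (q ^ (-(1 / 2) : ℝ)) ^ N = q ^ (-(N : ℝ) / 2) := by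
    rw [← Real.rpow_natCast, ← Real.rpow_mul hq0.le]
    congr 1
    ring
  have h6 : (r.natDegree : ℝ) + N + 1 ≤ (4 / ε + 9) * q ^ (ε * t / 2 + N / 4) := by
    have e1 : (r.natDegree : ℝ) ≤ t := by exact_mod_cast hrt
    have e2 : (t : ℝ) ≤ 4 / ε * q ^ (ε * t / 2) := by
      have e3 := lin hq2 (z := ε * t / 2) (by positivity)
      have e4 : (t : ℝ) = 2 / ε * (ε * t / 2) := by field_simp
      calc (t : ℝ) = 2 / ε * (ε * t / 2) := e4
        _ ≤ 2 / ε * (2 * q ^ (ε * t / 2)) := mul_le_mul_of_nonneg_left e3 (by positivity)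
        _ = 4 / ε * q ^ (ε * t / 2) := by ring
    have e5 : (N : ℝ) ≤ 8 * q ^ ((N : ℝ) / 4) := by
      have e3 := lin hq2 (z := (N : ℝ) / 4) (by positivity)
      linarith
    have e6 : 1 ≤ q ^ (ε * t / 2) := Real.one_le_rpow hq1 (by positivity)
    have e7 : 1 ≤ q ^ ((N : ℝ) / 4) := Real.one_le_rpow hq1 (by positivity)
    rw [Real.rpow_add hq0]
    have e8 : 0 < 4 / ε := by positivity
    have e9 : q ^ (ε * t / 2) ≤ q ^ (ε * t / 2) * q ^ ((N : ℝ) / 4) :=
      le_mul_of_one_le_right (by positivity) e7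
    have e10 : q ^ ((N : ℝ) / 4) ≤ q ^ (ε * t / 2) * q ^ ((N : ℝ) / 4) :=
      le_mul_of_one_le_left (by positivity) e6
    have e11 : 4 / ε * q ^ (ε * t / 2) ≤ 4 / ε * (q ^ (ε * t / 2) * q ^ ((N : ℝ) / 4)) :=
      mul_le_mul_of_nonneg_left e9 e8.le
    linarith
  have h7 : (0 : ℝ) ≤ q ^ (-(N : ℝ) / 2) := (Real.rpow_pos_of_pos hq0 _).le
  rw [h5]
  calc ((r.natDegree : ℝ) + N + 1) * (q ^ (-(N : ℝ) / 2) * 4 ^ s.card) ≤
      ((4 / ε + 9) * q ^ (ε * t / 2 + N / 4)) *
        (q ^ (-(N : ℝ) / 2) * (4 ^ M * q ^ (ε * t / 2))) := by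
        apply mul_le_mul h6 (mul_le_mul_of_nonneg_left h4 h7) (by positivity) (by positivity)
    _ = 4 ^ M * (4 / ε + 9) * (q ^ (ε * t / 2 + N / 4) * q ^ (-(N : ℝ) / 2) *
        q ^ (ε * t / 2)) := by ring
    _ = 4 ^ M * (4 / ε + 9) * q ^ (ε * t - N / 4) := by
        rw [← Real.rpow_add hq0, ← Real.rpow_add hq0]
        congr 2
        ring

end Pool.Agent.H290.FX.PQ2
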