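import Pool.Agent.H290.FX.StmQ

/-!
# Task Q3 (written by helper51): exponential sums over the irreducible polynomials
-/

set_option autoImplicit false

namespace Pool.Agent.H290.FX.PQ3

open Polynomial
open scoped Classical
open Pool.Agent.H290.FX
open Pool.Agent.H985.Chow (mob)
open Pool.Agent.H985.KP (sg PA)
open Pool.Agent.H694.Typ (Mn PU mem_Mn q_ge card_Mn)
open Pool.Agent.H604.LD (PiM)

section mobs

variable {K : Type} [Field K]

theorem mob_eq (F : K[X]) : mob F = if Squarefree F then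
    (-1) ^ Multiset.card (UniqueFactorizationMonoid.factors F) else 0 := rfl

theorem mob_of_not {F : K[X]} (h : ¬ Squarefree F) : mob F = 0 := by
  rw [mob_eq, if_neg h]

theorem mob_mul_cop {F G : K[X]} (h : IsCoprime F G) : mob (F * G) = mob F * mob G := by
  by_cases hF : Squarefree F
  · by_cases hG : Squarefree G
    · have hFG : Squarefree (F * G) := squarefree_mul_iff.2 ⟨h.isRelPrime, hF, hG⟩
      rw [mob_eq, mob_eq, mob_eq, if_pos hF, if_pos hG, if_pos hFG, ← pow_add]
      congr 1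
      rw [Multiset.card_eq_card_of_rel (UniqueFactorizationMonoid.factors_mul hF.ne_zero hG.ne_zero),
        Multiset.card_add]
    · rw [mob_of_not hG, mob_of_not, mul_zero]
      exact fun h' => hG (squarefree_mul_iff.1 h').2.2
  · rw [mob_of_not hF, mob_of_not, zero_mul]
    exact fun h' => hF (squarefree_mul_iff.1 h').2.1

theorem mob_mul_ncop {F G : K[X]} (h : ¬ IsCoprime F G) : mob (F * G) = 0 := by
  apply mob_of_not
  intro h'
  exact h (squarefree_mul_iff.1 h').1.isCoprime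

theorem mob_abs (f : K[X]) : |(mob f : ℝ)| ≤ 1 := by
  unfold mob
  split_ifs
  · rw [Int.cast_pow, abs_pow]
    simp
  · simp

theorem chi_abs [CharP K 2] (χ : AddChar K[X] ℝ) (a : K[X]) : |χ a| = 1 := by
  rcases chi_pm χ a with h | h <;> rw [h] <;> norm_num

end mobs

section sums

variable {K : Type} [Field K] [Fintype K]

/-- the sum over the multiples -/
theorem sum_mult {d j : ℕ} (hj : j ≤ d) {D : K[X]} (hD : D ∈ Mn K j) (f : K[X] → ℝ) :
    ∑ A ∈ (Mn K d).filter (fun A => D ∣ A), f A = ∑ s ∈ Mn K (d - j), f (D * s) := by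
  rw [mem_Mn] at hD
  symm
  refine Finset.sum_nbij (fun s => D * s) ?_ ?_ ?_ ?_
  · intro s hs
    rw [mem_Mn] at hs
    rw [Finset.mem_filter, mem_Mn]
    refine ⟨⟨hD.1.mul hs.1, ?_⟩, dvd_mul_right _ _⟩
    rw [hD.1.natDegree_mul hs.1, hs.2, hD.2]
    omega
  · intro s _ s' _ hss
    exact mul_left_cancel₀ hD.1.ne_zero hss
  · intro A hA
    rw [Finset.mem_coe, Finset.mem_filter, mem_Mn] at hA
    obtain ⟨⟨h1, h2⟩, s, hs⟩ := hA
    have h3 : s.Monic := by
      rw [hs] at h1
      exact hD.1.of_mul_monic_left h1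
    refine ⟨s, ?_, hs.symm⟩
    rw [Finset.mem_coe, mem_Mn]
    refine ⟨h3, ?_⟩
    rw [hs, hD.1.natDegree_mul h3, hD.2] at h2
    omega
  · intro s _
    rfl

/-- the sum over the divisors of degree `j` -/
noncomputable def Fj (K : Type) [Field K] [Fintype K] (d j : ℕ) (χ : AddChar K[X] ℝ) : ℝ :=
  ∑ D ∈ Mn K j, (mob D : ℝ) * ∑ s ∈ Mn K (d - j), χ (D * s)

theorem switch {d j : ℕ} (hj : j ≤ d) (χ : AddChar K[X] ℝ) :
    ∑ A ∈ Mn K d, χ A * ∑ D ∈ (Mn K j).filter (fun D => D ∣ A), (mob D : ℝ) = Fj K d j χ := by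
  unfold Fj
  have h1 : ∀ A : K[X], χ A * ∑ D ∈ (Mn K j).filter (fun D => D ∣ A), (mob D : ℝ) =
      ∑ D ∈ Mn K j, if D ∣ A then (mob D : ℝ) * χ A else 0 := by
    intro A
    rw [Finset.sum_filter, Finset.mul_sum]
    refine Finset.sum_congr rfl fun D _ => ?_
    split_ifs
    · ring
    · rw [mul_zero]
  rw [Finset.sum_congr rfl fun A _ => h1 A, Finset.sum_comm]
  refine Finset.sum_congr rfl fun D hD => ?_
  rw [← Finset.sum_filter, ← Finset.mul_sum, sum_mult hj hD]

/-- orthogonality -/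
theorem ortho {d j : ℕ} (hj : j ≤ d) {D : K[X]} (hD : D ∈ Mn K j) (χ : AddChar K[X] ℝ) :
    ∑ s ∈ Mn K (d - j), χ (D * s) =
      if Per d χ D then (Fintype.card K : ℝ) ^ (d - j) * χ (D * X ^ (d - j)) else 0 := by
  rw [mem_Mn] at hD
  have hdeg : ∀ s : K[X], s.degree < ((d - j : ℕ) : WithBot ℕ) → (D * s).degree < (d : WithBot ℕ) := by
    intro s hs
    rcases eq_or_ne s 0 with rfl | h0
    · rw [mul_zero, degree_zero]
      exact WithBot.bot_lt_coe d
    · rw [degree_eq_natDegree h0] at hs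
      rw [degree_eq_natDegree (mul_ne_zero hD.1.ne_zero h0), natDegree_mul hD.1.ne_zero h0, hD.2]
      have : s.natDegree < d - j := by exact_mod_cast hs
      exact_mod_cast (by omega : j + s.natDegree < d)
  have hdeg' : ∀ s : K[X], (D * s).degree < (d : WithBot ℕ) → s.degree < ((d - j : ℕ) : WithBot ℕ) := by
    intro s hs
    rcases eq_or_ne s 0 with rfl | h0
    · rw [degree_zero]
      exact WithBot.bot_lt_coe _
    · rw [degree_eq_natDegree (mul_ne_zero hD.1.ne_zero h0), natDegree_mul hD.1.ne_zero h0, hD.2] at hs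
      rw [degree_eq_natDegree h0]
      have : j + s.natDegree < d := by exact_mod_cast hs
      exact_mod_cast (by omega : s.natDegree < d - j)
  split_ifs with hP
  · have h1 : ∀ s ∈ Mn K (d - j), χ (D * s) = χ (D * X ^ (d - j)) := by
      intro s hs
      rw [mem_Mn] at hs
      have h2 : (s - X ^ (d - j)).degree < ((d - j : ℕ) : WithBot ℕ) := by
        have := degree_sub_lt_left (p := s) (q := X ^ (d - j))
          (by rw [degree_eq_natDegree hs.1.ne_zero, hs.2, degree_X_pow]) hs.1.ne_zero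
          (by rw [hs.1.leadingCoeff, (monic_X_pow _).leadingCoeff])
        rwa [degree_eq_natDegree hs.1.ne_zero, hs.2] at this
      have h3 := hP _ (hdeg _ h2)
      have h4 : D * s = D * (s - X ^ (d - j)) + D * X ^ (d - j) := by ring
      rw [h4, χ.map_add_eq_mul, h3, one_mul]
    rw [Finset.sum_congr rfl h1, Finset.sum_const, card_Mn, nsmul_eq_mul]
    push_cast
    ring
  · unfold Per at hP
    push Not at hP
    obtain ⟨s₀, hs₀, hne⟩ := hP
    have hs₀' := hdeg' s₀ hs₀
    have hmem : ∀ (w : K[X]), w.degree < ((d - j : ℕ) : WithBot ℕ) → ∀ a ∈ Mn K (d - j),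
        a + w ∈ Mn K (d - j) := by
      intro w hw a ha
      rw [mem_Mn] at ha ⊢
      have h5 : w.degree < a.degree := by rw [degree_eq_natDegree ha.1.ne_zero, ha.2]; exact hw
      refine ⟨ha.1.add_of_left h5, ?_⟩
      rw [natDegree_eq_of_degree_eq (degree_add_eq_left_of_degree_lt h5), ha.2]
    have h6 : ∑ s ∈ Mn K (d - j), χ (D * s) = ∑ s ∈ Mn K (d - j), χ (D * (s + s₀)) := by
      symm
      refine Finset.sum_nbij' (fun s => s + s₀) (fun s => s + -s₀) (hmem s₀ hs₀')
        (hmem (-s₀) (by rwa [degree_neg])) ?_ ?_ ?_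
      · intro a _; ring
      · intro a _; ring
      · intro a _; rfl
    have h7 : ∑ s ∈ Mn K (d - j), χ (D * (s + s₀)) = χ (D * s₀) * ∑ s ∈ Mn K (d - j), χ (D * s) := by
      rw [Finset.mul_sum]
      refine Finset.sum_congr rfl fun s _ => ?_
      rw [mul_add, χ.map_add_eq_mul]
      ring
    rw [h7] at h6
    have h8 : (1 - χ (D * s₀)) * ∑ s ∈ Mn K (d - j), χ (D * s) = 0 := by linarith
    rcases mul_eq_zero.1 h8 with h | h
    · exact absurd (by linarith) hne
    · exact h

theorem Fj_small {d j : ℕ} (hj : j ≤ d) (χ : AddChar K[X] ℝ) :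
    Fj K d j χ = ∑ D ∈ (Mn K j).filter (fun D => Per d χ D),
      (mob D : ℝ) * ((Fintype.card K : ℝ) ^ (d - j) * χ (D * X ^ (d - j))) := by
  unfold Fj
  rw [Finset.sum_filter]
  refine Finset.sum_congr rfl fun D hD => ?_
  rw [ortho hj hD]
  split_ifs
  · rfl
  · rw [mul_zero]

omit [Fintype K] in
/-- the prime powers -/
theorem vM_cases {A : K[X]} : vM A = 0 ∨ ∃ (P : K[X]) (j : ℕ), P.Monic ∧ Irreducible P ∧
    1 ≤ j ∧ A = P ^ j ∧ vM A = P.natDegree := by
  unfold vM
  rcases Set.eq_empty_or_nonempty {P : K[X] | P.Monic ∧ Irreducible P ∧ ∃ j : ℕ, 1 ≤ j ∧ A = P ^ j}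
    with h | ⟨P, h1, h2, j, hj, hA'⟩
  · left
    rw [h, finsum_mem_empty]
  · right
    refine ⟨P, j, h1, h2, hj, hA', ?_⟩
    have h3 : {P : K[X] | P.Monic ∧ Irreducible P ∧ ∃ j : ℕ, 1 ≤ j ∧ A = P ^ j} = {P} := by
      apply Set.Subset.antisymm
      · rintro Q ⟨hQ1, hQ2, k, hk, hA''⟩
        rw [Set.mem_singleton_iff]
        have h4 : Q ∣ P := by
          refine hQ2.prime.dvd_of_dvd_pow (n := j) ?_
          rw [← hA', hA'']
          exact dvd_pow_self _ (by omega)
        exact eq_of_monic_of_associated hQ1 h1 (hQ2.associated_of_dvd h2 h4)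
      · rintro Q rfl
        exact ⟨h1, h2, j, hj, hA'⟩
    rw [h3, finsum_mem_singleton]

omit [Fintype K] in
theorem vM_irr {A : K[X]} (hA : A.Monic) (hi : Irreducible A) : vM A = A.natDegree := by
  unfold vM
  have h3 : {P : K[X] | P.Monic ∧ Irreducible P ∧ ∃ j : ℕ, 1 ≤ j ∧ A = P ^ j} = {A} := by
    apply Set.Subset.antisymm
    · rintro Q ⟨hQ1, hQ2, k, hk, hA''⟩
      rw [Set.mem_singleton_iff]
      have h4 : Q ∣ A := by
        rw [hA'']
        exact dvd_pow_self _ (by omega)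
      exact eq_of_monic_of_associated hQ1 hA (hQ2.associated_of_dvd hi h4)
    · rintro Q rfl
      exact ⟨hA, hi, 1, le_rfl, (pow_one _).symm⟩
  rw [h3, finsum_mem_singleton]

theorem pow_bound {d : ℕ} (χ : AddChar K[X] ℝ) [CharP K 2] :
    |∑ A ∈ Mn K d, vM A * χ A - (d : ℝ) * SQ K d χ| ≤
      (d : ℝ) * (((d : ℝ) + 1) * (Fintype.card K : ℝ) ^ (d / 2)) := by
  have hq := q_ge (k := K)
  have h1 : ∑ A ∈ Mn K d, vM A * χ A - (d : ℝ) * SQ K d χ =
      ∑ A ∈ (Mn K d).filter (fun A => ¬ Irreducible A), vM A * χ A := by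
    rw [← Finset.sum_filter_add_sum_filter_not (Mn K d) (fun A => Irreducible A)]
    have h2 : ∑ A ∈ (Mn K d).filter (fun A => Irreducible A), vM A * χ A = (d : ℝ) * SQ K d χ := by
      unfold SQ
      rw [Finset.mul_sum]
      refine Finset.sum_congr rfl fun A hA => ?_
      rw [Finset.mem_filter, mem_Mn] at hA
      rw [vM_irr hA.1.1 hA.2, hA.1.2]
    rw [h2]
    ring
  rw [h1]
  set T : Finset K[X] := ((Finset.range (d / 2 + 1)).biUnion (Mn K)).image
    (fun P => P ^ (d / P.natDegree)) with hT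
  have hTc : (T.card : ℝ) ≤ ((d : ℝ) + 1) * (Fintype.card K : ℝ) ^ (d / 2) := by
    have h3 : T.card ≤ ∑ i ∈ Finset.range (d / 2 + 1), Fintype.card K ^ i := by
      refine Finset.card_image_le.trans (Finset.card_biUnion_le.trans (le_of_eq ?_))
      exact Finset.sum_congr rfl fun i _ => card_Mn i
    calc (T.card : ℝ) ≤ ∑ i ∈ Finset.range (d / 2 + 1), (Fintype.card K : ℝ) ^ i := by
          exact_mod_cast h3
      _ ≤ ∑ _i ∈ Finset.range (d / 2 + 1), (Fintype.card K : ℝ) ^ (d / 2) := by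
          refine Finset.sum_le_sum fun i hi => ?_
          rw [Finset.mem_range] at hi
          exact pow_le_pow_right₀ (by linarith) (by omega)
      _ = ((d / 2 + 1 : ℕ) : ℝ) * (Fintype.card K : ℝ) ^ (d / 2) := by
          rw [Finset.sum_const, Finset.card_range, nsmul_eq_mul]
      _ ≤ _ := by
          refine mul_le_mul_of_nonneg_right ?_ (by positivity)
          have : d / 2 + 1 ≤ d + 1 := by omega
          exact_mod_cast this
  calc |∑ A ∈ (Mn K d).filter (fun A => ¬ Irreducible A), vM A * χ A|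
      ≤ ∑ A ∈ (Mn K d).filter (fun A => ¬ Irreducible A), |vM A * χ A| :=
        Finset.abs_sum_le_sum_abs _ _
    _ ≤ ∑ A ∈ (Mn K d).filter (fun A => ¬ Irreducible A), (if A ∈ T then (d : ℝ) else 0) := by
        refine Finset.sum_le_sum fun A hA => ?_
        rw [Finset.mem_filter, mem_Mn] at hA
        rw [abs_mul, chi_abs, mul_one]
        rcases vM_cases (A := A) with h | ⟨P, j, hP1, hP2, hj, hAP, hv⟩
        · rw [h, abs_zero]
          split_ifs
          · positivity
          · exact le_rfl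
        · have hj2 : 2 ≤ j := by
            by_contra hlt
            have : j = 1 := by omega
            rw [this, pow_one] at hAP
            exact hA.2 (hAP ▸ hP2)
          have hdeg : d = j * P.natDegree := by
            rw [← hA.1.2, hAP, hP1.natDegree_pow]
          have hPpos : 1 ≤ P.natDegree := hP2.natDegree_pos
          have h5 : P.natDegree ≤ d / 2 := by
            rw [Nat.le_div_iff_mul_le (by norm_num)]
            rw [hdeg]
            nlinarith
          have h6 : d / P.natDegree = j := by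
            rw [hdeg, Nat.mul_div_cancel _ hPpos]
          have h7 : A ∈ T := by
            rw [hT, Finset.mem_image]
            refine ⟨P, ?_, ?_⟩
            · rw [Finset.mem_biUnion]
              exact ⟨P.natDegree, by rw [Finset.mem_range]; omega, mem_Mn.2 ⟨hP1, rfl⟩⟩
            · rw [h6, hAP]
          rw [if_pos h7, hv, abs_of_nonneg (by positivity)]
          have : P.natDegree ≤ d := by omega
          exact_mod_cast this
    _ ≤ (d : ℝ) * T.card := by
        rw [← Finset.sum_filter, Finset.sum_const, nsmul_eq_mul, mul_comm]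
        refine mul_le_mul_of_nonneg_left ?_ (by positivity)
        exact_mod_cast Finset.card_le_card (fun A hA => (Finset.mem_filter.1 hA).2)
    _ ≤ _ := mul_le_mul_of_nonneg_left hTc (by positivity)

/-- the large divisors -/
theorem Fj_large {c₁ : ℝ} {n₀ : ℕ} (h : ∀ (n : ℕ) (χ χ' : AddChar K[X] ℝ), n₀ ≤ n →
      |∑ A ∈ Mn K n, (mob A : ℝ) * χ (rt A) * χ' A| ≤ (Fintype.card K : ℝ) ^ ((1 - c₁) * n))
    {d j : ℕ} (hj : j ≤ d) (hn : n₀ ≤ j) (χ : AddChar K[X] ℝ) :
    |Fj K d j χ| ≤ (Fintype.card K : ℝ) ^ ((d : ℝ) - c₁ * j) := by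
  have hq := q_ge (k := K)
  have h1 : Fj K d j χ = ∑ s ∈ Mn K (d - j), ∑ D ∈ Mn K j, (mob D : ℝ) *
      (1 : AddChar K[X] ℝ) (rt D) * (χ.compAddMonoidHom (AddMonoidHom.mulRight s)) D := by
    unfold Fj
    simp_rw [Finset.mul_sum]
    rw [Finset.sum_comm]
    refine Finset.sum_congr rfl fun s _ => Finset.sum_congr rfl fun D _ => ?_
    rw [AddChar.one_apply, mul_one, AddChar.compAddMonoidHom_apply]
    rfl
  rw [h1]
  calc |∑ s ∈ Mn K (d - j), ∑ D ∈ Mn K j, (mob D : ℝ) *
      (1 : AddChar K[X] ℝ) (rt D) * (χ.compAddMonoidHom (AddMonoidHom.mulRight s)) D|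
      ≤ ∑ s ∈ Mn K (d - j), |∑ D ∈ Mn K j, (mob D : ℝ) *
      (1 : AddChar K[X] ℝ) (rt D) * (χ.compAddMonoidHom (AddMonoidHom.mulRight s)) D| :=
        Finset.abs_sum_le_sum_abs _ _
    _ ≤ ∑ _s ∈ Mn K (d - j), (Fintype.card K : ℝ) ^ ((1 - c₁) * j) :=
        Finset.sum_le_sum fun s _ => h j 1 _ hn
    _ = (Fintype.card K : ℝ) ^ ((d - j : ℕ) : ℝ) * (Fintype.card K : ℝ) ^ ((1 - c₁) * j) := by
        rw [Finset.sum_const, card_Mn, nsmul_eq_mul, Real.rpow_natCast]
        push_cast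
        rfl
    _ = (Fintype.card K : ℝ) ^ ((d : ℝ) - c₁ * j) := by
        rw [← Real.rpow_add (by linarith), Nat.cast_sub hj]
        congr 1
        ring

omit [Fintype K] in
theorem exists_MPer (d : ℕ) (χ : AddChar K[X] ℝ) : ∃ r : K[X], MPer d χ r := by
  have hex : ∃ n : ℕ, ∃ r : K[X], r.Monic ∧ r.natDegree = n ∧ Per d χ r := by
    refine ⟨d, X ^ d, monic_X_pow d, natDegree_X_pow d, ?_⟩
    intro s hs
    rcases eq_or_ne s 0 with rfl | h0
    · rw [mul_zero, χ.map_zero_eq_one]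
    · exfalso
      rw [degree_eq_natDegree (mul_ne_zero (pow_ne_zero _ X_ne_zero) h0),
        natDegree_mul (pow_ne_zero _ X_ne_zero) h0, natDegree_X_pow] at hs
      have : d + s.natDegree < d := by exact_mod_cast hs
      omega
  obtain ⟨r, h1, h2, h3⟩ := Nat.find_spec hex
  refine ⟨r, h1, h3, fun r' hr' hlt hp => ?_⟩
  rw [h2] at hlt
  exact Nat.find_min hex hlt ⟨r', hr', rfl, hp⟩

omit [Fintype K] in
theorem MPer_deg {d : ℕ} {χ : AddChar K[X] ℝ} {r r' : K[X]} (h : MPer d χ r) (h' : MPer d χ r') :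
    r.natDegree = r'.natDegree := by
  rcases lt_trichotomy r.natDegree r'.natDegree with hlt | he | hlt
  · exact absurd h.2.1 (h'.2.2 r h.1 hlt)
  · exact he
  · exact absurd h'.2.1 (h.2.2 r' h'.1 hlt)

/-- the divisors that are periods -/
theorem Fj_per [CharP K 2] (huniq : S_uniq) {d j : ℕ} {χ : AddChar K[X] ℝ} {r : K[X]} (hr : MPer d χ r)
    (hρ : r.natDegree ≤ j) (hj : r.natDegree + j ≤ d) :
    Fj K d j χ = χ (r * X ^ (d - r.natDegree)) * (mob r : ℝ) * ((Fintype.card K : ℝ) ^ (d - j) *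
      ∑ E ∈ (Mn K (j - r.natDegree)).filter (fun E => IsCoprime E r), (mob E : ℝ)) := by
  rw [Fj_small (by omega) χ]
  have h1 : (Mn K j).filter (fun D => Per d χ D) = (Mn K j).filter (fun D => r ∣ D) := by
    apply Finset.filter_congr
    intro D hD
    rw [mem_Mn] at hD
    constructor
    · intro hP
      exact huniq K d χ r D hr hD.1 hP (by omega)
    · rintro ⟨E, rfl⟩ s hs
      rw [mul_assoc] at hs ⊢
      exact hr.2.1 _ hs
  rw [h1, sum_mult hρ (mem_Mn.2 ⟨hr.1, rfl⟩)
    (fun D => (mob D : ℝ) * ((Fintype.card K : ℝ) ^ (d - j) * χ (D * X ^ (d - j)))), Finset.sum_filter,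
    Finset.mul_sum, Finset.mul_sum]
  refine Finset.sum_congr rfl fun E hE => ?_
  rw [mem_Mn] at hE
  have h2 : χ (r * E * X ^ (d - j)) = χ (r * X ^ (d - r.natDegree)) := by
    have hm : (E * X ^ (d - j)).Monic := hE.1.mul (monic_X_pow _)
    have hd : (E * X ^ (d - j)).natDegree = d - r.natDegree := by
      rw [hE.1.natDegree_mul (monic_X_pow _), natDegree_X_pow, hE.2]
      omega
    have h3 : (E * X ^ (d - j) - X ^ (d - r.natDegree)).degree < ((d - r.natDegree : ℕ) : WithBot ℕ) := by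
      have := degree_sub_lt_left (p := E * X ^ (d - j)) (q := X ^ (d - r.natDegree))
        (by rw [degree_eq_natDegree hm.ne_zero, hd, degree_X_pow]) hm.ne_zero
        (by rw [hm.leadingCoeff, (monic_X_pow _).leadingCoeff])
      rwa [degree_eq_natDegree hm.ne_zero, hd] at this
    have h4 : (r * (E * X ^ (d - j) - X ^ (d - r.natDegree))).degree < (d : WithBot ℕ) := by
      rcases eq_or_ne (E * X ^ (d - j) - X ^ (d - r.natDegree)) 0 with h0 | h0
      · rw [h0, mul_zero, degree_zero]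
        exact WithBot.bot_lt_coe d
      · rw [degree_eq_natDegree h0] at h3
        rw [degree_eq_natDegree (mul_ne_zero hr.1.ne_zero h0), natDegree_mul hr.1.ne_zero h0]
        have : (E * X ^ (d - j) - X ^ (d - r.natDegree)).natDegree < d - r.natDegree := by
          exact_mod_cast h3
        exact_mod_cast (by omega : r.natDegree +
          (E * X ^ (d - j) - X ^ (d - r.natDegree)).natDegree < d)
    have h5 := hr.2.1 _ h4
    have h6 : r * E * X ^ (d - j) = r * (E * X ^ (d - j) - X ^ (d - r.natDegree)) +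
        r * X ^ (d - r.natDegree) := by ring
    rw [h6, χ.map_add_eq_mul, h5, one_mul]
  rw [h2]
  split_ifs with hc
  · rw [mob_mul_cop hc.symm]
    push_cast
    ring
  · rw [mob_mul_ncop (fun h => hc h.symm)]
    push_cast
    ring

theorem Fj_zero [CharP K 2] {d j : ℕ} {χ : AddChar K[X] ℝ} {r : K[X]} (hr : MPer d χ r)
    (hρ : j < r.natDegree) (hj : j ≤ d) : Fj K d j χ = 0 := by
  rw [Fj_small hj χ]
  apply Finset.sum_eq_zero
  intro D hD
  rw [Finset.mem_filter, mem_Mn] at hD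
  exact absurd hD.2 (hr.2.2 D hD.1.1 (by omega))

/-- the sum in Q2 -/
noncomputable def Sg (K : Type) [Field K] [Fintype K] (r : K[X]) (N : ℕ) : ℝ :=
  ∑ i ∈ Finset.range (N + 1), ((r.natDegree : ℝ) + i) / (Fintype.card K : ℝ) ^ i *
          ∑ E ∈ (Mn K i).filter (fun E => IsCoprime E r), (mob E : ℝ)

theorem S1_eq [CharP K 2] (huniq : S_uniq) {d J : ℕ} {χ : AddChar K[X] ℝ} {r : K[X]} (hr : MPer d χ r)
    (hρ : r.natDegree ≤ J) (hJ : 2 * J ≤ d) :
    ∑ j ∈ Finset.range (J + 1), (j : ℝ) * Fj K d j χ =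
      χ (r * X ^ (d - r.natDegree)) * (mob r : ℝ) * ((Fintype.card K : ℝ) ^ (d - r.natDegree) *
        Sg K r (J - r.natDegree)) := by
  have hq := q_ge (k := K)
  rw [show J + 1 = r.natDegree + (J - r.natDegree + 1) by omega, Finset.sum_range_add]
  have h1 : ∑ j ∈ Finset.range r.natDegree, (j : ℝ) * Fj K d j χ = 0 := by
    apply Finset.sum_eq_zero
    intro j hj
    rw [Finset.mem_range] at hj
    rw [Fj_zero hr hj (by omega), mul_zero]
  rw [h1, zero_add]
  unfold Sg
  rw [Finset.mul_sum, Finset.mul_sum]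
  refine Finset.sum_congr rfl fun i hi => ?_
  rw [Finset.mem_range] at hi
  rw [Fj_per huniq hr (by omega) (by omega), Nat.add_sub_cancel_left]
  have h2 : (Fintype.card K : ℝ) ^ (d - (r.natDegree + i)) =
      (Fintype.card K : ℝ) ^ (d - r.natDegree) / (Fintype.card K : ℝ) ^ i := by
    rw [eq_div_iff (by positivity), ← pow_add]
    congr 1
    omega
  rw [h2]
  push_cast
  ring

theorem Sg_le (r : K[X]) (N d : ℕ) (h : r.natDegree + N ≤ d) : |Sg K r N| ≤ ((d : ℝ) + 1) ^ 2 := by
  have hq := q_ge (k := K)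
  unfold Sg
  calc |∑ i ∈ Finset.range (N + 1), ((r.natDegree : ℝ) + i) / (Fintype.card K : ℝ) ^ i *
          ∑ E ∈ (Mn K i).filter (fun E => IsCoprime E r), (mob E : ℝ)|
      ≤ ∑ i ∈ Finset.range (N + 1), |((r.natDegree : ℝ) + i) / (Fintype.card K : ℝ) ^ i *
          ∑ E ∈ (Mn K i).filter (fun E => IsCoprime E r), (mob E : ℝ)| := Finset.abs_sum_le_sum_abs _ _
    _ ≤ ∑ _i ∈ Finset.range (N + 1), ((d : ℝ) + 1) := by
        refine Finset.sum_le_sum fun i hi => ?_
        rw [Finset.mem_range] at hi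
        have hp : (0 : ℝ) < (Fintype.card K : ℝ) ^ i := by positivity
        have h1 : |∑ E ∈ (Mn K i).filter (fun E => IsCoprime E r), (mob E : ℝ)| ≤
            (Fintype.card K : ℝ) ^ i := by
          calc |∑ E ∈ (Mn K i).filter (fun E => IsCoprime E r), (mob E : ℝ)|
              ≤ ∑ E ∈ (Mn K i).filter (fun E => IsCoprime E r), |(mob E : ℝ)| :=
                Finset.abs_sum_le_sum_abs _ _
            _ ≤ ∑ E ∈ (Mn K i).filter (fun E => IsCoprime E r), (1 : ℝ) :=
                Finset.sum_le_sum fun E _ => mob_abs E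
            _ = (((Mn K i).filter (fun E => IsCoprime E r)).card : ℝ) := by
                rw [Finset.sum_const, nsmul_eq_mul, mul_one]
            _ ≤ ((Mn K i).card : ℝ) := by exact_mod_cast Finset.card_filter_le _ _
            _ = _ := by rw [card_Mn]; push_cast; rfl
        rw [abs_mul, abs_of_nonneg (by positivity : (0 : ℝ) ≤ ((r.natDegree : ℝ) + i) /
          (Fintype.card K : ℝ) ^ i)]
        calc ((r.natDegree : ℝ) + i) / (Fintype.card K : ℝ) ^ i *
              |∑ E ∈ (Mn K i).filter (fun E => IsCoprime E r), (mob E : ℝ)|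
            ≤ ((r.natDegree : ℝ) + i) / (Fintype.card K : ℝ) ^ i * (Fintype.card K : ℝ) ^ i := by
              gcongr
          _ = (r.natDegree : ℝ) + i := by field_simp
          _ ≤ (d : ℝ) + 1 := by
              have : r.natDegree + i ≤ d + 1 := by omega
              exact_mod_cast this
    _ = ((N + 1 : ℕ) : ℝ) * ((d : ℝ) + 1) := by
        rw [Finset.sum_const, Finset.card_range, nsmul_eq_mul]
    _ ≤ ((d : ℝ) + 1) * ((d : ℝ) + 1) := by
        refine mul_le_mul_of_nonneg_right ?_ (by positivity)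
        have : N + 1 ≤ d + 1 := by omega
        exact_mod_cast this
    _ = _ := by ring

theorem mem_Sq {t : ℕ} {r : K[X]} : r ∈ Sq K t ↔ r.Monic ∧ r.natDegree ≤ t ∧ Squarefree r := by
  unfold Sq
  rw [Finset.mem_filter, Finset.mem_biUnion]
  constructor
  · rintro ⟨⟨n, hn, hr⟩, hs⟩
    rw [Finset.mem_range] at hn
    rw [mem_Mn] at hr
    exact ⟨hr.1, by omega, hs⟩
  · rintro ⟨h1, h2, h3⟩
    exact ⟨⟨r.natDegree, by rw [Finset.mem_range]; omega, mem_Mn.2 ⟨h1, rfl⟩⟩, h3⟩

theorem MQ_far {d t : ℕ} {χ : AddChar K[X] ℝ} {r : K[X]} (hr : MPer d χ r) (ht : t < r.natDegree) :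
    MQ K d t χ = 0 := by
  unfold MQ
  apply Finset.sum_eq_zero
  intro r' hr'
  rw [Finset.mem_filter, mem_Sq] at hr'
  have := MPer_deg hr hr'.2
  omega

omit [Fintype K] in
theorem uniq' [CharP K 2] (huniq : S_uniq) {d t : ℕ} {χ : AddChar K[X] ℝ} {r r' : K[X]}
    (hr : MPer d χ r) (ht : r.natDegree ≤ t) (htd : 2 * t ≤ d) (hr' : MPer d χ r') : r' = r := by
  have h1 := MPer_deg hr hr'
  have h2 := huniq K d χ r r' hr hr'.1 hr'.2.1 (by omega)
  exact (eq_of_monic_of_associated hr'.1 hr.1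
    (associated_of_dvd_dvd (huniq K d χ r' r hr' hr.1 hr.2.1 (by omega)) h2))

theorem MQ_near [CharP K 2] (huniq : S_uniq) {d t : ℕ} {χ : AddChar K[X] ℝ} {r : K[X]}
    (hr : MPer d χ r) (ht : r.natDegree ≤ t) (htd : 2 * t ≤ d) (hs : Squarefree r) :
    MQ K d t χ = (mob r : ℝ) * χ (r * X ^ (d - r.natDegree)) *
      ((Fintype.card K : ℝ) ^ (d - r.natDegree) / PiM r) := by
  unfold MQ
  have h1 : (Sq K t).filter (fun r => MPer d χ r) = {r} := by
    ext r'
    rw [Finset.mem_filter, mem_Sq, Finset.mem_singleton]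
    constructor
    · rintro ⟨-, h⟩
      exact uniq' huniq hr ht htd h
    · rintro rfl
      exact ⟨⟨hr.1, ht, hs⟩, hr⟩
  rw [h1, Finset.sum_singleton]

theorem MQ_nsq [CharP K 2] (huniq : S_uniq) {d t : ℕ} {χ : AddChar K[X] ℝ} {r : K[X]}
    (hr : MPer d χ r) (ht : r.natDegree ≤ t) (htd : 2 * t ≤ d) (hs : ¬ Squarefree r) :
    MQ K d t χ = 0 := by
  unfold MQ
  apply Finset.sum_eq_zero
  intro r' hr'
  rw [Finset.mem_filter, mem_Sq] at hr'
  have := uniq' huniq hr ht htd hr'.2
  rw [this] at hr'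
  exact absurd hr'.1.2.2 hs

end sums

/-- growth -/
theorem growth {q : ℝ} (hq : 2 ≤ q) (M : ℝ) {a : ℝ} (ha : 0 < a) :
    ∃ d₁ : ℕ, ∀ d : ℕ, d₁ ≤ d → M * ((d : ℝ) + 1) ^ 2 ≤ q ^ (a * d) := by
  have hb : 1 < q ^ a := Real.one_lt_rpow (by linarith) ha
  have h1 := tendsto_pow_const_div_const_pow_of_one_lt 2 hb
  have h2 := ((Filter.tendsto_add_atTop_iff_nat 1).2 h1).const_mul (M * q ^ a)
  rw [mul_zero] at h2
  have h3 := h2.eventually (eventually_le_nhds (show (0 : ℝ) < 1 by norm_num))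
  obtain ⟨d₁, hd₁⟩ := Filter.eventually_atTop.1 h3
  refine ⟨d₁, fun d hd => ?_⟩
  have h4 := hd₁ d hd
  have hp : 0 < q ^ a := by positivity
  have h5 : q ^ (a * d) = (q ^ a) ^ d := by
    rw [Real.rpow_mul (by linarith), Real.rpow_natCast]
  rw [h5]
  have h6 : M * q ^ a * (((d + 1 : ℕ) : ℝ) ^ 2 / (q ^ a) ^ (d + 1)) =
      M * ((d : ℝ) + 1) ^ 2 / (q ^ a) ^ d := by
    rw [pow_succ]
    push_cast
    field_simp
    ring
  rw [h6, div_le_one (by positivity)] at h4
  exact h4

theorem main : S_tq3 := by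
  intro huniq hkey hq1 hq2 K _ _ _ θ hθ hθ4
  have hq := q_ge (k := K)
  obtain ⟨c₁, hc₁, n₀, hk⟩ := hkey K
  obtain ⟨C, hC, hQ2⟩ := hq2 K (1 / 8) (by norm_num)
  set q : ℝ := (Fintype.card K : ℝ) with hqdef
  have hq0 : 0 < q := by linarith
  have hq1' : 1 ≤ q := by linarith
  set c' : ℝ := min (1 / 2) (min (2 * θ * c₁) (θ / 8)) with hc'def
  have hc' : 0 < c' := by positivity
  have hc'1 : c' ≤ 1 / 2 := min_le_left _ _
  have hc'2 : c' ≤ 2 * θ * c₁ := (min_le_right _ _).trans (min_le_left _ _)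
  have hc'3 : c' ≤ θ / 8 := (min_le_right _ _).trans (min_le_right _ _)
  obtain ⟨d₁, hd₁⟩ := growth hq (3 + C * q) (half_pos hc')
  refine ⟨c' / 2, by positivity, max d₁ ⌈(n₀ : ℝ) / (2 * θ)⌉₊, fun d t χ hd ht => ?_⟩
  have hdd₁ : d₁ ≤ d := (le_max_left _ _).trans hd
  have hn₀ : (n₀ : ℝ) ≤ 2 * θ * d := by
    have h1 : ⌈(n₀ : ℝ) / (2 * θ)⌉₊ ≤ d := (le_max_right _ _).trans hd
    have h2 : (n₀ : ℝ) / (2 * θ) ≤ d := (Nat.le_ceil _).trans (by exact_mod_cast h1)
    rw [div_le_iff₀ (by positivity)] at h2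
    linarith
  have hd0 : (0 : ℝ) ≤ d := Nat.cast_nonneg d
  set J : ℕ := ⌊2 * θ * d⌋₊ with hJdef
  have hJ1 : (J : ℝ) ≤ 2 * θ * d := Nat.floor_le (by positivity)
  have hJ2 : 2 * θ * d < (J : ℝ) + 1 := Nat.lt_floor_add_one _
  have hJd : 2 * J ≤ d := by
    have : 2 * (J : ℝ) ≤ d := by nlinarith
    exact_mod_cast this
  have ht1 : (t : ℝ) ≤ θ * d := by rw [ht]; exact Nat.floor_le (by positivity)
  have ht2 : θ * d < (t : ℝ) + 1 := by rw [ht]; exact Nat.lt_floor_add_one _
  have htJ : t ≤ J := by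
    rw [ht, hJdef]
    exact Nat.floor_mono (by nlinarith)
  have htd : 2 * t ≤ d := by omega
  set Q : ℝ := q ^ ((1 - c') * (d : ℝ)) with hQdef
  have hQ0 : 0 < Q := by positivity
  have hD1 : (0 : ℝ) < ((d : ℝ) + 1) ^ 2 := by positivity
  have hD2 : (1 : ℝ) ≤ ((d : ℝ) + 1) ^ 2 := by nlinarith
  -- Q1
  have hsum : ∑ A ∈ Mn K d, vM A * χ A = - ∑ j ∈ Finset.range (d + 1), (j : ℝ) * Fj K d j χ := by
    have h1 : ∀ A ∈ Mn K d, vM A * χ A = - ∑ j ∈ Finset.range (d + 1), (j : ℝ) *
        (χ A * ∑ D ∈ (Mn K j).filter (fun D => D ∣ A), (mob D : ℝ)) := by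
      intro A hA
      rw [hq1 K d A hA, neg_mul, Finset.sum_mul]
      congr 1
      refine Finset.sum_congr rfl fun j _ => ?_
      ring
    rw [Finset.sum_congr rfl h1, Finset.sum_neg_distrib, Finset.sum_comm]
    congr 1
    refine Finset.sum_congr rfl fun j hj => ?_
    rw [Finset.mem_range] at hj
    rw [← Finset.mul_sum, switch (by omega) χ]
  have hsplit : ∑ j ∈ Finset.range (d + 1), (j : ℝ) * Fj K d j χ =
      ∑ j ∈ Finset.range (J + 1), (j : ℝ) * Fj K d j χ +
        ∑ j ∈ Finset.Ico (J + 1) (d + 1), (j : ℝ) * Fj K d j χ :=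
    (Finset.sum_range_add_sum_Ico _ (by omega)).symm
  -- the proper powers
  have e1 : |∑ A ∈ Mn K d, vM A * χ A - (d : ℝ) * SQ K d χ| ≤ ((d : ℝ) + 1) ^ 2 * Q := by
    refine (pow_bound χ).trans ?_
    have h1 : q ^ (d / 2) ≤ Q := by
      rw [hQdef, ← Real.rpow_natCast]
      refine Real.rpow_le_rpow_of_exponent_le hq1' ?_
      have h2 : ((d / 2 : ℕ) : ℝ) ≤ (d : ℝ) / 2 := by exact_mod_cast Nat.cast_div_le
      nlinarith
    calc (d : ℝ) * (((d : ℝ) + 1) * q ^ (d / 2)) ≤ ((d : ℝ) + 1) * (((d : ℝ) + 1) * Q) := by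
          gcongr
          linarith
      _ = _ := by ring
  -- the large divisors
  have e2 : |∑ j ∈ Finset.Ico (J + 1) (d + 1), (j : ℝ) * Fj K d j χ| ≤ ((d : ℝ) + 1) ^ 2 * Q := by
    calc |∑ j ∈ Finset.Ico (J + 1) (d + 1), (j : ℝ) * Fj K d j χ|
        ≤ ∑ j ∈ Finset.Ico (J + 1) (d + 1), |(j : ℝ) * Fj K d j χ| := Finset.abs_sum_le_sum_abs _ _
      _ ≤ ∑ _j ∈ Finset.Ico (J + 1) (d + 1), ((d : ℝ) + 1) * Q := by
          refine Finset.sum_le_sum fun j hj => ?_
          rw [Finset.mem_Ico] at hj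
          have hjJ : (J : ℝ) + 1 ≤ j := by exact_mod_cast hj.1
          have hjd : (j : ℝ) ≤ d := by exact_mod_cast (by omega : j ≤ d)
          have hnj : n₀ ≤ j := by
            have : (n₀ : ℝ) ≤ j := by linarith
            exact_mod_cast this
          have h3 := Fj_large hk (by omega : j ≤ d) hnj χ
          have h4 : q ^ ((d : ℝ) - c₁ * j) ≤ Q := by
            refine Real.rpow_le_rpow_of_exponent_le hq1' ?_
            have h5 : c' * d ≤ 2 * θ * c₁ * d := mul_le_mul_of_nonneg_right hc'2 hd0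
            have h6 : c₁ * (2 * θ * d) ≤ c₁ * j := mul_le_mul_of_nonneg_left (by linarith) hc₁.le
            nlinarith
          rw [abs_mul, abs_of_nonneg (Nat.cast_nonneg j)]
          exact mul_le_mul (by linarith) (h3.trans h4) (abs_nonneg _) (by linarith)
      _ = ((d + 1 - (J + 1) : ℕ) : ℝ) * (((d : ℝ) + 1) * Q) := by
          rw [Finset.sum_const, Nat.card_Ico, nsmul_eq_mul]
      _ ≤ ((d : ℝ) + 1) * (((d : ℝ) + 1) * Q) := by
          refine mul_le_mul_of_nonneg_right ?_ (by positivity)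
          have : d + 1 - (J + 1) ≤ d + 1 := by omega
          exact_mod_cast this
      _ = _ := by ring
  -- the main term
  have e3 : |∑ j ∈ Finset.range (J + 1), (j : ℝ) * Fj K d j χ + MQ K d t χ| ≤
      (1 + C * q) * (((d : ℝ) + 1) ^ 2 * Q) := by
    have hb0 : 0 ≤ (1 + C * q) * (((d : ℝ) + 1) ^ 2 * Q) := by positivity
    obtain ⟨r, hr⟩ := exists_MPer d χ
    rcases lt_or_ge J r.natDegree with hJρ | hJρ
    · have h1 : ∑ j ∈ Finset.range (J + 1), (j : ℝ) * Fj K d j χ = 0 := by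
        apply Finset.sum_eq_zero
        intro j hj
        rw [Finset.mem_range] at hj
        rw [Fj_zero hr (by omega) (by omega), mul_zero]
      rw [h1, MQ_far hr (by omega), add_zero, abs_zero]
      exact hb0
    · have hS1 := S1_eq huniq hr hJρ hJd
      rw [hS1]
      rcases lt_or_ge t r.natDegree with htρ | htρ
      · rw [MQ_far hr htρ, add_zero, abs_mul, abs_mul, chi_abs, one_mul, abs_mul,
          abs_of_pos (by positivity : 0 < q ^ (d - r.natDegree))]
        have h2 := Sg_le (K := K) r (J - r.natDegree) d (by omega)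
        have h3 : q ^ (d - r.natDegree) ≤ Q := by
          rw [hQdef, ← Real.rpow_natCast]
          refine Real.rpow_le_rpow_of_exponent_le hq1' ?_
          rw [Nat.cast_sub (by omega)]
          have h4 : (t : ℝ) + 1 ≤ r.natDegree := by exact_mod_cast htρ
          have h5 : c' * d ≤ θ / 8 * d := mul_le_mul_of_nonneg_right hc'3 hd0
          nlinarith [mul_nonneg hθ.le hd0]
        have h6 := mob_abs r
        calc |(mob r : ℝ)| * (q ^ (d - r.natDegree) * |Sg K r (J - r.natDegree)|)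
            ≤ 1 * (Q * ((d : ℝ) + 1) ^ 2) := by
              refine mul_le_mul h6 ?_ (by positivity) zero_le_one
              exact mul_le_mul h3 h2 (abs_nonneg _) hQ0.le
          _ = 1 * (((d : ℝ) + 1) ^ 2 * Q) := by ring
          _ ≤ _ := by
              refine mul_le_mul_of_nonneg_right ?_ (by positivity)
              have : 0 ≤ C * q := by positivity
              linarith
      · by_cases hs : Squarefree r
        · rw [MQ_near huniq hr htρ htd hs]
          have h1 : χ (r * X ^ (d - r.natDegree)) * (mob r : ℝ) * (q ^ (d - r.natDegree) *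
              Sg K r (J - r.natDegree)) + (mob r : ℝ) * χ (r * X ^ (d - r.natDegree)) *
                (q ^ (d - r.natDegree) / PiM r) =
              χ (r * X ^ (d - r.natDegree)) * ((mob r : ℝ) * (q ^ (d - r.natDegree) *
                (Sg K r (J - r.natDegree) + 1 / PiM r))) := by ring
          rw [h1, abs_mul, chi_abs, one_mul, abs_mul, abs_mul,
            abs_of_pos (by positivity : 0 < q ^ (d - r.natDegree))]
          have h2 : |Sg K r (J - r.natDegree) + 1 / PiM r| ≤
              C * q ^ (1 / 8 * (t : ℝ) - ((J - r.natDegree : ℕ) : ℝ) / 4) :=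
            hQ2 r t (J - r.natDegree) hr.1 hs htρ
          have h3 : q ^ (d - r.natDegree) * q ^ (1 / 8 * (t : ℝ) - ((J - r.natDegree : ℕ) : ℝ) / 4) ≤
              q * Q := by
            have h4 : q * Q = q ^ (1 + (1 - c') * (d : ℝ)) := by
              rw [hQdef, Real.rpow_add hq0, Real.rpow_one]
            rw [h4, ← Real.rpow_natCast, ← Real.rpow_add hq0]
            refine Real.rpow_le_rpow_of_exponent_le hq1' ?_
            rw [Nat.cast_sub (by omega), Nat.cast_sub hJρ]
            have h5 : c' * d ≤ θ / 8 * d := mul_le_mul_of_nonneg_right hc'3 hd0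
            have h6 : (0 : ℝ) ≤ r.natDegree := Nat.cast_nonneg _
            have h7 : 0 ≤ θ * d := mul_nonneg hθ.le hd0
            nlinarith
          have h6 := mob_abs r
          calc |(mob r : ℝ)| * (q ^ (d - r.natDegree) * |Sg K r (J - r.natDegree) + 1 / PiM r|)
              ≤ 1 * (q ^ (d - r.natDegree) *
                (C * q ^ (1 / 8 * (t : ℝ) - ((J - r.natDegree : ℕ) : ℝ) / 4))) := by
                refine mul_le_mul h6 ?_ (by positivity) zero_le_one
                exact mul_le_mul_of_nonneg_left h2 (by positivity)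
            _ = C * (q ^ (d - r.natDegree) *
                q ^ (1 / 8 * (t : ℝ) - ((J - r.natDegree : ℕ) : ℝ) / 4)) := by ring
            _ ≤ C * (q * Q) := mul_le_mul_of_nonneg_left h3 hC.le
            _ = (C * q) * (1 * Q) := by ring
            _ ≤ (1 + C * q) * (((d : ℝ) + 1) ^ 2 * Q) := by
                refine mul_le_mul (by linarith) ?_ (by positivity) (by positivity)
                exact mul_le_mul_of_nonneg_right hD2 hQ0.le
        · rw [MQ_nsq huniq hr htρ htd hs, mob_of_not hs, Int.cast_zero, mul_zero, zero_mul, add_zero,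
            abs_zero]
          exact hb0
  have htotal : |(d : ℝ) * SQ K d χ - MQ K d t χ| ≤ (3 + C * q) * (((d : ℝ) + 1) ^ 2 * Q) := by
    have h1 : (d : ℝ) * SQ K d χ - MQ K d t χ =
        -(∑ A ∈ Mn K d, vM A * χ A - (d : ℝ) * SQ K d χ) -
          (∑ j ∈ Finset.Ico (J + 1) (d + 1), (j : ℝ) * Fj K d j χ) -
          (∑ j ∈ Finset.range (J + 1), (j : ℝ) * Fj K d j χ + MQ K d t χ) := by
      rw [hsum, hsplit]
      ring
    rw [h1]
    refine (abs_sub _ _).trans ?_
    refine (add_le_add (abs_sub _ _) e3).trans ?_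
    rw [abs_neg]
    calc _ ≤ ((d : ℝ) + 1) ^ 2 * Q + ((d : ℝ) + 1) ^ 2 * Q +
          (1 + C * q) * (((d : ℝ) + 1) ^ 2 * Q) := by gcongr
      _ = _ := by ring
  calc |(d : ℝ) * SQ K d χ - MQ K d t χ| ≤ (3 + C * q) * (((d : ℝ) + 1) ^ 2 * Q) := htotal
    _ = ((3 + C * q) * ((d : ℝ) + 1) ^ 2) * Q := by ring
    _ ≤ q ^ (c' / 2 * d) * Q := mul_le_mul_of_nonneg_right (hd₁ d hdd₁) hQ0.le
    _ = q ^ ((1 - c' / 2) * d) := by
        rw [hQdef, ← Real.rpow_add hq0]
        congr 1
        ring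

end Pool.Agent.H290.FX.PQ3
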