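import Mathlib
import Pool.Agent.H290.FX.StmM
import Pool.Agent.H604.LD.Far1U

/-!
# Task QB (helper280): `main : S_qb`

`sS S ∅ j = q ^ (-j) ∑ μ(D)` over the monic `D` of degree `j` without prime factors in `S`
(`H604/LD/Far1U.lean`). With `R = ∏_{P ∈ S} (1 - q ^ (-deg P))⁻¹` the difference
`∑_{j ≤ N} (x - j) s_j - R` is at most `4 ^ #S (|x| + N + 1) q ^ (-N / 2)`, by induction on `S`.
-/

set_option autoImplicit false
set_option linter.all false

namespace Pool.Agent.H290.FX.PQb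

open Polynomial Finset
open scoped Classical
open Pool.Agent.H985.Chow (mob)
open Pool.Agent.H694.Typ (Mn PU wt wt_nonneg q_ge mem_PU)
open Pool.Agent.H604.LD (PiM)
open Pool.Agent.H604.LD.F1 (Pr gT not_dvd_of_ne prod_facts W_empty sT_empty)
open Pool.Agent.H604.LD.F1U (sS SM sS_empty rec1 mem_SM Pr_SM PiM_eq ND_SM)

/-- the sum of the `(x - j) s j` -/
noncomputable def FS (s : ℕ → ℝ) (x : ℝ) (N : ℕ) : ℝ := ∑ j ∈ range (N + 1), (x - j) * s j

lemma FS_rec {s s' : ℕ → ℝ} {p : ℕ} {w : ℝ}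
    (hs : ∀ j, s j = s' j - w * (if p ≤ j then s' (j - p) else 0)) (x : ℝ) (N : ℕ) :
    FS s x N = FS s' x N - w * (if p ≤ N then FS s' (x - p) (N - p) else 0) := by
  unfold FS
  have h1 : ∑ j ∈ range (N + 1), (x - j) * s j = ∑ j ∈ range (N + 1), (x - j) * s' j -
      w * ∑ j ∈ range (N + 1), (x - j) * (if p ≤ j then s' (j - p) else 0) := by
    rw [mul_sum, ← sum_sub_distrib]
    refine sum_congr rfl fun j _ => ?_
    rw [hs j]
    ring
  rw [h1]
  have h2 : ∑ j ∈ range (N + 1), (x - j) * (if p ≤ j then s' (j - p) else 0) =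
      if p ≤ N then ∑ j ∈ range (N - p + 1), (x - p - j) * s' j else 0 := by
    split_ifs with h
    · obtain ⟨M, rfl⟩ := Nat.exists_eq_add_of_le h
      rw [add_assoc, sum_range_add, Nat.add_sub_cancel_left]
      have h3 : ∑ j ∈ range p, (x - (j : ℝ)) * (if p ≤ j then s' (j - p) else 0) = 0 := by
        refine sum_eq_zero fun j hj => ?_
        rw [mem_range] at hj
        rw [if_neg (by omega), mul_zero]
      rw [h3, zero_add]
      refine sum_congr rfl fun j _ => ?_
      rw [if_pos (by omega), Nat.add_sub_cancel_left]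
      push_cast
      ring
    · refine sum_eq_zero fun j hj => ?_
      rw [mem_range] at hj
      rw [if_neg (by omega), mul_zero]
  rw [h2]

lemma step {s s' : ℕ → ℝ} {p : ℕ} {h R D : ℝ} (hh0 : 0 < h) (hh1 : h ≤ 3 / 4) (hp : 1 ≤ p)
    (hR0 : 0 ≤ R) (hRD : R ≤ D)
    (hs : ∀ j, s j = s' j - h ^ (2 * p) * (if p ≤ j then s' (j - p) else 0))
    (hE : ∀ N x, |FS s x N - R| ≤ D * (|x| + N + 1) * h ^ N) :
    ∀ N x, |FS s' x N - R * (1 - h ^ (2 * p))⁻¹| ≤ 4 * D * (|x| + N + 1) * h ^ N := by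
  have hD : 0 ≤ D := hR0.trans hRD
  have hp1 : h ^ p ≤ 3 / 4 := by
    have h1 : h ^ p ≤ h ^ 1 := pow_le_pow_of_le_one hh0.le (by linarith) hp
    rw [pow_one] at h1
    linarith
  have hp0 : 0 < h ^ p := pow_pos hh0 p
  obtain ⟨w, hw⟩ : ∃ w, w = h ^ (2 * p) := ⟨_, rfl⟩
  have hwp : w = h ^ p * h ^ p := by rw [hw, two_mul, pow_add]
  rw [← hw] at hs ⊢
  have hw0 : 0 < w := by rw [hw]; positivity
  have hw1 : w ≤ 9 / 16 := by rw [hwp]; nlinarith
  have hw2 : 0 < 1 - w := by linarith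
  obtain ⟨I, hI⟩ : ∃ I, I = (1 - w)⁻¹ := ⟨_, rfl⟩
  have hI1 : I = 1 + w * I := by
    rw [hI]
    field_simp
    ring
  have hI0 : 0 < I := by rw [hI]; positivity
  have hI2 : I ≤ 16 / 7 := by
    nlinarith
  rw [← hI]
  intro N
  induction N using Nat.strong_induction_on with
  | _ N ih =>
    intro x
    have h1 := FS_rec hs x N
    have h2 := hE N x
    have hN0 : 0 < h ^ N := pow_pos hh0 N
    have hx0 : 0 ≤ |x| := abs_nonneg x
    have hNN : (0 : ℝ) ≤ N := Nat.cast_nonneg N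
    obtain ⟨A, hA⟩ : ∃ A, A = (|x| + N + 1) * h ^ N := ⟨_, rfl⟩
    have hA0 : 0 ≤ A := by rw [hA]; positivity
    have h2' : |FS s x N - R| ≤ D * A := by
      rw [hA, ← mul_assoc]
      exact h2
    have hgoal : 4 * D * (|x| + N + 1) * h ^ N = 4 * (D * A) := by rw [hA]; ring
    rw [hgoal]
    by_cases hpN : p ≤ N
    · rw [if_pos hpN] at h1
      have h3 := ih (N - p) (by omega) (x - p)
      have h4 : FS s' x N - R * I = (FS s x N - R) + w * (FS s' (x - p) (N - p) - R * I) := by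
        have : R * I = R + w * (R * I) := by
          have h0 : R * I = R * (1 + w * I) := by rw [← hI1]
          linarith [h0, mul_add R 1 (w * I), mul_left_comm R w I]
        linear_combination -h1 - this
      rw [h4]
      refine (abs_add_le _ _).trans ?_
      rw [abs_mul, abs_of_pos hw0]
      have h5 : |x - p| + ((N - p : ℕ) : ℝ) + 1 ≤ |x| + N + 1 := by
        have h6 : |x - p| ≤ |x| + p := by
          refine (abs_sub _ _).trans ?_
          rw [Nat.abs_cast]
        rw [Nat.cast_sub hpN]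
        linarith
      have h6 : w * h ^ (N - p) = h ^ p * h ^ N := by
        rw [hwp, mul_assoc, ← pow_add, ← Nat.add_sub_assoc hpN, Nat.add_sub_cancel_left]
      have h7 : w * |FS s' (x - p) (N - p) - R * I| ≤ 3 * (D * A) := by
        calc w * |FS s' (x - p) (N - p) - R * I| ≤
            w * (4 * D * (|x - p| + ((N - p : ℕ) : ℝ) + 1) * h ^ (N - p)) :=
              mul_le_mul_of_nonneg_left h3 hw0.le
          _ ≤ w * (4 * D * (|x| + N + 1) * h ^ (N - p)) := by
              refine mul_le_mul_of_nonneg_left ?_ hw0.le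
              refine mul_le_mul_of_nonneg_right ?_ (by positivity)
              exact mul_le_mul_of_nonneg_left h5 (by positivity)
          _ = 4 * D * (|x| + N + 1) * (w * h ^ (N - p)) := by ring
          _ = h ^ p * (4 * (D * A)) := by rw [h6, hA]; ring
          _ ≤ 3 / 4 * (4 * (D * A)) := mul_le_mul_of_nonneg_right hp1 (by positivity)
          _ = 3 * (D * A) := by ring
      linarith
    · rw [if_neg hpN, mul_zero, sub_zero] at h1
      have h4 : FS s' x N - R * I = (FS s x N - R) - w * (R * I) := by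
        have : R * I = R + w * (R * I) := by
          have h0 : R * I = R * (1 + w * I) := by rw [← hI1]
          linarith [h0, mul_add R 1 (w * I), mul_left_comm R w I]
        linear_combination -h1 - this
      rw [h4]
      refine (abs_sub _ _).trans ?_
      have h5 : |w * (R * I)| ≤ 3 * (D * A) := by
        rw [abs_of_nonneg (by positivity)]
        have h6 : w ≤ 3 / 4 * h ^ N := by
          rw [hwp]
          exact mul_le_mul hp1 (pow_le_pow_of_le_one hh0.le (by linarith) (by omega)) hp0.le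
            (by norm_num)
        have h7 : h ^ N ≤ A := by
          rw [hA]
          exact le_mul_of_one_le_left hN0.le (by linarith)
        have h8 : R * I ≤ D * (16 / 7) := mul_le_mul hRD hI2 hI0.le hD
        have h9 : w * (R * I) ≤ 3 / 4 * h ^ N * (D * (16 / 7)) :=
          mul_le_mul h6 h8 (by positivity) (by positivity)
        have h10 : D * h ^ N ≤ D * A := mul_le_mul_of_nonneg_left h7 hD
        have h11 : 0 ≤ D * A := by positivity
        nlinarith
      linarith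

section S

variable {K : Type} [Field K] [Fintype K]

lemma prod_bd (S : Finset K[X]) : Pr S →
    0 ≤ (∏ P ∈ S, (1 - wt K P.natDegree))⁻¹ ∧ (∏ P ∈ S, (1 - wt K P.natDegree))⁻¹ ≤ 2 ^ S.card := by
  induction S using Finset.induction_on with
  | empty => intro _; simp
  | insert P S hPS ih =>
    intro hS
    have hP := hS P (mem_insert_self _ _)
    obtain ⟨h1, h2⟩ := ih fun Q hQ => hS Q (mem_insert_of_mem hQ)
    obtain ⟨hw1, -⟩ := Pool.Agent.H604.LD.F1.wt_le (K := K) (hP.2.natDegree_pos)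
    have hw0 := wt_nonneg (k := K) P.natDegree
    rw [prod_insert hPS, card_insert_of_notMem hPS, pow_succ, mul_inv]
    have h3 : (1 - wt K P.natDegree)⁻¹ ≤ 2 := by
      rw [inv_le_comm₀ (by linarith) (by norm_num)]
      linarith
    have h4 : 0 ≤ (1 - wt K P.natDegree)⁻¹ := inv_nonneg.2 (by linarith)
    refine ⟨mul_nonneg h4 h1, ?_⟩
    rw [mul_comm]
    exact mul_le_mul h2 h3 h4 (by positivity)

lemma hsq : ((√(Fintype.card K : ℝ))⁻¹) ^ 2 = (Fintype.card K : ℝ)⁻¹ := by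
  rw [inv_pow, Real.sq_sqrt (Nat.cast_nonneg _)]

lemma h_le : (√(Fintype.card K : ℝ))⁻¹ ≤ 3 / 4 := by
  have hq := q_ge (k := K)
  rw [inv_le_comm₀ (Real.sqrt_pos.2 (by linarith)) (by norm_num)]
  apply Real.le_sqrt_of_sq_le
  norm_num
  linarith

lemma wt_eq (p : ℕ) : wt K p = ((√(Fintype.card K : ℝ))⁻¹) ^ (2 * p) := by
  rw [pow_mul, hsq, inv_pow]
  rfl

lemma mainS (S : Finset K[X]) : Pr S → ∀ (N : ℕ) (x : ℝ),
    |FS (sS S ∅) x N - (∏ P ∈ S, (1 - wt K P.natDegree))⁻¹| ≤
      4 ^ S.card * (|x| + N + 1) * ((√(Fintype.card K : ℝ))⁻¹) ^ N := by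
  have hq := q_ge (k := K)
  have hh0 : 0 < (√(Fintype.card K : ℝ))⁻¹ := inv_pos.2 (Real.sqrt_pos.2 (by linarith))
  induction S using Finset.induction_on with
  | empty =>
    intro _ N x
    rw [card_empty, pow_zero, one_mul, prod_empty, inv_one]
    rcases N with _ | N
    · have h1 : FS (sS (∅ : Finset K[X]) ∅) x 0 = x := by
        unfold FS
        simp [sS_empty, sT_empty]
      rw [h1, pow_zero, mul_one]
      refine (abs_sub _ _).trans ?_
      simp
    · have h1 : FS (sS (∅ : Finset K[X]) ∅) x (N + 1) = 1 := by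
        unfold FS
        simp only [sS_empty]
        exact W_empty (by omega) x
      rw [h1, sub_self, abs_zero]
      positivity
  | insert P S hPS ih =>
    intro hS N x
    have hP := hS P (mem_insert_self _ _)
    have hS' : Pr S := fun Q hQ => hS Q (mem_insert_of_mem hQ)
    have ih := ih hS'
    obtain ⟨hR0, hR1⟩ := prod_bd S hS'
    have hE : Pr (∅ : Finset K[X]) := fun P hP => absurd hP (notMem_empty _)
    have hr1 := rec1 hS' hE hP hPS (notMem_empty P)
    simp only [wt_eq P.natDegree] at hr1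
    have h4 : (2 : ℝ) ^ S.card ≤ 4 ^ S.card := pow_le_pow_left₀ (by norm_num) (by norm_num) _
    have h1 := step hh0 h_le hP.2.natDegree_pos hR0 (hR1.trans h4) hr1 ih N x
    rw [prod_insert hPS, card_insert_of_notMem hPS, pow_succ, mul_inv, mul_comm (4 ^ S.card) 4,
      wt_eq P.natDegree, mul_comm (1 - ((√(Fintype.card K : ℝ))⁻¹) ^ (2 * P.natDegree))⁻¹]
    exact h1

/-- few prime divisors -/
lemma card_le {r : K[X]} (hr : r.Monic) {t m : ℕ} (hm : 1 ≤ m) (ht : r.natDegree ≤ t) :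
    ((SM r).card : ℝ) ≤ (PU K m).card + (t : ℝ) / m := by
  have hM : r ≠ 0 := hr.ne_zero
  have hP := Pr_SM hM
  obtain ⟨-, -, hdeg, -⟩ := prod_facts hP
  have h1 : ∏ P ∈ SM r, P ∣ r := by
    refine Finset.prod_dvd_of_coprime ?_ ?_
    · intro P hP' Q hQ hPQ
      exact ((hP P hP').2.coprime_iff_not_dvd).2 (not_dvd_of_ne (hP Q hQ) (hP P hP') hPQ)
    · intro P hP'
      exact ((mem_SM hM).1 hP').2.2
  have h2 := natDegree_le_of_dvd h1 hM
  rw [hdeg] at h2
  have h3 : (SM r).card = ((SM r).filter (fun P => P.natDegree ≤ m)).card +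
      ((SM r).filter (fun P => ¬ P.natDegree ≤ m)).card :=
    (Finset.card_filter_add_card_filter_not (fun P : K[X] => P.natDegree ≤ m)).symm
  have h4 : ((SM r).filter (fun P => P.natDegree ≤ m)).card ≤ (PU K m).card := by
    refine card_le_card ?_
    intro P hP'
    rw [mem_filter] at hP'
    rw [mem_PU]
    exact ⟨(hP P hP'.1).1, (hP P hP'.1).2, hP'.2⟩
  have h5 : m * ((SM r).filter (fun P => ¬ P.natDegree ≤ m)).card ≤ t := by
    have h6 : m * ((SM r).filter (fun P => ¬ P.natDegree ≤ m)).card ≤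
        ∑ P ∈ (SM r).filter (fun P => ¬ P.natDegree ≤ m), P.natDegree := by
      rw [mul_comm, ← smul_eq_mul]
      refine Finset.card_nsmul_le_sum _ _ _ fun P hP' => ?_
      rw [mem_filter] at hP'
      omega
    have h7 : ∑ P ∈ (SM r).filter (fun P => ¬ P.natDegree ≤ m), P.natDegree ≤
        ∑ P ∈ SM r, P.natDegree :=
      sum_le_sum_of_subset (filter_subset _ _)
    omega
  have hm0 : (0 : ℝ) < m := by exact_mod_cast hm
  have h6 : (((SM r).filter (fun P => ¬ P.natDegree ≤ m)).card : ℝ) ≤ (t : ℝ) / m := by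
    rw [le_div_iff₀ hm0, mul_comm]
    exact_mod_cast h5
  have h7 : (((SM r).filter (fun P => P.natDegree ≤ m)).card : ℝ) ≤ (PU K m).card := by
    exact_mod_cast h4
  rw [h3]
  push_cast
  linarith

end S

theorem main : S_qb := by
  intro K _ _ ε hε
  have hq := q_ge (k := K)
  obtain ⟨q, hqd⟩ : ∃ q : ℝ, q = (Fintype.card K : ℝ) := ⟨_, rfl⟩
  have hq2 : 2 ≤ q := by rw [hqd]; exact hq
  have hq0 : 0 < q := by linarith
  obtain ⟨m, hm⟩ : ∃ m : ℕ, m = ⌈2 / ε⌉₊ + 1 := ⟨_, rfl⟩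
  have hm1 : 1 ≤ m := by omega
  have hm0 : (0 : ℝ) < m := by exact_mod_cast hm1
  have hmε : 2 / (m : ℝ) ≤ ε := by
    rw [div_le_iff₀ hm0, mul_comm, ← div_le_iff₀ hε]
    refine (Nat.le_ceil (2 / ε)).trans ?_
    rw [hm]
    push_cast
    linarith
  refine ⟨8 * (4 : ℝ) ^ ((PU K m).card : ℝ), by positivity, ?_⟩
  intro r t N x hr _ ht hx
  have hr0 : r ≠ 0 := hr.ne_zero
  have h1 := mainS (SM r) (Pr_SM hr0) N x
  have h2 : ∑ i ∈ range (N + 1), (x - i) / (Fintype.card K : ℝ) ^ i *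
      ∑ E ∈ (Mn K i).filter (fun E => IsCoprime E r), (mob E : ℝ) = FS (sS (SM r) ∅) x N := by
    unfold FS
    refine sum_congr rfl fun i _ => ?_
    unfold sS
    have h3 : (Mn K i).filter (fun E => IsCoprime E r) =
        (Mn K i).filter (fun D => Pool.Agent.H604.LD.F1U.ND (SM r) D) :=
      filter_congr fun D _ => (ND_SM hr0).symm
    have h4 : ∀ D : K[X], gT (∅ : Finset K[X]) D = 1 := fun D => by
      unfold gT
      exact prod_empty
    simp only [h4, mul_one]
    rw [h3, wt, div_eq_mul_inv, mul_assoc]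
  rw [h2, one_div, PiM_eq hr0]
  refine h1.trans ?_
  rw [← hqd, abs_of_nonneg hx]
  -- the number of the primes
  have h3 : (4 : ℝ) ^ (SM r).card ≤ (4 : ℝ) ^ ((PU K m).card : ℝ) * q ^ (ε * t) := by
    rw [← Real.rpow_natCast]
    have h4 := card_le hr hm1 ht
    have h5 : (4 : ℝ) ^ ((SM r).card : ℝ) ≤ (4 : ℝ) ^ (((PU K m).card : ℝ) + (t : ℝ) / m) :=
      Real.rpow_le_rpow_of_exponent_le (by norm_num) h4
    rw [Real.rpow_add (by norm_num)] at h5
    refine h5.trans (mul_le_mul_of_nonneg_left ?_ (by positivity))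
    have h6 : (4 : ℝ) ≤ q ^ (2 : ℝ) := by
      rw [Real.rpow_two]
      nlinarith
    have ht0 : (0 : ℝ) ≤ t := Nat.cast_nonneg t
    have h7 : (4 : ℝ) ^ ((t : ℝ) / m) ≤ (q ^ (2 : ℝ)) ^ ((t : ℝ) / m) :=
      Real.rpow_le_rpow (by norm_num) h6 (by positivity)
    rw [← Real.rpow_mul hq0.le] at h7
    refine h7.trans (Real.rpow_le_rpow_of_exponent_le (by linarith) ?_)
    have h8 : 2 * ((t : ℝ) / m) = 2 / m * t := by ring
    rw [h8]
    exact mul_le_mul_of_nonneg_right hmε ht0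
  -- the power of `N`
  have hN0 : (0 : ℝ) ≤ N := Nat.cast_nonneg N
  have h4 : (N : ℝ) + 1 ≤ 8 * q ^ ((N : ℝ) / 4) := by
    have h5 : Real.log 2 * ((N : ℝ) / 4) + 1 ≤ q ^ ((N : ℝ) / 4) := by
      rw [Real.rpow_def_of_pos hq0]
      have h6 := Real.add_one_le_exp (Real.log q * ((N : ℝ) / 4))
      have h7 : Real.log 2 ≤ Real.log q := Real.log_le_log (by norm_num) hq2
      have h8 : Real.log 2 * ((N : ℝ) / 4) ≤ Real.log q * ((N : ℝ) / 4) :=
        mul_le_mul_of_nonneg_right h7 (by positivity)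
      linarith
    have h6 := Real.log_two_gt_d9
    nlinarith
  have h5 : ((√q)⁻¹) ^ N = q ^ (-((N : ℝ) / 2)) := by
    rw [Real.sqrt_eq_rpow, ← Real.rpow_neg hq0.le, ← Real.rpow_natCast, ← Real.rpow_mul hq0.le]
    congr 1
    ring
  have h6 : (x + N + 1) * ((√q)⁻¹) ^ N ≤ 8 * (1 + x) * q ^ (-((N : ℝ) / 4)) := by
    have h7 : x + N + 1 ≤ (1 + x) * (8 * q ^ ((N : ℝ) / 4)) := by
      refine le_trans ?_ (mul_le_mul_of_nonneg_left h4 (by linarith))
      nlinarith
    have h8 : q ^ ((N : ℝ) / 4) * q ^ (-((N : ℝ) / 2)) = q ^ (-((N : ℝ) / 4)) := by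
      rw [← Real.rpow_add hq0]
      congr 1
      ring
    rw [h5]
    calc (x + N + 1) * q ^ (-((N : ℝ) / 2)) ≤
        (1 + x) * (8 * q ^ ((N : ℝ) / 4)) * q ^ (-((N : ℝ) / 2)) :=
          mul_le_mul_of_nonneg_right h7 (by positivity)
      _ = 8 * (1 + x) * (q ^ ((N : ℝ) / 4) * q ^ (-((N : ℝ) / 2))) := by ring
      _ = 8 * (1 + x) * q ^ (-((N : ℝ) / 4)) := by rw [h8]
  have h7 : q ^ (ε * t - (N : ℝ) / 4) = q ^ (ε * t) * q ^ (-((N : ℝ) / 4)) := by
    rw [sub_eq_add_neg, Real.rpow_add hq0]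
  rw [h7, mul_assoc (4 ^ (SM r).card)]
  calc (4 : ℝ) ^ (SM r).card * ((x + N + 1) * ((√q)⁻¹) ^ N) ≤
      ((4 : ℝ) ^ ((PU K m).card : ℝ) * q ^ (ε * t)) * (8 * (1 + x) * q ^ (-((N : ℝ) / 4))) :=
        mul_le_mul h3 h6 (by positivity) (by positivity)
    _ = 8 * (4 : ℝ) ^ ((PU K m).card : ℝ) * (1 + x) * (q ^ (ε * t) * q ^ (-((N : ℝ) / 4))) := by
        ring

end Pool.Agent.H290.FX.PQb
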