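import Mathlib
import Pool.Agent.H290.FX.AsmT
import Pool.Agent.H290.FX.PQ1
import Pool.Agent.H290.FX.PQ2
import Pool.Agent.H290.FX.PQ3
import Pool.Agent.H290.FX.PQ4
import Pool.Agent.H290.FX.PQ5
import Pool.Agent.H290.FX.PQb
import Pool.Agent.H290.FX.PMajb

/-!
# Assembly without the uniform prime theorem (helper290)
-/

set_option autoImplicit false

namespace Pool.Agent.H290.FX.AsmF

open Pool.Agent.H290.FX

theorem major : S_major :=
  PMajb.main PRoot.main PUniq.main Pool.Agent.H604.LD.hid Asm.nearx Asm.far2x PQb.main

theorem four : S_four := PFour.main PUniq.main Asm.minor major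

theorem bin : S_bin := PBin.main POrth.main four Asm.l2 Asm.mb PRank.main PConv.main

theorem ter : S_ter := PTer.main POrth.main four Asm.l2 Asm.mt PRank.main PConv.main

theorem tup : S_tup := Asm.tup major

theorem prx : S_prx := PQ3.main PUniq.main Asm.key PQ1.main PQ2.main

theorem q4 : S_q4 := PQ4.main PRoot.main PUniq.main Asm.ram

theorem binp : S_binp := PQ5.main POrth.main four Asm.l2 prx q4 PRank.main PConv.main

end Pool.Agent.H290.FX.AsmF
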