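import Mathlib
import Pool.Agent.H290.FX.StmM
import Pool.Agent.H290.PK.Stm

/-!
# The input of `PK` (exactly `k` irreducible factors) from the key estimate (helper290): statements
-/

namespace Pool.Agent.H290.FX

open Polynomial
open scoped Classical
open Pool.Agent.H985.Chow (mob)
open Pool.Agent.H985.KP (PA)
open Pool.Agent.H694.Typ (Mn PU)
open Pool.Agent.H604.LD (PiM)

/-- The divisors of degree near `d`, with characters of `a` and of `D`. -/
def S_nearxx : Prop :=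
  ∀ (K : Type) [Field K] [Fintype K] [CharP K 2], ∃ c θ : ℝ, 0 < c ∧ 0 < θ ∧ ∃ d₀ : ℕ,
    ∀ (d n : ℕ) (χ χ' : AddChar K[X] ℝ), d₀ ≤ d → |(n : ℝ) - d| ≤ θ * d →
      |∑ a ∈ Mn K d, χ a * ∑ D ∈ (Mn K n).filter (fun D => D ∣ a ^ 2 + X), (mob D : ℝ) * χ' D| ≤
        (Fintype.card K : ℝ) ^ ((1 - c) * d)

/-- **Task NEARXX.**  The proof of `S_tnearx` (store helper290_FX_PNearx.lean) with the further factor
`χ' D`: `S_key` has it already. -/
def S_tnearxx : Prop := S_root → S_key → S_nearxx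

/-- The squarefree `E` and the `a` with `E ∣ a ^ 2 + X`: the divisors `D` prime to `E` of degree
near `d`. -/
def S_neare : Prop :=
  ∀ (K : Type) [Field K] [Fintype K] [CharP K 2], ∃ c θ : ℝ, 0 < c ∧ 0 < θ ∧ ∃ d₀ : ℕ,
    ∀ (d n : ℕ) (E : K[X]), d₀ ≤ d → |(n : ℝ) - d| ≤ θ * d → E.Monic → Squarefree E →
      (E.natDegree : ℝ) ≤ θ * d →
      |∑ a ∈ (Mn K d).filter (fun a => E ∣ a ^ 2 + X),
          ∑ D ∈ (Mn K n).filter (fun D => D ∣ a ^ 2 + X ∧ IsCoprime D E), (mob D : ℝ)| ≤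
        (Fintype.card K : ℝ) ^ ((1 - c) * d)

/-- **Task NEARE.**  `E ∣ a ^ 2 + X` iff `E ∣ a - rt E` (ROOT), and its indicator function is the mean
value over `ξ` modulo `E` of `χ_ξ (a - rt E)`, `χ_ξ x = sg (lc E (ξ x))`, an additive character.  The
indicator function of `(D, E) = 1` is `∑_{G ∣ E} μ(G) [G ∣ D]`, and `[G ∣ D]` is the mean value
over `ζ` modulo `G` of the additive characters `sg (lc G (ζ D))`; there are at most
`2 ^ ω(E) ≤ 2 ^ deg E` many `G`.  So `|…| ≤ 2 ^ deg E * q ^ ((1 - c) d)` by NEARXX; take `θ ≤ c / 2`. -/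
def S_tneare : Prop := S_root → S_nearxx → S_neare

/-- The far twisted sums for `E`. -/
def S_fare : Prop :=
  ∀ (K : Type) [Field K] [Fintype K] [CharP K 2] (κ : ℝ), 0 < κ → ∃ c : ℝ, 0 < c ∧ ∃ d₀ : ℕ,
    ∀ (d j : ℕ) (E : K[X]), d₀ ≤ d → E.Monic → Squarefree E →
      ((j + E.natDegree : ℕ) : ℝ) ≤ (1 - κ) * d →
      |∑ a ∈ (Mn K d).filter (fun a => E ∣ a ^ 2 + X), (mob (a ^ 2 + X) : ℝ) *
          ∑ D ∈ (Mn K j).filter (fun D => D ∣ a ^ 2 + X ∧ IsCoprime D E), (mob D : ℝ)| ≤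
        (Fintype.card K : ℝ) ^ ((1 - c) * d)

/-- **Task FARE.**  `E ∣ f_a` and `D ∣ f_a` with `(D, E) = 1` iff `D E ∣ f_a` iff `a = rt (D E) + D E s`,
`s ∈ Mn (d - j - deg E)`; `S_weylx` with the trivial character for every `D`. -/
def S_tfare : Prop := S_root → S_weylx → S_fare

/-- **Task HIDM.**  For a squarefree monic `g` of degree `m ≥ 1` one has
`∑_j sd_j u ^ j = ∏_{P ∣ g} (1 - u ^ deg P)` for `sd_j = ∑_{D ∣ g, deg D = j} μ(D)`, and
`sd_{m-j} = μ(g) sd_j`.  Value and derivative at `u = 1`: `∑ sd_j = 0`, `∑ j sd_j = -m` if `g` is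
irreducible and `0` otherwise.  So
`(1 - μ(g)) ∑_{j < m/2} (m/2 - j) sd_j = ∑_j (m/2 - j) sd_j = m` or `0`.  (Compare `S_hid`, `S_hidg` of
`H604/LD`.) -/
def S_hidm : Prop :=
  ∀ (K : Type) [Field K] [Fintype K] (m : ℕ) (g : K[X]), 1 ≤ m → g.Monic → Squarefree g →
    g.natDegree = m →
    (1 - (mob g : ℝ)) * ∑ j ∈ (Finset.range m).filter (fun j => 2 * j < m), ((m : ℝ) / 2 - j) *
      ∑ D ∈ (Mn K j).filter (fun D => D ∣ g), (mob D : ℝ) = if Irreducible g then (m : ℝ) else 0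

/-- **Task SPX.**  `SP` of `PK/Stm.lean`.  Let `E = ∏ P ∈ S, P`, `e = deg E = dg S ≤ θ d`,
`g_a = (a ^ 2 + X) / E` for the `a ∈ Mn K d` with `E ∣ a ^ 2 + X`, `m = 2 d - e`; `g_a` is squarefree and prime
to `E`; `NS K d S` is the number of these `a` with `g_a` irreducible (see the docstring of `SPof` in
`PK/StmSP.lean` and store helper290_PK_PSPof.lean).  Sum `S_hidm` over `a`.  `D ∣ g_a` iff
`D ∣ a ^ 2 + X` and `(D, E) = 1`; `μ(g_a) = μ(a ^ 2 + X) μ(E)`.  With `N_j`, `M_j` the sums over `a` and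
`D` of `μ(D)` and of `μ(g_a) μ(D)` one has `M_j = N_{m-j}` (complementary divisor in `g_a`).  Let `κ`
be the `θ` of `S_neare` (`≤ 1/4`), and `θ = κ / 4`, `J = ⌊(1 - κ/2) d⌋`.  For `j ≤ J`: `M_j` is small by
`S_fare` with `κ / 4`, and `N_j = q ^ (d - e - j) ∑_{D ∈ Mn j, (D, E) = 1} μ(D)` (the `a` with
`D E ∣ a ^ 2 + X` are `rt (D E) + D E s`).  For `J < j < m / 2`: `N_j` and `M_j = N_{m-j}` are small by
`S_neare`.  So `m NS = q ^ (d - e) ∑_{j ≤ J} (m/2 - j) q ^ (-j) c j + O(q ^ ((1 - c) d))`, and by QB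
(`r = E`, `x = m / 2`) the main term is `q ^ (d - e) / PiM E = q ^ d ∏ P ∈ S, xP P ≥ q ^ (d - e)`. -/
def S_tspx : Prop :=
  Pool.Agent.H290.PK.SBas → S_root → S_hidm → S_neare → S_fare → S_qb → Pool.Agent.H290.PK.SP

end Pool.Agent.H290.FX
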