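import Mathlib
import Pool.Agent.H290.FX.StmS
import Pool.Agent.H604.LD.Far2

set_option autoImplicit false

namespace Pool.Agent.H290.FX.PFare

open Polynomial
open scoped Classical
open Pool.Agent.H985.Chow (mob lc)
open Pool.Agent.H694.Typ (Mn mem_Mn card_Mn q_ge)

theorem swap {K : Type} [Field K] [Fintype K] (d j : ℕ) (E : K[X]) :
    ∑ a ∈ (Mn K d).filter (fun a => E ∣ a ^ 2 + X), (mob (a ^ 2 + X) : ℝ) *
        ∑ D ∈ (Mn K j).filter (fun D => D ∣ a ^ 2 + X ∧ IsCoprime D E), (mob D : ℝ) =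
      ∑ D ∈ Mn K j, (mob D : ℝ) *
        ∑ a ∈ (Mn K d).filter (fun a => E ∣ a ^ 2 + X ∧ D ∣ a ^ 2 + X ∧ IsCoprime D E),
          (mob (a ^ 2 + X) : ℝ) := by
  have eL : ∑ a ∈ (Mn K d).filter (fun a => E ∣ a ^ 2 + X), (mob (a ^ 2 + X) : ℝ) *
        ∑ D ∈ (Mn K j).filter (fun D => D ∣ a ^ 2 + X ∧ IsCoprime D E), (mob D : ℝ) =
      ∑ a ∈ Mn K d, ∑ D ∈ Mn K j, (if E ∣ a ^ 2 + X ∧ D ∣ a ^ 2 + X ∧ IsCoprime D E then
        (mob (a ^ 2 + X) : ℝ) * (mob D : ℝ) else 0) := by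
    rw [Finset.sum_filter]
    refine Finset.sum_congr rfl fun a _ => ?_
    by_cases h : E ∣ a ^ 2 + X
    · rw [if_pos h, Finset.sum_filter, Finset.mul_sum]
      refine Finset.sum_congr rfl fun D _ => ?_
      by_cases h2 : D ∣ a ^ 2 + X ∧ IsCoprime D E
      · rw [if_pos h2, if_pos ⟨h, h2⟩]
      · rw [if_neg h2, if_neg (fun h3 => h2 h3.2), mul_zero]
    · rw [if_neg h]
      symm
      exact Finset.sum_eq_zero fun D _ => if_neg (fun h3 => h h3.1)
  have eR : ∑ D ∈ Mn K j, (mob D : ℝ) *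
        ∑ a ∈ (Mn K d).filter (fun a => E ∣ a ^ 2 + X ∧ D ∣ a ^ 2 + X ∧ IsCoprime D E),
          (mob (a ^ 2 + X) : ℝ) =
      ∑ D ∈ Mn K j, ∑ a ∈ Mn K d, (if E ∣ a ^ 2 + X ∧ D ∣ a ^ 2 + X ∧ IsCoprime D E then
        (mob (a ^ 2 + X) : ℝ) * (mob D : ℝ) else 0) := by
    refine Finset.sum_congr rfl fun D _ => ?_
    rw [Finset.sum_filter, Finset.mul_sum]
    refine Finset.sum_congr rfl fun a _ => ?_
    by_cases h2 : E ∣ a ^ 2 + X ∧ D ∣ a ^ 2 + X ∧ IsCoprime D E
    · rw [if_pos h2, if_pos h2, mul_comm]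
    · rw [if_neg h2, if_neg h2, mul_zero]
  rw [eL, eR, Finset.sum_comm]

theorem main : S_tfare := by
  intro hroot hweyl K _ _ _ κ hκ
  obtain ⟨c, hc, d₀, hW⟩ := hweyl K κ hκ
  refine ⟨c, hc, d₀, ?_⟩
  intro d j E hd hE hEs hj
  have hd0 : (0 : ℝ) ≤ d := Nat.cast_nonneg d
  have hjd : j + E.natDegree ≤ d := by
    have h1 : ((j + E.natDegree : ℕ) : ℝ) ≤ d := by nlinarith
    exact_mod_cast h1
  have hq1 : (1 : ℝ) ≤ Fintype.card K := by
    exact_mod_cast Fintype.card_pos (α := K)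
  have hq0 : (0 : ℝ) < Fintype.card K := by linarith
  rw [swap]
  have hterm : ∀ D ∈ Mn K j, |(mob D : ℝ) *
        ∑ a ∈ (Mn K d).filter (fun a => E ∣ a ^ 2 + X ∧ D ∣ a ^ 2 + X ∧ IsCoprime D E),
          (mob (a ^ 2 + X) : ℝ)| ≤
      (Fintype.card K : ℝ) ^ ((d : ℝ) - j - c * d) := by
    intro D hD
    rw [mem_Mn] at hD
    by_cases hs : Squarefree D
    · by_cases hcop : IsCoprime D E
      · have hG : (D * E).Monic := hD.1.mul hE
        have hGd : (D * E).natDegree = j + E.natDegree := by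
          rw [hD.1.natDegree_mul hE, hD.2]
        have hGs : Squarefree (D * E) :=
          (squarefree_mul_iff.mpr ⟨hcop.isRelPrime, hs, hEs⟩)
        obtain ⟨hr1, hr2⟩ := (hroot K (D * E) hG).1 hGs
        have hDd : (D * E).natDegree ≤ d := by rw [hGd]; exact hjd
        have hfil : (Mn K d).filter
            (fun a => E ∣ a ^ 2 + X ∧ D ∣ a ^ 2 + X ∧ IsCoprime D E) =
            (Mn K d).filter (fun a => D * E ∣ a ^ 2 + X) := by
          refine Finset.filter_congr fun a _ => ?_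
          constructor
          · rintro ⟨h1, h2, -⟩
            exact hcop.mul_dvd h2 h1
          · intro h
            exact ⟨(dvd_mul_left _ _).trans h, (dvd_mul_right _ _).trans h, hcop⟩
        rw [hfil, Pool.Agent.H604.LD.Far2.sum_res hG hGs hDd hr2 hr1
          (fun a => (mob (a ^ 2 + X) : ℝ)), abs_mul]
        have hrd : (rt (D * E)).degree < (d : WithBot ℕ) := by
          refine hr2.trans_le ?_
          rw [degree_eq_natDegree hG.ne_zero]
          exact_mod_cast hDd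
        have hw := hW d (1 : AddChar K[X] ℝ) hd (D * E) (rt (D * E)) hG
          (by rw [hGd]; exact hj) hrd
        simp only [AddChar.one_apply, one_mul] at hw
        have h6 : (Fintype.card K : ℝ) ^ ((d : ℝ) - (D * E).natDegree - c * d) ≤
            (Fintype.card K : ℝ) ^ ((d : ℝ) - j - c * d) := by
          refine Real.rpow_le_rpow_of_exponent_le hq1 ?_
          have h7 : (j : ℝ) ≤ ((D * E).natDegree : ℝ) := by
            rw [hGd]
            exact_mod_cast Nat.le_add_right _ _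
          linarith
        calc |(mob D : ℝ)| * _ ≤ 1 * (Fintype.card K : ℝ) ^ ((d : ℝ) - j - c * d) :=
              mul_le_mul (Pool.Agent.H604.LD.Far2.mob_le D) (hw.trans h6) (abs_nonneg _)
                zero_le_one
          _ = _ := one_mul _
      · have hfil : (Mn K d).filter
            (fun a => E ∣ a ^ 2 + X ∧ D ∣ a ^ 2 + X ∧ IsCoprime D E) = ∅ := by
          refine Finset.filter_false_of_mem fun a _ h => hcop h.2.2
        rw [hfil, Finset.sum_empty, mul_zero, abs_zero]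
        exact Real.rpow_nonneg hq0.le _
    · have h5 : (mob D : ℝ) = 0 := by
        unfold mob
        rw [if_neg hs]
        simp
      rw [h5, zero_mul, abs_zero]
      exact Real.rpow_nonneg hq0.le _
  calc |∑ D ∈ Mn K j, (mob D : ℝ) *
        ∑ a ∈ (Mn K d).filter (fun a => E ∣ a ^ 2 + X ∧ D ∣ a ^ 2 + X ∧ IsCoprime D E),
          (mob (a ^ 2 + X) : ℝ)|
      ≤ ∑ D ∈ Mn K j, |(mob D : ℝ) *
        ∑ a ∈ (Mn K d).filter (fun a => E ∣ a ^ 2 + X ∧ D ∣ a ^ 2 + X ∧ IsCoprime D E),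
          (mob (a ^ 2 + X) : ℝ)| :=
        Finset.abs_sum_le_sum_abs _ _
    _ ≤ ∑ _D ∈ Mn K j, (Fintype.card K : ℝ) ^ ((d : ℝ) - j - c * d) :=
        Finset.sum_le_sum hterm
    _ = (Fintype.card K : ℝ) ^ (j : ℝ) * (Fintype.card K : ℝ) ^ ((d : ℝ) - j - c * d) := by
        rw [Finset.sum_const, card_Mn, nsmul_eq_mul, Nat.cast_pow, Real.rpow_natCast]
    _ = (Fintype.card K : ℝ) ^ ((1 - c) * d) := by
        rw [← Real.rpow_add hq0]
        congr 1
        ring

end Pool.Agent.H290.FX.PFare
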