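import Pool.Agent.H290.FX.StmS
import Pool.Agent.H604.LD.HidG

/-!
# Task HIDM (helper665): the identity for the irreducible polynomials, any degree
-/

set_option autoImplicit false

namespace Pool.Agent.H290.FX.PHidm

open Polynomial
open scoped Classical
open Pool.Agent.H985.Chow (mob)
open Pool.Agent.H694.Typ (Mn)
open Pool.Agent.H290.FX

theorem main : S_hidm := by
  intro K _ _ m g hm hg hs hdeg
  rw [← Pool.Agent.H604.LD.hidg K m g hm hg hs hdeg]
  refine congrArg (fun x : ℝ => (1 - (mob g : ℝ)) * x) ?_
  refine Finset.sum_subset (fun j hj => ?_) (fun j hj hj2 => ?_)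
  · rw [Finset.mem_filter, Finset.mem_range] at hj
    rw [Finset.mem_range]
    omega
  · rw [Finset.mem_range] at hj
    rw [Finset.mem_filter, Finset.mem_range, not_and_or] at hj2
    have h1 : 2 * j = m := by omega
    have h2 : (2 : ℝ) * j = m := by exact_mod_cast h1
    rw [← h2]
    ring

end Pool.Agent.H290.FX.PHidm
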