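import Pool.Agent.H290.FX.StmS
import Pool.Agent.H604.LD.NearP

/-!
# The divisors near `d` in a residue class (task NEARE)

The functions on `K[X]` which are linear combinations of additive characters form an algebra with a
submultiplicative norm (the sum of the absolute values of the coefficients); the indicator function of
a residue class has norm at most `1`, and that of the polynomials prime to `E` at most `2 ^ ω(E)`.
-/

set_option autoImplicit false

namespace Pool.Agent.H290.FX.PNeare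

open Polynomial
open scoped Classical
open Pool.Agent.H290.FX
open Pool.Agent.H985.Chow (mob lc)
open Pool.Agent.H985.KP (sg)
open Pool.Agent.H694.Typ (Mn mem_Mn card_Mn)
open Pool.Agent.H985.Chow.RT (lc_add lc_sub lc_zero)
open Pool.Agent.H985.KP.Loc2 (sg_abs sg_add sg_zero)
open Pool.Agent.H604.LD.NearPL (card_PT detect fintPT)

section rep

variable {K : Type} [Field K]

/-- `u` is a linear combination of additive characters; the sum of the absolute values of the
coefficients is at most `A`. -/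
def Rep (u : K[X] → ℝ) (A : ℝ) : Prop :=
  ∃ (ι : Type) (_ : Fintype ι) (α : ι → ℝ) (χ : ι → AddChar K[X] ℝ),
    (∀ x, u x = ∑ i, α i * χ i x) ∧ ∑ i, |α i| ≤ A

theorem Rep.nonneg {u : K[X] → ℝ} {A : ℝ} (hu : Rep u A) : 0 ≤ A := by
  obtain ⟨ι, _, α, χ, h1, h2⟩ := hu
  exact (Finset.sum_nonneg fun i _ => abs_nonneg (α i)).trans h2

theorem rep_one : Rep (fun _ : K[X] => (1 : ℝ)) 1 := by
  refine ⟨Unit, inferInstance, fun _ => 1, fun _ => 1, fun x => ?_, ?_⟩
  · simp
  · simp

theorem Rep.sub {u v : K[X] → ℝ} {A B : ℝ} (hu : Rep u A) (hv : Rep v B) :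
    Rep (fun x => u x - v x) (A + B) := by
  obtain ⟨ι, _, α, χ, h1, h2⟩ := hu
  obtain ⟨κ, _, β, ψ, h3, h4⟩ := hv
  refine ⟨ι ⊕ κ, inferInstance, Sum.elim α (fun j => -β j), Sum.elim χ ψ, fun x => ?_, ?_⟩
  · show u x - v x = _
    rw [Fintype.sum_sum_type, h1, h3]
    simp only [Sum.elim_inl, Sum.elim_inr, neg_mul, Finset.sum_neg_distrib, sub_eq_add_neg]
  · rw [Fintype.sum_sum_type]
    simp only [Sum.elim_inl, Sum.elim_inr, abs_neg]
    exact add_le_add h2 h4

theorem Rep.mul {u v : K[X] → ℝ} {A B : ℝ} (hu : Rep u A) (hv : Rep v B) :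
    Rep (fun x => u x * v x) (A * B) := by
  have hA := hu.nonneg
  obtain ⟨ι, _, α, χ, h1, h2⟩ := hu
  obtain ⟨κ, _, β, ψ, h3, h4⟩ := hv
  refine ⟨ι × κ, inferInstance, fun i => α i.1 * β i.2, fun i => χ i.1 * ψ i.2, fun x => ?_, ?_⟩
  · show u x * v x = _
    rw [Fintype.sum_prod_type, h1, h3, Finset.sum_mul_sum]
    refine Finset.sum_congr rfl fun i _ => Finset.sum_congr rfl fun j _ => ?_
    rw [AddChar.mul_apply]
    ring
  · rw [Fintype.sum_prod_type]
    have e : ∑ i, ∑ j, |α i * β j| = (∑ i, |α i|) * ∑ j, |β j| := by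
      rw [Finset.sum_mul_sum]
      refine Finset.sum_congr rfl fun i _ => Finset.sum_congr rfl fun j _ => abs_mul _ _
    rw [e]
    exact mul_le_mul h2 h4 (Finset.sum_nonneg fun i _ => abs_nonneg _) hA

theorem rep_prod (s : Finset K[X]) (f : K[X] → K[X] → ℝ) (h : ∀ P ∈ s, Rep (f P) 2) :
    Rep (fun x => ∏ P ∈ s, f P x) (2 ^ s.card) := by
  induction s using Finset.induction_on with
  | empty =>
    simp only [Finset.prod_empty, Finset.card_empty, pow_zero]
    exact rep_one
  | insert P s hP ih =>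
    rw [Finset.card_insert_of_notMem hP, pow_succ']
    have h1 := (h P (Finset.mem_insert_self _ _)).mul
      (ih fun Q hQ => h Q (Finset.mem_insert_of_mem hQ))
    have e : (fun x => ∏ Q ∈ insert P s, f Q x) = fun x => f P x * ∏ Q ∈ s, f Q x := by
      funext x
      exact Finset.prod_insert hP
    rw [e]
    exact h1

/-- A linear functional which is bounded on the characters. -/
theorem Rep.bound (L : (K[X] → ℝ) →ₗ[ℝ] ℝ) {M : ℝ}
    (hM : ∀ χ : AddChar K[X] ℝ, |L (fun x => χ x)| ≤ M) {u : K[X] → ℝ} {A : ℝ} (hu : Rep u A) :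
    |L u| ≤ A * M := by
  obtain ⟨ι, _, α, χ, h1, h2⟩ := hu
  have hM0 : 0 ≤ M := (abs_nonneg _).trans (hM 1)
  have e : u = ∑ i, α i • (fun x => χ i x) := by
    funext x
    rw [Finset.sum_apply, h1]
    rfl
  rw [e, map_sum]
  calc |∑ i, L (α i • fun x => χ i x)| ≤ ∑ i, |L (α i • fun x => χ i x)| :=
        Finset.abs_sum_le_sum_abs _ _
    _ ≤ ∑ i, |α i| * M := by
        refine Finset.sum_le_sum fun i _ => ?_
        rw [map_smul, smul_eq_mul, abs_mul]
        exact mul_le_mul_of_nonneg_left (hM _) (abs_nonneg _)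
    _ = (∑ i, |α i|) * M := by rw [Finset.sum_mul]
    _ ≤ A * M := mul_le_mul_of_nonneg_right h2 hM0

end rep

section ind

variable {K : Type} [Field K] [Fintype K] [CharP K 2]

/-- the character `x ↦ sg (lc N (ξ x))` -/
noncomputable def chN (N ξ : K[X]) : AddChar K[X] ℝ where
  toFun x := sg (lc N (ξ * x))
  map_zero_eq_one' := by rw [mul_zero, lc_zero, sg_zero]
  map_add_eq_mul' x y := by rw [mul_add, lc_add, sg_add]

/-- The indicator function of a residue class. -/
theorem rep_ind {N : K[X]} (hN : N.Monic) (e : K[X]) :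
    Rep (fun x => if N ∣ x - e then (1 : ℝ) else 0) 1 := by
  have hq0 : (0 : ℝ) < Fintype.card K := by exact_mod_cast Fintype.card_pos
  refine ⟨degreeLT K (N.natDegree - 0), inferInstance,
    fun ξ => (Fintype.card K : ℝ) ^ (((0 : ℕ) : ℝ) - N.natDegree) * sg (lc N (ξ.1 * e)),
    fun ξ => chN N ξ.1, fun x => ?_, ?_⟩
  · have h := detect hN (x - e) 0
    have hy : ∀ y : degreeLT K 0, y.1 = 0 := by
      intro y
      have h1 := y.2
      rw [mem_degreeLT] at h1
      by_contra hne
      rw [degree_eq_natDegree hne] at h1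
      have h3 : y.1.natDegree < 0 := by exact_mod_cast h1
      omega
    have hc : ((((Finset.univ : Finset (degreeLT K 0)).filter
        (fun y => N ∣ y.1 - (x - e))).card : ℕ) : ℝ) = if N ∣ x - e then 1 else 0 := by
      by_cases hx : N ∣ x - e
      · rw [if_pos hx]
        have h1 : (Finset.univ : Finset (degreeLT K 0)).filter
            (fun y => N ∣ y.1 - (x - e)) = Finset.univ := by
          rw [Finset.filter_eq_self]
          intro y _
          rw [hy y, zero_sub]
          exact (dvd_neg).2 hx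
        rw [h1, Finset.card_univ, card_PT, pow_zero, Nat.cast_one]
      · rw [if_neg hx]
        have h1 : (Finset.univ : Finset (degreeLT K 0)).filter
            (fun y => N ∣ y.1 - (x - e)) = ∅ := by
          rw [Finset.filter_eq_empty_iff]
          intro y _ h2
          rw [hy y, zero_sub] at h2
          exact hx ((dvd_neg).1 h2)
        rw [h1, Finset.card_empty, Nat.cast_zero]
    rw [hc] at h
    show (if N ∣ x - e then (1 : ℝ) else 0) = _
    rw [h, Finset.mul_sum]
    refine Finset.sum_congr rfl fun ξ _ => ?_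
    have e1 : ξ.1 * (x - e) = ξ.1 * e + ξ.1 * x := by
      have h2 : (2 : K[X]) = 0 := CharTwo.two_eq_zero
      linear_combination (-(ξ.1 * e)) * h2
    rw [e1, lc_add, sg_add, ← mul_assoc]
    rfl
  · have h1 : ∀ ξ : degreeLT K (N.natDegree - 0),
        |(Fintype.card K : ℝ) ^ (((0 : ℕ) : ℝ) - N.natDegree) * sg (lc N (ξ.1 * e))| =
          (Fintype.card K : ℝ) ^ (((0 : ℕ) : ℝ) - N.natDegree) := by
      intro ξ
      rw [abs_mul, sg_abs, mul_one, abs_of_nonneg (Real.rpow_nonneg hq0.le _)]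
    rw [Finset.sum_congr rfl fun ξ _ => h1 ξ, Finset.sum_const, Finset.card_univ, card_PT,
      nsmul_eq_mul, Nat.cast_pow, Nat.sub_zero, ← Real.rpow_natCast, ← Real.rpow_add hq0,
      Nat.cast_zero, zero_sub, add_neg_cancel, Real.rpow_zero]

/-- the monic irreducible factors of `E` -/
noncomputable def fac (E : K[X]) : Finset K[X] :=
  (UniqueFactorizationMonoid.normalizedFactors E).toFinset

omit [Fintype K] [CharP K 2] in
theorem mem_fac {E P : K[X]} (h : P ∈ fac E) : P.Monic ∧ Irreducible P ∧ P ∣ E := by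
  unfold fac at h
  rw [Multiset.mem_toFinset] at h
  have h1 := UniqueFactorizationMonoid.irreducible_of_normalized_factor _ h
  refine ⟨?_, h1, UniqueFactorizationMonoid.dvd_of_mem_normalizedFactors h⟩
  have h2 := UniqueFactorizationMonoid.normalize_normalized_factor _ h
  rw [← h2]
  exact monic_normalize h1.ne_zero

omit [Fintype K] [CharP K 2] in
theorem coprime_iff {E : K[X]} (hE : E ≠ 0) (D : K[X]) :
    IsCoprime D E ↔ ∀ P ∈ fac E, ¬ P ∣ D := by
  constructor
  · intro h P hP h1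
    obtain ⟨-, h2, h3⟩ := mem_fac hP
    exact h2.not_isUnit (h.isUnit_of_dvd' h1 h3)
  · intro h
    refine isCoprime_of_prime_dvd (fun h1 => hE h1.2) fun z hz h1 h2 => ?_
    obtain ⟨P, hP, hzP⟩ := UniqueFactorizationMonoid.exists_mem_normalizedFactors_of_dvd hE
      hz.irreducible h2
    refine h P ?_ (hzP.dvd'.trans h1)
    unfold fac
    rwa [Multiset.mem_toFinset]

omit [Fintype K] [CharP K 2] in
theorem card_fac {E : K[X]} (hE : E.Monic) : (fac E).card ≤ E.natDegree := by
  have h1 : ∏ P ∈ fac E, P ∣ E := by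
    refine Finset.prod_dvd_of_coprime ?_ fun P hP => (mem_fac hP).2.2
    intro P hP Q hQ hne
    obtain ⟨hPm, hPi, -⟩ := mem_fac hP
    obtain ⟨hQm, hQi, -⟩ := mem_fac hQ
    show IsCoprime P Q
    rcases EuclideanDomain.dvd_or_coprime P Q hPi with h | h
    swap
    · exact h
    · exfalso
      apply hne
      exact eq_of_monic_of_associated hPm hQm (hPi.associated_of_dvd hQi h)
  have h2 : (∏ P ∈ fac E, P).natDegree = ∑ P ∈ fac E, P.natDegree :=
    natDegree_prod_of_monic _ _ fun P hP => (mem_fac hP).1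
  have h3 := natDegree_le_of_dvd h1 hE.ne_zero
  rw [h2] at h3
  refine le_trans ?_ h3
  rw [Finset.card_eq_sum_ones]
  exact Finset.sum_le_sum fun P hP => (mem_fac hP).2.1.natDegree_pos

/-- The indicator function of the polynomials prime to `E`. -/
theorem rep_cop {E : K[X]} (hE : E.Monic) :
    Rep (fun D => if IsCoprime D E then (1 : ℝ) else 0) (2 ^ (fac E).card) := by
  have h1 := rep_prod (fac E) (fun P D => 1 - if P ∣ D - 0 then (1 : ℝ) else 0) (by
    intro P hP
    have h2 := (rep_one (K := K)).sub (rep_ind (mem_fac hP).1 0)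
    have e : (1 : ℝ) + 1 = 2 := by norm_num
    rwa [e] at h2)
  have e : (fun D : K[X] => if IsCoprime D E then (1 : ℝ) else 0) =
      fun D => ∏ P ∈ fac E, (1 - if P ∣ D - 0 then (1 : ℝ) else 0) := by
    funext D
    by_cases h : IsCoprime D E
    · rw [if_pos h]
      rw [coprime_iff hE.ne_zero] at h
      symm
      refine Finset.prod_eq_one fun P hP => ?_
      rw [sub_zero, if_neg (h P hP), sub_zero]
    · rw [if_neg h]
      rw [coprime_iff hE.ne_zero] at h
      push Not at h
      obtain ⟨P, hP, hPD⟩ := h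
      symm
      refine Finset.prod_eq_zero hP ?_
      rw [sub_zero, if_pos hPD, sub_self]
  rw [e]
  exact h1

/-- the divisors of `a ^ 2 + X` -/
theorem dvd_iff (hr : S_root) {D : K[X]} (hD : D.Monic) (hs : Squarefree D) (a : K[X]) :
    D ∣ a ^ 2 + X ↔ D ∣ a - rt D := by
  obtain ⟨h1, h2⟩ := hr K D hD
  constructor
  · intro h
    exact (h2 a h).2
  · intro h
    have e2 : (2 : K[X]) = 0 := CharTwo.two_eq_zero
    have e : a ^ 2 + X = (rt D ^ 2 + X) + (a - rt D) ^ 2 := by
      linear_combination (a * rt D - rt D ^ 2) * e2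
    rw [e]
    exact dvd_add (h1 hs).1 (dvd_pow h two_ne_zero)

omit [CharP K 2] in
/-- The bilinear form. -/
theorem bil {u v : K[X] → ℝ} {A B M : ℝ} (hu : Rep u A) (hv : Rep v B) (d n : ℕ)
    (hM : ∀ χ χ' : AddChar K[X] ℝ, |∑ a ∈ Mn K d, χ a *
      ∑ D ∈ (Mn K n).filter (fun D => D ∣ a ^ 2 + X), (mob D : ℝ) * χ' D| ≤ M) :
    |∑ a ∈ Mn K d, u a * ∑ D ∈ (Mn K n).filter (fun D => D ∣ a ^ 2 + X), (mob D : ℝ) * v D| ≤
      A * (B * M) := by
  refine hu.bound (L := {
    toFun := fun u => ∑ a ∈ Mn K d, u a *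
      ∑ D ∈ (Mn K n).filter (fun D => D ∣ a ^ 2 + X), (mob D : ℝ) * v D
    map_add' := fun x y => by
      rw [← Finset.sum_add_distrib]
      exact Finset.sum_congr rfl fun a _ => add_mul _ _ _
    map_smul' := fun c x => by
      rw [RingHom.id_apply, smul_eq_mul, Finset.mul_sum]
      exact Finset.sum_congr rfl fun a _ => mul_assoc _ _ _ }) fun χ => ?_
  refine hv.bound (L := {
    toFun := fun v => ∑ a ∈ Mn K d, χ a *
      ∑ D ∈ (Mn K n).filter (fun D => D ∣ a ^ 2 + X), (mob D : ℝ) * v D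
    map_add' := fun x y => by
      rw [← Finset.sum_add_distrib]
      refine Finset.sum_congr rfl fun a _ => ?_
      rw [← mul_add, ← Finset.sum_add_distrib]
      exact congrArg _ (Finset.sum_congr rfl fun D _ => mul_add _ _ _)
    map_smul' := fun c x => by
      rw [RingHom.id_apply, smul_eq_mul, Finset.mul_sum]
      refine Finset.sum_congr rfl fun a _ => ?_
      have e : ∑ D ∈ (Mn K n).filter (fun D => D ∣ a ^ 2 + X), (mob D : ℝ) * (c • x) D =
          c * ∑ D ∈ (Mn K n).filter (fun D => D ∣ a ^ 2 + X), (mob D : ℝ) * x D := by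
        rw [Finset.mul_sum]
        refine Finset.sum_congr rfl fun D _ => ?_
        show (mob D : ℝ) * (c * x D) = c * ((mob D : ℝ) * x D)
        ring
      rw [e]
      ring }) fun χ' => ?_
  exact hM χ χ'

end ind

theorem main : S_tneare := by
  intro hr hx K _ _ _
  obtain ⟨c, θ, hc, hθ, d₀, hx⟩ := hx K
  have hq : (2 : ℝ) ≤ (Fintype.card K : ℝ) := Pool.Agent.H694.Typ.q_ge
  refine ⟨c / 2, min θ (c / 2), by positivity, by positivity, d₀, ?_⟩
  intro d n E hd hn hE hs hEd
  have hd0 : (0 : ℝ) ≤ d := Nat.cast_nonneg d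
  have hn' : |(n : ℝ) - d| ≤ θ * d :=
    hn.trans (mul_le_mul_of_nonneg_right (min_le_left _ _) hd0)
  have hE' : (E.natDegree : ℝ) ≤ c / 2 * d :=
    hEd.trans (mul_le_mul_of_nonneg_right (min_le_right _ _) hd0)
  have h1 := bil (rep_ind hE (rt E)) (rep_cop hE) d n (fun χ χ' => hx d n χ χ' hd hn')
  have e : ∑ a ∈ (Mn K d).filter (fun a => E ∣ a ^ 2 + X),
      ∑ D ∈ (Mn K n).filter (fun D => D ∣ a ^ 2 + X ∧ IsCoprime D E), (mob D : ℝ) =
      ∑ a ∈ Mn K d, (if E ∣ a - rt E then (1 : ℝ) else 0) *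
        ∑ D ∈ (Mn K n).filter (fun D => D ∣ a ^ 2 + X), (mob D : ℝ) *
          (if IsCoprime D E then (1 : ℝ) else 0) := by
    rw [Finset.sum_filter]
    refine Finset.sum_congr rfl fun a _ => ?_
    have e1 : ∑ D ∈ (Mn K n).filter (fun D => D ∣ a ^ 2 + X ∧ IsCoprime D E), (mob D : ℝ) =
        ∑ D ∈ (Mn K n).filter (fun D => D ∣ a ^ 2 + X), (mob D : ℝ) *
          (if IsCoprime D E then (1 : ℝ) else 0) := by
      rw [← Finset.filter_filter, Finset.sum_filter]
      refine Finset.sum_congr rfl fun D _ => ?_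
      split_ifs
      · rw [mul_one]
      · rw [mul_zero]
    rw [e1]
    by_cases h : E ∣ a ^ 2 + X
    · rw [if_pos h, if_pos ((dvd_iff hr hE hs a).1 h), one_mul]
    · rw [if_neg h, if_neg (fun h' => h ((dvd_iff hr hE hs a).2 h')), zero_mul]
  rw [e]
  refine h1.trans ?_
  rw [one_mul]
  obtain ⟨q, hqdef⟩ : ∃ q : ℝ, q = (Fintype.card K : ℝ) := ⟨_, rfl⟩
  rw [← hqdef] at hq ⊢
  have hq0 : 0 < q := by linarith
  have hq1 : 1 ≤ q := by linarith
  have h2 : (2 : ℝ) ^ (fac E).card ≤ q ^ (E.natDegree : ℝ) := by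
    calc (2 : ℝ) ^ (fac E).card ≤ 2 ^ E.natDegree := pow_le_pow_right₀ (by norm_num) (card_fac hE)
      _ ≤ q ^ E.natDegree := pow_le_pow_left₀ (by norm_num) hq _
      _ = q ^ (E.natDegree : ℝ) := (Real.rpow_natCast _ _).symm
  calc (2 : ℝ) ^ (fac E).card * q ^ ((1 - c) * (d : ℝ))
      ≤ q ^ (E.natDegree : ℝ) * q ^ ((1 - c) * (d : ℝ)) :=
        mul_le_mul_of_nonneg_right h2 (Real.rpow_nonneg hq0.le _)
    _ = q ^ ((E.natDegree : ℝ) + (1 - c) * (d : ℝ)) := (Real.rpow_add hq0 _ _).symm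
    _ ≤ q ^ ((1 - c / 2) * (d : ℝ)) := by
        apply Real.rpow_le_rpow_of_exponent_le hq1
        linarith

end Pool.Agent.H290.FX.PNeare
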