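import Pool.Agent.H290.FX.StmS
import Pool.Agent.H604.LD.NearP

/-!
# Near divisors with a character of `D`: task NEARXX (helper721, after helper975)
-/

set_option autoImplicit false

namespace Pool.Agent.H290.FX.PNearxx

open Polynomial
open scoped Classical
open Pool.Agent.H290.FX
open Pool.Agent.H985.Chow (mob lc)
open Pool.Agent.H985.KP (sg)
open Pool.Agent.H694.Typ (Mn mem_Mn card_Mn)
open Pool.Agent.H985.Chow.RT (lc_add lc_sub lc_zero lc_small)
open Pool.Agent.H985.KP.Loc2 (sg_abs sg_add sg_zero)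
open Pool.Agent.H604.LD.NearPL (card_PT detect mob_zero fintPT)

section base
variable {K : Type} [Field K] [Fintype K]

/-- the divisors of `a ^ 2 + X` -/
theorem dvd_iff [CharP K 2] (hr : S_root) {D : K[X]} (hD : D.Monic) (hs : Squarefree D) (a : K[X]) :
    D ∣ a ^ 2 + X ↔ D ∣ a - rt D := by
  obtain ⟨h1, h2⟩ := hr K D hD
  constructor
  · intro h
    exact (h2 a h).2
  · intro h
    have e2 : (2 : K[X]) = 0 := CharTwo.two_eq_zero
    have e : a ^ 2 + X = (rt D ^ 2 + X) + (a - rt D) ^ 2 := by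
      linear_combination (a * rt D - rt D ^ 2) * e2
    rw [e]
    exact dvd_add (h1 hs).1 (dvd_pow h two_ne_zero)

/-- the inner sum for `n ≤ d` -/
theorem inner_le [CharP K 2] (hr : S_root) {d n : ℕ} (hnd : n ≤ d) (χ : AddChar K[X] ℝ) {D : K[X]}
    (hD : D.Monic) (hDn : D.natDegree = n) (hs : Squarefree D) :
    ∑ a ∈ (Mn K d).filter (fun a => D ∣ a ^ 2 + X), χ a =
      ∑ s ∈ Mn K (d - n), χ (rt D) * χ (D * s) := by
  have hrt : (rt D).degree < D.degree := ((hr K D hD).1 hs).2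
  have hset : (Mn K d).filter (fun a => D ∣ a ^ 2 + X) =
      (Mn K (d - n)).image (fun s => rt D + D * s) := by
    ext a
    rw [Finset.mem_filter, Finset.mem_image]
    constructor
    · rintro ⟨ha, hda⟩
      have ha' := mem_Mn.1 ha
      obtain ⟨s, hs'⟩ := (dvd_iff hr hD hs a).1 hda
      have hlt : (rt D).degree < a.degree := by
        refine hrt.trans_le ?_
        rw [degree_eq_natDegree hD.ne_zero, degree_eq_natDegree ha'.1.ne_zero, hDn, ha'.2]
        exact_mod_cast hnd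
      have hm : (a - rt D).Monic := by
        rw [sub_eq_add_neg]
        apply ha'.1.add_of_left
        rwa [degree_neg]
      have hdeg : (a - rt D).natDegree = d := by
        rw [← ha'.2]
        apply natDegree_eq_of_degree_eq
        rw [sub_eq_add_neg]
        apply degree_add_eq_left_of_degree_lt
        rwa [degree_neg]
      rw [hs'] at hm hdeg
      have hsm : s.Monic := Monic.of_mul_monic_left hD hm
      have hsd : s.natDegree = d - n := by
        rw [hD.natDegree_mul hsm, hDn] at hdeg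
        omega
      refine ⟨s, mem_Mn.2 ⟨hsm, hsd⟩, ?_⟩
      rw [← hs']
      ring
    · rintro ⟨s, hs', rfl⟩
      have hs'' := mem_Mn.1 hs'
      have hm : (D * s).Monic := hD.mul hs''.1
      have hdeg : (D * s).natDegree = d := by
        rw [hD.natDegree_mul hs''.1, hDn, hs''.2]
        omega
      have hlt : (rt D).degree < (D * s).degree := by
        refine hrt.trans_le ?_
        rw [degree_eq_natDegree hD.ne_zero, degree_eq_natDegree hm.ne_zero, hDn, hdeg]
        exact_mod_cast hnd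
      refine ⟨mem_Mn.2 ⟨hm.add_of_right hlt, ?_⟩, ?_⟩
      · rw [← hdeg]
        exact natDegree_eq_of_degree_eq (degree_add_eq_right_of_degree_lt hlt)
      · rw [dvd_iff hr hD hs, add_sub_cancel_left]
        exact dvd_mul_right _ _
  rw [hset, Finset.sum_image]
  · refine Finset.sum_congr rfl fun s _ => ?_
    rw [AddChar.map_add_eq_mul]
  · intro s _ s' _ h
    exact mul_left_cancel₀ hD.ne_zero (add_left_cancel h)

/-- the inner sum for `d < n` -/
theorem inner_gt [CharP K 2] (hr : S_root) {d n : ℕ} (hnd : d < n) (χ : AddChar K[X] ℝ) {D : K[X]}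
    (hD : D.Monic) (hDn : D.natDegree = n) (hs : Squarefree D) :
    ∑ a ∈ (Mn K d).filter (fun a => D ∣ a ^ 2 + X), χ a =
      (Fintype.card K : ℝ) ^ ((d : ℝ) - n) * ∑ ξ : degreeLT K (n - d),
        sg (lc ((X : K[X]) ^ n) (ξ.1 * X ^ d)) * (χ (rt D) * sg (lc ((X : K[X]) ^ n) (ξ.1 * rt D))) := by
  have hrt : (rt D).degree < D.degree := ((hr K D hD).1 hs).2
  have hXn : ((X : K[X]) ^ n).Monic := monic_X_pow n
  have hXd : ((X : K[X]) ^ n).natDegree = n := natDegree_X_pow n
  have hcard : ((((Finset.univ : Finset (degreeLT K d)).filter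
      (fun y => (X : K[X]) ^ n ∣ y.1 - (rt D - X ^ d))).card : ℕ) : ℝ) =
      if rt D ∈ Mn K d then 1 else 0 := by
    have hiff : ∀ y : degreeLT K d, (X : K[X]) ^ n ∣ y.1 - (rt D - X ^ d) ↔
        y.1 = rt D - X ^ d := by
      intro y
      constructor
      · intro h
        have h1 : (y.1 - (rt D - X ^ d)).degree < ((X : K[X]) ^ n).degree := by
          rw [degree_X_pow]
          have h2 := y.2
          rw [mem_degreeLT] at h2
          have h3 : y.1.degree < (n : WithBot ℕ) := h2.trans (by exact_mod_cast hnd)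
          have h4 : (rt D).degree < (n : WithBot ℕ) := by
            rwa [degree_eq_natDegree hD.ne_zero, hDn] at hrt
          have h5 : ((X : K[X]) ^ d).degree < (n : WithBot ℕ) := by
            rw [degree_X_pow]
            exact_mod_cast hnd
          exact (degree_sub_le _ _).trans_lt (max_lt h3 ((degree_sub_le _ _).trans_lt (max_lt h4 h5)))
        exact sub_eq_zero.1 (eq_zero_of_dvd_of_degree_lt h h1)
      · intro h
        rw [h, sub_self]
        exact dvd_zero _
    by_cases hmem : rt D ∈ Mn K d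
    · rw [if_pos hmem]
      have hm := mem_Mn.1 hmem
      have h1 : rt D - X ^ d ∈ degreeLT K d := by
        rw [mem_degreeLT]
        have h2 : (rt D).degree = ((X : K[X]) ^ d).degree := by
          rw [degree_X_pow, degree_eq_natDegree hm.1.ne_zero, hm.2]
        have h3 : (rt D).leadingCoeff = ((X : K[X]) ^ d).leadingCoeff := by
          rw [hm.1.leadingCoeff, leadingCoeff_X_pow]
        have h4 := degree_sub_lt_left h2 hm.1.ne_zero h3
        rwa [degree_eq_natDegree hm.1.ne_zero, hm.2] at h4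
      have h2 : (Finset.univ : Finset (degreeLT K d)).filter
          (fun y => (X : K[X]) ^ n ∣ y.1 - (rt D - X ^ d)) = {⟨rt D - X ^ d, h1⟩} := by
        ext y
        rw [Finset.mem_filter, Finset.mem_singleton, hiff]
        simp only [Finset.mem_univ, true_and]
        exact ⟨fun h => Subtype.ext h, fun h => congrArg Subtype.val h⟩
      rw [h2, Finset.card_singleton, Nat.cast_one]
    · rw [if_neg hmem]
      have h2 : (Finset.univ : Finset (degreeLT K d)).filter
          (fun y => (X : K[X]) ^ n ∣ y.1 - (rt D - X ^ d)) = ∅ := by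
        rw [Finset.filter_eq_empty_iff]
        intro y _ h
        apply hmem
        have h3 := (hiff y).1 h
        have h4 : rt D = X ^ d + y.1 := by
          rw [h3]
          ring
        have h5 := y.2
        rw [mem_degreeLT] at h5
        have h6 : y.1.degree < ((X : K[X]) ^ d).degree := by
          rwa [degree_X_pow]
        rw [h4, mem_Mn]
        refine ⟨(monic_X_pow d).add_of_left h6, ?_⟩
        rw [natDegree_add_eq_left_of_degree_lt h6, natDegree_X_pow]
      rw [h2, Finset.card_empty, Nat.cast_zero]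
  have hleft : ∑ a ∈ (Mn K d).filter (fun a => D ∣ a ^ 2 + X), χ a =
      χ (rt D) * if rt D ∈ Mn K d then 1 else 0 := by
    have hset : (Mn K d).filter (fun a => D ∣ a ^ 2 + X) =
        (Mn K d).filter (fun a => a = rt D) := by
      apply Finset.filter_congr
      intro a ha
      have ha' := mem_Mn.1 ha
      rw [dvd_iff hr hD hs]
      constructor
      · intro h
        have h1 : (a - rt D).degree < D.degree := by
          refine (degree_sub_le _ _).trans_lt (max_lt ?_ hrt)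
          rw [degree_eq_natDegree hD.ne_zero, degree_eq_natDegree ha'.1.ne_zero, hDn, ha'.2]
          exact_mod_cast hnd
        exact sub_eq_zero.1 (eq_zero_of_dvd_of_degree_lt h h1)
      · intro h
        rw [h, sub_self]
        exact dvd_zero _
    rw [hset, Finset.filter_eq']
    split_ifs
    · rw [Finset.sum_singleton, mul_one]
    · rw [Finset.sum_empty, mul_zero]
  have hdet := detect hXn (rt D - X ^ d) d
  rw [hcard, hXd] at hdet
  rw [hleft, hdet, mul_left_comm, Finset.mul_sum]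
  congr 1
  refine Finset.sum_congr rfl fun ξ _ => ?_
  have e : ξ.1 * (rt D - X ^ d) = ξ.1 * rt D + ξ.1 * X ^ d := by
    have h2 : (2 : K[X]) = 0 := CharTwo.two_eq_zero
    linear_combination (-(ξ.1 * X ^ d)) * h2
  rw [e, lc_add, sg_add]
  ring

/-- interchange of the two sums -/
theorem swap (d n : ℕ) (χ χ' : AddChar K[X] ℝ) :
    ∑ a ∈ Mn K d, χ a * ∑ D ∈ (Mn K n).filter (fun D => D ∣ a ^ 2 + X), (mob D : ℝ) * χ' D =
      ∑ D ∈ Mn K n, (mob D : ℝ) * χ' D *
        ∑ a ∈ (Mn K d).filter (fun a => D ∣ a ^ 2 + X), χ a := by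
  have h1 : ∀ a ∈ Mn K d,
      χ a * ∑ D ∈ (Mn K n).filter (fun D => D ∣ a ^ 2 + X), (mob D : ℝ) * χ' D =
      ∑ D ∈ Mn K n, if D ∣ a ^ 2 + X then (mob D : ℝ) * χ' D * χ a else 0 := by
    intro a _
    rw [Finset.mul_sum, Finset.sum_filter]
    refine Finset.sum_congr rfl fun D _ => ?_
    split_ifs
    · ring
    · rfl
  rw [Finset.sum_congr rfl h1, Finset.sum_comm]
  refine Finset.sum_congr rfl fun D _ => ?_
  rw [Finset.mul_sum, ← Finset.sum_filter]

/-- the character `D ↦ χ (D s)` -/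
noncomputable def chs (χ : AddChar K[X] ℝ) (s : K[X]) : AddChar K[X] ℝ where
  toFun D := χ (D * s)
  map_zero_eq_one' := by rw [zero_mul, AddChar.map_zero_eq_one]
  map_add_eq_mul' x y := by rw [add_mul, AddChar.map_add_eq_mul]

/-- the character `r ↦ χ r * sg (lc N (ξ r))` -/
noncomputable def chx [CharP K 2] (χ : AddChar K[X] ℝ) (N ξ : K[X]) : AddChar K[X] ℝ where
  toFun r := χ r * sg (lc N (ξ * r))
  map_zero_eq_one' := by rw [mul_zero, lc_zero, sg_zero, AddChar.map_zero_eq_one, mul_one]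
  map_add_eq_mul' x y := by
    rw [mul_add, lc_add, sg_add, AddChar.map_add_eq_mul]
    ring

theorem sum_le [CharP K 2] (hr : S_root) {d n : ℕ} (hnd : n ≤ d) (χ χ' : AddChar K[X] ℝ) :
    ∑ a ∈ Mn K d, χ a * ∑ D ∈ (Mn K n).filter (fun D => D ∣ a ^ 2 + X), (mob D : ℝ) * χ' D =
      ∑ s ∈ Mn K (d - n), ∑ D ∈ Mn K n, (mob D : ℝ) * χ (rt D) * (chs χ s * χ') D := by
  rw [swap, Finset.sum_comm]
  refine Finset.sum_congr rfl fun D hD => ?_
  have hD' := mem_Mn.1 hD
  by_cases hs : Squarefree D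
  · rw [inner_le hr hnd χ hD'.1 hD'.2 hs, Finset.mul_sum]
    refine Finset.sum_congr rfl fun s _ => ?_
    rw [AddChar.mul_apply]
    show _ = (mob D : ℝ) * χ (rt D) * (χ (D * s) * χ' D)
    ring
  · rw [mob_zero hs]
    simp

theorem sum_gt [CharP K 2] (hr : S_root) {d n : ℕ} (hnd : d < n) (χ χ' : AddChar K[X] ℝ) :
    ∑ a ∈ Mn K d, χ a * ∑ D ∈ (Mn K n).filter (fun D => D ∣ a ^ 2 + X), (mob D : ℝ) * χ' D =
      (Fintype.card K : ℝ) ^ ((d : ℝ) - n) * ∑ ξ : degreeLT K (n - d),
        sg (lc ((X : K[X]) ^ n) (ξ.1 * X ^ d)) *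
          ∑ D ∈ Mn K n, (mob D : ℝ) * chx χ ((X : K[X]) ^ n) ξ.1 (rt D) * χ' D := by
  rw [swap]
  have h1 : ∀ D ∈ Mn K n, (mob D : ℝ) * χ' D *
      ∑ a ∈ (Mn K d).filter (fun a => D ∣ a ^ 2 + X), χ a =
      (Fintype.card K : ℝ) ^ ((d : ℝ) - n) * ∑ ξ : degreeLT K (n - d),
        sg (lc ((X : K[X]) ^ n) (ξ.1 * X ^ d)) *
          ((mob D : ℝ) * chx χ ((X : K[X]) ^ n) ξ.1 (rt D) * χ' D) := by
    intro D hD
    have hD' := mem_Mn.1 hD
    by_cases hs : Squarefree D
    · rw [inner_gt hr hnd χ hD'.1 hD'.2 hs, mul_left_comm, Finset.mul_sum]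
      congr 1
      refine Finset.sum_congr rfl fun ξ _ => ?_
      show _ = _ * ((mob D : ℝ) * (χ (rt D) * sg (lc ((X : K[X]) ^ n) (ξ.1 * rt D))) * χ' D)
      ring
    · rw [mob_zero hs]
      simp
  rw [Finset.sum_congr rfl h1, ← Finset.mul_sum, Finset.sum_comm]
  congr 1
  refine Finset.sum_congr rfl fun ξ _ => ?_
  rw [Finset.mul_sum]

end base

theorem main : S_tnearxx := by
  intro hr hk K _ _ _
  obtain ⟨c₁, hc₁, n₀, hk⟩ := hk K
  have hq : (2 : ℝ) ≤ (Fintype.card K : ℝ) := Pool.Agent.H694.Typ.q_ge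
  obtain ⟨q, hqdef⟩ : ∃ q : ℝ, q = (Fintype.card K : ℝ) := ⟨_, rfl⟩
  have hq0 : 0 < q := by rw [hqdef]; linarith
  have hq1 : 1 ≤ q := by rw [hqdef]; linarith
  obtain ⟨c₂, hc₂⟩ : ∃ c₂, c₂ = min c₁ (1 / 2) := ⟨_, rfl⟩
  have hc₂0 : 0 < c₂ := by rw [hc₂]; positivity
  have hc₂1 : c₂ ≤ c₁ := by rw [hc₂]; exact min_le_left _ _
  have hc₂2 : c₂ ≤ 1 / 2 := by rw [hc₂]; exact min_le_right _ _
  refine ⟨c₂ / 2, c₂ / 4, by positivity, by positivity, 2 * n₀, ?_⟩
  intro d n χ χ' hd hnd
  obtain ⟨hn1, hn2⟩ := abs_le.1 hnd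
  have hd0 : (0 : ℝ) ≤ d := Nat.cast_nonneg d
  have hn0 : (0 : ℝ) ≤ n := Nat.cast_nonneg n
  have hcd : c₂ / 4 * d ≤ d / 8 := by
    have := mul_le_mul_of_nonneg_right hc₂2 hd0
    linarith
  have hn₀ : n₀ ≤ n := by
    have h1 : ((2 * n₀ : ℕ) : ℝ) ≤ d := by exact_mod_cast hd
    have h2 : (n₀ : ℝ) ≤ n := by push_cast at h1; linarith
    exact_mod_cast h2
  have hkey : ∀ χ₁ χ₂ : AddChar K[X] ℝ,
      |∑ A ∈ Mn K n, (mob A : ℝ) * χ₁ (rt A) * χ₂ A| ≤ q ^ ((1 - c₂) * n) := by
    intro χ₁ χ₂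
    refine (hk n χ₁ χ₂ hn₀).trans ?_
    rw [← hqdef]
    apply Real.rpow_le_rpow_of_exponent_le hq1
    exact mul_le_mul_of_nonneg_right (by linarith) hn0
  rw [← hqdef]
  rcases le_or_gt n d with h | h
  · rw [sum_le hr h χ χ']
    refine (Finset.abs_sum_le_sum_abs _ _).trans ((Finset.sum_le_sum fun s _ =>
      hkey χ (chs χ s * χ')).trans ?_)
    rw [Finset.sum_const, card_Mn, nsmul_eq_mul, Nat.cast_pow, ← hqdef, ← Real.rpow_natCast,
      ← Real.rpow_add hq0]
    apply Real.rpow_le_rpow_of_exponent_le hq1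
    rw [Nat.cast_sub h]
    have h1 : c₂ * (d - d / 8) ≤ c₂ * n := mul_le_mul_of_nonneg_left (by linarith) hc₂0.le
    have h2 : 0 ≤ c₂ * d := by positivity
    nlinarith [h1, h2]
  · rw [sum_gt hr h χ χ', abs_mul, ← hqdef, abs_of_nonneg (Real.rpow_nonneg hq0.le _)]
    have h1 : |∑ ξ : degreeLT K (n - d), sg (lc ((X : K[X]) ^ n) (ξ.1 * X ^ d)) *
          ∑ D ∈ Mn K n, (mob D : ℝ) * chx χ ((X : K[X]) ^ n) ξ.1 (rt D) * χ' D| ≤ q ^ (n - d) * q ^ ((1 - c₂) * n) := by
      refine (Finset.abs_sum_le_sum_abs _ _).trans ((Finset.sum_le_sum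
        (g := fun _ => q ^ ((1 - c₂) * (n : ℝ))) fun ξ _ => ?_).trans ?_)
      · rw [abs_mul, sg_abs, one_mul]
        exact hkey _ _
      · rw [Finset.sum_const, Finset.card_univ, card_PT, nsmul_eq_mul, Nat.cast_pow, ← hqdef]
    refine (mul_le_mul_of_nonneg_left h1 (Real.rpow_nonneg hq0.le _)).trans ?_
    rw [← Real.rpow_natCast q (n - d), ← Real.rpow_add hq0, ← Real.rpow_add hq0]
    apply Real.rpow_le_rpow_of_exponent_le hq1
    rw [Nat.cast_sub h.le]
    have h2 : (1 - c₂) * (n : ℝ) ≤ (1 - c₂) * (d + c₂ / 4 * d) :=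
      mul_le_mul_of_nonneg_left (by linarith) (by linarith)
    have h3 : 0 ≤ c₂ * d := by positivity
    have h4 : 0 ≤ c₂ * (c₂ / 4 * d) := by positivity
    nlinarith [h2, h3, h4]

end Pool.Agent.H290.FX.PNearxx

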