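import Pool.Agent.H290.FX.StmS
import Pool.Agent.H290.PK.PUp
import Pool.Agent.H604.LD.Fin
import Pool.Agent.H604.LD.Far2

/-!
# Task SPX: the input of `PK` from the key estimate
-/

set_option autoImplicit false
set_option linter.unusedSectionVars false

namespace Pool.Agent.H290.FX.PSpx

open Polynomial
open scoped Classical
open Pool.Agent.H985.Chow (mob)
open Pool.Agent.H985.KP (PA)
open Pool.Agent.H694.Typ (Mn mem_Mn card_Mn)
open Pool.Agent.H604.LD (PiM)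
open Pool.Agent.H604.LD.FIN (fmon sqf mob_mul_sqf mob_mul_self)
open Pool.Agent.H290.CT (M mem_M)
open Pool.Agent.H290.PK (MI dg xP NS pf SBas SP)
open Pool.Agent.H290.PK.PUp

section

variable {K : Type} [Field K] [Fintype K]

lemma M_eq (d : ℕ) : M K d = Mn K d := by
  ext a
  rw [mem_M, mem_Mn]

lemma dvd_prod_iff {S : Finset K[X]} (hS : MI S) {f : K[X]} :
    ∏ P ∈ S, P ∣ f ↔ ∀ P ∈ S, P ∣ f :=
  ⟨fun h P hP => (Finset.dvd_prod_of_mem (fun P => P) hP).trans h, prod_dvd hS⟩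

lemma irr_prod_iff {T : Finset K[X]} (hT : MI T) : Irreducible (∏ P ∈ T, P) ↔ T.card = 1 := by
  constructor
  · intro h
    have h0 : T.Nonempty := by
      rw [Finset.nonempty_iff_ne_empty]
      rintro rfl
      rw [Finset.prod_empty] at h
      exact not_irreducible_one h
    obtain ⟨P, hP⟩ := h0
    have e1 : ∏ Q ∈ T, Q = P * ∏ Q ∈ T.erase P, Q := (Finset.mul_prod_erase T (fun Q => Q) hP).symm
    rcases h.isUnit_or_isUnit e1 with h1 | h1
    · exact absurd h1 (hT P hP).2.not_isUnit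
    · have h2 : T.erase P = ∅ := by
        rw [Finset.eq_empty_iff_forall_notMem]
        intro Q hQ
        have h3 : Q ∣ ∏ Q ∈ T.erase P, Q := Finset.dvd_prod_of_mem (fun Q => Q) hQ
        exact (hT Q (Finset.mem_of_mem_erase hQ)).2.not_isUnit (isUnit_of_dvd_unit h3 h1)
      have h3 := Finset.card_erase_of_mem hP
      rw [h2, Finset.card_empty] at h3
      have h4 : 0 < T.card := Finset.card_pos.2 ⟨P, hP⟩
      omega
  · intro h
    obtain ⟨P, rfl⟩ := Finset.card_eq_one.1 h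
    rw [Finset.prod_singleton]
    exact (hT P (Finset.mem_singleton_self P)).2

lemma PA_prod {S : Finset K[X]} (hS : MI S) :
    PA (∏ P ∈ S, P) = (S : Set K[X]) := by
  ext P
  unfold PA
  rw [Set.mem_ofPred_eq, Finset.mem_coe]
  constructor
  · rintro ⟨h1, h2, h3⟩
    by_contra h
    exact h2.not_isUnit ((coprime_prod hS ⟨h1, h2⟩ h).isUnit_of_dvd' dvd_rfl h3)
  · intro h
    exact ⟨(hS P h).1, (hS P h).2, Finset.dvd_prod_of_mem (fun P => P) h⟩

lemma PiM_prod {S : Finset K[X]} (hS : MI S) :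
    PiM (∏ P ∈ S, P) = ∏ P ∈ S, (1 - 1 / (Fintype.card K : ℝ) ^ P.natDegree) := by
  unfold PiM
  rw [PA_prod hS]
  exact finprod_mem_coe_finset _ _

lemma xP_ge {P : K[X]} (h : Irreducible P) :
    1 / (Fintype.card K : ℝ) ^ P.natDegree ≤ xP P := by
  have h1 : (1 : ℝ) < (Fintype.card K : ℝ) ^ P.natDegree :=
    one_lt_pow₀ one_lt_q (deg_pos h).ne'
  unfold xP
  exact one_div_le_one_div_of_le (by linarith) (by linarith)

lemma prod_xP_ge {S : Finset K[X]} (hS : MI S) :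
    1 / (Fintype.card K : ℝ) ^ dg S ≤ ∏ P ∈ S, xP P := by
  have h1 : ∏ P ∈ S, 1 / (Fintype.card K : ℝ) ^ P.natDegree =
      1 / (Fintype.card K : ℝ) ^ dg S := by
    rw [Finset.prod_div_distrib, Finset.prod_const_one, Finset.prod_pow_eq_pow_sum]
    rfl
  rw [← h1]
  exact Finset.prod_le_prod (fun P _ => by positivity) (fun P hP => xP_ge (hS P hP).2)

lemma sqf_prod {S : Finset K[X]} (hS : MI S) : Squarefree (∏ P ∈ S, P) := by
  induction S using Finset.induction_on with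
  | empty => rw [Finset.prod_empty]; exact squarefree_one
  | insert Q S hQ ih =>
    have hS' : MI S := fun P hP => hS P (Finset.mem_insert_of_mem hP)
    have hQ' := hS Q (Finset.mem_insert_self Q S)
    rw [Finset.prod_insert hQ]
    exact (squarefree_mul_iff).2 ⟨(coprime_prod hS' hQ' hQ).isRelPrime,
      hQ'.2.squarefree, ih hS'⟩

lemma NS_eq [CharP K 2] (h1 : SBas) (S : Finset K[X]) (hS : MI S) (d : ℕ) (hd : 1 ≤ d) :
    NS K d S = (((Mn K d).filter (fun a => (∏ P ∈ S, P) ∣ a ^ 2 + X)).filter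
      (fun a => Irreducible ((a ^ 2 + X) / ∏ P ∈ S, P))).card := by
  obtain ⟨hbas, -⟩ := h1 K
  obtain ⟨E, hE⟩ : ∃ E : K[X], E = ∏ P ∈ S, P := ⟨_, rfl⟩
  have hEm : E.Monic := by rw [hE]; exact monic_prod hS
  rw [← hE]
  unfold NS
  congr 1
  ext a
  rw [Finset.mem_filter, Finset.mem_filter, Finset.mem_filter, M_eq]
  constructor
  · rintro ⟨ha, h2, h3⟩
    obtain ⟨-, hmon, -, hprod, -, hMI, -, hmem⟩ := hbas d a (by rw [M_eq]; exact ha) hd
    have e1 : a ^ 2 + X = E * ∏ P ∈ pf (a ^ 2 + X) \ S, P := by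
      rw [hE, mul_comm, Finset.prod_sdiff h2, hprod]
    have e2 : (a ^ 2 + X) / E = ∏ P ∈ pf (a ^ 2 + X) \ S, P := by
      conv_lhs => rw [e1]
      rw [mul_div_cancel_left₀ _ hEm.ne_zero]
    refine ⟨⟨ha, ?_⟩, ?_⟩
    · rw [e1]
      exact dvd_mul_right _ _
    · rw [e2, irr_prod_iff (fun P hP => hMI P (Finset.mem_sdiff.1 hP).1),
        Finset.card_sdiff_of_subset h2, h3]
      omega
  · rintro ⟨⟨ha, h2⟩, h3⟩
    obtain ⟨-, hmon, -, hprod, -, hMI, -, hmem⟩ := hbas d a (by rw [M_eq]; exact ha) hd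
    have h4 : S ⊆ pf (a ^ 2 + X) := by
      intro P hP
      rw [hmem P (hS P hP).1 (hS P hP).2]
      refine dvd_trans ?_ h2
      rw [hE]
      exact Finset.dvd_prod_of_mem (fun P => P) hP
    have e1 : a ^ 2 + X = E * ∏ P ∈ pf (a ^ 2 + X) \ S, P := by
      rw [hE, mul_comm, Finset.prod_sdiff h4, hprod]
    have e2 : (a ^ 2 + X) / E = ∏ P ∈ pf (a ^ 2 + X) \ S, P := by
      conv_lhs => rw [e1]
      rw [mul_div_cancel_left₀ _ hEm.ne_zero]
    rw [e2, irr_prod_iff (fun P hP => hMI P (Finset.mem_sdiff.1 hP).1),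
      Finset.card_sdiff_of_subset h4] at h3
    refine ⟨ha, h4, ?_⟩
    have h5 := Finset.card_le_card h4
    omega

/-- The complementary divisor. -/
theorem refl1 {m : ℕ} {g : K[X]} (hg : g.Monic) (hs : Squarefree g) (hdeg : g.natDegree = m)
    {j : ℕ} (hj : j ≤ m) :
    (mob g : ℝ) * ∑ D ∈ (Mn K j).filter (fun D => D ∣ g), (mob D : ℝ) =
      ∑ D ∈ (Mn K (m - j)).filter (fun D => D ∣ g), (mob D : ℝ) := by
  have hdiv : ∀ i : ℕ, i ≤ m → ∀ D ∈ (Mn K i).filter (fun D => D ∣ g),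
      g / D ∈ (Mn K (m - i)).filter (fun D => D ∣ g) ∧ D * (g / D) = g := by
    intro i hi D hD
    rw [Finset.mem_filter, mem_Mn] at hD
    obtain ⟨⟨h4, h5⟩, h6⟩ := hD
    have h7 : D * (g / D) = g := EuclideanDomain.mul_div_cancel' h4.ne_zero h6
    have h8 : (g / D).Monic := by
      refine h4.of_mul_monic_left ?_
      rw [h7]
      exact hg
    refine ⟨?_, h7⟩
    rw [Finset.mem_filter, mem_Mn]
    refine ⟨⟨h8, ?_⟩, ⟨D, ?_⟩⟩
    · have h9 := h4.natDegree_mul h8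
      rw [h7, hdeg, h5] at h9
      omega
    · rw [mul_comm]
      exact h7.symm
  rw [Finset.mul_sum]
  refine Finset.sum_bij (fun D _ => g / D) (fun D hD => (hdiv j hj D hD).1) ?_ ?_ ?_
  · intro D hD D' hD' hDD
    have e1 := (hdiv j hj D hD).2
    have e2 := (hdiv j hj D' hD').2
    rw [hDD] at e1
    have h0 : g / D' ≠ 0 := by
      intro h
      rw [h, mul_zero] at e2
      exact hg.ne_zero e2.symm
    exact mul_right_cancel₀ h0 (e1.trans e2.symm)
  · intro D hD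
    have e1 := hdiv (m - j) (by omega) D hD
    have e2 : m - (m - j) = j := by omega
    rw [e2] at e1
    refine ⟨g / D, e1.1, ?_⟩
    have e3 := (hdiv j hj _ e1.1).2
    have e4 := e1.2
    have h0 : g / D ≠ 0 := by
      intro h
      rw [h, mul_zero] at e4
      exact hg.ne_zero e4.symm
    apply mul_left_cancel₀ h0
    rw [e3, mul_comm]
    exact e4.symm
  · intro D hD
    have e1 := (hdiv j hj D hD).2
    have h4 : Squarefree (D * (g / D)) := by rw [e1]; exact hs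
    have h5 := mob_mul_sqf h4
    rw [e1] at h5
    have h6 := mob_mul_self (squarefree_mul_iff.1 h4).2.1
    have h7 : (mob D : ℝ) * (mob D : ℝ) = 1 := by exact_mod_cast h6
    have h8 : (mob g : ℝ) = mob D * mob (g / D) := by exact_mod_cast h5
    rw [h8]
    linear_combination (mob (g / D) : ℝ) * h7

variable [CharP K 2]

/-- the `a` with `E ∣ a ^ 2 + X` -/
noncomputable def AE (K : Type) [Field K] [Fintype K] (d : ℕ) (E : K[X]) : Finset K[X] :=
  (Mn K d).filter (fun a => E ∣ a ^ 2 + X)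

/-- the sum over the divisors of degree `j` -/
noncomputable def NN (K : Type) [Field K] [Fintype K] (d j : ℕ) (E : K[X]) : ℝ :=
  ∑ a ∈ AE K d E, ∑ D ∈ (Mn K j).filter (fun D => D ∣ a ^ 2 + X ∧ IsCoprime D E), (mob D : ℝ)

/-- the sum over the divisors of degree `j`, twisted -/
noncomputable def MM (K : Type) [Field K] [Fintype K] (d j : ℕ) (E : K[X]) : ℝ :=
  ∑ a ∈ AE K d E, (mob (a ^ 2 + X) : ℝ) *
    ∑ D ∈ (Mn K j).filter (fun D => D ∣ a ^ 2 + X ∧ IsCoprime D E), (mob D : ℝ)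

/-- the data of the quotient -/
theorem gdat {d : ℕ} (hd : 1 ≤ d) {E a : K[X]} (hE : E.Monic) (ha : a ∈ AE K d E) :
    E * ((a ^ 2 + X) / E) = a ^ 2 + X ∧ ((a ^ 2 + X) / E).Monic ∧
      ((a ^ 2 + X) / E).natDegree = 2 * d - E.natDegree ∧ E.natDegree ≤ 2 * d ∧
      Squarefree ((a ^ 2 + X) / E) ∧ Squarefree E ∧
      IsCoprime ((a ^ 2 + X) / E) E ∧ mob (a ^ 2 + X) = mob E * mob ((a ^ 2 + X) / E) := by
  unfold AE at ha
  rw [Finset.mem_filter] at ha
  obtain ⟨ha, hdvd⟩ := ha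
  obtain ⟨h1, h2⟩ := fmon hd ha
  have h3 := sqf a
  have h7 : E * ((a ^ 2 + X) / E) = a ^ 2 + X := EuclideanDomain.mul_div_cancel' hE.ne_zero hdvd
  have h8 : ((a ^ 2 + X) / E).Monic := by
    refine hE.of_mul_monic_left ?_
    rw [h7]
    exact h1
  have h9 := hE.natDegree_mul h8
  rw [h7, h2] at h9
  have h10 : Squarefree (E * ((a ^ 2 + X) / E)) := by rw [h7]; exact h3
  have h11 := squarefree_mul_iff.1 h10
  refine ⟨h7, h8, by omega, by omega, h11.2.2, h11.2.1, ?_, ?_⟩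
  · exact (isRelPrime_iff_isCoprime.1 h11.1).symm
  · have h12 := mob_mul_sqf h10
    rw [h7] at h12
    exact h12

theorem dvd_g {d : ℕ} (hd : 1 ≤ d) {E a : K[X]} (hE : E.Monic) (ha : a ∈ AE K d E) (D : K[X]) :
    D ∣ (a ^ 2 + X) / E ↔ D ∣ a ^ 2 + X ∧ IsCoprime D E := by
  obtain ⟨h1, -, -, -, -, -, h2, -⟩ := gdat hd hE ha
  constructor
  · intro h
    refine ⟨?_, ?_⟩
    · rw [← h1]
      exact h.mul_left E
    · exact h2.of_isCoprime_of_dvd_left h
  · rintro ⟨h, h'⟩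
    rw [← h1] at h
    exact h'.dvd_of_dvd_mul_left h

theorem filt {d : ℕ} (hd : 1 ≤ d) {E a : K[X]} (hE : E.Monic) (ha : a ∈ AE K d E) (j : ℕ) :
    (Mn K j).filter (fun D => D ∣ a ^ 2 + X ∧ IsCoprime D E) =
      (Mn K j).filter (fun D => D ∣ (a ^ 2 + X) / E) := by
  refine Finset.filter_congr fun D _ => ?_
  rw [dvd_g hd hE ha]

theorem mob_g {d : ℕ} (hd : 1 ≤ d) {E a : K[X]} (hE : E.Monic) (ha : a ∈ AE K d E) :
    (mob ((a ^ 2 + X) / E) : ℝ) = mob E * mob (a ^ 2 + X) := by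
  obtain ⟨-, -, -, -, -, h1, -, h2⟩ := gdat hd hE ha
  have h3 := mob_mul_self h1
  have h4 : (mob E : ℝ) * mob E = 1 := by exact_mod_cast h3
  have h5 : (mob (a ^ 2 + X) : ℝ) = mob E * mob ((a ^ 2 + X) / E) := by exact_mod_cast h2
  rw [h5, ← mul_assoc, h4, one_mul]

theorem refl {d : ℕ} (hd : 1 ≤ d) {E : K[X]} (hE : E.Monic) {j : ℕ}
    (hj : j ≤ 2 * d - E.natDegree) :
    (mob E : ℝ) * MM K d j E = NN K d (2 * d - E.natDegree - j) E := by
  unfold MM NN
  rw [Finset.mul_sum]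
  refine Finset.sum_congr rfl fun a ha => ?_
  obtain ⟨-, h1, h2, -, h3, -, -, -⟩ := gdat hd hE ha
  rw [filt hd hE ha, filt hd hE ha, ← mul_assoc, ← mob_g hd hE ha, refl1 h1 h3 h2 hj]

/-- the identity -/
theorem ident (h1 : SBas) (hh : S_hidm) {d : ℕ} (hd : 1 ≤ d) (S : Finset K[X]) (hS : MI S)
    (hdS : dg S < 2 * d) :
    (2 * (d : ℝ) - dg S) * (NS K d S : ℝ) =
      ∑ j ∈ (Finset.range (2 * d - dg S)).filter (fun j => 2 * j < 2 * d - dg S),
        (((2 * d - dg S : ℕ) : ℝ) / 2 - j) *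
          (NN K d j (∏ P ∈ S, P) - mob (∏ P ∈ S, P) * MM K d j (∏ P ∈ S, P)) := by
  obtain ⟨E, hE⟩ : ∃ E : K[X], E = ∏ P ∈ S, P := ⟨_, rfl⟩
  have hEm : E.Monic := by rw [hE]; exact monic_prod hS
  have hEd : E.natDegree = dg S := by rw [hE]; exact natDegree_prod hS
  obtain ⟨m, hm⟩ : ∃ m : ℕ, m = 2 * d - dg S := ⟨_, rfl⟩
  have hmR : (m : ℝ) = 2 * (d : ℝ) - dg S := by
    rw [hm, Nat.cast_sub hdS.le]
    push_cast
    ring
  rw [NS_eq h1 S hS d hd, ← hE, ← hm, ← hmR]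
  have e1 : (m : ℝ) * ((((Mn K d).filter (fun a => E ∣ a ^ 2 + X)).filter
      (fun a => Irreducible ((a ^ 2 + X) / E))).card : ℝ) =
      ∑ a ∈ AE K d E, if Irreducible ((a ^ 2 + X) / E) then (m : ℝ) else 0 := by
    rw [← Finset.sum_filter, Finset.sum_const, nsmul_eq_mul, mul_comm]
    rfl
  rw [e1]
  have e2 : ∀ a ∈ AE K d E, (if Irreducible ((a ^ 2 + X) / E) then (m : ℝ) else 0) =
      ∑ j ∈ (Finset.range m).filter (fun j => 2 * j < m), ((m : ℝ) / 2 - j) *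
        (∑ D ∈ (Mn K j).filter (fun D => D ∣ a ^ 2 + X ∧ IsCoprime D E), (mob D : ℝ) -
          mob E * ((mob (a ^ 2 + X) : ℝ) *
            ∑ D ∈ (Mn K j).filter (fun D => D ∣ a ^ 2 + X ∧ IsCoprime D E), (mob D : ℝ))) := by
    intro a ha
    obtain ⟨-, h2, h3, -, h4, -, -, -⟩ := gdat hd hEm ha
    rw [hEd, ← hm] at h3
    rw [← hh K m _ (by omega) h2 h4 h3, Finset.mul_sum]
    refine Finset.sum_congr rfl fun j _ => ?_
    rw [filt hd hEm ha, mob_g hd hEm ha]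
    ring
  rw [Finset.sum_congr rfl e2, Finset.sum_comm]
  refine Finset.sum_congr rfl fun j _ => ?_
  rw [← Finset.mul_sum, Finset.sum_sub_distrib, ← Finset.mul_sum]
  rfl

/-- the main term -/
theorem NN_main (hroot : S_root) {d j : ℕ} {E : K[X]} (hE : E.Monic) (hEs : Squarefree E)
    (hj : E.natDegree + j ≤ d) :
    NN K d j E = (Fintype.card K : ℝ) ^ (d - E.natDegree) / (Fintype.card K : ℝ) ^ j *
      ∑ D ∈ (Mn K j).filter (fun D => IsCoprime D E), (mob D : ℝ) := by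
  have hq0 : (0 : ℝ) < (Fintype.card K : ℝ) := by
    have := one_lt_q (K := K)
    linarith
  have e1 : NN K d j E = ∑ D ∈ (Mn K j).filter (fun D => IsCoprime D E), (mob D : ℝ) *
      (((AE K d E).filter (fun a => D ∣ a ^ 2 + X)).card : ℝ) := by
    unfold NN
    simp_rw [Finset.sum_filter, Finset.card_filter]
    rw [Finset.sum_comm]
    refine Finset.sum_congr rfl fun D _ => ?_
    by_cases hc : IsCoprime D E
    · simp only [hc, and_true, if_true]
      push_cast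
      rw [Finset.mul_sum]
      refine Finset.sum_congr rfl fun a _ => ?_
      split_ifs <;> simp
    · simp only [hc, and_false, if_false]
      exact Finset.sum_const_zero
  rw [e1, Finset.mul_sum]
  refine Finset.sum_congr rfl fun D hD => ?_
  rw [Finset.mem_filter, mem_Mn] at hD
  obtain ⟨⟨hDm, hDd⟩, hDE⟩ := hD
  by_cases hs : Squarefree D
  · have e2 : (AE K d E).filter (fun a => D ∣ a ^ 2 + X) =
        (Mn K d).filter (fun a => D * E ∣ a ^ 2 + X) := by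
      unfold AE
      rw [Finset.filter_filter]
      refine Finset.filter_congr fun a _ => ?_
      constructor
      · rintro ⟨h1, h2⟩
        exact hDE.mul_dvd h2 h1
      · intro h
        exact ⟨(Dvd.intro_left D rfl).trans h, (Dvd.intro E rfl).trans h⟩
    have hDEm : (D * E).Monic := hDm.mul hE
    have hDEs : Squarefree (D * E) := squarefree_mul_iff.2 ⟨hDE.isRelPrime, hs, hEs⟩
    have hDEd : (D * E).natDegree = j + E.natDegree := by rw [hDm.natDegree_mul hE, hDd]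
    obtain ⟨hr1, hr2⟩ := (hroot K (D * E) hDEm).1 hDEs
    have h5 := Pool.Agent.H604.LD.Far2.sum_res hDEm hDEs (by rw [hDEd]; omega : _ ≤ d) hr2 hr1
      (fun _ => (1 : ℝ))
    rw [Finset.sum_const, Finset.sum_const, nsmul_eq_mul, nsmul_eq_mul, mul_one, mul_one, card_Mn,
      ← e2, hDEd] at h5
    rw [h5, mul_comm (mob D : ℝ)]
    congr 1
    rw [eq_div_iff (pow_pos hq0 j).ne', Nat.cast_pow, ← pow_add]
    congr 1
    omega
  · have h5 : (mob D : ℝ) = 0 := by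
      unfold mob
      rw [if_neg hs]
      simp
    rw [h5, zero_mul, mul_zero]

end

theorem main : S_tspx := by
  intro hbas hroot hhid hnear hfar hqb K _ _ _ ε hε
  obtain ⟨q, hq⟩ : ∃ q : ℝ, q = (Fintype.card K : ℝ) := ⟨_, rfl⟩
  have hq1' : 1 < q := by rw [hq]; exact one_lt_q
  have hq0 : 0 < q := by linarith
  have hq1 : 1 ≤ q := hq1'.le
  obtain ⟨c₁, κ₀, hc₁, hκ₀, d₁, H1⟩ := hnear K
  obtain ⟨κ, hκ, hκκ, hκ4⟩ : ∃ κ : ℝ, 0 < κ ∧ κ ≤ κ₀ ∧ κ ≤ 1 / 4 :=
    ⟨min κ₀ (1 / 4), by positivity, min_le_left _ _, min_le_right _ _⟩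
  obtain ⟨c₂, hc₂, d₂, H2⟩ := hfar K (κ / 4) (by positivity)
  obtain ⟨Cq, hCq, H3⟩ := hqb K 1 one_pos
  obtain ⟨c, hc0, hcc1, hcc2, hcc3⟩ : ∃ c : ℝ, 0 < c ∧ c ≤ c₁ ∧ c ≤ c₂ ∧ c ≤ 7 / 32 :=
    ⟨min (min c₁ c₂) (7 / 32), by positivity, (min_le_left _ _).trans (min_le_left _ _),
      (min_le_left _ _).trans (min_le_right _ _), min_le_right _ _⟩
  obtain ⟨B, hB⟩ : ∃ B : ℝ, B = 4 + 2 * Cq * q := ⟨_, rfl⟩
  have hB0 : 0 < B := by rw [hB]; positivity
  -- the limit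
  have hr : |q ^ (-(c / 2))| < 1 := by
    rw [abs_of_pos (Real.rpow_pos_of_pos hq0 _)]
    exact Real.rpow_lt_one_of_one_lt_of_neg hq1' (by linarith)
  have l1 := tendsto_pow_const_mul_const_pow_of_abs_lt_one 2 hr
  rw [Metric.tendsto_atTop] at l1
  obtain ⟨n1, L1⟩ := l1 (ε / B) (by positivity)
  obtain ⟨θ, hθ, hθκ, hθc⟩ : ∃ θ : ℝ, 0 < θ ∧ θ ≤ κ / 4 ∧ θ ≤ c / 2 :=
    ⟨min (κ / 4) (c / 2), by positivity, min_le_left _ _, min_le_right _ _⟩
  refine ⟨θ, hθ, max (max d₁ d₂) (max n1 1), ?_⟩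
  intro d hd S hS hdS
  simp only [max_le_iff] at hd
  obtain ⟨⟨hd1, hd2⟩, hn1, hd0⟩ := hd
  have hdpos : (0 : ℝ) < d := by exact_mod_cast (by omega : 0 < d)
  have hd1R : (1 : ℝ) ≤ d := by exact_mod_cast hd0
  obtain ⟨e, he⟩ : ∃ e : ℕ, e = dg S := ⟨_, rfl⟩
  obtain ⟨E, hE⟩ : ∃ E : K[X], E = ∏ P ∈ S, P := ⟨_, rfl⟩
  have hEm : E.Monic := by rw [hE]; exact monic_prod hS
  have hEs : Squarefree E := by rw [hE]; exact sqf_prod hS
  have hEd : E.natDegree = e := by rw [hE, he]; exact natDegree_prod hS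
  rw [← he] at hdS
  have g1 : (e : ℝ) ≤ κ / 4 * d := hdS.trans (mul_le_mul_of_nonneg_right hθκ hdpos.le)
  have g2 : (e : ℝ) ≤ c / 2 * d := hdS.trans (mul_le_mul_of_nonneg_right hθc hdpos.le)
  have he0 : (0 : ℝ) ≤ e := Nat.cast_nonneg e
  have hκd : κ * d ≤ 1 / 4 * d := mul_le_mul_of_nonneg_right hκ4 hdpos.le
  have hκd0 : 0 < κ * d := mul_pos hκ hdpos
  have g3 : e ≤ d := by
    have : (e : ℝ) ≤ d := by linarith
    exact_mod_cast this
  obtain ⟨m, hm⟩ : ∃ m : ℕ, m = 2 * d - e := ⟨_, rfl⟩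
  have hmR : (m : ℝ) = 2 * (d : ℝ) - e := by
    rw [hm, Nat.cast_sub (by omega)]
    push_cast
    ring
  have hm0 : (0 : ℝ) ≤ m := Nat.cast_nonneg m
  have hm2d : (m : ℝ) ≤ 2 * d := by linarith
  obtain ⟨J, hJ⟩ : ∃ J : ℕ, J = ⌊(1 - κ / 2) * (d : ℝ)⌋₊ := ⟨_, rfl⟩
  have hJ1 : (J : ℝ) ≤ (1 - κ / 2) * d := by
    rw [hJ]
    exact Nat.floor_le (mul_nonneg (by linarith) hdpos.le)
  have hJ2 : (1 - κ / 2) * d < J + 1 := by
    rw [hJ]
    exact Nat.lt_floor_add_one _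
  have hJm : 2 * J < m := by
    have h1 : (2 * J : ℝ) < m := by
      rw [hmR]
      linarith
    exact_mod_cast h1
  obtain ⟨W, hW⟩ : ∃ W : ℝ, W = q ^ ((1 - c) * (d : ℝ)) := ⟨_, rfl⟩
  have hW0 : 0 < W := by rw [hW]; positivity
  have hexp : ∀ c' : ℝ, c ≤ c' → q ^ ((1 - c') * (d : ℝ)) ≤ W := by
    intro c' hc'
    rw [hW]
    refine Real.rpow_le_rpow_of_exponent_le hq1 ?_
    exact mul_le_mul_of_nonneg_right (by linarith) hdpos.le
  -- the near bound
  have bnear : ∀ n : ℕ, |(n : ℝ) - d| ≤ κ * d → |NN K d n E| ≤ W := by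
    intro n hn
    refine (H1 d n E hd1 (hn.trans (mul_le_mul_of_nonneg_right hκκ hdpos.le)) hEm hEs ?_).trans ?_
    · rw [hEd]
      have : κ * d ≤ κ₀ * d := mul_le_mul_of_nonneg_right hκκ hdpos.le
      linarith
    · rw [← hq]
      exact hexp c₁ hcc1
  have bmob : |(mob E : ℝ)| ≤ 1 := Pool.Agent.H604.LD.Far2.mob_le E
  -- the bounds for the twisted sums
  have bM1 : ∀ j : ℕ, j ≤ J → |(mob E : ℝ) * MM K d j E| ≤ W := by
    intro j hj
    have hjR : (j : ℝ) ≤ J := by exact_mod_cast hj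
    have h1 : |MM K d j E| ≤ W := by
      refine (H2 d j E hd2 hEm hEs ?_).trans ?_
      · rw [hEd]
        push_cast
        linarith
      · rw [← hq]
        exact hexp c₂ hcc2
    rw [abs_mul]
    calc |(mob E : ℝ)| * |MM K d j E| ≤ 1 * W :=
          mul_le_mul bmob h1 (abs_nonneg _) zero_le_one
      _ = W := one_mul W
  have bM2 : ∀ j : ℕ, J < j → 2 * j < m → |(mob E : ℝ) * MM K d j E| ≤ W := by
    intro j hj hjm
    have hjR : (J : ℝ) + 1 ≤ j := by exact_mod_cast hj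
    have hjR2 : 2 * (j : ℝ) < m := by exact_mod_cast hjm
    rw [refl hd0 hEm (by rw [hEd]; omega), hEd, ← hm]
    refine bnear (m - j) ?_
    rw [Nat.cast_sub (by omega), hmR, abs_le]
    constructor <;> linarith
  have bN2 : ∀ j : ℕ, J < j → 2 * j < m → |NN K d j E| ≤ W := by
    intro j hj hjm
    have hjR : (J : ℝ) + 1 ≤ j := by exact_mod_cast hj
    have hjR2 : 2 * (j : ℝ) < m := by exact_mod_cast hjm
    refine bnear j ?_
    rw [abs_le]
    constructor <;> linarith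
  -- the decomposition
  have hid := ident hbas hhid hd0 S hS (by rw [← he]; omega)
  rw [← he, ← hE, ← hm] at hid
  obtain ⟨T, hT⟩ : ∃ T : Finset ℕ, T = (Finset.range m).filter (fun j => 2 * j < m) := ⟨_, rfl⟩
  rw [← hT] at hid
  have hTc : (T.card : ℝ) ≤ 2 * d := by
    have h1 : T.card ≤ m := by
      rw [hT]
      exact (Finset.card_filter_le _ _).trans_eq (Finset.card_range m)
    have h2 : (T.card : ℝ) ≤ m := by exact_mod_cast h1
    linarith
  have hTJ : T.filter (fun j => j ≤ J) = Finset.range (J + 1) := by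
    ext j
    rw [hT, Finset.mem_filter, Finset.mem_filter, Finset.mem_range, Finset.mem_range]
    omega
  have herr : |∑ j ∈ T, ((m : ℝ) / 2 - j) * (NN K d j E - mob E * MM K d j E) -
      ∑ j ∈ Finset.range (J + 1), ((m : ℝ) / 2 - j) * NN K d j E| ≤ 4 * d ^ 2 * W := by
    rw [← hTJ, Finset.sum_filter, ← Finset.sum_sub_distrib]
    refine (Finset.abs_sum_le_sum_abs _ _).trans ?_
    have h1 : ∀ j ∈ T, |((m : ℝ) / 2 - j) * (NN K d j E - mob E * MM K d j E) -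
        (if j ≤ J then ((m : ℝ) / 2 - j) * NN K d j E else 0)| ≤ 2 * d * W := by
      intro j hj
      rw [hT, Finset.mem_filter, Finset.mem_range] at hj
      have hj0 : (0 : ℝ) ≤ j := Nat.cast_nonneg j
      have hjR2 : 2 * (j : ℝ) < m := by exact_mod_cast hj.2
      have hx0 : 0 ≤ (m : ℝ) / 2 - j := by linarith
      have hx1 : (m : ℝ) / 2 - j ≤ d := by linarith
      split_ifs with hjJ
      · have h2 : ((m : ℝ) / 2 - j) * (NN K d j E - mob E * MM K d j E) -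
            ((m : ℝ) / 2 - j) * NN K d j E = -(((m : ℝ) / 2 - j) * (mob E * MM K d j E)) := by
          ring
        rw [h2, abs_neg, abs_mul, abs_of_nonneg hx0]
        calc ((m : ℝ) / 2 - j) * |(mob E : ℝ) * MM K d j E| ≤ d * W :=
              mul_le_mul hx1 (bM1 j hjJ) (abs_nonneg _) hdpos.le
          _ ≤ 2 * d * W := by linarith [mul_pos hdpos hW0]
      · rw [sub_zero, abs_mul, abs_of_nonneg hx0]
        have h3 : |NN K d j E - mob E * MM K d j E| ≤ 2 * W := by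
          refine (abs_sub _ _).trans ?_
          have h4 := bN2 j (by omega) hj.2
          have h5 := bM2 j (by omega) hj.2
          linarith
        calc ((m : ℝ) / 2 - j) * |NN K d j E - mob E * MM K d j E| ≤ d * (2 * W) :=
              mul_le_mul hx1 h3 (abs_nonneg _) hdpos.le
          _ = 2 * d * W := by ring
    refine (Finset.sum_le_sum h1).trans ?_
    rw [Finset.sum_const, nsmul_eq_mul]
    calc (T.card : ℝ) * (2 * d * W) ≤ 2 * d * (2 * d * W) :=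
          mul_le_mul_of_nonneg_right hTc (by positivity)
      _ = 4 * d ^ 2 * W := by ring
  -- the main term
  have hmain : ∑ j ∈ Finset.range (J + 1), ((m : ℝ) / 2 - j) * NN K d j E =
      q ^ (d - e) * ∑ j ∈ Finset.range (J + 1), ((m : ℝ) / 2 - j) / q ^ j *
        ∑ D ∈ (Mn K j).filter (fun D => IsCoprime D E), (mob D : ℝ) := by
    rw [Finset.mul_sum]
    refine Finset.sum_congr rfl fun j hj => ?_
    rw [Finset.mem_range] at hj
    have hjR : (j : ℝ) ≤ J := by exact_mod_cast (by omega : j ≤ J)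
    have hje : e + j ≤ d := by
      have : (e : ℝ) + j ≤ d := by linarith
      exact_mod_cast this
    rw [NN_main hroot hEm hEs (by rw [hEd]; exact hje), hEd, ← hq]
    ring
  have hqb1 := H3 E e J ((m : ℝ) / 2) hEm hEs (by rw [hEd]) (by positivity)
  rw [← hq] at hqb1
  have hPi : q ^ (d - e) * (1 / PiM E) = q ^ d * ∏ P ∈ S, xP P := by
    have h1 := prod_id hS (by rw [← he]; exact g3 : dg S ≤ d)
    rw [← he, ← hq, hq, ← PiM_prod hS, ← hE, ← hq] at h1
    have h2 : PiM E ≠ 0 := by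
      rw [hE, PiM_prod hS]
      exact (Finset.prod_pos fun P hP => w_pos (hS P hP).2).ne'
    rw [← h1]
    field_simp
  have hqe : q ^ (d - e) * (Cq * (1 + (m : ℝ) / 2) * q ^ (1 * (e : ℝ) - (J : ℝ) / 4)) ≤
      2 * Cq * q * d ^ 2 * W := by
    have h1 : q ^ (d - e) = q ^ ((d : ℝ) - e) := by
      rw [← Nat.cast_sub g3, Real.rpow_natCast]
    have h2 : q ^ (d - e) * q ^ (1 * (e : ℝ) - (J : ℝ) / 4) ≤ q * W := by
      rw [h1, ← Real.rpow_add hq0, hW]
      have h3 : q * q ^ ((1 - c) * (d : ℝ)) = q ^ (1 + (1 - c) * (d : ℝ)) := by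
        rw [Real.rpow_add hq0, Real.rpow_one]
      rw [h3]
      refine Real.rpow_le_rpow_of_exponent_le hq1 ?_
      have h4 : c * d ≤ 7 / 32 * d := mul_le_mul_of_nonneg_right hcc3 hdpos.le
      linarith
    have h5 : 1 + (m : ℝ) / 2 ≤ 2 * d ^ 2 := by
      have h6 : (d : ℝ) ≤ d ^ 2 := by
        rw [sq]
        exact le_mul_of_one_le_left hdpos.le hd1R
      linarith
    calc q ^ (d - e) * (Cq * (1 + (m : ℝ) / 2) * q ^ (1 * (e : ℝ) - (J : ℝ) / 4))
        = Cq * (1 + (m : ℝ) / 2) * (q ^ (d - e) * q ^ (1 * (e : ℝ) - (J : ℝ) / 4)) := by ring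
      _ ≤ Cq * (2 * d ^ 2) * (q * W) := by
          refine mul_le_mul (mul_le_mul_of_nonneg_left h5 hCq.le) h2 (by positivity)
            (by positivity)
      _ = 2 * Cq * q * d ^ 2 * W := by ring
  have hmain2 : |∑ j ∈ Finset.range (J + 1), ((m : ℝ) / 2 - j) * NN K d j E -
      q ^ d * ∏ P ∈ S, xP P| ≤ 2 * Cq * q * d ^ 2 * W := by
    rw [hmain, ← hPi, ← mul_sub, abs_mul, abs_of_pos (pow_pos hq0 _)]
    exact (mul_le_mul_of_nonneg_left hqb1 (pow_pos hq0 _).le).trans hqe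
  have htot : |(2 * (d : ℝ) - e) * (NS K d S : ℝ) - q ^ d * ∏ P ∈ S, xP P| ≤
      B * (d ^ 2 * W) := by
    rw [hid]
    calc _ ≤ |∑ j ∈ T, ((m : ℝ) / 2 - j) * (NN K d j E - mob E * MM K d j E) -
          ∑ j ∈ Finset.range (J + 1), ((m : ℝ) / 2 - j) * NN K d j E| +
          |∑ j ∈ Finset.range (J + 1), ((m : ℝ) / 2 - j) * NN K d j E -
            q ^ d * ∏ P ∈ S, xP P| := abs_sub_le _ _ _
      _ ≤ 4 * d ^ 2 * W + 2 * Cq * q * d ^ 2 * W := add_le_add herr hmain2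
      _ = B * (d ^ 2 * W) := by rw [hB]; ring
  rw [← he, ← hq]
  refine htot.trans ?_
  -- comparison
  have h4 : (d : ℝ) ^ 2 * (q ^ (-(c / 2))) ^ d < ε / B := by
    have h := L1 d hn1
    rw [Real.dist_eq, sub_zero] at h
    exact (le_abs_self _).trans_lt h
  have h5 : W = q ^ ((1 - c / 2) * (d : ℝ)) * (q ^ (-(c / 2))) ^ d := by
    rw [hW, ← Real.rpow_natCast (q ^ (-(c / 2))) d, ← Real.rpow_mul hq0.le, ← Real.rpow_add hq0]
    congr 1
    ring
  have h6 : q ^ ((1 - c / 2) * (d : ℝ)) ≤ q ^ d * ∏ P ∈ S, xP P := by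
    have h7 := prod_xP_ge hS
    rw [← he, ← hq] at h7
    calc q ^ ((1 - c / 2) * (d : ℝ)) ≤ q ^ ((d : ℝ) - e) :=
          Real.rpow_le_rpow_of_exponent_le hq1 (by linarith)
      _ = q ^ d * (1 / q ^ e) := by
          rw [Real.rpow_sub hq0, Real.rpow_natCast, Real.rpow_natCast]
          ring
      _ ≤ q ^ d * ∏ P ∈ S, xP P := mul_le_mul_of_nonneg_left h7 (by positivity)
  obtain ⟨R, hR⟩ : ∃ R : ℝ, R = (q ^ (-(c / 2))) ^ d := ⟨_, rfl⟩
  obtain ⟨Y, hY⟩ : ∃ Y : ℝ, Y = q ^ ((1 - c / 2) * (d : ℝ)) := ⟨_, rfl⟩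
  rw [← hR] at h4 h5
  rw [← hY] at h5 h6
  have hY0 : 0 ≤ Y := by rw [hY]; positivity
  have h8 : B * (d ^ 2 * R) ≤ ε := by
    have h9 := (lt_div_iff₀ hB0).1 h4
    linarith
  calc B * (d ^ 2 * W) = B * (d ^ 2 * R) * Y := by rw [h5]; ring
    _ ≤ ε * Y := mul_le_mul_of_nonneg_right h8 hY0
    _ ≤ ε * (q ^ d * ∏ P ∈ S, xP P) := mul_le_mul_of_nonneg_left h6 hε.le

end Pool.Agent.H290.FX.PSpx
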