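import Mathlib
import Pool.Agent.H290.FX.Asm
import Pool.Agent.H290.FX.PQb
import Pool.Agent.H290.FX.PNearxx
import Pool.Agent.H290.FX.PNeare
import Pool.Agent.H290.FX.PFare
import Pool.Agent.H290.FX.PHidm
import Pool.Agent.H290.FX.PSpx
import Pool.Agent.H290.PK.Asm

/-!
# Exactly `k` irreducible factors (helper290): assembly
-/

set_option autoImplicit false

namespace Pool.Agent.H290.FX.AsmS

open Pool.Agent.H290.FX

theorem neare : S_neare := PNeare.main PRoot.main (PNearxx.main PRoot.main Asm.key)

theorem fare : S_fare := PFare.main PRoot.main PWeylx.main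

theorem sp : Pool.Agent.H290.PK.SP :=
  PSpx.main Pool.Agent.H290.PK.PBas.main PRoot.main PHidm.main neare fare PQb.main

theorem sfinal : Pool.Agent.H290.PK.SFinal := Pool.Agent.H290.PK.Asm.main sp

end Pool.Agent.H290.FX.AsmS
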