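import Pool.Agent.H290.FX.StmV

/-!
# Task MTS (helper694, for helper290): the main term for the sums of `s`

Generalisation of `PMt.lean` (helper166).
-/

set_option autoImplicit false

namespace Pool.Agent.H290.FX.PMts

open Polynomial
open scoped Classical
open Pool.Agent.H290.FX
open Pool.Agent.H985.Chow (mob)
open Pool.Agent.H985.KP (sg PA)
open Pool.Agent.H694.Typ (Mn PU mem_Mn q_ge)
open Pool.Agent.H604.LD (PiM)

section sqf

variable {K : Type} [Field K]

theorem mem_nf {F P : K[X]} (hF : F ≠ 0) :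
    P ∈ (UniqueFactorizationMonoid.normalizedFactors F).toFinset ↔
      P.Monic ∧ Irreducible P ∧ P ∣ F := by
  rw [Multiset.mem_toFinset, UniqueFactorizationMonoid.mem_normalizedFactors_iff' hF]
  constructor
  · rintro ⟨a, b, c⟩
    exact ⟨by rw [← b]; exact monic_normalize a.ne_zero, a, c⟩
  · rintro ⟨a, b, c⟩
    exact ⟨b, a.normalize_eq_self, c⟩

theorem prod_nf {g : K[X]} (hg : g.Monic) (hs : Squarefree g) :
    ∏ P ∈ (UniqueFactorizationMonoid.normalizedFactors g).toFinset, P = g := by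
  have hnd := (UniqueFactorizationMonoid.squarefree_iff_nodup_normalizedFactors hg.ne_zero).1 hs
  have e1 : ∏ P ∈ (UniqueFactorizationMonoid.normalizedFactors g).toFinset, P =
      (UniqueFactorizationMonoid.normalizedFactors g).prod := by
    rw [Finset.prod, Multiset.toFinset_val, Multiset.dedup_eq_self.2 hnd, Multiset.map_id']
  have e3 : (∏ P ∈ (UniqueFactorizationMonoid.normalizedFactors g).toFinset, P).Monic :=
    monic_prod_of_monic _ _ fun P hP => ((mem_nf hg.ne_zero).1 hP).1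
  refine eq_of_monic_of_associated e3 hg ?_
  rw [e1]
  exact UniqueFactorizationMonoid.prod_normalizedFactors hg.ne_zero

theorem mob_card {g : K[X]} (hg : g.Monic) (hs : Squarefree g) :
    mob g = (-1) ^ (UniqueFactorizationMonoid.normalizedFactors g).toFinset.card := by
  have hnd := (UniqueFactorizationMonoid.squarefree_iff_nodup_normalizedFactors hg.ne_zero).1 hs
  unfold mob
  rw [if_pos hs, Multiset.toFinset_card_of_nodup hnd]
  congr 1
  unfold UniqueFactorizationMonoid.normalizedFactors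
  rw [Multiset.card_map]

theorem finprod_PA {g : K[X]} (hg : g.Monic) (f : K[X] → ℝ) :
    ∏ᶠ P ∈ PA g, f P = ∏ P ∈ (UniqueFactorizationMonoid.normalizedFactors g).toFinset, f P := by
  have h : PA g = ((UniqueFactorizationMonoid.normalizedFactors g).toFinset : Set K[X]) := by
    ext P
    rw [Finset.mem_coe, mem_nf hg.ne_zero]
    rfl
  rw [h, finprod_mem_coe_finset]

theorem pow_deg {g : K[X]} (hg : g.Monic) (hs : Squarefree g) (q : ℝ) :
    q ^ g.natDegree =
      ∏ P ∈ (UniqueFactorizationMonoid.normalizedFactors g).toFinset, q ^ P.natDegree := by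
  rw [Finset.prod_pow_eq_pow_sum]
  congr 1
  have h := congrArg natDegree (prod_nf hg hs)
  rw [natDegree_prod_of_monic _ _ (fun P hP => ((mem_nf hg.ne_zero).1 hP).1)] at h
  exact h.symm

end sqf

variable {K : Type} [Field K] [Fintype K]

theorem mem_Sq {t : ℕ} {r : K[X]} : r ∈ Sq K t ↔ r.Monic ∧ r.natDegree ≤ t ∧ Squarefree r := by
  unfold Sq
  rw [Finset.mem_filter, Finset.mem_biUnion]
  constructor
  · rintro ⟨⟨n, hn, hr⟩, hs⟩
    rw [Finset.mem_range] at hn
    rw [mem_Mn] at hr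
    exact ⟨hr.1, by omega, hs⟩
  · rintro ⟨h1, h2, h3⟩
    exact ⟨⟨r.natDegree, by rw [Finset.mem_range]; omega, mem_Mn.2 ⟨h1, rfl⟩⟩, h3⟩

/-- the local computation -/
theorem loc {r : K[X]} (hr : r.Monic) (hs : Squarefree r) (d : ℕ) (hd : r.natDegree ≤ d) (k : ℕ)
    (B C : K[X] → Prop) (hBC : ∀ P : K[X], P.Monic → Irreducible P → P ∣ r → (B P ↔ C P)) :
    (mob r : ℝ) ^ (k + 1) * ((Fintype.card K : ℝ) ^ (d - r.natDegree) / PiM r) ^ (k + 1) *
      (∏ᶠ P ∈ PA r, (if B P then (Fintype.card K : ℝ) ^ P.natDegree - 1 else -1)) =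
    (Fintype.card K : ℝ) ^ ((k + 1) * d) * ∏ᶠ P ∈ PA r,
        (if C P then (-1) ^ (k + 1) / ((Fintype.card K : ℝ) ^ P.natDegree - 1) ^ k
          else -(-1) ^ (k + 1) / ((Fintype.card K : ℝ) ^ P.natDegree - 1) ^ (k + 1)) := by
  have hq := q_ge (k := K)
  have hq0 : (Fintype.card K : ℝ) ≠ 0 := by linarith
  unfold PiM
  rw [finprod_PA hr, finprod_PA hr, finprod_PA hr, mob_card hr hs]
  set S := (UniqueFactorizationMonoid.normalizedFactors r).toFinset with hS
  have hN : ∀ P ∈ S, (2 : ℝ) ≤ (Fintype.card K : ℝ) ^ P.natDegree := by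
    intro P hP
    rw [hS, mem_nf hr.ne_zero] at hP
    have h1 : 1 ≤ P.natDegree := hP.2.1.natDegree_pos
    calc (2 : ℝ) ≤ (Fintype.card K : ℝ) ^ 1 := by rw [pow_one]; exact hq
      _ ≤ _ := pow_le_pow_right₀ (by linarith) h1
  have e1 : (Fintype.card K : ℝ) ^ (d - r.natDegree) =
      (Fintype.card K : ℝ) ^ d / ∏ P ∈ S, (Fintype.card K : ℝ) ^ P.natDegree := by
    rw [← pow_deg hr hs, pow_sub₀ _ hq0 hd]
    rfl
  have e2 : (((-1) ^ S.card : ℤ) : ℝ) ^ (k + 1) = ∏ P ∈ S, (-1 : ℝ) ^ (k + 1) := by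
    rw [Finset.prod_const]
    push_cast
    rw [← pow_mul, ← pow_mul, mul_comm]
  have e3 : ((Fintype.card K : ℝ) ^ (d - r.natDegree) /
      ∏ P ∈ S, (1 - 1 / (Fintype.card K : ℝ) ^ P.natDegree)) ^ (k + 1) =
      (Fintype.card K : ℝ) ^ ((k + 1) * d) *
        ∏ P ∈ S, (((Fintype.card K : ℝ) ^ P.natDegree - 1) ^ (k + 1))⁻¹ := by
    have e4 : (∏ P ∈ S, (Fintype.card K : ℝ) ^ P.natDegree) *
        ∏ P ∈ S, (1 - 1 / (Fintype.card K : ℝ) ^ P.natDegree) =
        ∏ P ∈ S, ((Fintype.card K : ℝ) ^ P.natDegree - 1) := by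
      rw [← Finset.prod_mul_distrib]
      refine Finset.prod_congr rfl fun P hP => ?_
      have h4 : (Fintype.card K : ℝ) ^ P.natDegree ≠ 0 := by linarith [hN P hP]
      field_simp
    rw [e1, div_div, e4, div_pow, ← pow_mul, mul_comm d, div_eq_mul_inv, ← Finset.prod_pow,
      Finset.prod_inv_distrib]
  rw [e2, e3]
  have e5 : ∀ a b c e : ℝ, a * (b * c) * e = b * (a * c * e) := by intros; ring
  rw [e5, ← Finset.prod_mul_distrib, ← Finset.prod_mul_distrib]
  congr 1
  refine Finset.prod_congr rfl fun P hP => ?_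
  have h2 := hN P hP
  rw [hS, mem_nf hr.ne_zero] at hP
  have h3 : (Fintype.card K : ℝ) ^ P.natDegree - 1 ≠ 0 := by linarith
  simp only [hBC P hP.1 hP.2.1 hP.2.2]
  set M : ℝ := (Fintype.card K : ℝ) ^ P.natDegree - 1 with hM
  split_ifs
  · rw [pow_succ M k]
    field_simp
  · ring

omit [Fintype K] in
theorem s_sq [CharP K 2] (s : ℕ) : ((s : K[X])) ^ 2 = (s : K[X]) := by
  rcases Nat.even_or_odd s with h | h
  · have : (s : K[X]) = 0 := (CharP.cast_eq_zero_iff K[X] 2 s).2 h.two_dvd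
    rw [this]; ring
  · obtain ⟨m, rfl⟩ := h
    have : ((2 * m + 1 : ℕ) : K[X]) = 1 := by
      push_cast
      rw [(CharTwo.two_eq_zero : (2 : K[X]) = 0), zero_mul, zero_add]
    rw [this]; ring

omit [Fintype K] in
theorem deg_natCast_mul {d s : ℕ} {a : K[X]} (ha : a.degree < (d : WithBot ℕ)) :
    ((s : K[X]) * a).degree < (d : WithBot ℕ) := by
  rw [← C_eq_natCast, ← smul_eq_C_mul]
  exact (degree_smul_le _ _).trans_lt ha

theorem main : S_tmts := by
  intro hroot huniq hram K _ _ _ d t s c ht hs1 hcd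
  obtain ⟨k, rfl⟩ : ∃ k, s = k + 1 := ⟨s - 1, by omega⟩
  have hq := q_ge (k := K)
  set s : ℕ := k + 1 with hsdef
  -- the power of the main term
  have cube : ∀ H : K[X], (MT K d t (ch d H)) ^ s = ∑ r ∈ Sq K t,
      if MPer d (ch d H) r then (mob r : ℝ) ^ s *
        (ch d H (rt r + r * X ^ (d - r.natDegree))) ^ s *
        ((Fintype.card K : ℝ) ^ (d - r.natDegree) / PiM r) ^ s else 0 := by
    intro H
    unfold MT
    rw [← Finset.sum_filter]
    have hcard : ((Sq K t).filter (fun r => MPer d (ch d H) r)).card ≤ 1 := by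
      rw [Finset.card_le_one]
      intro a ha b hb
      rw [Finset.mem_filter, mem_Sq] at ha hb
      have h1 := huniq K d (ch d H) a b ha.2 hb.1.1 hb.2.2.1 (by omega)
      have h2 := huniq K d (ch d H) b a hb.2 ha.1.1 ha.2.2.1 (by omega)
      exact eq_of_monic_of_associated ha.1.1 hb.1.1 (associated_of_dvd_dvd h1 h2)
    rcases Finset.card_le_one_iff_subset_singleton.1 hcard with ⟨x, hx⟩
    rcases Finset.subset_singleton_iff.1 hx with h | h
    · rw [h, Finset.sum_empty, Finset.sum_empty, zero_pow (by omega)]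
    · rw [h, Finset.sum_singleton, Finset.sum_singleton, mul_pow, mul_pow]
  have step1 : ∑ H ∈ Vs K d, ch d H c * (MT K d t (ch d H)) ^ s = ∑ r ∈ Sq K t,
      (mob r : ℝ) ^ s * ((Fintype.card K : ℝ) ^ (d - r.natDegree) / PiM r) ^ s *
        ∑ H ∈ (Vs K d).filter (fun H => MPer d (ch d H) r),
          ch d H (c + (s : K[X]) * (rt r + r * X ^ (d - r.natDegree))) := by
    calc ∑ H ∈ Vs K d, ch d H c * (MT K d t (ch d H)) ^ s = ∑ H ∈ Vs K d, ∑ r ∈ Sq K t,
        (if MPer d (ch d H) r then (mob r : ℝ) ^ s *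
          ((Fintype.card K : ℝ) ^ (d - r.natDegree) / PiM r) ^ s *
          ch d H (c + (s : K[X]) * (rt r + r * X ^ (d - r.natDegree))) else 0) := by
          refine Finset.sum_congr rfl fun H _ => ?_
          rw [cube H, Finset.mul_sum]
          refine Finset.sum_congr rfl fun r _ => ?_
          split_ifs
          · rw [AddChar.map_add_eq_mul (ch d H) c, ← nsmul_eq_mul, AddChar.map_nsmul_eq_pow]
            ring
          · rw [mul_zero]
      _ = _ := by
          rw [Finset.sum_comm]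
          refine Finset.sum_congr rfl fun r _ => ?_
          rw [Finset.mul_sum, Finset.sum_filter]
  rw [step1, Finset.mul_sum]
  refine Finset.sum_congr rfl fun r hr => ?_
  rw [mem_Sq] at hr
  obtain ⟨hm, hrt, hs⟩ := hr
  obtain ⟨hroot1, hroot2⟩ := (hroot K r hm).1 hs
  have hbdeg : (c + (s : K[X]) * (rt r + r * X ^ (d - r.natDegree))).degree <
      (d : WithBot ℕ) := by
    have e : c + (s : K[X]) * (rt r + r * X ^ (d - r.natDegree)) =
        (c + (s : K[X]) * X ^ d) +
          ((s : K[X]) * (r * X ^ (d - r.natDegree) - X ^ d) + (s : K[X]) * rt r) := by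
      ring
    rw [e]
    have hmr : (r * X ^ (d - r.natDegree)).Monic := hm.mul (monic_X_pow _)
    have hdr : (r * X ^ (d - r.natDegree)).natDegree = d := by
      rw [hm.natDegree_mul (monic_X_pow _), natDegree_X_pow]
      omega
    have h1 : (r * X ^ (d - r.natDegree) - X ^ d).degree < (d : WithBot ℕ) := by
      have := degree_sub_lt_left (p := r * X ^ (d - r.natDegree)) (q := (X : K[X]) ^ d)
        (by rw [degree_eq_natDegree hmr.ne_zero, hdr, degree_X_pow]) hmr.ne_zero
        (by rw [hmr.leadingCoeff, (monic_X_pow d).leadingCoeff])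
      rwa [degree_eq_natDegree hmr.ne_zero, hdr] at this
    have h2 : (rt r).degree < (d : WithBot ℕ) := by
      refine hroot2.trans_le ?_
      rw [degree_eq_natDegree hm.ne_zero]
      exact_mod_cast (by omega : r.natDegree ≤ d)
    exact (degree_add_le _ _).trans_lt (max_lt hcd ((degree_add_le _ _).trans_lt
      (max_lt (deg_natCast_mul h1) (deg_natCast_mul h2))))
  rw [hram K d r _ hm hs (by omega) hbdeg]
  refine loc hm hs d (by omega) k _ _ ?_
  intro P hP hPi hPr
  have h1 : P ∣ (s : K[X]) * (r * X ^ (d - r.natDegree)) := (hPr.mul_right _).mul_left _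
  have h2 : P ∣ (s : K[X]) * (rt r ^ 2 + X) := (hPr.trans hroot1).mul_left _
  have h4 : c ^ 2 + (s : K[X]) * X = (c + (s : K[X]) * rt r) ^ 2 - (s : K[X]) * (rt r ^ 2 + X) := by
    have e1 : (c + (s : K[X]) * rt r) ^ 2 = c ^ 2 + (s : K[X]) * rt r ^ 2 := by
      have e2 : (c + (s : K[X]) * rt r) ^ 2 = c ^ 2 + 2 * (c * ((s : K[X]) * rt r)) +
          (s : K[X]) ^ 2 * rt r ^ 2 := by ring
      rw [e2, s_sq, (CharTwo.two_eq_zero : (2 : K[X]) = 0)]
      ring
    rw [e1]
    have e3 : c ^ 2 + (s : K[X]) * rt r ^ 2 - (s : K[X]) * (rt r ^ 2 + X) =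
        c ^ 2 - (s : K[X]) * X := by ring
    rw [e3, CharTwo.sub_eq_add]
  have h5 : c + (s : K[X]) * (rt r + r * X ^ (d - r.natDegree)) =
      (c + (s : K[X]) * rt r) + (s : K[X]) * (r * X ^ (d - r.natDegree)) := by ring
  rw [h5, h4, dvd_add_left h1, dvd_sub_left h2]
  exact ⟨fun h => h.pow (by norm_num), fun h => hPi.prime.dvd_of_dvd_pow h⟩

end Pool.Agent.H290.FX.PMts
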