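import Pool.Agent.H290.FX.StmV

/-!
# Sums of `s` (helper694, for helper290): task TERS

Generalisation of `PTer.lean` (helper627).
-/

set_option autoImplicit false

namespace Pool.Agent.H290.FX.PTers

open Polynomial
open scoped Classical
open Pool.Agent.H985.Chow (mob)
open Pool.Agent.H985.KP (sg PA)
open Pool.Agent.H694.Typ (Mn PU mem_Mn mem_PU card_Mn)
open Pool.Agent.H604.LD (PiM)

/-- the factors of the singular series -/
noncomputable def lam (K : Type) [Field K] [Fintype K] (s : ℕ) (b P : K[X]) : ℝ :=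
  if P ∣ b ^ 2 + (s : K[X]) * X then
      (-1) ^ s / ((Fintype.card K : ℝ) ^ P.natDegree - 1) ^ (s - 1)
    else -(-1) ^ s / ((Fintype.card K : ℝ) ^ P.natDegree - 1) ^ s

section

variable {K : Type} [Field K] [Fintype K]

theorem two_le_card : (2 : ℝ) ≤ Fintype.card K := by
  exact_mod_cast Fintype.one_lt_card

theorem two_le_N {P : K[X]} (hP : Irreducible P) :
    (2 : ℝ) ≤ (Fintype.card K : ℝ) ^ P.natDegree := by
  have h1 := hP.natDegree_pos
  have h2 : (2 : ℝ) ≤ Fintype.card K := two_le_card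
  calc (2 : ℝ) ≤ (Fintype.card K : ℝ) ^ 1 := by rwa [pow_one]
    _ ≤ _ := pow_le_pow_right₀ (by linarith) h1

theorem abs_lam_le {s : ℕ} (hs : 3 ≤ s) (b : K[X]) {P : K[X]} (hP : Irreducible P) :
    |lam K s b P| ≤ 1 / ((Fintype.card K : ℝ) ^ P.natDegree - 1) ^ 2 := by
  have h1 : (1 : ℝ) ≤ (Fintype.card K : ℝ) ^ P.natDegree - 1 := by
    linarith [two_le_N hP]
  have h0 : (0 : ℝ) < (Fintype.card K : ℝ) ^ P.natDegree - 1 := by linarith
  unfold lam
  split_ifs with h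
  · rw [abs_div, abs_neg_one_pow, abs_of_pos (by positivity)]
    exact one_div_le_one_div_of_le (by positivity) (pow_le_pow_right₀ h1 (by omega))
  · rw [abs_div, abs_neg, abs_neg_one_pow, abs_of_pos (by positivity)]
    exact one_div_le_one_div_of_le (by positivity) (pow_le_pow_right₀ h1 (by omega))

theorem one_add_lam (s : ℕ) (b P : K[X]) : 1 + lam K s b P =
    if P ∣ b ^ 2 + (s : K[X]) * X then
          1 + (-1) ^ s / ((Fintype.card K : ℝ) ^ P.natDegree - 1) ^ (s - 1)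
        else 1 - (-1) ^ s / ((Fintype.card K : ℝ) ^ P.natDegree - 1) ^ s := by
  unfold lam
  split_ifs with h
  · rfl
  · ring

theorem half_le [CharP K 2] {s : ℕ} (hs : 3 ≤ s) (b : K[X])
    (hb : Fintype.card K = 2 → b.eval 0 = (s : K) ∧ b.eval 1 = 0) (P : K[X])
    (hPm : P.Monic) (hP : Irreducible P) : 1 / 2 ≤ 1 + lam K s b P := by
  have hd := hP.natDegree_pos
  by_cases hq : Fintype.card K = 2 ∧ P.natDegree = 1
  · obtain ⟨hq, hd1⟩ := hq
    obtain ⟨b0, b1⟩ := hb hq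
    obtain ⟨x, hx⟩ : ∃ x : K, P = X - C x := by
      refine ⟨-P.coeff 0, ?_⟩
      have h4 := hPm.as_sum
      rw [hd1, Finset.sum_range_one, pow_zero, mul_one, pow_one] at h4
      rw [C_neg, sub_neg_eq_add]
      exact h4
    have hx01 : x = 0 ∨ x = 1 := by
      have hc : (Finset.univ : Finset K) = {0, 1} := by
        symm
        apply Finset.eq_univ_of_card
        rw [hq, Finset.card_pair zero_ne_one]
      have h5 : x ∈ (Finset.univ : Finset K) := Finset.mem_univ x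
      rw [hc] at h5
      simpa using h5
    have hss : (s : K) ^ 2 = (s : K) := by
      rcases Nat.even_or_odd s with h | h
      · have : (s : K) = 0 := (CharP.cast_eq_zero_iff K 2 s).2 h.two_dvd
        rw [this]; ring
      · obtain ⟨m, rfl⟩ := h
        have : ((2 * m + 1 : ℕ) : K) = 1 := by
          push_cast
          rw [(CharTwo.two_eq_zero : (2 : K) = 0), zero_mul, zero_add]
        rw [this]; ring
    have hev : (b ^ 2 + (s : K[X]) * X).eval x = (s : K) := by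
      rw [eval_add, eval_pow, eval_mul, eval_natCast, eval_X]
      rcases hx01 with rfl | rfl
      · rw [b0, mul_zero, add_zero, hss]
      · rw [b1, mul_one, zero_pow two_ne_zero, zero_add]
    have hdvd : P ∣ b ^ 2 + (s : K[X]) * X ↔ Even s := by
      rw [hx, dvd_iff_isRoot, IsRoot.def, hev, CharP.cast_eq_zero_iff K 2 s, even_iff_two_dvd]
    have hN : (Fintype.card K : ℝ) ^ P.natDegree - 1 = 1 := by
      rw [hq, hd1]; norm_num
    rw [one_add_lam, hN, one_pow, one_pow, div_one]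
    split_ifs with h
    · rw [(hdvd.1 h).neg_one_pow]; norm_num
    · have ho : Odd s := Nat.not_even_iff_odd.1 (fun h' => h (hdvd.2 h'))
      rw [ho.neg_one_pow]; norm_num
  · have h3 : (3 : ℝ) ≤ (Fintype.card K : ℝ) ^ P.natDegree := by
      by_cases hq' : Fintype.card K = 2
      · have h4 : 2 ≤ P.natDegree := by
          have : P.natDegree ≠ 1 := fun h => hq ⟨hq', h⟩
          omega
        rw [hq']
        calc (3 : ℝ) ≤ ((2 : ℕ) : ℝ) ^ 2 := by norm_num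
          _ ≤ _ := pow_le_pow_right₀ (by norm_num) h4
      · have h4 : 3 ≤ Fintype.card K := by
          have := Fintype.one_lt_card (α := K)
          omega
        have h5 : (3 : ℝ) ≤ Fintype.card K := by exact_mod_cast h4
        calc (3 : ℝ) ≤ (Fintype.card K : ℝ) ^ 1 := by rwa [pow_one]
          _ ≤ _ := pow_le_pow_right₀ (by linarith) hd
    have h4 : (2 : ℝ) ≤ (Fintype.card K : ℝ) ^ P.natDegree - 1 := by linarith
    have h5 : 1 / ((Fintype.card K : ℝ) ^ P.natDegree - 1) ^ 2 ≤ 1 / 2 := by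
      apply one_div_le_one_div_of_le (by norm_num)
      nlinarith
    have h6 := (abs_le.1 (abs_lam_le hs b hP)).1
    linarith

end

section

variable {K : Type} [Field K] [Fintype K] [CharP K 2]

omit [Fintype K] in
theorem deg_add {d : ℕ} {f g : K[X]} (hf : f.Monic) (hfd : f.natDegree = d) (hg : g.Monic)
    (hgd : g.natDegree = d) : (f + g).degree < (d : WithBot ℕ) := by
  rw [← CharTwo.sub_eq_add]
  have h1 : f.degree = g.degree := by
    rw [degree_eq_natDegree hf.ne_zero, degree_eq_natDegree hg.ne_zero, hfd, hgd]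
  have h2 := degree_sub_lt_left h1 hf.ne_zero (by rw [hf.leadingCoeff, hg.leadingCoeff])
  rwa [degree_eq_natDegree hf.ne_zero, hfd] at h2

omit [Fintype K] [CharP K 2] in
theorem map_sum (χ : AddChar K[X] ℝ) {ι : Type} (S : Finset ι) (a : ι → K[X]) :
    χ (∑ i ∈ S, a i) = ∏ i ∈ S, χ (a i) := by
  induction S using Finset.induction_on with
  | empty => rw [Finset.sum_empty, Finset.prod_empty, AddChar.map_zero_eq_one]
  | insert i S hi ih => rw [Finset.sum_insert hi, Finset.prod_insert hi, AddChar.map_add_eq_mul, ih]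

theorem count (hO : S_orth) (d s : ℕ) (b : K[X])
    (hb : (b + (s : K[X]) * X ^ d).degree < (d : WithBot ℕ)) :
    ∑ H ∈ Vs K d, ch d H b * (SX K d (ch d H)) ^ s = (Fintype.card K : ℝ) ^ d *
      (((Fintype.piFinset (fun _ : Fin s => Mn K d)).filter (fun a => ∑ i, a i = b ∧
          ∀ i, Irreducible (a i ^ 2 + X))).card : ℝ) := by
  set F : Finset K[X] := (Mn K d).filter (fun a => Irreducible (a ^ 2 + X)) with hF
  have h1 : ∀ H : K[X], ch d H b * (SX K d (ch d H)) ^ s =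
      ∑ a ∈ Fintype.piFinset (fun _ : Fin s => F), ch d H (b + ∑ i, a i) := by
    intro H
    unfold SX
    rw [← hF]
    have e1 : (∑ a ∈ F, ch d H a) ^ s = ∏ _i : Fin s, ∑ a ∈ F, ch d H a := by
      rw [Finset.prod_const, Finset.card_univ, Fintype.card_fin]
    rw [e1, Finset.prod_univ_sum, Finset.mul_sum]
    refine Finset.sum_congr rfl fun a _ => ?_
    rw [AddChar.map_add_eq_mul, map_sum]
  rw [Finset.sum_congr rfl fun H _ => h1 H, Finset.sum_comm]
  have h2 : ∀ a ∈ Fintype.piFinset (fun _ : Fin s => F),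
      ∑ H ∈ Vs K d, ch d H (b + ∑ i, a i) =
      if ∑ i, a i = b then (Fintype.card K : ℝ) ^ d else 0 := by
    intro a ha
    rw [Fintype.mem_piFinset] at ha
    rw [hO K d]
    · refine if_congr ?_ rfl rfl
      rw [CharTwo.add_eq_zero]
      exact eq_comm
    · have e1 : b + ∑ i, a i = (b + (s : K[X]) * X ^ d) + ∑ i, (a i + X ^ d) := by
        rw [Finset.sum_add_distrib, Finset.sum_const, Finset.card_univ, Fintype.card_fin,
          nsmul_eq_mul]
        have e2 : b + (s : K[X]) * X ^ d + (∑ i, a i + (s : K[X]) * X ^ d) =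
            b + ∑ i, a i + 2 * ((s : K[X]) * X ^ d) := by ring
        rw [e2, (CharTwo.two_eq_zero : (2 : K[X]) = 0), zero_mul, add_zero]
      rw [e1]
      refine (degree_add_le _ _).trans_lt (max_lt hb ?_)
      rw [← mem_degreeLT]
      refine Submodule.sum_mem _ fun i _ => ?_
      rw [mem_degreeLT]
      have h3 := ha i
      rw [hF, Finset.mem_filter, mem_Mn] at h3
      exact deg_add h3.1.1 h3.1.2 (monic_X_pow d) (natDegree_X_pow d)
  rw [Finset.sum_congr rfl h2, ← Finset.sum_filter, Finset.sum_const, nsmul_eq_mul, mul_comm]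
  congr 3
  ext a
  simp only [hF, Finset.mem_filter, Fintype.mem_piFinset]
  constructor
  · rintro ⟨h3, h4⟩
    exact ⟨fun i => (h3 i).1, h4, fun i => (h3 i).2⟩
  · rintro ⟨h3, h4, h5⟩
    exact ⟨fun i => ⟨h3 i, h5 i⟩, h4⟩

theorem pow_sub_le {s : ℕ} (hs : 3 ≤ s) {x y B : ℝ} (hx : |x| ≤ B) (hy : |y| ≤ B) :
    |x ^ s - y ^ s| ≤ |x - y| * (s * B ^ (s - 3) * (x ^ 2 + y ^ 2)) := by
  have h1 := abs_pow_sub_pow_le (a := x) (b := y) (n := s)
  have h2 : max |x| |y| ^ (s - 1) ≤ B ^ (s - 3) * (x ^ 2 + y ^ 2) := by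
    have h3 : s - 1 = (s - 3) + 2 := by omega
    have hm0 : 0 ≤ max |x| |y| := le_max_of_le_left (abs_nonneg _)
    rw [h3, pow_add]
    have h4 : max |x| |y| ^ (s - 3) ≤ B ^ (s - 3) :=
      pow_le_pow_left₀ hm0 (max_le hx hy) _
    have h5 : max |x| |y| ^ 2 ≤ x ^ 2 + y ^ 2 := by
      rcases max_cases |x| |y| with h | h
      · rw [h.1, sq_abs]; nlinarith [sq_nonneg y]
      · rw [h.1, sq_abs]; nlinarith [sq_nonneg x]
    have hB : 0 ≤ B := (abs_nonneg _).trans hx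
    exact mul_le_mul h4 h5 (by positivity) (by positivity)
  calc _ ≤ _ := h1
    _ = |x - y| * (s * max |x| |y| ^ (s - 1)) := by ring
    _ ≤ |x - y| * (s * (B ^ (s - 3) * (x ^ 2 + y ^ 2))) := by gcongr
    _ = _ := by ring

/-- the error term -/
theorem err {d t s : ℕ} (hs : 3 ≤ s) (b : K[X]) {E B : ℝ}
    (hE : ∀ H ∈ Vs K d, |2 * (d : ℝ) * SX K d (ch d H) - MT K d t (ch d H)| ≤ E)
    (hB1 : ∀ H ∈ Vs K d, |2 * (d : ℝ) * SX K d (ch d H)| ≤ B)
    (hB2 : ∀ H ∈ Vs K d, |MT K d t (ch d H)| ≤ B)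
    (h1 : ∑ H ∈ Vs K d, (2 * (d : ℝ) * SX K d (ch d H)) ^ 2 ≤
      4 * (d : ℝ) ^ 2 * (Fintype.card K : ℝ) ^ (2 * d))
    (h2 : ∑ H ∈ Vs K d, (MT K d t (ch d H)) ^ 2 ≤
      16 * (d : ℝ) ^ 2 * (Fintype.card K : ℝ) ^ (2 * d)) :
    |∑ H ∈ Vs K d, ch d H b * (2 * (d : ℝ) * SX K d (ch d H)) ^ s -
      ∑ H ∈ Vs K d, ch d H b * (MT K d t (ch d H)) ^ s| ≤
      E * (s * B ^ (s - 3) * (20 * (d : ℝ) ^ 2 * (Fintype.card K : ℝ) ^ (2 * d))) := by
  have h0 : (0 : K[X]) ∈ Vs K d := by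
    rw [mem_Vs, degree_zero]
    exact WithBot.bot_lt_coe _
  have hE0 : 0 ≤ E := (abs_nonneg _).trans (hE 0 h0)
  have hB0 : 0 ≤ B := (abs_nonneg _).trans (hB1 0 h0)
  rw [← Finset.sum_sub_distrib]
  calc |∑ H ∈ Vs K d, (ch d H b * (2 * (d : ℝ) * SX K d (ch d H)) ^ s -
        ch d H b * (MT K d t (ch d H)) ^ s)|
      ≤ ∑ H ∈ Vs K d, |ch d H b * (2 * (d : ℝ) * SX K d (ch d H)) ^ s -
        ch d H b * (MT K d t (ch d H)) ^ s| := Finset.abs_sum_le_sum_abs _ _
    _ ≤ ∑ H ∈ Vs K d, E * (s * B ^ (s - 3) * ((2 * (d : ℝ) * SX K d (ch d H)) ^ 2 +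
        (MT K d t (ch d H)) ^ 2)) := by
        refine Finset.sum_le_sum fun H hH => ?_
        rw [← mul_sub, abs_mul]
        have h3 : |ch d H b| = 1 := by
          rcases chi_pm (ch d H) b with h | h <;> rw [h] <;> simp
        rw [h3, one_mul]
        refine (pow_sub_le hs (hB1 H hH) (hB2 H hH)).trans ?_
        exact mul_le_mul_of_nonneg_right (hE H hH) (by positivity)
    _ = E * (s * B ^ (s - 3) * (∑ H ∈ Vs K d, (2 * (d : ℝ) * SX K d (ch d H)) ^ 2 +
        ∑ H ∈ Vs K d, (MT K d t (ch d H)) ^ 2)) := by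
        rw [← Finset.mul_sum, ← Finset.mul_sum, Finset.sum_add_distrib]
    _ ≤ _ := by
        refine mul_le_mul_of_nonneg_left ?_ hE0
        refine mul_le_mul_of_nonneg_left ?_ (by positivity)
        linarith

theorem abs_SX_le (d : ℕ) (χ : AddChar K[X] ℝ) : |SX K d χ| ≤ (Fintype.card K : ℝ) ^ d := by
  unfold SX
  calc |∑ a ∈ (Mn K d).filter (fun a => Irreducible (a ^ 2 + X)), χ a|
      ≤ ∑ a ∈ (Mn K d).filter (fun a => Irreducible (a ^ 2 + X)), |χ a| :=
        Finset.abs_sum_le_sum_abs _ _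
    _ = ∑ a ∈ (Mn K d).filter (fun a => Irreducible (a ^ 2 + X)), (1 : ℝ) := by
        refine Finset.sum_congr rfl fun a _ => ?_
        rcases chi_pm χ a with h | h <;> rw [h] <;> simp
    _ = (((Mn K d).filter (fun a => Irreducible (a ^ 2 + X))).card : ℝ) := by
        rw [Finset.sum_const, nsmul_eq_mul, mul_one]
    _ ≤ ((Mn K d).card : ℝ) := by exact_mod_cast Finset.card_filter_le _ _
    _ = _ := by rw [card_Mn]; push_cast; rfl

end

/-- **Task TERS.** -/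
theorem main : S_tters := by
  intro hO h4 hl2 hmt hrank hconv K _ _ _ s hs
  set q : ℝ := (Fintype.card K : ℝ) with hq
  have hq2 : (2 : ℝ) ≤ q := two_le_card
  have hq0 : (0 : ℝ) < q := by linarith
  have hq1 : (1 : ℝ) ≤ q := by linarith
  obtain ⟨c4, θ, hc4, hθ, hθ4, d4, h4⟩ := h4 K
  obtain ⟨c0, hc0, hconv⟩ := hconv K (1 / 2) (by norm_num)
  obtain ⟨C, hC, hrank⟩ := hrank K (θ / 4) (by positivity)
  -- the singular series
  have hS : ∀ b : K[X], ∃ L : ℝ, Filter.Tendsto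
      (fun n : ℕ => ∏ P ∈ PU K n, (1 + lam K s b P)) Filter.atTop (nhds L) ∧
        ((∀ P : K[X], P.Monic → Irreducible P → 1 / 2 ≤ 1 + lam K s b P) → c0 ≤ L) := by
    intro b
    refine hconv (lam K s b) 1 one_ne_zero ?_ ?_
    · intro P _ hP h
      exact absurd (isUnit_of_dvd_one h) hP.not_isUnit
    · intro P _ hP _
      exact abs_lam_le hs b hP
  choose S hS1 hS2 using hS
  set c : ℝ := min c4 (θ / 4) / 2 with hc
  have hcpos : 0 < c := by
    have : 0 < min c4 (θ / 4) := lt_min hc4 (by positivity)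
    positivity
  have hc1 : 2 * c ≤ c4 := by
    have := min_le_left c4 (θ / 4)
    linarith
  have hc2 : 2 * c ≤ θ / 4 := by
    have := min_le_right c4 (θ / 4)
    linarith
  refine ⟨c, c0, S, hcpos, hc0, ?_, ?_⟩
  · intro b
    refine ⟨?_, ?_⟩
    · refine (hS1 b).congr fun n => ?_
      exact Finset.prod_congr rfl fun P _ => one_add_lam s b P
    · intro hb
      exact hS2 b fun P hPm hP => half_le hs b hb P hPm hP
  -- a large lower bound for the degree
  obtain ⟨d5, hd5⟩ : ∃ d5 : ℕ, ∀ d : ℕ, d5 ≤ d →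
      20 * s * 3 ^ s + C * q ^ (1 / 2 : ℝ) ≤ 2 ^ s * q ^ (c * (d : ℝ)) := by
    have h1 : 1 < q ^ c := Real.one_lt_rpow (by linarith) hcpos
    have h2 := tendsto_pow_atTop_atTop_of_one_lt h1
    obtain ⟨d5, hd5⟩ := Filter.eventually_atTop.1
      (h2.eventually_ge_atTop ((20 * s * 3 ^ s + C * q ^ (1 / 2 : ℝ)) / 2 ^ s))
    refine ⟨d5, fun d hd => ?_⟩
    have h3 := hd5 d hd
    rw [div_le_iff₀ (by positivity)] at h3
    rw [Real.rpow_mul hq0.le, Real.rpow_natCast]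
    linarith
  refine ⟨max (max d4 d5) 1, ?_⟩
  intro d b hd hbd
  have hd4 : d4 ≤ d := le_trans (le_trans (le_max_left _ _) (le_max_left _ _)) hd
  have hd5' : d5 ≤ d := le_trans (le_trans (le_max_right _ _) (le_max_left _ _)) hd
  have hd1 : 1 ≤ d := le_trans (le_max_right _ _) hd
  have hd1r : (1 : ℝ) ≤ d := by exact_mod_cast hd1
  set t : ℕ := ⌊θ * d⌋₊ with ht
  have ht1 : (t : ℝ) ≤ θ * d := Nat.floor_le (by positivity)
  have ht2 : θ * d < t + 1 := Nat.lt_floor_add_one _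
  have h2t : 2 * t ≤ d := by
    have h1 : (2 : ℝ) * t ≤ d := by nlinarith
    exact_mod_cast h1
  -- the sums
  obtain ⟨s1, s2⟩ := hl2 K θ d4 hθ hθ4 (fun d t χ hd ht h => (h4 d t χ hd ht).2 h) d t hd4 hd1 ht
  have hEle : q ^ ((1 - c4) * d) ≤ q ^ d := by
    rw [← Real.rpow_natCast]
    apply Real.rpow_le_rpow_of_exponent_le hq1
    nlinarith
  have hB1 : ∀ H ∈ Vs K d, |2 * (d : ℝ) * SX K d (ch d H)| ≤ 3 * d * q ^ d := by
    intro H _
    rw [abs_mul, abs_of_nonneg (by positivity)]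
    have h1 := abs_SX_le d (ch d H)
    have h2 : 0 < q ^ d := by positivity
    calc 2 * (d : ℝ) * |SX K d (ch d H)| ≤ 2 * (d : ℝ) * q ^ d := by gcongr
      _ ≤ 3 * d * q ^ d := by nlinarith
  have hB2 : ∀ H ∈ Vs K d, |MT K d t (ch d H)| ≤ 3 * d * q ^ d := by
    intro H _
    have h1 := abs_SX_le d (ch d H)
    have h2 := (h4 d t (ch d H) hd4 ht).1
    have h3 : |2 * (d : ℝ) * SX K d (ch d H)| ≤ 2 * (d : ℝ) * q ^ d := by
      rw [abs_mul, abs_of_nonneg (by positivity)]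
      gcongr
    have h5 : |MT K d t (ch d H)| ≤ |2 * (d : ℝ) * SX K d (ch d H)| +
        |2 * (d : ℝ) * SX K d (ch d H) - MT K d t (ch d H)| := by
      have h6 : MT K d t (ch d H) = 2 * (d : ℝ) * SX K d (ch d H) -
          (2 * (d : ℝ) * SX K d (ch d H) - MT K d t (ch d H)) := by ring
      nth_rewrite 1 [h6]
      exact abs_sub _ _
    have h7 : 0 < q ^ d := by positivity
    have h8 : |2 * (d : ℝ) * SX K d (ch d H) - MT K d t (ch d H)| ≤ q ^ d := h2.trans hEle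
    nlinarith
  have he := err (d := d) (t := t) hs b (E := q ^ ((1 - c4) * d)) (B := 3 * d * q ^ d)
    (fun H _ => (h4 d t (ch d H) hd4 ht).1) hB1 hB2 s1 s2
  have hm := hmt K d t s b h2t (by omega) hbd
  have hcnt := count hO d s b hbd
  set N : ℝ := (((Fintype.piFinset (fun _ : Fin s => Mn K d)).filter (fun a => ∑ i, a i = b ∧
          ∀ i, Irreducible (a i ^ 2 + X))).card : ℝ) with hN
  set T : ℝ := ∑ r ∈ Sq K t, ∏ᶠ P ∈ PA r, lam K s b P with hT
  have hm' : ∑ H ∈ Vs K d, ch d H b * (MT K d t (ch d H)) ^ s = q ^ (s * d) * T := hm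
  have hx : ∑ H ∈ Vs K d, ch d H b * (2 * (d : ℝ) * SX K d (ch d H)) ^ s =
      (2 * (d : ℝ)) ^ s * (q ^ d * N) := by
    rw [← hcnt, Finset.mul_sum]
    refine Finset.sum_congr rfl fun H _ => ?_
    ring
  rw [hx, hm'] at he
  -- the singular series
  have hTS : |S b - T| ≤ C * q ^ (θ / 4 * d - (t : ℝ) / 2) := by
    have h1 : ∀ᶠ n : ℕ in Filter.atTop, |∏ P ∈ PU K n, (1 + lam K s b P) - T| ≤
        C * q ^ (θ / 4 * d - (t : ℝ) / 2) := by
      filter_upwards [Filter.eventually_ge_atTop t] with n hn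
      refine hrank (lam K s b) 1 d t n one_ne_zero (by rw [natDegree_one]; omega) hn ?_
      intro P _ hP
      rw [if_neg]
      · exact abs_lam_le hs b hP
      · intro h
        exact absurd (isUnit_of_dvd_one h) hP.not_isUnit
    exact le_of_tendsto (((hS1 b).sub_const T).abs) h1
  -- conclusion
  have e1 : q ^ (s * d) = q ^ ((s : ℝ) * (d : ℝ)) := by
    rw [← Real.rpow_natCast]
    push_cast
    rfl
  have e3 : q ^ d = q ^ (d : ℝ) := by rw [Real.rpow_natCast]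
  have e6 : q ^ ((s - 1) * d) = q ^ (((s : ℝ) - 1) * (d : ℝ)) := by
    rw [← Real.rpow_natCast]
    push_cast [Nat.cast_sub (by omega : 1 ≤ s)]
    rfl
  have g1 : q ^ ((1 - c4) * d) * q ^ ((s - 1) * d) ≤ q ^ (((s : ℝ) - 2 * c) * (d : ℝ)) := by
    rw [e6, ← Real.rpow_add hq0]
    apply Real.rpow_le_rpow_of_exponent_le (by linarith)
    nlinarith
  have g2 : q ^ (s * d) * q ^ (θ / 4 * d - (t : ℝ) / 2) ≤
      q ^ (1 / 2 : ℝ) * q ^ (((s : ℝ) - 2 * c) * (d : ℝ)) := by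
    rw [e1, ← Real.rpow_add hq0, ← Real.rpow_add hq0]
    apply Real.rpow_le_rpow_of_exponent_le (by linarith)
    nlinarith
  have hpow : (3 * (d : ℝ) * q ^ d) ^ (s - 3) * (20 * (d : ℝ) ^ 2 * q ^ (2 * d)) ≤
      20 * 3 ^ s * (d : ℝ) ^ s * q ^ ((s - 1) * d) := by
    have h1 : (3 : ℝ) ^ (s - 3) ≤ 3 ^ s := pow_le_pow_right₀ (by norm_num) (by omega)
    have h2 : (d : ℝ) ^ (s - 3) * (d : ℝ) ^ 2 ≤ (d : ℝ) ^ s := by
      rw [← pow_add]; exact pow_le_pow_right₀ hd1r (by omega)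
    have h3 : (q ^ d) ^ (s - 3) * q ^ (2 * d) = q ^ ((s - 1) * d) := by
      rw [← pow_mul, ← pow_add]
      congr 1
      have h5 : s - 1 = (s - 3) + 2 := by omega
      rw [h5]; ring
    calc (3 * (d : ℝ) * q ^ d) ^ (s - 3) * (20 * (d : ℝ) ^ 2 * q ^ (2 * d))
        = 20 * 3 ^ (s - 3) * ((d : ℝ) ^ (s - 3) * (d : ℝ) ^ 2) *
          ((q ^ d) ^ (s - 3) * q ^ (2 * d)) := by
          rw [mul_pow, mul_pow]; ring
      _ ≤ 20 * 3 ^ s * (d : ℝ) ^ s * q ^ ((s - 1) * d) := by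
          rw [h3]; gcongr
  have g3 : |(2 * (d : ℝ)) ^ s * (q ^ d * N) - q ^ (s * d) * S b| ≤
      (20 * s * 3 ^ s * (d : ℝ) ^ s + C * q ^ (1 / 2 : ℝ)) *
        q ^ (((s : ℝ) - 2 * c) * (d : ℝ)) := by
    have e4 : (2 * (d : ℝ)) ^ s * (q ^ d * N) - q ^ (s * d) * S b =
        ((2 * (d : ℝ)) ^ s * (q ^ d * N) - q ^ (s * d) * T) - q ^ (s * d) * (S b - T) := by ring
    rw [e4]
    have h3 : |q ^ (s * d) * (S b - T)| ≤
        C * (q ^ (1 / 2 : ℝ) * q ^ (((s : ℝ) - 2 * c) * (d : ℝ))) := by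
      rw [abs_mul, abs_of_pos (by positivity)]
      calc q ^ (s * d) * |S b - T| ≤ q ^ (s * d) * (C * q ^ (θ / 4 * d - (t : ℝ) / 2)) := by
            gcongr
        _ = C * (q ^ (s * d) * q ^ (θ / 4 * d - (t : ℝ) / 2)) := by ring
        _ ≤ _ := by gcongr
    have h4' : q ^ ((1 - c4) * d) * (s * (3 * d * q ^ d) ^ (s - 3) *
        (20 * (d : ℝ) ^ 2 * q ^ (2 * d))) ≤
        20 * s * 3 ^ s * (d : ℝ) ^ s * q ^ (((s : ℝ) - 2 * c) * (d : ℝ)) := by
      calc q ^ ((1 - c4) * d) * (s * (3 * d * q ^ d) ^ (s - 3) *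
            (20 * (d : ℝ) ^ 2 * q ^ (2 * d))) =
          q ^ ((1 - c4) * d) * (s * ((3 * d * q ^ d) ^ (s - 3) *
            (20 * (d : ℝ) ^ 2 * q ^ (2 * d)))) := by ring
        _ ≤ q ^ ((1 - c4) * d) * (s * (20 * 3 ^ s * (d : ℝ) ^ s * q ^ ((s - 1) * d))) := by
            gcongr
        _ = 20 * s * 3 ^ s * (d : ℝ) ^ s * (q ^ ((1 - c4) * d) * q ^ ((s - 1) * d)) := by ring
        _ ≤ _ := by gcongr
    calc _ ≤ |(2 * (d : ℝ)) ^ s * (q ^ d * N) - q ^ (s * d) * T| + |q ^ (s * d) * (S b - T)| :=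
          abs_sub _ _
      _ ≤ 20 * s * 3 ^ s * (d : ℝ) ^ s * q ^ (((s : ℝ) - 2 * c) * (d : ℝ)) +
          C * (q ^ (1 / 2 : ℝ) * q ^ (((s : ℝ) - 2 * c) * (d : ℝ))) :=
            add_le_add (he.trans h4') h3
      _ = _ := by ring
  have g4 : (20 * s * 3 ^ s * (d : ℝ) ^ s + C * q ^ (1 / 2 : ℝ)) *
      q ^ (((s : ℝ) - 2 * c) * (d : ℝ)) ≤
      (2 * (d : ℝ)) ^ s * q ^ d * q ^ (((s : ℝ) - 1 - c) * (d : ℝ)) := by
    have h1 : 20 * s * 3 ^ s * (d : ℝ) ^ s + C * q ^ (1 / 2 : ℝ) ≤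
        (d : ℝ) ^ s * (2 ^ s * q ^ (c * (d : ℝ))) := by
      have h2 := hd5 d hd5'
      have h4 : (1 : ℝ) ≤ (d : ℝ) ^ s := one_le_pow₀ hd1r
      have h5 : 0 ≤ C * q ^ (1 / 2 : ℝ) := by positivity
      calc 20 * s * 3 ^ s * (d : ℝ) ^ s + C * q ^ (1 / 2 : ℝ) ≤
          20 * s * 3 ^ s * (d : ℝ) ^ s + (d : ℝ) ^ s * (C * q ^ (1 / 2 : ℝ)) := by nlinarith
        _ = (d : ℝ) ^ s * (20 * s * 3 ^ s + C * q ^ (1 / 2 : ℝ)) := by ring
        _ ≤ _ := by gcongr
    calc _ ≤ (d : ℝ) ^ s * (2 ^ s * q ^ (c * (d : ℝ))) *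
          q ^ (((s : ℝ) - 2 * c) * (d : ℝ)) := by gcongr
      _ = 2 ^ s * (d : ℝ) ^ s * (q ^ (c * (d : ℝ)) * q ^ (((s : ℝ) - 2 * c) * (d : ℝ))) := by
          ring
      _ = 2 ^ s * (d : ℝ) ^ s * (q ^ (d : ℝ) * q ^ (((s : ℝ) - 1 - c) * (d : ℝ))) := by
          rw [← Real.rpow_add hq0, ← Real.rpow_add hq0]
          congr 2
          ring
      _ = _ := by
          rw [e3, mul_pow]
          ring
  have hD : 0 < (2 * (d : ℝ)) ^ s * q ^ d := by positivity
  have g5 : N - S b * q ^ ((s - 1) * d) / (2 * (d : ℝ)) ^ s =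
      ((2 * (d : ℝ)) ^ s * (q ^ d * N) - q ^ (s * d) * S b) / ((2 * (d : ℝ)) ^ s * q ^ d) := by
    have h1 : q ^ (s * d) = q ^ d * q ^ ((s - 1) * d) := by
      rw [← pow_add]
      congr 1
      obtain ⟨k, rfl⟩ : ∃ k, s = k + 1 := ⟨s - 1, by omega⟩
      rw [Nat.add_sub_cancel]
      ring
    have h2 : (2 * (d : ℝ)) ^ s ≠ 0 := by positivity
    have h3 : q ^ d ≠ 0 := by positivity
    rw [h1]
    generalize (2 * (d : ℝ)) ^ s = A at *
    generalize q ^ ((s - 1) * d) = B at *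
    generalize q ^ d = D at *
    field_simp
  rw [g5, abs_div, abs_of_pos hD, div_le_iff₀ hD]
  calc _ ≤ _ := g3
    _ ≤ _ := g4
    _ = _ := by ring

end Pool.Agent.H290.FX.PTers
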