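import Mathlib
import Pool.Agent.H290.FX.AsmF
import Pool.Agent.H290.FX.PMts
import Pool.Agent.H290.FX.PTers

/-!
# Sums of `s ≥ 3` (helper290): assembly
-/

set_option autoImplicit false

namespace Pool.Agent.H290.FX.AsmV

open Pool.Agent.H290.FX

theorem mts : S_mts := PMts.main PRoot.main PUniq.main Asm.ram

theorem ters : S_ters := PTers.main POrth.main AsmF.four Asm.l2 mts PRank.main PConv.main

end Pool.Agent.H290.FX.AsmV
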