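import Pool.Agent.H290.FX.StmD

/-!
# The number of the characters with a squarefree period of small degree
-/

set_option autoImplicit false

namespace Pool.Agent.H290.FX.PDcnt

open Polynomial
open Pool.Agent.H290.FX
open Pool.Agent.H290.FX.D
open Pool.Agent.H985.KP (sg)
open Pool.Agent.H985.KP.Loc2 (sg_add sg_zero)

/-- The sign is not trivial. -/
theorem exists_sg (K : Type) [Field K] [Finite K] [CharP K 2] : ∃ x : K, sg x ≠ 1 := by
  have h : ¬ Function.Surjective (fun y : K => y ^ 2 + y) := by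
    intro hs
    have hi := (Finite.injective_iff_surjective).2 hs
    have h01 : (0 : K) = 1 := hi (by
      simp only
      have : (1 : K) + 1 = 0 := CharTwo.add_self_eq_zero 1
      rw [one_pow, this]
      ring)
    exact zero_ne_one h01
  rw [Function.Surjective] at h
  push Not at h
  obtain ⟨x, hx⟩ := h
  refine ⟨x, ?_⟩
  unfold sg
  rw [if_neg (by rintro ⟨y, hy⟩; exact hx y hy)]
  norm_num

/-- Nondegeneracy. -/
theorem eq_zero_of_sg {K : Type} [Field K] [Finite K] [CharP K 2] {u : K}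
    (h : ∀ c : K, sg (u * c) = 1) : u = 0 := by
  by_contra hu
  obtain ⟨x, hx⟩ := exists_sg K
  have := h (u⁻¹ * x)
  rw [← mul_assoc, mul_inv_cancel₀ hu, one_mul] at this
  exact hx this

theorem cf_mem {K : Type} [Field K] {I : Finset ℕ} (b : I → K) (c : K) (i : ℕ) (hi : i ∈ I) :
    cf b (C c * X ^ i) = sg (b ⟨i, hi⟩ * c) := by
  unfold cf
  rw [Finset.prod_eq_single (⟨i, hi⟩ : I)]
  · rw [coeff_C_mul_X_pow, if_pos rfl]
  · intro j _ hj
    rw [coeff_C_mul_X_pow, if_neg, mul_zero, sg_zero]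
    intro h
    exact hj (Subtype.ext h)
  · intro h
    exact absurd (Finset.mem_univ _) h

theorem cf_not_mem {K : Type} [Field K] {I : Finset ℕ} (b : I → K) (c : K) (i : ℕ) (hi : i ∉ I) :
    cf b (C c * X ^ i) = 1 := by
  unfold cf
  refine Finset.prod_eq_one fun j _ => ?_
  rw [coeff_C_mul_X_pow, if_neg, mul_zero, sg_zero]
  intro h
  exact hi (h ▸ j.2)

theorem X_sq {K : Type} [Field K] {r : K[X]} (hr : Squarefree r) : ¬ X ^ 2 ∣ r := by
  intro h
  rw [pow_two] at h
  exact not_isUnit_X (hr X h)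

/-- A common multiple of two squarefree polynomials. -/
theorem common {K : Type} [Field K] {r r' : K[X]} {ρ : ℕ} (hr : r.Monic) (hr' : r'.Monic)
    (hs : Squarefree r) (hs' : Squarefree r') (hd : r.natDegree = ρ) (hd' : r'.natDegree = ρ) :
    ∃ R : K[X], R.Monic ∧ ¬ X ^ 2 ∣ R ∧ r ∣ R ∧ r' ∣ R ∧ R.natDegree ≤ 2 * ρ := by
  by_cases h : X ∣ r
  · by_cases h' : X ∣ r'
    · obtain ⟨s, hs1⟩ := h
      have hXs : ¬ X ∣ s := by
        rintro ⟨t, ht⟩
        apply X_sq hs
        rw [hs1, ht, pow_two]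
        exact ⟨t, by ring⟩
      have hsm : s.Monic := by
        have h1 : (X * s).Monic := by rw [← hs1]; exact hr
        exact monic_X.of_mul_monic_left h1
      obtain ⟨s', hs1'⟩ := h'
      refine ⟨s * r', hsm.mul hr', fun h2 => ?_, ?_, Dvd.intro_left _ rfl, ?_⟩
      · exact X_sq hs' (prime_X.pow_dvd_of_dvd_mul_left 2 hXs h2)
      · rw [hs1, hs1']
        exact ⟨s', by ring⟩
      · rw [hsm.natDegree_mul hr', hd']
        have h3 : r.natDegree = 1 + s.natDegree := by
          rw [hs1, monic_X.natDegree_mul hsm, natDegree_X]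
        omega
    · refine ⟨r * r', hr.mul hr', fun h2 => ?_, Dvd.intro _ rfl, Dvd.intro_left _ rfl, ?_⟩
      · exact X_sq hs (prime_X.pow_dvd_of_dvd_mul_right 2 h' h2)
      · rw [hr.natDegree_mul hr', hd, hd']
        omega
  · refine ⟨r * r', hr.mul hr', fun h2 => ?_, Dvd.intro _ rfl, Dvd.intro_left _ rfl, ?_⟩
    · exact X_sq hs' (prime_X.pow_dvd_of_dvd_mul_left 2 h h2)
    · rw [hr.natDegree_mul hr', hd, hd']
      omega

/-- One of the blocks contains few elements of `I`. -/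
theorem pigeon (I : Finset ℕ) (ρ B : ℕ) (hB : 1 ≤ B) : ∃ k < B,
    (I.filter (fun i => 1 + 2 * ρ * k ≤ i ∧ i < 1 + 2 * ρ * (k + 1))).card ≤ I.card / B := by
  by_contra hcon
  push Not at hcon
  have h1 : ∑ k ∈ Finset.range B,
      (I.filter (fun i => 1 + 2 * ρ * k ≤ i ∧ i < 1 + 2 * ρ * (k + 1))).card ≤ I.card := by
    rw [← Finset.card_biUnion]
    · exact Finset.card_le_card (Finset.biUnion_subset.2 fun k _ => Finset.filter_subset _ _)
    · intro k _ l _ hkl
      rw [Function.onFun, Finset.disjoint_left]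
      intro i hi hi'
      rw [Finset.mem_filter] at hi hi'
      rcases Nat.lt_or_ge k l with h | h
      · have : 2 * ρ * (k + 1) ≤ 2 * ρ * l := Nat.mul_le_mul_left _ h
        omega
      · have h2 : l < k := lt_of_le_of_ne h (Ne.symm hkl)
        have : 2 * ρ * (l + 1) ≤ 2 * ρ * k := Nat.mul_le_mul_left _ h2
        omega
  have h2 : B * (I.card / B + 1) ≤ ∑ k ∈ Finset.range B,
      (I.filter (fun i => 1 + 2 * ρ * k ≤ i ∧ i < 1 + 2 * ρ * (k + 1))).card := by
    have := Finset.card_nsmul_le_sum (Finset.range B)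
      (fun k => (I.filter (fun i => 1 + 2 * ρ * k ≤ i ∧ i < 1 + 2 * ρ * (k + 1))).card)
      (I.card / B + 1) (fun k hk => hcon k (Finset.mem_range.1 hk))
    rwa [Finset.card_range, smul_eq_mul] at this
  have h3 : I.card < B * (I.card / B + 1) := Nat.lt_mul_div_succ _ hB
  omega

theorem main : S_rec → S_cnt := by
  classical
  intro hrec K _ _ _ d ρ B I hI hB hd
  obtain ⟨k, hkB, hk⟩ := pigeon I ρ B hB
  set T : Finset ℕ := I.filter (fun i => i = 0 ∨ (1 + 2 * ρ * k ≤ i ∧ i < 1 + 2 * ρ * (k + 1)))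
    with hT
  have hTI : T ⊆ I := Finset.filter_subset _ _
  have hTc : T.card ≤ 1 + I.card / B := by
    have h1 : T ⊆ {0} ∪ I.filter (fun i => 1 + 2 * ρ * k ≤ i ∧ i < 1 + 2 * ρ * (k + 1)) := by
      intro i hi
      rw [hT, Finset.mem_filter] at hi
      rw [Finset.mem_union, Finset.mem_singleton, Finset.mem_filter]
      rcases hi.2 with h | h
      · exact Or.inl h
      · exact Or.inr ⟨hi.1, h⟩
    refine (Finset.card_le_card h1).trans ((Finset.card_union_le _ _).trans ?_)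
    rw [Finset.card_singleton]
    omega
  have hq : 1 ≤ Fintype.card K := Fintype.card_pos
  refine le_trans ?_ (Nat.pow_le_pow_right hq hTc)
  have hcard : Fintype.card (T → K) = Fintype.card K ^ T.card := by
    rw [Fintype.card_fun, Fintype.card_coe]
  rw [← hcard, ← Finset.card_univ]
  refine Finset.card_le_card_of_injOn (fun b => fun t : T => b ⟨t, hTI t.2⟩)
    (fun b _ => Finset.mem_coe.2 (Finset.mem_univ _)) ?_
  intro b hb b' hb' hbb
  obtain ⟨-, χ, hχ, r, hr, hrs, hrd, hper⟩ := Finset.mem_filter.1 (Finset.mem_coe.1 hb)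
  obtain ⟨-, χ', hχ', r', hr', hrs', hrd', hper'⟩ := Finset.mem_filter.1 (Finset.mem_coe.1 hb')
  obtain ⟨R, hR, hRX, hrR, hrR', hRd⟩ := common hr hr' hrs hrs' hrd hrd'
  have hval : ∀ (i : ℕ) (hi : i ∈ I) (c : K), (χ * χ') (C c * X ^ i) =
      sg ((b ⟨i, hi⟩ + b' ⟨i, hi⟩) * c) := by
    intro i hi c
    rw [AddChar.mul_apply, hχ, hχ', cf_mem b c i hi, cf_mem b' c i hi, add_mul, sg_add]
  have hT' : ∀ (i : ℕ) (hi : i ∈ I), i ∈ T → b ⟨i, hi⟩ = b' ⟨i, hi⟩ := fun i hi h =>
    congrFun hbb ⟨i, h⟩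
  have hall := hrec K d (χ * χ') R (1 + 2 * ρ * k) hR hRX (by
    intro s hs
    rw [AddChar.mul_apply]
    obtain ⟨t, ht⟩ := hrR
    obtain ⟨t', ht'⟩ := hrR'
    have e1 : R * s = r * (t * s) := by rw [ht]; ring
    have e2 : R * s = r' * (t' * s) := by rw [ht']; ring
    have h1 : χ (R * s) = 1 := by
      rw [e1]
      exact hper _ (by rw [← e1]; exact hs)
    have h2 : χ' (R * s) = 1 := by
      rw [e2]
      exact hper' _ (by rw [← e2]; exact hs)
    rw [h1, h2, one_mul]) (by omega) (by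
    have h1 : 2 * ρ * (k + 1) ≤ 2 * ρ * B := Nat.mul_le_mul_left _ hkB
    have h2 : 2 * ρ * (k + 1) = 2 * ρ * k + 2 * ρ := by ring
    omega) (by
    intro i h1 h2 c
    have h3 : 2 * ρ * (k + 1) = 2 * ρ * k + 2 * ρ := by ring
    by_cases hi : i ∈ I
    · have hiT : i ∈ T := by
        rw [hT, Finset.mem_filter]
        exact ⟨hi, Or.inr ⟨h1, by omega⟩⟩
      rw [hval i hi c, hT' i hi hiT, CharTwo.add_self_eq_zero, zero_mul, sg_zero]
    · rw [AddChar.mul_apply, hχ, hχ', cf_not_mem b c i hi, cf_not_mem b' c i hi, one_mul])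
  funext ⟨i, hi⟩
  by_cases h0 : i = 0
  · exact hT' i hi (by rw [hT, Finset.mem_filter]; exact ⟨hi, Or.inl h0⟩)
  · have h1 : b ⟨i, hi⟩ + b' ⟨i, hi⟩ = 0 := eq_zero_of_sg fun c => by
      rw [← hval i hi c]
      exact hall i (Nat.one_le_iff_ne_zero.2 h0) (hI i hi) c
    exact CharTwo.add_eq_zero.1 h1

end Pool.Agent.H290.FX.PDcnt
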