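import Pool.Agent.H290.FX.PExp

/-!
# The `a` with `a ^ 2 + X` irreducible and prescribed coefficients (helper290)

`K` is a finite field of characteristic `2`, `q` its number of elements.  The exponential sums
`SX K d χ` are known for all additive characters (`PExp.real_form`).  Here the number of the monic `a`
of degree `d`, `a ^ 2 + X` irreducible, whose coefficients at a set `I` of at most `δ d` positions are
prescribed, is computed.
-/

set_option autoImplicit false

namespace Pool.Agent.H290.FX.D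

open Polynomial
open scoped Classical
open Pool.Agent.H290.FX
open Pool.Agent.H985.KP (sg)
open Pool.Agent.H694.Typ (Mn)

variable {K : Type} [Field K]

/-- The character `a ↦ ∏_{i ∈ I} sg (b_i a_i)`, as a function. -/
noncomputable def cf {I : Finset ℕ} (b : I → K) (a : K[X]) : ℝ := ∏ i : I, sg (b i * a.coeff i)

/-- `χ` is the character of `b`. -/
def IsC {I : Finset ℕ} (b : I → K) (χ : AddChar K[X] ℝ) : Prop := ∀ a : K[X], χ a = cf b a

/-- The prescribed coefficients. -/
noncomputable def Wd (K : Type) [Field K] [Fintype K] (d : ℕ) (I : Finset ℕ) (w : ℕ → K) :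
    Finset K[X] :=
  (Mn K d).filter (fun a => Irreducible (a ^ 2 + X) ∧ ∀ i ∈ I, a.coeff i = w i)

/-- **Task DREC.**  A character with a period `r` of degree `ρ`, `X ^ 2 ∤ r`, which is trivial on `ρ`
consecutive positions `j, …, j + ρ - 1`, `j ≥ 1`, is trivial on all the positions `1, …, d - 1`.
Upwards: for `j + ρ ≤ i < d` subtract `C c * X ^ (i - ρ) * r` (`r` is monic) from `C c * X ^ i`; the
remaining terms have positions `i - ρ, …, i - 1` (strong induction on `i`).  Downwards: let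
`v ∈ {0, 1}` be the order of `r` at `0`, `u = r.coeff v ≠ 0`; for `1 ≤ i < j` subtract
`C (c / u) * X ^ (i - v) * r` from `C c * X ^ i`: the remaining terms have positions
`i + 1, …, i - v + ρ`. -/
def S_rec : Prop :=
  ∀ (K : Type) [Field K] [Fintype K] [CharP K 2] (d : ℕ) (χ : AddChar K[X] ℝ) (r : K[X]) (j : ℕ),
    r.Monic → ¬ X ^ 2 ∣ r → Per d χ r → 1 ≤ j → j + r.natDegree ≤ d →
    (∀ i : ℕ, j ≤ i → i < j + r.natDegree → ∀ c : K, χ (C c * X ^ i) = 1) →
    ∀ i : ℕ, 1 ≤ i → i < d → ∀ c : K, χ (C c * X ^ i) = 1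

/-- **Task DLOW.**  (Given DREC.)  If the character of `b` has a squarefree period `r` and is not
trivial on some position `i ≠ 0`, then `d ≤ (|I| + 1) deg r`.  Otherwise the `|I| + 1` disjoint blocks
`1 + k ρ, …, (k + 1) ρ`, `0 ≤ k ≤ |I|`, `ρ = deg r`, are contained in `1, …, d - 1`, and one of them
contains no element of `I`; the character is trivial there (`C c * X ^ i` with `i ∉ I`), so by DREC on
all positions `≠ 0`, so `sg (b_i c) = 1` for all `c`, and `b_i = 0` (`sg` is not trivial: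
`Pool.Agent.H985.KP`).  (`ρ = 0`: `r = 1` and the character is trivial in degrees `< d`.) -/
def S_low : Prop :=
  ∀ (K : Type) [Field K] [Fintype K] [CharP K 2] (d : ℕ) (I : Finset ℕ) (b : I → K)
    (χ : AddChar K[X] ℝ) (r : K[X]), (∀ i ∈ I, i < d) → IsC b χ → r.Monic → Squarefree r →
    Per d χ r → (∃ i : I, (i : ℕ) ≠ 0 ∧ b i ≠ 0) → d ≤ (I.card + 1) * r.natDegree

/-- **Task DCNT.**  (Given DREC.)  The number of the characters `b` with a squarefree period of degree
`ρ` is at most `q ^ (1 + |I| / B)` if `2 ρ B < d` (`|I| / B` rounded down).  Proof: the `B` disjoint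
blocks `J_k = {1 + 2 ρ k, …, 2 ρ (k + 1)}`, `k < B`, are contained in `1, …, d - 1`; one of them
contains at most `|I| / B` elements of `I`.  Map `b` to its values at the positions in `J_k ∩ I` and at
`0` (if `0 ∈ I`).  This is injective on the set: for `b, b'` with periods `r, r'` the character of
`b - b'` has the period `lcm (r, r')`, squarefree (not divisible by `X ^ 2`) of degree `≤ 2 ρ`, so if
`b, b'` agree on `J_k ∩ I` then DREC (with the first `deg lcm` positions of `J_k`) shows that they agree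
at all positions `≠ 0`.  (`ρ = 0`: only `b = 0`.) -/
def S_cnt : Prop :=
  ∀ (K : Type) [Field K] [Fintype K] [CharP K 2] (d ρ B : ℕ) (I : Finset ℕ), (∀ i ∈ I, i < d) →
    1 ≤ B → 2 * ρ * B < d →
    (Finset.univ.filter (fun b : I → K => ∃ χ : AddChar K[X] ℝ, IsC b χ ∧
      ∃ r : K[X], r.Monic ∧ Squarefree r ∧ r.natDegree = ρ ∧ Per d χ r)).card ≤
      Fintype.card K ^ (1 + I.card / B)

/-- **Task DCHR.**  `cf b` is a character. -/
def S_chr : Prop :=
  ∀ (K : Type) [Field K] [Fintype K] [CharP K 2] (I : Finset ℕ) (b : I → K),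
    ∃ χ : AddChar K[X] ℝ, IsC b χ

/-- The local factor. -/
noncomputable def sfac (K : Type) [Field K] [Fintype K] (I : Finset ℕ) (w : ℕ → K) : ℝ :=
  if 0 ∈ I then (if w 0 = 0 then 0 else (Fintype.card K : ℝ) / (Fintype.card K - 1)) else 1

/-- **Task DORTH.**  Orthogonality: `q ^ |I|` times the number is the sum over all `b : I → K` of
`cf b (w) * SX K d χ_b` (`∏_i ∑_t sg (t (a_i - w_i))` is `q ^ |I|` or `0`), where
`cf b (w) = ∏_i sg (b_i w_i)` has absolute value one; so it differs from the part of the `b` which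
vanish at all positions `≠ 0` by at most the sum of the `|SX K d χ_b|` over the other `b`.  That part
is `SX K d 1` if `0 ∉ I`, and `∑_t sg (t w_0) SX K d χ_t` if `0 ∈ I`, `χ_t a = sg (t a_0)`.  For these
characters use `PExp.real_form`: the least period of `χ = 1` is `r = 1` (`ρ = X ^ d`, `mob 1 = 1`,
`ph 1 = 1`), that of `χ_t`, `t ≠ 0`, is `r = X` (`d ≥ 2`; `ρ = X ^ d`, `χ_t (X ^ d) = 1`,
`mob X = -1`, `ph X = q - 1`); and `∑_{t ≠ 0} sg (t w_0)` is `-1` if `w_0 ≠ 0` and `q - 1` if
`w_0 = 0`.  (`q` times the error `q ^ ((1 - c) d)` of `real_form` is at most `q ^ ((1 - c / 2) d)`.) -/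
def S_dorth : Prop :=
  ∀ (K : Type) [Field K] [Fintype K] [CharP K 2], ∃ c : ℝ, 0 < c ∧ ∃ d₀ : ℕ,
    ∀ (d : ℕ) (I : Finset ℕ) (w : ℕ → K) (χ : (I → K) → AddChar K[X] ℝ), d₀ ≤ d →
      (∀ i ∈ I, i < d) → (∀ b : I → K, IsC b (χ b)) →
      |(Fintype.card K : ℝ) ^ I.card * ((Wd K d I w).card : ℝ) -
          sfac K I w * ((Fintype.card K : ℝ) ^ d / (2 * d))| ≤
        (∑ b ∈ Finset.univ.filter (fun b : I → K => ∃ i : I, (i : ℕ) ≠ 0 ∧ b i ≠ 0),
          |SX K d (χ b)|) + (Fintype.card K : ℝ) ^ ((1 - c) * d)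

/-- The final statement. -/
def S_dfin : Prop :=
  ∀ (K : Type) [Field K] [Fintype K] [CharP K 2] (ε : ℝ), 0 < ε → ∃ δ : ℝ, 0 < δ ∧ ∃ d₀ : ℕ,
    ∀ (d : ℕ) (I : Finset ℕ) (w : ℕ → K), d₀ ≤ d → (∀ i ∈ I, i < d) → (I.card : ℝ) ≤ δ * d →
      |((Wd K d I w).card : ℝ) - sfac K I w * ((Fintype.card K : ℝ) ^ (d - I.card) / (2 * d))| ≤
        ε * ((Fintype.card K : ℝ) ^ (d - I.card) / (2 * d))

end Pool.Agent.H290.FX.D
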