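import Mathlib
import Pool.Agent.H290.FX.StmD

set_option autoImplicit false

namespace Pool.Agent.H290.FX.PDfin

open Polynomial
open scoped Classical
open Pool.Agent.H290.FX
open Pool.Agent.H290.FX.D
open Pool.Agent.H985.Chow (mob lc)
open Pool.Agent.H694.Typ (Mn PU mem_Mn)

/-- The bound for one character. -/
theorem one_char (K : Type) [Field K] [Fintype K] [CharP K 2] : ∃ c : ℝ, 0 < c ∧ ∃ d₀ : ℕ,
    ∀ (d : ℕ) (χ : AddChar K[X] ℝ), d₀ ≤ d → ∃ r : K[X], r.Monic ∧ Per d χ r ∧
      |SX K d χ| ≤ (if Squarefree r then 2 ^ (Fintype.card K) *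
        (Fintype.card K : ℝ) ^ (-((r.natDegree : ℝ) / 2)) *
          ((Fintype.card K : ℝ) ^ d / (2 * d)) else 0) + (Fintype.card K : ℝ) ^ ((1 - c) * d) := by
  obtain ⟨c, hc, d₀, H⟩ := PExp.real_form K
  set q : ℝ := (Fintype.card K : ℝ) with hq
  have hq2 : (2 : ℝ) ≤ q := by
    have : 1 < Fintype.card K := Fintype.one_lt_card
    rw [hq]
    exact_mod_cast this
  have hq0 : 0 < q := by linarith
  refine ⟨c, hc, max d₀ 1, fun d χ hd => ?_⟩
  have hd0 : d₀ ≤ d := (le_max_left _ _).trans hd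
  have hd1 : 1 ≤ d := (le_max_right _ _).trans hd
  have hdR : (1 : ℝ) ≤ d := by exact_mod_cast hd1
  have hex : ∃ n : ℕ, ∃ r : K[X], r.Monic ∧ r.natDegree = n ∧ Per d χ r := by
    refine ⟨d, X ^ d, monic_X_pow d, natDegree_X_pow d, fun s hs => ?_⟩
    have : s = 0 := by
      by_contra h0
      have h2 : ((X : K[X]) ^ d * s).degree = (d : WithBot ℕ) + s.degree := by
        rw [degree_mul, degree_X_pow]
      rw [h2, degree_eq_natDegree h0] at hs
      have h3 : d + s.natDegree < d := by exact_mod_cast hs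
      omega
    rw [this, mul_zero, AddChar.map_zero_eq_one]
  obtain ⟨r, h1, h2, h3⟩ := Nat.find_spec hex
  have hM : MPer d χ r := by
    refine ⟨h1, h3, fun r' hr' hlt hper => ?_⟩
    rw [h2] at hlt
    exact Nat.find_min hex hlt ⟨r', hr', rfl, hper⟩
  have hrd : r.natDegree ≤ d := by
    rw [h2]
    exact Nat.find_min' hex ⟨X ^ d, monic_X_pow d, natDegree_X_pow d, fun s hs => by
      have : s = 0 := by
        by_contra h0
        have h2 : ((X : K[X]) ^ d * s).degree = (d : WithBot ℕ) + s.degree := by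
          rw [degree_mul, degree_X_pow]
        rw [h2, degree_eq_natDegree h0] at hs
        have h3 : d + s.natDegree < d := by exact_mod_cast hs
        omega
      rw [this, mul_zero, AddChar.map_zero_eq_one]⟩
  refine ⟨r, h1, h3, ?_⟩
  by_cases hs : Squarefree r
  · rw [if_pos hs]
    have h8 := PRoot.main K r h1
    have h9 := PExp.root_monic h1 hrd (h8.1 hs).2
    have h10 : r ∣ (rt r + r * X ^ (d - r.natDegree)) ^ 2 + X := by
      have h11 : (rt r + r * X ^ (d - r.natDegree)) ^ 2 + X =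
        (rt r ^ 2 + X) + r * (2 * rt r * X ^ (d - r.natDegree) +
          r * (X ^ (d - r.natDegree)) ^ 2) := by ring
      rw [h11]
      exact dvd_add (h8.1 hs).1 (dvd_mul_right _ _)
    have h := H d χ r _ hd0 hM hrd h9.1 h9.2 (fun _ => h10)
    set ρ := rt r + r * X ^ (d - r.natDegree) with hρ
    have h5 : (mob r : ℝ) ^ 2 = 1 := PMb.mob_sqr hs
    have h6 : |(mob r : ℝ)| = 1 := by
      rw [← sq_abs] at h5
      nlinarith [abs_nonneg (mob r : ℝ)]
    have h7 := PExp.ph_ge h1.ne_zero hs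
    rw [← hq] at h7
    have hy : 0 < q ^ ((r.natDegree : ℝ) / 2) := Real.rpow_pos_of_pos hq0 _
    have h12 : (0 : ℝ) < (1 / 2 : ℝ) ^ (Fintype.card K) * q ^ ((r.natDegree : ℝ) / 2) := by
      positivity
    have hph : 0 < PExp.ph r := h12.trans_le h7
    have h13 : |(mob r : ℝ) * χ ρ / PExp.ph r * (q ^ d / (2 * d))| ≤
        2 ^ (Fintype.card K) * q ^ (-((r.natDegree : ℝ) / 2)) * (q ^ d / (2 * d)) := by
      rw [abs_mul, abs_div, abs_mul, h6, PExp.abs_one, one_mul, abs_of_pos hph,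
        abs_of_pos (by positivity : (0 : ℝ) < q ^ d / (2 * d))]
      refine mul_le_mul_of_nonneg_right ?_ (by positivity)
      rw [div_le_iff₀ hph, Real.rpow_neg hq0.le]
      have h14 : (2 : ℝ) ^ (Fintype.card K) * (q ^ ((r.natDegree : ℝ) / 2))⁻¹ *
          ((1 / 2 : ℝ) ^ (Fintype.card K) * q ^ ((r.natDegree : ℝ) / 2)) = 1 := by
        have h15 : (2 : ℝ) ^ (Fintype.card K) * (1 / 2 : ℝ) ^ (Fintype.card K) = 1 := by
          rw [← mul_pow]
          norm_num
        calc (2 : ℝ) ^ (Fintype.card K) * (q ^ ((r.natDegree : ℝ) / 2))⁻¹ *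
            ((1 / 2 : ℝ) ^ (Fintype.card K) * q ^ ((r.natDegree : ℝ) / 2)) =
            ((2 : ℝ) ^ (Fintype.card K) * (1 / 2 : ℝ) ^ (Fintype.card K)) *
              ((q ^ ((r.natDegree : ℝ) / 2))⁻¹ * q ^ ((r.natDegree : ℝ) / 2)) := by ring
          _ = 1 := by rw [h15, inv_mul_cancel₀ hy.ne', one_mul]
      rw [← h14]
      exact mul_le_mul_of_nonneg_left h7 (by positivity)
    have h16 : |SX K d χ| ≤ |SX K d χ - (mob r : ℝ) * χ ρ / PExp.ph r * (q ^ d / (2 * d))| +
        |(mob r : ℝ) * χ ρ / PExp.ph r * (q ^ d / (2 * d))| := by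
      have := abs_add_le (SX K d χ - (mob r : ℝ) * χ ρ / PExp.ph r * (q ^ d / (2 * d)))
        ((mob r : ℝ) * χ ρ / PExp.ph r * (q ^ d / (2 * d)))
      rwa [sub_add_cancel] at this
    linarith
  · rw [if_neg hs, zero_add]
    have h := H d χ r (X ^ d) hd0 hM hrd (monic_X_pow d) (natDegree_X_pow d)
      (fun h => absurd h hs)
    have hm : mob r = 0 := by
      unfold mob
      rw [if_neg hs]
    rw [hm] at h
    simpa using h

theorem main : S_chr → S_low → S_cnt → S_dorth → S_dfin := by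
  intro hchr hlow hcnt hor K _ _ _ ε hε
  obtain ⟨c₁, hc₁, d₁, H1⟩ := hor K
  obtain ⟨c₂, hc₂, d₂, H2⟩ := one_char K
  set q : ℝ := (Fintype.card K : ℝ) with hq
  have hq2 : (2 : ℝ) ≤ q := by
    have : 1 < Fintype.card K := Fintype.one_lt_card
    rw [hq]
    exact_mod_cast this
  have hq0 : 0 < q := by linarith
  have hq1 : 1 < q := by linarith
  set C : ℝ := 2 ^ (Fintype.card K) with hC
  have hC0 : 0 < C := by rw [hC]; positivity
  -- the geometric series
  set y : ℝ := q ^ (-(1 / 8 : ℝ)) with hy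
  have hy0 : 0 < y := Real.rpow_pos_of_pos hq0 _
  have hy1 : y < 1 := Real.rpow_lt_one_of_one_lt_of_neg hq1 (by norm_num)
  set S : ℝ := (1 - y)⁻¹ with hS
  have hS0 : 0 < S := by rw [hS]; exact inv_pos.2 (by linarith)
  have hgeo : ∀ n : ℕ, ∑ i ∈ Finset.range n, y ^ i ≤ S := fun n => by
    rw [hS, ← tsum_geometric_of_lt_one hy0.le hy1]
    exact (summable_geometric_of_lt_one hy0.le hy1).sum_le_tsum _ (fun i _ => by positivity)
  -- the choice of `δ`
  have hm : ∃ m : ℕ, C * (q * S) * y ^ m ≤ ε / 2 := by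
    obtain ⟨m, hm⟩ := exists_pow_lt_of_lt_one (show 0 < ε / 2 / (C * (q * S)) by positivity) hy1
    refine ⟨m, ?_⟩
    rw [lt_div_iff₀ (by positivity)] at hm
    linarith
  obtain ⟨m, hm⟩ := hm
  set c : ℝ := min c₁ c₂ with hc
  have hc0 : 0 < c := lt_min hc₁ hc₂
  have hcc1 : c ≤ c₁ := min_le_left _ _
  have hcc2 : c ≤ c₂ := min_le_right _ _
  set δ : ℝ := min (1 / 32) (min (c / 2) (1 / (2 * (m + 1)))) with hδ
  have hδ0 : 0 < δ := by
    refine lt_min (by norm_num) (lt_min (by positivity) (by positivity))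
  have hδ1 : δ ≤ 1 / 32 := min_le_left _ _
  have hδ2 : δ ≤ c / 2 := (min_le_right _ _).trans (min_le_left _ _)
  have hδ3 : δ ≤ 1 / (2 * (m + 1)) := (min_le_right _ _).trans (min_le_right _ _)
  -- `q ^ (c d / 2)` is large
  have hbig : ∃ d₃ : ℕ, ∀ d : ℕ, d₃ ≤ d → 8 / ε * (d : ℝ) ≤ q ^ (c / 2 * d) := by
    obtain ⟨d₃, h⟩ := PFour.ev_lin q (c / 4) hq1 (by positivity)
    obtain ⟨n, hn⟩ := pow_unbounded_of_one_lt (4 / ε) (Real.one_lt_rpow hq1
      (show 0 < c / 4 by positivity))
    refine ⟨max d₃ n, fun d hd => ?_⟩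
    have h1 := h d ((le_max_left _ _).trans hd)
    have h2 : 4 / ε ≤ q ^ (c / 4 * d) := by
      refine hn.le.trans ?_
      calc (q ^ (c / 4)) ^ n ≤ (q ^ (c / 4)) ^ d :=
            pow_le_pow_right₀ (Real.one_lt_rpow hq1 (by positivity)).le
              ((le_max_right _ _).trans hd)
        _ = q ^ (c / 4 * d) := by rw [Real.rpow_mul hq0.le, Real.rpow_natCast]
    have h3 : q ^ (c / 2 * (d : ℝ)) = q ^ (c / 4 * (d : ℝ)) * q ^ (c / 4 * (d : ℝ)) := by
      rw [← Real.rpow_add hq0]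
      congr 1
      ring
    rw [h3]
    calc 8 / ε * (d : ℝ) = 4 / ε * (2 * d) := by ring
      _ ≤ q ^ (c / 4 * (d : ℝ)) * q ^ (c / 4 * (d : ℝ)) :=
          mul_le_mul h2 h1 (by positivity) (Real.rpow_nonneg hq0.le _)
  obtain ⟨d₃, H3⟩ := hbig
  obtain ⟨d₄, hd₄⟩ := exists_nat_ge (1 / δ)
  refine ⟨δ, hδ0, max (max d₁ d₂) (max d₃ (max d₄ 1)), fun d I w hd hI hcard => ?_⟩
  have hd1 : d₁ ≤ d := le_trans (le_trans (le_max_left _ _) (le_max_left _ _)) hd
  have hd2 : d₂ ≤ d := le_trans (le_trans (le_max_right _ _) (le_max_left _ _)) hd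
  have hd3 : d₃ ≤ d := le_trans (le_trans (le_max_left _ _) (le_max_right _ _)) hd
  have hd4 : d₄ ≤ d := le_trans (le_trans (le_max_left _ _)
    (le_trans (le_max_right _ _) (le_max_right _ _))) hd
  have hd5 : 1 ≤ d := le_trans (le_trans (le_max_right _ _)
    (le_trans (le_max_right _ _) (le_max_right _ _))) hd
  have hdR : (1 : ℝ) ≤ d := by exact_mod_cast hd5
  have hdδ : 1 ≤ δ * d := by
    have : 1 / δ ≤ d := hd₄.trans (by exact_mod_cast hd4)
    rwa [div_le_iff₀ hδ0, mul_comm] at this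
  have hId : I.card ≤ d := by
    have : I ⊆ Finset.range d := fun i hi => Finset.mem_range.2 (hI i hi)
    simpa using Finset.card_le_card this
  choose χ hχ using fun b : I → K => hchr K I b
  have hA := H1 d I w χ hd1 hI hχ
  choose r hr1 hr2 hr3 using fun b : I → K => H2 d (χ b) hd2
  set F := Finset.univ.filter (fun b : I → K => ∃ i : I, (i : ℕ) ≠ 0 ∧ b i ≠ 0) with hF
  set G := F.filter (fun b => Squarefree (r b)) with hG
  set Q : ℝ := q ^ d / (2 * d) with hQ
  have hQ0 : 0 < Q := by rw [hQ]; positivity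
  -- the sum over the characters
  have h1 : ∑ b ∈ F, |SX K d (χ b)| ≤
      C * Q * (∑ b ∈ G, q ^ (-(((r b).natDegree : ℝ) / 2))) +
        q ^ I.card * q ^ ((1 - c₂) * d) := by
    calc ∑ b ∈ F, |SX K d (χ b)| ≤ ∑ b ∈ F, ((if Squarefree (r b) then C *
          q ^ (-(((r b).natDegree : ℝ) / 2)) * Q else 0) + q ^ ((1 - c₂) * d)) :=
          Finset.sum_le_sum fun b _ => hr3 b
      _ = C * Q * (∑ b ∈ G, q ^ (-(((r b).natDegree : ℝ) / 2))) +
          F.card * q ^ ((1 - c₂) * d) := by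
          have hGs : ∑ b ∈ G, q ^ (-(((r b).natDegree : ℝ) / 2)) =
              ∑ b ∈ F, if Squarefree (r b) then q ^ (-(((r b).natDegree : ℝ) / 2)) else 0 :=
            Finset.sum_filter (s := F) (p := fun b => Squarefree (r b))
              (f := fun b => q ^ (-(((r b).natDegree : ℝ) / 2)))
          rw [Finset.sum_add_distrib, Finset.sum_const, nsmul_eq_mul, hGs,
            Finset.mul_sum]
          congr 1
          refine Finset.sum_congr rfl fun b _ => ?_
          split_ifs <;> ring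
      _ ≤ _ := by
          have h2 : (F.card : ℝ) ≤ q ^ I.card := by
            have h3 : F.card ≤ Fintype.card (I → K) := Finset.card_le_univ _
            rw [Fintype.card_fun, Fintype.card_coe] at h3
            rw [hq]
            exact_mod_cast h3
          have := mul_le_mul_of_nonneg_right h2 (Real.rpow_nonneg hq0.le ((1 - c₂) * (d : ℝ)))
          linarith
  -- the number of the characters with a given degree of the period
  have h2 : ∀ ρ : ℕ, d ≤ (I.card + 1) * ρ →
      ((G.filter (fun b => (r b).natDegree = ρ)).card : ℝ) ≤ q * q ^ ((ρ : ℝ) / 4) := by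
    intro ρ hρ
    have hρ0 : 1 ≤ ρ := by
      rcases Nat.eq_zero_or_pos ρ with h | h
      · rw [h, mul_zero] at hρ; omega
      · exact h
    have hρR : (1 : ℝ) ≤ ρ := by exact_mod_cast hρ0
    by_cases h8 : 8 * ρ ≤ d
    · set B : ℕ := (d - 1) / (2 * ρ) with hB
      have hBm : 2 * ρ * B ≤ d - 1 := Nat.mul_div_le _ _
      have hBM : d - 1 < 2 * ρ * (B + 1) := by
        rw [hB]
        exact Nat.lt_mul_div_succ _ (by omega)
      have hB1 : 1 ≤ B := by
        rw [hB]
        exact (Nat.one_le_div_iff (by omega)).2 (by omega)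
      have hB4 : d ≤ 4 * ρ * B := by
        have e1 : 2 * ρ * (B + 1) = 2 * (ρ * B) + 2 * ρ := by ring
        have e2 : 4 * ρ * B = 4 * (ρ * B) := by ring
        rw [e1] at hBM
        rw [e2]
        omega
      have h3 := hcnt K d ρ B I hI hB1 (by omega)
      have h4 : (G.filter (fun b => (r b).natDegree = ρ)).card ≤
          Fintype.card K ^ (1 + I.card / B) := by
        refine le_trans (Finset.card_le_card ?_) h3
        intro b hb
        rw [Finset.mem_filter, hG, Finset.mem_filter] at hb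
        rw [Finset.mem_filter]
        exact ⟨Finset.mem_univ _, χ b, hχ b, r b, hr1 b, hb.1.2, hb.2, hr2 b⟩
      have h5 : (I.card / B : ℕ) ≤ (ρ : ℝ) / 4 := by
        have h6 : (I.card : ℝ) ≤ ρ * B / 8 := by
          have h7 : (d : ℝ) ≤ 4 * ρ * B := by exact_mod_cast hB4
          nlinarith
        have hBR : (0 : ℝ) < B := by exact_mod_cast hB1
        have h7 : ((I.card / B : ℕ) : ℝ) ≤ (I.card : ℝ) / B := Nat.cast_div_le
        have h9 : (I.card : ℝ) / B ≤ ρ / 8 := by
          rw [div_le_iff₀ hBR]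
          linarith
        linarith
      have h6 : ((G.filter (fun b => (r b).natDegree = ρ)).card : ℝ) ≤
          q ^ (1 + I.card / B) := by
        rw [hq]
        exact_mod_cast h4
      refine h6.trans ?_
      rw [pow_add, pow_one]
      refine mul_le_mul_of_nonneg_left ?_ hq0.le
      rw [← Real.rpow_natCast q (I.card / B)]
      exact Real.rpow_le_rpow_of_exponent_le hq1.le h5
    · have h3 : (G.filter (fun b => (r b).natDegree = ρ)).card ≤ Fintype.card (I → K) :=
        Finset.card_le_univ _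
      rw [Fintype.card_fun, Fintype.card_coe] at h3
      have h4 : ((G.filter (fun b => (r b).natDegree = ρ)).card : ℝ) ≤ q ^ I.card := by
        rw [hq]
        exact_mod_cast h3
      refine h4.trans ?_
      have h5 : q ^ I.card ≤ q ^ ((ρ : ℝ) / 4) := by
        rw [← Real.rpow_natCast q I.card]
        refine Real.rpow_le_rpow_of_exponent_le hq1.le ?_
        have h6 : (d : ℝ) ≤ 8 * ρ := by
          push Not at h8
          exact_mod_cast h8.le
        nlinarith
      have h6 : 0 < q ^ ((ρ : ℝ) / 4) := Real.rpow_pos_of_pos hq0 _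
      nlinarith
  -- the sum over the periods
  have h3 : ∑ b ∈ G, q ^ (-(((r b).natDegree : ℝ) / 2)) ≤ q * S * y ^ m := by
    have hlow' : ∀ b ∈ G, d ≤ (I.card + 1) * (r b).natDegree := by
      intro b hb
      rw [hG, Finset.mem_filter, hF, Finset.mem_filter] at hb
      exact hlow K d I b (χ b) (r b) hI (hχ b) (hr1 b) hb.2 (hr2 b) hb.1.2
    set R := (G.image (fun b => (r b).natDegree)) with hR
    have h4 : ∑ b ∈ G, q ^ (-(((r b).natDegree : ℝ) / 2)) =
        ∑ ρ ∈ R, ∑ b ∈ G.filter (fun b => (r b).natDegree = ρ),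
          q ^ (-(((r b).natDegree : ℝ) / 2)) :=
      (Finset.sum_fiberwise_of_maps_to (fun b hb => Finset.mem_image_of_mem _ hb) _).symm
    rw [h4]
    have h5 : ∀ ρ ∈ R, ∑ b ∈ G.filter (fun b => (r b).natDegree = ρ),
        q ^ (-(((r b).natDegree : ℝ) / 2)) ≤ q * y ^ m * y ^ ρ := by
      intro ρ hρ
      rw [hR, Finset.mem_image] at hρ
      obtain ⟨b₀, hb₀, hb₀'⟩ := hρ
      have hρl : d ≤ (I.card + 1) * ρ := by
        rw [← hb₀']
        exact hlow' b₀ hb₀
      have h6 : ∑ b ∈ G.filter (fun b => (r b).natDegree = ρ),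
          q ^ (-(((r b).natDegree : ℝ) / 2)) =
          ((G.filter (fun b => (r b).natDegree = ρ)).card : ℝ) * q ^ (-((ρ : ℝ) / 2)) := by
        rw [Finset.sum_congr rfl (g := fun _ => q ^ (-((ρ : ℝ) / 2))), Finset.sum_const,
          nsmul_eq_mul]
        intro b hb
        rw [(Finset.mem_filter.1 hb).2]
      rw [h6]
      have h7 := mul_le_mul_of_nonneg_right (h2 ρ hρl)
        (Real.rpow_nonneg hq0.le (-((ρ : ℝ) / 2)))
      refine h7.trans ?_
      rw [mul_assoc, mul_assoc, ← Real.rpow_add hq0, ← pow_add]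
      refine mul_le_mul_of_nonneg_left ?_ hq0.le
      rw [hy, ← Real.rpow_natCast (q ^ (-(1 / 8 : ℝ))) (m + ρ), ← Real.rpow_mul hq0.le]
      refine Real.rpow_le_rpow_of_exponent_le hq1.le ?_
      -- `m ≤ ρ`
      have h8 : (m : ℝ) ≤ ρ := by
        have h9 : (d : ℝ) ≤ (I.card + 1) * ρ := by exact_mod_cast hρl
        have h10 : (I.card : ℝ) + 1 ≤ 2 * (δ * d) := by linarith
        have h11 : (d : ℝ) ≤ 2 * (δ * d) * ρ :=
          h9.trans (mul_le_mul_of_nonneg_right h10 (Nat.cast_nonneg ρ))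
        have h12 : (1 : ℝ) ≤ 2 * δ * ρ := by
          by_contra hcon
          push Not at hcon
          nlinarith
        have h13 : 2 * δ * (m + 1) ≤ 1 := by
          have h14 : (0 : ℝ) < 2 * (m + 1) := by positivity
          rw [le_div_iff₀ h14] at hδ3
          linarith
        have h15 : (m : ℝ) + 1 ≤ ρ := by
          by_contra hcon
          push Not at hcon
          nlinarith
        linarith
      push_cast
      linarith
    refine (Finset.sum_le_sum h5).trans ?_
    rw [← Finset.mul_sum]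
    have h6 : ∑ ρ ∈ R, y ^ ρ ≤ S := by
      rw [hS, ← tsum_geometric_of_lt_one hy0.le hy1]
      exact (summable_geometric_of_lt_one hy0.le hy1).sum_le_tsum _ (fun i _ => by positivity)
    calc q * y ^ m * ∑ ρ ∈ R, y ^ ρ ≤ q * y ^ m * S :=
          mul_le_mul_of_nonneg_left h6 (by positivity)
      _ = q * S * y ^ m := by ring
  -- the end
  have h4 : C * Q * (∑ b ∈ G, q ^ (-(((r b).natDegree : ℝ) / 2))) ≤ ε / 2 * Q := by
    calc C * Q * (∑ b ∈ G, q ^ (-(((r b).natDegree : ℝ) / 2))) ≤ C * Q * (q * S * y ^ m) :=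
          mul_le_mul_of_nonneg_left h3 (by positivity)
      _ = C * (q * S) * y ^ m * Q := by ring
      _ ≤ ε / 2 * Q := mul_le_mul_of_nonneg_right hm hQ0.le
  have h5 : |q ^ I.card * ((Wd K d I w).card : ℝ) - sfac K I w * Q| ≤
      ε / 2 * Q + q ^ I.card * q ^ ((1 - c₂) * d) + q ^ ((1 - c₁) * d) := by
    refine hA.trans ?_
    linarith
  have hqI : 0 < q ^ I.card := pow_pos hq0 _
  have hqI1 : 1 ≤ q ^ I.card := one_le_pow₀ hq1.le
  have h6 : q ^ d = q ^ I.card * q ^ (d - I.card) := by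
    rw [← pow_add]
    congr 1
    omega
  set Q' : ℝ := q ^ (d - I.card) / (2 * d) with hQ'
  have hQQ : Q = q ^ I.card * Q' := by
    rw [hQ, hQ', h6]
    ring
  have hQ'0 : 0 < Q' := by rw [hQ']; positivity
  have h7 : |q ^ I.card * ((Wd K d I w).card : ℝ) - sfac K I w * Q| =
      q ^ I.card * |((Wd K d I w).card : ℝ) - sfac K I w * Q'| := by
    rw [hQQ, ← abs_of_pos hqI, ← abs_mul, abs_of_pos hqI]
    congr 1
    ring
  rw [h7, hQQ] at h5
  -- the error terms
  have h8 : q ^ ((1 - c₂) * (d : ℝ)) ≤ q ^ ((1 - c) * (d : ℝ)) :=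
    Real.rpow_le_rpow_of_exponent_le hq1.le (by nlinarith)
  have h9 : q ^ ((1 - c₁) * (d : ℝ)) ≤ q ^ ((1 - c) * (d : ℝ)) :=
    Real.rpow_le_rpow_of_exponent_le hq1.le (by nlinarith)
  have h10 : q ^ ((1 - c) * (d : ℝ)) ≤ ε / 4 * Q' := by
    have h11 := H3 d hd3
    have h12 : q ^ ((1 - c / 2) * (d : ℝ)) ≤ q ^ (d - I.card) := by
      rw [← Real.rpow_natCast q (d - I.card)]
      refine Real.rpow_le_rpow_of_exponent_le hq1.le ?_
      rw [Nat.cast_sub hId]
      nlinarith
    have h13 : q ^ ((1 - c / 2) * (d : ℝ)) = q ^ ((1 - c) * (d : ℝ)) * q ^ (c / 2 * d) := by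
      rw [← Real.rpow_add hq0]
      congr 1
      ring
    rw [h13] at h12
    have h14 : 0 < q ^ ((1 - c) * (d : ℝ)) := Real.rpow_pos_of_pos hq0 _
    have h15 : q ^ ((1 - c) * (d : ℝ)) * (8 / ε * d) ≤ q ^ (d - I.card) :=
      (mul_le_mul_of_nonneg_left h11 h14.le).trans h12
    rw [hQ']
    have h16 : ε / 4 * (q ^ (d - I.card) / (2 * d)) = q ^ (d - I.card) * (ε / (8 * d)) := by
      field_simp
      ring
    rw [h16]
    have h17 : (0 : ℝ) < ε / (8 * d) := by positivity
    calc q ^ ((1 - c) * (d : ℝ)) = q ^ ((1 - c) * (d : ℝ)) * (8 / ε * d) * (ε / (8 * d)) := by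
          field_simp
      _ ≤ q ^ (d - I.card) * (ε / (8 * d)) := mul_le_mul_of_nonneg_right h15 h17.le
  have h11 : q ^ I.card * |((Wd K d I w).card : ℝ) - sfac K I w * Q'| ≤
      q ^ I.card * (ε * Q') := by
    refine h5.trans ?_
    have h12 : 0 < q ^ ((1 - c) * (d : ℝ)) := Real.rpow_pos_of_pos hq0 _
    have h13 : q ^ I.card * q ^ ((1 - c₂) * (d : ℝ)) ≤ q ^ I.card * (ε / 4 * Q') :=
      mul_le_mul_of_nonneg_left (h8.trans h10) hqI.le
    have h14 : q ^ ((1 - c₁) * (d : ℝ)) ≤ q ^ I.card * (ε / 4 * Q') := by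
      refine (h9.trans h10).trans ?_
      have : 0 < ε / 4 * Q' := by positivity
      nlinarith
    calc ε / 2 * (q ^ I.card * Q') + q ^ I.card * q ^ ((1 - c₂) * (d : ℝ)) +
        q ^ ((1 - c₁) * (d : ℝ)) ≤ ε / 2 * (q ^ I.card * Q') + q ^ I.card * (ε / 4 * Q') +
          q ^ I.card * (ε / 4 * Q') := by linarith
      _ = q ^ I.card * (ε * Q') := by ring
  exact le_of_mul_le_mul_left h11 hqI

end Pool.Agent.H290.FX.PDfin
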