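import Pool.Agent.H290.FX.StmD

set_option autoImplicit false

/-!
# Task DLOW: pigeonhole blocks (by helper261)
-/

namespace Pool.Agent.H290.FX.PDlow

open Polynomial
open scoped Classical
open Pool.Agent.H290.FX Pool.Agent.H290.FX.D
open Pool.Agent.H985.KP (sg)

theorem sg_z {K : Type} [Field K] : sg (0 : K) = 1 := by
  unfold sg
  rw [if_pos ⟨0, by ring⟩]

theorem exists_sg (K : Type) [Field K] [Finite K] [CharP K 2] : ∃ x : K, sg x ≠ 1 := by
  by_contra hcon
  push Not at hcon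
  have hs : Function.Surjective fun y : K => y ^ 2 + y := by
    intro x
    have h := hcon x
    unfold sg at h
    by_contra hx
    have hx' : ¬ ∃ y : K, y ^ 2 + y = x := hx
    rw [if_neg hx'] at h
    norm_num at h
  have hi := Finite.injective_iff_surjective.2 hs
  have h01 : (0 : K) = 1 := by
    apply hi
    have h2 : (1 : K) + 1 = 0 := CharTwo.add_self_eq_zero 1
    simp only
    rw [one_pow, h2]
    ring
  exact zero_ne_one h01

theorem cf_out {K : Type} [Field K] {I : Finset ℕ} (b : I → K) (i : ℕ) (hi : i ∉ I) (c : K) :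
    cf b (C c * X ^ i) = 1 := by
  unfold cf
  refine Finset.prod_eq_one fun k _ => ?_
  have hk : (k : ℕ) ≠ i := fun h => hi (h ▸ k.2)
  rw [coeff_C_mul_X_pow, if_neg hk, mul_zero, sg_z]

theorem cf_in {K : Type} [Field K] {I : Finset ℕ} (b : I → K) (i : I) (c : K) :
    cf b (C c * X ^ (i : ℕ)) = sg (b i * c) := by
  unfold cf
  rw [Finset.prod_eq_single i]
  · rw [coeff_C_mul_X_pow, if_pos rfl]
  · intro k _ hk
    have hk' : (k : ℕ) ≠ i := fun h => hk (Subtype.ext h)
    rw [coeff_C_mul_X_pow, if_neg hk', mul_zero, sg_z]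
  · intro h
    exact absurd (Finset.mem_univ _) h

theorem block (I : Finset ℕ) (ρ : ℕ) : ∃ k ≤ I.card, ∀ i ∈ I, ¬ (1 + k * ρ ≤ i ∧ i < 1 + k * ρ + ρ) := by
  by_contra hcon
  push Not at hcon
  have hex : ∀ k ∈ Finset.range (I.card + 1), ∃ i ∈ I, 1 + k * ρ ≤ i ∧ i < 1 + k * ρ + ρ := by
    intro k hk
    exact hcon k (by have := Finset.mem_range.1 hk; omega)
  choose! f hf using hex
  obtain ⟨x, hx, y, hy, hxy, he⟩ := Finset.exists_ne_map_eq_of_card_lt_of_maps_to
    (s := Finset.range (I.card + 1)) (t := I) (f := f) (by rw [Finset.card_range]; omega)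
    (fun k hk => (hf k hk).1)
  obtain ⟨-, h1, h2⟩ := hf x hx
  obtain ⟨-, h3, h4⟩ := hf y hy
  rw [he] at h1 h2
  rcases lt_or_gt_of_ne hxy with h | h
  · have h5 : (x + 1) * ρ ≤ y * ρ := Nat.mul_le_mul_right _ h
    rw [add_mul, one_mul] at h5
    omega
  · have h5 : (y + 1) * ρ ≤ x * ρ := Nat.mul_le_mul_right _ h
    rw [add_mul, one_mul] at h5
    omega

theorem main : Pool.Agent.H290.FX.D.S_rec → Pool.Agent.H290.FX.D.S_low := by
  intro hrec K _ _ _ d I b χ r hI hC hm hsq hper hex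
  by_contra hcon
  rw [not_le] at hcon
  obtain ⟨k, hk, hblk⟩ := block I r.natDegree
  have hX : ¬ X ^ 2 ∣ r := by
    intro h
    rw [pow_two] at h
    exact not_isUnit_X (hsq X h)
  have hle : 1 + k * r.natDegree + r.natDegree ≤ d := by
    have h5 : (k + 1) * r.natDegree ≤ (I.card + 1) * r.natDegree :=
      Nat.mul_le_mul_right _ (by omega)
    rw [add_mul, one_mul] at h5
    omega
  have htriv := hrec K d χ r (1 + k * r.natDegree) hm hX hper (by omega) hle (by
    intro i h1 h2 c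
    rw [hC]
    apply cf_out
    intro hi
    exact hblk i hi ⟨h1, h2⟩)
  obtain ⟨i, hi0, hbi⟩ := hex
  obtain ⟨x, hx⟩ := exists_sg K
  have h := htriv (i : ℕ) (by omega) (hI _ i.2) ((b i)⁻¹ * x)
  rw [hC, cf_in, ← mul_assoc, mul_inv_cancel₀ hbi, one_mul] at h
  exact hx h

end Pool.Agent.H290.FX.PDlow
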