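import Pool.Agent.H290.FX.StmD

/-!
# Orthogonality for the prescribed coefficients
-/

set_option autoImplicit false

namespace Pool.Agent.H290.FX.PDort

open Polynomial
open scoped Classical
open Pool.Agent.H290.FX
open Pool.Agent.H290.FX.D
open Pool.Agent.H290.FX.PExp (ph real_form)
open Pool.Agent.H985.Chow (mob)
open Pool.Agent.H985.KP (sg)
open Pool.Agent.H985.KP.Loc2 (sg_add sg_zero sg_abs exists_sg_neg)
open Pool.Agent.H694.Typ (Mn)

theorem cf_zero {K : Type} [Field K] [Fintype K] [CharP K 2] {I : Finset ℕ} (b : I → K) :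
    cf b (0 : K[X]) = 1 := by
  unfold cf
  refine Finset.prod_eq_one fun i _ => ?_
  rw [coeff_zero, mul_zero, sg_zero]

theorem cf_add {K : Type} [Field K] [Fintype K] [CharP K 2] {I : Finset ℕ} (b : I → K)
    (x y : K[X]) : cf b (x + y) = cf b x * cf b y := by
  unfold cf
  rw [← Finset.prod_mul_distrib]
  refine Finset.prod_congr rfl fun i _ => ?_
  rw [coeff_add, mul_add, sg_add]

theorem chr : S_chr := fun _ _ _ _ _ b =>
  ⟨{ toFun := cf b
     map_zero_eq_one' := cf_zero b
     map_add_eq_mul' := cf_add b }, fun _ => rfl⟩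

/-- Orthogonality of `sg`. -/
theorem sum_sg {K : Type} [Field K] [Fintype K] [CharP K 2] (u : K) :
    ∑ t : K, sg (t * u) = if u = 0 then (Fintype.card K : ℝ) else 0 := by
  split_ifs with hu
  · subst hu
    simp only [mul_zero, sg_zero]
    rw [Finset.sum_const, Finset.card_univ, nsmul_eq_mul, mul_one]
  · obtain ⟨x, hx⟩ := exists_sg_neg (F := K)
    have h1 : ∑ t : K, sg (t * u) = ∑ t : K, sg ((t + x * u⁻¹) * u) :=
      (Equiv.sum_comp (Equiv.addRight (x * u⁻¹)) (fun t => sg (t * u))).symm
    have h2 : ∀ t : K, sg ((t + x * u⁻¹) * u) = - sg (t * u) := by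
      intro t
      rw [add_mul, mul_assoc x, inv_mul_cancel₀ hu, mul_one, sg_add, hx]
      ring
    simp only [h2] at h1
    rw [Finset.sum_neg_distrib] at h1
    linarith

/-- The indicator function. -/
theorem ind {K : Type} [Field K] [Fintype K] [CharP K 2] (I : Finset ℕ) (w : ℕ → K) (a : K[X]) :
    ∑ b : I → K, (∏ i : I, sg (b i * w i)) * cf b a =
      if (∀ i ∈ I, a.coeff i = w i) then (Fintype.card K : ℝ) ^ I.card else 0 := by
  have h1 : ∀ b : I → K, (∏ i : I, sg (b i * w i)) * cf b a =
      ∏ i : I, sg (b i * (w i + a.coeff i)) := by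
    intro b
    unfold cf
    rw [← Finset.prod_mul_distrib]
    refine Finset.prod_congr rfl fun i _ => ?_
    rw [mul_add, sg_add]
  rw [Finset.sum_congr rfl fun b _ => h1 b]
  have h2 : ∑ b : I → K, ∏ i : I, sg (b i * (w i + a.coeff i)) =
      ∏ i : I, ∑ t : K, sg (t * (w i + a.coeff i)) := by
    rw [Finset.prod_univ_sum, Fintype.piFinset_univ]
  rw [h2]
  simp only [sum_sg]
  have h3 : ∀ i : ℕ, w i + a.coeff i = 0 ↔ a.coeff i = w i := by
    intro i
    rw [← CharTwo.sub_eq_add, sub_eq_zero]
    exact eq_comm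
  split_ifs with h
  · rw [Finset.prod_congr rfl fun (i : I) _ => if_pos ((h3 i).2 (h i i.2))]
    rw [Finset.prod_const, Finset.card_univ, Fintype.card_coe]
  · push Not at h
    obtain ⟨i, hi, h4⟩ := h
    refine Finset.prod_eq_zero (Finset.mem_univ (⟨i, hi⟩ : I)) ?_
    rw [if_neg]
    intro h5
    exact h4 ((h3 i).1 h5)

/-- Orthogonality. -/
theorem orth {K : Type} [Field K] [Fintype K] [CharP K 2] (d : ℕ) (I : Finset ℕ) (w : ℕ → K)
    (χ : (I → K) → AddChar K[X] ℝ) (hχ : ∀ b : I → K, IsC b (χ b)) :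
    (Fintype.card K : ℝ) ^ I.card * ((Wd K d I w).card : ℝ) =
      ∑ b : I → K, (∏ i : I, sg (b i * w i)) * SX K d (χ b) := by
  unfold SX
  simp only [Finset.mul_sum]
  rw [Finset.sum_comm]
  have h1 : ∀ a : K[X], ∑ b : I → K, (∏ i : I, sg (b i * w i)) * χ b a =
      if (∀ i ∈ I, a.coeff i = w i) then (Fintype.card K : ℝ) ^ I.card else 0 := by
    intro a
    rw [← ind I w a]
    refine Finset.sum_congr rfl fun b _ => ?_
    rw [hχ b a]
  simp only [h1]
  rw [← Finset.sum_filter, Finset.filter_filter, Finset.sum_const, nsmul_eq_mul, mul_comm]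
  rfl

theorem w_abs {K : Type} [Field K] {I : Finset ℕ} (b : I → K) (w : ℕ → K) :
    |∏ i : I, sg (b i * w i)| = 1 := by
  rw [Finset.abs_prod]
  exact Finset.prod_eq_one fun i _ => sg_abs _

/-- `χ` has the minimal period `1`. -/
theorem mper_one {K : Type} [Field K] [Fintype K] [CharP K 2] {d : ℕ} {χ : AddChar K[X] ℝ}
    (h : ∀ a : K[X], χ a = 1) : MPer d χ 1 := by
  refine ⟨monic_one, fun s _ => h _, fun r' _ h2 => ?_⟩
  rw [natDegree_one] at h2
  omega

/-- `χ` has the minimal period `X`. -/
theorem mper_X {K : Type} [Field K] [Fintype K] [CharP K 2] {d : ℕ} {χ : AddChar K[X] ℝ} {t : K}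
    (ht : t ≠ 0) (hd : 1 ≤ d) (h : ∀ a : K[X], χ a = sg (t * a.coeff 0)) : MPer d χ X := by
  refine ⟨monic_X, fun s _ => ?_, fun r' h1 h2 h3 => ?_⟩
  · rw [h, mul_coeff_zero, coeff_X_zero, zero_mul, mul_zero, sg_zero]
  · rw [natDegree_X] at h2
    have h4 : r' = 1 := by
      refine h1.natDegree_eq_zero.1 (by omega)
    subst h4
    obtain ⟨x, hx⟩ := exists_sg_neg (F := K)
    have h5 : χ (1 * C (t⁻¹ * x)) = 1 := by
      refine h3 _ ?_
      rw [one_mul]
      refine lt_of_le_of_lt degree_C_le ?_
      exact_mod_cast hd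
    rw [one_mul, h, coeff_C_zero, ← mul_assoc, mul_inv_cancel₀ ht, one_mul, hx] at h5
    norm_num at h5

theorem mob_one {K : Type} [Field K] : mob (1 : K[X]) = 1 := by
  unfold mob
  rw [if_pos squarefree_one, UniqueFactorizationMonoid.factors_one, Multiset.card_zero, pow_zero]

theorem mob_X {K : Type} [Field K] : mob (X : K[X]) = -1 := by
  have hP : Irreducible (X : K[X]) := irreducible_X
  unfold mob
  rw [if_pos hP.squarefree]
  have h1 : Multiset.Rel Associated (UniqueFactorizationMonoid.factors (X : K[X]))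
      ({X} : Multiset K[X]) := by
    refine UniqueFactorizationMonoid.factors_unique
      (fun x hx => UniqueFactorizationMonoid.irreducible_of_factor x hx) ?_ ?_
    · intro x hx
      rw [Multiset.mem_singleton] at hx
      rw [hx]; exact hP
    · rw [Multiset.prod_singleton]
      exact UniqueFactorizationMonoid.factors_prod hP.ne_zero
  rw [Multiset.card_eq_card_of_rel h1, Multiset.card_singleton, pow_one]

theorem ph_one {K : Type} [Field K] [Fintype K] : ph (1 : K[X]) = 1 := by
  unfold ph
  rw [UniqueFactorizationMonoid.normalizedFactors_one, Multiset.toFinset_zero, Finset.prod_empty]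

theorem ph_X {K : Type} [Field K] [Fintype K] : ph (X : K[X]) = (Fintype.card K : ℝ) - 1 := by
  unfold ph
  rw [UniqueFactorizationMonoid.normalizedFactors_irreducible irreducible_X,
    monic_X.normalize_eq_self, Multiset.toFinset_singleton, Finset.prod_singleton, natDegree_X,
    pow_one]

/-- The two special sums. -/
theorem special (K : Type) [Field K] [Fintype K] [CharP K 2] : ∃ c : ℝ, 0 < c ∧ ∃ d₀ : ℕ,
    ∀ (d : ℕ) (χ : AddChar K[X] ℝ), d₀ ≤ d →
      ((∀ a : K[X], χ a = 1) → |SX K d χ - (Fintype.card K : ℝ) ^ d / (2 * d)| ≤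
        (Fintype.card K : ℝ) ^ ((1 - c) * d)) ∧
      (∀ t : K, t ≠ 0 → (∀ a : K[X], χ a = sg (t * a.coeff 0)) →
        |SX K d χ + 1 / ((Fintype.card K : ℝ) - 1) * ((Fintype.card K : ℝ) ^ d / (2 * d))| ≤
          (Fintype.card K : ℝ) ^ ((1 - c) * d)) := by
  obtain ⟨c, hc, d₀, H⟩ := real_form K
  refine ⟨c, hc, max d₀ 1, fun d χ hd => ⟨fun h => ?_, fun t ht h => ?_⟩⟩
  · have hd0 : d₀ ≤ d := le_trans (le_max_left _ _) hd
    have h1 := H d χ 1 (X ^ d) hd0 (mper_one h) (by rw [natDegree_one]; omega) (monic_X_pow d)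
      (natDegree_X_pow d) (fun _ => one_dvd _)
    rw [mob_one, ph_one, h] at h1
    have h2 : (((1 : ℤ) : ℝ)) * 1 / 1 * ((Fintype.card K : ℝ) ^ d / (2 * d)) =
      (Fintype.card K : ℝ) ^ d / (2 * d) := by
      push_cast
      ring
    rw [h2] at h1
    exact h1
  · have hd0 : d₀ ≤ d := le_trans (le_max_left _ _) hd
    have hd1 : 1 ≤ d := le_trans (le_max_right _ _) hd
    have h1 := H d χ X (X ^ d) hd0 (mper_X ht hd1 h) (by rw [natDegree_X]; omega) (monic_X_pow d)
      (natDegree_X_pow d) (fun _ => by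
        refine dvd_add ?_ (dvd_refl _)
        rw [← pow_mul]
        exact dvd_pow_self _ (by omega))
    have h3 : χ (X ^ d) = 1 := by
      rw [h, coeff_X_pow, if_neg (by omega), mul_zero, sg_zero]
    rw [mob_X, ph_X, h3] at h1
    have h2 : SX K d χ - (((-1 : ℤ) : ℝ)) * 1 / ((Fintype.card K : ℝ) - 1) *
        ((Fintype.card K : ℝ) ^ d / (2 * d)) =
      SX K d χ + 1 / ((Fintype.card K : ℝ) - 1) * ((Fintype.card K : ℝ) ^ d / (2 * d)) := by
      push_cast
      ring
    rw [h2] at h1
    exact h1

theorem main : S_dorth := by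
  intro K _ _ _
  obtain ⟨c, hc, d₁, H⟩ := special K
  refine ⟨c / 2, half_pos hc, max d₁ (max 1 ⌈2 / c⌉₊), fun d I w χ hd hI hχ => ?_⟩
  have hd1 : d₁ ≤ d := le_trans (le_max_left _ _) hd
  have hd2 : 1 ≤ d := le_trans (le_trans (le_max_left _ _) (le_max_right _ _)) hd
  have hd3 : 2 / c ≤ (d : ℝ) :=
    le_trans (Nat.le_ceil _)
      (by exact_mod_cast le_trans (le_trans (le_max_right _ _) (le_max_right _ _)) hd)
  rw [orth d I w χ hχ]
  set q : ℝ := (Fintype.card K : ℝ) with hq
  have hq2 : (2 : ℝ) ≤ q := by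
    have : 1 < Fintype.card K := Fintype.one_lt_card
    rw [hq]
    exact_mod_cast this
  have hq0 : 0 < q := by linarith
  have hq1 : q - 1 ≠ 0 := by linarith
  set M : ℝ := q ^ d / (2 * d) with hM
  set E : ℝ := q ^ ((1 - c) * d) with hE
  have hE0 : 0 < E := Real.rpow_pos_of_pos hq0 _
  have hqE : q * E ≤ q ^ ((1 - c / 2) * d) := by
    have h1 : q * E = q ^ (1 + (1 - c) * d) := by
      rw [hE, Real.rpow_add hq0, Real.rpow_one]
    rw [h1]
    refine Real.rpow_le_rpow_of_exponent_le (by linarith) ?_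
    have h2 : 2 ≤ c * d := by
      rw [div_le_iff₀ hc] at hd3
      linarith
    nlinarith
  have hE1 : E ≤ q ^ ((1 - c / 2) * d) := by
    refine le_trans ?_ hqE
    nlinarith
  rw [← Finset.sum_filter_add_sum_filter_not Finset.univ
    (fun b : I → K => ∃ i : I, (i : ℕ) ≠ 0 ∧ b i ≠ 0)]
  have hA : |∑ b ∈ Finset.univ.filter (fun b : I → K => ∃ i : I, (i : ℕ) ≠ 0 ∧ b i ≠ 0),
      (∏ i : I, sg (b i * w i)) * SX K d (χ b)| ≤
      ∑ b ∈ Finset.univ.filter (fun b : I → K => ∃ i : I, (i : ℕ) ≠ 0 ∧ b i ≠ 0),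
        |SX K d (χ b)| := by
    refine (Finset.abs_sum_le_sum_abs _ _).trans (Finset.sum_le_sum fun b _ => ?_)
    rw [abs_mul, w_abs, one_mul]
  have hB : |∑ b ∈ Finset.univ.filter (fun b : I → K => ¬ ∃ i : I, (i : ℕ) ≠ 0 ∧ b i ≠ 0),
      (∏ i : I, sg (b i * w i)) * SX K d (χ b) - sfac K I w * M| ≤ q ^ ((1 - c / 2) * d) := by
    by_cases h0 : 0 ∈ I
    · have h1 : ∑ b ∈ Finset.univ.filter (fun b : I → K => ¬ ∃ i : I, (i : ℕ) ≠ 0 ∧ b i ≠ 0),
          (∏ i : I, sg (b i * w i)) * SX K d (χ b) =
          ∑ t : K, sg (t * w 0) * SX K d (χ (fun i => if (i : ℕ) = 0 then t else 0)) := by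
        symm
        refine Finset.sum_nbij' (fun t => fun i => if (i : ℕ) = 0 then t else 0)
          (fun b => b ⟨0, h0⟩) ?_ ?_ ?_ ?_ ?_
        · intro t _
          rw [Finset.mem_filter]
          refine ⟨Finset.mem_univ _, ?_⟩
          rintro ⟨i, hi1, hi2⟩
          exact hi2 (if_neg hi1)
        · intro b _
          exact Finset.mem_univ _
        · intro t _
          exact if_pos rfl
        · intro b hb
          rw [Finset.mem_filter] at hb
          funext i
          by_cases hi : (i : ℕ) = 0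
          · simp only [if_pos hi]
            have h2 : (⟨0, h0⟩ : I) = i := Subtype.ext hi.symm
            rw [h2]
          · simp only [if_neg hi]
            by_contra h2
            exact hb.2 ⟨i, hi, fun h3 => h2 h3.symm⟩
        · intro t _
          have h2 : ∏ i : I, sg ((if (i : ℕ) = 0 then t else 0) * w i) = sg (t * w 0) := by
            rw [Finset.prod_eq_single (⟨0, h0⟩ : I)]
            · simp only [if_true]
            · intro i _ hi
              rw [if_neg fun h3 => hi (Subtype.ext h3), zero_mul, sg_zero]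
            · intro h3
              exact absurd (Finset.mem_univ _) h3
          simp only [h2]
      rw [h1]
      have h2 : ∀ t : K, ∀ a : K[X],
          χ (fun i => if (i : ℕ) = 0 then t else 0) a = sg (t * a.coeff 0) := by
        intro t a
        rw [hχ _ a]
        unfold cf
        simp only
        rw [Finset.prod_eq_single (⟨0, h0⟩ : I)]
        · simp only [if_true]
        · intro i _ hi
          rw [if_neg fun h3 => hi (Subtype.ext h3), zero_mul, sg_zero]
        · intro h3
          exact absurd (Finset.mem_univ _) h3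
      set m : K → ℝ := fun t => (if t = 0 then M * (q / (q - 1)) else 0) - 1 / (q - 1) * M with hm
      have h3 : ∀ t : K, |SX K d (χ (fun i => if (i : ℕ) = 0 then t else 0)) - m t| ≤ E := by
        intro t
        by_cases ht : t = 0
        · have h4 := (H d (χ (fun i => if (i : ℕ) = 0 then t else 0)) hd1).1 (fun a => by
            rw [h2, ht, zero_mul, sg_zero])
          have h5 : m t = M := by
            simp only [hm, if_pos ht]
            field_simp
          rw [h5]
          exact h4
        · have h4 := (H d (χ (fun i => if (i : ℕ) = 0 then t else 0)) hd1).2 t ht (h2 t)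
          have h5 : SX K d (χ (fun i => if (i : ℕ) = 0 then t else 0)) - m t =
              SX K d (χ (fun i => if (i : ℕ) = 0 then t else 0)) + 1 / (q - 1) * M := by
            simp only [hm, if_neg ht]
            ring
          rw [h5]
          exact h4
      have h4 : ∑ t : K, sg (t * w 0) * m t = sfac K I w * M := by
        simp only [hm, mul_sub, Finset.sum_sub_distrib, mul_ite, mul_zero]
        rw [Finset.sum_ite_eq' Finset.univ (0 : K), if_pos (Finset.mem_univ _), zero_mul, sg_zero,
          ← Finset.sum_mul, sum_sg]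
        unfold sfac
        rw [if_pos h0, ← hq]
        by_cases hw : w 0 = 0
        · rw [if_pos hw, if_pos hw]
          field_simp
          ring
        · rw [if_neg hw, if_neg hw]
          field_simp
          ring
      rw [← h4, ← Finset.sum_sub_distrib]
      refine (Finset.abs_sum_le_sum_abs _ _).trans ?_
      refine le_trans (Finset.sum_le_sum (g := fun _ => E) fun t _ => ?_) ?_
      · rw [← mul_sub, abs_mul, sg_abs, one_mul]
        exact h3 t
      · rw [Finset.sum_const, Finset.card_univ, nsmul_eq_mul]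
        exact hqE
    · have h1 : Finset.univ.filter (fun b : I → K => ¬ ∃ i : I, (i : ℕ) ≠ 0 ∧ b i ≠ 0) = {0} := by
        ext b
        rw [Finset.mem_filter, Finset.mem_singleton]
        constructor
        · rintro ⟨_, h⟩
          funext i
          by_contra h2
          exact h ⟨i, fun h3 => h0 (h3 ▸ i.2), h2⟩
        · intro h
          refine ⟨Finset.mem_univ _, ?_⟩
          rintro ⟨i, _, hi⟩
          rw [h] at hi
          exact hi rfl
      rw [h1, Finset.sum_singleton]
      have h2 : ∏ i : I, sg ((0 : I → K) i * w i) = 1 := by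
        refine Finset.prod_eq_one fun i _ => ?_
        rw [Pi.zero_apply, zero_mul, sg_zero]
      have h3 : ∀ a : K[X], χ 0 a = 1 := by
        intro a
        rw [hχ 0 a]
        unfold cf
        refine Finset.prod_eq_one fun i _ => ?_
        rw [Pi.zero_apply, zero_mul, sg_zero]
      have h4 := (H d (χ 0) hd1).1 h3
      unfold sfac
      rw [h2, one_mul, if_neg h0, one_mul]
      exact h4.trans hE1
  calc |_ + _ - sfac K I w * M| ≤ |_| + |_ - sfac K I w * M| := by
        rw [add_sub_assoc]
        exact abs_add_le _ _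
    _ ≤ _ := add_le_add hA hB

end Pool.Agent.H290.FX.PDort
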