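import Pool.Agent.H290.FX.StmD

/-! `S_rec`: a character with a period which is trivial on a window is trivial on all the positions `≥ 1`. -/

set_option autoImplicit false

namespace Pool.Agent.H290.FX.PDrec

open Polynomial
open Pool.Agent.H290.FX

theorem chi_of_coeff {K : Type} [Field K] (χ : AddChar K[X] ℝ) (p : K[X])
    (h : ∀ k, p.coeff k ≠ 0 → χ (C (p.coeff k) * X ^ k) = 1) : χ p = 1 := by
  rw [Polynomial.as_sum_support_C_mul_X_pow p]
  apply Finset.sum_induction _ (fun a => χ a = 1)
  · intro a b ha hb
    rw [AddChar.map_add_eq_mul, ha, hb, one_mul]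
  · exact AddChar.map_zero_eq_one χ
  · intro k hk
    exact h k (Polynomial.mem_support_iff.mp hk)

theorem chi_sub {K : Type} [Field K] (χ : AddChar K[X] ℝ) (a b : K[X]) (hb : χ b = 1)
    (hab : χ (a - b) = 1) : χ a = 1 := by
  have h : a = (a - b) + b := by ring
  rw [h, AddChar.map_add_eq_mul, hab, hb, one_mul]

theorem co {K : Type} [Field K] (r : K[X]) (c : K) (m k : ℕ) :
    (r * (C c * X ^ m)).coeff k = if m ≤ k then c * r.coeff (k - m) else 0 := by
  have h : r * (C c * X ^ m) = (C c * r) * X ^ m := by ring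
  rw [h, Polynomial.coeff_mul_X_pow', Polynomial.coeff_C_mul]

theorem deg_lt {K : Type} [Field K] (r : K[X]) (c : K) (m d : ℕ) (h : m + r.natDegree < d) :
    (r * (C c * X ^ m)).degree < (d : WithBot ℕ) := by
  rw [Polynomial.degree_lt_iff_coeff_zero]
  intro k hk
  rw [co]
  split_ifs with h1
  · rw [Polynomial.coeff_eq_zero_of_natDegree_lt (by omega), mul_zero]
  · rfl

/-- one step upwards -/
theorem up {K : Type} [Field K] (d : ℕ) (χ : AddChar K[X] ℝ) (r : K[X]) (hr : r.Monic)
    (hper : Per d χ r) (i : ℕ) (hi : r.natDegree ≤ i) (hid : i < d)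
    (h : ∀ k : ℕ, i - r.natDegree ≤ k → k < i → ∀ c : K, χ (C c * X ^ k) = 1) (c : K) :
    χ (C c * X ^ i) = 1 := by
  apply chi_sub χ _ (r * (C c * X ^ (i - r.natDegree)))
  · exact hper _ (deg_lt r c _ d (by omega))
  · apply chi_of_coeff
    intro k hk
    rw [Polynomial.coeff_sub, Polynomial.coeff_C_mul_X_pow, co] at hk
    apply h k
    · by_contra h1
      apply hk
      rw [if_neg (by omega), if_neg (by omega), sub_zero]
    · by_contra h1
      apply hk
      rcases Nat.eq_or_lt_of_le (Nat.le_of_not_lt h1) with h2 | h2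
      · subst h2
        rw [if_pos rfl, if_pos (by omega)]
        have h3 : i - (i - r.natDegree) = r.natDegree := by omega
        rw [h3, hr.coeff_natDegree, mul_one, sub_self]
      · rw [if_neg (by omega), if_pos (by omega),
          Polynomial.coeff_eq_zero_of_natDegree_lt (by omega), mul_zero, sub_zero]

/-- one step downwards -/
theorem down {K : Type} [Field K] (d : ℕ) (χ : AddChar K[X] ℝ) (r : K[X]) (v : ℕ)
    (hv : r.coeff v ≠ 0) (hv0 : ∀ k < v, r.coeff k = 0) (hper : Per d χ r) (i : ℕ) (hi : v ≤ i)
    (hid : i - v + r.natDegree < d)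
    (h : ∀ k : ℕ, i < k → k ≤ i - v + r.natDegree → ∀ c : K, χ (C c * X ^ k) = 1) (c : K) :
    χ (C c * X ^ i) = 1 := by
  apply chi_sub χ _ (r * (C (c / r.coeff v) * X ^ (i - v)))
  · exact hper _ (deg_lt r _ _ d hid)
  · apply chi_of_coeff
    intro k hk
    rw [Polynomial.coeff_sub, Polynomial.coeff_C_mul_X_pow, co] at hk
    apply h k
    · by_contra h1
      apply hk
      rcases Nat.eq_or_lt_of_le (Nat.le_of_not_lt h1) with h2 | h2
      · subst h2
        rw [if_pos rfl, if_pos (by omega)]
        have h3 : k - (k - v) = v := by omega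
        rw [h3, div_mul_cancel₀ _ hv, sub_self]
      · rw [if_neg (by omega)]
        split_ifs with h3
        · rw [hv0 (k - (i - v)) (by omega), mul_zero, sub_zero]
        · rw [sub_zero]
    · by_contra h1
      apply hk
      have hvd : v ≤ r.natDegree := Polynomial.le_natDegree_of_ne_zero hv
      have h4 : r.coeff (k - (i - v)) = 0 :=
        Polynomial.coeff_eq_zero_of_natDegree_lt (by omega)
      rw [if_neg (by omega), if_pos (by omega), h4, mul_zero, sub_zero]

theorem main : Pool.Agent.H290.FX.D.S_rec := by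
  intro K _ _ _ d χ r j hr hX hper hj hjd hwin
  -- order of `r` at zero
  obtain ⟨v, hv1, hv, hv0⟩ : ∃ v : ℕ, v ≤ 1 ∧ r.coeff v ≠ 0 ∧ ∀ k < v, r.coeff k = 0 := by
    by_cases h0 : r.coeff 0 = 0
    · by_cases h1 : r.coeff 1 = 0
      · exfalso
        apply hX
        rw [Polynomial.X_pow_dvd_iff]
        intro k hk
        rcases (by omega : k = 0 ∨ k = 1) with rfl | rfl
        · exact h0
        · exact h1
      · refine ⟨1, le_refl _, h1, ?_⟩
        intro k hk
        rw [(by omega : k = 0)]
        exact h0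
    · exact ⟨0, by omega, h0, fun k hk => absurd hk (Nat.not_lt_zero k)⟩
  have hup : ∀ i : ℕ, j ≤ i → i < d → ∀ c : K, χ (C c * X ^ i) = 1 := by
    intro i
    induction i using Nat.strong_induction_on with
    | _ i ih =>
      intro hji hid c
      by_cases h1 : i < j + r.natDegree
      · exact hwin i hji h1 c
      · apply up d χ r hr hper i (by omega) hid
        intro k hk1 hk2 c'
        exact ih k hk2 (by omega) (by omega) c'
  have hdown : ∀ n : ℕ, n < j → ∀ k : ℕ, j - n ≤ k → k < j + r.natDegree →
      ∀ c : K, χ (C c * X ^ k) = 1 := by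
    intro n
    induction n with
    | zero =>
      intro _ k hk1 hk2 c
      exact hwin k (by omega) hk2 c
    | succ n ih =>
      intro hn k hk1 hk2 c
      by_cases h1 : j - n ≤ k
      · exact ih (by omega) k h1 hk2 c
      · apply down d χ r v hv hv0 hper k (by omega) (by omega)
        intro k' hk1' hk2' c'
        exact ih (by omega) k' (by omega) (by omega) c'
  intro i hi hid c
  by_cases h1 : j ≤ i
  · exact hup i h1 hid c
  · exact hdown (j - 1) (by omega) i (by omega) (by omega) c

end Pool.Agent.H290.FX.PDrec
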