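import Mathlib
import Pool.Agent.H290.FX.AsmF

/-!
# The exponential sum over the `a` with `a ^ 2 + X` irreducible: uniform final form (helper290)
-/

set_option autoImplicit false

namespace Pool.Agent.H290.FX.PExp

open Polynomial
open scoped Classical
open Pool.Agent.H290.FX
open Pool.Agent.H985.Chow (mob lc)
open Pool.Agent.H694.Typ (Mn PU mem_Mn)
open Pool.Agent.H604.LD (PiM)

variable {K : Type} [Field K] [Fintype K]

/-- The Euler function of a squarefree polynomial. -/
noncomputable def ph (r : K[X]) : ℝ :=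
  ∏ P ∈ (UniqueFactorizationMonoid.normalizedFactors r).toFinset,
    ((Fintype.card K : ℝ) ^ P.natDegree - 1)

omit [Fintype K] in
theorem nf {r P : K[X]} (hP : P ∈ (UniqueFactorizationMonoid.normalizedFactors r).toFinset) :
    P.Monic ∧ Irreducible P ∧ 0 < P.natDegree := by
  rw [Multiset.mem_toFinset] at hP
  have h1 := UniqueFactorizationMonoid.irreducible_of_normalized_factor P hP
  have h2 := UniqueFactorizationMonoid.normalize_normalized_factor P hP
  refine ⟨?_, h1, h1.natDegree_pos⟩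
  rw [← h2]
  exact Polynomial.monic_normalize h1.ne_zero

theorem ph_ge {r : K[X]} (h0 : r ≠ 0) (hs : Squarefree r) :
    (1 / 2 : ℝ) ^ (Fintype.card K) * (Fintype.card K : ℝ) ^ ((r.natDegree : ℝ) / 2) ≤ ph r := by
  set q : ℝ := (Fintype.card K : ℝ) with hq
  have hq2 : (2 : ℝ) ≤ q := by
    have : 1 < Fintype.card K := Fintype.one_lt_card
    rw [hq]
    exact_mod_cast this
  set S := (UniqueFactorizationMonoid.normalizedFactors r).toFinset with hS
  set w : K[X] → ℝ := fun P => if P.natDegree = 1 then (1 / 2 : ℝ) else 1 with hw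
  have h1 : ∀ P ∈ S, w P * q ^ ((P.natDegree : ℝ) / 2) ≤ q ^ P.natDegree - 1 := by
    intro P hP
    have hn := (nf hP).2.2
    have hx : (q ^ ((P.natDegree : ℝ) / 2)) ^ 2 = q ^ P.natDegree := by
      rw [← Real.rpow_natCast (q ^ ((P.natDegree : ℝ) / 2)) 2, ← Real.rpow_mul (by linarith),
        ← Real.rpow_natCast q P.natDegree]
      congr 1
      push_cast
      ring
    have hpos : 0 < q ^ ((P.natDegree : ℝ) / 2) := Real.rpow_pos_of_pos (by linarith) _
    set y := q ^ ((P.natDegree : ℝ) / 2) with hy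
    simp only [hw]
    by_cases hd : P.natDegree = 1
    · rw [if_pos hd, ← hx]
      have : 2 ≤ y ^ 2 := by rw [hx, hd, pow_one]; exact hq2
      nlinarith
    · rw [if_neg hd, ← hx]
      have h4 : (4 : ℝ) ≤ y ^ 2 := by
        rw [hx]
        have : q ^ 2 ≤ q ^ P.natDegree := pow_le_pow_right₀ (by linarith) (by omega)
        nlinarith
      nlinarith
  have h2 : (∏ P ∈ S, w P) * q ^ ((r.natDegree : ℝ) / 2) ≤ ph r := by
    have h3 : q ^ ((r.natDegree : ℝ) / 2) = ∏ P ∈ S, q ^ ((P.natDegree : ℝ) / 2) := by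
      rw [← Real.rpow_sum_of_pos (by linarith)]
      congr 1
      rw [PMb.natDegree_sqf h0 hs, ← hS, ← Finset.sum_div]
      push_cast
      rfl
    rw [h3, ← Finset.prod_mul_distrib]
    unfold ph
    refine Finset.prod_le_prod (fun P _ => ?_) h1
    simp only [hw]
    have : 0 < q ^ ((P.natDegree : ℝ) / 2) := Real.rpow_pos_of_pos (by linarith) _
    split_ifs <;> positivity
  refine le_trans (mul_le_mul_of_nonneg_right ?_ (Real.rpow_nonneg (by linarith) _)) h2
  have h5 : ∏ P ∈ S, w P = (1 / 2 : ℝ) ^ (S.filter (fun P => P.natDegree = 1)).card := by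
    simp only [hw]
    rw [Finset.prod_ite]
    simp
  rw [h5]
  refine pow_le_pow_of_le_one (by norm_num) (by norm_num) ?_
  have h6 : S.filter (fun P => P.natDegree = 1) ⊆
      Finset.univ.image (fun a : K => X + C a) := by
    intro P hP
    rw [Finset.mem_filter] at hP
    have hm := (nf hP.1).1
    rw [Finset.mem_image]
    refine ⟨P.coeff 0, Finset.mem_univ _, ?_⟩
    have := hm.eq_X_add_C hP.2
    exact this.symm
  exact (Finset.card_le_card h6).trans Finset.card_image_le


omit [Fintype K] in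
theorem sq_one [CharP K 2] (χ : AddChar K[X] ℝ) (a : K[X]) : χ a * χ a = 1 := by
  rw [← AddChar.map_add_eq_mul, CharTwo.add_self_eq_zero, AddChar.map_zero_eq_one]

omit [Fintype K] in
theorem abs_one [CharP K 2] (χ : AddChar K[X] ℝ) (a : K[X]) : |χ a| = 1 := by
  have h := sq_one χ a
  rw [← abs_mul_abs_self] at h
  nlinarith [abs_nonneg (χ a), h]

omit [Fintype K] in
/-- The value at a root of degree `d`. -/
theorem root_val [CharP K 2] {d : ℕ} {χ : AddChar K[X] ℝ} {r ρ ρ' : K[X]} (hper : Per d χ r)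
    (h1 : ρ.Monic) (h2 : ρ.natDegree = d) (h3 : ρ'.Monic) (h4 : ρ'.natDegree = d)
    (h : r ∣ ρ - ρ') : χ ρ = χ ρ' := by
  obtain ⟨s, hs⟩ := h
  have h5 : (r * s).degree < (d : WithBot ℕ) := by
    rw [← hs]
    have h7 : ρ.degree = ρ'.degree := by
      rw [degree_eq_natDegree h1.ne_zero, degree_eq_natDegree h3.ne_zero, h2, h4]
    have h8 : ρ.leadingCoeff = ρ'.leadingCoeff := by rw [h1.leadingCoeff, h3.leadingCoeff]
    have h9 := degree_sub_lt_left h7 h1.ne_zero h8
    rwa [degree_eq_natDegree h1.ne_zero, h2] at h9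
  have h6 : ρ = ρ' + r * s := by rw [← hs]; ring
  rw [h6, AddChar.map_add_eq_mul, hper s h5, mul_one]

omit [Fintype K] in
theorem root_monic {r : K[X]} {d : ℕ} (hr : r.Monic) (hd : r.natDegree ≤ d)
    (h : (rt r).degree < r.degree) :
    (rt r + r * X ^ (d - r.natDegree)).Monic ∧
      (rt r + r * X ^ (d - r.natDegree)).natDegree = d := by
  have h1 : (r * X ^ (d - r.natDegree)).Monic := hr.mul (monic_X_pow _)
  have h2 : (r * X ^ (d - r.natDegree)).natDegree = d := by
    rw [hr.natDegree_mul (monic_X_pow _), natDegree_X_pow]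
    omega
  have h3 : (rt r).degree < (r * X ^ (d - r.natDegree)).degree := by
    rw [degree_eq_natDegree h1.ne_zero, h2]
    refine lt_of_lt_of_le h ?_
    rw [degree_eq_natDegree hr.ne_zero]
    exact_mod_cast hd
  refine ⟨h1.add_of_right h3, ?_⟩
  rw [natDegree_add_eq_right_of_degree_lt h3, h2]

/-- The uniform formula. -/
theorem real_form (K : Type) [Field K] [Fintype K] [CharP K 2] : ∃ c : ℝ, 0 < c ∧ ∃ d₀ : ℕ,
    ∀ (d : ℕ) (χ : AddChar K[X] ℝ) (r ρ : K[X]), d₀ ≤ d → MPer d χ r → r.natDegree ≤ d →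
      ρ.Monic → ρ.natDegree = d → (Squarefree r → r ∣ ρ ^ 2 + X) →
      |SX K d χ - (mob r : ℝ) * χ ρ / ph r * ((Fintype.card K : ℝ) ^ d / (2 * d))| ≤
        (Fintype.card K : ℝ) ^ ((1 - c) * d) := by
  obtain ⟨c₁, θ, hc₁, hθ, d₁, H1⟩ := AsmF.major K
  obtain ⟨c₂, hc₂, d₂, H2⟩ := Asm.minor K (θ / 2) (by positivity)
  set q : ℝ := (Fintype.card K : ℝ) with hq
  have hq2 : (2 : ℝ) ≤ q := by
    have : 1 < Fintype.card K := Fintype.one_lt_card
    rw [hq]
    exact_mod_cast this
  have hq0 : 0 < q := by linarith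
  set c : ℝ := min c₁ (min c₂ (θ / 2)) / 2 with hc
  have hcpos : 0 < c := by
    rw [hc]
    have : 0 < min c₁ (min c₂ (θ / 2)) := lt_min hc₁ (lt_min hc₂ (by positivity))
    linarith
  have hc1 : 2 * c ≤ c₁ := by rw [hc]; have := min_le_left c₁ (min c₂ (θ / 2)); linarith
  have hc2 : 2 * c ≤ c₂ := by
    rw [hc]
    have := min_le_right c₁ (min c₂ (θ / 2))
    have := min_le_left c₂ (θ / 2)
    linarith
  have hc3 : 2 * c ≤ θ / 2 := by
    rw [hc]
    have := min_le_right c₁ (min c₂ (θ / 2))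
    have := min_le_right c₂ (θ / 2)
    linarith
  -- `q ^ (c d)` is large
  have hbig : ∃ d₃ : ℕ, ∀ d : ℕ, d₃ ≤ d → 2 ^ (Fintype.card K) + 1 ≤ q ^ (c * d) := by
    have hb : 1 < q ^ c := Real.one_lt_rpow (by linarith) hcpos
    obtain ⟨n, hn⟩ := pow_unbounded_of_one_lt (2 ^ (Fintype.card K) + 1 : ℝ) hb
    refine ⟨n, fun d hd => hn.le.trans ?_⟩
    calc (q ^ c) ^ n ≤ (q ^ c) ^ d := pow_le_pow_right₀ hb.le hd
      _ = q ^ (c * d) := by rw [Real.rpow_mul hq0.le, Real.rpow_natCast]
  obtain ⟨d₃, H3⟩ := hbig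
  obtain ⟨d₄, hd₄⟩ := exists_nat_ge (2 / θ)
  refine ⟨c, hcpos, max (max d₁ d₂) (max d₃ (max d₄ 1)), fun d χ r ρ hd hper hrd hρ hρd hsq => ?_⟩
  have hd1 : d₁ ≤ d := le_trans (le_trans (le_max_left _ _) (le_max_left _ _)) hd
  have hd2 : d₂ ≤ d := le_trans (le_trans (le_max_right _ _) (le_max_left _ _)) hd
  have hd3 : d₃ ≤ d := le_trans (le_trans (le_max_left _ _) (le_max_right _ _)) hd
  have hd4 : d₄ ≤ d := le_trans (le_trans (le_max_left _ _)
    (le_trans (le_max_right _ _) (le_max_right _ _))) hd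
  have hd5 : 1 ≤ d := le_trans (le_trans (le_max_right _ _)
    (le_trans (le_max_right _ _) (le_max_right _ _))) hd
  have hdR : (1 : ℝ) ≤ d := by exact_mod_cast hd5
  have hr0 : r ≠ 0 := hper.1.ne_zero
  have hbig := H3 d hd3
  have hpow : ∀ x y : ℝ, x ≤ y → q ^ (x * d) ≤ q ^ (y * d) := fun x y hxy =>
    Real.rpow_le_rpow_of_exponent_le (by linarith)
      (mul_le_mul_of_nonneg_right hxy (by linarith))
  by_cases hdeg : (r.natDegree : ℝ) ≤ θ * d
  · -- the major characters
    have h := H1 d χ r hd1 hper.1 hdeg hper.2.1 (fun r' h1 h2 => by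
      have := hper.2.2 r' h1 h2
      unfold Per at this
      push Not at this
      exact this)
    have h7 : (mob r : ℝ) * χ (rt r + r * X ^ (d - r.natDegree)) *
        (q ^ (d - r.natDegree) / PiM r) = (mob r : ℝ) * χ ρ / ph r * q ^ d := by
      by_cases hs : Squarefree r
      · have h8 := PRoot.main K r hper.1
        have h9 := root_monic hper.1 hrd (h8.1 hs).2
        have h10 : r ∣ ρ - (rt r + r * X ^ (d - r.natDegree)) := by
          have h11 := (h8.2 ρ (hsq hs)).2
          have : ρ - (rt r + r * X ^ (d - r.natDegree)) =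
            (ρ - rt r) - r * X ^ (d - r.natDegree) := by ring
          rw [this]
          exact dvd_sub h11 (dvd_mul_right _ _)
        rw [root_val hper.2.1 hρ hρd h9.1 h9.2 h10]
        have h12 := PMb.card_PiM hr0 hs
        have h13 : ph r = q ^ r.natDegree * PiM r := h12.symm
        rw [h13]
        have h14 : q ^ d = q ^ (d - r.natDegree) * q ^ r.natDegree := by
          rw [← pow_add]
          congr 1
          omega
        have h15 : q ^ r.natDegree ≠ 0 := (pow_pos hq0 _).ne'
        have h16 : PiM r ≠ 0 := by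
          intro h0
          rw [h0, mul_zero] at h13
          have := ph_ge hr0 hs
          rw [h13] at this
          have h17 : (0 : ℝ) < (1 / 2 : ℝ) ^ (Fintype.card K) *
            (Fintype.card K : ℝ) ^ ((r.natDegree : ℝ) / 2) := by
            have := Real.rpow_pos_of_pos hq0 ((r.natDegree : ℝ) / 2)
            positivity
          linarith
        rw [h14]
        field_simp
      · have hm : mob r = 0 := by
          unfold mob
          rw [if_neg hs]
        rw [hm]
        simp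
    rw [h7] at h
    have h18 : SX K d χ - (mob r : ℝ) * χ ρ / ph r * (q ^ d / (2 * d)) =
        (2 * (d : ℝ) * SX K d χ - (mob r : ℝ) * χ ρ / ph r * q ^ d) / (2 * d) := by
      field_simp
    rw [h18, abs_div, abs_of_pos (by linarith : (0 : ℝ) < 2 * d), div_le_iff₀ (by linarith)]
    refine h.trans ((hpow (1 - c₁) (1 - c) (by linarith)).trans ?_)
    have : 0 < q ^ ((1 - c) * (d : ℝ)) := Real.rpow_pos_of_pos hq0 _
    nlinarith
  · -- the minor characters
    push Not at hdeg
    have ht1 : (⌊θ * d⌋₊ : ℝ) ≤ θ * d := Nat.floor_le (by positivity)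
    have ht2 : θ / 2 * d ≤ (⌊θ * d⌋₊ : ℝ) := by
      have h1 := Nat.lt_floor_add_one (θ * d)
      have h2 : 2 / θ ≤ d := hd₄.trans (by exact_mod_cast hd4)
      rw [div_le_iff₀ hθ] at h2
      nlinarith
    have hmin : Minor d ⌊θ * d⌋₊ χ := by
      intro r' hr' hle
      have hlt : r'.natDegree < r.natDegree := by
        have : (r'.natDegree : ℝ) < r.natDegree := by
          have : (r'.natDegree : ℝ) ≤ (⌊θ * d⌋₊ : ℝ) := by exact_mod_cast hle
          linarith
        exact_mod_cast this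
      have := hper.2.2 r' hr' hlt
      unfold Per at this
      push Not at this
      exact this
    have h := H2 d ⌊θ * d⌋₊ χ hd2 ht2 hmin
    have h2 : |(mob r : ℝ) * χ ρ / ph r * (q ^ d / (2 * d))| ≤
        2 ^ (Fintype.card K) * q ^ ((1 - θ / 2) * d) := by
      by_cases hs : Squarefree r
      · have h3 := ph_ge hr0 hs
        rw [← hq] at h3
        have h4 : (0 : ℝ) < (1 / 2 : ℝ) ^ (Fintype.card K) * q ^ ((r.natDegree : ℝ) / 2) := by
          have := Real.rpow_pos_of_pos hq0 ((r.natDegree : ℝ) / 2)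
          positivity
        have h5 : (mob r : ℝ) ^ 2 = 1 := PMb.mob_sqr hs
        have h6 : |(mob r : ℝ)| = 1 := by
          rw [← sq_abs] at h5
          nlinarith [abs_nonneg (mob r : ℝ)]
        rw [abs_mul, abs_div, abs_mul, h6, abs_one, one_mul, abs_of_pos (h4.trans_le h3),
          abs_of_pos (by positivity : (0 : ℝ) < q ^ d / (2 * d))]
        have h7 : (1 : ℝ) / ph r ≤ 2 ^ (Fintype.card K) * q ^ (-(θ / 2 * d)) := by
          rw [div_le_iff₀ (h4.trans_le h3)]
          have h8 : q ^ (θ / 2 * d) ≤ q ^ ((r.natDegree : ℝ) / 2) :=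
            Real.rpow_le_rpow_of_exponent_le (by linarith) (by nlinarith)
          have h9 : (1 / 2 : ℝ) ^ (Fintype.card K) * q ^ (θ / 2 * d) ≤ ph r :=
            le_trans (mul_le_mul_of_nonneg_left h8 (by positivity)) h3
          have h10 : (2 : ℝ) ^ (Fintype.card K) * q ^ (-(θ / 2 * d)) *
            ((1 / 2 : ℝ) ^ (Fintype.card K) * q ^ (θ / 2 * d)) = 1 := by
            rw [Real.rpow_neg hq0.le]
            have : q ^ (θ / 2 * (d : ℝ)) ≠ 0 := (Real.rpow_pos_of_pos hq0 _).ne'
            have h11 : (2 : ℝ) ^ (Fintype.card K) * (1 / 2 : ℝ) ^ (Fintype.card K) = 1 := by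
              rw [← mul_pow]
              norm_num
            calc (2 : ℝ) ^ (Fintype.card K) * (q ^ (θ / 2 * (d : ℝ)))⁻¹ *
                ((1 / 2 : ℝ) ^ (Fintype.card K) * q ^ (θ / 2 * d)) =
                ((2 : ℝ) ^ (Fintype.card K) * (1 / 2 : ℝ) ^ (Fintype.card K)) *
                  ((q ^ (θ / 2 * (d : ℝ)))⁻¹ * q ^ (θ / 2 * (d : ℝ))) := by ring
              _ = 1 := by rw [h11, inv_mul_cancel₀ this, one_mul]
          rw [← h10]
          have : 0 < (2 : ℝ) ^ (Fintype.card K) * q ^ (-(θ / 2 * d)) := by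
            have := Real.rpow_pos_of_pos hq0 (-(θ / 2 * d))
            positivity
          exact mul_le_mul_of_nonneg_left h9 this.le
        have h12 : q ^ d / (2 * (d : ℝ)) ≤ q ^ d := by
          rw [div_le_iff₀ (by linarith)]
          have : 0 < q ^ d := pow_pos hq0 _
          nlinarith
        calc 1 / ph r * (q ^ d / (2 * d)) ≤
            (2 ^ (Fintype.card K) * q ^ (-(θ / 2 * d))) * q ^ d := by
              refine mul_le_mul h7 h12 (by positivity) ?_
              have := Real.rpow_pos_of_pos hq0 (-(θ / 2 * d))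
              positivity
          _ = 2 ^ (Fintype.card K) * q ^ ((1 - θ / 2) * d) := by
              rw [mul_assoc, ← Real.rpow_natCast q d, ← Real.rpow_add hq0]
              congr 2
              ring
      · have hm : mob r = 0 := by
          unfold mob
          rw [if_neg hs]
        rw [hm]
        simp only [Int.cast_zero, zero_mul, zero_div, abs_zero]
        have := Real.rpow_pos_of_pos hq0 ((1 - θ / 2) * (d : ℝ))
        positivity
    have h3 : |SX K d χ - (mob r : ℝ) * χ ρ / ph r * (q ^ d / (2 * d))| ≤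
        q ^ ((1 - c₂) * d) + 2 ^ (Fintype.card K) * q ^ ((1 - θ / 2) * d) :=
      (abs_sub _ _).trans (add_le_add h h2)
    refine h3.trans ?_
    have h4 : q ^ ((1 - c₂) * (d : ℝ)) ≤ q ^ ((1 - 2 * c) * (d : ℝ)) := hpow _ _ (by linarith)
    have h5 : q ^ ((1 - θ / 2) * (d : ℝ)) ≤ q ^ ((1 - 2 * c) * (d : ℝ)) := hpow _ _ (by linarith)
    have h6 : q ^ ((1 - c) * (d : ℝ)) = q ^ (c * d) * q ^ ((1 - 2 * c) * (d : ℝ)) := by
      rw [← Real.rpow_add hq0]
      congr 1
      ring
    rw [h6]
    have h7 : 0 < q ^ ((1 - 2 * c) * (d : ℝ)) := Real.rpow_pos_of_pos hq0 _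
    have h8 : (0 : ℝ) < 2 ^ (Fintype.card K) := by positivity
    nlinarith

end Pool.Agent.H290.FX.PExp
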