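import Pool.Agent.H290.FX.StmF
import Pool.Agent.H604.LD.FinalP

/-!
# Task CLS: the `t` in a residue class with `X (s t) ^ 2 + 1` irreducible (helper236, for helper290)

From `Pool.Agent.H604.LD.quadC` with `α = X s ^ 2`, `β = 1`.
-/

set_option autoImplicit false

namespace Pool.Agent.H290.FX.PFcls

open Polynomial
open scoped Classical
open Pool.Agent.H290.FX.F
open Pool.Agent.H694.Typ (Mn mem_Mn)

section

variable {K : Type} [Field K]

theorem mem_nf {f : K[X]} (hf : f ≠ 0) (P : K[X]) :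
    P ∈ UniqueFactorizationMonoid.normalizedFactors f ↔ P.Monic ∧ Irreducible P ∧ P ∣ f := by
  rw [UniqueFactorizationMonoid.mem_normalizedFactors_iff' hf]
  constructor
  · rintro ⟨h1, h2, h3⟩
    refine ⟨?_, h1, h3⟩
    rw [← h2]
    exact monic_normalize h1.ne_zero
  · rintro ⟨h1, h2, h3⟩
    exact ⟨h2, h1.normalize_eq_self, h3⟩

theorem deg_f {s t : K[X]} (hs : s.Monic) (ht : t.Monic) :
    (X * (s * t) ^ 2 + 1).natDegree = 2 * (s.natDegree + t.natDegree) + 1 := by
  have h1 : (X * (s * t) ^ 2).natDegree = 2 * (s.natDegree + t.natDegree) + 1 := by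
    rw [monic_X.natDegree_mul ((hs.mul ht).pow 2), natDegree_X, (hs.mul ht).natDegree_pow,
      hs.natDegree_mul ht]
    omega
  rw [natDegree_add_eq_left_of_natDegree_lt (by rw [h1, natDegree_one]; omega), h1]

end

theorem fac_eq {K : Type} [Field K] [Fintype K] {s r : K[X]} (hs : s.Monic) (hr : r.Monic) :
    ∏ᶠ P ∈ {P : K[X] | P.Monic ∧ Irreducible P ∧ P ∣ X * s ^ 2 * r},
      (1 - 1 / (Fintype.card K : ℝ) ^ P.natDegree) = fac (X * s * r) := by
  have hset : {P : K[X] | P.Monic ∧ Irreducible P ∧ P ∣ X * s ^ 2 * r} =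
      ((UniqueFactorizationMonoid.normalizedFactors (X * s * r)).toFinset : Set K[X]) := by
    ext P
    rw [Finset.mem_coe, Multiset.mem_toFinset, mem_nf ((monic_X.mul hs).mul hr).ne_zero,
      Set.mem_ofPred_eq]
    refine and_congr_right fun _ => and_congr_right fun hP => ?_
    have e : X * s ^ 2 * r = X * s * r * s := by ring
    rw [e]
    constructor
    · intro h
      rcases hP.prime.dvd_or_dvd h with h | h
      · exact h
      · exact (h.mul_left X).mul_right r
    · intro h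
      exact h.mul_right s
  unfold fac
  rw [hset, finprod_mem_coe_finset]

theorem main : Pool.Agent.H290.FX.F.S_cls := by
  intro K _ _ _
  obtain ⟨δ, θ, hδ, hθ, d₀, h⟩ := Pool.Agent.H604.LD.quadC Pool.Agent.H604.LD.s_bhqc K
  obtain ⟨d₁, hd₁⟩ := exists_nat_gt (2 / θ)
  have hq0 : (0 : ℝ) < (Fintype.card K : ℝ) := by exact_mod_cast Fintype.card_pos
  refine ⟨δ, min (θ / 10) 1, hδ, lt_min (by positivity) one_pos, max d₀ (max d₁ 1), ?_⟩
  intro k n s r c hk hs hr hn hrk
  rw [mem_Mn] at hs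
  obtain ⟨hs, hsn⟩ := hs
  have hk0 : (0 : ℝ) ≤ k := Nat.cast_nonneg k
  have hk1 : 1 ≤ k := le_trans (le_trans (le_max_right _ _) (le_max_right _ _)) hk
  have hn1 : (n : ℝ) ≤ θ / 10 * k := hn.trans (mul_le_mul_of_nonneg_right (min_le_left _ _) hk0)
  have hr1 : (r.natDegree : ℝ) ≤ θ / 10 * k :=
    hrk.trans (mul_le_mul_of_nonneg_right (min_le_left _ _) hk0)
  have hr2 : r.natDegree ≤ k := by
    have h1 : (r.natDegree : ℝ) ≤ 1 * k :=
      hrk.trans (mul_le_mul_of_nonneg_right (min_le_right _ _) hk0)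
    rw [one_mul] at h1
    exact_mod_cast h1
  have hda : (X * s ^ 2 : K[X]).natDegree = 2 * n + 1 := by
    rw [monic_X.natDegree_mul (hs.pow 2), natDegree_X, hs.natDegree_pow, hsn]
    omega
  by_cases hc : IsCoprime (X * (s * c) ^ 2 + 1) r
  · rw [if_pos hc]
    have e1 : X * s ^ 2 * c ^ 2 + 1 = X * (s * c) ^ 2 + 1 := by ring
    have hns : ¬ IsSquare (X * s ^ 2 * 1 : K[X]) := by
      rintro ⟨z, hz⟩
      have h1 := congrArg natDegree hz
      rw [mul_one, hda] at h1
      have hz0 : z ≠ 0 := by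
        rintro rfl
        rw [mul_zero, natDegree_zero] at h1
        omega
      rw [natDegree_mul hz0 hz0] at h1
      omega
    have hder : (derivative (X * s ^ 2 * 1 : K[X])).natDegree ≤ 2 * n := by
      have h1 := natDegree_derivative_le (X * s ^ 2 * 1 : K[X])
      rw [mul_one, hda] at h1
      rw [mul_one]
      omega
    have hbd : (((X * s ^ 2 : K[X]).natDegree + (derivative (X * s ^ 2 * 1 : K[X])).natDegree +
        r.natDegree + 0 : ℕ) : ℝ) ≤ θ * k := by
      have h1 : ((X * s ^ 2 : K[X]).natDegree + (derivative (X * s ^ 2 * 1 : K[X])).natDegree +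
        r.natDegree + 0 : ℕ) ≤ 4 * n + 1 + r.natDegree := by
        rw [hda]
        omega
      have h2 : (((X * s ^ 2 : K[X]).natDegree + (derivative (X * s ^ 2 * 1 : K[X])).natDegree +
        r.natDegree + 0 : ℕ) : ℝ) ≤ 4 * n + 1 + r.natDegree := by exact_mod_cast h1
      have h3 : (d₁ : ℝ) ≤ k := by
        exact_mod_cast le_trans (le_trans (le_max_left _ _) (le_max_right _ _)) hk
      have h4 : 2 / θ ≤ (k : ℝ) := hd₁.le.trans h3
      rw [div_le_iff₀ hθ] at h4
      linarith
    have h1 := h (X * s ^ 2) 1 (X ^ k) r c k 0 (monic_X.mul (hs.pow 2)).ne_zero isCoprime_one_right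
      hr (by rw [e1]; exact hc) hns (by rw [natDegree_one, hda]; omega) (monic_X_pow k)
      (natDegree_X_pow k) (le_trans (le_max_left _ _) hk) hbd
    rw [fac_eq hs hr, hda, Nat.sub_zero, pow_sub₀ _ hq0.ne' hr2, ← div_eq_mul_inv] at h1
    have hset : {T : K[X] | r ∣ T - c ∧ (T - X ^ k).degree < ((k : ℕ) : WithBot ℕ) ∧
        Irreducible (X * s ^ 2 * T ^ 2 + 1)} =
        (((Ts K k s).filter (fun t => r ∣ t - c) : Finset K[X]) : Set K[X]) := by
      ext T
      rw [Set.mem_ofPred_eq, Finset.mem_coe, Finset.mem_filter, Ts, Finset.mem_filter, mem_Mn,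
        Pool.Agent.H604.LD.interval_eq (monic_X_pow k) (natDegree_X_pow k)]
      have e2 : X * s ^ 2 * T ^ 2 + 1 = X * (s * T) ^ 2 + 1 := by ring
      rw [e2, Ir]
      tauto
    rw [hset, Set.ncard_coe_finset] at h1
    have e3 : 2 * (k : ℝ) + ((2 * n + 1 : ℕ) : ℝ) = 2 * ((k : ℝ) + n) + 1 := by
      push_cast
      ring
    rw [e3] at h1
    exact h1
  · rw [if_neg hc]
    have h1 : (Ts K k s).filter (fun t => r ∣ t - c) = ∅ := by
      rw [Finset.filter_eq_empty_iff]
      intro t ht hd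
      rw [Ts, Finset.mem_filter, mem_Mn] at ht
      obtain ⟨⟨ht1, ht2⟩, ht3⟩ := ht
      obtain ⟨w, hw⟩ := hd
      have e : X * (s * t) ^ 2 + 1 = X * (s * c) ^ 2 + 1 + r * (w * (X * s ^ 2 * (t + c))) := by
        linear_combination (X * s ^ 2 * (t + c)) * hw
      apply hc
      have h2 : IsCoprime (X * (s * t) ^ 2 + 1) r := by
        rw [ht3.coprime_iff_not_dvd]
        intro h3
        have h4 := natDegree_le_of_dvd h3 hr.ne_zero
        rw [deg_f hs ht1] at h4
        omega
      rw [e] at h2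
      exact (IsCoprime.add_mul_left_left_iff).1 h2
    rw [h1, Finset.card_empty, Nat.cast_zero, mul_zero, sub_zero, abs_zero]
    exact Real.rpow_nonneg hq0.le _

end Pool.Agent.H290.FX.PFcls
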