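import Pool.Agent.H290.FX.StmF
import Pool.Agent.H290.FX.PRoot

/-!
# Task CVX: the class `cv` and the bound for the main term (helper737)
-/

set_option autoImplicit false

namespace Pool.Agent.H290.FX.PFcvx

open Polynomial
open scoped Classical
open Pool.Agent.H290.FX
open Pool.Agent.H290.FX.F
open Pool.Agent.H290.FX.PExp (ph)
open Pool.Agent.H985.Chow (mob)
open Pool.Agent.H694.Typ (Mn mem_Mn)

variable {K : Type} [Field K]

/-- existence of the class -/
theorem ex_c [Fintype K] [CharP K 2] (g v : K[X]) (hg : g.Monic) (hv : v.Monic)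
    (hs : Squarefree v) (hc : IsCoprime v (X * g)) :
    ∃ c : K[X], g ∣ c ∧ v ∣ X * c ^ 2 + 1 ∧ c.degree < (g * v).degree := by
  have h1 := ((PRoot.main K v hv).1 hs).1
  obtain ⟨a, b, hab⟩ := hc
  have hm : (g * v).Monic := hg.mul hv
  have hcX : IsCoprime v X := IsCoprime.of_mul_right_left (⟨a, b, hab⟩ : IsCoprime v (X * g))
  -- the class
  obtain ⟨c0, hc0⟩ : ∃ c0, c0 = b * g * rt v := ⟨_, rfl⟩
  have hg0 : g ∣ c0 := ⟨b * rt v, by rw [hc0]; ring⟩
  have hmod : c0 %ₘ (g * v) = c0 - g * v * (c0 /ₘ (g * v)) := by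
    have := modByMonic_add_div c0 (g * v)
    linear_combination this
  have hdeg : (c0 %ₘ (g * v)).degree < (g * v).degree := degree_modByMonic_lt _ hm
  generalize c0 /ₘ (g * v) = d at hmod
  refine ⟨c0 %ₘ (g * v), ?_, ?_, hdeg⟩
  · rw [hmod]
    exact dvd_sub hg0 ((dvd_mul_right g v).mul_right _)
  · apply hcX.dvd_of_dvd_mul_left
    obtain ⟨t, ht⟩ := h1
    rw [hmod, hc0]
    have h2 : X * (X * (b * g * rt v - g * v * d) ^ 2 + 1) =
        (rt v ^ 2 + X) + v * ((-2 * a + a ^ 2 * v) * rt v ^ 2 -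
          2 * X ^ 2 * b * g * rt v * g * d +
            X ^ 2 * g ^ 2 * v * d ^ 2) := by
      have h3 : b * (X * g) = 1 - a * v := by linear_combination hab
      have h4 : (b * (X * g)) ^ 2 = (1 - a * v) ^ 2 := by rw [h3]
      linear_combination (rt v ^ 2) * h4
    rw [h2, ht]
    exact dvd_add (dvd_mul_right _ _) (dvd_mul_right _ _)

theorem cv_spec [Fintype K] [CharP K 2] (g v : K[X]) (hg : g.Monic) (hv : v.Monic)
    (hs : Squarefree v) (hc : IsCoprime v (X * g)) :
    g ∣ cv g v ∧ v ∣ X * cv g v ^ 2 + 1 ∧ (cv g v).degree < (g * v).degree := by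
  have h := ex_c g v hg hv hs hc
  unfold cv
  rw [dif_pos h]
  exact h.choose_spec

/-- uniqueness of the class -/
theorem uniq_c [CharP K 2] (g v c c' : K[X]) (hs : Squarefree v) (hc : IsCoprime v (X * g))
    (h1 : g ∣ c) (h2 : v ∣ X * c ^ 2 + 1) (h3 : g ∣ c') (h4 : v ∣ X * c' ^ 2 + 1) :
    g * v ∣ c - c' := by
  have hcX : IsCoprime v X := IsCoprime.of_mul_right_left hc
  have hcg : IsCoprime v g := IsCoprime.of_mul_right_right hc
  have h5 : v ∣ X * (c - c') ^ 2 := by
    have h6 : X * (c - c') ^ 2 = (X * c ^ 2 + 1) - (X * c' ^ 2 + 1) := by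
      have h7 : (c - c') ^ 2 = c ^ 2 - c' ^ 2 := by
        rw [CharTwo.sub_eq_add, CharTwo.sub_eq_add, CharTwo.add_sq]
      rw [h7]
      ring
    rw [h6]
    exact dvd_sub h2 h4
  have h6 : v ∣ c - c' := hs.isRadical 2 _ (hcX.dvd_of_dvd_mul_left h5)
  exact hcg.symm.mul_dvd (dvd_sub h1 h3) h6

theorem ph_ge_one [Fintype K] (v : K[X]) : 1 ≤ ph v := by
  have hq : 1 < Fintype.card K := Fintype.one_lt_card
  have hq2 : (2 : ℝ) ≤ (Fintype.card K : ℝ) := by exact_mod_cast hq
  have h : ∏ P ∈ (UniqueFactorizationMonoid.normalizedFactors v).toFinset, (1 : ℝ) ≤ ph v := by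
    unfold ph
    refine Finset.prod_le_prod (fun P _ => zero_le_one) (fun P hP => ?_)
    have h1 := (PExp.nf hP).2.2
    have h2 : (Fintype.card K : ℝ) ^ 1 ≤ (Fintype.card K : ℝ) ^ P.natDegree :=
      pow_le_pow_right₀ (by linarith) h1
    rw [pow_one] at h2
    linarith
  rwa [Finset.prod_const_one] at h

theorem abs_mob (v : K[X]) : |(mob v : ℝ)| ≤ 1 := by
  unfold mob
  split_ifs
  · push_cast
    rw [abs_pow, abs_neg, abs_one, one_pow]
  · simp

/-- one `v` at most -/
theorem card_le [Fintype K] (r s : K[X]) (hr : r.Monic) :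
    ((DV K r).filter (fun v => (r /ₘ v) ∣ s ∧ IsCoprime v s)).card ≤ 1 := by
  rw [Finset.card_le_one]
  have key : ∀ v ∈ (DV K r).filter (fun v => (r /ₘ v) ∣ s ∧ IsCoprime v s),
      v.Monic ∧ r = v * (r /ₘ v) ∧ (r /ₘ v).Monic ∧ (r /ₘ v) ∣ s ∧ IsCoprime v s := by
    intro v hv
    rw [Finset.mem_filter] at hv
    obtain ⟨h1, h2, h3⟩ := hv
    unfold DV at h1
    rw [Finset.mem_filter, Finset.mem_biUnion] at h1
    obtain ⟨⟨i, -, hi⟩, h4, h5, h6⟩ := h1
    rw [mem_Mn] at hi
    have h7 : r = v * (r /ₘ v) := by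
      have h8 := modByMonic_add_div r v
      rw [(modByMonic_eq_zero_iff_dvd hi.1).2 h4, zero_add] at h8
      exact h8.symm
    refine ⟨hi.1, h7, ?_, h2, h3⟩
    rw [h7] at hr
    exact Polynomial.Monic.of_mul_monic_left hi.1 hr
  intro a ha b hb
  obtain ⟨a1, a2, a3, a4, a5⟩ := key a ha
  obtain ⟨b1, b2, b3, b4, b5⟩ := key b hb
  have h1 : r /ₘ a ∣ r /ₘ b := by
    have h2 : IsCoprime (r /ₘ a) b := (b5.of_isCoprime_of_dvd_right a4).symm
    apply h2.dvd_of_dvd_mul_left
    rw [← b2]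
    exact ⟨a, by rw [mul_comm]; exact a2⟩
  have h2 : r /ₘ b ∣ r /ₘ a := by
    have h2 : IsCoprime (r /ₘ b) a := (a5.of_isCoprime_of_dvd_right b4).symm
    apply h2.dvd_of_dvd_mul_left
    rw [← a2]
    exact ⟨b, by rw [mul_comm]; exact b2⟩
  have h3 : r /ₘ a = r /ₘ b := eq_of_monic_of_associated a3 b3 (associated_of_dvd_dvd h1 h2)
  have h4 : a * (r /ₘ b) = b * (r /ₘ b) := by
    rw [← b2, ← h3]
    exact a2.symm
  exact mul_right_cancel₀ b3.ne_zero h4

theorem main : S_cvx := by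
  intro K _ _ _
  refine ⟨?_, ?_, ?_⟩
  · intro g v hg hv hs hc
    have h := cv_spec g v hg hv hs hc
    exact ⟨h, fun c h1 h2 => uniq_c g v c _ hs hc h1 h2 h.1 h.2.1⟩
  · intro χ r s hr hs0
    unfold Mv
    refine (Finset.abs_sum_le_sum_abs _ _).trans ?_
    have h1 : ∀ v ∈ (DV K r).filter (fun v => (r /ₘ v) ∣ s ∧ IsCoprime v s),
        |(mob v : ℝ) * χ (cv (r /ₘ v) v) / ph v| ≤ 1 := by
      intro v _
      rw [abs_div, abs_mul, PExp.abs_one χ, mul_one, 
        abs_of_pos (show 0 < ph v by linarith [ph_ge_one v]),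
        div_le_one (show 0 < ph v by linarith [ph_ge_one v])]
      exact (abs_mob v).trans (ph_ge_one v)
    refine (Finset.sum_le_card_nsmul _ _ 1 h1).trans ?_
    rw [nsmul_eq_mul, mul_one]
    exact_mod_cast card_le r s hr
  · intro χ s hs0
    have hq1 : ((1 : K[X]) /ₘ 1) = 1 := divByMonic_one 1
    have hset : (DV K (1 : K[X])).filter (fun v => ((1 : K[X]) /ₘ v) ∣ s ∧ IsCoprime v s) = {1} := by
      ext v
      rw [Finset.mem_filter, Finset.mem_singleton]
      constructor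
      · rintro ⟨h1, -⟩
        unfold DV at h1
        rw [Finset.mem_filter, Finset.mem_biUnion] at h1
        obtain ⟨⟨i, -, hi⟩, h4, -⟩ := h1
        rw [mem_Mn] at hi
        exact hi.1.eq_one_of_isUnit (isUnit_of_dvd_one h4)
      · rintro rfl
        refine ⟨?_, ?_, isCoprime_one_left⟩
        · unfold DV
          rw [Finset.mem_filter, Finset.mem_biUnion]
          refine ⟨⟨0, ?_, ?_⟩, dvd_rfl, squarefree_one, isCoprime_one_left⟩
          · rw [Finset.mem_range]
            exact Nat.succ_pos _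
          · rw [mem_Mn]
            exact ⟨monic_one, natDegree_one⟩
        · rw [hq1]
          exact one_dvd s
    unfold Mv
    rw [hset, Finset.sum_singleton, hq1]
    have h1 := cv_spec (1 : K[X]) 1 monic_one monic_one squarefree_one isCoprime_one_left
    have h2 : cv (1 : K[X]) 1 = 0 := by
      have h3 := h1.2.2
      rw [mul_one, degree_one] at h3
      exact degree_eq_bot.1 ((Nat.WithBot.lt_zero_iff).1 h3)
    have h3 : mob (1 : K[X]) = 1 := by
      unfold mob
      rw [if_pos squarefree_one, UniqueFactorizationMonoid.factors_one, Multiset.card_zero, pow_zero]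
    have h4 : ph (1 : K[X]) = 1 := by
      unfold ph
      rw [UniqueFactorizationMonoid.normalizedFactors_one, Multiset.toFinset_zero,
        Finset.prod_empty]
    rw [h2, h3, h4, AddChar.map_zero_eq_one]
    norm_num

end Pool.Agent.H290.FX.PFcvx
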