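import Pool.Agent.H290.FX.StmF

/-!
# FSD: deduction of the final statement (helper351 for helper290)
-/

set_option autoImplicit false

namespace Pool.Agent.H290.FX.PFfsd

open Polynomial
open scoped Classical
open Pool.Agent.H290.FX Pool.Agent.H290.FX.F
open Pool.Agent.H694.Typ (Mn mem_Mn)

/-- orthogonality for the square of a sum of characters -/
theorem orthsum (hO : S_orth) (K : Type) [Field K] [Fintype K] [CharP K 2] (D : ℕ)
    (A : Finset K[X]) (hA : ∀ a ∈ A, a.degree < (D : WithBot ℕ)) (u : K[X])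
    (hu : u.degree < (D : WithBot ℕ)) (hno : ∀ a ∈ A, ∀ b ∈ A, a - b ≠ u) :
    ∑ H ∈ Vs K D, (∑ a ∈ A, ch D H a) ^ 2 * ch D H u = 0 := by
  have h1 : ∀ H ∈ Vs K D, (∑ a ∈ A, ch D H a) ^ 2 * ch D H u =
      ∑ a ∈ A, ∑ b ∈ A, ch D H (a + b + u) := by
    intro H _
    rw [sq, Finset.sum_mul_sum, Finset.sum_mul]
    refine Finset.sum_congr rfl fun a _ => ?_
    rw [Finset.sum_mul]
    refine Finset.sum_congr rfl fun b _ => ?_
    rw [AddChar.map_add_eq_mul, AddChar.map_add_eq_mul]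
  rw [Finset.sum_congr rfl h1, Finset.sum_comm]
  refine Finset.sum_eq_zero fun a ha => ?_
  rw [Finset.sum_comm]
  refine Finset.sum_eq_zero fun b hb => ?_
  rw [hO K D (a + b + u) ((degree_add_le _ _).trans_lt (max_lt
    ((degree_add_le _ _).trans_lt (max_lt (hA a ha) (hA b hb))) hu))]
  rw [if_neg]
  intro e
  apply hno a ha b hb
  have h6 : u + u = 0 := CharTwo.add_self_eq_zero _
  have h7 : b + b = 0 := CharTwo.add_self_eq_zero _
  linear_combination e - h6 - h7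

/-- Parseval -/
theorem pars (hO : S_orth) (K : Type) [Field K] [Fintype K] [CharP K 2] (D : ℕ)
    (A : Finset K[X]) (hA : ∀ a ∈ A, a.degree < (D : WithBot ℕ)) :
    ∑ H ∈ Vs K D, (∑ a ∈ A, ch D H a) ^ 2 = (Fintype.card K : ℝ) ^ D * A.card := by
  have h1 : ∀ H ∈ Vs K D, (∑ a ∈ A, ch D H a) ^ 2 =
      ∑ a ∈ A, ∑ b ∈ A, ch D H (a + b) := by
    intro H _
    rw [sq, Finset.sum_mul_sum]
    refine Finset.sum_congr rfl fun a _ => ?_
    refine Finset.sum_congr rfl fun b _ => ?_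
    rw [AddChar.map_add_eq_mul]
  rw [Finset.sum_congr rfl h1, Finset.sum_comm]
  have h2 : ∀ a ∈ A, ∑ H ∈ Vs K D, ∑ b ∈ A, ch D H (a + b) = (Fintype.card K : ℝ) ^ D := by
    intro a ha
    rw [Finset.sum_comm]
    have h3 : ∀ b ∈ A, ∑ H ∈ Vs K D, ch D H (a + b) =
        if a = b then (Fintype.card K : ℝ) ^ D else 0 := by
      intro b hb
      rw [hO K D (a + b) ((degree_add_le _ _).trans_lt (max_lt (hA a ha) (hA b hb)))]
      have h5 : a + b = 0 ↔ a = b := by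
        have h6 : b + b = 0 := CharTwo.add_self_eq_zero _
        constructor
        · intro e
          linear_combination e - h6
        · intro e
          linear_combination e + h6
      simp only [h5]
    rw [Finset.sum_congr rfl h3, Finset.sum_ite_eq, if_pos ha]
  rw [Finset.sum_congr rfl h2, Finset.sum_const, nsmul_eq_mul, mul_comm]

/-- no differences: the weighted sum vanishes -/
theorem Gsum (hO : S_orth) (K : Type) [Field K] [Fintype K] [CharP K 2] (D j n : ℕ)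
    (A : Finset K[X]) (hA : ∀ a ∈ A, a.degree < (D : WithBot ℕ)) (hj : j < D) (hn : n < D)
    (hno : ∀ a ∈ A, ∀ b ∈ A, (a - b).Monic → ¬ Ir (a - b)) :
    ∑ H ∈ Vs K D, (∑ a ∈ A, ch D H a) ^ 2 * G K j n (ch D H) = 0 := by
  have h1 : ∀ H ∈ Vs K D, (∑ a ∈ A, ch D H a) ^ 2 * G K j n (ch D H) =
      ∑ s ∈ Mn K n, ∑ t ∈ Ts K (j - n) s, (2 * (j : ℝ) + 1) / (Fintype.card K : ℝ) ^ j *
        fac (X * s) * ((∑ a ∈ A, ch D H a) ^ 2 * ch D H (s * t)) := by
    intro H _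
    unfold G
    rw [Finset.mul_sum, Finset.mul_sum]
    refine Finset.sum_congr rfl fun s _ => ?_
    rw [Finset.mul_sum, Finset.mul_sum, Finset.mul_sum]
    refine Finset.sum_congr rfl fun t _ => ?_
    ring
  rw [Finset.sum_congr rfl h1, Finset.sum_comm]
  refine Finset.sum_eq_zero fun s hs => ?_
  rw [Finset.sum_comm]
  refine Finset.sum_eq_zero fun t ht => ?_
  rw [← Finset.mul_sum]
  unfold Ts at ht
  rw [Finset.mem_filter] at ht
  obtain ⟨ht1, ht2⟩ := ht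
  rw [mem_Mn] at ht1 hs
  have hmon : (s * t).Monic := hs.1.mul ht1.1
  have hdeg : (s * t).degree < (D : WithBot ℕ) := by
    rw [degree_eq_natDegree hmon.ne_zero, hs.1.natDegree_mul ht1.1, hs.2, ht1.2]
    exact_mod_cast (by omega : n + (j - n) < D)
  rw [orthsum hO K D A hA (s * t) hdeg ?_, mul_zero]
  intro a ha b hb e
  apply hno a ha b hb
  · rw [e]; exact hmon
  · rw [e]; exact ht2

/-- the lower bound of the weight -/
theorem lowW (g e : ℝ) (J a D : ℕ) (Gj : ℕ → ℝ) (haD : a ≤ D) (hg0 : 0 ≤ g) (hg1 : g ≤ 1)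
    (he : 0 ≤ e)
    (h : ∀ j : ℕ, a ≤ j → j < D → (j < J → |Gj j - g| ≤ e) ∧ (j = J → |Gj j| ≤ g + e) ∧
      (J < j → |Gj j| ≤ e)) :
    -((2:ℝ) ^ a + 2 ^ D * e) ≤ ∑ j ∈ Finset.Ico a D, (2:ℝ) ^ j * Gj j := by
  have key : ∀ N : ℕ, a ≤ N → N ≤ D →
      (N ≤ J → (g - e) * ((2:ℝ) ^ N - 2 ^ a) ≤ ∑ j ∈ Finset.Ico a N, (2:ℝ) ^ j * Gj j) ∧
      (J < N → -(g * 2 ^ a) - e * ((2:ℝ) ^ N - 2 ^ a) ≤
        ∑ j ∈ Finset.Ico a N, (2:ℝ) ^ j * Gj j) := by
    intro N haN
    induction N, haN using Nat.le_induction with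
    | base =>
      intro _
      rw [Finset.Ico_self, Finset.sum_empty, sub_self, mul_zero, mul_zero, sub_zero]
      exact ⟨fun _ => le_rfl, fun _ => by
        have : 0 ≤ g * (2:ℝ) ^ a := by positivity
        linarith⟩
    | succ N haN ih =>
      intro hND
      obtain ⟨ih1, ih2⟩ := ih (by omega)
      obtain ⟨g1, g2, g3⟩ := h N haN (by omega)
      have h2N : (0:ℝ) < 2 ^ N := by positivity
      rw [Finset.sum_Ico_succ_top haN, pow_succ]
      refine ⟨fun hJ => ?_, fun hJ => ?_⟩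
      · have a1 := ih1 (by omega)
        have a2 := (abs_le.mp (g1 (by omega))).1
        have a3 : (2:ℝ) ^ N * (g - e) ≤ 2 ^ N * Gj N :=
          mul_le_mul_of_nonneg_left (by linarith) h2N.le
        nlinarith
      · rcases Nat.lt_or_ge J N with hJN | hJN
        · have a1 := ih2 hJN
          have a2 := (abs_le.mp (g3 hJN)).1
          have a3 : (2:ℝ) ^ N * (-e) ≤ 2 ^ N * Gj N :=
            mul_le_mul_of_nonneg_left (by linarith) h2N.le
          nlinarith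
        · have hJe : N = J := by omega
          have a1 := ih1 (by omega)
          have a2 := (abs_le.mp (g2 hJe)).1
          have a3 : (2:ℝ) ^ N * (-(g + e)) ≤ 2 ^ N * Gj N :=
            mul_le_mul_of_nonneg_left (by linarith) h2N.le
          nlinarith
  obtain ⟨k1, k2⟩ := key D haD le_rfl
  have h2a : (0:ℝ) < 2 ^ a := by positivity
  have h2D : (2:ℝ) ^ a ≤ 2 ^ D := pow_le_pow_right₀ (by norm_num) haD
  rcases Nat.lt_or_ge J D with hJ | hJ
  · have a1 := k2 hJ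
    have a2 : g * (2:ℝ) ^ a ≤ 1 * 2 ^ a := mul_le_mul_of_nonneg_right hg1 h2a.le
    have a3 : 0 ≤ e * (2:ℝ) ^ a := by positivity
    nlinarith
  · have a1 := k1 hJ
    have a2 : 0 ≤ g * ((2:ℝ) ^ D - 2 ^ a) := mul_nonneg hg0 (by linarith)
    have a3 : 0 ≤ e * (2:ℝ) ^ a := by positivity
    nlinarith

/-- the value at the trivial character -/
theorem lowW0 (e : ℝ) (a D : ℕ) (Gj : ℕ → ℝ) (haD : a < D) (he1 : e ≤ 1 / 2)
    (h : ∀ j : ℕ, a ≤ j → j < D → |Gj j - 1| ≤ e) :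
    (2:ℝ) ^ D / 4 ≤ ∑ j ∈ Finset.Ico a D, (2:ℝ) ^ j * Gj j := by
  have h1 : ∀ j ∈ Finset.Ico a D, (0:ℝ) ≤ (2:ℝ) ^ j * Gj j := by
    intro j hj
    rw [Finset.mem_Ico] at hj
    have := (abs_le.mp (h j hj.1 hj.2)).1
    have h2 : 0 ≤ Gj j := by linarith
    positivity
  obtain ⟨E, rfl⟩ : ∃ E, D = E + 1 := ⟨D - 1, by omega⟩
  have h3 := Finset.single_le_sum h1 (Finset.mem_Ico.mpr ⟨(by omega : a ≤ E), (by omega : E < E + 1)⟩)
  have h4 := (abs_le.mp (h E (by omega) (by omega))).1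
  have h5 : (2:ℝ) ^ E * (1 / 2) ≤ 2 ^ E * Gj E := mul_le_mul_of_nonneg_left (by linarith) (by positivity)
  rw [pow_succ]
  linarith

theorem main : Pool.Agent.H290.FX.F.S_tfsd := by
  intro hO hG K _ _ _
  obtain ⟨κ, c, hκ0, hκ1, hc, d₀, hD⟩ := hG K
  set q : ℝ := (Fintype.card K : ℝ) with hq
  have hq2 : 2 ≤ q := by
    have : 2 ≤ Fintype.card K := Fintype.one_lt_card
    rw [hq]
    exact_mod_cast this
  have hq0 : 0 < q := by linarith
  set L : ℝ := Real.log q with hL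
  have hL0 : 0 < L := Real.log_pos (by linarith)
  have hl2 : 0 < Real.log 2 := Real.log_pos (by norm_num)
  set c₁ : ℝ := min c (Real.log 2 / (2 * L)) with hc₁
  have hc₁0 : 0 < c₁ := lt_min hc (by positivity)
  have hc₁c : c₁ ≤ c := min_le_left _ _
  have hc₁L : c₁ * L ≤ Real.log 2 / 2 := by
    have : c₁ ≤ Real.log 2 / (2 * L) := min_le_right _ _
    calc c₁ * L ≤ Real.log 2 / (2 * L) * L := mul_le_mul_of_nonneg_right this hL0.le
      _ = _ := by field_simp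
  refine ⟨c₁ / 2, by positivity, max (max d₀ 1) (⌈20 / (c₁ * L)⌉₊ + 1), ?_⟩
  intro D A hDle hA hcard
  have hDd : d₀ ≤ D := le_trans (le_trans (le_max_left _ _) (le_max_left _ _)) hDle
  have hD1 : 1 ≤ D := le_trans (le_trans (le_max_right _ _) (le_max_left _ _)) hDle
  have hDc : 20 / (c₁ * L) ≤ D := by
    have h1 : ⌈20 / (c₁ * L)⌉₊ ≤ D :=
      le_trans (Nat.le_succ _) (le_trans (le_max_right _ _) hDle)
    exact (Nat.le_ceil _).trans (by exact_mod_cast h1)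
  have hDc2 : 20 ≤ c₁ * L * D := by
    rw [div_le_iff₀ (by positivity)] at hDc
    linarith
  by_contra hcon
  push Not at hcon
  have hno : ∀ a ∈ A, ∀ b ∈ A, (a - b).Monic → ¬ Ir (a - b) := hcon
  obtain ⟨hone, hall⟩ := hD D hDd
  set n : ℕ := ⌊κ * D⌋₊ with hn
  have hDr : (1:ℝ) ≤ D := by exact_mod_cast hD1
  have hnD : n < D := by
    have h1 : (n : ℝ) ≤ κ * D := Nat.floor_le (by positivity)
    have h2 : κ * D ≤ 1 / 4 * D := mul_le_mul_of_nonneg_right hκ1 (by positivity)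
    have h3 : (n : ℝ) < D := by linarith
    exact_mod_cast h3
  set e : ℝ := q ^ (-(c * D)) with he
  set p : ℝ := Real.exp (-(c₁ * L * D / 2)) with hp
  have hp0 : 0 < p := Real.exp_pos _
  have hp2 : p ^ 2 = Real.exp (-(c₁ * L * D)) := by
    rw [hp, sq, ← Real.exp_add]
    congr 1
    ring
  have hp11 : p * 11 ≤ 1 := by
    have h1 : (11:ℝ) ≤ Real.exp (c₁ * L * D / 2) := by
      have := Real.add_one_le_exp (c₁ * L * D / 2)
      linarith
    have h2 : p * Real.exp (c₁ * L * D / 2) = 1 := by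
      rw [hp, ← Real.exp_add]
      simp
    calc p * 11 ≤ p * Real.exp (c₁ * L * D / 2) := mul_le_mul_of_nonneg_left h1 hp0.le
      _ = 1 := h2
  have he0 : 0 ≤ e := by positivity
  have hep : e ≤ p ^ 2 := by
    rw [he, hp2, Real.rpow_def_of_pos hq0]
    refine Real.exp_le_exp.mpr ?_
    have h1 : c₁ * L * D ≤ c * L * D := by
      refine mul_le_mul_of_nonneg_right (mul_le_mul_of_nonneg_right hc₁c hL0.le) (by positivity)
    have h2 : Real.log q * -(c * D) = -(c * L * D) := by rw [← hL]; ring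
    rw [h2]
    linarith
  have he1 : e ≤ 1 / 2 := by nlinarith
  -- the pieces
  set W : K[X] → ℝ := fun H => ∑ j ∈ Finset.Ico (D / 2) D, (2:ℝ) ^ j * G K j n (ch D H) with hW
  set f : K[X] → ℝ := fun H => ∑ a ∈ A, ch D H a with hf
  have hzero : ∑ H ∈ Vs K D, f H ^ 2 * W H = 0 := by
    have h1 : ∀ H ∈ Vs K D, f H ^ 2 * W H =
        ∑ j ∈ Finset.Ico (D / 2) D, (2:ℝ) ^ j * (f H ^ 2 * G K j n (ch D H)) := by
      intro H _
      rw [hW]
      simp only
      rw [Finset.mul_sum]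
      refine Finset.sum_congr rfl fun j _ => ?_
      ring
    rw [Finset.sum_congr rfl h1, Finset.sum_comm]
    refine Finset.sum_eq_zero fun j hj => ?_
    rw [Finset.mem_Ico] at hj
    rw [← Finset.mul_sum, hf, Gsum hO K D j n A hA hj.2 hnD hno, mul_zero]
  have hWlow : ∀ H ∈ Vs K D, -((2:ℝ) ^ (D / 2) + 2 ^ D * e) ≤ W H := by
    intro H _
    obtain ⟨g, J, hg0, hg1, hg⟩ := hall (ch D H)
    exact lowW g e J (D / 2) D (fun j => G K j n (ch D H)) (Nat.div_le_self _ _) hg0 hg1 he0 hg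
  have hch0 : ch D (0 : K[X]) = 1 := by
    ext a
    rw [ch_apply, zero_mul, coeff_zero, Pool.Agent.H985.KP.Loc2.sg_zero, AddChar.one_apply]
  have hW0 : (2:ℝ) ^ D / 4 ≤ W 0 := by
    rw [hW]
    simp only
    rw [hch0]
    exact lowW0 e (D / 2) D (fun j => G K j n 1) (by omega) he1 hone
  have hf0 : f 0 = A.card := by
    rw [hf]
    simp only
    rw [hch0]
    simp [AddChar.one_apply]
  have hpars : ∑ H ∈ Vs K D, f H ^ 2 = q ^ D * A.card := pars hO K D A hA
  have h0mem : (0 : K[X]) ∈ Vs K D := by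
    rw [mem_Vs, degree_zero]
    exact WithBot.bot_lt_coe _
  set B : ℝ := (2:ℝ) ^ (D / 2) + 2 ^ D * e with hB
  have hB0 : 0 ≤ B := by positivity
  have hkey : (A.card : ℝ) ^ 2 * ((2:ℝ) ^ D / 4) ≤ B * (q ^ D * A.card) := by
    have h1 : f 0 ^ 2 * (W 0 + B) ≤ ∑ H ∈ Vs K D, f H ^ 2 * (W H + B) := by
      refine Finset.single_le_sum (f := fun H => f H ^ 2 * (W H + B)) (fun H hH => ?_) h0mem
      exact mul_nonneg (sq_nonneg _) (by linarith [hWlow H hH])
    have h2 : ∑ H ∈ Vs K D, f H ^ 2 * (W H + B) = B * (q ^ D * A.card) := by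
      rw [← hpars, Finset.mul_sum]
      rw [← add_zero (∑ H ∈ Vs K D, B * f H ^ 2), ← hzero, ← Finset.sum_add_distrib]
      refine Finset.sum_congr rfl fun H _ => ?_
      ring
    rw [h2, hf0] at h1
    refine le_trans (mul_le_mul_of_nonneg_left ?_ (sq_nonneg _)) h1
    linarith
  -- the cardinality is positive
  have hqD : 0 < q ^ D := by positivity
  have hcard2 : q ^ D * p ≤ A.card := by
    refine le_trans (le_of_eq ?_) hcard
    rw [← Real.rpow_natCast q D, Real.rpow_def_of_pos hq0, Real.rpow_def_of_pos hq0, hp,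
      ← Real.exp_add]
    congr 1
    rw [← hL]
    ring
  have hA0 : (0:ℝ) < A.card := lt_of_lt_of_le (by positivity) hcard2
  have h3 : (A.card : ℝ) * ((2:ℝ) ^ D / 4) ≤ B * q ^ D := by
    have : (A.card : ℝ) * ((A.card : ℝ) * ((2:ℝ) ^ D / 4)) ≤ (A.card : ℝ) * (B * q ^ D) := by
      calc _ = (A.card : ℝ) ^ 2 * ((2:ℝ) ^ D / 4) := by ring
        _ ≤ _ := hkey
        _ = _ := by ring
    exact le_of_mul_le_mul_left this hA0
  have h4 : q ^ D * (p * ((2:ℝ) ^ D / 4)) ≤ q ^ D * B := by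
    calc q ^ D * (p * ((2:ℝ) ^ D / 4)) = (q ^ D * p) * ((2:ℝ) ^ D / 4) := by ring
      _ ≤ (A.card : ℝ) * ((2:ℝ) ^ D / 4) := mul_le_mul_of_nonneg_right hcard2 (by positivity)
      _ ≤ B * q ^ D := h3
      _ = _ := mul_comm _ _
  have h5 : p * ((2:ℝ) ^ D / 4) ≤ B := le_of_mul_le_mul_left h4 hqD
  have h6 : (2:ℝ) ^ (D / 2) ≤ 2 ^ D * p ^ 2 := by
    rw [hp2]
    have e1 : ∀ k : ℕ, (2:ℝ) ^ k = Real.exp (k * Real.log 2) := by
      intro k
      rw [Real.exp_nat_mul, Real.exp_log (by norm_num)]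
    rw [e1, e1, ← Real.exp_add]
    refine Real.exp_le_exp.mpr ?_
    have h7 : ((D / 2 : ℕ) : ℝ) ≤ D / 2 := Nat.cast_div_le
    have h8 : ((D / 2 : ℕ) : ℝ) * Real.log 2 ≤ D / 2 * Real.log 2 :=
      mul_le_mul_of_nonneg_right h7 hl2.le
    have h9 : c₁ * L * D ≤ Real.log 2 / 2 * D := mul_le_mul_of_nonneg_right hc₁L (by positivity)
    linarith
  have h7 : B ≤ 2 ^ D * (2 * p ^ 2) := by
    rw [hB]
    have : (2:ℝ) ^ D * e ≤ 2 ^ D * p ^ 2 := mul_le_mul_of_nonneg_left hep (by positivity)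
    linarith
  have h8 : (2:ℝ) ^ D * (p / 4) ≤ 2 ^ D * (2 * p ^ 2) := by
    calc (2:ℝ) ^ D * (p / 4) = p * ((2:ℝ) ^ D / 4) := by ring
      _ ≤ _ := h5.trans h7
  have h9 : p / 4 ≤ 2 * p ^ 2 := le_of_mul_le_mul_left h8 (by positivity)
  nlinarith

end Pool.Agent.H290.FX.PFfsd
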