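import Pool.Agent.H290.FX.StmF

/-!
# Project FS, task GJ: the weight on all levels (helper227)
-/

set_option autoImplicit false

namespace Pool.Agent.H290.FX.PFgj

open Polynomial
open scoped Classical
open Pool.Agent.H290.FX Pool.Agent.H290.FX.F
open Pool.Agent.H694.Typ (Mn mem_Mn card_Mn)

section per

variable {K : Type} [Field K]

theorem per_mono {i j : ℕ} (h : i ≤ j) {χ : AddChar K[X] ℝ} {r : K[X]} (hp : Per j χ r) :
    Per i χ r := by
  intro s hs
  exact hp s (lt_of_lt_of_le hs (by exact_mod_cast h))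

theorem minor_of {j t : ℕ} {χ : AddChar K[X] ℝ}
    (h : ∀ r : K[X], r.Monic → r.natDegree ≤ t → ¬ Per j χ r) : Minor j t χ := by
  intro r hr hd
  by_contra hn
  apply h r hr hd
  intro s hs
  by_contra hc
  exact hn ⟨s, hs, hc⟩

theorem exists_mper (j : ℕ) (χ : AddChar K[X] ℝ) : ∃ r, MPer j χ r := by
  have hex : ∃ m : ℕ, ∃ r : K[X], r.Monic ∧ r.natDegree = m ∧ Per j χ r := by
    refine ⟨j, X ^ j, monic_X_pow j, natDegree_X_pow j, ?_⟩
    intro s hs
    have h0 : s = 0 := by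
      by_contra h
      rw [degree_mul, degree_X_pow, degree_eq_natDegree h] at hs
      have : j + s.natDegree < j := by exact_mod_cast hs
      omega
    rw [h0, mul_zero]
    exact χ.map_zero_eq_one
  obtain ⟨r, h1, h2, h3⟩ := Nat.find_spec hex
  refine ⟨r, h1, h3, ?_⟩
  intro r' hr' hd hp
  rw [h2] at hd
  exact Nat.find_min hex hd ⟨r', hr', rfl, hp⟩

theorem mper_up {i j : ℕ} (h : i ≤ j) {χ : AddChar K[X] ℝ} {r : K[X]} (hr : MPer i χ r)
    (hp : Per j χ r) : MPer j χ r :=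
  ⟨hr.1, hp, fun r' hm hd hp' => hr.2.2 r' hm hd (per_mono h hp')⟩

theorem per_ext [CharP K 2] (hU : S_uniq) {i j : ℕ} (hij : i ≤ j) {χ : AddChar K[X] ℝ}
    {r r'' : K[X]} (hr : MPer i χ r) (hr'' : r''.Monic) (hp : Per j χ r'')
    (hd : r.natDegree + r''.natDegree ≤ i) : Per j χ r := by
  obtain ⟨w, hw⟩ := hU K i χ r r'' hr hr'' (per_mono hij hp) hd
  have hwm : w.Monic := hr.1.of_mul_monic_left (hw ▸ hr'')
  have hdw : r''.natDegree = r.natDegree + w.natDegree := by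
    rw [hw, hr.1.natDegree_mul hwm]
  intro x hx
  have e : x %ₘ w + w * (x /ₘ w) = x := modByMonic_add_div x w
  obtain ⟨y, hy⟩ : ∃ y, y = x /ₘ w := ⟨_, rfl⟩
  obtain ⟨z, hz⟩ : ∃ z, z = x %ₘ w := ⟨_, rfl⟩
  have hzd : z.degree < w.degree := by rw [hz]; exact degree_modByMonic_lt x hwm
  have hyd : y ≠ 0 → y.natDegree + w.natDegree ≤ x.natDegree := by
    intro hy0
    rw [hy] at hy0 ⊢
    rw [natDegree_divByMonic x hwm]
    have h1 : w.natDegree ≤ x.natDegree := by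
      by_contra hlt
      apply hy0
      rw [divByMonic_eq_zero_iff hwm]
      apply degree_lt_degree
      omega
    omega
  rw [← hy, ← hz] at e
  have hrx : r * x = r'' * y + r * z := by
    rw [hw, ← e]
    ring
  have h1 : χ (r'' * y) = 1 := by
    by_cases hy0 : y = 0
    · rw [hy0, mul_zero]
      exact χ.map_zero_eq_one
    · apply hp
      have hx0 : x ≠ 0 := by
        intro hx0
        apply hy0
        rw [hy, hx0, zero_divByMonic]
      have hrx0 : r * x ≠ 0 := mul_ne_zero hr.1.ne_zero hx0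
      have h2 : (r * x).natDegree < j := (natDegree_lt_iff_degree_lt hrx0).mpr hx
      rw [natDegree_mul hr.1.ne_zero hx0] at h2
      have h3 : r'' * y ≠ 0 := mul_ne_zero hr''.ne_zero hy0
      apply (natDegree_lt_iff_degree_lt h3).mp
      rw [natDegree_mul hr''.ne_zero hy0]
      have := hyd hy0
      omega
  have h2 : χ (r * z) = 1 := by
    by_cases hz0 : z = 0
    · rw [hz0, mul_zero]
      exact χ.map_zero_eq_one
    · apply hr.2.1
      have h3 : r * z ≠ 0 := mul_ne_zero hr.1.ne_zero hz0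
      apply (natDegree_lt_iff_degree_lt h3).mp
      rw [natDegree_mul hr.1.ne_zero hz0]
      have := natDegree_lt_natDegree hz0 hzd
      omega
  rw [hrx, χ.map_add_eq_mul, h1, h2, one_mul]

end per

section real

variable {K : Type} [Field K] [Fintype K]

theorem q_two : (2 : ℝ) ≤ (Fintype.card K : ℝ) := by
  exact_mod_cast (Fintype.one_lt_card (α := K))

theorem fac_nonneg (f : K[X]) : 0 ≤ fac f := by
  have hq := q_two (K := K)
  unfold fac
  refine Finset.prod_nonneg ?_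
  intro P _
  have h1 : (1 : ℝ) ≤ (Fintype.card K : ℝ) ^ P.natDegree := one_le_pow₀ (by linarith)
  have h2 : 1 / (Fintype.card K : ℝ) ^ P.natDegree ≤ 1 := by
    rw [div_le_one (by linarith)]
    exact h1
  linarith

theorem fac_le_one (f : K[X]) : fac f ≤ 1 := by
  have hq := q_two (K := K)
  unfold fac
  refine Finset.prod_le_one ?_ ?_
  · intro P _
    have h1 : (1 : ℝ) ≤ (Fintype.card K : ℝ) ^ P.natDegree := one_le_pow₀ (by linarith)
    have h2 : 1 / (Fintype.card K : ℝ) ^ P.natDegree ≤ 1 := by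
      rw [div_le_one (by linarith)]
      exact h1
    linarith
  · intro P _
    have : 0 ≤ 1 / (Fintype.card K : ℝ) ^ P.natDegree := by positivity
    linarith

theorem G_inn {j n : ℕ} (hn : n ≤ j) (χ : AddChar K[X] ℝ) (χ0 δ : ℝ) (M : K[X] → ℝ)
    (h : ∀ s ∈ Mn K n, |(2 * (j : ℝ) + 1) * fac (X * s) * ∑ t ∈ Ts K (j - n) s, χ (s * t) -
      χ0 * (Fintype.card K : ℝ) ^ (j - n) * M s| ≤ (Fintype.card K : ℝ) ^ ((1 - δ) * j)) :
    |G K j n χ - χ0 * ((∑ s ∈ Mn K n, M s) / (Fintype.card K : ℝ) ^ n)| ≤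
      (Fintype.card K : ℝ) ^ ((n : ℝ) - δ * j) := by
  have hq2 := q_two (K := K)
  obtain ⟨q, hq⟩ : ∃ q : ℝ, q = (Fintype.card K : ℝ) := ⟨_, rfl⟩
  rw [← hq] at h hq2 ⊢
  have hq0 : 0 < q := by linarith
  have hqj : q ^ j = q ^ (j - n) * q ^ n := by
    rw [← pow_add]
    have : j - n + n = j := by omega
    rw [this]
  have e1 : G K j n χ = (∑ s ∈ Mn K n, (2 * (j : ℝ) + 1) * fac (X * s) *
      ∑ t ∈ Ts K (j - n) s, χ (s * t)) / q ^ j := by
    unfold G
    rw [← hq, Finset.sum_div, Finset.mul_sum]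
    refine Finset.sum_congr rfl (fun s _ => ?_)
    ring
  have e2 : χ0 * ((∑ s ∈ Mn K n, M s) / q ^ n) = (∑ s ∈ Mn K n, χ0 * q ^ (j - n) * M s) / q ^ j := by
    rw [← Finset.mul_sum, hqj]
    have h1 : q ^ (j - n) ≠ 0 := (pow_pos hq0 _).ne'
    have h2 : q ^ n ≠ 0 := (pow_pos hq0 _).ne'
    field_simp
  rw [e1, e2, ← sub_div, ← Finset.sum_sub_distrib, abs_div, abs_of_pos (pow_pos hq0 j),
    div_le_iff₀ (pow_pos hq0 j)]
  refine (Finset.abs_sum_le_sum_abs _ _).trans ((Finset.sum_le_sum h).trans ?_)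
  rw [Finset.sum_const, card_Mn, nsmul_eq_mul, Nat.cast_pow, ← hq, ← Real.rpow_natCast q j,
    ← Real.rpow_add hq0, ← Real.rpow_natCast q n, ← Real.rpow_add hq0]
  apply le_of_eq
  have : (n : ℝ) + (1 - δ) * j = n - δ * j + j := by ring
  rw [this]

theorem G_min {j n : ℕ} (χ : AddChar K[X] ℝ) (c : ℝ)
    (h : ∀ s ∈ Mn K n, |∑ t ∈ Ts K (j - n) s, χ (s * t)| ≤ (Fintype.card K : ℝ) ^ ((1 - c) * j)) :
    |G K j n χ| ≤ (2 * (j : ℝ) + 1) * (Fintype.card K : ℝ) ^ ((n : ℝ) - c * j) := by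
  have hq2 := q_two (K := K)
  obtain ⟨q, hq⟩ : ∃ q : ℝ, q = (Fintype.card K : ℝ) := ⟨_, rfl⟩
  rw [← hq] at h hq2 ⊢
  have hq0 : 0 < q := by linarith
  have hj : (0 : ℝ) ≤ 2 * (j : ℝ) + 1 := by positivity
  have h1 : |∑ s ∈ Mn K n, fac (X * s) * ∑ t ∈ Ts K (j - n) s, χ (s * t)| ≤
      q ^ (n : ℝ) * q ^ ((1 - c) * j) := by
    refine (Finset.abs_sum_le_sum_abs _ _).trans ?_
    have h2 : ∀ s ∈ Mn K n, |fac (X * s) * ∑ t ∈ Ts K (j - n) s, χ (s * t)| ≤ q ^ ((1 - c) * j) := by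
      intro s hs
      rw [abs_mul, abs_of_nonneg (fac_nonneg _)]
      calc fac (X * s) * |∑ t ∈ Ts K (j - n) s, χ (s * t)| ≤
          1 * |∑ t ∈ Ts K (j - n) s, χ (s * t)| :=
            mul_le_mul_of_nonneg_right (fac_le_one _) (abs_nonneg _)
        _ = |∑ t ∈ Ts K (j - n) s, χ (s * t)| := one_mul _
        _ ≤ _ := h s hs
    refine (Finset.sum_le_sum h2).trans ?_
    rw [Finset.sum_const, card_Mn, nsmul_eq_mul, Nat.cast_pow, ← hq, Real.rpow_natCast]
  unfold G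
  rw [← hq, abs_mul, abs_of_nonneg (div_nonneg hj (pow_pos hq0 j).le)]
  calc (2 * (j : ℝ) + 1) / q ^ j *
      |∑ s ∈ Mn K n, fac (X * s) * ∑ t ∈ Ts K (j - n) s, χ (s * t)| ≤
      (2 * (j : ℝ) + 1) / q ^ j * (q ^ (n : ℝ) * q ^ ((1 - c) * j)) :=
        mul_le_mul_of_nonneg_left h1 (div_nonneg hj (pow_pos hq0 j).le)
    _ = (2 * (j : ℝ) + 1) * ((q ^ (n : ℝ) * q ^ ((1 - c) * j)) / q ^ j) := by ring
    _ = (2 * (j : ℝ) + 1) * q ^ ((n : ℝ) - c * j) := by
        rw [← Real.rpow_add hq0, ← Real.rpow_natCast q j, ← Real.rpow_sub hq0]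
        have : (n : ℝ) + (1 - c) * j - j = n - c * j := by ring
        rw [this]

end real

/-- Polynomial against exponential. -/
theorem lin_le (q η : ℝ) (hq : 2 ≤ q) (hη : 0 < η) :
    ∃ D₀ : ℕ, ∀ D : ℕ, D₀ ≤ D → 2 * (D : ℝ) + 1 ≤ q ^ (η * D) := by
  have hq0 : 0 < q := by linarith
  obtain ⟨r, hr⟩ : ∃ r : ℝ, r = q ^ (-η) := ⟨_, rfl⟩
  have hr0 : 0 < r := by rw [hr]; exact Real.rpow_pos_of_pos hq0 _
  have hr1 : r < 1 := by
    rw [hr]
    exact Real.rpow_lt_one_of_one_lt_of_neg (by linarith) (by linarith)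
  have ht := tendsto_pow_const_mul_const_pow_of_abs_lt_one 1 (r := r)
    (by rw [abs_of_pos hr0]; exact hr1)
  have hev := ht.eventually (gt_mem_nhds (show (0 : ℝ) < 1 / 3 by norm_num))
  obtain ⟨D₀, hD₀⟩ := Filter.eventually_atTop.mp hev
  refine ⟨max D₀ 1, ?_⟩
  intro D hD
  have h1 := hD₀ D ((le_max_left _ _).trans hD)
  have h2 : (1 : ℝ) ≤ D := by exact_mod_cast (le_max_right _ _).trans hD
  rw [pow_one] at h1
  have e : q ^ (η * D) * r ^ D = 1 := by
    rw [hr, ← Real.rpow_natCast (q ^ (-η)) D, ← Real.rpow_mul hq0.le, ← Real.rpow_add hq0]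
    have : η * (D : ℝ) + -η * D = 0 := by ring
    rw [this, Real.rpow_zero]
  have hrD : 0 < r ^ D := pow_pos hr0 D
  have h3 : (2 * (D : ℝ) + 1) * r ^ D ≤ q ^ (η * D) * r ^ D := by
    rw [e]
    nlinarith
  exact le_of_mul_le_mul_right h3 hrD

theorem half_pow (q a b : ℝ) (hq : 2 ≤ q) (h : a ≤ b - 1) : q ^ a ≤ q ^ b / 2 := by
  have hq0 : 0 < q := by linarith
  have h1 : q ^ a ≤ q ^ (b - 1) := Real.rpow_le_rpow_of_exponent_le (by linarith) h
  have h2 : q ^ (b - 1) = q ^ b / q := by rw [Real.rpow_sub hq0, Real.rpow_one]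
  have h3 : q ^ b / q ≤ q ^ b / 2 :=
    div_le_div_of_nonneg_left (Real.rpow_nonneg hq0.le _) (by norm_num) hq
  linarith

/-- The choice of the parameters. -/
theorem params (q δ c₃ c₄ κ : ℝ) (hq : 2 ≤ q) (hδ : 0 < δ) (hc₃ : 0 < c₃) (hc₄ : 0 < c₄)
    (hκ : 0 < κ) (h1 : κ ≤ δ / 16) (h2 : κ ≤ c₄ / 16) :
    ∃ c : ℝ, 0 < c ∧ ∃ D₀ : ℕ, ∀ D : ℕ, D₀ ≤ D → ∀ n j : ℕ, (n : ℝ) ≤ κ * D → κ * D - 1 ≤ n →
      (D : ℝ) - 1 ≤ 2 * j → j ≤ D →
        q ^ ((n : ℝ) - δ * j) ≤ q ^ (-(c * D)) / 2 ∧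
        (2 * (j : ℝ) + 1) * q ^ ((n : ℝ) - c₄ * j) ≤ q ^ (-(c * D)) ∧
        q ^ (-(c₃ * n)) ≤ q ^ (-(c * D)) / 2 := by
  obtain ⟨DL, hDL⟩ := lin_le q (c₄ / 8) hq (by positivity)
  obtain ⟨c, hcdef⟩ : ∃ c : ℝ, c = min (δ / 4) (min (c₄ / 8) (c₃ * κ / 2)) := ⟨_, rfl⟩
  have hc : 0 < c := by
    rw [hcdef]
    exact lt_min (by positivity) (lt_min (by positivity) (by positivity))
  have hcδ : c ≤ δ / 4 := by rw [hcdef]; exact min_le_left _ _
  have hc4 : c ≤ c₄ / 8 := by rw [hcdef]; exact (min_le_right _ _).trans (min_le_left _ _)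
  have hc3 : c ≤ c₃ * κ / 2 := by rw [hcdef]; exact (min_le_right _ _).trans (min_le_right _ _)
  obtain ⟨D1, hD1⟩ : ∃ D1 : ℕ, (16 / (3 * δ)) * (δ / 2 + 1) ≤ D1 := exists_nat_ge _
  obtain ⟨D2, hD2⟩ : ∃ D2 : ℕ, 2 * (c₃ + 1) / (c₃ * κ) ≤ D2 := exists_nat_ge _
  refine ⟨c, hc, max (max D1 D2) (max DL 3), ?_⟩
  intro D hD n j hn1 hn2 hj1 hj2
  have hDD1 : D1 ≤ D := ((le_max_left _ _).trans (le_max_left _ _)).trans hD
  have hDD2 : D2 ≤ D := ((le_max_right _ _).trans (le_max_left _ _)).trans hD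
  have hDDL : DL ≤ D := ((le_max_left _ _).trans (le_max_right _ _)).trans hD
  have hDD3 : 3 ≤ D := ((le_max_right _ _).trans (le_max_right _ _)).trans hD
  have hDR1 : (16 / (3 * δ)) * (δ / 2 + 1) ≤ D := hD1.trans (by exact_mod_cast hDD1)
  have hDR2 : 2 * (c₃ + 1) / (c₃ * κ) ≤ D := hD2.trans (by exact_mod_cast hDD2)
  have hDR3 : (3 : ℝ) ≤ D := by exact_mod_cast hDD3
  have hjD : (j : ℝ) ≤ D := by exact_mod_cast hj2
  have hD0 : (0 : ℝ) ≤ D := by linarith
  have hκD1 : κ * D ≤ δ / 16 * D := mul_le_mul_of_nonneg_right h1 hD0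
  have hκD2 : κ * D ≤ c₄ / 16 * D := mul_le_mul_of_nonneg_right h2 hD0
  have hcD1 : c * D ≤ δ / 4 * D := mul_le_mul_of_nonneg_right hcδ hD0
  have hcD2 : c * D ≤ c₄ / 8 * D := mul_le_mul_of_nonneg_right hc4 hD0
  have hcD3 : c * D ≤ c₃ * κ / 2 * D := mul_le_mul_of_nonneg_right hc3 hD0
  refine ⟨?_, ?_, ?_⟩
  · apply half_pow q _ _ hq
    have a1 : δ * ((D : ℝ) - 1) ≤ δ * (2 * j) := mul_le_mul_of_nonneg_left hj1 hδ.le
    have a2 : δ / 2 + 1 ≤ 3 / 16 * (δ * D) := by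
      have b1 : (16 / (3 * δ)) * (δ / 2 + 1) * (3 * δ / 16) ≤ D * (3 * δ / 16) :=
        mul_le_mul_of_nonneg_right hDR1 (by positivity)
      have b2 : (16 / (3 * δ)) * (δ / 2 + 1) * (3 * δ / 16) = δ / 2 + 1 := by
        field_simp
      rw [b2] at b1
      linarith
    nlinarith
  · have hq0 : 0 < q := by linarith
    have a1 : 2 * (j : ℝ) + 1 ≤ q ^ (c₄ / 8 * D) := by
      have := hDL D hDDL
      linarith
    have a2 : (2 * (j : ℝ) + 1) * q ^ ((n : ℝ) - c₄ * j) ≤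
        q ^ (c₄ / 8 * D) * q ^ ((n : ℝ) - c₄ * j) :=
      mul_le_mul_of_nonneg_right a1 (Real.rpow_nonneg hq0.le _)
    refine a2.trans ?_
    rw [← Real.rpow_add hq0]
    apply Real.rpow_le_rpow_of_exponent_le (by linarith)
    have a3 : c₄ * ((D : ℝ) - 1) ≤ c₄ * (2 * j) := mul_le_mul_of_nonneg_left hj1 hc₄.le
    have a4 : c₄ * 3 ≤ c₄ * D := mul_le_mul_of_nonneg_left hDR3 hc₄.le
    nlinarith
  · apply half_pow q _ _ hq
    have a1 : c₃ * (κ * D - 1) ≤ c₃ * n := mul_le_mul_of_nonneg_left hn2 hc₃.le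
    have a2 : c₃ + 1 ≤ c₃ * κ / 2 * D := by
      have hpos : 0 < c₃ * κ := mul_pos hc₃ hκ
      rw [div_le_iff₀ hpos] at hDR2
      linarith
    nlinarith

/-- **Task GJ.** -/
theorem main : Pool.Agent.H290.FX.F.S_tgj := by
  intro hU hcvx hpos hmid hinn hmins K _ _ _
  have hq2 := q_two (K := K)
  obtain ⟨δ, θ, hδ, hθ, dI, hI⟩ := hinn K
  obtain ⟨c₃, hc₃, nM, hM⟩ := hmid K
  obtain ⟨-, hcv2, hcv3⟩ := hcvx K
  obtain ⟨τ, hτ⟩ : ∃ τ : ℝ, τ = min θ 1 / 16 := ⟨_, rfl⟩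
  have hτ0 : 0 < τ := by
    rw [hτ]
    have : 0 < min θ 1 := lt_min hθ one_pos
    positivity
  have hτθ : τ ≤ θ / 16 := by
    rw [hτ]
    have := min_le_left θ 1
    linarith
  have hτ1 : τ ≤ 1 / 16 := by
    rw [hτ]
    have := min_le_right θ 1
    linarith
  obtain ⟨c₄, hc₄, dS, hS⟩ := hmins K (τ / 2) (by positivity)
  obtain ⟨κ, hκ⟩ : ∃ κ : ℝ, κ = min (τ / 8) (min (δ / 16) (c₄ / 16)) := ⟨_, rfl⟩
  have hκ0 : 0 < κ := by
    rw [hκ]
    exact lt_min (by positivity) (lt_min (by positivity) (by positivity))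
  have hκτ : κ ≤ τ / 8 := by rw [hκ]; exact min_le_left _ _
  have hκδ : κ ≤ δ / 16 := by rw [hκ]; exact (min_le_right _ _).trans (min_le_left _ _)
  have hκc : κ ≤ c₄ / 16 := by rw [hκ]; exact (min_le_right _ _).trans (min_le_right _ _)
  obtain ⟨c, hc, D₁, hP⟩ := params (Fintype.card K : ℝ) δ c₃ c₄ κ hq2 hδ hc₃ hc₄ hκ0 hκδ hκc
  obtain ⟨D₂, hD₂⟩ : ∃ D₂ : ℕ, ((nM : ℝ) + 1) / κ ≤ D₂ := exists_nat_ge _
  obtain ⟨D₃, hD₃⟩ : ∃ D₃ : ℕ, 8 / (3 * τ) ≤ D₃ := exists_nat_ge _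
  refine ⟨κ, c, hκ0, by linarith, hc, max (max D₁ (2 * dI + 2)) (max (max (2 * dS + 2) D₂) (max D₃ 4)), ?_⟩
  intro D hD
  have hDD₁ : D₁ ≤ D := ((le_max_left _ _).trans (le_max_left _ _)).trans hD
  have hDI : 2 * dI + 2 ≤ D := ((le_max_right _ _).trans (le_max_left _ _)).trans hD
  have hDS : 2 * dS + 2 ≤ D :=
    (((le_max_left _ _).trans (le_max_left _ _)).trans (le_max_right _ _)).trans hD
  have hDD₂ : D₂ ≤ D :=
    (((le_max_right _ _).trans (le_max_left _ _)).trans (le_max_right _ _)).trans hD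
  have hDD₃ : D₃ ≤ D :=
    (((le_max_left _ _).trans (le_max_right _ _)).trans (le_max_right _ _)).trans hD
  have hD4 : 4 ≤ D :=
    (((le_max_right _ _).trans (le_max_right _ _)).trans (le_max_right _ _)).trans hD
  have hDr4 : (4 : ℝ) ≤ D := by exact_mod_cast hD4
  have hD0 : (0 : ℝ) ≤ D := by linarith
  obtain ⟨n, hn⟩ : ∃ n : ℕ, n = ⌊κ * D⌋₊ := ⟨_, rfl⟩
  obtain ⟨T, hT⟩ : ∃ T : ℕ, T = ⌊τ * D⌋₊ := ⟨_, rfl⟩
  rw [← hn]
  have hn1 : (n : ℝ) ≤ κ * D := by rw [hn]; exact Nat.floor_le (by positivity)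
  have hn2 : κ * D - 1 ≤ n := by
    have := Nat.lt_floor_add_one (κ * D)
    rw [← hn] at this
    linarith
  have hT1 : (T : ℝ) ≤ τ * D := by rw [hT]; exact Nat.floor_le (by positivity)
  have hT2 : τ * D - 1 ≤ T := by
    have := Nat.lt_floor_add_one (τ * D)
    rw [← hT] at this
    linarith
  have hκD : κ * D ≤ τ / 8 * D := mul_le_mul_of_nonneg_right hκτ hD0
  have hτD : τ * D ≤ 1 / 16 * D := mul_le_mul_of_nonneg_right hτ1 hD0
  have hτθD : τ * D ≤ θ / 16 * D := mul_le_mul_of_nonneg_right hτθ hD0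
  have hnT : n ≤ T := by
    rw [hn, hT]
    apply Nat.floor_le_floor
    nlinarith
  have hnM : nM ≤ n := by
    have h1 : (nM : ℝ) + 1 ≤ κ * D := by
      have h2 : ((nM : ℝ) + 1) / κ ≤ D := hD₂.trans (by exact_mod_cast hDD₂)
      rw [div_le_iff₀ hκ0] at h2
      linarith
    have h2 : (nM : ℝ) ≤ n := by linarith
    exact_mod_cast h2
  have hτbig : 1 ≤ 3 / 8 * (τ * D) := by
    have h2 : 8 / (3 * τ) ≤ D := hD₃.trans (by exact_mod_cast hDD₃)
    rw [div_le_iff₀ (by positivity)] at h2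
    linarith
  obtain ⟨j₁, hj₁⟩ : ∃ j₁ : ℕ, j₁ = D / 2 := ⟨_, rfl⟩
  rw [← hj₁]
  have hj₁D : D ≤ 2 * j₁ + 1 := by omega
  have hlev : ∀ j : ℕ, j₁ ≤ j → (D : ℝ) - 1 ≤ 2 * j := by
    intro j hj
    have h1 : D ≤ 2 * j + 1 := by omega
    have h2 : (D : ℝ) ≤ 2 * j + 1 := by exact_mod_cast h1
    linarith
  have hTj₁ : T + n ≤ j₁ := by
    have h1 := hlev j₁ le_rfl
    have h2 : (T : ℝ) + n ≤ j₁ := by nlinarith
    exact_mod_cast h2
  obtain ⟨E, hE⟩ : ∃ E : ℝ, E = (Fintype.card K : ℝ) ^ (-(c * D)) := ⟨_, rfl⟩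
  have hE0 : 0 < E := by rw [hE]; exact Real.rpow_pos_of_pos (by linarith) _
  rw [← hE]
  have hqn : (0 : ℝ) < (Fintype.card K : ℝ) ^ n := pow_pos (by linarith) n
  -- the minor characters
  have hsmall : ∀ (χ : AddChar K[X] ℝ) (j t : ℕ), j₁ ≤ j → j < D → τ / 2 * D ≤ t →
      Minor j (t + n) χ → |G K j n χ| ≤ E := by
    intro χ j t hj hjD ht hmin
    obtain ⟨-, h2, -⟩ := hP D hDD₁ n j hn1 hn2 (hlev j hj) hjD.le
    rw [← hE] at h2
    refine le_trans (G_min χ c₄ ?_) h2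
    intro s hs
    refine hS j (j - n) n t s χ (by omega) ?_ (by omega) hs hmin
    have h3 : (j : ℝ) ≤ D := by exact_mod_cast hjD.le
    nlinarith
  -- the major characters
  have hbig : ∀ (χ : AddChar K[X] ℝ) (r : K[X]) (j : ℕ), j₁ ≤ j → j < D → MPer j χ r →
      r.natDegree ≤ T →
      |G K j n χ - χ (r * X ^ (j - r.natDegree)) * ((∑ s ∈ Mn K n, Mv χ r s) /
        (Fintype.card K : ℝ) ^ n)| ≤ E / 2 := by
    intro χ r j hj hjD hr hrT
    obtain ⟨h1, -, -⟩ := hP D hDD₁ n j hn1 hn2 (hlev j hj) hjD.le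
    rw [← hE] at h1
    have hjr := hlev j hj
    refine le_trans (G_inn (by omega) χ _ δ _ ?_) h1
    intro s hs
    have h3 : (r.natDegree : ℝ) ≤ T := by exact_mod_cast hrT
    refine hI j (j - n) n s r χ (by omega) (by omega) hs ?_ hr ?_
    · nlinarith
    · nlinarith
  -- not a period on a higher level
  have hnot : ∀ (χ : AddChar K[X] ℝ) (r : K[X]) (j : ℕ), j₁ ≤ j → j < D → MPer j₁ χ r →
      r.natDegree ≤ T → ¬ Per j χ r → |G K j n χ| ≤ E := by
    intro χ r j hj hjD hr hrT hper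
    refine hsmall χ j (j₁ - T - n) hj hjD ?_ ?_
    · have h1 := hlev j₁ le_rfl
      have h2 : ((j₁ - T - n : ℕ) : ℝ) = (j₁ : ℝ) - T - n := by
        rw [Nat.cast_sub (by omega), Nat.cast_sub (by omega)]
      rw [h2]
      nlinarith
    · apply minor_of
      intro r'' hm hd hp
      apply hper
      refine per_ext hU hj hr hm hp ?_
      omega
  have hchi : ∀ (χ : AddChar K[X] ℝ) (a : K[X]), |χ a| = 1 := by
    intro χ a
    rcases chi_pm χ a with h | h
    · rw [h, abs_one]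
    · rw [h, abs_neg, abs_one]
  have hsum_card : ∑ _s ∈ Mn K n, (1 : ℝ) = (Fintype.card K : ℝ) ^ n := by
    rw [Finset.sum_const, card_Mn, nsmul_eq_mul, mul_one, Nat.cast_pow]
  refine ⟨?_, ?_⟩
  · intro j hj hjD
    have hm1 : MPer j (1 : AddChar K[X] ℝ) (1 : K[X]) := by
      refine ⟨monic_one, fun s _ => ?_, fun r' _ hd => ?_⟩
      · rfl
      · rw [natDegree_one] at hd
        omega
    have h1 := hbig 1 1 j hj hjD hm1 (by rw [natDegree_one]; omega)
    have h2 : ∑ s ∈ Mn K n, Mv (1 : AddChar K[X] ℝ) (1 : K[X]) s = (Fintype.card K : ℝ) ^ n := by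
      rw [← hsum_card]
      refine Finset.sum_congr rfl ?_
      intro s hs
      exact hcv3 1 s (mem_Mn.1 hs).1.ne_zero
    rw [h2, div_self hqn.ne'] at h1
    have h3 : (1 : AddChar K[X] ℝ) (1 * X ^ (j - (1 : K[X]).natDegree)) = 1 := rfl
    rw [h3, one_mul] at h1
    linarith
  · intro χ
    obtain ⟨r, hr⟩ := exists_mper j₁ χ
    by_cases hcase3 : T < r.natDegree
    · -- large period
      refine ⟨0, 0, le_rfl, zero_le_one, ?_⟩
      intro j hj hjD
      have hb : |G K j n χ| ≤ E := by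
        refine hsmall χ j (T - n) hj hjD ?_ ?_
        · rw [Nat.cast_sub hnT]
          nlinarith
        · apply minor_of
          intro r' hm hd hp
          refine hr.2.2 r' hm ?_ (per_mono hj hp)
          omega
      refine ⟨fun h => absurd h (by omega), fun h => ?_, fun _ => hb⟩
      rw [zero_add]
      exact hb
    · have hrT : r.natDegree ≤ T := not_lt.mp hcase3
      by_cases hcase2 : n < r.natDegree
      · -- period of medium degree
        refine ⟨0, 0, le_rfl, zero_le_one, ?_⟩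
        intro j hj hjD
        have hb : |G K j n χ| ≤ E := by
          by_cases hper : Per j χ r
          · have hmj := mper_up hj hr hper
            have h1 := hbig χ r j hj hjD hmj hrT
            have h2 := hM n r χ hnM hr.1 hcase2
            obtain ⟨-, -, h3⟩ := hP D hDD₁ n j hn1 hn2 (hlev j hj) hjD.le
            rw [← hE] at h3
            have h4 : |χ (r * X ^ (j - r.natDegree)) * ((∑ s ∈ Mn K n, Mv χ r s) /
                (Fintype.card K : ℝ) ^ n)| ≤ E / 2 := by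
              rw [abs_mul, hchi, one_mul, abs_div, abs_of_pos hqn]
              refine le_trans ?_ h3
              rw [div_le_iff₀ hqn]
              refine h2.trans (le_of_eq ?_)
              rw [← Real.rpow_natCast _ n, ← Real.rpow_add (by linarith)]
              have : (1 - c₃) * (n : ℝ) = -(c₃ * n) + n := by ring
              rw [this]
            have h5 := abs_sub_abs_le_abs_sub (G K j n χ)
              (χ (r * X ^ (j - r.natDegree)) * ((∑ s ∈ Mn K n, Mv χ r s) /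
                (Fintype.card K : ℝ) ^ n))
            linarith
          · exact hnot χ r j hj hjD hr hrT hper
        refine ⟨fun h => absurd h (by omega), fun h => ?_, fun _ => hb⟩
        rw [zero_add]
        exact hb
      · -- small period
        have hrn : r.natDegree ≤ n := not_lt.mp hcase2
        obtain ⟨g, hg⟩ : ∃ g : ℝ, g = (∑ s ∈ Mn K n, Mv χ r s) / (Fintype.card K : ℝ) ^ n :=
          ⟨_, rfl⟩
        have hg0 : 0 ≤ g := by
          rw [hg]
          exact div_nonneg (hpos K n r χ hr.1 hrn) hqn.le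
        have hg1 : g ≤ 1 := by
          rw [hg, div_le_one hqn, ← hsum_card]
          refine Finset.sum_le_sum ?_
          intro s hs
          exact (le_abs_self _).trans (hcv2 χ r s hr.1 (mem_Mn.1 hs).1.ne_zero)
        have hj₁D' : j₁ ≤ D := by omega
        obtain ⟨J, hJ⟩ : ∃ J : ℕ, J = Nat.findGreatest (fun m => Per m χ r) D := ⟨_, rfl⟩
        have hJper : Per J χ r := by
          rw [hJ]
          exact Nat.findGreatest_spec (P := fun m => Per m χ r) hj₁D' hr.2.1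
        refine ⟨g, J, hg0, hg1, ?_⟩
        intro j hj hjD
        refine ⟨fun h => ?_, fun h => ?_, fun h => ?_⟩
        · have hmj := mper_up hj hr (per_mono h.le hJper)
          have h1 := hbig χ r j hj hjD hmj hrT
          have h2 : χ (r * X ^ (j - r.natDegree)) = 1 := by
            apply hJper
            have h3 : r * X ^ (j - r.natDegree) ≠ 0 := mul_ne_zero hr.1.ne_zero (pow_ne_zero _ X_ne_zero)
            apply (natDegree_lt_iff_degree_lt h3).mp
            rw [natDegree_mul hr.1.ne_zero (pow_ne_zero _ X_ne_zero), natDegree_X_pow]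
            omega
          rw [← hg, h2, one_mul] at h1
          linarith
        · have hmj := mper_up hj hr (per_mono h.le hJper)
          have h1 := hbig χ r j hj hjD hmj hrT
          rw [← hg] at h1
          have h5 := abs_sub_abs_le_abs_sub (G K j n χ) (χ (r * X ^ (j - r.natDegree)) * g)
          rw [abs_mul, hchi, one_mul, abs_of_nonneg hg0] at h5
          linarith
        · refine hnot χ r j hj hjD hr hrT ?_
          rw [hJ] at h
          exact Nat.findGreatest_is_greatest (P := fun m => Per m χ r) h hjD.le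

end Pool.Agent.H290.FX.PFgj
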