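import Pool.Agent.H290.FX.StmF
import Pool.Agent.H604.LD.HidG

/-!
# Task HIDO (helper997): the divisor identity for odd degree, from `Pool.Agent.H604.LD.hidg`
-/

set_option autoImplicit false

namespace Pool.Agent.H290.FX.PFhido

open Polynomial
open scoped Classical

/-- **Task HIDO.** -/
theorem main : Pool.Agent.H290.FX.F.S_hido := by
  intro K _ _ j f hf hs hdeg
  have h := Pool.Agent.H604.LD.hidg K (2 * j + 1) f (by omega) hf hs hdeg
  have h1 : (2 * j + 1) / 2 + 1 = j + 1 := by omega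
  have h2 : (((2 * j + 1 : ℕ) : ℝ)) / 2 = (j : ℝ) + 1 / 2 := by
    push_cast
    ring
  have h3 : (((2 * j + 1 : ℕ) : ℝ)) = 2 * (j : ℝ) + 1 := by
    push_cast
    ring
  rw [h1, h2, h3] at h
  exact h

end Pool.Agent.H290.FX.PFhido
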