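import Pool.Agent.H290.FX.StmF

/-!
# The sum for fixed `s` and small minimal period (helper282)
-/

set_option autoImplicit false

namespace Pool.Agent.H290.FX.PFinn

open Polynomial
open scoped Classical
open Pool.Agent.H290.FX
open Pool.Agent.H290.FX.F
open Pool.Agent.H694.Typ (Mn mem_Mn)

section alg

variable {K : Type} [Field K]

theorem split {s r : K[X]} (hs : s.Monic) (hr : r.Monic) :
    ∃ g u v : K[X], g.Monic ∧ u.Monic ∧ v.Monic ∧ r = g * v ∧ s = g * u ∧ IsCoprime u v := by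
  obtain ⟨g₀, hg₀⟩ : ∃ g₀, g₀ = EuclideanDomain.gcd s r := ⟨_, rfl⟩
  have hgs : g₀ ∣ s := by rw [hg₀]; exact EuclideanDomain.gcd_dvd_left s r
  have hgr : g₀ ∣ r := by rw [hg₀]; exact EuclideanDomain.gcd_dvd_right s r
  have hg0 : g₀ ≠ 0 := fun h => hs.ne_zero (zero_dvd_iff.1 (h ▸ hgs))
  have hlc : g₀.leadingCoeff ≠ 0 := leadingCoeff_ne_zero.2 hg0
  obtain ⟨e, he⟩ : ∃ e : K[X], e = C (g₀.leadingCoeff)⁻¹ := ⟨_, rfl⟩
  obtain ⟨g, hg⟩ : ∃ g, g = g₀ * e := ⟨_, rfl⟩
  have hgm : g.Monic := by rw [hg, he]; exact monic_mul_leadingCoeff_inv hg0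
  have hge : g₀ = g * C g₀.leadingCoeff := by
    rw [hg, he, mul_assoc, ← C_mul, inv_mul_cancel₀ hlc, C_1, mul_one]
  have hdvd : ∀ x, g₀ ∣ x → g ∣ x := fun x hx =>
    dvd_trans ⟨C g₀.leadingCoeff, hge⟩ hx
  obtain ⟨u, hu⟩ := hdvd s hgs
  obtain ⟨v, hv⟩ := hdvd r hgr
  refine ⟨g, u, v, hgm, ?_, ?_, hv, hu, ?_⟩
  · exact hgm.of_mul_monic_left (hu ▸ hs)
  · exact hgm.of_mul_monic_left (hv ▸ hr)
  · have h1 := EuclideanDomain.gcd_eq_gcd_ab s r
    obtain ⟨a, ha⟩ : ∃ a, a = EuclideanDomain.gcdA s r := ⟨_, rfl⟩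
    obtain ⟨b, hb⟩ : ∃ b, b = EuclideanDomain.gcdB s r := ⟨_, rfl⟩
    rw [← hg₀, ← ha, ← hb] at h1
    refine ⟨a * e, b * e, ?_⟩
    have h2 : g * (a * e * u + b * e * v) = g * 1 := by
      have h3 : g * (a * e * u + b * e * v) = (g * u * a + g * v * b) * e := by ring
      rw [h3, ← hu, ← hv, ← h1, ← hg, mul_one]
    exact mul_left_cancel₀ hgm.ne_zero h2

theorem rem_iff {v t c : K[X]} (hv : v.Monic) (hc : c.degree < v.degree) :
    t %ₘ v = c ↔ v ∣ t - c := by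
  constructor
  · intro h
    refine ⟨t /ₘ v, ?_⟩
    have h1 := modByMonic_add_div t v
    rw [h] at h1
    linear_combination -h1
  · intro h
    rw [modByMonic_eq_of_dvd_sub hv h]
    exact (modByMonic_eq_self_iff hv).2 hc

theorem val {j k n : ℕ} {χ : AddChar K[X] ℝ} {s r g u v t c : K[X]} (hkn : k + n = j)
    (hper : Per j χ r) (hr : r.Monic) (hs : s.Monic) (hsn : s.natDegree = n) (hrj : r.natDegree ≤ j)
    (ht : t.Monic) (htk : t.natDegree = k) (hrg : r = g * v) (hsg : s = g * u)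
    (hc : c.degree < (k : WithBot ℕ)) (hd : v ∣ t - c) :
    χ (s * t) = χ (r * X ^ (j - r.natDegree)) * χ (s * c) := by
  obtain ⟨w, hw⟩ := hd
  have htd : t.degree = (k : WithBot ℕ) := by rw [degree_eq_natDegree ht.ne_zero, htk]
  have hm : (t - c).Monic := by
    rw [sub_eq_add_neg]
    exact ht.add_of_left (by rw [degree_neg, htd]; exact hc)
  have hmd : (t - c).natDegree = k := by
    have : (t - c).degree = (k : WithBot ℕ) := by
      rw [sub_eq_add_neg, degree_add_eq_left_of_degree_lt (by rw [degree_neg, htd]; exact hc), htd]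
    exact natDegree_eq_of_degree_eq_some this
  have h1 : (s * (t - c)).Monic := hs.mul hm
  have h2 : (s * (t - c)).natDegree = j := by
    rw [hs.natDegree_mul hm, hsn, hmd]
    omega
  have h3 : (r * X ^ (j - r.natDegree)).Monic := hr.mul (monic_X_pow _)
  have h4 : (r * X ^ (j - r.natDegree)).natDegree = j := by
    rw [hr.natDegree_mul (monic_X_pow _), natDegree_X_pow]
    omega
  have h5 : (s * (t - c) - r * X ^ (j - r.natDegree)).degree < (j : WithBot ℕ) := by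
    have h6 : (s * (t - c)).degree = (r * X ^ (j - r.natDegree)).degree := by
      rw [degree_eq_natDegree h1.ne_zero, degree_eq_natDegree h3.ne_zero, h2, h4]
    have h7 := degree_sub_lt_left h6 h1.ne_zero (by rw [h1.leadingCoeff, h3.leadingCoeff])
    rwa [degree_eq_natDegree h1.ne_zero, h2] at h7
  have h8 : s * (t - c) - r * X ^ (j - r.natDegree) = r * (u * w - X ^ (j - r.natDegree)) := by
    rw [hw, mul_sub, hsg]
    nth_rewrite 3 [hrg]
    ring
  rw [h8] at h5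
  have h9 := hper _ h5
  have h10 : s * t = r * X ^ (j - r.natDegree) + s * c + r * (u * w - X ^ (j - r.natDegree)) := by
    rw [← h8]
    ring
  rw [h10, χ.map_add_eq_mul, χ.map_add_eq_mul, h9, mul_one]

end alg

variable {K : Type} [Field K] [Fintype K]

theorem fac_term (P : K[X]) : 0 ≤ 1 - 1 / (Fintype.card K : ℝ) ^ P.natDegree ∧
    1 - 1 / (Fintype.card K : ℝ) ^ P.natDegree ≤ 1 := by
  have hq : (1 : ℝ) ≤ Fintype.card K := by exact_mod_cast Fintype.card_pos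
  have h1 : (1 : ℝ) ≤ (Fintype.card K : ℝ) ^ P.natDegree := one_le_pow₀ hq
  have h2 : 1 / (Fintype.card K : ℝ) ^ P.natDegree ≤ 1 := by
    rw [div_le_one (by linarith)]
    exact h1
  have h3 : 0 ≤ 1 / (Fintype.card K : ℝ) ^ P.natDegree := by positivity
  constructor <;> linarith

theorem fac_nonneg (f : K[X]) : 0 ≤ fac f :=
  Finset.prod_nonneg fun P _ => (fac_term P).1

theorem fac_le_one (f : K[X]) : fac f ≤ 1 :=
  Finset.prod_le_one (fun P _ => (fac_term P).1) fun P _ => (fac_term P).2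

theorem sum_split {v : K[X]} (hv : v.Monic) (T : Finset K[X]) (f : K[X] → ℝ) :
    ∑ t ∈ T, f t = ∑ c ∈ Vs K v.natDegree, ∑ t ∈ T.filter (fun t => v ∣ t - c), f t := by
  have h1 : ∀ t ∈ T, t %ₘ v ∈ Vs K v.natDegree := by
    intro t _
    rw [mem_Vs, ← degree_eq_natDegree hv.ne_zero]
    exact degree_modByMonic_lt t hv
  rw [← Finset.sum_fiberwise_of_maps_to h1 f]
  refine Finset.sum_congr rfl fun c hc => ?_
  rw [mem_Vs, ← degree_eq_natDegree hv.ne_zero] at hc
  refine Finset.sum_congr ?_ fun _ _ => rfl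
  ext t
  rw [Finset.mem_filter, Finset.mem_filter, rem_iff hv hc]

theorem main : S_tinn := by
  intro hcls hrf K _ _ _
  obtain ⟨δ₁, θ₁, hδ₁, hθ₁, d₁, H⟩ := hcls K
  obtain ⟨δ₂, hδ₂⟩ : ∃ δ₂ : ℝ, δ₂ = min δ₁ 1 := ⟨_, rfl⟩
  have hδ20 : 0 < δ₂ := by rw [hδ₂]; exact lt_min hδ₁ one_pos
  have hδ21 : δ₂ ≤ δ₁ := by rw [hδ₂]; exact min_le_left _ _
  have hδ2o : δ₂ ≤ 1 := by rw [hδ₂]; exact min_le_right _ _
  obtain ⟨θ, hθ⟩ : ∃ θ : ℝ, θ = min (θ₁ / 2) (min (1 / 16) (δ₂ / 2)) := ⟨_, rfl⟩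
  have hθ0 : 0 < θ := by rw [hθ]; positivity
  have hθ1 : θ ≤ θ₁ / 2 := by rw [hθ]; exact min_le_left _ _
  have hθ2 : θ ≤ 1 / 16 := by rw [hθ]; exact (min_le_right _ _).trans (min_le_left _ _)
  have hθ3 : θ ≤ δ₂ / 2 := by rw [hθ]; exact (min_le_right _ _).trans (min_le_right _ _)
  refine ⟨δ₂ / 2, θ, by positivity, hθ0, 2 * d₁ + 1, ?_⟩
  intro j k n s r χ hj hkn hs hn hmp hrd
  obtain ⟨hsm, hsn⟩ := mem_Mn.1 hs
  obtain ⟨g, u, v, hg, hu, hv, hrg, hsg, hcop⟩ := split hsm hmp.1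
  obtain ⟨q, hq⟩ : ∃ q : ℝ, q = (Fintype.card K : ℝ) := ⟨_, rfl⟩
  have hq1 : 1 ≤ q := by rw [hq]; exact_mod_cast Fintype.card_pos
  have hjr : (j : ℝ) = k + n := by rw [← hkn]; push_cast; ring
  have hj1 : (2 * d₁ + 1 : ℝ) ≤ j := by exact_mod_cast hj
  have hd0 : (0 : ℝ) ≤ d₁ := Nat.cast_nonneg _
  have hn0 : (0 : ℝ) ≤ n := Nat.cast_nonneg _
  have hjpos : (0 : ℝ) < j := by linarith
  have hθj : θ * j ≤ j / 16 := by nlinarith
  have hk : (j : ℝ) / 2 ≤ k := by linarith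
  have hdk : d₁ ≤ k := by
    have : (d₁ : ℝ) ≤ k := by linarith
    exact_mod_cast this
  have hvr : v.natDegree ≤ r.natDegree := by
    rw [hrg, hg.natDegree_mul hv]
    omega
  have hvr' : (v.natDegree : ℝ) ≤ r.natDegree := by exact_mod_cast hvr
  have hjk : θ * j ≤ θ₁ * k := by nlinarith
  have hvk : v.natDegree ≤ k := by
    have : (v.natDegree : ℝ) ≤ k := by linarith
    exact_mod_cast this
  have hrj : r.natDegree ≤ j := by
    have : (r.natDegree : ℝ) ≤ j := by linarith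
    exact_mod_cast this
  have h2rs : 2 * (r.natDegree + s.natDegree) < j := by
    rw [hsn]
    have : (2 * (r.natDegree + n) : ℝ) < j := by linarith
    exact_mod_cast this
  obtain ⟨ε, hε⟩ : ∃ ε : ℝ, ε = χ (r * X ^ (j - r.natDegree)) := ⟨_, rfl⟩
  have hε1 : |ε| = 1 := by rw [hε]; exact PExp.abs_one χ _
  have hsum : ∑ t ∈ Ts K k s, χ (s * t) = ∑ c ∈ Vs K v.natDegree, ε * χ (s * c) *
      (((Ts K k s).filter (fun t => v ∣ t - c)).card : ℝ) := by
    rw [sum_split hv]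
    refine Finset.sum_congr rfl fun c hc => ?_
    rw [mem_Vs] at hc
    rw [mul_comm, ← nsmul_eq_mul, ← Finset.sum_const]
    refine Finset.sum_congr rfl fun t ht => ?_
    rw [Finset.mem_filter] at ht
    obtain ⟨ht1, ht2⟩ := ht
    unfold Ts at ht1
    rw [Finset.mem_filter] at ht1
    obtain ⟨htm, htk⟩ := mem_Mn.1 ht1.1
    rw [hε]
    exact val hkn hmp.2.1 hmp.1 hsm hsn hrj htm htk hrg hsg
      (hc.trans_le (by exact_mod_cast hvk)) ht2
  have hmain : ε * q ^ k * Mv χ r s = fac (X * s) * ∑ c ∈ Vs K v.natDegree, ε * χ (s * c) *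
      (if IsCoprime (X * (s * c) ^ 2 + 1) v then q ^ k / q ^ v.natDegree / fac (X * s * v)
        else 0) := by
    rw [← hrf K j χ r s v g u hmp hsm hg hv hrg hsg hcop h2rs, ← hq, Finset.sum_filter,
      Finset.mul_sum, Finset.mul_sum, Finset.mul_sum]
    refine Finset.sum_congr rfl fun c _ => ?_
    split_ifs with hc
    · ring
    · ring
  have hdiff : (2 * (j : ℝ) + 1) * fac (X * s) * ∑ t ∈ Ts K k s, χ (s * t) -
      ε * q ^ k * Mv χ r s = fac (X * s) * ∑ c ∈ Vs K v.natDegree, ε * χ (s * c) *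
        ((2 * ((k : ℝ) + n) + 1) * (((Ts K k s).filter (fun t => v ∣ t - c)).card : ℝ) -
          (if IsCoprime (X * (s * c) ^ 2 + 1) v then q ^ k / q ^ v.natDegree / fac (X * s * v)
            else 0)) := by
    rw [hsum, hmain, hjr]
    simp only [mul_sub, Finset.sum_sub_distrib]
    rw [Finset.mul_sum]
    congr 1
    rw [Finset.mul_sum]
    refine Finset.sum_congr rfl fun c _ => ?_
    ring
  rw [← hε, ← hq, hdiff, abs_mul, abs_of_nonneg (fac_nonneg _)]
  have hbd : |∑ c ∈ Vs K v.natDegree, ε * χ (s * c) *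
        ((2 * ((k : ℝ) + n) + 1) * (((Ts K k s).filter (fun t => v ∣ t - c)).card : ℝ) -
          (if IsCoprime (X * (s * c) ^ 2 + 1) v then q ^ k / q ^ v.natDegree / fac (X * s * v)
            else 0))| ≤ q ^ v.natDegree * q ^ ((1 - δ₁) * k) := by
    refine (Finset.abs_sum_le_sum_abs _ _).trans ?_
    have h1 : ∀ c ∈ Vs K v.natDegree, |ε * χ (s * c) *
        ((2 * ((k : ℝ) + n) + 1) * (((Ts K k s).filter (fun t => v ∣ t - c)).card : ℝ) -
          (if IsCoprime (X * (s * c) ^ 2 + 1) v then q ^ k / q ^ v.natDegree / fac (X * s * v)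
            else 0))| ≤ q ^ ((1 - δ₁) * k) := by
      intro c _
      rw [abs_mul, abs_mul, hε1, PExp.abs_one, one_mul, one_mul]
      have h2 := H k n s v c hdk hs hv (by linarith) (by linarith)
      rw [← hq] at h2
      exact h2
    refine (Finset.sum_le_sum h1).trans (le_of_eq ?_)
    rw [Finset.sum_const, card_Vs, nsmul_eq_mul, hq]
    push_cast
    rfl
  calc fac (X * s) * |∑ c ∈ Vs K v.natDegree, ε * χ (s * c) *
        ((2 * ((k : ℝ) + n) + 1) * (((Ts K k s).filter (fun t => v ∣ t - c)).card : ℝ) -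
          (if IsCoprime (X * (s * c) ^ 2 + 1) v then q ^ k / q ^ v.natDegree / fac (X * s * v)
            else 0))|
      ≤ 1 * (q ^ v.natDegree * q ^ ((1 - δ₁) * k)) := by
        gcongr
        exact fac_le_one _
    _ = q ^ ((v.natDegree : ℝ) + (1 - δ₁) * k) := by
        rw [one_mul, Real.rpow_add (by linarith), Real.rpow_natCast]
    _ ≤ q ^ ((1 - δ₂ / 2) * j) := by
        apply Real.rpow_le_rpow_of_exponent_le hq1
        have hk0 : (0 : ℝ) ≤ k := Nat.cast_nonneg _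
        nlinarith

end Pool.Agent.H290.FX.PFinn
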