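import Pool.Agent.H290.FX.StmF

/-!
# Task MID: the main term for the periods of degree `> n`
-/

set_option autoImplicit false

namespace Pool.Agent.H290.FX.PFmid

open Polynomial
open scoped Classical
open Pool.Agent.H290.FX
open Pool.Agent.H290.FX.F
open Pool.Agent.H290.FX.PExp (ph ph_ge nf)
open Pool.Agent.H985.Chow (mob)
open Pool.Agent.H694.Typ (Mn mem_Mn card_Mn)

/-- The multiples of a monic polynomial. -/
theorem card_mult {K : Type} [Field K] [Fintype K] {g : K[X]} (hg : g.Monic) (n : ℕ) :
    (((Mn K n).filter (fun s => g ∣ s)).card : ℝ) ≤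
      if g.natDegree ≤ n then (Fintype.card K : ℝ) ^ (n - g.natDegree) else 0 := by
  split_ifs with h
  · have h1 : (Mn K n).filter (fun s => g ∣ s) ⊆ (Mn K (n - g.natDegree)).image (fun u => g * u) := by
      intro s hs
      rw [Finset.mem_filter, mem_Mn] at hs
      obtain ⟨⟨h2, h3⟩, u, rfl⟩ := hs
      have hu : u.Monic := hg.of_mul_monic_left h2
      rw [hg.natDegree_mul hu] at h3
      rw [Finset.mem_image]
      exact ⟨u, by rw [mem_Mn]; exact ⟨hu, by omega⟩, rfl⟩
    have h2 := (Finset.card_le_card h1).trans Finset.card_image_le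
    rw [card_Mn] at h2
    exact_mod_cast h2
  · have h1 : (Mn K n).filter (fun s => g ∣ s) = ∅ := by
      rw [Finset.filter_eq_empty_iff]
      intro s hs h2
      rw [mem_Mn] at hs
      exact h ((natDegree_le_of_dvd h2 hs.1.ne_zero).trans_eq hs.2)
    rw [h1, Finset.card_empty, Nat.cast_zero]

/-- The sum of the degrees of the prime divisors. -/
theorem sum_deg {K : Type} [Field K] {r : K[X]} (h0 : r ≠ 0) :
    ∑ P ∈ (UniqueFactorizationMonoid.normalizedFactors r).toFinset, P.natDegree ≤ r.natDegree := by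
  have h2 := UniqueFactorizationMonoid.prod_normalizedFactors h0
  have h3 : (UniqueFactorizationMonoid.normalizedFactors r).prod.natDegree = r.natDegree :=
    natDegree_eq_of_degree_eq (degree_eq_degree_of_associated h2)
  rw [← h3, natDegree_multiset_prod _ (UniqueFactorizationMonoid.zero_notMem_normalizedFactors r)]
  rw [Finset.sum_eq_multiset_sum, Multiset.toFinset_val]
  have h4 : (UniqueFactorizationMonoid.normalizedFactors r).dedup ≤
    UniqueFactorizationMonoid.normalizedFactors r := Multiset.dedup_le _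
  have h5 := Multiset.map_le_map (f := fun P : K[X] => P.natDegree) h4
  obtain ⟨u, hu⟩ := Multiset.le_iff_exists_add.1 h5
  rw [hu, Multiset.sum_add]
  exact Nat.le_add_right _ _

/-- The number of the squarefree monic divisors. -/
theorem card_DV (K : Type) [Field K] [Fintype K] : ∃ C : ℝ, 0 < C ∧ ∀ r : K[X], r ≠ 0 →
    ((DV K r).card : ℝ) ≤ C * (Fintype.card K : ℝ) ^ ((r.natDegree : ℝ) / 4) := by
  set q : ℝ := (Fintype.card K : ℝ) with hq
  have hq2 : (2 : ℝ) ≤ q := by
    have : 1 < Fintype.card K := Fintype.one_lt_card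
    rw [hq]
    exact_mod_cast this
  set N : ℕ := ((Finset.range 4).biUnion (fun i => Mn K i)).card with hN
  refine ⟨2 ^ N, by positivity, fun r h0 => ?_⟩
  set S := (UniqueFactorizationMonoid.normalizedFactors r).toFinset with hS
  -- the injection
  have h1 : (DV K r).card ≤ 2 ^ S.card := by
    rw [← Finset.card_powerset]
    refine Finset.card_le_card_of_injOn
      (fun v => (UniqueFactorizationMonoid.normalizedFactors v).toFinset) ?_ ?_
    · intro v hv
      have hv' : v ∈ DV K r := hv
      unfold DV at hv'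
      rw [Finset.mem_filter] at hv'
      rw [Finset.mem_coe, Finset.mem_powerset]
      intro P hP
      rw [Multiset.mem_toFinset] at hP
      rw [hS, Multiset.mem_toFinset]
      have hv0 : v ≠ 0 := fun h => h0 (zero_dvd_iff.1 (h ▸ hv'.2.1))
      exact Multiset.mem_of_le
        ((UniqueFactorizationMonoid.dvd_iff_normalizedFactors_le_normalizedFactors hv0 h0).1
          hv'.2.1) hP
    · intro v hv w hw h
      have hv' : v ∈ DV K r := hv
      have hw' : w ∈ DV K r := hw
      unfold DV at hv' hw'
      rw [Finset.mem_filter, Finset.mem_biUnion] at hv' hw'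
      obtain ⟨⟨i, _, hv1⟩, hv2, hv3, _⟩ := hv'
      obtain ⟨⟨j, _, hw1⟩, hw2, hw3, _⟩ := hw'
      rw [mem_Mn] at hv1 hw1
      have hv0 := hv1.1.ne_zero
      have hw0 := hw1.1.ne_zero
      have e1 := (UniqueFactorizationMonoid.squarefree_iff_nodup_normalizedFactors hv0).1 hv3
      have e2 := (UniqueFactorizationMonoid.squarefree_iff_nodup_normalizedFactors hw0).1 hw3
      have e3 : UniqueFactorizationMonoid.normalizedFactors v =
          UniqueFactorizationMonoid.normalizedFactors w := by
        have e4 := congrArg Finset.val h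
        simp only [Multiset.toFinset_val] at e4
        rwa [Multiset.dedup_eq_self.2 e1, Multiset.dedup_eq_self.2 e2] at e4
      have e5 := (UniqueFactorizationMonoid.prod_normalizedFactors hv0)
      have e6 := (UniqueFactorizationMonoid.prod_normalizedFactors hw0)
      rw [e3] at e5
      exact eq_of_monic_of_associated hv1.1 hw1.1 (e5.symm.trans e6)
  -- the number of the prime divisors
  have h2 : (2 : ℝ) ^ S.card ≤ 2 ^ N * q ^ ((r.natDegree : ℝ) / 4) := by
    have h3 : ∀ P ∈ S, (2 : ℝ) ≤ (if P.natDegree < 4 then 2 else 1) *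
        q ^ ((P.natDegree : ℝ) / 4) := by
      intro P _
      split_ifs with hP
      · have : (1 : ℝ) ≤ q ^ ((P.natDegree : ℝ) / 4) :=
          Real.one_le_rpow (by linarith) (by positivity)
        linarith
      · push Not at hP
        have h4 : (1 : ℝ) ≤ (P.natDegree : ℝ) / 4 := by
          rw [le_div_iff₀ (by norm_num)]
          have : (4 : ℝ) ≤ P.natDegree := by exact_mod_cast hP
          linarith
        have h5 : q ^ (1 : ℝ) ≤ q ^ ((P.natDegree : ℝ) / 4) :=
          Real.rpow_le_rpow_of_exponent_le (by linarith) h4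
        rw [Real.rpow_one] at h5
        linarith
    have h6 : (2 : ℝ) ^ S.card ≤ ∏ P ∈ S, ((if P.natDegree < 4 then 2 else 1) *
        q ^ ((P.natDegree : ℝ) / 4)) := by
      rw [← Finset.prod_const]
      exact Finset.prod_le_prod (fun _ _ => by norm_num) h3
    refine h6.trans ?_
    rw [Finset.prod_mul_distrib]
    refine mul_le_mul ?_ ?_ (Finset.prod_nonneg fun P _ => Real.rpow_nonneg (by linarith) _)
      (by positivity)
    · rw [Finset.prod_ite]
      simp only [Finset.prod_const, one_pow, mul_one]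
      refine pow_le_pow_right₀ (by norm_num) ?_
      refine Finset.card_le_card ?_
      intro P hP
      rw [Finset.mem_filter] at hP
      rw [Finset.mem_biUnion]
      exact ⟨P.natDegree, Finset.mem_range.2 hP.2, by rw [mem_Mn]; exact ⟨(nf hP.1).1, rfl⟩⟩
    · rw [← Real.rpow_sum_of_pos (by linarith)]
      refine Real.rpow_le_rpow_of_exponent_le (by linarith) ?_
      rw [← Finset.sum_div]
      refine div_le_div_of_nonneg_right ?_ (by norm_num)
      exact_mod_cast sum_deg h0
  calc ((DV K r).card : ℝ) ≤ ((2 ^ S.card : ℕ) : ℝ) := by exact_mod_cast h1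
    _ = (2 : ℝ) ^ S.card := by push_cast; rfl
    _ ≤ _ := h2

theorem main : S_mid := by
  intro K _ _ _
  obtain ⟨C, hC, HC⟩ := card_DV K
  set q : ℝ := (Fintype.card K : ℝ) with hq
  have hq2 : (2 : ℝ) ≤ q := by
    have : 1 < Fintype.card K := Fintype.one_lt_card
    rw [hq]
    exact_mod_cast this
  have hq0 : 0 < q := by linarith
  have hq1 : (1 : ℝ) ≤ q := by linarith
  -- the threshold
  obtain ⟨n₀, hn₀⟩ : ∃ n₀ : ℕ, C * 2 ^ (Fintype.card K) ≤ (2 : ℝ) ^ n₀ :=
    pow_unbounded_of_one_lt _ (by norm_num) |>.imp fun _ h => h.le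
  refine ⟨1 / 8, by norm_num, 8 * n₀, fun n r χ hn hr hd => ?_⟩
  have hphlow : ∀ v ∈ DV K r, 1 / ph v ≤ 2 ^ (Fintype.card K) * q ^ (-((v.natDegree : ℝ) / 2)) ∧
      0 < ph v ∧ v.natDegree ≤ r.natDegree ∧ v.Monic ∧ v ∣ r := by
    intro v hv
    unfold DV at hv
    rw [Finset.mem_filter, Finset.mem_biUnion] at hv
    obtain ⟨⟨i, hi, hv1⟩, hv2, hv3, _⟩ := hv
    rw [mem_Mn] at hv1
    have h1 := ph_ge hv1.1.ne_zero hv3
    have h2 : 0 < (1 / 2 : ℝ) ^ (Fintype.card K) * q ^ ((v.natDegree : ℝ) / 2) := by
      have := Real.rpow_pos_of_pos hq0 ((v.natDegree : ℝ) / 2)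
      positivity
    refine ⟨?_, lt_of_lt_of_le h2 h1, natDegree_le_of_dvd hv2 hr.ne_zero, hv1.1, hv2⟩
    refine (one_div_le_one_div_of_le h2 h1).trans (le_of_eq ?_)
    rw [Real.rpow_neg hq0.le, one_div_pow]
    field_simp
  -- exchange
  have h1 : |∑ s ∈ Mn K n, Mv χ r s| ≤
      ∑ v ∈ DV K r, 1 / ph v * (((Mn K n).filter (fun s => (r /ₘ v) ∣ s)).card : ℝ) := by
    refine (Finset.abs_sum_le_sum_abs _ _).trans ?_
    have h2 : ∀ s ∈ Mn K n, |Mv χ r s| ≤ ∑ v ∈ DV K r, if (r /ₘ v) ∣ s then 1 / ph v else 0 := by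
      intro s _
      unfold Mv
      refine (Finset.abs_sum_le_sum_abs _ _).trans ?_
      rw [← Finset.sum_filter]
      refine (Finset.sum_le_sum (g := fun v => 1 / ph v) fun v hv => ?_).trans
        (Finset.sum_le_sum_of_subset_of_nonneg ?_ fun v hv _ => ?_)
      · have hv' := (Finset.mem_filter.1 hv).1
        have hp := (hphlow v hv').2.1
        rw [abs_div, abs_mul, Pool.Agent.H290.FX.PExp.abs_one, abs_of_pos hp, mul_one]
        refine div_le_div_of_nonneg_right ?_ hp.le
        unfold mob
        split_ifs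
        · rw [Int.cast_pow, abs_pow]
          norm_num
        · norm_num
      · intro v hv
        rw [Finset.mem_filter] at hv ⊢
        exact ⟨hv.1, hv.2.1⟩
      · exact (one_div_pos.2 (hphlow v (Finset.mem_filter.1 hv).1).2.1).le
    refine (Finset.sum_le_sum h2).trans (le_of_eq ?_)
    rw [Finset.sum_comm]
    refine Finset.sum_congr rfl fun v _ => ?_
    rw [← Finset.sum_filter, Finset.sum_const, nsmul_eq_mul, mul_comm]
  -- every term
  have h2 : ∀ v ∈ DV K r, 1 / ph v * (((Mn K n).filter (fun s => (r /ₘ v) ∣ s)).card : ℝ) ≤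
      2 ^ (Fintype.card K) * q ^ ((n : ℝ) - r.natDegree / 2) := by
    intro v hv
    obtain ⟨e1, e2, e3, e4, e5⟩ := hphlow v hv
    have hg : r /ₘ v * v = r := by
      have h6 := modByMonic_add_div r v
      rw [(modByMonic_eq_zero_iff_dvd e4).2 e5, zero_add] at h6
      rw [mul_comm]
      exact h6
    have hgm : (r /ₘ v).Monic := by
      have h3 : (r /ₘ v * v).Monic := by rw [hg]; exact hr
      exact e4.of_mul_monic_right h3
    have hgd : (r /ₘ v).natDegree + v.natDegree = r.natDegree := by
      rw [← hgm.natDegree_mul e4, hg]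
    have h3 := card_mult hgm n
    split_ifs at h3 with h4
    · have h5 : (((Mn K n).filter (fun s => (r /ₘ v) ∣ s)).card : ℝ) ≤
          q ^ ((n : ℝ) - r.natDegree + v.natDegree) := by
        refine h3.trans (le_of_eq ?_)
        rw [← Real.rpow_natCast, Nat.cast_sub h4]
        congr 1
        have : ((r /ₘ v).natDegree : ℝ) + v.natDegree = r.natDegree := by exact_mod_cast hgd
        linarith
      calc 1 / ph v * (((Mn K n).filter (fun s => (r /ₘ v) ∣ s)).card : ℝ)
          ≤ (2 ^ (Fintype.card K) * q ^ (-((v.natDegree : ℝ) / 2))) *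
            q ^ ((n : ℝ) - r.natDegree + v.natDegree) :=
            mul_le_mul e1 h5 (Nat.cast_nonneg _)
              (mul_nonneg (by positivity) (Real.rpow_nonneg hq0.le _))
        _ = 2 ^ (Fintype.card K) * q ^ ((n : ℝ) - r.natDegree + v.natDegree / 2) := by
            rw [mul_assoc, ← Real.rpow_add hq0]
            congr 2
            ring
        _ ≤ _ := by
            refine mul_le_mul_of_nonneg_left ?_ (by positivity)
            refine Real.rpow_le_rpow_of_exponent_le hq1 ?_
            have : (v.natDegree : ℝ) ≤ r.natDegree := by exact_mod_cast e3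
            linarith
    · have h5 : (((Mn K n).filter (fun s => (r /ₘ v) ∣ s)).card : ℝ) = 0 :=
        le_antisymm h3 (Nat.cast_nonneg _)
      rw [h5, mul_zero]
      exact mul_nonneg (by positivity) (Real.rpow_nonneg hq0.le _)
  refine h1.trans ((Finset.sum_le_sum h2).trans ?_)
  rw [Finset.sum_const, nsmul_eq_mul]
  have h3 := HC r hr.ne_zero
  have hnr : (n : ℝ) < r.natDegree := by exact_mod_cast hd
  have hn1 : (8 * (n₀ : ℝ)) ≤ n := by exact_mod_cast hn
  calc ((DV K r).card : ℝ) * (2 ^ (Fintype.card K) * q ^ ((n : ℝ) - r.natDegree / 2))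
      ≤ (C * q ^ ((r.natDegree : ℝ) / 4)) * (2 ^ (Fintype.card K) *
        q ^ ((n : ℝ) - r.natDegree / 2)) := by
        refine mul_le_mul_of_nonneg_right h3 ?_
        exact mul_nonneg (by positivity) (Real.rpow_nonneg hq0.le _)
    _ = (C * 2 ^ (Fintype.card K)) * q ^ ((n : ℝ) - r.natDegree / 4) := by
        have : q ^ ((n : ℝ) - r.natDegree / 4) = q ^ ((r.natDegree : ℝ) / 4) *
            q ^ ((n : ℝ) - r.natDegree / 2) := by
          rw [← Real.rpow_add hq0]
          congr 1
          ring
        rw [this]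
        ring
    _ ≤ q ^ ((n : ℝ) / 8) * q ^ (3 * (n : ℝ) / 4) := by
        refine mul_le_mul ?_ ?_ (Real.rpow_nonneg hq0.le _) (Real.rpow_nonneg hq0.le _)
        · refine hn₀.trans ?_
          have h4 : (2 : ℝ) ^ n₀ ≤ q ^ n₀ := pow_le_pow_left₀ (by norm_num) hq2 _
          refine h4.trans ?_
          rw [← Real.rpow_natCast]
          refine Real.rpow_le_rpow_of_exponent_le hq1 ?_
          linarith
        · refine Real.rpow_le_rpow_of_exponent_le hq1 ?_
          linarith
    _ = q ^ ((1 - 1 / 8) * (n : ℝ)) := by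
        rw [← Real.rpow_add hq0]
        congr 1
        ring

end Pool.Agent.H290.FX.PFmid
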