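import Pool.Agent.H290.FX.StmF
import Pool.Agent.H290.FX.PFinx
import Pool.Agent.H604.LD.Hid

/-!
# Task MINM (helper289, for helper290): the minor characters for `X m ^ 2 + 1`
-/

set_option autoImplicit false
set_option linter.unusedSectionVars false

namespace Pool.Agent.H290.FX.PFminm

open Polynomial
open scoped Classical
open Pool.Agent.H985.Chow (mob lc)
open Pool.Agent.H985.KP (sg)
open Pool.Agent.H694.Typ (Mn mem_Mn)
open Pool.Agent.H290.FX
open Pool.Agent.H290.FX.F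
open Pool.Agent.H290.FX.PFinx (Nj Mj refl)
open Pool.Agent.H604.LD.FIN (fmon sqf)

section

variable {K : Type} [Field K] [Fintype K] [CharP K 2]

theorem sumsg (x : K) : ∑ b : K, sg (b * x) = if x = 0 then (Fintype.card K : ℝ) else 0 := by
  split_ifs with h
  · subst h
    rw [Finset.sum_congr rfl (fun b _ => by rw [mul_zero, Pool.Agent.H985.KP.Loc2.sg_zero]),
      Finset.sum_const, Finset.card_univ, nsmul_eq_mul, mul_one]
  · obtain ⟨y, hy⟩ := Pool.Agent.H985.KP.Loc2.exists_sg_neg (F := K)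
    have h1 : ∑ b : K, sg (b * x) = ∑ b : K, sg ((b + y / x) * x) :=
      (Equiv.sum_comp (Equiv.addRight (y / x)) (fun b => sg (b * x))).symm
    have h2 : ∀ b : K, sg ((b + y / x) * x) = - sg (b * x) := by
      intro b
      rw [add_mul, div_mul_cancel₀ y h, Pool.Agent.H985.KP.Loc2.sg_add, hy]
      ring
    simp only [h2, Finset.sum_neg_distrib] at h1
    linarith

/-- the character `a ↦ χ (a.divX) sg (b a_0)` -/
noncomputable def chb (χ : AddChar K[X] ℝ) (b : K) : AddChar K[X] ℝ where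
  toFun a := χ a.divX * sg (b * a.coeff 0)
  map_zero_eq_one' := by
    rw [divX_zero, coeff_zero, mul_zero, Pool.Agent.H985.KP.Loc2.sg_zero, χ.map_zero_eq_one, one_mul]
  map_add_eq_mul' x y := by
    rw [divX_add, χ.map_add_eq_mul, coeff_add, mul_add, Pool.Agent.H985.KP.Loc2.sg_add]
    ring

theorem chb_apply (χ : AddChar K[X] ℝ) (b : K) (a : K[X]) :
    chb χ b a = χ a.divX * sg (b * a.coeff 0) := rfl

theorem divX_X_mul (m : K[X]) : (X * m).divX = m := by
  ext n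
  rw [coeff_divX, coeff_X_mul]

theorem minor_chb {j t : ℕ} {χ : AddChar K[X] ℝ} (h : Minor j t χ) (b : K) :
    Minor (j + 1) t (chb χ b) := by
  intro r hr hrt
  obtain ⟨s, hs1, hs2⟩ := h r hr hrt
  refine ⟨X * s, ?_, ?_⟩
  · have e : r * (X * s) = X * (r * s) := by ring
    rw [e, degree_mul, degree_X, add_comm]
    by_cases h0 : r * s = 0
    · rw [h0, degree_zero]
      simp
    · rw [degree_eq_natDegree h0] at hs1 ⊢
      have : (r * s).natDegree < j := by exact_mod_cast hs1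
      exact_mod_cast (by omega : (r * s).natDegree + 1 < j + 1)
  · have e : r * (X * s) = X * (r * s) := by ring
    rw [e, chb_apply, divX_X_mul, mul_coeff_zero, coeff_X_zero, zero_mul, mul_zero,
      Pool.Agent.H985.KP.Loc2.sg_zero, mul_one]
    exact hs2

theorem X_mul_mem {j : ℕ} {m : K[X]} (hm : m ∈ Mn K j) : X * m ∈ Mn K (j + 1) := by
  rw [mem_Mn] at hm ⊢
  refine ⟨monic_X.mul hm.1, ?_⟩
  rw [natDegree_X_mul hm.1.ne_zero, hm.2]

/-- the detection of the multiples of `X` -/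
theorem det (j : ℕ) (χ : AddChar K[X] ℝ) (g : K[X] → ℝ) :
    (Fintype.card K : ℝ) * ∑ m ∈ Mn K j, χ m * g (X * m) =
      ∑ b : K, ∑ a ∈ Mn K (j + 1), chb χ b a * g a := by
  rw [Finset.sum_comm]
  have h1 : ∀ a ∈ Mn K (j + 1), ∑ b : K, chb χ b a * g a =
      if a.coeff 0 = 0 then (Fintype.card K : ℝ) * (χ a.divX * g a) else 0 := by
    intro a _
    have e : ∀ b : K, chb χ b a * g a = (χ a.divX * g a) * sg (b * a.coeff 0) := by
      intro b
      rw [chb_apply]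
      ring
    rw [Finset.sum_congr rfl (fun b _ => e b), ← Finset.mul_sum, sumsg]
    split_ifs
    · ring
    · ring
  rw [Finset.sum_congr rfl h1, ← Finset.sum_filter, ← Finset.mul_sum]
  congr 1
  refine Finset.sum_bij (fun m _ => X * m) ?_ ?_ ?_ ?_
  · intro m hm
    rw [Finset.mem_filter]
    refine ⟨X_mul_mem hm, ?_⟩
    rw [mul_coeff_zero, coeff_X_zero, zero_mul]
  · intro m _ m' _ hmm
    exact mul_left_cancel₀ X_ne_zero hmm
  · intro a ha
    rw [Finset.mem_filter, mem_Mn] at ha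
    obtain ⟨⟨h2, h3⟩, h4⟩ := ha
    have h5 : X * a.divX = a := by
      have := divX_mul_X_add a
      rw [h4, C_0, add_zero, mul_comm] at this
      exact this
    refine ⟨a.divX, ?_, h5⟩
    have h6 : a.divX ≠ 0 := by
      intro h
      rw [h, mul_zero] at h5
      exact h2.ne_zero h5.symm
    rw [mem_Mn]
    constructor
    · refine monic_X.of_mul_monic_left ?_
      rw [h5]
      exact h2
    · have h7 := natDegree_X_mul h6
      rw [h5, h3] at h7
      omega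
  · intro m _
    rw [divX_X_mul]

theorem fac_eq (m : K[X]) : (X * m) ^ 2 + X = X * (X * m ^ 2 + 1) := by ring

theorem not_dvd (m : K[X]) : ¬ X ∣ X * m ^ 2 + 1 := by
  rw [X_dvd_iff]
  simp

theorem fprop {j : ℕ} {m : K[X]} (hm : m ∈ Mn K j) :
    (X * m ^ 2 + 1).Monic ∧ Squarefree (X * m ^ 2 + 1) ∧ (X * m ^ 2 + 1).natDegree = 2 * j + 1 := by
  obtain ⟨h1, h2⟩ := fmon (by omega : 1 ≤ j + 1) (X_mul_mem hm)
  have h3 := sqf (X * m)
  rw [fac_eq] at h1 h2 h3
  have h4 : (X * m ^ 2 + 1).Monic := monic_X.of_mul_monic_left h1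
  refine ⟨h4, (squarefree_mul_iff.1 h3).2.2, ?_⟩
  rw [natDegree_X_mul h4.ne_zero] at h2
  omega

theorem mob_X_mul {f : K[X]} (h : ¬ X ∣ f) : mob (X * f) = - mob f := by
  rw [Pool.Agent.H604.LD.Hid.mob_mul_cop ((irreducible_X.coprime_iff_not_dvd).2 h),
    Pool.Agent.H604.LD.Hid.mob_irr irreducible_X]
  ring

/-- the sum over the divisors of degree `i` -/
noncomputable def B (f : K[X]) (i : ℕ) : ℝ := ∑ D ∈ (Mn K i).filter (fun D => D ∣ f), (mob D : ℝ)

theorem B_zero {f : K[X]} (i : ℕ) (h : ¬ X ∣ f) : B (X * f) 0 = B f 0 := by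
  unfold B
  refine Finset.sum_congr ?_ fun _ _ => rfl
  refine Finset.filter_congr fun D hD => ?_
  rw [mem_Mn] at hD
  have h1 : D = 1 := eq_one_of_monic_natDegree_zero hD.1 hD.2
  rw [h1]
  simp

theorem B_succ {f : K[X]} (i : ℕ) (h : ¬ X ∣ f) : B (X * f) (i + 1) = B f (i + 1) - B f i := by
  unfold B
  have h1 : ∑ D ∈ (Mn K (i + 1)).filter (fun D => D ∣ X * f), (mob D : ℝ) =
      ∑ D ∈ ((Mn K (i + 1)).filter (fun D => D ∣ X * f)).filter (fun D => X ∣ D), (mob D : ℝ) +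
      ∑ D ∈ ((Mn K (i + 1)).filter (fun D => D ∣ X * f)).filter (fun D => ¬ X ∣ D), (mob D : ℝ) :=
    (Finset.sum_filter_add_sum_filter_not _ _ _).symm
  have h2 : ((Mn K (i + 1)).filter (fun D => D ∣ X * f)).filter (fun D => ¬ X ∣ D) =
      (Mn K (i + 1)).filter (fun D => D ∣ f) := by
    rw [Finset.filter_filter]
    refine Finset.filter_congr fun D _ => ?_
    constructor
    · rintro ⟨h3, h4⟩
      exact (((irreducible_X.coprime_iff_not_dvd).2 h4).symm).dvd_of_dvd_mul_left h3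
    · intro h3
      exact ⟨h3.mul_left X, fun h4 => h (h4.trans h3)⟩
  have h3 : ∑ D ∈ ((Mn K (i + 1)).filter (fun D => D ∣ X * f)).filter (fun D => X ∣ D),
      (mob D : ℝ) = - ∑ D ∈ (Mn K i).filter (fun D => D ∣ f), (mob D : ℝ) := by
    rw [← Finset.sum_neg_distrib]
    symm
    refine Finset.sum_bij (fun D _ => X * D) ?_ ?_ ?_ ?_
    · intro D hD
      rw [Finset.mem_filter] at hD
      rw [Finset.mem_filter, Finset.mem_filter]
      exact ⟨⟨X_mul_mem hD.1, mul_dvd_mul_left X hD.2⟩, dvd_mul_right X D⟩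
    · intro D _ D' _ hDD
      exact mul_left_cancel₀ X_ne_zero hDD
    · intro D hD
      rw [Finset.mem_filter, Finset.mem_filter, mem_Mn] at hD
      obtain ⟨⟨⟨h4, h5⟩, h6⟩, E, rfl⟩ := hD
      have h7 : E.Monic := monic_X.of_mul_monic_left h4
      refine ⟨E, ?_, rfl⟩
      rw [Finset.mem_filter, mem_Mn]
      rw [natDegree_X_mul h7.ne_zero] at h5
      exact ⟨⟨h7, by omega⟩, (mul_dvd_mul_iff_left X_ne_zero).1 h6⟩
    · intro D hD
      rw [Finset.mem_filter] at hD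
      rw [mob_X_mul (fun h4 => h (h4.trans hD.2))]
      push_cast
      ring
  rw [h1, h2, h3]
  ring

theorem B_sum {f : K[X]} (h : ¬ X ∣ f) (i : ℕ) :
    B f i = ∑ i' ∈ Finset.range (i + 1), B (X * f) i' := by
  induction i with
  | zero => rw [Finset.sum_range_succ, Finset.sum_range_zero, zero_add, B_zero 0 h]
  | succ i ih =>
    rw [Finset.sum_range_succ, ← ih, B_succ i h]
    ring

/-- the identity for the exponential sum -/
theorem ident (hh : S_hido) (j : ℕ) (χ : AddChar K[X] ℝ) :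
    (2 * (j : ℝ) + 1) * SM K j χ =
      ∑ i ∈ Finset.range (j + 1), ((j : ℝ) + 1 / 2 - i) * ∑ i' ∈ Finset.range (i + 1),
        (∑ m ∈ Mn K j, χ m * B ((X * m) ^ 2 + X) i' +
          ∑ m ∈ Mn K j, χ m * ((mob ((X * m) ^ 2 + X) : ℝ) * B ((X * m) ^ 2 + X) i')) := by
  have h1 : ∀ m ∈ Mn K j, (if Ir m then (2 * (j : ℝ) + 1) * χ m else 0) =
      ∑ i ∈ Finset.range (j + 1), ((j : ℝ) + 1 / 2 - i) * ∑ i' ∈ Finset.range (i + 1),
        (χ m * B ((X * m) ^ 2 + X) i' +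
          χ m * ((mob ((X * m) ^ 2 + X) : ℝ) * B ((X * m) ^ 2 + X) i')) := by
    intro m hm
    obtain ⟨e1, e2, e3⟩ := fprop hm
    have e4 := hh K j (X * m ^ 2 + 1) e1 e2 e3
    have e5 : (if Ir m then (2 * (j : ℝ) + 1) * χ m else 0) =
        χ m * (if Irreducible (X * m ^ 2 + 1) then 2 * (j : ℝ) + 1 else 0) := by
      unfold Ir
      split_ifs with h
      · ring
      · rw [mul_zero]
    rw [e5, ← e4, fac_eq, mob_X_mul (not_dvd m), Finset.mul_sum, Finset.mul_sum]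
    refine Finset.sum_congr rfl fun i _ => ?_
    have e6 := B_sum (not_dvd m) i
    unfold B at e6
    rw [e6]
    rw [Finset.sum_add_distrib, ← Finset.mul_sum, ← Finset.mul_sum, ← Finset.mul_sum]
    unfold B
    push_cast
    ring
  have h2 : (2 * (j : ℝ) + 1) * SM K j χ =
      ∑ m ∈ Mn K j, if Ir m then (2 * (j : ℝ) + 1) * χ m else 0 := by
    rw [← Finset.sum_filter]
    unfold SM
    rw [Finset.mul_sum]
  rw [h2, Finset.sum_congr rfl h1, Finset.sum_comm]
  refine Finset.sum_congr rfl fun i _ => ?_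
  rw [← Finset.mul_sum, Finset.sum_comm]
  congr 1
  refine Finset.sum_congr rfl fun i' _ => ?_
  rw [Finset.sum_add_distrib]

end

/-- the bounds inside `PFinx.main` -/
theorem bounds (hnear : S_nearx) (hfar2 : S_far2x) (hfar1 : S_far1x) (K : Type) [Field K] [Fintype K]
    [CharP K 2] (θ : ℝ) (hθ : 0 < θ) : ∃ c : ℝ, 0 < c ∧ ∃ d₀ : ℕ,
    ∀ (d t : ℕ) (χ : AddChar K[X] ℝ), d₀ ≤ d → θ * d ≤ t → Minor d t χ → ∀ i, i < d →
      |Nj K d i χ| ≤ 2 * (Fintype.card K : ℝ) ^ ((1 - c) * (d : ℝ)) ∧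
        |Mj K d i χ| ≤ (Fintype.card K : ℝ) ^ ((1 - c) * (d : ℝ)) := by
  obtain ⟨q, hq⟩ : ∃ q : ℝ, q = (Fintype.card K : ℝ) := ⟨_, rfl⟩
  have hq2 : (2 : ℝ) ≤ q := by
    rw [hq]
    exact_mod_cast (Fintype.one_lt_card (α := K))
  have hq0 : 0 < q := by linarith
  have hq1 : (1 : ℝ) ≤ q := by linarith
  obtain ⟨c₃, κ, hc₃, hκ, d₃, H3⟩ := hnear K
  obtain ⟨c₂, hc₂, d₂, H2⟩ := hfar2 K κ hκ
  have H1 := hfar1 K
  obtain ⟨c, hc0, hcθ, hcκ, hc2, hc3⟩ : ∃ c : ℝ, 0 < c ∧ c ≤ θ ∧ c ≤ κ ∧ c ≤ c₂ ∧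
      c ≤ c₃ := by
    refine ⟨min (min θ κ) (min c₂ c₃), by positivity, ?_, ?_, ?_, ?_⟩
    · exact (min_le_left (min θ κ) (min c₂ c₃)).trans (min_le_left _ _)
    · exact (min_le_left (min θ κ) (min c₂ c₃)).trans (min_le_right _ _)
    · exact (min_le_right (min θ κ) (min c₂ c₃)).trans (min_le_left _ _)
    · exact (min_le_right (min θ κ) (min c₂ c₃)).trans (min_le_right _ _)
  refine ⟨c, hc0, max (max d₂ d₃) 1, ?_⟩
  intro d t χ hd ht hmin
  simp only [max_le_iff] at hd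
  obtain ⟨⟨hd2, hd3⟩, hd1⟩ := hd
  have hdpos : (0 : ℝ) < d := by exact_mod_cast (by omega : 0 < d)
  obtain ⟨W, hW⟩ : ∃ W : ℝ, W = q ^ ((1 - c) * (d : ℝ)) := ⟨_, rfl⟩
  have hW0 : 0 ≤ W := by rw [hW]; positivity
  have hexp : ∀ c' : ℝ, c ≤ c' → q ^ ((1 - c') * (d : ℝ)) ≤ W := by
    intro c' hc'
    rw [hW]
    refine Real.rpow_le_rpow_of_exponent_le hq1 ?_
    exact mul_le_mul_of_nonneg_right (by linarith) hdpos.le
  -- the near bound
  have bnear : ∀ n : ℕ, |(n : ℝ) - d| ≤ κ * d → |Nj K d n χ| ≤ W := by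
    intro n hn
    refine (H3 d n χ hd3 hn).trans ?_
    rw [← hq]
    exact hexp c₃ hc3
  -- the bounds
  have bN : ∀ j, j < d → |Nj K d j χ| ≤ 2 * W := by
    intro j hj
    by_cases hjk : (j : ℝ) ≤ (1 - κ) * d
    · refine (H1 d t j χ hj hmin).trans ?_
      rw [← hq]
      have e1 : q ^ d / q ^ t ≤ W := by
        have e2 : q ^ d / q ^ t = q ^ ((d : ℝ) - t) := by
          rw [Real.rpow_sub hq0, Real.rpow_natCast, Real.rpow_natCast]
        rw [e2]
        refine (Real.rpow_le_rpow_of_exponent_le hq1 ?_).trans (hexp θ hcθ)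
        linarith
      have e3 : q ^ j ≤ W := by
        rw [← Real.rpow_natCast]
        exact (Real.rpow_le_rpow_of_exponent_le hq1 hjk).trans (hexp κ hcκ)
      linarith
    · push Not at hjk
      have e1 : (j : ℝ) ≤ d := by exact_mod_cast hj.le
      have e2 := bnear j (by rw [abs_le]; constructor <;> linarith)
      linarith
  have bM : ∀ j, j < d → |Mj K d j χ| ≤ W := by
    intro j hj
    by_cases hjk : (j : ℝ) ≤ (1 - κ) * d
    · refine (H2 d j χ hd2 hjk).trans ?_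
      rw [← hq]
      exact hexp c₂ hc2
    · push Not at hjk
      rw [refl (by omega) (by omega : j ≤ 2 * d)]
      have e1 : (j : ℝ) ≤ d := by exact_mod_cast hj.le
      refine bnear (2 * d - j) ?_
      have e2 : ((2 * d - j : ℕ) : ℝ) = 2 * d - j := by
        rw [Nat.cast_sub (by omega)]
        push_cast
        ring
      rw [e2, abs_le]
      constructor <;> linarith
  intro i hi
  rw [← hq, ← hW]
  exact ⟨bN i hi, bM i hi⟩

theorem main : S_tminm := by
  intro hhid hnear hfar2 hfar1 K _ _ _ θ hθ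
  obtain ⟨c, hc0, d₀, Hb⟩ := bounds hnear hfar2 hfar1 K (θ / 2) (by positivity)
  obtain ⟨q, hq⟩ : ∃ q : ℝ, q = (Fintype.card K : ℝ) := ⟨_, rfl⟩
  have hq2 : (2 : ℝ) ≤ q := by
    rw [hq]
    exact_mod_cast (Fintype.one_lt_card (α := K))
  have hq0 : 0 < q := by linarith
  have hq1 : (1 : ℝ) ≤ q := by linarith
  -- the limit
  have hr : |q ^ (-(c / 2))| < 1 := by
    rw [abs_of_pos (Real.rpow_pos_of_pos hq0 _)]
    exact Real.rpow_lt_one_of_one_lt_of_neg (by linarith) (by linarith)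
  have l1 := tendsto_pow_const_mul_const_pow_of_abs_lt_one 2 hr
  rw [Metric.tendsto_atTop] at l1
  obtain ⟨n1, L1⟩ := l1 (1 / (12 * q)) (by positivity)
  refine ⟨c / 2, by positivity, max d₀ (max n1 1), ?_⟩
  intro j t χ hj ht hmin
  simp only [max_le_iff] at hj
  obtain ⟨hj0, hn1, hj1⟩ := hj
  have hjpos : (1 : ℝ) ≤ j := by exact_mod_cast hj1
  obtain ⟨W, hW⟩ : ∃ W : ℝ, W = q ^ ((1 - c) * (((j + 1 : ℕ)) : ℝ)) := ⟨_, rfl⟩
  have hW0 : 0 ≤ W := by rw [hW]; positivity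
  have hbd : ∀ (b : K) (i : ℕ), i < j + 1 →
      |Nj K (j + 1) i (chb χ b)| ≤ 2 * W ∧ |Mj K (j + 1) i (chb χ b)| ≤ W := by
    intro b i hi
    have h := Hb (j + 1) t (chb χ b) (by omega) (by
      push_cast
      nlinarith) (minor_chb hmin b) i hi
    rw [← hq, ← hW] at h
    exact h
  have hN : ∀ i, i < j + 1 → |∑ m ∈ Mn K j, χ m * B ((X * m) ^ 2 + X) i| ≤ 2 * W := by
    intro i hi
    have e1 := det j χ (fun a => B (a ^ 2 + X) i)
    have e2 : |∑ b : K, ∑ a ∈ Mn K (j + 1), chb χ b a * B (a ^ 2 + X) i| ≤ q * (2 * W) := by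
      refine (Finset.abs_sum_le_sum_abs _ _).trans ?_
      refine (Finset.sum_le_sum (fun b _ => (hbd b i hi).1)).trans ?_
      rw [Finset.sum_const, Finset.card_univ, nsmul_eq_mul, ← hq]
    rw [← e1, ← hq, abs_mul, abs_of_pos hq0] at e2
    exact le_of_mul_le_mul_left e2 hq0
  have hM : ∀ i, i < j + 1 →
      |∑ m ∈ Mn K j, χ m * ((mob ((X * m) ^ 2 + X) : ℝ) * B ((X * m) ^ 2 + X) i)| ≤ W := by
    intro i hi
    have e1 := det j χ (fun a => (mob (a ^ 2 + X) : ℝ) * B (a ^ 2 + X) i)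
    have e2 : |∑ b : K, ∑ a ∈ Mn K (j + 1), chb χ b a *
        ((mob (a ^ 2 + X) : ℝ) * B (a ^ 2 + X) i)| ≤ q * W := by
      refine (Finset.abs_sum_le_sum_abs _ _).trans ?_
      refine (Finset.sum_le_sum (fun b _ => (hbd b i hi).2)).trans ?_
      rw [Finset.sum_const, Finset.card_univ, nsmul_eq_mul, ← hq]
    rw [← e1, ← hq, abs_mul, abs_of_pos hq0] at e2
    exact le_of_mul_le_mul_left e2 hq0
  have hid := ident hhid j χ
  obtain ⟨J, hJ⟩ : ∃ J : ℝ, J = (j : ℝ) + 1 := ⟨_, rfl⟩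
  have hJ0 : 0 < J := by rw [hJ]; linarith
  have h1 : |(2 * (j : ℝ) + 1) * SM K j χ| ≤ J * (J * (J * (3 * W))) := by
    rw [hid]
    refine (Finset.abs_sum_le_sum_abs _ _).trans ?_
    have e1 : ∀ i ∈ Finset.range (j + 1), |((j : ℝ) + 1 / 2 - i) * ∑ i' ∈ Finset.range (i + 1),
        (∑ m ∈ Mn K j, χ m * B ((X * m) ^ 2 + X) i' +
          ∑ m ∈ Mn K j, χ m * ((mob ((X * m) ^ 2 + X) : ℝ) * B ((X * m) ^ 2 + X) i'))| ≤
        J * (J * (3 * W)) := by
      intro i hi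
      rw [Finset.mem_range] at hi
      have e2 : (i : ℝ) ≤ j := by exact_mod_cast (by omega : i ≤ j)
      have e3 : (0 : ℝ) ≤ i := Nat.cast_nonneg i
      rw [abs_mul, abs_of_nonneg (by linarith : (0 : ℝ) ≤ (j : ℝ) + 1 / 2 - i)]
      refine mul_le_mul (by rw [hJ]; linarith) ?_ (abs_nonneg _) hJ0.le
      refine (Finset.abs_sum_le_sum_abs _ _).trans ?_
      have e4 : ∀ i' ∈ Finset.range (i + 1), |∑ m ∈ Mn K j, χ m * B ((X * m) ^ 2 + X) i' +
          ∑ m ∈ Mn K j, χ m * ((mob ((X * m) ^ 2 + X) : ℝ) * B ((X * m) ^ 2 + X) i')| ≤ 3 * W := by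
        intro i' hi'
        rw [Finset.mem_range] at hi'
        refine (abs_add_le _ _).trans ?_
        have e5 := hN i' (by omega)
        have e6 := hM i' (by omega)
        linarith
      refine (Finset.sum_le_sum e4).trans ?_
      rw [Finset.sum_const, Finset.card_range, nsmul_eq_mul]
      refine mul_le_mul_of_nonneg_right ?_ (by positivity)
      push_cast
      rw [hJ]
      linarith
    refine (Finset.sum_le_sum e1).trans ?_
    rw [Finset.sum_const, Finset.card_range, nsmul_eq_mul]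
    push_cast
    rw [hJ]
  rw [abs_mul, abs_of_pos (by linarith : (0 : ℝ) < 2 * (j : ℝ) + 1)] at h1
  have h2 : |SM K j χ| ≤ 3 * J ^ 2 * W := by
    have e1 : J * |SM K j χ| ≤ J * (3 * J ^ 2 * W) := by
      have e2 : J * |SM K j χ| ≤ (2 * (j : ℝ) + 1) * |SM K j χ| :=
        mul_le_mul_of_nonneg_right (by rw [hJ]; linarith) (abs_nonneg _)
      calc J * |SM K j χ| ≤ (2 * (j : ℝ) + 1) * |SM K j χ| := e2
        _ ≤ J * (J * (J * (3 * W))) := h1
        _ = J * (3 * J ^ 2 * W) := by ring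
    exact le_of_mul_le_mul_left e1 hJ0
  have hJ2 : J ^ 2 ≤ 4 * (j : ℝ) ^ 2 := by
    rw [hJ]
    nlinarith
  have h3 : W ≤ q * (q ^ ((1 - c / 2) * (j : ℝ)) * (q ^ (-(c / 2))) ^ j) := by
    rw [hW, ← Real.rpow_natCast (q ^ (-(c / 2))) j, ← Real.rpow_mul hq0.le, ← Real.rpow_add hq0]
    nth_rewrite 2 [← Real.rpow_one q]
    rw [← Real.rpow_add hq0]
    refine Real.rpow_le_rpow_of_exponent_le hq1 ?_
    push_cast
    nlinarith
  have h4 : (j : ℝ) ^ 2 * (q ^ (-(c / 2))) ^ j < 1 / (12 * q) := by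
    have h := L1 j hn1
    rw [Real.dist_eq, sub_zero] at h
    exact (le_abs_self _).trans_lt h
  rw [← hq]
  obtain ⟨E, hE⟩ : ∃ E : ℝ, E = q ^ ((1 - c / 2) * (j : ℝ)) := ⟨_, rfl⟩
  obtain ⟨R, hR⟩ : ∃ R : ℝ, R = (q ^ (-(c / 2))) ^ j := ⟨_, rfl⟩
  rw [← hR] at h4
  rw [← hE, ← hR] at h3
  rw [← hE]
  have hE0 : 0 ≤ E := by rw [hE]; positivity
  have hR0 : 0 ≤ R := by rw [hR]; positivity
  have h5 : (j : ℝ) ^ 2 * R * (12 * q) ≤ 1 := by
    rw [lt_div_iff₀ (by positivity)] at h4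
    exact h4.le
  calc |SM K j χ| ≤ 3 * J ^ 2 * W := h2
    _ ≤ 3 * (4 * (j : ℝ) ^ 2) * (q * (E * R)) := by
        refine mul_le_mul (by linarith) h3 hW0 (by positivity)
    _ = E * ((j : ℝ) ^ 2 * R * (12 * q)) := by ring
    _ ≤ E * 1 := mul_le_mul_of_nonneg_left h5 hE0
    _ = E := mul_one E

end Pool.Agent.H290.FX.PFminm
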