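import Pool.Agent.H290.FX.StmF

/-!
# Task MINS: the minor characters on the multiples of `s`
-/

namespace Pool.Agent.H290.FX.PFmins

open Polynomial
open scoped Classical
open Pool.Agent.H290.FX Pool.Agent.H290.FX.F
open Pool.Agent.H694.Typ (Mn mem_Mn)

/-- The multiples of `s`. -/
theorem reindex {K : Type} [Field K] [Fintype K] {j k n : ℕ} {s : K[X]} (hsm : s.Monic)
    (hsn : s.natDegree = n) (hkn : k + n = j) (χ : AddChar K[X] ℝ) :
    ∑ m ∈ Ts K k s, χ (s * m) = ∑ M ∈ (Mn K j).filter (fun m => Ir m),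
      if s ∣ M then χ M else 0 := by
  rw [← Finset.sum_filter]
  unfold Ts
  refine Finset.sum_bij (fun m _ => s * m) ?_ ?_ ?_ ?_
  · intro m hm
    rw [Finset.mem_filter, mem_Mn] at hm
    rw [Finset.mem_filter, Finset.mem_filter, mem_Mn]
    refine ⟨⟨⟨hsm.mul hm.1.1, ?_⟩, hm.2⟩, dvd_mul_right _ _⟩
    rw [hsm.natDegree_mul hm.1.1, hsn, hm.1.2]
    omega
  · intro a _ b _ hab
    exact mul_left_cancel₀ hsm.ne_zero hab
  · intro M hM
    rw [Finset.mem_filter, Finset.mem_filter, mem_Mn] at hM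
    obtain ⟨⟨⟨hM1, hM2⟩, hM3⟩, m, rfl⟩ := hM
    have hm : m.Monic := hsm.of_mul_monic_left hM1
    refine ⟨m, ?_, rfl⟩
    rw [Finset.mem_filter, mem_Mn]
    refine ⟨⟨hm, ?_⟩, hM3⟩
    rw [hsm.natDegree_mul hm, hsn] at hM2
    omega
  · intro m _
    rfl

/-- **Task MINS.** -/
theorem main : Pool.Agent.H290.FX.F.S_tmins := by
  intro hper hminm K _ _ _ θ hθ
  obtain ⟨c, hc, d₀, h⟩ := hminm K θ hθ
  refine ⟨c, hc, d₀, ?_⟩
  intro j k n t s χ hj ht hkn hs hmin
  rw [mem_Mn] at hs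
  obtain ⟨hsm, hsn⟩ := hs
  have hq : (0 : ℝ) < (Fintype.card K : ℝ) := by
    exact_mod_cast Fintype.card_pos
  have hqn : (0 : ℝ) < (Fintype.card K : ℝ) ^ n := pow_pos hq _
  obtain ⟨L, hL⟩ : ∃ L, L = (Vs K (j + 1)).filter (fun H => Per (j + 1) (ch (j + 1) H) s) :=
    ⟨_, rfl⟩
  have hcard : (L.card : ℝ) = (Fintype.card K : ℝ) ^ n := by
    have h1 := hper K (j + 1) s 0 hsm (by omega) (by rw [degree_zero]; exact WithBot.bot_lt_coe _)
    rw [if_pos (dvd_zero _), hsn, ← hL,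
      Finset.sum_congr rfl (fun H _ => AddChar.map_zero_eq_one (ch (j + 1) H)), Finset.sum_const,
      nsmul_eq_mul, mul_one] at h1
    exact h1
  have hMinor : ∀ H ∈ L, Minor j t (χ * ch (j + 1) H) := by
    intro H hH r hr hrt
    rw [hL, Finset.mem_filter] at hH
    obtain ⟨x, hx, hx1⟩ := hmin (r * s) (hr.mul hsm) (by rw [hr.natDegree_mul hsm]; omega)
    refine ⟨s * x, by rw [← mul_assoc]; exact hx, ?_⟩
    rw [AddChar.mul_apply]
    have h2 : ch (j + 1) H (r * (s * x)) = 1 := by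
      have h3 : r * (s * x) = s * (r * x) := by ring
      rw [h3]
      apply hH.2
      have h4 : s * (r * x) = r * s * x := by ring
      rw [h4]
      exact hx.trans (by exact_mod_cast Nat.lt_succ_self j)
    rw [h2, mul_one, ← mul_assoc]
    exact hx1
  have hkey : (Fintype.card K : ℝ) ^ n * ∑ m ∈ Ts K k s, χ (s * m) =
      ∑ H ∈ L, SM K j (χ * ch (j + 1) H) := by
    rw [reindex hsm hsn hkn χ, Finset.mul_sum]
    unfold SM
    rw [Finset.sum_comm]
    refine Finset.sum_congr rfl fun M hM => ?_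
    rw [Finset.mem_filter, mem_Mn] at hM
    have h1 := hper K (j + 1) s M hsm (by omega) (by
      rw [degree_eq_natDegree hM.1.1.ne_zero, hM.1.2]
      exact_mod_cast Nat.lt_succ_self j)
    rw [← hL, hsn] at h1
    have h2 : ∑ H ∈ L, (χ * ch (j + 1) H) M = χ M * ∑ H ∈ L, ch (j + 1) H M := by
      rw [Finset.mul_sum]
      exact Finset.sum_congr rfl fun H _ => AddChar.mul_apply _ _ _
    rw [h2, h1]
    split_ifs
    · ring
    · ring
  have hbound : |∑ H ∈ L, SM K j (χ * ch (j + 1) H)| ≤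
      (Fintype.card K : ℝ) ^ n * (Fintype.card K : ℝ) ^ ((1 - c) * j) := by
    refine (Finset.abs_sum_le_sum_abs _ _).trans ?_
    refine (Finset.sum_le_sum fun H hH => h j t _ hj ht (hMinor H hH)).trans (le_of_eq ?_)
    rw [Finset.sum_const, nsmul_eq_mul, hcard]
  rw [← hkey, abs_mul, abs_of_pos hqn] at hbound
  exact le_of_mul_le_mul_left hbound hqn

end Pool.Agent.H290.FX.PFmins
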