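import Pool.Agent.H290.FX.StmF

/-!
# Nonnegativity of the main term (helper115 for helper290)
-/

set_option autoImplicit false

namespace Pool.Agent.H290.FX.PFpos

open Polynomial
open scoped Classical
open Pool.Agent.H290.FX.F
open Pool.Agent.H290.FX.PExp (ph)
open Pool.Agent.H985.Chow (mob)
open Pool.Agent.H694.Typ (Mn mem_Mn card_Mn)
open UniqueFactorizationMonoid (normalizedFactors)

variable {K : Type} [Field K]

/-- a finite set of monic primes -/
def MP (S : Finset K[X]) : Prop := ∀ P ∈ S, P.Monic ∧ Irreducible P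

theorem eq_of_dvd {P Q : K[X]} (h1 : P.Monic) (h2 : Irreducible P) (h3 : Q.Monic)
    (h4 : Irreducible Q) (h : P ∣ Q) : P = Q :=
  eq_of_monic_of_associated h1 h3 (h2.associated_of_dvd h4 h)

theorem monic_v {S : Finset K[X]} (hS : MP S) : (∏ P ∈ S, P).Monic :=
  monic_prod_of_monic S id fun P hP => (hS P hP).1

theorem MP.sub {S T : Finset K[X]} (hS : MP S) (h : T ⊆ S) : MP T := fun P hP => hS P (h hP)

theorem nf_prod {S : Finset K[X]} : MP S → normalizedFactors (∏ P ∈ S, P) = S.val := by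
  induction S using Finset.induction_on with
  | empty =>
    intro _
    rw [Finset.prod_empty, UniqueFactorizationMonoid.normalizedFactors_one]
    rfl
  | insert P s hP ih =>
    intro hS
    have h1 := ih (hS.sub (Finset.subset_insert _ _))
    have h2 := hS P (Finset.mem_insert_self _ _)
    have h3 := monic_v (hS.sub (Finset.subset_insert _ _))
    rw [Finset.prod_insert hP, UniqueFactorizationMonoid.normalizedFactors_mul h2.1.ne_zero
      h3.ne_zero, h1, UniqueFactorizationMonoid.normalizedFactors_irreducible h2.2,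
      h2.1.normalize_eq_self, Finset.insert_val_of_notMem hP]
    rfl

theorem sqf_prod {S : Finset K[X]} (hS : MP S) : Squarefree (∏ P ∈ S, P) := by
  rw [UniqueFactorizationMonoid.squarefree_iff_nodup_normalizedFactors (monic_v hS).ne_zero,
    nf_prod hS]
  exact S.nodup

theorem mob_prod {S : Finset K[X]} (hS : MP S) : mob (∏ P ∈ S, P) = (-1) ^ S.card := by
  unfold mob
  rw [if_pos (sqf_prod hS)]
  have h1 : Multiset.card (normalizedFactors (∏ P ∈ S, P)) =
      Multiset.card (UniqueFactorizationMonoid.factors (∏ P ∈ S, P)) := Multiset.card_map _ _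
  rw [← h1, nf_prod hS]
  rfl

theorem ph_prod [Fintype K] {S : Finset K[X]} (hS : MP S) :
    ph (∏ P ∈ S, P) = ∏ P ∈ S, ((Fintype.card K : ℝ) ^ P.natDegree - 1) := by
  unfold ph
  rw [nf_prod hS, Finset.val_toFinset]

theorem deg_prod {S : Finset K[X]} (hS : MP S) :
    (∏ P ∈ S, P).natDegree = ∑ P ∈ S, P.natDegree :=
  natDegree_prod_of_monic S id fun P hP => (hS P hP).1

theorem cnt [Fintype K] {S : Finset K[X]} : MP S → ∀ N : ℕ, ∑ P ∈ S, P.natDegree ≤ N →
    (((Mn K N).filter (fun s => ∀ P ∈ S, ¬ P ∣ s)).card : ℝ) =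
      (Fintype.card K : ℝ) ^ (N - ∑ P ∈ S, P.natDegree) *
        ∏ P ∈ S, ((Fintype.card K : ℝ) ^ P.natDegree - 1) := by
  induction S using Finset.induction_on with
  | empty =>
    intro _ N _
    rw [Finset.sum_empty, Finset.prod_empty, mul_one, Nat.sub_zero]
    have h1 : (Mn K N).filter (fun s => ∀ P ∈ (∅ : Finset K[X]), ¬ P ∣ s) = Mn K N :=
      Finset.filter_true_of_mem fun s _ P hP => absurd hP (Finset.notMem_empty P)
    rw [h1, card_Mn]
    push_cast
    rfl
  | insert P₀ S hP₀ ih =>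
    intro hS N hN
    have hS' := hS.sub (Finset.subset_insert P₀ S)
    have hP := hS P₀ (Finset.mem_insert_self _ _)
    rw [Finset.sum_insert hP₀] at hN ⊢
    rw [Finset.prod_insert hP₀]
    have h1 := ih hS' N (by omega)
    have h2 := ih hS' (N - P₀.natDegree) (by omega)
    have h3 : (Mn K N).filter (fun s => ∀ P ∈ insert P₀ S, ¬ P ∣ s) =
        ((Mn K N).filter (fun s => ∀ P ∈ S, ¬ P ∣ s)).filter (fun s => ¬ P₀ ∣ s) := by
      rw [Finset.filter_filter]
      refine Finset.filter_congr fun s _ => ?_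
      rw [Finset.forall_mem_insert]
      exact and_comm
    have h4 := Finset.card_filter_add_card_filter_not
      (s := (Mn K N).filter (fun s => ∀ P ∈ S, ¬ P ∣ s)) (fun s => P₀ ∣ s)
    have h5 : (((Mn K N).filter (fun s => ∀ P ∈ S, ¬ P ∣ s)).filter (fun s => P₀ ∣ s)).card =
        ((Mn K (N - P₀.natDegree)).filter (fun s => ∀ P ∈ S, ¬ P ∣ s)).card := by
      symm
      refine Finset.card_bij (fun f _ => P₀ * f) ?_ ?_ ?_
      · intro f hf
        rw [Finset.mem_filter, mem_Mn] at hf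
        rw [Finset.mem_filter, Finset.mem_filter, mem_Mn]
        refine ⟨⟨⟨hP.1.mul hf.1.1, ?_⟩, ?_⟩, dvd_mul_right _ _⟩
        · rw [hP.1.natDegree_mul hf.1.1, hf.1.2]
          omega
        · intro P hPS hdv
          have hPp := hS' P hPS
          rcases hPp.2.prime.dvd_or_dvd hdv with h | h
          · have := eq_of_dvd hPp.1 hPp.2 hP.1 hP.2 h
            rw [this] at hPS
            exact hP₀ hPS
          · exact hf.2 P hPS h
      · intro f _ f' _ hff
        exact mul_left_cancel₀ hP.1.ne_zero hff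
      · intro f hf
        rw [Finset.mem_filter, Finset.mem_filter, mem_Mn] at hf
        obtain ⟨⟨⟨hf1, hf2⟩, hf3⟩, f', hff⟩ := hf
        have h6 : f'.Monic := by
          rw [hff] at hf1
          exact hP.1.of_mul_monic_left hf1
        refine ⟨f', ?_, hff.symm⟩
        rw [Finset.mem_filter, mem_Mn]
        refine ⟨⟨h6, ?_⟩, ?_⟩
        · rw [hff, hP.1.natDegree_mul h6] at hf2
          omega
        · intro P hPS hdv
          apply hf3 P hPS
          rw [hff]
          exact hdv.mul_left _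
    rw [h3]
    have h6 : ((((Mn K N).filter (fun s => ∀ P ∈ S, ¬ P ∣ s)).filter
        (fun s => ¬ P₀ ∣ s)).card : ℝ) =
        (((Mn K N).filter (fun s => ∀ P ∈ S, ¬ P ∣ s)).card : ℝ) -
        (((Mn K (N - P₀.natDegree)).filter (fun s => ∀ P ∈ S, ¬ P ∣ s)).card : ℝ) := by
      rw [← h5, ← h4]
      push_cast
      ring
    rw [h6, h1, h2]
    have h7 : N - ∑ P ∈ S, P.natDegree =
        (N - (P₀.natDegree + ∑ P ∈ S, P.natDegree)) + P₀.natDegree := by omega
    have h8 : N - P₀.natDegree - ∑ P ∈ S, P.natDegree =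
        N - (P₀.natDegree + ∑ P ∈ S, P.natDegree) := by omega
    rw [h7, h8, pow_add]
    ring

/-- the primes which divide `r` exactly once, without `X` -/
noncomputable def B (r : K[X]) : Finset K[X] :=
  (normalizedFactors r).toFinset.filter (fun P => P ≠ X ∧ ¬ P ^ 2 ∣ r)

theorem mem_B {r P : K[X]} (hr : r ≠ 0) : P ∈ B r ↔
    (P.Monic ∧ Irreducible P) ∧ P ∣ r ∧ P ≠ X ∧ ¬ P ^ 2 ∣ r := by
  unfold B
  rw [Finset.mem_filter, Multiset.mem_toFinset, Polynomial.mem_normalizedFactors_iff hr]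
  constructor
  · rintro ⟨⟨a, b, c⟩, d⟩
    exact ⟨⟨b, a⟩, c, d⟩
  · rintro ⟨⟨b, a⟩, c, d⟩
    exact ⟨⟨a, b, c⟩, d⟩

theorem mul_div {v r : K[X]} (hv : v.Monic) (h : v ∣ r) : v * (r /ₘ v) = r := by
  have h1 := modByMonic_add_div r v
  rw [(modByMonic_eq_zero_iff_dvd hv).2 h, zero_add] at h1
  exact h1

theorem cop_prime {P Q : K[X]} (h1 : P.Monic ∧ Irreducible P) (h2 : Q.Monic ∧ Irreducible Q)
    (h : P ≠ Q) : IsCoprime P Q :=
  (h1.2.coprime_iff_not_dvd).2 fun h3 => h (eq_of_dvd h1.1 h1.2 h2.1 h2.2 h3)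

theorem MP_B {r : K[X]} (hr : r ≠ 0) {S : Finset K[X]} (hS : S ⊆ B r) : MP S :=
  fun _ hP => ((mem_B hr).1 (hS hP)).1

theorem v_dvd {r : K[X]} (hr : r ≠ 0) {S : Finset K[X]} (hS : S ⊆ B r) :
    (∏ P ∈ S, P) ∣ r := by
  refine Finset.prod_dvd_of_coprime (fun P hP Q hQ hPQ => ?_) fun P hP =>
    ((mem_B hr).1 (hS hP)).2.1
  exact cop_prime (MP_B hr hS P hP) (MP_B hr hS Q hQ) hPQ

theorem v_cop {r : K[X]} (hr : r ≠ 0) {S : Finset K[X]} (hS : S ⊆ B r) :
    IsCoprime (∏ P ∈ S, P) (X * (r /ₘ (∏ P ∈ S, P))) := by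
  refine IsCoprime.prod_left fun P hP => ?_
  obtain ⟨h1, h2, h3, h4⟩ := (mem_B hr).1 (hS hP)
  refine (h1.2.coprime_iff_not_dvd).2 fun h => ?_
  rcases h1.2.prime.dvd_or_dvd h with h5 | h5
  · exact h3 (eq_of_dvd h1.1 h1.2 monic_X irreducible_X h5)
  · apply h4
    have h6 := mul_div (monic_v (MP_B hr hS)) (v_dvd hr hS)
    rw [← h6, pow_two]
    exact mul_dvd_mul (Finset.dvd_prod_of_mem _ hP) h5

theorem single {r P : K[X]} (hr : r ≠ 0) (hP : P ∈ B r) :
    P * (r /ₘ P) = r ∧ IsCoprime P (X * (r /ₘ P)) := by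
  have h := v_cop hr (S := {P}) (Finset.singleton_subset_iff.2 hP)
  rw [Finset.prod_singleton] at h
  exact ⟨mul_div ((mem_B hr).1 hP).1.1 ((mem_B hr).1 hP).2.1, h⟩

/-- the class for `v` is the sum of the classes for the primes -/
theorem cv_sum
    (hc : ∀ g v : K[X], g.Monic → v.Monic → Squarefree v → IsCoprime v (X * g) →
      (g ∣ cv g v ∧ v ∣ X * cv g v ^ 2 + 1 ∧ (cv g v).degree < (g * v).degree) ∧
      ∀ c : K[X], g ∣ c → v ∣ X * c ^ 2 + 1 → g * v ∣ c - cv g v)
    {r : K[X]} (hr : r.Monic) {S : Finset K[X]} (hS : S ⊆ B r) :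
    cv (r /ₘ (∏ P ∈ S, P)) (∏ P ∈ S, P) = ∑ P ∈ S, cv (r /ₘ P) P := by
  have hr0 := hr.ne_zero
  have hMP := MP_B hr0 hS
  set v := ∏ P ∈ S, P with hv
  have hvm : v.Monic := monic_v hMP
  have hvr : v * (r /ₘ v) = r := mul_div hvm (v_dvd hr0 hS)
  have hgm : (r /ₘ v).Monic := by
    have h := hr
    rw [← hvr] at h
    exact hvm.of_mul_monic_left h
  have hgv : (r /ₘ v) * v = r := by rw [mul_comm]; exact hvr
  obtain ⟨⟨a1, a2, a3⟩, a4⟩ := hc _ v hgm hvm (sqf_prod hMP) (v_cop hr0 hS)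
  -- the primes
  have hone : ∀ P ∈ S, (r /ₘ P) ∣ cv (r /ₘ P) P ∧ P ∣ X * cv (r /ₘ P) P ^ 2 + 1 ∧
      (cv (r /ₘ P) P).degree < r.degree := by
    intro P hP
    obtain ⟨b1, b2⟩ := single hr0 (hS hP)
    have hPp := hMP P hP
    have hm : (r /ₘ P).Monic := by
      have h := hr
      rw [← b1] at h
      exact hPp.1.of_mul_monic_left h
    obtain ⟨⟨c1, c2, c3⟩, -⟩ := hc _ P hm hPp.1 hPp.2.squarefree b2
    refine ⟨c1, c2, ?_⟩
    rw [mul_comm, b1] at c3
    exact c3
  set c := ∑ P ∈ S, cv (r /ₘ P) P with hcdef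
  have h1 : (r /ₘ v) ∣ c := by
    refine Finset.dvd_sum fun P hP => ?_
    refine dvd_trans ?_ (hone P hP).1
    have hPp := hMP P hP
    have e1 : v = P * ∏ Q ∈ S.erase P, Q := (Finset.mul_prod_erase S (fun P => P) hP).symm
    refine ⟨∏ Q ∈ S.erase P, Q, ?_⟩
    apply mul_left_cancel₀ hPp.1.ne_zero
    rw [(single hr0 (hS hP)).1]
    calc r = v * (r /ₘ v) := hvr.symm
      _ = (P * ∏ Q ∈ S.erase P, Q) * (r /ₘ v) := by rw [← e1]
      _ = P * ((r /ₘ v) * ∏ Q ∈ S.erase P, Q) := by ring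
  have h2 : v ∣ X * c ^ 2 + 1 := by
    refine Finset.prod_dvd_of_coprime (fun P hP Q hQ hPQ =>
      cop_prime (hMP P hP) (hMP Q hQ) hPQ) fun P hP => ?_
    have hPp := hMP P hP
    have e1 : c = cv (r /ₘ P) P + ∑ Q ∈ S.erase P, cv (r /ₘ Q) Q :=
      (Finset.add_sum_erase S _ hP).symm
    have e2 : P ∣ ∑ Q ∈ S.erase P, cv (r /ₘ Q) Q := by
      refine Finset.dvd_sum fun Q hQ => ?_
      obtain ⟨hQP, hQS⟩ := Finset.mem_erase.1 hQ
      refine dvd_trans ?_ (hone Q hQS).1
      have h3 : P ∣ Q * (r /ₘ Q) := by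
        rw [(single hr0 (hS hQS)).1]
        exact ((mem_B hr0).1 (hS hP)).2.1
      rcases hPp.2.prime.dvd_or_dvd h3 with h | h
      · have hQp := hMP Q hQS
        exact absurd (eq_of_dvd hPp.1 hPp.2 hQp.1 hQp.2 h).symm hQP
      · exact h
    have e3 : X * c ^ 2 + 1 = (X * cv (r /ₘ P) P ^ 2 + 1) +
        (∑ Q ∈ S.erase P, cv (r /ₘ Q) Q) *
          (X * (2 * cv (r /ₘ P) P + ∑ Q ∈ S.erase P, cv (r /ₘ Q) Q)) := by
      rw [e1]
      ring
    rw [e3]
    exact dvd_add (hone P hP).2.1 (e2.mul_right _)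
  have h3 := a4 c h1 h2
  rw [hgv] at h3 a3
  have h4 : c.degree < r.degree := by
    refine (degree_sum_le S _).trans_lt ((Finset.sup_lt_iff ?_).2 fun P hP => (hone P hP).2.2)
    rw [bot_lt_iff_ne_bot]
    exact fun h => hr0 (degree_eq_bot.1 h)
  have h5 : (c - cv (r /ₘ v) v).degree < r.degree :=
    (degree_sub_le _ _).trans_lt (max_lt h4 a3)
  exact (sub_eq_zero.1 (eq_zero_of_dvd_of_degree_lt h3 h5)).symm

theorem card_main [Fintype K] {r : K[X]} (hr : r.Monic) {n : ℕ} (hn : r.natDegree ≤ n)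
    {S : Finset K[X]} (hS : S ⊆ B r) :
    (((Mn K n).filter (fun s => (r /ₘ (∏ P ∈ S, P)) ∣ s ∧ IsCoprime (∏ P ∈ S, P) s)).card : ℝ) =
      (Fintype.card K : ℝ) ^ (n - r.natDegree) * ph (∏ P ∈ S, P) := by
  have hr0 := hr.ne_zero
  have hMP := MP_B hr0 hS
  have hph := ph_prod hMP
  have hdeg := deg_prod hMP
  have hcop := v_cop hr0 hS
  have hvm : (∏ P ∈ S, P).Monic := monic_v hMP
  have hvr : (∏ P ∈ S, P) * (r /ₘ (∏ P ∈ S, P)) = r := mul_div hvm (v_dvd hr0 hS)
  set v := ∏ P ∈ S, P with hv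
  have hgm : (r /ₘ v).Monic := by
    have h := hr
    rw [← hvr] at h
    exact hvm.of_mul_monic_left h
  have hd : r.natDegree = ∑ P ∈ S, P.natDegree + (r /ₘ v).natDegree := by
    rw [← hdeg, ← hvm.natDegree_mul hgm, hvr]
  have hg : IsCoprime v (r /ₘ v) := hcop.of_mul_right_right
  have h1 := cnt hMP (n - (r /ₘ v).natDegree) (by omega)
  have h2 : n - (r /ₘ v).natDegree - ∑ P ∈ S, P.natDegree = n - r.natDegree := by omega
  rw [h2, ← hph] at h1
  rw [← h1]
  congr 1
  symm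
  refine Finset.card_bij (fun f _ => (r /ₘ v) * f) ?_ ?_ ?_
  · intro f hf
    rw [Finset.mem_filter, mem_Mn] at hf
    rw [Finset.mem_filter, mem_Mn]
    refine ⟨⟨hgm.mul hf.1.1, ?_⟩, dvd_mul_right _ _, ?_⟩
    · rw [hgm.natDegree_mul hf.1.1, hf.1.2]
      omega
    · refine hg.mul_right (IsCoprime.prod_left fun P hP => ?_)
      exact ((hMP P hP).2.coprime_iff_not_dvd).2 (hf.2 P hP)
  · intro f _ f' _ hff
    exact mul_left_cancel₀ hgm.ne_zero hff
  · intro f hf
    rw [Finset.mem_filter, mem_Mn] at hf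
    obtain ⟨⟨hf1, hf2⟩, ⟨f', hff⟩, hf3⟩ := hf
    have h6 : f'.Monic := by
      rw [hff] at hf1
      exact hgm.of_mul_monic_left hf1
    refine ⟨f', ?_, hff.symm⟩
    rw [Finset.mem_filter, mem_Mn]
    refine ⟨⟨h6, ?_⟩, ?_⟩
    · rw [hff, hgm.natDegree_mul h6] at hf2
      omega
    · intro P hP hdv
      have h7 : P ∣ v := Finset.dvd_prod_of_mem _ hP
      have h8 : P ∣ f := by
        rw [hff]
        exact hdv.mul_left _
      exact (hMP P hP).2.not_isUnit (hf3.isUnit_of_dvd' h7 h8)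

theorem mem_DV [Fintype K] {r v : K[X]} : v ∈ DV K r ↔
    (v.Monic ∧ v.natDegree ≤ r.natDegree) ∧ v ∣ r ∧ Squarefree v ∧ IsCoprime v (X * (r /ₘ v)) := by
  unfold DV
  rw [Finset.mem_filter, Finset.mem_biUnion]
  constructor
  · rintro ⟨⟨i, hi, hv⟩, h⟩
    rw [mem_Mn] at hv
    rw [Finset.mem_range] at hi
    exact ⟨⟨hv.1, by omega⟩, h⟩
  · rintro ⟨⟨h1, h2⟩, h⟩
    exact ⟨⟨v.natDegree, Finset.mem_range.2 (by omega), mem_Mn.2 ⟨h1, rfl⟩⟩, h⟩

theorem map_sum_char (χ : AddChar K[X] ℝ) (S : Finset K[X]) (f : K[X] → K[X]) :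
    χ (∑ P ∈ S, f P) = ∏ P ∈ S, χ (f P) := by
  induction S using Finset.induction_on with
  | empty => rw [Finset.sum_empty, Finset.prod_empty, AddChar.map_zero_eq_one]
  | insert P S hP ih =>
    rw [Finset.sum_insert hP, Finset.prod_insert hP, AddChar.map_add_eq_mul, ih]

theorem main : S_tpos := by
  intro hcvx K _ _ _ n r χ hr hrn
  obtain ⟨hc, -, -⟩ := hcvx K
  have hr0 := hr.ne_zero
  have hq1 : (1 : ℝ) < (Fintype.card K : ℝ) := by
    have : 1 < Fintype.card K := Fintype.one_lt_card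
    exact_mod_cast this
  have e1 : ∑ s ∈ Mn K n, Mv χ r s = ∑ v ∈ DV K r, ((mob v : ℝ) * χ (cv (r /ₘ v) v) / ph v) *
      (((Mn K n).filter (fun s => (r /ₘ v) ∣ s ∧ IsCoprime v s)).card : ℝ) := by
    unfold Mv
    simp_rw [Finset.sum_filter]
    rw [Finset.sum_comm]
    refine Finset.sum_congr rfl fun v _ => ?_
    rw [← Finset.sum_filter, Finset.sum_const, nsmul_eq_mul, mul_comm]
  have e2 : ∑ v ∈ DV K r, ((mob v : ℝ) * χ (cv (r /ₘ v) v) / ph v) *
      (((Mn K n).filter (fun s => (r /ₘ v) ∣ s ∧ IsCoprime v s)).card : ℝ) =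
      ∑ S ∈ (B r).powerset, (Fintype.card K : ℝ) ^ (n - r.natDegree) *
        ∏ P ∈ S, -(χ (cv (r /ₘ P) P)) := by
    symm
    refine Finset.sum_bij (fun S _ => ∏ P ∈ S, P) ?_ ?_ ?_ ?_
    · intro S hS
      rw [Finset.mem_powerset] at hS
      have hMP := MP_B hr0 hS
      refine mem_DV.2 ⟨⟨monic_v hMP, ?_⟩, v_dvd hr0 hS, sqf_prod hMP, v_cop hr0 hS⟩
      exact natDegree_le_of_dvd (v_dvd hr0 hS) hr0
    · intro S hS T hT hST
      rw [Finset.mem_powerset] at hS hT
      have h1 := nf_prod (MP_B hr0 hS)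
      have h2 := nf_prod (MP_B hr0 hT)
      rw [hST, h2] at h1
      exact (Finset.val_inj.1 h1).symm
    · intro v hv
      obtain ⟨⟨hvm, hvd⟩, hvr, hvs, hvc⟩ := mem_DV.1 hv
      have hnd := (UniqueFactorizationMonoid.squarefree_iff_nodup_normalizedFactors
        hvm.ne_zero).1 hvs
      refine ⟨(normalizedFactors v).toFinset, ?_, ?_⟩
      · rw [Finset.mem_powerset]
        intro P hP
        rw [Multiset.mem_toFinset, Polynomial.mem_normalizedFactors_iff hvm.ne_zero] at hP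
        obtain ⟨p1, p2, p3⟩ := hP
        have h1 := mul_div hvm hvr
        refine (mem_B hr0).2 ⟨⟨p2, p1⟩, p3.trans hvr, ?_, ?_⟩
        · rintro rfl
          exact p1.not_isUnit (hvc.isUnit_of_dvd' p3 (dvd_mul_right _ _))
        · intro h2
          rw [← h1, pow_two] at h2
          have h3 : ¬ P ∣ r /ₘ v := fun h4 =>
            p1.not_isUnit (hvc.isUnit_of_dvd' p3 (h4.mul_left _))
          have h5 : IsCoprime (P * P) (r /ₘ v) :=
            ((p1.coprime_iff_not_dvd).2 h3).mul_left ((p1.coprime_iff_not_dvd).2 h3)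
          exact p1.not_isUnit (hvs P (h5.dvd_of_dvd_mul_right h2))
      · have h1 : (normalizedFactors v).toFinset.val = normalizedFactors v := by
          rw [Multiset.toFinset_val]
          exact Multiset.dedup_eq_self.2 hnd
        have h2 : ∏ P ∈ (normalizedFactors v).toFinset, P =
            (normalizedFactors v).toFinset.val.prod := by
          rw [Finset.prod_val]
          rfl
        rw [h2, h1, UniqueFactorizationMonoid.prod_normalizedFactors_eq hvm.ne_zero,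
          hvm.normalize_eq_self]
    · intro S hS
      rw [Finset.mem_powerset] at hS
      have hMP := MP_B hr0 hS
      rw [card_main hr hrn hS, cv_sum hc hr hS, mob_prod hMP]
      have hph : ph (∏ P ∈ S, P) ≠ 0 := by
        rw [ph_prod hMP, Finset.prod_ne_zero_iff]
        intro P hP
        have h1 : 0 < P.natDegree := (hMP P hP).2.natDegree_pos
        have h2 := one_lt_pow₀ hq1 h1.ne'
        linarith
      have h1 : χ (∑ P ∈ S, cv (r /ₘ P) P) = ∏ P ∈ S, χ (cv (r /ₘ P) P) := by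
        exact map_sum_char χ S _
      rw [h1, Finset.prod_neg]
      push_cast
      field_simp
  rw [e1, e2, ← Finset.mul_sum, ← Finset.prod_one_add]
  refine mul_nonneg (by positivity) (Finset.prod_nonneg fun P _ => ?_)
  have h1 := Pool.Agent.H290.FX.PExp.abs_one χ (cv (r /ₘ P) P)
  have h2 := le_abs_self (χ (cv (r /ₘ P) P))
  linarith

end Pool.Agent.H290.FX.PFpos
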