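import Pool.Agent.H290.FX.StmF
import Pool.Agent.H290.FX.PFcvx
import Pool.Agent.H604.LD.Hid

/-!
# Task RFIN: the finite character sum
-/

set_option autoImplicit false

namespace Pool.Agent.H290.FX.PFrfin

open Polynomial
open scoped Classical
open Pool.Agent.H290.FX
open Pool.Agent.H290.FX.F
open Pool.Agent.H290.FX.PExp (ph)
open Pool.Agent.H985.Chow (mob)
open Pool.Agent.H694.Typ (Mn mem_Mn)
open Pool.Agent.H604.LD.Hid (Dv mem_Dv sum_mob_zero)

section

variable {K : Type} [Field K]

theorem fc_coprime (s c : K[X]) : IsCoprime (X * (s * c) ^ 2 + 1) (X * s) :=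
  ⟨1, -(s * c ^ 2), by ring⟩

theorem fc_ne [CharP K 2] (x : K[X]) : X * x ^ 2 + 1 ≠ 0 := by
  intro h
  have h1 := congrArg (fun p : K[X] => p.coeff 0) h
  simp at h1

theorem fc_sqf [CharP K 2] (x : K[X]) : Squarefree (X * x ^ 2 + 1) := by
  have hsep : (X * x ^ 2 + 1 : K[X]).Separable := by
    have hd : derivative (X * x ^ 2 + 1 : K[X]) = x ^ 2 := by
      have h2 : (2 : K[X]) = 0 := CharTwo.two_eq_zero
      rw [derivative_add, derivative_mul, derivative_X, derivative_one, derivative_pow]
      simp only [Nat.cast_ofNat]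
      have h3 : (C (2 : K)) = 0 := by
        rw [show (2 : K) = 0 from CharTwo.two_eq_zero, C_0]
      rw [h3]
      ring
    rw [separable_def, hd]
    exact ⟨1, -X, by ring⟩
  exact hsep.squarefree

/-- The Möbius formula for the indicator function of coprimality. -/
theorem ind [Fintype K] {v f : K[X]} (hv : v.Monic) (hf : Squarefree f) :
    (if IsCoprime f v then (1 : ℝ) else 0) =
      ∑ e ∈ (Dv v).filter (fun e => e ∣ f), (mob e : ℝ) := by
  have hf0 : f ≠ 0 := hf.ne_zero
  obtain ⟨G, hG⟩ : ∃ G : K[X], G = normalize (EuclideanDomain.gcd f v) := ⟨_, rfl⟩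
  have hg0 : EuclideanDomain.gcd f v ≠ 0 := by
    intro h
    exact hf0 ((EuclideanDomain.gcd_eq_zero_iff.1 h).1)
  have hGm : G.Monic := by rw [hG]; exact monic_normalize hg0
  have hass : Associated G (EuclideanDomain.gcd f v) := by rw [hG]; exact normalize_associated _
  have hGs : Squarefree G :=
    hf.squarefree_of_dvd (hass.dvd.trans (EuclideanDomain.gcd_dvd_left f v))
  have h1 : (Dv v).filter (fun e => e ∣ f) = Dv G := by
    ext e
    rw [Finset.mem_filter, mem_Dv hv.ne_zero, mem_Dv hGm.ne_zero]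
    constructor
    · rintro ⟨⟨h2, h3⟩, h4⟩
      exact ⟨h2, (EuclideanDomain.dvd_gcd h4 h3).trans hass.symm.dvd⟩
    · rintro ⟨h2, h3⟩
      have h4 := h3.trans hass.dvd
      exact ⟨⟨h2, h4.trans (EuclideanDomain.gcd_dvd_right f v)⟩,
        h4.trans (EuclideanDomain.gcd_dvd_left f v)⟩
  rw [h1]
  split_ifs with h
  · have h2 : IsUnit (EuclideanDomain.gcd f v) := EuclideanDomain.gcd_isUnit_iff.2 h
    have h3 : G = 1 := hGm.isUnit_iff.1 (hass.symm.isUnit h2)
    have h4 : Dv (1 : K[X]) = {1} := by
      ext e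
      rw [mem_Dv one_ne_zero, Finset.mem_singleton]
      constructor
      · rintro ⟨h5, h6⟩
        exact h5.isUnit_iff.1 (isUnit_of_dvd_one h6)
      · rintro rfl
        exact ⟨monic_one, dvd_refl _⟩
    rw [h3, h4, Finset.sum_singleton, Pool.Agent.H604.LD.Hid.mob_one]
    norm_num
  · rw [sum_mob_zero hGm hGs]
    by_contra h2
    have h3 : G.natDegree = 0 := by omega
    have h4 : G = 1 := hGm.natDegree_eq_zero.1 h3
    apply h
    rw [← EuclideanDomain.gcd_isUnit_iff]
    exact hass.isUnit (by rw [h4]; exact isUnit_one)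

end

section

variable {K : Type} [Field K] [Fintype K] [CharP K 2]

/-- The sum over a residue class modulo a proper divisor vanishes. -/
theorem vanish {j : ℕ} {χ : AddChar K[X] ℝ} {r s v g u e : K[X]} (hm : MPer j χ r) (hs : s.Monic)
    (hg : g.Monic) (hv : v.Monic) (hr : r = g * v) (hsu : s = g * u) (huv : IsCoprime u v)
    (hj : 2 * (r.natDegree + s.natDegree) < j) (he : e.Monic) (hev : e ∣ v) (hne : e ≠ v) :
    ∑ c ∈ (Vs K v.natDegree).filter (fun c => e ∣ X * (s * c) ^ 2 + 1), χ (s * c) = 0 := by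
  obtain ⟨e', he'⟩ := hev
  have he'm : e'.Monic := by rw [he'] at hv; exact he.of_mul_monic_left hv
  have hdv : v.natDegree = e.natDegree + e'.natDegree := by rw [he', he.natDegree_mul he'm]
  have hdr : r.natDegree = g.natDegree + v.natDegree := by rw [hr, hg.natDegree_mul hv]
  have he'1 : 0 < e'.natDegree := by
    by_contra h
    have h1 : e' = 1 := he'm.natDegree_eq_zero.1 (by omega)
    rw [h1, mul_one] at he'
    exact hne he'.symm
  have hu' : IsCoprime u e' := huv.of_isCoprime_of_dvd_right ⟨e, by rw [he', mul_comm]⟩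
  -- the nontrivial element
  obtain ⟨y, hy1, hy2⟩ : ∃ y : K[X], y.degree < e'.degree ∧ χ (s * e * y) ≠ 1 := by
    by_contra hcon
    push Not at hcon
    refine hm.2.2 (g * e) (hg.mul he) ?_ ?_
    · rw [hg.natDegree_mul he]
      omega
    · intro w hw
      obtain ⟨a, b, hab⟩ := hu'
      have h1 : (a * w) %ₘ e' + e' * ((a * w) /ₘ e') = a * w := modByMonic_add_div _ _
      obtain ⟨y, hy⟩ : ∃ y, y = (a * w) %ₘ e' := ⟨_, rfl⟩
      obtain ⟨z, hz⟩ : ∃ z, z = (a * w) /ₘ e' := ⟨_, rfl⟩
      rw [← hy, ← hz] at h1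
      have hyd : y.degree < e'.degree := by rw [hy]; exact degree_modByMonic_lt _ he'm
      have h2 : g * e * w = s * e * y + r * (u * z + b * w) := by
        rw [hr, hsu, he']
        linear_combination (-(g * e * w)) * hab - (g * e * u) * h1
      have h3 : (s * e * y).degree < (j : WithBot ℕ) := by
        by_cases hy0 : y = 0
        · rw [hy0, mul_zero, degree_zero]
          exact WithBot.bot_lt_coe j
        · rw [degree_eq_natDegree (mul_ne_zero (mul_ne_zero hs.ne_zero he.ne_zero) hy0),
            natDegree_mul (mul_ne_zero hs.ne_zero he.ne_zero) hy0, hs.natDegree_mul he]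
          have h4 : y.natDegree < e'.natDegree := natDegree_lt_natDegree hy0 hyd
          have h5 : s.natDegree + e.natDegree + y.natDegree < j := by omega
          exact_mod_cast h5
      have h4 : (r * (u * z + b * w)).degree < (j : WithBot ℕ) := by
        have h5 : r * (u * z + b * w) = g * e * w - s * e * y := by rw [h2]; ring
        rw [h5]
        exact (degree_sub_le _ _).trans_lt (max_lt hw h3)
      rw [h2, AddChar.map_add_eq_mul, hcon y hyd, hm.2.1 _ h4, one_mul]
  have hpm : χ (s * e * y) = -1 := by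
    have h1 := Pool.Agent.H290.FX.PExp.sq_one χ (s * e * y)
    rcases mul_self_eq_one_iff.1 h1 with h | h
    · exact absurd h hy2
    · exact h
  set F := (Vs K v.natDegree).filter (fun c => e ∣ X * (s * c) ^ 2 + 1) with hF
  have hstab : ∀ c ∈ F, c + e * y ∈ F := by
    intro c hc
    rw [hF, Finset.mem_filter, mem_Vs] at hc ⊢
    have h3 : (e * y).degree < (v.natDegree : WithBot ℕ) := by
      by_cases hy0 : y = 0
      · rw [hy0, mul_zero, degree_zero]
        exact WithBot.bot_lt_coe _
      · rw [degree_eq_natDegree (mul_ne_zero he.ne_zero hy0), natDegree_mul he.ne_zero hy0]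
        have h4 : y.natDegree < e'.natDegree := natDegree_lt_natDegree hy0 hy1
        have h5 : e.natDegree + y.natDegree < v.natDegree := by omega
        exact_mod_cast h5
    refine ⟨(degree_add_le _ _).trans_lt (max_lt hc.1 h3), ?_⟩
    have h4 : X * (s * (c + e * y)) ^ 2 + 1 =
        (X * (s * c) ^ 2 + 1) + e * (X * s ^ 2 * e * y ^ 2) := by
      have h2 : (2 : K[X]) = 0 := CharTwo.two_eq_zero
      linear_combination (X * s ^ 2 * c * e * y) * h2
    rw [h4]
    exact dvd_add hc.2 (dvd_mul_right _ _)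
  have hinv : ∀ c : K[X], c + e * y + e * y = c := by
    intro c
    rw [add_assoc, CharTwo.add_self_eq_zero, add_zero]
  have h1 : ∑ c ∈ F, χ (s * c) = ∑ c ∈ F, χ (s * (c + e * y)) := by
    refine Finset.sum_nbij' (fun c => c + e * y) (fun c => c + e * y) hstab hstab
      (fun c _ => hinv c) (fun c _ => hinv c) ?_
    intro c _
    rw [hinv]
  have h2 : ∀ c : K[X], χ (s * (c + e * y)) = -χ (s * c) := by
    intro c
    rw [mul_add, AddChar.map_add_eq_mul, ← mul_assoc, hpm]
    ring
  simp only [h2] at h1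
  rw [Finset.sum_neg_distrib] at h1
  linarith

/-- Two roots are equal. -/
theorem root_unique {s v c c' : K[X]} (hv : v.Monic) (hc : c.degree < (v.natDegree : WithBot ℕ))
    (hc' : c'.degree < (v.natDegree : WithBot ℕ)) (h : v ∣ X * (s * c) ^ 2 + 1)
    (h' : v ∣ X * (s * c') ^ 2 + 1) : c = c' := by
  have hs : Squarefree v := (fc_sqf (s * c)).squarefree_of_dvd h
  have hcop : IsCoprime v (X * s) := (fc_coprime s c).of_isCoprime_of_dvd_left h
  have hX : IsCoprime v X := hcop.of_mul_right_left
  have hS : IsCoprime v s := hcop.of_mul_right_right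
  have h1 : v ∣ X * (s * (c - c')) ^ 2 := by
    have h2 : X * (s * (c - c')) ^ 2 = (X * (s * c) ^ 2 + 1) - (X * (s * c') ^ 2 + 1) +
        2 * (X * s ^ 2 * c' ^ 2 - X * s ^ 2 * c * c') := by ring
    have h3 : (2 : K[X]) = 0 := CharTwo.two_eq_zero
    rw [h2, h3, zero_mul, add_zero]
    exact dvd_sub h h'
  have h2 : v ∣ s * (c - c') := hs.isRadical 2 _ (hX.dvd_of_dvd_mul_left h1)
  have h3 : v ∣ c - c' := hS.dvd_of_dvd_mul_left h2
  have h4 : (c - c').degree < v.degree := by
    rw [degree_eq_natDegree hv.ne_zero]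
    exact (degree_sub_le _ _).trans_lt (max_lt hc hc')
  exact sub_eq_zero.1 (eq_zero_of_dvd_of_degree_lt h3 h4)

/-- The ratio of the local factors. -/
theorem facr {s v : K[X]} (hs : s.Monic) (hv : v.Monic) (hsq : Squarefree v)
    (hc : IsCoprime v (X * s)) :
    fac (X * s) / ((Fintype.card K : ℝ) ^ v.natDegree * fac (X * s * v)) = 1 / ph v := by
  have hq : (2 : ℝ) ≤ (Fintype.card K : ℝ) := by
    have : 1 < Fintype.card K := Fintype.one_lt_card
    exact_mod_cast this
  have hXs : X * s ≠ 0 := mul_ne_zero X_ne_zero hs.ne_zero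
  have hpos : ∀ f : K[X], 0 < fac f := by
    intro f
    unfold fac
    refine Finset.prod_pos fun P hP => ?_
    have h1 : 0 < P.natDegree := by
      rw [Multiset.mem_toFinset] at hP
      exact (UniqueFactorizationMonoid.irreducible_of_normalized_factor P hP).natDegree_pos
    have h2 : (1 : ℝ) < (Fintype.card K : ℝ) ^ P.natDegree := one_lt_pow₀ (by linarith) (by omega)
    have h3 : 1 / (Fintype.card K : ℝ) ^ P.natDegree < 1 := by
      rw [div_lt_one (by positivity)]
      exact h2
    linarith
  have h1 : fac (X * s * v) = fac (X * s) * fac v := by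
    unfold fac
    rw [UniqueFactorizationMonoid.normalizedFactors_mul hXs hv.ne_zero, Multiset.toFinset_add,
      Finset.prod_union]
    rw [Finset.disjoint_left]
    intro P hP hP'
    rw [Multiset.mem_toFinset] at hP hP'
    have h2 := UniqueFactorizationMonoid.dvd_of_mem_normalizedFactors hP
    have h3 := UniqueFactorizationMonoid.dvd_of_mem_normalizedFactors hP'
    exact (UniqueFactorizationMonoid.irreducible_of_normalized_factor P hP).not_isUnit
      (hc.isUnit_of_dvd' h3 h2)
  have h2 : (Fintype.card K : ℝ) ^ v.natDegree * fac v = ph v := by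
    unfold fac ph
    rw [PMb.natDegree_sqf hv.ne_zero hsq, ← Finset.prod_pow_eq_pow_sum, ← Finset.prod_mul_distrib]
    refine Finset.prod_congr rfl fun P _ => ?_
    have h1 : (Fintype.card K : ℝ) ^ P.natDegree ≠ 0 := by positivity
    field_simp
  rw [h1, ← h2]
  have h3 := hpos (X * s)
  have h4 := hpos v
  have h5 : 0 < (Fintype.card K : ℝ) ^ v.natDegree := by positivity
  field_simp

end

theorem main : S_trfin := by
  intro hcvx K _ _ _ j χ r s v g u hm hs hg hv hr hsu huv hj
  have hrm : r.Monic := hm.1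
  have hdr : r.natDegree = g.natDegree + v.natDegree := by rw [hr, hg.natDegree_mul hv]
  have hrv : r /ₘ v = g := by
    have h1 := modByMonic_add_div r v
    rw [(modByMonic_eq_zero_iff_dvd hv).2 ⟨g, by rw [hr, mul_comm]⟩, zero_add] at h1
    have h2 : v * (r /ₘ v) = v * g := by rw [h1, hr, mul_comm]
    exact mul_left_cancel₀ hv.ne_zero h2
  -- the sum
  have hsum : ∑ c ∈ (Vs K v.natDegree).filter (fun c => IsCoprime (X * (s * c) ^ 2 + 1) v),
      χ (s * c) = (mob v : ℝ) *
        ∑ c ∈ (Vs K v.natDegree).filter (fun c => v ∣ X * (s * c) ^ 2 + 1), χ (s * c) := by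
    rw [Finset.sum_filter]
    have h1 : ∀ c : K[X], (if IsCoprime (X * (s * c) ^ 2 + 1) v then χ (s * c) else 0) =
        ∑ e ∈ Dv v, (mob e : ℝ) * (if e ∣ X * (s * c) ^ 2 + 1 then χ (s * c) else 0) := by
      intro c
      have h2 := ind hv (fc_sqf (s * c))
      have h3 : (if IsCoprime (X * (s * c) ^ 2 + 1) v then χ (s * c) else 0) =
          (if IsCoprime (X * (s * c) ^ 2 + 1) v then (1 : ℝ) else 0) * χ (s * c) := by
        split_ifs <;> ring
      rw [h3, h2, Finset.sum_mul, Finset.sum_filter]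
      refine Finset.sum_congr rfl fun e _ => ?_
      split_ifs <;> ring
    rw [Finset.sum_congr rfl fun c _ => h1 c, Finset.sum_comm]
    have hvv : v ∈ Dv v := by rw [mem_Dv hv.ne_zero]; exact ⟨hv, dvd_refl _⟩
    rw [Finset.sum_eq_single_of_mem v hvv]
    · rw [← Finset.mul_sum, Finset.sum_filter]
    · intro e he hne
      rw [mem_Dv hv.ne_zero] at he
      rw [← Finset.mul_sum, ← Finset.sum_filter,
        vanish hm hs hg hv hr hsu huv hj he.1 he.2 hne, mul_zero]
  rw [hsum]
  by_cases hex : ∃ c : K[X], c.degree < (v.natDegree : WithBot ℕ) ∧ v ∣ X * (s * c) ^ 2 + 1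
  · obtain ⟨c, hc1, hc2⟩ := hex
    have hsq : Squarefree v := (fc_sqf (s * c)).squarefree_of_dvd hc2
    have hcop : IsCoprime v (X * s) := (fc_coprime s c).of_isCoprime_of_dvd_left hc2
    have hvs : IsCoprime v s := hcop.of_mul_right_right
    have hvX : IsCoprime v X := hcop.of_mul_right_left
    have hvg : IsCoprime v g := hvs.of_isCoprime_of_dvd_right ⟨u, hsu⟩
    have hvXg : IsCoprime v (X * g) := hvX.mul_right hvg
    have h1 : (Vs K v.natDegree).filter (fun c => v ∣ X * (s * c) ^ 2 + 1) = {c} := by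
      ext c'
      rw [Finset.mem_filter, mem_Vs, Finset.mem_singleton]
      constructor
      · rintro ⟨h2, h3⟩
        exact root_unique hv h2 hc1 h3 hc2
      · rintro rfl
        exact ⟨hc1, hc2⟩
    rw [h1, Finset.sum_singleton]
    have hmem : v ∈ (DV K r).filter (fun v => (r /ₘ v) ∣ s ∧ IsCoprime v s) := by
      rw [Finset.mem_filter]
      refine ⟨?_, ?_, hvs⟩
      · unfold DV
        rw [Finset.mem_filter, Finset.mem_biUnion]
        refine ⟨⟨v.natDegree, ?_, ?_⟩, ⟨g, by rw [hr, mul_comm]⟩, hsq, ?_⟩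
        · rw [Finset.mem_range]; omega
        · rw [mem_Mn]; exact ⟨hv, rfl⟩
        · rw [hrv]; exact hvXg
      · rw [hrv]; exact ⟨u, hsu⟩
    have h2 : (DV K r).filter (fun v => (r /ₘ v) ∣ s ∧ IsCoprime v s) = {v} := by
      have h3 := PFcvx.card_le r s hrm
      rw [Finset.card_le_one] at h3
      ext w
      rw [Finset.mem_singleton]
      constructor
      · intro hw
        exact h3 w hw v hmem
      · rintro rfl
        exact hmem
    have h3 : Mv χ r s = (mob v : ℝ) * χ (cv g v) / ph v := by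
      unfold Mv
      rw [h2, Finset.sum_singleton, hrv]
    obtain ⟨⟨k1, k2, k3⟩, k4⟩ := (hcvx K).1 g v hg hv hsq hvXg
    have h4 : χ (s * c) = χ (cv g v) := by
      obtain ⟨z, hz⟩ := k4 (s * c) ((Dvd.intro u hsu.symm).mul_right c) hc2
      have h5 : (r * z).degree < (j : WithBot ℕ) := by
        rw [hr, ← hz]
        refine (degree_sub_le _ _).trans_lt (max_lt ?_ ?_)
        · by_cases hc0 : c = 0
          · rw [hc0, mul_zero, degree_zero]
            exact WithBot.bot_lt_coe _
          · rw [degree_eq_natDegree (mul_ne_zero hs.ne_zero hc0), natDegree_mul hs.ne_zero hc0]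
            have h6 : c.natDegree < v.natDegree := by
              rw [degree_eq_natDegree hc0] at hc1
              exact_mod_cast hc1
            have h7 : s.natDegree + c.natDegree < j := by omega
            exact_mod_cast h7
        · refine k3.trans_le ?_
          rw [← hr, degree_eq_natDegree hrm.ne_zero]
          have h7 : r.natDegree ≤ j := by omega
          exact_mod_cast h7
      have h6 : s * c = cv g v + r * z := by
        rw [hr, ← hz]; ring
      rw [h6, AddChar.map_add_eq_mul, hm.2.1 z h5, mul_one]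
    rw [facr hs hv hsq hcop, h3, h4]
    ring
  · have h1 : (Vs K v.natDegree).filter (fun c => v ∣ X * (s * c) ^ 2 + 1) = ∅ := by
      rw [Finset.filter_eq_empty_iff]
      intro c hc h2
      rw [mem_Vs] at hc
      exact hex ⟨c, hc, h2⟩
    rw [h1, Finset.sum_empty, mul_zero, mul_zero]
    symm
    unfold Mv
    refine Finset.sum_eq_zero fun w hw => ?_
    exfalso
    rw [Finset.mem_filter] at hw
    obtain ⟨hw1, hw2, hw3⟩ := hw
    unfold DV at hw1
    rw [Finset.mem_filter, Finset.mem_biUnion] at hw1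
    obtain ⟨⟨i, -, hi⟩, k1, k2, k3⟩ := hw1
    rw [mem_Mn] at hi
    have hwm := hi.1
    have hgw : r = w * (r /ₘ w) := by
      have h8 := modByMonic_add_div r w
      rw [(modByMonic_eq_zero_iff_dvd hwm).2 k1, zero_add] at h8
      exact h8.symm
    obtain ⟨g', hg'⟩ : ∃ g', g' = r /ₘ w := ⟨_, rfl⟩
    rw [← hg'] at hgw hw2 k3
    -- `w = v`
    have hwg : IsCoprime w g := hw3.of_isCoprime_of_dvd_right ⟨u, hsu⟩
    have h2 : w ∣ v := by
      refine hwg.dvd_of_dvd_mul_left ?_
      rw [← hr]
      exact ⟨g', hgw⟩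
    obtain ⟨v', hv'⟩ := h2
    have h3 : g' = g * v' := by
      have h4 : w * g' = w * (g * v') := by
        rw [← hgw, hr, hv']; ring
      exact mul_left_cancel₀ hwm.ne_zero h4
    have h4 : v' ∣ u := by
      rw [h3, hsu] at hw2
      exact (mul_dvd_mul_iff_left hg.ne_zero).1 hw2
    have h5 : IsUnit v' := huv.isUnit_of_dvd' h4 ⟨w, by rw [hv', mul_comm]⟩
    have hv'm : v'.Monic := by rw [hv'] at hv; exact hwm.of_mul_monic_left hv
    have h6 : v' = 1 := hv'm.isUnit_iff.1 h5
    rw [h6, mul_one] at hv' h3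
    rw [← hv'] at k2 hw3 k3 hwm
    rw [h3] at k3
    obtain ⟨⟨l1, l2, l3⟩, l4⟩ := (hcvx K).1 g v hg hv k2 k3
    obtain ⟨a, b, hab⟩ := hw3.symm
    refine hex ⟨(a * cv g v) %ₘ v, ?_, ?_⟩
    · rw [← degree_eq_natDegree hv.ne_zero]
      exact degree_modByMonic_lt _ hv
    · have h7 := modByMonic_add_div (a * cv g v) v
      obtain ⟨z, hz⟩ : ∃ z, z = (a * cv g v) /ₘ v := ⟨_, rfl⟩
      rw [← hz] at h7
      have h8 : (a * cv g v) %ₘ v = a * cv g v - v * z := by linear_combination h7
      rw [h8]
      have h9 : s * (a * cv g v - v * z) = cv g v - v * (b * cv g v + s * z) := by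
        linear_combination (cv g v) * hab
      rw [h9]
      have h10 : X * (cv g v - v * (b * cv g v + s * z)) ^ 2 + 1 =
          (X * cv g v ^ 2 + 1) + v * (X * (v * (b * cv g v + s * z) ^ 2 -
            2 * cv g v * (b * cv g v + s * z))) := by ring
      rw [h10]
      exact dvd_add l2 (dvd_mul_right _ _)

end Pool.Agent.H290.FX.PFrfin
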