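import Pool.Agent.H290.FX.StmL
import Pool.Agent.H290.FX.PL2

/-!
# Sums of two `a` with `a ^ 2 + X` irreducible and of `k` monomials: the circle method (helper363)
-/

set_option autoImplicit false

namespace Pool.Agent.H290.FX.PLgl

open Polynomial
open scoped Classical
open Pool.Agent.H985.KP (sg PA)
open Pool.Agent.H694.Typ (Mn PU mem_Mn card_Mn)
open Pool.Agent.H290.FX
open Pool.Agent.H290.FX.L

section

variable {K : Type} [Field K] [Fintype K]

theorem Mo_deg {d : ℕ} {m : K[X]} (hm : m ∈ Mo K d) : m.degree < (d : WithBot ℕ) := by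
  unfold Mo at hm
  obtain ⟨p, hp, rfl⟩ := Finset.mem_image.1 hm
  obtain ⟨hp1, hp2⟩ := Finset.mem_product.1 hp
  refine lt_of_le_of_lt (degree_C_mul_X_pow_le p.2 p.1) ?_
  exact_mod_cast Finset.mem_range.1 hp2

theorem card_Mo (d : ℕ) : ((Mo K d).card : ℝ) = ((Fintype.card K : ℝ) - 1) * d := by
  unfold Mo
  rw [Finset.card_image_of_injOn, Finset.card_product, Finset.card_range]
  · have h1 : (Finset.univ.filter (fun b : K => b ≠ 0)).card = Fintype.card K - 1 := by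
      rw [Finset.filter_ne', Finset.card_erase_of_mem (Finset.mem_univ _), Finset.card_univ]
    have h2 : 1 ≤ Fintype.card K := Fintype.card_pos
    rw [h1]
    push_cast [Nat.cast_sub h2]
    ring
  · rintro ⟨c, i⟩ h ⟨c', j⟩ _ heq
    have hc : c ≠ 0 := by
      have h1 := (Finset.mem_product.1 (Finset.mem_coe.1 h)).1
      exact (Finset.mem_filter.1 h1).2
    have h2 : (C c * X ^ i : K[X]) = C c' * X ^ j := heq
    have h3 := congrArg (fun f : K[X] => f.coeff i) h2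
    simp only [coeff_C_mul, coeff_X_pow] at h3
    rw [if_pos trivial, mul_one] at h3
    by_cases hij : i = j
    · rw [if_pos hij, mul_one] at h3
      rw [h3, hij]
    · rw [if_neg hij, mul_zero] at h3
      exact absurd h3 hc

/-- for `q = 2` the monomials different from `1` -/
theorem Mo_two (h2 : Fintype.card K = 2) {d : ℕ} {m : K[X]} (hm : m ∈ (Mo K d).erase 1) :
    m.eval 0 = 0 ∧ m.eval 1 = 1 := by
  obtain ⟨hne, hm⟩ := Finset.mem_erase.1 hm
  unfold Mo at hm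
  obtain ⟨p, hp, rfl⟩ := Finset.mem_image.1 hm
  obtain ⟨hp1, -⟩ := Finset.mem_product.1 hp
  have hc : p.1 ≠ 0 := (Finset.mem_filter.1 hp1).2
  have hc1 : p.1 = 1 := by
    have h3 := FiniteField.pow_card_sub_one_eq_one p.1 hc
    rw [h2] at h3
    simpa using h3
  have hi : p.2 ≠ 0 := by
    intro h0
    apply hne
    rw [hc1, h0, pow_zero, mul_one, C_1]
  constructor
  · rw [eval_mul, eval_C, eval_pow, eval_X, zero_pow hi, mul_zero]
  · rw [eval_mul, eval_C, eval_pow, eval_X, one_pow, mul_one, hc1]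

variable [CharP K 2]

theorem ch_abs (d : ℕ) (H a : K[X]) : |ch d H a| = 1 := by
  rcases chi_pm (ch d H) a with h | h <;> rw [h] <;> norm_num

theorem Gm_le (d : ℕ) (H : K[X]) : |Gm K d H| ≤ (Mo K d).card := by
  unfold Gm
  refine (Finset.abs_sum_le_sum_abs _ _).trans ?_
  rw [Finset.sum_congr rfl fun m _ => ch_abs d H m, Finset.sum_const, nsmul_eq_mul, mul_one]

theorem SX_le (d : ℕ) (H : K[X]) : |SX K d (ch d H)| ≤ (Fintype.card K : ℝ) ^ d := by
  unfold SX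
  refine (Finset.abs_sum_le_sum_abs _ _).trans ?_
  rw [Finset.sum_congr rfl fun m _ => ch_abs d H m, Finset.sum_const, nsmul_eq_mul, mul_one]
  have e2 : ((Mn K d).filter (fun a => Irreducible (a ^ 2 + X))).card ≤ Fintype.card K ^ d := by
    rw [← card_Mn]
    exact Finset.card_le_card (Finset.filter_subset _ _)
  exact_mod_cast e2

theorem ch_sum {ι : Type} (d : ℕ) (H : K[X]) (s : Finset ι) (f : ι → K[X]) :
    ch d H (∑ i ∈ s, f i) = ∏ i ∈ s, ch d H (f i) := by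
  induction s using Finset.induction_on with
  | empty => rw [Finset.sum_empty, Finset.prod_empty, AddChar.map_zero_eq_one]
  | insert a s ha ih => rw [Finset.sum_insert ha, Finset.prod_insert ha, AddChar.map_add_eq_mul, ih]

theorem Gm_pow (d k : ℕ) (H : K[X]) : (Gm K d H) ^ k =
    ∑ m ∈ Fintype.piFinset (fun _ : Fin k => Mo K d), ch d H (∑ i, m i) := by
  unfold Gm
  rw [← Fin.prod_const k (∑ m ∈ Mo K d, ch d H m), Finset.prod_univ_sum]
  exact Finset.sum_congr rfl fun m _ => (ch_sum d H _ _).symm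

omit [CharP K 2] in
theorem sum_deg {d k : ℕ} {m : Fin k → K[X]}
    (hm : m ∈ Fintype.piFinset (fun _ : Fin k => Mo K d)) :
    (∑ i, m i).degree < (d : WithBot ℕ) := by
  rw [Fintype.mem_piFinset] at hm
  rw [← mem_degreeLT]
  exact Submodule.sum_mem _ fun i _ => mem_degreeLT.2 (Mo_deg (hm i))

theorem rep (horth : S_orth) (d k : ℕ) (b : K[X]) (hb : b.degree < (d : WithBot ℕ))
    (hno : ¬ ∃ a₁ ∈ Mn K d, ∃ a₂ ∈ Mn K d, Irreducible (a₁ ^ 2 + X) ∧ Irreducible (a₂ ^ 2 + X) ∧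
        ∃ m : Fin k → K[X], (∀ i, m i ∈ Mo K d) ∧ b = a₁ + a₂ + ∑ i, m i) :
    ∑ H ∈ Vs K d, (SX K d (ch d H)) ^ 2 * (Gm K d H) ^ k * ch d H b = 0 := by
  set A := (Mn K d).filter (fun a => Irreducible (a ^ 2 + X)) with hA
  have h1 : ∀ H ∈ Vs K d, (SX K d (ch d H)) ^ 2 * (Gm K d H) ^ k * ch d H b =
      ∑ a₁ ∈ A, ∑ a₂ ∈ A, ∑ m ∈ Fintype.piFinset (fun _ : Fin k => Mo K d),
        ch d H (a₁ + a₂ + ∑ i, m i + b) := by
    intro H _
    rw [Gm_pow]
    unfold SX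
    rw [sq, Finset.sum_mul_sum, Finset.sum_mul, Finset.sum_mul]
    refine Finset.sum_congr rfl fun a₁ _ => ?_
    rw [Finset.sum_mul, Finset.sum_mul]
    refine Finset.sum_congr rfl fun a₂ _ => ?_
    rw [Finset.mul_sum, Finset.sum_mul]
    refine Finset.sum_congr rfl fun m _ => ?_
    rw [AddChar.map_add_eq_mul, AddChar.map_add_eq_mul, AddChar.map_add_eq_mul]
  rw [Finset.sum_congr rfl h1, Finset.sum_comm]
  refine Finset.sum_eq_zero fun a₁ ha₁ => ?_
  rw [Finset.sum_comm]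
  refine Finset.sum_eq_zero fun a₂ ha₂ => ?_
  rw [Finset.sum_comm]
  refine Finset.sum_eq_zero fun m hm => ?_
  obtain ⟨h11, h12⟩ := Finset.mem_filter.1 ha₁
  obtain ⟨h21, h22⟩ := Finset.mem_filter.1 ha₂
  have hdeg : (a₁ + a₂ + ∑ i, m i + b).degree < (d : WithBot ℕ) := by
    have g1 := PL2.add_deg h11 h21
    have g2 := sum_deg hm
    rw [← mem_degreeLT] at g1 g2 hb ⊢
    exact Submodule.add_mem _ (Submodule.add_mem _ g1 g2) hb
  rw [horth K d _ hdeg, if_neg]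
  intro h0
  apply hno
  refine ⟨a₁, h11, a₂, h21, h12, h22, m, Fintype.mem_piFinset.1 hm, ?_⟩
  exact (CharTwo.add_eq_zero.1 h0).symm

theorem mainterm (hmb : S_mb) (d t k : ℕ) (ht : 2 * t ≤ d) (b : K[X])
    (hb : b.degree < (d : WithBot ℕ)) :
    ∑ H ∈ Vs K d, (MT K d t (ch d H)) ^ 2 * (Gm K d H) ^ k * ch d H b =
      (Fintype.card K : ℝ) ^ (2 * d) * ∑ m ∈ Fintype.piFinset (fun _ : Fin k => Mo K d),
        Tt K t (b + ∑ i, m i) := by
  have h1 : ∀ H ∈ Vs K d, (MT K d t (ch d H)) ^ 2 * (Gm K d H) ^ k * ch d H b =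
      ∑ m ∈ Fintype.piFinset (fun _ : Fin k => Mo K d),
        ch d H (b + ∑ i, m i) * (MT K d t (ch d H)) ^ 2 := by
    intro H _
    rw [Gm_pow, Finset.mul_sum, Finset.sum_mul]
    refine Finset.sum_congr rfl fun m _ => ?_
    rw [AddChar.map_add_eq_mul]
    ring
  rw [Finset.sum_congr rfl h1, Finset.sum_comm, Finset.mul_sum]
  refine Finset.sum_congr rfl fun m hm => ?_
  have hdeg : (b + ∑ i, m i).degree < (d : WithBot ℕ) := by
    have g2 := sum_deg hm
    rw [← mem_degreeLT] at g2 hb ⊢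
    exact Submodule.add_mem _ hb g2
  exact hmb K d t _ ht hdeg

/-- the lower bound for the singular series on average -/
theorem tlow {c₀ : ℝ} (hc₀ : 0 < c₀) {d t k : ℕ} (hd : 2 * k ≤ d) (hd1 : 1 ≤ d) (b : K[X])
    (hb : b.degree < (d : WithBot ℕ))
    (hb2 : Fintype.card K = 2 → b.eval 0 = 0 ∧ b.eval 1 = (k : K))
    (hss : ∀ h : K[X], h.degree < (d : WithBot ℕ) → -(c₀ / 4) ≤ Tt K t h ∧
      ((Fintype.card K = 2 → h.eval 0 = 0 ∧ h.eval 1 = 0) → c₀ ≤ Tt K t h)) :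
    c₀ / 4 * ((Mo K d).card : ℝ) ^ k ≤ ∑ m ∈ Fintype.piFinset (fun _ : Fin k => Mo K d),
        Tt K t (b + ∑ i, m i) := by
  have hdeg : ∀ m ∈ Fintype.piFinset (fun _ : Fin k => Mo K d),
      (b + ∑ i, m i).degree < (d : WithBot ℕ) := by
    intro m hm
    have g2 := sum_deg hm
    rw [← mem_degreeLT] at g2 hb ⊢
    exact Submodule.add_mem _ hb g2
  have hcard : ((Fintype.piFinset (fun _ : Fin k => Mo K d)).card : ℝ) =
      ((Mo K d).card : ℝ) ^ k := by
    rw [Fintype.card_piFinset, Fin.prod_const]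
    push_cast
    rfl
  by_cases h2 : Fintype.card K = 2
  · have hNd : ((Mo K d).card : ℝ) = d := by
      rw [card_Mo, h2]
      push_cast
      ring
    have hsub : Fintype.piFinset (fun _ : Fin k => (Mo K d).erase 1) ⊆
        Fintype.piFinset (fun _ : Fin k => Mo K d) := by
      intro m hm
      rw [Fintype.mem_piFinset] at hm ⊢
      exact fun i => Finset.mem_of_mem_erase (hm i)
    have hcard' : ((d : ℝ) - 1) ^ k ≤
        ((Fintype.piFinset (fun _ : Fin k => (Mo K d).erase 1)).card : ℝ) := by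
      rw [Fintype.card_piFinset, Fin.prod_const]
      push_cast
      have hd1' : (1 : ℝ) ≤ d := by exact_mod_cast hd1
      refine pow_le_pow_left₀ (by linarith) ?_ k
      have h3 := Finset.pred_card_le_card_erase (s := Mo K d) (a := 1)
      have h4 : (Mo K d).card ≤ ((Mo K d).erase 1).card + 1 := by omega
      have h5 : ((Mo K d).card : ℝ) ≤ (((Mo K d).erase 1).card : ℝ) + 1 := by exact_mod_cast h4
      linarith
    have hpt : ∀ m ∈ Fintype.piFinset (fun _ : Fin k => Mo K d),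
        -(c₀ / 4) + (if m ∈ Fintype.piFinset (fun _ : Fin k => (Mo K d).erase 1) then
          5 * c₀ / 4 else 0) ≤ Tt K t (b + ∑ i, m i) := by
      intro m hm
      obtain ⟨g1, g2⟩ := hss _ (hdeg m hm)
      split_ifs with hin
      · have g3 := g2 fun _ => by
          rw [Fintype.mem_piFinset] at hin
          obtain ⟨b0, b1⟩ := hb2 h2
          constructor
          · rw [eval_add, b0, eval_finsetSum, zero_add]
            exact Finset.sum_eq_zero fun i _ => (Mo_two h2 (hin i)).1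
          · rw [eval_add, b1, eval_finsetSum, Finset.sum_congr rfl fun i _ => (Mo_two h2 (hin i)).2]
            rw [Finset.sum_const, Finset.card_univ, Fintype.card_fin, nsmul_eq_mul, mul_one]
            exact CharTwo.add_self_eq_zero _
        linarith
      · linarith
    refine le_trans ?_ (Finset.sum_le_sum hpt)
    rw [Finset.sum_add_distrib, Finset.sum_const, nsmul_eq_mul, hcard, ← Finset.sum_filter,
      Finset.sum_const, nsmul_eq_mul]
    have h6 : (Fintype.piFinset (fun _ : Fin k => Mo K d)).filter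
        (fun m => m ∈ Fintype.piFinset (fun _ : Fin k => (Mo K d).erase 1)) =
        Fintype.piFinset (fun _ : Fin k => (Mo K d).erase 1) := by
      ext m
      rw [Finset.mem_filter]
      exact ⟨fun h => h.2, fun h => ⟨hsub h, h⟩⟩
    rw [h6, hNd]
    have hd0 : (0 : ℝ) < d := by exact_mod_cast hd1
    have h7 : (d : ℝ) ^ k / 2 ≤ ((d : ℝ) - 1) ^ k := by
      have h8 := one_add_mul_le_pow (a := -(1 / (d : ℝ))) (by
        have : 1 / (d : ℝ) ≤ 1 := by
          rw [div_le_one hd0]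
          exact_mod_cast hd1
        linarith) k
      have h9 : (1 : ℝ) / 2 ≤ 1 + k * -(1 / (d : ℝ)) := by
        have h10 : (k : ℝ) * (1 / (d : ℝ)) ≤ 1 / 2 := by
          rw [mul_one_div, div_le_div_iff₀ hd0 two_pos]
          have : (2 * k : ℝ) ≤ d := by exact_mod_cast hd
          linarith
        linarith
      have h11 : ((d : ℝ) - 1) ^ k = (d : ℝ) ^ k * (1 + -(1 / (d : ℝ))) ^ k := by
        rw [← mul_pow]
        congr 1
        field_simp
        ring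
      rw [h11]
      have h12 : (0 : ℝ) < (d : ℝ) ^ k := by positivity
      nlinarith
    have h13 := h7.trans hcard'
    have h14 : (0 : ℝ) < (d : ℝ) ^ k := by positivity
    nlinarith [mul_le_mul_of_nonneg_right h13 hc₀.le, mul_pos h14 hc₀]
  · have hpt : ∀ m ∈ Fintype.piFinset (fun _ : Fin k => Mo K d),
        c₀ ≤ Tt K t (b + ∑ i, m i) := fun m hm => (hss _ (hdeg m hm)).2 fun h => absurd h h2
    refine le_trans ?_ (Finset.sum_le_sum hpt)
    rw [Finset.sum_const, nsmul_eq_mul, hcard]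
    have : (0 : ℝ) ≤ ((Mo K d).card : ℝ) ^ k := by positivity
    nlinarith

/-- the second mean square -/
theorem meansq (hper : S_per) {d t : ℕ} (hd : 1 ≤ d) (ht : t ≤ d) {C₃ : ℝ} (hC₃ : 0 < C₃)
    (hub : ∑ H ∈ Vs K d, (SX K d (ch d H)) ^ 2 * (Gm K d H) ^ 2 ≤
      C₃ * (Fintype.card K : ℝ) ^ (2 * d))
    (hf : ∀ H : K[X], (∃ r, MPer d (ch d H) r ∧ r.natDegree ≤ t) →
        |2 * (d : ℝ) * SX K d (ch d H) - MT K d t (ch d H)| ≤
          (Fintype.card K : ℝ) ^ ((d : ℝ) - 2 * t)) :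
    ∑ H ∈ Vs K d, ((2 * (d : ℝ) * SX K d (ch d H)) ^ 2 + (MT K d t (ch d H)) ^ 2) *
      (Gm K d H) ^ 2 ≤
      (12 * C₃ + 4) * ((Mo K d).card : ℝ) ^ 2 * (Fintype.card K : ℝ) ^ (2 * d) := by
  have hq := PL2.q_ge_two (K := K)
  obtain ⟨q, hqdef⟩ : ∃ q : ℝ, q = (Fintype.card K : ℝ) := ⟨_, rfl⟩
  have hq0 : 0 < q := by rw [hqdef]; linarith
  have hd1' : (1 : ℝ) ≤ d := by exact_mod_cast hd
  have hN : (d : ℝ) ≤ (Mo K d).card := by
    rw [card_Mo]
    nlinarith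
  set F := (Vs K d).filter (fun χ => ∃ r, MPer d (ch d χ) r ∧ r.natDegree ≤ t) with hF
  have hFc : (F.card : ℝ) ≤ 2 * ((Fintype.card K : ℝ) ^ t) ^ 2 := PL2.card_mper hper ht
  have hu : (Fintype.card K : ℝ) ^ ((d : ℝ) - 2 * t) = q ^ d / (q ^ t) ^ 2 := by
    rw [← hqdef, Real.rpow_sub hq0, Real.rpow_natCast, ← pow_mul]
    congr 1
    rw [← Real.rpow_natCast]
    congr 1
    push_cast
    ring
  have hpt : ∀ H ∈ F, (MT K d t (ch d H)) ^ 2 * (Gm K d H) ^ 2 ≤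
      2 * ((2 * (d : ℝ) * SX K d (ch d H)) ^ 2 * (Gm K d H) ^ 2) +
        2 * (q ^ d / (q ^ t) ^ 2) ^ 2 * ((Mo K d).card : ℝ) ^ 2 := by
    intro H hH
    have h2 := hf H (Finset.mem_filter.1 hH).2
    rw [hu] at h2
    set x : ℝ := 2 * (d : ℝ) * SX K d (ch d H) with hx
    set y : ℝ := MT K d t (ch d H) with hy
    set u : ℝ := q ^ d / (q ^ t) ^ 2 with hudef
    have h3 : (x - y) ^ 2 ≤ u ^ 2 := by
      rw [← sq_abs (x - y)]
      exact pow_le_pow_left₀ (abs_nonneg _) h2 2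
    have h4 : y ^ 2 ≤ 2 * x ^ 2 + 2 * u ^ 2 := by nlinarith [sq_nonneg (x + (x - y))]
    have h5 : (Gm K d H) ^ 2 ≤ ((Mo K d).card : ℝ) ^ 2 := by
      rw [← sq_abs]
      exact pow_le_pow_left₀ (abs_nonneg _) (Gm_le d H) 2
    calc y ^ 2 * (Gm K d H) ^ 2 ≤ (2 * x ^ 2 + 2 * u ^ 2) * (Gm K d H) ^ 2 :=
          mul_le_mul_of_nonneg_right h4 (sq_nonneg _)
      _ = 2 * (x ^ 2 * (Gm K d H) ^ 2) + 2 * u ^ 2 * (Gm K d H) ^ 2 := by ring
      _ ≤ _ := by
          have := mul_le_mul_of_nonneg_left h5 (by positivity : (0 : ℝ) ≤ 2 * u ^ 2)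
          linarith
  have h4 : ∑ H ∈ Vs K d, (MT K d t (ch d H)) ^ 2 * (Gm K d H) ^ 2 =
      ∑ H ∈ F, (MT K d t (ch d H)) ^ 2 * (Gm K d H) ^ 2 := by
    rw [hF, Finset.sum_filter]
    refine Finset.sum_congr rfl fun χ _ => ?_
    split_ifs with h5
    · rfl
    · rw [PL2.MT_zero h5]; ring
  have hx2 : ∑ H ∈ Vs K d, (2 * (d : ℝ) * SX K d (ch d H)) ^ 2 * (Gm K d H) ^ 2 ≤
      4 * (d : ℝ) ^ 2 * (C₃ * (Fintype.card K : ℝ) ^ (2 * d)) := by
    have e1 : ∀ H ∈ Vs K d, (2 * (d : ℝ) * SX K d (ch d H)) ^ 2 * (Gm K d H) ^ 2 =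
        4 * (d : ℝ) ^ 2 * ((SX K d (ch d H)) ^ 2 * (Gm K d H) ^ 2) := by
      intro χ _
      ring
    rw [Finset.sum_congr rfl e1, ← Finset.mul_sum]
    exact mul_le_mul_of_nonneg_left hub (by positivity)
  have hxF : ∑ H ∈ F, (2 * (d : ℝ) * SX K d (ch d H)) ^ 2 * (Gm K d H) ^ 2 ≤
      4 * (d : ℝ) ^ 2 * (C₃ * (Fintype.card K : ℝ) ^ (2 * d)) :=
    (Finset.sum_le_sum_of_subset_of_nonneg (Finset.filter_subset _ _)
      fun _ _ _ => mul_nonneg (sq_nonneg _) (sq_nonneg _)).trans hx2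
  have h7 : (F.card : ℝ) * (2 * (q ^ d / (q ^ t) ^ 2) ^ 2 * ((Mo K d).card : ℝ) ^ 2) ≤
      4 * (q ^ d) ^ 2 * ((Mo K d).card : ℝ) ^ 2 := by
    have hqt : 1 ≤ q ^ t := one_le_pow₀ (by rw [hqdef]; linarith)
    have hqt0 : 0 < q ^ t := by linarith
    rw [← hqdef] at hFc
    have h8 : (F.card : ℝ) * (2 * (q ^ d / (q ^ t) ^ 2) ^ 2) ≤ 4 * (q ^ d) ^ 2 := by
      calc (F.card : ℝ) * (2 * (q ^ d / (q ^ t) ^ 2) ^ 2)
          ≤ 2 * (q ^ t) ^ 2 * (2 * (q ^ d / (q ^ t) ^ 2) ^ 2) :=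
            mul_le_mul_of_nonneg_right hFc (by positivity)
        _ = 4 * (q ^ d) ^ 2 / (q ^ t) ^ 2 := by field_simp; ring
        _ ≤ 4 * (q ^ d) ^ 2 / 1 := by
            apply div_le_div_of_nonneg_left (by positivity) one_pos
            exact one_le_pow₀ hqt
        _ = 4 * (q ^ d) ^ 2 := div_one _
    have h9 := mul_le_mul_of_nonneg_right h8 (sq_nonneg ((Mo K d).card : ℝ))
    linarith
  have h8 := Finset.sum_le_sum hpt
  rw [Finset.sum_add_distrib, ← Finset.mul_sum, Finset.sum_const, nsmul_eq_mul] at h8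
  have h9 : (Fintype.card K : ℝ) ^ (2 * d) = (q ^ d) ^ 2 := by
    rw [← hqdef, mul_comm, pow_mul]
  have e : ∀ H ∈ Vs K d, ((2 * (d : ℝ) * SX K d (ch d H)) ^ 2 + (MT K d t (ch d H)) ^ 2) *
      (Gm K d H) ^ 2 = (2 * (d : ℝ) * SX K d (ch d H)) ^ 2 * (Gm K d H) ^ 2 +
        (MT K d t (ch d H)) ^ 2 * (Gm K d H) ^ 2 := fun H _ => add_mul _ _ _
  rw [Finset.sum_congr rfl e, Finset.sum_add_distrib, h4]
  rw [h9] at hx2 hxF ⊢
  have h10 : (d : ℝ) ^ 2 ≤ ((Mo K d).card : ℝ) ^ 2 := pow_le_pow_left₀ (by linarith) hN 2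
  have h11 : (d : ℝ) ^ 2 * (C₃ * (q ^ d) ^ 2) ≤ ((Mo K d).card : ℝ) ^ 2 * (C₃ * (q ^ d) ^ 2) :=
    mul_le_mul_of_nonneg_right h10 (by positivity)
  nlinarith

end

theorem main : S_tgl := by
  intro horth hper hfour hmb hlev hub hss K _ _ _
  have hq := PL2.q_ge_two (K := K)
  obtain ⟨c, θ, hc, hθ, hθ4, d₁, hfour⟩ := hfour K
  obtain ⟨c₀, hc₀, hss⟩ := hss K θ hθ
  obtain ⟨d₂, hss⟩ := hss (c₀ / 4) (by positivity)
  obtain ⟨η, hη, hη1, d₃, hlev⟩ := hlev K (c / 2) (by positivity)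
  obtain ⟨C₃, hC₃, d₄, hub⟩ := hub K
  set q : ℝ := (Fintype.card K : ℝ) with hqdef
  have hq0 : 0 < q := by linarith
  -- the constants
  obtain ⟨k₁, hk₁⟩ : ∃ k₁ : ℕ, (1 - η) ^ k₁ < c₀ / 16 / (12 * C₃ + 4) :=
    exists_pow_lt_of_lt_one (by positivity) (by linarith)
  refine ⟨k₁ + 2, fun k hk => ?_⟩
  obtain ⟨k', rfl⟩ : ∃ k', k = k' + 2 := ⟨k - 2, by omega⟩
  have hk' : (1 - η) ^ k' * (12 * C₃ + 4) ≤ c₀ / 16 := by
    have h1 : (1 - η) ^ k' ≤ (1 - η) ^ k₁ :=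
      pow_le_pow_of_le_one (by linarith) (by linarith) (by omega)
    have h2 := h1.trans hk₁.le
    rwa [le_div_iff₀ (by positivity)] at h2
  obtain ⟨r, hr⟩ : ∃ r : ℝ, r = q ^ (-(c / 2)) := ⟨_, rfl⟩
  have hr0 : 0 < r := by rw [hr]; exact Real.rpow_pos_of_pos hq0 _
  have hr1 : r < 1 := by
    rw [hr]
    exact Real.rpow_lt_one_of_one_lt_of_neg (by linarith) (by linarith)
  have hlim := tendsto_self_mul_const_pow_of_lt_one hr0.le hr1
  obtain ⟨d₅, hd₅⟩ := (Metric.tendsto_atTop.1 hlim) (c₀ / 80) (by positivity)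
  refine ⟨d₁ + d₂ + d₃ + d₄ + d₅ + 2 * (k' + 2) + 1, fun d b hd hb hb2 => ?_⟩
  have hd1 : 1 ≤ d := by omega
  have hd1' : (1 : ℝ) ≤ d := by exact_mod_cast hd1
  have hrd : 5 * ((d : ℝ) * r ^ d) ≤ c₀ / 16 := by
    have h1 := hd₅ d (by omega)
    rw [Real.dist_eq, sub_zero, abs_of_nonneg (by positivity)] at h1
    linarith
  by_contra hno
  obtain ⟨t, ht⟩ : ∃ t : ℕ, t = ⌊θ * d⌋₊ := ⟨_, rfl⟩
  have h2t : 2 * t ≤ d := by
    have h1 : (t : ℝ) ≤ θ * d := by rw [ht]; exact Nat.floor_le (by positivity)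
    have h2 : (2 * t : ℝ) ≤ d := by nlinarith
    exact_mod_cast h2
  have hz := rep horth d (k' + 2) b hb hno
  have hm := mainterm hmb d t (k' + 2) h2t b hb
  have hlow := tlow (K := K) (t := t) hc₀ (by omega : 2 * (k' + 2) ≤ d) hd1 b hb hb2 (fun h hh => by
    have h1 := hss d h (by omega) hh
    rw [← ht] at h1
    exact h1)
  have hms := meansq (K := K) hper hd1 (by omega : t ≤ d) hC₃ (hub d (by omega)) (fun H hH =>
    (hfour d t (ch d H) (by omega) ht).2 hH)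
  have hlv := hlev d (by omega)
  -- notation
  obtain ⟨N, hN⟩ : ∃ N : ℝ, N = ((Mo K d).card : ℝ) := ⟨_, rfl⟩
  have hNv : N = (q - 1) * d := by rw [hN, card_Mo]
  have hN0 : 0 < N := by rw [hNv]; nlinarith
  rw [← hN] at hlow hms
  obtain ⟨u, hu⟩ : ∃ u : ℝ, u = q ^ ((1 - c) * (d : ℝ)) := ⟨_, rfl⟩
  have hu0 : 0 < u := by rw [hu]; exact Real.rpow_pos_of_pos hq0 _
  have huq : u ≤ q ^ d := by
    rw [hu, ← Real.rpow_natCast q d]
    exact Real.rpow_le_rpow_of_exponent_le (by linarith) (by nlinarith)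
  set Lf := (Vs K d).filter (fun H => (1 - η) * ((q - 1) * d) ≤ |Gm K d H|) with hLf
  -- pointwise
  have hpt : ∀ H ∈ Vs K d,
      ((MT K d t (ch d H)) ^ 2 * (Gm K d H) ^ (k' + 2) * ch d H b -
        4 * (d : ℝ) ^ 2 * ((SX K d (ch d H)) ^ 2 * (Gm K d H) ^ (k' + 2) * ch d H b)) ≤
      (if (1 - η) * ((q - 1) * d) ≤ |Gm K d H| then u * (5 * d * q ^ d) * N ^ (k' + 2) else 0) +
        ((1 - η) * N) ^ k' *
          (((2 * (d : ℝ) * SX K d (ch d H)) ^ 2 + (MT K d t (ch d H)) ^ 2) *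
            (Gm K d H) ^ 2) := by
    intro H _
    set x : ℝ := 2 * (d : ℝ) * SX K d (ch d H) with hx
    set y : ℝ := MT K d t (ch d H) with hy
    set G : ℝ := Gm K d H with hG
    have hxy : |x - y| ≤ u := by
      rw [hu]
      exact (hfour d t (ch d H) (by omega) ht).1
    have hGN : |G| ≤ N := by rw [hN]; exact Gm_le d H
    have hxq : |x| ≤ 2 * d * q ^ d := by
      rw [hx, abs_mul, abs_of_nonneg (by positivity : (0 : ℝ) ≤ 2 * (d : ℝ))]
      exact mul_le_mul_of_nonneg_left (SX_le d H) (by positivity)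
    have e1 : y ^ 2 * G ^ (k' + 2) * ch d H b -
        4 * (d : ℝ) ^ 2 * ((SX K d (ch d H)) ^ 2 * G ^ (k' + 2) * ch d H b) =
        (y ^ 2 - x ^ 2) * G ^ (k' + 2) * ch d H b := by
      rw [hx]
      ring
    rw [e1]
    have e2 : (y ^ 2 - x ^ 2) * G ^ (k' + 2) * ch d H b ≤ |y ^ 2 - x ^ 2| * |G| ^ (k' + 2) := by
      refine (le_abs_self _).trans ?_
      rw [abs_mul, abs_mul, ch_abs, mul_one, abs_pow]
    refine e2.trans ?_
    have hnn : 0 ≤ ((1 - η) * N) ^ k' * ((x ^ 2 + y ^ 2) * G ^ 2) := by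
      have : 0 ≤ (1 - η) * N := mul_nonneg (by linarith) hN0.le
      positivity
    by_cases hL : (1 - η) * ((q - 1) * d) ≤ |G|
    · rw [if_pos hL]
      have e3 : |y ^ 2 - x ^ 2| ≤ u * (5 * d * q ^ d) := by
        have e4 : y ^ 2 - x ^ 2 = (x - y) * (-(x + y)) := by ring
        rw [e4, abs_mul, abs_neg]
        refine mul_le_mul hxy ?_ (abs_nonneg _) hu0.le
        have e5 : x + y = 2 * x - (x - y) := by ring
        rw [e5]
        have e6 := abs_sub (2 * x) (x - y)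
        rw [abs_mul, abs_two] at e6
        have hqd : 0 < q ^ d := by positivity
        nlinarith
      have e7 : |G| ^ (k' + 2) ≤ N ^ (k' + 2) := pow_le_pow_left₀ (abs_nonneg _) hGN _
      have e8 := mul_le_mul e3 e7 (by positivity) (by positivity)
      linarith
    · rw [if_neg hL, zero_add]
      rw [not_le, ← hNv] at hL
      have e3 : |y ^ 2 - x ^ 2| ≤ x ^ 2 + y ^ 2 := by
        rw [abs_le]
        constructor <;> nlinarith [sq_nonneg x, sq_nonneg y]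
      have e4 : |G| ^ (k' + 2) ≤ ((1 - η) * N) ^ k' * G ^ 2 := by
        rw [pow_add, sq_abs]
        exact mul_le_mul_of_nonneg_right (pow_le_pow_left₀ (abs_nonneg _) hL.le k') (sq_nonneg _)
      calc |y ^ 2 - x ^ 2| * |G| ^ (k' + 2)
          ≤ (x ^ 2 + y ^ 2) * (((1 - η) * N) ^ k' * G ^ 2) :=
            mul_le_mul e3 e4 (by positivity) (by positivity)
        _ = ((1 - η) * N) ^ k' * ((x ^ 2 + y ^ 2) * G ^ 2) := by ring
  have hsum := Finset.sum_le_sum hpt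
  rw [Finset.sum_sub_distrib, ← Finset.mul_sum, hz, mul_zero, sub_zero, hm,
    Finset.sum_add_distrib, ← Finset.mul_sum, ← Finset.sum_filter, ← hLf, Finset.sum_const,
    nsmul_eq_mul] at hsum
  -- the two error terms
  have hE1 : (Lf.card : ℝ) * (u * (5 * d * q ^ d) * N ^ (k' + 2)) ≤
      c₀ / 16 * (q ^ (2 * d) * N ^ (k' + 2)) := by
    have h1 : (Lf.card : ℝ) * (u * (5 * d * q ^ d) * N ^ (k' + 2)) ≤
        q ^ (c / 2 * (d : ℝ)) * (u * (5 * d * q ^ d) * N ^ (k' + 2)) :=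
      mul_le_mul_of_nonneg_right hlv (by positivity)
    refine h1.trans ?_
    have h2 : q ^ (c / 2 * (d : ℝ)) * u = r ^ d * q ^ d := by
      rw [hu, hr, ← Real.rpow_natCast (q ^ (-(c / 2))) d, ← Real.rpow_mul hq0.le,
        ← Real.rpow_natCast q d, ← Real.rpow_add hq0, ← Real.rpow_add hq0]
      congr 1
      ring
    have h3 : q ^ (c / 2 * (d : ℝ)) * (u * (5 * d * q ^ d) * N ^ (k' + 2)) =
        (5 * (d * r ^ d)) * (q ^ (2 * d) * N ^ (k' + 2)) := by
      calc q ^ (c / 2 * (d : ℝ)) * (u * (5 * d * q ^ d) * N ^ (k' + 2))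
          = (q ^ (c / 2 * (d : ℝ)) * u) * ((5 * d * q ^ d) * N ^ (k' + 2)) := by ring
        _ = (r ^ d * q ^ d) * ((5 * d * q ^ d) * N ^ (k' + 2)) := by rw [h2]
        _ = _ := by
            rw [two_mul, pow_add q d d]
            ring
    rw [h3]
    exact mul_le_mul_of_nonneg_right hrd (by positivity)
  have hE2 : ((1 - η) * N) ^ k' * ((12 * C₃ + 4) * N ^ 2 * q ^ (2 * d)) ≤
      c₀ / 16 * (q ^ (2 * d) * N ^ (k' + 2)) := by
    have h1 : ((1 - η) * N) ^ k' * ((12 * C₃ + 4) * N ^ 2 * q ^ (2 * d)) =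
        ((1 - η) ^ k' * (12 * C₃ + 4)) * (q ^ (2 * d) * N ^ (k' + 2)) := by
      rw [mul_pow, pow_add]
      ring
    rw [h1]
    exact mul_le_mul_of_nonneg_right hk' (by positivity)
  have hnn : 0 ≤ ((1 - η) * N) ^ k' :=
    pow_nonneg (mul_nonneg (by linarith) hN0.le) _
  have h4 := mul_le_mul_of_nonneg_left hms hnn
  have h5 := mul_le_mul_of_nonneg_left hlow (by positivity : (0 : ℝ) ≤ q ^ (2 * d))
  have h6 : 0 < c₀ * (q ^ (2 * d) * N ^ (k' + 2)) := by positivity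
  have h7 : q ^ (2 * d) * (c₀ / 4 * N ^ (k' + 2)) = c₀ / 4 * (q ^ (2 * d) * N ^ (k' + 2)) := by ring
  rw [h7] at h5
  linarith

end Pool.Agent.H290.FX.PLgl
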