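import Pool.Agent.H290.FX.StmL

/-!
# The final statement (task GLF of helper290's project GL; proof by helper932)
-/

set_option autoImplicit false

namespace Pool.Agent.H290.FX.PLglf

open Polynomial
open scoped Classical
open Pool.Agent.H290.FX.L
open Pool.Agent.H694.Typ (Mn mem_Mn)

theorem main : S_tglf := by
  intro h K _ _ _
  obtain ⟨k₀, hk⟩ := h K
  obtain ⟨d₀, hd⟩ := hk k₀ le_rfl
  refine ⟨k₀ + 2, max d₀ 2, fun d b hdd hb => ?_⟩
  have hd0 : d₀ ≤ d := (le_max_left _ _).trans hdd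
  have hd2 : 2 ≤ d := (le_max_right _ _).trans hdd
  obtain ⟨c0, hc0⟩ : ∃ c0 : K, c0 = b.eval 0 := ⟨_, rfl⟩
  obtain ⟨c1, hc1⟩ : ∃ c1 : K, c1 = b.eval 1 - c0 - k₀ := ⟨_, rfl⟩
  have h2d : ((2 : ℕ) : WithBot ℕ) ≤ (d : WithBot ℕ) := by exact_mod_cast hd2
  have hu : (C c0 : K[X]).degree < (d : WithBot ℕ) :=
    lt_of_le_of_lt degree_C_le (lt_of_lt_of_le (by norm_num) h2d)
  have hv : (C c1 * X : K[X]).degree < (d : WithBot ℕ) :=
    lt_of_le_of_lt (degree_C_mul_X_le c1) (lt_of_lt_of_le (by norm_num) h2d)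
  have hdeg : (b - C c0 - C c1 * X).degree < (d : WithBot ℕ) :=
    lt_of_le_of_lt (degree_sub_le _ _)
      (max_lt (lt_of_le_of_lt (degree_sub_le _ _) (max_lt hb hu)) hv)
  obtain ⟨a₁, h1, a₂, h2, i1, i2, m, hm, he⟩ := hd d (b - C c0 - C c1 * X) hd0 hdeg (fun _ => by
    constructor
    · simp [hc0]
    · simp [hc1])
  rw [mem_Mn] at h1 h2
  refine ⟨a₁, a₂, h1.1, h1.2, i1, h2.1, h2.2, i2, ?_⟩
  have hm' : ∀ i, ∃ j : ℕ, ∀ n : ℕ, n ≠ j → (m i).coeff n = 0 := by
    intro i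
    have h3 := hm i
    unfold Mo at h3
    rw [Finset.mem_image] at h3
    obtain ⟨p, -, hp⟩ := h3
    refine ⟨p.2, fun n hn => ?_⟩
    rw [← hp, coeff_C_mul, coeff_X_pow, if_neg hn, mul_zero]
  choose e he' using hm'
  have hb' : b = a₁ + a₂ + ((∑ i, m i) + C c0 + C c1 * X) := by
    have h3 : b = (b - C c0 - C c1 * X) + C c0 + C c1 * X := by ring
    rw [h3, he]
    ring
  have hsub : {i : ℕ | b.coeff i ≠ (a₁ + a₂).coeff i} ⊆
      ((insert 0 (insert 1 (Finset.univ.image e)) : Finset ℕ) : Set ℕ) := by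
    intro n hn
    by_contra hc
    apply hn
    simp only [Finset.coe_insert, Set.mem_insert_iff, Finset.coe_image, Set.mem_image,
      Finset.coe_univ, Set.mem_univ, true_and, not_or, not_exists] at hc
    obtain ⟨hn0, hn1, hne⟩ := hc
    have h4 : ((∑ i, m i) + C c0 + C c1 * X : K[X]).coeff n = 0 := by
      rw [coeff_add, coeff_add, finsetSum_coeff, coeff_C, if_neg hn0, coeff_C_mul, coeff_X,
        if_neg (fun h => hn1 h.symm), mul_zero, add_zero, add_zero]
      exact Finset.sum_eq_zero fun i _ => he' i n (fun h => hne i h.symm)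
    rw [hb', coeff_add, h4, add_zero]
  calc {i : ℕ | b.coeff i ≠ (a₁ + a₂).coeff i}.ncard
      ≤ ((insert 0 (insert 1 (Finset.univ.image e)) : Finset ℕ) : Set ℕ).ncard :=
        Set.ncard_le_ncard hsub (Finset.finite_toSet _)
    _ = (insert 0 (insert 1 (Finset.univ.image e)) : Finset ℕ).card := Set.ncard_coe_finset _
    _ ≤ (Finset.univ.image e).card + 1 + 1 :=
        (Finset.card_insert_le _ _).trans (Nat.succ_le_succ (Finset.card_insert_le _ _))
    _ ≤ k₀ + 2 := by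
        have h5 : (Finset.univ.image e).card ≤ k₀ := by
          refine Finset.card_image_le.trans ?_
          rw [Finset.card_univ, Fintype.card_fin]
        omega

end Pool.Agent.H290.FX.PLglf
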