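import Pool.Agent.H290.FX.StmL
import Pool.Agent.H290.FX.PRank
import Pool.Agent.H290.FX.PConv

/-!
# Task LB: lower bound for the sum of the large sieve (helper597)

All sums over squarefree monic polynomials are sums over sets `S` of primes of degree at most `z`
(`PRank.sum_Sq`).  `lemA`: `∑_S ∏ (f + g) ≤ ∏ (1 + f) * ∑_S ∏ g`.  `lemB`: the square of `∑_S ∏ a` is at
most `∑_S ∏ (a ^ 2 + 2 a)`.
-/

set_option autoImplicit false

namespace Pool.Agent.H290.FX.PLlb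

open scoped Classical
open Finset Polynomial
open Pool.Agent.H290.FX
open Pool.Agent.H290.FX.L
open Pool.Agent.H985.KP (PA)
open Pool.Agent.H694.Typ (Mn PU mem_Mn mem_PU card_Mn q_ge)

section abs
variable {α : Type}

/-- `∑_S ∏ (f + g) ≤ ∏ (1 + f) * ∑_S ∏ g` over the sets of degree at most `t` -/
theorem lemA (U : Finset α) (deg : α → ℕ) (t : ℕ) (f g : α → ℝ) (hf : ∀ P, 0 ≤ f P)
    (hg : ∀ P, 0 ≤ g P) :
    ∑ S ∈ U.powerset.filter (fun S => ∑ P ∈ S, deg P ≤ t), ∏ P ∈ S, (f P + g P) ≤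
      (∏ P ∈ U, (1 + f P)) *
        ∑ S ∈ U.powerset.filter (fun S => ∑ P ∈ S, deg P ≤ t), ∏ P ∈ S, g P := by
  have hfS : ∀ S : Finset α, 0 ≤ ∏ P ∈ S, f P := fun S => prod_nonneg fun P _ => hf P
  have hgS : ∀ S : Finset α, 0 ≤ ∏ P ∈ S, g P := fun S => prod_nonneg fun P _ => hg P
  have hpa : ∀ S : Finset α, ∏ P ∈ S, (f P + g P) =
      ∑ E ∈ S.powerset, (∏ P ∈ E, f P) * ∏ P ∈ S \ E, g P := fun S => Finset.prod_add _ _ _
  simp_rw [hpa]
  rw [Finset.sum_comm' (s' := fun E => (U.powerset.filter (fun S => ∑ P ∈ S, deg P ≤ t)).filter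
    (fun S => E ⊆ S)) (t' := U.powerset)]
  · rw [Finset.prod_one_add, Finset.sum_mul]
    refine Finset.sum_le_sum fun E _ => ?_
    rw [← Finset.mul_sum]
    refine mul_le_mul_of_nonneg_left ?_ (hfS E)
    have hinj : Set.InjOn (fun S : Finset α => S \ E)
        ((U.powerset.filter (fun S => ∑ P ∈ S, deg P ≤ t)).filter (fun S => E ⊆ S) :
          Finset (Finset α)) := by
      intro S hS T hT h
      have hS' : E ⊆ S := (mem_filter.1 (mem_coe.1 hS)).2
      have hT' : E ⊆ T := (mem_filter.1 (mem_coe.1 hT)).2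
      have h' : S \ E = T \ E := h
      rw [← sdiff_union_of_subset hS', h', sdiff_union_of_subset hT']
    rw [← Finset.sum_image (f := fun S => ∏ P ∈ S, g P) hinj]
    refine Finset.sum_le_sum_of_subset_of_nonneg ?_ (fun S _ _ => hgS S)
    intro S hS
    obtain ⟨T, hT, rfl⟩ := mem_image.1 hS
    obtain ⟨hT1, -⟩ := mem_filter.1 hT
    obtain ⟨hT2, hT3⟩ := mem_filter.1 hT1
    refine mem_filter.2 ⟨mem_powerset.2 (sdiff_subset.trans (mem_powerset.1 hT2)), ?_⟩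
    exact (sum_le_sum_of_subset sdiff_subset).trans hT3
  · intro S E
    simp only [mem_filter, mem_powerset]
    constructor
    · rintro ⟨⟨h1, h2⟩, h3⟩
      exact ⟨⟨⟨h1, h2⟩, h3⟩, h3.trans h1⟩
    · rintro ⟨⟨⟨h1, h2⟩, h3⟩, -⟩
      exact ⟨⟨h1, h2⟩, h3⟩

/-- the square of a sum over sets -/
theorem lemB (U : Finset α) (deg : α → ℕ) (y z : ℕ) (hyz : 2 * y ≤ z) (a : α → ℝ)
    (ha : ∀ P, 0 ≤ a P) :
    (∑ S ∈ U.powerset.filter (fun S => ∑ P ∈ S, deg P ≤ y), ∏ P ∈ S, a P) ^ 2 ≤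
      ∑ S ∈ U.powerset.filter (fun S => ∑ P ∈ S, deg P ≤ z), ∏ P ∈ S, (a P ^ 2 + 2 * a P) := by
  obtain ⟨F, hF⟩ : ∃ F : ℕ → Finset (Finset α), F = fun t =>
      U.powerset.filter (fun S => ∑ P ∈ S, deg P ≤ t) := ⟨_, rfl⟩
  have hFm : ∀ t S, S ∈ F t ↔ S ⊆ U ∧ ∑ P ∈ S, deg P ≤ t := by
    intro t S
    rw [hF]
    simp only [mem_filter, mem_powerset]
  have hS : ∀ S : Finset α, 0 ≤ ∏ P ∈ S, a P := fun S => prod_nonneg fun P _ => ha P
  have key : ∀ u ∈ F y, ∑ v ∈ F y, ∏ P ∈ v, a P ≤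
      (∑ w ∈ u.powerset, ∏ P ∈ w, a P) * ∑ s ∈ (F z).filter (fun s => u ⊆ s), ∏ P ∈ s \ u, a P := by
    intro u hu
    obtain ⟨hu1, hu2⟩ := (hFm y u).1 hu
    have e1 : ∑ v ∈ F y, ∏ P ∈ v, a P =
        ∑ v ∈ F y, (fun x : Finset α × Finset α => (∏ P ∈ x.1, a P) * ∏ P ∈ x.2, a P)
          (v ∩ u, v \ u) := by
      refine sum_congr rfl fun v _ => ?_
      exact (prod_inter_mul_prod_sdiff v u a).symm
    have hinj : Set.InjOn (fun v : Finset α => (v ∩ u, v \ u)) (F y : Set (Finset α)) := by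
      intro v _ v' _ h
      have h1 : v ∩ u = v' ∩ u := congrArg Prod.fst h
      have h2 : v \ u = v' \ u := congrArg Prod.snd h
      rw [← sdiff_union_inter v u, h1, h2, sdiff_union_inter]
    rw [e1, ← Finset.sum_image (f := fun x : Finset α × Finset α =>
      (∏ P ∈ x.1, a P) * ∏ P ∈ x.2, a P) hinj]
    have e2 : ∑ s ∈ (F z).filter (fun s => u ⊆ s), ∏ P ∈ s \ u, a P =
        ∑ t ∈ ((F z).filter (fun s => u ⊆ s)).image (fun s => s \ u), ∏ P ∈ t, a P := by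
      symm
      refine Finset.sum_image ?_
      intro s hs s' hs' h
      have h1 : u ⊆ s := (mem_filter.1 (mem_coe.1 hs)).2
      have h2 : u ⊆ s' := (mem_filter.1 (mem_coe.1 hs')).2
      have h' : s \ u = s' \ u := h
      rw [← sdiff_union_of_subset h1, h', sdiff_union_of_subset h2]
    rw [e2, Finset.sum_mul_sum, ← Finset.sum_product']
    refine Finset.sum_le_sum_of_subset_of_nonneg ?_ (fun x _ _ => mul_nonneg (hS _) (hS _))
    intro x hx
    obtain ⟨v, hv, rfl⟩ := mem_image.1 hx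
    obtain ⟨hv1, hv2⟩ := (hFm y v).1 hv
    refine mem_product.2 ⟨mem_powerset.2 inter_subset_right, mem_image.2 ⟨u ∪ (v \ u), ?_, ?_⟩⟩
    · refine mem_filter.2 ⟨(hFm z _).2 ⟨union_subset hu1 (sdiff_subset.trans hv1), ?_⟩,
        subset_union_left⟩
      rw [sum_union disjoint_sdiff]
      have := sum_le_sum_of_subset (f := deg) (sdiff_subset : v \ u ⊆ v)
      omega
    · show (u ∪ (v \ u)) \ u = v \ u
      rw [union_sdiff_left, Finset.sdiff_idem]
  have e3 : ∀ S : Finset α, ∏ P ∈ S, (a P ^ 2 + 2 * a P) = ∑ u ∈ S.powerset,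
      (∏ P ∈ u, a P) * (∑ w ∈ u.powerset, ∏ P ∈ w, a P) * ∏ P ∈ S \ u, a P := by
    intro S
    have e4 : ∀ P, a P ^ 2 + 2 * a P = a P * (1 + a P) + a P := fun P => by ring
    simp_rw [e4]
    rw [Finset.prod_add]
    refine sum_congr rfl fun u _ => ?_
    rw [prod_mul_distrib, Finset.prod_one_add]
  have hFy : U.powerset.filter (fun S => ∑ P ∈ S, deg P ≤ y) = F y := by rw [hF]
  have hFz : U.powerset.filter (fun S => ∑ P ∈ S, deg P ≤ z) = F z := by rw [hF]
  rw [hFy, hFz, sq, Finset.sum_mul]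
  calc ∑ u ∈ F y, (∏ P ∈ u, a P) * ∑ v ∈ F y, ∏ P ∈ v, a P
      ≤ ∑ u ∈ F y, ∑ s ∈ (F z).filter (fun s => u ⊆ s),
        (∏ P ∈ u, a P) * (∑ w ∈ u.powerset, ∏ P ∈ w, a P) * ∏ P ∈ s \ u, a P := by
        refine sum_le_sum fun u hu => ?_
        rw [← Finset.mul_sum, mul_assoc]
        exact mul_le_mul_of_nonneg_left (key u hu) (hS u)
    _ ≤ ∑ u ∈ U.powerset, ∑ s ∈ (F z).filter (fun s => u ⊆ s),
        (∏ P ∈ u, a P) * (∑ w ∈ u.powerset, ∏ P ∈ w, a P) * ∏ P ∈ s \ u, a P := by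
        refine Finset.sum_le_sum_of_subset_of_nonneg ?_ fun u _ _ => ?_
        · intro u hu
          exact mem_powerset.2 ((hFm y u).1 hu).1
        · exact sum_nonneg fun s _ => mul_nonneg (mul_nonneg (hS _) (sum_nonneg fun w _ => hS _))
            (hS _)
    _ = ∑ s ∈ F z, ∑ u ∈ s.powerset,
        (∏ P ∈ u, a P) * (∑ w ∈ u.powerset, ∏ P ∈ w, a P) * ∏ P ∈ s \ u, a P := by
        refine Finset.sum_comm' fun u s => ?_
        rw [mem_filter, mem_powerset, mem_powerset, hFm]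
        constructor
        · rintro ⟨h1, ⟨h2, h3⟩, h4⟩
          exact ⟨h4, h2, h3⟩
        · rintro ⟨h4, h2, h3⟩
          exact ⟨h4.trans h2, ⟨h2, h3⟩, h4⟩
    _ = ∑ s ∈ F z, ∏ P ∈ s, (a P ^ 2 + 2 * a P) := sum_congr rfl fun s _ => (e3 s).symm

end abs

section poly
variable {K : Type} [Field K]

/-- every monic polynomial is a squarefree one times a square -/
theorem exists_sq (n : ℕ) : ∀ f : K[X], f.Monic → f.natDegree ≤ n →
    ∃ u v : K[X], u.Monic ∧ v.Monic ∧ Squarefree u ∧ f = u * v ^ 2 := by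
  induction n with
  | zero =>
    intro f hf hn
    have h1 : f = 1 := eq_one_of_monic_natDegree_zero hf (by omega)
    exact ⟨1, 1, monic_one, monic_one, squarefree_one, by rw [h1]; ring⟩
  | succ n ih =>
    intro f hf hn
    by_cases hs : Squarefree f
    · exact ⟨f, 1, hf, monic_one, hs, by ring⟩
    · unfold Squarefree at hs
      push Not at hs
      obtain ⟨x, ⟨g, hg⟩, hx⟩ := hs
      have hx0 : x ≠ 0 := by
        rintro rfl
        rw [zero_mul, zero_mul] at hg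
        exact hf.ne_zero hg
      have hg0 : g ≠ 0 := by
        rintro rfl
        rw [mul_zero] at hg
        exact hf.ne_zero hg
      obtain ⟨c, hc⟩ : ∃ c : K, c = x.leadingCoeff := ⟨_, rfl⟩
      have hc0 : c ≠ 0 := by
        rw [hc]
        exact leadingCoeff_ne_zero.2 hx0
      obtain ⟨x', hx'⟩ : ∃ x' : K[X], x' = x * C c⁻¹ := ⟨_, rfl⟩
      obtain ⟨g', hg'⟩ : ∃ g' : K[X], g' = C (c ^ 2) * g := ⟨_, rfl⟩
      have hxm : x'.Monic := by
        rw [hx', hc]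
        exact monic_mul_leadingCoeff_inv hx0
      have hfe : f = x' ^ 2 * g' := by
        rw [hg, hx', hg']
        have h1 : (C c⁻¹ : K[X]) ^ 2 * C (c ^ 2) = 1 := by
          rw [← C_pow, ← C_mul, ← mul_pow, inv_mul_cancel₀ hc0, one_pow, C_1]
        calc x * x * g = x * x * g * ((C c⁻¹ : K[X]) ^ 2 * C (c ^ 2)) := by rw [h1, mul_one]
          _ = (x * C c⁻¹) ^ 2 * (C (c ^ 2) * g) := by ring
      have hgm : g'.Monic := (hxm.pow 2).of_mul_monic_left (hfe ▸ hf)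
      have hdx : 0 < x'.natDegree := by
        rw [hx', natDegree_mul_C (inv_ne_zero hc0)]
        by_contra h0
        have h1 : x.natDegree = 0 := by omega
        apply hx
        rw [eq_C_of_natDegree_eq_zero h1]
        refine isUnit_C.2 (isUnit_iff_ne_zero.2 ?_)
        intro h2
        apply hx0
        rw [eq_C_of_natDegree_eq_zero h1, h2, C_0]
      have hdeg : g'.natDegree ≤ n := by
        have h1 : f.natDegree = 2 * x'.natDegree + g'.natDegree := by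
          rw [hfe, (hxm.pow 2).natDegree_mul hgm, hxm.natDegree_pow]
        omega
      obtain ⟨u, v, hu, hv, hsq, he⟩ := ih g' hgm hdeg
      exact ⟨u, x' * v, hu, hxm.mul hv, hsq, by rw [hfe, he]; ring⟩

end poly

section fin
variable {K : Type} [Field K] [Fintype K]

/-- sums over the monic polynomials of degree at most `y` -/
theorem sum_M (y : ℕ) (w : ℕ → ℝ) : ∑ f ∈ (Finset.range (y + 1)).biUnion (Mn K), w f.natDegree =
    ∑ i ∈ Finset.range (y + 1), (Fintype.card K : ℝ) ^ i * w i := by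
  rw [Finset.sum_biUnion]
  · refine sum_congr rfl fun i _ => ?_
    rw [sum_congr rfl (fun f hf => by rw [(mem_Mn.1 hf).2] : ∀ f ∈ Mn K i, w f.natDegree = w i),
      sum_const, card_Mn, nsmul_eq_mul]
    push_cast
    rfl
  · intro i _ j _ hij
    rw [Function.onFun, Finset.disjoint_left]
    intro f hf hf'
    exact hij ((mem_Mn.1 hf).2.symm.trans (mem_Mn.1 hf').2)

theorem mem_Sq {r : K[X]} {t : ℕ} : r ∈ Sq K t ↔ r.Monic ∧ r.natDegree ≤ t ∧ Squarefree r := by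
  unfold Sq
  rw [mem_filter, mem_biUnion]
  constructor
  · rintro ⟨⟨j, hj, h⟩, hs⟩
    rw [mem_Mn] at h
    rw [mem_range] at hj
    exact ⟨h.1, by omega, hs⟩
  · rintro ⟨h1, h2, h3⟩
    exact ⟨⟨r.natDegree, mem_range.2 (by omega), mem_Mn.2 ⟨h1, rfl⟩⟩, h3⟩

theorem mem_M {f : K[X]} {y : ℕ} : f ∈ (Finset.range (y + 1)).biUnion (Mn K) ↔
    f.Monic ∧ f.natDegree ≤ y := by
  rw [mem_biUnion]
  constructor
  · rintro ⟨j, hj, h⟩
    rw [mem_Mn] at h
    rw [mem_range] at hj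
    exact ⟨h.1, by omega⟩
  · rintro ⟨h1, h2⟩
    exact ⟨f.natDegree, mem_range.2 (by omega), mem_Mn.2 ⟨h1, rfl⟩⟩

/-- the sum over the squarefree polynomials -/
theorem sum_sqf_ge (y : ℕ) :
    ((y : ℝ) + 1) / 2 ≤ ∑ r ∈ Sq K y, 1 / (Fintype.card K : ℝ) ^ r.natDegree := by
  have hq := q_ge (k := K)
  obtain ⟨q, hqe⟩ : ∃ q : ℝ, q = (Fintype.card K : ℝ) := ⟨_, rfl⟩
  rw [← hqe] at hq ⊢
  have hq0 : 0 < q := by linarith
  have e1 : ∑ f ∈ (Finset.range (y + 1)).biUnion (Mn K), 1 / q ^ f.natDegree = (y : ℝ) + 1 := by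
    rw [sum_M (K := K) y (fun i => 1 / q ^ i), ← hqe]
    have : ∀ i ∈ Finset.range (y + 1), q ^ i * (1 / q ^ i) = 1 := by
      intro i _
      field_simp
    rw [sum_congr rfl this, sum_const, card_range, nsmul_eq_mul, mul_one]
    push_cast
    rfl
  have e2 : ∑ f ∈ (Finset.range (y + 1)).biUnion (Mn K), (1 / q ^ f.natDegree) ^ 2 ≤ 2 := by
    rw [sum_M (K := K) y (fun i => (1 / q ^ i) ^ 2), ← hqe]
    have h1 : ∀ i ∈ Finset.range (y + 1), q ^ i * (1 / q ^ i) ^ 2 ≤ (1 / 2) ^ i := by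
      intro i _
      have h2 : q ^ i * (1 / q ^ i) ^ 2 = (1 / q) ^ i := by
        rw [one_div_pow q i]
        field_simp
      rw [h2]
      exact pow_le_pow_left₀ (by positivity) (one_div_le_one_div_of_le (by norm_num) hq) i
    refine (sum_le_sum h1).trans ?_
    rw [geom_sum_eq (by norm_num)]
    have h3 : (0 : ℝ) ≤ (1 / 2) ^ (y + 1) := by positivity
    have h4 : ((1 / 2 : ℝ) ^ (y + 1) - 1) / (1 / 2 - 1) = 2 - 2 * (1 / 2) ^ (y + 1) := by
      rw [div_eq_iff (by norm_num)]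
      ring
    rw [h4]
    linarith
  choose! u v hu hv hsq he using fun (f : K[X]) (hf : f ∈ (Finset.range (y + 1)).biUnion (Mn K)) =>
    exists_sq y f (mem_M.1 hf).1 (mem_M.1 hf).2
  have hdeg : ∀ f ∈ (Finset.range (y + 1)).biUnion (Mn K),
      f.natDegree = (u f).natDegree + 2 * (v f).natDegree := by
    intro f hf
    conv_lhs => rw [he f hf]
    rw [(hu f hf).natDegree_mul ((hv f hf).pow 2), (hv f hf).natDegree_pow]
  have e3 : ∑ f ∈ (Finset.range (y + 1)).biUnion (Mn K), 1 / q ^ f.natDegree =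
      ∑ f ∈ (Finset.range (y + 1)).biUnion (Mn K),
        (fun x : K[X] × K[X] => 1 / q ^ x.1.natDegree * (1 / q ^ x.2.natDegree) ^ 2) (u f, v f) := by
    refine sum_congr rfl fun f hf => ?_
    simp only
    rw [hdeg f hf, pow_add, pow_mul']
    field_simp
  have hinj : Set.InjOn (fun f : K[X] => (u f, v f))
      ((Finset.range (y + 1)).biUnion (Mn K) : Finset K[X]) := by
    intro f hf f' hf' h
    have h1 : u f = u f' := congrArg Prod.fst h
    have h2 : v f = v f' := congrArg Prod.snd h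
    rw [he f (mem_coe.1 hf), he f' (mem_coe.1 hf'), h1, h2]
  rw [← Finset.sum_image (f := fun x : K[X] × K[X] =>
    1 / q ^ x.1.natDegree * (1 / q ^ x.2.natDegree) ^ 2) hinj, e1] at e3
  have e4 : (y : ℝ) + 1 ≤ (∑ r ∈ Sq K y, 1 / q ^ r.natDegree) *
      ∑ f ∈ (Finset.range (y + 1)).biUnion (Mn K), (1 / q ^ f.natDegree) ^ 2 := by
    rw [e3, Finset.sum_mul_sum, ← Finset.sum_product']
    refine Finset.sum_le_sum_of_subset_of_nonneg ?_ (fun x _ _ => by positivity)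
    intro x hx
    obtain ⟨f, hf, rfl⟩ := mem_image.1 hx
    have h1 := hdeg f hf
    have h2 := (mem_M.1 hf).2
    exact mem_product.2 ⟨mem_Sq.2 ⟨hu f hf, by show (u f).natDegree ≤ y; omega, hsq f hf⟩,
      mem_M.2 ⟨hv f hf, by show (v f).natDegree ≤ y; omega⟩⟩
  have e5 : 0 ≤ ∑ r ∈ Sq K y, 1 / q ^ r.natDegree := sum_nonneg fun r _ => by positivity
  have e6 := mul_le_mul_of_nonneg_left e2 e5
  linarith

omit [Fintype K] in
theorem PA_finite {h : K[X]} (hh : h ≠ 0) : (PA h).Finite := by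
  refine Set.Finite.subset (Finset.finite_toSet
    (UniqueFactorizationMonoid.normalizedFactors h).toFinset) ?_
  rintro P ⟨h1, h2, h3⟩
  rw [mem_coe, Multiset.mem_toFinset, UniqueFactorizationMonoid.mem_normalizedFactors_iff' hh]
  exact ⟨h2, h1.normalize_eq_self, h3⟩

theorem one_le_prod' {α : Type} {s : Finset α} {f : α → ℝ} (hf : ∀ i ∈ s, 1 ≤ f i) :
    1 ≤ ∏ i ∈ s, f i :=
  Finset.prod_induction f (fun x => 1 ≤ x) (fun _ _ ha hb => one_le_mul_of_one_le_of_one_le ha hb)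
    le_rfl hf

theorem main : S_lb := by
  intro K _ _
  refine ⟨1 / (16 * Real.exp 4), by positivity, fun z h hz hh => ?_⟩
  have hq := q_ge (k := K)
  obtain ⟨q, hqe⟩ : ∃ q : ℝ, q = (Fintype.card K : ℝ) := ⟨_, rfl⟩
  have hq2 : 2 ≤ q := by rw [hqe]; exact hq
  have hq0 : 0 < q := by linarith
  obtain ⟨a, ha⟩ : ∃ a : K[X] → ℝ, a = fun P => 1 / q ^ P.natDegree := ⟨_, rfl⟩
  have ha0 : ∀ P, 0 ≤ a P := fun P => by rw [ha]; positivity
  obtain ⟨lam, hlam⟩ : ∃ lam : K[X] → ℝ, lam = fun P => if P ∣ h then 1 / q ^ P.natDegree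
    else 2 / q ^ P.natDegree := ⟨_, rfl⟩
  have hlam0 : ∀ P, 0 ≤ lam P := fun P => by
    rw [hlam]
    simp only
    split_ifs <;> positivity
  obtain ⟨x, hx⟩ : ∃ x : K[X] → ℝ, x = fun P => if P ∣ h then 1 / q ^ P.natDegree else 0 := ⟨_, rfl⟩
  have hx0 : ∀ P, 0 ≤ x P := fun P => by
    rw [hx]
    simp only
    split_ifs <;> positivity
  have hxl : ∀ P, 2 * a P = x P + lam P := by
    intro P
    rw [ha, hx, hlam]
    simp only
    split_ifs <;> ring
  -- the sum over the squarefree polynomials of degree at most `z / 2`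
  have s1 : ((z / 2 : ℕ) + 1 : ℝ) / 2 ≤ ∑ S ∈ (PU K z).powerset.filter
      (fun S => ∑ P ∈ S, P.natDegree ≤ z / 2), ∏ P ∈ S, a P := by
    rw [← PRank.sum_Sq a (by omega : z / 2 ≤ z)]
    refine (sum_sqf_ge (K := K) (z / 2)).trans (le_of_eq (sum_congr rfl fun r hr => ?_))
    obtain ⟨h1, h2, h3⟩ := mem_Sq.1 hr
    obtain ⟨S, hM, hS⟩ := PRank.exists_set h1 h3
    rw [← hS, PRank.PA_prod hM, finprod_mem_coe_finset, PRank.natDegree_prod hM, ha, ← hqe]
    rw [Finset.prod_div_distrib, Finset.prod_const_one, Finset.prod_pow_eq_pow_sum]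
  have s2 := lemB (PU K z) (fun P : K[X] => P.natDegree) (z / 2) z (by omega) a ha0
  have s3 := lemA (PU K z) (fun P : K[X] => P.natDegree) z (fun P => a P ^ 2) (fun P => 2 * a P)
    (fun P => sq_nonneg _) (fun P => mul_nonneg (by norm_num) (ha0 P))
  have s4 := lemA (PU K z) (fun P : K[X] => P.natDegree) z x lam hx0 hlam0
  have s5 : ∑ S ∈ (PU K z).powerset.filter (fun S => ∑ P ∈ S, P.natDegree ≤ z), ∏ P ∈ S, 2 * a P =
      ∑ S ∈ (PU K z).powerset.filter (fun S => ∑ P ∈ S, P.natDegree ≤ z),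
        ∏ P ∈ S, (x P + lam P) :=
    sum_congr rfl fun S _ => prod_congr rfl fun P _ => hxl P
  have s6 : Lz K h z = ∑ S ∈ (PU K z).powerset.filter (fun S => ∑ P ∈ S, P.natDegree ≤ z),
      ∏ P ∈ S, lam P := by
    rw [← PRank.sum_Sq lam (le_refl z)]
    unfold Lz
    rw [hlam, hqe]
  have hL0 : 0 ≤ Lz K h z := by
    rw [s6]
    exact sum_nonneg fun S _ => prod_nonneg fun P _ => hlam0 P
  -- the two products
  have p1 : ∏ P ∈ PU K z, (1 + a P ^ 2) ≤ Real.exp 4 := by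
    calc ∏ P ∈ PU K z, (1 + a P ^ 2) ≤ ∏ P ∈ PU K z, Real.exp (a P ^ 2) := by
          refine prod_le_prod (fun P _ => by positivity) fun P _ => ?_
          rw [add_comm]
          exact Real.add_one_le_exp _
      _ = Real.exp (∑ P ∈ PU K z, a P ^ 2) := (Real.exp_sum _ _).symm
      _ ≤ Real.exp 4 := by
          refine Real.exp_le_exp.2 (le_trans (sum_le_sum fun P hP => ?_) (PConv.sum_aP_le z))
          obtain ⟨h1, h2, h3⟩ := mem_PU.1 hP
          have h4 : 1 < q ^ P.natDegree := one_lt_pow₀ (by linarith) h2.natDegree_pos.ne'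
          unfold PConv.aP
          rw [ha, ← hqe, one_div_pow]
          exact one_div_le_one_div_of_le (pow_pos (by linarith) 2)
            (pow_le_pow_left₀ (by linarith) (by linarith) 2)
  have p2 : ∏ P ∈ PU K z, (1 + x P) ≤
      ∏ᶠ P ∈ PA h, (1 + 1 / (Fintype.card K : ℝ) ^ P.natDegree) := by
    rw [finprod_mem_eq_finite_toFinset_prod _ (PA_finite hh), ← hqe]
    have e1 : ∏ P ∈ PU K z, (1 + x P) = ∏ P ∈ (PU K z).filter (fun P => P ∣ h),
        (1 + 1 / q ^ P.natDegree) := by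
      rw [Finset.prod_filter]
      refine prod_congr rfl fun P _ => ?_
      rw [hx]
      simp only
      split_ifs
      · rfl
      · rw [add_zero]
    have hsub : (PU K z).filter (fun P => P ∣ h) ⊆ (PA_finite hh).toFinset := by
      intro P hP
      obtain ⟨h1, h2⟩ := mem_filter.1 hP
      obtain ⟨h3, h4, -⟩ := mem_PU.1 h1
      exact (PA_finite hh).mem_toFinset.2 ⟨h3, h4, h2⟩
    rw [e1, ← Finset.prod_sdiff hsub]
    refine le_mul_of_one_le_left (prod_nonneg fun P _ => by positivity) ?_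
    refine one_le_prod' fun P _ => ?_
    have : 0 ≤ 1 / q ^ P.natDegree := by positivity
    linarith
  have hz : (z : ℝ) / 2 ≤ (z / 2 : ℕ) + 1 := by
    have h1 : z ≤ 2 * (z / 2) + 2 := by omega
    have h2 : (z : ℝ) ≤ 2 * ((z / 2 : ℕ) : ℝ) + 2 := by exact_mod_cast h1
    linarith
  have t1 : (z : ℝ) ^ 2 / 16 ≤ (∑ S ∈ (PU K z).powerset.filter
      (fun S => ∑ P ∈ S, P.natDegree ≤ z / 2), ∏ P ∈ S, a P) ^ 2 := by
    have h1 : (z : ℝ) / 4 ≤ ∑ S ∈ (PU K z).powerset.filter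
      (fun S => ∑ P ∈ S, P.natDegree ≤ z / 2), ∏ P ∈ S, a P := by linarith
    have h2 := pow_le_pow_left₀ (by positivity) h1 2
    calc (z : ℝ) ^ 2 / 16 = ((z : ℝ) / 4) ^ 2 := by ring
      _ ≤ _ := h2
  obtain ⟨Pr, hPr⟩ : ∃ Pr : ℝ, Pr = ∏ᶠ P ∈ PA h, (1 + 1 / (Fintype.card K : ℝ) ^ P.natDegree) :=
    ⟨_, rfl⟩
  rw [← hPr] at p2 ⊢
  rw [s5] at s3
  rw [← s6] at s4
  have t2 : ∑ S ∈ (PU K z).powerset.filter (fun S => ∑ P ∈ S, P.natDegree ≤ z),
      ∏ P ∈ S, (x P + lam P) ≤ Pr * Lz K h z := s4.trans (mul_le_mul_of_nonneg_right p2 hL0)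
  have t3 : 0 ≤ ∑ S ∈ (PU K z).powerset.filter (fun S => ∑ P ∈ S, P.natDegree ≤ z),
      ∏ P ∈ S, (x P + lam P) :=
    sum_nonneg fun S _ => prod_nonneg fun P _ => add_nonneg (hx0 P) (hlam0 P)
  have t4 : (z : ℝ) ^ 2 / 16 ≤ Real.exp 4 * (Pr * Lz K h z) :=
    (t1.trans (s2.trans s3)).trans (mul_le_mul p1 t2 t3 (Real.exp_pos _).le)
  have hE := Real.exp_pos 4
  rw [div_mul_eq_mul_div, one_mul, div_le_iff₀ (by positivity)]
  linarith

end fin

end Pool.Agent.H290.FX.PLlb
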