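import Pool.Agent.H290.FX.StmL

/-!
# Task LEV: few `H` have a large sum over the monomials (helper236, for helper290)

`Gm K d H = ∑_{i < d} g (h_i)`, `g 0 = q - 1`, `g h = -1` for `h ≠ 0`.  For `s = ± L` the mean of
`exp (s Gm)` over the `H` is a `d`-th power, and `|Gm| ≥ (1 - η) (q - 1) d` has the factor
`exp (- L (1 - η) (q - 1) d)`.
-/

set_option autoImplicit false

namespace Pool.Agent.H290.FX.PLlevb

open Polynomial
open scoped Classical
open Pool.Agent.H290.FX
open Pool.Agent.H290.FX.L (Mo Gm)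
open Pool.Agent.H985.KP (sg)

/-- the sum over `b ≠ 0` of the signs of `b h` -/
noncomputable def gg (K : Type) [Field K] [Fintype K] (h : K) : ℝ :=
  if h = 0 then (Fintype.card K : ℝ) - 1 else -1

section

variable {K : Type} [Field K] [Fintype K] [CharP K 2]

theorem sum_all {h : K} (hh : h ≠ 0) : ∑ b : K, sg (b * h) = 0 := by
  obtain ⟨x, hx⟩ := Pool.Agent.H985.KP.Loc2.exists_sg_neg (F := K)
  have h1 : ∑ b : K, sg (b * h) = ∑ b : K, sg ((b + x / h) * h) :=
    (Equiv.sum_comp (Equiv.addRight (x / h)) (fun b : K => sg (b * h))).symm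
  have h2 : ∀ b : K, sg ((b + x / h) * h) = - sg (b * h) := by
    intro b
    rw [add_mul, div_mul_cancel₀ _ hh, Pool.Agent.H985.KP.Loc2.sg_add, hx]
    ring
  simp only [h2, Finset.sum_neg_distrib] at h1
  linarith

theorem sum_sg (h : K) : ∑ b ∈ Finset.univ.filter (fun b : K => b ≠ 0), sg (b * h) = gg K h := by
  have h1 : ∑ b : K, sg (b * h) = sg ((0 : K) * h) +
      ∑ b ∈ Finset.univ.filter (fun b : K => b ≠ 0), sg (b * h) := by
    rw [Finset.filter_ne', Finset.add_sum_erase _ (fun b : K => sg (b * h)) (Finset.mem_univ 0)]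
  rw [zero_mul, Pool.Agent.H985.KP.Loc2.sg_zero] at h1
  unfold gg
  split_ifs with hh
  · subst hh
    simp only [mul_zero, Pool.Agent.H985.KP.Loc2.sg_zero, Finset.sum_const, Finset.card_univ,
      nsmul_eq_mul, mul_one] at h1 ⊢
    linarith
  · rw [sum_all hh] at h1
    linarith

omit [CharP K 2] in
theorem inj_mo (d : ℕ) : Set.InjOn (fun p : K × ℕ => (C p.1 * X ^ p.2 : K[X]))
    (((Finset.univ.filter (fun b : K => b ≠ 0)) ×ˢ Finset.range d : Finset (K × ℕ)) : Set (K × ℕ)) := by
  rintro ⟨b, i⟩ hb ⟨c, j⟩ hc h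
  rw [Finset.mem_coe, Finset.mem_product, Finset.mem_filter] at hb hc
  have hb0 : b ≠ 0 := hb.1.2
  have hc0 : c ≠ 0 := hc.1.2
  simp only at h
  have h1 := congrArg natDegree h
  rw [natDegree_C_mul_X_pow i b hb0, natDegree_C_mul_X_pow j c hc0] at h1
  have h2 := congrArg leadingCoeff h
  rw [leadingCoeff_C_mul_X_pow, leadingCoeff_C_mul_X_pow] at h2
  rw [h1, h2]

theorem Gm_eq (d : ℕ) (H : K[X]) : Gm K d H = ∑ i : Fin d, gg K (H.coeff i) := by
  unfold Gm Mo
  rw [Finset.sum_image (inj_mo d), Finset.sum_product_right]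
  have h1 : ∀ i ∈ Finset.range d, ∑ b ∈ Finset.univ.filter (fun b : K => b ≠ 0),
      ch d H (C b * X ^ i) = gg K (H.coeff (d - 1 - i)) := by
    intro i hi
    rw [Finset.mem_range] at hi
    rw [← sum_sg]
    refine Finset.sum_congr rfl fun b _ => ?_
    rw [ch_apply]
    congr 1
    have e : H * (C b * X ^ i) = C b * (H * X ^ i) := by ring
    rw [e, coeff_C_mul, coeff_mul_X_pow', if_pos (by omega)]
  rw [Finset.sum_congr rfl h1, Finset.sum_range_reflect (fun i => gg K (H.coeff i)) d,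
    Finset.sum_range]

/-- the exponential moment -/
theorem moment (d : ℕ) (s : ℝ) : ∑ H ∈ Vs K d, Real.exp (s * Gm K d H) =
    (Real.exp (s * ((Fintype.card K : ℝ) - 1)) +
      ((Fintype.card K : ℝ) - 1) * Real.exp (-s)) ^ d := by
  have h1 : ∑ H ∈ Vs K d, Real.exp (s * Gm K d H) =
      ∑ c : Fin d → K, ∏ i, Real.exp (s * gg K (c i)) := by
    refine Finset.sum_nbij' (fun H i => H.coeff (i : ℕ)) (fun c => ∑ i : Fin d, C (c i) * X ^ (i : ℕ))
      (fun _ _ => Finset.mem_univ _) (fun c _ => ?_) (fun H hH => ?_) (fun c _ => ?_) (fun H _ => ?_)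
    · rw [mem_Vs]
      exact degree_sum_fin_lt c
    · rw [mem_Vs] at hH
      simp only
      rw [Fin.sum_univ_eq_sum_range (fun i => C (H.coeff i) * X ^ i) d]
      by_cases h0 : H = 0
      · simp [h0]
      · exact (as_sum_range_C_mul_X_pow' H ((natDegree_lt_iff_degree_lt h0).2 hH)).symm
    · funext j
      simp only [finsetSum_coeff, coeff_C_mul_X_pow]
      rw [Finset.sum_eq_single j]
      · rw [if_pos rfl]
      · intro i _ hij
        rw [if_neg]
        exact fun h => hij (Fin.ext h.symm)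
      · exact fun h => absurd (Finset.mem_univ j) h
    · rw [Gm_eq, Finset.mul_sum, Real.exp_sum]
  have h2 : ∑ b : K, Real.exp (s * gg K b) = Real.exp (s * ((Fintype.card K : ℝ) - 1)) +
      ((Fintype.card K : ℝ) - 1) * Real.exp (-s) := by
    rw [← Finset.add_sum_erase _ _ (Finset.mem_univ (0 : K))]
    congr 1
    · unfold gg
      rw [if_pos rfl]
    · have h3 : ∀ b ∈ (Finset.univ : Finset K).erase 0, Real.exp (s * gg K b) = Real.exp (-s) := by
        intro b hb
        unfold gg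
        rw [if_neg (Finset.ne_of_mem_erase hb), mul_neg, mul_one]
      rw [Finset.sum_congr rfl h3, Finset.sum_const, Finset.card_erase_of_mem (Finset.mem_univ _),
        Finset.card_univ, nsmul_eq_mul, Nat.cast_sub Fintype.card_pos, Nat.cast_one]
  rw [h1, ← h2, Fintype.sum_pow]

end

/-- both exponential moments are at most `(exp (L (q - 1)) (1 + q exp (-L))) ^ d` -/
theorem base_le {q L : ℝ} (hq : q = 2 ∨ 3 ≤ q) (hL : 0 ≤ L) :
    Real.exp (L * (q - 1)) + (q - 1) * Real.exp (-L) ≤
        Real.exp (L * (q - 1)) * (1 + q * Real.exp (-L)) ∧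
      Real.exp (-L * (q - 1)) + (q - 1) * Real.exp (-(-L)) ≤
        Real.exp (L * (q - 1)) * (1 + q * Real.exp (-L)) := by
  have hq2 : 2 ≤ q := by rcases hq with h | h <;> linarith
  have e1 : 1 ≤ Real.exp (L * (q - 1)) := Real.one_le_exp (mul_nonneg hL (by linarith))
  have e2 : 0 < Real.exp (-L) := Real.exp_pos _
  have e3 : 0 < Real.exp (L * (q - 1)) := Real.exp_pos _
  refine ⟨?_, ?_⟩
  · have h1 : (q - 1) * Real.exp (-L) ≤ q * Real.exp (-L) :=
      mul_le_mul_of_nonneg_right (by linarith) e2.le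
    have h2 : q * Real.exp (-L) ≤ Real.exp (L * (q - 1)) * (q * Real.exp (-L)) :=
      le_mul_of_one_le_left (by positivity) e1
    linarith
  · rcases hq with h | h
    · subst h
      have h1 : Real.exp (-(-L)) = Real.exp (L * (2 - 1)) := by
        congr 1
        ring
      have h2 : Real.exp (-L * (2 - 1)) = Real.exp (-L) := by
        congr 1
        ring
      have h3 : (2 : ℝ) * Real.exp (-L) ≤ Real.exp (L * (2 - 1)) * (2 * Real.exp (-L)) :=
        le_mul_of_one_le_left (by positivity) e1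
      rw [h1, h2]
      linarith
    · have h1 : Real.exp (-L * (q - 1)) ≤ 1 := by
        rw [Real.exp_le_one_iff]
        nlinarith
      have h2 : Real.exp (-(-L)) ≤ Real.exp (L * (q - 1)) * Real.exp (-L) := by
        rw [← Real.exp_add]
        apply Real.exp_le_exp.2
        nlinarith
      have h3 : (q - 1) * Real.exp (-(-L)) ≤ (q - 1) * (Real.exp (L * (q - 1)) * Real.exp (-L)) :=
        mul_le_mul_of_nonneg_left h2 (by linarith)
      have h4 : 0 < Real.exp (L * (q - 1)) * Real.exp (-L) := by positivity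
      nlinarith

theorem main : Pool.Agent.H290.FX.L.S_lev := by
  intro K _ _ _ ε hε
  obtain ⟨q, hqd⟩ : ∃ q : ℝ, q = (Fintype.card K : ℝ) := ⟨_, rfl⟩
  have hq2 : 2 ≤ q := by
    rw [hqd]
    exact_mod_cast (Fintype.one_lt_card (α := K))
  have hq : q = 2 ∨ 3 ≤ q := by
    have h1 : 1 < Fintype.card K := Fintype.one_lt_card
    rcases Nat.lt_or_ge (Fintype.card K) 3 with h | h
    · left
      have : Fintype.card K = 2 := by omega
      rw [hqd, this]
      norm_num
    · right
      rw [hqd]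
      exact_mod_cast h
  have hlog : 0 < Real.log q := Real.log_pos (by linarith)
  -- choice of `L`
  obtain ⟨L, hL0, hL⟩ : ∃ L : ℝ, 0 < L ∧ 1 + q * Real.exp (-L) ≤ Real.exp (ε / 4 * Real.log q) := by
    have h1 : 0 < ε / 4 * Real.log q := by positivity
    refine ⟨max 1 (Real.log (q / (ε / 4 * Real.log q))), lt_max_of_lt_left one_pos, ?_⟩
    have h2 : Real.exp (-max 1 (Real.log (q / (ε / 4 * Real.log q)))) ≤ (ε / 4 * Real.log q) / q := by
      have h3 : Real.exp (-max 1 (Real.log (q / (ε / 4 * Real.log q)))) ≤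
          Real.exp (-Real.log (q / (ε / 4 * Real.log q))) :=
        Real.exp_le_exp.2 (neg_le_neg (le_max_right _ _))
      rw [Real.exp_neg (Real.log _), Real.exp_log (by positivity), inv_div] at h3
      exact h3
    have h3 : q * Real.exp (-max 1 (Real.log (q / (ε / 4 * Real.log q)))) ≤ ε / 4 * Real.log q := by
      have h4 := mul_le_mul_of_nonneg_left h2 (by linarith : (0 : ℝ) ≤ q)
      rwa [mul_div_cancel₀ _ (by linarith : q ≠ 0)] at h4
    have h4 := Real.add_one_le_exp (ε / 4 * Real.log q)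
    linarith
  -- choice of `η`
  obtain ⟨η, hη0, hη1, hη⟩ : ∃ η : ℝ, 0 < η ∧ η < 1 ∧ L * η * (q - 1) ≤ ε / 4 * Real.log q := by
    refine ⟨min (1 / 2) (ε / 4 * Real.log q / (L * (q - 1))), lt_min (by norm_num) ?_,
      (min_le_left _ _).trans_lt (by norm_num), ?_⟩
    · have : 0 < L * (q - 1) := mul_pos hL0 (by linarith)
      positivity
    · have h1 : 0 < L * (q - 1) := mul_pos hL0 (by linarith)
      have h2 := mul_le_mul_of_nonneg_left
        (min_le_right (1 / 2) (ε / 4 * Real.log q / (L * (q - 1)))) h1.le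
      rw [mul_div_cancel₀ _ h1.ne'] at h2
      nlinarith
  obtain ⟨d₀, hd₀⟩ := exists_nat_gt (Real.log 2 / (ε / 2 * Real.log q))
  refine ⟨η, hη0, hη1, d₀, fun d hd => ?_⟩
  rw [← hqd]
  obtain ⟨N, hN⟩ : ∃ N : ℝ, N = (q - 1) * d := ⟨_, rfl⟩
  rw [← hN]
  obtain ⟨hb1, hb2⟩ := base_le hq hL0.le
  have hm1 := moment (K := K) d L
  have hm2 := moment (K := K) d (-L)
  rw [← hqd] at hm1 hm2
  have hpos1 : 0 ≤ Real.exp (L * (q - 1)) + (q - 1) * Real.exp (-L) := by
    have : 0 ≤ (q - 1) * Real.exp (-L) := mul_nonneg (by linarith) (Real.exp_pos _).le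
    have := Real.exp_pos (L * (q - 1))
    linarith
  have hpos2 : 0 ≤ Real.exp (-L * (q - 1)) + (q - 1) * Real.exp (-(-L)) := by
    have : 0 ≤ (q - 1) * Real.exp (-(-L)) := mul_nonneg (by linarith) (Real.exp_pos _).le
    have := Real.exp_pos (-L * (q - 1))
    linarith
  have hm1' := hm1.le.trans (pow_le_pow_left₀ hpos1 hb1 d)
  have hm2' := hm2.le.trans (pow_le_pow_left₀ hpos2 hb2 d)
  -- the count
  have hc : ((((Vs K d).filter (fun H => (1 - η) * N ≤ |Gm K d H|)).card : ℕ) : ℝ) *
      Real.exp (L * ((1 - η) * N)) ≤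
      ∑ H ∈ Vs K d, Real.exp (L * Gm K d H) + ∑ H ∈ Vs K d, Real.exp (-L * Gm K d H) := by
    rw [← Finset.sum_add_distrib, ← nsmul_eq_mul, ← Finset.sum_const]
    refine (Finset.sum_le_sum fun H hH => ?_).trans
      (Finset.sum_le_sum_of_subset_of_nonneg (Finset.filter_subset _ _) fun H _ _ => by positivity)
    rw [Finset.mem_filter] at hH
    rcases le_total 0 (Gm K d H) with h | h
    · rw [abs_of_nonneg h] at hH
      have h1 := Real.exp_le_exp.2 (mul_le_mul_of_nonneg_left hH.2 hL0.le)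
      have h2 := Real.exp_pos (-L * Gm K d H)
      linarith
    · rw [abs_of_nonpos h] at hH
      have h1 := Real.exp_le_exp.2 (mul_le_mul_of_nonneg_left hH.2 hL0.le)
      have h2 := Real.exp_pos (L * Gm K d H)
      have h3 : L * -Gm K d H = -L * Gm K d H := by ring
      rw [h3] at h1
      linarith
  have hc2 := hc.trans (add_le_add hm1' hm2')
  have hc3 : ((((Vs K d).filter (fun H => (1 - η) * N ≤ |Gm K d H|)).card : ℕ) : ℝ) ≤
      2 * ((1 + q * Real.exp (-L)) ^ d * Real.exp (L * η * (q - 1) * d)) := by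
    have h1 : Real.exp (L * (q - 1)) ^ d =
        Real.exp (L * ((1 - η) * N)) * Real.exp (L * η * (q - 1) * d) := by
      rw [← Real.exp_nat_mul, ← Real.exp_add, hN]
      congr 1
      ring
    rw [mul_pow, h1] at hc2
    have h2 := Real.exp_pos (L * ((1 - η) * N))
    refine le_of_mul_le_mul_right (hc2.trans (le_of_eq ?_)) h2
    ring
  refine hc3.trans ?_
  have h1 : (1 + q * Real.exp (-L)) ^ d ≤ Real.exp (ε / 4 * Real.log q * d) := by
    rw [mul_comm (ε / 4 * Real.log q), Real.exp_nat_mul]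
    exact pow_le_pow_left₀ (by have := Real.exp_pos (-L); positivity) hL d
  have hd' : (0 : ℝ) ≤ d := Nat.cast_nonneg d
  have h2 : Real.exp (L * η * (q - 1) * d) ≤ Real.exp (ε / 4 * Real.log q * d) :=
    Real.exp_le_exp.2 (mul_le_mul_of_nonneg_right hη hd')
  have h3 : (2 : ℝ) ≤ Real.exp (ε / 2 * Real.log q * d) := by
    have h4 : Real.log 2 / (ε / 2 * Real.log q) ≤ (d : ℝ) :=
      hd₀.le.trans (by exact_mod_cast hd)
    rw [div_le_iff₀ (by positivity)] at h4
    have h5 : Real.exp (Real.log 2) ≤ Real.exp (ε / 2 * Real.log q * d) :=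
      Real.exp_le_exp.2 (by linarith)
    rwa [Real.exp_log two_pos] at h5
  have h4 : q ^ (ε * d) = Real.exp (ε / 2 * Real.log q * d) *
      (Real.exp (ε / 4 * Real.log q * d) * Real.exp (ε / 4 * Real.log q * d)) := by
    rw [← Real.exp_add, ← Real.exp_add, Real.rpow_def_of_pos (by linarith)]
    congr 1
    ring
  rw [h4]
  refine mul_le_mul h3 (mul_le_mul h1 h2 (Real.exp_pos _).le (Real.exp_pos _).le) (by positivity)
    (Real.exp_pos _).le

end Pool.Agent.H290.FX.PLlevb
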