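import Pool.Agent.H290.FX.StmL

/-!
# Task LOG (helper315): the product over the primes dividing `f`
-/

set_option autoImplicit false

open scoped Classical
open Finset Polynomial

namespace Pool.Agent.H290.FX.PLlog

open Pool.Agent.H290.FX
open Pool.Agent.H290.FX.PRank (card_large)
open Pool.Agent.H985.KP (PA)
open Pool.Agent.H694.Typ (PU mem_PU q_ge)

variable {K : Type} [Field K] [Fintype K]

theorem PA_eq {f : K[X]} (hf : f ≠ 0) :
    PA f = (((PU K f.natDegree).filter (fun P => P ∣ f) : Finset K[X]) : Set K[X]) := by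
  ext P
  rw [Finset.mem_coe, mem_filter, mem_PU]
  constructor
  · rintro ⟨h1, h2, h3⟩
    exact ⟨⟨h1, h2, natDegree_le_of_dvd h3 hf⟩, h3⟩
  · rintro ⟨⟨h1, h2, _⟩, h3⟩
    exact ⟨h1, h2, h3⟩

theorem sum_small (y : ℕ) : ∑ P ∈ PU K y, 1 / (Fintype.card K : ℝ) ^ P.natDegree ≤
    1 + Real.log y := by
  have h := PT4.sum_inv (K := K) y
  have e : ∑ P ∈ PU K y, 2 * ((Fintype.card K : ℝ) ^ P.natDegree)⁻¹ =
      2 * ∑ P ∈ PU K y, 1 / (Fintype.card K : ℝ) ^ P.natDegree := by
    rw [mul_sum]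
    exact sum_congr rfl (fun P _ => by rw [one_div])
  rw [e] at h
  linarith

theorem sum_large {f : K[X]} (hf : f ≠ 0) (y : ℕ) (hy : f.natDegree + 1 ≤ 2 ^ y) :
    ∑ P ∈ (PU K f.natDegree).filter (fun P => P ∣ f ∧ y < P.natDegree),
      1 / (Fintype.card K : ℝ) ^ P.natDegree ≤ 1 := by
  have hq := q_ge (k := K)
  have h1 : ∀ P ∈ (PU K f.natDegree).filter (fun P => P ∣ f ∧ y < P.natDegree),
      1 / (Fintype.card K : ℝ) ^ P.natDegree ≤ 1 / (2 : ℝ) ^ y := by
    intro P hP
    rw [mem_filter] at hP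
    apply one_div_le_one_div_of_le (by positivity)
    calc (2 : ℝ) ^ y ≤ (2 : ℝ) ^ P.natDegree := pow_le_pow_right₀ (by norm_num) hP.2.2.le
      _ ≤ (Fintype.card K : ℝ) ^ P.natDegree := pow_le_pow_left₀ (by norm_num) hq _
  refine (sum_le_sum h1).trans ?_
  rw [sum_const, nsmul_eq_mul]
  have h2 := card_large hf (le_refl f.natDegree) f.natDegree y
  set m := ((PU K f.natDegree).filter (fun P => P ∣ f ∧ y < P.natDegree)).card with hm
  have h3 : m ≤ 2 ^ y := by
    have : m ≤ (y + 1) * m := Nat.le_mul_of_pos_left m (by omega)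
    omega
  have h4 : (m : ℝ) ≤ (2 : ℝ) ^ y := by exact_mod_cast h3
  rw [mul_one_div, div_le_one (by positivity)]
  exact h4

theorem main : Pool.Agent.H290.FX.L.S_log := by
  intro K _ _
  have hl2 : 0 < Real.log 2 := Real.log_pos (by norm_num)
  refine ⟨Real.exp 2 / Real.log 2, by positivity, fun f hf => ?_⟩
  rw [PA_eq hf, finprod_mem_coe_finset]
  set n := f.natDegree with hn
  set y := Nat.log 2 (n + 1) + 1 with hy
  have hy1 : n + 1 ≤ 2 ^ y := (Nat.lt_pow_succ_log_self (by norm_num) (n + 1)).le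
  have hy2 : 2 ^ (y - 1) ≤ n + 1 := Nat.pow_log_le_self 2 (by omega)
  have h1 : ∏ P ∈ (PU K n).filter (fun P => P ∣ f), (1 + 1 / (Fintype.card K : ℝ) ^ P.natDegree) ≤
      Real.exp (∑ P ∈ (PU K n).filter (fun P => P ∣ f), 1 / (Fintype.card K : ℝ) ^ P.natDegree) := by
    rw [Real.exp_sum]
    refine prod_le_prod (fun P _ => by positivity) (fun P _ => ?_)
    rw [add_comm]
    exact Real.add_one_le_exp _
  have h2 : ∑ P ∈ (PU K n).filter (fun P => P ∣ f), 1 / (Fintype.card K : ℝ) ^ P.natDegree ≤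
      ∑ P ∈ PU K y, 1 / (Fintype.card K : ℝ) ^ P.natDegree +
        ∑ P ∈ (PU K n).filter (fun P => P ∣ f ∧ y < P.natDegree),
          1 / (Fintype.card K : ℝ) ^ P.natDegree := by
    have hsub : (PU K n).filter (fun P => P ∣ f) ⊆
        PU K y ∪ (PU K n).filter (fun P => P ∣ f ∧ y < P.natDegree) := by
      intro P hP
      rw [mem_filter, mem_PU] at hP
      rw [mem_union, mem_filter, mem_PU, mem_PU]
      by_cases h : y < P.natDegree
      · exact Or.inr ⟨hP.1, hP.2, h⟩
      · exact Or.inl ⟨hP.1.1, hP.1.2.1, by omega⟩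
    refine (sum_le_sum_of_subset_of_nonneg hsub (fun P _ _ => by positivity)).trans ?_
    have hu := sum_union_inter (s₁ := PU K y)
      (s₂ := (PU K n).filter (fun P => P ∣ f ∧ y < P.natDegree))
      (f := fun P => 1 / (Fintype.card K : ℝ) ^ P.natDegree)
    have hi : 0 ≤ ∑ P ∈ PU K y ∩ (PU K n).filter (fun P => P ∣ f ∧ y < P.natDegree),
        1 / (Fintype.card K : ℝ) ^ P.natDegree := sum_nonneg (fun P _ => by positivity)
    linarith
  have h3 := sum_small (K := K) y
  have h4 := sum_large hf y hy1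
  have hy0 : (0 : ℝ) < y := by
    have : 0 < y := by omega
    exact_mod_cast this
  have h5 : ((y : ℝ) - 1) * Real.log 2 ≤ Real.log (1 + n) := by
    have e1 : (2 : ℝ) ^ (y - 1) ≤ 1 + n := by
      have : ((2 ^ (y - 1) : ℕ) : ℝ) ≤ ((n + 1 : ℕ) : ℝ) := by exact_mod_cast hy2
      push_cast at this
      linarith
    have e2 := Real.log_le_log (by positivity) e1
    rw [Real.log_pow] at e2
    have e3 : ((y - 1 : ℕ) : ℝ) = (y : ℝ) - 1 := by
      rw [Nat.cast_sub (by omega)]; norm_num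
    rwa [e3] at e2
  have h6 : (y : ℝ) ≤ 1 / Real.log 2 * (1 + Real.log (1 + n)) := by
    rw [one_div, inv_mul_eq_div, le_div_iff₀ hl2]
    have : Real.log 2 ≤ 1 := by
      have := Real.log_two_lt_d9
      linarith
    linarith
  calc ∏ P ∈ (PU K n).filter (fun P => P ∣ f), (1 + 1 / (Fintype.card K : ℝ) ^ P.natDegree)
      ≤ Real.exp (2 + Real.log y) := h1.trans (Real.exp_le_exp.mpr (by linarith))
    _ = Real.exp 2 * y := by rw [Real.exp_add, Real.exp_log hy0]
    _ ≤ Real.exp 2 * (1 / Real.log 2 * (1 + Real.log (1 + n))) :=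
        mul_le_mul_of_nonneg_left h6 (Real.exp_pos _).le
    _ = Real.exp 2 / Real.log 2 * (1 + Real.log (1 + n)) := by ring

end Pool.Agent.H290.FX.PLlog
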