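import Pool.Agent.H290.FX.StmL

/-!
# Task RO (helper290): the average over the differences of the monomials (helper686)
-/

set_option autoImplicit false

namespace Pool.Agent.H290.FX.PLro

open Polynomial
open scoped Classical
open Pool.Agent.H985.KP (PA)
open Pool.Agent.H290.FX.L

section

variable {K : Type} [Field K]

theorem fin_PA {h : K[X]} (h0 : h ≠ 0) : (PA h).Finite := by
  have h1 : PA h ⊆ ((UniqueFactorizationMonoid.normalizedFactors h).toFinset : Set K[X]) := by
    rintro P ⟨hm, hi, hd⟩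
    rw [Finset.mem_coe, Multiset.mem_toFinset]
    obtain ⟨Q, hQ, hPQ⟩ := UniqueFactorizationMonoid.exists_mem_normalizedFactors_of_dvd h0 hi hd
    have h2 : P = Q := by
      have h3 : normalize P = normalize Q := normalize_eq_normalize hPQ.dvd hPQ.symm.dvd
      rwa [UniqueFactorizationMonoid.normalize_normalized_factor Q hQ, hm.normalize_eq_self] at h3
    rw [h2]
    exact hQ
  exact Set.Finite.subset (Finset.finite_toSet _) h1

/-- the product over the prime divisors -/
noncomputable def G (q : ℝ) (h : K[X]) : ℝ := ∏ᶠ P ∈ PA h, (1 + 1 / q ^ P.natDegree)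

theorem G_eq {q : ℝ} {h : K[X]} (h0 : h ≠ 0) :
    G q h = ∏ P ∈ (fin_PA h0).toFinset, (1 + 1 / q ^ P.natDegree) :=
  finprod_mem_eq_finite_toFinset_prod _ (fin_PA h0)

theorem one_le_fac {q : ℝ} (hq : 1 ≤ q) (P : K[X]) : 1 ≤ 1 + 1 / q ^ P.natDegree := by
  have : 0 ≤ 1 / q ^ P.natDegree := by positivity
  linarith

theorem fac_le_two {q : ℝ} (hq : 1 ≤ q) (P : K[X]) : 1 + 1 / q ^ P.natDegree ≤ 2 := by
  have : 1 / q ^ P.natDegree ≤ 1 := by
    rw [div_le_one (by positivity)]
    exact one_le_pow₀ hq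
  linarith

theorem G_nonneg {q : ℝ} (hq : 1 ≤ q) {h : K[X]} (h0 : h ≠ 0) : 0 ≤ G q h := by
  rw [G_eq h0]
  exact Finset.prod_nonneg fun P _ => zero_le_one.trans (one_le_fac hq P)

/-- the divisors of `X ^ i * h` are those of `h`, and `X` -/
theorem G_le {q : ℝ} (hq : 1 ≤ q) {c : K} (hc : c ≠ 0) (i : ℕ) {h : K[X]} (h0 : h ≠ 0) :
    G q (C c * (X ^ i * h)) ≤ 2 * G q h := by
  have hne : C c * (X ^ i * h) ≠ 0 := mul_ne_zero (C_ne_zero.2 hc) (mul_ne_zero (pow_ne_zero _ X_ne_zero) h0)
  rw [G_eq hne, G_eq h0]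
  have hsub : (fin_PA hne).toFinset ⊆ insert (X : K[X]) (fin_PA h0).toFinset := by
    intro P hP
    rw [Set.Finite.mem_toFinset] at hP
    rw [Finset.mem_insert, Set.Finite.mem_toFinset]
    obtain ⟨hm, hi, hd⟩ := hP
    have hu : IsUnit (C c : K[X]) := isUnit_C.2 (isUnit_iff_ne_zero.2 hc)
    have hd2 : P ∣ X ^ i * h := (hu.dvd_mul_left).1 hd
    rcases hi.prime.dvd_or_dvd hd2 with h1 | h1
    · left
      have h2 := hi.prime.dvd_of_dvd_pow h1
      exact eq_of_monic_of_associated hm monic_X (hi.associated_of_dvd irreducible_X h2)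
    · right
      exact ⟨hm, hi, h1⟩
  calc ∏ P ∈ (fin_PA hne).toFinset, (1 + 1 / q ^ P.natDegree)
      ≤ ∏ P ∈ insert (X : K[X]) (fin_PA h0).toFinset, (1 + 1 / q ^ P.natDegree) :=
        by
          rw [← Finset.prod_sdiff hsub]
          have h1 : (1 : ℝ) ≤ ∏ P ∈ insert (X : K[X]) (fin_PA h0).toFinset \ (fin_PA hne).toFinset,
              (1 + 1 / q ^ P.natDegree) := by
            have := Finset.prod_le_prod
              (s := insert (X : K[X]) (fin_PA h0).toFinset \ (fin_PA hne).toFinset)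
              (f := fun _ => (1 : ℝ)) (g := fun P : K[X] => 1 + 1 / q ^ P.natDegree)
              (fun _ _ => zero_le_one) (fun P _ => one_le_fac hq P)
            simpa using this
          have h2 : 0 ≤ ∏ P ∈ (fin_PA hne).toFinset, (1 + 1 / q ^ P.natDegree) :=
            Finset.prod_nonneg fun P _ => zero_le_one.trans (one_le_fac hq P)
          exact le_mul_of_one_le_left h2 h1
    _ ≤ 2 * ∏ P ∈ (fin_PA h0).toFinset, (1 + 1 / q ^ P.natDegree) := by
        by_cases hX : (X : K[X]) ∈ (fin_PA h0).toFinset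
        · rw [Finset.insert_eq_of_mem hX]
          have := Finset.prod_nonneg (s := (fin_PA h0).toFinset)
            (f := fun P : K[X] => 1 + 1 / q ^ P.natDegree) fun P _ => zero_le_one.trans (one_le_fac hq P)
          linarith
        · rw [Finset.prod_insert hX]
          exact mul_le_mul_of_nonneg_right (fac_le_two hq X)
            (Finset.prod_nonneg fun P _ => zero_le_one.trans (one_le_fac hq P))

end

theorem sum_image_le' {α β : Type*} [DecidableEq α] [DecidableEq β] (s : Finset α) (f : α → β) (F : β → ℝ)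
    (hF : ∀ x, 0 ≤ F x) : ∑ x ∈ s.image f, F x ≤ ∑ a ∈ s, F (f a) := by
  induction s using Finset.induction_on with
  | empty => simp
  | insert a s ha ih =>
    rw [Finset.image_insert, Finset.sum_insert ha]
    by_cases h : f a ∈ s.image f
    · rw [Finset.insert_eq_of_mem h]
      linarith [hF (f a)]
    · rw [Finset.sum_insert h]
      linarith

/-- the differences `j - i` -/
theorem sum_diff_le {d i : ℕ} (g : ℕ → ℝ) (hg : ∀ l, 1 ≤ l → 0 ≤ g l) :
    ∑ j ∈ (Finset.range d).filter (fun j => i < j), g (j - i) ≤ ∑ l ∈ Finset.Ico 1 d, g l := by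
  have h1 : ∑ l ∈ ((Finset.range d).filter (fun j => i < j)).image (fun j => j - i), g l =
      ∑ j ∈ (Finset.range d).filter (fun j => i < j), g (j - i) := by
    apply Finset.sum_image
    intro a ha b hb hab
    have ha' := (Finset.mem_filter.1 ha).2
    have hb' := (Finset.mem_filter.1 hb).2
    have hab' : a - i = b - i := hab
    omega
  rw [← h1]
  apply Finset.sum_le_sum_of_subset_of_nonneg
  · intro l hl
    rw [Finset.mem_image] at hl
    obtain ⟨j, hj, rfl⟩ := hl
    rw [Finset.mem_filter, Finset.mem_range] at hj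
    rw [Finset.mem_Ico]
    omega
  · intro l hl _
    exact hg l (Finset.mem_Ico.1 hl).1

theorem main : S_tro := by
  intro hrom K _ _ _
  obtain ⟨C₁, hC₁, hr⟩ := hrom K
  set q : ℝ := (Fintype.card K : ℝ) with hq
  have hq1 : 1 ≤ q := by
    rw [hq]
    exact_mod_cast Fintype.card_pos
  refine ⟨(4 * C₁ + 2) * q ^ 2, by positivity, fun d => ?_⟩
  -- nonvanishing of the trinomials
  have hne : ∀ (l : ℕ) (b : K), 1 ≤ l → (X ^ l + C b : K[X]) ≠ 0 := by
    intro l b hl
    exact (monic_X_pow_add_C b (by omega)).ne_zero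
  have hadd : ∀ x y : K[X], x ≠ y → x + y ≠ 0 := by
    intro x y hxy h0
    apply hxy
    have h2 : x + y = x - y := by rw [CharTwo.sub_eq_add]
    rw [h2] at h0
    exact sub_eq_zero.1 h0
  -- the function of two monomials
  set F : K[X] → K[X] → ℝ := fun x y => if x ≠ y then G q (x + y) else 0 with hF
  have hF0 : ∀ x y, 0 ≤ F x y := by
    intro x y
    simp only [hF]
    split_ifs with h
    · exact G_nonneg hq1 (hadd x y h)
    · exact le_rfl
  set gg : K → K → ℕ → ℝ := fun b c l => G q (X ^ l + C (b / c) : K[X]) with hgg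
  have hgg0 : ∀ b c l, 1 ≤ l → 0 ≤ gg b c l := fun b c l hl => G_nonneg hq1 (hne l _ hl)
  -- the bound for one pair
  have hpair : ∀ (b c : K) (i j : ℕ), b ≠ 0 → c ≠ 0 →
      F (C b * X ^ i) (C c * X ^ j) ≤ 2 * (if i < j then gg b c (j - i) else 0) +
        2 * (if j < i then gg c b (i - j) else 0) + (if i = j then 2 else 0) := by
    intro b c i j hb hc
    simp only [hF]
    rcases lt_trichotomy i j with h | h | h
    · rw [if_pos h, if_neg (show ¬ j < i by omega), if_neg (show ¬ i = j by omega)]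
      have e : (C b * X ^ i + C c * X ^ j : K[X]) = C c * (X ^ i * (X ^ (j - i) + C (b / c))) := by
        have h1 : (X ^ j : K[X]) = X ^ i * X ^ (j - i) := by rw [← pow_add]; congr 1; omega
        have h2 : (C b : K[X]) = C c * C (b / c) := by rw [← C_mul, mul_div_cancel₀ _ hc]
        rw [h1, h2]
        ring
      split_ifs with h3
      · rw [e]
        have := G_le hq1 hc i (hne (j - i) (b / c) (by omega))
        simpa [hgg] using this
      · have := hgg0 b c (j - i) (by omega)
        linarith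
    · subst h
      rw [if_neg (lt_irrefl i), if_neg (lt_irrefl i), if_pos (rfl : i = i)]
      split_ifs with h3
      · have hbc : b + c ≠ 0 := by
          intro h0
          apply h3
          have : b = c := by
            have h2 : b + c = b - c := by rw [CharTwo.sub_eq_add]
            rw [h2] at h0
            exact sub_eq_zero.1 h0
          rw [this]
        have e : (C b * X ^ i + C c * X ^ i : K[X]) = C (b + c) * (X ^ i * 1) := by
          rw [C_add]; ring
        rw [e]
        have h4 := G_le hq1 hbc i (one_ne_zero (α := K[X]))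
        have h5 : G q (1 : K[X]) = 1 := by
          have h6 : PA (1 : K[X]) = ∅ := by
            ext P
            simp only [Set.mem_empty_iff_false, iff_false]
            rintro ⟨-, hi, hd⟩
            exact hi.not_isUnit (isUnit_of_dvd_one hd)
          unfold G
          rw [h6]
          simp
        rw [h5] at h4
        linarith
      · norm_num
    · rw [if_neg (show ¬ i < j by omega), if_pos h, if_neg (show ¬ i = j by omega)]
      have e : (C b * X ^ i + C c * X ^ j : K[X]) = C b * (X ^ j * (X ^ (i - j) + C (c / b))) := by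
        have h1 : (X ^ i : K[X]) = X ^ j * X ^ (i - j) := by rw [← pow_add]; congr 1; omega
        have h2 : (C c : K[X]) = C b * C (c / b) := by rw [← C_mul, mul_div_cancel₀ _ hb]
        rw [h1, h2]
        ring
      split_ifs with h3
      · rw [e]
        have := G_le hq1 hb j (hne (i - j) (c / b) (by omega))
        simpa [hgg] using this
      · have := hgg0 c b (i - j) (by omega)
        linarith
  -- the sum over `i, j`
  have hij : ∀ b c : K, b ≠ 0 → c ≠ 0 →
      ∑ i ∈ Finset.range d, ∑ j ∈ Finset.range d, F (C b * X ^ i) (C c * X ^ j) ≤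
        (4 * C₁ + 2) * (d : ℝ) ^ 2 := by
    intro b c hb hc
    have s1 : ∀ i, ∑ j ∈ Finset.range d, (if i < j then gg b c (j - i) else 0) ≤ C₁ * d := by
      intro i
      rw [← Finset.sum_filter]
      exact (sum_diff_le _ (hgg0 b c)).trans (hr d (b / c) (div_ne_zero hb hc))
    have s2 : ∀ j, ∑ i ∈ Finset.range d, (if j < i then gg c b (i - j) else 0) ≤ C₁ * d := by
      intro i
      rw [← Finset.sum_filter]
      exact (sum_diff_le _ (hgg0 c b)).trans (hr d (c / b) (div_ne_zero hc hb))
    have s3 : ∀ i ∈ Finset.range d, ∑ j ∈ Finset.range d, (if i = j then (2 : ℝ) else 0) = 2 := by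
      intro i hi
      rw [Finset.sum_ite_eq, if_pos hi]
    calc ∑ i ∈ Finset.range d, ∑ j ∈ Finset.range d, F (C b * X ^ i) (C c * X ^ j)
        ≤ ∑ i ∈ Finset.range d, ∑ j ∈ Finset.range d, (2 * (if i < j then gg b c (j - i) else 0) +
          2 * (if j < i then gg c b (i - j) else 0) + (if i = j then 2 else 0)) :=
          Finset.sum_le_sum fun i _ => Finset.sum_le_sum fun j _ => hpair b c i j hb hc
      _ = 2 * ∑ i ∈ Finset.range d, ∑ j ∈ Finset.range d, (if i < j then gg b c (j - i) else 0) +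
          2 * ∑ i ∈ Finset.range d, ∑ j ∈ Finset.range d, (if j < i then gg c b (i - j) else 0) +
          ∑ i ∈ Finset.range d, ∑ j ∈ Finset.range d, (if i = j then (2 : ℝ) else 0) := by
          simp only [Finset.sum_add_distrib, Finset.mul_sum]
      _ ≤ 2 * ∑ i ∈ Finset.range d, C₁ * d + 2 * ∑ i ∈ Finset.range d, C₁ * d +
          ∑ i ∈ Finset.range d, (2 : ℝ) := by
          refine add_le_add (add_le_add ?_ ?_) ?_
          · exact mul_le_mul_of_nonneg_left (Finset.sum_le_sum fun i _ => s1 i) (by norm_num)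
          · apply mul_le_mul_of_nonneg_left _ (by norm_num)
            rw [Finset.sum_comm]
            exact Finset.sum_le_sum fun j _ => s2 j
          · exact (Finset.sum_congr rfl s3).le
      _ = 4 * C₁ * (d : ℝ) ^ 2 + 2 * d := by
          simp only [Finset.sum_const, Finset.card_range, nsmul_eq_mul]
          ring
      _ ≤ (4 * C₁ + 2) * (d : ℝ) ^ 2 := by
          have hd : (d : ℝ) ≤ (d : ℝ) ^ 2 := by
            have : d ≤ d ^ 2 := Nat.le_self_pow (by norm_num) d
            exact_mod_cast this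
          nlinarith
  -- everything
  have hstart : ∑ p ∈ (Mo K d ×ˢ Mo K d).filter (fun p => p.1 ≠ p.2),
      ∏ᶠ P ∈ PA (p.1 + p.2), (1 + 1 / (Fintype.card K : ℝ) ^ P.natDegree) =
      ∑ x ∈ Mo K d, ∑ y ∈ Mo K d, F x y := by
    rw [Finset.sum_filter, Finset.sum_product]
    rfl
  rw [hstart]
  set S : Finset (K × ℕ) := (Finset.univ.filter (fun b : K => b ≠ 0)) ×ˢ Finset.range d with hS
  have hMo : ∀ f : K[X] → ℝ, (∀ x, 0 ≤ f x) → ∑ x ∈ Mo K d, f x ≤ ∑ s ∈ S, f (C s.1 * X ^ s.2) := by
    intro f hf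
    unfold Mo
    exact sum_image_le' _ _ f hf
  have h1 : ∑ x ∈ Mo K d, ∑ y ∈ Mo K d, F x y ≤
      ∑ s ∈ S, ∑ t ∈ S, F (C s.1 * X ^ s.2) (C t.1 * X ^ t.2) := by
    calc ∑ x ∈ Mo K d, ∑ y ∈ Mo K d, F x y
        ≤ ∑ x ∈ Mo K d, ∑ t ∈ S, F x (C t.1 * X ^ t.2) :=
          Finset.sum_le_sum fun x _ => hMo (F x) (hF0 x)
      _ ≤ ∑ s ∈ S, ∑ t ∈ S, F (C s.1 * X ^ s.2) (C t.1 * X ^ t.2) :=
          hMo (fun x => ∑ t ∈ S, F x (C t.1 * X ^ t.2))
            fun x => Finset.sum_nonneg fun t _ => hF0 _ _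
  refine h1.trans ?_
  have h2 : ∑ s ∈ S, ∑ t ∈ S, F (C s.1 * X ^ s.2) (C t.1 * X ^ t.2) =
      ∑ b ∈ Finset.univ.filter (fun b : K => b ≠ 0), ∑ c ∈ Finset.univ.filter (fun b : K => b ≠ 0),
        ∑ i ∈ Finset.range d, ∑ j ∈ Finset.range d, F (C b * X ^ i) (C c * X ^ j) := by
    rw [hS, Finset.sum_product]
    refine Finset.sum_congr rfl fun b _ => ?_
    simp only [Finset.sum_product]
    rw [Finset.sum_comm]
  rw [h2]
  have hcard : ((Finset.univ.filter (fun b : K => b ≠ 0)).card : ℝ) ≤ q := by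
    rw [hq]
    exact_mod_cast Finset.card_le_univ _
  calc _ ≤ ∑ b ∈ Finset.univ.filter (fun b : K => b ≠ 0), ∑ c ∈ Finset.univ.filter (fun b : K => b ≠ 0),
        (4 * C₁ + 2) * (d : ℝ) ^ 2 :=
        Finset.sum_le_sum fun b hb => Finset.sum_le_sum fun c hc =>
          hij b c (Finset.mem_filter.1 hb).2 (Finset.mem_filter.1 hc).2
    _ = ((Finset.univ.filter (fun b : K => b ≠ 0)).card : ℝ) ^ 2 * ((4 * C₁ + 2) * (d : ℝ) ^ 2) := by
        simp only [Finset.sum_const, nsmul_eq_mul]
        ring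
    _ ≤ q ^ 2 * ((4 * C₁ + 2) * (d : ℝ) ^ 2) := by
        apply mul_le_mul_of_nonneg_right _ (by positivity)
        exact pow_le_pow_left₀ (Nat.cast_nonneg _) hcard 2
    _ = (4 * C₁ + 2) * q ^ 2 * (d : ℝ) ^ 2 := by ring

end Pool.Agent.H290.FX.PLro
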