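import Pool.Agent.H290.FX.StmL

/-!
# Romanoff's lemma over `F_q[X]` (task ROM)
-/

set_option autoImplicit false

namespace Pool.Agent.H290.FX.PLrom

open Polynomial
open scoped Classical
open Pool.Agent.H985.KP (PA)

/-- the irreducible divisors as a finite set -/
noncomputable def T {K : Type} [Field K] (f : K[X]) : Finset K[X] :=
  if h : (PA f).Finite then h.toFinset else ∅

theorem finite_PA {K : Type} [Field K] {h : K[X]} (h0 : h ≠ 0) : (PA h).Finite := by
  have h1 : PA h ⊆ ((UniqueFactorizationMonoid.normalizedFactors h).toFinset : Set K[X]) := by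
    rintro P ⟨hm, hi, hd⟩
    rw [Finset.mem_coe, Multiset.mem_toFinset]
    obtain ⟨Q, hQ, hPQ⟩ := UniqueFactorizationMonoid.exists_mem_normalizedFactors_of_dvd h0 hi hd
    have h2 : P = Q := by
      have h3 : normalize P = normalize Q := normalize_eq_normalize hPQ.dvd hPQ.symm.dvd
      rwa [UniqueFactorizationMonoid.normalize_normalized_factor Q hQ, hm.normalize_eq_self] at h3
    rw [h2]
    exact hQ
  exact Set.Finite.subset (Finset.finite_toSet _) h1

theorem mem_T {K : Type} [Field K] {f : K[X]} (h0 : f ≠ 0) {P : K[X]} :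
    P ∈ T f ↔ P.Monic ∧ Irreducible P ∧ P ∣ f := by
  unfold T
  rw [dif_pos (finite_PA h0), Set.Finite.mem_toFinset]
  rfl

theorem finprod_T {K : Type} [Field K] {f : K[X]} (h0 : f ≠ 0) (g : K[X] → ℝ) :
    ∏ᶠ P ∈ PA f, g P = ∏ P ∈ T f, g P := by
  have h1 : PA f = ((T f : Finset K[X]) : Set K[X]) := by
    ext P
    rw [Finset.mem_coe, mem_T h0]
    rfl
  rw [h1, finprod_mem_coe_finset]

/-- the weight of a set of irreducible polynomials -/
noncomputable def wt (K : Type) [Field K] [Fintype K] (S : Finset K[X]) : ℝ :=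
  ∏ P ∈ S, (1 / (Fintype.card K : ℝ) ^ P.natDegree)

theorem wt_nonneg (K : Type) [Field K] [Fintype K] (S : Finset K[X]) : 0 ≤ wt K S :=
  Finset.prod_nonneg fun P _ => by positivity

theorem prod_eq (K : Type) [Field K] [Fintype K] (A : Finset K[X]) :
    ∏ P ∈ A, (1 + 1 / (Fintype.card K : ℝ) ^ P.natDegree) = ∑ S ∈ A.powerset, wt K S := by
  rw [Finset.prod_one_add]
  rfl

/-- numbers with gaps at least `e` -/
theorem gap {L : Finset ℕ} {d e : ℕ} (he : 1 ≤ e) (hL : ∀ l ∈ L, l < d)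
    (hg : ∀ l ∈ L, ∀ l' ∈ L, l < l' → e ≤ l' - l) : L.card ≤ d / e + 1 := by
  have h1 : L.card ≤ (Finset.range (d / e + 1)).card := by
    refine Finset.card_le_card_of_injOn (fun l => l / e) ?_ ?_
    · intro l hl
      have h2 := hL l hl
      simp only [Finset.coe_range, Set.mem_Iio]
      exact Nat.lt_succ_of_le (Nat.div_le_div_right h2.le)
    · have key : ∀ l ∈ L, ∀ l' ∈ L, l < l' → l / e ≠ l' / e := by
        intro l hl l' hl' hll h3
        have h4 := hg l hl l' hl' hll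
        have h5 := Nat.div_add_mod l e
        have h6 := Nat.div_add_mod l' e
        have h7 := Nat.mod_lt l he
        have h8 := Nat.mod_lt l' he
        rw [h3] at h5
        omega
      intro l hl l' hl' h3
      rcases lt_trichotomy l l' with h | h | h
      · exact absurd h3 (key l hl l' hl' h)
      · exact h
      · exact absurd h3.symm (key l' hl' l hl h)
  rwa [Finset.card_range] at h1

/-- the order -/
noncomputable def od {K : Type} [Field K] (S : Finset K[X]) : ℕ :=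
  sInf {e : ℕ | 1 ≤ e ∧ ∀ P ∈ S, P ∣ (X ^ e - C 1 : K[X])}

theorem od_spec {K : Type} [Field K] {S : Finset K[X]}
    (h : {e : ℕ | 1 ≤ e ∧ ∀ P ∈ S, P ∣ (X ^ e - C 1 : K[X])}.Nonempty) :
    1 ≤ od S ∧ ∀ P ∈ S, P ∣ (X ^ od S - C 1 : K[X]) := Nat.sInf_mem h

theorem od_spec' {K : Type} [Field K] {S : Finset K[X]} (h : od S ≠ 0) :
    ∀ P ∈ S, P ∣ (X ^ od S - C 1 : K[X]) := by
  have h1 : {e : ℕ | 1 ≤ e ∧ ∀ P ∈ S, P ∣ (X ^ e - C 1 : K[X])}.Nonempty := by
    by_contra h2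
    rw [Set.not_nonempty_iff_eq_empty] at h2
    apply h
    unfold od
    rw [h2]
    exact Nat.sInf_empty
  exact (od_spec h1).2

theorem od_le {K : Type} [Field K] {S : Finset K[X]} {e : ℕ} (h1 : 1 ≤ e)
    (h2 : ∀ P ∈ S, P ∣ (X ^ e - C 1 : K[X])) : od S ≤ e := Nat.sInf_le ⟨h1, h2⟩

/-- the number of the `l` -/
theorem card_le {K : Type} [Field K] {b : K} (hb : b ≠ 0) (d : ℕ) {S : Finset K[X]}
    (hS : ∀ P ∈ S, Irreducible P) :
    ((((Finset.Ico 1 d).filter (fun l => ∀ P ∈ S, P ∣ (X ^ l + C b : K[X]))).card : ℕ) : ℝ) ≤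
      1 + d * (1 / (od S : ℝ)) := by
  set L := (Finset.Ico 1 d).filter (fun l => ∀ P ∈ S, P ∣ (X ^ l + C b : K[X])) with hL
  have hdif : ∀ l ∈ L, ∀ l' ∈ L, l < l' → ∀ P ∈ S, P ∣ (X ^ (l' - l) - C 1 : K[X]) := by
    intro l hl l' hl' hll P hP
    have h1 := (Finset.mem_filter.1 hl).2 P hP
    have h2 := (Finset.mem_filter.1 hl').2 P hP
    have hl1 := (Finset.mem_Ico.1 (Finset.mem_filter.1 hl).1).1
    have h3 : P ∣ X ^ l * (X ^ (l' - l) - C 1 : K[X]) := by
      have h4 : X ^ l * (X ^ (l' - l) - C 1 : K[X]) = (X ^ l' + C b) - (X ^ l + C b) := by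
        have h5 : (X : K[X]) ^ l' = X ^ l * X ^ (l' - l) := by
          rw [← pow_add]
          congr 1
          omega
        rw [h5, C_1]
        ring
      rw [h4]
      exact dvd_sub h2 h1
    rcases (hS P hP).prime.dvd_or_dvd h3 with h4 | h4
    · exfalso
      have h5 : P ∣ C b := by
        have h6 := dvd_sub h1 h4
        rwa [add_sub_cancel_left] at h6
      exact (hS P hP).not_isUnit (isUnit_of_dvd_unit h5 (isUnit_C.2 (isUnit_iff_ne_zero.2 hb)))
    · exact h4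
  rcases Nat.lt_or_ge 1 L.card with h1 | h1
  · obtain ⟨x, hx, y, hy, hxy⟩ := Finset.one_lt_card.1 h1
    obtain ⟨l, hl, l', hl', hll⟩ : ∃ l ∈ L, ∃ l' ∈ L, l < l' := by
      rcases lt_or_gt_of_ne hxy with h | h
      · exact ⟨x, hx, y, hy, h⟩
      · exact ⟨y, hy, x, hx, h⟩
    have h2 := od_spec (S := S) ⟨l' - l, by omega, hdif l hl l' hl' hll⟩
    have h3 : L.card ≤ d / od S + 1 := by
      refine gap h2.1 (fun l hl => (Finset.mem_Ico.1 (Finset.mem_filter.1 hl).1).2) ?_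
      intro l hl l' hl' hll
      exact od_le (by omega) (hdif l hl l' hl' hll)
    have h4 : ((d / od S : ℕ) : ℝ) ≤ d / (od S : ℝ) := Nat.cast_div_le
    calc (L.card : ℝ) ≤ ((d / od S + 1 : ℕ) : ℝ) := by exact_mod_cast h3
      _ = ((d / od S : ℕ) : ℝ) + 1 := by push_cast; rfl
      _ ≤ d / (od S : ℝ) + 1 := by linarith
      _ = _ := by ring
  · have h2 : (L.card : ℝ) ≤ 1 := by exact_mod_cast h1
    have h3 : 0 ≤ (d : ℝ) * (1 / (od S : ℝ)) := by positivity
    linarith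

theorem geo (N : ℕ) : ∑ k ∈ Finset.range N, (1 / 2 : ℝ) ^ k * (2 * k + 5) =
    14 - (4 * N + 14) * (1 / 2) ^ N := by
  induction N with
  | zero => simp
  | succ N ih =>
    rw [Finset.sum_range_succ, ih, pow_succ]
    push_cast
    ring

/-- the product over a finite set of nonzero polynomials -/
theorem prod_log {K : Type} [Field K] [Fintype K] {C₀ : ℝ} (hC₀ : 0 < C₀)
    (h : ∀ f : K[X], f ≠ 0 → ∏ᶠ P ∈ PA f, (1 + 1 / (Fintype.card K : ℝ) ^ P.natDegree) ≤
      C₀ * (1 + Real.log (1 + f.natDegree)))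
    (n : ℕ) (g : ℕ → K[X]) (hg : ∀ l ∈ Finset.Ico 1 n, g l ≠ 0)
    (hd : ∀ l ∈ Finset.Ico 1 n, (g l).natDegree = l) :
    ∑ S ∈ (T (∏ l ∈ Finset.Ico 1 n, g l)).powerset, wt K S ≤
      C₀ * (1 + Real.log (1 + (n : ℝ) ^ 2)) := by
  have h0 : ∏ l ∈ Finset.Ico 1 n, g l ≠ 0 := Finset.prod_ne_zero_iff.2 hg
  rw [← prod_eq, ← finprod_T h0]
  refine (h _ h0).trans ?_
  refine mul_le_mul_of_nonneg_left ?_ hC₀.le
  refine add_le_add le_rfl (Real.log_le_log (by positivity) ?_)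
  rw [natDegree_prod _ _ hg]
  have h1 : ∑ l ∈ Finset.Ico 1 n, (g l).natDegree ≤ n ^ 2 := by
    calc ∑ l ∈ Finset.Ico 1 n, (g l).natDegree ≤ ∑ _l ∈ Finset.Ico 1 n, n := by
          refine Finset.sum_le_sum fun l hl => ?_
          rw [hd l hl]
          exact (Finset.mem_Ico.1 hl).2.le
      _ = (n - 1) * n := by rw [Finset.sum_const, Nat.card_Ico, smul_eq_mul]
      _ ≤ n ^ 2 := by
          rw [sq]
          exact Nat.mul_le_mul_right _ (Nat.sub_le _ _)
  have h2 : ((∑ l ∈ Finset.Ico 1 n, (g l).natDegree : ℕ) : ℝ) ≤ (n : ℝ) ^ 2 := by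
    exact_mod_cast h1
  linarith

theorem log_four (k : ℕ) : 1 + Real.log (1 + ((2 ^ (k + 1) : ℕ) : ℝ) ^ 2) ≤ 2 * k + 5 := by
  have h1 : 1 + ((2 ^ (k + 1) : ℕ) : ℝ) ^ 2 ≤ (4 : ℝ) ^ (k + 2) := by
    have h2 : ((2 ^ (k + 1) : ℕ) : ℝ) ^ 2 = (4 : ℝ) ^ (k + 1) := by
      push_cast
      rw [← pow_mul, mul_comm, pow_mul]
      norm_num
    rw [h2, pow_succ (4 : ℝ) (k + 1)]
    have h3 : (1 : ℝ) ≤ 4 ^ (k + 1) := one_le_pow₀ (by norm_num)
    linarith
  have h4 : Real.log (1 + ((2 ^ (k + 1) : ℕ) : ℝ) ^ 2) ≤ ((k + 2 : ℕ) : ℝ) * Real.log 4 := by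
    rw [← Real.log_pow]
    exact Real.log_le_log (by positivity) h1
  have h5 : Real.log 4 ≤ 2 := by
    have h6 : Real.log 4 = 2 * Real.log 2 := by
      rw [show (4 : ℝ) = 2 ^ 2 by norm_num, Real.log_pow]
      push_cast
      ring
    have h7 := Real.log_two_lt_d9
    rw [h6]
    linarith
  have h8 : ((k + 2 : ℕ) : ℝ) * Real.log 4 ≤ ((k + 2 : ℕ) : ℝ) * 2 :=
    mul_le_mul_of_nonneg_left h5 (Nat.cast_nonneg _)
  push_cast at h8 h4 ⊢
  linarith

/-- the sum of the reciprocals of the orders -/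
theorem sum_od {K : Type} [Field K] [Fintype K] {C₀ : ℝ} (hC₀ : 0 < C₀)
    (h : ∀ f : K[X], f ≠ 0 → ∏ᶠ P ∈ PA f, (1 + 1 / (Fintype.card K : ℝ) ^ P.natDegree) ≤
      C₀ * (1 + Real.log (1 + f.natDegree))) (A : Finset K[X])
    (hA : ∀ P ∈ A, P.Monic ∧ Irreducible P) :
    ∑ S ∈ A.powerset, wt K S * (1 / (od S : ℝ)) ≤ C₀ * 14 := by
  set N := (A.powerset.sup fun S => Nat.log 2 (od S)) + 1 with hN
  have hmap : ∀ S ∈ A.powerset, Nat.log 2 (od S) ∈ Finset.range N := by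
    intro S hS
    rw [Finset.mem_range, hN]
    exact Nat.lt_succ_of_le (Finset.le_sup (f := fun S => Nat.log 2 (od S)) hS)
  rw [← Finset.sum_fiberwise_of_maps_to hmap]
  have h1 : ∀ k ∈ Finset.range N, ∑ S ∈ A.powerset.filter (fun S => Nat.log 2 (od S) = k),
      wt K S * (1 / (od S : ℝ)) ≤ C₀ * ((1 / 2 : ℝ) ^ k * (2 * k + 5)) := by
    intro k _
    set F : K[X] := ∏ l ∈ Finset.Ico 1 (2 ^ (k + 1)), (X ^ l - C 1 : K[X]) with hF
    have hne : ∀ l ∈ Finset.Ico 1 (2 ^ (k + 1)), (X ^ l - C 1 : K[X]) ≠ 0 := by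
      intro l hl
      exact X_pow_sub_C_ne_zero (Finset.mem_Ico.1 hl).1 1
    have hF0 : F ≠ 0 := Finset.prod_ne_zero_iff.2 hne
    have h2 := prod_log hC₀ h (2 ^ (k + 1)) (fun l => (X ^ l - C 1 : K[X])) hne
      (fun l _ => natDegree_X_pow_sub_C)
    have h3 : ∀ S ∈ A.powerset.filter (fun S => Nat.log 2 (od S) = k),
        wt K S * (1 / (od S : ℝ)) ≤
          if S ∈ (T F).powerset then (1 / 2 : ℝ) ^ k * wt K S else 0 := by
      intro S hS
      obtain ⟨hS1, hS2⟩ := Finset.mem_filter.1 hS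
      by_cases h0 : od S = 0
      · rw [h0, Nat.cast_zero, div_zero, mul_zero]
        split_ifs
        · exact mul_nonneg (by positivity) (wt_nonneg K S)
        · exact le_rfl
      · have h4 : S ∈ (T F).powerset := by
          rw [Finset.mem_powerset]
          intro P hP
          rw [mem_T hF0]
          have hPA := hA P (Finset.mem_powerset.1 hS1 hP)
          refine ⟨hPA.1, hPA.2, ?_⟩
          refine (od_spec' h0 P hP).trans ?_
          refine Finset.dvd_prod_of_mem (fun l => (X ^ l - C 1 : K[X])) ?_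
          rw [Finset.mem_Ico]
          refine ⟨Nat.one_le_iff_ne_zero.2 h0, ?_⟩
          rw [← hS2]
          exact Nat.lt_pow_succ_log_self one_lt_two _
        rw [if_pos h4, mul_comm]
        refine mul_le_mul_of_nonneg_right ?_ (wt_nonneg K S)
        have h5 : (2 : ℝ) ^ k ≤ od S := by
          rw [← hS2]
          exact_mod_cast Nat.pow_log_le_self 2 h0
        rw [one_div_pow]
        exact one_div_le_one_div_of_le (by positivity) h5
    calc ∑ S ∈ A.powerset.filter (fun S => Nat.log 2 (od S) = k), wt K S * (1 / (od S : ℝ)) ≤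
        ∑ S ∈ A.powerset.filter (fun S => Nat.log 2 (od S) = k),
          (if S ∈ (T F).powerset then (1 / 2 : ℝ) ^ k * wt K S else 0) := Finset.sum_le_sum h3
      _ = ∑ S ∈ (A.powerset.filter (fun S => Nat.log 2 (od S) = k)).filter
            (fun S => S ∈ (T F).powerset), (1 / 2 : ℝ) ^ k * wt K S :=
          (Finset.sum_filter _ _).symm
      _ ≤ ∑ S ∈ (T F).powerset, (1 / 2 : ℝ) ^ k * wt K S := by
          refine Finset.sum_le_sum_of_subset_of_nonneg ?_ fun S _ _ =>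
            mul_nonneg (by positivity) (wt_nonneg K S)
          intro S hS
          exact (Finset.mem_filter.1 hS).2
      _ = (1 / 2 : ℝ) ^ k * ∑ S ∈ (T F).powerset, wt K S := by rw [Finset.mul_sum]
      _ ≤ (1 / 2 : ℝ) ^ k * (C₀ * (2 * k + 5)) := by
          refine mul_le_mul_of_nonneg_left (h2.trans ?_) (by positivity)
          exact mul_le_mul_of_nonneg_left (log_four k) hC₀.le
      _ = _ := by ring
  refine (Finset.sum_le_sum h1).trans ?_
  rw [← Finset.mul_sum, geo]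
  refine mul_le_mul_of_nonneg_left ?_ hC₀.le
  have : 0 ≤ (4 * (N : ℝ) + 14) * (1 / 2) ^ N := by positivity
  linarith

theorem core {K : Type} [Field K] [Fintype K] {C₀ : ℝ} (hC₀ : 0 < C₀)
    (h : ∀ f : K[X], f ≠ 0 → ∏ᶠ P ∈ PA f, (1 + 1 / (Fintype.card K : ℝ) ^ P.natDegree) ≤
      C₀ * (1 + Real.log (1 + f.natDegree))) (d : ℕ) (b : K) (hb : b ≠ 0) :
    ∑ l ∈ Finset.Ico 1 d, ∏ᶠ P ∈ PA (X ^ l + C b : K[X]),
      (1 + 1 / (Fintype.card K : ℝ) ^ P.natDegree) ≤ (C₀ * 17) * d := by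
  rcases Nat.eq_zero_or_pos d with h0 | hd
  · subst h0
    simp
  have hne : ∀ l ∈ Finset.Ico 1 d, (X ^ l + C b : K[X]) ≠ 0 := by
    intro l hl
    exact X_pow_add_C_ne_zero (Finset.mem_Ico.1 hl).1 b
  set F : K[X] := ∏ l ∈ Finset.Ico 1 d, (X ^ l + C b : K[X]) with hF
  have hF0 : F ≠ 0 := Finset.prod_ne_zero_iff.2 hne
  have hsub : ∀ l ∈ Finset.Ico 1 d, T (X ^ l + C b : K[X]) ⊆ T F := by
    intro l hl P hP
    rw [mem_T (hne l hl)] at hP
    rw [mem_T hF0]
    exact ⟨hP.1, hP.2.1, hP.2.2.trans (Finset.dvd_prod_of_mem (fun l => (X ^ l + C b : K[X])) hl)⟩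
  have hT : ∀ P ∈ T F, P.Monic ∧ Irreducible P := by
    intro P hP
    rw [mem_T hF0] at hP
    exact ⟨hP.1, hP.2.1⟩
  have h1 : ∀ l ∈ Finset.Ico 1 d, ∏ᶠ P ∈ PA (X ^ l + C b : K[X]),
      (1 + 1 / (Fintype.card K : ℝ) ^ P.natDegree) = ∑ S ∈ (T F).powerset,
        if ∀ P ∈ S, P ∣ (X ^ l + C b : K[X]) then wt K S else 0 := by
    intro l hl
    rw [finprod_T (hne l hl), prod_eq, ← Finset.sum_filter]
    refine Finset.sum_congr ?_ fun _ _ => rfl
    ext S
    rw [Finset.mem_filter, Finset.mem_powerset, Finset.mem_powerset]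
    constructor
    · intro hS
      refine ⟨hS.trans (hsub l hl), fun P hP => ?_⟩
      exact ((mem_T (hne l hl)).1 (hS hP)).2.2
    · rintro ⟨hS1, hS2⟩ P hP
      rw [mem_T (hne l hl)]
      have := hT P (hS1 hP)
      exact ⟨this.1, this.2, hS2 P hP⟩
  rw [Finset.sum_congr rfl h1, Finset.sum_comm]
  have h2 : ∀ S ∈ (T F).powerset, ∑ l ∈ Finset.Ico 1 d,
      (if ∀ P ∈ S, P ∣ (X ^ l + C b : K[X]) then wt K S else 0) ≤
        wt K S + d * (wt K S * (1 / (od S : ℝ))) := by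
    intro S hS
    rw [← Finset.sum_filter, Finset.sum_const, nsmul_eq_mul]
    have h3 := card_le hb d (S := S) (fun P hP => (hT P (Finset.mem_powerset.1 hS hP)).2)
    calc _ ≤ (1 + d * (1 / (od S : ℝ))) * wt K S :=
          mul_le_mul_of_nonneg_right h3 (wt_nonneg K S)
      _ = _ := by ring
  refine (Finset.sum_le_sum h2).trans ?_
  rw [Finset.sum_add_distrib, ← Finset.mul_sum]
  have h3 := prod_log hC₀ h d (fun l => (X ^ l + C b : K[X])) hne
    (fun l _ => natDegree_X_pow_add_C)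
  have h4 := sum_od hC₀ h (T F) hT
  have hd1 : (1 : ℝ) ≤ d := by exact_mod_cast hd
  have h5 : 1 + Real.log (1 + (d : ℝ) ^ 2) ≤ 3 * d := by
    have h6 : Real.log (1 + (d : ℝ) ^ 2) ≤ Real.log ((1 + (d : ℝ)) ^ 2) := by
      refine Real.log_le_log (by positivity) ?_
      nlinarith
    rw [Real.log_pow] at h6
    have h7 : Real.log (1 + (d : ℝ)) ≤ d := by
      have := Real.log_le_sub_one_of_pos (show (0 : ℝ) < 1 + d by positivity)
      linarith
    push_cast at h6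
    linarith
  have h6 : C₀ * (1 + Real.log (1 + (d : ℝ) ^ 2)) ≤ C₀ * (3 * d) :=
    mul_le_mul_of_nonneg_left h5 hC₀.le
  have h7 : (d : ℝ) * ∑ S ∈ (T F).powerset, wt K S * (1 / (od S : ℝ)) ≤ d * (C₀ * 14) :=
    mul_le_mul_of_nonneg_left h4 (by positivity)
  calc _ ≤ C₀ * (3 * d) + d * (C₀ * 14) := add_le_add (h3.trans h6) h7
    _ = _ := by ring

theorem main : Pool.Agent.H290.FX.L.S_trom := by
  intro hlog K _ _
  obtain ⟨C₀, hC₀, h⟩ := hlog K
  exact ⟨C₀ * 17, by positivity, fun d b hb => core hC₀ h d b hb⟩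

end Pool.Agent.H290.FX.PLrom
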