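import Pool.Agent.H290.FX.StmL

/-!
# Task SS: the truncated singular series (helper169)
-/

set_option autoImplicit false

namespace Pool.Agent.H290.FX.PLssc

open Polynomial
open scoped Classical
open Pool.Agent.H290.FX
open Pool.Agent.H290.FX.L
open Pool.Agent.H985.KP (PA)
open Pool.Agent.H694.Typ (Mn PU mem_Mn)

/-- the error tends to zero -/
theorem small (q θ C η : ℝ) (hq : 2 ≤ q) (hθ : 0 < θ) (hC : 0 < C) (hη : 0 < η) :
    ∃ d₀ : ℕ, ∀ d : ℕ, d₀ ≤ d → C * q ^ (θ / 4 * d - (⌊θ * d⌋₊ : ℝ) / 2) ≤ η := by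
  have hq0 : 0 < q := by linarith
  have hlog : 0 < Real.log q := Real.log_pos (by linarith)
  obtain ⟨d₀, hd₀⟩ := exists_nat_ge ((C / (η * Real.log q) + 1 / 2) * (4 / θ))
  refine ⟨d₀, fun d hd => ?_⟩
  have h1 : (C / (η * Real.log q) + 1 / 2) * (4 / θ) ≤ d := hd₀.trans (by exact_mod_cast hd)
  have h2 : C / (η * Real.log q) + 1 / 2 ≤ θ / 4 * d := by
    calc C / (η * Real.log q) + 1 / 2 =
          θ / 4 * ((C / (η * Real.log q) + 1 / 2) * (4 / θ)) := by
          field_simp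
      _ ≤ _ := mul_le_mul_of_nonneg_left h1 (by positivity)
  obtain ⟨x, hx⟩ : ∃ x : ℝ, x = θ / 4 * d - 1 / 2 := ⟨_, rfl⟩
  have h3 : C / (η * Real.log q) ≤ x := by rw [hx]; linarith
  have h4 := Nat.lt_floor_add_one (θ * (d : ℝ))
  have h5 : q ^ (θ / 4 * d - (⌊θ * d⌋₊ : ℝ) / 2) ≤ q ^ (-x) :=
    Real.rpow_le_rpow_of_exponent_le (by linarith) (by rw [hx]; linarith)
  have h6 : C ≤ η * q ^ x := by
    rw [div_le_iff₀ (by positivity)] at h3
    rw [Real.rpow_def_of_pos hq0]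
    have h7 := Real.add_one_le_exp (Real.log q * x)
    have h8 : η * (Real.log q * x + 1) ≤ η * Real.exp (Real.log q * x) :=
      mul_le_mul_of_nonneg_left h7 hη.le
    linarith
  have h9 : q ^ x * q ^ (-x) = 1 := by
    rw [← Real.rpow_add hq0, add_neg_cancel, Real.rpow_zero]
  calc C * q ^ (θ / 4 * d - (⌊θ * d⌋₊ : ℝ) / 2) ≤ C * q ^ (-x) :=
        mul_le_mul_of_nonneg_left h5 hC.le
    _ ≤ η * q ^ x * q ^ (-x) :=
        mul_le_mul_of_nonneg_right h6 (Real.rpow_nonneg hq0.le _)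
    _ = η := by rw [mul_assoc, h9, mul_one]

section

variable {K : Type} [Field K] [Fintype K]

theorem q_ge_two : (2 : ℝ) ≤ (Fintype.card K : ℝ) := by
  have : 1 < Fintype.card K := Fintype.one_lt_card
  exact_mod_cast this

/-- the local factors -/
noncomputable def lm (h P : K[X]) : ℝ :=
  if P ∣ h then 1 / ((Fintype.card K : ℝ) ^ P.natDegree - 1)
  else -1 / ((Fintype.card K : ℝ) ^ P.natDegree - 1) ^ 2

theorem Tt_eq (t : ℕ) (h : K[X]) : Tt K t h = ∑ r ∈ Sq K t, ∏ᶠ P ∈ PA r, lm h P := rfl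

theorem base_nonneg (P : K[X]) : 0 ≤ (Fintype.card K : ℝ) ^ P.natDegree - 1 := by
  have h := q_ge_two (K := K)
  have : (1 : ℝ) ≤ (Fintype.card K : ℝ) ^ P.natDegree := one_le_pow₀ (by linarith)
  linarith

theorem lm_dvd_nonneg {h P : K[X]} (hP : P ∣ h) : 0 ≤ lm h P := by
  unfold lm
  rw [if_pos hP]
  exact div_nonneg zero_le_one (base_nonneg P)

theorem lm_abs (h P : K[X]) : |lm h P| ≤
    if P ∣ h then 1 / ((Fintype.card K : ℝ) ^ P.natDegree - 1)
    else 1 / ((Fintype.card K : ℝ) ^ P.natDegree - 1) ^ 2 := by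
  have h0 := base_nonneg P
  by_cases hP : P ∣ h
  · rw [if_pos hP]
    have h1 := lm_dvd_nonneg hP
    rw [abs_of_nonneg h1]
    unfold lm
    rw [if_pos hP]
  · rw [if_neg hP]
    unfold lm
    rw [if_neg hP, neg_div, abs_neg, abs_of_nonneg (div_nonneg zero_le_one (sq_nonneg _))]

theorem one_add_lm_nonneg (h P : K[X]) : 0 ≤ 1 + lm h P := by
  by_cases hP : P ∣ h
  · have := lm_dvd_nonneg hP
    linarith
  · unfold lm
    rw [if_neg hP]
    have hq := q_ge_two (K := K)
    rcases Nat.eq_zero_or_pos P.natDegree with h1 | h1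
    · rw [h1, pow_zero, sub_self]
      norm_num
    · have h2 : (2 : ℝ) ≤ (Fintype.card K : ℝ) ^ P.natDegree := by
        calc (2 : ℝ) ≤ (Fintype.card K : ℝ) := hq
          _ = (Fintype.card K : ℝ) ^ 1 := (pow_one _).symm
          _ ≤ _ := pow_le_pow_right₀ (by linarith) h1
      have h3 : (1 : ℝ) ≤ ((Fintype.card K : ℝ) ^ P.natDegree - 1) ^ 2 :=
        one_le_pow₀ (by linarith)
      have h4 : 1 / ((Fintype.card K : ℝ) ^ P.natDegree - 1) ^ 2 ≤ 1 := by
        rw [div_le_one (by linarith)]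
        exact h3
      rw [neg_div]
      linarith

/-- in the field with two elements every element is `0` or `1` -/
theorem two_el (h2 : Fintype.card K = 2) (a : K) : a = 0 ∨ a = 1 := by
  have h1 : ({0, 1} : Finset K) = Finset.univ := by
    refine Finset.eq_univ_of_card _ ?_
    rw [Finset.card_pair zero_ne_one, h2]
  have h3 : a ∈ ({0, 1} : Finset K) := by rw [h1]; exact Finset.mem_univ _
  rw [Finset.mem_insert, Finset.mem_singleton] at h3
  exact h3

theorem half_le [CharP K 2] {h : K[X]} (hh : Fintype.card K = 2 → h.eval 0 = 0 ∧ h.eval 1 = 0)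
    (P : K[X]) (hPm : P.Monic) (hPi : Irreducible P) : 1 / 2 ≤ 1 + lm h P := by
  by_cases hP : P ∣ h
  · have := lm_dvd_nonneg hP
    linarith
  · have hd := hPi.natDegree_pos
    have h3 : 3 ≤ Fintype.card K ^ P.natDegree := by
      by_contra hlt
      have hc : 1 < Fintype.card K := Fintype.one_lt_card
      have h4 : Fintype.card K = 2 := by
        have h5 : Fintype.card K ^ 1 ≤ Fintype.card K ^ P.natDegree :=
          Nat.pow_le_pow_right (by omega) hd
        rw [pow_one] at h5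
        omega
      have h5 : P.natDegree = 1 := by
        by_contra hne
        have h6 : Fintype.card K ^ 2 ≤ Fintype.card K ^ P.natDegree :=
          Nat.pow_le_pow_right (by omega) (by omega)
        rw [h4] at h6 hlt
        omega
      have h6 : P = X + C (P.coeff 0) := hPm.eq_X_add_C h5
      apply hP
      have h7 : h.eval (P.coeff 0) = 0 := by
        rcases two_el h4 (P.coeff 0) with h8 | h8
        · rw [h8]; exact (hh h4).1
        · rw [h8]; exact (hh h4).2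
      have h8 : X - C (P.coeff 0) ∣ h := dvd_iff_isRoot.2 h7
      rw [CharTwo.sub_eq_add, ← h6] at h8
      exact h8
    have h4 : (3 : ℝ) ≤ (Fintype.card K : ℝ) ^ P.natDegree := by exact_mod_cast h3
    unfold lm
    rw [if_neg hP, neg_div]
    have h5 : (2 : ℝ) ^ 2 ≤ ((Fintype.card K : ℝ) ^ P.natDegree - 1) ^ 2 :=
      pow_le_pow_left₀ (by norm_num) (by linarith) 2
    have h6 : 1 / ((Fintype.card K : ℝ) ^ P.natDegree - 1) ^ 2 ≤ 1 / 2 := by
      refine one_div_le_one_div_of_le (by norm_num) ?_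
      linarith
    linarith

/-- the case `h = 0` -/
theorem Tt_zero (t : ℕ) : 1 ≤ Tt K t 0 := by
  rw [Tt_eq]
  have h1 : (1 : K[X]) ∈ Sq K t := by
    rw [PMb.mem_Sq]
    refine ⟨monic_one, ?_, squarefree_one⟩
    rw [natDegree_one]
    exact Nat.zero_le _
  have h2 : ∏ᶠ P ∈ PA (1 : K[X]), lm 0 P = 1 := by
    rw [PMb.finprod_PA one_ne_zero, UniqueFactorizationMonoid.normalizedFactors_one,
      Multiset.toFinset_zero, Finset.prod_empty]
  rw [← h2]
  refine Finset.single_le_sum (f := fun r : K[X] => ∏ᶠ P ∈ PA r, lm 0 P) ?_ h1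
  intro r hr
  rw [PMb.mem_Sq] at hr
  change 0 ≤ ∏ᶠ P ∈ PA r, lm 0 P
  rw [PMb.finprod_PA hr.1.ne_zero]
  exact Finset.prod_nonneg fun P _ => lm_dvd_nonneg (dvd_zero P)

end

theorem main : S_tss := by
  intro hrank hconv K _ _ _ θ hθ
  obtain ⟨C, hC, HR⟩ := hrank K (θ / 4) (by positivity)
  obtain ⟨c₁, hc₁, HC⟩ := hconv K (1 / 2) (by norm_num)
  refine ⟨min (c₁ / 2) 1, lt_min (half_pos hc₁) one_pos, fun ε hε => ?_⟩
  obtain ⟨d₀, hd₀⟩ := small (Fintype.card K : ℝ) θ C (min ε (c₁ / 2)) q_ge_two hθ hC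
    (lt_min hε (half_pos hc₁))
  refine ⟨d₀, fun d h hd hdeg => ?_⟩
  by_cases h0 : h = 0
  · subst h0
    have h1 := Tt_zero (K := K) ⌊θ * d⌋₊
    exact ⟨by linarith, fun _ => (min_le_right _ _).trans h1⟩
  · obtain ⟨L, hL, hL2⟩ := HC (lm h) h h0 (fun P _ _ hP => lm_dvd_nonneg hP)
      (fun P _ _ hP => by
        have h1 := lm_abs h P
        rwa [if_neg hP] at h1)
    have hnd : h.natDegree ≤ d := by
      rw [degree_eq_natDegree h0] at hdeg
      have : h.natDegree < d := by exact_mod_cast hdeg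
      omega
    have hT : |L - Tt K ⌊θ * d⌋₊ h| ≤
        C * (Fintype.card K : ℝ) ^ (θ / 4 * d - (⌊θ * d⌋₊ : ℝ) / 2) := by
      refine le_of_tendsto (hL.sub_const (Tt K ⌊θ * d⌋₊ h)).abs ?_
      refine Filter.eventually_atTop.2 ⟨⌊θ * d⌋₊, fun n hn => ?_⟩
      exact HR (lm h) h d ⌊θ * d⌋₊ n h0 hnd hn (fun P _ _ => lm_abs h P)
    have hT2 := hT.trans (hd₀ d hd)
    have hL0 : 0 ≤ L := ge_of_tendsto' hL fun n => Finset.prod_nonneg fun P _ =>
      one_add_lm_nonneg h P
    have h3 := (abs_le.1 hT2).2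
    refine ⟨?_, fun hh => ?_⟩
    · have := min_le_left ε (c₁ / 2)
      linarith
    · have h4 := hL2 fun P hPm hPi => half_le hh P hPm hPi
      have h5 := min_le_right ε (c₁ / 2)
      have h6 := min_le_left (c₁ / 2) (1 : ℝ)
      linarith

end Pool.Agent.H290.FX.PLssc
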