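import Pool.Agent.H290.FX.StmL
import Pool.Agent.H290.FX.PRank

/-!
# Task SV: the upper bound of the large sieve for pairs (helper340, subtask of helper290)
-/

set_option autoImplicit false
set_option maxHeartbeats 4000000

open scoped Classical
open Finset Polynomial

namespace Pool.Agent.H290.FX.PLsv

open Pool.Agent.H290.FX Pool.Agent.H290.FX.L
open Pool.Agent.H985.KP (PA)
open Pool.Agent.H694.Typ (Mn PU mem_Mn mem_PU card_Mn)
open Pool.Agent.H290.FX.PRank (MI coprime_of_ne monic_prod natDegree_prod MI_of_subset sum_Sq)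

section gen

variable {K : Type} [Field K] [Fintype K]

/-- periodic functions -/
def Pe (D : K[X]) (φ : K[X] → ℝ) : Prop := ∀ a b, D ∣ a - b → φ a = φ b

theorem add_mem {d : ℕ} {s a : K[X]} (hs : s.degree < (d : WithBot ℕ)) (ha : a ∈ Mn K d) :
    a + s ∈ Mn K d := by
  rw [mem_Mn] at ha ⊢
  have h1 : s.degree < a.degree := by
    rw [degree_eq_natDegree ha.1.ne_zero, ha.2]
    exact hs
  exact ⟨ha.1.add_of_left h1, by rw [natDegree_add_eq_left_of_degree_lt h1, ha.2]⟩

theorem shift {d : ℕ} {s : K[X]} (hs : s.degree < (d : WithBot ℕ)) (φ : K[X] → ℝ) :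
    ∑ a ∈ Mn K d, φ (a + s) = ∑ a ∈ Mn K d, φ a := by
  refine Finset.sum_nbij' (fun a => a + s) (fun a => a - s) (fun a ha => add_mem hs ha) ?_ ?_ ?_
    (fun _ _ => rfl)
  · intro a ha
    rw [sub_eq_add_neg]
    exact add_mem (by rwa [degree_neg]) ha
  · intro a _
    exact add_sub_cancel_right a s
  · intro a _
    exact sub_add_cancel a s

theorem res {D1 D2 : K[X]} (h2 : D2.Monic) (hc : IsCoprime D1 D2) {φ : K[X] → ℝ} (p2 : Pe D2 φ)
    (a : K[X]) :
    ∑ t ∈ Vs K D2.natDegree, φ (a + D1 * t) = ∑ u ∈ Vs K D2.natDegree, φ u := by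
  have hdeg : D2.degree = (D2.natDegree : WithBot ℕ) := degree_eq_natDegree h2.ne_zero
  have hdvd : ∀ p : K[X], D2 ∣ p - p %ₘ D2 := by
    intro p
    refine ⟨p /ₘ D2, ?_⟩
    have := modByMonic_add_div p D2
    linear_combination this.symm
  obtain ⟨m, hm⟩ : ∃ m : K[X] → K[X], m = fun t => (a + D1 * t) %ₘ D2 := ⟨_, rfl⟩
  have hmap : ∀ t, m t ∈ Vs K D2.natDegree := by
    intro t
    rw [mem_Vs, hm, ← hdeg]
    exact degree_modByMonic_lt _ h2
  have hinj : Set.InjOn m (Vs K D2.natDegree : Set K[X]) := by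
    intro t ht t' ht' h
    rw [Finset.mem_coe, mem_Vs, ← hdeg] at ht ht'
    rw [hm] at h
    simp only at h
    have h3 : D2 ∣ D1 * (t - t') := by
      have e1 : D1 * (t - t') = ((a + D1 * t) - (a + D1 * t) %ₘ D2) -
          ((a + D1 * t') - (a + D1 * t') %ₘ D2) := by
        rw [h]
        ring
      rw [e1]
      exact dvd_sub (hdvd _) (hdvd _)
    have h4 : D2 ∣ t - t' := hc.symm.dvd_of_dvd_mul_left h3
    have h5 : (t - t').degree < D2.degree :=
      lt_of_le_of_lt (degree_sub_le _ _) (max_lt ht ht')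
    exact sub_eq_zero.1 (eq_zero_of_dvd_of_degree_lt h4 h5)
  have himg : (Vs K D2.natDegree).image m = Vs K D2.natDegree := by
    apply Finset.eq_of_subset_of_card_le
    · intro u hu
      obtain ⟨t, _, rfl⟩ := Finset.mem_image.1 hu
      exact hmap t
    · rw [Finset.card_image_of_injOn hinj]
  conv_rhs => rw [← himg]
  rw [Finset.sum_image hinj]
  refine Finset.sum_congr rfl fun t _ => ?_
  apply p2
  rw [hm]
  exact hdvd _

theorem crt2 {d : ℕ} {D1 D2 : K[X]} (h1 : D1.Monic) (h2 : D2.Monic) (hc : IsCoprime D1 D2)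
    (hd : D1.natDegree + D2.natDegree ≤ d) {φ1 φ2 : K[X] → ℝ} (p1 : Pe D1 φ1) (p2 : Pe D2 φ2) :
    (Fintype.card K : ℝ) ^ D2.natDegree * ∑ a ∈ Mn K d, φ1 a * φ2 a =
      (∑ a ∈ Mn K d, φ1 a) * ∑ u ∈ Vs K D2.natDegree, φ2 u := by
  have e1 : ∑ t ∈ Vs K D2.natDegree, ∑ a ∈ Mn K d, φ1 (a + D1 * t) * φ2 (a + D1 * t) =
      (Fintype.card K : ℝ) ^ D2.natDegree * ∑ a ∈ Mn K d, φ1 a * φ2 a := by
    have h3 : ∀ t ∈ Vs K D2.natDegree,
        ∑ a ∈ Mn K d, φ1 (a + D1 * t) * φ2 (a + D1 * t) = ∑ a ∈ Mn K d, φ1 a * φ2 a := by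
      intro t ht
      refine shift (s := D1 * t) ?_ (fun a => φ1 a * φ2 a)
      by_cases h0 : t = 0
      · rw [h0, mul_zero, degree_zero]
        exact WithBot.bot_lt_coe _
      · rw [mem_Vs] at ht
        rw [degree_mul, degree_eq_natDegree h1.ne_zero, degree_eq_natDegree h0]
        rw [degree_eq_natDegree h0] at ht
        have h4 : t.natDegree < D2.natDegree := by exact_mod_cast ht
        have h5 : D1.natDegree + t.natDegree < d := by omega
        exact_mod_cast h5
    rw [Finset.sum_congr rfl h3, Finset.sum_const, nsmul_eq_mul, card_Vs]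
    push_cast
    ring
  rw [← e1, Finset.sum_comm, Finset.sum_mul]
  refine Finset.sum_congr rfl fun a _ => ?_
  have h6 : ∀ t, φ1 (a + D1 * t) = φ1 a := by
    intro t
    apply p1
    rw [add_sub_cancel_left]
    exact dvd_mul_right _ _
  rw [Finset.sum_congr rfl fun t _ => by rw [h6 t], ← Finset.mul_sum, res h2 hc p2]

theorem prodf {d : ℕ} (φ : K[X] → K[X] → ℝ) (TT : Finset K[X]) : MI TT →
    ∑ P ∈ TT, P.natDegree ≤ d → (∀ P ∈ TT, Pe P (φ P)) →
    ∑ a ∈ Mn K d, ∏ P ∈ TT, φ P a = (Fintype.card K : ℝ) ^ d *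
      ∏ P ∈ TT, ((∑ u ∈ Vs K P.natDegree, φ P u) / (Fintype.card K : ℝ) ^ P.natDegree) := by
  induction TT using Finset.induction_on with
  | empty =>
    intro _ _ _
    simp [card_Mn]
  | insert P0 TT hP0 ih =>
    intro hM hdeg hφ
    have hM' : MI TT := fun P hP => hM P (Finset.mem_insert_of_mem hP)
    rw [Finset.sum_insert hP0] at hdeg
    have hih := ih hM' (by omega) (fun P hP => hφ P (Finset.mem_insert_of_mem hP))
    have hP0' := hM P0 (Finset.mem_insert_self _ _)
    have hc : IsCoprime (∏ P ∈ TT, P) P0 := by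
      refine IsCoprime.prod_left fun P hP => coprime_of_ne (hM' P hP) hP0' ?_
      rintro rfl
      exact hP0 hP
    have hp1 : Pe (∏ P ∈ TT, P) (fun a => ∏ P ∈ TT, φ P a) := by
      intro a b hab
      refine Finset.prod_congr rfl fun P hP => ?_
      exact hφ P (Finset.mem_insert_of_mem hP) a b ((Finset.dvd_prod_of_mem _ hP).trans hab)
    have h1 := crt2 (d := d) (monic_prod hM') hP0'.1 hc (by rw [natDegree_prod hM']; omega) hp1
      (hφ P0 (Finset.mem_insert_self _ _))
    rw [hih] at h1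
    have hq : (0:ℝ) < (Fintype.card K : ℝ) ^ P0.natDegree := by
      have : 0 < Fintype.card K := Fintype.card_pos
      positivity
    rw [Finset.prod_insert hP0]
    have h2 : ∑ a ∈ Mn K d, ∏ P ∈ insert P0 TT, φ P a =
        ∑ a ∈ Mn K d, (∏ P ∈ TT, φ P a) * φ P0 a := by
      refine Finset.sum_congr rfl fun a _ => ?_
      rw [Finset.prod_insert hP0, mul_comm]
    rw [h2]
    field_simp
    linarith

end gen

section loc

variable {K : Type} [Field K] [Fintype K] [CharP K 2]

/-- the excluded classes -/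
def Bad (h P u : K[X]) : Prop := P ∣ u ^ 2 + X ∨ P ∣ (u + h) ^ 2 + X

theorem bad_iff (hr : S_root) {h P : K[X]} (hP : P.Monic ∧ Irreducible P) (u : K[X]) :
    Bad h P u ↔ P ∣ u - rt P ∨ P ∣ u - (rt P - h) := by
  obtain ⟨r1, r2⟩ := hr K P hP.1
  have r3 := (r1 hP.2.squarefree).1
  have key : ∀ a : K[X], P ∣ a ^ 2 + X ↔ P ∣ a - rt P := by
    intro a
    constructor
    · exact fun h => (r2 a h).2
    · intro h
      have e1 : a ^ 2 + X = (a - rt P) * (a + rt P) + (rt P ^ 2 + X) := by ring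
      rw [e1]
      exact dvd_add (h.mul_right _) r3
  unfold Bad
  rw [key, key]
  have e2 : u + h - rt P = u - (rt P - h) := by ring
  rw [e2]

theorem bad_pe (hr : S_root) {h P : K[X]} (hP : P.Monic ∧ Irreducible P) {a b : K[X]}
    (hab : P ∣ a - b) : Bad h P a ↔ Bad h P b := by
  have key : ∀ c : K[X], P ∣ a - c ↔ P ∣ b - c := by
    intro c
    have e1 : a - c = (a - b) + (b - c) := by ring
    rw [e1]
    exact (dvd_add_right hab)
  rw [bad_iff hr hP, bad_iff hr hP, key, key]

/-- the number of the excluded classes -/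
noncomputable def om (h P : K[X]) : ℝ := if P ∣ h then 1 else 2

theorem card_bad (hr : S_root) {h P : K[X]} (hP : P.Monic ∧ Irreducible P) :
    (((Vs K P.natDegree).filter (fun u => Bad h P u)).card : ℝ) = om h P := by
  have hdeg : P.degree = (P.natDegree : WithBot ℕ) := degree_eq_natDegree hP.1.ne_zero
  have hdvd : ∀ p : K[X], P ∣ p - p %ₘ P := by
    intro p
    refine ⟨p /ₘ P, ?_⟩
    have := modByMonic_add_div p P
    linear_combination this.symm
  have key : ∀ u c : K[X], u ∈ Vs K P.natDegree → (P ∣ u - c ↔ u = c %ₘ P) := by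
    intro u c hu
    rw [mem_Vs, ← hdeg] at hu
    constructor
    · intro h1
      have h2 : P ∣ u - c %ₘ P := by
        have e1 : u - c %ₘ P = (u - c) + (c - c %ₘ P) := by ring
        rw [e1]
        exact dvd_add h1 (hdvd c)
      have h3 : (u - c %ₘ P).degree < P.degree :=
        lt_of_le_of_lt (degree_sub_le _ _) (max_lt hu (degree_modByMonic_lt _ hP.1))
      exact sub_eq_zero.1 (eq_zero_of_dvd_of_degree_lt h2 h3)
    · intro h1
      rw [h1, dvd_sub_comm]
      exact hdvd c
  have hmem : ∀ c : K[X], c %ₘ P ∈ Vs K P.natDegree := by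
    intro c
    rw [mem_Vs, ← hdeg]
    exact degree_modByMonic_lt _ hP.1
  have hset : (Vs K P.natDegree).filter (fun u => Bad h P u) =
      {rt P %ₘ P, (rt P - h) %ₘ P} := by
    ext u
    rw [Finset.mem_filter, Finset.mem_insert, Finset.mem_singleton]
    constructor
    · rintro ⟨h1, h2⟩
      rw [bad_iff hr hP] at h2
      rcases h2 with h2 | h2
      · exact Or.inl ((key u _ h1).1 h2)
      · exact Or.inr ((key u _ h1).1 h2)
    · rintro (h1 | h1)
      · have h2 : u ∈ Vs K P.natDegree := by rw [h1]; exact hmem _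
        exact ⟨h2, (bad_iff hr hP u).2 (Or.inl ((key u _ h2).2 h1))⟩
      · have h2 : u ∈ Vs K P.natDegree := by rw [h1]; exact hmem _
        exact ⟨h2, (bad_iff hr hP u).2 (Or.inr ((key u _ h2).2 h1))⟩
  have heq : rt P %ₘ P = (rt P - h) %ₘ P ↔ P ∣ h := by
    constructor
    · intro h1
      have e1 : h = (rt P - rt P %ₘ P) - ((rt P - h) - (rt P - h) %ₘ P) := by
        rw [h1]
        ring
      rw [e1]
      exact dvd_sub (hdvd _) (hdvd _)
    · intro h1
      have h2 : P ∣ rt P %ₘ P - (rt P - h) := by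
        have e1 : rt P %ₘ P - (rt P - h) = h - (rt P - rt P %ₘ P) := by ring
        rw [e1]
        exact dvd_sub h1 (hdvd _)
      exact (key _ _ (hmem _)).1 h2
  rw [hset]
  unfold om
  by_cases h1 : P ∣ h
  · rw [if_pos h1, heq.2 h1]
    simp
  · rw [if_neg h1, Finset.card_pair (fun h2 => h1 (heq.1 h2))]
    norm_num

theorem om_pos (h P : K[X]) : 0 < om h P := by
  unfold om
  split_ifs <;> norm_num

theorem om_le (h P : K[X]) : om h P ≤ 2 := by
  unfold om
  split_ifs <;> norm_num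

/-- the sieve weights -/
noncomputable def bb (h P u : K[X]) : ℝ :=
  if Bad h P u then -(((Fintype.card K : ℝ) ^ P.natDegree - om h P) / om h P) else 1

theorem bb_pe (hr : S_root) {h P : K[X]} (hP : P.Monic ∧ Irreducible P) : Pe P (bb h P) := by
  intro a b hab
  unfold bb
  simp only [bad_pe hr hP hab]

theorem sum_bb (hr : S_root) {h P : K[X]} (hP : P.Monic ∧ Irreducible P) :
    ∑ u ∈ Vs K P.natDegree, bb h P u = 0 ∧
    ∑ u ∈ Vs K P.natDegree, bb h P u * bb h P u =
      ((Fintype.card K : ℝ) ^ P.natDegree - om h P) / om h P *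
        (Fintype.card K : ℝ) ^ P.natDegree := by
  have h0 := (om_pos h P).ne'
  have hc := card_bad hr hP (h := h)
  have hn : (((Vs K P.natDegree).filter (fun u => ¬ Bad h P u)).card : ℝ) =
      (Fintype.card K : ℝ) ^ P.natDegree - om h P := by
    have h1 := Finset.card_filter_add_card_filter_not (s := Vs K P.natDegree)
      (fun u => Bad h P u)
    rw [card_Vs] at h1
    rw [← hc]
    have h2 : (((Vs K P.natDegree).filter (fun u => Bad h P u)).card : ℝ) +
        (((Vs K P.natDegree).filter (fun u => ¬ Bad h P u)).card : ℝ) =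
        (Fintype.card K : ℝ) ^ P.natDegree := by
      exact_mod_cast h1
    linarith
  obtain ⟨β, hβ⟩ : ∃ β : ℝ, β = ((Fintype.card K : ℝ) ^ P.natDegree - om h P) / om h P := ⟨_, rfl⟩
  have hβ2 : β * om h P = (Fintype.card K : ℝ) ^ P.natDegree - om h P := by
    rw [hβ]
    field_simp
  constructor
  · have h3 : ∀ u, bb h P u = if Bad h P u then -β else 1 := by
      intro u
      rw [hβ]
      rfl
    rw [Finset.sum_congr rfl fun u _ => h3 u, Finset.sum_ite, Finset.sum_const, Finset.sum_const,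
      nsmul_eq_mul, nsmul_eq_mul, hc, hn]
    linarith
  · have h3 : ∀ u, bb h P u * bb h P u = if Bad h P u then β * β else 1 := by
      intro u
      unfold bb
      rw [← hβ]
      split_ifs <;> ring
    rw [Finset.sum_congr rfl fun u _ => h3 u, Finset.sum_ite, Finset.sum_const, Finset.sum_const,
      nsmul_eq_mul, nsmul_eq_mul, hc, hn, ← hβ]
    linear_combination (β - 1) * hβ2

end loc

theorem main : Pool.Agent.H290.FX.L.S_tsv := by
  intro hr K _ _ _ d z h hz hzd hh hhd
  obtain ⟨q, hq⟩ : ∃ q : ℝ, q = (Fintype.card K : ℝ) := ⟨_, rfl⟩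
  have hq2 : 2 ≤ q := by
    rw [hq]
    exact_mod_cast Fintype.one_lt_card
  have hq0 : 0 < q := by linarith
  -- the sets of primes
  obtain ⟨𝒮, h𝒮⟩ : ∃ 𝒮 : Finset (Finset K[X]),
    𝒮 = (PU K z).powerset.filter (fun S => ∑ P ∈ S, P.natDegree ≤ z) := ⟨_, rfl⟩
  obtain ⟨g, hg⟩ : ∃ g : K[X] → ℝ, g = fun P => om h P / q ^ P.natDegree := ⟨_, rfl⟩
  have hgpos : ∀ P, 0 < g P := by
    intro P
    rw [hg]
    have := om_pos h P
    positivity
  have hLz : Lz K h z = ∑ S ∈ 𝒮, ∏ P ∈ S, g P := by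
    unfold Lz
    have h1 := sum_Sq (K := K) g (le_refl z)
    rw [← h𝒮] at h1
    rw [← h1]
    refine Finset.sum_congr rfl fun r _ => ?_
    refine finprod_congr fun P => finprod_congr fun _ => ?_
    rw [hg, hq]
    simp only [om]
    split_ifs <;> rfl
  have hmem : ∀ S ∈ 𝒮, MI S ∧ ∑ P ∈ S, P.natDegree ≤ z ∧ ∀ P ∈ S, P.natDegree ≤ z := by
    intro S hS
    rw [h𝒮, Finset.mem_filter, Finset.mem_powerset] at hS
    exact ⟨MI_of_subset hS.1, hS.2, fun P hP => (mem_PU.1 (hS.1 hP)).2.2⟩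
  obtain ⟨L, hL⟩ : ∃ L : ℝ, L = ∑ S ∈ 𝒮, ∏ P ∈ S, g P := ⟨_, rfl⟩
  rw [hLz, ← hL, ← hq]
  have hL1 : 1 ≤ L := by
    rw [hL]
    have h1 : (∅ : Finset K[X]) ∈ 𝒮 := by
      rw [h𝒮, Finset.mem_filter, Finset.mem_powerset]
      exact ⟨Finset.empty_subset _, by simp⟩
    have h2 := Finset.single_le_sum (f := fun S : Finset K[X] => ∏ P ∈ S, g P)
      (fun S _ => Finset.prod_nonneg fun P _ => (hgpos P).le) h1
    simpa using h2
  -- the function
  obtain ⟨F, hF⟩ : ∃ F : K[X] → ℝ, F = fun a => ∑ S ∈ 𝒮, (∏ P ∈ S, g P) * ∏ P ∈ S, bb h P a :=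
    ⟨_, rfl⟩
  -- the mean square
  have hsq : ∑ a ∈ Mn K d, F a ^ 2 ≤ q ^ d * L := by
    have e1 : ∑ a ∈ Mn K d, F a ^ 2 = ∑ S ∈ 𝒮, ∑ T ∈ 𝒮, (∏ P ∈ S, g P) * (∏ P ∈ T, g P) *
        ∑ a ∈ Mn K d, (∏ P ∈ S, bb h P a) * ∏ P ∈ T, bb h P a := by
      have e2 : ∀ a, F a ^ 2 = ∑ S ∈ 𝒮, ∑ T ∈ 𝒮, (∏ P ∈ S, g P) * (∏ P ∈ T, g P) *
          ((∏ P ∈ S, bb h P a) * ∏ P ∈ T, bb h P a) := by
        intro a
        rw [hF, sq, Finset.sum_mul_sum]
        refine Finset.sum_congr rfl fun S _ => Finset.sum_congr rfl fun T _ => ?_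
        ring
      rw [Finset.sum_congr rfl fun a _ => e2 a, Finset.sum_comm]
      refine Finset.sum_congr rfl fun S _ => ?_
      rw [Finset.sum_comm]
      refine Finset.sum_congr rfl fun T _ => ?_
      rw [Finset.mul_sum]
    have e3 : ∀ S ∈ 𝒮, ∀ T ∈ 𝒮, ∑ a ∈ Mn K d, (∏ P ∈ S, bb h P a) * ∏ P ∈ T, bb h P a =
        if T = S then q ^ d * ∏ P ∈ S, ((q ^ P.natDegree - om h P) / om h P) else 0 := by
      intro S hS T hT
      obtain ⟨s1, s2, s3⟩ := hmem S hS
      obtain ⟨t1, t2, t3⟩ := hmem T hT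
      obtain ⟨φ, hφ⟩ : ∃ φ : K[X] → K[X] → ℝ, φ = fun P a =>
        (if P ∈ S then bb h P a else 1) * (if P ∈ T then bb h P a else 1) := ⟨_, rfl⟩
      have e4 : ∀ a, (∏ P ∈ S, bb h P a) * ∏ P ∈ T, bb h P a = ∏ P ∈ S ∪ T, φ P a := by
        intro a
        rw [hφ, Finset.prod_mul_distrib]
        congr 1
        · rw [Finset.prod_ite_mem, Finset.union_inter_cancel_left]
        · rw [Finset.prod_ite_mem, Finset.union_inter_cancel_right]
      have hMU : MI (S ∪ T) := by
        intro P hP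
        rcases Finset.mem_union.1 hP with h1 | h1
        · exact s1 P h1
        · exact t1 P h1
      have hdU : ∑ P ∈ S ∪ T, P.natDegree ≤ d := by
        have h1 : ∑ P ∈ S ∪ T, P.natDegree ≤ ∑ P ∈ S, P.natDegree + ∑ P ∈ T, P.natDegree := by
          rw [← Finset.sum_union_inter]
          exact Nat.le_add_right _ _
        omega
      have hpe : ∀ P ∈ S ∪ T, Pe P (φ P) := by
        intro P hP a b hab
        have h1 := bb_pe hr (h := h) (hMU P hP) a b hab
        rw [hφ]
        simp only [h1]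
      rw [Finset.sum_congr rfl fun a _ => e4 a, prodf φ _ hMU hdU hpe, ← hq]
      by_cases hTS : T = S
      · rw [if_pos hTS, hTS, Finset.union_self]
        congr 1
        refine Finset.prod_congr rfl fun P hP => ?_
        have h1 := (sum_bb hr (h := h) (s1 P hP)).2
        rw [hφ, hTS]
        simp only [hP, if_true]
        rw [h1, ← hq]
        have : q ^ P.natDegree ≠ 0 := by positivity
        field_simp
      · rw [if_neg hTS]
        obtain ⟨P, hPU, hPx⟩ : ∃ P ∈ S ∪ T, (P ∈ S ∧ P ∉ T) ∨ (P ∉ S ∧ P ∈ T) := by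
          by_contra hcon
          push Not at hcon
          apply hTS
          ext P
          constructor
          · intro h1
            by_contra h2
            exact (hcon P (Finset.mem_union_right _ h1)).2 h2 h1
          · intro h1
            exact (hcon P (Finset.mem_union_left _ h1)).1 h1
        rw [Finset.prod_eq_zero hPU, mul_zero]
        have h1 := (sum_bb hr (h := h) (hMU P hPU)).1
        have h2 : ∀ u, φ P u = bb h P u := by
          intro u
          rw [hφ]
          rcases hPx with ⟨h3, h4⟩ | ⟨h3, h4⟩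
          · simp only [h3, h4, if_true, if_false, mul_one]
          · simp only [h3, h4, if_true, if_false, one_mul]
        rw [Finset.sum_congr rfl fun u _ => h2 u, h1, zero_div]
    rw [e1]
    have e5 : ∀ S ∈ 𝒮, ∑ T ∈ 𝒮, (∏ P ∈ S, g P) * (∏ P ∈ T, g P) *
        ∑ a ∈ Mn K d, (∏ P ∈ S, bb h P a) * ∏ P ∈ T, bb h P a ≤ q ^ d * ∏ P ∈ S, g P := by
      intro S hS
      have e6 : ∀ T ∈ 𝒮, (∏ P ∈ S, g P) * (∏ P ∈ T, g P) *
          ∑ a ∈ Mn K d, (∏ P ∈ S, bb h P a) * ∏ P ∈ T, bb h P a =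
          if T = S then (∏ P ∈ S, g P) * (∏ P ∈ S, g P) *
            (q ^ d * ∏ P ∈ S, ((q ^ P.natDegree - om h P) / om h P)) else 0 := by
        intro T hT
        rw [e3 S hS T hT]
        by_cases hTS : T = S
        · rw [if_pos hTS, if_pos hTS, hTS]
        · rw [if_neg hTS, if_neg hTS, mul_zero]
      rw [Finset.sum_congr rfl e6, Finset.sum_ite_eq', if_pos hS]
      have e7 : (∏ P ∈ S, g P) * (∏ P ∈ S, g P) *
            (q ^ d * ∏ P ∈ S, ((q ^ P.natDegree - om h P) / om h P)) =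
          q ^ d * ∏ P ∈ S, (g P * g P * ((q ^ P.natDegree - om h P) / om h P)) := by
        rw [Finset.prod_mul_distrib, Finset.prod_mul_distrib]
        ring
      rw [e7]
      apply mul_le_mul_of_nonneg_left _ (by positivity)
      have hS' := hmem S hS
      refine Finset.prod_le_prod (fun P hP => ?_) (fun P hP => ?_)
      · have h1 : 1 ≤ P.natDegree := (hS'.1 P hP).2.natDegree_pos
        have h2 : q ≤ q ^ P.natDegree := by
          calc q = q ^ 1 := (pow_one q).symm
            _ ≤ _ := pow_le_pow_right₀ (by linarith) h1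
        have h3 := om_le h P
        have h4 := om_pos h P
        have h5 : 0 ≤ (q ^ P.natDegree - om h P) / om h P :=
          div_nonneg (by linarith) h4.le
        have h6 := hgpos P
        positivity
      · have h4 := om_pos h P
        have h5 : 0 < q ^ P.natDegree := by positivity
        rw [hg]
        simp only
        have e8 : om h P / q ^ P.natDegree * (om h P / q ^ P.natDegree) *
            ((q ^ P.natDegree - om h P) / om h P) =
            om h P / q ^ P.natDegree * ((q ^ P.natDegree - om h P) / q ^ P.natDegree) := by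
          field_simp
        rw [e8]
        have h6 : (q ^ P.natDegree - om h P) / q ^ P.natDegree ≤ 1 := by
          rw [div_le_one h5]
          linarith
        calc _ ≤ om h P / q ^ P.natDegree * 1 :=
              mul_le_mul_of_nonneg_left h6 (by positivity)
          _ = _ := mul_one _
    calc _ ≤ ∑ S ∈ 𝒮, q ^ d * ∏ P ∈ S, g P := Finset.sum_le_sum e5
      _ = q ^ d * L := by rw [← Finset.mul_sum, hL]
  -- the sifted elements
  have hgood : ∀ a ∈ (Mn K d).filter
      (fun a => Irreducible (a ^ 2 + X) ∧ Irreducible ((a + h) ^ 2 + X)), F a = L := by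
    intro a ha
    rw [Finset.mem_filter] at ha
    obtain ⟨ha1, ha2, ha3⟩ := ha
    have hnd : ∀ b ∈ Mn K d, (b ^ 2 + X : K[X]).natDegree = 2 * d := by
      intro b hb
      rw [mem_Mn] at hb
      have h1 : (b ^ 2).natDegree = 2 * d := by
        rw [natDegree_pow, hb.2]
      rw [natDegree_add_eq_left_of_natDegree_lt, h1]
      rw [h1, natDegree_X]
      omega
    have hndvd : ∀ b ∈ Mn K d, Irreducible (b ^ 2 + X : K[X]) → ∀ P : K[X], Irreducible P →
        P.natDegree ≤ z → ¬ P ∣ b ^ 2 + X := by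
      intro b hb hirr P hP hPz hdvd
      have h1 := natDegree_eq_of_degree_eq
        (degree_eq_degree_of_associated (hP.associated_of_dvd hirr hdvd))
      rw [hnd b hb] at h1
      omega
    have h1 : ∀ S ∈ 𝒮, ∏ P ∈ S, bb h P a = 1 := by
      intro S hS
      obtain ⟨s1, s2, s3⟩ := hmem S hS
      refine Finset.prod_eq_one fun P hP => ?_
      unfold bb
      rw [if_neg]
      rintro (h2 | h2)
      · exact hndvd a ha1 ha2 P (s1 P hP).2 (s3 P hP) h2
      · exact hndvd (a + h) (add_mem hhd ha1) ha3 P (s1 P hP).2 (s3 P hP) h2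
    rw [hF, hL]
    refine Finset.sum_congr rfl fun S hS => ?_
    rw [h1 S hS, mul_one]
  have hfin : (Np K d h : ℝ) * L ^ 2 ≤ q ^ d * L := by
    calc (Np K d h : ℝ) * L ^ 2 = ∑ a ∈ (Mn K d).filter
          (fun a => Irreducible (a ^ 2 + X) ∧ Irreducible ((a + h) ^ 2 + X)), F a ^ 2 := by
          rw [Finset.sum_congr rfl fun a ha => by rw [hgood a ha], Finset.sum_const, nsmul_eq_mul]
          rfl
      _ ≤ ∑ a ∈ Mn K d, F a ^ 2 :=
          Finset.sum_le_sum_of_subset_of_nonneg (Finset.filter_subset _ _)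
            fun _ _ _ => sq_nonneg _
      _ ≤ _ := hsq
  have hLpos : 0 < L := by linarith
  have h9 : ((Np K d h : ℝ) * L) * L ≤ q ^ d * L := by
    calc ((Np K d h : ℝ) * L) * L = (Np K d h : ℝ) * L ^ 2 := by ring
      _ ≤ _ := hfin
  exact le_of_mul_le_mul_right h9 hLpos

end Pool.Agent.H290.FX.PLsv
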