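import Pool.Agent.H290.FX.StmL
import Pool.Agent.H290.FX.PBin

/-!
# Task UB (mean square bound), second proof (helper351 for helper290)

`mper_one`, `mob_one`, `ph_one` are copied from `Pool/Agent/H290/FX/PDort.lean`.
-/

set_option autoImplicit false

namespace Pool.Agent.H290.FX.PLubb

open Polynomial
open scoped Classical
open Pool.Agent.H290.FX Pool.Agent.H290.FX.L
open Pool.Agent.H290.FX.PExp (ph real_form)
open Pool.Agent.H985.Chow (mob)
open Pool.Agent.H985.KP (PA)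
open Pool.Agent.H694.Typ (Mn mem_Mn)

theorem mper_one {K : Type} [Field K] [Fintype K] [CharP K 2] {d : ℕ} {χ : AddChar K[X] ℝ}
    (h : ∀ a : K[X], χ a = 1) : MPer d χ 1 := by
  refine ⟨monic_one, fun s _ => h _, fun r' _ h2 => ?_⟩
  rw [natDegree_one] at h2
  omega

theorem mob_one {K : Type} [Field K] : mob (1 : K[X]) = 1 := by
  unfold mob
  rw [if_pos squarefree_one, UniqueFactorizationMonoid.factors_one, Multiset.card_zero, pow_zero]

theorem ph_one {K : Type} [Field K] [Fintype K] : ph (1 : K[X]) = 1 := by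
  unfold ph
  rw [UniqueFactorizationMonoid.normalizedFactors_one, Multiset.toFinset_zero, Finset.prod_empty]

theorem mo_deg {K : Type} [Field K] [Fintype K] {d : ℕ} {m : K[X]} (hm : m ∈ Mo K d) :
    m.degree < (d : WithBot ℕ) := by
  unfold Mo at hm
  obtain ⟨p, hp, rfl⟩ := Finset.mem_image.1 hm
  rw [Finset.mem_product, Finset.mem_range] at hp
  exact (degree_C_mul_X_pow_le p.2 p.1).trans_lt (by exact_mod_cast hp.2)

theorem mo_card (K : Type) [Field K] [Fintype K] (d : ℕ) :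
    ((Mo K d).card : ℝ) ≤ (Fintype.card K : ℝ) * d := by
  have h : (Mo K d).card ≤ Fintype.card K * d := by
    unfold Mo
    refine Finset.card_image_le.trans ?_
    rw [Finset.card_product, Finset.card_range]
    exact Nat.mul_le_mul_right _ (Finset.card_le_univ _)
  exact_mod_cast h

theorem expand (hO : S_orth) (K : Type) [Field K] [Fintype K] [CharP K 2] (d : ℕ) :
    ∑ H ∈ Vs K d, (SX K d (ch d H)) ^ 2 * (Gm K d H) ^ 2 =
      (Fintype.card K : ℝ) ^ d * ∑ m₁ ∈ Mo K d, ∑ m₂ ∈ Mo K d, (Np K d (m₁ + m₂) : ℝ) := by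
  have h1 : ∀ H ∈ Vs K d, (SX K d (ch d H)) ^ 2 * (Gm K d H) ^ 2 =
      ∑ m₁ ∈ Mo K d, ∑ m₂ ∈ Mo K d, ch d H (m₁ + m₂) * (SX K d (ch d H)) ^ 2 := by
    intro H _
    unfold Gm
    rw [sq (∑ m ∈ Mo K d, ch d H m), Finset.sum_mul_sum, Finset.mul_sum]
    refine Finset.sum_congr rfl fun m₁ _ => ?_
    rw [Finset.mul_sum]
    refine Finset.sum_congr rfl fun m₂ _ => ?_
    rw [AddChar.map_add_eq_mul]
    ring
  rw [Finset.sum_congr rfl h1, Finset.sum_comm, Finset.mul_sum]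
  refine Finset.sum_congr rfl fun m₁ hm₁ => ?_
  rw [Finset.sum_comm, Finset.mul_sum]
  refine Finset.sum_congr rfl fun m₂ hm₂ => ?_
  rw [PBin.pairs hO K d (m₁ + m₂)
    ((degree_add_le _ _).trans_lt (max_lt (mo_deg hm₁) (mo_deg hm₂)))]
  rfl

theorem char_two_eq {K : Type} [Field K] [CharP K 2] {a b : K[X]} (h : a + b = 0) : a = b := by
  have h6 : b + b = 0 := CharTwo.add_self_eq_zero _
  linear_combination h - h6

theorem main : Pool.Agent.H290.FX.L.S_tub := by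
  intro hO hsv hlb hro K _ _ _
  obtain ⟨c₀, hc₀, d₀, hform⟩ := real_form K
  obtain ⟨c, hc, hlb⟩ := hlb K
  obtain ⟨C₂, hC₂, hro⟩ := hro K
  set q : ℝ := (Fintype.card K : ℝ) with hq
  have hq2 : (2 : ℝ) ≤ q := by
    have : 1 < Fintype.card K := Fintype.one_lt_card
    rw [hq]
    exact_mod_cast this
  have hq0 : 0 < q := by linarith
  set L : ℝ := Real.log q with hL
  have hL0 : 0 < L := Real.log_pos (by linarith)
  set K₁ : ℝ := q * (1 / 2 + 1 / (c₀ * L)) with hK₁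
  have hK₁0 : 0 < K₁ := by positivity
  refine ⟨K₁ + 9 * C₂ / c, by positivity, max d₀ 2, ?_⟩
  intro d hd
  have hd0 : d₀ ≤ d := le_trans (le_max_left _ _) hd
  have hd2 : 2 ≤ d := le_trans (le_max_right _ _) hd
  have hdr : (2:ℝ) ≤ d := by exact_mod_cast hd2
  have hdp : (0:ℝ) < d := by linarith
  have hqd : 0 < q ^ d := by positivity
  -- the diagonal
  have hN0 : (Np K d 0 : ℝ) ≤ (1 / 2 + 1 / (c₀ * L)) * (q ^ d / d) := by
    have h1 := hform d 1 1 (X ^ d) hd0 (mper_one fun a => AddChar.one_apply a)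
      (by rw [natDegree_one]; omega) (monic_X_pow d) (natDegree_X_pow d) (fun _ => one_dvd _)
    rw [mob_one, ph_one, AddChar.one_apply] at h1
    have h2 : (((1 : ℤ) : ℝ)) * 1 / 1 * (q ^ d / (2 * d)) = q ^ d / (2 * d) := by
      push_cast
      ring
    rw [h2] at h1
    have h3 := (abs_le.mp h1).2
    have h4 : (Np K d 0 : ℝ) ≤ SX K d 1 := by
      unfold SX Np
      simp only [AddChar.one_apply, Finset.sum_const, nsmul_eq_mul, mul_one]
      have h5 : ((Mn K d).filter (fun a => Irreducible (a ^ 2 + X) ∧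
          Irreducible ((a + 0) ^ 2 + X))).card ≤
          ((Mn K d).filter (fun a => Irreducible (a ^ 2 + X))).card :=
        Finset.card_le_card (fun a ha => by
          rw [Finset.mem_filter] at ha ⊢
          exact ⟨ha.1, ha.2.1⟩)
      exact_mod_cast h5
    have h6 : q ^ ((1 - c₀) * (d : ℝ)) ≤ 1 / (c₀ * L) * (q ^ d / d) := by
      rw [← Real.rpow_natCast q d, Real.rpow_def_of_pos hq0, Real.rpow_def_of_pos hq0, ← hL]
      have e1 : L * ((1 - c₀) * d) = L * d + -(c₀ * L * d) := by ring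
      rw [e1, Real.exp_add]
      have e2 : Real.exp (-(c₀ * L * d)) ≤ 1 / (c₀ * L) / d := by
        rw [div_div, le_div_iff₀ (by positivity), Real.exp_neg, inv_mul_le_iff₀ (Real.exp_pos _)]
        have := Real.add_one_le_exp (c₀ * L * d)
        linarith
      calc Real.exp (L * d) * Real.exp (-(c₀ * L * d)) ≤ Real.exp (L * d) * (1 / (c₀ * L) / d) :=
            mul_le_mul_of_nonneg_left e2 (Real.exp_pos _).le
        _ = _ := by ring
    have h7 : q ^ d / (2 * d) = 1 / 2 * (q ^ d / d) := by field_simp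
    rw [h7] at h3
    rw [add_mul]
    linarith
  have hdiag : ((Mo K d).card : ℝ) * (Np K d 0 : ℝ) ≤ K₁ * q ^ d := by
    calc ((Mo K d).card : ℝ) * (Np K d 0 : ℝ) ≤
        (q * d) * ((1 / 2 + 1 / (c₀ * L)) * (q ^ d / d)) :=
          mul_le_mul (mo_card K d) hN0 (Nat.cast_nonneg _) (by positivity)
      _ = K₁ * q ^ d := by
          rw [hK₁]
          field_simp
  -- the other terms
  have hoff : ∀ p ∈ (Mo K d ×ˢ Mo K d).filter (fun p => p.1 ≠ p.2),
      (Np K d (p.1 + p.2) : ℝ) ≤ 9 / (c * (d : ℝ) ^ 2) * q ^ d *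
        ∏ᶠ P ∈ PA (p.1 + p.2), (1 + 1 / q ^ P.natDegree) := by
    intro p hp
    rw [Finset.mem_filter, Finset.mem_product] at hp
    obtain ⟨⟨hp1, hp2⟩, hne⟩ := hp
    have h0 : p.1 + p.2 ≠ 0 := fun h => hne (char_two_eq h)
    have hdeg : (p.1 + p.2).degree < (d : WithBot ℕ) :=
      (degree_add_le _ _).trans_lt (max_lt (mo_deg hp1) (mo_deg hp2))
    have h1 := hsv K d (d / 2) (p.1 + p.2) (by omega) (by omega) h0 hdeg
    have h2 := hlb (d / 2) (p.1 + p.2) (by omega) h0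
    rw [← hq] at h1
    set Pr : ℝ := ∏ᶠ P ∈ PA (p.1 + p.2), (1 + 1 / q ^ P.natDegree) with hPr
    have hPr0 : 0 ≤ Pr := finprod_nonneg fun P => finprod_nonneg fun _ => by positivity
    have hN : (0:ℝ) ≤ Np K d (p.1 + p.2) := Nat.cast_nonneg _
    have h3 : (Np K d (p.1 + p.2) : ℝ) * (c * ((d / 2 : ℕ) : ℝ) ^ 2) ≤ q ^ d * Pr := by
      calc (Np K d (p.1 + p.2) : ℝ) * (c * ((d / 2 : ℕ) : ℝ) ^ 2) ≤
          (Np K d (p.1 + p.2) : ℝ) * (Lz K (p.1 + p.2) (d / 2) * Pr) :=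
            mul_le_mul_of_nonneg_left h2 hN
        _ = ((Np K d (p.1 + p.2) : ℝ) * Lz K (p.1 + p.2) (d / 2)) * Pr := by ring
        _ ≤ q ^ d * Pr := mul_le_mul_of_nonneg_right h1 hPr0
    have hz : (d : ℝ) ≤ 3 * ((d / 2 : ℕ) : ℝ) := by
      have : d ≤ 3 * (d / 2) := by omega
      exact_mod_cast this
    have hz2 : (d : ℝ) ^ 2 ≤ 9 * ((d / 2 : ℕ) : ℝ) ^ 2 := by
      have := pow_le_pow_left₀ hdp.le hz 2
      calc (d : ℝ) ^ 2 ≤ _ := this
        _ = _ := by ring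
    have h4 : (Np K d (p.1 + p.2) : ℝ) * (c * (d : ℝ) ^ 2) ≤ 9 * (q ^ d * Pr) := by
      calc (Np K d (p.1 + p.2) : ℝ) * (c * (d : ℝ) ^ 2) ≤
          (Np K d (p.1 + p.2) : ℝ) * (c * (9 * ((d / 2 : ℕ) : ℝ) ^ 2)) :=
            mul_le_mul_of_nonneg_left (mul_le_mul_of_nonneg_left hz2 hc.le) hN
        _ = 9 * ((Np K d (p.1 + p.2) : ℝ) * (c * ((d / 2 : ℕ) : ℝ) ^ 2)) := by ring
        _ ≤ _ := by linarith
    have h5 : 9 / (c * (d : ℝ) ^ 2) * q ^ d * Pr = 9 * (q ^ d * Pr) / (c * (d : ℝ) ^ 2) := by ring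
    rw [h5, le_div_iff₀ (by positivity)]
    exact h4
  rw [expand hO K d, ← hq]
  have hsplit : ∑ m₁ ∈ Mo K d, ∑ m₂ ∈ Mo K d, (Np K d (m₁ + m₂) : ℝ) =
      ((Mo K d).card : ℝ) * (Np K d 0 : ℝ) +
        ∑ p ∈ (Mo K d ×ˢ Mo K d).filter (fun p => p.1 ≠ p.2), (Np K d (p.1 + p.2) : ℝ) := by
    rw [Finset.sum_filter, Finset.sum_product]
    have h1 : ((Mo K d).card : ℝ) * (Np K d 0 : ℝ) =
        ∑ m₁ ∈ Mo K d, ∑ m₂ ∈ Mo K d, if m₁ = m₂ then (Np K d 0 : ℝ) else 0 := by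
      rw [← nsmul_eq_mul, ← Finset.sum_const]
      refine Finset.sum_congr rfl fun m₁ hm₁ => ?_
      rw [Finset.sum_ite_eq, if_pos hm₁]
    rw [h1, ← Finset.sum_add_distrib]
    refine Finset.sum_congr rfl fun m₁ _ => ?_
    rw [← Finset.sum_add_distrib]
    refine Finset.sum_congr rfl fun m₂ _ => ?_
    by_cases h : m₁ = m₂
    · subst h
      have h6 : m₁ + m₁ = 0 := CharTwo.add_self_eq_zero _
      simp [h6]
    · simp [h]
  have hsum : ∑ p ∈ (Mo K d ×ˢ Mo K d).filter (fun p => p.1 ≠ p.2),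
      (Np K d (p.1 + p.2) : ℝ) ≤ 9 * C₂ / c * q ^ d := by
    refine (Finset.sum_le_sum hoff).trans ?_
    rw [← Finset.mul_sum]
    have h1 := hro d
    calc 9 / (c * (d : ℝ) ^ 2) * q ^ d *
          ∑ p ∈ (Mo K d ×ˢ Mo K d).filter (fun p => p.1 ≠ p.2),
            ∏ᶠ P ∈ PA (p.1 + p.2), (1 + 1 / q ^ P.natDegree) ≤
          9 / (c * (d : ℝ) ^ 2) * q ^ d * (C₂ * (d : ℝ) ^ 2) :=
        mul_le_mul_of_nonneg_left h1 (by positivity)
      _ = _ := by field_simp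
  rw [hsplit]
  have h8 : q ^ (2 * d) = q ^ d * q ^ d := by rw [two_mul, pow_add]
  rw [h8]
  calc q ^ d * (((Mo K d).card : ℝ) * (Np K d 0 : ℝ) +
        ∑ p ∈ (Mo K d ×ˢ Mo K d).filter (fun p => p.1 ≠ p.2), (Np K d (p.1 + p.2) : ℝ)) ≤
        q ^ d * (K₁ * q ^ d + 9 * C₂ / c * q ^ d) :=
      mul_le_mul_of_nonneg_left (add_le_add hdiag hsum) hqd.le
    _ = _ := by ring

end Pool.Agent.H290.FX.PLubb
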