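import Pool.Agent.H290.FX.StmR
import Pool.Agent.H290.FX.PRoot

/-!
# Final form of the binary theorem (task RBINP, helper253)
-/

set_option autoImplicit false

namespace Pool.Agent.H290.FX.PRbinp

open Polynomial
open Pool.Agent.H290.FX Pool.Agent.H290.FX.R
open Pool.Agent.H694.Typ (Mn PU mem_Mn mem_PU)

variable {K : Type} [Field K] [Fintype K] [CharP K 2]

omit [Fintype K] [CharP K 2] in
/-- two residues of small degree which are congruent are equal -/
lemma eq_of_dvd_sub {P a b : K[X]} (ha : a.degree < P.degree) (hb : b.degree < P.degree)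
    (h : P ∣ a - b) : a = b := by
  have h1 : (a - b).degree < P.degree :=
    lt_of_le_of_lt (Polynomial.degree_sub_le _ _) (max_lt ha hb)
  exact sub_eq_zero.1 (Polynomial.eq_zero_of_dvd_of_degree_lt h h1)

/-- the residue of `n` is the root of `X` if and only if `P ∣ n ^ 2 + X` -/
lemma mod_eq_rt {P : K[X]} (hP : P.Monic) (hi : Irreducible P) (n : K[X]) :
    n %ₘ P = rt P ↔ P ∣ n ^ 2 + X := by
  have h1 := (PRoot.main K P hP).1 hi.squarefree
  have h2 : P ∣ n - n %ₘ P := ⟨n /ₘ P, by
    have := Polynomial.modByMonic_add_div n P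
    linear_combination -this⟩
  constructor
  · intro h
    rw [h] at h2
    have h3 : n ^ 2 + X = (n - rt P) ^ 2 + (rt P ^ 2 + X) := by
      rw [CharTwo.sub_eq_add, CharTwo.add_sq]
      have h4 : rt P ^ 2 + rt P ^ 2 = 0 := CharTwo.add_self_eq_zero _
      linear_combination -h4
    rw [h3]
    exact dvd_add (dvd_pow h2 two_ne_zero) h1.1
  · intro h
    have h3 := ((PRoot.main K P hP).2 n h).2
    refine eq_of_dvd_sub (Polynomial.degree_modByMonic_lt _ hP) h1.2 ?_
    have h4 : n %ₘ P - rt P = (n - rt P) - (n - n %ₘ P) := by ring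
    rw [h4]
    exact dvd_sub h3 h2

/-- the residue classes -/
lemma omegaB_set {P : K[X]} (hP : P.Monic) (hi : Irreducible P) (n : K[X]) :
    {a : K[X] | a.degree < P.degree ∧ P ∣ (a ^ 2 + X) * (n - a)} = {rt P, n %ₘ P} := by
  have h1 := (PRoot.main K P hP).1 hi.squarefree
  have h2 : P ∣ n - n %ₘ P := ⟨n /ₘ P, by
    have := Polynomial.modByMonic_add_div n P
    linear_combination -this⟩
  ext a
  rw [Set.mem_ofPred_eq, Set.mem_insert_iff, Set.mem_singleton_iff]
  constructor
  · rintro ⟨ha, hd⟩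
    rcases hi.prime.dvd_or_dvd hd with h | h
    · exact Or.inl (eq_of_dvd_sub ha h1.2 ((PRoot.main K P hP).2 a h).2)
    · refine Or.inr (eq_of_dvd_sub ha (Polynomial.degree_modByMonic_lt _ hP) ?_)
      have h4 : a - n %ₘ P = (n - n %ₘ P) - (n - a) := by ring
      rw [h4]
      exact dvd_sub h2 h
  · rintro (rfl | rfl)
    · exact ⟨h1.2, dvd_mul_of_dvd_left h1.1 _⟩
    · exact ⟨Polynomial.degree_modByMonic_lt _ hP, dvd_mul_of_dvd_right h2 _⟩

open scoped Classical in
/-- the number of the residue classes -/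
lemma omegaB_eq {P : K[X]} (hP : P.Monic) (hi : Irreducible P) (n : K[X]) :
    omegaB n P = if P ∣ n ^ 2 + X then 1 else 2 := by
  unfold omegaB
  rw [omegaB_set hP hi]
  split_ifs with h
  · rw [(mod_eq_rt hP hi n).2 h, Set.pair_eq_singleton, Set.ncard_singleton]
  · exact Set.ncard_pair fun h' => h ((mod_eq_rt hP hi n).1 h'.symm)

open scoped Classical in
/-- the local factor -/
lemma local_factor {P : K[X]} (hP : P.Monic) (hi : Irreducible P) (n : K[X]) :
    (1 - (omegaB n P : ℝ) / (Fintype.card K : ℝ) ^ P.natDegree) /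
      (1 - 1 / (Fintype.card K : ℝ) ^ P.natDegree) ^ 2 =
    if P ∣ n ^ 2 + X then 1 + 1 / ((Fintype.card K : ℝ) ^ P.natDegree - 1)
      else 1 - 1 / ((Fintype.card K : ℝ) ^ P.natDegree - 1) ^ 2 := by
  have hq : (2 : ℝ) ≤ Fintype.card K := by exact_mod_cast Fintype.one_lt_card
  have hd : P.natDegree ≠ 0 := hi.natDegree_pos.ne'
  have hN : (2 : ℝ) ≤ (Fintype.card K : ℝ) ^ P.natDegree :=
    hq.trans (le_self_pow₀ (by linarith) hd)
  rw [omegaB_eq hP hi]
  generalize (Fintype.card K : ℝ) ^ P.natDegree = N at hN ⊢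
  have h1 : N ≠ 0 := by linarith
  have h2 : N - 1 ≠ 0 := by linarith
  split_ifs with h
  · push_cast
    field_simp
    ring
  · push_cast
    field_simp
    ring

open scoped Classical in
/-- the finite products -/
lemma seriesB_eq (n : K[X]) (y : ℕ) :
    seriesB n y = ∏ P ∈ PU K y,
      (if P ∣ n ^ 2 + X then 1 + 1 / ((Fintype.card K : ℝ) ^ P.natDegree - 1)
        else 1 - 1 / ((Fintype.card K : ℝ) ^ P.natDegree - 1) ^ 2) := by
  have h1 : {P : K[X] | P.Monic ∧ Irreducible P ∧ P.natDegree ≤ y} = ↑(PU K y) := by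
    ext P
    rw [Set.mem_ofPred_eq, Finset.mem_coe, mem_PU]
  unfold seriesB
  rw [h1, finprod_mem_coe_finset]
  refine Finset.prod_congr rfl fun P hP => ?_
  rw [mem_PU] at hP
  exact local_factor hP.1 hP.2.1 n

/-- the condition of positivity for the field with two elements -/
lemma cond_two (n : K[X]) (h : ∀ P : K[X], P.Monic → Irreducible P →
    omegaB n P < Fintype.card K ^ P.natDegree) (hq : Fintype.card K = 2) :
    n.eval 0 = 0 ∧ n.eval 1 = 1 := by
  classical
  have key : ∀ c : K, X - C c ∣ n ^ 2 + X := by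
    intro c
    have h1 := h (X - C c) (monic_X_sub_C c) (irreducible_X_sub_C c)
    rw [omegaB_eq (monic_X_sub_C c) (irreducible_X_sub_C c), hq, natDegree_X_sub_C, pow_one] at h1
    by_contra hcon
    rw [if_neg hcon] at h1
    omega
  have h0 := dvd_iff_isRoot.1 (key 0)
  have h1 := dvd_iff_isRoot.1 (key 1)
  rw [IsRoot.def, eval_add, eval_pow, eval_X] at h0 h1
  constructor
  · rw [add_zero] at h0
    exact pow_eq_zero_iff two_ne_zero |>.1 h0
  · have h2 : (n.eval 1 + 1) ^ 2 = 0 := by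
      rw [CharTwo.add_sq, one_pow]
      exact h1
    have h3 := pow_eq_zero_iff two_ne_zero |>.1 h2
    rwa [CharTwo.add_eq_zero] at h3

omit [CharP K 2] in
open scoped Classical in
/-- the number of the representations -/
lemma repsB_eq (d : ℕ) (n : K[X]) :
    repsB d n = ((Mn K d ×ˢ Mn K d).filter (fun x => x.1 + x.2 = n ∧ Irreducible x.1 ∧
            Irreducible (x.2 ^ 2 + X))).card := by
  unfold repsB
  rw [← Set.ncard_coe_finset]
  refine congrArg Set.ncard ?_
  ext x
  rw [Set.mem_ofPred_eq, Finset.mem_coe, Finset.mem_filter, Finset.mem_product, mem_Mn, mem_Mn]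
  tauto

theorem main : Pool.Agent.H290.FX.R.S_rbinp := by
  classical
  intro hb K _ _ _
  obtain ⟨c, c₀, S, hc, hc₀, hS, d₀, hd⟩ := hb K
  refine ⟨c, c₀, S, hc, hc₀, fun n => ⟨?_, fun h => (hS n).2 (cond_two n h)⟩, d₀,
    fun d hdd => ?_⟩
  · refine (hS n).1.congr fun y => ?_
    rw [seriesB_eq]
  · refine le_trans (le_of_eq ?_) (hd d hdd)
    rw [← Set.ncard_coe_finset]
    refine congrArg (fun s : Set K[X] => (s.ncard : ℝ)) ?_
    ext n
    rw [Set.mem_ofPred_eq, Finset.mem_coe, Finset.mem_filter, mem_Vs, repsB_eq,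
      show (d : ℝ) * (2 * d) = 2 * (d : ℝ) ^ 2 by ring]

end Pool.Agent.H290.FX.PRbinp
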