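import Pool.Agent.H290.FX.StmR

/-!
# The theorem on exactly `k` factors: final form
-/

set_option autoImplicit false

namespace Pool.Agent.H290.FX.PRexk

open Polynomial
open scoped Classical

theorem numK_eq (hB : Pool.Agent.H290.PK.SBas) (K : Type) [Field K] [Fintype K] [CharP K 2]
    (d k : ℕ) (hd : 1 ≤ d) : R.numK K d k = Pool.Agent.H290.PK.NK K d k := by
  unfold R.numK Pool.Agent.H290.PK.NK
  rw [← Set.ncard_coe_finset]
  congr 1
  ext a
  rw [Finset.coe_filter]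
  constructor
  · rintro ⟨h1, h2, h3⟩
    have hM : a ∈ Pool.Agent.H290.CT.M K d := Pool.Agent.H290.CT.mem_M.2 ⟨h1, h2⟩
    refine ⟨hM, ?_⟩
    rw [← ((hB K).1 d a hM hd).2.2.2.2.2.2.1, UniqueFactorizationMonoid.normalizedFactors,
      Multiset.card_map]
    exact h3
  · rintro ⟨hM, h3⟩
    obtain ⟨h1, h2⟩ := Pool.Agent.H290.CT.mem_M.1 hM
    refine ⟨h1, h2, ?_⟩
    rw [← ((hB K).1 d a hM hd).2.2.2.2.2.2.1, UniqueFactorizationMonoid.normalizedFactors,
      Multiset.card_map] at h3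
    exact h3

/-- **Task REXK.** -/
theorem main : Pool.Agent.H290.FX.R.S_rexk := by
  intro hB hF K _ _ _
  obtain ⟨hF1, hF2⟩ := hF K
  constructor
  · intro ε hε
    obtain ⟨δ, hδ, d₀, h⟩ := hF1 ε hε
    refine ⟨δ, hδ, d₀ + 1, fun d k hd hk hkd => ?_⟩
    rw [numK_eq hB K d k (by omega)]
    exact h d k (by omega) hk hkd
  · intro A
    obtain ⟨c, C, hc, hC, d₀, h⟩ := hF2 A
    refine ⟨c, C, hc, hC, d₀ + 1, fun d k hd hk hkd => ?_⟩
    rw [numK_eq hB K d k (by omega)]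
    exact h d k (by omega) hk hkd

end Pool.Agent.H290.FX.PRexk
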