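import Pool.Agent.H290.FX.StmR

set_option autoImplicit false

/-!
# Task RTERS (proved by helper401): the local factors of the sums of `s` terms
-/

namespace Pool.Agent.H290.FX.PRters

open Polynomial
open scoped Classical
open Pool.Agent.H694.Typ (Mn PU mem_Mn mem_PU)
open Pool.Agent.H290.FX.R

section count

variable {G : Type*} [AddCommGroup G] [Fintype G]

/-- The number of the solutions of `∑ x i = m` with all `x i ≠ 0`. -/
noncomputable def T (s : ℕ) (m : G) : ℕ :=
  (Finset.univ.filter (fun x : Fin s → G => (∀ i, x i ≠ 0) ∧ ∑ i, x i = m)).card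

theorem card_nz (s : ℕ) :
    (Finset.univ.filter (fun x : Fin s → G => ∀ i, x i ≠ 0)).card = (Fintype.card G - 1) ^ s := by
  have h1 : (Finset.univ.filter (fun x : Fin s → G => ∀ i, x i ≠ 0)) =
      Fintype.piFinset (fun _ : Fin s => (Finset.univ : Finset G).erase 0) := by
    ext x
    rw [Finset.mem_filter, Fintype.mem_piFinset]
    constructor
    · rintro ⟨-, h⟩ i
      exact Finset.mem_erase.2 ⟨h i, Finset.mem_univ _⟩
    · intro h
      exact ⟨Finset.mem_univ _, fun i => (Finset.mem_erase.1 (h i)).1⟩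
  rw [h1, Fintype.card_piFinset, Finset.prod_const, Finset.card_erase_of_mem (Finset.mem_univ _),
    Finset.card_univ, Finset.card_univ, Fintype.card_fin]

theorem T_succ (s : ℕ) (m : G) : T (s + 1) m + T s m = (Fintype.card G - 1) ^ s := by
  have h1 : T (s + 1) m = (Finset.univ.filter
      (fun x : Fin s → G => (∀ i, x i ≠ 0) ∧ ¬ ∑ i, x i = m)).card := by
    unfold T
    refine Finset.card_bij' (fun x _ => fun i : Fin s => x i.succ)
      (fun x _ => (Fin.cons (m - ∑ i, x i) x : Fin (s + 1) → G)) ?_ ?_ ?_ ?_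
    · intro x hx
      rw [Finset.mem_filter] at hx ⊢
      obtain ⟨-, h1, h2⟩ := hx
      refine ⟨Finset.mem_univ _, fun i => h1 i.succ, fun h3 => h1 0 ?_⟩
      rw [Fin.sum_univ_succ, h3] at h2
      exact add_eq_right.1 h2
    · intro x hx
      rw [Finset.mem_filter] at hx ⊢
      obtain ⟨-, h1, h2⟩ := hx
      refine ⟨Finset.mem_univ _, fun i => ?_, ?_⟩
      · refine Fin.cases ?_ (fun j => ?_) i
        · rw [Fin.cons_zero]
          intro h3
          exact h2 (sub_eq_zero.1 h3).symm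
        · rw [Fin.cons_succ]
          exact h1 j
      · rw [Fin.sum_univ_succ, Fin.cons_zero]
        simp only [Fin.cons_succ]
        exact sub_add_cancel _ _
    · intro x hx
      rw [Finset.mem_filter] at hx
      obtain ⟨-, h1, h2⟩ := hx
      funext i
      refine Fin.cases ?_ (fun j => ?_) i
      · rw [Fin.cons_zero, ← h2, Fin.sum_univ_succ]
        exact add_sub_cancel_right _ _
      · rw [Fin.cons_succ]
    · intro x hx
      funext i
      rw [Fin.cons_succ]
  have h2 : T s m = ((Finset.univ.filter (fun x : Fin s → G => ∀ i, x i ≠ 0)).filter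
      (fun x => ∑ i, x i = m)).card := by
    rw [Finset.filter_filter]
    rfl
  have h3 : (Finset.univ.filter
      (fun x : Fin s → G => (∀ i, x i ≠ 0) ∧ ¬ ∑ i, x i = m)).card =
      ((Finset.univ.filter (fun x : Fin s → G => ∀ i, x i ≠ 0)).filter
      (fun x => ¬ ∑ i, x i = m)).card := by
    rw [Finset.filter_filter]
  rw [h1, h2, h3, add_comm, Finset.card_filter_add_card_filter_not, card_nz]

theorem T_formula (s : ℕ) (m : G) : (Fintype.card G : ℝ) * (T s m : ℝ) =
    if m = 0 then ((Fintype.card G : ℝ) - 1) ^ s + (-1) ^ s * ((Fintype.card G : ℝ) - 1)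
    else ((Fintype.card G : ℝ) - 1) ^ s - (-1) ^ s := by
  have hN : 1 ≤ Fintype.card G := Fintype.card_pos
  induction s with
  | zero =>
    by_cases hm : m = 0
    · have h1 : T 0 m = 1 := by
        unfold T
        rw [Finset.filter_true_of_mem, Finset.card_univ, Fintype.card_unique]
        intro x _
        exact ⟨fun i => i.elim0, by rw [Fin.sum_univ_zero, hm]⟩
      rw [h1, if_pos hm]
      push_cast
      ring
    · have h1 : T 0 m = 0 := by
        unfold T
        rw [Finset.card_eq_zero, Finset.filter_eq_empty_iff]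
        rintro x - ⟨-, h2⟩
        rw [Fin.sum_univ_zero] at h2
        exact hm h2.symm
      rw [h1, if_neg hm]
      push_cast
      ring
  | succ s ih =>
    have h1 : (T (s + 1) m : ℝ) = ((Fintype.card G : ℝ) - 1) ^ s - T s m := by
      have h2 := T_succ s m
      have h3 : ((T (s + 1) m + T s m : ℕ) : ℝ) = (((Fintype.card G - 1) ^ s : ℕ) : ℝ) := by
        rw [h2]
      rw [Nat.cast_add, Nat.cast_pow, Nat.cast_sub hN, Nat.cast_one] at h3
      linarith
    rw [h1, mul_sub, ih]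
    split_ifs
    · ring
    · ring

end count

section field

variable {K : Type} [Field K] [Fintype K] [CharP K 2]

theorem rho_formula {P : K[X]} (hP : P.Monic) (hirr : Irreducible P) (s : ℕ) (n : K[X]) :
    ((Fintype.card K : ℝ) ^ P.natDegree) * (rho s n P : ℝ) =
    if P ∣ n ^ 2 + (s : K[X]) * X then
      ((Fintype.card K : ℝ) ^ P.natDegree - 1) ^ s +
        (-1) ^ s * ((Fintype.card K : ℝ) ^ P.natDegree - 1)
    else ((Fintype.card K : ℝ) ^ P.natDegree - 1) ^ s - (-1) ^ s := by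
  haveI : Fact (Irreducible P) := ⟨hirr⟩
  haveI hfin : Module.Finite K (AdjoinRoot P) :=
    Module.Finite.of_basis (AdjoinRoot.powerBasis' hP).basis
  haveI : Finite (AdjoinRoot P) := Module.finite_of_finite K
  letI : Fintype (AdjoinRoot P) := Fintype.ofFinite _
  haveI : CharP (AdjoinRoot P) 2 :=
    charP_of_injective_algebraMap (algebraMap K (AdjoinRoot P)).injective 2
  have hcard : Fintype.card (AdjoinRoot P) = Fintype.card K ^ P.natDegree := by
    rw [Module.card_eq_pow_finrank (K := K), (AdjoinRoot.powerBasis' hP).finrank,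
      AdjoinRoot.powerBasis'_dim]
  -- surjectivity
  have hsq : Function.Surjective fun y : AdjoinRoot P => y ^ 2 := by
    apply Finite.surjective_of_injective
    intro y z hyz
    have h1 : y ^ 2 = z ^ 2 := hyz
    have h2 : (y + z) ^ 2 = 0 := by
      rw [CharTwo.add_sq, h1, CharTwo.add_self_eq_zero]
    exact CharTwo.add_eq_zero.1 (pow_eq_zero_iff (two_ne_zero) |>.1 h2)
  have hsurj : ∀ z : AdjoinRoot P, ∃ a : K[X], a.degree < P.degree ∧
      AdjoinRoot.mk P (a ^ 2 + X) = z := by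
    intro z
    obtain ⟨y, hy⟩ := hsq (z - AdjoinRoot.mk P X)
    have hy : y ^ 2 = z - AdjoinRoot.mk P X := hy
    obtain ⟨b, rfl⟩ := AdjoinRoot.mk_surjective y
    refine ⟨b %ₘ P, degree_modByMonic_lt _ hP, ?_⟩
    have h1 : AdjoinRoot.mk P (b %ₘ P) = AdjoinRoot.mk P b := by
      rw [AdjoinRoot.mk_eq_mk]
      refine ⟨-(b /ₘ P), ?_⟩
      have h2 := modByMonic_add_div b P
      calc b %ₘ P - b = b %ₘ P - (b %ₘ P + P * (b /ₘ P)) := by rw [h2]
        _ = P * -(b /ₘ P) := by ring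
    rw [map_add, map_pow, h1, hy, sub_add_cancel]
  have hsqs : ∀ x y : K[X], x ^ 2 - y ^ 2 = (x - y) ^ 2 := fun x y => by
    rw [CharTwo.sub_eq_add, CharTwo.sub_eq_add, CharTwo.add_sq]
  -- the bijection
  have hrho : rho s n P = T s (AdjoinRoot.mk P (n ^ 2 + (s : K[X]) * X)) := by
    unfold rho T
    rw [← Set.ncard_coe_finset]
    obtain ⟨Φ, hΦ⟩ : ∃ Φ : (Fin s → K[X]) → (Fin s → AdjoinRoot P),
        ∀ a i, Φ a i = AdjoinRoot.mk P (a i ^ 2 + X) :=
      ⟨fun a i => AdjoinRoot.mk P (a i ^ 2 + X), fun a i => rfl⟩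
    have hinj : Set.InjOn Φ {a : Fin s → K[X] | (∀ i, (a i).degree < P.degree ∧
        ¬ P ∣ a i ^ 2 + X) ∧ P ∣ ∑ i, a i - n} := by
      intro a ha b hb hab
      funext i
      have h1 : AdjoinRoot.mk P (a i ^ 2 + X) = AdjoinRoot.mk P (b i ^ 2 + X) := by
        rw [← hΦ, ← hΦ, hab]
      rw [AdjoinRoot.mk_eq_mk] at h1
      have h2 : (a i ^ 2 + X) - (b i ^ 2 + X) = (a i - b i) ^ 2 := by
        rw [← hsqs]; ring
      rw [h2] at h1
      have h3 : P ∣ a i - b i := hirr.prime.dvd_of_dvd_pow h1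
      have h4 : (a i - b i).degree < P.degree :=
        (degree_sub_le _ _).trans_lt (max_lt (ha.1 i).1 (hb.1 i).1)
      exact sub_eq_zero.1 (eq_zero_of_dvd_of_degree_lt h3 h4)
    have hsum : ∀ a : Fin s → K[X], ∑ i, (a i ^ 2 + X) = (∑ i, a i) ^ 2 + (s : K[X]) * X := by
      intro a
      rw [Finset.sum_add_distrib, CharTwo.sum_sq, Finset.sum_const, Finset.card_univ,
        Fintype.card_fin, nsmul_eq_mul]
    have hiff : ∀ a : Fin s → K[X], P ∣ ∑ i, a i - n ↔
        ∑ i, AdjoinRoot.mk P (a i ^ 2 + X) = AdjoinRoot.mk P (n ^ 2 + (s : K[X]) * X) := by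
      intro a
      rw [← map_sum, hsum, AdjoinRoot.mk_eq_mk]
      have h2 : ((∑ i, a i) ^ 2 + (s : K[X]) * X) - (n ^ 2 + (s : K[X]) * X) =
          (∑ i, a i - n) ^ 2 := by
        rw [← hsqs]; ring
      rw [h2]
      constructor
      · intro h
        exact h.trans (dvd_pow_self _ two_ne_zero)
      · intro h
        exact hirr.prime.dvd_of_dvd_pow h
    rw [← Set.ncard_image_of_injOn hinj]
    congr 1
    ext z
    rw [Set.mem_image, Finset.mem_coe, Finset.mem_filter]
    constructor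
    · rintro ⟨a, ⟨h1, h2⟩, rfl⟩
      refine ⟨Finset.mem_univ _, fun i => ?_, ?_⟩
      · rw [hΦ, Ne, AdjoinRoot.mk_eq_zero]
        exact (h1 i).2
      · rw [← (hiff a).1 h2]
        exact Finset.sum_congr rfl fun i _ => hΦ a i
    · rintro ⟨-, h1, h2⟩
      choose a ha1 ha2 using fun i => hsurj (z i)
      refine ⟨a, ⟨fun i => ⟨ha1 i, fun h3 => h1 i ?_⟩, ?_⟩, ?_⟩
      · rw [← ha2 i, AdjoinRoot.mk_eq_zero]
        exact h3
      · rw [hiff, ← h2]
        exact Finset.sum_congr rfl fun i _ => ha2 i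
      · funext i
        rw [hΦ, ha2]
  have h1 := T_formula s (AdjoinRoot.mk P (n ^ 2 + (s : K[X]) * X))
  rw [hcard, Nat.cast_pow, ← hrho] at h1
  rw [h1]
  have h2 : (AdjoinRoot.mk P (n ^ 2 + (s : K[X]) * X) = 0) = (P ∣ n ^ 2 + (s : K[X]) * X) :=
    propext AdjoinRoot.mk_eq_zero
  simp only [h2]

theorem q_pow_ge {P : K[X]} (hirr : Irreducible P) :
    (2 : ℝ) ≤ (Fintype.card K : ℝ) ^ P.natDegree := by
  have h1 : (2 : ℝ) ≤ (Fintype.card K : ℝ) := by
    exact_mod_cast Fintype.one_lt_card (α := K)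
  have h2 : 1 ≤ P.natDegree := hirr.natDegree_pos
  calc (2 : ℝ) ≤ Fintype.card K := h1
    _ = (Fintype.card K : ℝ) ^ 1 := (pow_one _).symm
    _ ≤ (Fintype.card K : ℝ) ^ P.natDegree := pow_le_pow_right₀ (by linarith) h2

theorem factor {P : K[X]} (hP : P.Monic) (hirr : Irreducible P) {s : ℕ} (hs : 1 ≤ s) (n : K[X]) :
    ((rho s n P : ℝ) / ((Fintype.card K : ℝ) ^ P.natDegree) ^ (s - 1)) /
      (1 - 1 / (Fintype.card K : ℝ) ^ P.natDegree) ^ s =
    if P ∣ n ^ 2 + (s : K[X]) * X then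
      1 + (-1) ^ s / ((Fintype.card K : ℝ) ^ P.natDegree - 1) ^ (s - 1)
    else 1 - (-1) ^ s / ((Fintype.card K : ℝ) ^ P.natDegree - 1) ^ s := by
  have h1 := rho_formula hP hirr s n
  have hN := q_pow_ge hirr
  obtain ⟨N, hNe⟩ : ∃ N : ℝ, N = (Fintype.card K : ℝ) ^ P.natDegree := ⟨_, rfl⟩
  rw [← hNe] at h1 hN ⊢
  obtain ⟨s, rfl⟩ : ∃ s', s = s' + 1 := ⟨s - 1, by omega⟩
  have hN0 : N ≠ 0 := by linarith
  have hM0 : N - 1 ≠ 0 := by linarith
  have h2 : 1 - 1 / N = (N - 1) / N := by field_simp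
  have h3 : (rho (s + 1) n P : ℝ) / N ^ (s + 1 - 1) / (1 - 1 / N) ^ (s + 1) =
      (N * rho (s + 1) n P) / (N - 1) ^ (s + 1) := by
    rw [h2, div_pow, Nat.add_sub_cancel]
    field_simp
    ring
  rw [h3, h1, Nat.add_sub_cancel]
  split_ifs
  · rw [add_div, div_self (pow_ne_zero _ hM0)]
    congr 1
    rw [pow_succ (N - 1) s, mul_div_mul_right _ _ hM0]
  · rw [sub_div, div_self (pow_ne_zero _ hM0)]

end field

theorem series_eq {K : Type} [Field K] [Fintype K] [CharP K 2] {s : ℕ} (hs : 1 ≤ s) (n : K[X])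
    (y : ℕ) : seriesS s n y = ∏ P ∈ PU K y,
      (if P ∣ n ^ 2 + (s : K[X]) * X then
          1 + (-1) ^ s / ((Fintype.card K : ℝ) ^ P.natDegree - 1) ^ (s - 1)
        else 1 - (-1) ^ s / ((Fintype.card K : ℝ) ^ P.natDegree - 1) ^ s) := by
  have hset : {P : K[X] | P.Monic ∧ Irreducible P ∧ P.natDegree ≤ y} = ↑(PU K y) := by
    ext P
    rw [Set.mem_setOf_eq, Finset.mem_coe, mem_PU]
  unfold seriesS
  rw [hset, finprod_mem_coe_finset]
  refine Finset.prod_congr rfl fun P hP => ?_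
  rw [mem_PU] at hP
  exact factor hP.1 hP.2.1 hs n

theorem cond {K : Type} [Field K] [Fintype K] [CharP K 2] {s : ℕ} (n : K[X])
    (h : ∀ P : K[X], P.Monic → Irreducible P → 0 < rho s n P) (hK : Fintype.card K = 2) :
    n.eval 0 = (s : K) ∧ n.eval 1 = 0 := by
  have hx : ∀ x : K, x = 0 ∨ x = 1 := by
    intro x
    have h1 := FiniteField.pow_card x
    rw [hK] at h1
    have h2 : x * (x - 1) = 0 := by
      rw [mul_sub, mul_one, ← sq, h1, sub_self]
    rcases mul_eq_zero.1 h2 with h3 | h3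
    · exact Or.inl h3
    · exact Or.inr (sub_eq_zero.1 h3)
  have hsq : ∀ x : K, x ^ 2 = x := by
    intro x
    rcases hx x with rfl | rfl
    · rw [zero_pow two_ne_zero]
    · rw [one_pow]
  have key : ∀ a : K, (Even s → n.eval a + s * a = 0) ∧ (Odd s → n.eval a + s * a ≠ 0) := by
    intro a
    have h1 := rho_formula (monic_X_sub_C a) (irreducible_X_sub_C a) s n
    have h2 := h (X - C a) (monic_X_sub_C a) (irreducible_X_sub_C a)
    have h3 : (0 : ℝ) < (rho s n (X - C a) : ℝ) := by exact_mod_cast h2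
    rw [natDegree_X_sub_C, pow_one, hK, Nat.cast_ofNat] at h1
    have h4 : ((X - C a) ∣ n ^ 2 + (s : K[X]) * X) = (n.eval a + s * a = 0) := by
      rw [dvd_iff_isRoot, IsRoot.def, eval_add, eval_pow, eval_mul, eval_X, eval_natCast, hsq]
    simp only [h4] at h1
    constructor
    · intro he
      by_contra hne
      rw [if_neg hne, he.neg_one_pow] at h1
      norm_num at h1
      rw [h1] at h2
      exact lt_irrefl _ h2
    · intro ho he
      rw [if_pos he, ho.neg_one_pow] at h1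
      norm_num at h1
      rw [h1] at h2
      exact lt_irrefl _ h2
  have h0 := key 0
  have h1 := key 1
  rw [mul_zero, add_zero] at h0
  rw [mul_one] at h1
  rcases Nat.even_or_odd s with he | ho
  · have hs0 : (s : K) = 0 := by
      rw [CharP.cast_eq_zero_iff K 2]
      exact he.two_dvd
    refine ⟨by rw [hs0]; exact h0.1 he, ?_⟩
    have h2 := h1.1 he
    rwa [hs0, add_zero] at h2
  · have hs1 : (s : K) = 1 := by
      obtain ⟨j, rfl⟩ := ho
      push_cast
      rw [CharTwo.two_eq_zero, zero_mul, zero_add]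
    refine ⟨?_, ?_⟩
    · rw [hs1]
      exact (hx _).resolve_left (h0.2 ho)
    · refine (hx _).resolve_right fun h3 => h1.2 ho ?_
      rw [h3, hs1, CharTwo.add_self_eq_zero]

theorem reps_eq {K : Type} [Field K] [Fintype K] {s : ℕ} (d : ℕ) (n : K[X]) :
    repsS (s := s) d n = ((Fintype.piFinset (fun _ : Fin s => Mn K d)).filter
      (fun a => ∑ i, a i = n ∧ ∀ i, Irreducible (a i ^ 2 + X))).card := by
  unfold repsS
  rw [← Set.ncard_coe_finset]
  congr 1
  ext a
  rw [Set.mem_setOf_eq, Finset.mem_coe, Finset.mem_filter, Fintype.mem_piFinset]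
  simp only [mem_Mn]
  constructor
  · rintro ⟨h1, h2⟩
    exact ⟨fun i => ⟨(h2 i).1, (h2 i).2.1⟩, h1, fun i => (h2 i).2.2⟩
  · rintro ⟨h1, h2, h3⟩
    exact ⟨h2, fun i => ⟨(h1 i).1, (h1 i).2, h3 i⟩⟩

theorem main : Pool.Agent.H290.FX.R.S_rters := by
  intro h K _ _ _ s hs
  obtain ⟨c, c₀, S, hc, hc0, hS, d₀, hd⟩ := h K s hs
  refine ⟨c, c₀, S, hc, hc0, fun n => ⟨?_, fun h1 => (hS n).2 fun h2 => ?_⟩, d₀,
    fun d n hdd hn => ?_⟩
  · have h1 : seriesS s n = fun y : ℕ => ∏ P ∈ PU K y,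
      (if P ∣ n ^ 2 + (s : K[X]) * X then
          1 + (-1) ^ s / ((Fintype.card K : ℝ) ^ P.natDegree - 1) ^ (s - 1)
        else 1 - (-1) ^ s / ((Fintype.card K : ℝ) ^ P.natDegree - 1) ^ s) :=
      funext fun y => series_eq (by omega) n y
    rw [h1]
    exact (hS n).1
  · exact cond n h1 h2
  · rw [reps_eq]
    exact hd d n hdd hn

end Pool.Agent.H290.FX.PRters
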