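import Mathlib
import Pool.Agent.H290.FX.StmC

/-!
# Sums of `s ≥ 3` arguments of Landau primes, `q` even (helper290): statements
-/

namespace Pool.Agent.H290.FX

open Polynomial
open scoped Classical
open Pool.Agent.H985.Chow (mob)
open Pool.Agent.H985.KP (sg PA)
open Pool.Agent.H694.Typ (Mn PU)
open Pool.Agent.H604.LD (PiM)

/-- The main term for the sums of `s`. -/
def S_mts : Prop :=
  ∀ (K : Type) [Field K] [Fintype K] [CharP K 2] (d t s : ℕ) (n : K[X]), 2 * t ≤ d → 1 ≤ s →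
    (n + (s : K[X]) * X ^ d).degree < (d : WithBot ℕ) →
    ∑ H ∈ Vs K d, ch d H n * (MT K d t (ch d H)) ^ s =
      (Fintype.card K : ℝ) ^ (s * d) * ∑ r ∈ Sq K t, ∏ᶠ P ∈ PA r,
        (if P ∣ n ^ 2 + (s : K[X]) * X then
            (-1) ^ s / ((Fintype.card K : ℝ) ^ P.natDegree - 1) ^ (s - 1)
          else -(-1) ^ s / ((Fintype.card K : ℝ) ^ P.natDegree - 1) ^ s)

/-- **Task MTS.**  As MT and MB (store helper290_FX_PMt.lean, helper290_FX_PMb.lean): `MT` has at most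
one term; `χ n * χ (rt r + r X ^ (d - ρ)) ^ s = χ b` with `b = n + s (rt r + r X ^ (d - ρ))` of degree
`< d`; RAM; for a prime `P ∣ r`: `P ∣ b ↔ P ∣ n + s rt r ↔ P ∣ n ^ 2 + s X` (squaring, `s ^ 2 = s` in
characteristic `2`, and `P ∣ (rt r) ^ 2 + X`). -/
def S_tmts : Prop := S_root → S_uniq → S_ram → S_mts

/-- **Sums of `s ≥ 3`.** -/
def S_ters : Prop :=
  ∀ (K : Type) [Field K] [Fintype K] [CharP K 2] (s : ℕ), 3 ≤ s →
    ∃ (c c₀ : ℝ) (S : K[X] → ℝ), 0 < c ∧ 0 < c₀ ∧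
    (∀ n : K[X], Filter.Tendsto (fun y : ℕ => ∏ P ∈ PU K y,
      (if P ∣ n ^ 2 + (s : K[X]) * X then
          1 + (-1) ^ s / ((Fintype.card K : ℝ) ^ P.natDegree - 1) ^ (s - 1)
        else 1 - (-1) ^ s / ((Fintype.card K : ℝ) ^ P.natDegree - 1) ^ s))
        Filter.atTop (nhds (S n)) ∧
      ((Fintype.card K = 2 → n.eval 0 = (s : K) ∧ n.eval 1 = 0) → c₀ ≤ S n)) ∧
    ∃ d₀ : ℕ, ∀ (d : ℕ) (n : K[X]), d₀ ≤ d →
      (n + (s : K[X]) * X ^ d).degree < (d : WithBot ℕ) →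
      |(((Fintype.piFinset (fun _ : Fin s => Mn K d)).filter (fun a => ∑ i, a i = n ∧
          ∀ i, Irreducible (a i ^ 2 + X))).card : ℝ) -
        S n * (Fintype.card K : ℝ) ^ ((s - 1) * d) / (2 * (d : ℝ)) ^ s| ≤
        (Fintype.card K : ℝ) ^ (((s : ℝ) - 1 - c) * d)

/-- **Task TERS.**  As TER (store helper290_FX_PTer.lean, the case `s = 3`).  The number is
`q ^ (-d) ∑_H ch d H n * SX ^ s`, as `∑ a i + n` has degree `< d`; with `x = 2 d SX`, `y = MT`,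
`|x|, |y| ≤ 2 d q ^ d`: `|x ^ s - y ^ s| ≤ s |x - y| (2 d q ^ d) ^ (s - 3) (x ^ 2 + y ^ 2)`, so the error is small
by FOUR and L2.  RANK and CONV with `h = 1`.  (For `q = 2` the conditions say that, for the two `P`
of degree `1`, `P ∤ n ^ 2 + X` if `s` is odd and `P ∣ n` if `s` is even.) -/
def S_tters : Prop := S_orth → S_four → S_l2 → S_mts → S_rank → S_conv → S_ters

end Pool.Agent.H290.FX
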