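import Mathlib
import Pool.Agent.H290.FX.StmT
import Pool.Agent.H290.FX.StmQ
import Pool.Agent.H290.FX.StmV
import Pool.Agent.H290.PK.Stm

/-!
# Final forms (helper290): statements with elementary definitions

`K` is a finite field of characteristic `2`, `q` the number of its elements, `|P| = q ^ deg P`.
-/

namespace Pool.Agent.H290.FX.R

open Polynomial

section defs

variable {K : Type} [Field K]

/-- The number of the monic `a` of degree `d` such that all the `(a + h i) ^ 2 + X` are irreducible. -/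
noncomputable def tuples {k : ℕ} (d : ℕ) (h : Fin k → K[X]) : ℕ :=
  {a : K[X] | a.Monic ∧ a.natDegree = d ∧ ∀ i, Irreducible ((a + h i) ^ 2 + X)}.ncard

/-- The number of the residue classes `a` modulo `P` with `P ∣ ∏ i, ((a + h i) ^ 2 + X)`. -/
noncomputable def omega {k : ℕ} (h : Fin k → K[X]) (P : K[X]) : ℕ :=
  {a : K[X] | a.degree < P.degree ∧ P ∣ ∏ i, ((a + h i) ^ 2 + X)}.ncard

/-- The product over the monic irreducible `P` of degree at most `y` of
`(1 - omega h P / |P|) / (1 - 1 / |P|) ^ k`. -/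
noncomputable def seriesT [Fintype K] {k : ℕ} (h : Fin k → K[X]) (y : ℕ) : ℝ :=
  ∏ᶠ P ∈ {P : K[X] | P.Monic ∧ Irreducible P ∧ P.natDegree ≤ y},
    (1 - (omega h P : ℝ) / (Fintype.card K : ℝ) ^ P.natDegree) /
      (1 - 1 / (Fintype.card K : ℝ) ^ P.natDegree) ^ k

/-- The number of the representations `n = P + a`, `P` and `a` monic of degree `d`, `P` and
`a ^ 2 + X` irreducible. -/
noncomputable def repsB (d : ℕ) (n : K[X]) : ℕ :=
  {x : K[X] × K[X] | x.1 + x.2 = n ∧ x.1.Monic ∧ x.1.natDegree = d ∧ x.2.Monic ∧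
    x.2.natDegree = d ∧ Irreducible x.1 ∧ Irreducible (x.2 ^ 2 + X)}.ncard

/-- The number of the residue classes `a` modulo `P` with `P ∣ (a ^ 2 + X) (n - a)`. -/
noncomputable def omegaB (n P : K[X]) : ℕ :=
  {a : K[X] | a.degree < P.degree ∧ P ∣ (a ^ 2 + X) * (n - a)}.ncard

/-- The product over the monic irreducible `P` of degree at most `y` of
`(1 - omegaB n P / |P|) / (1 - 1 / |P|) ^ 2`. -/
noncomputable def seriesB [Fintype K] (n : K[X]) (y : ℕ) : ℝ :=
  ∏ᶠ P ∈ {P : K[X] | P.Monic ∧ Irreducible P ∧ P.natDegree ≤ y},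
    (1 - (omegaB n P : ℝ) / (Fintype.card K : ℝ) ^ P.natDegree) /
      (1 - 1 / (Fintype.card K : ℝ) ^ P.natDegree) ^ 2

/-- The number of the representations `n = a 1 + ⋯ + a s` with monic `a i` of degree `d` and all
`(a i) ^ 2 + X` irreducible. -/
noncomputable def repsS {s : ℕ} (d : ℕ) (n : K[X]) : ℕ :=
  {a : Fin s → K[X] | ∑ i, a i = n ∧
    ∀ i, (a i).Monic ∧ (a i).natDegree = d ∧ Irreducible (a i ^ 2 + X)}.ncard

/-- The number of the solutions modulo `P` of `a 1 + ⋯ + a s ≡ n` with `P ∤ (a i) ^ 2 + X`. -/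
noncomputable def rho (s : ℕ) (n P : K[X]) : ℕ :=
  {a : Fin s → K[X] | (∀ i, (a i).degree < P.degree ∧ ¬ P ∣ a i ^ 2 + X) ∧
    P ∣ ∑ i, a i - n}.ncard

/-- The product over the monic irreducible `P` of degree at most `y` of
`(rho s n P / |P| ^ (s - 1)) / (1 - 1 / |P|) ^ s`. -/
noncomputable def seriesS [Fintype K] (s : ℕ) (n : K[X]) (y : ℕ) : ℝ :=
  ∏ᶠ P ∈ {P : K[X] | P.Monic ∧ Irreducible P ∧ P.natDegree ≤ y},
    ((rho s n P : ℝ) / ((Fintype.card K : ℝ) ^ P.natDegree) ^ (s - 1)) /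
      (1 - 1 / (Fintype.card K : ℝ) ^ P.natDegree) ^ s

/-- The number of the monic `a` of degree `d` such that `a ^ 2 + X` has exactly `k` irreducible
factors, counted with multiplicity. -/
noncomputable def numK (K : Type) [Field K] (d k : ℕ) : ℕ :=
  {a : K[X] | a.Monic ∧ a.natDegree = d ∧
    Multiset.card (UniqueFactorizationMonoid.factors (a ^ 2 + X)) = k}.ncard

/-- `q ^ d (log d) ^ (k - 1) / (2 d (k - 1)!)`. -/
noncomputable def expK (K : Type) [Field K] [Fintype K] (d k : ℕ) : ℝ :=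
  (Fintype.card K : ℝ) ^ d * Real.log d ^ (k - 1) / (2 * d * (k - 1).factorial)

end defs

/-- Final form of the theorem on tuples. -/
def R_tup : Prop :=
  ∀ (K : Type) [Field K] [Fintype K] [CharP K 2] (k : ℕ), 1 ≤ k →
    ∃ (c c₀ : ℝ) (S : (Fin k → K[X]) → ℝ), 0 < c ∧ 0 < c₀ ∧
    (∀ h : Fin k → K[X], Function.Injective h →
      Filter.Tendsto (seriesT h) Filter.atTop (nhds (S h)) ∧
      ((∀ P : K[X], P.Monic → Irreducible P → omega h P < Fintype.card K ^ P.natDegree) →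
        c₀ ≤ S h)) ∧
    ∃ d₀ : ℕ, ∀ d : ℕ, d₀ ≤ d →
      ({h : Fin k → K[X] | (∀ i, (h i).degree < (d : WithBot ℕ)) ∧ Function.Injective h ∧
        (Fintype.card K : ℝ) ^ ((1 - c) * d) <
          |(tuples d h : ℝ) - S h * (Fintype.card K : ℝ) ^ d / (2 * (d : ℝ)) ^ k|}.ncard : ℝ) ≤
        (Fintype.card K : ℝ) ^ ((k - c) * d)

/-- Final form of the binary theorem. -/
def R_binp : Prop :=
  ∀ (K : Type) [Field K] [Fintype K] [CharP K 2], ∃ (c c₀ : ℝ) (S : K[X] → ℝ), 0 < c ∧ 0 < c₀ ∧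
    (∀ n : K[X], Filter.Tendsto (seriesB n) Filter.atTop (nhds (S n)) ∧
      ((∀ P : K[X], P.Monic → Irreducible P → omegaB n P < Fintype.card K ^ P.natDegree) →
        c₀ ≤ S n)) ∧
    ∃ d₀ : ℕ, ∀ d : ℕ, d₀ ≤ d →
      ({n : K[X] | n.degree < (d : WithBot ℕ) ∧ (Fintype.card K : ℝ) ^ ((1 - c) * d) <
          |(repsB d n : ℝ) - S n * (Fintype.card K : ℝ) ^ d / (d * (2 * d))|}.ncard : ℝ) ≤
        (Fintype.card K : ℝ) ^ ((1 - c) * d)

/-- Final form of the theorem on sums of `s ≥ 3`. -/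
def R_ters : Prop :=
  ∀ (K : Type) [Field K] [Fintype K] [CharP K 2] (s : ℕ), 3 ≤ s →
    ∃ (c c₀ : ℝ) (S : K[X] → ℝ), 0 < c ∧ 0 < c₀ ∧
    (∀ n : K[X], Filter.Tendsto (seriesS s n) Filter.atTop (nhds (S n)) ∧
      ((∀ P : K[X], P.Monic → Irreducible P → 0 < rho s n P) → c₀ ≤ S n)) ∧
    ∃ d₀ : ℕ, ∀ (d : ℕ) (n : K[X]), d₀ ≤ d →
      (n + (s : K[X]) * X ^ d).degree < (d : WithBot ℕ) →
      |((repsS (s := s) d n : ℕ) : ℝ) -
        S n * (Fintype.card K : ℝ) ^ ((s - 1) * d) / (2 * (d : ℝ)) ^ s| ≤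
        (Fintype.card K : ℝ) ^ (((s : ℝ) - 1 - c) * d)

/-- Final form of the theorem on exactly `k` factors. -/
def R_exk : Prop :=
  ∀ (K : Type) [Field K] [Fintype K] [CharP K 2],
  (∀ ε : ℝ, 0 < ε → ∃ δ : ℝ, 0 < δ ∧ ∃ d₀ : ℕ, ∀ d k : ℕ, d₀ ≤ d → 1 ≤ k →
    (k : ℝ) ≤ δ * Real.log d → |(numK K d k : ℝ) - expK K d k| ≤ ε * expK K d k) ∧
  (∀ A : ℝ, ∃ c C : ℝ, 0 < c ∧ 0 < C ∧ ∃ d₀ : ℕ, ∀ d k : ℕ, d₀ ≤ d → 1 ≤ k →
    (k : ℝ) ≤ A * Real.log d → c * expK K d k ≤ numK K d k ∧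
      (numK K d k : ℝ) ≤ C * expK K d k)

/-- **Task RTUP.**  For monic irreducible `P`: `P ∣ ∏ i, …` iff `P` divides a factor, so `omega h P` is `om P h`
of `FX/StmT.lean`; the finite product over `PU K y` is the `finprod`; the finite set `Hs K k d` is the
set of the `h` with `deg (h i) < d`. -/
def S_rtup : Prop := S_tup → R_tup

/-- **Task RBINP.**  For monic irreducible `P` there is exactly one class `r` modulo `P` with
`P ∣ r ^ 2 + X`, so `omegaB n P` is `1` if `P ∣ n ^ 2 + X` and `2` otherwise, and the local factor is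
`1 + 1 / (N - 1)` or `1 - 1 / (N - 1) ^ 2`.  For `q = 2` and `P = X`, `P = X + 1` the condition
`omegaB n P < 2` says `n.eval 0 = 0` and `n.eval 1 = 1`. -/
def S_rbinp : Prop := S_binp → R_binp

/-- **Task RTERS.**  For monic irreducible `P`, `N = q ^ deg P`, `r` the root of `X` modulo `P`, the
substitution `a i = r + x i` shows that `rho s n P` is the number of the `x ∈ (F ^ *) ^ s` with sum
`m = n - s r` in the field `F` with `N` elements, which is `((N - 1) ^ s + (-1) ^ s (N - 1)) / N` if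
`m = 0` and `((N - 1) ^ s - (-1) ^ s) / N` otherwise (induction on `s`); `m = 0` iff
`P ∣ n ^ 2 + s X`.  So the local factor is `1 + (-1) ^ s / (N - 1) ^ (s - 1)`, resp.
`1 - (-1) ^ s / (N - 1) ^ s`.  For `q = 2` and `P = X`, `P = X + 1` the condition `0 < rho s n P` says
`n.eval 0 = s` and `n.eval 1 = 0`. -/
def S_rters : Prop := S_ters → R_ters

/-- **Task REXK.**  `NK` of `PK/Stm.lean` counts the prime divisors; `a ^ 2 + X` is squarefree (`SBas`), and
`factors` and `normalizedFactors` have the same cardinality. -/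
def S_rexk : Prop := Pool.Agent.H290.PK.SBas → Pool.Agent.H290.PK.SFinal → R_exk

end Pool.Agent.H290.FX.R
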