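import Mathlib
import Pool.Agent.H290.FX.StmR

/-!
# The final form of the theorem on tuples (task RTUP)
-/

namespace Pool.Agent.H290.FX.PRtup

open Polynomial
open scoped Classical
open Pool.Agent.H694.Typ (Mn PU mem_Mn mem_PU)
open Pool.Agent.H290.FX.R

variable {K : Type} [Field K] [Fintype K]

theorem omega_eq {k : ℕ} (h : Fin k → K[X]) {P : K[X]} (hP : Irreducible P) :
    omega h P = om P h := by
  unfold omega om
  rw [← Set.ncard_coe_finset]
  congr 1
  ext a
  rw [Set.mem_ofPred_eq, Finset.mem_coe, Finset.mem_filter, mem_Vs, degree_eq_natDegree hP.ne_zero,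
    hP.prime.dvd_finsetProd_iff]
  simp only [Finset.mem_univ, true_and]

theorem seriesT_eq {k : ℕ} (h : Fin k → K[X]) (y : ℕ) :
    seriesT h y = ∏ P ∈ PU K y, lf P h := by
  unfold seriesT
  have h1 : {P : K[X] | P.Monic ∧ Irreducible P ∧ P.natDegree ≤ y} =
      ((PU K y : Finset K[X]) : Set K[X]) := by
    ext P
    rw [Set.mem_ofPred_eq, Finset.mem_coe, mem_PU]
  rw [h1, finprod_mem_coe_finset]
  refine Finset.prod_congr rfl fun P hP => ?_
  rw [omega_eq h (mem_PU.1 hP).2.1]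
  rfl

theorem tuples_eq {k : ℕ} (d : ℕ) (h : Fin k → K[X]) :
    tuples d h = ((Mn K d).filter (fun a => ∀ i, Irreducible ((a + h i) ^ 2 + X))).card := by
  unfold tuples
  rw [← Set.ncard_coe_finset]
  congr 1
  ext a
  rw [Set.mem_ofPred_eq, Finset.mem_coe, Finset.mem_filter, mem_Mn, and_assoc]

theorem main : Pool.Agent.H290.FX.R.S_rtup := by
  intro hT K _ _ _ k hk
  obtain ⟨c, c₀, S, hc, hc₀, h1, d₀, h2⟩ := hT K k hk
  refine ⟨c, c₀, S, hc, hc₀, fun h hh => ⟨?_, fun hP => (h1 h hh).2 fun P hPm hPi => ?_⟩, d₀,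
    fun d hd => ?_⟩
  · have e : seriesT h = fun n : ℕ => ∏ P ∈ PU K n, lf P h := funext (seriesT_eq h)
    rw [e]
    exact (h1 h hh).1
  · rw [← omega_eq h hPi]
    exact hP P hPm hPi
  · refine le_trans (le_of_eq ?_) (h2 d hd)
    rw [← Set.ncard_coe_finset]
    congr 2
    ext h
    rw [Set.mem_ofPred_eq, Finset.mem_coe, Finset.mem_filter, tuples_eq]
    unfold Hs
    rw [Fintype.mem_piFinset]
    simp only [mem_Vs]

end Pool.Agent.H290.FX.PRtup
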