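import Pool.Agent.H290.FX.StmSz
import Pool.Agent.H604.LD.FinalP

/-!
# Task SPC: residue classes (helper236, for helper290)

From `Pool.Agent.H604.LD.quadC` and the Chinese remainder theorem.
-/

set_option autoImplicit false

namespace Pool.Agent.H290.FX.PSzc

open Polynomial
open scoped Classical
open Pool.Agent.H290.FX
open Pool.Agent.H290.FX.Sz
open Pool.Agent.H985.KP (PA)
open Pool.Agent.H694.Typ (Mn mem_Mn)

section

variable {K : Type} [Field K]

theorem mod_iff {P : K[X]} (hP : P.Monic) (x y : K[X]) : x %ₘ P = y %ₘ P ↔ P ∣ x - y := by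
  rw [← modByMonic_eq_zero_iff_dvd hP, sub_modByMonic, sub_eq_zero]

theorem mod_lt {P : K[X]} (hP : P.Monic) (x : K[X]) :
    (x %ₘ P).degree < (P.natDegree : WithBot ℕ) := by
  rw [← degree_eq_natDegree hP.ne_zero]
  exact degree_modByMonic_lt x hP

theorem mod_self_of {P u : K[X]} (hP : P.Monic) (hu : u.degree < (P.natDegree : WithBot ℕ)) :
    u %ₘ P = u := by
  rw [modByMonic_eq_self_iff hP, degree_eq_natDegree hP.ne_zero]
  exact hu

theorem dvd_sub_mod {P : K[X]} (hP : P.Monic) (x : K[X]) : P ∣ x - x %ₘ P := by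
  rw [← mod_iff hP]
  exact (mod_self_of hP (mod_lt hP x)).symm

theorem crt2 [Fintype K] {P D : K[X]} (hP : P.Monic) (hD : D.Monic) (hc : IsCoprime P D)
    (A B : K[X] → Prop) (hA : ∀ x y, P ∣ x - y → A x → A y) (hB : ∀ x y, D ∣ x - y → B x → B y) :
    ((Vs K (P.natDegree + D.natDegree)).filter (fun x => A x ∧ B x)).card =
      ((Vs K P.natDegree).filter A).card * ((Vs K D.natDegree).filter B).card := by
  rw [← Finset.card_product]
  refine Finset.card_bij (fun x _ => (x %ₘ P, x %ₘ D)) ?_ ?_ ?_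
  · intro x hx
    rw [Finset.mem_filter] at hx
    rw [Finset.mem_product, Finset.mem_filter, Finset.mem_filter, mem_Vs, mem_Vs]
    exact ⟨⟨mod_lt hP x, hA _ _ (dvd_sub_mod hP x) hx.2.1⟩,
      ⟨mod_lt hD x, hB _ _ (dvd_sub_mod hD x) hx.2.2⟩⟩
  · intro x hx y hy h
    rw [Finset.mem_filter, mem_Vs] at hx hy
    rw [Prod.mk.injEq, mod_iff hP, mod_iff hD] at h
    have h1 : P * D ∣ x - y := hc.mul_dvd h.1 h.2
    by_contra hne
    have h2 := natDegree_le_of_dvd h1 (sub_ne_zero.2 hne)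
    have h3 : (x - y).degree < ((P.natDegree + D.natDegree : ℕ) : WithBot ℕ) :=
      (degree_sub_le x y).trans_lt (max_lt hx.1 hy.1)
    rw [degree_eq_natDegree (sub_ne_zero.2 hne)] at h3
    rw [hP.natDegree_mul hD] at h2
    have h4 : (x - y).natDegree < P.natDegree + D.natDegree := by exact_mod_cast h3
    omega
  · rintro ⟨u, v⟩ huv
    rw [Finset.mem_product, Finset.mem_filter, Finset.mem_filter, mem_Vs, mem_Vs] at huv
    obtain ⟨s, t, hst⟩ := hc
    have hPD := hP.mul hD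
    have hy0 : ∃ y : K[X], y.degree < ((P.natDegree + D.natDegree : ℕ) : WithBot ℕ) ∧
        P ∣ y - u ∧ D ∣ y - v := by
      refine ⟨(u * (t * D) + v * (s * P)) %ₘ (P * D), ?_, ?_, ?_⟩
      · have := mod_lt hPD (u * (t * D) + v * (s * P))
        rwa [hP.natDegree_mul hD] at this
      · obtain ⟨w, hw⟩ := dvd_sub_mod hPD (u * (t * D) + v * (s * P))
        exact ⟨s * (v - u) - D * w, by linear_combination - hw + u * hst⟩
      · obtain ⟨w, hw⟩ := dvd_sub_mod hPD (u * (t * D) + v * (s * P))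
        exact ⟨t * (u - v) - P * w, by linear_combination - hw + v * hst⟩
    obtain ⟨y, hy1, hy2, hy3⟩ := hy0
    have e1 : y %ₘ P = u := ((mod_iff hP y u).2 hy2).trans (mod_self_of hP huv.1.1)
    have e2 : y %ₘ D = v := ((mod_iff hD y v).2 hy3).trans (mod_self_of hD huv.2.1)
    refine ⟨y, ?_, ?_⟩
    · rw [Finset.mem_filter, mem_Vs]
      refine ⟨hy1, hA u y ?_ huv.1.2, hB v y ?_ huv.2.2⟩
      · rw [← neg_sub]
        exact hy2.neg_right
      · rw [← neg_sub]
        exact hy3.neg_right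
    · rw [e1, e2]

theorem crt [Fintype K] (G : K[X] → K[X] → Prop) (T : Finset K[X])
    (hT : ∀ P ∈ T, P.Monic ∧ Irreducible P)
    (hG : ∀ P ∈ T, ∀ x y, P ∣ x - y → G P x → G P y) :
    ((Vs K (∑ P ∈ T, P.natDegree)).filter (fun x => ∀ P ∈ T, G P x)).card =
      ∏ P ∈ T, ((Vs K P.natDegree).filter (G P)).card := by
  induction T using Finset.induction_on with
  | empty => simp [card_Vs]
  | insert P T hPT ih =>
    have hT' : ∀ Q ∈ T, Q.Monic ∧ Irreducible Q := fun Q hQ => hT Q (Finset.mem_insert_of_mem hQ)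
    have hP := hT P (Finset.mem_insert_self P T)
    have hDm : (∏ Q ∈ T, Q).Monic := monic_prod_of_monic _ _ fun Q hQ => (hT' Q hQ).1
    have hDd : (∏ Q ∈ T, Q).natDegree = ∑ Q ∈ T, Q.natDegree :=
      natDegree_prod_of_monic _ _ fun Q hQ => (hT' Q hQ).1
    have hcop : IsCoprime P (∏ Q ∈ T, Q) := by
      refine IsCoprime.prod_right fun Q hQ => ?_
      rw [hP.2.coprime_iff_not_dvd]
      intro h
      have h1 : P = Q := eq_of_monic_of_associated hP.1 (hT' Q hQ).1
        (hP.2.associated_of_dvd (hT' Q hQ).2 h)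
      exact hPT (h1 ▸ hQ)
    have hB : ∀ x y, (∏ Q ∈ T, Q) ∣ x - y → (∀ Q ∈ T, G Q x) → (∀ Q ∈ T, G Q y) := by
      intro x y hxy hx Q hQ
      exact hG Q (Finset.mem_insert_of_mem hQ) x y ((Finset.dvd_prod_of_mem _ hQ).trans hxy) (hx Q hQ)
    have hmul := crt2 hP.1 hDm hcop (G P) (fun x => ∀ Q ∈ T, G Q x)
      (hG P (Finset.mem_insert_self P T)) hB
    have ih' := ih hT' fun Q hQ => hG Q (Finset.mem_insert_of_mem hQ)
    rw [Finset.sum_insert hPT, Finset.prod_insert hPT, ← ih', ← hDd]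
    have key : ((Vs K (P.natDegree + (∏ Q ∈ T, Q).natDegree)).filter
        (fun x => ∀ Q ∈ insert P T, G Q x)) =
        ((Vs K (P.natDegree + (∏ Q ∈ T, Q).natDegree)).filter
          (fun x => G P x ∧ (fun x => ∀ Q ∈ T, G Q x) x)) := by
      apply Finset.filter_congr
      intro x _
      exact Finset.forall_mem_insert P T fun Q => G Q x
    rw [key]
    convert hmul

theorem card_al [Fintype K] [CharP K 2] {α β P : K[X]} (hP : P.Monic) (hi : Irreducible P)
    (hco : IsCoprime α β) :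
    ((al α β P).card : ℝ) = (Fintype.card K : ℝ) ^ P.natDegree *
      (if P ∣ α then 1 else (1 - 1 / (Fintype.card K : ℝ) ^ P.natDegree)) := by
  have hq0 : (0 : ℝ) < (Fintype.card K : ℝ) := by exact_mod_cast Fintype.card_pos
  have two0 : (2 : K[X]) = 0 := by
    have := CharP.cast_eq_zero K[X] 2
    exact_mod_cast this
  unfold al
  by_cases h : P ∣ α
  · rw [if_pos h, mul_one, Finset.filter_true_of_mem, card_Vs]
    · push_cast
      rfl
    · intro x _ h2
      have h3 : P ∣ β := (dvd_add_right (h.mul_right _)).1 h2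
      exact hi.not_isUnit (hco.isUnit_of_dvd' h h3)
  · rw [if_neg h]
    have hinj : Set.InjOn (fun x : K[X] => (α * x ^ 2 + β) %ₘ P) (Vs K P.natDegree) := by
      intro x hx y hy hxy
      rw [Finset.mem_coe, mem_Vs] at hx hy
      have h1 : P ∣ (α * x ^ 2 + β) - (α * y ^ 2 + β) := (mod_iff hP _ _).1 hxy
      have h2 : (α * x ^ 2 + β) - (α * y ^ 2 + β) = α * (x - y) ^ 2 := by
        linear_combination (α * (x * y - y ^ 2)) * two0
      rw [h2] at h1
      have h3 : P ∣ x - y := hi.prime.dvd_of_dvd_pow ((hi.prime.dvd_or_dvd h1).resolve_left h)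
      rw [← mod_self_of hP hx, ← mod_self_of hP hy]
      exact (mod_iff hP _ _).2 h3
    have himg : (Vs K P.natDegree).image (fun x : K[X] => (α * x ^ 2 + β) %ₘ P) =
        Vs K P.natDegree := by
      apply Finset.eq_of_subset_of_card_le
      · intro z hz
        rw [Finset.mem_image] at hz
        obtain ⟨x, _, rfl⟩ := hz
        rw [mem_Vs]
        exact mod_lt hP _
      · rw [Finset.card_image_of_injOn hinj]
    have h0 : (0 : K[X]) ∈ Vs K P.natDegree := by
      rw [mem_Vs, degree_zero]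
      exact WithBot.bot_lt_coe _
    rw [← himg, Finset.mem_image] at h0
    obtain ⟨x₀, hx₀, hx₁⟩ := h0
    have hset : (Vs K P.natDegree).filter (fun x => ¬ P ∣ α * x ^ 2 + β) =
        (Vs K P.natDegree).erase x₀ := by
      ext x
      rw [Finset.mem_filter, Finset.mem_erase, and_comm]
      refine and_congr_left fun hx => not_congr ?_
      rw [← modByMonic_eq_zero_iff_dvd hP]
      constructor
      · intro h1
        exact hinj (Finset.mem_coe.2 hx) (Finset.mem_coe.2 hx₀) (h1.trans hx₁.symm)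
      · rintro rfl
        exact hx₁
    rw [hset, Finset.card_erase_of_mem hx₀, card_Vs, Nat.cast_sub
      (Nat.one_le_iff_ne_zero.2 (pow_ne_zero _ Fintype.card_ne_zero))]
    push_cast
    field_simp

theorem mem_nf {f : K[X]} (hf : f ≠ 0) (P : K[X]) :
    P ∈ UniqueFactorizationMonoid.normalizedFactors f ↔ P.Monic ∧ Irreducible P ∧ P ∣ f := by
  rw [UniqueFactorizationMonoid.mem_normalizedFactors_iff' hf]
  constructor
  · rintro ⟨h1, h2, h3⟩
    refine ⟨?_, h1, h3⟩
    rw [← h2]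
    exact monic_normalize h1.ne_zero
  · rintro ⟨h1, h2, h3⟩
    exact ⟨h2, h1.normalize_eq_self, h3⟩

theorem fin_eq {α : K[X]} (hα : α ≠ 0) (T : Finset K[X]) (hT : ∀ P ∈ T, P.Monic ∧ Irreducible P)
    (g : K[X] → ℝ) :
    ∏ᶠ P ∈ {P : K[X] | P.Monic ∧ Irreducible P ∧ P ∣ α * ∏ Q ∈ T, Q}, g P =
      (∏ᶠ P ∈ PA α, g P) * ∏ P ∈ T, (if P ∣ α then 1 else g P) := by
  have h1 : PA α = ((UniqueFactorizationMonoid.normalizedFactors α).toFinset : Set K[X]) := by
    ext P
    rw [Finset.mem_coe, Multiset.mem_toFinset, mem_nf hα]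
    exact Iff.rfl
  have h2 : {P : K[X] | P.Monic ∧ Irreducible P ∧ P ∣ α * ∏ Q ∈ T, Q} =
      (((UniqueFactorizationMonoid.normalizedFactors α).toFinset ∪ T.filter (fun P => ¬ P ∣ α) :
        Finset K[X]) : Set K[X]) := by
    ext P
    rw [Finset.mem_coe, Finset.mem_union, Multiset.mem_toFinset, mem_nf hα, Finset.mem_filter,
      Set.mem_ofPred_eq]
    constructor
    · rintro ⟨hm, hi, hd⟩
      by_cases h : P ∣ α
      · exact Or.inl ⟨hm, hi, h⟩
      · right
        have h3 := (hi.prime.dvd_or_dvd hd).resolve_left h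
        obtain ⟨Q, hQ, h4⟩ := (hi.prime.dvd_finsetProd_iff _).1 h3
        have h5 : P = Q := eq_of_monic_of_associated hm (hT Q hQ).1
          (hi.associated_of_dvd (hT Q hQ).2 h4)
        exact ⟨h5 ▸ hQ, h⟩
    · rintro (⟨hm, hi, hd⟩ | ⟨hPT, h⟩)
      · exact ⟨hm, hi, hd.mul_right _⟩
      · exact ⟨(hT P hPT).1, (hT P hPT).2, (Finset.dvd_prod_of_mem _ hPT).mul_left _⟩
  rw [h1, h2, finprod_mem_coe_finset, finprod_mem_coe_finset, Finset.prod_union, Finset.prod_filter]
  · congr 1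
    refine Finset.prod_congr rfl fun P _ => ?_
    by_cases h : P ∣ α
    · rw [if_pos h, if_neg (not_not.2 h)]
    · rw [if_neg h, if_pos h]
  · rw [Finset.disjoint_left]
    intro P hP hP'
    rw [Multiset.mem_toFinset, mem_nf hα] at hP
    rw [Finset.mem_filter] at hP'
    exact hP'.2 hP.2.2

end

theorem main : Pool.Agent.H290.FX.Sz.S_spcu := by
  intro K _ _ _
  obtain ⟨δ, θ, hδ, hθ, d₀, h⟩ := Pool.Agent.H604.LD.quadC Pool.Agent.H604.LD.s_bhqc K
  have hq0 : (0 : ℝ) < (Fintype.card K : ℝ) := by exact_mod_cast Fintype.card_pos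
  have hq1 : (1 : ℝ) ≤ (Fintype.card K : ℝ) := by exact_mod_cast Fintype.card_pos
  refine ⟨δ / 2, min (θ / 2) (min (δ / 2) 1), by positivity, by positivity, ?_⟩
  intro k α β a b hα hco hsq
  obtain ⟨d₁, hd₁⟩ := exists_nat_gt
    ((α.natDegree + (derivative (α * β)).natDegree : ℕ) / (θ / 2) : ℝ)
  refine ⟨max d₀ (max d₁ (β.natDegree + 1)), ?_⟩
  intro d T hd hT hTd
  have hdd₀ : d₀ ≤ d := (le_max_left _ _).trans hd
  have hdd₁ : d₁ ≤ d := ((le_max_left _ _).trans (le_max_right _ _)).trans hd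
  have hdβ : β.natDegree + 1 ≤ d := ((le_max_right _ _).trans (le_max_right _ _)).trans hd
  have hd0 : (0 : ℝ) ≤ d := Nat.cast_nonneg d
  set m := ∑ P ∈ T, P.natDegree with hm
  have hm1 : (m : ℝ) ≤ θ / 2 * d := hTd.trans (mul_le_mul_of_nonneg_right (min_le_left _ _) hd0)
  have hm2 : (m : ℝ) ≤ δ / 2 * d := hTd.trans (mul_le_mul_of_nonneg_right
    ((min_le_right _ _).trans (min_le_left _ _)) hd0)
  have hm3 : m ≤ d := by
    have h1 : (m : ℝ) ≤ 1 * d := hTd.trans (mul_le_mul_of_nonneg_right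
      ((min_le_right _ _).trans (min_le_right _ _)) hd0)
    rw [one_mul] at h1
    exact_mod_cast h1
  set D : K[X] := ∏ Q ∈ T, Q with hD
  have hDm : D.Monic := monic_prod_of_monic _ _ fun Q hQ => (hT Q hQ).1
  have hDd : D.natDegree = m := natDegree_prod_of_monic _ _ fun Q hQ => (hT Q hQ).1
  obtain ⟨G, hGi⟩ : ∃ G : K[X] → K[X] → Prop, ∀ P x, G P x ↔
      (¬ P ∣ α * x ^ 2 + β ∧ P ∣ La a b x) := ⟨_, fun _ _ => Iff.rfl⟩
  have hfc : ∀ P x y : K[X], P ∣ x - y → P ∣ α * x ^ 2 + β → P ∣ α * y ^ 2 + β := by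
    rintro P x y ⟨w, hw⟩ ⟨v, hv⟩
    exact ⟨v - w * (α * (x + y)), by linear_combination hv - (α * (x + y)) * hw⟩
  have hLc : ∀ P x y : K[X], Irreducible P → P ∣ x - y → P ∣ La a b x → P ∣ La a b y := by
    intro P x y hP hxy hx
    unfold La at hx ⊢
    rw [hP.prime.dvd_finsetProd_iff] at hx ⊢
    obtain ⟨i, hi, ⟨v, hv⟩⟩ := hx
    obtain ⟨w, hw⟩ := hxy
    exact ⟨i, hi, ⟨v - a i * w, by linear_combination hv - a i * hw⟩⟩
  have hsub : ∀ P x y : K[X], P ∣ x - y → P ∣ y - x := by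
    intro P x y hxy
    rw [← neg_sub]
    exact hxy.neg_right
  have hG : ∀ P ∈ T, ∀ x y, P ∣ x - y → G P x → G P y := by
    intro P hP x y hxy hx
    rw [hGi] at hx ⊢
    exact ⟨fun h1 => hx.1 (hfc P y x (hsub P x y hxy) h1), hLc P x y (hT P hP).2 hxy hx.2⟩
  set S : Finset K[X] := (Vs K m).filter (fun x => ∀ P ∈ T, G P x) with hS
  have hScard : S.card = ∏ P ∈ T, ((Vs K P.natDegree).filter (G P)).card := by
    have h0 := crt G T hT hG
    rw [hS, hm]
    convert h0
  have hSle : (S.card : ℝ) ≤ (Fintype.card K : ℝ) ^ m := by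
    have h1 : S.card ≤ (Vs K m).card := Finset.card_filter_le _ _
    rw [card_Vs] at h1
    exact_mod_cast h1
  -- the degree
  have hfd : ∀ t : K[X], t.Monic → t.natDegree = d →
      (α * t ^ 2 + β).natDegree = 2 * d + α.natDegree := by
    intro t ht htd
    have h1 : (α * t ^ 2).natDegree = 2 * d + α.natDegree := by
      rw [natDegree_mul hα (ht.pow 2).ne_zero, ht.natDegree_pow, htd]
      omega
    rw [natDegree_add_eq_left_of_natDegree_lt (by rw [h1]; omega), h1]
  set A : Finset K[X] := (Mn K d).filter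
    (fun t => Irreducible (α * t ^ 2 + β) ∧ ∀ P ∈ T, P ∣ La a b t) with hA
  have hmaps : Set.MapsTo (fun t : K[X] => t %ₘ D) A S := by
    intro t ht
    rw [Finset.mem_coe, hA, Finset.mem_filter, mem_Mn] at ht
    obtain ⟨⟨ht1, ht2⟩, ht3, ht4⟩ := ht
    rw [Finset.mem_coe, hS, Finset.mem_filter, mem_Vs]
    refine ⟨?_, ?_⟩
    · rw [← hDd]
      exact mod_lt hDm t
    · intro P hP
      have hPD : P ∣ D := Finset.dvd_prod_of_mem _ hP
      refine hG P hP t _ (hPD.trans (dvd_sub_mod hDm t)) ((hGi P t).2 ⟨?_, ht4 P hP⟩)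
      intro h1
      have h2 := (hT P hP).2.associated_of_dvd ht3 h1
      have h3 := natDegree_eq_of_degree_eq (degree_eq_degree_of_associated h2)
      rw [hfd t ht1 ht2] at h3
      have h4 : P.natDegree ≤ m :=
        Finset.single_le_sum (f := fun P : K[X] => P.natDegree) (fun _ _ => Nat.zero_le _) hP
      omega
  have hfib := Finset.card_eq_sum_card_fiberwise hmaps
  set Pd : ℝ := ∏ᶠ P ∈ {P : K[X] | P.Monic ∧ Irreducible P ∧ P ∣ α * D},
    (1 - 1 / (Fintype.card K : ℝ) ^ P.natDegree) with hPd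
  have hx : ∀ x ∈ S, |(2 * (d : ℝ) + α.natDegree) * ((A.filter (fun t => t %ₘ D = x)).card : ℝ) -
      (Fintype.card K : ℝ) ^ (d - m) / Pd| ≤ (Fintype.card K : ℝ) ^ ((1 - δ) * d) := by
    intro x hxS
    rw [hS, Finset.mem_filter, mem_Vs] at hxS
    obtain ⟨hx1, hx2⟩ := hxS
    have hbd : ((α.natDegree + (derivative (α * β)).natDegree + D.natDegree + 0 : ℕ) : ℝ) ≤
        θ * d := by
      have h3 : (d₁ : ℝ) ≤ d := by exact_mod_cast hdd₁
      have h4 := hd₁.le.trans h3
      rw [div_le_iff₀ (by positivity)] at h4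
      rw [hDd]
      push_cast at h4 ⊢
      linarith
    have hcx : IsCoprime (α * x ^ 2 + β) D := by
      refine IsCoprime.prod_right fun P hP => ?_
      rw [isCoprime_comm, (hT P hP).2.coprime_iff_not_dvd]
      exact ((hGi P x).1 (hx2 P hP)).1
    have h1 := h α β (X ^ d) D x d 0 hα hco hDm hcx hsq (by omega) (monic_X_pow d)
      (natDegree_X_pow d) hdd₀ hbd
    have hset : {t : K[X] | D ∣ t - x ∧ (t - X ^ d).degree < ((d - 0 : ℕ) : WithBot ℕ) ∧
        Irreducible (α * t ^ 2 + β)} =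
        ((A.filter (fun t => t %ₘ D = x) : Finset K[X]) : Set K[X]) := by
      ext t
      rw [Set.mem_ofPred_eq, Finset.mem_coe, Finset.mem_filter, hA, Finset.mem_filter, mem_Mn,
        Nat.sub_zero, Pool.Agent.H604.LD.interval_eq (monic_X_pow d) (natDegree_X_pow d)]
      have h5 : x %ₘ D = x := mod_self_of hDm (by rw [hDd]; exact hx1)
      have e : t %ₘ D = x ↔ D ∣ t - x := by
        rw [← mod_iff hDm t x, h5]
      rw [e]
      constructor
      · rintro ⟨h2, h3, h4⟩
        refine ⟨⟨h3, h4, fun P hP => ?_⟩, h2⟩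
        exact hLc P x t (hT P hP).2
          (hsub P t x ((Finset.dvd_prod_of_mem _ hP).trans h2)) ((hGi P x).1 (hx2 P hP)).2
      · rintro ⟨⟨h3, h4, _⟩, h2⟩
        exact ⟨h2, h3, h4⟩
    rw [hset, Set.ncard_coe_finset, hDd, Nat.sub_zero] at h1
    exact h1
  set L : ℝ := 2 * (d : ℝ) + α.natDegree with hL
  have hL1 : 1 ≤ L := by
    have h1 : 1 ≤ 2 * d + α.natDegree := by omega
    rw [hL]
    exact_mod_cast h1
  have hL0 : 0 < L := by linarith
  set Y : ℝ := (Fintype.card K : ℝ) ^ (d - m) / Pd with hY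
  have hsum : |L * (A.card : ℝ) - S.card * Y| ≤ S.card * (Fintype.card K : ℝ) ^ ((1 - δ) * d) := by
    have e : L * (A.card : ℝ) - S.card * Y =
        ∑ x ∈ S, (L * ((A.filter (fun t => t %ₘ D = x)).card : ℝ) - Y) := by
      rw [Finset.sum_sub_distrib, ← Finset.mul_sum, Finset.sum_const, nsmul_eq_mul, hfib]
      push_cast
      rfl
    rw [e]
    refine (Finset.abs_sum_le_sum_abs _ _).trans ((Finset.sum_le_sum hx).trans ?_)
    rw [Finset.sum_const, nsmul_eq_mul]
  -- the main term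
  have hloc : ∀ P ∈ T, (0 : ℝ) < 1 - 1 / (Fintype.card K : ℝ) ^ P.natDegree := by
    intro P hP
    have h1 : 1 < (Fintype.card K : ℝ) ^ P.natDegree :=
      one_lt_pow₀ (by exact_mod_cast Fintype.one_lt_card) (hT P hP).2.natDegree_pos.ne'
    rw [sub_pos, div_lt_one (by positivity)]
    exact h1
  have hmain : S.card * Y / L = Xd K α d * ∏ P ∈ T, wt α β a b P := by
    have h1 : ∀ P ∈ T, wt α β a b P = (((Vs K P.natDegree).filter (G P)).card : ℝ) /
        ((Fintype.card K : ℝ) ^ P.natDegree *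
          (if P ∣ α then 1 else (1 - 1 / (Fintype.card K : ℝ) ^ P.natDegree))) := by
      intro P hP
      unfold wt
      rw [card_al (hT P hP).1 (hT P hP).2 hco]
      congr 2
      unfold al
      rw [Finset.filter_filter]
      exact congrArg Finset.card (Finset.filter_congr fun x _ => (hGi P x).symm)
    rw [Finset.prod_congr rfl h1, Finset.prod_div_distrib, Finset.prod_mul_distrib,
      Finset.prod_pow_eq_pow_sum, ← hm, hY, hPd, fin_eq hα T hT, hScard]
    push_cast
    unfold Xd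
    rw [← hL, pow_sub₀ _ hq0.ne' hm3]
    have h2 : (0 : ℝ) < ∏ P ∈ T, (if P ∣ α then 1 else
        (1 - 1 / (Fintype.card K : ℝ) ^ P.natDegree)) := by
      refine Finset.prod_pos fun P hP => ?_
      split_ifs
      · exact one_pos
      · exact hloc P hP
    simp only [div_eq_mul_inv, mul_inv]
    ring
  rw [← hmain]
  have h1 : (A.card : ℝ) - S.card * Y / L = (L * (A.card : ℝ) - S.card * Y) / L := by
    field_simp
  rw [h1, abs_div, abs_of_pos hL0]
  calc |L * (A.card : ℝ) - S.card * Y| / L ≤ |L * (A.card : ℝ) - S.card * Y| :=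
        div_le_self (abs_nonneg _) hL1
    _ ≤ S.card * (Fintype.card K : ℝ) ^ ((1 - δ) * d) := hsum
    _ ≤ (Fintype.card K : ℝ) ^ m * (Fintype.card K : ℝ) ^ ((1 - δ) * d) :=
        mul_le_mul_of_nonneg_right hSle (Real.rpow_nonneg hq0.le _)
    _ = (Fintype.card K : ℝ) ^ ((m : ℝ) + (1 - δ) * d) := by
        rw [Real.rpow_add hq0, Real.rpow_natCast]
    _ ≤ (Fintype.card K : ℝ) ^ ((1 - δ / 2) * d) :=
        Real.rpow_le_rpow_of_exponent_le hq1 (by linarith)

end Pool.Agent.H290.FX.PSzc
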