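import Pool.Agent.H290.FX.StmSg

/-!
# Task SPF (helper290)
-/

set_option autoImplicit false

namespace Pool.Agent.H290.FX.PSgf

open Polynomial
open scoped Classical
open Pool.Agent.H290.FX
open Pool.Agent.H290.FX.Sg
open Pool.Agent.H694.Typ (Mn PU mem_Mn)

theorem cop {K : Type} [Field K] {k : ℕ} {α β : K[X]} {a b : Fin k → K[X]} {e : Fin k → ℕ}
    (hα : α ≠ 0) (h : Adm α β a b e) : IsCoprime α β := by
  by_contra hc
  have h1 : ∃ P : K[X], Irreducible P ∧ P ∣ α ∧ P ∣ β := by
    by_contra h2
    push Not at h2
    apply hc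
    apply isCoprime_of_irreducible_dvd
    · rintro ⟨h3, -⟩
      exact hα h3
    · intro P hP h3 h4
      exact h2 P hP h3 h4
  obtain ⟨P, hP, h2, h3⟩ := h1
  obtain ⟨x, hx, -⟩ := h (normalize P) (monic_normalize hP.ne_zero)
    ((associated_normalize P).irreducible hP)
  exact hx ((normalize_dvd_iff).2 (dvd_add (h2.mul_right _) h3))

theorem main : S_tspf := by
  intro hspa K _ _ _ k E
  obtain ⟨η, hη, H⟩ := hspa K k
  obtain ⟨r, hr⟩ := exists_nat_gt ((2 ^ E + 1) / η)
  refine ⟨r, ?_⟩
  intro α β a b e hα hsq ha hE hadm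
  obtain ⟨δ, d₀, hδ, h⟩ := H α β a b e hα (cop hα hadm) hsq hadm
  obtain ⟨d₁, hd₁⟩ := exists_nat_gt (1 / η)
  refine ⟨δ, max d₀ (max d₁ (∑ i, ((a i).natDegree + (b i).natDegree) + 1)), hδ, ?_⟩
  intro d hd
  have hdd₀ : d₀ ≤ d := le_trans (le_max_left _ _) hd
  have hdd₁ : d₁ ≤ d := le_trans (le_trans (le_max_left _ _) (le_max_right _ _)) hd
  have hdd₂ : ∑ i, ((a i).natDegree + (b i).natDegree) + 1 ≤ d :=
    le_trans (le_trans (le_max_right _ _) (le_max_right _ _)) hd
  refine (h d hdd₀).trans ?_
  have hη1 : 1 ≤ η * d := by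
    have h1 : 1 / η < (d : ℝ) := hd₁.trans_le (by exact_mod_cast hdd₁)
    rw [div_lt_iff₀ hη] at h1
    linarith
  have hd0 : (0 : ℝ) < d := by
    have : 1 ≤ d := by omega
    exact_mod_cast this
  have hr0 : (2 : ℝ) ^ E + 1 < r * η := by
    rwa [div_lt_iff₀ hη] at hr
  have h2E : (1 : ℝ) ≤ 2 ^ E := one_le_pow₀ (by norm_num)
  have hr' : 2 < r * η := by linarith
  rw [← Set.ncard_coe_finset]
  have hfin : {t : K[X] | t.Monic ∧ t.natDegree = d ∧ Irreducible (α * t ^ 2 + β) ∧
      ∀ i, Multiset.card (UniqueFactorizationMonoid.factors (a i * t ^ (2 ^ e i) + b i)) ≤ r ∧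
        ∀ P : K[X], Irreducible P → P ∣ a i * t ^ (2 ^ e i) + b i → d ≤ r * P.natDegree}.Finite := by
    apply (Mn K d).finite_toSet.subset
    rintro t ⟨h1, h2, -⟩
    rw [Finset.mem_coe, mem_Mn]
    exact ⟨h1, h2⟩
  refine Nat.cast_le.2 (Set.ncard_le_ncard ?_ hfin)
  · intro t ht
    rw [Finset.mem_coe, Finset.mem_filter, mem_Mn] at ht
    obtain ⟨⟨ht1, ht2⟩, ht3, ht4⟩ := ht
    have hne : ∀ i, a i * t ^ (2 ^ e i) + b i ≠ 0 := by
      intro i hi
      have h1 : La a b e t = 0 := Finset.prod_eq_zero (Finset.mem_univ i) hi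
      apply ht4 X monic_X irreducible_X
      · rw [natDegree_X]
        exact_mod_cast hη1
      · rw [h1]
        exact dvd_zero _
    have hdiv : ∀ i, ∀ P : K[X], Irreducible P → P ∣ a i * t ^ (2 ^ e i) + b i → η * d < P.natDegree := by
      intro i P hP hPd
      by_contra hc
      push Not at hc
      apply ht4 (normalize P) (monic_normalize hP.ne_zero)
        ((associated_normalize P).irreducible hP)
      · rw [natDegree_eq_of_degree_eq (degree_eq_degree_of_associated (normalize_associated P))]
        exact hc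
      · exact (normalize_dvd_iff).2 (hPd.trans (Finset.dvd_prod_of_mem _ (Finset.mem_univ i)))
    refine ⟨ht1, ht2, ht3, fun i => ⟨?_, ?_⟩⟩
    · have hsum : ((UniqueFactorizationMonoid.factors (a i * t ^ (2 ^ e i) + b i)).map natDegree).sum =
          (a i * t ^ (2 ^ e i) + b i).natDegree := by
        have h1 : (UniqueFactorizationMonoid.factors (a i * t ^ (2 ^ e i) + b i)).prod.natDegree =
            (a i * t ^ (2 ^ e i) + b i).natDegree :=
          natDegree_eq_of_degree_eq
            (degree_eq_degree_of_associated (UniqueFactorizationMonoid.factors_prod (hne i)))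
        rw [← h1, natDegree_multiset_prod]
        intro h0
        exact UniqueFactorizationMonoid.irreducible_of_factor 0 h0 |>.ne_zero rfl
      have hdeg : (a i * t ^ (2 ^ e i) + b i).natDegree ≤ (2 ^ E + 1) * d := by
        have h1 : (a i).natDegree + (b i).natDegree ≤
            ∑ i, ((a i).natDegree + (b i).natDegree) :=
          Finset.single_le_sum (f := fun i => (a i).natDegree + (b i).natDegree)
            (fun _ _ => Nat.zero_le _) (Finset.mem_univ i)
        have h3 : 1 ≤ 2 ^ E := Nat.one_le_two_pow
        have h4 : 2 ^ e i * d ≤ 2 ^ E * d :=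
          Nat.mul_le_mul_right d (Nat.pow_le_pow_right (by norm_num) (hE i))
        have h5 : (2 ^ E + 1) * d = 2 ^ E * d + d := by ring
        refine (natDegree_add_le _ _).trans (max_le ?_ (by omega))
        refine natDegree_mul_le.trans ?_
        rw [ht1.natDegree_pow, ht2]
        omega
      have hcard : ((Multiset.card (UniqueFactorizationMonoid.factors (a i * t ^ (2 ^ e i) + b i)) : ℕ) : ℝ) *
          (η * d) ≤ (2 ^ E + 1) * d := by
        have h2 : ((Multiset.card (UniqueFactorizationMonoid.factors (a i * t ^ (2 ^ e i) + b i)) : ℕ) : ℝ) *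
            (η * d) ≤
            (((UniqueFactorizationMonoid.factors (a i * t ^ (2 ^ e i) + b i)).map natDegree).sum : ℕ) := by
          have key : ∀ s : Multiset K[X], (∀ P ∈ s, η * d < (P.natDegree : ℝ)) →
              ((Multiset.card s : ℕ) : ℝ) * (η * d) ≤ ((s.map natDegree).sum : ℕ) := by
            intro s
            induction s using Multiset.induction_on with
            | empty => intro _; simp
            | cons P s ih =>
              intro hs
              have h3 := ih (fun Q hQ => hs Q (Multiset.mem_cons_of_mem hQ))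
              have h4 := hs P (Multiset.mem_cons_self P s)
              rw [Multiset.card_cons, Multiset.map_cons, Multiset.sum_cons]
              push_cast
              push_cast at h3
              nlinarith
          apply key
          intro P hP
          exact hdiv i P (UniqueFactorizationMonoid.irreducible_of_factor P hP)
            (UniqueFactorizationMonoid.dvd_of_mem_factors hP)
        rw [hsum] at h2
        refine h2.trans ?_
        exact_mod_cast hdeg
      by_contra hc
      push Not at hc
      have h5 : (r : ℝ) < (Multiset.card (UniqueFactorizationMonoid.factors (a i * t ^ (2 ^ e i) + b i)) : ℕ) := by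
        exact_mod_cast hc
      have h6 : (r : ℝ) * (η * d) ≤ (2 ^ E + 1) * d :=
        (mul_le_mul_of_nonneg_right h5.le (by positivity)).trans hcard
      have h7 : (r * η) * (d : ℝ) ≤ (2 ^ E + 1) * d := by linarith
      have h8 : r * η ≤ 2 ^ E + 1 := le_of_mul_le_mul_right h7 hd0
      linarith
    · intro P hP hPd
      have h1 := hdiv i P hP hPd
      have h2 : (d : ℝ) ≤ r * P.natDegree := by
        have h3 : (r : ℝ) * (η * d) ≤ r * P.natDegree :=
          mul_le_mul_of_nonneg_left h1.le (Nat.cast_nonneg r)
        nlinarith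
      exact_mod_cast h2

end Pool.Agent.H290.FX.PSgf
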