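import Pool.Agent.H290.FX.StmSz

/-!
# Project SZ, task SPW: the local densities (helper737)
-/

set_option autoImplicit false

namespace Pool.Agent.H290.FX.PSzw

open Polynomial
open scoped Classical
open Pool.Agent.H290.FX
open Pool.Agent.H290.FX.Sz

theorem sub_eq {K : Type} [Field K] [Fintype K] {P x y : K[X]}
    (hx : x ∈ Vs K P.natDegree) (hy : y ∈ Vs K P.natDegree) (hP : P ≠ 0) (h : P ∣ x - y) :
    x = y := by
  rw [mem_Vs] at hx hy
  by_contra hne
  have h1 : x - y ≠ 0 := sub_ne_zero.2 hne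
  have h2 : P.degree ≤ (x - y).degree := degree_le_of_dvd h h1
  have h3 : (x - y).degree < (P.natDegree : WithBot ℕ) :=
    lt_of_le_of_lt (degree_sub_le x y) (max_lt hx hy)
  rw [degree_eq_natDegree hP] at h2
  exact absurd h2 (not_le.2 h3)

theorem compl_card {K : Type} [Field K] [Fintype K] [CharP K 2] {α β P : K[X]}
    (hc : IsCoprime α β) (hP : P.Monic) (hI : Irreducible P) :
    ((Vs K P.natDegree).filter (fun x => P ∣ α * x ^ 2 + β)).card ≤ 1 := by
  rw [Finset.card_le_one]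
  intro x hx y hy
  rw [Finset.mem_filter] at hx hy
  refine sub_eq hx.1 hy.1 hP.ne_zero ?_
  have h1 : P ∣ α * (x - y) ^ 2 := by
    have h2 := dvd_sub hx.2 hy.2
    have h3 : (α * x ^ 2 + β) - (α * y ^ 2 + β) = α * (x - y) ^ 2 := by
      rw [CharTwo.sub_eq_add x y, CharTwo.add_sq, CharTwo.sub_eq_add]
      rw [mul_add]
      have h4 : β + β = 0 := CharTwo.add_self_eq_zero β
      linear_combination h4
    rwa [h3] at h2
  rcases hI.prime.dvd_or_dvd h1 with h2 | h2
  · exfalso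
    have h3 : P ∣ β := by
      have h4 := dvd_sub hx.2 (h2.mul_right (x ^ 2))
      rwa [add_sub_cancel_left] at h4
    exact hI.not_isUnit (hc.isUnit_of_dvd' h2 h3)
  · exact hI.prime.dvd_of_dvd_pow h2

theorem lin_card {K : Type} [Field K] [Fintype K] {a b P : K[X]}
    (hP : P.Monic) (hI : Irreducible P) (h : ∃ x : K[X], ¬ P ∣ a * x + b) :
    ((Vs K P.natDegree).filter (fun x => P ∣ a * x + b)).card ≤ 1 := by
  rw [Finset.card_le_one]
  intro x hx y hy
  rw [Finset.mem_filter] at hx hy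
  refine sub_eq hx.1 hy.1 hP.ne_zero ?_
  have h1 : P ∣ a * (x - y) := by
    have h2 := dvd_sub hx.2 hy.2
    have h3 : (a * x + b) - (a * y + b) = a * (x - y) := by ring
    rwa [h3] at h2
  rcases hI.prime.dvd_or_dvd h1 with h2 | h2
  · exfalso
    obtain ⟨z, hz⟩ := h
    apply hz
    have h3 : P ∣ b := by
      have h4 := dvd_sub hx.2 (h2.mul_right x)
      rwa [add_sub_cancel_left] at h4
    exact dvd_add (h2.mul_right z) h3
  · exact h2

theorem num_card {K : Type} [Field K] [Fintype K] {k : ℕ} {α β P : K[X]} {a b : Fin k → K[X]}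
    (hP : P.Monic) (hI : Irreducible P) (h : ∃ x : K[X], ∀ i, ¬ P ∣ a i * x + b i) :
    ((al α β P).filter (fun x => P ∣ La a b x)).card ≤ k := by
  obtain ⟨x₀, hx₀⟩ := h
  have h1 : (al α β P).filter (fun x => P ∣ La a b x) ⊆
      (Finset.univ : Finset (Fin k)).biUnion fun i =>
        (Vs K P.natDegree).filter (fun x => P ∣ a i * x + b i) := by
    intro x hx
    rw [Finset.mem_filter] at hx
    obtain ⟨hx1, hx2⟩ := hx
    unfold al at hx1
    rw [Finset.mem_filter] at hx1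
    unfold La at hx2
    rw [hI.prime.dvd_finset_prod_iff] at hx2
    obtain ⟨i, -, hi⟩ := hx2
    rw [Finset.mem_biUnion]
    exact ⟨i, Finset.mem_univ i, Finset.mem_filter.2 ⟨hx1.1, hi⟩⟩
  refine (Finset.card_le_card h1).trans (Finset.card_biUnion_le.trans ?_)
  refine (Finset.sum_le_sum (g := fun _ => 1) fun i _ => lin_card hP hI ⟨x₀, hx₀ i⟩).trans ?_
  simp

theorem mod_dvd {K : Type} [Field K] {P x : K[X]} (hP : P.Monic) : P ∣ x - x %ₘ P := by
  have h := modByMonic_add_div x P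
  exact ⟨x /ₘ P, by linear_combination -h⟩

theorem ex_mem {K : Type} [Field K] [Fintype K] {k : ℕ} {α β P : K[X]} {a b : Fin k → K[X]}
    (hP : P.Monic) (hI : Irreducible P)
    (h : ∃ x : K[X], ¬ P ∣ α * x ^ 2 + β ∧ ∀ i, ¬ P ∣ a i * x + b i) :
    ∃ y ∈ al α β P, ¬ P ∣ La a b y := by
  obtain ⟨x, hx1, hx2⟩ := h
  have hd := mod_dvd (x := x) hP
  refine ⟨x %ₘ P, ?_, ?_⟩
  · unfold al
    rw [Finset.mem_filter, mem_Vs]
    refine ⟨?_, ?_⟩
    · have h1 := degree_modByMonic_lt x hP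
      rwa [degree_eq_natDegree hP.ne_zero] at h1
    · intro h2
      apply hx1
      have h3 : α * x ^ 2 + β = (α * (x %ₘ P) ^ 2 + β) +
          (x - x %ₘ P) * (α * (x + x %ₘ P)) := by ring
      rw [h3]
      exact dvd_add h2 (hd.mul_right _)
  · unfold La
    rw [hI.prime.dvd_finset_prod_iff]
    rintro ⟨i, -, hi⟩
    apply hx2 i
    have h3 : a i * x + b i = (a i * (x %ₘ P) + b i) + (x - x %ₘ P) * a i := by ring
    rw [h3]
    exact dvd_add hi (hd.mul_right _)

theorem main : Pool.Agent.H290.FX.Sz.S_spw := by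
  intro K _ _ _ k
  refine ⟨2 * k + 2, ?_, ?_⟩
  · have : (0 : ℝ) ≤ k := Nat.cast_nonneg k
    linarith
  intro α β a b hα hc hA P hP hI
  have hk : (0 : ℝ) ≤ k := Nat.cast_nonneg k
  obtain ⟨x, hx1, hx2⟩ := hA P hP hI
  obtain ⟨y, hy1, hy2⟩ := ex_mem hP hI ⟨x, hx1, hx2⟩
  have hn := num_card (α := α) (β := β) hP hI ⟨x, hx2⟩
  have hcc := compl_card hc hP hI
  set n := ((al α β P).filter (fun x => P ∣ La a b x)).card with hndef
  set m := (al α β P).card with hmdef
  set Q := Fintype.card K ^ P.natDegree with hQ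
  have hmQ : m ≤ Q := by
    rw [hmdef, hQ, ← card_Vs]
    exact Finset.card_le_card (Finset.filter_subset _ _)
  have hQm : Q ≤ m + 1 := by
    have h1 := Finset.card_filter_add_card_filter_not (s := Vs K P.natDegree)
      (fun x => P ∣ α * x ^ 2 + β)
    rw [card_Vs] at h1
    have h2 : m = ((Vs K P.natDegree).filter (fun x => ¬ P ∣ α * x ^ 2 + β)).card := rfl
    omega
  have hnm : n + 1 ≤ m := by
    have h1 : (al α β P).filter (fun x => P ∣ La a b x) ⊂ al α β P := by
      rw [Finset.ssubset_iff_of_subset (Finset.filter_subset _ _)]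
      exact ⟨y, hy1, fun h => hy2 (Finset.mem_filter.1 h).2⟩
    exact Finset.card_lt_card h1
  have hm0 : (0 : ℝ) < m := by
    have : 0 < m := by omega
    exact_mod_cast this
  have hw : wt α β a b P = (n : ℝ) / m := rfl
  have hQr : ((Fintype.card K : ℝ) ^ P.natDegree) = (Q : ℝ) := by
    rw [hQ]; push_cast; rfl
  rw [hw, hQr]
  have r1 : (n : ℝ) + 1 ≤ m := by exact_mod_cast hnm
  have r2 : (m : ℝ) ≤ Q := by exact_mod_cast hmQ
  have r3 : (Q : ℝ) ≤ m + 1 := by exact_mod_cast hQm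
  have r4 : (n : ℝ) ≤ k := by exact_mod_cast hn
  have hn0 : (0 : ℝ) ≤ n := Nat.cast_nonneg n
  have h3 : (n : ℝ) / m * (Q - 1) ≤ k := by
    have h4 : (n : ℝ) / m * (Q - 1) ≤ (n : ℝ) / m * m :=
      mul_le_mul_of_nonneg_left (by linarith) (div_nonneg hn0 hm0.le)
    rw [div_mul_cancel₀ _ hm0.ne'] at h4
    linarith
  refine ⟨div_nonneg hn0 hm0.le, ?_, h3⟩
  have hC : (0 : ℝ) < 2 * k + 2 := by linarith
  by_cases hq : (Q : ℝ) ≤ 2 * k + 2
  · have h5 : (n : ℝ) / m ≤ 1 - 1 / m := by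
      rw [div_le_iff₀ hm0, sub_mul, one_div_mul_cancel hm0.ne']
      linarith
    have h6 : 1 / (2 * (k : ℝ) + 2) ≤ 1 / m := one_div_le_one_div_of_le hm0 (by linarith)
    linarith
  · push Not at hq
    have hw0 : 0 ≤ (n : ℝ) / m := div_nonneg hn0 hm0.le
    have h7 : (n : ℝ) / m * (2 * k + 1) ≤ k := by
      refine (mul_le_mul_of_nonneg_left ?_ hw0).trans h3
      linarith
    have h8 : (n : ℝ) / m ≤ 1 / 2 := by
      by_contra hlt
      push Not at hlt
      nlinarith
    have h9 : 1 / (2 * (k : ℝ) + 2) ≤ 1 / 2 := one_div_le_one_div_of_le (by norm_num) (by linarith)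
    linarith

end Pool.Agent.H290.FX.PSzw
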