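import Pool.Agent.H290.FX.StmSu
import Pool.Agent.H290.FX.PSzab

/-!
# Task SPA: the sieve, uniform version (helper363, helper290)
-/

set_option autoImplicit false

namespace Pool.Agent.H290.FX.PSua

open Polynomial
open scoped Classical
open Pool.Agent.H290.FX
open Pool.Agent.H290.FX.Sz (al Xd S_spm)
open Pool.Agent.H290.FX.Sg (La wt Adm S_spw)
open Pool.Agent.H290.FX.Su
open Pool.Agent.H290.FX.PSzab hiding main
open Pool.Agent.H985.KP (PA)
open Pool.Agent.H694.Typ (Mn PU mem_Mn card_Mn mem_PU)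

theorem main : S_tspa := by
  intro hbrun hspc hspm hspw K _ _ _ k
  have hq := q_ge_two (K := K)
  obtain ⟨C, hC, hspw⟩ := hspw K k
  obtain ⟨A, hbrun⟩ := hbrun (C + 4 * k) (1 / 2) (by positivity) (by norm_num)
  obtain ⟨c, θ, hc, hθ, d₀, hspc⟩ := hspc K
  obtain ⟨c₁, hc₁, hspm⟩ := hspm K k C hC
  obtain ⟨q, hqdef⟩ : ∃ q : ℝ, q = (Fintype.card K : ℝ) := ⟨_, rfl⟩
  rw [← hqdef] at hq
  have hq0 : 0 < q := by linarith
  -- the constant `η`
  obtain ⟨η, hη, hη1, hηθ, hηc⟩ : ∃ η : ℝ, 0 < η ∧ η ≤ 1 ∧ A * η ≤ θ ∧ A * η ≤ c / 2 := by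
    refine ⟨min (min θ (c / 2)) 1 / (A + 1), by positivity, ?_, ?_, ?_⟩
    · rw [div_le_one (by positivity)]
      have h1 : min (min θ (c / 2)) 1 ≤ 1 := min_le_right _ _
      have h2 : (0 : ℝ) ≤ A := Nat.cast_nonneg A
      linarith
    · have h1 : min (min θ (c / 2)) 1 ≤ θ := (min_le_left _ _).trans (min_le_left _ _)
      have h0 : 0 < min (min θ (c / 2)) 1 := by positivity
      rw [mul_div_assoc', div_le_iff₀ (by positivity)]
      have h2 : (0 : ℝ) ≤ A := Nat.cast_nonneg A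
      nlinarith
    · have h1 : min (min θ (c / 2)) 1 ≤ c / 2 := (min_le_left _ _).trans (min_le_right _ _)
      have h0 : 0 < min (min θ (c / 2)) 1 := by positivity
      rw [mul_div_assoc', div_le_iff₀ (by positivity)]
      have h2 : (0 : ℝ) ≤ A := Nat.cast_nonneg A
      nlinarith
  obtain ⟨r, hr⟩ : ∃ r : ℝ, r = q ^ (-(c / 2)) := ⟨_, rfl⟩
  have hr0 : 0 < r := by rw [hr]; exact Real.rpow_pos_of_pos hq0 _
  have hr1 : r < 1 := by
    rw [hr]
    exact Real.rpow_lt_one_of_one_lt_of_neg (by linarith) (by linarith)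
  have hlim := tendsto_pow_const_mul_const_pow_of_lt_one (k + 1) hr0.le hr1
  obtain ⟨d₁, hd₁⟩ := (Metric.tendsto_atTop.1 hlim) (c₁ / 12 / q) (by positivity)
  obtain ⟨d₂, hd₂⟩ := exists_nat_ge (1 / η)
  refine ⟨η, min θ 1, c₁ / 12, hη, by positivity, by positivity, d₀ + d₁ + d₂ + 1, ?_⟩
  intro α β a b ex hα hαβ hsq hadm d hd hαd hβd
  have hw := hspw α β a b ex hα hαβ hadm
  have hαd1 : (α.natDegree : ℝ) ≤ θ * d :=
    hαd.trans (mul_le_mul_of_nonneg_right (min_le_left _ _) (Nat.cast_nonneg d))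
  have hβd1 : (β.natDegree : ℝ) ≤ θ * d :=
    hβd.trans (mul_le_mul_of_nonneg_right (min_le_left _ _) (Nat.cast_nonneg d))
  have hαd2 : (α.natDegree : ℝ) ≤ 1 * d :=
    hαd.trans (mul_le_mul_of_nonneg_right (min_le_right _ _) (Nat.cast_nonneg d))
  have hspc := fun T : Finset K[X] => hspc k α β a b ex hα hαβ hsq d T (by omega) hαd1 hβd1
  have hd1 : 1 ≤ d := by omega
  have hd1' : (1 : ℝ) ≤ d := by exact_mod_cast hd1
  have hd0 : (0 : ℝ) < d := by linarith
  have hrd : (d : ℝ) ^ (k + 1) * r ^ d ≤ c₁ / 12 / q := by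
    have h1 := hd₁ d (by omega)
    rw [Real.dist_eq, sub_zero, abs_of_nonneg (by positivity)] at h1
    exact h1.le
  obtain ⟨m, hm⟩ : ∃ m : ℕ, m = ⌊η * d⌋₊ := ⟨_, rfl⟩
  have hmle : (m : ℝ) ≤ η * d := by rw [hm]; exact Nat.floor_le (by positivity)
  have hm1 : 1 ≤ m := by
    rw [hm]
    apply Nat.le_floor
    rw [Nat.cast_one]
    have h1 : (d₂ : ℝ) ≤ d := by exact_mod_cast (by omega : d₂ ≤ d)
    have h2 := hd₂.trans h1
    rw [div_le_iff₀ hη] at h2
    linarith
  have hmd : (m : ℝ) ≤ d := by nlinarith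
  -- the sieve weights
  have hC0 : 0 < C := by linarith
  have hk0 : (0 : ℝ) ≤ k := Nat.cast_nonneg k
  obtain ⟨U, V, hUV, hsupp, -, hV, -, hlow⟩ := hbrun K[X] (PU K m) Polynomial.natDegree
    (wt α β a b ex) m
    (fun P hP => by
      obtain ⟨h1, h2, h3⟩ := mem_PU.1 hP
      exact ⟨h2.natDegree_pos, h3⟩)
    (fun P hP => by
      obtain ⟨h1, h2, h3⟩ := mem_PU.1 hP
      obtain ⟨g1, g2, -⟩ := hw P h1 h2
      refine ⟨g1, g2.trans ?_⟩
      have : 1 / (C + 4 * k) ≤ 1 / C := one_div_le_one_div_of_le hC0 (by linarith)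
      linarith)
    (fun y => by
      have h1 := dyad (K := K) (k := k) (w := wt α β a b ex)
        (fun P h1 h2 => ⟨(hw P h1 h2).1, (hw P h1 h2).2.2⟩) m y
      linarith)
  -- the lower bound
  set S₀ := (Mn K d).filter (fun t => Irreducible (α * t ^ 2 + β)) with hS₀
  have hex := exch S₀ (PU K m) (La a b ex) V (fun B hB => ⟨fun h => by
      have h1 := hV B hB
      rwa [if_pos h] at h1, fun h => by
      have h1 := hV B hB
      rwa [if_neg h] at h1⟩)
  have htar : ((S₀.filter (fun t => ∀ P ∈ PU K m, ¬ P ∣ La a b ex t)).card : ℝ) ≤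
      (((Mn K d).filter (fun t => Irreducible (α * t ^ 2 + β) ∧
            ∀ P : K[X], P.Monic → Irreducible P → (P.natDegree : ℝ) ≤ η * d →
              ¬ P ∣ La a b ex t)).card : ℝ) := by
    have h1 : S₀.filter (fun t => ∀ P ∈ PU K m, ¬ P ∣ La a b ex t) ⊆
        (Mn K d).filter (fun t => Irreducible (α * t ^ 2 + β) ∧
            ∀ P : K[X], P.Monic → Irreducible P → (P.natDegree : ℝ) ≤ η * d →
              ¬ P ∣ La a b ex t) := by
      intro t ht
      obtain ⟨h1, h2⟩ := Finset.mem_filter.1 ht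
      obtain ⟨h3, h4⟩ := Finset.mem_filter.1 h1
      refine Finset.mem_filter.2 ⟨h3, h4, fun P hP1 hP2 hP3 => h2 P ?_⟩
      refine mem_PU.2 ⟨hP1, hP2, ?_⟩
      rw [hm]
      exact Nat.le_floor hP3
    exact_mod_cast Finset.card_le_card h1
  refine le_trans ?_ (hex.trans htar)
  set E : ℝ := q ^ ((1 - c) * (d : ℝ)) with hE
  have hE0 : 0 < E := Real.rpow_pos_of_pos hq0 _
  have hN : ∀ T ∈ (PU K m).powerset,
      V T * (Xd K α d * ∏ P ∈ T, wt α β a b ex P) - (if V T ≠ 0 then E else 0) ≤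
        V T * ((S₀.filter (fun t => ∀ P ∈ T, P ∣ La a b ex t)).card : ℝ) := by
    intro T hT
    by_cases hVT : V T = 0
    · rw [hVT, if_neg (fun h => h rfl)]
      simp
    · rw [if_pos hVT]
      obtain ⟨g1, g2⟩ := hsupp T (Or.inr hVT)
      have g3 := hspc T (fun P hP => by
        obtain ⟨e1, e2, -⟩ := mem_PU.1 (g1 hP)
        exact ⟨e1, e2⟩) (by
          have g4 : ((∑ P ∈ T, P.natDegree : ℕ) : ℝ) ≤ A * m := by exact_mod_cast g2
          refine g4.trans ?_
          have g5 : (A : ℝ) * m ≤ A * (η * d) := mul_le_mul_of_nonneg_left hmle (Nat.cast_nonneg A)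
          nlinarith)
      rw [← hqdef, ← hE] at g3
      have g6 : (Mn K d).filter (fun t => Irreducible (α * t ^ 2 + β) ∧ ∀ P ∈ T, P ∣ La a b ex t) =
          S₀.filter (fun t => ∀ P ∈ T, P ∣ La a b ex t) := by
        rw [hS₀, Finset.filter_filter]
      rw [g6] at g3
      set x : ℝ := ((S₀.filter (fun t => ∀ P ∈ T, P ∣ La a b ex t)).card : ℝ) with hx
      set y : ℝ := Xd K α d * ∏ P ∈ T, wt α β a b ex P with hy
      have g7 : |V T * (x - y)| ≤ E := by
        rw [abs_mul]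
        calc |V T| * |x - y| ≤ 1 * E := mul_le_mul (hUV T).2 g3 (abs_nonneg _) zero_le_one
          _ = E := one_mul _
      have g8 := (abs_le.1 g7).1
      have g9 : V T * (x - y) = V T * x - V T * y := mul_sub _ _ _
      linarith
  refine le_trans ?_ (Finset.sum_le_sum hN)
  rw [Finset.sum_sub_distrib, ← Finset.sum_filter, Finset.sum_const, nsmul_eq_mul]
  have hmain : ∑ T ∈ (PU K m).powerset, V T * (Xd K α d * ∏ P ∈ T, wt α β a b ex P) =
      Xd K α d * ∑ T ∈ (PU K m).powerset, V T * ∏ P ∈ T, wt α β a b ex P := by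
    rw [Finset.mul_sum]
    exact Finset.sum_congr rfl fun T _ => by ring
  rw [hmain]
  -- the number of the sets
  have hcnt : (((PU K m).powerset.filter (fun T => V T ≠ 0)).card : ℝ) ≤ q ^ (A * m + 1) := by
    have h1 : (PU K m).powerset.filter (fun T => V T ≠ 0) ⊆
        (PU K m).powerset.filter (fun T => ∑ P ∈ T, P.natDegree ≤ A * m) := by
      intro T hT
      obtain ⟨g1, g2⟩ := Finset.mem_filter.1 hT
      exact Finset.mem_filter.2 ⟨g1, (hsupp T (Or.inr g2)).2⟩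
    have h2 := count (PU K m) (fun P hP => by
      obtain ⟨e1, e2, -⟩ := mem_PU.1 hP
      exact ⟨e1, e2⟩) (A * m)
    rw [← hqdef] at h2
    have h3 : (((PU K m).powerset.filter (fun T => V T ≠ 0)).card : ℝ) ≤
        (((PU K m).powerset.filter (fun T => ∑ P ∈ T, P.natDegree ≤ A * m)).card : ℝ) := by
      exact_mod_cast Finset.card_le_card h1
    exact h3.trans h2
  have herr : (((PU K m).powerset.filter (fun T => V T ≠ 0)).card : ℝ) * E ≤
      c₁ / 12 * q ^ d / (d : ℝ) ^ (k + 1) := by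
    have h1 : q ^ (A * m + 1) * E ≤ q * (r ^ d * q ^ d) := by
      have h2 : q ^ (A * m + 1) = q * q ^ ((A : ℝ) * m) := by
        rw [pow_succ, mul_comm, ← Real.rpow_natCast q (A * m)]
        push_cast
        rfl
      have h3 : q ^ ((A : ℝ) * m) ≤ q ^ (c / 2 * (d : ℝ)) := by
        apply Real.rpow_le_rpow_of_exponent_le (by linarith)
        have g5 : (A : ℝ) * m ≤ A * (η * d) := mul_le_mul_of_nonneg_left hmle (Nat.cast_nonneg A)
        nlinarith
      have h4 : q ^ (c / 2 * (d : ℝ)) * E = r ^ d * q ^ d := by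
        rw [hE, hr, ← Real.rpow_natCast (q ^ (-(c / 2))) d, ← Real.rpow_mul hq0.le,
          ← Real.rpow_natCast q d, ← Real.rpow_add hq0, ← Real.rpow_add hq0]
        congr 1
        ring
      rw [h2, ← h4, mul_assoc]
      exact mul_le_mul_of_nonneg_left (mul_le_mul_of_nonneg_right h3 hE0.le) hq0.le
    have h5 := mul_le_mul_of_nonneg_right hcnt hE0.le
    refine (h5.trans h1).trans ?_
    rw [le_div_iff₀ (by positivity)]
    have h6 : q * ((d : ℝ) ^ (k + 1) * r ^ d) ≤ c₁ / 12 := by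
      have h7 := mul_le_mul_of_nonneg_left hrd hq0.le
      have h8 : q * (c₁ / 12 / q) = c₁ / 12 := by field_simp
      linarith
    have h9 := mul_le_mul_of_nonneg_right h6 (by positivity : (0 : ℝ) ≤ q ^ d)
    calc q * (r ^ d * q ^ d) * (d : ℝ) ^ (k + 1) = q * ((d : ℝ) ^ (k + 1) * r ^ d) * q ^ d := by ring
      _ ≤ c₁ / 12 * q ^ d := h9
  -- the main term
  have hX : q ^ d / (3 * d) ≤ Xd K α d := by
    unfold Xd
    rw [← hqdef]
    obtain ⟨p0, p1⟩ := fin_prod (K := K) α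
    rw [← hqdef] at p0 p1
    apply div_le_div_of_nonneg_left (by positivity) (by positivity)
    have h1 : (2 * (d : ℝ) + α.natDegree) ≤ 3 * d := by
      linarith
    calc (2 * (d : ℝ) + α.natDegree) * _ ≤ (2 * (d : ℝ) + α.natDegree) * 1 :=
          mul_le_mul_of_nonneg_left p1 (by positivity)
      _ ≤ 3 * d := by rw [mul_one]; exact h1
  have hmt := hspm (wt α β a b ex) m hm1 (fun P h1 h2 => hw P h1 h2)
  have hprod : c₁ / (d : ℝ) ^ k ≤ ∏ P ∈ PU K m, (1 - wt α β a b ex P) := by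
    refine le_trans ?_ hmt
    apply div_le_div_of_nonneg_left hc₁.le
    · have : (0 : ℝ) < m := by exact_mod_cast hm1
      positivity
    · exact pow_le_pow_left₀ (Nat.cast_nonneg m) hmd k
  have hsum : c₁ / (d : ℝ) ^ k / 2 ≤
      ∑ T ∈ (PU K m).powerset, V T * ∏ P ∈ T, wt α β a b ex P := by
    linarith
  have hfin : q ^ d / (3 * d) * (c₁ / (d : ℝ) ^ k / 2) ≤
      Xd K α d * ∑ T ∈ (PU K m).powerset, V T * ∏ P ∈ T, wt α β a b ex P := by
    apply mul_le_mul hX hsum (by positivity)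
    exact le_trans (by positivity) hX
  have he : q ^ d / (3 * d) * (c₁ / (d : ℝ) ^ k / 2) =
      c₁ / 12 * q ^ d / (d : ℝ) ^ (k + 1) + c₁ / 12 * q ^ d / (d : ℝ) ^ (k + 1) := by
    rw [pow_succ]
    field_simp
    ring
  rw [← hqdef]
  linarith

end Pool.Agent.H290.FX.PSua
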