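import Pool.Agent.H290.FX.StmSu
import Pool.Agent.H290.FX.PSzc

/-!
# Task SPC: residue classes, uniform version (helper236, helper290)
-/

set_option autoImplicit false

namespace Pool.Agent.H290.FX.PSuc

open Polynomial
open scoped Classical
open Pool.Agent.H290.FX
open Pool.Agent.H290.FX.Sz (al Xd)
open Pool.Agent.H290.FX.Sg (La wt Adm S_spw)
open Pool.Agent.H290.FX.Su
open Pool.Agent.H290.FX.PSzc hiding main
open Pool.Agent.H985.KP (PA)
open Pool.Agent.H694.Typ (Mn mem_Mn)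

theorem main : Pool.Agent.H290.FX.Su.S_spcu := by
  intro K _ _ _
  obtain ⟨δ, θ, hδ, hθ, d₀, h⟩ := Pool.Agent.H604.LD.quadC Pool.Agent.H604.LD.s_bhqc K
  have hq0 : (0 : ℝ) < (Fintype.card K : ℝ) := by exact_mod_cast Fintype.card_pos
  have hq1 : (1 : ℝ) ≤ (Fintype.card K : ℝ) := by exact_mod_cast Fintype.card_pos
  refine ⟨δ / 2, min (θ / 6) (min (δ / 2) (1 / 2)), by positivity, by positivity, max d₀ 2, ?_⟩
  intro k α β a b ex hα hco hsq d T hd hαd hβd hT hTd
  have hdd₀ : d₀ ≤ d := (le_max_left _ _).trans hd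
  have hd2 : 2 ≤ d := (le_max_right _ _).trans hd
  have hd2' : (2 : ℝ) ≤ d := by exact_mod_cast hd2
  have hdβ : β.natDegree + 1 ≤ d := by
    have h1 : (β.natDegree : ℝ) ≤ 1 / 2 * d := hβd.trans (mul_le_mul_of_nonneg_right
      ((min_le_right _ _).trans (min_le_right _ _)) (Nat.cast_nonneg d))
    have h2 : (β.natDegree : ℝ) + 1 ≤ d := by linarith
    exact_mod_cast h2
  have hd0 : (0 : ℝ) ≤ d := Nat.cast_nonneg d
  set m := ∑ P ∈ T, P.natDegree with hm
  have hm1 : (m : ℝ) ≤ θ / 6 * d := hTd.trans (mul_le_mul_of_nonneg_right (min_le_left _ _) hd0)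
  have hα1 : (α.natDegree : ℝ) ≤ θ / 6 * d :=
    hαd.trans (mul_le_mul_of_nonneg_right (min_le_left _ _) hd0)
  have hβ1 : (β.natDegree : ℝ) ≤ θ / 6 * d :=
    hβd.trans (mul_le_mul_of_nonneg_right (min_le_left _ _) hd0)
  have hθd : 0 ≤ θ * d := by positivity
  have hm2 : (m : ℝ) ≤ δ / 2 * d := hTd.trans (mul_le_mul_of_nonneg_right
    ((min_le_right _ _).trans (min_le_left _ _)) hd0)
  have hm3 : m ≤ d := by
    have h1 : (m : ℝ) ≤ 1 / 2 * d := hTd.trans (mul_le_mul_of_nonneg_right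
      ((min_le_right _ _).trans (min_le_right _ _)) hd0)
    have h2 : (m : ℝ) ≤ d := by linarith
    exact_mod_cast h2
  set D : K[X] := ∏ Q ∈ T, Q with hD
  have hDm : D.Monic := monic_prod_of_monic _ _ fun Q hQ => (hT Q hQ).1
  have hDd : D.natDegree = m := natDegree_prod_of_monic _ _ fun Q hQ => (hT Q hQ).1
  obtain ⟨G, hGi⟩ : ∃ G : K[X] → K[X] → Prop, ∀ P x, G P x ↔
      (¬ P ∣ α * x ^ 2 + β ∧ P ∣ La a b ex x) := ⟨_, fun _ _ => Iff.rfl⟩
  have hfc : ∀ P x y : K[X], P ∣ x - y → P ∣ α * x ^ 2 + β → P ∣ α * y ^ 2 + β := by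
    rintro P x y ⟨w, hw⟩ ⟨v, hv⟩
    exact ⟨v - w * (α * (x + y)), by linear_combination hv - (α * (x + y)) * hw⟩
  have hLc : ∀ P x y : K[X], Irreducible P → P ∣ x - y → P ∣ La a b ex x → P ∣ La a b ex y := by
    intro P x y hP hxy hx
    unfold La at hx ⊢
    rw [hP.prime.dvd_finsetProd_iff] at hx ⊢
    obtain ⟨i, hi, hv⟩ := hx
    refine ⟨i, hi, ?_⟩
    have h1 : P ∣ x ^ (2 ^ ex i) - y ^ (2 ^ ex i) := hxy.trans (sub_dvd_pow_sub_pow x y _)
    have h2 : a i * y ^ (2 ^ ex i) + b i =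
        (a i * x ^ (2 ^ ex i) + b i) - a i * (x ^ (2 ^ ex i) - y ^ (2 ^ ex i)) := by ring
    rw [h2]
    exact dvd_sub hv (h1.mul_left _)
  have hsub : ∀ P x y : K[X], P ∣ x - y → P ∣ y - x := by
    intro P x y hxy
    rw [← neg_sub]
    exact hxy.neg_right
  have hG : ∀ P ∈ T, ∀ x y, P ∣ x - y → G P x → G P y := by
    intro P hP x y hxy hx
    rw [hGi] at hx ⊢
    exact ⟨fun h1 => hx.1 (hfc P y x (hsub P x y hxy) h1), hLc P x y (hT P hP).2 hxy hx.2⟩
  set S : Finset K[X] := (Vs K m).filter (fun x => ∀ P ∈ T, G P x) with hS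
  have hScard : S.card = ∏ P ∈ T, ((Vs K P.natDegree).filter (G P)).card := by
    have h0 := crt G T hT hG
    rw [hS, hm]
    convert h0
  have hSle : (S.card : ℝ) ≤ (Fintype.card K : ℝ) ^ m := by
    have h1 : S.card ≤ (Vs K m).card := Finset.card_filter_le _ _
    rw [card_Vs] at h1
    exact_mod_cast h1
  -- the degree
  have hfd : ∀ t : K[X], t.Monic → t.natDegree = d →
      (α * t ^ 2 + β).natDegree = 2 * d + α.natDegree := by
    intro t ht htd
    have h1 : (α * t ^ 2).natDegree = 2 * d + α.natDegree := by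
      rw [natDegree_mul hα (ht.pow 2).ne_zero, ht.natDegree_pow, htd]
      omega
    rw [natDegree_add_eq_left_of_natDegree_lt (by rw [h1]; omega), h1]
  set A : Finset K[X] := (Mn K d).filter
    (fun t => Irreducible (α * t ^ 2 + β) ∧ ∀ P ∈ T, P ∣ La a b ex t) with hA
  have hmaps : Set.MapsTo (fun t : K[X] => t %ₘ D) A S := by
    intro t ht
    rw [Finset.mem_coe, hA, Finset.mem_filter, mem_Mn] at ht
    obtain ⟨⟨ht1, ht2⟩, ht3, ht4⟩ := ht
    rw [Finset.mem_coe, hS, Finset.mem_filter, mem_Vs]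
    refine ⟨?_, ?_⟩
    · rw [← hDd]
      exact mod_lt hDm t
    · intro P hP
      have hPD : P ∣ D := Finset.dvd_prod_of_mem _ hP
      refine hG P hP t _ (hPD.trans (dvd_sub_mod hDm t)) ((hGi P t).2 ⟨?_, ht4 P hP⟩)
      intro h1
      have h2 := (hT P hP).2.associated_of_dvd ht3 h1
      have h3 := natDegree_eq_of_degree_eq (degree_eq_degree_of_associated h2)
      rw [hfd t ht1 ht2] at h3
      have h4 : P.natDegree ≤ m :=
        Finset.single_le_sum (f := fun P : K[X] => P.natDegree) (fun _ _ => Nat.zero_le _) hP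
      omega
  have hfib := Finset.card_eq_sum_card_fiberwise hmaps
  set Pd : ℝ := ∏ᶠ P ∈ {P : K[X] | P.Monic ∧ Irreducible P ∧ P ∣ α * D},
    (1 - 1 / (Fintype.card K : ℝ) ^ P.natDegree) with hPd
  have hx : ∀ x ∈ S, |(2 * (d : ℝ) + α.natDegree) * ((A.filter (fun t => t %ₘ D = x)).card : ℝ) -
      (Fintype.card K : ℝ) ^ (d - m) / Pd| ≤ (Fintype.card K : ℝ) ^ ((1 - δ) * d) := by
    intro x hxS
    rw [hS, Finset.mem_filter, mem_Vs] at hxS
    obtain ⟨hx1, hx2⟩ := hxS
    have hbd : ((α.natDegree + (derivative (α * β)).natDegree + D.natDegree + 0 : ℕ) : ℝ) ≤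
        θ * d := by
      have h3 : (derivative (α * β)).natDegree ≤ α.natDegree + β.natDegree :=
        (natDegree_derivative_le _).trans ((Nat.sub_le _ _).trans natDegree_mul_le)
      have h4 : ((derivative (α * β)).natDegree : ℝ) ≤ α.natDegree + β.natDegree := by
        exact_mod_cast h3
      rw [hDd]
      push_cast
      linarith
    have hcx : IsCoprime (α * x ^ 2 + β) D := by
      refine IsCoprime.prod_right fun P hP => ?_
      rw [isCoprime_comm, (hT P hP).2.coprime_iff_not_dvd]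
      exact ((hGi P x).1 (hx2 P hP)).1
    have h1 := h α β (X ^ d) D x d 0 hα hco hDm hcx hsq (by omega) (monic_X_pow d)
      (natDegree_X_pow d) hdd₀ hbd
    have hset : {t : K[X] | D ∣ t - x ∧ (t - X ^ d).degree < ((d - 0 : ℕ) : WithBot ℕ) ∧
        Irreducible (α * t ^ 2 + β)} =
        ((A.filter (fun t => t %ₘ D = x) : Finset K[X]) : Set K[X]) := by
      ext t
      rw [Set.mem_ofPred_eq, Finset.mem_coe, Finset.mem_filter, hA, Finset.mem_filter, mem_Mn,
        Nat.sub_zero, Pool.Agent.H604.LD.interval_eq (monic_X_pow d) (natDegree_X_pow d)]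
      have h5 : x %ₘ D = x := mod_self_of hDm (by rw [hDd]; exact hx1)
      have e : t %ₘ D = x ↔ D ∣ t - x := by
        rw [← mod_iff hDm t x, h5]
      rw [e]
      constructor
      · rintro ⟨h2, h3, h4⟩
        refine ⟨⟨h3, h4, fun P hP => ?_⟩, h2⟩
        exact hLc P x t (hT P hP).2
          (hsub P t x ((Finset.dvd_prod_of_mem _ hP).trans h2)) ((hGi P x).1 (hx2 P hP)).2
      · rintro ⟨⟨h3, h4, _⟩, h2⟩
        exact ⟨h2, h3, h4⟩
    rw [hset, Set.ncard_coe_finset, hDd, Nat.sub_zero] at h1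
    exact h1
  set L : ℝ := 2 * (d : ℝ) + α.natDegree with hL
  have hL1 : 1 ≤ L := by
    have h1 : 1 ≤ 2 * d + α.natDegree := by omega
    rw [hL]
    exact_mod_cast h1
  have hL0 : 0 < L := by linarith
  set Y : ℝ := (Fintype.card K : ℝ) ^ (d - m) / Pd with hY
  have hsum : |L * (A.card : ℝ) - S.card * Y| ≤ S.card * (Fintype.card K : ℝ) ^ ((1 - δ) * d) := by
    have e : L * (A.card : ℝ) - S.card * Y =
        ∑ x ∈ S, (L * ((A.filter (fun t => t %ₘ D = x)).card : ℝ) - Y) := by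
      rw [Finset.sum_sub_distrib, ← Finset.mul_sum, Finset.sum_const, nsmul_eq_mul, hfib]
      push_cast
      rfl
    rw [e]
    refine (Finset.abs_sum_le_sum_abs _ _).trans ((Finset.sum_le_sum hx).trans ?_)
    rw [Finset.sum_const, nsmul_eq_mul]
  -- the main term
  have hloc : ∀ P ∈ T, (0 : ℝ) < 1 - 1 / (Fintype.card K : ℝ) ^ P.natDegree := by
    intro P hP
    have h1 : 1 < (Fintype.card K : ℝ) ^ P.natDegree :=
      one_lt_pow₀ (by exact_mod_cast Fintype.one_lt_card) (hT P hP).2.natDegree_pos.ne'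
    rw [sub_pos, div_lt_one (by positivity)]
    exact h1
  have hmain : S.card * Y / L = Xd K α d * ∏ P ∈ T, wt α β a b ex P := by
    have h1 : ∀ P ∈ T, wt α β a b ex P = (((Vs K P.natDegree).filter (G P)).card : ℝ) /
        ((Fintype.card K : ℝ) ^ P.natDegree *
          (if P ∣ α then 1 else (1 - 1 / (Fintype.card K : ℝ) ^ P.natDegree))) := by
      intro P hP
      unfold wt
      rw [card_al (hT P hP).1 (hT P hP).2 hco]
      congr 2
      unfold al
      rw [Finset.filter_filter]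
      exact congrArg Finset.card (Finset.filter_congr fun x _ => (hGi P x).symm)
    rw [Finset.prod_congr rfl h1, Finset.prod_div_distrib, Finset.prod_mul_distrib,
      Finset.prod_pow_eq_pow_sum, ← hm, hY, hPd, fin_eq hα T hT, hScard]
    push_cast
    unfold Xd
    rw [← hL, pow_sub₀ _ hq0.ne' hm3]
    have h2 : (0 : ℝ) < ∏ P ∈ T, (if P ∣ α then 1 else
        (1 - 1 / (Fintype.card K : ℝ) ^ P.natDegree)) := by
      refine Finset.prod_pos fun P hP => ?_
      split_ifs
      · exact one_pos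
      · exact hloc P hP
    simp only [div_eq_mul_inv, mul_inv]
    ring
  rw [← hmain]
  have h1 : (A.card : ℝ) - S.card * Y / L = (L * (A.card : ℝ) - S.card * Y) / L := by
    field_simp
  rw [h1, abs_div, abs_of_pos hL0]
  calc |L * (A.card : ℝ) - S.card * Y| / L ≤ |L * (A.card : ℝ) - S.card * Y| :=
        div_le_self (abs_nonneg _) hL1
    _ ≤ S.card * (Fintype.card K : ℝ) ^ ((1 - δ) * d) := hsum
    _ ≤ (Fintype.card K : ℝ) ^ m * (Fintype.card K : ℝ) ^ ((1 - δ) * d) :=
        mul_le_mul_of_nonneg_right hSle (Real.rpow_nonneg hq0.le _)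
    _ = (Fintype.card K : ℝ) ^ ((m : ℝ) + (1 - δ) * d) := by
        rw [Real.rpow_add hq0, Real.rpow_natCast]
    _ ≤ (Fintype.card K : ℝ) ^ ((1 - δ / 2) * d) :=
        Real.rpow_le_rpow_of_exponent_le hq1 (by linarith)

end Pool.Agent.H290.FX.PSuc
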