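import Pool.Agent.H290.FX.StmSz
import Pool.Agent.H290.FX.PT4
import Pool.Agent.H290.FX.PConv

/-!
# Task SPM: a lower bound of Mertens type (helper597)
-/

set_option autoImplicit false

namespace Pool.Agent.H290.FX.PSzmb

open scoped Classical
open Finset Polynomial
open Pool.Agent.H290.FX
open Pool.Agent.H290.FX.Sz
open Pool.Agent.H694.Typ (PU mem_PU q_ge)

theorem exp_le {x : ℝ} (h0 : 0 ≤ x) (h1 : x ≤ 1 / 2) : Real.exp (-(x + x ^ 2)) ≤ 1 - x := by
  have h2 := Real.quadratic_le_exp_of_nonneg (show 0 ≤ x + x ^ 2 by positivity)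
  have h3 : 1 ≤ (1 - x) * Real.exp (x + x ^ 2) := by
    have h4 : 1 ≤ (1 - x) * (1 + (x + x ^ 2) + (x + x ^ 2) ^ 2 / 2) := by
      have h5 : (1 - x) * (1 + (x + x ^ 2) + (x + x ^ 2) ^ 2 / 2) =
          1 + x ^ 2 / 2 * (1 - x - x ^ 2 - x ^ 3) := by ring
      rw [h5]
      have h7 : x ^ 2 ≤ 1 / 4 := by nlinarith
      have h8 : x ^ 3 ≤ 1 / 8 := by
        have : x ^ 3 = x * x ^ 2 := by ring
        rw [this]
        nlinarith [mul_nonneg h0 (sub_nonneg.2 h7)]
      have h6 : 0 ≤ 1 - x - x ^ 2 - x ^ 3 := by linarith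
      have h9 : 0 ≤ x ^ 2 / 2 * (1 - x - x ^ 2 - x ^ 3) := mul_nonneg (by positivity) h6
      linarith
    exact h4.trans (mul_le_mul_of_nonneg_left h2 (by linarith))
  rw [Real.exp_neg]
  exact (inv_le_iff_one_le_mul₀ (Real.exp_pos _)).2 h3

theorem frac_le {a : ℝ} (ha : 0 < a) : 1 / a ≤ 1 / (a + 1) + 1 / a ^ 2 := by
  rw [div_add_div _ _ (by positivity) (by positivity), div_le_div_iff₀ ha (by positivity)]
  nlinarith

theorem main : S_spm := by
  intro K _ _ k C hC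
  have hq := q_ge (k := K)
  have hA := PConv.sum_aP_le (K := K)
  have hI := PT4.sum_inv (K := K)
  unfold PConv.aP at hA
  obtain ⟨q, hqe⟩ : ∃ q : ℝ, q = (Fintype.card K : ℝ) := ⟨_, rfl⟩
  obtain ⟨N, hN⟩ : ∃ N : ℕ, N = (PU K (2 * k + 3)).card := ⟨_, rfl⟩
  have hC0 : 0 < C := by linarith
  refine ⟨(1 / C) ^ N * Real.exp (-(5 * k + 4 * k ^ 2)), by positivity, fun w m hm hw => ?_⟩
  rw [← hqe] at hw hq hA hI
  have hq0 : 0 < q := by linarith
  have hk0 : (0 : ℝ) ≤ k := Nat.cast_nonneg k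
  have hm0 : (0 : ℝ) < m := by exact_mod_cast hm
  have hs : (1 / C) ^ N ≤ ∏ P ∈ (PU K m).filter (fun P => P.natDegree ≤ 2 * k + 3), (1 - w P) := by
    have h1 : ∀ P ∈ (PU K m).filter (fun P => P.natDegree ≤ 2 * k + 3), 1 / C ≤ 1 - w P := by
      intro P hP
      obtain ⟨h2, h3⟩ := mem_filter.1 hP
      obtain ⟨h4, h5, h6⟩ := mem_PU.1 h2
      linarith [(hw P h4 h5).2.1]
    have h2 : ((PU K m).filter (fun P => P.natDegree ≤ 2 * k + 3)).card ≤ N := by
      rw [hN]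
      refine card_le_card fun P hP => ?_
      obtain ⟨h2, h3⟩ := mem_filter.1 hP
      obtain ⟨h4, h5, h6⟩ := mem_PU.1 h2
      exact mem_PU.2 ⟨h4, h5, h3⟩
    calc (1 / C) ^ N ≤ (1 / C) ^ ((PU K m).filter (fun P => P.natDegree ≤ 2 * k + 3)).card :=
          pow_le_pow_of_le_one (by positivity) ((div_le_one hC0).2 hC) h2
      _ = ∏ _P ∈ (PU K m).filter (fun P => P.natDegree ≤ 2 * k + 3), 1 / C := by rw [prod_const]
      _ ≤ _ := prod_le_prod (fun P _ => by positivity) h1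
  have hl : Real.exp (-(5 * k + 4 * k ^ 2)) / (m : ℝ) ^ k ≤
      ∏ P ∈ (PU K m).filter (fun P => ¬ P.natDegree ≤ 2 * k + 3), (1 - w P) := by
    have h1 : ∀ P ∈ (PU K m).filter (fun P => ¬ P.natDegree ≤ 2 * k + 3),
        Real.exp (-(k * (1 / q ^ P.natDegree) +
          (k + k ^ 2) * (1 / (q ^ P.natDegree - 1) ^ 2))) ≤ 1 - w P := by
      intro P hP
      obtain ⟨h2, h3⟩ := mem_filter.1 hP
      obtain ⟨h4, h5, h6⟩ := mem_PU.1 h2
      obtain ⟨h7, h8, h9⟩ := hw P h4 h5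
      obtain ⟨a, ha⟩ : ∃ a : ℝ, a = q ^ P.natDegree - 1 := ⟨_, rfl⟩
      have ha' : q ^ P.natDegree = a + 1 := by rw [ha]; ring
      have hab : 2 * (k : ℝ) + 2 ≤ a := by
        have e1 : 2 * k + 4 ≤ P.natDegree := by omega
        have e2 : P.natDegree < 2 ^ P.natDegree := Nat.lt_two_pow_self
        have e3 : ((2 * k + 4 : ℕ) : ℝ) ≤ (2 : ℝ) ^ P.natDegree := by
          exact_mod_cast (e1.trans e2.le)
        have e4 : (2 : ℝ) ^ P.natDegree ≤ q ^ P.natDegree :=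
          pow_le_pow_left₀ (by norm_num) hq _
        push_cast at e3
        rw [ha]
        linarith
      rw [← ha] at h9
      rw [← ha, ha']
      have ha0 : 0 < a := by linarith
      have hw1 : w P ≤ k * (1 / a) := by
        rw [mul_one_div, le_div_iff₀ ha0]
        exact h9
      have hw2 : w P ≤ 1 / 2 := by
        refine hw1.trans ?_
        rw [mul_one_div, div_le_div_iff₀ ha0 (by norm_num)]
        linarith
      refine le_trans (Real.exp_le_exp.2 ?_) (exp_le h7 hw2)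
      rw [neg_le_neg_iff]
      have e5 : w P ^ 2 ≤ k ^ 2 * (1 / a ^ 2) := by
        have := pow_le_pow_left₀ h7 hw1 2
        rwa [mul_pow, one_div_pow] at this
      have e6 : (k : ℝ) * (1 / a) ≤ k * (1 / (a + 1) + 1 / a ^ 2) :=
        mul_le_mul_of_nonneg_left (frac_le ha0) hk0
      calc w P + w P ^ 2 ≤ k * (1 / (a + 1) + 1 / a ^ 2) + k ^ 2 * (1 / a ^ 2) := by linarith
        _ = k * (1 / (a + 1)) + (k + k ^ 2) * (1 / a ^ 2) := by ring
    have h2 : ∑ P ∈ (PU K m).filter (fun P => ¬ P.natDegree ≤ 2 * k + 3),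
        (k * (1 / q ^ P.natDegree) + (k + k ^ 2) * (1 / (q ^ P.natDegree - 1) ^ 2)) ≤
        5 * k + 4 * k ^ 2 + k * Real.log m := by
      have hpos : ∀ P : K[X], 0 ≤ 1 / q ^ P.natDegree := fun P => by positivity
      have hpos' : ∀ P : K[X], 0 ≤ 1 / (q ^ P.natDegree - 1) ^ 2 := fun P => by positivity
      have f1 : ∑ P ∈ (PU K m).filter (fun P => ¬ P.natDegree ≤ 2 * k + 3), 1 / q ^ P.natDegree ≤
          1 + Real.log m := by
        refine (sum_le_sum_of_subset_of_nonneg (filter_subset _ _) fun P _ _ => hpos P).trans ?_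
        have e := hI m
        have e' : ∑ P ∈ PU K m, 2 * (q ^ P.natDegree)⁻¹ = 2 * ∑ P ∈ PU K m, 1 / q ^ P.natDegree := by
          rw [mul_sum]
          exact sum_congr rfl (fun P _ => by rw [one_div])
        rw [e'] at e
        linarith
      have f2 : ∑ P ∈ (PU K m).filter (fun P => ¬ P.natDegree ≤ 2 * k + 3),
          1 / (q ^ P.natDegree - 1) ^ 2 ≤ 4 :=
        (sum_le_sum_of_subset_of_nonneg (filter_subset _ _) fun P _ _ => hpos' P).trans (hA m)
      rw [sum_add_distrib, ← mul_sum, ← mul_sum]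
      have g1 := mul_le_mul_of_nonneg_left f1 hk0
      have g2 := mul_le_mul_of_nonneg_left f2 (show (0 : ℝ) ≤ k + k ^ 2 by positivity)
      linarith
    have hE : Real.exp (-(5 * k + 4 * k ^ 2)) / (m : ℝ) ^ k =
        Real.exp (-(5 * k + 4 * k ^ 2 + k * Real.log m)) := by
      rw [neg_add (5 * (k : ℝ) + 4 * (k : ℝ) ^ 2) (k * Real.log m), Real.exp_add,
        Real.exp_neg (k * Real.log m), Real.exp_nat_mul, Real.exp_log hm0, div_eq_mul_inv]
    rw [hE]
    calc Real.exp (-(5 * k + 4 * k ^ 2 + k * Real.log m))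
        ≤ Real.exp (∑ P ∈ (PU K m).filter (fun P => ¬ P.natDegree ≤ 2 * k + 3),
          -(k * (1 / q ^ P.natDegree) + (k + k ^ 2) * (1 / (q ^ P.natDegree - 1) ^ 2))) := by
          rw [sum_neg_distrib]
          exact Real.exp_le_exp.2 (neg_le_neg h2)
      _ = ∏ P ∈ (PU K m).filter (fun P => ¬ P.natDegree ≤ 2 * k + 3), Real.exp
          (-(k * (1 / q ^ P.natDegree) + (k + k ^ 2) * (1 / (q ^ P.natDegree - 1) ^ 2))) :=
          Real.exp_sum _ _
      _ ≤ _ := prod_le_prod (fun P _ => (Real.exp_pos _).le) h1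
  rw [← Finset.prod_filter_mul_prod_filter_not (PU K m) (fun P => P.natDegree ≤ 2 * k + 3)]
  calc (1 / C) ^ N * Real.exp (-(5 * k + 4 * k ^ 2)) / (m : ℝ) ^ k
      = (1 / C) ^ N * (Real.exp (-(5 * k + 4 * k ^ 2)) / (m : ℝ) ^ k) := by ring
    _ ≤ _ := mul_le_mul hs hl (by positivity) ((by positivity : (0 : ℝ) ≤ (1 / C) ^ N).trans hs)

end Pool.Agent.H290.FX.PSzmb
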