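import Mathlib
import Pool.Agent.H290.FX.StmW

/-!
# The window bound with the factors of the root (WIN7)
-/

set_option autoImplicit false
set_option linter.unusedSectionVars false

namespace Pool.Agent.H290.FX.PWin7

open Polynomial
open Pool.Agent.H985.Chow (mob MD Wl S_key S_cmp)
open Pool.Agent.H985.KP (sg PA mobg S_cnt)
open Pool.Agent.H985.FC (gl GP S_lock S_locf S_gcs S_winF S_full)
open Pool.Agent.H985.Chow.Win (facs two0 twoP finU card_P cop_der)
open Pool.Agent.H604.FC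
open Pool.Agent.H604.FC.W4

section loc

variable {K : Type} [Field K] {k r : ℕ} {Λ : Type} [Fintype Λ]

lemma phiW_linearw (hlocf : S_locfw) [Fintype K] [CharP K 2] {E : K[X]} {b hh : Fin r → K[X]}
    {Z g : Fin k → K[X]} {cl : Fin k → Fin r} {w : Λ → K[X]} {w0 : K[X]} {P : K[X]}
    [hP : Fact (Irreducible P)] [Fintype (AdjoinRoot P)] (j₀ : Fin r)
    (hj : ∀ i, P ∣ hh (cl i) ↔ cl i = j₀)
    (hj0 : ∃ i, cl i = j₀) (hb : ¬ P ∣ derivative (b j₀)) (hw0 : P ∣ w0)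
    (hw0' : ¬ P ∣ derivative (E * w0))
    (hinj : ∀ i i' A A', cl i = j₀ → cl i' = j₀ → P ∣ (Z i + E * ∑ l ∈ A, w l) -
      (Z i' + E * ∑ l ∈ A', w l) → i = i' ∧ A = A')
    (ω : AdjoinRoot P → ℝ) (hω : ∀ z, |ω z| ≤ 1)
    (χ : AddChar (AdjoinRoot P × AdjoinRoot P) ℂ) :
    ‖∑ x, ((phiW E b hh Z g cl w w0 P x * ω x.1 : ℝ) : ℂ) * χ x‖ ≤
      2 * (k * 2 ^ Fintype.card Λ : ℝ) * (Fintype.card (AdjoinRoot P) : ℝ) := by
  classical
  obtain ⟨i₀, hi₀⟩ := hj0
  have : Nonempty ({i // cl i = j₀} × Finset Λ) := ⟨(⟨i₀, hi₀⟩, ∅)⟩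
  have h1 := (hlocf (AdjoinRoot P) ({i // cl i = j₀} × Finset Λ) (AdjoinRoot.mk P (derivative (b j₀)))
    (AdjoinRoot.root P) (AdjoinRoot.mk P (derivative (E * w0)))
    (fun p => AdjoinRoot.mk P (derivative (g p.1.1)) / AdjoinRoot.mk P (g p.1.1))
    (fun p => AdjoinRoot.mk P (Z p.1.1 + E * ∑ l ∈ p.2, w l))
    (fun p => AdjoinRoot.mk P (derivative (Z p.1.1 + E * ∑ l ∈ p.2, w l)))
    (fun z => (ω z : ℂ))
    (by rwa [Ne, AdjoinRoot.mk_eq_zero]) (by rwa [Ne, AdjoinRoot.mk_eq_zero]) ?_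
    (fun z => by rw [Complex.norm_real]; exact hω z)) χ
  swap
  · rintro ⟨⟨i, hi⟩, A⟩ ⟨⟨i', hi'⟩, A'⟩ h
    simp only at h
    rw [← sub_eq_zero, ← map_sub, AdjoinRoot.mk_eq_zero] at h
    obtain ⟨h2, h3⟩ := hinj i i' A A' hi hi' h
    subst h2
    subst h3
    rfl
  have h2 : ∀ x : AdjoinRoot P × AdjoinRoot P, phiW E b hh Z g cl w w0 P x =
      ∏ p : {i // cl i = j₀} × Finset Λ, (gl (AdjoinRoot.mk P (derivative (b j₀)))
        (AdjoinRoot.root P) (AdjoinRoot.mk P (derivative (g p.1.1)) / AdjoinRoot.mk P (g p.1.1))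
        (AdjoinRoot.mk P (Z p.1.1 + E * ∑ l ∈ p.2, w l) + x.1)
        (AdjoinRoot.mk P (derivative (Z p.1.1 + E * ∑ l ∈ p.2, w l)) + x.2) *
        gl (AdjoinRoot.mk P (derivative (b j₀)))
        (AdjoinRoot.root P) (AdjoinRoot.mk P (derivative (g p.1.1)) / AdjoinRoot.mk P (g p.1.1))
        (AdjoinRoot.mk P (Z p.1.1 + E * ∑ l ∈ p.2, w l) + x.1)
        (AdjoinRoot.mk P (derivative (Z p.1.1 + E * ∑ l ∈ p.2, w l)) + x.2 +
          AdjoinRoot.mk P (derivative (E * w0)))) := by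
    intro x
    rw [Fintype.prod_prod_type]
    unfold phiW
    have hf : Finset.univ.filter (fun i => P ∣ hh (cl i)) =
        Finset.univ.filter (fun i => cl i = j₀) := by
      ext i
      rw [Finset.mem_filter, Finset.mem_filter, hj]
    rw [hf, Finset.prod_subtype (p := fun i => cl i = j₀) _ (fun i => by
      rw [Finset.mem_filter]
      exact ⟨fun h => h.2, fun h => ⟨Finset.mem_univ _, h⟩⟩)]
    refine Finset.prod_congr rfl fun i _ => ?_
    refine Finset.prod_congr rfl fun A _ => ?_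
    rw [glP_eq, glP_eq, i.2]
    have e0 : AdjoinRoot.mk P (E * w0) = 0 := by
      rw [AdjoinRoot.mk_eq_zero]
      exact hw0.mul_left _
    have e1 : (rp P (Z i.1 + E * (w0 + ∑ l ∈ A, w l)) + x).1 =
        AdjoinRoot.mk P (Z i.1 + E * ∑ l ∈ A, w l) + x.1 := by
      show AdjoinRoot.mk P (Z i.1 + E * (w0 + ∑ l ∈ A, w l)) + x.1 = _
      rw [mul_add, map_add, map_add, e0, map_add]
      ring
    have e2 : (rp P (Z i.1 + E * (w0 + ∑ l ∈ A, w l)) + x).2 =
        AdjoinRoot.mk P (derivative (Z i.1 + E * ∑ l ∈ A, w l)) + x.2 +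
          AdjoinRoot.mk P (derivative (E * w0)) := by
      show AdjoinRoot.mk P (derivative (Z i.1 + E * (w0 + ∑ l ∈ A, w l))) + x.2 = _
      rw [mul_add, derivative_add, derivative_add, map_add, map_add, derivative_add, map_add]
      ring
    rw [e1, e2]
    rfl
  have h3 : ∑ x, ((phiW E b hh Z g cl w w0 P x * ω x.1 : ℝ) : ℂ) * χ x = _ :=
    Finset.sum_congr rfl fun x _ => by rw [h2 x, Complex.ofReal_mul]
  rw [h3]
  refine h1.trans ?_
  have h4 : (Fintype.card ({i // cl i = j₀} × Finset Λ) : ℝ) ≤ (k * 2 ^ Fintype.card Λ : ℝ) := by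
    rw [Fintype.card_prod, Fintype.card_finset]
    push_cast
    have h5 : Fintype.card {i // cl i = j₀} ≤ k := by
      have := Fintype.card_subtype_le (fun i => cl i = j₀)
      rwa [Fintype.card_fin] at this
    have h6 : (Fintype.card {i // cl i = j₀} : ℝ) ≤ k := by exact_mod_cast h5
    gcongr
  gcongr

end loc

section fix

variable {K : Type} [Field K] [Fintype K] [CharP K 2]
variable {k r L D : ℕ} {E : K[X]} {b h' h'' : Fin r → K[X]} {Z : Fin k → K[X]}
  {cl : Fin k → Fin r} {j₀ : Fin r}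

open Classical in
/-- **The bound for fixed shifts.** -/
lemma fixedw (hlock : S_lock) (hlocf : S_locfw) (hfin : S_fin)
    (H : Hyp L D E b h' h'' Z cl j₀) (g : Fin k → K[X]) {Is : Fin r → Finset K[X]}
    {Il : Finset K[X]}
    (hIs : ∀ j P, P ∈ Is j ↔ P.Monic ∧ Irreducible P ∧ P ∣ h' j * h'' j)
    (hIl : ∀ P, P ∈ Il ↔ P.Monic ∧ Irreducible P ∧ P ∣ h'' j₀) (hIlp : ∏ P ∈ Il, P = h'' j₀)
    (t : Fin r × Bool × Fin 3 → degreeLT K D) (t₀ : degreeLT K D)
    (ω : ∀ P : K[X], AdjoinRoot P → ℝ) (hω : ∀ P z, |ω P z| ≤ 1)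
    (hω1 : ∀ P, ¬ P ∣ h'' j₀ → ∀ z, ω P z = 1) :
    |∑ᶠ u ∈ {u : K[X] | u.degree < (L : WithBot ℕ)}, ∏ P ∈ Finset.univ.biUnion Is,
        (phiW E b (fun j => h' j * h'' j) Z g cl (fun l => Hk h' h'' j₀ l * (t l : K[X]))
          (h'' j₀ * (t₀ : K[X])) P (rp P (E * u)) * ω P (rp P (E * u)).1)| ≤
      (2 * (2 * (k * 2 ^ (6 * r)) : ℕ) + 1 : ℝ) ^ ((Finset.univ.biUnion Is) \ Il).card *
        (2 * (k * 2 ^ (6 * r) : ℝ) + 1) ^ Il.card *
        (Fintype.card K : ℝ) ^ ((h'' j₀).natDegree +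
          (∑ P ∈ Il with (∃ l, ∃ z ∈ BB E Z (Hk h' h'' j₀) l t P, P ∣ (t l : K[X]) - z),
            P.natDegree + ∑ P ∈ Il with P ∣ (t₀ : K[X]), P.natDegree)) := by
  classical
  have hcard : Fintype.card (Fin r × Bool × Fin 3) = 6 * r := by
    rw [Fintype.card_prod, Fintype.card_prod, Fintype.card_fin, Fintype.card_bool,
      Fintype.card_fin]
    ring
  set I := Finset.univ.biUnion Is with hI
  have hIm : ∀ P, P ∈ I ↔ ∃ j, P.Monic ∧ Irreducible P ∧ P ∣ h' j * h'' j := by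
    intro P
    rw [hI, Finset.mem_biUnion]
    constructor
    · rintro ⟨j, -, hj⟩
      exact ⟨j, (hIs j P).1 hj⟩
    · rintro ⟨j, hj⟩
      exact ⟨j, Finset.mem_univ j, (hIs j P).2 hj⟩
  have hdeg : ∑ P ∈ Il, P.natDegree = (h'' j₀).natDegree := by
    rw [← hIlp]
    exact (natDegree_prod_of_monic _ _ fun P hP => ((hIl P).1 hP).1).symm
  set Ib : Finset K[X] := Il.filter (fun P => (∃ l, ∃ z ∈ BB E Z (Hk h' h'' j₀) l t P,
    P ∣ (t l : K[X]) - z) ∨ P ∣ (t₀ : K[X])) with hIb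
  have key := hfin K L (2 * (k * 2 ^ (6 * r))) (2 * (k * 2 ^ (6 * r) : ℝ) + 1) E I Il Ib
    (fun P x => phiW E b (fun j => h' j * h'' j) Z g cl (fun l => Hk h' h'' j₀ l * (t l : K[X]))
          (h'' j₀ * (t₀ : K[X])) P x * ω P x.1) ?_ ?_ ?_ ?_ ?_ ?_ ?_ ?_ ?_
  · refine key.trans ?_
    rw [hdeg]
    have hq : (1 : ℝ) ≤ (Fintype.card K : ℝ) := by exact_mod_cast Fintype.card_pos
    have h1 : ∑ P ∈ Ib, P.natDegree ≤
        ∑ P ∈ Il with (∃ l, ∃ z ∈ BB E Z (Hk h' h'' j₀) l t P, P ∣ (t l : K[X]) - z),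
            P.natDegree + ∑ P ∈ Il with P ∣ (t₀ : K[X]), P.natDegree := by
      rw [hIb, Finset.filter_or]
      have h2 := Finset.sum_union_inter (s₁ := Il.filter (fun P => ∃ l, ∃ z ∈
        BB E Z (Hk h' h'' j₀) l t P, P ∣ (t l : K[X]) - z))
        (s₂ := Il.filter (fun P => P ∣ (t₀ : K[X]))) (f := fun P : K[X] => P.natDegree)
      omega
    have h3 : (Fintype.card K : ℝ) ^ ((h'' j₀).natDegree + ∑ P ∈ Ib, P.natDegree) ≤
        (Fintype.card K : ℝ) ^ ((h'' j₀).natDegree +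
          (∑ P ∈ Il with (∃ l, ∃ z ∈ BB E Z (Hk h' h'' j₀) l t P, P ∣ (t l : K[X]) - z),
            P.natDegree + ∑ P ∈ Il with P ∣ (t₀ : K[X]), P.natDegree)) :=
      pow_le_pow_right₀ hq (Nat.add_le_add_left h1 _)
    gcongr
  · have : (0 : ℝ) ≤ (k * 2 ^ (6 * r) : ℝ) := by positivity
    linarith
  · intro P hP
    obtain ⟨j, hj⟩ := (hIm P).1 hP
    exact ⟨hj.1, hj.2.1⟩
  · intro P hP
    obtain ⟨h1, h2, h3⟩ := (hIl P).1 hP
    exact (hIm P).2 ⟨j₀, h1, h2, h3.mul_left _⟩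
  · exact Finset.filter_subset _ _
  · intro P hP
    obtain ⟨h1, h2, h3⟩ := (hIl P).1 hP
    exact not_dvd_of_cop h2 (H.h1 j₀).2.2.2.1 (h3.mul_left _)
  · intro P _ v
    rw [abs_mul]
    exact mul_le_one₀ (abs_phiW _ _ _ _ _ _ _ _ _ _) (abs_nonneg _) (hω _ _)
  · intro P hP hPl
    obtain ⟨j, hj1, hj2, hj3⟩ := (hIm P).1 hP
    have hn : ¬ P ∣ h'' j₀ := fun h => hPl ((hIl P).2 ⟨hj1, hj2, h⟩)
    obtain ⟨l, hl1, hl2⟩ := Hk_kill (h' := h') (h'' := h'') (j₀ := j₀) j hj3 hj2 hn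
    have hk := fun x => phiW_killed hlock (E := E) (b := b) (hh := fun j => h' j * h'' j) (Z := Z)
      (g := g) (cl := cl) (w := fun l => Hk h' h'' j₀ l * (t l : K[X]))
      (w0 := h'' j₀ * (t₀ : K[X])) hj2
      (fun j' hj' => (H.h1 j').2.2.2.2.2.2 P ⟨hj1, hj2, hj'⟩) l hl1
      (fun m => (hl2 m).mul_right _) x
    refine ⟨fun z ζ ζ' => ?_, ?_⟩
    · show phiW E b (fun j => h' j * h'' j) Z g cl _ _ P (z, ζ) * ω P z =
        phiW E b (fun j => h' j * h'' j) Z g cl _ _ P (z, ζ') * ω P z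
      rw [hk, hk]
    · obtain ⟨S, hS1, hS2⟩ := few_poles E (fun j => h' j * h'' j) Z cl
        (fun l => Hk h' h'' j₀ l * (t l : K[X])) (h'' j₀ * (t₀ : K[X])) P
      refine ⟨S, ?_, fun z ζ hz => ?_⟩
      · rwa [hcard] at hS1
      · show phiW E b (fun j => h' j * h'' j) Z g cl _ _ P (z, ζ) * ω P z = 1
        rw [hk, if_neg (hS2 z hz), hω1 P hn, one_mul]
  · intro P hP hPb hF hFt χ
    obtain ⟨h1, h2, h3⟩ := (hIl P).1 hP
    have hb := phiW_linearw hlocf (E := E) (b := b) (hh := fun j => h' j * h'' j) (Z := Z)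
      (g := g) (cl := cl) (w := fun l => Hk h' h'' j₀ l * (t l : K[X]))
      (w0 := h'' j₀ * (t₀ : K[X])) (P := P) j₀ ?_ H.h3 ?_ ?_ ?_ ?_ (ω P) (hω P) χ
    · refine hb.trans ?_
      rw [hcard]
      have hc : @Fintype.card (AdjoinRoot P) hFt = Fintype.card K ^ P.natDegree := by
        exact (@Fintype.card_congr _ _ hFt (Pool.Agent.H985.Chow.Win.ftP P) (Equiv.refl _)).trans
          (card_P P)
      rw [hc]
      push_cast
      have : (0 : ℝ) ≤ (Fintype.card K : ℝ) ^ P.natDegree := by positivity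
      nlinarith
    · intro i
      constructor
      · intro h
        by_contra hne
        exact h2.not_isUnit ((H.h2 _ _ hne).isUnit_of_dvd' h (h3.mul_left _))
      · intro h
        show P ∣ h' (cl i) * h'' (cl i)
        rw [h]
        exact h3.mul_left _
    · exact (H.h1 j₀).2.2.2.2.2.2 P ⟨h1, h2, h3.mul_left _⟩
    · exact h3.mul_right _
    · refine not_dvd_w0 h2 ((H.h1 j₀).2.2.1.squarefree_of_dvd (Dvd.intro_left _ rfl)) h3
        (not_dvd_of_cop h2 (H.h1 j₀).2.2.2.1 (h3.mul_left _)) ?_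
      intro h
      apply hPb
      rw [hIb, Finset.mem_filter]
      exact ⟨hP, Or.inr h⟩
    · intro i i' A A' hi hi' h
      by_contra hne
      apply hPb
      rw [hIb, Finset.mem_filter]
      refine ⟨hP, Or.inl ?_⟩
      refine bad_rel h2 (not_dvd_of_cop h2 (H.h1 j₀).2.2.2.1 (h3.mul_left _))
        (Hk_cop H h2 h3) t ?_ hne h
      intro hii
      have := H.h4 i i' hii (hi.trans hi'.symm)
      rw [hi] at this
      exact not_dvd_of_cop h2 this h3
  · rw [hdeg]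
    exact H.h5

end fix

/-- The window bound with a further factor `e` that disappears after the differences. -/
theorem win4w (hgcs : S_gcs) (hlock : S_lock) (hlocf : S_locfw) (hfin : S_fin) (hbadt : S_badt)
    (hcnt : S_cnt) : ∀ k r : ℕ, ∃ M : ℝ, 1 ≤ M ∧
  ∀ (K : Type) [Field K] [Fintype K] [CharP K 2] (L D T : ℕ) (E : K[X])
    (b h' h'' : Fin r → K[X]) (Z g : Fin k → K[X]) (cl : Fin k → Fin r) (j₀ : Fin r)
    (e : K[X] → ℝ),
    (∀ j, (h' j).Monic ∧ (h'' j).Monic ∧ Squarefree (h' j * h'' j) ∧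
      IsCoprime E (h' j * h'' j) ∧ (h' j).natDegree + D ≤ L ∧ (h'' j).natDegree + D ≤ L ∧
      ∀ P ∈ PA (h' j * h'' j), ¬ P ∣ derivative (b j)) →
    (∀ i j, i ≠ j → IsCoprime (h' i * h'' i) (h' j * h'' j)) → (∃ i, cl i = j₀) →
    (∀ i j, i ≠ j → cl i = cl j → IsCoprime (Z i - Z j) (h'' (cl i))) →
    L ≤ 2 * (h'' j₀).natDegree → (6 * r + 3) * T ≤ D → (∀ u, |e u| ≤ 1) →
    (∀ (t : Fin r × Bool × Fin 3 → K[X]) (t₀ : K[X]), ∃ ω : ∀ P : K[X], AdjoinRoot P → ℝ,
      (∀ P z, |ω P z| ≤ 1) ∧ (∀ P, ¬ P ∣ h'' j₀ → ∀ z, ω P z = 1) ∧ ∀ u,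
      (∏ A : Finset (Fin r × Bool × Fin 3), e (u + ∑ l ∈ A, Hk h' h'' j₀ l * t l)) *
      ∏ A : Finset (Fin r × Bool × Fin 3),
        e (u + h'' j₀ * t₀ + ∑ l ∈ A, Hk h' h'' j₀ l * t l) =
        ∏ᶠ P ∈ PA (h'' j₀), ω P (AdjoinRoot.mk P (E * u))) →
    |∑ᶠ u ∈ {u : K[X] | u.degree < (L : WithBot ℕ)}, e u * ∏ i,
        ∏ᶠ P ∈ PA (h' (cl i) * h'' (cl i)), GP (b (cl i)) (g i) P (Z i + E * u)| ^
          (2 ^ (6 * r + 1)) ≤
      M ^ (∑ j, (PA (h' j * h'' j)).ncard) * (Fintype.card K : ℝ) ^ (L * 2 ^ (6 * r + 1)) /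
        (Fintype.card K : ℝ) ^ T := by
  intro k r
  rcases Nat.eq_zero_or_pos r with rfl | hr
  · exact ⟨1, le_rfl, fun K _ _ _ L D T E b h' h'' Z g cl j₀ => j₀.elim0⟩
  obtain ⟨M2, hM2, hbad⟩ := hbadt (6 * r) ((k * 2 ^ (6 * r)) * (k * 2 ^ (6 * r))) (by omega)
  set X1 : ℝ := (2 * (2 * (k * 2 ^ (6 * r)) : ℕ) + 1 : ℝ) with hX1
  set X2 : ℝ := (2 * (k * 2 ^ (6 * r) : ℝ) + 1) with hX2
  have hX1' : 1 ≤ X1 := by
    rw [hX1]
    have : (0 : ℝ) ≤ ((2 * (k * 2 ^ (6 * r)) : ℕ) : ℝ) := Nat.cast_nonneg _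
    linarith
  have hX2' : 1 ≤ X2 := by
    rw [hX2]
    have : (0 : ℝ) ≤ (k * 2 ^ (6 * r) : ℝ) := by positivity
    linarith
  set M1 : ℝ := X1 * X2 with hM1
  have hM1' : 1 ≤ M1 := one_le_mul_of_one_le_of_one_le hX1' hX2'
  refine ⟨2 * M2 + 4 + M1, by linarith, ?_⟩
  intro K _ _ _ L D T E b h' h'' Z g cl j₀ e c1 c2 c3 c4 c5 c6 c7 c8
  classical
  have H : Hyp L D E b h' h'' Z cl j₀ := ⟨c1, c2, c3, c4, c5⟩
  choose Is hIs hIsp using fun j => facs ((c1 j).1.mul (c1 j).2.1) (c1 j).2.2.1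
  obtain ⟨Il, hIl, hIlp⟩ := facs (c1 j₀).2.1
    ((c1 j₀).2.2.1.squarefree_of_dvd (Dvd.intro_left _ rfl))
  let _ : Fintype (degreeLT K L) := Fintype.ofFinite _
  let _ : Fintype (degreeLT K D) := Fintype.ofFinite _
  set q : ℝ := (Fintype.card K : ℝ) with hq
  have hq1 : 1 ≤ q := by
    rw [hq]
    exact_mod_cast Fintype.card_pos
  have hq0 : 0 < q := by linarith
  set f0 : K[X] → ℝ := fun u => (1 : AddChar K[X] ℝ) u * ∏ i,
    ∏ᶠ P ∈ PA (h' (cl i) * h'' (cl i)), GP (b (cl i)) (g i) P (Z i + E * u) with hf0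
  set f : K[X] → ℝ := fun u => e u * ∏ i, ∏ᶠ P ∈ PA (h' (cl i) * h'' (cl i)),
    GP (b (cl i)) (g i) P (Z i + E * u) with hf
  have hf0abs : ∀ u, |f0 u| ≤ 1 := fun u => abs_f b (fun j => h' j * h'' j) Z g cl E hIs 1 u
  have hff : ∀ u, f u = e u * f0 u := fun u => by
    rw [hf, hf0]
    simp only [AddChar.one_apply, one_mul]
  have hfabs : ∀ u, |f u| ≤ 1 := fun u => by
    rw [hff, abs_mul]
    exact mul_le_one₀ (c7 u) (abs_nonneg _) (hf0abs u)
  set ω : ℕ := ∑ j, (PA (h' j * h'' j)).ncard with hω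
  have hPA : ∀ j, PA (h' j * h'' j) = ↑(Is j) := by
    intro j
    ext P
    rw [Finset.mem_coe, hIs]
    rfl
  have hPAl : PA (h'' j₀) = ↑Il := by
    ext P
    rw [Finset.mem_coe, hIl]
    rfl
  have hIω : (Finset.univ.biUnion Is).card ≤ ω := by
    refine Finset.card_biUnion_le.trans (le_of_eq ?_)
    rw [hω]
    refine Finset.sum_congr rfl fun j _ => ?_
    rw [hPA, Set.ncard_coe_finset]
  have hIlI : Il ⊆ Finset.univ.biUnion Is := by
    intro P hP
    obtain ⟨h1, h2, h3⟩ := (hIl P).1 hP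
    rw [Finset.mem_biUnion]
    exact ⟨j₀, Finset.mem_univ _, (hIs _ _).2 ⟨h1, h2, h3.mul_left _⟩⟩
  have hIlω : Il.card ≤ ω := (Finset.card_le_card hIlI).trans hIω
  have hcU : Fintype.card (degreeLT K L) = Fintype.card K ^ L := card_dl L
  have hcD : Fintype.card (degreeLT K D) = Fintype.card K ^ D := card_dl D
  have hcU' : (Fintype.card (degreeLT K L) : ℝ) = q ^ L := by rw [hcU]; push_cast; rfl
  have hcD' : (Fintype.card (degreeLT K D) : ℝ) = q ^ D := by rw [hcD]; push_cast; rfl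
  rw [fsum_eq]
  have htriv : ∀ F : degreeLT K L → ℝ, (∀ u, |F u| ≤ 1) → |∑ u, F u| ≤ q ^ L := by
    intro F hF
    refine (Finset.abs_sum_le_sum_abs _ _).trans ((Finset.sum_le_sum fun u _ => hF u).trans ?_)
    rw [Finset.sum_const, Finset.card_univ, nsmul_eq_mul, mul_one, hcU']
  have hT0 : T ≤ (6 * r + 3) * T := Nat.le_mul_of_pos_left _ (by omega)
  have hDL : (h'' j₀).natDegree + D ≤ L := (c1 j₀).2.2.2.2.2.1
  have hexp : (q ^ L) ^ (2 ^ (6 * r + 1)) = q ^ (L * 2 ^ (6 * r + 1)) := by rw [pow_mul]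
  by_cases hω0 : ω = 0
  · have hIl0 : Il = ∅ := Finset.card_eq_zero.1 (by omega)
    have hdeg0 : (h'' j₀).natDegree = 0 := by
      rw [← hIlp, hIl0, Finset.prod_empty, natDegree_one]
    have hT : T = 0 := by omega
    rw [hT, hω0, pow_zero, pow_zero, one_mul, div_one, ← hexp]
    exact pow_le_pow_left₀ (abs_nonneg _) (htriv _ fun u => hfabs _) _
  have hω1 : 1 ≤ ω := Nat.one_le_iff_ne_zero.2 hω0
  have hcΛ : Fintype.card (Fin r × Bool × Fin 3) = 6 * r := by
    rw [Fintype.card_prod, Fintype.card_prod, Fintype.card_fin, Fintype.card_bool,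
      Fintype.card_fin]
    ring
  have hbox := box hgcs (U := degreeLT K L) (T := degreeLT K D) (Λ := Fin r × Bool × Fin 3)
    (fun l => mh (Hk h' h'' j₀ l) (Hk_deg H l)) (mh (h'' j₀) hDL) (fun u => f u.1)
    (fun u => hfabs _) (B := (2 * M2 + 4 + M1) ^ ω / q ^ T) ?_
  · rw [hcΛ, hcU', hexp] at hbox
    refine hbox.trans (le_of_eq ?_)
    ring
  -- the main estimate
  choose ω1 hwa hwb hwc using c8
  have hterm : ∀ (t : Fin r × Bool × Fin 3 → degreeLT K D) (t₀ : degreeLT K D)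
      (u : degreeLT K L),
      (∏ A : Finset (Fin r × Bool × Fin 3), f ((u + ∑ l ∈ A, mh (Hk h' h'' j₀ l) (Hk_deg H l) (t l) :
        degreeLT K L) : K[X])) *
      ∏ A : Finset (Fin r × Bool × Fin 3), f ((u + mh (h'' j₀) hDL t₀ +
        ∑ l ∈ A, mh (Hk h' h'' j₀ l) (Hk_deg H l) (t l) : degreeLT K L) : K[X]) =
        ∏ P ∈ Finset.univ.biUnion Is, (phiW E b (fun j => h' j * h'' j) Z g cl
          (fun l => Hk h' h'' j₀ l * (t l : K[X])) (h'' j₀ * (t₀ : K[X])) P (rp P (E * u)) *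
          ω1 (fun l => (t l : K[X])) (t₀ : K[X]) P (rp P (E * u)).1) := by
    intro t t₀ u
    have h0 := F_eq E b (fun j => h' j * h'' j) Z g cl hIs 1
      (fun l => Hk h' h'' j₀ l * (t l : K[X])) (h'' j₀ * (t₀ : K[X])) (u : K[X]) f0 (fun u => rfl)
    rw [AddChar.one_apply, one_pow, one_mul] at h0
    have h1 := hwc (fun l => (t l : K[X])) (t₀ : K[X]) (u : K[X])
    have h1' : ∏ᶠ P ∈ PA (h'' j₀), ω1 (fun l => (t l : K[X])) (t₀ : K[X]) P
        (AdjoinRoot.mk P (E * (u : K[X]))) = ∏ P ∈ Finset.univ.biUnion Is,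
        ω1 (fun l => (t l : K[X])) (t₀ : K[X]) P (rp P (E * (u : K[X]))).1 := by
      rw [hPAl, finprod_mem_coe_finset]
      refine Finset.prod_subset hIlI fun P hP hP' => ?_
      obtain ⟨j, -, hj⟩ := Finset.mem_biUnion.1 hP
      obtain ⟨g1, g2, -⟩ := (hIs _ _).1 hj
      exact hwb _ _ P (fun hd => hP' ((hIl P).2 ⟨g1, g2, hd⟩)) _
    have hR : ∏ P ∈ Finset.univ.biUnion Is, (phiW E b (fun j => h' j * h'' j) Z g cl
          (fun l => Hk h' h'' j₀ l * (t l : K[X])) (h'' j₀ * (t₀ : K[X])) P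
          (rp P (E * (u : K[X]))) *
          ω1 (fun l => (t l : K[X])) (t₀ : K[X]) P (rp P (E * (u : K[X]))).1) =
        (∏ P ∈ Finset.univ.biUnion Is, phiW E b (fun j => h' j * h'' j) Z g cl
          (fun l => Hk h' h'' j₀ l * (t l : K[X])) (h'' j₀ * (t₀ : K[X])) P
          (rp P (E * (u : K[X])))) * ∏ P ∈ Finset.univ.biUnion Is,
          ω1 (fun l => (t l : K[X])) (t₀ : K[X]) P (rp P (E * (u : K[X]))).1 :=
      Finset.prod_mul_distrib
    rw [hR, ← h0, ← h1', ← h1]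
    have e1 : ∏ A : Finset (Fin r × Bool × Fin 3), f ((u + ∑ l ∈ A,
        mh (Hk h' h'' j₀ l) (Hk_deg H l) (t l) : degreeLT K L) : K[X]) =
        (∏ A : Finset (Fin r × Bool × Fin 3), e (u + ∑ l ∈ A, Hk h' h'' j₀ l * (t l : K[X]))) *
        ∏ A : Finset (Fin r × Bool × Fin 3), f0 (u + ∑ l ∈ A, Hk h' h'' j₀ l * (t l : K[X])) := by
      rw [← Finset.prod_mul_distrib]
      refine Finset.prod_congr rfl fun A _ => ?_
      rw [← hff]
      congr 1
      rw [Submodule.coe_add, Submodule.coe_sum]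
      rfl
    have e2 : ∏ A : Finset (Fin r × Bool × Fin 3), f ((u + mh (h'' j₀) hDL t₀ +
        ∑ l ∈ A, mh (Hk h' h'' j₀ l) (Hk_deg H l) (t l) : degreeLT K L) : K[X]) =
        (∏ A : Finset (Fin r × Bool × Fin 3),
          e (u + h'' j₀ * (t₀ : K[X]) + ∑ l ∈ A, Hk h' h'' j₀ l * (t l : K[X]))) *
        ∏ A : Finset (Fin r × Bool × Fin 3),
          f0 (u + h'' j₀ * (t₀ : K[X]) + ∑ l ∈ A, Hk h' h'' j₀ l * (t l : K[X])) := by
      rw [← Finset.prod_mul_distrib]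
      refine Finset.prod_congr rfl fun A _ => ?_
      rw [← hff]
      congr 1
      rw [Submodule.coe_add, Submodule.coe_add, Submodule.coe_sum]
      rfl
    rw [e1, e2]
    ring
  set p : (Fin r × Bool × Fin 3 → degreeLT K D) → Prop := fun t => 6 * r * T ≤
    ∑ P ∈ Il with (∃ l, ∃ z ∈ BB E Z (Hk h' h'' j₀) l t P, P ∣ (t l : K[X]) - z),
      P.natDegree with hp
  set p₀ : degreeLT K D → Prop := fun t₀ => T ≤ ∑ P ∈ Il with P ∣ (t₀ : K[X]), P.natDegree
    with hp₀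
  have hsplit := split_sum p p₀ (fun t t₀ => |∑ u : degreeLT K L,
      (∏ A : Finset (Fin r × Bool × Fin 3), f ((u + ∑ l ∈ A, mh (Hk h' h'' j₀ l) (Hk_deg H l) (t l) :
        degreeLT K L) : K[X])) *
      ∏ A : Finset (Fin r × Bool × Fin 3), f ((u + mh (h'' j₀) hDL t₀ +
        ∑ l ∈ A, mh (Hk h' h'' j₀ l) (Hk_deg H l) (t l) : degreeLT K L) : K[X])|)
    (A := q ^ L) (z := M1 ^ (Finset.univ.biUnion Is).card *
      q ^ ((h'' j₀).natDegree + (6 * r * T + T))) (by positivity) (by positivity) ?_ ?_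
  · refine hsplit.trans ?_
    have hcΛT : (Fintype.card (Fin r × Bool × Fin 3 → degreeLT K D) : ℝ) = q ^ (D * (6 * r)) := by
      rw [Fintype.card_fun, hcΛ, Nat.cast_pow, hcD', ← pow_mul]
    rw [hcΛT, hcD', hcΛ, hcU']
    have hx : ((Finset.univ.filter p).card : ℝ) ≤ M2 ^ (PA (h'' j₀)).ncard * q ^ (D * (6 * r)) *
        (1 / q ^ T + 1 / q ^ D) := by
      have h1 := hbad K (Fin r × Bool × Fin 3) D T (h'' j₀) (fun l t P => BB E Z (Hk h' h'' j₀) l t P)
        (le_of_eq hcΛ) (c1 j₀).2.1 ((c1 j₀).2.2.1.squarefree_of_dvd (Dvd.intro_left _ rfl))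
        (fun l t P => by
          have := BB_card E Z (Hk h' h'' j₀) l t P
          rwa [hcΛ] at this)
        (fun l t t' h P => BB_indep E Z (Hk h' h'' j₀) l t t' h P)
      rw [hcΛ] at h1
      have h2 : {t : Fin r × Bool × Fin 3 → degreeLT K D | 6 * r * T ≤
          ∑ᶠ P ∈ PA (h'' j₀) ∩ {P | ∃ l, ∃ z ∈ BB E Z (Hk h' h'' j₀) l t P,
            P ∣ (t l : K[X]) - z}, P.natDegree} = ↑(Finset.univ.filter p) := by
        ext t
        rw [Finset.coe_filter, Set.mem_ofPred_eq, Set.mem_ofPred_eq]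
        have h3 : PA (h'' j₀) ∩ {P | ∃ l, ∃ z ∈ BB E Z (Hk h' h'' j₀) l t P,
            P ∣ (t l : K[X]) - z} = ↑(Il.filter (fun P => ∃ l, ∃ z ∈ BB E Z (Hk h' h'' j₀) l t P,
            P ∣ (t l : K[X]) - z)) := by
          rw [Finset.coe_filter, hPAl]
          rfl
        rw [h3, finsum_mem_coe_finset]
        simp only [Finset.mem_univ, true_and]
        rfl
      rw [h2, Set.ncard_coe_finset] at h1
      exact h1
    have hy : ((Finset.univ.filter p₀).card : ℝ) ≤ 2 ^ (PA (h'' j₀)).ncard *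
        (q ^ D / q ^ T + 1) := by
      have h1 := hcnt K D T 1 (h'' j₀) le_rfl (c1 j₀).2.1
        ((c1 j₀).2.2.1.squarefree_of_dvd (Dvd.intro_left _ rfl)) (fun _ => {0})
        (fun P _ => by simp)
      have h2 : ((Finset.univ.filter p₀).card : ℝ) ≤ ({y : K[X] | y.degree < (D : WithBot ℕ) ∧
          T ≤ ∑ᶠ P ∈ PA (h'' j₀) ∩ {P | ∃ z ∈ ({0} : Finset K[X]), P ∣ y - z},
            P.natDegree}.ncard : ℝ) := by
        have h4 : (Finset.univ.filter p₀).card =
            (((Finset.univ.filter p₀).image (fun t : degreeLT K D => (t : K[X])) :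
              Finset K[X]) : Set K[X]).ncard := by
          rw [Set.ncard_coe_finset, Finset.card_image_of_injective _ Subtype.val_injective]
        rw [h4]
        have hfinD : {y : K[X] | y.degree < (D : WithBot ℕ)}.Finite := by
          rw [set_eq]
          exact Set.toFinite _
        have hsub : (((Finset.univ.filter p₀).image (fun t : degreeLT K D => (t : K[X])) :
            Finset K[X]) : Set K[X]) ⊆ {y : K[X] | y.degree < (D : WithBot ℕ) ∧
            T ≤ ∑ᶠ P ∈ PA (h'' j₀) ∩ {P | ∃ z ∈ ({0} : Finset K[X]), P ∣ y - z},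
            P.natDegree} := by
          intro y hy
          rw [Finset.mem_coe, Finset.mem_image] at hy
          obtain ⟨t₀, ht₀, rfl⟩ := hy
          rw [Finset.mem_filter] at ht₀
          refine ⟨mem_degreeLT.1 t₀.2, ?_⟩
          have h3 : PA (h'' j₀) ∩ {P | ∃ z ∈ ({0} : Finset K[X]), P ∣ (t₀ : K[X]) - z} =
              ↑(Il.filter (fun P => P ∣ (t₀ : K[X]))) := by
            rw [Finset.coe_filter, hPAl]
            ext P
            simp
          rw [h3, finsum_mem_coe_finset]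
          exact ht₀.2
        have h5 := Set.ncard_le_ncard hsub (hfinD.subset fun y hy => hy.1)
        exact_mod_cast h5
      refine h2.trans (h1.trans (le_of_eq ?_))
      rw [Nat.cast_one, mul_one]
    have h6 := numer (q := q) (M1 := M1) (M2 := M2) (M := 2 * M2 + 4 + M1) (D := D) (L := L)
      (T := T) (n := 6 * r * T + T) (d := (h'' j₀).natDegree) (ω := ω) (a := 6 * r)
      (b'' := (Finset.univ.biUnion Is).card) (a1 := (PA (h'' j₀)).ncard)
      (a2 := (PA (h'' j₀)).ncard) hq1 hM1' hM2 rfl hω1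
      (by rw [hPAl, Set.ncard_coe_finset]; exact hIlω)
      (by rw [hPAl, Set.ncard_coe_finset]; exact hIlω) hIω (by omega)
      (by
        have : (6 * r + 3) * T = 6 * r * T + 3 * T := by ring
        omega) (by omega) hx hy le_rfl
    refine h6.trans (le_of_eq ?_)
    rw [← pow_mul, mul_add, mul_one]
  · intro t t₀
    refine htriv _ fun u => ?_
    rw [abs_mul, Finset.abs_prod, Finset.abs_prod]
    exact mul_le_one₀ (Finset.prod_le_one (fun _ _ => abs_nonneg _) fun A _ => hfabs _)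
      (Finset.prod_nonneg fun _ _ => abs_nonneg _)
      (Finset.prod_le_one (fun _ _ => abs_nonneg _) fun A _ => hfabs _)
  · intro t t₀ ht ht₀
    rw [Finset.sum_congr rfl fun u _ => hterm t t₀ u]
    have h1 := fixedw hlock hlocf hfin H g hIs hIl hIlp t t₀
      (ω1 (fun l => (t l : K[X])) (t₀ : K[X])) (hwa _ _) (hwb _ _)
    rw [fsum_eq] at h1
    refine h1.trans ?_
    have h2 : X1 ^ ((Finset.univ.biUnion Is) \ Il).card * X2 ^ Il.card ≤
        M1 ^ (Finset.univ.biUnion Is).card := by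
      have h3 : ((Finset.univ.biUnion Is) \ Il).card + Il.card = (Finset.univ.biUnion Is).card :=
        Finset.card_sdiff_add_card_eq_card hIlI
      rw [← h3, hM1, pow_add]
      have h4 : X1 ≤ X1 * X2 := le_mul_of_one_le_right (by linarith) hX2'
      have h5 : X2 ≤ X1 * X2 := le_mul_of_one_le_left (by linarith) hX1'
      gcongr
    have h3 : q ^ ((h'' j₀).natDegree +
          (∑ P ∈ Il with (∃ l, ∃ z ∈ BB E Z (Hk h' h'' j₀) l t P, P ∣ (t l : K[X]) - z),
            P.natDegree + ∑ P ∈ Il with P ∣ (t₀ : K[X]), P.natDegree)) ≤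
        q ^ ((h'' j₀).natDegree + (6 * r * T + T)) := by
      apply pow_le_pow_right₀ hq1
      rw [hp] at ht
      rw [hp₀] at ht₀
      simp only [not_le] at ht ht₀
      omega
    exact mul_le_mul h2 h3 (by positivity) (by positivity)

section final

lemma ac_sum {G ι : Type} [AddCommGroup G] (ψ : AddChar G ℝ) (s : Finset ι) (f : ι → G) :
    ψ (∑ i ∈ s, f i) = ∏ i ∈ s, ψ (f i) := by
  classical
  induction s using Finset.induction_on with
  | empty => rw [Finset.sum_empty, Finset.prod_empty, AddChar.map_zero_eq_one]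
  | insert a s ha ih => rw [Finset.sum_insert ha, Finset.prod_insert ha,
      AddChar.map_add_eq_mul, ih]

lemma sum_inv {G : Type} [AddCommGroup G] (h2 : ∀ x : G, x + x = 0) {Λ : Type} [Fintype Λ]
    [DecidableEq Λ] (m : Λ) (F : Finset Λ → G) (hF : ∀ A, F (symmDiff A {m}) = F A) :
    ∑ A : Finset Λ, F A = 0 := by
  refine Finset.sum_involution (fun A _ => symmDiff A {m}) ?_ ?_ ?_ ?_
  · intro A _
    rw [hF]
    exact h2 _
  · intro A _ _ h
    have h3 : m ∈ symmDiff A {m} ↔ m ∉ A := by simp [Finset.mem_symmDiff]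
    rw [h] at h3
    tauto
  · intro A _
    exact Finset.mem_univ _
  · intro A _
    exact symmDiff_symmDiff_cancel_right _ _

/-- the sum of an affine function over all the subsets vanishes -/
lemma sum_cube {G : Type} [AddCommGroup G] (h2 : ∀ x : G, x + x = 0) {Λ : Type} [Fintype Λ]
    [DecidableEq Λ] [Nontrivial Λ] (a : G) (d : Λ → G) :
    ∑ A : Finset Λ, (a + ∑ l ∈ A, d l) = 0 := by
  obtain ⟨l0⟩ : Nonempty Λ := inferInstance
  rw [Finset.sum_add_distrib, sum_inv h2 l0 (fun _ => a) (fun _ => rfl), zero_add]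
  have h1 : ∀ A : Finset Λ, ∑ l ∈ A, d l = ∑ l, if l ∈ A then d l else 0 := by
    intro A
    rw [Finset.sum_ite_mem, Finset.univ_inter]
  rw [Finset.sum_congr rfl fun A _ => h1 A, Finset.sum_comm]
  refine Finset.sum_eq_zero fun l _ => ?_
  obtain ⟨m, hm⟩ := exists_ne l
  refine sum_inv h2 m _ fun A => ?_
  have h3 : l ∈ symmDiff A {m} ↔ l ∈ A := by
    rw [Finset.mem_symmDiff, Finset.mem_singleton]
    constructor
    · rintro (h | h)
      · exact h.1
      · exact absurd h.1.symm hm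
    · intro h
      exact Or.inl ⟨h, fun h' => hm h'.symm⟩
  simp only [h3]

variable {K : Type} [Field K] [CharP K 2]

lemma two_add (P : K[X]) (x : AdjoinRoot P) : x + x = 0 := by
  obtain ⟨a, rfl⟩ := AdjoinRoot.mk_surjective x
  rw [← map_add, CharTwo.add_self_eq_zero, map_zero]

lemma psi_abs (P : K[X]) (ψ : AddChar (AdjoinRoot P) ℝ) (x : AdjoinRoot P) : |ψ x| = 1 := by
  have h : ψ x * ψ x = 1 := by
    rw [← AddChar.map_add_eq_mul, two_add, AddChar.map_zero_eq_one]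
  have h2 : |ψ x| * |ψ x| = 1 := by rw [← abs_mul, h, abs_one]
  nlinarith [abs_nonneg (ψ x)]

lemma Hk_one (h' h'' : K[X]) (l : Fin 1 × Bool × Fin 3) :
    Hk (fun _ : Fin 1 => h') (fun _ => h'') 0 l = h' := by
  unfold Hk
  rw [if_neg]
  rintro ⟨-, h⟩
  exact h (Subsingleton.elim _ _)

open Classical in
/-- the values at the cube of the factor at `P` -/
lemma local_cube {Λ : Type} [Fintype Λ] [DecidableEq Λ] [Nontrivial Λ] {h' h'' P : K[X]}
    (hP : Irreducible P) (hd : P ∣ h' * h'') (ψ : AddChar (AdjoinRoot P) ℝ) (c : AdjoinRoot P)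
    (lam : K[X] →+ AdjoinRoot P) (io : AdjoinRoot P → AdjoinRoot P) (Z E u t₀ : K[X])
    (t : Λ → K[X]) :
    ∏ A : Finset Λ, (ψ ((c + lam (u + ∑ l ∈ A, h' * t l)) *
        io (AdjoinRoot.mk P (Z + E * (u + ∑ l ∈ A, h' * t l)))) *
      ψ ((c + lam (u + h'' * t₀ + ∑ l ∈ A, h' * t l)) *
        io (AdjoinRoot.mk P (Z + E * (u + h'' * t₀ + ∑ l ∈ A, h' * t l))))) =
    if P ∣ h'' then ψ (lam (h'' * t₀) * ∑ A : Finset Λ,
      io (AdjoinRoot.mk P (Z + E * ∑ l ∈ A, h' * t l) + AdjoinRoot.mk P (E * u))) else 1 := by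
  split_ifs with h
  · have hterm : ∀ A : Finset Λ, ψ ((c + lam (u + ∑ l ∈ A, h' * t l)) *
        io (AdjoinRoot.mk P (Z + E * (u + ∑ l ∈ A, h' * t l)))) *
      ψ ((c + lam (u + h'' * t₀ + ∑ l ∈ A, h' * t l)) *
        io (AdjoinRoot.mk P (Z + E * (u + h'' * t₀ + ∑ l ∈ A, h' * t l)))) =
        ψ (lam (h'' * t₀) *
          io (AdjoinRoot.mk P (Z + E * ∑ l ∈ A, h' * t l) + AdjoinRoot.mk P (E * u))) := by
      intro A
      have e1 : AdjoinRoot.mk P (Z + E * (u + ∑ l ∈ A, h' * t l)) =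
          AdjoinRoot.mk P (Z + E * ∑ l ∈ A, h' * t l) + AdjoinRoot.mk P (E * u) := by
        rw [← map_add]
        congr 1
        ring
      have e2 : AdjoinRoot.mk P (Z + E * (u + h'' * t₀ + ∑ l ∈ A, h' * t l)) =
          AdjoinRoot.mk P (Z + E * ∑ l ∈ A, h' * t l) + AdjoinRoot.mk P (E * u) := by
        have e0 : AdjoinRoot.mk P (E * (h'' * t₀)) = 0 := by
          rw [AdjoinRoot.mk_eq_zero]
          exact (h.mul_right _).mul_left _
        rw [← map_add, ← sub_eq_zero, ← map_sub, ← e0]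
        congr 1
        ring
      rw [e1, e2, ← AddChar.map_add_eq_mul, ← add_mul]
      congr 2
      rw [map_add lam, map_add lam, map_add lam]
      have h3 := two_add P (c + lam u + lam (∑ l ∈ A, h' * t l))
      calc c + (lam u + lam (∑ l ∈ A, h' * t l)) + (c + (lam u + lam (h'' * t₀) +
            lam (∑ l ∈ A, h' * t l)))
          = (c + lam u + lam (∑ l ∈ A, h' * t l) + (c + lam u + lam (∑ l ∈ A, h' * t l))) +
            lam (h'' * t₀) := by abel
        _ = lam (h'' * t₀) := by rw [h3, zero_add]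
    rw [Finset.prod_congr rfl fun A _ => hterm A, Finset.mul_sum, ac_sum]
  · have hd' : P ∣ h' := (hP.prime.dvd_or_dvd hd).resolve_right h
    have key : ∀ v : K[X], ∏ A : Finset Λ, ψ ((c + lam (v + ∑ l ∈ A, h' * t l)) *
        io (AdjoinRoot.mk P (Z + E * (v + ∑ l ∈ A, h' * t l)))) = 1 := by
      intro v
      have hterm : ∀ A : Finset Λ, ψ ((c + lam (v + ∑ l ∈ A, h' * t l)) *
        io (AdjoinRoot.mk P (Z + E * (v + ∑ l ∈ A, h' * t l)))) =
          ψ (((c + lam v) + ∑ l ∈ A, lam (h' * t l)) * io (AdjoinRoot.mk P (Z + E * v))) := by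
        intro A
        have e0 : AdjoinRoot.mk P (E * ∑ l ∈ A, h' * t l) = 0 := by
          rw [AdjoinRoot.mk_eq_zero, ← Finset.mul_sum]
          exact (hd'.mul_right _).mul_left _
        have e1 : AdjoinRoot.mk P (Z + E * (v + ∑ l ∈ A, h' * t l)) =
            AdjoinRoot.mk P (Z + E * v) := by
          rw [← sub_eq_zero, ← map_sub, ← e0]
          congr 1
          ring
        rw [e1, map_add lam, map_sum, ← add_assoc]
      rw [Finset.prod_congr rfl fun A _ => hterm A, ← ac_sum,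
        ← Finset.sum_mul, sum_cube (two_add P), zero_mul, AddChar.map_zero_eq_one]
    rw [Finset.prod_mul_distrib, key u, key (u + h'' * t₀), one_mul]

end final

theorem main : S_twin7 := by
  intro hgcs hlock hlocf hfin hbadt hcnt
  obtain ⟨M, hM, H⟩ := win4w hgcs hlock hlocf hfin hbadt hcnt 1 1
  refine ⟨M, hM, ?_⟩
  intro K _ _ _ L D T E b h' h'' Z g χ ψ c lam io m1 m2 sq cop d1 d2 hb hL hT
  classical
  obtain ⟨I, hI, hIp⟩ := facs (m1.mul m2) sq
  obtain ⟨Il, hIl, hIlp⟩ := facs m2 (sq.squarefree_of_dvd (Dvd.intro_left _ rfl))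
  have hPA : PA (h' * h'') = ↑I := by
    ext P
    rw [Finset.mem_coe, hI]
    rfl
  have hPAl : PA h'' = ↑Il := by
    ext P
    rw [Finset.mem_coe, hIl]
    rfl
  have hIlI : Il ⊆ I := by
    intro P hP
    obtain ⟨h1, h2, h3⟩ := (hIl P).1 hP
    exact (hI P).2 ⟨h1, h2, h3.mul_left _⟩
  set e : K[X] → ℝ := fun u => χ u * ∏ P ∈ I,
    ψ P ((c P + lam P u) * io P (AdjoinRoot.mk P (Z + E * u))) with he
  have h1 := H K L D T E (fun _ => b) (fun _ => h') (fun _ => h'') (fun _ => Z) (fun _ => g)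
    (fun _ => 0) 0 e (fun _ => ⟨m1, m2, sq, cop, d1, d2, hb⟩)
    (fun i j hij => absurd (Subsingleton.elim i j) hij) ⟨0, rfl⟩
    (fun i j hij => absurd (Subsingleton.elim i j) hij) hL (by omega) ?_ ?_
  · have h2 : ∀ u, e u * ∏ i : Fin 1, ∏ᶠ P ∈ PA ((fun _ : Fin 1 => h') ((fun _ => 0) i) *
        (fun _ : Fin 1 => h'') ((fun _ => 0) i)), GP ((fun _ : Fin 1 => b) ((fun _ => 0) i))
        ((fun _ : Fin 1 => g) i) P ((fun _ : Fin 1 => Z) i + E * u) =
        χ u * ∏ᶠ P ∈ PA (h' * h''), (GP b g P (Z + E * u) *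
          ψ P ((c P + lam P u) * io P (AdjoinRoot.mk P (Z + E * u)))) := by
      intro u
      rw [Fin.prod_univ_one]
      show e u * ∏ᶠ P ∈ PA (h' * h''), GP b g P (Z + E * u) = _
      rw [hPA, finprod_mem_coe_finset, finprod_mem_coe_finset, Finset.prod_mul_distrib, he]
      ring
    rw [finsum_mem_congr rfl fun u _ => h2 u] at h1
    rw [Fin.sum_univ_one] at h1
    exact h1
  · intro u
    rw [he]
    simp only
    rw [abs_mul, chi_abs, one_mul, Finset.abs_prod]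
    exact Finset.prod_le_one (fun _ _ => abs_nonneg _) fun P _ => (psi_abs P _ _).le
  · intro t t₀
    refine ⟨fun P z => if P ∣ h'' then ψ P (lam P (h'' * t₀) * ∑ A : Finset (Fin 1 × Bool × Fin 3),
      io P (AdjoinRoot.mk P (Z + E * ∑ l ∈ A, h' * t l) + z)) else 1, ?_, ?_, ?_⟩
    · intro P z
      show |if P ∣ h'' then ψ P (lam P (h'' * t₀) * ∑ A : Finset (Fin 1 × Bool × Fin 3),
        io P (AdjoinRoot.mk P (Z + E * ∑ l ∈ A, h' * t l) + z)) else 1| ≤ 1
      split_ifs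
      · exact (psi_abs P _ _).le
      · simp
    · intro P hP z
      exact if_neg hP
    · intro u
      simp only [Hk_one]
      rw [← Finset.prod_mul_distrib]
      have hterm : ∀ A : Finset (Fin 1 × Bool × Fin 3), e (u + ∑ l ∈ A, h' * t l) *
          e (u + h'' * t₀ + ∑ l ∈ A, h' * t l) = χ (h'' * t₀) * ∏ P ∈ I,
          (ψ P ((c P + lam P (u + ∑ l ∈ A, h' * t l)) *
            io P (AdjoinRoot.mk P (Z + E * (u + ∑ l ∈ A, h' * t l)))) *
          ψ P ((c P + lam P (u + h'' * t₀ + ∑ l ∈ A, h' * t l)) *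
            io P (AdjoinRoot.mk P (Z + E * (u + h'' * t₀ + ∑ l ∈ A, h' * t l))))) := by
        intro A
        have hχ : χ (u + ∑ l ∈ A, h' * t l) * χ (u + h'' * t₀ + ∑ l ∈ A, h' * t l) =
            χ (h'' * t₀) := by
          rw [← AddChar.map_add_eq_mul]
          congr 1
          have h2K : (2 : K[X]) = 0 := CharTwo.two_eq_zero
          linear_combination (u + ∑ l ∈ A, h' * t l) * h2K
        rw [he, Finset.prod_mul_distrib, ← hχ]
        simp only
        ring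
      rw [Finset.prod_congr rfl fun A _ => hterm A, Finset.prod_mul_distrib,
        ← ac_sum, sum_inv (fun x : K[X] => CharTwo.add_self_eq_zero x) (0, true, 0)
          (fun _ => h'' * t₀) (fun _ => rfl), AddChar.map_zero_eq_one, one_mul,
        Finset.prod_comm, hPAl, finprod_mem_coe_finset]
      rw [Finset.prod_congr rfl fun P hP => local_cube ((hI P).1 hP).2.1 ((hI P).1 hP).2.2
        (ψ P) (c P) (lam P) (io P) Z E u t₀ t]
      refine (Finset.prod_subset hIlI fun P hP hP' => ?_).symm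
      exact if_neg fun hd => hP' ((hIl P).2 ⟨((hI P).1 hP).1, ((hI P).1 hP).2.1, hd⟩)

end Pool.Agent.H290.FX.PWin7
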