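import Pool.Agent.H290.FX.PExp

/-!
# Differences with `X m ^ 2 + 1` irreducible, power saving (helper290)

`K` is a finite field of characteristic `2`, `q` its number of elements.  If `A` is a set of
polynomials of degree `< D` without two elements whose difference `m` is monic with `X m ^ 2 + 1`
irreducible, then `|A| ≤ q ^ ((1 - c) D)`.

Plan.  The weight of `m ∈ Mn K j` is the number of the `s ∈ Mn K n`, `s ∣ m`, weighted with
`fac (X * s)`, `n = ⌊κ D⌋`.  Its exponential sum `G` is, up to a power saving, nonnegative for the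
characters with a period of degree `≤ n` (the divisor `s` is exactly equidistributed modulo `r`), and
small for all other characters.  The degrees `j` of `m` get the weights `2 ^ j`, `D / 2 ≤ j < D`.
-/

set_option autoImplicit false

namespace Pool.Agent.H290.FX.F

open Polynomial
open scoped Classical
open Pool.Agent.H290.FX
open Pool.Agent.H290.FX.PExp (ph)
open Pool.Agent.H985.Chow (mob)
open Pool.Agent.H694.Typ (Mn)

variable {K : Type} [Field K]

/-- `X m ^ 2 + 1` is irreducible. -/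
def Ir (m : K[X]) : Prop := Irreducible (X * m ^ 2 + 1)

/-- The exponential sum. -/
noncomputable def SM (K : Type) [Field K] [Fintype K] (j : ℕ) (χ : AddChar K[X] ℝ) : ℝ :=
  ∑ m ∈ (Mn K j).filter (fun m => Ir m), χ m

/-- The product of `1 - 1 / |P|` over the primes `P ∣ f`. -/
noncomputable def fac {K : Type} [Field K] [Fintype K] (f : K[X]) : ℝ :=
  ∏ P ∈ (UniqueFactorizationMonoid.normalizedFactors f).toFinset,
    (1 - 1 / (Fintype.card K : ℝ) ^ P.natDegree)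

/-- The `t` of degree `k` with `X (s t) ^ 2 + 1` irreducible. -/
noncomputable def Ts (K : Type) [Field K] [Fintype K] (k : ℕ) (s : K[X]) : Finset K[X] :=
  (Mn K k).filter (fun t => Ir (s * t))

/-- **Task HIDO.**  The analogue of `Pool.Agent.H604.LD.S_hid` (proved in
`Pool/Agent/H604/LD/Hid.lean`) for odd degree. -/
def S_hido : Prop :=
  ∀ (K : Type) [Field K] [Fintype K] (j : ℕ) (f : K[X]), f.Monic → Squarefree f →
    f.natDegree = 2 * j + 1 →
    (1 - (mob f : ℝ)) * ∑ i ∈ Finset.range (j + 1), ((j : ℝ) + 1 / 2 - i) *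
      ∑ D ∈ (Mn K i).filter (fun D => D ∣ f), (mob D : ℝ) =
      if Irreducible f then 2 * (j : ℝ) + 1 else 0

/-- The bound for the minor characters. -/
def S_minm : Prop :=
  ∀ (K : Type) [Field K] [Fintype K] [CharP K 2] (θ : ℝ), 0 < θ → ∃ c : ℝ, 0 < c ∧ ∃ d₀ : ℕ,
    ∀ (j t : ℕ) (χ : AddChar K[X] ℝ), d₀ ≤ j → θ * j ≤ t → Minor j t χ →
      |SM K j χ| ≤ (Fintype.card K : ℝ) ^ ((1 - c) * j)

/-- **Task MINM.**  Put `d = j + 1`, `a = X m`; then `a ^ 2 + X = X (X m ^ 2 + 1)`, both squarefree,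
`mob (X m ^ 2 + 1) = - mob (a ^ 2 + X)`, and with `A_i (a) = ∑_{D ∣ a ^ 2 + X, deg D = i} mob D` the
same sum for `X m ^ 2 + 1` is `∑_{i' ≤ i} A_{i'} (a)` (the divisors of `a ^ 2 + X` are the `D` and
`X D`, `D ∣ X m ^ 2 + 1`).  By HIDO `(2 j + 1) SM` is a combination of the
`∑_m χ m A_i (X m)` and `∑_m χ m mob ((X m) ^ 2 + X) A_i (X m)`, `i ≤ j`.  Detect `a ≡ 0` modulo `X`
with the `q` characters `a ↦ sg (b a_0)`, `b ∈ K`: these sums are `1 / q` times the sum over `b` of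
the `Nj K d i χ'`, `Mj K d i χ'` of `Pool/Agent/H290/FX/PFinx.lean`, `χ' a = χ (a.divX) sg (b a_0)`,
and `Minor j t χ` implies `Minor (j + 1) t χ'` (multiply the `s` by `X`).  The bounds `bN`, `bM` for
these sums are proved inside `PFinx.main` from `S_nearx`, `S_far2x`, `S_far1x` (copy the proof; the
three are theorems: `Asm.nearx`, `Asm.far2x`, `Asm.far1x` in `Pool/Agent/H290/FX/Asm.lean`). -/
def S_tminm : Prop := S_hido → S_nearx → S_far2x → S_far1x → S_minm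

/-- The minor characters on the multiples of `s`. -/
def S_mins : Prop :=
  ∀ (K : Type) [Field K] [Fintype K] [CharP K 2] (θ : ℝ), 0 < θ → ∃ c : ℝ, 0 < c ∧ ∃ d₀ : ℕ,
    ∀ (j k n t : ℕ) (s : K[X]) (χ : AddChar K[X] ℝ), d₀ ≤ j → θ * j ≤ t → k + n = j → s ∈ Mn K n →
      Minor j (t + n) χ →
      |∑ m ∈ Ts K k s, χ (s * m)| ≤ (Fintype.card K : ℝ) ^ ((1 - c) * j)

/-- **Task MINS.**  The sum is the sum of `χ m` over the `m ∈ Mn K j`, `Ir m`, `s ∣ m`, and the
indicator function of `s ∣ m` for `deg m < j + 1` is `q ^ (- n)` times the sum of the `ch (j + 1) H`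
with `H ∈ Vs K (j + 1)`, `Per (j + 1) (ch (j + 1) H) s` (`S_per`); for these `ψ` the character
`χ ψ` is `Minor j t`: if `r` is a period of `χ ψ` then `r s` is one of `χ`. -/
def S_tmins : Prop := S_per → S_minm → S_mins

/-- **Task CLS.**  The residue classes, from
`Pool.Agent.H604.LD.quadI Pool.Agent.H604.LD.s_bhqp K` (see the hand-in
`Pool/Agent/Results/MP_a17b09_nt/InseparableQuadratics.lean`, where this is used and the statement is
written out): if `c'` is the remainder of `c` modulo `r` and `t = r T + c'` then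
`X (s t) ^ 2 + 1 = α T ^ 2 + β`, `α = X (s r) ^ 2`, `β = X (s c') ^ 2 + 1`, `(α β)' = (s r) ^ 2`, and
`2 deg T + deg α = 2 (k + n) + 1` (take `l = 0`, `g = X ^ deg T`).  If `β` and `r` are not coprime
there are no such `t`.  The product `∏ᶠ` over the primes `P ∣ α` is `fac (X * s * r)`. -/
def S_cls : Prop :=
  ∀ (K : Type) [Field K] [Fintype K] [CharP K 2], ∃ δ θ : ℝ, 0 < δ ∧ 0 < θ ∧ ∃ d₀ : ℕ,
    ∀ (k n : ℕ) (s r c : K[X]), d₀ ≤ k → s ∈ Mn K n → r.Monic → (n : ℝ) ≤ θ * k →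
      (r.natDegree : ℝ) ≤ θ * k →
      |(2 * ((k : ℝ) + n) + 1) * (((Ts K k s).filter (fun t => r ∣ t - c)).card : ℝ) -
          (if IsCoprime (X * (s * c) ^ 2 + 1) r then
            (Fintype.card K : ℝ) ^ k / (Fintype.card K : ℝ) ^ r.natDegree / fac (X * s * r) else 0)| ≤
        (Fintype.card K : ℝ) ^ ((1 - δ) * k)

/-- The residue class divisible by `g` which is a root of `X c ^ 2 + 1` modulo `v`. -/
noncomputable def cv {K : Type} [Field K] (g v : K[X]) : K[X] :=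
  if h : ∃ c : K[X], g ∣ c ∧ v ∣ X * c ^ 2 + 1 ∧ c.degree < (g * v).degree then h.choose else 0

/-- The squarefree monic divisors `v` of `r`, coprime to `X` and to `r / v`. -/
noncomputable def DV (K : Type) [Field K] [Fintype K] (r : K[X]) : Finset K[X] :=
  ((Finset.range (r.natDegree + 1)).biUnion (fun i => Mn K i)).filter
    (fun v => v ∣ r ∧ Squarefree v ∧ IsCoprime v (X * (r /ₘ v)))

/-- The main term: at most one `v` contributes, `v = r / gcd (r, s)`. -/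
noncomputable def Mv {K : Type} [Field K] [Fintype K] (χ : AddChar K[X] ℝ) (r s : K[X]) : ℝ :=
  ∑ v ∈ (DV K r).filter (fun v => (r /ₘ v) ∣ s ∧ IsCoprime v s),
    (mob v : ℝ) * χ (cv (r /ₘ v) v) / ph v

/-- **Task CVX.**  Existence and uniqueness of the class `cv` (`g`, `v` coprime, `v` squarefree and
coprime to `X`; `rt v` is a root of `a ^ 2 + X` modulo `v` (`S_root`, proved: `PRoot.main`), take
`c ≡ 0` modulo `g`, `X c ≡ rt v` modulo `v`), and `|Mv| ≤ 1` (at most one `v`; `ph v ≥ 1`). -/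
def S_cvx : Prop :=
  ∀ (K : Type) [Field K] [Fintype K] [CharP K 2],
    (∀ g v : K[X], g.Monic → v.Monic → Squarefree v → IsCoprime v (X * g) →
      (g ∣ cv g v ∧ v ∣ X * cv g v ^ 2 + 1 ∧ (cv g v).degree < (g * v).degree) ∧
      ∀ c : K[X], g ∣ c → v ∣ X * c ^ 2 + 1 → g * v ∣ c - cv g v) ∧
    (∀ (χ : AddChar K[X] ℝ) (r s : K[X]), r.Monic → s ≠ 0 → |Mv χ r s| ≤ 1) ∧
    (∀ (χ : AddChar K[X] ℝ) (s : K[X]), s ≠ 0 → Mv χ 1 s = 1)

/-- **Task POS.**  Nonnegativity.  For `v ∈ DV K r`, `g = r / v`, the number of the `s ∈ Mn K n` with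
`g ∣ s` and `(v, s) = 1` is `ph v * q ^ (n - deg r)` (`s = g s'`, and `deg s' = n - deg g ≥ deg v`, so
`s'` is equidistributed modulo `v`).  So the sum is `q ^ (n - deg r)` times
`∑_{v ∈ DV} mob v * χ (cv (r / v) v)`.  Let `B` be the set of the monic irreducible `P ∣ r`,
`P ≠ X`, `¬ P ^ 2 ∣ r`, and `c_P = cv (r / P) P`.  The `v ∈ DV` are the products of the subsets
`S ⊆ B`, `mob v = (-1) ^ |S|`, and `cv (r / v) v = ∑_{P ∈ S} c_P` (both sides are divisible by `r / v`,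
congruent modulo each `P ∈ S`, and of degree `< deg r`), so `χ (cv (r / v) v) = ∏_{P ∈ S} χ (c_P)` and
the sum is `∏_{P ∈ B} (1 - χ (c_P)) ≥ 0` (`Finset.prod_one_add` or `Finset.prod_add`), as
`|χ| = 1` (`PExp.abs_one`). -/
def S_pos : Prop :=
  ∀ (K : Type) [Field K] [Fintype K] [CharP K 2] (n : ℕ) (r : K[X]) (χ : AddChar K[X] ℝ), r.Monic →
    r.natDegree ≤ n → 0 ≤ ∑ s ∈ Mn K n, Mv χ r s

def S_tpos : Prop := S_cvx → S_pos

/-- **Task MID.**  For `deg r > n`.  At most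
`∑_{v ∈ DV, deg (r / v) ≤ n} q ^ (n - deg r + deg v) / ph v` (the `s ∈ Mn K n` which are
multiples of `r / v`), and `∑_{v ∈ DV} q ^ deg v / ph v ≤ ∏_{P ∈ B} (1 + |P| / (|P| - 1)) ≤
∏_{P ∈ B} 3 ≤ 3 ^ N₀ * ∏_{P ∈ B} |P| ^ (1 / 2) ≤ 3 ^ N₀ * q ^ (deg r / 2)`, `B` the set of the monic
irreducible `P ∣ r`, `N₀` the number of the monic `P` with `|P| < 9`.  So the sum is at most
`3 ^ N₀ * q ^ (n - deg r / 2) ≤ 3 ^ N₀ * q ^ (n / 2)`.  (Instead of the product over `B` one may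
use the same method as in `PExp.ph_ge`, which gives `ph v ≥ q ^ (deg v / 2) / 2 ^ q`, and a bound
`C * q ^ (deg r / 4)` for the number of the `v`.)  Do not use `cv`, only `|χ| = 1` (`PExp.abs_one`). -/
def S_mid : Prop :=
  ∀ (K : Type) [Field K] [Fintype K] [CharP K 2], ∃ c : ℝ, 0 < c ∧ ∃ n₀ : ℕ,
    ∀ (n : ℕ) (r : K[X]) (χ : AddChar K[X] ℝ), n₀ ≤ n → r.Monic → n < r.natDegree →
      |∑ s ∈ Mn K n, Mv χ r s| ≤ (Fintype.card K : ℝ) ^ ((1 - c) * n)

/-- **Task RFIN.**  The finite sum.  Let `g = gcd (r, s)` (monic), `r = g v₀`, `s = g u`,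
`(u, v₀) = 1`.  The indicator function of `IsCoprime (X (s c) ^ 2 + 1) v₀` is the sum of `mob e` over
the monic `e ∣ v₀` with `e ∣ X (s c) ^ 2 + 1` (such an `e` is squarefree, the derivative of
`X (s c) ^ 2 + 1` is `(s c) ^ 2`, and coprime to `X s`; the `c` form one class modulo `e`).  The sum
over `c = c_e + e y`, `deg y < deg v₀ - deg e`, of `χ (s c)` vanishes unless `χ (s e y) = 1` for all
these `y`; then `g e` is a period: `g e = s e a + r b` (gcd of `s e` and `r`), so for `deg (g e w) < j`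
one has `g e w = s e y + r z` with `y` the remainder of `a w` modulo `v₀ / e`, `deg (r z) < j`.  By
minimality `e = v₀`.  So the sum is `mob v₀ χ (s c_0)` if `v₀` is squarefree and coprime to `X s`,
where `v₀ ∣ X (s c_0) ^ 2 + 1`, and `0` otherwise; `χ (s c_0) = χ (cv g v₀)` as the difference is
divisible by `r` and has degree `< j`; and `fac (X s) / fac (X s v₀) = q ^ deg v₀ / ph v₀`. -/
def S_rfin : Prop :=
  ∀ (K : Type) [Field K] [Fintype K] [CharP K 2] (j : ℕ) (χ : AddChar K[X] ℝ) (r s v₀ g u : K[X]),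
    MPer j χ r → s.Monic → g.Monic → v₀.Monic → r = g * v₀ → s = g * u → IsCoprime u v₀ →
    2 * (r.natDegree + s.natDegree) < j →
    fac (X * s) / ((Fintype.card K : ℝ) ^ v₀.natDegree * fac (X * s * v₀)) *
      ∑ c ∈ (Vs K v₀.natDegree).filter (fun c => IsCoprime (X * (s * c) ^ 2 + 1) v₀), χ (s * c) =
      Mv χ r s

def S_trfin : Prop := S_cvx → S_rfin

/-- **Task INN.**  The sum for fixed `s` and small minimal period `r`.  With `g, v₀, u` as in RFIN,
`χ (s t)` depends for `t ∈ Mn K k` only on `t` modulo `v₀` (`r ∣ s v₀`), and for the remainder `c` of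
`t` it is `χ (r X ^ (j - deg r)) χ (s c)` (`s (t - c)` is monic of degree `j` and divisible by `r`, so
it differs from `r X ^ (j - deg r)` by a multiple of `r` of degree `< j`).  Use CLS with `r = v₀` for
each `c ∈ Vs K (deg v₀)`, and RFIN. -/
def S_inn : Prop :=
  ∀ (K : Type) [Field K] [Fintype K] [CharP K 2], ∃ δ θ : ℝ, 0 < δ ∧ 0 < θ ∧ ∃ d₀ : ℕ,
    ∀ (j k n : ℕ) (s r : K[X]) (χ : AddChar K[X] ℝ), d₀ ≤ j → k + n = j → s ∈ Mn K n →
      (n : ℝ) ≤ θ * j → MPer j χ r → (r.natDegree : ℝ) ≤ θ * j →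
      |(2 * (j : ℝ) + 1) * fac (X * s) * ∑ t ∈ Ts K k s, χ (s * t) -
          χ (r * X ^ (j - r.natDegree)) * (Fintype.card K : ℝ) ^ k * Mv χ r s| ≤
        (Fintype.card K : ℝ) ^ ((1 - δ) * j)

def S_tinn : Prop := S_cls → S_rfin → S_inn

/-- The exponential sum of the weight. -/
noncomputable def G (K : Type) [Field K] [Fintype K] (j n : ℕ) (χ : AddChar K[X] ℝ) : ℝ :=
  (2 * (j : ℝ) + 1) / (Fintype.card K : ℝ) ^ j *
    ∑ s ∈ Mn K n, fac (X * s) * ∑ t ∈ Ts K (j - n) s, χ (s * t)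

/-- The weight on all levels `j`. -/
def S_gj : Prop :=
  ∀ (K : Type) [Field K] [Fintype K] [CharP K 2], ∃ κ c : ℝ, 0 < κ ∧ κ ≤ 1 / 4 ∧ 0 < c ∧ ∃ d₀ : ℕ,
    ∀ D : ℕ, d₀ ≤ D →
      (∀ j : ℕ, D / 2 ≤ j → j < D →
        |G K j ⌊κ * D⌋₊ 1 - 1| ≤ (Fintype.card K : ℝ) ^ (-(c * D))) ∧
      ∀ χ : AddChar K[X] ℝ, ∃ (g : ℝ) (J : ℕ), 0 ≤ g ∧ g ≤ 1 ∧ ∀ j : ℕ, D / 2 ≤ j → j < D →
        (j < J → |G K j ⌊κ * D⌋₊ χ - g| ≤ (Fintype.card K : ℝ) ^ (-(c * D))) ∧
        (j = J → |G K j ⌊κ * D⌋₊ χ| ≤ g + (Fintype.card K : ℝ) ^ (-(c * D))) ∧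
        (J < j → |G K j ⌊κ * D⌋₊ χ| ≤ (Fintype.card K : ℝ) ^ (-(c * D)))

/-- **Task GJ.**  Let `j₁ = D / 2`, `T = ⌊θ₁ D⌋` with `θ₁` small in terms of the `θ` of INN, and
`n = ⌊κ D⌋` with `κ` small in terms of `θ₁`, the `δ` of INN and the `c` of MINS for the thresholds
`θ₁ / 4` and `1 / 8` (the sum over `s` costs `q ^ n`).  Let `r` be the minimal period of `χ` on the
level `j₁` (`MPer j₁ χ r`; it exists, e.g. by `Nat.find`: `X ^ j₁` is a period).
*(I)* `deg r ≤ n`: `g = q ^ (-n) ∑_{s ∈ Mn n} Mv χ r s`, in `[0, 1]` by POS and CVX, and `J`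
the largest number `≤ D` with `Per J χ r`.  For `j₁ ≤ j ≤ J` one has `MPer j χ r` (a period on the
level `j` is one on the level `j₁`), INN gives `G = χ (r X ^ (j - deg r)) g` up to
`q ^ n q ^ (- δ j)`, and the sign is `1` for `j < J`.  For `j > J` it is not true that
`Per j χ r`; then `Minor j (j₁ - T) χ`: a period `r''` on the level `j` of degree `≤ j₁ - T` is one on
the level `j₁`, so `r ∣ r''` (UNIQ), and then `r` is a period on the level `j`: for `deg (r x) < j`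
write `x = (r'' / r) y + z`, `deg z < deg (r'' / r)`, `χ (r x) = χ (r'' y) χ (r z) = 1`.  Use MINS.
*(II)* `n < deg r ≤ T`: `g = 0`, `J = 0`; on each level `j` either `Per j χ r`, then INN and MID, or
as before MINS.  *(III)* `deg r > T`: `g = 0`, `J = 0`, `Minor j T χ`, MINS with `t = T - n`.
For `χ = 1` the minimal period is `1` on all levels, and `Mv 1 1 s = 1`. -/
def S_tgj : Prop := S_uniq → S_cvx → S_pos → S_mid → S_inn → S_mins → S_gj

/-- The final statement. -/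
def S_fs : Prop :=
  ∀ (K : Type) [Field K] [Fintype K] [CharP K 2], ∃ c : ℝ, 0 < c ∧ ∃ d₀ : ℕ,
    ∀ (D : ℕ) (A : Finset K[X]), d₀ ≤ D → (∀ a ∈ A, a.degree < (D : WithBot ℕ)) →
      (Fintype.card K : ℝ) ^ ((1 - c) * D) ≤ A.card →
      ∃ a ∈ A, ∃ b ∈ A, (a - b).Monic ∧ Ir (a - b)

/-- **Task FSD.**  Let `n = ⌊κ D⌋`, `f (H) = ∑_{a ∈ A} ch D H a`, `H ∈ Vs K D`, and
`W (H) = ∑_{D/2 ≤ j < D} 2 ^ j G K j n (ch D H)`.  If there are no such `a, b` then
`∑_H f (H) ^ 2 W (H) = 0` (orthogonality `S_orth`: for each `j, s, t` the sum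
`∑_H f (H) ^ 2 ch D H (s t)` is `q ^ D` times the number of the `a, b ∈ A` with `a + b = s t`).  By GJ
`W (H) ≥ - (2 ^ (D / 2) + 2 ^ D q ^ (- c D))` for all `H` (if `J` is a level then
`∑_{D/2 ≤ j < J} 2 ^ j - 2 ^ J = - 2 ^ (D / 2)`, times `g ≤ 1`), `W (0) ≥ 2 ^ (D - 2)` (`ch D 0 = 1`),
`f (0) = |A|` and `∑_H f (H) ^ 2 = q ^ D |A|`.  So `|A| ≤ q ^ D (2 ^ (2 - D / 2) + 4 q ^ (- c D))`. -/
def S_tfsd : Prop := S_orth → S_gj → S_fs

end Pool.Agent.H290.FX.F
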