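import Pool.Agent.H290.FX.PExp

/-!
# Sums of two `a` with `a ^ 2 + X` irreducible, up to boundedly many coefficients (helper290)

`K` is a finite field of characteristic `2`, `q` its number of elements.  There is a `k₀` such that
every polynomial of degree `< d`, `d` large, is a sum of two monic `a` of degree `d` with `a ^ 2 + X`
irreducible and of at most `k₀` monomials (an analogue of Linnik's theorem on two primes and powers of
two).  The circle method; `S_four`, `S_l2`, `S_mb`, `S_rank`, `S_conv` of `Pool/Agent/H290/FX/StmC.lean`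
are proved (`AsmF.four`, `Asm.l2`, `Asm.mb`, `PRank.main`, `PConv.main`).
-/

set_option autoImplicit false

namespace Pool.Agent.H290.FX.L

open Polynomial
open scoped Classical
open Pool.Agent.H290.FX
open Pool.Agent.H985.KP (PA)
open Pool.Agent.H694.Typ (Mn PU)

/-- The monomials `c X ^ i`, `c ≠ 0`, `i < d`; there are `(q - 1) d` of them. -/
noncomputable def Mo (K : Type) [Field K] [Fintype K] (d : ℕ) : Finset K[X] :=
  ((Finset.univ.filter (fun b : K => b ≠ 0)) ×ˢ Finset.range d).image (fun p => C p.1 * X ^ p.2)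

/-- The exponential sum over the monomials. -/
noncomputable def Gm (K : Type) [Field K] [Fintype K] [CharP K 2] (d : ℕ) (H : K[X]) : ℝ :=
  ∑ m ∈ Mo K d, ch d H m

/-- **Task LEV.**  Few `H` have a large `Gm`.  `ch d H (C c * X ^ i) = sg (c * h_i)`, `h_i` the
coefficient number `d - 1 - i` of `H`, and the sum over `c ≠ 0` is `q - 1` if `h_i = 0` and `-1`
otherwise; so `Gm = q z - d`, `z` the number of the `i < d` with `h_i = 0`.  If
`|Gm| ≥ (1 - η) (q - 1) d` then `d - z ≤ η d`, or `q = 2` and `z ≤ η d` (`η` small).  The number of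
the `H` with at most `η d` nonzero (zero) coefficients is, for `0 < x ≤ 1`, at most
`x ^ (- η d) * (1 + (q - 1) x) ^ d` (for `q = 2` the same), and with `x` and then `η` small this is
`≤ q ^ (ε d) / 2`. -/
def S_lev : Prop :=
  ∀ (K : Type) [Field K] [Fintype K] [CharP K 2] (ε : ℝ), 0 < ε → ∃ η : ℝ, 0 < η ∧ η < 1 ∧
    ∃ d₀ : ℕ, ∀ d : ℕ, d₀ ≤ d →
      (((Vs K d).filter (fun H => (1 - η) * (((Fintype.card K : ℝ) - 1) * d) ≤ |Gm K d H|)).card : ℝ) ≤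
        (Fintype.card K : ℝ) ^ (ε * d)

/-- The number of the `a` with `a ^ 2 + X`, `(a + h) ^ 2 + X` irreducible. -/
noncomputable def Np (K : Type) [Field K] [Fintype K] (d : ℕ) (h : K[X]) : ℕ :=
  ((Mn K d).filter (fun a => Irreducible (a ^ 2 + X) ∧ Irreducible ((a + h) ^ 2 + X))).card

/-- The sum of the sieve. -/
noncomputable def Lz (K : Type) [Field K] [Fintype K] (h : K[X]) (z : ℕ) : ℝ :=
  ∑ r ∈ Sq K z, ∏ᶠ P ∈ PA r, (if P ∣ h then 1 / (Fintype.card K : ℝ) ^ P.natDegree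
    else 2 / (Fintype.card K : ℝ) ^ P.natDegree)

/-- **Task SV.**  The upper bound of the large sieve.  If `|P| = 2` for some `P ∤ h` then `Np = 0`
(every `a` is in one of the two excluded classes; `deg P ≤ d / 2 < d` so that the values are not
`P` up to a constant).  Otherwise put `ω P = 1` for `P ∣ h`, `ω P = 2` for `P ∤ h`,
`b_P (a) = 1` if `P ∤ a ^ 2 + X`, `P ∤ (a + h) ^ 2 + X`, and `b_P (a) = - (|P| - ω P) / ω P` otherwise
(these `a` form exactly `ω P` residue classes, `S_root`); the mean of `b_P` over the `a` modulo `P` is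
`0`, that of `b_P ^ 2` is `v P = (|P| - ω P) / ω P ≤ |P| / ω P`.  For `r ∈ Sq K z` let
`g r = ∏_{P ∣ r} ω P / |P|`, `b_r = ∏_{P ∣ r} b_P`.  As `2 z ≤ d` the `a ∈ Mn K d` are equidistributed
modulo `lcm (r₁, r₂)` and by CRT the mean of `b_{r₁} b_{r₂}` is `0` for `r₁ ≠ r₂` and
`∏_{P ∣ r} v P` for `r₁ = r₂ = r`.  So `F a = ∑_r g r * b_r (a)` has `∑_a F a ^ 2 ≤ q ^ d * Lz`, and
`F a = Lz` for the `a` counted in `Np`. -/
def S_sv : Prop :=
  ∀ (K : Type) [Field K] [Fintype K] [CharP K 2] (d z : ℕ) (h : K[X]), 1 ≤ z → 2 * z ≤ d → h ≠ 0 →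
    h.degree < (d : WithBot ℕ) → (Np K d h : ℝ) * Lz K h z ≤ (Fintype.card K : ℝ) ^ d

def S_tsv : Prop := S_root → S_sv

/-- **Task LB.**  Lower bound for the sum of the sieve.  With `w r = 2 ^ ω (r) / |r|`, for squarefree
`r`, and `e = gcd (r, h)`: `2 ^ ω (r) = 2 ^ ω (r / e) * ∑_{e' ∣ e} 1`, so
`∑_{r ∈ Sq z} w r ≤ (∑_{e' ∣ h} 1 / |e'|) * Lz K h z` (`r = e' r'`, `e'` squarefree), and the first
factor is the product over `P ∣ h`.  And `(∑_{u ∈ Sq (z / 2)} 1 / |u|) ^ 2 ≤ (∑_g 1 / |g| ^ 2) *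
∑_{r ∈ Sq z} w r` (`g = gcd (u, v)`, `u = g u'`, `v = g v'`, `r = u' v'`), where
`∑_{u ∈ Sq y} 1 / |u| ≥ (y + 1) / 2` (at least half of the monic polynomials of degree `i` are
squarefree, `q ^ i - q ^ (i - 1)` of them for `i ≥ 2`; any constant instead of `1 / 2` is enough). -/
def S_lb : Prop :=
  ∀ (K : Type) [Field K] [Fintype K], ∃ c : ℝ, 0 < c ∧ ∀ (z : ℕ) (h : K[X]), 1 ≤ z → h ≠ 0 →
    c * (z : ℝ) ^ 2 ≤ Lz K h z * ∏ᶠ P ∈ PA h, (1 + 1 / (Fintype.card K : ℝ) ^ P.natDegree)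

/-- **Task LOG.**  The product over the `P ∣ f`: there are at most `q ^ i / i` primes of degree `i`,
and at most `deg f / y` primes `P ∣ f` of degree `≥ y`; take `q ^ y ≈ deg f`. -/
def S_log : Prop :=
  ∀ (K : Type) [Field K] [Fintype K], ∃ C₀ : ℝ, 0 < C₀ ∧ ∀ f : K[X], f ≠ 0 →
    ∏ᶠ P ∈ PA f, (1 + 1 / (Fintype.card K : ℝ) ^ P.natDegree) ≤
      C₀ * (1 + Real.log (1 + f.natDegree))

/-- **Task ROM.**  Romanoff's lemma (proof of Erdős).  For `b ≠ 0` and `f_l = X ^ l + C b`,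
`∑_{1 ≤ l < d} ∏_{P ∣ f_l} (1 + 1 / |P|) ≤ C₁ d`.  The product is `∑_s 1 / |s|` over the squarefree
monic `s ∣ f_l`.  If `s ∣ f_l` for some `l` then `X` is invertible modulo `s`; let `e (s)` be its
order.  The `l < d` with `s ∣ f_l` are in one class modulo `e (s)`, so there are at most
`d / e (s) + 1` of them.  The `+ 1`: the sum of `1 / |s|` over all `s` dividing some `f_l`, `l < d`, is
`≤ ∏_{P ∣ ∏ f_l} (1 + 1 / |P|) ≤ C (1 + log (1 + d ^ 2)) ≤ C' d` (LOG).  And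
`∑_{e (s) ≤ x} 1 / |s| ≤ ∏_{P ∣ ∏_{e ≤ x} (X ^ e - 1)} (1 + 1 / |P|) ≤ C (1 + log (1 + x ^ 2))`, so
`∑_s 1 / (|s| e (s)) ≤ ∑_k 2 ^ (-k) C (1 + log (1 + 4 ^ (k + 1)))` is bounded. -/
def S_rom : Prop :=
  ∀ (K : Type) [Field K] [Fintype K], ∃ C₁ : ℝ, 0 < C₁ ∧ ∀ (d : ℕ) (b : K), b ≠ 0 →
    ∑ l ∈ Finset.Ico 1 d, ∏ᶠ P ∈ PA (X ^ l + C b : K[X]),
      (1 + 1 / (Fintype.card K : ℝ) ^ P.natDegree) ≤ C₁ * d

def S_trom : Prop := S_log → S_rom

/-- The average over the differences of the monomials. -/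
def S_ro : Prop :=
  ∀ (K : Type) [Field K] [Fintype K] [CharP K 2], ∃ C₂ : ℝ, 0 < C₂ ∧ ∀ d : ℕ,
    ∑ p ∈ (Mo K d ×ˢ Mo K d).filter (fun p => p.1 ≠ p.2),
      ∏ᶠ P ∈ PA (p.1 + p.2), (1 + 1 / (Fintype.card K : ℝ) ^ P.natDegree) ≤ C₂ * (d : ℝ) ^ 2

/-- **Task RO.**  `C a * X ^ i + C b * X ^ j`, `i < j`, is a constant times `X ^ i * (X ^ (j - i) + C c)`,
`c ≠ 0`, and `P = X` contributes at most a factor `2`; for `i = j` it is a constant times `X ^ i`. -/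
def S_tro : Prop := S_rom → S_ro

/-- The mean square of the product of the two exponential sums. -/
def S_ub : Prop :=
  ∀ (K : Type) [Field K] [Fintype K] [CharP K 2], ∃ C₃ : ℝ, 0 < C₃ ∧ ∃ d₀ : ℕ, ∀ d : ℕ, d₀ ≤ d →
    ∑ H ∈ Vs K d, (SX K d (ch d H)) ^ 2 * (Gm K d H) ^ 2 ≤ C₃ * (Fintype.card K : ℝ) ^ (2 * d)

/-- **Task UB.**  By ORTH the sum is `q ^ d` times the number of the `a₁, a₂, m₁, m₂` with
`a₁ + a₂ = m₁ + m₂`, that is `q ^ d` times the sum over `m₁, m₂ ∈ Mo K d` of `Np K d (m₁ + m₂)`.  For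
`m₁ = m₂` this is `(q - 1) d` times the number of the `a`, which is `O (q ^ d / d)` (`PExp.real_form`
with `χ = 1`, `r = 1`; see `special` in `Pool/Agent/H290/FX/PDort.lean`).  For `m₁ ≠ m₂` use SV and LB
with `z = d / 2` and RO. -/
def S_tub : Prop := S_orth → S_sv → S_lb → S_ro → S_ub

/-- The truncated singular series. -/
noncomputable def Tt (K : Type) [Field K] [Fintype K] (t : ℕ) (h : K[X]) : ℝ :=
  ∑ r ∈ Sq K t, ∏ᶠ P ∈ PA r,
    (if P ∣ h then 1 / ((Fintype.card K : ℝ) ^ P.natDegree - 1)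
      else -1 / ((Fintype.card K : ℝ) ^ P.natDegree - 1) ^ 2)

/-- **Task SS.**  Lower bound.  For `h ≠ 0` by RANK (with `ε = θ / 4`, say, and `n → ∞`) and CONV
(`δ = 1 / 2`: for `P ∤ h` with `|P| > 2` one has `1 + lam P ≥ 1 - 1 / 9`; for `|P| = 2` and `P ∤ h` the
factor is `0`, then `L ≥ 0` is clear since all factors are `≥ 0`).  For `h = 0` all terms are
positive and the term of `r = 1` is `1`. -/
def S_ss : Prop :=
  ∀ (K : Type) [Field K] [Fintype K] [CharP K 2] (θ : ℝ), 0 < θ → ∃ c₀ : ℝ, 0 < c₀ ∧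
    ∀ ε : ℝ, 0 < ε → ∃ d₀ : ℕ, ∀ (d : ℕ) (h : K[X]), d₀ ≤ d → h.degree < (d : WithBot ℕ) →
      -ε ≤ Tt K ⌊θ * d⌋₊ h ∧
      ((Fintype.card K = 2 → h.eval 0 = 0 ∧ h.eval 1 = 0) → c₀ ≤ Tt K ⌊θ * d⌋₊ h)

def S_tss : Prop := S_rank → S_conv → S_ss

/-- The sums of two and of exactly `k` monomials. -/
def S_gl : Prop :=
  ∀ (K : Type) [Field K] [Fintype K] [CharP K 2], ∃ k₀ : ℕ, ∀ k : ℕ, k₀ ≤ k → ∃ d₀ : ℕ,
    ∀ (d : ℕ) (b : K[X]), d₀ ≤ d → b.degree < (d : WithBot ℕ) →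
      (Fintype.card K = 2 → b.eval 0 = 0 ∧ b.eval 1 = (k : K)) →
      ∃ a₁ ∈ Mn K d, ∃ a₂ ∈ Mn K d, Irreducible (a₁ ^ 2 + X) ∧ Irreducible (a₂ ^ 2 + X) ∧
        ∃ m : Fin k → K[X], (∀ i, m i ∈ Mo K d) ∧ b = a₁ + a₂ + ∑ i, m i

/-- **Task GL.**  Let `S = SX K d (ch d H)`, `G = Gm K d H`, `N = (q - 1) d = |Mo|`, `t = ⌊θ d⌋` and
`M = MT K d t (ch d H)` as in `S_four`.  The number of the representations times `q ^ d (2 d) ^ 2` is
`∑_H (2 d S) ^ 2 G ^ k ch d H b` (ORTH).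
*Main term*: `∑_H M ^ 2 G ^ k ch d H b = q ^ (2 d) ∑_{m ∈ Mo ^ k} Tt K t (b + ∑ m_i)` (MB).  By SS it is at
least `q ^ (2 d) N ^ k (c₀ / 2)`: if `q = 2` the `m` with all `m_i ≠ 1` are at least half of all `m` for
large `d`, and for these `h = b + ∑ m_i` has `h (0) = 0`, `h (1) = b (1) + k = 0`; the other `m`
contribute at least `- ε` each.
*Error*: `|(2 d S) ^ 2 - M ^ 2| ≤ |2 d S - M| (|2 d S| + |M|)`.  Let `η` be as in LEV with `ε = c / 4`, `c`
the constant of `S_four`.  The `H` with `|G| ≥ (1 - η) N` contribute at most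
`q ^ (ε d) q ^ ((1 - c) d) * 5 d q ^ d * N ^ k = o (q ^ (2 d) N ^ k)` (`|2 d S| ≤ 2 d q ^ d`,
`|M| ≤ |2 d S| + |2 d S - M|`).  The other `H` contribute at most
`((1 - η) N) ^ (k - 2) ∑_H ((2 d S) ^ 2 + M ^ 2) G ^ 2`, where
`∑_H (2 d S) ^ 2 G ^ 2 ≤ 4 C₃ d ^ 2 q ^ (2 d)` (UB) and
`M ^ 2 ≤ 2 (2 d S) ^ 2 + 2 (2 d S - M) ^ 2`; where `M ≠ 0` there is a minimal period of degree `≤ t`, so
`|2 d S - M| ≤ q ^ (d - 2 t)` (second part of `S_four`), and there are at most `2 q ^ (2 t)` such `H`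
(PER with `b = 0`; see the proof `Pool/Agent/H290/FX/PL2.lean` where this count is done), `G ^ 2 ≤ N ^ 2`.
So the error is at most `q ^ (2 d) N ^ k ((1 - η) ^ (k - 2) C + o (1))` with `C` depending only on `K`.
Choose `k₀` with `(1 - η) ^ (k₀ - 2) C ≤ c₀ / 8`. -/
def S_tgl : Prop := S_orth → S_per → S_four → S_mb → S_lev → S_ub → S_ss → S_gl

/-- The final statement: every polynomial is a sum of two, up to at most `k₀` coefficients. -/
def S_glf : Prop :=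
  ∀ (K : Type) [Field K] [Fintype K] [CharP K 2], ∃ k₀ d₀ : ℕ, ∀ (d : ℕ) (b : K[X]), d₀ ≤ d →
    b.degree < (d : WithBot ℕ) →
    ∃ a₁ a₂ : K[X], a₁.Monic ∧ a₁.natDegree = d ∧ Irreducible (a₁ ^ 2 + X) ∧
      a₂.Monic ∧ a₂.natDegree = d ∧ Irreducible (a₂ ^ 2 + X) ∧
      {i : ℕ | b.coeff i ≠ (a₁ + a₂).coeff i}.ncard ≤ k₀

/-- **Task GLF.**  Take `k = k₀` of GL.  For `q = 2` replace `b` by `b' = b + u + v`, `u ∈ {0, 1}`,
`v ∈ {0, X}` such that `b' (0) = 0`, `b' (1) = k`.  A sum of `k + 2` monomials has at most `k + 2`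
nonzero coefficients. -/
def S_tglf : Prop := S_gl → S_glf

end Pool.Agent.H290.FX.L
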