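import Pool.Agent.H290.FX.StmSz

/-!
# A prime value of a quadratic polynomial and almost prime values of inseparable forms (helper290)

`StmSz` with the forms `a i T ^ (2 ^ e i) + b i` in place of the linear forms `a i T + b i`; in
characteristic `2` each of them has at most one root modulo a prime.
-/

set_option autoImplicit false

namespace Pool.Agent.H290.FX.Sg

open Polynomial
open scoped Classical
open Pool.Agent.H290.FX
open Pool.Agent.H290.FX.Sz (al Xd S_spm)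
open Pool.Agent.H694.Typ (Mn PU)

/-- The product of the forms. -/
noncomputable def La {K : Type} [Field K] {k : ℕ} (a b : Fin k → K[X]) (e : Fin k → ℕ) (x : K[X]) :
    K[X] :=
  ∏ i, (a i * x ^ (2 ^ e i) + b i)

/-- The proportion of the allowed residue classes modulo `P` for which `P` divides a form. -/
noncomputable def wt {K : Type} [Field K] [Fintype K] {k : ℕ} (α β : K[X]) (a b : Fin k → K[X])
    (e : Fin k → ℕ) (P : K[X]) : ℝ :=
  (((al α β P).filter (fun x => P ∣ La a b e x)).card : ℝ) / ((al α β P).card : ℝ)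

/-- Admissibility. -/
def Adm {K : Type} [Field K] {k : ℕ} (α β : K[X]) (a b : Fin k → K[X]) (e : Fin k → ℕ) : Prop :=
  ∀ P : K[X], P.Monic → Irreducible P →
    ∃ x : K[X], ¬ P ∣ α * x ^ 2 + β ∧ ∀ i, ¬ P ∣ a i * x ^ (2 ^ e i) + b i

/-- The residue classes. -/
def S_spcu : Prop :=
  ∀ (K : Type) [Field K] [Fintype K] [CharP K 2], ∃ c θ : ℝ, 0 < c ∧ 0 < θ ∧
    ∀ (k : ℕ) (α β : K[X]) (a b : Fin k → K[X]) (e : Fin k → ℕ), α ≠ 0 → IsCoprime α β →
      ¬ IsSquare (α * β) →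
    ∃ d₀ : ℕ, ∀ (d : ℕ) (T : Finset K[X]), d₀ ≤ d → (∀ P ∈ T, P.Monic ∧ Irreducible P) →
      ((∑ P ∈ T, P.natDegree : ℕ) : ℝ) ≤ θ * d →
      |(((Mn K d).filter (fun t => Irreducible (α * t ^ 2 + β) ∧ ∀ P ∈ T, P ∣ La a b e t)).card : ℝ) -
        Xd K α d * ∏ P ∈ T, wt α β a b e P| ≤ (Fintype.card K : ℝ) ^ ((1 - c) * d)

/-- The local densities. -/
def S_spw : Prop :=
  ∀ (K : Type) [Field K] [Fintype K] [CharP K 2] (k : ℕ), ∃ C : ℝ, 1 ≤ C ∧
    ∀ (α β : K[X]) (a b : Fin k → K[X]) (e : Fin k → ℕ), α ≠ 0 → IsCoprime α β → Adm α β a b e →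
      ∀ P : K[X], P.Monic → Irreducible P →
        0 ≤ wt α β a b e P ∧ wt α β a b e P ≤ 1 - 1 / C ∧
          wt α β a b e P * ((Fintype.card K : ℝ) ^ P.natDegree - 1) ≤ k

/-- The sieve. -/
def S_spa : Prop :=
  ∀ (K : Type) [Field K] [Fintype K] [CharP K 2] (k : ℕ), ∃ η : ℝ, 0 < η ∧
    ∀ (α β : K[X]) (a b : Fin k → K[X]) (e : Fin k → ℕ), α ≠ 0 → IsCoprime α β →
      ¬ IsSquare (α * β) →
      Adm α β a b e → ∃ (δ : ℝ) (d₀ : ℕ), 0 < δ ∧ ∀ d : ℕ, d₀ ≤ d →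
        δ * (Fintype.card K : ℝ) ^ d / (d : ℝ) ^ (k + 1) ≤
          (((Mn K d).filter (fun t => Irreducible (α * t ^ 2 + β) ∧
            ∀ P : K[X], P.Monic → Irreducible P → (P.natDegree : ℝ) ≤ η * d →
              ¬ P ∣ La a b e t)).card : ℝ)

def S_tspa : Prop := Pool.Agent.H985.Par.S_brun → S_spcu → S_spm → S_spw → S_spa

/-- The final statement. -/
def S_spf : Prop :=
  ∀ (K : Type) [Field K] [Fintype K] [CharP K 2] (k E : ℕ), ∃ r : ℕ,
    ∀ (α β : K[X]) (a b : Fin k → K[X]) (e : Fin k → ℕ), α ≠ 0 → ¬ IsSquare (α * β) →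
      (∀ i, a i ≠ 0) → (∀ i, e i ≤ E) →
      Adm α β a b e → ∃ (δ : ℝ) (d₀ : ℕ), 0 < δ ∧ ∀ d : ℕ, d₀ ≤ d →
        δ * (Fintype.card K : ℝ) ^ d / (d : ℝ) ^ (k + 1) ≤
          ({t : K[X] | t.Monic ∧ t.natDegree = d ∧ Irreducible (α * t ^ 2 + β) ∧
            ∀ i, Multiset.card (UniqueFactorizationMonoid.factors (a i * t ^ (2 ^ e i) + b i)) ≤ r ∧
              ∀ P : K[X], Irreducible P → P ∣ a i * t ^ (2 ^ e i) + b i →
                d ≤ r * P.natDegree}.ncard : ℝ)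

def S_tspf : Prop := S_spa → S_spf

end Pool.Agent.H290.FX.Sg
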