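import Pool.Agent.H290.FX.StmSg

/-!
# The uniform version of `StmSg` (helper290)

All constants depend only on `K`, `k` (and a bound for the exponents), for `α`, `β` of degree `≤ θ d`.
-/

set_option autoImplicit false

namespace Pool.Agent.H290.FX.Su

open Polynomial
open scoped Classical
open Pool.Agent.H290.FX
open Pool.Agent.H290.FX.Sz (al Xd S_spm)
open Pool.Agent.H290.FX.Sg (La wt Adm S_spw)
open Pool.Agent.H694.Typ (Mn PU)

/-- The residue classes. -/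
def S_spcu : Prop :=
  ∀ (K : Type) [Field K] [Fintype K] [CharP K 2], ∃ c θ : ℝ, 0 < c ∧ 0 < θ ∧ ∃ d₀ : ℕ,
    ∀ (k : ℕ) (α β : K[X]) (a b : Fin k → K[X]) (e : Fin k → ℕ), α ≠ 0 → IsCoprime α β →
      ¬ IsSquare (α * β) →
    ∀ (d : ℕ) (T : Finset K[X]), d₀ ≤ d → (α.natDegree : ℝ) ≤ θ * d → (β.natDegree : ℝ) ≤ θ * d →
      (∀ P ∈ T, P.Monic ∧ Irreducible P) →
      ((∑ P ∈ T, P.natDegree : ℕ) : ℝ) ≤ θ * d →
      |(((Mn K d).filter (fun t => Irreducible (α * t ^ 2 + β) ∧ ∀ P ∈ T, P ∣ La a b e t)).card : ℝ) -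
        Xd K α d * ∏ P ∈ T, wt α β a b e P| ≤ (Fintype.card K : ℝ) ^ ((1 - c) * d)

/-- The sieve. -/
def S_spa : Prop :=
  ∀ (K : Type) [Field K] [Fintype K] [CharP K 2] (k : ℕ), ∃ η θ δ : ℝ, 0 < η ∧ 0 < θ ∧ 0 < δ ∧
    ∃ d₀ : ℕ, ∀ (α β : K[X]) (a b : Fin k → K[X]) (e : Fin k → ℕ), α ≠ 0 → IsCoprime α β →
      ¬ IsSquare (α * β) → Adm α β a b e → ∀ d : ℕ, d₀ ≤ d →
        (α.natDegree : ℝ) ≤ θ * d → (β.natDegree : ℝ) ≤ θ * d →
        δ * (Fintype.card K : ℝ) ^ d / (d : ℝ) ^ (k + 1) ≤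
          (((Mn K d).filter (fun t => Irreducible (α * t ^ 2 + β) ∧
            ∀ P : K[X], P.Monic → Irreducible P → (P.natDegree : ℝ) ≤ η * d →
              ¬ P ∣ La a b e t)).card : ℝ)

def S_tspa : Prop := Pool.Agent.H985.Par.S_brun → S_spcu → S_spm → S_spw → S_spa

/-- The final statement. -/
def S_spf : Prop :=
  ∀ (K : Type) [Field K] [Fintype K] [CharP K 2] (k E : ℕ), ∃ (r d₀ : ℕ) (θ δ : ℝ), 0 < θ ∧ 0 < δ ∧
    ∀ (d : ℕ) (α β : K[X]) (a b : Fin k → K[X]) (e : Fin k → ℕ), d₀ ≤ d → α ≠ 0 →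
      ¬ IsSquare (α * β) → (α.natDegree : ℝ) ≤ θ * d → (β.natDegree : ℝ) ≤ θ * d →
      (∀ i, e i ≤ E ∧ (a i).natDegree ≤ E * d ∧ (b i).natDegree ≤ E * d) → Adm α β a b e →
        δ * (Fintype.card K : ℝ) ^ d / (d : ℝ) ^ (k + 1) ≤
          ({t : K[X] | t.Monic ∧ t.natDegree = d ∧ Irreducible (α * t ^ 2 + β) ∧
            ∀ i, Multiset.card (UniqueFactorizationMonoid.factors (a i * t ^ (2 ^ e i) + b i)) ≤ r ∧
              ∀ P : K[X], Irreducible P → P ∣ a i * t ^ (2 ^ e i) + b i →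
                d ≤ r * P.natDegree}.ncard : ℝ)

def S_tspf : Prop := S_spa → S_spf

end Pool.Agent.H290.FX.Su
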