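import Pool.Agent.H290.FX.StmC
import Pool.Agent.H985.Par.StmPar

/-!
# A prime value of a quadratic polynomial and almost prime values of linear forms (helper290)

`K` is a finite field of characteristic `2`, `q` its number of elements.  For an inseparable quadratic
polynomial `α T ^ 2 + β` and linear forms `a i T + b i`, admissible together, there are at least
`δ q ^ d / d ^ (k + 1)` monic `T` of degree `d` with `α T ^ 2 + β` irreducible for which all `a i T + b i`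
are almost primes.  The fundamental lemma of the sieve (`Pool.Agent.H985.Par.S_brun`, proved:
`Pool.Agent.H183.Par.brun`) in the family of the `T` with `α T ^ 2 + β` irreducible.
-/

set_option autoImplicit false

namespace Pool.Agent.H290.FX.Sz

open Polynomial
open scoped Classical
open Pool.Agent.H290.FX
open Pool.Agent.H985.KP (PA)
open Pool.Agent.H694.Typ (Mn PU)

/-- The product of the linear forms. -/
noncomputable def La {K : Type} [Field K] {k : ℕ} (a b : Fin k → K[X]) (x : K[X]) : K[X] :=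
  ∏ i, (a i * x + b i)

/-- The allowed residue classes modulo `P`. -/
noncomputable def al {K : Type} [Field K] [Fintype K] (α β P : K[X]) : Finset K[X] :=
  (Vs K P.natDegree).filter (fun x => ¬ P ∣ α * x ^ 2 + β)

/-- The proportion of the allowed residue classes modulo `P` for which `P` divides a linear form. -/
noncomputable def wt {K : Type} [Field K] [Fintype K] {k : ℕ} (α β : K[X]) (a b : Fin k → K[X])
    (P : K[X]) : ℝ :=
  (((al α β P).filter (fun x => P ∣ La a b x)).card : ℝ) / ((al α β P).card : ℝ)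

/-- The main term for the number of the `T ∈ Mn K d` with `α T ^ 2 + β` irreducible. -/
noncomputable def Xd (K : Type) [Field K] [Fintype K] (α : K[X]) (d : ℕ) : ℝ :=
  (Fintype.card K : ℝ) ^ d / ((2 * (d : ℝ) + α.natDegree) *
    ∏ᶠ P ∈ PA α, (1 - 1 / (Fintype.card K : ℝ) ^ P.natDegree))

/-- Admissibility. -/
def Adm {K : Type} [Field K] {k : ℕ} (α β : K[X]) (a b : Fin k → K[X]) : Prop :=
  ∀ P : K[X], P.Monic → Irreducible P → ∃ x : K[X], ¬ P ∣ α * x ^ 2 + β ∧ ∀ i, ¬ P ∣ a i * x + b i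

/-- **Task SPC.**  The residue classes, from
`Pool.Agent.H604.LD.quadI Pool.Agent.H604.LD.s_bhqp K` (`Pool/Agent/H604/LD/FinalP.lean`; the statement is
written out in `Pool/Agent/Results/MP_a17b09_nt/InseparableQuadratics.lean`) or `quadC` (residue classes;
see `Pool/Agent/H290/FX/PFcls.lean` where it is used).  Let `D = ∏_{P ∈ T} P`.  The `t` with `t` in a
class `x` modulo `D` with `f (x) = α x ^ 2 + β` not coprime to `D` do not contribute for large `d`; for
the other classes the number is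
`q ^ (d - deg D) / ((2 d + deg α) ∏_{P ∣ α D} (1 - 1 / |P|))` up to `q ^ ((1 - δ) d)`, and by CRT the
number of the `x` with `P ∣ La x`, `P ∤ f (x)` for all `P ∈ T` is the product of the local numbers;
`|al P| = |P| - 1` if `P ∤ α` and `|P|` if `P ∣ α` (`P ∤ β` then). -/
def S_spc : Prop :=
  ∀ (K : Type) [Field K] [Fintype K] [CharP K 2] (k : ℕ) (α β : K[X]) (a b : Fin k → K[X]), α ≠ 0 →
    IsCoprime α β → ¬ IsSquare (α * β) → ∃ c θ : ℝ, 0 < c ∧ 0 < θ ∧ ∃ d₀ : ℕ,
    ∀ (d : ℕ) (T : Finset K[X]), d₀ ≤ d → (∀ P ∈ T, P.Monic ∧ Irreducible P) →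
      ((∑ P ∈ T, P.natDegree : ℕ) : ℝ) ≤ θ * d →
      |(((Mn K d).filter (fun t => Irreducible (α * t ^ 2 + β) ∧ ∀ P ∈ T, P ∣ La a b t)).card : ℝ) -
        Xd K α d * ∏ P ∈ T, wt α β a b P| ≤ (Fintype.card K : ℝ) ^ ((1 - c) * d)

/-- `S_spc` with `c`, `θ` depending only on `K`. -/
def S_spcu : Prop :=
  ∀ (K : Type) [Field K] [Fintype K] [CharP K 2], ∃ c θ : ℝ, 0 < c ∧ 0 < θ ∧
    ∀ (k : ℕ) (α β : K[X]) (a b : Fin k → K[X]), α ≠ 0 → IsCoprime α β → ¬ IsSquare (α * β) →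
    ∃ d₀ : ℕ, ∀ (d : ℕ) (T : Finset K[X]), d₀ ≤ d → (∀ P ∈ T, P.Monic ∧ Irreducible P) →
      ((∑ P ∈ T, P.natDegree : ℕ) : ℝ) ≤ θ * d →
      |(((Mn K d).filter (fun t => Irreducible (α * t ^ 2 + β) ∧ ∀ P ∈ T, P ∣ La a b t)).card : ℝ) -
        Xd K α d * ∏ P ∈ T, wt α β a b P| ≤ (Fintype.card K : ℝ) ^ ((1 - c) * d)

/-- **Task SPM.**  A lower bound of Mertens type.  There are at most `q ^ i / i` primes of degree `i`,
so `∑_{deg P ≤ m} k / (|P| - 1) ≤ k (log m + C')`; for the finitely many `P` with `|P| < 2 k + 3` use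
`1 - w P ≥ 1 / C`, for the others `1 - w ≥ exp (- w - 2 w ^ 2)` or similar. -/
def S_spm : Prop :=
  ∀ (K : Type) [Field K] [Fintype K] (k : ℕ) (C : ℝ), 1 ≤ C → ∃ c₁ : ℝ, 0 < c₁ ∧
    ∀ (w : K[X] → ℝ) (m : ℕ), 1 ≤ m →
      (∀ P : K[X], P.Monic → Irreducible P → 0 ≤ w P ∧ w P ≤ 1 - 1 / C ∧
        w P * ((Fintype.card K : ℝ) ^ P.natDegree - 1) ≤ k) →
      c₁ / (m : ℝ) ^ k ≤ ∏ P ∈ PU K m, (1 - w P)

/-- **Task SPW.**  The local densities.  `w P (|P| - 1) ≤ k`: each form has at most one root modulo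
`P` (if `P ∣ a i` then `P ∤ b i`, by admissibility) and `|al P| ≥ |P| - 1`.  `w P ≤ 1 - 1 / C`: by
admissibility at least one allowed class is not counted, so `w P ≤ 1 - 1 / |al P| ≤ 1 - 1 / |P|`, which
is enough for `|P| ≤ 2 k + 2`, otherwise `w P ≤ k / (|P| - 1) ≤ 1 / 2`. -/
def S_spw : Prop :=
  ∀ (K : Type) [Field K] [Fintype K] [CharP K 2] (k : ℕ), ∃ C : ℝ, 1 ≤ C ∧
    ∀ (α β : K[X]) (a b : Fin k → K[X]), α ≠ 0 → IsCoprime α β → Adm α β a b →
      ∀ P : K[X], P.Monic → Irreducible P →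
        0 ≤ wt α β a b P ∧ wt α β a b P ≤ 1 - 1 / C ∧
          wt α β a b P * ((Fintype.card K : ℝ) ^ P.natDegree - 1) ≤ k

/-- The sieve. -/
def S_spa : Prop :=
  ∀ (K : Type) [Field K] [Fintype K] [CharP K 2] (k : ℕ), ∃ η : ℝ, 0 < η ∧
    ∀ (α β : K[X]) (a b : Fin k → K[X]), α ≠ 0 → IsCoprime α β → ¬ IsSquare (α * β) →
      Adm α β a b → ∃ (δ : ℝ) (d₀ : ℕ), 0 < δ ∧ ∀ d : ℕ, d₀ ≤ d →
        δ * (Fintype.card K : ℝ) ^ d / (d : ℝ) ^ (k + 1) ≤
          (((Mn K d).filter (fun t => Irreducible (α * t ^ 2 + β) ∧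
            ∀ P : K[X], P.Monic → Irreducible P → (P.natDegree : ℝ) ≤ η * d →
              ¬ P ∣ La a b t)).card : ℝ)

/-- **Task SPA.**  Apply `S_brun` with `ε = 1 / 2`, the `C` of SPW (and large enough for the condition on
the sums over `y / 2 < deg P ≤ y`, which are `≤ k ∑_{y / 2 < i ≤ y} (q ^ i / i) / (q ^ i - 1)`),
`Q = PU K m`, `ℓ = natDegree`, `w = wt α β a b`, `m = ⌊η d⌋`, `A η ≤ min (θ, c / 2)`.  For
`B (t) = {P ∈ Q : P ∣ La t}`: the number of the `t` with `B (t) = ∅` is at least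
`∑_t ∑_{T ⊆ B (t)} V T = ∑_T V T #{t : T ⊆ B (t)} ≥ Xd ∑_T V T ∏_{P ∈ T} w P - #{T} q ^ ((1 - c) d)`,
where the number of the `T ⊆ Q` with `∑ deg ≤ A m` is at most that of the monic polynomials of degree
`≤ A m`.  Then SPM (`m ≤ d`). -/
def S_tspa : Prop := Pool.Agent.H985.Par.S_brun → S_spcu → S_spm → S_spw → S_spa

/-- The final statement. -/
def S_spf : Prop :=
  ∀ (K : Type) [Field K] [Fintype K] [CharP K 2] (k : ℕ), ∃ r : ℕ,
    ∀ (α β : K[X]) (a b : Fin k → K[X]), α ≠ 0 → ¬ IsSquare (α * β) → (∀ i, a i ≠ 0) →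
      Adm α β a b → ∃ (δ : ℝ) (d₀ : ℕ), 0 < δ ∧ ∀ d : ℕ, d₀ ≤ d →
        δ * (Fintype.card K : ℝ) ^ d / (d : ℝ) ^ (k + 1) ≤
          ({t : K[X] | t.Monic ∧ t.natDegree = d ∧ Irreducible (α * t ^ 2 + β) ∧
            ∀ i, Multiset.card (UniqueFactorizationMonoid.factors (a i * t + b i)) ≤ r ∧
              ∀ P : K[X], Irreducible P → P ∣ a i * t + b i → d ≤ r * P.natDegree}.ncard : ℝ)

/-- **Task SPF.**  Admissibility implies that `α` and `β` are coprime.  If no `P` of degree `≤ η d`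
divides `a i t + b i ≠ 0` then all its prime factors have degree `> η d`, and their number is at most
`deg (a i t + b i) / (η d) ≤ 2 / η` for large `d`. -/
def S_tspf : Prop := S_spa → S_spf

end Pool.Agent.H290.FX.Sz
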